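import Mathlib

set_option autoImplicit false

namespace Pool.Agent.H3.Ac

open SimpleGraph

/-- Proper edge colouring in which no cycle uses only two colours. -/
def Acy {V C : Type} (G : SimpleGraph V) (c : Sym2 V → C) : Prop :=
  (∀ a b d, G.Adj a b → G.Adj a d → b ≠ d → c s(a, b) ≠ c s(a, d)) ∧
    ∀ (v : V) (w : G.Walk v v), w.IsCycle → ∀ α β : C, ¬ ∀ e ∈ w.edges, c e = α ∨ c e = β

def EL : List (Fin 14 × Fin 14) :=
  [(0, 11), (0, 6), (0, 4), (6, 9), (6, 8), (4, 10), (4, 8), (3, 9), (2, 8), (7, 10), (3, 5), (1,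
   3), (2, 5), (2, 13), (1, 7), (5, 7), (1, 12)]

/-- The gadget. -/
def Ga : SimpleGraph (Fin 14) where
  Adj a b := (a, b) ∈ EL ∨ (b, a) ∈ EL
  symm := ⟨fun _ _ h => h.symm⟩
  loopless := ⟨by decide⟩

instance : DecidableRel Ga.Adj := fun a b => inferInstanceAs (Decidable ((a, b) ∈ EL ∨ (b, a) ∈ EL))

set_option synthInstance.maxSize 4000 in
theorem prop : ∀ x0 : Fin 3, 
    ∀ x1 : Fin 3, x0 ≠ x1 → 
    ∀ x2 : Fin 3, x0 ≠ x2 → x1 ≠ x2 → 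
    ∀ x3 : Fin 3, x1 ≠ x3 → 
    ∀ x4 : Fin 3, x1 ≠ x4 → x3 ≠ x4 → 
    ∀ x5 : Fin 3, x2 ≠ x5 → 
    ∀ x6 : Fin 3, x2 ≠ x6 → x4 ≠ x6 → x5 ≠ x6 → ¬ (x4 = x2 ∧ x1 = x6) → 
    ∀ x7 : Fin 3, x3 ≠ x7 → 
    ∀ x8 : Fin 3, x4 ≠ x8 → x6 ≠ x8 → 
    ∀ x9 : Fin 3, x5 ≠ x9 → 
    ∀ x10 : Fin 3, x7 ≠ x10 → 
    ∀ x11 : Fin 3, x7 ≠ x11 → x10 ≠ x11 → 
    ∀ x12 : Fin 3, x8 ≠ x12 → x10 ≠ x12 → ¬ (x7 = x12 ∧ x3 = x10 ∧ x4 = x12 ∧ x8 = x10) → ¬ (x8 = x2 ∧ x12 = x6 ∧ x10 = x2 ∧ x7 = x6 ∧ x3 = x2 ∧ x1 = x6) → 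
    ∀ x13 : Fin 3, x8 ≠ x13 → x12 ≠ x13 → 
    ∀ x14 : Fin 3, x9 ≠ x14 → x11 ≠ x14 → ¬ (x12 = x11 ∧ x8 = x10 ∧ x6 = x11 ∧ x5 = x10 ∧ x9 = x11 ∧ x14 = x10) → 
    ∀ x15 : Fin 3, x9 ≠ x15 → x10 ≠ x15 → x12 ≠ x15 → x14 ≠ x15 → ¬ (x15 = x11 ∧ x14 = x10) → ¬ (x9 = x12 ∧ x5 = x15 ∧ x6 = x12 ∧ x8 = x15) → ¬ (x9 = x2 ∧ x15 = x5 ∧ x12 = x2 ∧ x8 = x5 ∧ x4 = x2 ∧ x1 = x5) → ¬ (x3 = x11 ∧ x4 = x7 ∧ x8 = x11 ∧ x12 = x7 ∧ x15 = x11 ∧ x14 = x7) → 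
    ∀ x16 : Fin 3, x11 ≠ x16 → x14 ≠ x16 → 
    x0 = x16 ∧ x0 = x13 := by
  decide +kernel

theorem gadget (x : Sym2 (Fin 14) → Fin 3) (hx : Acy Ga x) :
    x s(0, 11) = x s(1, 12) ∧ x s(0, 11) = x s(2, 13) := by
  have sw : ∀ a b : Fin 14, x s(a, b) = x s(b, a) := fun a b => by rw [Sym2.eq_swap]
  have p : ∀ (v y z a b c d : Fin 14) (_ : Ga.Adj v y ∧ Ga.Adj v z ∧ y ≠ z ∧ s(v, y) = s(a, b) ∧
      s(v, z) = s(c, d)), x s(a, b) ≠ x s(c, d) := fun v y z a b c d h => by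
    rw [← h.2.2.2.1, ← h.2.2.2.2]; exact hx.1 v y z h.1 h.2.1 h.2.2.1
  have c0 : ¬ (x s(6, 8) = x s(0, 4) ∧ x s(0, 6) = x s(4, 8)) := fun h =>
    hx.2 0 (.cons (v := 4) (by decide) (.cons (v := 8) (by decide) (.cons (v := 6) (by decide) (.cons (v := 0) (by decide) .nil))))
      (by rw [Walk.isCycle_def, Walk.isTrail_def]; refine ⟨by decide, by simp, by decide⟩)
      (x s(0, 4)) (x s(4, 8)) (by
        intro e he
        simp only [Walk.edges_cons, Walk.edges_nil, List.mem_cons, List.not_mem_nil, or_false] at he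
        rcases he with rfl | rfl | rfl | rfl
        exacts [Or.inl (rfl), Or.inr (rfl), Or.inl ((sw 8 6).trans h.1), Or.inr ((sw 6 0).trans h.2)])
  have c1 : ¬ (x s(5, 7) = x s(1, 3) ∧ x s(1, 7) = x s(3, 5)) := fun h =>
    hx.2 1 (.cons (v := 3) (by decide) (.cons (v := 5) (by decide) (.cons (v := 7) (by decide) (.cons (v := 1) (by decide) .nil))))
      (by rw [Walk.isCycle_def, Walk.isTrail_def]; refine ⟨by decide, by simp, by decide⟩)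
      (x s(1, 3)) (x s(3, 5)) (by
        intro e he
        simp only [Walk.edges_cons, Walk.edges_nil, List.mem_cons, List.not_mem_nil, or_false] at he
        rcases he with rfl | rfl | rfl | rfl
        exacts [Or.inl (rfl), Or.inr (rfl), Or.inl (h.1), Or.inr ((sw 7 1).trans h.2)])
  have c2 : ¬ (x s(7, 10) = x s(2, 5) ∧ x s(4, 10) = x s(5, 7) ∧ x s(4, 8) = x s(2, 5) ∧ x s(2, 8) = x s(5, 7)) := fun h =>
    hx.2 2 (.cons (v := 5) (by decide) (.cons (v := 7) (by decide) (.cons (v := 10) (by decide) (.cons (v := 4) (by decide) (.cons (v := 8) (by decide) (.cons (v := 2) (by decide) .nil))))))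
      (by rw [Walk.isCycle_def, Walk.isTrail_def]; refine ⟨by decide, by simp, by decide⟩)
      (x s(2, 5)) (x s(5, 7)) (by
        intro e he
        simp only [Walk.edges_cons, Walk.edges_nil, List.mem_cons, List.not_mem_nil, or_false] at he
        rcases he with rfl | rfl | rfl | rfl | rfl | rfl
        exacts [Or.inl (rfl), Or.inr (rfl), Or.inl (h.1), Or.inr ((sw 10 4).trans h.2.1), Or.inl (h.2.2.1), Or.inr ((sw 8 2).trans h.2.2.2)])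
  have c3 : ¬ (x s(3, 9) = x s(2, 5) ∧ x s(6, 9) = x s(3, 5) ∧ x s(6, 8) = x s(2, 5) ∧ x s(2, 8) = x s(3, 5)) := fun h =>
    hx.2 2 (.cons (v := 5) (by decide) (.cons (v := 3) (by decide) (.cons (v := 9) (by decide) (.cons (v := 6) (by decide) (.cons (v := 8) (by decide) (.cons (v := 2) (by decide) .nil))))))
      (by rw [Walk.isCycle_def, Walk.isTrail_def]; refine ⟨by decide, by simp, by decide⟩)
      (x s(2, 5)) (x s(3, 5)) (by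
        intro e he
        simp only [Walk.edges_cons, Walk.edges_nil, List.mem_cons, List.not_mem_nil, or_false] at he
        rcases he with rfl | rfl | rfl | rfl | rfl | rfl
        exacts [Or.inl (rfl), Or.inr (sw 5 3), Or.inl (h.1), Or.inr ((sw 9 6).trans h.2.1), Or.inl (h.2.2.1), Or.inr ((sw 8 2).trans h.2.2.2)])
  have c4 : ¬ (x s(7, 10) = x s(0, 4) ∧ x s(5, 7) = x s(4, 10) ∧ x s(2, 5) = x s(0, 4) ∧ x s(2, 8) = x s(4, 10) ∧ x s(6, 8) = x s(0, 4) ∧ x s(0, 6) = x s(4, 10)) := fun h =>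
    hx.2 0 (.cons (v := 4) (by decide) (.cons (v := 10) (by decide) (.cons (v := 7) (by decide) (.cons (v := 5) (by decide) (.cons (v := 2) (by decide) (.cons (v := 8) (by decide) (.cons (v := 6) (by decide) (.cons (v := 0) (by decide) .nil))))))))
      (by rw [Walk.isCycle_def, Walk.isTrail_def]; refine ⟨by decide, by simp, by decide⟩)
      (x s(0, 4)) (x s(4, 10)) (by
        intro e he
        simp only [Walk.edges_cons, Walk.edges_nil, List.mem_cons, List.not_mem_nil, or_false] at he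
        rcases he with rfl | rfl | rfl | rfl | rfl | rfl | rfl | rfl
        exacts [Or.inl (rfl), Or.inr (rfl), Or.inl ((sw 10 7).trans h.1), Or.inr ((sw 7 5).trans h.2.1), Or.inl ((sw 5 2).trans h.2.2.1), Or.inr (h.2.2.2.1), Or.inl ((sw 8 6).trans h.2.2.2.2.1), Or.inr ((sw 6 0).trans h.2.2.2.2.2)])
  have c5 : ¬ (x s(2, 5) = x s(1, 3) ∧ x s(2, 8) = x s(3, 5) ∧ x s(4, 8) = x s(1, 3) ∧ x s(4, 10) = x s(3, 5) ∧ x s(7, 10) = x s(1, 3) ∧ x s(1, 7) = x s(3, 5)) := fun h =>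
    hx.2 1 (.cons (v := 3) (by decide) (.cons (v := 5) (by decide) (.cons (v := 2) (by decide) (.cons (v := 8) (by decide) (.cons (v := 4) (by decide) (.cons (v := 10) (by decide) (.cons (v := 7) (by decide) (.cons (v := 1) (by decide) .nil))))))))
      (by rw [Walk.isCycle_def, Walk.isTrail_def]; refine ⟨by decide, by simp, by decide⟩)
      (x s(1, 3)) (x s(3, 5)) (by
        intro e he
        simp only [Walk.edges_cons, Walk.edges_nil, List.mem_cons, List.not_mem_nil, or_false] at he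
        rcases he with rfl | rfl | rfl | rfl | rfl | rfl | rfl | rfl
        exacts [Or.inl (rfl), Or.inr (rfl), Or.inl ((sw 5 2).trans h.1), Or.inr (h.2.1), Or.inl ((sw 8 4).trans h.2.2.1), Or.inr (h.2.2.2.1), Or.inl ((sw 10 7).trans h.2.2.2.2.1), Or.inr ((sw 7 1).trans h.2.2.2.2.2)])
  have c6 : ¬ (x s(6, 9) = x s(1, 3) ∧ x s(6, 8) = x s(3, 9) ∧ x s(2, 8) = x s(1, 3) ∧ x s(2, 5) = x s(3, 9) ∧ x s(5, 7) = x s(1, 3) ∧ x s(1, 7) = x s(3, 9)) := fun h =>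
    hx.2 1 (.cons (v := 3) (by decide) (.cons (v := 9) (by decide) (.cons (v := 6) (by decide) (.cons (v := 8) (by decide) (.cons (v := 2) (by decide) (.cons (v := 5) (by decide) (.cons (v := 7) (by decide) (.cons (v := 1) (by decide) .nil))))))))
      (by rw [Walk.isCycle_def, Walk.isTrail_def]; refine ⟨by decide, by simp, by decide⟩)
      (x s(1, 3)) (x s(3, 9)) (by
        intro e he
        simp only [Walk.edges_cons, Walk.edges_nil, List.mem_cons, List.not_mem_nil, or_false] at he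
        rcases he with rfl | rfl | rfl | rfl | rfl | rfl | rfl | rfl
        exacts [Or.inl (rfl), Or.inr (rfl), Or.inl ((sw 9 6).trans h.1), Or.inr (h.2.1), Or.inl ((sw 8 2).trans h.2.2.1), Or.inr (h.2.2.2.1), Or.inl (h.2.2.2.2.1), Or.inr ((sw 7 1).trans h.2.2.2.2.2)])
  have c7 : ¬ (x s(2, 8) = x s(0, 4) ∧ x s(2, 5) = x s(4, 8) ∧ x s(3, 5) = x s(0, 4) ∧ x s(3, 9) = x s(4, 8) ∧ x s(6, 9) = x s(0, 4) ∧ x s(0, 6) = x s(4, 8)) := fun h =>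
    hx.2 0 (.cons (v := 4) (by decide) (.cons (v := 8) (by decide) (.cons (v := 2) (by decide) (.cons (v := 5) (by decide) (.cons (v := 3) (by decide) (.cons (v := 9) (by decide) (.cons (v := 6) (by decide) (.cons (v := 0) (by decide) .nil))))))))
      (by rw [Walk.isCycle_def, Walk.isTrail_def]; refine ⟨by decide, by simp, by decide⟩)
      (x s(0, 4)) (x s(4, 8)) (by
        intro e he
        simp only [Walk.edges_cons, Walk.edges_nil, List.mem_cons, List.not_mem_nil, or_false] at he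
        rcases he with rfl | rfl | rfl | rfl | rfl | rfl | rfl | rfl
        exacts [Or.inl (rfl), Or.inr (rfl), Or.inl ((sw 8 2).trans h.1), Or.inr (h.2.1), Or.inl ((sw 5 3).trans h.2.2.1), Or.inr (h.2.2.2.1), Or.inl ((sw 9 6).trans h.2.2.2.2.1), Or.inr ((sw 6 0).trans h.2.2.2.2.2)])
  exact prop (x s(0, 11)) (x s(0, 6)) (p 0 11 6 0 11 0 6 (by decide)) (x s(0, 4))
    (p 0 11 4 0 11 0 4 (by decide)) (p 0 6 4 0 6 0 4 (by decide)) (x s(6, 9)) (p 6 0 9 0 6 6 9 (by decide))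
    (x s(6, 8)) (p 6 0 8 0 6 6 8 (by decide)) (p 6 9 8 6 9 6 8 (by decide)) (x s(4, 10))
    (p 4 0 10 0 4 4 10 (by decide)) (x s(4, 8)) (p 4 0 8 0 4 4 8 (by decide)) (p 8 6 4 6 8 4 8 (by decide))
    (p 4 10 8 4 10 4 8 (by decide)) c0 (x s(3, 9)) (p 9 6 3 6 9 3 9 (by decide))
    (x s(2, 8)) (p 8 6 2 6 8 2 8 (by decide)) (p 8 4 2 4 8 2 8 (by decide)) (x s(7, 10))
    (p 10 4 7 4 10 7 10 (by decide)) (x s(3, 5)) (p 3 9 5 3 9 3 5 (by decide)) (x s(1, 3))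
    (p 3 9 1 3 9 1 3 (by decide)) (p 3 5 1 3 5 1 3 (by decide)) (x s(2, 5)) (p 2 8 5 2 8 2 5 (by decide))
    (p 5 3 2 3 5 2 5 (by decide)) c3 c7 (x s(2, 13))
    (p 2 8 13 2 8 2 13 (by decide)) (p 2 5 13 2 5 2 13 (by decide)) (x s(1, 7)) (p 7 10 1 7 10 1 7 (by decide))
    (p 1 3 7 1 3 1 7 (by decide)) c5 (x s(5, 7)) (p 7 10 5 7 10 5 7 (by decide))
    (p 5 3 7 3 5 5 7 (by decide)) (p 5 2 7 2 5 5 7 (by decide)) (p 7 1 5 1 7 5 7 (by decide)) c1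
    c2 c4 c6 (x s(1, 12))
    (p 1 3 12 1 3 1 12 (by decide)) (p 1 7 12 1 7 1 12 (by decide))

def JT : List ℕ := [1, 0, 2, 4, 3, 5, 6, 8, 7, 6, 0, 3, 1, 7, 4, 8, 2, 5, 0, 5, 7, 1, 3, 8, 4, 2, 6]

def nbT : List ℕ :=
  [100, 4, 6, 99, 7, 3, 101, 8, 5, 9, 5, 1, 10, 0, 8, 7, 3, 2, 8, 9, 0, 5, 1, 10, 6, 2, 4, 3, 6,
   9, 4, 10, 7, 103, 17, 15, 102, 14, 18, 104, 16, 19, 20, 12, 16, 21, 19, 11, 18, 13, 14, 19, 11,
   20, 16, 21, 12, 17, 15, 13, 14, 20, 17, 15, 18, 21, 105, 28, 26, 107, 25, 29, 106, 27, 30, 31,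
   23, 27, 32, 30, 22, 29, 24, 25, 30, 22, 31, 27, 32, 23, 28, 26, 24, 25, 31, 28, 26, 29, 32, 39,
   105, 37, 36, 99, 40, 38, 102, 41, 34, 42, 38, 41, 43, 33, 35, 40, 36, 33, 41, 42, 43, 38, 34,
   37, 39, 35, 42, 36, 39, 40, 37, 43, 50, 100, 48, 47, 106, 51, 52, 103, 49, 45, 49, 53, 54, 52,
   44, 51, 47, 46, 44, 53, 52, 49, 54, 45, 46, 48, 50, 53, 50, 47, 48, 51, 54, 61, 107, 59, 58,
   101, 62, 60, 104, 63, 56, 64, 60, 63, 65, 55, 57, 62, 58, 55, 63, 64, 65, 60, 56, 59, 61, 57,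
   64, 58, 61, 62, 59, 65, 72, 70, 99, 69, 73, 104, 71, 74, 106, 67, 71, 75, 74, 66, 76, 68, 69,
   73, 66, 75, 74, 76, 67, 71, 70, 68, 72, 75, 72, 69, 73, 76, 70, 81, 83, 100, 84, 80, 102, 82,
   85, 107, 86, 78, 82, 77, 87, 85, 79, 84, 80, 85, 77, 86, 78, 82, 87, 83, 79, 81, 80, 86, 83,
   87, 81, 84, 92, 94, 103, 95, 91, 101, 96, 93, 105, 93, 89, 97, 88, 96, 98, 91, 90, 95, 97, 88,
   96, 89, 98, 93, 90, 92, 94, 94, 97, 91, 98, 95, 92, 1, 34, 66, 0, 44, 77, 2, 56, 89, 12, 35,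
   78, 11, 46, 88, 13, 57, 67, 22, 33, 90, 24, 45, 68, 23, 55, 79]

def rkT : List ℕ :=
  [2, 8, 5, 7, 3, 6, 1, 9, 4, 0, 10, 2, 8, 5, 7, 3, 6, 1, 9, 4, 0, 10, 2, 8, 5, 7, 3, 6, 1, 9, 4,
   0, 10, 2, 20, 13, 17, 1, 18, 15, 19, 14, 16, 0, 20, 2, 13, 15, 19, 14, 17, 1, 18, 16, 0, 2, 20,
   13, 17, 1, 18, 15, 19, 14, 16, 0, 22, 11, 4, 8, 23, 9, 6, 10, 5, 7, 24, 22, 11, 4, 10, 6, 9,
   23, 8, 5, 24, 7, 11, 22, 4, 23, 8, 5, 10, 6, 9, 24, 7, 21, 21, 21, 12, 12, 12, 3, 3, 3, 31, 2,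
   38, 1, 34, 37, 32, 36, 33, 0, 35, 2, 11, 4, 8, 1, 9, 6, 10, 5, 7, 0, 49, 20, 13, 17, 50, 18,
   15, 19, 14, 16, 51, 2, 8, 5, 7, 3, 6, 1, 9, 4, 0, 10, 8, 2, 5, 1, 9, 4, 7, 3, 6, 0, 10, 2, 8,
   5, 7, 3, 6, 1, 9, 4, 0, 10, 4, 2, 11, 1, 7, 10, 5, 9, 6, 0, 8, 29, 13, 22, 24, 28, 23, 26, 14,
   27, 25, 15, 4, 40, 47, 43, 5, 42, 45, 41, 46, 44, 6, 3, 30, 39, 12, 3, 3, 48, 12, 21, 2, 4, 11,
   7, 1, 6, 9, 5, 10, 8, 0, 31, 2, 38, 1, 34, 37, 32, 36, 33, 0, 35, 13, 49, 20, 50, 16, 19, 14,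
   18, 15, 51, 17, 11, 2, 4, 1, 8, 5, 10, 6, 9, 0, 7, 4, 22, 29, 23, 27, 24, 5, 25, 28, 6, 26, 47,
   13, 40, 14, 44, 41, 46, 42, 45, 15, 43, 2, 8, 5, 7, 3, 6, 1, 9, 4, 0, 10, 8, 2, 5, 1, 9, 4, 7,
   3, 6, 0, 10, 2, 8, 5, 7, 3, 6, 1, 9, 4, 0, 10, 3, 3, 12, 3, 30, 39, 12, 21, 48]

def ph (i : Fin 9) (j : Fin 14) : Fin 108 :=
  Fin.ofNat 108 (if j.1 < 11 then 11 * i.1 + j.1 else 99 + JT.getD (3 * i.1 + (j.1 - 11)) 0)

def nb (a : Fin 108) (k : Fin 3) : Fin 108 := Fin.ofNat 108 (nbT.getD (3 * a.1 + k.1) 0)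

def rk (g : Fin 3) (a : Fin 108) : ℕ := rkT.getD (108 * g.1 + a.1) 0

def cc (a b : Fin 108) : Fin 3 := if nb a 0 = b then 0 else if nb a 1 = b then 1 else 2

theorem ph_inj : ∀ i j j', ph i j = ph i j' → j = j' := by decide +kernel

theorem dart : ∀ i j j', Ga.Adj j j' → ph i j' = nb (ph i j) (cc (min (ph i j) (ph i j'))
    (max (ph i j) (ph i j'))) ∧ (min (ph i j) (ph i j')).1 / 11 = i.1 := by decide +kernel

theorem rank : ∀ g a k k', k ≠ g → k' ≠ g → nb a k ≠ nb a k' → nb a k ≠ a → nb a k' ≠ a →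
    rk g (nb a k) < rk g a ∨ rk g (nb a k') < rk g a := by decide +kernel

theorem joint : ∀ i i' : Fin 9, i.1 / 3 ≠ i'.1 / 3 → ∃ j j' : Fin 3,
    ph i (j.castLE (by norm_num) + 11) = ph i' (j'.castLE (by norm_num) + 11) ∧
    ph i (j.castLE (by norm_num)) ≠ ph i' (j'.castLE (by norm_num)) := by decide +kernel

end Pool.Agent.H3.Ac
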