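import Pool.Agent.H3.Ac1

set_option autoImplicit false

namespace Pool.Agent.H3.Ac

open SimpleGraph

/-- The graph: nine gadgets glued along their pendant vertices. -/
def GG : SimpleGraph (Fin 108) where
  Adj a b := ∃ i j j', Ga.Adj j j' ∧ a = ph i j ∧ b = ph i j'
  symm := ⟨fun _ _ ⟨i, j, j', h, e, e'⟩ => ⟨i, j', j, h.symm, e', e⟩⟩
  loopless := ⟨fun _ ⟨i, j, j', h, e, e'⟩ => h.ne (ph_inj i j j' (e.symm.trans e'))⟩

def c3 : Sym2 (Fin 108) → Fin 3 :=
  Sym2.lift ⟨fun a b => cc (min a b) (max a b), fun a b => by simp only [min_comm a b, max_comm a b]⟩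

theorem nb_c3 {a b : Fin 108} (h : GG.Adj a b) : b = nb a (c3 s(a, b)) := by
  obtain ⟨i, j, j', h, rfl, rfl⟩ := h
  exact (dart i j j' h).1

theorem good : Acy GG fun e => (c3 e).1 := by
  refine ⟨fun a b d h h' hne e => hne ?_, fun v w hw α β h => ?_⟩
  · rw [nb_c3 h, Fin.ext e, ← nb_c3 h']
  obtain ⟨g, g1, g2⟩ : ∃ g : Fin 3, g.1 ≠ α ∧ g.1 ≠ β := by
    by_contra hc
    push Not at hc
    have h0 := hc 0
    have h1 := hc 1
    have h2 := hc 2
    simp only [Fin.val_zero, Fin.val_one, Fin.val_two] at h0 h1 h2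
    omega
  obtain ⟨u, hu, hm⟩ := Finset.exists_min_image w.support.toFinset (rk g) ⟨v, by simp⟩
  simp only [List.mem_toFinset] at hu hm
  obtain ⟨x, y, hxy, e⟩ := Set.ncard_eq_two.1 (hw.ncard_neighborSet_toSubgraph_eq_two hu)
  have k : ∀ z ∈ w.toSubgraph.neighborSet u, ∃ k, k ≠ g ∧ z = nb u k ∧ z ≠ u ∧ rk g u ≤ rk g z := by
    intro z hz
    have a : w.toSubgraph.Adj u z := hz
    refine ⟨_, ?_, nb_c3 a.adj_sub, a.adj_sub.ne', hm z ((w.mem_verts_toSubgraph).1 a.snd_mem)⟩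
    rintro rfl
    rcases h _ (w.mem_edges_toSubgraph.1 (a : s(u, z) ∈ _)) with h | h
    · exact g1 h
    · exact g2 h
  obtain ⟨k1, a1, rfl, a2, a3⟩ := k x (by simp [e])
  obtain ⟨k2, b1, rfl, b2, b3⟩ := k y (by simp [e])
  rcases rank g u k1 k2 a1 b1 hxy a2 b2 with h | h <;> omega

def lf (r : ℕ) (k : Fin 3) : ℕ := [0, 1, 2, 2, 3, 4, 0, 1, 3].getD (3 * r + k.1) 0

def LL : Sym2 (Fin 108) → Finset ℕ :=
  Sym2.lift ⟨fun a b => Finset.univ.image (lf ((min a b).1 / 11 % 3)), fun a b => by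
    simp only [min_comm a b]⟩

theorem LL_eq (i : Fin 9) {j j' : Fin 14} (h : Ga.Adj j j') :
    LL s(ph i j, ph i j') = Finset.univ.image (lf (i.1 % 3)) := by
  rw [← (dart i j j' h).2]; rfl

theorem LL_card : ∀ e ∈ GG.edgeSet, (LL e).card = 3 := by
  intro e he
  induction e using Sym2.ind with
  | h a b =>
    obtain ⟨i, j, j', h, rfl, rfl⟩ := he
    rw [LL_eq i h]
    revert i
    decide

set_option synthInstance.maxSize 4000 in
theorem k333 : ∀ a0 a1 a2 b0 b1 b2 : Fin 3, (∀ p ∈ [lf 0 a0, lf 1 a1, lf 2 a2],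
    p ∉ [lf 0 b0, lf 1 b1, lf 2 b2]) → ∀ c0 c1 c2 : Fin 3, ∃ p ∈ [lf 0 c0, lf 1 c1, lf 2 c2],
    p ∈ [lf 0 a0, lf 1 a1, lf 2 a2] ∨ p ∈ [lf 0 b0, lf 1 b1, lf 2 b2] := by decide +kernel

theorem bad (c : Sym2 (Fin 108) → ℕ) (hc : Acy GG c) : ¬ ∀ e ∈ GG.edgeSet, c e ∈ LL e := by
  classical
  intro h
  have key : ∀ i : Fin 9, ∃ k : Fin 3, ∀ j : Fin 3, c s(ph i (j.castLE (by norm_num)),
      ph i (j.castLE (by norm_num) + 11)) = lf (i.1 % 3) k := by
    intro i
    let x : Sym2 (Fin 14) → Fin 3 := fun e =>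
      if h : ∃ k, c (e.map (ph i)) = lf (i.1 % 3) k then h.choose else 0
    have hx : ∀ a b, Ga.Adj a b → c s(ph i a, ph i b) = lf (i.1 % 3) (x s(a, b)) := by
      intro a b hab
      have h1 := h s(ph i a, ph i b) ⟨i, a, b, hab, rfl, rfl⟩
      rw [LL_eq i hab, Finset.mem_image] at h1
      obtain ⟨k, -, hk⟩ := h1
      have h2 : ∃ k, c (Sym2.map (ph i) s(a, b)) = lf (i.1 % 3) k := ⟨k, hk.symm⟩
      simp only [x, dif_pos h2]
      exact h2.choose_spec
    let f : Ga →g GG := ⟨ph i, fun {a b} hab => ⟨i, a, b, hab, rfl, rfl⟩⟩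
    have hA : Acy Ga x := by
      refine ⟨fun a b d h1 h2 hne e => hc.1 _ _ _ (f.map_adj h1) (f.map_adj h2)
        (fun e => hne (ph_inj i _ _ e)) ?_, fun v w hw α β h1 => hc.2 _ (w.map f)
          ((Walk.isCycle_map_iff_of_injective (f := f) (fun a b => ph_inj i a b)).2 hw) (lf (i.1 % 3) α) (lf (i.1 % 3) β) ?_⟩
      · exact (hx a b h1).trans (e ▸ (hx a d h2).symm)
      · intro e he
        rw [Walk.edges_map, List.mem_map] at he
        obtain ⟨e, he, rfl⟩ := he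
        induction e using Sym2.ind with
        | h a b =>
          have h2 := hx a b (w.adj_of_mem_edges he)
          rcases h1 _ he with h3 | h3 <;> rw [h3] at h2
          · exact Or.inl h2
          · exact Or.inr h2
    obtain ⟨g1, g2⟩ := gadget x hA
    refine ⟨x s(0, 11), fun j => ?_⟩
    fin_cases j
    · exact hx 0 11 (by decide)
    · exact g1 ▸ hx 1 12 (by decide)
    · exact g2 ▸ hx 2 13 (by decide)
  choose k hk using key
  have ne : ∀ i i' : Fin 9, i.1 / 3 ≠ i'.1 / 3 → lf (i.1 % 3) (k i) ≠ lf (i'.1 % 3) (k i') := by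
    intro i i' hi
    obtain ⟨j, j', e1, e2⟩ := joint i i' hi
    have a : ∀ j : Fin 3, Ga.Adj (j.castLE (by norm_num) + 11) (j.castLE (by norm_num)) := by decide
    rw [← hk i j, ← hk i' j', Sym2.eq_swap, Sym2.eq_swap (a := ph i' _), ← e1]
    exact hc.1 _ _ _ ⟨i, _, _, a j, rfl, rfl⟩ ⟨i', _, _, a j', e1, rfl⟩ e2
  obtain ⟨p, h1, h2⟩ := k333 (k 0) (k 1) (k 2) (k 3) (k 4) (k 5) (by
    simp only [List.mem_cons, List.not_mem_nil, or_false, not_or, forall_eq_or_imp, forall_eq]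
    exact ⟨⟨ne 0 3 (by decide), ne 0 4 (by decide), ne 0 5 (by decide)⟩,
      ⟨ne 1 3 (by decide), ne 1 4 (by decide), ne 1 5 (by decide)⟩,
      ⟨ne 2 3 (by decide), ne 2 4 (by decide), ne 2 5 (by decide)⟩⟩) (k 6) (k 7) (k 8)
  simp only [List.mem_cons, List.not_mem_nil, or_false] at h1 h2
  rcases h1 with rfl | rfl | rfl <;> rcases h2 with (h | h | h) | (h | h | h)
  exacts [ne 6 0 (by decide) h, ne 6 1 (by decide) h, ne 6 2 (by decide) h, ne 6 3 (by decide) h,
    ne 6 4 (by decide) h, ne 6 5 (by decide) h, ne 7 0 (by decide) h, ne 7 1 (by decide) h,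
    ne 7 2 (by decide) h, ne 7 3 (by decide) h, ne 7 4 (by decide) h, ne 7 5 (by decide) h,
    ne 8 0 (by decide) h, ne 8 1 (by decide) h, ne 8 2 (by decide) h, ne 8 3 (by decide) h,
    ne 8 4 (by decide) h, ne 8 5 (by decide) h]

theorem inj_acy {V : Type} (G : SimpleGraph V) (c : Sym2 V → ℕ) (hc : Function.Injective c) :
    Acy G c := by
  classical
  refine ⟨fun a b d _ _ hne e => hne (Sym2.congr_right.1 (hc e)), fun v w hw α β h => ?_⟩
  have h1 : w.edges.toFinset.card ≤ ({α, β} : Finset ℕ).card :=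
    Finset.card_le_card_of_injOn c (fun e he => by simpa using h e (by simpa using he)) hc.injOn
  rw [List.toFinset_card_of_nodup hw.isTrail.edges_nodup, Walk.length_edges] at h1
  linarith [hw.three_le_length, Finset.card_le_two (a := α) (b := β)]

theorem big {V : Type} [Fintype V] [DecidableEq V] (G : SimpleGraph V) (L : Sym2 V → Finset ℕ)
    (hL : ∀ e ∈ G.edgeSet, (L e).card = Fintype.card (Sym2 V)) :
    ∃ c : Sym2 V → ℕ, Acy G c ∧ ∀ e ∈ G.edgeSet, c e ∈ L e := by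
  classical
  obtain ⟨c, h1, h2⟩ := (Finset.all_card_le_biUnion_card_iff_exists_injective
    fun e => if e ∈ G.edgeSet then L e else Finset.range (Fintype.card (Sym2 V))).1 (by
    intro s
    rcases s.eq_empty_or_nonempty with rfl | ⟨e, he⟩
    · simp
    refine (Finset.card_le_univ s).trans (le_trans ?_ (Finset.card_le_card
      (Finset.subset_biUnion_of_mem _ he)))
    split_ifs with h
    · exact (hL e h).ge
    · simp)
  exact ⟨c, inj_acy G c h1, fun e he => by simpa [he] using h2 e⟩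

end Pool.Agent.H3.Ac
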