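import Mathlib

set_option autoImplicit false

namespace Pool.Agent.H3.Box

open Finset

lemma degen {V : Type} [Fintype V] [DecidableEq V] (G : SimpleGraph V) [DecidableRel G.Adj] (k : ℕ)
    (h : ∀ U : Finset V, U.Nonempty → ∃ u ∈ U, (U.filter (fun v => G.Adj u v)).card < k + 1) :
    G.Colorable (k + 1) := by
  have key : ∀ (n : ℕ) (U : Finset V), U.card = n →
      ∃ C : V → Fin (k + 1), ∀ u ∈ U, ∀ v ∈ U, G.Adj u v → C u ≠ C v := by
    intro n
    induction n with
    | zero =>
      intro U hU
      rw [Finset.card_eq_zero] at hU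
      subst hU
      exact ⟨fun _ => 0, by simp⟩
    | succ n ih =>
      intro U hU
      obtain ⟨u, hu, hlt⟩ := h U (Finset.card_pos.1 (by omega))
      obtain ⟨C, hC⟩ := ih (U.erase u) (by rw [Finset.card_erase_of_mem hu]; omega)
      have : ((U.filter (fun v => G.Adj u v)).image C).card < (Finset.univ : Finset (Fin (k + 1))).card := by
        rw [Finset.card_univ, Fintype.card_fin]
        exact lt_of_le_of_lt Finset.card_image_le hlt
      obtain ⟨c, -, hc⟩ := Finset.exists_mem_notMem_of_card_lt_card this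
      have hc' : ∀ v ∈ U, G.Adj u v → C v ≠ c := by
        intro v hv huv e
        exact hc (Finset.mem_image.2 ⟨v, Finset.mem_filter.2 ⟨hv, huv⟩, e⟩)
      refine ⟨Function.update C u c, ?_⟩
      intro x hx y hy hxy
      by_cases e1 : x = u
      · subst e1
        have e2 : y ≠ x := hxy.ne'
        rw [Function.update_self, Function.update_of_ne e2]
        exact (hc' y hy hxy).symm
      · by_cases e2 : y = u
        · subst e2
          rw [Function.update_self, Function.update_of_ne e1]
          exact hc' x hx hxy.symm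
        · rw [Function.update_of_ne e1, Function.update_of_ne e2]
          exact hC x (Finset.mem_erase.2 ⟨e1, hx⟩) y (Finset.mem_erase.2 ⟨e2, hy⟩) hxy
  obtain ⟨C, hC⟩ := key _ Finset.univ rfl
  exact ⟨SimpleGraph.Coloring.mk C (fun {a b} hab => hC a (mem_univ _) b (mem_univ _) hab)⟩

lemma exists_sub {V : Type} [Fintype V] (G : SimpleGraph V) (k : ℕ) (h : ¬ G.Colorable (k + 1)) :
    ∃ H : SimpleGraph V, H ≤ G ∧ (∃ u v, H.Adj u v) ∧
      ∀ u v, H.Adj u v → k + 1 ≤ (H.neighborSet u).ncard := by
  classical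
  have : ¬ ∀ U : Finset V, U.Nonempty → ∃ u ∈ U, (U.filter (fun v => G.Adj u v)).card < k + 1 :=
    fun hh => h (degen G k hh)
  push Not at this
  obtain ⟨U, hU, hdeg⟩ := this
  let H : SimpleGraph V :=
    { Adj := fun u v => G.Adj u v ∧ u ∈ U ∧ v ∈ U
      symm := ⟨fun u v huv => ⟨huv.1.symm, huv.2.2, huv.2.1⟩⟩
      loopless := ⟨fun u huu => G.irrefl huu.1⟩ }
  have hn : ∀ u ∈ U, H.neighborSet u = ↑(U.filter (fun v => G.Adj u v)) := by
    intro u hu
    ext v
    simp only [SimpleGraph.mem_neighborSet, H, Finset.coe_filter, Set.mem_ofPred_eq]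
    tauto
  refine ⟨H, fun u v huv => huv.1, ?_, ?_⟩
  · obtain ⟨u, hu⟩ := hU
    have := hdeg u hu
    obtain ⟨v, hv⟩ := Finset.card_pos.1 (lt_of_lt_of_le (Nat.succ_pos k) this)
    rw [Finset.mem_filter] at hv
    exact ⟨u, v, hv.2, hu, hv.1⟩
  · intro u v huv
    rw [hn u huv.2.1, Set.ncard_coe_finset]
    exact hdeg u huv.2.1

lemma sum_fst {V : Type} [Fintype V] [DecidableEq V] (R : Finset (V × V)) (x : V → ℝ) :
    ∑ p ∈ R, x p.1 = ∑ u, ((R.filter (fun p => p.1 = u)).card : ℝ) * x u := by
  rw [← Finset.sum_fiberwise (s := R) (g := fun p => p.1)]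
  apply Finset.sum_congr rfl
  intro u _
  rw [Finset.sum_congr rfl (g := fun _ => x u)]
  · simp
  · intro p hp
    rw [(Finset.mem_filter.1 hp).2]

lemma sum_snd {V : Type} [Fintype V] [DecidableEq V] (R : Finset (V × V)) (x : V → ℝ) :
    ∑ p ∈ R, x p.2 = ∑ u, ((R.filter (fun p => p.2 = u)).card : ℝ) * x u := by
  rw [← Finset.sum_fiberwise (s := R) (g := fun p => p.2)]
  apply Finset.sum_congr rfl
  intro u _
  rw [Finset.sum_congr rfl (g := fun _ => x u)]
  · simp
  · intro p hp
    rw [(Finset.mem_filter.1 hp).2]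

lemma ferrers_sub {V : Type} [Fintype V] [DecidableEq V] (A : Finset (V × V)) (x y : V → ℝ)
    (R' : Finset (V × V)) (hR' : R' ⊆ A)
    (h1 : ∀ u, ((A.filter (fun p => x p.1 < y p.2)).filter (fun p => p.1 = u)).card =
      (R'.filter (fun p => p.1 = u)).card)
    (h2 : ∀ u, ((A.filter (fun p => x p.1 < y p.2)).filter (fun p => p.2 = u)).card =
      (R'.filter (fun p => p.2 = u)).card) :
    A.filter (fun p => x p.1 < y p.2) ⊆ R' := by
  set R := A.filter (fun p => x p.1 < y p.2) with hR
  have e : ∑ p ∈ R, (y p.2 - x p.1) = ∑ p ∈ R', (y p.2 - x p.1) := by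
    rw [Finset.sum_sub_distrib, Finset.sum_sub_distrib, sum_fst, sum_fst, sum_snd, sum_snd]
    simp only [h1, h2]
  have e1 := Finset.sum_inter_add_sum_sdiff R R' (fun p => y p.2 - x p.1)
  have e2 := Finset.sum_inter_add_sum_sdiff R' R (fun p => y p.2 - x p.1)
  rw [Finset.inter_comm] at e2
  have n2 : ∑ p ∈ R' \ R, (y p.2 - x p.1) ≤ 0 := by
    apply Finset.sum_nonpos
    intro p hp
    rw [Finset.mem_sdiff, hR, Finset.mem_filter] at hp
    have : ¬ x p.1 < y p.2 := fun hh => hp.2 ⟨hR' hp.1, hh⟩
    linarith [not_lt.1 this]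
  by_contra hne
  have hne' : (R \ R').Nonempty := by
    rw [Finset.sdiff_nonempty]; exact hne
  have p1 : 0 < ∑ p ∈ R \ R', (y p.2 - x p.1) := by
    apply Finset.sum_pos _ hne'
    intro p hp
    rw [Finset.mem_sdiff, hR, Finset.mem_filter] at hp
    linarith [hp.1.2]
  linarith

lemma growth (m : ℕ) : ∃ K : ℕ, ∀ d : ℕ, K ≤ d → (d + 1) ^ m < 2 ^ d := by
  have h := tendsto_pow_const_div_const_pow_of_one_lt m (r := 2) (by norm_num)
  have h2 := (h.eventually (gt_mem_nhds (show (0 : ℝ) < 1 / 2 by norm_num)))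
  obtain ⟨K, hK⟩ := Filter.eventually_atTop.1 h2
  refine ⟨K, fun d hd => ?_⟩
  have := hK (d + 1) (by omega)
  rw [div_lt_iff₀ (by positivity)] at this
  have h3 : (((d + 1 : ℕ) : ℝ)) ^ m < (2 : ℝ) ^ d := by
    rw [pow_succ] at this; linarith
  exact_mod_cast h3

theorem count_box {V : Type} [Fintype V] (H : SimpleGraph V) (m K : ℕ)
    (hK : ∀ d : ℕ, K ≤ d → (d + 1) ^ (4 * m) < 2 ^ d)
    (hne : ∃ u v, H.Adj u v) (hdeg : ∀ u v, H.Adj u v → K ≤ (H.neighborSet u).ncard)
    (hbox : ∀ J : SimpleGraph V, J ≤ H → ∃ l r : V → Fin m → ℝ,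
      ∀ u v : V, u ≠ v → (J.Adj u v ↔ ∀ i, max (l u i) (l v i) ≤ min (r u i) (r v i)) ∧
        ∀ v i, l v i ≤ r v i) : False := by
  classical
  choose! l r hlr using hbox
  set A : Finset (V × V) := Finset.univ.filter (fun p => H.Adj p.1 p.2) with hA
  let R : SimpleGraph V → Fin m → Finset (V × V) := fun J i =>
    A.filter (fun p => r J p.1 i < l J p.2 i)
  let Φ : Finset (Sym2 V) → (V → (Fin m × Bool) → ℕ) := fun S u ib =>
    if ib.2 then ((R (SimpleGraph.fromEdgeSet (S : Set (Sym2 V))) ib.1).filter (fun p => p.1 = u)).card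
    else ((R (SimpleGraph.fromEdgeSet (S : Set (Sym2 V))) ib.1).filter (fun p => p.2 = u)).card
  have hle : ∀ S ∈ H.edgeFinset.powerset, SimpleGraph.fromEdgeSet (S : Set (Sym2 V)) ≤ H := by
    intro S hS u v huv
    rw [SimpleGraph.fromEdgeSet_adj] at huv
    have := Finset.mem_powerset.1 hS huv.1
    simpa using this
  have hmaps : ∀ S ∈ H.edgeFinset.powerset, Φ S ∈
      Fintype.piFinset (fun u : V => Fintype.piFinset
        (fun _ : Fin m × Bool => Finset.range (H.degree u + 1))) := by
    intro S _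
    simp only [Fintype.mem_piFinset, Finset.mem_range]
    rintro u ⟨i, b⟩
    rw [Nat.lt_succ_iff, ← SimpleGraph.card_neighborFinset_eq_degree]
    cases b
    · simp only [Φ, Bool.false_eq_true, if_false]
      apply Finset.card_le_card_of_injOn (fun p => p.1)
      · intro p hp
        simp only [R, hA, Finset.coe_filter, Finset.mem_filter, Finset.mem_univ, true_and,
          Set.mem_ofPred_eq] at hp
        have := hp.1.1
        rw [hp.2] at this
        simpa using this.symm
      · intro p hp q hq e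
        simp only [Finset.coe_filter, Set.mem_ofPred_eq] at hp hq
        exact Prod.ext e (hp.2.trans hq.2.symm)
    · simp only [Φ, if_true]
      apply Finset.card_le_card_of_injOn (fun p => p.2)
      · intro p hp
        simp only [R, hA, Finset.coe_filter, Finset.mem_filter, Finset.mem_univ, true_and,
          Set.mem_ofPred_eq] at hp
        have := hp.1.1
        rw [hp.2] at this
        simpa using this
      · intro p hp q hq e
        simp only [Finset.coe_filter, Set.mem_ofPred_eq] at hp hq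
        exact Prod.ext (hp.2.trans hq.2.symm) e
  have hadj : ∀ J : SimpleGraph V, J ≤ H → ∀ u v, H.Adj u v →
      (J.Adj u v ↔ ∀ i, (u, v) ∉ R J i ∧ (v, u) ∉ R J i) := by
    intro J hJ u v huv
    obtain ⟨h1, h2⟩ := hlr J hJ u v huv.ne
    rw [h1]
    apply forall_congr'
    intro i
    simp only [R, hA, Finset.mem_filter, Finset.mem_univ, true_and, huv, huv.symm, not_lt,
      max_le_iff, le_min_iff]
    have a1 := h2 u i
    have a2 := h2 v i
    tauto
  have hinj : Set.InjOn Φ (H.edgeFinset.powerset : Set (Finset (Sym2 V))) := by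
    intro S hS S' hS' e
    have hS1 : S ∈ H.edgeFinset.powerset := hS
    have hS2 : S' ∈ H.edgeFinset.powerset := hS'
    have hR : ∀ i, R (SimpleGraph.fromEdgeSet (S : Set (Sym2 V))) i =
        R (SimpleGraph.fromEdgeSet (S' : Set (Sym2 V))) i := by
      intro i
      have e1 : ∀ u, Φ S u (i, true) = Φ S' u (i, true) := fun u => by rw [e]
      have e2 : ∀ u, Φ S u (i, false) = Φ S' u (i, false) := fun u => by rw [e]
      simp only [Φ, if_true, Bool.false_eq_true, if_false] at e1 e2
      apply Finset.Subset.antisymm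
      · exact ferrers_sub A (fun u => r _ u i) (fun u => l _ u i) _ (Finset.filter_subset _ _) e1 e2
      · exact ferrers_sub A (fun u => r _ u i) (fun u => l _ u i) _ (Finset.filter_subset _ _)
          (fun u => (e1 u).symm) (fun u => (e2 u).symm)
    have key : ∀ u v, H.Adj u v → (s(u, v) ∈ S ↔ s(u, v) ∈ S') := by
      intro u v huv
      have a1 := hadj _ (hle S hS1) u v huv
      have a2 := hadj _ (hle S' hS2) u v huv
      simp only [hR] at a1
      have := a1.trans a2.symm
      simpa [SimpleGraph.fromEdgeSet_adj, huv.ne] using this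
    ext z
    induction z using Sym2.ind with
    | _ u v =>
      by_cases huv : H.Adj u v
      · exact key u v huv
      · constructor
        · intro hz
          exact absurd (by simpa using Finset.mem_powerset.1 hS1 hz) huv
        · intro hz
          exact absurd (by simpa using Finset.mem_powerset.1 hS2 hz) huv
  have hcard := Finset.card_le_card_of_injOn Φ hmaps hinj
  rw [Finset.card_powerset, Fintype.card_piFinset] at hcard
  simp only [Fintype.card_piFinset, Finset.card_range, Finset.prod_const, Finset.card_univ,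
    Fintype.card_prod, Fintype.card_fin, Fintype.card_bool] at hcard
  have hsq : 2 ^ (∑ u, H.degree u) ≤ ∏ u, (H.degree u + 1) ^ (4 * m) := by
    rw [SimpleGraph.sum_degrees_eq_twice_card_edges, mul_comm, pow_mul]
    calc (2 ^ H.edgeFinset.card) ^ 2 ≤ (∏ u, (H.degree u + 1) ^ (m * 2)) ^ 2 :=
          Nat.pow_le_pow_left hcard 2
      _ = ∏ u, (H.degree u + 1) ^ (4 * m) := by
          rw [← Finset.prod_pow]
          apply Finset.prod_congr rfl
          intro u _
          rw [← pow_mul]; congr 1; ring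
  have hd : ∀ u v, H.Adj u v → K ≤ H.degree u := by
    intro u v huv
    have := hdeg u v huv
    rwa [Set.ncard_eq_toFinset_card', ← SimpleGraph.neighborFinset_def,
      SimpleGraph.card_neighborFinset_eq_degree] at this
  have hlt : ∏ u, (H.degree u + 1) ^ (4 * m) < ∏ u, 2 ^ (H.degree u) := by
    apply Finset.prod_lt_prod
    · intro u _; positivity
    · intro u _
      by_cases hu : ∃ v, H.Adj u v
      · obtain ⟨v, hv⟩ := hu
        exact (hK _ (hd u v hv)).le
      · have : H.degree u = 0 := by
          by_contra h0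
          exact hu ((H.degree_pos_iff_exists_adj u).1 (Nat.pos_of_ne_zero h0))
        simp [this]
    · obtain ⟨u, v, huv⟩ := hne
      exact ⟨u, mem_univ _, hK _ (hd u v huv)⟩
  rw [Finset.prod_pow_eq_pow_sum] at hlt
  omega

end Pool.Agent.H3.Box
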