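import Mathlib
import Pool.Agent.H3.Box

set_option autoImplicit false

namespace Pool.Agent.H3.Bip

open Finset

lemma sum_fib {X Y : Type} [Fintype Y] [DecidableEq Y] (R : Finset X) (g : X → Y) (x : Y → ℝ) :
    ∑ p ∈ R, x (g p) = ∑ u, ((R.filter (fun p => g p = u)).card : ℝ) * x u := by
  rw [← Finset.sum_fiberwise (s := R) (g := g)]
  apply Finset.sum_congr rfl
  intro u _
  rw [Finset.sum_congr rfl (g := fun _ => x u)]
  · simp
  · intro p hp
    rw [(Finset.mem_filter.1 hp).2]

lemma ferrers_sub {A B : Type} [Fintype A] [Fintype B] [DecidableEq A] [DecidableEq B]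
    (E : Finset (A × B)) (x : A → ℝ) (y : B → ℝ)
    (R' : Finset (A × B)) (hR' : R' ⊆ E)
    (h1 : ∀ u, ((E.filter (fun p => x p.1 < y p.2)).filter (fun p => p.1 = u)).card =
      (R'.filter (fun p => p.1 = u)).card)
    (h2 : ∀ u, ((E.filter (fun p => x p.1 < y p.2)).filter (fun p => p.2 = u)).card =
      (R'.filter (fun p => p.2 = u)).card) :
    E.filter (fun p => x p.1 < y p.2) ⊆ R' := by
  set R := E.filter (fun p => x p.1 < y p.2) with hR
  have e : ∑ p ∈ R, (y p.2 - x p.1) = ∑ p ∈ R', (y p.2 - x p.1) := by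
    rw [Finset.sum_sub_distrib, Finset.sum_sub_distrib, sum_fib R Prod.fst, sum_fib R' Prod.fst,
      sum_fib R Prod.snd, sum_fib R' Prod.snd]
    simp only [h1, h2]
  have e1 := Finset.sum_inter_add_sum_sdiff R R' (fun p => y p.2 - x p.1)
  have e2 := Finset.sum_inter_add_sum_sdiff R' R (fun p => y p.2 - x p.1)
  rw [Finset.inter_comm] at e2
  have n2 : ∑ p ∈ R' \ R, (y p.2 - x p.1) ≤ 0 := by
    apply Finset.sum_nonpos
    intro p hp
    rw [Finset.mem_sdiff, hR, Finset.mem_filter] at hp
    have : ¬ x p.1 < y p.2 := fun hh => hp.2 ⟨hR' hp.1, hh⟩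
    linarith [not_lt.1 this]
  by_contra hne
  have hne' : (R \ R').Nonempty := by
    rw [Finset.sdiff_nonempty]; exact hne
  have p1 : 0 < ∑ p ∈ R \ R', (y p.2 - x p.1) := by
    apply Finset.sum_pos _ hne'
    intro p hp
    rw [Finset.mem_sdiff, hR, Finset.mem_filter] at hp
    linarith [hp.1.2]
  linarith

lemma growth2 (m : ℕ) : ∃ c : ℕ, ∀ t : ℕ, (t + 1) ^ m ≤ 2 ^ c * 2 ^ t := by
  obtain ⟨K, hK⟩ := Pool.Agent.H3.Box.growth m
  refine ⟨K * m, fun t => ?_⟩
  by_cases ht : K ≤ t
  · exact (hK t ht).le.trans (Nat.le_mul_of_pos_left _ (by positivity))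
  · have h1 : t + 1 ≤ 2 ^ K := by
      have := Nat.lt_two_pow_self (n := K)
      omega
    calc (t + 1) ^ m ≤ (2 ^ K) ^ m := Nat.pow_le_pow_left h1 m
      _ = 2 ^ (K * m) := by rw [← pow_mul]
      _ ≤ 2 ^ (K * m) * 2 ^ t := Nat.le_mul_of_pos_right _ (by positivity)

theorem count_bip (d : ℕ) : ∃ c : ℕ, ∀ (A B : Type) [Fintype A] [Fintype B] (E : Finset (A × B)),
    (∀ S : Finset (A × B), S ⊆ E → ∃ (x : Fin d → A → ℝ) (y : Fin d → B → ℝ),
      ∀ p ∈ E, (p ∈ S ↔ ∀ i, x i p.1 < y i p.2)) →
    E.card ≤ c * (Fintype.card A + Fintype.card B) := by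
  classical
  obtain ⟨c, hc⟩ := growth2 (d * 4)
  refine ⟨c, ?_⟩
  intro A B _ _ E h
  choose! x y hxy using h
  let R : Finset (A × B) → Fin d → Finset (A × B) := fun S i =>
    E.filter (fun p => x S i p.1 < y S i p.2)
  let da : A → ℕ := fun a => (E.filter (fun p => p.1 = a)).card
  let db : B → ℕ := fun b => (E.filter (fun p => p.2 = b)).card
  let Φ : Finset (A × B) → (A → Fin d → ℕ) × (B → Fin d → ℕ) := fun S =>
    (fun a i => ((R S i).filter (fun p => p.1 = a)).card,
     fun b i => ((R S i).filter (fun p => p.2 = b)).card)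
  have hmaps : ∀ S ∈ E.powerset, Φ S ∈
      (Fintype.piFinset (fun a : A => Fintype.piFinset (fun _ : Fin d => range (da a + 1)))) ×ˢ
      (Fintype.piFinset (fun b : B => Fintype.piFinset (fun _ : Fin d => range (db b + 1)))) := by
    intro S _
    simp only [Finset.mem_product, Fintype.mem_piFinset, Finset.mem_range, Nat.lt_succ_iff]
    constructor
    · intro a i
      exact Finset.card_le_card (Finset.filter_subset_filter _ (Finset.filter_subset _ _))
    · intro b i
      exact Finset.card_le_card (Finset.filter_subset_filter _ (Finset.filter_subset _ _))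
  have hinj : Set.InjOn Φ (E.powerset : Set (Finset (A × B))) := by
    intro S hS S' hS' e
    have hS1 : S ⊆ E := Finset.mem_powerset.1 hS
    have hS2 : S' ⊆ E := Finset.mem_powerset.1 hS'
    have hR : ∀ i, R S i = R S' i := by
      intro i
      have e1 : ∀ u, (Φ S).1 u i = (Φ S').1 u i := fun u => by rw [e]
      have e2 : ∀ u, (Φ S).2 u i = (Φ S').2 u i := fun u => by rw [e]
      apply Finset.Subset.antisymm
      · exact ferrers_sub E (x S i) (y S i) _ (Finset.filter_subset _ _) e1 e2
      · exact ferrers_sub E (x S' i) (y S' i) _ (Finset.filter_subset _ _)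
          (fun u => (e1 u).symm) (fun u => (e2 u).symm)
    ext p
    by_cases hp : p ∈ E
    · rw [hxy S hS1 p hp, hxy S' hS2 p hp]
      apply forall_congr'
      intro i
      have : p ∈ R S i ↔ p ∈ R S' i := by rw [hR i]
      simpa only [R, Finset.mem_filter, hp, true_and] using this
    · exact ⟨fun h => absurd (hS1 h) hp, fun h => absurd (hS2 h) hp⟩
  have hcard := Finset.card_le_card_of_injOn Φ hmaps hinj
  rw [Finset.card_powerset, Finset.card_product, Fintype.card_piFinset, Fintype.card_piFinset]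
    at hcard
  simp only [Fintype.card_piFinset, Finset.card_range, Finset.prod_const, Finset.card_univ,
    Fintype.card_fin] at hcard
  have sa : ∑ a, da a = E.card :=
    (Finset.card_eq_sum_card_fiberwise (f := Prod.fst) (fun _ _ => mem_univ _)).symm
  have sb : ∑ b, db b = E.card :=
    (Finset.card_eq_sum_card_fiberwise (f := Prod.snd) (fun _ _ => mem_univ _)).symm
  have ba : (∏ a, (da a + 1) ^ d) ^ 4 ≤ 2 ^ (c * Fintype.card A) * 2 ^ E.card := by
    rw [← Finset.prod_pow]
    calc ∏ a, ((da a + 1) ^ d) ^ 4 ≤ ∏ a, (2 ^ c * 2 ^ da a) := by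
          apply Finset.prod_le_prod'
          intro a _
          rw [← pow_mul]; exact hc _
      _ = 2 ^ (c * Fintype.card A) * 2 ^ E.card := by
          rw [Finset.prod_mul_distrib, Finset.prod_const, Finset.prod_pow_eq_pow_sum, sa,
            Finset.card_univ, ← pow_mul]
  have bb : (∏ b, (db b + 1) ^ d) ^ 4 ≤ 2 ^ (c * Fintype.card B) * 2 ^ E.card := by
    rw [← Finset.prod_pow]
    calc ∏ b, ((db b + 1) ^ d) ^ 4 ≤ ∏ b, (2 ^ c * 2 ^ db b) := by
          apply Finset.prod_le_prod'
          intro a _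
          rw [← pow_mul]; exact hc _
      _ = 2 ^ (c * Fintype.card B) * 2 ^ E.card := by
          rw [Finset.prod_mul_distrib, Finset.prod_const, Finset.prod_pow_eq_pow_sum, sb,
            Finset.card_univ, ← pow_mul]
  have h4 : 2 ^ (E.card * 4) ≤ 2 ^ (c * Fintype.card A + E.card + (c * Fintype.card B + E.card)) := by
    rw [pow_mul, pow_add, pow_add, pow_add]
    calc (2 ^ E.card) ^ 4 ≤ ((∏ a, (da a + 1) ^ d) * ∏ b, (db b + 1) ^ d) ^ 4 :=
          Nat.pow_le_pow_left hcard 4
      _ = (∏ a, (da a + 1) ^ d) ^ 4 * (∏ b, (db b + 1) ^ d) ^ 4 := mul_pow _ _ _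
      _ ≤ _ := Nat.mul_le_mul ba bb
  have h5 := (Nat.pow_le_pow_iff_right (by norm_num : 1 < 2)).1 h4
  rw [mul_add]
  omega

lemma exists_cut {W : Type} [Fintype W] [DecidableEq W] (D : Finset (W × W))
    (hD : ∀ p ∈ D, p.1 ≠ p.2) :
    ∃ s : W → Bool, D.card ≤ 4 * (D.filter (fun p => s p.1 = false ∧ s p.2 = true)).card := by
  have key : ∀ p ∈ D, (univ : Finset (W → Bool)).card ≤
      4 * ((univ : Finset (W → Bool)).filter (fun s => s p.1 = false ∧ s p.2 = true)).card := by
    intro p hp
    have hne := hD p hp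
    have : (univ : Finset (W → Bool)).card ≤ ((univ : Finset (Bool × Bool)) ×ˢ
        ((univ : Finset (W → Bool)).filter (fun s => s p.1 = false ∧ s p.2 = true))).card := by
      apply Finset.card_le_card_of_injOn (fun s => ((s p.1, s p.2),
        Function.update (Function.update s p.1 false) p.2 true))
      · intro s _
        simp [Function.update_of_ne hne]
      · intro s _ s' _ e
        simp only [Prod.mk.injEq] at e
        obtain ⟨⟨e1, e2⟩, e3⟩ := e
        funext w
        by_cases h1 : w = p.1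
        · rw [h1]; exact e1
        · by_cases h2 : w = p.2
          · rw [h2]; exact e2
          · have := congrFun e3 w
            simpa [Function.update_of_ne h1, Function.update_of_ne h2] using this
    rw [Finset.card_product] at this
    simpa using this
  have hsum : ∑ _s : W → Bool, D.card ≤
      ∑ s : W → Bool, 4 * (D.filter (fun p => s p.1 = false ∧ s p.2 = true)).card := by
    rw [← Finset.mul_sum]
    have : ∑ s : W → Bool, (D.filter (fun p => s p.1 = false ∧ s p.2 = true)).card =
        ∑ p ∈ D, ((univ : Finset (W → Bool)).filter (fun s => s p.1 = false ∧ s p.2 = true)).card := by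
      simp only [Finset.card_filter]
      exact Finset.sum_comm
    rw [this, Finset.mul_sum, Finset.sum_const, smul_eq_mul, mul_comm, ← smul_eq_mul,
      ← Finset.sum_const]
    exact Finset.sum_le_sum key
  obtain ⟨s, -, hs⟩ := Finset.exists_le_of_sum_le (Finset.univ_nonempty) hsum
  exact ⟨s, hs⟩

end Pool.Agent.H3.Bip
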