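import Pool.Agent.H3.St3

set_option autoImplicit false

namespace Pool.Agent.H3.St

open Set MeasureTheory
open scoped ENNReal

variable {V ι : Type} [NormedAddCommGroup V] [NormedSpace ℝ V] [FiniteDimensional ℝ V]
  [Fintype ι] [DecidableEq ι]

theorem dual (F : Set (Finset ι)) (hF : ∀ t, {t} ∈ F) (q : ι → V) :
    ∃ (e : Finset ι → V) (ψ : (ι → V) →ₗ[ℝ] ℝ), (∀ W, W ∉ F → e W = 0) ∧
      (∀ t, q t = ∑ W, if t ∈ W then e W else 0) ∧
      (∀ W ∈ F, ∀ v : V, ψ (fun t => if t ∈ W then v else 0) ≤ ‖v‖) ∧ ψ q = ∑ W, ‖e W‖ := by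
  classical
  let Φ : PiLp 1 (fun _ : Finset ι => V) →ₗ[ℝ] (ι → V) :=
    { toFun := fun e t => ∑ W, if t ∈ W ∧ W ∈ F then e W else 0
      map_add' := fun a b => by
        ext t
        simp only [PiLp.add_apply, Pi.add_apply, ← Finset.sum_add_distrib]
        exact Finset.sum_congr rfl fun W _ => by split_ifs <;> simp
      map_smul' := fun c a => by
        ext t
        simp only [PiLp.smul_apply, Pi.smul_apply, RingHom.id_apply, Finset.smul_sum]
        exact Finset.sum_congr rfl fun W _ => by split_ifs <;> simp }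
  have hΦ : ∀ e t, Φ e t = ∑ W, if t ∈ W ∧ W ∈ F then e W else 0 := fun _ _ => rfl
  have hs : ∀ W ∈ F, ∀ v : V, Φ (PiLp.single 1 W v) = fun t => if t ∈ W then v else 0 := by
    intro W hW v
    ext t
    rw [hΦ, Finset.sum_eq_single W (fun U _ hU => by simp [PiLp.single_apply, hU]) (by simp)]
    simp [hW]
  have sj : Function.Surjective Φ := fun u => ⟨∑ t, PiLp.single 1 {t} (u t), by
    rw [map_sum]
    ext t
    simp only [hs _ (hF _), Finset.sum_apply, Finset.mem_singleton]
    simp⟩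
  obtain ⟨e0, he0⟩ := sj q
  let K := LinearMap.ker Φ
  have hK : IsClosed (K : Set (PiLp 1 (fun _ : Finset ι => V))) := K.closed_of_finiteDimensional
  obtain ⟨k, hk, hd⟩ := hK.exists_infDist_eq_dist ⟨0, K.zero_mem⟩ e0
  obtain ⟨g, g1, g2⟩ := exists_dual_vector'' ℝ (K.mkQ e0)
  have nq : ‖K.mkQ e0‖ = ‖e0 - k‖ := by
    rw [← dist_eq_norm, ← hd]
    exact QuotientAddGroup.norm_mk (S := K.toAddSubgroup) e0
  let ψ : (ι → V) →ₗ[ℝ] ℝ := g.toLinearMap ∘ₗ (Φ.quotKerEquivOfSurjective sj).symm.toLinearMap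
  have hψ : ∀ e, ψ (Φ e) = g (K.mkQ e) := fun e => by
    have : (Φ.quotKerEquivOfSurjective sj).symm (Φ e) = K.mkQ e := by
      rw [LinearEquiv.symm_apply_eq]; rfl
    simp only [ψ, LinearMap.comp_apply, LinearEquiv.coe_toLinearMap, this]
    rfl
  have hle : ∀ e, ψ (Φ e) ≤ ‖e‖ := fun e => by
    rw [hψ]
    refine (le_abs_self _).trans ((g.le_opNorm _).trans ?_)
    exact (mul_le_of_le_one_left (norm_nonneg _) g1).trans (Submodule.Quotient.norm_mk_le K e)
  let e1 : PiLp 1 (fun _ : Finset ι => V) := WithLp.toLp 1 fun W => if W ∈ F then (e0 - k) W else 0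
  have h1 : Φ e1 = q := by
    have : Φ (e0 - k) = q := by rw [map_sub, he0, show Φ k = 0 from hk, sub_zero]
    rw [← this]
    ext t
    rw [hΦ, hΦ]
    exact Finset.sum_congr rfl fun W _ => by by_cases h : W ∈ F <;> simp [e1, h]
  refine ⟨fun W => e1 W, ψ, fun W hW => by simp [e1, hW], fun t => ?_, fun W hW v => ?_, ?_⟩
  · rw [← h1, hΦ]
    exact Finset.sum_congr rfl fun W _ => by by_cases h : W ∈ F <;> simp [e1, h]
  · rw [← hs W hW]
    exact (hle _).trans (by simp)
  · rw [← PiLp.norm_eq_of_L1]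
    refine le_antisymm (h1 ▸ hle e1) ?_
    rw [← he0, hψ, g2, RCLike.ofReal_real_eq_id, id, nq, PiLp.norm_eq_of_L1, PiLp.norm_eq_of_L1]
    exact Finset.sum_le_sum fun W _ => by by_cases h : W ∈ F <;> simp [e1, h]

variable [MeasurableSpace V] [BorelSpace V]

theorem tree_of (F : Set (Finset ι)) (hF : Lam F) (r : V) (e : Finset ι → V)
    (he : ∀ W, W ∉ F → e W = 0) :
    ∃ T : Set V, IsCompact T ∧ IsPreconnected T ∧ r ∈ T ∧
      (∀ t, r + ∑ W, (if t ∈ W then e W else 0) ∈ T) ∧
      Measure.hausdorffMeasure 1 T ≤ ENNReal.ofReal (∑ W, ‖e W‖) := by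
  classical
  let x : Finset ι → V := fun U => r + ∑ W, if U ⊆ W then e W else 0
  let G : Finset (Finset ι) := Finset.univ.filter fun U => U ∈ F ∧ U.Nonempty
  let T : Set V := {r} ∪ ⋃ U ∈ G, segment ℝ (x U - e U) (x U)
  have sc : ∀ a b : V, IsCompact (segment ℝ a b) := fun a b => by
    rw [segment_eq_image]; exact isCompact_Icc.image (by fun_prop)
  have sub : ∀ U ∈ G, segment ℝ (x U - e U) (x U) ⊆ T := fun U hU =>
    (subset_biUnion_of_mem (u := fun U => segment ℝ (x U - e U) (x U)) hU).trans subset_union_right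
  have y : ∀ U, x U - e U = r + ∑ W, if U ⊂ W then e W else 0 := fun U => by
    have : e U = ∑ W, if W = U then e W else 0 := by simp
    simp only [x]
    rw [this, add_sub_assoc, ← Finset.sum_sub_distrib]
    congr 1
    refine Finset.sum_congr rfl fun W _ => ?_
    by_cases h : W = U
    · simp [h]
    · simp [h, Finset.ssubset_iff_subset_ne, Ne.symm h]
  have main : ∀ n, ∀ U ∈ G, Fintype.card ι - U.card = n →
      ∃ t, t ⊆ T ∧ r ∈ t ∧ segment ℝ (x U - e U) (x U) ⊆ t ∧ IsPreconnected t := by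
    intro n
    induction n using Nat.strong_induction_on with
    | _ n ih =>
      intro U hU hn
      have hU' := (Finset.mem_filter.1 hU).2
      by_cases h : ∃ W ∈ G, U ⊂ W
      · obtain ⟨W0, h0, hm⟩ := Finset.exists_min_image (G.filter fun W => U ⊂ W) Finset.card
          (by obtain ⟨W, a, b⟩ := h; exact ⟨W, Finset.mem_filter.2 ⟨a, b⟩⟩)
        obtain ⟨g0, s0⟩ := Finset.mem_filter.1 h0
        have c0 := Finset.card_lt_card s0
        have c1 := Finset.card_le_univ W0
        obtain ⟨t, t1, t2, t3, t4⟩ := ih _ (by omega) W0 g0 rfl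
        have e0 : x U - e U = x W0 := by
          rw [y]
          simp only [x]
          congr 1
          refine Finset.sum_congr rfl fun W _ => ?_
          by_cases hW : W ∈ F
          swap
          · simp [he W hW]
          refine if_congr ⟨fun k => ?_, fun k => s0.trans_subset k⟩ rfl rfl
          rcases hF.2 W0 (Finset.mem_filter.1 g0).2.1 W hW with a | a | a
          · exact a
          · exact (Finset.eq_of_subset_of_card_le a (hm W (Finset.mem_filter.2 ⟨Finset.mem_filter.2
              ⟨Finset.mem_univ _, hW, hU'.2.mono k.subset⟩, k⟩))).ge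
          · obtain ⟨u, hu⟩ := hU'.2
            exact absurd (k.subset hu) (Finset.disjoint_left.1 a (s0.subset hu))
        exact ⟨t ∪ segment ℝ (x U - e U) (x U), union_subset t1 (sub U hU), Or.inl t2,
          subset_union_right, t4.union (x W0) (t3 (right_mem_segment _ _ _))
            (e0 ▸ left_mem_segment _ _ _) (convex_segment _ _).isPreconnected⟩
      · have e0 : x U - e U = r := by
          rw [y, Finset.sum_eq_zero, add_zero]
          intro W _
          by_cases hW : W ∈ F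
          · exact if_neg fun k => h ⟨W, Finset.mem_filter.2
              ⟨Finset.mem_univ _, hW, hU'.2.mono k.subset⟩, k⟩
          · simp [he W hW]
        exact ⟨_, sub U hU, e0 ▸ left_mem_segment _ _ _, Subset.rfl,
          (convex_segment _ _).isPreconnected⟩
  refine ⟨T, isCompact_singleton.union (G.isCompact_biUnion fun U _ => sc _ _),
    isPreconnected_of_forall r ?_, Or.inl rfl, fun t => ?_, ?_⟩
  · rintro z (hz | hz)
    · exact ⟨{r}, subset_union_left, rfl, hz, isPreconnected_singleton⟩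
    · obtain ⟨U, hU, hz⟩ := mem_iUnion₂.1 hz
      obtain ⟨t, t1, t2, t3, t4⟩ := main _ U hU rfl
      exact ⟨t, t1, t2, t3 hz, t4⟩
  · have := sub {t} (Finset.mem_filter.2 ⟨Finset.mem_univ _, hF.1 t, by simp⟩)
      (right_mem_segment _ _ _)
    simpa only [x, Finset.singleton_subset_iff] using this
  · haveI := Measure.noAtoms_hausdorff V one_pos
    refine (measure_union_le _ _).trans ?_
    rw [measure_singleton, zero_add, ENNReal.ofReal_sum_of_nonneg fun _ _ => norm_nonneg _]
    refine (measure_biUnion_finset_le _ _).trans (le_trans (Finset.sum_le_sum fun U _ => ?_)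
      (Finset.sum_le_sum_of_subset (Finset.subset_univ G)))
    rw [hausdorffMeasure_segment, edist_dist, dist_eq_norm]
    simp

theorem exists_min (p : ι → V) (r : V) :
    ∃ T : Set V, IsCompact T ∧ IsPreconnected T ∧ r ∈ T ∧ (∀ t, p t ∈ T) ∧
      Measure.hausdorffMeasure 1 T < ⊤ ∧ ∀ S : Set V, IsPreconnected S → r ∈ S → (∀ t, p t ∈ S) →
        Measure.hausdorffMeasure 1 T ≤ Measure.hausdorffMeasure 1 S := by
  classical
  have h := fun F : {F : Set (Finset ι) // Lam F} => dual F.1 F.2.1 fun t => p t - r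
  choose e ψ h1 h2 h3 h4 using h
  haveI : Nonempty {F : Set (Finset ι) // Lam F} := ⟨⟨{W | ∃ t, W = {t}}, fun t => ⟨t, rfl⟩, by
    rintro _ ⟨s, rfl⟩ _ ⟨t, rfl⟩
    by_cases h : s = t
    · exact Or.inl (h ▸ Finset.Subset.rfl)
    · exact Or.inr (Or.inr (Finset.disjoint_singleton.2 h))⟩⟩
  obtain ⟨F, hF⟩ := Finite.exists_min fun F => ∑ W, ‖e F W‖
  obtain ⟨T, t1, t2, t3, t4, t5⟩ := tree_of F.1 F.2 r (e F) (h1 F)
  refine ⟨T, t1, t2, t3, fun t => ?_, t5.trans_lt ENNReal.ofReal_lt_top, fun S a b c =>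
    t5.trans (steiner_lam S a r b p c _ fun G hG => ?_)⟩
  · have := t4 t
    rwa [← h2, add_sub_cancel] at this
  · refine ⟨fun t z => ψ ⟨G, hG⟩ (Pi.single t z), fun W hW a b => ?_, (hF ⟨G, hG⟩).trans ?_⟩
    · rw [dist_eq_norm]
      refine le_trans (le_of_eq ?_) (h3 ⟨G, hG⟩ W hW (a - b))
      simp only [← map_sub, ← map_sum, ← Pi.single_sub]
      congr 1
      ext t
      simp [Finset.sum_apply, Pi.single_apply]
    · rw [← h4]
      simp only [← map_sub, ← map_sum, ← Pi.single_sub]
      rw [Finset.univ_sum_single]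

end Pool.Agent.H3.St
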