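import Pool.Agent.H3.St3

set_option autoImplicit false

namespace Pool.Agent.H3.St

open Set MeasureTheory

noncomputable def pt (x y : ℝ) : E := !₂[x, y]

@[simp] theorem pt0 (x y : ℝ) : pt x y 0 = x := rfl
@[simp] theorem pt1 (x y : ℝ) : pt x y 1 = y := rfl

theorem eq_pt (z : E) (x y : ℝ) (h0 : z 0 = x) (h1 : z 1 = y) : z = pt x y := by
  ext i; fin_cases i
  · exact h0
  · exact h1

theorem dist_sq (z w : E) : dist z w ^ 2 = (z 0 - w 0) ^ 2 + (z 1 - w 1) ^ 2 := by
  rw [EuclideanSpace.dist_eq, Real.sq_sqrt (by positivity)]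
  simp only [Fin.sum_univ_two, Real.dist_eq, sq_abs]

theorem dist_pt (a b c d l : ℝ) (hl : 0 ≤ l) (h : (a - c) ^ 2 + (b - d) ^ 2 = l ^ 2) :
    dist (pt a b) (pt c d) = l := by
  have := dist_sq (pt a b) (pt c d)
  simp only [pt0, pt1, h] at this
  exact (pow_left_inj₀ dist_nonneg hl two_ne_zero).1 this

theorem seg_compact (a b : E) : IsCompact (segment ℝ a b) := by
  rw [segment_eq_image]
  exact isCompact_Icc.image (by fun_prop)

theorem seg_conn (a b : E) : IsConnected (segment ℝ a b) :=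
  (convex_segment a b).isConnected ⟨a, left_mem_segment ℝ a b⟩

theorem mem_seg {a b c d : ℝ} {z : E} (h : z ∈ segment ℝ (pt a b) (pt c d)) :
    ∃ t : ℝ, 0 ≤ t ∧ t ≤ 1 ∧ z 0 = a + t * (c - a) ∧ z 1 = b + t * (d - b) := by
  obtain ⟨u, v, hu, hv, huv, rfl⟩ := h
  refine ⟨v, hv, by linarith, ?_, ?_⟩
  · simp only [PiLp.add_apply, PiLp.smul_apply, pt0, smul_eq_mul]
    rw [show u = 1 - v by linarith]; ring
  · simp only [PiLp.add_apply, PiLp.smul_apply, pt1, smul_eq_mul]
    rw [show u = 1 - v by linarith]; ring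

theorem seg_mem {a b c d x y : ℝ} (t : ℝ) (t0 : 0 ≤ t) (t1 : t ≤ 1) (hx : x = a + t * (c - a))
    (hy : y = b + t * (d - b)) : pt x y ∈ segment ℝ (pt a b) (pt c d) := by
  refine ⟨1 - t, t, by linarith, t0, by ring, ?_⟩
  refine eq_pt _ _ _ ?_ ?_
  · simp only [PiLp.add_apply, PiLp.smul_apply, pt0, smul_eq_mul]; rw [hx]; ring
  · simp only [PiLp.add_apply, PiLp.smul_apply, pt1, smul_eq_mul]; rw [hy]; ring

/-- The full tree with terminals `a, b` joined at `u` and `c, d` joined at `v`. -/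
def tree5 (a b c d u v : E) : Set E :=
  segment ℝ u v ∪ segment ℝ u a ∪ segment ℝ u b ∪ segment ℝ v c ∪ segment ℝ v d

theorem tree5_compact (a b c d u v : E) : IsCompact (tree5 a b c d u v) :=
  ((((seg_compact _ _).union (seg_compact _ _)).union (seg_compact _ _)).union
    (seg_compact _ _)).union (seg_compact _ _)

theorem tree5_conn (a b c d u v : E) : IsConnected (tree5 a b c d u v) := by
  have hu := left_mem_segment ℝ u v
  have hv := right_mem_segment ℝ u v
  refine IsConnected.union ⟨v, Or.inl (Or.inl (Or.inl hv)), left_mem_segment ℝ _ _⟩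
    (IsConnected.union ⟨v, Or.inl (Or.inl hv), left_mem_segment ℝ _ _⟩
      (IsConnected.union ⟨u, Or.inl hu, left_mem_segment ℝ _ _⟩
        (IsConnected.union ⟨u, hu, left_mem_segment ℝ _ _⟩ (seg_conn _ _) (seg_conn _ _))
        (seg_conn _ _)) (seg_conn _ _)) (seg_conn _ _)

theorem tree5_mem (a b c d u v : E) : a ∈ tree5 a b c d u v ∧ b ∈ tree5 a b c d u v ∧
    c ∈ tree5 a b c d u v ∧ d ∈ tree5 a b c d u v ∧ u ∈ tree5 a b c d u v :=
  ⟨Or.inl (Or.inl (Or.inl (Or.inr (right_mem_segment ℝ _ _)))),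
    Or.inl (Or.inl (Or.inr (right_mem_segment ℝ _ _))),
    Or.inl (Or.inr (right_mem_segment ℝ _ _)), Or.inr (right_mem_segment ℝ _ _),
    Or.inl (Or.inl (Or.inl (Or.inl (left_mem_segment ℝ _ _))))⟩

theorem tree5_len (a b c d u v : E) : Measure.hausdorffMeasure 1 (tree5 a b c d u v) ≤
    ENNReal.ofReal (dist u v + dist u a + dist u b + dist v c + dist v d) := by
  rw [ENNReal.ofReal_add (by positivity) dist_nonneg, ENNReal.ofReal_add (by positivity) dist_nonneg,
    ENNReal.ofReal_add (by positivity) dist_nonneg, ENNReal.ofReal_add (by positivity) dist_nonneg]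
  simp only [← edist_dist, ← hausdorffMeasure_segment]
  exact (measure_union_le _ _).trans (add_le_add_left ((measure_union_le _ _).trans
    (add_le_add_left ((measure_union_le _ _).trans (add_le_add_left (measure_union_le _ _) _)) _)) _)

theorem key {x y ρ : ℝ} {p : E} (h : dist (pt x y) p ≤ ρ) (a b : ℝ) (hab : a ^ 2 + b ^ 2 ≤ 1) :
    a * x + b * y - ρ ≤ a * p 0 + b * p 1 := by
  have h1 := dist_sq (pt x y) p
  simp only [pt0, pt1] at h1
  have h2 : (a * (x - p 0) + b * (y - p 1)) ^ 2 ≤ dist (pt x y) p ^ 2 := by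
    rw [h1]
    nlinarith [sq_nonneg (a * (y - p 1) - b * (x - p 0)),
      mul_nonneg (sub_nonneg.2 hab) (add_nonneg (sq_nonneg (x - p 0)) (sq_nonneg (y - p 1)))]
  have h3 := (abs_le_of_sq_le_sq' h2 dist_nonneg).2
  linarith

/-- Compatibility of a set with a two-sided split. -/
def Cp {ι : Type*} (D : ι → Prop) (V : Finset ι) : Prop :=
  (∀ t ∈ V, D t) ∨ (∀ t ∈ V, ¬ D t) ∨ (∀ t, D t → t ∈ V) ∨ ∀ t, ¬ D t → t ∈ V

theorem side {ι : Type*} {F : Set (Finset ι)} (hF : Lam F) {W : Finset ι} (hW : W ∈ F) :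
    (∀ V ∈ F, Cp (· ∈ W) V) ∧ ∀ V ∈ F, Cp (· ∉ W) V := by
  constructor <;> intro V hV <;> rcases hF.2 V hV W hW with h | h | h
  · exact Or.inl fun t ht => h ht
  · exact Or.inr (Or.inr (Or.inl fun t ht => h ht))
  · exact Or.inr (Or.inl fun t ht => Finset.disjoint_left.1 h ht)
  · exact Or.inr (Or.inl fun t ht hn => hn (h ht))
  · exact Or.inr (Or.inr (Or.inr fun t ht => h (not_not.1 ht)))
  · exact Or.inl fun t ht => Finset.disjoint_left.1 h ht

theorem Cp.neg {ι : Type*} {D : ι → Prop} {V : Finset ι} (h : Cp D V) : Cp (fun t => ¬ D t) V := by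
  rcases h with h | h | h | h
  · exact Or.inr (Or.inl fun t ht hn => hn (h t ht))
  · exact Or.inl h
  · exact Or.inr (Or.inr (Or.inr fun t ht => h t (not_not.1 ht)))
  · exact Or.inr (Or.inr (Or.inl h))

/-- A compatible set does not cut both sides of the split. -/
theorem Cp.cut {ι : Type*} {D : ι → Prop} {V : Finset ι} (h : Cp D V) {u v x y : ι} (hu : D u)
    (hv : D v) (hx : ¬ D x) (hy : ¬ D y) (a : u ∈ V) (b : v ∉ V) (c : x ∈ V) (d : y ∉ V) : False := by
  rcases h with h | h | h | h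
  · exact hx (h x c)
  · exact h u a hu
  · exact b (h v hv)
  · exact d (h y hy)

theorem sum_ind {ι : Type*} [Fintype ι] [DecidableEq ι] (V : Finset ι) (a : ι → ℝ) :
    ∑ t ∈ V, a t = ∑ t, if t ∈ V then a t else 0 := by
  simp

end Pool.Agent.H3.St
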