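import Pool.Agent.H3.Bl1
import Pool.Agent.H3.St4

set_option autoImplicit false

namespace Pool.Agent.H3.St

open Set MeasureTheory Metric
open scoped ENNReal RealInnerProductSpace

theorem inball {V ι : Type} [NormedAddCommGroup V] [InnerProductSpace ℝ V] [FiniteDimensional ℝ V]
    [MeasurableSpace V] [BorelSpace V] [Fintype ι] [DecidableEq ι] (p : ι → V)
    (hp : ∀ t, ‖p t‖ = 1) (t0 : ι) (φ : ι → V → ℝ)
    (hφ : ∀ (W : Finset ι) (x z : V), ∑ t ∈ W, (φ t x - φ t z) ≤ dist x z) :
    ∃ S : Set V, IsCompact S ∧ IsConnected S ∧ range p ⊆ S ∧ Measure.hausdorffMeasure 1 S < ⊤ ∧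
      (∀ S' : Set V, IsConnected S' → range p ⊆ S' →
        Measure.hausdorffMeasure 1 S ≤ Measure.hausdorffMeasure 1 S') ∧
      ENNReal.ofReal (∑ t, (φ t (p t) - φ t (p t0))) ≤ Measure.hausdorffMeasure 1 (S ∩ ball 0 1) := by
  obtain ⟨T, t1, t2, t3, t4, t5, t6⟩ := exists_min p (p t0)
  have hK := (finite_range p).isCompact_convexHull ℝ
  have hc := convex_convexHull ℝ (range p)
  have hs := subset_convexHull ℝ (range p)
  choose π h1 h2 using exists_norm_eq_iInf_of_complete_convex ⟨p t0, hs ⟨t0, rfl⟩⟩ hK.isComplete hc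
  have h3 := fun u => (norm_eq_iInf_iff_real_inner_le_zero hc (h1 u)).1 (h2 u)
  have lip : LipschitzWith 1 π := LipschitzWith.of_dist_le_mul fun x y => by
    rw [NNReal.coe_one, one_mul, dist_eq_norm, dist_eq_norm]
    have a := h3 x _ (h1 y)
    have b := h3 y _ (h1 x)
    have c := real_inner_le_norm (x - y) (π x - π y)
    have d : ‖π x - π y‖ ^ 2 ≤ ⟪x - y, π x - π y⟫ := by
      rw [← real_inner_self_eq_norm_sq]
      simp only [inner_sub_left, inner_sub_right] at a b ⊢
      linarith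
    by_contra hn
    push Not at hn
    nlinarith [norm_nonneg (x - y)]
  have fx : ∀ t, π (p t) = p t := fun t => by
    have a := h3 (p t) _ (hs ⟨t, rfl⟩)
    rw [real_inner_self_eq_norm_sq] at a
    exact (sub_eq_zero.1 (norm_eq_zero.1 (by nlinarith [norm_nonneg (p t - π (p t))]))).symm
  have le : Measure.hausdorffMeasure 1 (π '' T) ≤ Measure.hausdorffMeasure 1 T := by
    simpa using lip.hausdorffMeasure_image_le zero_le_one T
  have sub : range p ⊆ π '' T := by
    rintro _ ⟨t, rfl⟩
    exact ⟨_, t4 t, fx t⟩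
  have cn : IsPreconnected (π '' T) := t2.image _ lip.continuous.continuousOn
  have cv : Convex ℝ (range p ∪ ball 0 1) := by
    have cl : range p ∪ ball 0 1 ⊆ closedBall (0 : V) 1 := by
      rintro _ (⟨t, rfl⟩ | h)
      · simp [hp]
      · exact ball_subset_closedBall h
    refine convex_iff_forall_pos.2 fun x hx y hy a b ha hb hab => ?_
    by_cases h : x = y
    · rwa [← h, ← add_smul, hab, one_smul]
    · exact Or.inr (combo_mem_ball_of_ne (cl hx) (cl hy) h ha hb hab)
  refine ⟨π '' T, t1.image lip.continuous, ⟨⟨_, sub ⟨t0, rfl⟩⟩, cn⟩, sub, le.trans_lt t5,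
    fun S' a b => le.trans (t6 S' a.isPreconnected (b ⟨t0, rfl⟩) fun t => b ⟨t, rfl⟩), ?_⟩
  refine (steiner_lam _ cn _ (sub ⟨t0, rfl⟩) p (fun t => sub ⟨t, rfl⟩) _
    fun F _ => ⟨φ, fun W _ => hφ W, le_rfl⟩).trans ?_
  have := Measure.nullSingletonClass_hausdorff V one_pos
  have k : π '' T ⊆ (π '' T ∩ ball 0 1) ∪ range p := by
    rintro _ ⟨x, hx, rfl⟩
    rcases convexHull_min subset_union_left cv (h1 x) with h | h
    · exact Or.inr h
    · exact Or.inl ⟨⟨x, hx, rfl⟩, h⟩
  refine (measure_mono k).trans ((measure_union_le _ _).trans ?_)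
  rw [(finite_range p).measure_zero, add_zero]

theorem disj {X J : Type} (W : Finset J) (F : J → X → ℝ) (x z : X) (L : ℝ) (hL : 0 ≤ L)
    (h0 : ∀ j, 0 ≤ F j z) (h1 : ∀ j, F j x - F j z ≤ L)
    (h2 : ∀ i j, i ≠ j → F i x = 0 ∨ F j x = 0) : ∑ j ∈ W, (F j x - F j z) ≤ L := by
  classical
  by_cases h : ∃ i, F i x ≠ 0
  · obtain ⟨i, hi⟩ := h
    refine (Finset.sum_le_sum (g := fun j => if j = i then L else 0) fun j _ => ?_).trans ?_
    · split_ifs with k
      · exact h1 j
      · rw [(h2 j i k).resolve_right hi]; linarith [h0 j]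
    · rw [Finset.sum_ite_eq']; split_ifs <;> linarith
  · push Not at h
    exact (Finset.sum_nonpos fun j _ => by rw [h j]; linarith [h0 j]).trans hL

theorem high (k n : ℕ) (hn : 0 < n) : ∃ (p : Fin n × Fin n → EuclideanSpace ℝ (Fin (k + 3)))
    (t0 : Fin n × Fin n) (φ : Fin n × Fin n → EuclideanSpace ℝ (Fin (k + 3)) → ℝ),
    (∀ t, ‖p t‖ = 1) ∧ (∀ (W : Finset (Fin n × Fin n)) x z, ∑ t ∈ W, (φ t x - φ t z) ≤ dist x z) ∧
      (n : ℝ) / 4 - 1 ≤ ∑ t, (φ t (p t) - φ t (p t0)) := by
  have n0 : (0 : ℝ) < n := by exact_mod_cast hn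
  have n1 : (1 : ℝ) ≤ n := by exact_mod_cast hn
  let c : Fin n → ℝ := fun i => (i : ℕ) / (2 * n)
  have c1 : ∀ i, c i ^ 2 ≤ 1 / 4 := fun i => by
    have a : 0 ≤ c i := by positivity
    have b : c i ≤ 1 / 2 := by
      have : ((i : ℕ) : ℝ) ≤ n := by exact_mod_cast i.2.le
      rw [div_le_iff₀ (by positivity)]; linarith
    nlinarith
  have c2 : ∀ i j, i ≠ j → 1 / (2 * n) ≤ |c i - c j| := fun i j h => by
    rw [← sub_div, abs_div, abs_of_pos (by positivity : (0 : ℝ) < 2 * n)]
    refine div_le_div_of_nonneg_right ?_ (by positivity)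
    have : (1 : ℤ) ≤ |((i : ℕ) : ℤ) - ((j : ℕ) : ℤ)| :=
      Int.one_le_abs (sub_ne_zero.2 fun e => h (Fin.ext (by exact_mod_cast e)))
    exact_mod_cast this
  let p : Fin n × Fin n → EuclideanSpace ℝ (Fin (k + 3)) := fun t => WithLp.toLp 2
    (Fin.cons (c t.1) (Fin.cons (c t.2) (Fin.cons √(1 - c t.1 ^ 2 - c t.2 ^ 2) 0)))
  have sep : ∀ s t, s ≠ t → 1 / (2 * n) ≤ dist (p s) (p t) := fun s t h => by
    by_cases e : s.1 = t.1
    · exact (c2 _ _ fun e' => h (Prod.ext e e')).trans (PiLp.dist_apply_le (p s) (p t) 1)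
    · exact (c2 _ _ e).trans (PiLp.dist_apply_le (p s) (p t) 0)
  have e2 : (1 : ℝ) / (2 * n) = 2 * (1 / (4 * n)) := by field_simp; ring
  have e0 : (0 : ℝ) < 1 / (4 * n) := by positivity
  refine ⟨p, (⟨0, hn⟩, ⟨0, hn⟩), fun t x => max 0 (1 / (4 * n) - dist x (p t)), fun t => ?_,
    fun W x z => disj W (fun t x => max 0 (1 / (4 * n) - dist x (p t))) x z _ dist_nonneg
      (fun _ => le_max_left _ _) (fun t => ?_) fun s t h => ?_, ?_⟩
  · rw [EuclideanSpace.norm_eq, Real.sqrt_eq_one]
    simp only [p, Fin.sum_univ_succ, Fin.cons_zero, Fin.cons_succ, Real.norm_eq_abs, sq_abs,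
      Pi.zero_apply]
    rw [Real.sq_sqrt (by linarith [c1 t.1, c1 t.2])]
    simp
  · have := dist_triangle z x (p t)
    rw [dist_comm z x] at this
    rw [sub_le_iff_le_add, max_le_iff]
    constructor
    · positivity
    · linarith [le_max_right 0 (1 / (4 * n) - dist z (p t))]
  · by_contra hn
    push Not at hn
    have a := lt_max_iff.1 (lt_of_le_of_ne (le_max_left _ _) hn.1.symm)
    have b := lt_max_iff.1 (lt_of_le_of_ne (le_max_left _ _) hn.2.symm)
    have := dist_triangle_left (p s) (p t) x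
    have := sep s t h
    simp only [lt_irrefl, false_or] at a b
    linarith
  · refine le_trans ?_ (Finset.sum_le_sum (f := fun t => 1 / (4 * (n : ℝ)) -
      if t = (⟨0, hn⟩, ⟨0, hn⟩) then 1 / (4 * (n : ℝ)) else 0) fun t _ => ?_)
    · rw [Finset.sum_sub_distrib, Finset.sum_ite_eq']
      simp only [Finset.sum_const, Finset.card_univ, Fintype.card_prod, Fintype.card_fin,
        nsmul_eq_mul, Finset.mem_univ, if_true]
      have a : ((n * n : ℕ) : ℝ) * (1 / (4 * n)) = n / 4 := by push_cast; field_simp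
      have b : (1 : ℝ) / (4 * n) ≤ 1 := by rw [div_le_one (by positivity)]; linarith
      linarith
    · beta_reduce
      rw [dist_self, sub_zero, max_eq_right e0.le]
      split_ifs with h
      · rw [h, dist_self, sub_zero, max_eq_right e0.le]
      · rw [max_eq_left (by linarith [sep _ _ (Ne.symm h)])]

theorem upper (A S : Set E) (x : E) (r : ℝ) (hr : 0 < r) (hc : IsClosed S) (hS : IsConnected S)
    (hA : A ⊆ S) (hf : Measure.hausdorffMeasure 1 S < ⊤)
    (hm : ∀ S' : Set E, IsClosed S' → IsConnected S' → A ⊆ S' →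
      Measure.hausdorffMeasure 1 S ≤ Measure.hausdorffMeasure 1 S') (hd : Disjoint A (ball x r)) :
    Measure.hausdorffMeasure 1 (S ∩ ball x r) ≤ ENNReal.ofReal (2 * Real.pi * r) := by
  rcases (S ∩ ball x r).eq_empty_or_nonempty with h | ⟨y, hy⟩
  · simp [h]
  have sp : IsConnected (sphere x r) := isConnected_sphere (by
    rw [← Module.finrank_eq_rank, finrank_euclideanSpace_fin]; norm_num) x hr.le
  have cl : IsClosed (S \ ball x r ∪ sphere x r) := (hc.sdiff isOpen_ball).union isClosed_sphere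
  have key : ∀ u v : Set E, IsClosed u → IsClosed v → S \ ball x r ∪ sphere x r ⊆ u ∪ v →
      Disjoint u v → sphere x r ⊆ u → S \ ball x r ∪ sphere x r ⊆ u := by
    intro u v hu hv h1 h2 h3
    have := (isPreconnected_iff_subset_of_fully_disjoint_closed hc).1 hS.isPreconnected
      (u ∪ closedBall x r) (v \ ball x r) (hu.union isClosed_closedBall) (hv.sdiff isOpen_ball)
      (fun z hz => by
        by_cases k : z ∈ ball x r
        · exact Or.inl (Or.inr (ball_subset_closedBall k))
        · exact (h1 (Or.inl ⟨hz, k⟩)).imp Or.inl fun a => ⟨a, k⟩)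
      (Set.disjoint_left.2 fun z a b => by
        rcases a with a | a
        · exact Set.disjoint_left.1 h2 a b.1
        · exact Set.disjoint_left.1 h2 (h3 (le_antisymm a (not_lt.1 b.2))) b.1)
    rcases this with k | k
    · rintro z (hz | hz)
      · exact (k hz.1).elim id fun a => h3 (le_antisymm a (not_lt.1 hz.2))
      · exact h3 hz
    · exact absurd hy.2 (k hy.1).2
  have cn : IsConnected (S \ ball x r ∪ sphere x r) := by
    refine ⟨sp.nonempty.inr, (isPreconnected_iff_subset_of_fully_disjoint_closed cl).2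
      fun u v hu hv h1 h2 => ?_⟩
    exact ((isPreconnected_iff_subset_of_fully_disjoint_closed isClosed_sphere).1 sp.isPreconnected
      u v hu hv (subset_union_right.trans h1) h2).imp (key u v hu hv h1 h2)
      (key v u hv hu (union_comm u v ▸ h1) h2.symm)
  have le := hm _ cl cn fun a ha => Or.inl ⟨hA ha, Set.disjoint_left.1 hd ha⟩
  have ls : Measure.hausdorffMeasure 1 (sphere x r) ≤ ENNReal.ofReal (2 * Real.pi * r) := by
    let f : ℝ → E := fun t => pt (x 0 + r * Real.cos (t / r)) (x 1 + r * Real.sin (t / r))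
    have lip : LipschitzWith 1 f := LipschitzWith.of_dist_le_mul fun s t => by
      rw [NNReal.coe_one, one_mul, Real.dist_eq]
      refine abs_le_of_sq_le_sq' ?_ (abs_nonneg _) |>.2
      rw [dist_sq, sq_abs]
      simp only [f, pt0, pt1]
      have a := Real.one_sub_sq_div_two_le_cos (x := s / r - t / r)
      rw [Real.cos_sub] at a
      have b := Real.sin_sq_add_cos_sq (s / r)
      have c := Real.sin_sq_add_cos_sq (t / r)
      have d : (s - t) ^ 2 = r ^ 2 * (s / r - t / r) ^ 2 := by field_simp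
      rw [d]
      nlinarith [sq_nonneg r]
    have sb : sphere x r ⊆ f '' Icc (-Real.pi * r) (Real.pi * r) := by
      intro z hz
      have h1 := dist_sq z x
      rw [mem_sphere.1 hz] at h1
      let w : ℂ := ⟨z 0 - x 0, z 1 - x 1⟩
      have nw : ‖w‖ = r := by
        rw [Complex.norm_def, Complex.normSq_mk, Real.sqrt_eq_iff_mul_self_eq (by nlinarith) hr.le]
        linarith
      have w0 : w ≠ 0 := norm_pos_iff.1 (nw ▸ hr)
      refine ⟨w.arg * r, ⟨by nlinarith [Complex.neg_pi_lt_arg w], by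
        nlinarith [Complex.arg_le_pi w]⟩, (eq_pt _ _ _ ?_ ?_).symm⟩
      · rw [mul_div_cancel_right₀ _ hr.ne', Complex.cos_arg w0, nw]; field_simp; simp [w]
      · rw [mul_div_cancel_right₀ _ hr.ne', Complex.sin_arg, nw]; field_simp; simp [w]
    refine (measure_mono sb).trans ((lip.hausdorffMeasure_image_le zero_le_one _).trans ?_)
    rw [hausdorffMeasure_real, Real.volume_Icc]
    simp only [ENNReal.coe_one, ENNReal.one_rpow, one_mul]
    exact ENNReal.ofReal_le_ofReal (by linarith)
  rw [← measure_inter_add_sdiff S (t := ball x r) measurableSet_ball] at le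
  have := le.trans ((measure_union_le _ _).trans (add_le_add_right ls _))
  rw [add_comm] at this
  exact (ENNReal.add_le_add_iff_left ((measure_mono sdiff_subset).trans_lt hf).ne).1 this

end Pool.Agent.H3.St
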