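import Pool.Agent.H3.Bl2

set_option autoImplicit false

namespace Pool.Agent.H3.St

open Set

noncomputable def cl (η s : ℝ) : ℝ := max 0 (min s η)

theorem cl_mono (η : ℝ) {s t : ℝ} (h : s ≤ t) : cl η s ≤ cl η t :=
  max_le_max le_rfl (min_le_min h le_rfl)

theorem cl_lip (η : ℝ) {s t : ℝ} (h : s ≤ t) : cl η t - cl η s ≤ t - s := by
  unfold cl
  simp only [max_def, min_def]
  split_ifs <;> linarith

theorem cl_abs (η s t : ℝ) : cl η t - cl η s ≤ |t - s| := by
  rcases le_total s t with h | h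
  · exact (cl_lip η h).trans (le_abs_self _)
  · linarith [cl_mono η h, abs_nonneg (t - s)]

theorem cl_sum {η : ℝ} (h : 0 < η) (s : ℝ) (n : ℕ) :
    ∑ k ∈ Finset.range n, cl η (s - k * η) = cl (n * η) s := by
  induction n with
  | zero => simp [cl]
  | succ n ih =>
    rw [Finset.sum_range_succ, ih]
    have : 0 ≤ (n : ℝ) * η := by positivity
    push_cast
    unfold cl
    simp only [max_def, min_def]
    split_ifs <;> linarith

noncomputable def tent (η : ℝ) (k : ℕ) (s : ℝ) : ℝ :=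
  cl η (s - k * η) - cl η (s - (k + 1 : ℕ) * η)

theorem tent_nonneg {η : ℝ} (h : 0 < η) (k : ℕ) (s : ℝ) : 0 ≤ tent η k s :=
  sub_nonneg.2 (cl_mono η (by push_cast; linarith))

theorem sum_sub {K : ℕ} (W : Finset (Fin K)) (f : ℕ → ℝ) (hf : ∀ k, 0 ≤ f k) :
    ∑ k ∈ W, f k ≤ ∑ k ∈ Finset.range K, f k := by
  rw [Finset.sum_range]
  exact Finset.sum_le_sum_of_subset_of_nonneg (Finset.subset_univ W) fun k _ _ => hf k

theorem tent_tel (η : ℝ) (K : ℕ) (s : ℝ) :
    ∑ k ∈ Finset.range K, tent η k s = cl η s - cl η (s - K * η) := by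
  have := Finset.sum_range_sub' (fun k : ℕ => cl η (s - k * η)) K
  simpa [tent] using this

theorem tent_lip {η : ℝ} (h : 0 < η) {K : ℕ} (W : Finset (Fin K)) (s t : ℝ) :
    ∑ k ∈ W, tent η k s - ∑ k ∈ W, tent η k t ≤ |s - t| := by
  rw [← Finset.sum_sub_distrib]
  rcases le_total t s with e | e
  · refine (Finset.sum_le_sum (g := fun k : Fin K => cl η (s - (k : ℕ) * η) - cl η (t - (k : ℕ) * η))
      fun k _ => ?_).trans ((sum_sub W (fun k => cl η (s - k * η) - cl η (t - k * η))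
        fun k => sub_nonneg.2 (cl_mono η (by linarith))).trans ?_)
    · unfold tent
      linarith [cl_mono η (show t - ((k : ℕ) + 1 : ℕ) * η ≤ s - ((k : ℕ) + 1 : ℕ) * η by linarith)]
    · rw [Finset.sum_sub_distrib, cl_sum h, cl_sum h]
      exact cl_abs _ _ _
  · refine (Finset.sum_le_sum (g := fun k : Fin K => cl η (t - η - (k : ℕ) * η) -
      cl η (s - η - (k : ℕ) * η)) fun k _ => ?_).trans ((sum_sub W (fun k =>
        cl η (t - η - k * η) - cl η (s - η - k * η))
        fun k => sub_nonneg.2 (cl_mono η (by linarith))).trans ?_)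
    · unfold tent
      push_cast
      rw [show t - η - (k : ℕ) * η = t - ((k : ℕ) + 1) * η by ring,
        show s - η - (k : ℕ) * η = s - ((k : ℕ) + 1) * η by ring]
      linarith [cl_mono η (show s - (k : ℕ) * η ≤ t - (k : ℕ) * η by linarith)]
    · rw [Finset.sum_sub_distrib, cl_sum h, cl_sum h, abs_sub_comm]
      exact (cl_abs _ _ _).trans (le_of_eq (by congr 1; ring))

theorem tent_le {η : ℝ} (h : 0 < η) {K : ℕ} (W : Finset (Fin K)) (s : ℝ) :
    ∑ k ∈ W, tent η k s ≤ η ∧ (∑ k ∈ W, tent η k s ≠ 0 → 0 < s ∧ s < (K + 1) * η) := by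
  have a := sum_sub W (fun k => tent η k s) fun k => tent_nonneg h k s
  have b : 0 ≤ ∑ k ∈ W, tent η k s := Finset.sum_nonneg fun k _ => tent_nonneg h k s
  rw [tent_tel] at a
  have c : 0 ≤ (K : ℝ) * η := by positivity
  refine ⟨a.trans ?_, fun hn => ?_⟩
  · unfold cl; simp only [max_def, min_def]; split_ifs <;> linarith
  · have d := (lt_of_le_of_ne b hn.symm).trans_le a
    unfold cl at d
    simp only [max_def, min_def] at d
    constructor <;> split_ifs at d <;> linarith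

theorem cos_far {M : ℕ} (i j : Fin M) (h : i ≠ j) :
    Real.cos (2 * Real.pi * i / M - 2 * Real.pi * j / M) ≤ Real.cos (2 * (Real.pi / M)) := by
  wlog e : (j : ℕ) < i generalizing i j
  · rw [← Real.cos_neg, neg_sub]
    exact this j i h.symm (lt_of_le_of_ne (not_lt.1 e) fun k => h (Fin.ext k))
  have M0 : (0 : ℝ) < M := by exact_mod_cast i.pos
  have a : ((j : ℕ) : ℝ) + 1 ≤ (i : ℕ) := by exact_mod_cast e
  have b : ((i : ℕ) : ℝ) + 1 ≤ M := by exact_mod_cast i.2
  have c : (0 : ℝ) ≤ (j : ℕ) := by positivity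
  have p := div_pos Real.pi_pos M0
  have q : Real.pi = Real.pi / M * M := by field_simp
  rw [show 2 * Real.pi * i / M - 2 * Real.pi * j / M = 2 * (Real.pi / M) * (i - j) by ring]
  set a0 := Real.pi / M
  rcases le_total (2 * a0 * (i - j)) Real.pi with k | k
  · exact Real.cos_le_cos_of_nonneg_of_le_pi (by positivity) k (by nlinarith)
  · rw [← Real.cos_two_pi_sub]
    exact Real.cos_le_cos_of_nonneg_of_le_pi (by positivity) (by linarith) (by nlinarith)

theorem low (M K : ℕ) (hM : 3 ≤ M) (hK : 0 < K) (w h : ℝ) (w0 : 0 < w) (h0 : 0 < h)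
    (hw : h * Real.cos (Real.pi / M) ≤ Real.sin (Real.pi / M) * (Real.cos (Real.pi / M) - w)) :
    ∃ (p : Fin M × Fin K → E) (t0 : Fin M × Fin K) (φ : Fin M × Fin K → E → ℝ),
    (∀ t, ‖p t‖ = 1) ∧ (∀ (W : Finset (Fin M × Fin K)) x z, ∑ t ∈ W, (φ t x - φ t z) ≤ dist x z) ∧
      2 * M * h * (K - 1) / (K + 1 + 2 * h / w) ≤ ∑ t, (φ t (p t) - φ t (p t0)) := by
  classical
  have M3 : (3 : ℝ) ≤ M := by exact_mod_cast hM
  have al0 : 0 < Real.pi / M := div_pos Real.pi_pos (by linarith)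
  have al1 : Real.pi / M < Real.pi / 2 := div_lt_div_of_pos_left Real.pi_pos two_pos (by linarith)
  have c0 := Real.cos_pos_of_mem_Ioo ⟨by linarith, al1⟩
  have s0 := Real.sin_pos_of_pos_of_lt_pi al0 (by linarith [Real.pi_pos])
  have cs := Real.sin_sq_add_cos_sq (Real.pi / M)
  have c2 := Real.cos_two_mul (Real.pi / M)
  set c := Real.cos (Real.pi / M)
  set s := Real.sin (Real.pi / M)
  obtain ⟨η, hη⟩ : ∃ η : ℝ, η = 2 * h / (K + 1) := ⟨_, rfl⟩
  have η0 : 0 < η := by rw [hη]; positivity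
  have ηh : (K + 1) * η = 2 * h := by rw [hη]; field_simp
  let θ : Fin M → ℝ := fun j => 2 * Real.pi * j / M
  let a : Fin M → E → ℝ := fun j x => x 0 * Real.cos (θ j) + x 1 * Real.sin (θ j)
  let b : Fin M → E → ℝ := fun j x => x 1 * Real.cos (θ j) - x 0 * Real.sin (θ j)
  have ab : ∀ j (u v : ℝ), (u * Real.cos (θ j) + v * Real.sin (θ j)) ^ 2 +
      (v * Real.cos (θ j) - u * Real.sin (θ j)) ^ 2 = u ^ 2 + v ^ 2 := fun j u v => by
    linear_combination (u ^ 2 + v ^ 2) * Real.sin_sq_add_cos_sq (θ j)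
  have la : ∀ j x z, |a j x - a j z| ≤ dist x z ∧ |b j x - b j z| ≤ dist x z := fun j x z => by
    have e := ab j (x 0 - z 0) (x 1 - z 1)
    rw [← dist_sq] at e
    constructor <;> refine abs_le_of_sq_le_sq ?_ dist_nonneg <;> rw [← e] <;> simp only [a, b]
    · nlinarith [sq_nonneg ((x 1 - z 1) * Real.cos (θ j) - (x 0 - z 0) * Real.sin (θ j))]
    · nlinarith [sq_nonneg ((x 0 - z 0) * Real.cos (θ j) + (x 1 - z 1) * Real.sin (θ j))]
  let g : Fin M → E → ℝ := fun j x => cl w (a j x - (c - w))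
  have g0 : ∀ j x, 0 ≤ g j x ∧ g j x ≤ w := fun j x =>
    ⟨le_max_left _ _, max_le w0.le (min_le_right _ _)⟩
  let β : Fin K → ℝ := fun k => ((k : ℕ) + 1) * η - h
  have hβ : ∀ k, β k ^ 2 ≤ s ^ 2 := fun k => by
    have k1 : ((k : ℕ) : ℝ) + 1 ≤ K := by exact_mod_cast k.2
    have k2 : (0 : ℝ) ≤ (k : ℕ) := by positivity
    have hs : h ≤ s := by nlinarith
    refine sq_le_sq' ?_ ?_ <;> simp only [β] <;> nlinarith
  let p : Fin M × Fin K → E := fun t =>
    pt (√(1 - β t.2 ^ 2) * Real.cos (θ t.1) - β t.2 * Real.sin (θ t.1))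
      (√(1 - β t.2 ^ 2) * Real.sin (θ t.1) + β t.2 * Real.cos (θ t.1))
  have pa : ∀ t, a t.1 (p t) = √(1 - β t.2 ^ 2) ∧ b t.1 (p t) = β t.2 := fun t => by
    simp only [a, b, p, pt0, pt1]
    constructor
    · linear_combination √(1 - β t.2 ^ 2) * Real.sin_sq_add_cos_sq (θ t.1)
    · linear_combination β t.2 * Real.sin_sq_add_cos_sq (θ t.1)
  have κ0 : 0 < w + η := by linarith
  let G : Finset (Fin M × Fin K) → Fin M → E → ℝ := fun W j x =>
    (∑ k ∈ Finset.univ.filter (fun k : Fin K => (j, k) ∈ W), tent η k (b j x + h)) * g j x / (w + η)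
  have hG : ∀ (W : Finset (Fin M × Fin K)) x,
      ∑ t ∈ W, tent η t.2 (b t.1 x + h) * g t.1 x / (w + η) = ∑ j, G W j x := fun W x => by
    simp only [G, Finset.sum_mul, Finset.sum_div, Finset.sum_filter]
    rw [sum_ind, Fintype.sum_prod_type]
    exact Finset.sum_congr rfl fun j _ => Finset.sum_congr rfl fun k _ => by split_ifs <;> simp
  have sup : ∀ W j x, G W j x ≠ 0 → 0 < a j x ∧ c ^ 2 * (x 0 ^ 2 + x 1 ^ 2) < a j x ^ 2 := by
    intro W j x hn
    obtain ⟨n1, n2⟩ := mul_ne_zero_iff.1 (div_ne_zero_iff.1 hn).1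
    obtain ⟨q1, q2⟩ := (tent_le η0 _ _).2 n1
    have q3 : c - w < a j x := by
      by_contra k
      exact n2 (max_eq_left ((min_le_left _ _).trans (by linarith)))
    have q4 : h * c < s * a j x := by nlinarith
    have q5 : 0 < a j x := by nlinarith [mul_pos h0 c0]
    have q6 : (b j x * c) ^ 2 < (s * a j x) ^ 2 := sq_lt_sq' (by nlinarith) (by nlinarith)
    refine ⟨q5, ?_⟩
    rw [← ab j]
    change c ^ 2 * (a j x ^ 2 + b j x ^ 2) < _
    nlinarith
  have G0 : ∀ W j x, 0 ≤ G W j x := fun W j x => div_nonneg (mul_nonneg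
    (Finset.sum_nonneg fun k _ => tent_nonneg η0 _ _) (g0 j x).1) κ0.le
  refine ⟨p, (⟨0, by omega⟩, ⟨0, hK⟩), fun t x => tent η t.2 (b t.1 x + h) * g t.1 x / (w + η),
    fun t => ?_, fun W x z => ?_, ?_⟩
  · have e := ab t.1 (p t 0) (p t 1)
    change a t.1 (p t) ^ 2 + b t.1 (p t) ^ 2 = _ at e
    rw [(pa t).1, (pa t).2, Real.sq_sqrt (by nlinarith [hβ t.2])] at e
    rw [EuclideanSpace.norm_eq, Real.sqrt_eq_one, Fin.sum_univ_two]
    simp only [Real.norm_eq_abs, sq_abs]
    linarith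
  · rw [Finset.sum_sub_distrib, hG, hG, ← Finset.sum_sub_distrib]
    refine disj _ (G W) x z _ dist_nonneg (fun j => G0 W j z) (fun j => ?_) fun i j hij => ?_
    · simp only [G]
      rw [← sub_div, div_le_iff₀ κ0]
      set U := Finset.univ.filter (fun k : Fin K => (j, k) ∈ W)
      have l1 : _ ≤ dist x z := (tent_lip η0 U (b j x + h) (b j z + h)).trans
        (by rw [add_sub_add_right_eq_sub]; exact (la j x z).2)
      have l2 : g j x - g j z ≤ dist x z := (cl_abs _ _ _).trans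
        (by rw [sub_sub_sub_cancel_right]; exact (la j x z).1)
      have l3 := (tent_le η0 U (b j z + h)).1
      have l4 : 0 ≤ ∑ k ∈ U, tent η k (b j z + h) := Finset.sum_nonneg fun k _ => tent_nonneg η0 _ _
      have l5 := mul_le_mul_of_nonneg_right l1 (g0 j x).1
      have l6 := mul_le_mul_of_nonneg_left l2 l4
      have l7 := mul_le_mul_of_nonneg_left (g0 j x).2 (dist_nonneg (x := x) (y := z))
      have l8 := mul_le_mul_of_nonneg_right l3 (dist_nonneg (x := x) (y := z))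
      linarith
    · by_contra hn
      push Not at hn
      obtain ⟨u1, u2⟩ := sup W i x hn.1
      obtain ⟨v1, v2⟩ := sup W j x hn.2
      have f := cos_far i j hij
      rw [c2, Real.cos_sub] at f
      change Real.cos (θ i) * Real.cos (θ j) + Real.sin (θ i) * Real.sin (θ j) ≤ _ at f
      have r0 : 0 ≤ x 0 ^ 2 + x 1 ^ 2 := by positivity
      have m1 : c ^ 2 * (x 0 ^ 2 + x 1 ^ 2) < a i x * a j x := by
        refine abs_lt_of_sq_lt_sq' ?_ (mul_pos u1 v1).le |>.2
        rw [mul_pow (a i x), sq (c ^ 2 * _)]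
        exact mul_lt_mul'' u2 v2 (by positivity) (by positivity)
      have m2 : (a i x + a j x) ^ 2 ≤ (x 0 ^ 2 + x 1 ^ 2) * (2 + 2 * (Real.cos (θ i) *
          Real.cos (θ j) + Real.sin (θ i) * Real.sin (θ j))) := by
        have e : 2 + 2 * (Real.cos (θ i) * Real.cos (θ j) + Real.sin (θ i) * Real.sin (θ j)) =
            (Real.cos (θ i) + Real.cos (θ j)) ^ 2 + (Real.sin (θ i) + Real.sin (θ j)) ^ 2 := by
          linear_combination -Real.sin_sq_add_cos_sq (θ i) - Real.sin_sq_add_cos_sq (θ j)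
        rw [e]
        simp only [a]
        nlinarith [sq_nonneg (x 0 * (Real.sin (θ i) + Real.sin (θ j)) -
          x 1 * (Real.cos (θ i) + Real.cos (θ j)))]
      nlinarith [mul_le_mul_of_nonneg_left f r0]
  · rw [Finset.sum_sub_distrib, hG]
    have e1 : ∀ t : Fin M × Fin K,
        tent η t.2 (b t.1 (p t) + h) * g t.1 (p t) / (w + η) = η * w / (w + η) := fun t => by
      have k : c ≤ √(1 - β t.2 ^ 2) := Real.le_sqrt_of_sq_le (by linarith [hβ t.2])
      simp only [g, (pa t).1, (pa t).2, tent, β, cl]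
      push_cast
      rw [min_eq_right (show η ≤ _ by linarith), min_eq_left (show _ ≤ η by linarith),
        min_eq_right (show w ≤ _ by simp only [β] at k; linarith), max_eq_right η0.le,
        max_eq_right w0.le, max_eq_left (by linarith), sub_zero]
    have e2 : ∀ j x, G Finset.univ j x ≤ η * w / (w + η) := fun j x =>
      div_le_div_of_nonneg_right (mul_le_mul (tent_le η0 _ _).1 (g0 j x).2 (g0 j x).1 η0.le) κ0.le
    have e3 := Finset.sum_le_sum fun j (_ : j ∈ Finset.univ) => e2 j (p (⟨0, by omega⟩, ⟨0, hK⟩))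
    simp only [e1, Finset.sum_const, Finset.card_univ, Fintype.card_prod, Fintype.card_fin,
      nsmul_eq_mul] at e3 ⊢
    have e4 : 2 * M * h * (K - 1) / (K + 1 + 2 * h / w) = M * (K - 1) * (η * w / (w + η)) := by
      rw [show 2 * M * h = M * ((K + 1) * η) by rw [ηh]; ring, ← ηh]
      field_simp
    rw [e4]
    push_cast
    linarith

end Pool.Agent.H3.St
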