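import Mathlib

open Filter Topology Metric Set Complex

namespace Pool.Agent.H3.Bla

/-- disc automorphism -/
noncomputable def mob (a z : ℂ) : ℂ := (a - z) / (1 - (starRingEnd ℂ) a * z)

theorem den_ne {a z : ℂ} (ha : ‖a‖ < 1) (hz : ‖z‖ < 1) : 1 - (starRingEnd ℂ) a * z ≠ 0 := by
  intro h
  have h1 : ‖(starRingEnd ℂ) a * z‖ = 1 := by rw [← sub_eq_zero.1 h]; simp
  rw [norm_mul, Complex.norm_conj] at h1
  nlinarith [norm_nonneg a, norm_nonneg z]

theorem normSq_id (a z : ℂ) :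
    ‖1 - (starRingEnd ℂ) a * z‖ ^ 2 - ‖a - z‖ ^ 2 = (1 - ‖a‖ ^ 2) * (1 - ‖z‖ ^ 2) := by
  simp only [Complex.sq_norm, Complex.normSq_apply, sub_re, one_re, mul_re, conj_re, conj_im,
    sub_im, one_im, mul_im]
  ring

theorem mob_lt {a z : ℂ} (ha : ‖a‖ < 1) (hz : ‖z‖ < 1) : ‖mob a z‖ < 1 := by
  unfold mob
  rw [norm_div, div_lt_one (norm_pos_iff.2 (den_ne ha hz))]
  have h1 := normSq_id a z
  have h2 : 0 < (1 - ‖a‖ ^ 2) * (1 - ‖z‖ ^ 2) :=
    mul_pos (by nlinarith [norm_nonneg a]) (by nlinarith [norm_nonneg z])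
  exact lt_of_pow_lt_pow_left₀ 2 (norm_nonneg _) (by linarith)

theorem mob_mob {a z : ℂ} (ha : ‖a‖ < 1) (hz : ‖z‖ < 1) : mob a (mob a z) = z := by
  have h1 := den_ne ha hz
  have h2 := den_ne ha (mob_lt ha hz)
  have h3 := den_ne ha ha
  unfold mob at *
  rw [div_eq_iff h2]
  generalize (starRingEnd ℂ) a = b at *
  have h4 : 1 - z * b ≠ 0 := by rwa [mul_comm]
  field_simp
  ring

theorem mob_diff {a : ℂ} (ha : ‖a‖ < 1) : DifferentiableOn ℂ (mob a) (ball 0 1) := by
  unfold mob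
  exact DifferentiableOn.div (by fun_prop) (by fun_prop) fun z hz => den_ne ha (by simpa using hz)

theorem mob_ne {a z : ℂ} (ha : ‖a‖ < 1) (hz : ‖z‖ < 1) (h : a ≠ z) : mob a z ≠ 0 :=
  div_ne_zero (sub_ne_zero.2 h) (den_ne ha hz)

theorem le_punct {U : Set ℂ} (hU : IsOpen U) {f g : ℂ → ℝ} (hf : ContinuousOn f U)
    (hg : ContinuousOn g U) {a : ℂ} (ha : a ∈ U) (h : ∀ᶠ z in 𝓝[≠] a, f z ≤ g z) : f a ≤ g a :=
  le_of_tendsto_of_tendsto ((hf.continuousAt (hU.mem_nhds ha)).tendsto.mono_left nhdsWithin_le_nhds)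
    ((hg.continuousAt (hU.mem_nhds ha)).tendsto.mono_left nhdsWithin_le_nhds) h

theorem quo {U : Set ℂ} (hU : IsOpen U) {h B : ℂ → ℂ} (hh : DifferentiableOn ℂ h U)
    (hB : DifferentiableOn ℂ B U)
    (hz : ∀ c ∈ U, B c = 0 → ∃ C : ℝ, ∀ᶠ z in 𝓝[≠] c, B z ≠ 0 ∧ ‖h z‖ ≤ C * ‖B z‖) :
    ∃ k, DifferentiableOn ℂ k U ∧ ∀ z ∈ U, h z = B z * k z := by
  classical
  refine ⟨fun z => if B z = 0 then limUnder (𝓝[≠] z) (fun w => h w / B w) else h z / B z,
    fun c hc => DifferentiableAt.differentiableWithinAt ?_, fun z hzU => ?_⟩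
  · by_cases h0 : B c = 0
    · obtain ⟨C, hC⟩ := hz c hc h0
      rw [eventually_nhdsWithin_iff] at hC
      set s := U ∩ {z | z ∈ ({c}ᶜ : Set ℂ) → B z ≠ 0 ∧ ‖h z‖ ≤ C * ‖B z‖} with hs
      have hsn : s ∈ 𝓝 c := inter_mem (hU.mem_nhds hc) hC
      have h1 := differentiableOn_update_limUnder_of_bddAbove (f := fun w => h w / B w) hsn
        ((hh.mono fun z hz => hz.1.1).div (hB.mono fun z hz => hz.1.1) fun z hz => (hz.1.2 hz.2).1)
        ⟨C, by
          rintro _ ⟨z, hz, rfl⟩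
          have := hz.1.2 hz.2
          simp only [Function.comp, norm_div]
          rw [div_le_iff₀ (norm_pos_iff.2 this.1)]
          exact this.2⟩
      refine (h1.differentiableAt hsn).congr_of_eventuallyEq ?_
      filter_upwards [hsn] with z hz
      by_cases hzc : z = c
      · subst hzc; simp [h0]
      · simp [hzc, (hz.2 hzc).1]
    · have h1 : ∀ᶠ z in 𝓝 c, B z ≠ 0 :=
        (hB.continuousOn.continuousAt (hU.mem_nhds hc)).eventually_ne h0
      refine ((hh.differentiableAt (hU.mem_nhds hc)).div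
        (hB.differentiableAt (hU.mem_nhds hc)) h0).congr_of_eventuallyEq ?_
      filter_upwards [h1] with z hz
      simp [hz]
  · by_cases h0 : B z = 0
    · obtain ⟨C, hC⟩ := hz z hzU h0
      have := le_punct hU hh.continuousOn.norm (continuousOn_const.mul hB.continuousOn.norm) hzU
        (hC.mono fun w hw => hw.2)
      simpa [h0] using this
    · simp only [h0, if_false]; field_simp

theorem div1 {h : ℂ → ℂ} (hd : DifferentiableOn ℂ h (ball 0 1)) (hb : ∀ z ∈ ball (0 : ℂ) 1, ‖h z‖ ≤ 1)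
    {a : ℂ} (ha : ‖a‖ < 1) (h0 : h a = 0) :
    ∃ h', DifferentiableOn ℂ h' (ball 0 1) ∧ (∀ z ∈ ball (0 : ℂ) 1, ‖h' z‖ ≤ 1) ∧
      ∀ z ∈ ball (0 : ℂ) 1, h z = mob a z * h' z := by
  have hm : MapsTo (mob a) (ball 0 1) (ball 0 1) := fun z hz => by
    simpa using mob_lt ha (by simpa using hz)
  have h1 : ∀ z ∈ ball (0 : ℂ) 1, ‖h z‖ ≤ ‖mob a z‖ := fun z hz => by
    have hz' : ‖z‖ < 1 := by simpa using hz
    have := Complex.norm_le_norm_of_mapsTo_ball (f := h ∘ mob a) (hd.comp (mob_diff ha) hm)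
      (fun w hw => by simpa using hb _ (hm hw)) (by simp [mob, h0]) (mob_lt ha hz')
    simpa [mob_mob ha hz'] using this
  have h2 : ∀ c ∈ ball (0 : ℂ) 1, ∀ᶠ z in 𝓝[≠] c, z ∈ ball (0 : ℂ) 1 ∧ mob a z ≠ 0 := by
    intro c hc
    have e1 : ∀ᶠ z in 𝓝[≠] c, z ∈ ball (0 : ℂ) 1 := nhdsWithin_le_nhds (isOpen_ball.mem_nhds hc)
    have e2 : ∀ᶠ z in 𝓝[≠] c, z ≠ a := by
      by_cases hca : c = a
      · subst hca; exact self_mem_nhdsWithin
      · exact nhdsWithin_le_nhds (eventually_ne_nhds hca)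
    filter_upwards [e1, e2] with z a1 a2
    exact ⟨a1, mob_ne ha (by simpa using a1) a2.symm⟩
  obtain ⟨k, hk, hk2⟩ := quo isOpen_ball hd (mob_diff ha) fun c hc _ =>
    ⟨1, (h2 c hc).mono fun z hz => ⟨hz.2, by simpa using h1 z hz.1⟩⟩
  refine ⟨k, hk, fun c hc => le_punct isOpen_ball hk.continuousOn.norm continuousOn_const hc ?_, hk2⟩
  filter_upwards [h2 c hc] with z hz
  have := h1 z hz.1
  rw [hk2 z hz.1, norm_mul] at this
  exact (mul_le_iff_le_one_right (norm_pos_iff.2 hz.2)).1 this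

theorem divFin {ι : Type} [DecidableEq ι] (a : ι → ℂ) (s : Finset ι) (ha : ∀ i ∈ s, ‖a i‖ < 1)
    (hinj : InjOn a s) : ∀ h : ℂ → ℂ, DifferentiableOn ℂ h (ball 0 1) →
      (∀ z ∈ ball (0 : ℂ) 1, ‖h z‖ ≤ 1) → (∀ i ∈ s, h (a i) = 0) →
      ∀ z ∈ ball (0 : ℂ) 1, ‖h z‖ ≤ ∏ i ∈ s, ‖mob (a i) z‖ := by
  induction s using Finset.induction_on with
  | empty => intro h _ hb _; simpa using hb
  | insert j s hj ih =>
    intro h hd hb h0 z hz
    have haj := ha j (by simp)
    obtain ⟨h', d', b', e'⟩ := div1 hd hb haj (h0 j (by simp))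
    rw [Finset.prod_insert hj, e' z hz, norm_mul]
    refine mul_le_mul_of_nonneg_left (ih (fun i hi => ha i (by simp [hi]))
      (hinj.mono (by simp)) h' d' b' (fun i hi => ?_) z hz) (norm_nonneg _)
    have hai := ha i (by simp [hi])
    have := e' (a i) (by simpa using hai)
    rw [h0 i (by simp [hi])] at this
    refine (mul_eq_zero.1 this.symm).resolve_left (mob_ne haj hai fun h => hj ?_)
    rw [hinj (by simp) (by simp [hi]) h]; exact hi

theorem divK (a : ℕ → ℂ) (ha : ∀ j, ‖a j‖ < 1) (K : ℂ → ℝ) (hK : ContinuousOn K (ball 0 1)) (N : ℕ) :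
    ∀ h : ℂ → ℂ, DifferentiableOn ℂ h (ball 0 1) → (∀ z ∈ ball (0 : ℂ) 1, ‖h z‖ ≤ 1) →
      (∀ z ∈ ball (0 : ℂ) 1, ‖h z‖ ≤ K z * ∏ j ∈ Finset.range N, ‖mob (a j) z‖) →
      ∀ z ∈ ball (0 : ℂ) 1, ‖h z‖ ≤ ∏ j ∈ Finset.range N, ‖mob (a j) z‖ := by
  induction N with
  | zero => intro h _ hb _; simpa using hb
  | succ N ih =>
    intro h hd hb h0 z hz
    have haN : a N ∈ ball (0 : ℂ) 1 := by simpa using ha N
    obtain ⟨h', d', b', e'⟩ := div1 hd hb (ha N) (by
      simpa [Finset.prod_range_succ, mob] using h0 _ haN)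
    rw [Finset.prod_range_succ, e' z hz, norm_mul, mul_comm]
    refine mul_le_mul_of_nonneg_right (ih h' d' b' ?_ z hz) (norm_nonneg _)
    have key : ∀ w ∈ ball (0 : ℂ) 1, w ≠ a N →
        ‖h' w‖ ≤ K w * ∏ j ∈ Finset.range N, ‖mob (a j) w‖ := fun w hw hne => by
      have := h0 w hw
      rw [Finset.prod_range_succ, e' w hw, norm_mul, mul_comm, ← mul_assoc] at this
      exact le_of_mul_le_mul_right this (norm_pos_iff.2 (mob_ne (ha N) (by simpa using hw) hne.symm))
    intro w hw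
    by_cases hne : w = a N
    · subst hne
      refine le_punct isOpen_ball d'.continuousOn.norm (hK.mul (continuousOn_finsetProd _
        fun j _ => (mob_diff (ha j)).continuousOn.norm)) hw ?_
      filter_upwards [nhdsWithin_le_nhds (isOpen_ball.mem_nhds hw), self_mem_nhdsWithin] with u a1 a2
      exact key u a1 a2
    · exact key w hw hne

/-- the periodic uniqueness lemma on the right half plane -/
theorem per {g : ℂ → ℂ} (hd : DifferentiableOn ℂ g {w | 0 < w.re})
    (hb : ∀ w : ℂ, 0 < w.re → ‖g w‖ ≤ 1)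
    (hi : ∀ m : ℤ, g (Real.log 2 + Real.pi * m * I) = exp (-(Real.log 2 + Real.pi * m * I))) :
    ∀ w : ℂ, 0 < w.re → g w = exp (-w) := by
  have hH : IsOpen {w : ℂ | 0 < w.re} := isOpen_lt continuous_const continuous_re
  have hl : exp (-(Real.log 2 : ℂ)) = 1 / 2 := by
    rw [← ofReal_neg, ← ofReal_exp, Real.exp_neg, Real.exp_log two_pos]; simp
  have hq : ∀ w : ℂ, ‖exp (-w)‖ = Real.exp (-w.re) := fun w => by simp [norm_exp]
  have hq1 : ∀ w : ℂ, 0 < w.re → ‖exp (-w)‖ < 1 := fun w hw => by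
    rw [hq]; exact Real.exp_lt_one_iff.2 (by linarith)
  obtain ⟨k0, hk0, hk⟩ := quo hH (h := fun w => g w - 1 / 2) (B := fun w => exp (-w) - 1 / 2)
    (hd.sub_const _) (by fun_prop) (by
      intro c hc h0
      have h1 : exp (-c) = exp (-(Real.log 2 : ℂ)) := by rw [hl]; exact sub_eq_zero.1 h0
      obtain ⟨n, hn⟩ := exp_eq_exp_iff_exists_int.1 h1
      have hc' : c = Real.log 2 + Real.pi * ((-2 * n : ℤ) : ℂ) * I := by
        push_cast; linear_combination -hn
      have hg : g c - 1 / 2 = 0 := by rw [← h0, hc', hi]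
      have a1 := ((hd.differentiableAt (hH.mem_nhds hc)).sub_const (1 / 2)).isBigO_sub
      have a2 : HasDerivAt (fun w => exp (-w) - 1 / 2) (-exp (-c)) c := by
        simpa using ((hasDerivAt_neg c).cexp).sub_const (1 / 2)
      have a3 := ((HasDerivAtFilter.isTheta_sub a2 (neg_ne_zero.2 (exp_ne_zero _))).symm.isBigO).comp_tendsto
        (k := fun z : ℂ => (z, c)) (l' := 𝓝 c) (tendsto_id.prodMk tendsto_const_pure)
      simp only [hg, h0, sub_zero, Function.comp_def] at a1 a3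
      obtain ⟨C, hC⟩ := (a1.trans a3).bound
      refine ⟨C, Eventually.and ?_ (nhdsWithin_le_nhds hC)⟩
      filter_upwards [a2.eventually_ne (c := 0) (neg_ne_zero.2 (exp_ne_zero _))] with z hz using hz)
  have hden : ∀ w : ℂ, 0 < w.re → 1 - 1 / 2 * g w ≠ 0 := fun w hw h => by
    have h1 : g w = 2 := by linear_combination -2 * h
    have := hb w hw
    rw [h1] at this; norm_num at this
  let k : ℂ → ℂ := fun w => k0 w * (1 - 1 / 2 * exp (-w)) / (1 - 1 / 2 * g w)
  have hkd : DifferentiableOn ℂ k {w | 0 < w.re} :=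
    (hk0.mul (by fun_prop)).div ((hd.const_mul _).const_sub _) hden
  have hk1 : ∀ w : ℂ, 0 < w.re → ‖k w‖ * ‖exp (-w) - 1 / 2‖ ≤ ‖1 - 1 / 2 * exp (-w)‖ := by
    intro w hw
    have h1 : k w * (exp (-w) - 1 / 2)
        = (g w - 1 / 2) / (1 - 1 / 2 * g w) * (1 - 1 / 2 * exp (-w)) := by
      rw [hk w hw]; simp only [k]; ring
    rw [← norm_mul, h1, norm_mul]
    refine mul_le_of_le_one_left (norm_nonneg _) ?_
    rw [norm_div, div_le_one (norm_pos_iff.2 (hden w hw))]
    have h2 := normSq_id (1 / 2) (g w)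
    have h3 := hb w hw
    simp only [map_div₀, map_one, map_ofNat, norm_div, norm_one, Complex.norm_ofNat] at h2
    rw [norm_sub_rev (1 / 2 : ℂ)] at h2
    refine le_of_pow_le_pow_left₀ two_ne_zero (norm_nonneg _) ?_
    nlinarith [norm_nonneg (g w)]
  have hk2 : ∀ w : ℂ, 0 < w.re → 1 / 4 ≤ ‖exp (-w) - 1 / 2‖ → ‖k w‖ ≤ 8 := by
    intro w hw h
    have h1 := hk1 w hw
    have h2 : ‖1 - 1 / 2 * exp (-w)‖ ≤ 2 := by
      refine (norm_sub_le _ _).trans ?_
      have := hq1 w hw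
      simp only [norm_one, norm_mul, norm_div, Complex.norm_ofNat]; linarith
    nlinarith [norm_nonneg (k w)]
  have hneg : ∀ (z : ℂ) (n : ℤ), |z.im - 2 * Real.pi * n| = Real.pi → 1 / 4 < ‖exp (-z) - 1 / 2‖ := by
    intro z n h
    have hc : Real.cos z.im = -1 := by
      rw [← Real.cos_sub_int_mul_two_pi z.im n, ← Real.cos_abs, mul_comm, h, Real.cos_pi]
    have h1 : (exp (-z) - 1 / 2).re = -Real.exp (-z.re) - 1 / 2 := by
      simp [exp_re, hc]
    have h2 := abs_re_le_norm (exp (-z) - 1 / 2)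
    have h3 := Real.exp_pos (-z.re)
    rw [h1, abs_of_neg (by linarith)] at h2
    linarith
  have hk3 : ∀ w : ℂ, 0 < w.re → ‖k w‖ ≤ 8 := by
    intro w hw
    rcases le_or_gt (1 / 4) ‖exp (-w) - 1 / 2‖ with h | h
    · exact hk2 w hw h
    set n : ℤ := round (w.im / (2 * Real.pi)) with hn
    let U : Set ℂ := {z | ‖exp (-z) - 1 / 2‖ < 1 / 4 ∧ |z.im - 2 * Real.pi * n| < Real.pi}
    let U' : Set ℂ := {z | ‖exp (-z) - 1 / 2‖ ≤ 1 / 4 ∧ |z.im - 2 * Real.pi * n| ≤ Real.pi}
    have c1 : Continuous fun z : ℂ => ‖exp (-z) - 1 / 2‖ := by fun_prop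
    have c2 : Continuous fun z : ℂ => |z.im - 2 * Real.pi * n| := by fun_prop
    have hUo : IsOpen U := (isOpen_lt c1 continuous_const).inter (isOpen_lt c2 continuous_const)
    have hUc : closure U ⊆ U' := closure_minimal (fun z hz => ⟨hz.1.le, hz.2.le⟩)
      ((isClosed_le c1 continuous_const).inter (isClosed_le c2 continuous_const))
    have hre : ∀ z ∈ U', 0 < z.re ∧ z.re ≤ 4 := fun z hz => by
      have a1 := abs_norm_sub_norm_le (exp (-z)) (1 / 2)
      have a2 := hz.1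
      rw [hq] at a1
      simp only [norm_div, norm_one, Complex.norm_ofNat] at a1
      obtain ⟨a3, a4⟩ := abs_le.1 (a1.trans a2)
      constructor
      · have : Real.exp (-z.re) < 1 := by linarith
        linarith [Real.exp_lt_one_iff.1 this]
      · have a5 := Real.add_one_le_exp z.re
        have a6 : Real.exp z.re * Real.exp (-z.re) = 1 := by rw [← Real.exp_add]; simp
        nlinarith [Real.exp_pos z.re]
    have hUb : Bornology.IsBounded U := by
      refine isBounded_iff_forall_norm_le.2 ⟨4 + (|2 * Real.pi * n| + Real.pi), fun z hz => ?_⟩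
      have a1 := hre z (hUc (subset_closure hz))
      have a2 := abs_sub_abs_le_abs_sub z.im (2 * Real.pi * n)
      have a3 := norm_le_abs_re_add_abs_im z
      rw [abs_of_pos a1.1] at a3
      linarith [hz.2]
    have hwU : w ∈ U := by
      refine ⟨h, lt_of_le_of_ne ?_ fun h' => absurd (hneg w n h') (by linarith)⟩
      have a1 := abs_sub_round (w.im / (2 * Real.pi))
      have a2 : w.im - 2 * Real.pi * n = (w.im / (2 * Real.pi) - n) * (2 * Real.pi) := by
        field_simp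
      rw [a2, abs_mul, abs_of_pos Real.two_pi_pos]
      nlinarith [Real.pi_pos]
    refine norm_le_of_forall_mem_frontier_norm_le hUb
      (DifferentiableOn.diffContOnCl (hkd.mono fun z hz => (hre z (hUc hz)).1)) (fun z hz => ?_)
      (subset_closure hwU)
    rw [hUo.frontier_eq] at hz
    have a1 := hUc hz.1
    refine hk2 z (hre z a1).1 ?_
    by_contra hlt
    refine hz.2 ⟨not_le.1 hlt, lt_of_le_of_ne a1.2 fun h' => absurd (hneg z n h') (by linarith [a1.1])⟩
  have hk4 : ∀ w : ℂ, 0 < w.re → ‖k w‖ ≤ 1 := by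
    intro w hw
    have hPL : ∀ ε : ℝ, 0 < ε → ε ≤ w.re → 3 / 4 ≤ Real.exp (-ε) →
        ‖k w‖ ≤ √(1 + 16 * (1 - Real.exp (-ε) ^ 2)) := by
      intro ε h0 h1 h2
      have hcl : closure {z : ℂ | 0 < z.re} = {z : ℂ | 0 ≤ z.re} := closure_setOfPred_lt_re 0
      have := PhragmenLindelof.right_half_plane_of_bounded_on_real (f := fun z => k (z + ε))
        (C := √(1 + 16 * (1 - Real.exp (-ε) ^ 2))) (z := w - ε)
        (DifferentiableOn.diffContOnCl (by
          rw [hcl]
          refine hkd.comp (by fun_prop) fun z hz => ?_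
          have : 0 ≤ z.re := hz
          simp; linarith))
        ⟨0, two_pos, 0, Asymptotics.IsBigO.of_bound 8 (by
          refine Filter.mem_inf_of_right fun z hz => ?_
          have : 0 < z.re := hz
          simpa using hk3 (z + ε) (by simp; linarith))⟩
        (isBoundedUnder_of_eventually_le (a := 8) (by
          filter_upwards [eventually_ge_atTop (0 : ℝ)] with x hx
          exact hk3 _ (by simp; linarith)))
        (fun x => ?_) (by simp; linarith)
      · simpa using this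
      · have a0 : ((x : ℂ) * I + ε).re = ε := by simp
        have a1 := hk1 (x * I + ε) (by rw [a0]; exact h0)
        have a2 := normSq_id (1 / 2) (exp (-(x * I + ε)))
        have a3 := abs_norm_sub_norm_le (exp (-(x * I + ε))) (1 / 2)
        simp only [map_div₀, map_one, map_ofNat, norm_div, norm_one, Complex.norm_ofNat] at a2 a3
        rw [norm_sub_rev (1 / 2 : ℂ)] at a2
        rw [hq, a0] at a2 a3
        have a4 := (le_abs_self _).trans a3
        have a5 : Real.exp (-ε) < 1 := Real.exp_lt_one_iff.2 (by linarith)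
        apply Real.le_sqrt_of_sq_le
        set d := ‖exp (-(x * I + ε)) - 1 / 2‖
        set t := 1 - Real.exp (-ε) ^ 2
        have a6 : 0 ≤ t := by simp only [t]; nlinarith
        have a7 : (‖k (x * I + ε)‖ * d) ^ 2 ≤ d ^ 2 + t := by
          have := pow_le_pow_left₀ (by positivity) a1 2
          nlinarith
        have a8 : 1 / 16 ≤ d ^ 2 := by nlinarith
        have a9 : ‖k (x * I + ε)‖ ^ 2 * d ^ 2 ≤ (1 + 16 * t) * d ^ 2 := by nlinarith
        exact le_of_mul_le_mul_right a9 (by linarith)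
    have ht : Tendsto (fun ε : ℝ => √(1 + 16 * (1 - Real.exp (-ε) ^ 2))) (𝓝[>] 0) (𝓝 1) := by
      have : Continuous fun ε : ℝ => √(1 + 16 * (1 - Real.exp (-ε) ^ 2)) := by fun_prop
      simpa using (this.tendsto 0).mono_left nhdsWithin_le_nhds
    refine ge_of_tendsto ht ?_
    filter_upwards [self_mem_nhdsWithin, nhdsWithin_le_nhds (Iic_mem_nhds hw),
      nhdsWithin_le_nhds (Iic_mem_nhds (by norm_num : (0 : ℝ) < 1 / 4))] with ε a1 a2 a3
    refine hPL ε a1 a2 ?_
    have := Real.add_one_le_exp (-ε)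
    have : ε ≤ 1 / 4 := a3
    linarith
  set w0 : ℂ := Real.log 2 + Real.pi * (1 : ℤ) * I with hw0
  have hw0r : 0 < w0.re := by
    have := Real.log_pos one_lt_two
    rw [hw0]; generalize Real.log 2 = α at *; simpa using this
  have hw0e : exp (-w0) = -(1 / 2) := by
    rw [hw0, neg_add, exp_add, hl]; simp [exp_neg]
  have hkw0 : k w0 = 1 := by
    have a1 := hk w0 hw0r
    have a2 : g w0 = exp (-w0) := hi 1
    simp only [a2, hw0e] at a1
    have a3 : k0 w0 = 1 := by linear_combination a1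
    simp only [k, a2, a3, hw0e]; norm_num
  have hconst := eqOn_of_isPreconnected_of_isMaxOn_norm (convex_halfSpace_re_gt 0).isPreconnected
    hH hkd hw0r (fun z hz => by simpa [hkw0] using hk4 z hz)
  intro w hw
  have a1 : k w = 1 := by simpa [hkw0] using hconst hw
  have a2 := hk w hw
  simp only [k] at a1 a2
  rw [div_eq_one_iff_eq (hden w hw)] at a1
  linear_combination (4 / 3) * ((1 - 1 / 2 * exp (-w)) * a2 + (exp (-w) - 1 / 2) * a1)

end Pool.Agent.H3.Bla
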