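import Pool.Agent.H3.Bla1

open Filter Topology Metric Set Complex

namespace Pool.Agent.H3.Bla

/-- normalised Blaschke factor -/
noncomputable def bfac (a z : ℂ) : ℂ := (‖a‖ : ℂ) / a * mob a z

theorem norm_bfac {a : ℂ} (h : a ≠ 0) (z : ℂ) : ‖bfac a z‖ = ‖mob a z‖ := by
  have : ‖a‖ ≠ 0 := norm_ne_zero_iff.2 h
  simp [bfac, this]

theorem bfac_sub {a z : ℂ} (h : a ≠ 0) (ha : ‖a‖ < 1) {r : ℝ} (hz : ‖z‖ ≤ r) (hr : r < 1) :
    ‖bfac a z - 1‖ ≤ (1 - ‖a‖) * (2 / (1 - r)) := by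
  have hz1 : ‖z‖ < 1 := hz.trans_lt hr
  have hd := den_ne ha hz1
  have hn : 0 < ‖a‖ := norm_pos_iff.2 h
  have e1 : (starRingEnd ℂ) a * a = (‖a‖ : ℂ) ^ 2 := by
    rw [Complex.conj_mul']
  have e2 : bfac a z - 1 = -((1 - ‖a‖ : ℝ) : ℂ) * ((a + ‖a‖ * z) / (a * (1 - (starRingEnd ℂ) a * z))) := by
    unfold bfac mob
    generalize (starRingEnd ℂ) a = b at *
    have h4 : 1 - z * b ≠ 0 := by rwa [mul_comm]
    field_simp
    push_cast
    linear_combination z * e1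
  rw [e2, norm_mul, norm_neg, Complex.norm_real, Real.norm_of_nonneg (by linarith)]
  refine mul_le_mul_of_nonneg_left ?_ (by linarith)
  have e3 : ‖a + ‖a‖ * z‖ ≤ ‖a‖ * 2 := by
    refine (norm_add_le _ _).trans ?_
    rw [norm_mul, Complex.norm_real, norm_norm]; nlinarith
  have e4 : 1 - r ≤ ‖1 - (starRingEnd ℂ) a * z‖ := by
    have := norm_sub_norm_le 1 ((starRingEnd ℂ) a * z)
    rw [norm_one, norm_mul, Complex.norm_conj] at this
    nlinarith [norm_nonneg z]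
  rw [norm_div, norm_mul, div_le_div_iff₀ (mul_pos hn (by linarith)) (by linarith)]
  nlinarith [norm_nonneg (a + ‖a‖ * z)]

/-- Blaschke product over a family -/
noncomputable def bl {κ : Type} (a : κ → ℂ) (z : ℂ) : ℂ := ∏' k, bfac (a k) z

section
variable {κ : Type} {a : κ → ℂ} (h0 : ∀ k, a k ≠ 0) (h1 : ∀ k, ‖a k‖ < 1)
  (hs : Summable fun k => 1 - ‖a k‖)
include h0 h1 hs

theorem bl_summ {z : ℂ} (hz : ‖z‖ < 1) : Summable fun k => ‖bfac (a k) z - 1‖ :=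
  (hs.mul_right (2 / (1 - ‖z‖))).of_nonneg_of_le (fun _ => norm_nonneg _)
    fun k => bfac_sub (h0 k) (h1 k) le_rfl hz

theorem bl_tend {z : ℂ} (hz : ‖z‖ < 1) :
    Tendsto (fun s : Finset κ => ∏ k ∈ s, ‖mob (a k) z‖) atTop (𝓝 ‖bl a z‖) := by
  have h2 := (multipliable_one_add_of_summable (bl_summ h0 h1 hs hz)).hasProd
  simp only [add_sub_cancel] at h2
  have h3 : Tendsto (fun s : Finset κ => ∏ k ∈ s, bfac (a k) z) atTop (𝓝 (bl a z)) := h2
  simpa [norm_prod, norm_bfac (h0 _)] using h3.norm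

theorem bl_le {z : ℂ} (hz : ‖z‖ < 1) (s : Finset κ) : ‖bl a z‖ ≤ ∏ k ∈ s, ‖mob (a k) z‖ := by
  classical
  refine le_of_tendsto (bl_tend h0 h1 hs hz) ?_
  filter_upwards [eventually_ge_atTop s] with t ht
  exact Finset.prod_le_prod_of_subset_of_le_one ht (fun _ _ => norm_nonneg _)
    fun k _ _ => (mob_lt (h1 k) hz).le

theorem bl_ne {z : ℂ} (hz : ‖z‖ < 1) (h : ∀ k, a k ≠ z) : bl a z ≠ 0 := by
  have := tprod_one_add_ne_zero_of_summable (f := fun k => bfac (a k) z - 1) (fun k => by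
    rw [add_sub_cancel, ← norm_ne_zero_iff, norm_bfac (h0 k), norm_ne_zero_iff]
    exact mob_ne (h1 k) hz (h k)) (bl_summ h0 h1 hs hz)
  simpa [bl] using this

theorem bl_diff : DifferentiableOn ℂ (bl a) (ball 0 1) := by
  intro z hz
  obtain ⟨r, hr1, hr2⟩ := exists_between (show ‖z‖ < 1 by simpa using hz)
  have hd : ∀ k, DifferentiableOn ℂ (bfac (a k)) (ball 0 r) := fun k =>
    ((mob_diff (h1 k)).const_mul _).mono (ball_subset_ball hr2.le)
  have h2 := (hs.mul_right (2 / (1 - r))).hasProdLocallyUniformlyOn_one_add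
    (f := fun k w => bfac (a k) w - 1) (K := ball (0 : ℂ) r) isOpen_ball
    (Eventually.of_forall fun k w hw => bfac_sub (h0 k) (h1 k) (le_of_lt (by simpa using hw)) hr2)
    fun k => ((hd k).sub_const 1).continuousOn
  simp only [add_sub_cancel] at h2
  have h3 := TendstoLocallyUniformlyOn.differentiableOn h2
    (Eventually.of_forall fun s => DifferentiableOn.fun_finsetProd fun k _ => hd k) isOpen_ball
  exact (h3.differentiableAt (isOpen_ball.mem_nhds (by simpa using hr1))).differentiableWithinAt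

theorem bl_div (hinj : Function.Injective a) {z0 : ℂ} (hz0 : ‖z0‖ < 1) (hne : ∀ k, a k ≠ z0)
    {h : ℂ → ℂ} (hd : DifferentiableOn ℂ h (ball 0 1)) (hb : ∀ z ∈ ball (0 : ℂ) 1, ‖h z‖ ≤ 1)
    (hv : ∀ k, h (a k) = 0) :
    ∃ h', DifferentiableOn ℂ h' (ball 0 1) ∧ (∀ z ∈ ball (0 : ℂ) 1, ‖h' z‖ ≤ 1) ∧
      ∀ z ∈ ball (0 : ℂ) 1, h z = bl a z * h' z := by
  classical
  have e1 : ∀ z ∈ ball (0 : ℂ) 1, ‖h z‖ ≤ ‖bl a z‖ := fun z hz =>
    ge_of_tendsto' (bl_tend h0 h1 hs (by simpa using hz)) fun s =>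
      divFin a s (fun k _ => h1 k) hinj.injOn h hd hb (fun k _ => hv k) z hz
  have hB := bl_diff h0 h1 hs
  have hA := hB.analyticOnNhd isOpen_ball
  have e2 : ∀ c ∈ ball (0 : ℂ) 1, ∀ᶠ z in 𝓝[≠] c, z ∈ ball (0 : ℂ) 1 ∧ bl a z ≠ 0 := by
    intro c hc
    refine Eventually.and (nhdsWithin_le_nhds (isOpen_ball.mem_nhds hc)) ?_
    refine (hA c hc).eventually_eq_zero_or_eventually_ne_zero.resolve_left fun h => ?_
    exact bl_ne h0 h1 hs hz0 hne (hA.eqOn_zero_of_preconnected_of_eventuallyEq_zero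
      (convex_ball 0 1).isPreconnected hc h (by simpa using hz0))
  obtain ⟨k, hk, hk2⟩ := quo isOpen_ball hd hB fun c hc _ =>
    ⟨1, (e2 c hc).mono fun z hz => ⟨hz.2, by simpa using e1 z hz.1⟩⟩
  refine ⟨k, hk, fun c hc => le_punct isOpen_ball hk.continuousOn.norm continuousOn_const hc ?_, hk2⟩
  filter_upwards [e2 c hc] with z hz
  have := e1 z hz.1
  rw [hk2 z hz.1, norm_mul] at this
  exact (mul_le_iff_le_one_right (norm_pos_iff.2 hz.2)).1 this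

end

theorem divK' {ι : Type} [DecidableEq ι] (a : ι → ℂ) (ha : ∀ j, ‖a j‖ < 1) (K : ℂ → ℝ)
    (hK : ContinuousOn K (ball 0 1)) (s : Finset ι) :
    ∀ h : ℂ → ℂ, DifferentiableOn ℂ h (ball 0 1) → (∀ z ∈ ball (0 : ℂ) 1, ‖h z‖ ≤ 1) →
      (∀ z ∈ ball (0 : ℂ) 1, ‖h z‖ ≤ K z * ∏ j ∈ s, ‖mob (a j) z‖) →
      ∀ z ∈ ball (0 : ℂ) 1, ‖h z‖ ≤ ∏ j ∈ s, ‖mob (a j) z‖ := by
  induction s using Finset.induction_on with
  | empty => intro h _ hb _; simpa using hb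
  | insert N s hN ih =>
    intro h hd hb h0 z hz
    have haN : a N ∈ ball (0 : ℂ) 1 := by simpa using ha N
    obtain ⟨h', d', b', e'⟩ := div1 hd hb (ha N) (by
      simpa [Finset.prod_insert hN, mob] using h0 _ haN)
    rw [Finset.prod_insert hN, e' z hz, norm_mul]
    refine mul_le_mul_of_nonneg_left (ih h' d' b' ?_ z hz) (norm_nonneg _)
    have key : ∀ w ∈ ball (0 : ℂ) 1, w ≠ a N →
        ‖h' w‖ ≤ K w * ∏ j ∈ s, ‖mob (a j) w‖ := fun w hw hne => by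
      have := h0 w hw
      rw [Finset.prod_insert hN, e' w hw, norm_mul, mul_left_comm] at this
      exact le_of_mul_le_mul_left this (norm_pos_iff.2 (mob_ne (ha N) (by simpa using hw) hne.symm))
    intro w hw
    by_cases hne : w = a N
    · subst hne
      refine le_punct isOpen_ball d'.continuousOn.norm (hK.mul (continuousOn_finsetProd _
        fun j _ => (mob_diff (ha j)).continuousOn.norm)) hw ?_
      filter_upwards [nhdsWithin_le_nhds (isOpen_ball.mem_nhds hw), self_mem_nhdsWithin] with u a1 a2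
      exact key u a1 a2
    · exact key w hw hne

theorem bl_K {κ : Type} {a : κ → ℂ} (h0 : ∀ k, a k ≠ 0) (h1 : ∀ k, ‖a k‖ < 1)
    (hs : Summable fun k => 1 - ‖a k‖) (n : ℕ) (K : ℂ → ℝ) (hK : ContinuousOn K (ball 0 1))
    (hK0 : ∀ z, 0 ≤ K z) {h : ℂ → ℂ} (hd : DifferentiableOn ℂ h (ball 0 1))
    (hb : ∀ z ∈ ball (0 : ℂ) 1, ‖h z‖ ≤ 1)
    (hv : ∀ z ∈ ball (0 : ℂ) 1, ‖h z‖ ≤ K z * (‖z‖ ^ n * ‖bl a z‖)) :
    ∀ z ∈ ball (0 : ℂ) 1, ‖h z‖ ≤ ‖z‖ ^ n * ‖bl a z‖ := by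
  classical
  intro z hz
  refine ge_of_tendsto' ((bl_tend h0 h1 hs (by simpa using hz)).const_mul _) fun s => ?_
  have e : ∀ w, ∏ j ∈ (Finset.range n).disjSum s, ‖mob (Sum.elim (fun _ => 0) a j) w‖
      = ‖w‖ ^ n * ∏ k ∈ s, ‖mob (a k) w‖ := fun w => by
    simp [Finset.prod_disjSum, mob, mul_div_assoc]
  rw [← e]
  refine divK' _ (by rintro (j | j) <;> simp [h1]) K hK _ h hd hb (fun w hw => (hv w hw).trans ?_) z hz
  rw [e]
  exact mul_le_mul_of_nonneg_left (mul_le_mul_of_nonneg_left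
    (bl_le h0 h1 hs (by simpa using hw) s) (by positivity)) (hK0 w)

end Pool.Agent.H3.Bla
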