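import Pool.Agent.H3.Bla2

open Filter Topology Metric Set Complex

namespace Pool.Agent.H3.Bla

/-- Cayley map -/
noncomputable def ze (w : ℂ) : ℂ := (w - 1) / (w + 1)
/-- inverse Cayley map -/
noncomputable def om (z : ℂ) : ℂ := (1 + z) / (1 - z)

theorem add_ne {w : ℂ} (hw : 0 < w.re) : w + 1 ≠ 0 := fun h => by
  have := congrArg re h
  simp at this; linarith

theorem ze_sq (w : ℂ) : ‖ze w‖ ^ 2 = ((w.re - 1) ^ 2 + w.im ^ 2) / ((w.re + 1) ^ 2 + w.im ^ 2) := by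
  rw [ze, norm_div, div_pow, Complex.sq_norm, Complex.sq_norm]
  simp [normSq_apply, sq]

theorem ze_lt {w : ℂ} (hw : 0 < w.re) : ‖ze w‖ < 1 := by
  refine lt_of_pow_lt_pow_left₀ 2 zero_le_one ?_
  rw [ze_sq, one_pow, div_lt_one (by positivity)]; nlinarith

theorem om_ze {w : ℂ} (hw : 0 < w.re) : om (ze w) = w := by
  have := add_ne hw
  unfold om ze
  have e : 1 - (w - 1) / (w + 1) = 2 / (w + 1) := by field_simp; ring
  rw [e]; field_simp; ring

theorem sub_ne {z : ℂ} (hz : ‖z‖ < 1) : 1 - z ≠ 0 := fun h => by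
  rw [← sub_eq_zero.1 h] at hz; simp at hz

theorem ze_om {z : ℂ} (hz : ‖z‖ < 1) : ze (om z) = z := by
  have := sub_ne hz
  unfold om ze
  have e : (1 + z) / (1 - z) + 1 = 2 / (1 - z) := by field_simp; ring
  rw [e]; field_simp; ring

theorem om_re {z : ℂ} (hz : ‖z‖ < 1) : 0 < (om z).re := by
  have h1 : 0 < normSq (1 - z) := normSq_pos.2 (sub_ne hz)
  have h2 : z.re ^ 2 + z.im ^ 2 < 1 := by
    have := Complex.sq_norm z
    rw [normSq_apply] at this
    nlinarith [norm_nonneg z]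
  rw [om, div_re, ← add_div]
  refine div_pos ?_ h1
  simp; nlinarith

theorem mob_ze {a w : ℂ} (ha : 0 < a.re) (hw : 0 < w.re) : ‖mob (ze a) (ze w)‖ ^ 2 =
    ((a.re - w.re) ^ 2 + (a.im - w.im) ^ 2) / ((a.re + w.re) ^ 2 + (a.im - w.im) ^ 2) := by
  have h1 := add_ne ha
  have h2 := add_ne hw
  have h3 : (starRingEnd ℂ) a + 1 ≠ 0 := add_ne (by simpa using ha)
  have h4 : (starRingEnd ℂ) a + w ≠ 0 := fun h => by
    have := congrArg re h
    simp at this; linarith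
  have e : mob (ze a) (ze w) = (a - w) / ((starRingEnd ℂ) a + w) * (((starRingEnd ℂ) a + 1) / (a + 1)) := by
    unfold mob ze
    simp only [map_div₀, map_sub, map_add, map_one]
    generalize (starRingEnd ℂ) a = b at *
    have e : 1 - (b - 1) / (b + 1) * ((w - 1) / (w + 1)) = 2 * (b + w) / ((b + 1) * (w + 1)) := by
      field_simp; ring
    rw [e]; field_simp; ring
  have e2 : ‖(starRingEnd ℂ) a + 1‖ = ‖a + 1‖ := by
    rw [← Complex.norm_conj (a + 1)]; simp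
  rw [e, norm_mul, norm_div, norm_div, e2, div_self (norm_ne_zero_iff.2 h1), mul_one, div_pow,
    Complex.sq_norm, Complex.sq_norm]
  simp only [normSq_apply, sub_re, sub_im, add_re, add_im, conj_re, conj_im]
  ring

/-- lattice points -/
noncomputable def P (p : ℕ × ℤ) : ℂ :=
  ⟨(1 / 2 : ℝ) ^ p.1 * Real.log 2, (1 / 2 : ℝ) ^ p.1 * (Real.pi * p.2)⟩

theorem l2 : 0 < Real.log 2 ∧ Real.log 2 < 1 :=
  ⟨Real.log_pos one_lt_two, by linarith [Real.log_two_lt_d9]⟩

theorem P_re (p : ℕ × ℤ) : 0 < (P p).re ∧ (P p).re < 1 := by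
  have h1 : (1 / 2 : ℝ) ^ p.1 ≤ 1 := pow_le_one₀ (by norm_num) (by norm_num)
  have h2 : (0 : ℝ) < (1 / 2 : ℝ) ^ p.1 := by positivity
  have := l2
  simp only [P]; constructor <;> nlinarith

theorem sep {p q : ℕ × ℤ} (h : p ≠ q) : 1 / 3 ≤ ‖mob (ze (P p)) (ze (P q))‖ := by
  refine le_of_pow_le_pow_left₀ two_ne_zero (norm_nonneg _) ?_
  have a1 := (P_re p).1
  have a2 := (P_re q).1
  rw [mob_ze a1 a2, le_div_iff₀ (by positivity)]
  obtain ⟨i, m⟩ := p
  obtain ⟨j, n⟩ := q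
  have key : ∀ i j : ℕ, i < j → 2 * (1 / 2 : ℝ) ^ j ≤ (1 / 2 : ℝ) ^ i := fun i j hij => by
    have := pow_le_pow_of_le_one (by norm_num : (0 : ℝ) ≤ 1 / 2) (by norm_num) (Nat.succ_le_of_lt hij)
    rw [pow_succ] at this; linarith
  rcases lt_trichotomy i j with hij | hij | hij
  · have : 2 * (P (j, n)).re ≤ (P (i, m)).re := by
      have := key i j hij
      simp only [P]; nlinarith [l2.1]
    nlinarith [sq_nonneg ((P (i, m)).im - (P (j, n)).im)]
  · subst hij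
    have hmn : m - n ≠ 0 := fun h' => h (by rw [sub_eq_zero.1 h'])
    have b1 : (1 : ℝ) ≤ ((m : ℝ) - n) ^ 2 := by
      have : (1 : ℤ) ≤ (m - n) ^ 2 := (one_le_sq_iff_one_le_abs _).2 (Int.one_le_abs hmn)
      exact_mod_cast this
    have b2 : (0 : ℝ) < (1 / 2 : ℝ) ^ i := by positivity
    simp only [P]
    set x := (1 / 2 : ℝ) ^ i
    have b3 : Real.log 2 ^ 2 ≤ (Real.pi * ((m : ℝ) - n)) ^ 2 := by
      have := l2
      have := Real.pi_gt_three
      rw [mul_pow]; nlinarith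
    have := mul_le_mul_of_nonneg_left b3 (sq_nonneg x)
    nlinarith [sq_nonneg (x * Real.log 2)]
  · have : 2 * (P (i, m)).re ≤ (P (j, n)).re := by
      have := key j i hij
      simp only [P]; nlinarith [l2.1]
    nlinarith [sq_nonneg ((P (i, m)).im - (P (j, n)).im)]

theorem zP_inj : Function.Injective fun p => ze (P p) := fun p q h => by
  by_contra hne
  have := sep hne
  simp only at h
  rw [h] at this
  simp [mob] at this; linarith

theorem summ_bd (p : ℕ × ℤ) (h : p.1 = 0 ∨ 16 ^ p.1 ≤ |p.2|) : 1 - ‖ze (P p)‖ ≤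
    4 * ((1 / 2 : ℝ) ^ p.1 * (|(p.2 : ℝ)| ^ (-(3 / 2 : ℝ)) + if p.2 = 0 then 1 else 0)) := by
  obtain ⟨i, m⟩ := p
  have a1 := (P_re (i, m)).1
  have a2 := ze_lt a1
  have a3 : 1 - ‖ze (P (i, m))‖ ≤
      4 * (P (i, m)).re / (((P (i, m)).re + 1) ^ 2 + (P (i, m)).im ^ 2) := by
    have : 1 - ‖ze (P (i, m))‖ ^ 2 =
        4 * (P (i, m)).re / (((P (i, m)).re + 1) ^ 2 + (P (i, m)).im ^ 2) := by
      rw [ze_sq]; field_simp; ring
    nlinarith [norm_nonneg (ze (P (i, m)))]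
  refine a3.trans ?_
  rw [div_le_iff₀ (by positivity)]
  have b2 : (0 : ℝ) < (1 / 2 : ℝ) ^ i := by positivity
  have hl := l2
  simp only [P] at *
  by_cases hm : m = 0
  · subst hm
    simp only [Int.cast_zero, abs_zero, if_true]
    rw [Real.zero_rpow (by norm_num)]
    set x := (1 / 2 : ℝ) ^ i
    have : 1 ≤ (x * Real.log 2 + 1) ^ 2 := by nlinarith
    nlinarith
  · have c1 : (16 : ℤ) ^ i ≤ |m| := by
      rcases h with h | h
      · subst h; simpa using Int.one_le_abs hm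
      · exact h
    have c2 : (16 : ℝ) ^ i ≤ |(m : ℝ)| := by exact_mod_cast c1
    have c3 : ((1 / 2 : ℝ) ^ i) ^ 4 * 16 ^ i = 1 := by
      rw [← pow_mul, mul_comm i, pow_mul, ← mul_pow]; norm_num
    have c0 : 0 < |(m : ℝ)| := abs_pos.2 (by exact_mod_cast hm)
    have c4 : (|(m : ℝ)| ^ (-(3 / 2 : ℝ))) ^ 2 * |(m : ℝ)| ^ 3 = 1 := by
      rw [← Real.rpow_natCast, ← Real.rpow_natCast, ← Real.rpow_mul c0.le, ← Real.rpow_add c0]
      norm_num
    have c5 : 0 < |(m : ℝ)| ^ (-(3 / 2 : ℝ)) := Real.rpow_pos_of_pos c0 _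
    simp only [hm, if_false, add_zero]
    set x := (1 / 2 : ℝ) ^ i
    set u := |(m : ℝ)| ^ (-(3 / 2 : ℝ))
    have c6 : 1 ≤ x ^ 2 * (m : ℝ) ^ 2 * u := by
      refine le_of_pow_le_pow_left₀ two_ne_zero (by positivity) ?_
      have : (x ^ 2 * (m : ℝ) ^ 2 * u) ^ 2 = x ^ 4 * |(m : ℝ)| * (u ^ 2 * |(m : ℝ)| ^ 3) := by
        rw [← sq_abs (m : ℝ)]; ring
      rw [this, c4, mul_one, one_pow, ← c3]
      gcongr
    have c7 : 1 ≤ u * (x * (Real.pi * m)) ^ 2 := by
      have : u * (x * (Real.pi * m)) ^ 2 = Real.pi ^ 2 * (x ^ 2 * (m : ℝ) ^ 2 * u) := by ring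
      rw [this]; nlinarith [Real.pi_gt_three]
    have c8 : 0 ≤ u * (x * Real.log 2 + 1) ^ 2 := by positivity
    nlinarith

theorem summ : Summable fun p : {p : ℕ × ℤ // p.1 = 0 ∨ 16 ^ p.1 ≤ |p.2|} => 1 - ‖ze (P p.1)‖ := by
  have h1 : Summable fun m : ℤ => |(m : ℝ)| ^ (-(3 / 2 : ℝ)) + if m = 0 then 1 else 0 :=
    (Real.summable_abs_int_rpow (by norm_num)).add (hasSum_ite_eq 0 1).summable
  have h2 := (summable_geometric_two.mul_of_nonneg h1 (fun _ => by positivity)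
    (fun m => by positivity)).mul_left 4
  exact (h2.subtype _).of_nonneg_of_le (fun p => by linarith [ze_lt (P_re p.1).1])
    fun p => summ_bd p.1 p.2

theorem fac_le (i : ℕ) (k m : ℤ) (h1 : k * 2 ^ i ≤ m) (h2 : m < (k + 1) * 2 ^ i) :
    ‖mob (ze (P (i, m))) (ze (P (0, k)))‖ ^ 2 ≤ Real.exp (-(Real.log 2 ^ 2 / 5 * (1 / 2) ^ i)) := by
  have a1 := (P_re (i, m)).1
  have a2 := (P_re (0, k)).1
  rw [mob_ze a1 a2]
  refine le_trans ?_ (Real.add_one_le_exp _)
  rw [div_le_iff₀ (by positivity)]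
  have b1 : (1 / 2 : ℝ) ^ i ≤ 1 := pow_le_one₀ (by norm_num) (by norm_num)
  have b2 : (0 : ℝ) < (1 / 2 : ℝ) ^ i := by positivity
  have b3 : (1 / 2 : ℝ) ^ i * 2 ^ i = 1 := by rw [← mul_pow]; norm_num
  have h1' : (k : ℝ) * 2 ^ i ≤ m := by exact_mod_cast h1
  have h2' : (m : ℝ) ≤ (k + 1) * 2 ^ i := by exact_mod_cast h2.le
  have hl := l2
  simp only [P, pow_zero, one_mul]
  set x := (1 / 2 : ℝ) ^ i
  have c1 : 0 ≤ x * m - k := by
    have := mul_le_mul_of_nonneg_left h1' b2.le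
    rw [mul_left_comm, b3] at this; linarith
  have c2 : x * m - k ≤ 1 := by
    have := mul_le_mul_of_nonneg_left h2' b2.le
    rw [mul_left_comm, b3] at this; linarith
  have c3 : (x * (Real.pi * m) - Real.pi * k) ^ 2 ≤ 16 := by
    have : x * (Real.pi * m) - Real.pi * k = Real.pi * (x * m - k) := by ring
    rw [this]
    have : Real.pi * (x * m - k) ≤ 4 := by nlinarith [Real.pi_lt_four, Real.pi_pos]
    have : 0 ≤ Real.pi * (x * m - k) := by positivity
    nlinarith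
  have c4 : (x * Real.log 2 + Real.log 2) ^ 2 ≤ 4 := by
    have : x * Real.log 2 ≤ 1 := by nlinarith
    have : 0 < x * Real.log 2 := mul_pos b2 hl.1
    nlinarith
  have c5 : 0 ≤ Real.log 2 ^ 2 * x := by positivity
  nlinarith

/-- index set of the zeros -/
abbrev Z : Type := {p : ℕ × ℤ // 1 ≤ p.1 ∧ 16 ^ p.1 ≤ |p.2|}
/-- the zeros -/
noncomputable def az (p : Z) : ℂ := ze (P p.1)

theorem az0 (p : Z) : az p ≠ 0 := fun h => by
  have h1 := sub_eq_zero.1 ((div_eq_zero_iff.1 h).resolve_right (add_ne (P_re p.1).1))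
  have := (P_re p.1).2
  rw [h1] at this; simp at this

theorem az1 (p : Z) : ‖az p‖ < 1 := ze_lt (P_re p.1).1

theorem azs : Summable fun p => 1 - ‖az p‖ := by
  have h : Function.Injective fun p : Z =>
      (⟨p.1, Or.inr p.2.2⟩ : {p : ℕ × ℤ // p.1 = 0 ∨ 16 ^ p.1 ≤ |p.2|}) :=
    fun _ _ h => Subtype.ext (Subtype.mk.inj h)
  simpa only [Function.comp_def, az] using summ.comp_injective h

theorem az_ne (p : Z) (m : ℤ) : az p ≠ ze (P (0, m)) := fun h => by
  have := zP_inj h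
  have h2 := p.2.1
  rw [this] at h2; simp at h2

theorem B_small (L : ℕ) (k : ℤ) (hk : 8 ^ L + 1 ≤ |k|) :
    ‖bl az (ze (P (0, k)))‖ ^ 2 ≤ Real.exp (-(Real.log 2 ^ 2 / 5)) ^ L := by
  classical
  let t : ℕ → Finset ℤ := fun i => Finset.Ico (k * 2 ^ i) ((k + 1) * 2 ^ i)
  let r : Finset (ℕ × ℤ) := ((Finset.Icc 1 L).sigma t).map (Equiv.sigmaEquivProd _ _).toEmbedding
  have hr : ∀ p : ℕ × ℤ, p ∈ r ↔ p.1 ∈ Finset.Icc 1 L ∧ p.2 ∈ t p.1 := fun p => by
    simp [r, Finset.mem_map_equiv]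
  have hc : ∀ p ∈ r, 1 ≤ p.1 ∧ 16 ^ p.1 ≤ |p.2| := fun p hp => by
    obtain ⟨a1, a2⟩ := (hr p).1 hp
    obtain ⟨a3, a4⟩ := Finset.mem_Icc.1 a1
    obtain ⟨a5, a6⟩ := Finset.mem_Ico.1 a2
    refine ⟨a3, ?_⟩
    have b1 : (8 : ℤ) ^ p.1 ≤ 8 ^ L := pow_le_pow_right₀ (by norm_num) a4
    have b2 : (16 : ℤ) ^ p.1 = 8 ^ p.1 * 2 ^ p.1 := by rw [← mul_pow]; norm_num
    have b3 : (0 : ℤ) < 2 ^ p.1 := by positivity
    rw [b2]
    rcases le_abs.1 hk with h | h
    · exact le_abs.2 (Or.inl (by nlinarith))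
    · exact le_abs.2 (Or.inr (by nlinarith))
  have h1 := bl_le az0 az1 azs (ze_lt (P_re (0, k)).1) (r.subtype _)
  refine (pow_le_pow_left₀ (norm_nonneg _) h1 2).trans ?_
  simp only [az]
  rw [Finset.prod_subtype_of_mem (fun p => ‖mob (ze (P p)) (ze (P (0, k)))‖) hc, ← Finset.prod_pow,
    Finset.prod_finset_product r _ t hr]
  refine (Finset.prod_le_prod (fun _ _ => by positivity)
    (g := fun _ => Real.exp (-(Real.log 2 ^ 2 / 5))) fun i _ => ?_).trans (by simp)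
  refine (Finset.prod_le_prod (fun _ _ => by positivity) fun m hm =>
    fac_le i k m (Finset.mem_Ico.1 hm).1 (Finset.mem_Ico.1 hm).2).trans ?_
  have e : (t i).card = 2 ^ i := by
    simp only [t, Int.card_Ico]
    rw [show (k + 1) * 2 ^ i - k * 2 ^ i = ((2 ^ i : ℕ) : ℤ) by push_cast; ring, Int.toNat_natCast]
  rw [Finset.prod_const, e, ← Real.exp_nat_mul]
  have b3 : (1 / 2 : ℝ) ^ i * 2 ^ i = 1 := by rw [← mul_pow]; norm_num
  refine le_of_eq (congrArg _ ?_)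
  push_cast
  linear_combination (-(Real.log 2 ^ 2 / 5)) * b3

/-- the extremal function -/
noncomputable def F (z : ℂ) : ℂ := bl az z * exp (-om z)

theorem om_diff : DifferentiableOn ℂ om (ball 0 1) :=
  DifferentiableOn.div (by fun_prop) (by fun_prop) fun z hz => sub_ne (by simpa using hz)

theorem F_diff : DifferentiableOn ℂ F (ball 0 1) := (bl_diff az0 az1 azs).mul om_diff.neg.cexp

theorem B_le {z : ℂ} (hz : ‖z‖ < 1) : ‖bl az z‖ ≤ 1 := by simpa using bl_le az0 az1 azs hz ∅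

theorem F_leB {z : ℂ} (hz : ‖z‖ < 1) : ‖F z‖ ≤ ‖bl az z‖ := by
  rw [F, norm_mul, norm_exp]
  exact mul_le_of_le_one_right (norm_nonneg _) (Real.exp_le_one_iff.2 (by simpa using (om_re hz).le))

theorem F_az (p : Z) : F (az p) = 0 := by
  have := (F_leB (az1 p)).trans (bl_le az0 az1 azs (az1 p) {p})
  simpa [mob] using this

theorem F_tend : Tendsto (fun p : {p : ℕ × ℤ // p.1 = 0 ∨ 16 ^ p.1 ≤ |p.2|} => F (ze (P p.1)))
    cofinite (𝓝 0) := by
  refine NormedAddGroup.tendsto_nhds_zero.2 fun ε hε => ?_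
  have h1 : Real.exp (-(Real.log 2 ^ 2 / 5)) < 1 := Real.exp_lt_one_iff.2 (by nlinarith [l2.1])
  obtain ⟨L, hL⟩ := exists_pow_lt_of_lt_one (pow_pos hε 2) h1
  have h2 : ((({0} : Finset ℕ) ×ˢ Finset.Icc (-(8 : ℤ) ^ L) (8 ^ L) : Finset (ℕ × ℤ)) :
    Set (ℕ × ℤ)).Finite := Finset.finite_toSet _
  refine (h2.preimage Subtype.val_injective.injOn).subset ?_
  rintro ⟨⟨i, k⟩, hp⟩ h
  simp only [mem_compl_iff, mem_ofPred_eq, not_lt] at h
  by_cases hi : i = 0
  · subst hi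
    have : |k| ≤ 8 ^ L := by
      by_contra hk
      have a1 := B_small L k (by omega)
      have a2 := pow_le_pow_left₀ hε.le (h.trans (F_leB (ze_lt (P_re (0, k)).1))) 2
      linarith
    simpa [abs_le] using this
  · have := F_az ⟨(i, k), Nat.one_le_iff_ne_zero.2 hi, hp.resolve_left hi⟩
    simp only [az] at this
    rw [this] at h; simp at h; linarith

theorem F_uniq {h : ℂ → ℂ} (hd : DifferentiableOn ℂ h (ball 0 1))
    (hb : ∀ z ∈ ball (0 : ℂ) 1, ‖h z‖ ≤ 1)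
    (hv : ∀ p : ℕ × ℤ, p.1 = 0 ∨ 16 ^ p.1 ≤ |p.2| → h (ze (P p)) = F (ze (P p))) :
    EqOn h F (ball 0 1) := by
  obtain ⟨g, gd, gb, ge⟩ := bl_div az0 az1 azs (fun p q h => Subtype.ext (zP_inj h))
    (ze_lt (P_re (0, 0)).1) (fun p => az_ne p 0) hd hb
    (fun p => (hv p.1 (Or.inr p.2.2)).trans (F_az p))
  have hm : ∀ w : ℂ, 0 < w.re → ze w ∈ ball (0 : ℂ) 1 := fun w hw => by simpa using ze_lt hw
  have := per (g := fun w => g (ze w)) (gd.comp (DifferentiableOn.div (by fun_prop) (by fun_prop)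
    fun w hw => add_ne hw) hm) (fun w hw => gb _ (hm w hw)) fun m => by
      have e : (Real.log 2 + Real.pi * m * I : ℂ) = P (0, m) := by
        generalize hα : Real.log 2 = α
        apply Complex.ext <;> simp [P, hα]
      have a1 := (P_re (0, m)).1
      have a2 := hv (0, m) (Or.inl rfl)
      rw [ge _ (hm _ a1), F, om_ze a1] at a2
      rw [e]
      exact mul_left_cancel₀ (bl_ne az0 az1 azs (ze_lt a1) fun p => az_ne p m) a2
  intro z hz
  have hz' : ‖z‖ < 1 := by simpa using hz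
  have a1 := this _ (om_re hz')
  simp only [ze_om hz'] at a1
  rw [ge z hz, a1, F]

theorem F_not {κ : Type} {a : κ → ℂ} (h0 : ∀ k, a k ≠ 0) (h1 : ∀ k, ‖a k‖ < 1)
    (hs : Summable fun k => 1 - ‖a k‖) (n : ℕ) (c : ℂ) :
    ¬ ∀ z ∈ ball (0 : ℂ) 1, F z = c * (z ^ n * bl a z) := by
  intro h
  have h2 := bl_K h0 h1 hs n (fun z => ‖c‖ * Real.exp (om z).re)
    (continuousOn_const.mul (Real.continuous_exp.comp_continuousOn
      (continuous_re.comp_continuousOn om_diff.continuousOn))) (fun _ => by positivity)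
    (bl_diff az0 az1 azs) (fun z hz => B_le (by simpa using hz)) fun z hz => by
      have a1 := congrArg norm (h z hz)
      rw [F, norm_mul, norm_mul, norm_mul, norm_exp, norm_pow, neg_re] at a1
      have a2 : Real.exp (om z).re * Real.exp (-(om z).re) = 1 := by rw [← Real.exp_add]; simp
      apply le_of_eq
      linear_combination Real.exp (om z).re * a1 - ‖bl az z‖ * a2
  have h3 : ∀ x : ℝ, 1 ≤ x → 0 < ‖c‖ ∧ ‖c‖ ≤ Real.exp (-x) := fun x hx => by
    have a0 : 0 < (x : ℂ).re := by simp; linarith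
    have a1 := ze_lt a0
    have a2 : bl az (ze x) ≠ 0 := bl_ne az0 az1 azs a1 fun p hp => by
      have b1 := congrArg om hp
      rw [az, om_ze (P_re _).1, om_ze a0] at b1
      have := (P_re p.1).2
      rw [b1] at this; simp at this; linarith
    have a3 := congrArg norm (h (ze x) (by simpa using a1))
    rw [F, norm_mul, norm_mul, norm_mul, norm_exp, norm_pow, neg_re, om_ze a0, ofReal_re] at a3
    have a4 := h2 (ze x) (by simpa using a1)
    have a5 := norm_pos_iff.2 a2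
    have a6 := Real.exp_pos (-x)
    constructor
    · refine lt_of_le_of_ne (norm_nonneg _) fun hc => ?_
      rw [← hc, zero_mul] at a3
      exact (mul_pos a5 a6).ne' a3
    · refine le_of_mul_le_mul_right (a := ‖bl az (ze x)‖) ?_ a5
      rw [mul_comm (Real.exp _), a3]
      exact mul_le_mul_of_nonneg_left a4 (norm_nonneg _)
  refine absurd (ge_of_tendsto Real.tendsto_exp_neg_atTop_nhds_zero ?_) (not_le.2 (h3 1 le_rfl).1)
  filter_upwards [eventually_ge_atTop 1] with x hx using (h3 x hx).2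

end Pool.Agent.H3.Bla
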