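import Pool.Agent.H3.St3

set_option autoImplicit false

namespace Pool.Agent.H3.Cat

open Set MeasureTheory Pool.Agent.H3.St
open scoped RealInnerProductSpace

abbrev E3 := EuclideanSpace ℝ (Fin 3)

/-- Laminar families of subsets of `range M` containing the singletons. -/
structure LamN (M : ℕ) (F : Set (Finset ℕ)) : Prop where
  sub : ∀ V ∈ F, ∀ k ∈ V, k < M
  one : ∀ k < M, {k} ∈ F
  lam : ∀ V ∈ F, ∀ W ∈ F, V ⊆ W ∨ W ⊆ V ∨ Disjoint V W

theorem LamN.cross {M : ℕ} {F : Set (Finset ℕ)} (h : LamN M F) {V W : Finset ℕ} (hV : V ∈ F)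
    (hW : W ∈ F) {a b c : ℕ} (a1 : a ∈ V) (a2 : a ∈ W) (b1 : b ∈ V) (b2 : b ∉ W) (c1 : c ∉ V)
    (c2 : c ∈ W) : False := by
  rcases h.lam V hV W hW with h | h | h
  · exact b2 (h b1)
  · exact c1 (h c2)
  · exact Finset.disjoint_left.1 h a1 a2

theorem lamN (S : Set E3) (hS : IsPreconnected S) (h0 : (0 : E3) ∈ S) (M : ℕ) (p : ℕ → E3)
    (hp : ∀ k < M, p k ∈ S) (L : ℝ)
    (h : ∀ F, LamN M F → ∃ g : ℕ → E3, (∀ V ∈ F, ‖∑ k ∈ V, g k‖ ≤ 1) ∧
      L ≤ ∑ k ∈ Finset.range M, ⟪g k, p k⟫) :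
    ENNReal.ofReal L ≤ Measure.hausdorffMeasure 1 S := by
  refine steiner_lam (ι := Fin M) S hS 0 h0 (fun k => p k) (fun k => hp k k.2) L fun F hF => ?_
  have hL : LamN M {W | ∃ V ∈ F, W = V.map Fin.valEmbedding} := by
    refine ⟨?_, ?_, ?_⟩
    · rintro _ ⟨V, -, rfl⟩ k hk
      obtain ⟨i, -, rfl⟩ := Finset.mem_map.1 hk
      exact i.2
    · intro k hk
      exact ⟨{⟨k, hk⟩}, hF.1 _, by simp⟩
    · rintro _ ⟨V, hV, rfl⟩ _ ⟨W, hW, rfl⟩
      simpa only [Finset.map_subset_map, Finset.disjoint_map] using hF.2 V hV W hW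
  obtain ⟨g, h1, h2⟩ := h _ hL
  refine ⟨fun k x => ⟪g k, x⟫, fun V hV x z => ?_, ?_⟩
  · have := h1 _ ⟨V, hV, rfl⟩
    rw [Finset.sum_map] at this
    simp only [← inner_sub_right, ← sum_inner]
    refine (real_inner_le_norm _ _).trans ?_
    rw [dist_eq_norm]
    exact mul_le_of_le_one_left (norm_nonneg _) this
  · simp only [inner_zero_right, sub_zero]
    rwa [← Fin.sum_univ_eq_sum_range (fun k => ⟪g k, p k⟫)] at h2

noncomputable def u : ℕ → E3
  | 0 => !₂[0, (√2)⁻¹, (√2)⁻¹]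
  | 1 => !₂[(√2)⁻¹, 0, (√2)⁻¹]
  | 2 => !₂[(√2)⁻¹, (√2)⁻¹, 0]
  | n + 3 => u n

theorem w2 : (√2)⁻¹ * (√2)⁻¹ = (1 / 2 : ℝ) := by
  rw [← mul_inv, Real.mul_self_sqrt (by norm_num)]; norm_num

theorem gram : ∀ j, ⟪u j, u j⟫ = 1 ∧ ⟪u j, u (j + 1)⟫ = 1 / 2 ∧ ⟪u j, u (j + 2)⟫ = 1 / 2
  | 0 => by simp [u, PiLp.inner_apply, Fin.sum_univ_three, w2, -inner_self_eq_norm_sq_to_K]; norm_num
  | 1 => by simp [u, PiLp.inner_apply, Fin.sum_univ_three, w2, -inner_self_eq_norm_sq_to_K]; norm_num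
  | 2 => by simp [u, PiLp.inner_apply, Fin.sum_univ_three, w2, -inner_self_eq_norm_sq_to_K]; norm_num
  | n + 3 => gram n

noncomputable def cb (j : ℕ) (a b c : ℝ) : E3 := a • u j + b • u (j + 1) + c • u (j + 2)

theorem span : ∀ j (x : E3), ∃ a b c, x = cb j a b c
  | 0, x => ⟨√2 * (-x 0 + x 1 + x 2) / 2, √2 * (x 0 - x 1 + x 2) / 2, √2 * (x 0 + x 1 - x 2) / 2, by
      ext i; fin_cases i <;> simp [cb, u] <;> field_simp <;> ring⟩
  | 1, x => ⟨√2 * (x 0 - x 1 + x 2) / 2, √2 * (x 0 + x 1 - x 2) / 2, √2 * (-x 0 + x 1 + x 2) / 2, by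
      ext i; fin_cases i <;> simp [cb, u] <;> field_simp <;> ring⟩
  | 2, x => ⟨√2 * (x 0 + x 1 - x 2) / 2, √2 * (-x 0 + x 1 + x 2) / 2, √2 * (x 0 - x 1 + x 2) / 2, by
      ext i; fin_cases i <;> simp [cb, u] <;> field_simp <;> ring⟩
  | n + 3, x => span n x

theorem ip (j : ℕ) (a b c a' b' c' : ℝ) : ⟪cb j a b c, cb j a' b' c'⟫ =
    a * a' + b * b' + c * c' + (a * b' + b * a' + a * c' + c * a' + b * c' + c * b') / 2 := by
  obtain ⟨h0, h1, h2⟩ := gram j
  obtain ⟨k0, k1, -⟩ := gram (j + 1)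
  obtain ⟨l0, -, -⟩ := gram (j + 2)
  have h1' := (real_inner_comm _ _).trans h1
  have h2' := (real_inner_comm _ _).trans h2
  have k1' := (real_inner_comm _ _).trans k1
  rw [show j + 1 + 1 = j + 2 by ring] at k1 k1'
  simp only [cb, inner_add_left, inner_add_right, real_inner_smul_left, real_inner_smul_right, h0, h1,
    h2, k0, k1, l0, h1', h2', k1']
  ring

theorem cb_norm (j : ℕ) (a b c r : ℝ) (hr : 0 ≤ r)
    (h : a * a + b * b + c * c + (a * b + a * c + b * c) ≤ r ^ 2) : ‖cb j a b c‖ ≤ r := by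
  refine (abs_le_of_sq_le_sq' ?_ hr).2
  rw [← real_inner_self_eq_norm_sq, ip]
  linarith

noncomputable def v (j : ℕ) : E3 := u j - u (j + 1)
noncomputable def vv (j : ℕ) : E3 := u (j + 2) - u j

theorem vv_succ (j : ℕ) : vv (j + 1) = v j := rfl
theorem u_cb (j : ℕ) : u j = cb j 1 0 0 := by simp [cb]
theorem u1_cb (j : ℕ) : u (j + 1) = cb j 0 1 0 := by simp [cb]
theorem v_cb (j : ℕ) : v j = cb j 1 (-1) 0 := by unfold v cb; module
theorem vv_cb (j : ℕ) : vv j = cb j (-1) 0 1 := by unfold vv cb; module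
theorem u_norm (j : ℕ) : ‖u j‖ = 1 := by
  have := (gram j).1
  rw [real_inner_self_eq_norm_sq] at this
  exact (pow_eq_one_iff_of_nonneg (norm_nonneg _) two_ne_zero).1 this
theorem v_sq (j : ℕ) : ⟪v j, v j⟫ = 1 := by rw [v_cb, ip]; norm_num
theorem v_norm (j : ℕ) : ‖v j‖ = 1 := by
  have := v_sq j
  rw [real_inner_self_eq_norm_sq] at this
  exact (pow_eq_one_iff_of_nonneg (norm_nonneg _) two_ne_zero).1 this
theorem vv_norm (j : ℕ) : ‖vv j‖ = 1 := by
  have : ⟪vv j, vv j⟫ = 1 := by rw [vv_cb, ip]; norm_num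
  rw [real_inner_self_eq_norm_sq] at this
  exact (pow_eq_one_iff_of_nonneg (norm_nonneg _) two_ne_zero).1 this

/-- Edge lengths. -/
noncomputable def l (j : ℕ) : ℝ := (1 / 100) ^ j
theorem l_pos (j : ℕ) : 0 < l j := by unfold l; positivity
theorem l_succ (j : ℕ) : l (j + 1) = l j / 100 := by unfold l; rw [pow_succ]; ring
theorem l_anti {i j : ℕ} (h : i ≤ j) : l j ≤ l i :=
  pow_le_pow_of_le_one (by norm_num) (by norm_num) h
theorem l_le (j : ℕ) : l j ≤ 1 := pow_le_one₀ (by norm_num) (by norm_num)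
theorem l_tend : Filter.Tendsto l Filter.atTop (nhds 0) :=
  tendsto_pow_atTop_nhds_zero_of_lt_one (by norm_num) (by norm_num)

/-- Backbone vertices. -/
noncomputable def s : ℕ → E3
  | 0 => 0
  | j + 1 => s j + l j • u j

/-- Leaves. -/
noncomputable def a (j : ℕ) : E3 := s (j + 1) + l (j + 1) • v j

theorem s_dist (i k : ℕ) : ‖s (i + k) - s i‖ ≤ 100 / 99 * (l i - l (i + k)) := by
  induction k with
  | zero => simp
  | succ k ih =>
    have e : s (i + (k + 1)) - s i = (s (i + k) - s i) + l (i + k) • u (i + k) := by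
      show s (i + k) + l (i + k) • u (i + k) - s i = _
      abel
    rw [e]
    refine (norm_add_le _ _).trans ?_
    rw [norm_smul, u_norm, Real.norm_of_nonneg (l_pos _).le, ← add_assoc, l_succ]
    linarith

theorem s_cauchy : CauchySeq s := by
  refine cauchySeq_of_le_geometric (1 / 100) 1 (by norm_num) fun n => ?_
  show dist (s n) (s n + l n • u n) ≤ _
  rw [dist_self_add_right, norm_smul, u_norm, Real.norm_of_nonneg (l_pos _).le]
  simp [l]

/-- The limit point. -/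
noncomputable def om : E3 := Filter.atTop.limUnder s

theorem s_tend : Filter.Tendsto s Filter.atTop (nhds om) := s_cauchy.tendsto_limUnder

theorem om_dist (i : ℕ) : ‖om - s i‖ ≤ 100 / 99 * l i := by
  have h : Filter.Tendsto (fun k => ‖s (k + i) - s i‖) Filter.atTop (nhds ‖om - s i‖) :=
    (((Filter.tendsto_add_atTop_iff_nat i).2 s_tend).sub_const _).norm
  refine le_of_tendsto' h fun k => ?_
  rw [add_comm k i]
  linarith [s_dist i k, l_pos (i + k)]

theorem a_dist {i k : ℕ} (h : i ≤ k + 1) : ‖a k - s i‖ ≤ 100 / 99 * l i := by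
  obtain ⟨m, hm⟩ := Nat.exists_eq_add_of_le h
  have e : a k - s i = (s (i + m) - s i) + l (i + m) • v k := by
    unfold a; rw [hm]; abel
  rw [e]
  refine (norm_add_le _ _).trans ?_
  rw [norm_smul, v_norm, Real.norm_of_nonneg (l_pos _).le]
  linarith [s_dist i m, l_pos (i + m)]

/-- Total length. -/
noncomputable def LL : ℝ := 101 / 99

theorem tele (n : ℕ) : ∑ k ∈ Finset.range n, ⟪v k, a k⟫ + ⟪u n, s n⟫ = LL * (1 - l n) := by
  induction n with
  | zero => simp [s, l]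
  | succ n ih =>
    have e1 : ⟪v n, a n⟫ = ⟪v n, s (n + 1)⟫ + l (n + 1) := by
      unfold a; rw [inner_add_right, real_inner_smul_right, v_sq, mul_one]
    have e2 : ⟪v n, s (n + 1)⟫ + ⟪u (n + 1), s (n + 1)⟫ = ⟪u n, s n⟫ + l n := by
      rw [← inner_add_left, show v n + u (n + 1) = u n by unfold v; abel]
      show ⟪u n, s n + l n • u n⟫ = _
      rw [inner_add_right, real_inner_smul_right, (gram n).1, mul_one]
    rw [Finset.sum_range_succ, e1, l_succ]
    unfold LL at *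
    linarith

theorem vsum {k n : ℕ} (h : k ≤ n) : ∑ i ∈ Finset.Ico k n, v i + u n = u k := by
  induction n, h using Nat.le_induction with
  | base => simp
  | succ n h ih => rw [Finset.sum_Ico_succ_top h, ← ih]; unfold v; abel

end Pool.Agent.H3.Cat
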