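import Pool.Agent.H3.Cat1

set_option autoImplicit false

namespace Pool.Agent.H3.Cat

open Set MeasureTheory Pool.Agent.H3.St
open scoped RealInnerProductSpace

noncomputable def P (N : ℕ) (z : E3) (k : ℕ) : E3 := if k < N then a k else if k = N then om else z

noncomputable def b (n k : ℕ) : E3 := if k < n then v k else 0

noncomputable def ind (V : Finset ℕ) (t : ℕ) (w : E3) : E3 := if t ∈ V then w else 0

def Cross (N : ℕ) (V : Finset ℕ) (j : ℕ) : Prop :=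
  (∃ x, j ≤ x ∧ x ≤ N ∧ x ∈ V) ∧ (∃ y, j ≤ y ∧ y ≤ N ∧ y ∉ V) ∧ ∃ i < j, i ∈ V

theorem shape {N n : ℕ} (hn : n ≤ N) (V : Finset ℕ) (h : ∀ j, j ≤ n → ¬ Cross N V j) :
    ((∀ k < n, k ∉ V) ∧ ∑ k ∈ V, b n k = 0) ∨ ∃ k < n,
      ((∀ i ≤ N, i ∈ V ↔ i = k) ∧ ∑ i ∈ V, b n i = v k) ∨
      ((∀ i ≤ N, i ∈ V ↔ k ≤ i) ∧ ∑ i ∈ V, b n i + u n = u k) := by
  classical
  by_cases h0 : ∃ k, k < n ∧ k ∈ V
  swap
  · push Not at h0
    refine Or.inl ⟨h0, Finset.sum_eq_zero fun k hk => if_neg fun hn => h0 k hn hk⟩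
  right
  obtain ⟨k1, k2⟩ := Nat.find_spec h0
  have km := fun i => Nat.find_min h0 (m := i)
  set k := Nat.find h0
  refine ⟨k, k1, ?_⟩
  have hc := h (k + 1) k1
  by_cases hx : ∃ x, k + 1 ≤ x ∧ x ≤ N ∧ x ∈ V
  · right
    have hall : ∀ y, k + 1 ≤ y → y ≤ N → y ∈ V := fun y a b => by
      by_contra hy
      exact hc ⟨hx, ⟨y, a, b, hy⟩, k, Nat.lt_succ_self k, k2⟩
    have e : ∀ i ≤ N, i ∈ V ↔ k ≤ i := fun i hi => ⟨fun hV => by
      by_contra hlt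
      exact km i (by omega) ⟨by omega, hV⟩, fun hk => by
      rcases hk.eq_or_lt with rfl | hk
      · exact k2
      · exact hall i hk hi⟩
    refine ⟨e, ?_⟩
    rw [← vsum k1.le]
    unfold b
    rw [← Finset.sum_filter]
    congr 2
    ext i
    simp only [Finset.mem_filter, Finset.mem_Ico]
    exact ⟨fun h => ⟨(e i (by omega)).1 h.1, h.2⟩, fun h => ⟨(e i (by omega)).2 h.1, h.2⟩⟩
  · left
    have e : ∀ i ≤ N, i ∈ V ↔ i = k := fun i hi => ⟨fun hV => by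
      by_contra hne
      rcases lt_or_gt_of_ne hne with h | h
      · exact km i h ⟨by omega, hV⟩
      · exact hx ⟨i, h, hi, hV⟩, fun hk => hk ▸ k2⟩
    refine ⟨e, ?_⟩
    rw [Finset.sum_eq_single_of_mem k k2, b, if_pos k1]
    intro i hi hne
    exact if_neg fun hlt => hne ((e i (by omega)).1 hi)

theorem gen {N n : ℕ} (hn : n ≤ N) (z : E3) (F : Set (Finset ℕ)) (t1 t2 t3 : ℕ) (w1 w2 w3 : E3)
    (L : ℝ) (hV : ∀ V ∈ F, ‖∑ k ∈ V, b n k + ind V t1 w1 + ind V t2 w2 + ind V t3 w3‖ ≤ 1)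
    (hL : L ≤ LL * (1 - l n) - ⟪u n, s n⟫ + (if t1 < N + 2 then ⟪w1, P N z t1⟫ else 0) +
      (if t2 < N + 2 then ⟪w2, P N z t2⟫ else 0) + (if t3 < N + 2 then ⟪w3, P N z t3⟫ else 0)) :
    ∃ g : ℕ → E3, (∀ V ∈ F, ‖∑ k ∈ V, g k‖ ≤ 1) ∧
      L ≤ ∑ k ∈ Finset.range (N + 2), ⟪g k, P N z k⟫ := by
  refine ⟨fun k => b n k + (if k = t1 then w1 else 0) + (if k = t2 then w2 else 0) +
    (if k = t3 then w3 else 0), fun V h => ?_, ?_⟩
  · simpa only [Finset.sum_add_distrib, Finset.sum_ite_eq', ind] using hV V h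
  · have e : ∀ (t : ℕ) (w : E3) (k : ℕ), ⟪if k = t then w else 0, P N z k⟫ =
        if k = t then ⟪w, P N z k⟫ else 0 := fun t w k => by split_ifs <;> simp
    have e2 : ∑ k ∈ Finset.range (N + 2), ⟪b n k, P N z k⟫ = ∑ k ∈ Finset.range n, ⟪v k, a k⟫ := by
      symm
      refine (Finset.sum_congr rfl fun k hk => ?_).trans
        (Finset.sum_subset (Finset.range_mono (by omega : n ≤ N + 2)) fun k _ hk => ?_)
      · have := Finset.mem_range.1 hk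
        rw [b, P, if_pos this, if_pos (by omega)]
      · rw [b, if_neg (fun h => hk (Finset.mem_range.2 h)), inner_zero_left]
    simp only [inner_add_left, Finset.sum_add_distrib, e, Finset.sum_ite_eq', Finset.mem_range, e2]
    linarith [tele n]

theorem inner_ge {μ x : E3} {r : ℝ} (h : ‖μ‖ ≤ 1) (hx : ‖x‖ ≤ r) : -r ≤ ⟪μ, x⟫ := by
  have h1 := abs_real_inner_le_norm μ x
  have h2 : ‖μ‖ * ‖x‖ ≤ ‖x‖ := mul_le_of_le_one_left (norm_nonneg _) h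
  linarith [neg_abs_le ⟪μ, x⟫]

theorem wrong {N : ℕ} (z : E3) {F : Set (Finset ℕ)} (hF : LamN (N + 2) F)
    (h : ∃ j, j ≤ N ∧ ∃ W ∈ F, Cross N W j) :
    ∃ g : ℕ → E3, (∀ V ∈ F, ‖∑ k ∈ V, g k‖ ≤ 1) ∧
      LL + l N / 10 ≤ ∑ k ∈ Finset.range (N + 2), ⟪g k, P N z k⟫ := by
  classical
  obtain ⟨j1, W, hW, ⟨x, x1, x2, x3⟩, ⟨y, y1, y2, y3⟩, i, i1, i2⟩ := Nat.find_spec h
  have jm := fun m => Nat.find_min h (m := m)
  obtain ⟨n, hn⟩ : ∃ n, Nat.find h = n + 1 := ⟨Nat.find h - 1, by omega⟩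
  rw [hn] at j1 x1 y1 i1 jm
  have nc : ∀ V ∈ F, ∀ j, j ≤ n → ¬ Cross N V j := fun V hV j hj hc =>
    jm j (by omega) ⟨by omega, V, hV, hc⟩
  have nW : n ∈ W := by
    by_contra hc
    have : i ≠ n := fun h => hc (h ▸ i2)
    exact nc W hW n le_rfl ⟨⟨x, by omega, x2, x3⟩, ⟨n, le_rfl, by omega, hc⟩, i, by omega, i2⟩
  have hP : ∀ t, n + 1 ≤ t → t ≤ N → ‖P N z t - s (n + 2)‖ ≤ 100 / 99 * l (n + 2) := by
    intro t t1 t2
    unfold P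
    split_ifs with h1 h2
    · exact a_dist (by omega)
    · exact om_dist _
    · omega
  have n1 : ‖cb n (4 / 7) (-8 / 7) 0‖ ≤ 1 := cb_norm _ _ _ _ _ zero_le_one (by norm_num)
  have n2 : ‖cb n (3 / 7) (1 / 7) 0‖ ≤ 1 := cb_norm _ _ _ _ _ zero_le_one (by norm_num)
  have n3 : ‖cb n 0 1 0‖ ≤ 1 := cb_norm _ _ _ _ _ zero_le_one (by norm_num)
  have e3 : cb n (4 / 7) (-8 / 7) 0 + cb n (3 / 7) (1 / 7) 0 + cb n 0 1 0 = u n := by
    unfold cb; module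
  have e2 : cb n (4 / 7) (-8 / 7) 0 + cb n (3 / 7) (1 / 7) 0 = v n := by unfold cb v; module
  refine gen (n := n) (by omega) z F n x y (cb n (4 / 7) (-8 / 7) 0) (cb n (3 / 7) (1 / 7) 0)
    (cb n 0 1 0) _ (fun V hV => ?_) ?_
  · rcases shape (by omega : n ≤ N) V (nc V hV) with ⟨-, h2⟩ | ⟨k, k1, ⟨h1, h2⟩ | ⟨h1, h2⟩⟩
    · rw [h2]
      unfold ind
      by_cases m1 : n ∈ V <;> by_cases m2 : x ∈ V <;> by_cases m3 : y ∈ V <;>
        simp only [m1, m2, m3, if_true, if_false, zero_add, add_zero]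
      · rw [e3, u_norm]
      · rw [e2, v_norm]
      · exact (hF.cross hV hW m1 nW m3 y3 m2 x3).elim
      · exact n1
      · exact (hF.cross hV hW m2 x3 m3 y3 m1 nW).elim
      · exact n2
      · exact n3
      · simp
    · unfold ind
      rw [h2, if_neg (by rw [h1 n (by omega)]; omega), if_neg (by rw [h1 x x2]; omega),
        if_neg (by rw [h1 y y2]; omega)]
      simp [v_norm]
    · unfold ind
      rw [if_pos (by rw [h1 n (by omega)]; omega), if_pos (by rw [h1 x x2]; omega),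
        if_pos (by rw [h1 y y2]; omega), add_assoc, add_assoc, ← add_assoc (cb n _ _ _), e3, h2, u_norm]
  · rw [if_pos (by omega), if_pos (by omega), if_pos (by omega)]
    have a1 := inner_ge n2 (hP x x1 x2)
    have a2 := inner_ge n3 (hP y y1 y2)
    have b0 : P N z n = s n + cb n (l n + l (n + 1)) (-l (n + 1)) 0 := by
      rw [P, if_pos (by omega)]
      show s n + l n • u n + l (n + 1) • v n = _
      unfold v cb; module
    have b1 : s (n + 2) = s n + cb n (l n) (l (n + 1)) 0 := by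
      show s n + l n • u n + l (n + 1) • u (n + 1) = _
      unfold cb; module
    have b2 : ⟪u n, s n⟫ = ⟪cb n (4 / 7) (-8 / 7) 0, s n⟫ + ⟪cb n (3 / 7) (1 / 7) 0, s n⟫ +
        ⟪cb n 0 1 0, s n⟫ := by rw [← e3, inner_add_left, inner_add_left]
    rw [inner_sub_right, b1, inner_add_right, ip] at a1 a2
    rw [b0, inner_add_right, ip, b2]
    have c1 := l_succ n
    have c2 := l_succ (n + 1)
    have c3 : l N ≤ l (n + 1) := l_anti j1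
    have c4 := l_pos n
    unfold LL
    linarith

/-- Available perturbations for an extra terminal `z`, with gain `c`. -/
def Mv (z : E3) (c : ℝ) : Prop := ∀ j,
  (∃ μ : E3, ‖μ‖ ≤ 1 ∧ ((‖u j + -μ‖ ≤ 1 ∧ ‖v j + -μ‖ ≤ 1 ∧ c ≤ ⟪μ, z - a j⟫) ∨
    (‖u j + μ‖ ≤ 1 ∧ ‖vv j + -μ‖ ≤ 1 ∧ c ≤ ⟪μ, z - (s j + l j • vv j)⟫ ∧ c ≤ ⟪μ, z - s j⟫))) ∧
  (0 < j → ∃ μ : E3, ‖μ‖ ≤ 1 ∧ ((‖vv j + -μ‖ ≤ 1 ∧ c ≤ ⟪μ, z - (s j + l j • vv j)⟫) ∨
    (‖vv j + μ‖ ≤ 1 ∧ ‖v j + -μ‖ ≤ 1 ∧ ‖u j + -μ‖ ≤ 1 ∧ c ≤ ⟪μ, z - a j⟫)))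

theorem right {N : ℕ} (z : E3) (c : ℝ) (hz : Mv z c) {F : Set (Finset ℕ)} (hF : LamN (N + 2) F)
    (h : ∀ V ∈ F, ∀ j, j ≤ N → ¬ Cross N V j) :
    ∃ g : ℕ → E3, (∀ V ∈ F, ‖∑ k ∈ V, g k‖ ≤ 1) ∧
      LL + (c - 6 * l N) ≤ ∑ k ∈ Finset.range (N + 2), ⟪g k, P N z k⟫ := by
  classical
  have sh : ∀ V ∈ F, ((∀ i ≤ N, i ∉ V) ∧ ∑ k ∈ V, b N k + ind V N (u N) = 0) ∨
      (∃ k < N, (∀ i ≤ N, i ∈ V ↔ i = k) ∧ ∑ k ∈ V, b N k + ind V N (u N) = v k) ∨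
      ∃ k ≤ N, (∀ i ≤ N, i ∈ V ↔ k ≤ i) ∧ ∑ k ∈ V, b N k + ind V N (u N) = u k := by
    intro V hV
    unfold ind
    rcases shape le_rfl V (h V hV) with ⟨h1, h2⟩ | ⟨k, k1, ⟨h1, h2⟩ | ⟨h1, h2⟩⟩
    · by_cases m : N ∈ V
      · refine Or.inr (Or.inr ⟨N, le_rfl, fun i hi => ⟨fun hV => ?_, fun hi' => ?_⟩, ?_⟩)
        · by_contra hc; exact h1 i (by omega) hV
        · rwa [le_antisymm hi hi']
        · rw [h2, if_pos m, zero_add]
      · refine Or.inl ⟨fun i hi => ?_, by rw [h2, if_neg m, zero_add]⟩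
        rcases hi.eq_or_lt with rfl | hi
        · exact m
        · exact h1 i hi
    · exact Or.inr (Or.inl ⟨k, k1, h1, by
        rw [h2, if_neg (by rw [h1 N le_rfl]; omega), add_zero]⟩)
    · exact Or.inr (Or.inr ⟨k, k1.le, h1, by rw [if_pos (by rw [h1 N le_rfl]; omega), h2]⟩)
  have fin : ∀ (t : ℕ) (μ : E3), ‖μ‖ ≤ 1 →
      (∀ V ∈ F, N + 1 ∈ V → t ∉ V → (∀ k < N, (∀ i ≤ N, i ∈ V ↔ i = k) → ‖v k + μ‖ ≤ 1) ∧
        ∀ k ≤ N, (∀ i ≤ N, i ∈ V ↔ k ≤ i) → ‖u k + μ‖ ≤ 1) →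
      (∀ V ∈ F, N + 1 ∉ V → t ∈ V → (∀ k < N, (∀ i ≤ N, i ∈ V ↔ i = k) → ‖v k + -μ‖ ≤ 1) ∧
        ∀ k ≤ N, (∀ i ≤ N, i ∈ V ↔ k ≤ i) → ‖u k + -μ‖ ≤ 1) →
      c - 3 * l N ≤ ⟪μ, z⟫ - (if t < N + 2 then ⟪μ, P N z t⟫ else 0) →
      ∃ g : ℕ → E3, (∀ V ∈ F, ‖∑ k ∈ V, g k‖ ≤ 1) ∧
        LL + (c - 6 * l N) ≤ ∑ k ∈ Finset.range (N + 2), ⟪g k, P N z k⟫ := by
    intro t μ hμ h1 h2 h3
    refine gen le_rfl z F N (N + 1) t (u N) μ (-μ) _ (fun V hV => ?_) ?_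
    · by_cases m1 : N + 1 ∈ V <;> by_cases m2 : t ∈ V <;>
        rcases sh V hV with ⟨-, e⟩ | ⟨k, k1, k2, e⟩ | ⟨k, k1, k2, e⟩ <;> rw [e] <;>
        simp only [ind, m1, m2, if_true, if_false, add_zero, zero_add, add_neg_cancel_right,
          add_neg_cancel, norm_zero, zero_le_one, u_norm, v_norm, le_refl, norm_neg, hμ]
      · exact (h1 V hV m1 m2).1 k k1 k2
      · exact (h1 V hV m1 m2).2 k k1 k2
      · exact (h2 V hV m1 m2).1 k k1 k2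
      · exact (h2 V hV m1 m2).2 k k1 k2
    · rw [if_pos (by omega), if_pos (by omega)]
      have e1 : P N z N = om := by simp [P]
      have e2 : P N z (N + 1) = z := by simp [P]
      have a1 := inner_ge (u_norm N).le (om_dist N)
      rw [inner_sub_right] at a1
      have a2 := l_pos N
      rw [e1, e2]
      simp only [inner_neg_left]
      unfold LL
      split_ifs at h3 ⊢ <;> linarith
  have gain : ∀ j ≤ N, ∀ μ : E3, ‖μ‖ ≤ 1 → c ≤ ⟪μ, z - a j⟫ →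
      c - 3 * l N ≤ ⟪μ, z⟫ - (if j < N + 2 then ⟪μ, P N z j⟫ else 0) := by
    intro j hj μ hμ hc
    have a2 := l_pos N
    rw [if_pos (by omega), P]
    rw [inner_sub_right] at hc
    split_ifs with h1 h2
    · linarith
    · subst h2
      have a1 := inner_ge hμ (a_dist (i := j) (k := j) (by omega))
      have a3 := inner_ge (μ := -μ) (by rwa [norm_neg]) (om_dist j)
      rw [inner_sub_right] at a1 a3
      simp only [inner_neg_left] at a3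
      linarith
    · omega
  by_cases hA : ∃ k < N, ∃ W ∈ F, N + 1 ∈ W ∧ ∀ i ≤ N, i ∈ W ↔ i = k
  · obtain ⟨k, k1, W, hW, w1, w2⟩ := hA
    have wk : k ∈ W := (w2 k k1.le).2 rfl
    have wN : N ∉ W := by rw [w2 N le_rfl]; omega
    obtain ⟨μ, hμ, ⟨c1, c2⟩ | ⟨c1, c2, c3, c4⟩⟩ := (hz (k + 1)).2 (Nat.succ_pos k)
    · refine fin k μ hμ (fun V hV m1 m2 => ⟨fun i i1 i2 => ?_, fun i i1 i2 => ?_⟩)
        (fun V hV m1 m2 => ⟨fun i i1 i2 => ?_, fun i i1 i2 => ?_⟩) (gain k k1.le μ hμ c2)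
      · refine (hF.cross hV hW m1 w1 ((i2 i i1.le).2 rfl) ?_ m2 wk).elim
        rw [w2 i i1.le]; rintro rfl; exact m2 ((i2 i i1.le).2 rfl)
      · exact (hF.cross hV hW m1 w1 ((i2 N le_rfl).2 i1) wN m2 wk).elim
      · rw [← (i2 k k1.le).1 m2]; exact c1
      · exact (hF.cross hV hW m2 wk ((i2 N le_rfl).2 i1) wN m1 w1).elim
    · refine fin (k + 1) μ hμ (fun V hV m1 m2 => ⟨fun i i1 i2 => ?_, fun i i1 i2 => ?_⟩)
        (fun V hV m1 m2 => ⟨fun i i1 i2 => ?_, fun i i1 i2 => ?_⟩) (gain (k + 1) k1 μ hμ c4)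
      · by_cases e : i = k
        · rw [e]; exact c1
        · refine (hF.cross hV hW m1 w1 ((i2 i i1.le).2 rfl) (by rwa [w2 i i1.le]) ?_ wk).elim
          rw [i2 k k1.le]; exact Ne.symm e
      · refine (hF.cross hV hW m1 w1 ((i2 N le_rfl).2 i1) wN ?_ wk).elim
        rw [i2 (k + 1) k1] at m2
        rw [i2 k k1.le]; omega
      · rw [← (i2 (k + 1) k1).1 m2]; exact c2
      · by_cases e : i = k + 1
        · rw [e]; exact c3
        · refine (hF.cross hV hW ?_ wk ((i2 N le_rfl).2 i1) wN m1 w1).elim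
          rw [i2 (k + 1) k1] at m2
          rw [i2 k k1.le]; omega
  obtain ⟨j, j1, hmax, hmin⟩ : ∃ j ≤ N,
      (∀ V ∈ F, N + 1 ∈ V → ∀ k ≤ N, (∀ i ≤ N, i ∈ V ↔ k ≤ i) → k ≤ j) ∧
      ∀ V ∈ F, N + 1 ∉ V → ∀ k ≤ N, (∀ i ≤ N, i ∈ V ↔ k ≤ i) → j ≤ k := by
    let Q : ℕ → Prop := fun j => ∃ W ∈ F, N + 1 ∈ W ∧ ∀ i ≤ N, i ∈ W ↔ j ≤ i
    refine ⟨Nat.findGreatest Q N, Nat.findGreatest_le N, fun V hV m k k1 k2 =>
      Nat.le_findGreatest k1 ⟨V, hV, m, k2⟩, fun V hV m k k1 k2 => ?_⟩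
    by_contra hc
    obtain ⟨W, hW, w1, w2⟩ : Q (Nat.findGreatest Q N) :=
      Nat.findGreatest_of_ne_zero rfl (by omega)
    exact hF.cross hV hW ((k2 N le_rfl).2 k1) ((w2 N le_rfl).2 (Nat.findGreatest_le N))
      ((k2 k k1).2 le_rfl) (by rw [w2 k k1]; exact hc) m w1
  obtain ⟨μ, hμ, ⟨c1, c2, c3⟩ | ⟨c1, c2, c3, c4⟩⟩ := (hz j).1
  · refine fin j μ hμ (fun V hV m1 m2 => ⟨fun i i1 i2 => (hA ⟨i, i1, V, hV, m1, i2⟩).elim,
      fun i i1 i2 => (m2 ((i2 j j1).2 (hmax V hV m1 i i1 i2))).elim⟩)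
      (fun V hV m1 m2 => ⟨fun i i1 i2 => ?_, fun i i1 i2 => ?_⟩) (gain j j1 μ hμ c3)
    · rw [← (i2 j j1).1 m2]; exact c2
    · rw [le_antisymm ((i2 j j1).1 m2) (hmin V hV m1 i i1 i2)]; exact c1
  · rcases j with _ | k
    · refine fin (N + 2) μ hμ (fun V hV m1 m2 => ⟨fun i i1 i2 => (hA ⟨i, i1, V, hV, m1, i2⟩).elim,
        fun i i1 i2 => ?_⟩) (fun V hV m1 m2 => absurd (hF.sub V hV _ m2) (lt_irrefl _)) ?_
      · rw [Nat.le_zero.1 (hmax V hV m1 i i1 i2)]; exact c1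
      · rw [if_neg (lt_irrefl _)]
        have : s 0 = 0 := rfl
        rw [this, sub_zero] at c4
        linarith [l_pos N]
    · refine fin k μ hμ (fun V hV m1 m2 => ⟨fun i i1 i2 => (hA ⟨i, i1, V, hV, m1, i2⟩).elim,
        fun i i1 i2 => ?_⟩) (fun V hV m1 m2 => ⟨fun i i1 i2 => ?_, fun i i1 i2 => ?_⟩)
        (gain k (by omega) μ hμ c3)
      · have := hmax V hV m1 i i1 i2
        rw [i2 k (by omega)] at m2
        rw [show i = k + 1 by omega]; exact c1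
      · rw [← (i2 k (by omega)).1 m2]; exact c2
      · have := hmin V hV m1 i i1 i2
        rw [i2 k (by omega)] at m2
        omega

theorem core (T : Set E3) (hT : IsPreconnected T) (h0 : (0 : E3) ∈ T) (ha : ∀ k, a k ∈ T)
    (ho : om ∈ T) (z : E3) (hz : z ∈ T) (c : ℝ) (hc : Mv z c) (N : ℕ) :
    ENNReal.ofReal (LL + min (l N / 10) (c - 6 * l N)) ≤ Measure.hausdorffMeasure 1 T := by
  refine lamN T hT h0 (N + 2) (P N z) (fun k _ => ?_) _ fun F hF => ?_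
  · unfold P; split_ifs
    · exact ha k
    · exact ho
    · exact hz
  by_cases h : ∃ j, j ≤ N ∧ ∃ W ∈ F, Cross N W j
  · obtain ⟨g, h1, h2⟩ := wrong z hF h
    exact ⟨g, h1, le_trans (by linarith [min_le_left (l N / 10) (c - 6 * l N)]) h2⟩
  · obtain ⟨g, h1, h2⟩ := right z c hc hF fun V hV j hj hc => h ⟨j, hj, V, hV, hc⟩
    exact ⟨g, h1, le_trans (by linarith [min_le_right (l N / 10) (c - 6 * l N)]) h2⟩

end Pool.Agent.H3.Cat
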