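import Mathlib

open MeasureTheory

namespace Pool.Agent.H3.Cen

/-- Euclidean three-space. -/
abbrev E3 := EuclideanSpace ℝ (Fin 3)

/-- The centroid of a set in `ℝ³`: the mean of `x` over `K` for Lebesgue measure. -/
noncomputable def centroid (K : Set E3) : E3 := ⨍ x in K, x ∂volume

/-- `H` is a centroidal plane of `K`: an affine plane through the centroid `g` of `K` such that the
centroid of the section `K ∩ H`, for area measure (`μHE[2]`, two-dimensional Hausdorff measure
normalised to be Lebesgue area on planes), is again `g`. -/
def Centroidal (K : Set E3) (H : AffineSubspace ℝ E3) : Prop :=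
  Module.finrank ℝ H.direction = 2 ∧ centroid K ∈ H ∧
    ⨍ x in K ∩ (H : Set E3), x ∂(μHE[2]) = centroid K

end Pool.Agent.H3.Cen
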