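import Mathlib
import Pool.Agent.H3.CenDefs

open MeasureTheory Set

namespace Pool.Agent.H3.Cen

abbrev E2 := EuclideanSpace ℝ (Fin 2)

def dot (x y : E3) : ℝ := x 0 * y 0 + x 1 * y 1 + x 2 * y 2

def det3 (a b c : E3) : ℝ :=
  a 0 * (b 1 * c 2 - b 2 * c 1) - a 1 * (b 0 * c 2 - b 2 * c 0) + a 2 * (b 0 * c 1 - b 1 * c 0)

def det2 (p q : E2) : ℝ := p 0 * q 1 - p 1 * q 0

def Sx (a b c : E3) : Set E3 :=
  {x | ∃ α β γ : ℝ, 0 ≤ α ∧ 0 ≤ β ∧ 0 ≤ γ ∧ α + β + γ ≤ 1 ∧ x = α • a + β • b + γ • c}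

def Tri (p q : E2) : Set E2 := {x | ∃ s t : ℝ, 0 ≤ s ∧ 0 ≤ t ∧ s + t ≤ 1 ∧ x = s • p + t • q}

theorem inner_eq_dot (x y : E3) : inner ℝ x y = dot x y := by
  simp [PiLp.inner_apply, Fin.sum_univ_three, dot]; ring

theorem Sx_rot (a b c : E3) : Sx b c a = Sx a b c := by
  ext x
  constructor
  · rintro ⟨α, β, γ, h1, h2, h3, h4, rfl⟩
    exact ⟨γ, α, β, h3, h1, h2, by linarith, by abel⟩
  · rintro ⟨α, β, γ, h1, h2, h3, h4, rfl⟩
    exact ⟨β, γ, α, h2, h3, h1, by linarith, by abel⟩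

theorem Sx_swap (a b c : E3) : Sx b a c = Sx a b c := by
  ext x
  constructor
  · rintro ⟨α, β, γ, h1, h2, h3, h4, rfl⟩
    exact ⟨β, α, γ, h2, h1, h3, by linarith, by abel⟩
  · rintro ⟨α, β, γ, h1, h2, h3, h4, rfl⟩
    exact ⟨β, α, γ, h2, h1, h3, by linarith, by abel⟩

theorem int_image {W : Type*} [NormedAddCommGroup W] [NormedSpace ℝ W] [FiniteDimensional ℝ W]
    [MeasurableSpace W] [BorelSpace W] (μ : Measure W) [μ.IsAddHaarMeasure] (A : W →L[ℝ] W)
    {s : Set W} (hs : IsCompact s) :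
    ∫ x in A '' s, x ∂μ = |A.det| • A (∫ x in s, x ∂μ) := by
  haveI : CompleteSpace W := FiniteDimensional.complete ℝ W
  by_cases h : A.det = 0
  · have : μ (A '' s) = 0 := by
      have := Measure.addHaar_image_continuousLinearMap μ A s
      rw [this]
      have h' : LinearMap.det (A : W →ₗ[ℝ] W) = 0 := h
      simp [h']
    rw [setIntegral_measure_zero _ this, h]; simp
  · have hinj : Function.Injective A :=
      (LinearMap.equivOfDetNeZero (A : W →ₗ[ℝ] W) h).injective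
    rw [integral_image_eq_integral_abs_det_fderiv_smul μ hs.measurableSet
      (fun x _ => A.hasFDerivAt.hasFDerivWithinAt) hinj.injOn (fun x => x), integral_smul,
      A.integral_comp_comm]
    exact continuous_id.continuousOn.integrableOn_compact hs

def T3 : Set E3 := {p | 0 ≤ p 0 ∧ 0 ≤ p 1 ∧ 0 ≤ p 2 ∧ p 0 + p 1 + p 2 ≤ 1}
def T2 : Set E2 := {p | 0 ≤ p 0 ∧ 0 ≤ p 1 ∧ p 0 + p 1 ≤ 1}

theorem T3_compact : IsCompact T3 := by
  apply Metric.isCompact_of_isClosed_isBounded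
  · unfold T3
    refine IsClosed.and (isClosed_le ?_ ?_) (IsClosed.and (isClosed_le ?_ ?_)
      (IsClosed.and (isClosed_le ?_ ?_) (isClosed_le ?_ ?_))) <;> fun_prop
  · refine (Metric.isBounded_closedBall (x := (0 : E3)) (r := 2)).subset ?_
    rintro p ⟨h0, h1, h2, h3⟩
    rw [mem_closedBall_zero_iff, EuclideanSpace.norm_eq, Fin.sum_univ_three]
    apply Real.sqrt_le_iff.mpr
    simp only [Real.norm_eq_abs, sq_abs]
    constructor
    · norm_num
    · nlinarith

theorem T2_compact : IsCompact T2 := by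
  apply Metric.isCompact_of_isClosed_isBounded
  · unfold T2
    refine IsClosed.and (isClosed_le ?_ ?_) (IsClosed.and (isClosed_le ?_ ?_)
      (isClosed_le ?_ ?_)) <;> fun_prop
  · refine (Metric.isBounded_closedBall (x := (0 : E2)) (r := 2)).subset ?_
    rintro p ⟨h0, h1, h3⟩
    rw [mem_closedBall_zero_iff, EuclideanSpace.norm_eq, Fin.sum_univ_two]
    apply Real.sqrt_le_iff.mpr
    simp only [Real.norm_eq_abs, sq_abs]
    constructor
    · norm_num
    · nlinarith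

noncomputable def L3 (a b c : E3) : E3 →L[ℝ] E3 :=
  LinearMap.toContinuousLinearMap
    (Matrix.toLpLin 2 2 !![a 0, b 0, c 0; a 1, b 1, c 1; a 2, b 2, c 2])

noncomputable def L2 (p q : E2) : E2 →L[ℝ] E2 :=
  LinearMap.toContinuousLinearMap (Matrix.toLpLin 2 2 !![p 0, q 0; p 1, q 1])

theorem L3_apply (a b c p : E3) : L3 a b c p = p 0 • a + p 1 • b + p 2 • c := by
  ext i
  fin_cases i <;>
    simp [L3, Matrix.toLpLin_apply, Matrix.mulVec, dotProduct, Fin.sum_univ_three] <;> ring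

theorem L2_apply (p q x : E2) : L2 p q x = x 0 • p + x 1 • q := by
  ext i
  fin_cases i <;>
    simp [L2, Matrix.toLpLin_apply, Matrix.mulVec, dotProduct, Fin.sum_univ_two] <;> ring

theorem L3_det (a b c : E3) : (L3 a b c).det = det3 a b c := by
  have : (L3 a b c).det = LinearMap.det (Matrix.toLpLin 2 2
    !![a 0, b 0, c 0; a 1, b 1, c 1; a 2, b 2, c 2]) := rfl
  rw [this, LinearMap.det_toLpLin, Matrix.det_fin_three]
  simp [det3]; ring

theorem L2_det (p q : E2) : (L2 p q).det = det2 p q := by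
  have : (L2 p q).det = LinearMap.det (Matrix.toLpLin 2 2 !![p 0, q 0; p 1, q 1]) := rfl
  rw [this, LinearMap.det_toLpLin, Matrix.det_fin_two]
  simp [det2]; ring

theorem Sx_eq (a b c : E3) : Sx a b c = L3 a b c '' T3 := by
  ext x
  constructor
  · rintro ⟨α, β, γ, h1, h2, h3, h4, rfl⟩
    exact ⟨!₂[α, β, γ], by simpa [T3] using ⟨h1, h2, h3, h4⟩, by simp [L3_apply]⟩
  · rintro ⟨p, ⟨h1, h2, h3, h4⟩, rfl⟩
    exact ⟨p 0, p 1, p 2, h1, h2, h3, h4, L3_apply _ _ _ _⟩

theorem Tri_eq (p q : E2) : Tri p q = L2 p q '' T2 := by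
  ext x
  constructor
  · rintro ⟨α, β, h1, h2, h4, rfl⟩
    exact ⟨!₂[α, β], by simpa [T2] using ⟨h1, h2, h4⟩, by simp [L2_apply]⟩
  · rintro ⟨p, ⟨h1, h2, h4⟩, rfl⟩
    exact ⟨p 0, p 1, h1, h2, h4, L2_apply _ _ _⟩

theorem Sx_compact (a b c : E3) : IsCompact (Sx a b c) := by
  rw [Sx_eq]; exact T3_compact.image (L3 a b c).continuous

theorem Tri_compact (p q : E2) : IsCompact (Tri p q) := by
  rw [Tri_eq]; exact T2_compact.image (L2 p q).continuous

noncomputable def m3 : E3 := ∫ x in T3, x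
noncomputable def m2 : E2 := ∫ x in T2, x

theorem int_Sx0 (a b c : E3) :
    ∫ x in Sx a b c, x = |det3 a b c| • (m3 0 • a + m3 1 • b + m3 2 • c) := by
  rw [Sx_eq, int_image _ _ T3_compact, L3_det, L3_apply]; rfl

theorem int_Tri0 (p q : E2) : ∫ x in Tri p q, x = |det2 p q| • (m2 0 • p + m2 1 • q) := by
  rw [Tri_eq, int_image _ _ T2_compact, L2_det, L2_apply]; rfl

theorem m3_eq : m3 1 = m3 0 ∧ m3 2 = m3 0 := by
  have h1 := int_Sx0 !₂[1, 0, 0] !₂[0, 1, 0] !₂[0, 0, 1]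
  have h2 := int_Sx0 !₂[0, 1, 0] !₂[0, 0, 1] !₂[1, 0, 0]
  rw [Sx_rot, h1] at h2
  have e0 := congrArg (fun v : E3 => v 0) h2
  have e1 := congrArg (fun v : E3 => v 1) h2
  simp [det3] at e0 e1
  exact ⟨e1, e0.symm⟩

theorem int_Sx (a b c : E3) : ∫ x in Sx a b c, x = (|det3 a b c| * m3 0) • (a + b + c) := by
  rw [int_Sx0, m3_eq.1, m3_eq.2, mul_smul]; simp only [smul_add]

theorem m2_eq : m2 1 = m2 0 := by
  have h1 := int_Tri0 !₂[1, 0] !₂[0, 1]
  have h2 := int_Tri0 !₂[0, 1] !₂[1, 0]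
  have : Tri !₂[0, 1] !₂[1, 0] = Tri !₂[1, 0] !₂[0, 1] := by
    ext x
    constructor
    · rintro ⟨s, t, h1, h2, h3, rfl⟩
      exact ⟨t, s, h2, h1, by linarith, by abel⟩
    · rintro ⟨s, t, h1, h2, h3, rfl⟩
      exact ⟨t, s, h2, h1, by linarith, by abel⟩
  rw [this, h1] at h2
  have e0 := congrArg (fun v : E2 => v 0) h2
  simp [det2] at e0
  exact e0.symm

theorem m2_pos : 0 < m2 0 := by
  have hi : IntegrableOn (fun x : E2 => x) T2 volume :=
    continuous_id.continuousOn.integrableOn_compact T2_compact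
  have h1 : m2 0 = ∫ x in T2, x 0 := by
    have := (EuclideanSpace.proj (𝕜 := ℝ) (0 : Fin 2)).integral_comp_comm hi
    simpa [m2] using this.symm
  rw [h1]
  have hc : Continuous fun x : E2 => x 0 := by fun_prop
  rw [setIntegral_pos_iff_support_of_nonneg_ae]
  · have ho : IsOpen {x : E2 | 0 < x 0 ∧ 0 < x 1 ∧ x 0 + x 1 < 1} := by
      refine IsOpen.and (isOpen_lt ?_ ?_) (IsOpen.and (isOpen_lt ?_ ?_) (isOpen_lt ?_ ?_)) <;>
        fun_prop
    refine lt_of_lt_of_le (ho.measure_pos volume ⟨!₂[1/3, 1/3], by simp; norm_num⟩)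
      (measure_mono ?_)
    rintro x ⟨h0, h1, h2⟩
    exact ⟨h0.ne', h0.le, h1.le, h2.le⟩
  · filter_upwards [ae_restrict_mem T2_compact.measurableSet] with x hx using hx.1
  · exact hc.continuousOn.integrableOn_compact T2_compact

theorem int_Tri (p q : E2) : ∫ x in Tri p q, x = (|det2 p q| * m2 0) • (p + q) := by
  rw [int_Tri0, m2_eq, mul_smul, smul_add, smul_add, smul_add]

/-- a plane through the origin is null in space -/
theorem null3 (a b : E3) (c : E3) (h : det3 a b c ≠ 0) : volume {x : E3 | det3 a b x = 0} = 0 := by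
  let S : Submodule ℝ E3 :=
    { carrier := {x : E3 | det3 a b x = 0}
      add_mem' := by
        intro x y hx hy
        simp only [mem_setOf_eq, det3, PiLp.add_apply] at *
        linarith
      zero_mem' := by simp [det3]
      smul_mem' := by
        intro t x hx
        simp only [mem_setOf_eq, det3, PiLp.smul_apply, smul_eq_mul] at *
        linear_combination t * hx }
  refine Measure.addHaar_submodule volume S ?_
  intro hS
  have : c ∈ S := by rw [hS]; trivial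
  exact h this

end Pool.Agent.H3.Cen
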