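import Mathlib
import Pool.Agent.H3.Cen1

open MeasureTheory Set

namespace Pool.Agent.H3.Cen

theorem dot_self_pos {u : E3} (hu : u ≠ 0) : 0 < dot u u := by
  rw [← inner_eq_dot]; exact real_inner_self_pos.mpr hu

theorem exists_phi {u : E3} (hu : u ≠ 0) :
    ∃ φ : E2 →ₗᵢ[ℝ] E3, range φ = {x | dot u x = 0} := by
  haveI : Fact (Module.finrank ℝ E3 = 2 + 1) := ⟨by simp⟩
  let B := OrthonormalBasis.fromOrthogonalSpanSingleton (𝕜 := ℝ) 2 hu
  refine ⟨(ℝ ∙ u)ᗮ.subtypeₗᵢ.comp B.repr.symm.toLinearIsometry, ?_⟩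
  ext x
  constructor
  · rintro ⟨y, rfl⟩
    have := (B.repr.symm y).2
    rw [Submodule.mem_orthogonal_singleton_iff_inner_right, inner_eq_dot] at this
    exact this
  · intro hx
    have hx' : x ∈ (ℝ ∙ u)ᗮ := by
      rw [Submodule.mem_orthogonal_singleton_iff_inner_right, inner_eq_dot]; exact hx
    exact ⟨B.repr ⟨x, hx'⟩, by simp⟩

theorem phi_facts {u : E3} (hu : u ≠ 0) (φ : E2 →ₗᵢ[ℝ] E3) (hφ : range φ = {x | dot u x = 0}) :
    ∃ δ : ℝ, δ ≠ 0 ∧ ∀ p q : E2, det3 (φ p) (φ q) u = det2 p q * δ := by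
  set e := φ !₂[1, 0] with he
  set f := φ !₂[0, 1] with hf
  have h1 : dot e e = 1 := by
    rw [← inner_eq_dot, he, φ.inner_map_map, PiLp.inner_apply]; simp [Fin.sum_univ_two]
  have h2 : dot f f = 1 := by
    rw [← inner_eq_dot, hf, φ.inner_map_map, PiLp.inner_apply]; simp [Fin.sum_univ_two]
  have h3 : dot e f = 0 := by
    rw [← inner_eq_dot, he, hf, φ.inner_map_map]; simp [PiLp.inner_apply, Fin.sum_univ_two]
  have h4 : dot u e = 0 := by
    have : e ∈ range φ := ⟨_, rfl⟩
    rwa [hφ] at this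
  have h5 : dot u f = 0 := by
    have : f ∈ range φ := ⟨_, rfl⟩
    rwa [hφ] at this
  have hg : det3 e f u ^ 2 = dot e e * (dot f f * dot u u - dot u f * dot u f)
      - dot e f * (dot e f * dot u u - dot u f * dot u e)
      + dot u e * (dot e f * dot u f - dot f f * dot u e) := by
    simp only [det3, dot]; ring
  rw [h1, h2, h3, h4, h5] at hg
  refine ⟨det3 e f u, ?_, ?_⟩
  · intro h0
    have := dot_self_pos hu
    rw [h0] at hg; nlinarith
  · intro p q
    have hp : ∀ p : E2, φ p = p 0 • e + p 1 • f := by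
      intro p
      rw [he, hf, ← φ.map_smul, ← φ.map_smul, ← φ.map_add]
      congr 1
      ext i; fin_cases i <;> simp
    rw [hp p, hp q]
    simp only [det3, det2, PiLp.add_apply, PiLp.smul_apply, smul_eq_mul]; ring

noncomputable def cp (u a b : E3) : E3 := (dot u a - dot u b)⁻¹ • (dot u a • b - dot u b • a)

noncomputable def term (u a b c : E3) : E3 :=
  (det3 a b c * |dot u a| / ((dot u a - dot u b) * (dot u a - dot u c))) • (cp u a b + cp u a c)

theorem dot_neg (u x : E3) : dot (-u) x = - dot u x := by simp [dot]; ring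

theorem cp_neg (u a b : E3) : cp (-u) a b = cp u a b := by
  unfold cp
  rw [dot_neg, dot_neg]
  have : (-dot u a - -dot u b)⁻¹ = -(dot u a - dot u b)⁻¹ := by
    rw [← inv_neg]; congr 1; ring
  rw [this]
  ext i; simp; ring

theorem dot_comb (u a b c : E3) (α β γ : ℝ) :
    dot u (α • a + β • b + γ • c) = α * dot u a + β * dot u b + γ * dot u c := by
  simp [dot]; ring

theorem dot_cp (u a b : E3) : dot u (cp u a b) = 0 := by
  simp only [cp, dot, PiLp.smul_apply, PiLp.sub_apply, smul_eq_mul]; ring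

theorem sec_eq {u a b c : E3} (ha : 0 ≤ dot u a) (hb : dot u b ≤ 0) (hc : dot u c ≤ 0)
    (hab : dot u a ≠ dot u b) (hac : dot u a ≠ dot u c) (x : E3) :
    (x ∈ Sx a b c ∧ dot u x = 0) ↔
      ∃ s t : ℝ, 0 ≤ s ∧ 0 ≤ t ∧ s + t ≤ 1 ∧ x = s • cp u a b + t • cp u a c := by
  have hab' : 0 < dot u a - dot u b := by
    rcases lt_or_eq_of_le (show dot u b ≤ dot u a by linarith) with h | h
    · linarith
    · exact absurd h.symm hab
  have hac' : 0 < dot u a - dot u c := by
    rcases lt_or_eq_of_le (show dot u c ≤ dot u a by linarith) with h | h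
    · linarith
    · exact absurd h.symm hac
  constructor
  · rintro ⟨⟨α, β, γ, h1, h2, h3, h4, rfl⟩, h0⟩
    rw [dot_comb] at h0
    rcases eq_or_lt_of_le ha with h | h
    · have hb' : dot u b < 0 := by linarith
      have hc' : dot u c < 0 := by linarith
      rw [← h] at h0
      have hβ : β = 0 := by nlinarith
      have hγ : γ = 0 := by nlinarith
      refine ⟨α, 0, h1, le_rfl, by linarith, ?_⟩
      subst hβ hγ
      have : cp u a b = a := by
        unfold cp
        rw [← h]
        ext i; simp; field_simp [hb'.ne]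
      rw [this]; simp
    · refine ⟨β * (dot u a - dot u b) / dot u a, γ * (dot u a - dot u c) / dot u a,
        by positivity, by positivity, ?_, ?_⟩
      · rw [← add_div, div_le_one h]; nlinarith
      · have hα : α = -(β * dot u b + γ * dot u c) / dot u a := by
          field_simp; linarith
        rw [hα]
        ext i
        simp only [cp, PiLp.add_apply, PiLp.smul_apply, PiLp.sub_apply, smul_eq_mul]
        field_simp; ring
  · rintro ⟨s, t, h1, h2, h3, rfl⟩
    refine ⟨⟨s * (-dot u b) / (dot u a - dot u b) + t * (-dot u c) / (dot u a - dot u c),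
      s * dot u a / (dot u a - dot u b), t * dot u a / (dot u a - dot u c), ?_, by positivity,
      by positivity, ?_, ?_⟩, ?_⟩
    · have : 0 ≤ -dot u b := by linarith
      have : 0 ≤ -dot u c := by linarith
      positivity
    · have : s * (-dot u b) / (dot u a - dot u b) + t * (-dot u c) / (dot u a - dot u c) +
        s * dot u a / (dot u a - dot u b) + t * dot u a / (dot u a - dot u c) = s + t := by
        field_simp; ring
      linarith
    · ext i
      simp only [cp, PiLp.add_apply, PiLp.smul_apply, PiLp.sub_apply, smul_eq_mul]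
      field_simp; ring
    · have := dot_comb u (cp u a b) (cp u a c) 0 s t 0
      simp only [smul_zero, add_zero, zero_mul, dot_cp, mul_zero] at this
      exact this

theorem sec_int {u a b c : E3} (φ : E2 →ₗᵢ[ℝ] E3) (hφ : range φ = {x | dot u x = 0}) {δ : ℝ}
    (hδ : δ ≠ 0) (hδ' : ∀ p q : E2, det3 (φ p) (φ q) u = det2 p q * δ) (hD : 0 < det3 a b c)
    (hs : (0 ≤ dot u a ∧ dot u b ≤ 0 ∧ dot u c ≤ 0) ∨ (dot u a ≤ 0 ∧ 0 ≤ dot u b ∧ 0 ≤ dot u c))
    (hab : dot u a ≠ dot u b) (hac : dot u a ≠ dot u c) :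
    φ (∫ y in φ ⁻¹' Sx a b c, y) = (|dot u u / δ| * m2 0) • term u a b c := by
  obtain ⟨p, hp⟩ : cp u a b ∈ range φ := by rw [hφ]; exact dot_cp _ _ _
  obtain ⟨q, hq⟩ : cp u a c ∈ range φ := by rw [hφ]; exact dot_cp _ _ _
  have key : ∀ x, (x ∈ Sx a b c ∧ dot u x = 0) ↔
      ∃ s t : ℝ, 0 ≤ s ∧ 0 ≤ t ∧ s + t ≤ 1 ∧ x = s • cp u a b + t • cp u a c := by
    intro x
    rcases hs with ⟨h1, h2, h3⟩ | ⟨h1, h2, h3⟩
    · exact sec_eq h1 h2 h3 hab hac x
    · have := sec_eq (u := -u) (a := a) (b := b) (c := c) (by rw [dot_neg]; linarith)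
        (by rw [dot_neg]; linarith) (by rw [dot_neg]; linarith)
        (by rw [dot_neg, dot_neg]; intro h; exact hab (by linarith))
        (by rw [dot_neg, dot_neg]; intro h; exact hac (by linarith)) x
      rw [cp_neg, cp_neg, dot_neg, neg_eq_zero] at this
      exact this
  have hT : φ ⁻¹' Sx a b c = Tri p q := by
    ext y
    have hy : dot u (φ y) = 0 := by
      have : φ y ∈ range φ := ⟨_, rfl⟩
      rwa [hφ] at this
    constructor
    · intro h
      obtain ⟨s, t, h1, h2, h3, h4⟩ := (key _).mp ⟨h, hy⟩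
      refine ⟨s, t, h1, h2, h3, φ.injective ?_⟩
      rw [h4, φ.map_add, φ.map_smul, φ.map_smul, hp, hq]
    · rintro ⟨s, t, h1, h2, h3, rfl⟩
      exact ((key _).mpr ⟨s, t, h1, h2, h3, by rw [φ.map_add, φ.map_smul, φ.map_smul, hp, hq]⟩).1
  have hab' : dot u a - dot u b ≠ 0 := sub_ne_zero.mpr hab
  have hac' : dot u a - dot u c ≠ 0 := sub_ne_zero.mpr hac
  have hpos : 0 < (dot u a - dot u b) * (dot u a - dot u c) := by
    rcases hs with ⟨h1, h2, h3⟩ | ⟨h1, h2, h3⟩
    · exact mul_pos (lt_of_le_of_ne (by linarith) hab'.symm)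
        (lt_of_le_of_ne (by linarith) hac'.symm)
    · exact mul_pos_of_neg_of_neg (lt_of_le_of_ne (by linarith) hab')
        (lt_of_le_of_ne (by linarith) hac')
  have hd : det2 p q = dot u u / δ *
      (det3 a b c * dot u a / ((dot u a - dot u b) * (dot u a - dot u c))) := by
    have h1 := hδ' p q
    rw [hp, hq] at h1
    have h2 : det3 (cp u a b) (cp u a c) u = (dot u a - dot u b)⁻¹ * (dot u a - dot u c)⁻¹ *
        (dot u a * det3 a b c * dot u u) := by
      simp only [cp, det3, dot, PiLp.smul_apply, PiLp.sub_apply, smul_eq_mul]; ring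
    rw [h2] at h1
    field_simp
    field_simp at h1
    linarith
  rw [hT, int_Tri, φ.map_smul, φ.map_add, hp, hq, term, smul_smul, hd, abs_mul, abs_div _ (_ * _),
    abs_mul, abs_of_pos hD, abs_of_pos hpos]
  congr 1; ring

theorem null2 {u a b c : E3} (φ : E2 →ₗᵢ[ℝ] E3) (hφ : range φ = {x | dot u x = 0})
    (hD : det3 a b c ≠ 0) (h : ¬ (dot u a = 0 ∧ dot u b = 0)) :
    volume {y : E2 | det3 a b (φ y) = 0} = 0 := by
  let S : Submodule ℝ E2 :=
    { carrier := {y : E2 | det3 a b (φ y) = 0}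
      add_mem' := by
        intro x y hx hy
        simp only [mem_setOf_eq, det3, PiLp.add_apply, map_add] at *
        linarith
      zero_mem' := by simp [det3]
      smul_mem' := by
        intro t x hx
        simp only [mem_setOf_eq, det3, PiLp.smul_apply, smul_eq_mul, map_smul] at *
        linear_combination t * hx }
  refine Measure.addHaar_submodule volume S ?_
  intro hS
  have hall : ∀ x : E3, dot u x = 0 → det3 a b x = 0 := by
    intro x hx
    obtain ⟨y, rfl⟩ : x ∈ range φ := by rw [hφ]; exact hx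
    have : y ∈ S := by rw [hS]; trivial
    exact this
  apply h
  constructor
  · have h1 := hall _ (show dot u (dot u a • c - dot u c • a) = 0 by simp [dot]; ring)
    have h2 : det3 a b (dot u a • c - dot u c • a) = dot u a * det3 a b c := by
      simp only [det3, PiLp.smul_apply, PiLp.sub_apply, smul_eq_mul]; ring
    rw [h2] at h1
    exact (mul_eq_zero.mp h1).resolve_right hD
  · have h1 := hall _ (show dot u (dot u b • c - dot u c • b) = 0 by simp [dot]; ring)
    have h2 : det3 a b (dot u b • c - dot u c • b) = dot u b * det3 a b c := by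
      simp only [det3, PiLp.smul_apply, PiLp.sub_apply, smul_eq_mul]; ring
    rw [h2] at h1
    exact (mul_eq_zero.mp h1).resolve_right hD

end Pool.Agent.H3.Cen
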