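import Mathlib
import Pool.Agent.H3.Cen2

open MeasureTheory Set

namespace Pool.Agent.H3.Cen

abbrev I3 := ℤ × ℤ × ℤ
abbrev N3 := ℕ × ℕ × ℕ

noncomputable def toE (a : I3) : E3 := !₂[(a.1 : ℝ), (a.2.1 : ℝ), (a.2.2 : ℝ)]

def dotZ (a b : I3) : ℤ := a.1 * b.1 + a.2.1 * b.2.1 + a.2.2 * b.2.2

def detZ (a b c : I3) : ℤ :=
  a.1 * (b.2.1 * c.2.2 - b.2.2 * c.2.1) - a.2.1 * (b.1 * c.2.2 - b.2.2 * c.1) +
    a.2.2 * (b.1 * c.2.1 - b.2.1 * c.1)

theorem det_toE (a b c : I3) : det3 (toE a) (toE b) (toE c) = detZ a b c := by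
  simp [det3, detZ, toE]

def VL : List I3 := [(13085555, 15, 25), (-13085555, 15, 25), (13120862, -8, -19),
  (-13120862, -8, -19), (2460996, 41, -17), (-2460996, 41, -17), (0, -52, 4), (0, -4, -42),
  (0, 4, 47)]

def FL : List N3 := [(0, 2, 4), (0, 6, 2), (0, 4, 8), (0, 8, 6), (1, 5, 3), (1, 3, 6), (1, 8, 5),
  (1, 6, 8), (2, 7, 4), (2, 6, 7), (3, 5, 7), (3, 7, 6), (4, 7, 5), (4, 5, 8)]

def V (i : ℕ) : I3 := VL.getD i (0, 0, 0)
def F (j : Fin 14) : N3 := FL.getD j (0, 0, 0)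
def rot (f : N3) (r : Fin 3) : N3 :=
  if r = 0 then f else if r = 1 then (f.2.1, f.2.2, f.1) else (f.2.2, f.1, f.2.1)
def A (j : Fin 14) (r : Fin 3) : ℕ := (rot (F j) r).1
def B (j : Fin 14) (r : Fin 3) : ℕ := (rot (F j) r).2.1
def C (j : Fin 14) (r : Fin 3) : ℕ := (rot (F j) r).2.2
def DZ (j : Fin 14) : ℤ := detZ (V (A j 0)) (V (B j 0)) (V (C j 0))
def elZ (j : Fin 14) (x : I3) : ℤ :=
  detZ x (V (B j 0)) (V (C j 0)) + detZ (V (A j 0)) x (V (C j 0)) + detZ (V (A j 0)) (V (B j 0)) x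

theorem fD : ∀ j, 0 < DZ j := by decide +kernel
theorem fle : ∀ i j r, elZ i (V (A j r)) ≤ DZ i ∧
    (elZ i (V (A j r)) = DZ i → ∃ r', A i r' = A j r) := by decide +kernel
theorem fnb : ∀ j r, ∃ j' r', A j' r' = B j r ∧ B j' r' = A j r ∧
    elZ j' (V (C j r)) < DZ j' := by decide +kernel
theorem fdiff : ∀ i j, i ≠ j → ∃ r, ∀ r', A j r' ≠ C i r := by decide +kernel
theorem fsh : ∀ i j r, i ≠ j → (∃ r', A j r' = A i r) → (∃ r', A j r' = B i r) →
    ∃ r', A j r' = B i r ∧ B j r' = A i r := by decide +kernel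
theorem fcen : (∑ j, DZ j * ((V (A j 0)).1 + (V (B j 0)).1 + (V (C j 0)).1) = 0) ∧
    (∑ j, DZ j * ((V (A j 0)).2.1 + (V (B j 0)).2.1 + (V (C j 0)).2.1) = 0) ∧
    (∑ j, DZ j * ((V (A j 0)).2.2 + (V (B j 0)).2.2 + (V (C j 0)).2.2) = 0) := by decide +kernel
theorem fA9 : ∀ j r, A j r < 9 := by decide +kernel
theorem fAB : ∀ j r, A j (r + 1) = B j r ∧ B j (r + 1) = C j r ∧ C j (r + 1) = A j r := by
  decide +kernel
theorem fFL : FL = List.ofFn F := by decide +kernel

noncomputable def v (i : ℕ) : E3 := toE (V i)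
noncomputable def D (j : Fin 14) : ℝ := det3 (v (A j 0)) (v (B j 0)) (v (C j 0))
noncomputable def el (j : Fin 14) (x : E3) : ℝ :=
  det3 x (v (B j 0)) (v (C j 0)) + det3 (v (A j 0)) x (v (C j 0)) + det3 (v (A j 0)) (v (B j 0)) x
def S (j : Fin 14) : Set E3 := Sx (v (A j 0)) (v (B j 0)) (v (C j 0))
def K : Set E3 := {x | ∀ j, el j x ≤ D j}

theorem D_eq (j : Fin 14) : D j = DZ j := det_toE _ _ _
theorem el_eq (j : Fin 14) (i : ℕ) : el j (v i) = elZ j (V i) := by
  simp only [el, elZ, v, det_toE]; push_cast; ring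
theorem D_pos (j : Fin 14) : 0 < D j := by rw [D_eq]; exact_mod_cast fD j

theorem S_rot (j : Fin 14) (r : Fin 3) : S j = Sx (v (A j r)) (v (B j r)) (v (C j r)) := by
  fin_cases r
  · rfl
  · exact (Sx_rot _ _ _).symm
  · exact Sx_rot _ _ _

theorem D_rot (j : Fin 14) (r : Fin 3) : det3 (v (A j r)) (v (B j r)) (v (C j r)) = D j := by
  fin_cases r
  · rfl
  · show det3 (v (B j 0)) (v (C j 0)) (v (A j 0)) = det3 _ _ _
    simp only [det3]; ring
  · show det3 (v (C j 0)) (v (A j 0)) (v (B j 0)) = det3 _ _ _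
    simp only [det3]; ring

theorem el_comb (j : Fin 14) (a b c : E3) (α β γ : ℝ) :
    el j (α • a + β • b + γ • c) = α * el j a + β * el j b + γ * el j c := by
  simp only [el, det3, PiLp.add_apply, PiLp.smul_apply, smul_eq_mul]; ring

theorem el_A (j : Fin 14) (r : Fin 3) : el j (v (A j r)) = D j := by
  fin_cases r
  · show el j (v (A j 0)) = _
    simp only [el, D, det3]; ring
  · show el j (v (B j 0)) = _
    simp only [el, D, det3]; ring
  · show el j (v (C j 0)) = _
    simp only [el, D, det3]; ring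

theorem el_B (j : Fin 14) (r : Fin 3) : el j (v (B j r)) = D j := by
  rw [← (fAB j r).1]; exact el_A _ _
theorem el_C (j : Fin 14) (r : Fin 3) : el j (v (C j r)) = D j := by
  rw [← (fAB j r).2.1]; exact el_B _ _

theorem le_A (i j : Fin 14) (r : Fin 3) : el i (v (A j r)) ≤ D i := by
  rw [el_eq, D_eq]; exact_mod_cast (fle i j r).1
theorem le_B (i j : Fin 14) (r : Fin 3) : el i (v (B j r)) ≤ D i := by
  rw [← (fAB j r).1]; exact le_A _ _ _
theorem le_C (i j : Fin 14) (r : Fin 3) : el i (v (C j r)) ≤ D i := by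
  rw [← (fAB j r).2.1]; exact le_B _ _ _
theorem eq_A (i j : Fin 14) (r : Fin 3) (h : el i (v (A j r)) = D i) : ∃ r', A i r' = A j r := by
  rw [el_eq, D_eq] at h; exact (fle i j r).2 (by exact_mod_cast h)

theorem cramer {a b c : E3} (h : det3 a b c ≠ 0) (x : E3) :
    x = (det3 b c x / det3 a b c) • a + (det3 c a x / det3 a b c) • b +
      (det3 a b x / det3 a b c) • c := by
  ext i
  simp only [PiLp.add_apply, PiLp.smul_apply, smul_eq_mul]
  field_simp
  fin_cases i <;> simp [det3] <;> ring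

theorem cover (x : E3) : ∃ j, ∃ α β γ : ℝ, 0 ≤ α ∧ 0 ≤ β ∧ 0 ≤ γ ∧
    x = α • v (A j 0) + β • v (B j 0) + γ • v (C j 0) := by
  obtain ⟨j, hj⟩ := Finite.exists_max (fun j => el j x / D j)
  have key : ∀ r, 0 ≤ det3 (v (A j r)) (v (B j r)) x := by
    intro r
    obtain ⟨j', r', h1, h2, h3⟩ := fnb j r
    have h3' : el j' (v (C j r)) < D j' := by rw [el_eq, D_eq]; exact_mod_cast h3
    have hc := cramer (a := v (A j r)) (b := v (B j r)) (c := v (C j r))
      (by rw [D_rot]; exact (D_pos j).ne') x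
    rw [D_rot] at hc
    set α := det3 (v (B j r)) (v (C j r)) x / D j
    set β := det3 (v (C j r)) (v (A j r)) x / D j
    set γ := det3 (v (A j r)) (v (B j r)) x / D j with hγ
    have e1 : el j x = (α + β + γ) * D j := by
      rw [hc, el_comb, el_A, el_B, el_C]; ring
    have e2 : el j' x = (α + β) * D j' + γ * el j' (v (C j r)) := by
      rw [hc, el_comb, ← h1, ← h2, el_A, el_B]; ring
    have h4 := hj j'
    rw [e1, e2, mul_div_assoc, div_self (D_pos j).ne', mul_one, div_le_iff₀ (D_pos j')] at h4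
    have h5 : 0 ≤ γ := by
      by_contra h
      push Not at h
      nlinarith
    rw [hγ] at h5
    exact (div_nonneg_iff.mp h5).elim (fun h => h.1) (fun h => absurd h.2 (not_le.mpr (D_pos j)))
  refine ⟨j, _, _, _, ?_, ?_, ?_, cramer (a := v (A j 0)) (b := v (B j 0)) (c := v (C j 0))
    (D_pos j).ne' x⟩
  · exact div_nonneg (key 1) (D_pos j).le
  · exact div_nonneg (key 2) (D_pos j).le
  · exact div_nonneg (key 0) (D_pos j).le

theorem K_eq : K = ⋃ j, S j := by
  ext x
  rw [mem_iUnion]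
  constructor
  · intro hx
    obtain ⟨j, α, β, γ, h1, h2, h3, h4⟩ := cover x
    refine ⟨j, α, β, γ, h1, h2, h3, ?_, h4⟩
    have := hx j
    rw [h4, el_comb, el_A, el_B, el_C] at this
    have := D_pos j
    nlinarith
  · rintro ⟨j, α, β, γ, h1, h2, h3, h4, rfl⟩ i
    rw [el_comb]
    have := le_A i j 0
    have := le_B i j 0
    have := le_C i j 0
    have := D_pos i
    nlinarith

theorem K_compact : IsCompact K := by
  rw [K_eq]; exact isCompact_iUnion fun j => Sx_compact _ _ _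

theorem K_convex : Convex ℝ K := by
  intro x hx y hy a b ha hb hab j
  have := el_comb j x y 0 a b 0
  simp only [smul_zero, add_zero, zero_mul] at this
  rw [this]
  have h1 := hx j
  have h2 := hy j
  have : D j = a * D j + b * D j := by rw [← add_mul, hab, one_mul]
  nlinarith

theorem K_int : (interior K).Nonempty := by
  refine ⟨0, mem_interior_iff_mem_nhds.mpr ?_⟩
  have : K = ⋂ j, {x | el j x ≤ D j} := by ext x; simp [K]
  rw [this, Filter.iInter_mem]
  intro j
  have hc : Continuous (el j) := by unfold el det3; fun_prop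
  have h0 : el j 0 < D j := by simpa [el, det3] using D_pos j
  exact Filter.mem_of_superset ((isOpen_lt hc continuous_const).mem_nhds h0)
    fun x hx => (le_of_lt (show el j x < D j from hx) : el j x ≤ D j)

theorem uniq {i j : Fin 14} {r : Fin 3} {α β γ : ℝ} (h1 : 0 ≤ α) (h2 : 0 ≤ β) (h3 : 0 ≤ γ)
    (hx : α • v (A i r) + β • v (B i r) + γ • v (C i r) ∈ S j) :
    α * (D j - el j (v (A i r))) = 0 ∧ β * (D j - el j (v (B i r))) = 0 ∧
      γ * (D j - el j (v (C i r))) = 0 := by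
  obtain ⟨a, b, c, k1, k2, k3, -, k5⟩ := hx
  have e1 := congrArg (el i) k5
  have e2 := congrArg (el j) k5
  rw [el_comb, el_comb, el_A, el_B, el_C] at e1 e2
  have := le_A i j 0
  have := le_B i j 0
  have := le_C i j 0
  have hi := D_pos i
  have hj := D_pos j
  have t1 : α + β + γ ≤ a + b + c := by
    by_contra h
    push Not at h
    nlinarith
  have p1 : 0 ≤ α * (D j - el j (v (A i r))) := mul_nonneg h1 (sub_nonneg.mpr (le_A j i r))
  have p2 : 0 ≤ β * (D j - el j (v (B i r))) := mul_nonneg h2 (sub_nonneg.mpr (le_B j i r))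
  have p3 : 0 ≤ γ * (D j - el j (v (C i r))) := mul_nonneg h3 (sub_nonneg.mpr (le_C j i r))
  have : α * (D j - el j (v (A i r))) + β * (D j - el j (v (B i r))) +
    γ * (D j - el j (v (C i r))) ≤ 0 := by nlinarith
  exact ⟨by linarith, by linarith, by linarith⟩

theorem det_comb (a b c : E3) (α β γ : ℝ) :
    det3 a b (α • a + β • b + γ • c) = γ * det3 a b c := by
  simp only [det3, PiLp.add_apply, PiLp.smul_apply, smul_eq_mul]; ring

theorem gam_zero {i j : Fin 14} {r : Fin 3} (hr : ∀ r', A j r' ≠ C i r) {α β γ : ℝ} (h1 : 0 ≤ α)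
    (h2 : 0 ≤ β) (h3 : 0 ≤ γ) (hx : α • v (A i r) + β • v (B i r) + γ • v (C i r) ∈ S j) :
    γ = 0 := by
  refine (mul_eq_zero.mp (uniq h1 h2 h3 hx).2.2).resolve_right fun h => ?_
  rw [← (fAB i r).2.1, ← (fAB i (r + 1)).1] at h
  obtain ⟨r', hr'⟩ := eq_A j i (r + 1 + 1) (by linarith)
  rw [(fAB i (r + 1)).1, (fAB i r).2.1] at hr'
  exact hr r' hr'

theorem centroid_K : centroid K = 0 := by
  have : ∫ x in K, x = 0 := by
    rw [K_eq, integral_iUnion_ae, tsum_fintype]
    · have : ∀ j, ∫ x in S j, x = m3 0 • (D j • (v (A j 0) + v (B j 0) + v (C j 0))) := by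
        intro j
        rw [S, int_Sx, smul_smul, mul_comm, D_rot, abs_of_pos (D_pos j)]
      simp_rw [this]
      rw [← Finset.smul_sum]
      have : ∑ j, D j • (v (A j 0) + v (B j 0) + v (C j 0)) = 0 := by
        obtain ⟨c1, c2, c3⟩ := fcen
        have c1' := congrArg (fun z : ℤ => (z : ℝ)) c1
        have c2' := congrArg (fun z : ℤ => (z : ℝ)) c2
        have c3' := congrArg (fun z : ℤ => (z : ℝ)) c3
        push_cast at c1' c2' c3'
        ext k
        rw [WithLp.ofLp_sum, Finset.sum_apply]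
        fin_cases k
        · simpa [D_eq, v, toE, mul_add] using c1'
        · simpa [D_eq, v, toE, mul_add] using c2'
        · simpa [D_eq, v, toE, mul_add] using c3'
      rw [this, smul_zero]
    · exact fun j => (Sx_compact _ _ _).measurableSet.nullMeasurableSet
    · intro i j hij
      obtain ⟨r, hr⟩ := fdiff i j hij
      refine measure_mono_null ?_ (null3 (v (A i r)) (v (B i r)) (v (C i r))
        (by rw [D_rot]; exact (D_pos i).ne'))
      rintro x ⟨hx, hx'⟩
      rw [S_rot i r] at hx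
      obtain ⟨α, β, γ, h1, h2, h3, -, rfl⟩ := hx
      rw [mem_setOf_eq, det_comb, gam_zero hr h1 h2 h3 hx', zero_mul]
    · rw [← K_eq]; exact continuous_id.continuousOn.integrableOn_compact K_compact
  rw [centroid, setAverage_eq, this, smul_zero]

end Pool.Agent.H3.Cen
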