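import Mathlib
import Pool.Agent.H3.Cen3

open MeasureTheory Set

namespace Pool.Agent.H3.Cen

def Z (u : E3) : Prop := ⨍ x in K ∩ {x | dot u x = 0}, x ∂(μHE[2]) = 0

def mixed (s : ℕ → Bool) (f : N3) : Bool := !(s f.1 == s f.2.1 && s f.2.1 == s f.2.2)

def odd (s : ℕ → Bool) (f : N3) : N3 :=
  if s f.1 = s f.2.1 then (f.2.2, f.1, f.2.1) else if s f.1 = s f.2.2 then (f.2.1, f.2.2, f.1) else f

noncomputable def mterm (s : ℕ → Bool) (u : E3) (f : N3) : E3 :=
  if mixed s f then term u (v (odd s f).1) (v (odd s f).2.1) (v (odd s f).2.2) else 0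

theorem mixed_iff (s : ℕ → Bool) (j : Fin 14) (r : Fin 3) :
    mixed s (F j) = true ↔ ¬ (s (A j r) = s (B j r) ∧ s (B j r) = s (C j r)) := by
  have key : ∀ a b c : Bool, (((!(a == b && b == c)) = true ↔ ¬ (a = b ∧ b = c)) ∧
      ((!(a == b && b == c)) = true ↔ ¬ (b = c ∧ c = a)) ∧
      ((!(a == b && b == c)) = true ↔ ¬ (c = a ∧ a = b))) := by decide
  fin_cases r
  · exact (key (s (F j).1) (s (F j).2.1) (s (F j).2.2)).1
  · exact (key (s (F j).1) (s (F j).2.1) (s (F j).2.2)).2.1
  · exact (key (s (F j).1) (s (F j).2.1) (s (F j).2.2)).2.2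

theorem odd_spec (s : ℕ → Bool) (j : Fin 14) (h : mixed s (F j) = true) :
    ∃ r, odd s (F j) = (A j r, B j r, C j r) ∧ s (A j r) ≠ s (B j r) ∧ s (B j r) = s (C j r) := by
  unfold odd
  unfold mixed at h
  split_ifs with h1 h2
  · refine ⟨2, rfl, ?_, h1⟩
    show s (F j).2.2 ≠ s (F j).1
    intro h3; simp [← h1, h3] at h
  · refine ⟨1, rfl, ?_, h2.symm⟩
    show s (F j).2.1 ≠ s (F j).2.2
    intro h3; exact h1 (h2.trans h3.symm)
  · refine ⟨0, rfl, h1, ?_⟩
    show s (F j).2.1 = s (F j).2.2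
    revert h1 h2
    cases s (F j).1 <;> cases s (F j).2.1 <;> cases s (F j).2.2 <;> simp

theorem dot_cramer (u a b c d : E3) :
    det3 a b c * dot u d = det3 b c d * dot u a + det3 c a d * dot u b + det3 a b d * dot u c := by
  simp only [det3, dot]; ring

theorem det_swap (a b c : E3) : det3 b a c = - det3 a b c := by simp only [det3]; ring

theorem ne_zero_of {u a b c : E3} (hu : u ≠ 0) (hD : det3 a b c ≠ 0) (ha : dot u a = 0)
    (hb : dot u b = 0) : dot u c ≠ 0 := by
  intro hc
  have := dot_cramer u a b c u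
  rw [ha, hb, hc] at this
  have h2 := dot_self_pos hu
  have : det3 a b c * dot u u = 0 := by linarith
  rcases mul_eq_zero.mp this with h | h
  · exact hD h
  · exact h2.ne' h

/-- opposite vertices over an edge lying in the plane have opposite signs -/
theorem opp {u : E3} (hu : u ≠ 0) {i j : Fin 14} {r r' : Fin 3} (h1 : A j r' = B i r)
    (h2 : B j r' = A i r) (ha : dot u (v (A i r)) = 0) (hb : dot u (v (B i r)) = 0) :
    dot u (v (C i r)) * dot u (v (C j r')) < 0 := by
  have hc := ne_zero_of hu (by rw [D_rot]; exact (D_pos i).ne') ha hb (c := v (C i r))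
  have e := dot_cramer u (v (A i r)) (v (B i r)) (v (C i r)) (v (C j r'))
  rw [ha, hb, D_rot] at e
  have e2 := D_rot j r'
  rw [h1, h2, det_swap] at e2
  have hi := D_pos i
  have hj := D_pos j
  have hp : 0 < dot u (v (C i r)) * dot u (v (C i r)) := mul_self_pos.mpr hc
  have : D i * (dot u (v (C i r)) * dot u (v (C j r'))) =
      - D j * (dot u (v (C i r)) * dot u (v (C i r))) := by
    rw [← e2]; linear_combination dot u (v (C i r)) * e
  by_contra h
  push Not at h
  nlinarith

section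
variable {u : E3} (hu : u ≠ 0) {s : ℕ → Bool}
  (hs1 : ∀ i < 9, s i = true → 0 ≤ dot u (v i)) (hs2 : ∀ i < 9, s i = false → dot u (v i) ≤ 0)
  (had : ∀ j r, s (A j r) ≠ s (B j r) → dot u (v (A j r)) ≠ dot u (v (B j r)))

theorem fB9 (j : Fin 14) (r : Fin 3) : B j r < 9 := by rw [← (fAB j r).1]; exact fA9 _ _
theorem fC9 (j : Fin 14) (r : Fin 3) : C j r < 9 := by rw [← (fAB j r).2.1]; exact fB9 _ _

include hs1 hs2 in
theorem same_sign {a b : ℕ} (ha : a < 9) (hb : b < 9) (h : s a = s b) :
    0 ≤ dot u (v a) * dot u (v b) := by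
  cases hsa : s a
  · exact mul_nonneg_of_nonpos_of_nonpos (hs2 a ha hsa) (hs2 b hb (h ▸ hsa))
  · exact mul_nonneg (hs1 a ha hsa) (hs1 b hb (h ▸ hsa))

include hu hs1 hs2 in
theorem exists_mixed {x : E3} (hx : x ∈ K) (h0 : dot u x = 0)
    (hN : ∀ j r, det3 (v (A j r)) (v (B j r)) x = 0 →
      dot u (v (A j r)) = 0 ∧ dot u (v (B j r)) = 0) :
    ∃ j, mixed s (F j) = true ∧ x ∈ S j := by
  rw [K_eq, mem_iUnion] at hx
  obtain ⟨j, hj⟩ := hx
  by_cases hm : mixed s (F j) = true
  · exact ⟨j, hm, hj⟩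
  obtain ⟨r, hr⟩ : ∃ r, dot u (v (C j r)) ≠ 0 := by
    by_contra h
    push Not at h
    exact ne_zero_of hu (D_pos j).ne' (h 1) (h 2) (h 0)
  rw [mixed_iff s j r, not_not] at hm
  rw [S_rot j r] at hj
  obtain ⟨α, β, γ, h1, h2, h3, h4, rfl⟩ := hj
  rw [dot_comb] at h0
  have p1 := same_sign hs1 hs2 (fA9 j r) (fC9 j r) (hm.1.trans hm.2)
  have p2 := same_sign hs1 hs2 (fB9 j r) (fC9 j r) hm.2
  have hp : 0 < dot u (v (C j r)) * dot u (v (C j r)) := mul_self_pos.mpr hr
  have hγ : γ = 0 := by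
    have e : α * (dot u (v (A j r)) * dot u (v (C j r))) +
      β * (dot u (v (B j r)) * dot u (v (C j r))) +
      γ * (dot u (v (C j r)) * dot u (v (C j r))) = 0 := by
      linear_combination dot u (v (C j r)) * h0
    have q1 := mul_nonneg h1 p1
    have q2 := mul_nonneg h2 p2
    have q3 := mul_nonneg h3 hp.le
    exact (mul_eq_zero.mp (by linarith)).resolve_right hp.ne'
  obtain ⟨ha, hb⟩ := hN j r (by rw [det_comb, hγ, zero_mul])
  obtain ⟨j', r', k1, k2, -⟩ := fnb j r
  have ho := opp hu k1 k2 ha hb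
  refine ⟨j', ?_, ?_⟩
  · rw [mixed_iff s j' r', k1, k2]
    rintro ⟨-, e⟩
    have := same_sign hs1 hs2 (fC9 j r) (fC9 j' r') ((hm.1.trans hm.2).symm.trans e)
    linarith
  · rw [S_rot j' r', k1, k2]
    exact ⟨β, α, 0, h2, h1, le_rfl, by linarith, by rw [hγ, zero_smul, zero_smul, add_comm (α • _)]⟩

include hu hs1 hs2 had in
theorem not_both {x : E3} (hN : ∀ j r, det3 (v (A j r)) (v (B j r)) x = 0 →
      dot u (v (A j r)) = 0 ∧ dot u (v (B j r)) = 0) {i j : Fin 14} (hij : i ≠ j)
    (hi : mixed s (F i) = true) (hj : mixed s (F j) = true) (xi : x ∈ S i) (xj : x ∈ S j) :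
    False := by
  obtain ⟨r, hr⟩ := fdiff i j hij
  rw [S_rot i r] at xi
  obtain ⟨α, β, γ, h1, h2, h3, -, rfl⟩ := xi
  have hγ := gam_zero hr h1 h2 h3 xj
  obtain ⟨ha, hb⟩ := hN i r (by rw [det_comb, hγ, zero_mul])
  have hc := ne_zero_of hu (by rw [D_rot]; exact (D_pos i).ne') ha hb (c := v (C i r))
  have hα : α ≠ 0 := by
    intro h
    have := hN i (r + 1) (by
      rw [(fAB i r).1, (fAB i r).2.1, h, hγ]
      simp only [det3, PiLp.add_apply, PiLp.smul_apply, smul_eq_mul]; ring)
    rw [(fAB i r).2.1] at this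
    exact hc this.2
  have hβ : β ≠ 0 := by
    intro h
    have e1 : A i (r + 1 + 1) = C i r := by rw [(fAB i (r + 1)).1, (fAB i r).2.1]
    have e2 : B i (r + 1 + 1) = A i r := by rw [(fAB i (r + 1)).2.1, (fAB i r).2.2]
    have := hN i (r + 1 + 1) (by
      rw [e1, e2, h, hγ]
      simp only [det3, PiLp.add_apply, PiLp.smul_apply, smul_eq_mul]; ring)
    rw [e1] at this
    exact hc this.1
  obtain ⟨u1, u2, -⟩ := uniq h1 h2 h3 xj
  have m1 := eq_A j i r (by have := (mul_eq_zero.mp u1).resolve_left hα; linarith)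
  have m2 := eq_A j i (r + 1) (by
    rw [(fAB i r).1]; have := (mul_eq_zero.mp u2).resolve_left hβ; linarith)
  rw [(fAB i r).1] at m2
  obtain ⟨r', k1, k2⟩ := fsh i j r hij m1 m2
  have ho := opp hu k1 k2 ha hb
  have hab : s (A i r) = s (B i r) := by
    by_contra h
    exact had i r h (by rw [ha, hb])
  rw [mixed_iff s i r] at hi
  rw [mixed_iff s j r', k1, k2] at hj
  have : s (C i r) = s (C j r') := by
    revert hab hi hj
    cases s (A i r) <;> cases s (B i r) <;> cases s (C i r) <;> cases s (C j r') <;> simp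
  have := same_sign hs1 hs2 (fC9 i r) (fC9 j r') this
  linarith

include hu hs1 hs2 had in
theorem formula (hZ : Z u) : ∑ j, mterm s u (F j) = 0 := by
  obtain ⟨φ, hφ⟩ := exists_phi hu
  obtain ⟨δ, hδ, hδ'⟩ := phi_facts hu φ hφ
  have hemb : Topology.IsClosedEmbedding φ := φ.isometry.isClosedEmbedding
  have hKc : IsCompact (φ ⁻¹' K) := hemb.isCompact_preimage K_compact
  have hmap : (μHE[2] : Measure E3).restrict {x | dot u x = 0} = Measure.map φ volume := by
    rw [← hφ, ← φ.isometry.map_euclideanHausdorffMeasure,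
      EuclideanSpace.euclideanHausdorffMeasure_eq_volume]
  have hI : φ (∫ y in φ ⁻¹' K, y) = 0 := by
    unfold Z at hZ
    rw [← Measure.restrict_restrict K_compact.measurableSet, hmap, setAverage_eq,
      hemb.measurableEmbedding.setIntegral_map, φ.integral_comp_comm (fun y => y)] at hZ
    rcases smul_eq_zero.mp hZ with h | h
    · rw [inv_eq_zero, Measure.real, hemb.measurableEmbedding.map_apply,
        ENNReal.toReal_eq_zero_iff] at h
      rcases h with h | h
      · rw [setIntegral_measure_zero _ h, map_zero]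
      · exact absurd h hKc.measure_lt_top.ne
    · exact h
  have hN : ∀ᵐ y : E2, ∀ j r, det3 (v (A j r)) (v (B j r)) (φ y) = 0 →
      dot u (v (A j r)) = 0 ∧ dot u (v (B j r)) = 0 := by
    rw [ae_all_iff]; intro j
    rw [ae_all_iff]; intro r
    by_cases h : dot u (v (A j r)) = 0 ∧ dot u (v (B j r)) = 0
    · exact Filter.Eventually.of_forall fun _ _ => h
    · have := null2 φ hφ (c := v (C j r)) (by rw [D_rot]; exact (D_pos j).ne') h
      filter_upwards [measure_eq_zero_iff_ae_notMem.mp this] with y hy hy'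
      exact absurd hy' hy
  let W : Fin 14 → Set E2 := fun j => if mixed s (F j) then φ ⁻¹' S j else ∅
  have hWc : ∀ j, IsCompact (W j) := by
    intro j
    by_cases h : mixed s (F j) = true
    · simp only [W, if_pos h]; exact hemb.isCompact_preimage (Sx_compact _ _ _)
    · simp only [W, if_neg h]; exact isCompact_empty
  have hWm : ∀ j y, y ∈ W j ↔ mixed s (F j) = true ∧ φ y ∈ S j := by
    intro j y
    by_cases h : mixed s (F j) = true <;> simp [W, h]
  have hae : (φ ⁻¹' K : Set E2) =ᵐ[volume] (⋃ j, W j : Set E2) := by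
    filter_upwards [hN] with y hy
    apply propext
    show φ y ∈ K ↔ y ∈ ⋃ j, W j
    rw [mem_iUnion]
    constructor
    · intro h
      have h0 : dot u (φ y) = 0 := by
        have : φ y ∈ range φ := ⟨_, rfl⟩
        rwa [hφ] at this
      obtain ⟨j, hj⟩ := exists_mixed hu hs1 hs2 h h0 hy
      exact ⟨j, (hWm j y).mpr hj⟩
    · rintro ⟨j, hj⟩
      rw [K_eq]; exact mem_iUnion.mpr ⟨j, ((hWm j y).mp hj).2⟩
  rw [setIntegral_congr_set hae, integral_iUnion_ae, tsum_fintype, map_sum] at hI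
  · have : ∀ j, φ (∫ y in W j, y) = (|dot u u / δ| * m2 0) • mterm s u (F j) := by
      intro j
      by_cases h : mixed s (F j) = true
      · obtain ⟨r, e, k1, k2⟩ := odd_spec s j h
        simp only [W, mterm, if_pos h, e]
        rw [S_rot j r]
        refine sec_int φ hφ hδ hδ' (by rw [D_rot]; exact D_pos j) ?_ (had j r k1) ?_
        · cases hsa : s (A j r)
          · have hb : s (B j r) = true := by
              cases hsb : s (B j r)
              · exact absurd (hsa.trans hsb.symm) k1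
              · rfl
            exact Or.inr ⟨hs2 _ (fA9 j r) hsa, hs1 _ (fB9 j r) hb, hs1 _ (fC9 j r) (k2 ▸ hb)⟩
          · have hb : s (B j r) = false := by
              cases hsb : s (B j r)
              · rfl
              · exact absurd (hsa.trans hsb.symm) k1
            exact Or.inl ⟨hs1 _ (fA9 j r) hsa, hs2 _ (fB9 j r) hb, hs2 _ (fC9 j r) (k2 ▸ hb)⟩
        · have e1 : A j (r + 1 + 1) = C j r := by rw [(fAB j (r + 1)).1, (fAB j r).2.1]
          have e2 : B j (r + 1 + 1) = A j r := by rw [(fAB j (r + 1)).2.1, (fAB j r).2.2]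
          have := had j (r + 1 + 1) (by rw [e1, e2, ← k2]; exact k1.symm)
          rw [e1, e2] at this
          exact this.symm
      · simp [W, mterm, h]
    simp_rw [this] at hI
    rw [← Finset.smul_sum] at hI
    refine (smul_eq_zero.mp hI).resolve_left (mul_pos (abs_pos.mpr ?_) m2_pos).ne'
    exact div_ne_zero (dot_self_pos hu).ne' hδ
  · exact fun j => (hWc j).measurableSet.nullMeasurableSet
  · intro i j hij
    apply measure_eq_zero_iff_ae_notMem.mpr
    filter_upwards [hN] with y hy h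
    obtain ⟨k1, k2⟩ := (hWm i y).mp h.1
    obtain ⟨k3, k4⟩ := (hWm j y).mp h.2
    exact not_both hu hs1 hs2 had hy hij k1 k3 k2 k4
  · exact continuous_id.continuousOn.integrableOn_compact (isCompact_iUnion hWc)

end

end Pool.Agent.H3.Cen
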