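import Mathlib
import Pool.Agent.H3.Cen4

open MeasureTheory Set

namespace Pool.Agent.H3.Cen

abbrev P := List (List ℤ)

def addL : List ℤ → List ℤ → List ℤ
  | [], q => q
  | x :: p, [] => x :: p
  | x :: p, y :: q => (x + y) :: addL p q

def addP : P → P → P
  | [], q => q
  | x :: p, [] => x :: p
  | x :: p, y :: q => addL x y :: addP p q

def smL (k : ℤ) (l : List ℤ) : List ℤ := l.map (k * ·)

def mulLin (l : I3) (p : P) : P :=
  let q := p.map (smL l.2.2)
  let q' := if l.2.1 = 0 then q else addP q (p.map fun r => 0 :: smL l.2.1 r)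
  if l.1 = 0 then q' else addP q' ([] :: p.map (smL l.1))

noncomputable def ev1 (b : ℝ) : List ℤ → ℝ
  | [] => 0
  | x :: p => x + b * ev1 b p

noncomputable def ev2 (a b : ℝ) : P → ℝ
  | [] => 0
  | r :: p => ev1 b r + a * ev2 a b p

noncomputable def lin (a b : ℝ) (l : I3) : ℝ := l.1 * a + l.2.1 * b + l.2.2

theorem ev1_add (b : ℝ) : ∀ p q, ev1 b (addL p q) = ev1 b p + ev1 b q
  | [], q => by simp [addL, ev1]
  | x :: p, [] => by simp [addL, ev1]
  | x :: p, y :: q => by simp only [addL, ev1, ev1_add b p q]; push_cast; ring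

theorem ev2_add (a b : ℝ) : ∀ p q, ev2 a b (addP p q) = ev2 a b p + ev2 a b q
  | [], q => by simp [addP, ev2]
  | x :: p, [] => by simp [addP, ev2]
  | x :: p, y :: q => by simp only [addP, ev2, ev1_add, ev2_add a b p q]; ring

theorem ev1_sm (b : ℝ) (k : ℤ) : ∀ p, ev1 b (smL k p) = k * ev1 b p
  | [] => by simp [smL, ev1]
  | x :: p => by
    have := ev1_sm b k p
    simp only [smL, List.map_cons, ev1] at *
    rw [this]; push_cast; ring

theorem ev2_sm (a b : ℝ) (k : ℤ) : ∀ p : P, ev2 a b (p.map (smL k)) = k * ev2 a b p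
  | [] => by simp [ev2]
  | x :: p => by simp only [List.map_cons, ev2, ev1_sm, ev2_sm a b k p]; ring

theorem ev2_sh (a b : ℝ) (k : ℤ) : ∀ p : P,
    ev2 a b (p.map fun r => 0 :: smL k r) = k * b * ev2 a b p
  | [] => by simp [ev2]
  | x :: p => by simp only [List.map_cons, ev2, ev1, ev1_sm, ev2_sh a b k p]; push_cast; ring

theorem ev2_mulLin (a b : ℝ) (l : I3) (p : P) : ev2 a b (mulLin l p) = lin a b l * ev2 a b p := by
  unfold mulLin lin
  by_cases h1 : l.1 = 0 <;> by_cases h2 : l.2.1 = 0 <;>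
    simp only [h1, h2, if_true, if_false, ev2_add, ev2_sm, ev2_sh, ev2, ev1] <;> push_cast <;> ring

def posP (p : P) : Bool :=
  p.all (fun r => r.all fun x => decide (0 ≤ x)) && decide (0 < (p.headD []).headD 0)

theorem ev1_nonneg {b : ℝ} (hb : 0 ≤ b) : ∀ p : List ℤ, (∀ x ∈ p, 0 ≤ x) →
    ((p.headD 0 : ℤ) : ℝ) ≤ ev1 b p ∧ 0 ≤ ev1 b p
  | [], _ => by simp [ev1]
  | x :: p, h => by
    have h1 := (ev1_nonneg hb p fun y hy => h y (List.mem_cons_of_mem _ hy)).2
    have h2 : (0 : ℝ) ≤ x := by exact_mod_cast h x List.mem_cons_self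
    have := mul_nonneg hb h1
    simp only [ev1, List.headD_cons]
    constructor <;> linarith

theorem ev2_nonneg {a b : ℝ} (ha : 0 ≤ a) (hb : 0 ≤ b) : ∀ p : P, (∀ r ∈ p, ∀ x ∈ r, 0 ≤ x) →
    (((p.headD []).headD 0 : ℤ) : ℝ) ≤ ev2 a b p ∧ 0 ≤ ev2 a b p
  | [], _ => by simp [ev2]
  | r :: p, h => by
    have h1 := (ev2_nonneg ha hb p fun y hy => h y (List.mem_cons_of_mem _ hy)).2
    have h2 := ev1_nonneg hb r (h r List.mem_cons_self)
    have := mul_nonneg ha h1
    simp only [ev2, List.headD_cons]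
    constructor <;> linarith [h2.1, h2.2]

theorem posP_sound {a b : ℝ} (ha : 0 ≤ a) (hb : 0 ≤ b) {p : P} (h : posP p = true) :
    0 < ev2 a b p := by
  simp only [posP, Bool.and_eq_true, List.all_eq_true, decide_eq_true_eq] at h
  have := (ev2_nonneg ha hb p h.1).1
  have h2 : (0 : ℝ) < (((p.headD []).headD 0 : ℤ) : ℝ) := by exact_mod_cast h.2
  linarith

def pat : List ℤ → Bool
  | [] => true
  | x :: l => (decide (0 ≤ x) && pat l) || (x :: l).all fun y => decide (y ≤ 0)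

theorem neg_anti {t t' : ℝ} (h0 : 0 ≤ t) (h : t ≤ t') : ∀ l : List ℤ, (∀ y ∈ l, y ≤ 0) →
    ev1 t l ≤ 0 ∧ ev1 t' l ≤ ev1 t l
  | [], _ => by simp [ev1]
  | x :: l, hl => by
    obtain ⟨h1, h2⟩ := neg_anti h0 h l fun y hy => hl y (List.mem_cons_of_mem _ hy)
    have h3 : (x : ℝ) ≤ 0 := by exact_mod_cast hl x List.mem_cons_self
    simp only [ev1]
    constructor <;> nlinarith

theorem pat_anti {t t' : ℝ} (h0 : 0 < t) (h : t ≤ t') : ∀ l : List ℤ, pat l = true →
    ev1 t l ≤ 0 → ev1 t' l ≤ ev1 t l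
  | [], _, _ => by simp [ev1]
  | x :: l, hl, hz => by
    simp only [pat, Bool.or_eq_true, Bool.and_eq_true, decide_eq_true_eq, List.all_eq_true] at hl
    rcases hl with ⟨h1, h2⟩ | h1
    · have h3 : (0 : ℝ) ≤ x := by exact_mod_cast h1
      simp only [ev1] at hz ⊢
      have h4 : ev1 t l ≤ 0 := by
        by_contra h5
        push Not at h5
        nlinarith
      have := pat_anti h0 h l h2 h4
      nlinarith
    · exact (neg_anti h0.le h _ h1).2

theorem pat_uniq {t t' : ℝ} (h0 : 0 ≤ t) (h : t < t') {l : List ℤ} (h1 : 0 < l.headD 0)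
    (h2 : pat l.tail = true) (z : ev1 t l = 0) (z' : ev1 t' l = 0) : False := by
  cases l with
  | nil => simp at h1
  | cons x l =>
    have h3 : (0 : ℝ) < x := by exact_mod_cast h1
    simp only [ev1] at z z'
    have ht : 0 < t := by
      rcases h0.lt_or_eq with h4 | h4
      · exact h4
      · rw [← h4] at z; linarith
    have h4 : ev1 t l < 0 := by
      by_contra h5
      push Not at h5
      nlinarith
    have := pat_anti ht h.le l h2 h4.le
    nlinarith

theorem ev2_col (a : ℝ) : ∀ p : P, ev2 a 0 p = ev1 a (p.map fun r => r.headD 0)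
  | [] => by simp [ev2, ev1]
  | r :: p => by
    simp only [ev2, List.map_cons, ev1, ev2_col a p]
    cases r <;> simp [ev1]

def subI (a b : I3) : I3 := (a.1 - b.1, a.2.1 - b.2.1, a.2.2 - b.2.2)
def smI (k : ℤ) (a : I3) : I3 := (k * a.1, k * a.2.1, k * a.2.2)
def hv (r1 r2 r3 : I3) (i : ℕ) : I3 := (dotZ (V i) r1, dotZ (V i) r2, dotZ (V i) r3)
def lab (h : ℕ → I3) (i : ℕ) : Bool :=
  decide (0 < (h i).1) || decide (0 < (h i).2.1) || decide (0 < (h i).2.2)
def key (a b : ℕ) : ℕ × ℕ := if a < b then (a, b) else (b, a)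
def EL : List (ℕ × ℕ) := [(0, 2), (0, 4), (0, 6), (0, 8), (1, 3), (1, 5), (1, 6), (1, 8), (2, 4),
  (2, 6), (2, 7), (3, 5), (3, 6), (3, 7), (4, 5), (4, 7), (4, 8), (5, 7), (5, 8), (6, 7), (6, 8)]
def crossL (s : ℕ → Bool) : List (ℕ × ℕ) := EL.filter fun e => s e.1 != s e.2
def dl (h : ℕ → I3) (e : ℕ × ℕ) : I3 := subI (h e.1) (h e.2)
def cofP (h : ℕ → I3) (L : List (ℕ × ℕ)) (c : P) : P :=
  L.foldr (fun e p => mulLin (dl h e) (mulLin (dl h e) p)) c
def cub (h : ℕ → I3) (w : I3) (k : ℤ) (a b c : ℕ) : P :=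
  mulLin (h a) (addP
    (mulLin (subI (smI (dotZ w (V b)) (h a)) (smI (dotZ w (V a)) (h b)))
      (mulLin (subI (h a) (h c)) [[k]]))
    (mulLin (subI (smI (dotZ w (V c)) (h a)) (smI (dotZ w (V a)) (h c)))
      (mulLin (subI (h a) (h b)) [[k]])))
def triP (h : ℕ → I3) (s : ℕ → Bool) (w : I3) (g : N3) : P :=
  cofP h (((crossL s).erase (key g.1 g.2.1)).erase (key g.1 g.2.2))
    (cub h w (detZ (V g.1) (V g.2.1) (V g.2.2) * if s g.1 then 1 else -1) g.1 g.2.1 g.2.2)
def faceP (h : ℕ → I3) (s : ℕ → Bool) (w : I3) (f : N3) : P :=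
  if mixed s f then triP h s w (odd s f) else []
def poly (h : ℕ → I3) (s : ℕ → Bool) (w : I3) : P :=
  FL.foldr (fun f q => addP (faceP h s w f) q) []
def pre (h : ℕ → I3) (s : ℕ → Bool) : Bool :=
  (List.range 9).all (fun i => !s i ||
    (decide (0 ≤ (h i).1) && decide (0 ≤ (h i).2.1) && decide (0 ≤ (h i).2.2))) &&
  (crossL s).all (fun e => (dl h e).2.2 != 0) && !(crossL s).isEmpty

theorem fE : ∀ j r, key (A j r) (B j r) ∈ EL ∧ key (A j r) (C j r) ∈ EL ∧
    key (A j r) (C j r) ≠ key (A j r) (B j r) := by decide +kernel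
theorem fE9 : ∀ e ∈ EL, e.1 < 9 ∧ e.2 < 9 := by decide +kernel

theorem lin_sub (a b : ℝ) (x y : I3) : lin a b (subI x y) = lin a b x - lin a b y := by
  simp only [lin, subI]; push_cast; ring
theorem lin_sm (a b : ℝ) (k : ℤ) (x : I3) : lin a b (smI k x) = k * lin a b x := by
  simp only [lin, smI]; push_cast; ring

theorem ev_cof (a b : ℝ) (h : ℕ → I3) (c : P) : ∀ L : List (ℕ × ℕ),
    ev2 a b (cofP h L c) = (L.map fun e => lin a b (dl h e) ^ 2).prod * ev2 a b c
  | [] => by simp [cofP]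
  | e :: L => by
    have := ev_cof a b h c L
    simp only [cofP, List.foldr_cons, ev2_mulLin, List.map_cons, List.prod_cons] at *
    rw [this]; ring

theorem ev_poly (a b : ℝ) (g : N3 → P) : ∀ L : List N3,
    ev2 a b (L.foldr (fun f q => addP (g f) q) []) = (L.map fun f => ev2 a b (g f)).sum
  | [] => by simp [ev2]
  | e :: L => by simp only [List.foldr_cons, ev2_add, ev_poly a b g L, List.map_cons, List.sum_cons]

theorem dot_hv (a b : ℝ) (r1 r2 r3 : I3) (i : ℕ) :
    dot (a • toE r1 + b • toE r2 + toE r3) (v i) = lin a b (hv r1 r2 r3 i) := by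
  simp [dot, v, toE, lin, hv, dotZ]; ring

theorem dot_toE (w x : I3) : dot (toE w) (toE x) = dotZ w x := by simp [dot, toE, dotZ]

theorem key_sq (a b : ℝ) (h : ℕ → I3) (x y : ℕ) :
    lin a b (dl h (key x y)) ^ 2 = (lin a b (h x) - lin a b (h y)) ^ 2 := by
  unfold key
  split_ifs <;> simp only [dl, lin_sub]
  ring

theorem key_mem {s : ℕ → Bool} {x y : ℕ} (h1 : key x y ∈ EL) (h2 : s x ≠ s y) :
    key x y ∈ crossL s := by
  rw [crossL, List.mem_filter]
  refine ⟨h1, ?_⟩
  unfold key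
  split_ifs
  · simpa using h2
  · simpa using h2.symm

theorem key_ev {a b : ℝ} (ha : 0 ≤ a) (hb : 0 ≤ b) (r1 r2 r3 w : I3)
    (hp : pre (hv r1 r2 r3) (lab (hv r1 r2 r3)) = true)
    (hZ : Z (a • toE r1 + b • toE r2 + toE r3)) :
    ev2 a b (poly (hv r1 r2 r3) (lab (hv r1 r2 r3)) w) = 0 := by
  have hd := dot_hv a b r1 r2 r3
  set u := a • toE r1 + b • toE r2 + toE r3
  set h := hv r1 r2 r3
  set s := lab h with hs
  simp only [pre, Bool.and_eq_true, List.all_eq_true, List.mem_range, Bool.or_eq_true,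
    Bool.not_eq_true', decide_eq_true_eq, bne_iff_ne, List.isEmpty_eq_false_iff] at hp
  obtain ⟨⟨p1, p2⟩, p3⟩ := hp
  have c1 : ∀ i < 9, s i = true → 0 ≤ (h i).1 ∧ 0 ≤ (h i).2.1 ∧ 0 ≤ (h i).2.2 := by
    intro i hi ht
    rcases p1 i hi with h0 | h0
    · rw [ht] at h0; exact absurd h0 (by simp)
    · exact ⟨h0.1.1, h0.1.2, h0.2⟩
  have c2 : ∀ i, s i = false → (h i).1 ≤ 0 ∧ (h i).2.1 ≤ 0 ∧ (h i).2.2 ≤ 0 := by
    intro i ht
    simp only [hs, lab, Bool.or_eq_false_iff, decide_eq_false_iff_not, not_lt] at ht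
    exact ⟨ht.1.1, ht.1.2, ht.2⟩
  have hs1 : ∀ i < 9, s i = true → 0 ≤ dot u (v i) := by
    intro i hi ht
    obtain ⟨k1, k2, k3⟩ := c1 i hi ht
    rw [hd, lin]
    have : (0 : ℝ) ≤ (h i).1 := by exact_mod_cast k1
    have : (0 : ℝ) ≤ (h i).2.1 := by exact_mod_cast k2
    have : (0 : ℝ) ≤ (h i).2.2 := by exact_mod_cast k3
    positivity
  have hs2 : ∀ i < 9, s i = false → dot u (v i) ≤ 0 := by
    intro i hi ht
    obtain ⟨k1, k2, k3⟩ := c2 i ht
    rw [hd, lin]
    have : ((h i).1 : ℝ) ≤ 0 := by exact_mod_cast k1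
    have : ((h i).2.1 : ℝ) ≤ 0 := by exact_mod_cast k2
    have : ((h i).2.2 : ℝ) ≤ 0 := by exact_mod_cast k3
    nlinarith
  have hpos : ∀ x y, x < 9 → s x = true → s y = false → (h x).2.2 - (h y).2.2 ≠ 0 →
      0 < lin a b (h x) - lin a b (h y) := by
    intro x y hx sx sy hne
    obtain ⟨k1, k2, k3⟩ := c1 x hx sx
    obtain ⟨k4, k5, k6⟩ := c2 y sy
    have : (0 : ℝ) ≤ (h x).1 - (h y).1 := by exact_mod_cast (by linarith)
    have : (0 : ℝ) ≤ (h x).2.1 - (h y).2.1 := by exact_mod_cast (by linarith)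
    have : (0 : ℝ) < (h x).2.2 - (h y).2.2 := by
      exact_mod_cast lt_of_le_of_ne (by linarith) hne.symm
    unfold lin
    nlinarith
  have hne : ∀ e ∈ crossL s, lin a b (dl h e) ≠ 0 := by
    intro e he
    have k0 := p2 e he
    rw [crossL, List.mem_filter, bne_iff_ne] at he
    obtain ⟨k1, k2⟩ := fE9 e he.1
    rw [dl, lin_sub]
    simp only [dl, subI] at k0
    cases h1 : s e.1 <;> cases h2 : s e.2
    · exact absurd (h1.trans h2.symm) he.2
    · have := hpos e.2 e.1 k2 h2 h1 (fun h => k0 (by linarith))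
      linarith
    · exact (hpos e.1 e.2 k1 h1 h2 k0).ne'
    · exact absurd (h1.trans h2.symm) he.2
  have hne' : ∀ x y, key x y ∈ EL → s x ≠ s y → lin a b (h x) - lin a b (h y) ≠ 0 := by
    intro x y k1 k2 k3
    have := key_sq a b h x y
    rw [k3] at this
    exact hne _ (key_mem k1 k2) (by simpa using this)
  have hu : u ≠ 0 := by
    intro h0
    obtain ⟨e, he⟩ := List.exists_mem_of_ne_nil _ p3
    apply hne e he
    rw [dl, lin_sub, ← hd, ← hd, h0]; simp [dot]
  have hf := formula hu hs1 hs2 (fun j r k => by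
    rw [hd, hd]; exact sub_ne_zero.mp (hne' _ _ (fE j r).1 k)) hZ
  rw [poly, ev_poly, fFL, List.map_ofFn, List.sum_ofFn]
  have hterm : ∀ j, ev2 a b (faceP h s w (F j)) =
      ((crossL s).map fun e => lin a b (dl h e) ^ 2).prod * dot (toE w) (mterm s u (F j)) := by
    intro j
    by_cases hm : mixed s (F j) = true
    · obtain ⟨r, e, k1, k2⟩ := odd_spec s j hm
      obtain ⟨f1, f2, f3⟩ := fE j r
      have m1 := key_mem f1 k1
      have m2 := (List.mem_erase_of_ne f3).mpr (key_mem f2 (k2 ▸ k1))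
      have q1 := ((List.perm_cons_erase m1).map fun e => lin a b (dl h e) ^ 2).prod_eq
      have q2 := ((List.perm_cons_erase m2).map fun e => lin a b (dl h e) ^ 2).prod_eq
      rw [List.map_cons, List.prod_cons] at q1 q2
      rw [q2, key_sq, key_sq] at q1
      have n1 := hne' _ _ f1 k1
      have n2 := hne' _ _ f2 (k2 ▸ k1)
      have habs : |dot u (v (A j r))| =
          ((if s (A j r) then 1 else -1 : ℤ) : ℝ) * dot u (v (A j r)) := by
        cases hsa : s (A j r)
        · simp [abs_of_nonpos (hs2 _ (fA9 j r) hsa)]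
        · simp [abs_of_nonneg (hs1 _ (fA9 j r) hsa)]
      have hdt : ∀ x y z : E3, ∀ t : ℝ, dot x (t • (y + z)) = t * (dot x y + dot x z) := by
        intro x y z t; simp [dot]; ring
      have hcp : ∀ x y z : E3, dot x (cp u y z) =
          (dot u y - dot u z)⁻¹ * (dot u y * dot x z - dot u z * dot x y) := by
        intro x y z; simp only [cp, dot, PiLp.smul_apply, PiLp.sub_apply, smul_eq_mul]; ring
      simp only [faceP, mterm, if_pos hm, e, triP, ev_cof, cub, ev2_mulLin, ev2_add, lin_sub,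
        lin_sm, ev2, ev1, term, hdt, hcp, habs]
      rw [q1, hd, hd, hd]
      simp only [v, det_toE, dot_toE]
      push_cast
      field_simp
      ring
    · simp [faceP, mterm, hm, ev2, dot]
  simp only [Function.comp, hterm]
  rw [← Finset.mul_sum]
  have : ∑ j, dot (toE w) (mterm s u (F j)) = dot (toE w) (∑ j, mterm s u (F j)) := by
    simp only [← inner_eq_dot, inner_sum]
  rw [this, hf]; simp [dot]

end Pool.Agent.H3.Cen
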