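import Mathlib
import Pool.Agent.H3.Cen5

namespace Pool.Agent.H3.Cen

def z1 (b : ℤ) : List ℤ → ℤ
  | [] => 0
  | x :: p => x + b * z1 b p

def z2 (a b : ℤ) : P → ℤ
  | [] => 0
  | r :: p => z1 b r + a * z2 a b p

theorem z1_cast (b : ℤ) : ∀ p, (z1 b p : ℝ) = ev1 b p
  | [] => by simp [z1, ev1]
  | x :: p => by simp only [z1, ev1, ← z1_cast b p]; push_cast; ring

theorem z2_cast (a b : ℤ) : ∀ p, (z2 a b p : ℝ) = ev2 a b p
  | [] => by simp [z2, ev2]
  | x :: p => by simp only [z2, ev2, ← z2_cast a b p, ← z1_cast]; push_cast; ring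

theorem z2_eq (a b : ℤ) : ∀ p : P, z2 a b p = z1 a (p.map (z1 b))
  | [] => rfl
  | x :: p => by simp only [z2, List.map_cons, z1, z2_eq a b p]

def linZ (a b : ℤ) (l : I3) : ℤ := l.1 * a + l.2.1 * b + l.2.2
def nl (b : ℤ) (l : I3) : ℤ := l.1.natAbs + l.2.1.natAbs * b + l.2.2.natAbs

def n1 (b : ℤ) : List ℤ → ℤ
  | [] => 0
  | x :: p => |x| + b * n1 b p

def n2 (b : ℤ) : P → ℤ
  | [] => 0
  | r :: p => n1 b r + n2 b p

section
variable {b : ℤ} (hb : 0 ≤ b)
include hb

theorem n1_nonneg : ∀ p, 0 ≤ n1 b p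
  | [] => le_rfl
  | x :: p => add_nonneg (abs_nonneg x) (mul_nonneg hb (n1_nonneg p))

theorem n2_nonneg : ∀ p, 0 ≤ n2 b p
  | [] => le_rfl
  | x :: p => add_nonneg (n1_nonneg hb x) (n2_nonneg p)

theorem n1_add : ∀ p q, n1 b (addL p q) ≤ n1 b p + n1 b q
  | [], q => by simp [addL, n1]
  | x :: p, [] => by simp [addL, n1]
  | x :: p, y :: q => by
    have := mul_le_mul_of_nonneg_left (n1_add p q) hb
    have := abs_add_le x y
    simp only [addL, n1]; linarith

theorem n2_add : ∀ p q, n2 b (addP p q) ≤ n2 b p + n2 b q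
  | [], q => by simp [addP, n2]
  | x :: p, [] => by simp [addP, n2]
  | x :: p, y :: q => by
    have := n2_add p q
    have := n1_add hb x y
    simp only [addP, n2]; linarith

theorem z1_le : ∀ p, |z1 b p| ≤ n1 b p
  | [] => by simp [z1, n1]
  | x :: p => by
    have := mul_le_mul_of_nonneg_left (z1_le p) hb
    have h2 := abs_add_le x (b * z1 b p)
    rw [abs_mul, abs_of_nonneg hb] at h2
    simp only [z1, n1]; linarith

theorem n1_le_n2 : ∀ p : P, ∀ r ∈ p, n1 b r ≤ n2 b p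
  | [], _, h => by simp at h
  | x :: p, r, h => by
    have := n2_nonneg hb p
    have := n1_nonneg hb x
    rcases List.mem_cons.mp h with rfl | h
    · simp only [n2]; linarith
    · have := n1_le_n2 p r h
      simp only [n2]; linarith

end

theorem abs_le_n1 : ∀ p : List ℤ, ∀ x ∈ p, |x| ≤ n1 1 p
  | [], _, h => by simp at h
  | y :: p, x, h => by
    have := n1_nonneg zero_le_one p
    have := abs_nonneg y
    rcases List.mem_cons.mp h with rfl | h
    · simp only [n1]; linarith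
    · have := abs_le_n1 p x h
      simp only [n1]; linarith

theorem n1_sm (b k : ℤ) : ∀ p, n1 b (smL k p) = |k| * n1 b p
  | [] => by simp [smL, n1]
  | x :: p => by
    have := n1_sm b k p
    simp only [smL, List.map_cons, n1, abs_mul] at *
    rw [this]; ring

theorem n2_sm (b k : ℤ) : ∀ p : P, n2 b (p.map (smL k)) = |k| * n2 b p
  | [] => by simp [n2]
  | x :: p => by simp only [List.map_cons, n2, n1_sm, n2_sm b k p]; ring

theorem n2_sh (b k : ℤ) : ∀ p : P, n2 b (p.map fun r => 0 :: smL k r) = |k| * b * n2 b p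
  | [] => by simp [n2]
  | x :: p => by simp only [List.map_cons, n2, n1, n1_sm, n2_sh b k p, abs_zero]; ring

theorem n2_mulLin {b : ℤ} (hb : 0 ≤ b) (l : I3) (p : P) : n2 b (mulLin l p) ≤ nl b l * n2 b p := by
  have e1 := n2_sm b l.2.2 p
  have e2 := n2_sh b l.2.1 p
  have e3 : n2 b ([] :: p.map (smL l.1)) = |l.1| * n2 b p := by simp [n2, n1, n2_sm]
  have a1 := n2_add hb (p.map (smL l.2.2)) (p.map fun r => 0 :: smL l.2.1 r)
  have a2 := n2_add hb (p.map (smL l.2.2)) ([] :: p.map (smL l.1))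
  have a3 := n2_add hb (addP (p.map (smL l.2.2)) (p.map fun r => 0 :: smL l.2.1 r))
    ([] :: p.map (smL l.1))
  unfold mulLin nl
  simp only [Int.natCast_natAbs]
  by_cases h1 : l.1 = 0 <;> by_cases h2 : l.2.1 = 0 <;>
    simp only [h1, h2, if_true, if_false, abs_zero] at * <;> nlinarith

def cofV (φ : I3 → ℤ) (h : ℕ → I3) (L : List (ℕ × ℕ)) (c : ℤ) : ℤ :=
  L.foldr (fun e p => φ (dl h e) * (φ (dl h e) * p)) c
def cubV (φ : I3 → ℤ) (h : ℕ → I3) (w : I3) (k : ℤ) (a b c : ℕ) : ℤ :=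
  φ (h a) * (φ (subI (smI (dotZ w (V b)) (h a)) (smI (dotZ w (V a)) (h b))) *
      (φ (subI (h a) (h c)) * k) +
    φ (subI (smI (dotZ w (V c)) (h a)) (smI (dotZ w (V a)) (h c))) * (φ (subI (h a) (h b)) * k))
def triV (φ : I3 → ℤ) (κ : ℤ → ℤ) (h : ℕ → I3) (s : ℕ → Bool) (w : I3) (g : N3) : ℤ :=
  cofV φ h (((crossL s).erase (key g.1 g.2.1)).erase (key g.1 g.2.2))
    (cubV φ h w (κ (detZ (V g.1) (V g.2.1) (V g.2.2) * if s g.1 then 1 else -1)) g.1 g.2.1 g.2.2)
def polyV (φ : I3 → ℤ) (κ : ℤ → ℤ) (h : ℕ → I3) (s : ℕ → Bool) (w : I3) : ℤ :=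
  FL.foldr (fun f q => (if mixed s f then triV φ κ h s w (odd s f) else 0) + q) 0

theorem rel_poly (Q : P → ℤ → Prop) (φ : I3 → ℤ) (κ : ℤ → ℤ)
    (hm : ∀ l p x, Q p x → Q (mulLin l p) (φ l * x))
    (ha : ∀ p q x y, Q p x → Q q y → Q (addP p q) (x + y)) (hc : ∀ k, Q [[k]] (κ k))
    (h0 : Q [] 0) (h : ℕ → I3) (s : ℕ → Bool) (w : I3) : Q (poly h s w) (polyV φ κ h s w) := by
  have cof : ∀ (c : P) (x : ℤ), Q c x → ∀ L, Q (cofP h L c) (cofV φ h L x) := by
    intro c x hq L
    induction L with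
    | nil => exact hq
    | cons e L ih => exact hm _ _ _ (hm _ _ _ ih)
  unfold poly polyV
  induction FL with
  | nil => exact h0
  | cons f L ih =>
    refine ha _ _ _ _ ?_ ih
    unfold faceP
    split_ifs
    · exact cof _ _ (hm _ _ _ (ha _ _ _ _ (hm _ _ _ (hm _ _ _ (hc _)))
        (hm _ _ _ (hm _ _ _ (hc _))))) _
    · exact h0

theorem val_poly (a b : ℤ) (h : ℕ → I3) (s : ℕ → Bool) (w : I3) :
    z2 a b (poly h s w) = polyV (linZ a b) id h s w := by
  refine rel_poly (fun p x => z2 a b p = x) _ _ ?_ ?_ ?_ rfl h s w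
  · rintro l p x rfl
    have : (z2 a b (mulLin l p) : ℝ) = ((linZ a b l * z2 a b p : ℤ) : ℝ) := by
      push_cast
      rw [z2_cast, z2_cast, ev2_mulLin]; simp [lin, linZ]
    exact_mod_cast this
  · rintro p q x y rfl rfl
    have : (z2 a b (addP p q) : ℝ) = ((z2 a b p + z2 a b q : ℤ) : ℝ) := by
      push_cast
      rw [z2_cast, z2_cast, z2_cast, ev2_add]
    exact_mod_cast this
  · intro k; simp [z2, z1]

def absZ (k : ℤ) : ℤ := k.natAbs

theorem nrm_poly {b : ℤ} (hb : 0 ≤ b) (h : ℕ → I3) (s : ℕ → Bool) (w : I3) :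
    n2 b (poly h s w) ≤ polyV (nl b) absZ h s w := by
  refine rel_poly (fun p x => n2 b p ≤ x) _ _ ?_ ?_ ?_ le_rfl h s w
  · intro l p x hx
    exact (n2_mulLin hb l p).trans (mul_le_mul_of_nonneg_left hx (by unfold nl; positivity))
  · intro p q x y hx hy
    exact (n2_add hb p q).trans (add_le_add hx hy)
  · intro k; simp [n2, n1, absZ]

def chkD (B : ℤ) (Pd : ℤ → Bool) : ℕ → ℤ → Bool
  | 0, n => decide (n = 0)
  | f + 1, n => decide (n = 0) || (decide (2 * (n % B) < B) && Pd (n % B) && chkD B Pd f (n / B))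

theorem dig_step {B x y : ℤ} (hB : 0 < B) (hx : 2 * |x| < B) (h : 2 * ((x + B * y) % B) < B) :
    (x + B * y) % B = x ∧ (x + B * y) / B = y := by
  have hx' : -B < 2 * x ∧ 2 * x < B := by
    constructor <;> cases abs_cases x <;> linarith
  rw [Int.add_mul_emod_self_left] at h ⊢
  rcases le_or_gt 0 x with h0 | h0
  · have e := Int.emod_eq_of_lt h0 (show x < B by linarith)
    refine ⟨e, ?_⟩
    rw [Int.add_mul_ediv_left _ _ hB.ne', Int.ediv_eq_zero_of_lt h0 (by linarith), zero_add]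
  · exfalso
    have e := Int.emod_eq_of_lt (show 0 ≤ x + B by linarith) (show x + B < B by linarith)
    rw [Int.add_emod_right] at e
    linarith

theorem dig_zero {B : ℤ} (hB : 0 < B) : ∀ c : List ℤ, (∀ x ∈ c, 2 * |x| < B) → z1 B c = 0 →
    ∀ x ∈ c, x = 0
  | [], _, _ => by simp
  | x :: c, h, hz => by
    have := dig_step (y := z1 B c) hB (h x List.mem_cons_self)
      (by rw [show x + B * z1 B c = 0 from hz]; simpa using hB)
    rw [show x + B * z1 B c = 0 from hz] at this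
    simp only [Int.zero_emod, Int.zero_ediv] at this
    intro y hy
    rcases List.mem_cons.mp hy with rfl | hy
    · exact this.1.symm
    · exact dig_zero hB c (fun z hz => h z (List.mem_cons_of_mem _ hz)) this.2.symm y hy

theorem dig_sound {B : ℤ} (hB : 0 < B) {Pd : ℤ → Bool} (h0 : Pd 0 = true) :
    ∀ (f : ℕ) (c : List ℤ), (∀ x ∈ c, 2 * |x| < B) → chkD B Pd f (z1 B c) = true →
      (∀ x ∈ c, 0 ≤ x ∧ Pd x = true) ∧ c.headD 0 = z1 B c % B := by
  have zero : ∀ c : List ℤ, (∀ x ∈ c, 2 * |x| < B) → z1 B c = 0 →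
      (∀ x ∈ c, 0 ≤ x ∧ Pd x = true) ∧ c.headD 0 = z1 B c % B := by
    intro c h hz
    have := dig_zero hB c h hz
    refine ⟨fun x hx => by rw [this x hx]; exact ⟨le_rfl, h0⟩, ?_⟩
    rw [hz]
    cases c with
    | nil => simp
    | cons x c => simpa using this x List.mem_cons_self
  intro f
  induction f with
  | zero => intro c h hc; exact zero c h (by simpa [chkD] using hc)
  | succ f ih =>
    intro c h hc
    simp only [chkD, Bool.or_eq_true, Bool.and_eq_true, decide_eq_true_eq] at hc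
    rcases hc with hc | ⟨⟨k1, k2⟩, k3⟩
    · exact zero c h hc
    cases c with
    | nil => exact zero [] h rfl
    | cons x c =>
      have st := dig_step (y := z1 B c) hB (h x List.mem_cons_self) k1
      change (x + B * z1 B c) % B = x ∧ _ at st
      simp only [z1] at k2 k3 ⊢
      rw [st.1] at k2 ⊢
      rw [st.2] at k3
      refine ⟨fun y hy => ?_, rfl⟩
      rcases List.mem_cons.mp hy with rfl | hy
      · exact ⟨st.1 ▸ Int.emod_nonneg _ hB.ne', k2⟩
      · exact (ih c (fun z hz => h z (List.mem_cons_of_mem _ hz)) k3).1 y hy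

def kron3 (A B n : ℤ) : Bool :=
  chkD A (chkD B (fun _ => true) 40) 40 n && decide (0 < n % A % B)
def kron2 (h : ℕ → I3) (s : ℕ → Bool) (w : I3) (A B : ℤ) : Bool :=
  kron3 A B (polyV (linZ A B) id h s w)
def kron1 (h : ℕ → I3) (s : ℕ → Bool) (w : I3) (B : ℤ) : Bool :=
  kron2 h s w (2 * polyV (nl B) absZ h s w + 1) B
def kron (h : ℕ → I3) (s : ℕ → Bool) (w : I3) : Bool :=
  kron1 h s w (2 * polyV (nl 1) absZ h s w + 1)

theorem kron_sound {h : ℕ → I3} {s : ℕ → Bool} {w : I3} (hk : kron h s w = true) :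
    posP (poly h s w) = true := by
  unfold kron kron1 kron2 kron3 at hk
  have b1 := nrm_poly zero_le_one h s w
  have b0 := n2_nonneg zero_le_one (poly h s w)
  set B := 2 * polyV (nl 1) absZ h s w + 1
  have hB : 0 < B := by linarith
  have a1 := nrm_poly hB.le h s w
  have a0 := n2_nonneg hB.le (poly h s w)
  set A := 2 * polyV (nl B) absZ h s w + 1
  have hA : 0 < A := by linarith
  rw [← val_poly, z2_eq, Bool.and_eq_true, decide_eq_true_eq] at hk
  set p := poly h s w
  obtain ⟨k1, k2⟩ := dig_sound hA (Pd := chkD B (fun _ => true) 40) (by simp [chkD]) 40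
    (p.map (z1 B)) (by
      intro x hx
      obtain ⟨r, hr, rfl⟩ := List.mem_map.mp hx
      have := z1_le hB.le r
      have := n1_le_n2 hB.le p r hr
      linarith) hk.1
  have row : ∀ r ∈ p, (∀ x ∈ r, 0 ≤ x) ∧ r.headD 0 = z1 B r % B := by
    intro r hr
    have := dig_sound hB (Pd := fun _ => true) rfl 40 r (by
      intro x hx
      have := abs_le_n1 r x hx
      have := n1_le_n2 zero_le_one p r hr
      linarith) (k1 _ (List.mem_map_of_mem hr)).2
    exact ⟨fun x hx => (this.1 x hx).1, this.2⟩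
  simp only [posP, Bool.and_eq_true, List.all_eq_true, decide_eq_true_eq]
  refine ⟨fun r hr => (row r hr).1, ?_⟩
  have k3 := hk.2
  rw [← k2] at k3
  cases hp : p with
  | nil => simp [hp] at k3
  | cons r q =>
    rw [hp] at k3 row
    rw [List.headD_cons, (row r List.mem_cons_self).2]
    simpa using k3

end Pool.Agent.H3.Cen
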