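import Mathlib
import Pool.Agent.H3.Cen5b

open MeasureTheory Set

namespace Pool.Agent.H3.Cen

def AP : Fin 3 → I3 := ![(0, 17, 41), (0, 1, 0), (0, 5, -3)]
def AQ : Fin 3 → I3 := ![(0, 1, 13), (0, 61, 41), (0, 0, -1)]
def AW : Fin 3 → I3 := ![(0, -1, 0), (0, 0, -1), (0, -1, 0)]

def InArc (k : Fin 3) (u : E3) : Prop :=
  ∃ a c : ℝ, 0 ≤ a ∧ 0 < c ∧ u = a • toE (AP k) + c • toE (AQ k)

def Good (u : E3) : Prop := Z u → u = 0 ∨ ∃ k, InArc k u ∨ InArc k (-u)

def Cov (r1 r2 r3 : I3) : Prop :=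
  ∀ a b c : ℝ, 0 ≤ a → 0 ≤ b → 0 ≤ c → Good (a • toE r1 + b • toE r2 + c • toE r3)

theorem Z_smul {u : E3} {t : ℝ} (ht : t ≠ 0) (h : Z (t • u)) : Z u := by
  have : {x | dot (t • u) x = 0} = {x | dot u x = 0} := by
    ext x
    have : dot (t • u) x = t * dot u x := by simp [dot]; ring
    simp [this, ht]
  unfold Z at *
  rwa [this] at h

def O : I3 := (0, 0, 0)

theorem toE_O : toE O = 0 := by ext i; fin_cases i <;> simp [toE, O]

def leafOK (w r1 r2 r3 : I3) : Bool :=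
  pre (hv r1 r2 r3) (lab (hv r1 r2 r3)) && kron (hv r1 r2 r3) (lab (hv r1 r2 r3)) w

theorem cov_leaf {w r1 r2 r3 : I3} (h : leafOK w r1 r2 r3 = true) (h2 : Cov r1 O r2) :
    Cov r1 r2 r3 := by
  intro a b c ha hb hc
  rcases hc.lt_or_eq with hc | hc
  · intro hZ
    exfalso
    rw [leafOK, Bool.and_eq_true] at h
    have e : a • toE r1 + b • toE r2 + c • toE r3 =
        c • ((a / c) • toE r1 + (b / c) • toE r2 + toE r3) := by
      rw [smul_add, smul_add, smul_smul, smul_smul, mul_div_cancel₀ _ hc.ne',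
        mul_div_cancel₀ _ hc.ne']
    rw [e] at hZ
    have k1 := div_nonneg ha hc.le
    have k2 := div_nonneg hb hc.le
    exact (posP_sound k1 k2 (kron_sound h.2)).ne' (key_ev k1 k2 r1 r2 r3 w h.1 (Z_smul hc.ne' hZ))
  · have := h2 a 0 b ha le_rfl hb
    rw [← hc]
    simpa using this

theorem cov_zero : Cov O O O := by
  intro a b c _ _ _ _
  left; simp [toE_O]

theorem cov_rot {r1 r2 r3 : I3} (h : Cov r2 r3 r1) : Cov r1 r2 r3 := by
  intro a b c ha hb hc
  have := h b c a hb hc ha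
  rwa [show b • toE r2 + c • toE r3 + a • toE r1 = a • toE r1 + b • toE r2 + c • toE r3 by abel]
    at this

theorem cov_swap {r1 r2 r3 : I3} (h : Cov r3 r2 r1) : Cov r1 r2 r3 := by
  intro a b c ha hb hc
  have := h c b a hc hb ha
  rwa [show c • toE r3 + b • toE r2 + a • toE r1 = a • toE r1 + b • toE r2 + c • toE r3 by abel]
    at this

def splitOK (l m g : ℤ) (p r1 r3 : I3) : Bool :=
  decide (0 < l) && decide (0 < m) && decide (0 < g) && decide (g * p.1 = l * r1.1 + m * r3.1) &&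
    decide (g * p.2.1 = l * r1.2.1 + m * r3.2.1) && decide (g * p.2.2 = l * r1.2.2 + m * r3.2.2)

theorem cov_split {l m g : ℤ} {p r1 r2 r3 : I3} (h : splitOK l m g p r1 r3 = true)
    (h1 : Cov p r2 r3) (h2 : Cov r1 r2 p) : Cov r1 r2 r3 := by
  simp only [splitOK, Bool.and_eq_true, decide_eq_true_eq] at h
  obtain ⟨⟨⟨⟨⟨k1, k2⟩, k3⟩, k4⟩, k5⟩, k6⟩ := h
  have hl : (0 : ℝ) < l := by exact_mod_cast k1
  have hm : (0 : ℝ) < m := by exact_mod_cast k2
  have hg : (0 : ℝ) < g := by exact_mod_cast k3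
  have e : (g : ℝ) • toE p = (l : ℝ) • toE r1 + (m : ℝ) • toE r3 := by
    ext i
    fin_cases i <;> simp [toE] <;> norm_cast
  intro a b c ha hb hc
  rcases le_total (a / l) (c / m) with hh | hh
  · have := h1 (a / l * g) b (c - a / l * m) (by positivity) hb
      (by rw [le_div_iff₀ hm] at hh; linarith)
    rw [mul_smul, e, smul_add, smul_smul, smul_smul, div_mul_cancel₀ _ hl.ne', sub_smul] at this
    convert this using 1
    abel
  · have := h2 (a - c / m * l) b (c / m * g) (by rw [le_div_iff₀ hl] at hh; linarith) hb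
      (by positivity)
    rw [mul_smul (c / m), e, smul_add, smul_smul, smul_smul, div_mul_cancel₀ _ hm.ne',
      sub_smul] at this
    convert this using 1
    abel

def negI (a : I3) : I3 := (-a.1, -a.2.1, -a.2.2)

theorem toE_neg (a : I3) : toE (negI a) = - toE a := by
  ext i; fin_cases i <;> simp [toE, negI]

theorem cov_arc (k : Fin 3) (h : Cov (AP k) O O) : Cov (AP k) O (AQ k) := by
  intro a b c ha hb hc
  rcases hc.lt_or_eq with hc | hc
  · intro _
    exact Or.inr ⟨k, Or.inl ⟨a, c, ha, hc, by simp [toE_O]⟩⟩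
  · have := h a 0 0 ha le_rfl le_rfl
    rw [← hc]
    simpa [toE_O] using this

theorem cov_arc' (k : Fin 3) (h : Cov (negI (AP k)) O O) : Cov (negI (AP k)) O (negI (AQ k)) := by
  intro a b c ha hb hc
  rcases hc.lt_or_eq with hc | hc
  · intro _
    exact Or.inr ⟨k, Or.inr ⟨a, c, ha, hc, by simp [toE_O, toE_neg, add_comm]⟩⟩
  · have := h a 0 0 ha le_rfl le_rfl
    rw [← hc]
    simpa [toE_O] using this

inductive T
  | zero : T
  | leaf : I3 → T → T
  | split : ℤ → ℤ → ℤ → I3 → T → T → T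
  | rot : T → T
  | swap : T → T
  | arc : Fin 3 → T → T
  | arcn : Fin 3 → T → T

def chk : T → I3 → I3 → I3 → Bool
  | .zero, r1, r2, r3 => decide (r1 = O) && decide (r2 = O) && decide (r3 = O)
  | .leaf w t, r1, r2, r3 => leafOK w r1 r2 r3 && chk t r1 O r2
  | .split l m g p t1 t2, r1, r2, r3 => splitOK l m g p r1 r3 && chk t1 p r2 r3 && chk t2 r1 r2 p
  | .rot t, r1, r2, r3 => chk t r2 r3 r1
  | .swap t, r1, r2, r3 => chk t r3 r2 r1
  | .arc k t, r1, r2, r3 =>
      decide (r1 = AP k) && decide (r2 = O) && decide (r3 = AQ k) && chk t (AP k) O O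
  | .arcn k t, r1, r2, r3 => decide (r1 = negI (AP k)) && decide (r2 = O) &&
      decide (r3 = negI (AQ k)) && chk t (negI (AP k)) O O

theorem chk_sound : ∀ (t : T) (r1 r2 r3 : I3), chk t r1 r2 r3 = true → Cov r1 r2 r3
  | .zero, r1, r2, r3, h => by
    simp only [chk, Bool.and_eq_true, decide_eq_true_eq] at h
    obtain ⟨⟨rfl, rfl⟩, rfl⟩ := h
    exact cov_zero
  | .leaf w t, r1, r2, r3, h => by
    simp only [chk, Bool.and_eq_true] at h
    exact cov_leaf h.1 (chk_sound t _ _ _ h.2)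
  | .split l m g p t1 t2, r1, r2, r3, h => by
    simp only [chk, Bool.and_eq_true] at h
    exact cov_split h.1.1 (chk_sound t1 _ _ _ h.1.2) (chk_sound t2 _ _ _ h.2)
  | .rot t, r1, r2, r3, h => cov_rot (chk_sound t _ _ _ h)
  | .swap t, r1, r2, r3, h => cov_swap (chk_sound t _ _ _ h)
  | .arc k t, r1, r2, r3, h => by
    simp only [chk, Bool.and_eq_true, decide_eq_true_eq] at h
    obtain ⟨⟨⟨rfl, rfl⟩, rfl⟩, h⟩ := h
    exact cov_arc k (chk_sound t _ _ _ h)
  | .arcn k t, r1, r2, r3, h => by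
    simp only [chk, Bool.and_eq_true, decide_eq_true_eq] at h
    obtain ⟨⟨⟨rfl, rfl⟩, rfl⟩, h⟩ := h
    exact cov_arc' k (chk_sound t _ _ _ h)

def arcCol (k : Fin 3) : List ℤ :=
  (poly (hv (AP k) O (AQ k)) (lab (hv (AP k) O (AQ k))) (AW k)).map fun r => r.headD 0

theorem arcs_ok : ∀ k, pre (hv (AP k) O (AQ k)) (lab (hv (AP k) O (AQ k))) = true ∧
    0 < (arcCol k).headD 0 ∧ pat (arcCol k).tail = true := by decide +kernel

theorem arc_zero {k : Fin 3} {a c : ℝ} (ha : 0 ≤ a) (hc : 0 < c)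
    (hZ : Z (a • toE (AP k) + c • toE (AQ k))) : ev1 (a / c) (arcCol k) = 0 := by
  have e : a • toE (AP k) + c • toE (AQ k) =
      c • ((a / c) • toE (AP k) + (0 : ℝ) • toE O + toE (AQ k)) := by
    rw [zero_smul, add_zero, smul_add, smul_smul, mul_div_cancel₀ _ hc.ne']
  rw [e] at hZ
  rw [arcCol, ← ev2_col]
  exact key_ev (div_nonneg ha hc.le) le_rfl _ _ _ _ (arcs_ok k).1 (Z_smul hc.ne' hZ)

theorem arc_uniq {k : Fin 3} {u u' : E3} (h : InArc k u) (h' : InArc k u') (z : Z u) (z' : Z u') :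
    ∃ t : ℝ, t ≠ 0 ∧ u' = t • u := by
  obtain ⟨a, c, ha, hc, rfl⟩ := h
  obtain ⟨a', c', ha', hc', rfl⟩ := h'
  have e := arc_zero ha hc z
  have e' := arc_zero ha' hc' z'
  obtain ⟨-, k1, k2⟩ := arcs_ok k
  have : a / c = a' / c' := by
    rcases lt_trichotomy (a / c) (a' / c') with h | h | h
    · exact (pat_uniq (div_nonneg ha hc.le) h k1 k2 e e').elim
    · exact h
    · exact (pat_uniq (div_nonneg ha' hc'.le) h k1 k2 e' e).elim
  refine ⟨c' / c, (div_pos hc' hc).ne', ?_⟩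
  rw [smul_add, smul_smul, smul_smul, div_mul_cancel₀ _ hc.ne']
  congr 2
  field_simp at this ⊢
  linarith

end Pool.Agent.H3.Cen
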