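import Mathlib
import Pool.Agent.H3.Cen6

namespace Pool.Agent.H3.Cen

theorem c0 : chk
    (.rot (.rot (.swap (.split 2617111 224855311 13120862 (68, 2617111, 34022443) (.rot (.rot
    (.swap (.split 2617111 15879201 13120862 (5, 0, 2617111) (.rot (.rot (.swap (.split 68361
    8437007 2617111 (5, 68361, 888693) (.rot (.rot (.swap (.split 2460996 32185907 2617111 (17,
    0, 2460996) (.rot (.leaf (0, -4, -1) (.swap (.leaf (0, -1, 0) (.swap (.leaf (0, -1, 0)
    .zero)))))) (.leaf (0, -1, 0) (.leaf (0, -1, 0) (.swap (.leaf (0, -1, 0) .zero)))))))) (.rot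
    (.swap (.leaf (0, -1, 0) (.leaf (0, -1, 0) (.swap (.leaf (0, -1, 0) .zero)))))))))) (.leaf
    (1, -1363080, 0) (.leaf (1, -1363080, 0) (.swap (.leaf (1, -1363080, -340770) .zero))))))))
    (.leaf (1, -1363080, 0) (.leaf (1, -1363080, 0) (.swap (.leaf (1, -1363080, 0) .zero))))))))
    (19, 0, 13120862) (255, 13120862, 170571206) (1, 0, 0) = true := by decide +kernel

theorem c1 : chk
    (.rot (.leaf (1, -1363080, 0) (.leaf (1, -1363080, 0) (.swap (.leaf (1, -1363080, 0)
    .zero)))))
    (0, 0, 1) (255, 13120862, 170571206) (19, 0, 13120862) = true := by decide +kernel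

theorem c2 : chk
    (.rot (.leaf (1, -1363080, 0) (.swap (.leaf (1, -1363080, 0) (.swap (.leaf (1, -1363080, 0)
    .zero))))))
    (0, 1, 13) (0, 0, 1) (255, 13120862, 170571206) = true := by decide +kernel

theorem c3 : chk
    (.rot (.rot (.swap (.split 180 41 13 (0, 17, 41) (.rot (.swap (.leaf (1, 0, 0) (.arc 0
    (.swap (.leaf (0, 2, -1) .zero)))))) (.rot (.swap (.split 2989309140 41 1 (10455,
    3527264482, 6993419446) (.split 9634451 285885702 16607273 (10455, 2272156522, 6993419446)
    (.leaf (1, 0, -340770) (.leaf (0, 2, -1) (.swap (.leaf (1, 1363080, -681540) .zero)))) (.rot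
    (.leaf (0, 2, -1) (.leaf (0, 2, -1) (.swap (.leaf (0, 2, -1) .zero)))))) (.rot (.swap
    (.split 44 1 1 (0, 61, 41) (.leaf (0, 1, -1) (.leaf (0, 1, -1) (.swap (.leaf (0, 2, -3)
    .zero)))) (.rot (.swap (.leaf (-1, 0, 0) (.arc 1 (.swap (.leaf (0, 0, 1)
    .zero))))))))))))))))
    (255, 13120862, 170571206) (0, 1, 0) (0, 1, 13) = true := by decide +kernel

theorem c4 : chk
    (.rot (.swap (.split 2989309140 259133687 85285603 (915, 269813578, 518267374) (.rot (.rot
    (.swap (.split 2989309140 41 1 (10455, 3527264482, 6993419446) (.rot (.rot (.swap (.split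
    9634451 25020126 83036365 (183, 35259146, 111528662) (.rot (.rot (.swap (.split 9634451
    285885702 16607273 (10455, 2272156522, 6993419446) (.leaf (1, 0, -340770) (.leaf (1,
    1022310, -681540) (.swap (.leaf (1, 1363080, -681540) .zero)))) (.rot (.leaf (1, 1363080,
    -681540) (.leaf (1, 1022310, -681540) (.swap (.leaf (1, 1022310, -681540) .zero)))))))))
    (.rot (.leaf (0, 2, -1) (.swap (.leaf (1, 1363080, -681540) (.swap (.leaf (1, 1022310,
    -681540) .zero)))))))))) (.leaf (-1, 227180, 113590) (.leaf (-1, 227180, 113590) (.swap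
    (.leaf (0, 0, 1) .zero)))))))) (.leaf (-1, 227180, 113590) (.leaf (-1, 0, 681540) (.swap
    (.leaf (-1, 113590, 340770) .zero)))))))
    (4, 6560431, 0) (255, 13120862, 170571206) (0, 1, 0) = true := by decide +kernel

theorem c5 : chk
    (.rot (.swap (.split 1006121039 99918563 518267374 (256, 56795867, 99918563) (.leaf (-1,
    511155, 170385) (.leaf (-1, 227180, 113590) (.swap (.leaf (-1, 681540, 0) .zero)))) (.rot
    (.swap (.split 9212849 99918563 259133687 (3, 2617111, 0) (.leaf (-1, 227180, 113590) (.swap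
    (.leaf (-1, 340770, 113590) (.swap (.leaf (-1, 681540, 0) .zero))))) (.rot (.leaf (-9,
    -624745, -1874235) (.leaf (-1, 340770, 113590) (.swap (.leaf (-1, 681540, 0)
    .zero)))))))))))
    (41, 2460996, 0) (915, 269813578, 518267374) (4, 6560431, 0) = true := by decide +kernel

theorem c6 : chk
    (.rot (.rot (.swap (.split 99918563 1006121039 518267374 (256, 56795867, 99918563) (.rot
    (.leaf (-1, 0, -1363080) (.leaf (0, -4, -1) (.swap (.leaf (0, -1, 0) .zero))))) (.rot (.swap
    (.split 373873 143731577 2 (242912686, 50438005923797, 96883088959751) (.rot (.leaf (-1, 0,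
    -1363080) (.swap (.leaf (-1, 0, -1363080) (.swap (.leaf (0, -1, 0) .zero)))))) (.rot (.leaf
    (-1, 1363080, -340770) (.leaf (-1, 681540, 0) (.swap (.leaf (-1, 681540, 0)
    .zero))))))))))))
    (1, 0, 0) (915, 269813578, 518267374) (41, 2460996, 0) = true := by decide +kernel

theorem c7 : chk
    (.rot (.rot (.swap (.split 68361 8437007 2617111 (5, 68361, 888693) (.rot (.leaf (-1, 0,
    -1363080) (.swap (.leaf (-1, 0, -1363080) (.swap (.leaf (0, -1, 0) .zero)))))) (.rot (.swap
    (.split 2978809588173 888106 1633950257455 (256, 32185907, 114684539) (.leaf (0, 0, -1)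
    (.leaf (1, -170385, -511155) (.swap (.leaf (1, 1022310, -681540) .zero)))) (.leaf (1,
    -170385, -511155) (.leaf (0, -1, 0) (.swap (.leaf (0, -1, 0) .zero)))))))))))
    (242912686, 50438005923797, 96883088959751) (68, 2617111, 34022443) (1, 0, 0) = true := by decide +kernel

theorem c8 : chk
    (.rot (.rot (.swap (.split 2978809588173 888106 1633950257455 (256, 32185907, 114684539)
    (.leaf (0, 4, -1) (.leaf (0, 4, -1) (.swap (.leaf (1, 1022310, -681540) .zero)))) (.rot
    (.swap (.split 125100630 8437007 1 (16226704245, 2603821281160976, 8628854515748708) (.leaf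
    (0, 4, -1) (.leaf (1, 1363080, -340770) (.swap (.leaf (1, 1363080, -681540) .zero)))) (.rot
    (.swap (.leaf (1, -170385, -681540) (.leaf (1, -170385, -511155) (.swap (.leaf (0, -1, 0)
    .zero)))))))))))))
    (915, 269813578, 518267374) (68, 2617111, 34022443) (242912686, 50438005923797, 96883088959751) = true := by decide +kernel

theorem c9 : chk
    (.rot (.rot (.swap (.split 125100630 8437007 1 (16226704245, 2603821281160976,
    8628854515748708) (.leaf (0, 2, -1) (.swap (.leaf (1, 1022310, -681540) (.swap (.leaf (1,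
    1022310, -681540) .zero))))) (.leaf (1, -170385, -511155) (.split 3 1 1 (387, 43110479,
    213595991) (.swap (.leaf (1, 0, -227180) (.swap (.leaf (1, 1022310, -681540) .zero))))
    (.leaf (1, -1363080, 0) (.swap (.leaf (0, -1, 0) .zero)))))))))
    (183, 35259146, 111528662) (68, 2617111, 34022443) (915, 269813578, 518267374) = true := by decide +kernel

theorem c10 : chk
    (.rot (.rot (.swap (.split 3 1 1 (387, 43110479, 213595991) (.rot (.leaf (1, -113590,
    -340770) (.leaf (1, -113590, -340770) (.swap (.leaf (1, -1363080, 0) .zero))))) (.leaf (1,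
    -1363080, 0) (.split 5 1 1 (595, 26206417, 340683421) (.swap (.leaf (1, -1363080, 0) (.swap
    (.leaf (1, -1363080, 0) .zero)))) (.leaf (0, -1, 0) (.swap (.leaf (0, -1, 0) .zero)))))))))
    (255, 13120862, 170571206) (68, 2617111, 34022443) (183, 35259146, 111528662) = true := by decide +kernel

theorem oct0 : Cov (1, 0, 0) (0, 1, 0) (0, 0, 1) :=
  (cov_rot (cov_rot (cov_swap (cov_split (l := 1) (m := 13) (g := 1) (p := (0, 1, 13)) (by decide +kernel)
  (cov_rot (cov_swap (cov_split (l := 13120862) (m := 255) (g := 1) (p := (255, 13120862, 170571206)) (by decide +kernel)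
  (cov_rot (cov_rot (cov_swap (cov_split (l := 13120862) (m := 19) (g := 1) (p := (19, 0, 13120862)) (by decide +kernel)
  (chk_sound _ _ _ _ c0)
  (chk_sound _ _ _ _ c1)))))
  (chk_sound _ _ _ _ c2))))
  (cov_rot (cov_rot (cov_swap (cov_split (l := 255) (m := 13120862) (g := 1) (p := (255, 13120862, 170571206)) (by decide +kernel)
  (chk_sound _ _ _ _ c3)
  (cov_rot (cov_swap (cov_split (l := 4) (m := 6560431) (g := 1) (p := (4, 6560431, 0)) (by decide +kernel)
  (chk_sound _ _ _ _ c4)
  (cov_rot (cov_rot (cov_swap (cov_split (l := 259133687) (m := 2989309140) (g := 85285603) (p := (915, 269813578, 518267374)) (by decide +kernel)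
  (cov_rot (cov_rot (cov_swap (cov_split (l := 259133687) (m := 2460996) (g := 6560431) (p := (41, 2460996, 0)) (by decide +kernel)
  (chk_sound _ _ _ _ c5)
  (chk_sound _ _ _ _ c6)))))
  (cov_rot (cov_swap (cov_split (l := 2617111) (m := 224855311) (g := 13120862) (p := (68, 2617111, 34022443)) (by decide +kernel)
  (cov_rot (cov_rot (cov_swap (cov_split (l := 373873) (m := 143731577) (g := 2) (p := (242912686, 50438005923797, 96883088959751)) (by decide +kernel)
  (chk_sound _ _ _ _ c7)
  (chk_sound _ _ _ _ c8)))))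
  (cov_rot (cov_swap (cov_split (l := 25020126) (m := 9634451) (g := 83036365) (p := (183, 35259146, 111528662)) (by decide +kernel)
  (chk_sound _ _ _ _ c9)
  (chk_sound _ _ _ _ c10))))))))))))))))))))))

end Pool.Agent.H3.Cen
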