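import Mathlib
import Pool.Agent.H3.Cen6

namespace Pool.Agent.H3.Cen

theorem c11 : chk
    (.rot (.rot (.swap (.split 2460996 2211881557 2617111 (895, 51680916, -4921992) (.rot (.swap
    (.leaf (0, -4, -1) (.leaf (0, -4, -1) (.swap (.leaf (1, -1022310, -681540) .zero))))))
    (.leaf (-2, -170385, -340770) (.leaf (-2, -170385, -170385) (.swap (.leaf (-1, 113590,
    340770) .zero))))))))
    (17, 0, -2460996) (53, 54959331, -5234222) (1, 0, 0) = true := by decide +kernel

theorem c12 : chk
    (.leaf (-2, -170385, -170385) (.leaf (-1, -227180, -227180) (.swap (.leaf (-1, 227180,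
    113590) .zero))))
    (1007, 1044227289, -1135080334) (17, 0, -2460996) (53, 54959331, -5234222) = true := by decide +kernel

theorem c13 : chk
    (.rot (.swap (.split 30903658 5293067 348075763 (17, 15879201, -18425698) (.leaf (-1,
    -227180, -227180) (.leaf (-1, -340770, -340770) (.swap (.leaf (-1, 0, -170385) .zero))))
    (.rot (.swap (.split 2475839 1221477 13561210 (5, 0, -2617111) (.leaf (-1, -511155, -340770)
    (.leaf (-1, -511155, -170385) (.swap (.leaf (0, -1, 0) .zero)))) (.leaf (-1, -511155,
    -170385) (.leaf (-1, -340770, -340770) (.swap (.leaf (-1, -1363080, -340770) .zero))))))))))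
    (19, 0, -13120862) (1007, 1044227289, -1135080334) (17, 0, -2460996) = true := by decide +kernel

theorem c14 : chk
    (.rot (.rot (.swap (.split 5293067 30903658 348075763 (17, 15879201, -18425698) (.leaf (-1,
    -511155, -170385) (.leaf (-1, -511155, -170385) (.swap (.leaf (-1, 0, -170385) .zero))))
    (.rot (.swap (.split 5 92710974 19 (265, 274796655, -303584876) (.leaf (-1, -227180, 0)
    (.leaf (-2, 170385, -170385) (.swap (.leaf (-1, 170385, 0) .zero)))) (.leaf (-2, 170385, 0)
    (.leaf (-2, 170385, 0) (.swap (.leaf (-1, 227180, 113590) .zero)))))))))))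
    (0, 0, -1) (1007, 1044227289, -1135080334) (19, 0, -13120862) = true := by decide +kernel

theorem c15 : chk
    (.rot (.rot (.swap (.split 5 277413766 1 (265, 274796655, -303584876) (.rot (.leaf (-1, 0,
    0) (.arc 2 (.swap (.leaf (0, 2, 3) .zero))))) (.rot (.swap (.split 17 1035630116 53 (17,
    115329419, -60299474) (.rot (.swap (.leaf (-1, 340770, 340770) (.leaf (-1, 681540, 1022310)
    (.swap (.leaf (-1, 340770, 511155) .zero)))))) (.rot (.swap (.split 46355487 517815058
    138706883 (1007, 1044227289, -1135080334) (.rot (.leaf (-1, 227180, 227180) (.leaf (-1,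
    227180, 227180) (.swap (.leaf (-1, 340770, 511155) .zero))))) (.leaf (-1, 227180, 227180)
    (.leaf (-1, 170385, 511155) (.swap (.leaf (-1, 113590, 340770) .zero))))))))))))))
    (0, 5, -3) (53, 54959331, -5234222) (0, 0, -1) = true := by decide +kernel

theorem c16 : chk
    (.split 17 130 53 (0, 19, -8) (.rot (.rot (.swap (.split 17 1035630116 53 (17, 115329419,
    -60299474) (.leaf (-1, 681540, 1022310) (.leaf (-1, 681540, 1022310) (.swap (.leaf (-1,
    340770, 511155) .zero)))) (.rot (.leaf (-1, 681540, 1022310) (.swap (.leaf (-1, 681540,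
    1022310) (.swap (.leaf (-1, 340770, 511155) .zero)))))))))) (.rot (.swap (.split 177590628
    65 53 (65, 137769051, -13120862) (.leaf (-1, 340770, 1022310) (.leaf (-1, 340770, 1363080)
    (.swap (.leaf (-1, 170385, 511155) .zero)))) (.rot (.leaf (-1, 340770, 1363080) (.swap
    (.leaf (-1, 340770, 1363080) (.swap (.leaf (-1, 170385, 511155) .zero))))))))))
    (0, 21, -2) (53, 54959331, -5234222) (0, 5, -3) = true := by decide +kernel

theorem c17 : chk
    (.leaf (-1, 340770, 1363080) (.leaf (-1, 340770, 1363080) (.swap (.leaf (-1, 170385, 511155)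
    .zero))))
    (65, 137769051, -13120862) (0, 47, -4) (0, 21, -2) = true := by decide +kernel

theorem c18 : chk
    (.leaf (-1, 340770, 1363080) (.leaf (-1, 170385, 511155) (.swap (.leaf (-1, 170385, 511155)
    .zero))))
    (150, 308340257, -26241724) (65, 137769051, -13120862) (0, 47, -4) = true := by decide +kernel

theorem c19 : chk
    (.rot (.swap (.split 177590628 2617111 6560431 (53, 54959331, -5234222) (.rot (.leaf (-1,
    170385, 511155) (.leaf (-1, 170385, 511155) (.swap (.leaf (-1, 170385, 511155) .zero)))))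
    (.rot (.swap (.split 401245501 2617111 6560431 (121, 123004217, -10468444) (.rot (.swap
    (.leaf (-1, 170385, 511155) (.leaf (-1, 170385, 511155) (.swap (.leaf (-1, 170385, 511155)
    .zero)))))) (.rot (.swap (.split 2211881557 2460996 2617111 (895, 51680916, -4921992) (.rot
    (.swap (.leaf (-1, 0, -170385) (.leaf (-2, -170385, -340770) (.swap (.leaf (1, -1022310,
    -681540) .zero)))))) (.rot (.swap (.split 1641118643 820332 2617111 (665, 38555604,
    -3281328) (.leaf (-2, -170385, -340770) (.leaf (1, -1022310, -681540) (.swap (.leaf (1,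
    -1022310, -681540) .zero)))) (.leaf (0, -4, -1) (.leaf (0, -4, -1) (.swap (.leaf (0, -1, 0)
    .zero))))))))))))))))
    (1, 0, 0) (65, 137769051, -13120862) (150, 308340257, -26241724) = true := by decide +kernel

theorem c20 : chk
    (.leaf (-1, 0, 1363080) (.leaf (-1, 0, 1363080) (.swap (.leaf (-1, 170385, 511155) .zero))))
    (150, 308340257, -26241724) (0, 1, 0) (0, 47, -4) = true := by decide +kernel

theorem c21 : chk
    (.leaf (-1, 0, 681540) (.leaf (-1, 113590, 340770) (.swap (.leaf (-1, 113590, 340770)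
    .zero))))
    (4, 6560431, 0) (150, 308340257, -26241724) (0, 1, 0) = true := by decide +kernel

theorem c22 : chk
    (.rot (.swap (.split 401245501 2617111 6560431 (121, 123004217, -10468444) (.leaf (-1,
    113590, 340770) (.leaf (-1, 113590, 340770) (.swap (.leaf (-1, 170385, 511155) .zero))))
    (.rot (.swap (.split 9212849 2617111 6560431 (3, 2617111, 0) (.leaf (-1, 113590, 340770)
    (.swap (.leaf (-1, 113590, 340770) (.swap (.leaf (-1, 170385, 511155) .zero))))) (.rot
    (.swap (.split 1641118643 820332 2617111 (665, 38555604, -3281328) (.rot (.leaf (-1, 0,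
    -170385) (.swap (.leaf (-1, 113590, 340770) (.swap (.leaf (-1, 170385, 511155) .zero))))))
    (.rot (.swap (.split 99918563 2460996 2617111 (41, 2460996, 0) (.leaf (-2, -170385, -340770)
    (.swap (.leaf (1, -1363080, -681540) (.swap (.leaf (1, -1022310, -681540) .zero))))) (.leaf
    (0, -4, -1) (.leaf (0, -4, -1) (.swap (.leaf (0, -1, 0) .zero))))))))))))))))
    (1, 0, 0) (150, 308340257, -26241724) (4, 6560431, 0) = true := by decide +kernel

theorem oct1 : Cov (1, 0, 0) (0, 1, 0) (0, 0, -1) :=
  (cov_rot (cov_rot (cov_swap (cov_split (l := 21) (m := 2) (g := 1) (p := (0, 21, -2)) (by decide +kernel)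
  (cov_rot (cov_swap (cov_split (l := 2617111) (m := 53) (g := 1) (p := (53, 54959331, -5234222)) (by decide +kernel)
  (cov_rot (cov_rot (cov_swap (cov_split (l := 2460996) (m := 17) (g := 1) (p := (17, 0, -2460996)) (by decide +kernel)
  (chk_sound _ _ _ _ c11)
  (cov_rot (cov_swap (cov_split (l := 1035630116) (m := 19) (g := 1) (p := (1007, 1044227289, -1135080334)) (by decide +kernel)
  (chk_sound _ _ _ _ c12)
  (cov_rot (cov_swap (cov_split (l := 176295730) (m := 19) (g := 17) (p := (19, 0, -13120862)) (by decide +kernel)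
  (chk_sound _ _ _ _ c13)
  (chk_sound _ _ _ _ c14)))))))))))
  (cov_rot (cov_swap (cov_split (l := 5) (m := 53) (g := 21) (p := (0, 5, -3)) (by decide +kernel)
  (chk_sound _ _ _ _ c15)
  (chk_sound _ _ _ _ c16)))))))
  (cov_split (l := 5) (m := 2) (g := 1) (p := (0, 47, -4)) (by decide +kernel)
  (cov_rot (cov_rot (cov_swap (cov_split (l := 65) (m := 6560431) (g := 1) (p := (65, 137769051, -13120862)) (by decide +kernel)
  (chk_sound _ _ _ _ c17)
  (cov_rot (cov_swap (cov_split (l := 150) (m := 6560431) (g := 1) (p := (150, 308340257, -26241724)) (by decide +kernel)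
  (chk_sound _ _ _ _ c18)
  (chk_sound _ _ _ _ c19))))))))
  (cov_rot (cov_rot (cov_swap (cov_split (l := 150) (m := 6560431) (g := 1) (p := (150, 308340257, -26241724)) (by decide +kernel)
  (chk_sound _ _ _ _ c20)
  (cov_rot (cov_swap (cov_split (l := 4) (m := 6560431) (g := 1) (p := (4, 6560431, 0)) (by decide +kernel)
  (chk_sound _ _ _ _ c21)
  (chk_sound _ _ _ _ c22)))))))))))))

end Pool.Agent.H3.Cen
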