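import Mathlib
import Pool.Agent.H3.Cen6

namespace Pool.Agent.H3.Cen

theorem c23 : chk
    (.rot (.rot (.swap (.split 2617111 224855311 13120862 (68, -2617111, -34022443) (.rot (.rot
    (.swap (.split 2617111 15879201 13120862 (5, 0, -2617111) (.rot (.rot (.swap (.split 68361
    8437007 2617111 (5, -68361, -888693) (.rot (.rot (.swap (.split 2460996 32185907 2617111
    (17, 0, -2460996) (.rot (.leaf (0, -4, -1) (.swap (.leaf (0, -1, 0) (.swap (.leaf (0, -1, 0)
    .zero)))))) (.leaf (0, -1, 0) (.leaf (0, -1, 0) (.swap (.leaf (0, -1, 0) .zero)))))))) (.rot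
    (.swap (.leaf (0, -1, 0) (.leaf (0, -1, 0) (.swap (.leaf (0, -1, 0) .zero)))))))))) (.leaf
    (-1, -1363080, 0) (.leaf (-1, -1363080, 0) (.swap (.leaf (-1, -1363080, -340770)
    .zero)))))))) (.leaf (-1, -1363080, 0) (.leaf (-1, -1363080, 0) (.swap (.leaf (-1, -1363080,
    0) .zero))))))))
    (19, 0, -13120862) (255, -13120862, -170571206) (1, 0, 0) = true := by decide +kernel

theorem c24 : chk
    (.rot (.leaf (-1, -1363080, 0) (.leaf (-1, -1363080, 0) (.swap (.leaf (-1, -1363080, 0)
    .zero)))))
    (0, 0, -1) (255, -13120862, -170571206) (19, 0, -13120862) = true := by decide +kernel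

theorem c25 : chk
    (.rot (.leaf (-1, -1363080, 0) (.swap (.leaf (-1, -1363080, 0) (.swap (.leaf (-1, -1363080,
    0) .zero))))))
    (0, -1, -13) (0, 0, -1) (255, -13120862, -170571206) = true := by decide +kernel

theorem c26 : chk
    (.rot (.rot (.swap (.split 180 41 13 (0, -17, -41) (.rot (.swap (.leaf (-1, 0, 0) (.arcn 0
    (.swap (.leaf (0, 2, -1) .zero)))))) (.rot (.swap (.split 2989309140 41 1 (10455,
    -3527264482, -6993419446) (.split 9634451 285885702 16607273 (10455, -2272156522,
    -6993419446) (.leaf (-1, 0, -340770) (.swap (.leaf (0, 2, -1) (.swap (.leaf (0, 2, -1)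
    .zero))))) (.rot (.leaf (0, 2, -1) (.leaf (0, 2, -1) (.swap (.leaf (0, 2, -1) .zero))))))
    (.rot (.swap (.split 44 1 1 (0, -61, -41) (.leaf (0, 1, -1) (.leaf (0, 1, -1) (.swap (.leaf
    (0, 2, -3) .zero)))) (.rot (.swap (.leaf (1, 0, 0) (.arcn 1 (.swap (.leaf (0, 0, 1)
    .zero))))))))))))))))
    (255, -13120862, -170571206) (0, -1, 0) (0, -1, -13) = true := by decide +kernel

theorem c27 : chk
    (.rot (.swap (.split 2989309140 259133687 85285603 (915, -269813578, -518267374) (.rot (.rot
    (.swap (.split 2989309140 41 1 (10455, -3527264482, -6993419446) (.rot (.rot (.swap (.split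
    9634451 25020126 83036365 (183, -35259146, -111528662) (.rot (.rot (.swap (.split 9634451
    285885702 16607273 (10455, -2272156522, -6993419446) (.leaf (-1, 0, -340770) (.swap (.leaf
    (-1, 1022310, -681540) (.swap (.leaf (-1, 1022310, -681540) .zero))))) (.rot (.leaf (-1,
    1363080, -681540) (.leaf (-1, 1022310, -681540) (.swap (.leaf (-1, 1022310, -681540)
    .zero))))))))) (.rot (.leaf (0, 2, -1) (.swap (.leaf (-1, 1363080, -681540) (.swap (.leaf
    (-1, 1022310, -681540) .zero)))))))))) (.leaf (1, 227180, 113590) (.leaf (1, 227180, 113590)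
    (.swap (.leaf (0, 0, 1) .zero)))))))) (.leaf (1, 227180, 113590) (.leaf (1, 0, 681540)
    (.swap (.leaf (1, 113590, 340770) .zero)))))))
    (4, -6560431, 0) (255, -13120862, -170571206) (0, -1, 0) = true := by decide +kernel

theorem c28 : chk
    (.rot (.swap (.split 1006121039 99918563 518267374 (256, -56795867, -99918563) (.leaf (1,
    511155, 170385) (.leaf (1, 227180, 113590) (.swap (.leaf (1, 681540, 0) .zero)))) (.rot
    (.swap (.split 9212849 99918563 259133687 (3, -2617111, 0) (.leaf (1, 227180, 113590) (.leaf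
    (1, 340770, 113590) (.swap (.leaf (1, 113590, 340770) .zero)))) (.rot (.leaf (9, -624745,
    -1874235) (.leaf (1, 340770, 113590) (.swap (.leaf (1, 681540, 0) .zero)))))))))))
    (41, -2460996, 0) (915, -269813578, -518267374) (4, -6560431, 0) = true := by decide +kernel

theorem c29 : chk
    (.rot (.rot (.swap (.split 99918563 1006121039 518267374 (256, -56795867, -99918563) (.rot
    (.leaf (1, 0, -1363080) (.leaf (0, -4, -1) (.swap (.leaf (0, -1, 0) .zero))))) (.rot (.swap
    (.split 373873 143731577 2 (242912686, -50438005923797, -96883088959751) (.rot (.leaf (1, 0,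
    -1363080) (.swap (.leaf (1, 0, -1363080) (.swap (.leaf (0, -1, 0) .zero)))))) (.rot (.leaf
    (1, 1363080, -340770) (.leaf (1, 681540, 0) (.swap (.leaf (1, 681540, 0) .zero))))))))))))
    (1, 0, 0) (915, -269813578, -518267374) (41, -2460996, 0) = true := by decide +kernel

theorem c30 : chk
    (.rot (.rot (.swap (.split 68361 8437007 2617111 (5, -68361, -888693) (.rot (.leaf (1, 0,
    -1363080) (.swap (.leaf (1, 0, -1363080) (.swap (.leaf (0, -1, 0) .zero)))))) (.rot (.swap
    (.split 2978809588173 888106 1633950257455 (256, -32185907, -114684539) (.leaf (0, 0, -1)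
    (.leaf (-1, -170385, -511155) (.swap (.leaf (-1, 1022310, -681540) .zero)))) (.leaf (-1,
    -170385, -511155) (.leaf (0, -1, 0) (.swap (.leaf (0, -1, 0) .zero)))))))))))
    (242912686, -50438005923797, -96883088959751) (68, -2617111, -34022443) (1, 0, 0) = true := by decide +kernel

theorem c31 : chk
    (.rot (.rot (.swap (.split 2978809588173 888106 1633950257455 (256, -32185907, -114684539)
    (.leaf (0, 4, -1) (.leaf (0, 4, -1) (.swap (.leaf (-1, 1022310, -681540) .zero)))) (.rot
    (.swap (.split 125100630 8437007 1 (16226704245, -2603821281160976, -8628854515748708)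
    (.leaf (0, 4, -1) (.leaf (-1, 1363080, -340770) (.swap (.leaf (-1, 1363080, -681540)
    .zero)))) (.rot (.swap (.leaf (-1, -170385, -681540) (.leaf (-1, -170385, -511155) (.swap
    (.leaf (0, -1, 0) .zero)))))))))))))
    (915, -269813578, -518267374) (68, -2617111, -34022443) (242912686, -50438005923797, -96883088959751) = true := by decide +kernel

theorem c32 : chk
    (.rot (.rot (.swap (.split 125100630 8437007 1 (16226704245, -2603821281160976,
    -8628854515748708) (.leaf (0, 2, -1) (.leaf (-1, 1022310, -681540) (.swap (.leaf (-1,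
    1363080, -681540) .zero)))) (.leaf (-1, -170385, -511155) (.split 3 1 1 (387, -43110479,
    -213595991) (.swap (.leaf (-1, 0, -227180) (.swap (.leaf (-1, 1022310, -681540) .zero))))
    (.leaf (-1, -1363080, 0) (.swap (.leaf (0, -1, 0) .zero)))))))))
    (183, -35259146, -111528662) (68, -2617111, -34022443) (915, -269813578, -518267374) = true := by decide +kernel

theorem c33 : chk
    (.rot (.rot (.swap (.split 3 1 1 (387, -43110479, -213595991) (.rot (.leaf (-1, -113590,
    -340770) (.split 2 3 1 (1059, -132019162, -675728398) (.swap (.leaf (-1, 0, -227180) (.swap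
    (.leaf (-1, 1022310, -681540) .zero)))) (.leaf (-1, -511155, -170385) (.swap (.leaf (-1,
    -1363080, 0) .zero)))))) (.leaf (-1, -1363080, 0) (.leaf (-1, -1363080, 0) (.swap (.leaf (0,
    -1, 0) .zero))))))))
    (255, -13120862, -170571206) (68, -2617111, -34022443) (183, -35259146, -111528662) = true := by decide +kernel

theorem oct2 : Cov (1, 0, 0) (0, -1, 0) (0, 0, -1) :=
  (cov_rot (cov_rot (cov_swap (cov_split (l := 1) (m := 13) (g := 1) (p := (0, -1, -13)) (by decide +kernel)
  (cov_rot (cov_swap (cov_split (l := 13120862) (m := 255) (g := 1) (p := (255, -13120862, -170571206)) (by decide +kernel)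
  (cov_rot (cov_rot (cov_swap (cov_split (l := 13120862) (m := 19) (g := 1) (p := (19, 0, -13120862)) (by decide +kernel)
  (chk_sound _ _ _ _ c23)
  (chk_sound _ _ _ _ c24)))))
  (chk_sound _ _ _ _ c25))))
  (cov_rot (cov_rot (cov_swap (cov_split (l := 255) (m := 13120862) (g := 1) (p := (255, -13120862, -170571206)) (by decide +kernel)
  (chk_sound _ _ _ _ c26)
  (cov_rot (cov_swap (cov_split (l := 4) (m := 6560431) (g := 1) (p := (4, -6560431, 0)) (by decide +kernel)
  (chk_sound _ _ _ _ c27)
  (cov_rot (cov_rot (cov_swap (cov_split (l := 259133687) (m := 2989309140) (g := 85285603) (p := (915, -269813578, -518267374)) (by decide +kernel)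
  (cov_rot (cov_rot (cov_swap (cov_split (l := 259133687) (m := 2460996) (g := 6560431) (p := (41, -2460996, 0)) (by decide +kernel)
  (chk_sound _ _ _ _ c28)
  (chk_sound _ _ _ _ c29)))))
  (cov_rot (cov_swap (cov_split (l := 2617111) (m := 224855311) (g := 13120862) (p := (68, -2617111, -34022443)) (by decide +kernel)
  (cov_rot (cov_rot (cov_swap (cov_split (l := 373873) (m := 143731577) (g := 2) (p := (242912686, -50438005923797, -96883088959751)) (by decide +kernel)
  (chk_sound _ _ _ _ c30)
  (chk_sound _ _ _ _ c31)))))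
  (cov_rot (cov_swap (cov_split (l := 25020126) (m := 9634451) (g := 83036365) (p := (183, -35259146, -111528662)) (by decide +kernel)
  (chk_sound _ _ _ _ c32)
  (chk_sound _ _ _ _ c33))))))))))))))))))))))

end Pool.Agent.H3.Cen
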