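import Mathlib
import Pool.Agent.H3.Cen6

namespace Pool.Agent.H3.Cen

theorem c34 : chk
    (.rot (.rot (.swap (.split 2460996 2211881557 2617111 (895, -51680916, 4921992) (.rot (.swap
    (.leaf (0, -4, -1) (.split 1 908 3 (601, -17226972, 1640664) (.swap (.leaf (0, -1, 0) (.swap
    (.leaf (0, -1, 0) .zero)))) (.leaf (0, -4, -1) (.swap (.leaf (-1, -1022310, -681540)
    .zero))))))) (.leaf (2, -170385, -340770) (.leaf (2, -170385, -170385) (.swap (.leaf (1,
    113590, 340770) .zero))))))))
    (17, 0, 2460996) (53, -54959331, 5234222) (1, 0, 0) = true := by decide +kernel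

theorem c35 : chk
    (.leaf (2, -170385, -170385) (.leaf (1, -227180, -227180) (.swap (.leaf (1, 227180, 113590)
    .zero))))
    (1007, -1044227289, 1135080334) (17, 0, 2460996) (53, -54959331, 5234222) = true := by decide +kernel

theorem c36 : chk
    (.rot (.swap (.split 30903658 5293067 348075763 (17, -15879201, 18425698) (.leaf (1,
    -227180, -227180) (.leaf (1, -340770, -340770) (.swap (.leaf (1, 0, -170385) .zero)))) (.rot
    (.swap (.split 2475839 1221477 13561210 (5, 0, 2617111) (.leaf (1, -511155, -340770) (.leaf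
    (1, -511155, -170385) (.swap (.leaf (0, -1, 0) .zero)))) (.leaf (1, -511155, -170385) (.leaf
    (1, -340770, -340770) (.swap (.leaf (1, -1363080, -340770) .zero))))))))))
    (19, 0, 13120862) (1007, -1044227289, 1135080334) (17, 0, 2460996) = true := by decide +kernel

theorem c37 : chk
    (.rot (.rot (.swap (.split 5293067 30903658 348075763 (17, -15879201, 18425698) (.leaf (1,
    -511155, -170385) (.leaf (1, -511155, -170385) (.swap (.leaf (1, 0, -170385) .zero)))) (.rot
    (.swap (.split 5 92710974 19 (265, -274796655, 303584876) (.leaf (1, -227180, 0) (.leaf (2,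
    170385, -170385) (.swap (.leaf (1, 170385, 0) .zero)))) (.leaf (2, 170385, 0) (.leaf (2,
    170385, 0) (.swap (.leaf (1, 227180, 113590) .zero)))))))))))
    (0, 0, 1) (1007, -1044227289, 1135080334) (19, 0, 13120862) = true := by decide +kernel

theorem c38 : chk
    (.rot (.rot (.swap (.split 5 277413766 1 (265, -274796655, 303584876) (.rot (.leaf (1, 0, 0)
    (.arcn 2 (.swap (.leaf (0, 2, 3) .zero))))) (.rot (.swap (.split 17 1035630116 53 (17,
    -115329419, 60299474) (.rot (.swap (.leaf (1, 340770, 340770) (.leaf (1, 681540, 1022310)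
    (.swap (.leaf (1, 340770, 511155) .zero)))))) (.rot (.swap (.split 46355487 517815058
    138706883 (1007, -1044227289, 1135080334) (.rot (.leaf (1, 227180, 227180) (.leaf (1,
    227180, 227180) (.swap (.leaf (1, 340770, 511155) .zero))))) (.leaf (1, 227180, 227180)
    (.swap (.leaf (1, 170385, 511155) (.swap (.leaf (1, 340770, 511155) .zero)))))))))))))))
    (0, -5, 3) (53, -54959331, 5234222) (0, 0, 1) = true := by decide +kernel

theorem c39 : chk
    (.split 17 130 53 (0, -19, 8) (.rot (.rot (.swap (.split 17 1035630116 53 (17, -115329419,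
    60299474) (.leaf (1, 681540, 1022310) (.leaf (1, 681540, 1022310) (.swap (.leaf (1, 340770,
    511155) .zero)))) (.rot (.leaf (1, 681540, 1022310) (.leaf (1, 681540, 1022310) (.swap
    (.leaf (0, 1, 2) .zero))))))))) (.rot (.swap (.split 177590628 65 53 (65, -137769051,
    13120862) (.leaf (1, 340770, 1022310) (.leaf (1, 340770, 1363080) (.swap (.leaf (1, 170385,
    511155) .zero)))) (.rot (.leaf (1, 340770, 1363080) (.leaf (1, 340770, 1363080) (.swap
    (.leaf (0, 1, 2) .zero)))))))))
    (0, -21, 2) (53, -54959331, 5234222) (0, -5, 3) = true := by decide +kernel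

theorem c40 : chk
    (.leaf (1, 340770, 1363080) (.leaf (1, 340770, 1363080) (.swap (.leaf (1, 170385, 511155)
    .zero))))
    (65, -137769051, 13120862) (0, -47, 4) (0, -21, 2) = true := by decide +kernel

theorem c41 : chk
    (.leaf (1, 340770, 1363080) (.swap (.leaf (1, 170385, 511155) (.swap (.leaf (1, 170385,
    511155) .zero)))))
    (150, -308340257, 26241724) (65, -137769051, 13120862) (0, -47, 4) = true := by decide +kernel

theorem c42 : chk
    (.rot (.leaf (1, 170385, 511155) (.swap (.leaf (1, 170385, 511155) (.swap (.leaf (1, 170385,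
    511155) .zero))))))
    (53, -54959331, 5234222) (150, -308340257, 26241724) (65, -137769051, 13120862) = true := by decide +kernel

theorem c43 : chk
    (.rot (.swap (.leaf (1, 170385, 511155) (.leaf (1, 170385, 511155) (.swap (.leaf (1, 170385,
    511155) .zero))))))
    (121, -123004217, 10468444) (53, -54959331, 5234222) (150, -308340257, 26241724) = true := by decide +kernel

theorem c44 : chk
    (.rot (.swap (.split 2211881557 2460996 2617111 (895, -51680916, 4921992) (.rot (.swap
    (.leaf (1, 0, -170385) (.leaf (2, -170385, -340770) (.swap (.leaf (-1, -1022310, -681540)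
    .zero)))))) (.rot (.swap (.split 1641118643 820332 2617111 (665, -38555604, 3281328) (.leaf
    (2, -170385, -340770) (.split 3 2 1 (3785, -219028644, 19687968) (.swap (.leaf (-1,
    -1022310, -681540) (.swap (.leaf (-1, -1022310, -681540) .zero)))) (.leaf (-1, -1022310,
    -681540) (.swap (.leaf (-1, -1022310, -681540) .zero))))) (.leaf (0, -4, -1) (.split 908 1 3
    (601, -17226972, 1640664) (.swap (.leaf (0, -4, -1) (.swap (.leaf (-1, -1022310, -681540)
    .zero)))) (.leaf (0, -1, 0) (.swap (.leaf (0, -1, 0) .zero)))))))))))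
    (1, 0, 0) (53, -54959331, 5234222) (121, -123004217, 10468444) = true := by decide +kernel

theorem c45 : chk
    (.leaf (1, 0, 1363080) (.leaf (1, 0, 1363080) (.swap (.leaf (1, 170385, 511155) .zero))))
    (150, -308340257, 26241724) (0, -1, 0) (0, -47, 4) = true := by decide +kernel

theorem c46 : chk
    (.leaf (1, 0, 681540) (.leaf (1, 113590, 340770) (.swap (.leaf (1, 113590, 340770) .zero))))
    (4, -6560431, 0) (150, -308340257, 26241724) (0, -1, 0) = true := by decide +kernel

theorem c47 : chk
    (.leaf (1, 113590, 340770) (.leaf (1, 113590, 340770) (.swap (.leaf (1, 170385, 511155)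
    .zero))))
    (121, -123004217, 10468444) (4, -6560431, 0) (150, -308340257, 26241724) = true := by decide +kernel

theorem c48 : chk
    (.rot (.swap (.split 9212849 2617111 6560431 (3, -2617111, 0) (.leaf (1, 113590, 340770)
    (.leaf (1, 113590, 340770) (.swap (.leaf (1, 113590, 340770) .zero)))) (.rot (.swap (.split
    1641118643 820332 2617111 (665, -38555604, 3281328) (.rot (.leaf (1, 0, -170385) (.leaf (1,
    113590, 340770) (.swap (.leaf (1, 113590, 340770) .zero))))) (.rot (.swap (.split 99918563
    2460996 2617111 (41, -2460996, 0) (.leaf (2, -170385, -340770) (.leaf (-1, -1363080,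
    -681540) (.swap (.leaf (-1, -1363080, -681540) .zero)))) (.leaf (0, -4, -1) (.split 675 1 4
    (335, -9638901, 820332) (.swap (.leaf (0, -4, -1) (.swap (.leaf (-1, -1022310, -681540)
    .zero)))) (.leaf (0, -1, 0) (.swap (.leaf (0, -1, 0) .zero))))))))))))))
    (1, 0, 0) (4, -6560431, 0) (121, -123004217, 10468444) = true := by decide +kernel

theorem oct3 : Cov (1, 0, 0) (0, -1, 0) (0, 0, 1) :=
  (cov_rot (cov_rot (cov_swap (cov_split (l := 21) (m := 2) (g := 1) (p := (0, -21, 2)) (by decide +kernel)
  (cov_rot (cov_swap (cov_split (l := 2617111) (m := 53) (g := 1) (p := (53, -54959331, 5234222)) (by decide +kernel)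
  (cov_rot (cov_rot (cov_swap (cov_split (l := 2460996) (m := 17) (g := 1) (p := (17, 0, 2460996)) (by decide +kernel)
  (chk_sound _ _ _ _ c34)
  (cov_rot (cov_swap (cov_split (l := 1035630116) (m := 19) (g := 1) (p := (1007, -1044227289, 1135080334)) (by decide +kernel)
  (chk_sound _ _ _ _ c35)
  (cov_rot (cov_swap (cov_split (l := 176295730) (m := 19) (g := 17) (p := (19, 0, 13120862)) (by decide +kernel)
  (chk_sound _ _ _ _ c36)
  (chk_sound _ _ _ _ c37)))))))))))
  (cov_rot (cov_swap (cov_split (l := 5) (m := 53) (g := 21) (p := (0, -5, 3)) (by decide +kernel)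
  (chk_sound _ _ _ _ c38)
  (chk_sound _ _ _ _ c39)))))))
  (cov_split (l := 5) (m := 2) (g := 1) (p := (0, -47, 4)) (by decide +kernel)
  (cov_rot (cov_rot (cov_swap (cov_split (l := 65) (m := 6560431) (g := 1) (p := (65, -137769051, 13120862)) (by decide +kernel)
  (chk_sound _ _ _ _ c40)
  (cov_rot (cov_swap (cov_split (l := 150) (m := 6560431) (g := 1) (p := (150, -308340257, 26241724)) (by decide +kernel)
  (chk_sound _ _ _ _ c41)
  (cov_rot (cov_swap (cov_split (l := 177590628) (m := 2617111) (g := 6560431) (p := (53, -54959331, 5234222)) (by decide +kernel)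
  (chk_sound _ _ _ _ c42)
  (cov_rot (cov_swap (cov_split (l := 401245501) (m := 2617111) (g := 6560431) (p := (121, -123004217, 10468444)) (by decide +kernel)
  (chk_sound _ _ _ _ c43)
  (chk_sound _ _ _ _ c44))))))))))))))
  (cov_rot (cov_rot (cov_swap (cov_split (l := 150) (m := 6560431) (g := 1) (p := (150, -308340257, 26241724)) (by decide +kernel)
  (chk_sound _ _ _ _ c45)
  (cov_rot (cov_swap (cov_split (l := 4) (m := 6560431) (g := 1) (p := (4, -6560431, 0)) (by decide +kernel)
  (chk_sound _ _ _ _ c46)
  (cov_rot (cov_swap (cov_split (l := 401245501) (m := 2617111) (g := 6560431) (p := (121, -123004217, 10468444)) (by decide +kernel)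
  (chk_sound _ _ _ _ c47)
  (chk_sound _ _ _ _ c48))))))))))))))))

end Pool.Agent.H3.Cen
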