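import Mathlib

set_option autoImplicit false

namespace Pool.Agent.H3.Conn

open Finset Filter Topology

lemma record (g : ℕ → ℝ) (hg : ∀ B : ℝ, ∃ M, B < g M) (N : ℕ) : ∃ n, N ≤ n ∧ ∀ j ≤ n, g j ≤ g n := by
  obtain ⟨B, hB⟩ := ((range N).image g).bddAbove
  obtain ⟨M, hM⟩ := hg B
  obtain ⟨n, hn, h⟩ := exists_max_image (range (M + 1)) g ⟨0, by simp⟩
  have hnM : n ≤ M := by simpa [Nat.lt_succ_iff] using hn
  refine ⟨n, ?_, fun j hj => h j (mem_range.2 (by omega))⟩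
  by_contra hc
  have h1 : g n ≤ B := hB (by simpa using ⟨n, by omega, rfl⟩)
  have h2 := h M (by simp)
  linarith

lemma small (θ : ℝ) (h0 : 0 ≤ θ) (h1 : θ < 1) (ε : ℝ) (hε : 0 < ε) :
    ∃ N : ℕ, ∀ n ≥ N, (n : ℝ) ^ 2 * θ ^ n ≤ ε := by
  have := tendsto_pow_const_mul_const_pow_of_abs_lt_one 2 (r := θ) (by rwa [abs_of_nonneg h0])
  exact eventually_atTop.1 (this.eventually (ge_mem_nhds hε))

lemma analytic (a d : ℕ → ℕ)
    (hd : ∀ n, d n ≤ ∑ k ∈ Icc 1 (n / 2), n ^ k * (2 ^ k.choose 2 * a (n - k)))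
    (ha : ∀ m, 2 ^ (m * m) ≤ (m + m) ^ (m + m) * a (m + m)) (ε : ℝ) (hε : 0 < ε) (N : ℕ) :
    ∃ n, N ≤ n ∧ (d n : ℝ) ≤ ε * a n := by
  have hunb : ∀ B : ℝ, ∃ M, B < (a M : ℝ) / (107 / 100) ^ (2 * M ^ 2) := by
    intro B
    obtain ⟨N1, hN1⟩ := small ((107 / 100) ^ 8 / 2) (by positivity) (by norm_num) (1 / 8)
      (by norm_num)
    obtain ⟨N2, hN2⟩ := exists_nat_gt B
    set m := N1 + N2 + 1 with hm
    refine ⟨m + m, ?_⟩
    have h1 := hN1 m (by omega)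
    have h2 : (2 : ℝ) ^ (m * m) ≤ ((m : ℝ) + m) ^ (m + m) * a (m + m) := by exact_mod_cast ha m
    rw [lt_div_iff₀ (by positivity)]
    have h3 : 2 * ((m : ℝ) + m) ^ 2 * ((107 / 100) ^ 8) ^ m ≤ 2 ^ m := by
      rw [div_pow, ← mul_div_assoc, div_le_iff₀ (by positivity)] at h1
      nlinarith
    have h4 := pow_le_pow_left₀ (by positivity) h3 m
    rw [mul_pow, mul_pow, ← pow_mul, ← pow_mul, ← pow_mul, ← pow_mul, two_mul m] at h4
    have h5 : 2 * (m + m) ^ 2 = 8 * (m * m) := by ring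
    have h6 : B < 2 ^ m := by
      have : (m : ℝ) < 2 ^ m := by exact_mod_cast Nat.lt_two_pow_self
      have : (N2 : ℝ) ≤ m := by exact_mod_cast (by omega : N2 ≤ m)
      linarith
    have hp : (0 : ℝ) < ((m : ℝ) + m) ^ (m + m) := by
      have : (0 : ℝ) < m := by exact_mod_cast (by omega : 0 < m)
      positivity
    rw [h5]
    have h7 : (2 : ℝ) ^ m * (107 / 100) ^ (8 * (m * m)) ≤ a (m + m) := by
      apply le_of_mul_le_mul_left _ hp
      nlinarith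
    have h8 : (0 : ℝ) < (107 / 100) ^ (8 * (m * m)) := by positivity
    nlinarith
  obtain ⟨N1, hN1⟩ := small ((6 / 5) / (107 / 100) ^ 3) (by positivity) (by norm_num) (min ε 1)
    (by positivity)
  obtain ⟨n, hn, hrec⟩ := record _ hunb (N + N1 + 1)
  refine ⟨n, by omega, ?_⟩
  set θ : ℝ := (6 / 5) / (107 / 100) ^ 3 with hθ
  have hθ0 : 0 ≤ θ := by positivity
  have h1 := hN1 n (by omega)
  have hn1 : (1 : ℝ) ≤ n := by exact_mod_cast (by omega : 1 ≤ n)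
  have hx1 : (n : ℝ) * θ ^ n ≤ 1 := by
    have := min_le_right ε 1
    have : 0 ≤ θ ^ n := by positivity
    nlinarith
  have hterm : ∀ k ∈ Icc 1 (n / 2), ((n ^ k * (2 ^ k.choose 2 * a (n - k)) : ℕ) : ℝ) ≤
      (n * θ ^ n) * a n := by
    intro k hk
    obtain ⟨hk1, hk2⟩ := mem_Icc.1 hk
    have hk3 : 2 * k ≤ n := by omega
    obtain ⟨r, rfl⟩ : ∃ r, n = r + k := ⟨n - k, by omega⟩
    have e1 := hrec r (by omega)
    rw [div_le_div_iff₀ (by positivity) (by positivity),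
      show 2 * (r + k) ^ 2 = 2 * r ^ 2 + 2 * (k * (2 * r + k)) by ring, pow_add] at e1
    have e2 : (a r : ℝ) * (107 / 100) ^ (2 * (k * (2 * r + k))) ≤ a (r + k) := by
      apply le_of_mul_le_mul_left _ (by positivity : (0 : ℝ) < (107 / 100) ^ (2 * r ^ 2))
      nlinarith
    have e3 : ((107 / 100 : ℝ) ^ 3) ^ ((r + k) * k) ≤ (107 / 100) ^ (2 * (k * (2 * r + k))) := by
      rw [← pow_mul]
      exact pow_le_pow_right₀ (by norm_num) (by nlinarith)
    have e4 : (2 : ℝ) ^ k.choose 2 ≤ (6 / 5) ^ ((r + k) * k) := by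
      calc (2 : ℝ) ^ k.choose 2 ≤ ((6 / 5) ^ 4) ^ k.choose 2 :=
            pow_le_pow_left₀ (by norm_num) (by norm_num) _
        _ ≤ _ := by
            rw [← pow_mul]
            refine pow_le_pow_right₀ (by norm_num) ?_
            have := Nat.choose_two_right k
            have h2 := Nat.div_mul_le_self (k * (k - 1)) 2
            have h3 : k * (k - 1) ≤ k * k := Nat.mul_le_mul_left _ (by omega)
            nlinarith
    have e5 : (2 : ℝ) ^ k.choose 2 * a r ≤ θ ^ ((r + k) * k) * a (r + k) := by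
      rw [hθ, div_pow, div_mul_eq_mul_div, le_div_iff₀ (by positivity)]
      have h0 : (0 : ℝ) ≤ a r := Nat.cast_nonneg _
      calc _ = (2 : ℝ) ^ k.choose 2 * (a r * ((107 / 100 : ℝ) ^ 3) ^ ((r + k) * k)) := by ring
        _ ≤ _ := mul_le_mul e4 ((mul_le_mul_of_nonneg_left e3 h0).trans e2) (by positivity)
          (by positivity)
    have e6 : (((r + k : ℕ) : ℝ) * θ ^ (r + k)) ^ k ≤ ((r + k : ℕ) : ℝ) * θ ^ (r + k) :=
      pow_le_of_le_one (by positivity) hx1 (by omega)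
    rw [mul_pow, ← pow_mul] at e6
    rw [Nat.add_sub_cancel]
    push_cast at e6 ⊢
    calc _ ≤ ((r : ℝ) + k) ^ k * (θ ^ ((r + k) * k) * a (r + k)) :=
          mul_le_mul_of_nonneg_left e5 (by positivity)
      _ ≤ _ := by
          rw [← mul_assoc]
          exact mul_le_mul_of_nonneg_right e6 (Nat.cast_nonneg _)
  have h2 : (d n : ℝ) ≤ ∑ k ∈ Icc 1 (n / 2), ((n ^ k * (2 ^ k.choose 2 * a (n - k)) : ℕ) : ℝ) := by
    exact_mod_cast hd n
  have h3 := h2.trans (sum_le_sum hterm)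
  rw [sum_const, Nat.card_Icc, nsmul_eq_mul] at h3
  have h4 : ((n / 2 + 1 - 1 : ℕ) : ℝ) ≤ n := by exact_mod_cast (by omega : n / 2 + 1 - 1 ≤ n)
  have h5 : (0 : ℝ) ≤ (n * θ ^ n) * a n := by positivity
  have h6 := min_le_left ε 1
  have h7 : (0 : ℝ) ≤ a n := Nat.cast_nonneg _
  calc _ ≤ (n : ℝ) * ((n * θ ^ n) * a n) := h3.trans (mul_le_mul_of_nonneg_right h4 h5)
    _ = (n : ℝ) ^ 2 * θ ^ n * a n := by ring
    _ ≤ _ := mul_le_mul_of_nonneg_right (h1.trans h6) h7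

end Pool.Agent.H3.Conn
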