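import Pool.Agent.H3.Conn1

set_option autoImplicit false

namespace Pool.Agent.H3.Conn

open Finset Filter Topology SimpleGraph

def Free {W V : Type} (H : SimpleGraph W) (G : SimpleGraph V) : Prop := IsEmpty (H ↪g G)

def cls {n : ℕ} (G : SimpleGraph (Fin n)) : Set (SimpleGraph (Fin n)) := {G' | Nonempty (G ≃g G')}

noncomputable def pLab {W : Type} (H : SimpleGraph W) (n : ℕ) : ℝ :=
  ({G : SimpleGraph (Fin n) | Free H G ∧ G.Connected}.ncard : ℝ) /
    ({G : SimpleGraph (Fin n) | Free H G}.ncard : ℝ)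

noncomputable def pUnl {W : Type} (H : SimpleGraph W) (n : ℕ) : ℝ :=
  ((cls '' {G : SimpleGraph (Fin n) | Free H G ∧ G.Connected}).ncard : ℝ) /
    ((cls '' {G : SimpleGraph (Fin n) | Free H G}).ncard : ℝ)

lemma card_graph (k : ℕ) : Fintype.card (SimpleGraph (Fin k)) ≤ 2 ^ k.choose 2 := by
  classical
  have h := card_le_card_of_injOn (s := (univ : Finset (SimpleGraph (Fin k))))
    (t := (⊤ : SimpleGraph (Fin k)).edgeFinset.powerset) (fun G => G.edgeFinset)
    (fun G _ => by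
      simp only [coe_powerset, Set.mem_preimage, Set.mem_powerset_iff, coe_edgeFinset]
      exact edgeSet_mono le_top)
    (fun G _ G' _ h => by simpa using h)
  rwa [card_powerset, card_edgeFinset_top_eq_card_choose_two, Fintype.card_fin, card_univ] at h

def glue {n k : ℕ} (e : Fin k ⊕ Fin (n - k) ≃ Fin n) (G1 : SimpleGraph (Fin k))
    (G2 : SimpleGraph (Fin (n - k))) : SimpleGraph (Fin n) := (G1 ⊕g G2).comap e.symm

lemma split {n : ℕ} (hn : 0 < n) (G : SimpleGraph (Fin n)) (h : ¬ G.Connected) :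
    ∃ S : Finset (Fin n), 1 ≤ S.card ∧ S.card ≤ n / 2 ∧ ∀ u ∈ S, ∀ v, v ∉ S → ¬ G.Adj u v := by
  classical
  haveI : Nonempty (Fin n) := ⟨⟨0, hn⟩⟩
  have h1 : ¬ G.Preconnected := fun hp => h ⟨hp⟩
  unfold Preconnected at h1
  push Not at h1
  obtain ⟨x, y, hxy⟩ := h1
  let S := univ.filter (fun v => G.Reachable x v)
  have hS : ∀ u ∈ S, ∀ v, v ∉ S → ¬ G.Adj u v := by
    intro u hu v hv ha
    apply hv
    simp only [S, mem_filter, mem_univ, true_and] at hu ⊢
    exact hu.trans ha.reachable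
  have hx : x ∈ S := by simp [S]
  have hy : y ∈ Sᶜ := by simpa [S] using hxy
  have hc := card_add_card_compl S
  rw [Fintype.card_fin] at hc
  by_cases hs : S.card ≤ n / 2
  · exact ⟨S, card_pos.2 ⟨x, hx⟩, hs, hS⟩
  · refine ⟨Sᶜ, card_pos.2 ⟨y, hy⟩, by omega, fun u hu v hv ha => ?_⟩
    exact hS v (by simpa using hv) u (by simpa using hu) ha.symm

lemma exists_equiv {n : ℕ} (S : Finset (Fin n)) :
    ∃ e : Fin S.card ⊕ Fin (n - S.card) ≃ Fin n, ∀ v, v ∈ S ↔ ∃ i, e (.inl i) = v := by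
  classical
  have h2 : Fintype.card {x // ¬ x ∈ S} = n - S.card := by simp [Fintype.card_subtype_compl]
  refine ⟨(Equiv.sumCongr S.equivFin.symm (Fintype.equivFinOfCardEq h2).symm).trans
    (Equiv.sumCompl (fun x => x ∈ S)), fun v => ⟨fun hv => ⟨S.equivFin ⟨v, hv⟩, by simp⟩, ?_⟩⟩
  rintro ⟨i, rfl⟩
  simp

section gen
variable {W : Type} (H : SimpleGraph W) (φ : ∀ n, SimpleGraph (Fin n) → Set (SimpleGraph (Fin n)))
  (p1 : ∀ n G G', φ n G = φ n G' → Nonempty (G ≃g G'))
  (p2 : ∀ n k (e : Fin k ⊕ Fin (n - k) ≃ Fin n) G1 G2 G2', φ _ G2 = φ _ G2' →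
    φ n (glue e G1 G2) = φ n (glue e G1 G2'))

open Classical in
noncomputable def AA (n : ℕ) : Finset (Set (SimpleGraph (Fin n))) :=
  (univ.filter (fun G => Free H G)).image (φ n)

open Classical in
noncomputable def DD (n : ℕ) : Finset (Set (SimpleGraph (Fin n))) :=
  (univ.filter (fun G => 0 < n ∧ Free H G ∧ ¬ G.Connected)).image (φ n)

include p2 in
lemma upper (n : ℕ) : (DD H φ n).card ≤
    ∑ k ∈ Icc 1 (n / 2), n ^ k * (2 ^ k.choose 2 * (AA H φ (n - k)).card) := by
  classical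
  let F : ∀ k, (Fin k → Fin n) × SimpleGraph (Fin k) × Set (SimpleGraph (Fin (n - k))) →
      Set (SimpleGraph (Fin n)) := fun k x =>
    if h : ∃ e : Fin k ⊕ Fin (n - k) ≃ Fin n, ∀ i, e (.inl i) = x.1 i then
      φ n (glue h.choose x.2.1 (Function.invFun (φ _) x.2.2)) else ∅
  have hsub : DD H φ n ⊆ (Icc 1 (n / 2)).biUnion
      (fun k => (univ ×ˢ (univ ×ˢ AA H φ (n - k))).image (F k)) := by
    intro q hq
    obtain ⟨G, hG, rfl⟩ := mem_image.1 hq
    obtain ⟨hn, hF, hC⟩ := (mem_filter.1 hG).2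
    obtain ⟨S, s1, s2, s3⟩ := split hn G hC
    obtain ⟨e0, he0⟩ := exists_equiv S
    have hex : ∃ e : Fin S.card ⊕ Fin (n - S.card) ≃ Fin n, ∀ i, e (.inl i) = e0 (.inl i) :=
      ⟨e0, fun _ => rfl⟩
    have hs := hex.choose_spec
    set e := hex.choose with he
    have hl : ∀ i, e (.inl i) ∈ S := fun i => (he0 _).2 ⟨i, (hs i).symm⟩
    have hr : ∀ j, e (.inr j) ∉ S := fun j hj => by
      obtain ⟨i, hi⟩ := (he0 _).1 hj
      rw [← hs] at hi
      simpa using e.injective hi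
    refine mem_biUnion.2 ⟨S.card, mem_Icc.2 ⟨s1, s2⟩, mem_image.2
      ⟨(fun i => e0 (.inl i), G.comap (fun i => e (.inl i)), φ _ (G.comap (fun i => e (.inr i)))),
        ?_, ?_⟩⟩
    · simp only [mem_product, mem_univ, true_and]
      refine mem_image_of_mem _ (mem_filter.2 ⟨mem_univ _, ⟨fun f => hF.false ?_⟩⟩)
      exact (Embedding.comap ⟨fun i => e (.inr i), fun a b h => by simpa using h⟩ G).comp f
    · simp only [F]
      rw [dif_pos hex, ← he, p2 n _ e _ _ (G.comap (fun i => e (.inr i)))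
        (Function.invFun_eq ⟨_, rfl⟩)]
      congr 1
      ext u v
      obtain ⟨u, rfl⟩ := e.surjective u
      obtain ⟨v, rfl⟩ := e.surjective v
      rcases u with u | u <;> rcases v with v | v <;> simp [glue]
      · exact s3 _ (hl u) _ (hr v)
      · exact fun h => s3 _ (hl v) _ (hr u) h.symm
  refine (card_le_card hsub).trans (card_biUnion_le.trans (sum_le_sum fun k _ => ?_))
  refine card_image_le.trans ?_
  rw [card_product, card_product, card_univ, card_univ, Fintype.card_fun, Fintype.card_fin,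
    Fintype.card_fin]
  exact Nat.mul_le_mul_left _ (Nat.mul_le_mul_right _ (card_graph k))

def fam (α β : Prop) {m : ℕ} (B : Finset (Fin m × Fin m)) : SimpleGraph (Fin m ⊕ Fin m) where
  Adj
    | .inl i, .inl j => α ∧ i ≠ j
    | .inr i, .inr j => β ∧ i ≠ j
    | .inl i, .inr j => (i, j) ∈ B
    | .inr j, .inl i => (i, j) ∈ B
  symm := ⟨by rintro (i | i) (j | j) h <;> first | exact h | exact ⟨h.1, h.2.symm⟩⟩
  loopless := ⟨by rintro (i | i) h <;> exact h.2 rfl⟩

include p1 in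
lemma lower (α β : Prop) (h : ∀ m (B : Finset (Fin m × Fin m)), Free H (fam α β B)) (m : ℕ) :
    2 ^ (m * m) ≤ (m + m) ^ (m + m) * (AA H φ (m + m)).card := by
  classical
  have h1 : 2 ^ (m * m) ≤ (univ.filter (fun G : SimpleGraph (Fin (m + m)) => Free H G)).card := by
    have := card_le_card_of_injOn (s := (univ : Finset (Finset (Fin m × Fin m))))
      (t := univ.filter (fun G : SimpleGraph (Fin (m + m)) => Free H G))
      (fun B => (fam α β B).comap finSumFinEquiv.symm)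
      (fun B _ => by
        simp only [coe_filter, mem_univ, true_and, Set.mem_setOf_eq]
        exact ⟨fun f => (h m B).false
          ((Embedding.comap finSumFinEquiv.symm.toEmbedding (fam α β B)).comp f)⟩)
      (fun B _ B' _ e => by
        ext ⟨i, j⟩
        have := congrArg (fun G : SimpleGraph (Fin (m + m)) =>
          G.Adj (finSumFinEquiv (.inl i)) (finSumFinEquiv (.inr j))) e
        simp only [comap_adj, Equiv.symm_apply_apply, fam] at this
        exact this.to_iff)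
    simpa using this
  refine h1.trans (card_le_mul_card_image _ _ ?_)
  intro q hq
  obtain ⟨G, -, rfl⟩ := mem_image.1 hq
  refine (card_le_card (t := univ.image (fun σ : Fin (m + m) → Fin (m + m) => G.comap σ)) ?_).trans
    (card_image_le.trans (by simp))
  intro G' hG'
  obtain ⟨σ⟩ := p1 _ _ _ (mem_filter.1 hG').2
  refine mem_image.2 ⟨σ, mem_univ _, ?_⟩
  ext u v
  exact σ.map_adj_iff

end gen

lemma colour {W : Type} (H : SimpleGraph W) (α β : Prop)
    (h : ¬ ∀ m (B : Finset (Fin m × Fin m)), Free H (fam α β B)) :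
    ∃ c : W → Prop, (∀ x y, x ≠ y → c x → c y → (H.Adj x y ↔ α)) ∧
      ∀ x y, x ≠ y → ¬ c x → ¬ c y → (H.Adj x y ↔ β) := by
  push Not at h
  obtain ⟨m, B, hB⟩ := h
  obtain ⟨f⟩ := not_isEmpty_iff.1 hB
  refine ⟨fun x => ∃ i, f x = .inl i, ?_, ?_⟩
  · rintro x y hxy ⟨i, hi⟩ ⟨j, hj⟩
    have hne : i ≠ j := by rintro rfl; exact hxy (f.injective (hi.trans hj.symm))
    rw [← f.map_adj_iff, hi, hj]
    simp [fam, hne]
  · intro x y hxy hx hy
    obtain ⟨i, hi⟩ : ∃ i, f x = .inr i := by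
      rcases hh : f x with i | i
      · exact absurd ⟨i, hh⟩ hx
      · exact ⟨i, rfl⟩
    obtain ⟨j, hj⟩ : ∃ i, f y = .inr i := by
      rcases hh : f y with i | i
      · exact absurd ⟨i, hh⟩ hy
      · exact ⟨i, rfl⟩
    have hne : i ≠ j := by rintro rfl; exact hxy (f.injective (hi.trans hj.symm))
    rw [← f.map_adj_iff, hi, hj]
    simp [fam, hne]

lemma shape {W : Type} (H : SimpleGraph W) (hH : ¬ H.Preconnected)
    (h1 : ¬ ∀ m (B : Finset (Fin m × Fin m)), Free H (fam False False B))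
    (h2 : ¬ ∀ m (B : Finset (Fin m × Fin m)), Free H (fam True True B))
    (h3 : ¬ ∀ m (B : Finset (Fin m × Fin m)), Free H (fam True False B)) :
    ∃ x y : W, y ≠ x ∧ (∀ z, ¬ H.Adj x z) ∧ (∀ z t, z ≠ x → t ≠ x → z ≠ t → H.Adj z t) ∧
      ∀ z t, z ≠ x → t ≠ x → z ≠ y → t ≠ y → z = t := by
  obtain ⟨c1, a1, b1⟩ := colour H _ _ h1
  obtain ⟨c2, a2, b2⟩ := colour H _ _ h2
  obtain ⟨c3, a3, b3⟩ := colour H _ _ h3
  simp only [iff_true, iff_false] at a1 b1 a2 b2 a3 b3
  have tri : ∀ x y z, H.Adj x y → H.Adj x z → H.Adj y z → False := by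
    intro x y z p q r
    have := a1 x y p.ne; have := a1 x z q.ne; have := a1 y z r.ne
    have := b1 x y p.ne; have := b1 x z q.ne; have := b1 y z r.ne
    tauto
  have same : ∀ x y, (c2 x ↔ c2 y) → H.Reachable x y := by
    intro x y h
    by_cases e : x = y
    · rw [e]
    · by_cases hx : c2 x
      · exact (a2 x y e hx (h.1 hx)).reachable
      · exact (b2 x y e hx (fun hy => hx (h.2 hy))).reachable
  unfold Preconnected at hH
  push Not at hH
  obtain ⟨u, v, huv⟩ := hH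
  have huv2 : ¬ (c2 u ↔ c2 v) := fun h => huv (same u v h)
  have cross : ∀ x y, ¬ (c2 x ↔ c2 y) → ¬ H.Adj x y := by
    intro x y h ha
    by_cases hx : c2 x ↔ c2 u
    · exact huv ((same u x hx.symm).trans (ha.reachable.trans (same y v (by tauto))))
    · exact huv ((same u y (by tauto)).trans (ha.symm.reachable.trans (same x v (by tauto))))
  have adj : ∀ x y, x ≠ y → (c2 x ↔ c2 y) → H.Adj x y := by
    intro x y e h
    by_cases hx : c2 x
    · exact a2 x y e hx (h.1 hx)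
    · exact b2 x y e hx (fun hy => hx (h.2 hy))
  have key : ∀ x y, ¬ (c2 x ↔ c2 y) → (∀ z, (c2 z ↔ c2 x) → z = x) →
      ∃ x y : W, y ≠ x ∧ (∀ z, ¬ H.Adj x z) ∧ (∀ z t, z ≠ x → t ≠ x → z ≠ t → H.Adj z t) ∧
      ∀ z t, z ≠ x → t ≠ x → z ≠ y → t ≠ y → z = t := by
    intro x y hxy hx
    have hz : ∀ z, z ≠ x → ¬ (c2 z ↔ c2 x) := fun z h h' => h (hx z h')
    have hyx : y ≠ x := by rintro rfl; exact hxy Iff.rfl
    have ha : ∀ z t, z ≠ x → t ≠ x → z ≠ t → H.Adj z t := fun z t p q r =>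
      adj z t r (by have := hz z p; have := hz t q; tauto)
    refine ⟨x, y, hyx, fun z h => cross x z (fun h' => hz z h.ne' h'.symm) h, ha,
      fun z t p q r s => ?_⟩
    by_contra hne
    exact tri y z t (ha _ _ hyx p r.symm) (ha _ _ hyx q s.symm) (ha _ _ p q hne)
  by_cases hu : ∀ z, (c2 z ↔ c2 u) → z = u
  · exact key u v huv2 hu
  by_cases hv : ∀ z, (c2 z ↔ c2 v) → z = v
  · exact key v u (fun h => huv2 h.symm) hv
  exfalso
  push Not at hu hv
  obtain ⟨u', hu1, hu2⟩ := hu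
  obtain ⟨v', hv1, hv2⟩ := hv
  have hu1' : c2 u' ↔ c2 u := by tauto
  have hv1' : c2 v' ↔ c2 v := by tauto
  have e1 := adj u' u hu2 hu1'
  have e2 := adj v' v hv2 hv1'
  have pick : ∀ x y, H.Adj x y → ∃ z, (z = x ∨ z = y) ∧ c3 z := by
    intro x y h
    by_contra hc
    push Not at hc
    exact b3 x y h.ne (hc x (Or.inl rfl)) (hc y (Or.inr rfl)) h
  obtain ⟨a, ha, ha'⟩ := pick _ _ e1
  obtain ⟨b, hb, hb'⟩ := pick _ _ e2
  have hab : ¬ (c2 a ↔ c2 b) := by
    rcases ha with rfl | rfl <;> rcases hb with rfl | rfl <;> tauto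
  exact cross a b hab (a3 a b (by rintro rfl; exact hab Iff.rfl) ha' hb')

end Pool.Agent.H3.Conn
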