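import Pool.Agent.H3.Conn2

set_option autoImplicit false

namespace Pool.Agent.H3.Conn

open Finset Filter Topology SimpleGraph

lemma emb {W V : Type} (H : SimpleGraph W) (x y : W) (hyx : y ≠ x) (h1 : ∀ z, ¬ H.Adj x z)
    (h2 : ∀ z t, z ≠ x → t ≠ x → z ≠ t → H.Adj z t)
    (h3 : ∀ z t, z ≠ x → t ≠ x → z ≠ y → t ≠ y → z = t) (G : SimpleGraph V) (w u v : V)
    (hwu : w ≠ u) (hwv : w ≠ v) (n1 : ¬ G.Adj w u) (n2 : ¬ G.Adj w v)
    (h : (∃ z, z ≠ x ∧ z ≠ y) → G.Adj u v) : ¬ Free H G := by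
  classical
  intro hF
  have h1' : ∀ z, ¬ H.Adj z x := fun z h => h1 z h.symm
  have n1' : ¬ G.Adj u w := fun h => n1 h.symm
  have n2' : ¬ G.Adj v w := fun h => n2 h.symm
  refine hF.false ⟨⟨fun z => if z = x then w else if z = y then u else v, ?_⟩, ?_⟩
  · intro a b e
    simp only at e
    split_ifs at e with p q r s t r' s' t'
    · rw [p, q]
    · exact absurd e hwu
    · exact absurd e hwv
    · exact absurd e.symm hwu
    · rw [s, r']
    · exact absurd e (h ⟨b, t, r'⟩).ne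
    · exact absurd e.symm hwv
    · exact absurd e.symm (h ⟨a, p, s⟩).ne
    · exact h3 a b p s' s t'
  · intro a b
    simp only [Function.Embedding.coeFn_mk]
    split_ifs with p q r s t r' s' t'
    · simp [p, q]
    · simp [p, h1, n1]
    · simp [p, h1, n2]
    · simp [t, h1', n1']
    · simp [s, r']
    · exact iff_of_true (h ⟨b, t, r'⟩) (h2 a b p t (by rw [s]; exact Ne.symm r'))
    · simp [s', h1', n2']
    · exact iff_of_true (h ⟨a, p, s⟩).symm (h2 a b p s' (by rw [t']; exact s))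
    · rw [h3 a b p s' s t']; simp

def Gk (n k : ℕ) : SimpleGraph (Fin n) where
  Adj i j := i ≠ j ∧ (k ≤ i.1 ∨ k ≤ j.1)
  symm := ⟨fun _ _ h => ⟨h.1.symm, h.2.symm⟩⟩
  loopless := ⟨fun _ h => h.1 rfl⟩

lemma Gk_iso {n k l : ℕ} (hk : 2 ≤ k) (hkl : k < l) (hl : l ≤ n) (f : Gk n k ≃g Gk n l) : False := by
  have h : (univ.filter (fun i : Fin n => k ≤ i.1)).card ≤
      (univ.filter (fun i : Fin n => l ≤ i.1)).card := by
    apply card_le_card_of_injOn f
    · intro i hi
      simp only [coe_filter, mem_univ, true_and, Set.mem_setOf_eq] at hi ⊢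
      by_contra hc
      obtain ⟨j, hj1, hj2⟩ : ∃ j : Fin n, j ≠ f i ∧ j.1 < l := by
        by_cases h0 : (f i).1 = 0
        · exact ⟨⟨1, by omega⟩, fun e => by rw [← e] at h0; simp at h0, by simp; omega⟩
        · exact ⟨⟨0, by omega⟩, fun e => by rw [← e] at h0; simp at h0, by simp; omega⟩
      obtain ⟨j, rfl⟩ := f.surjective j
      have : (Gk n k).Adj i j := ⟨by rintro rfl; exact hj1 rfl, Or.inl hi⟩
      have := (f.map_adj_iff.2 this).2
      omega
    · exact f.injective.injOn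
  refine absurd h (not_le.2 (card_lt_card ⟨fun i hi => ?_, fun hh => ?_⟩))
  · simp only [mem_filter, mem_univ, true_and] at hi ⊢; omega
  · have := @hh ⟨k, by omega⟩ (by simp)
    simp at this; omega

section gen
variable {W : Type} (H : SimpleGraph W) (φ : ∀ n, SimpleGraph (Fin n) → Set (SimpleGraph (Fin n)))
  (p1 : ∀ n G G', φ n G = φ n G' → Nonempty (G ≃g G'))
  (p2 : ∀ n k (e : Fin k ⊕ Fin (n - k) ≃ Fin n) G1 G2 G2', φ _ G2 = φ _ G2' →
    φ n (glue e G1 G2) = φ n (glue e G1 G2'))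
include p1 p2

lemma freq (hH : ¬ H.Preconnected) (ε : ℝ) (hε : 0 < ε) (N : ℕ) :
    ∃ n, N ≤ n ∧ ((DD H φ n).card : ℝ) ≤ ε * (AA H φ n).card := by
  classical
  by_cases h1 : ∀ m (B : Finset (Fin m × Fin m)), Free H (fam False False B)
  · exact analytic (fun n => (AA H φ n).card) (fun n => (DD H φ n).card) (upper H φ p2)
      (lower H φ p1 _ _ h1) ε hε N
  by_cases h2 : ∀ m (B : Finset (Fin m × Fin m)), Free H (fam True True B)
  · exact analytic (fun n => (AA H φ n).card) (fun n => (DD H φ n).card) (upper H φ p2)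
      (lower H φ p1 _ _ h2) ε hε N
  by_cases h3 : ∀ m (B : Finset (Fin m × Fin m)), Free H (fam True False B)
  · exact analytic (fun n => (AA H φ n).card) (fun n => (DD H φ n).card) (upper H φ p2)
      (lower H φ p1 _ _ h3) ε hε N
  obtain ⟨x, y, hyx, s1, s2, s3⟩ := shape H hH h1 h2 h3
  have hnc : ∀ n, 0 < n → ∀ G : SimpleGraph (Fin n), ¬ G.Connected → ∀ u, ∃ w, ¬ G.Reachable w u := by
    intro n hn G hG u
    by_contra hc
    push Not at hc
    haveI : Nonempty (Fin n) := ⟨u⟩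
    exact hG ⟨fun a b => (hc a).trans (hc b).symm⟩
  by_cases hz : ∃ z, z ≠ x ∧ z ≠ y
  · obtain ⟨M, hM⟩ := exists_nat_gt (1 / ε)
    refine ⟨N + M + 1, by omega, ?_⟩
    have hD : (DD H φ (N + M + 1)).card ≤ 1 := by
      refine (card_le_card (t := {φ _ ⊥}) ?_).trans (by simp)
      intro q hq
      obtain ⟨G, hG, rfl⟩ := mem_image.1 hq
      obtain ⟨hn, hF, hC⟩ := (mem_filter.1 hG).2
      rw [mem_singleton]
      congr 1
      ext u v
      simp only [bot_adj, iff_false]
      intro huv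
      obtain ⟨w, hw⟩ := hnc _ hn G hC u
      exact emb H x y hyx s1 s2 s3 G w u v (by rintro rfl; exact hw (Reachable.refl _))
        (by rintro rfl; exact hw huv.symm.reachable) (fun h => hw h.reachable)
        (fun h => hw (h.reachable.trans huv.symm.reachable)) (fun _ => huv) hF
    have hA : M ≤ (AA H φ (N + M + 1)).card := by
      have := card_le_card_of_injOn (s := Icc 2 (M + 1)) (t := AA H φ (N + M + 1))
        (fun k => φ _ (Gk (N + M + 1) k)) (fun k _ => by
          refine mem_coe.2 (mem_image_of_mem _ (mem_filter.2 ⟨mem_univ _, ⟨fun f => ?_⟩⟩))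
          obtain ⟨z, z1, z2⟩ := hz
          have a := (f.map_adj_iff.2 (s2 y z hyx z1 z2.symm)).2
          have b : ¬ (Gk (N + M + 1) k).Adj (f x) (f y) := fun h => s1 _ (f.map_adj_iff.1 h)
          have c : ¬ (Gk (N + M + 1) k).Adj (f x) (f z) := fun h => s1 _ (f.map_adj_iff.1 h)
          rcases a with a | a
          · exact b ⟨f.injective.ne hyx.symm, Or.inr a⟩
          · exact c ⟨f.injective.ne z1.symm, Or.inr a⟩)
        (fun k hk l hl e => by
          simp only [coe_Icc, Set.mem_Icc] at hk hl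
          obtain ⟨f⟩ := p1 _ _ _ e
          rcases lt_trichotomy k l with h | h | h
          · exact (Gk_iso hk.1 h (by omega) f).elim
          · exact h
          · exact (Gk_iso hl.1 h (by omega) f.symm).elim)
      simpa using this
    have hD' : ((DD H φ (N + M + 1)).card : ℝ) ≤ 1 := by exact_mod_cast hD
    have hA' : (M : ℝ) ≤ (AA H φ (N + M + 1)).card := by exact_mod_cast hA
    rw [div_lt_iff₀ hε] at hM
    nlinarith
  · refine ⟨N, le_rfl, ?_⟩
    have : DD H φ N = ∅ := by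
      apply eq_empty_of_forall_notMem
      intro q hq
      obtain ⟨G, hG, rfl⟩ := mem_image.1 hq
      obtain ⟨hn, hF, hC⟩ := (mem_filter.1 hG).2
      obtain ⟨w, hw⟩ := hnc _ hn G hC ⟨0, hn⟩
      exact emb H x y hyx s1 s2 s3 G w ⟨0, hn⟩ ⟨0, hn⟩ (by rintro rfl; exact hw (Reachable.refl _))
        (by rintro rfl; exact hw (Reachable.refl _)) (fun h => hw h.reachable)
        (fun h => hw h.reachable) (fun h => absurd h hz) hF
    rw [this, card_empty, Nat.cast_zero]
    positivity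

lemma nolimit (hH : ¬ H.Preconnected) : ¬ ∃ p : ℝ, p < 1 ∧ Tendsto (fun n =>
    ((φ n '' {G : SimpleGraph (Fin n) | Free H G ∧ G.Connected}).ncard : ℝ) /
      ((φ n '' {G : SimpleGraph (Fin n) | Free H G}).ncard : ℝ)) atTop (𝓝 p) := by
  classical
  rintro ⟨p, hp, ht⟩
  obtain ⟨N, hN⟩ := eventually_atTop.1 (ht.eventually (gt_mem_nhds (by linarith : p < (1 + p) / 2)))
  obtain ⟨n, hn, h⟩ := freq H φ p1 p2 hH ((1 - p) / 2) (by linarith) (N + 1)
  have h1 := hN n (by omega)
  have e1 : φ n '' {G : SimpleGraph (Fin n) | Free H G} = ↑(AA H φ n) := by simp [AA]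
  have e2 : (AA H φ n).card ≤
      (φ n '' {G : SimpleGraph (Fin n) | Free H G ∧ G.Connected}).ncard + (DD H φ n).card := by
    rw [← Set.ncard_coe_finset, ← Set.ncard_coe_finset (DD H φ n), ← e1]
    refine le_trans (Set.ncard_le_ncard ?_) (Set.ncard_union_le _ _)
    rintro _ ⟨G, hG, rfl⟩
    by_cases hc : G.Connected
    · exact Or.inl ⟨G, ⟨hG, hc⟩, rfl⟩
    · exact Or.inr (mem_coe.2 (mem_image_of_mem _ (mem_filter.2 ⟨mem_univ _, by omega, hG, hc⟩)))
  have e3 : 0 < (AA H φ n).card := by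
    refine card_pos.2 ⟨φ n ⊤, mem_image_of_mem _ (mem_filter.2 ⟨mem_univ _, ⟨fun f => hH ?_⟩⟩)⟩
    intro a b
    by_cases e : a = b
    · rw [e]
    · exact (f.map_adj_iff.1 (f.injective.ne e)).reachable
  rw [e1, Set.ncard_coe_finset, div_lt_iff₀ (by exact_mod_cast e3)] at h1
  have e2' : ((AA H φ n).card : ℝ) ≤
      (φ n '' {G : SimpleGraph (Fin n) | Free H G ∧ G.Connected}).ncard + (DD H φ n).card := by
    exact_mod_cast e2
  nlinarith

end gen

theorem main {W : Type} (H : SimpleGraph W) (hH : ¬ H.Preconnected) :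
    (¬ ∃ p : ℝ, p < 1 ∧ Tendsto (pLab H) atTop (𝓝 p)) ∧
    ¬ ∃ p : ℝ, p < 1 ∧ Tendsto (pUnl H) atTop (𝓝 p) := by
  constructor
  · have := nolimit H (fun _ G => {G}) (fun n G G' h => by
      rw [Set.singleton_injective h]; exact ⟨Iso.refl⟩) (fun n k e G1 G2 G2' h => by
      rw [Set.singleton_injective h]) hH
    simp only [Set.ncard_image_of_injective _ Set.singleton_injective] at this
    exact this
  · refine nolimit H (fun _ => cls) (fun n G G' h => ?_) (fun n k e G1 G2 G2' h => ?_) hH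
    · have : G' ∈ cls G' := ⟨Iso.refl⟩
      rw [← h] at this
      exact this
    · have : G2' ∈ cls G2' := ⟨Iso.refl⟩
      rw [← h] at this
      obtain ⟨f⟩ := this
      have g : glue e G1 G2 ≃g glue e G1 G2' :=
        (Iso.comap e.symm _).trans ((Iso.sumCongr Iso.refl f).trans (Iso.comap e.symm _).symm)
      ext G
      exact ⟨fun ⟨a⟩ => ⟨g.symm.trans a⟩, fun ⟨a⟩ => ⟨g.trans a⟩⟩

end Pool.Agent.H3.Conn
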