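import Mathlib

set_option autoImplicit false

namespace Pool.Agent.H3.Sep

open Combinatorics

lemma lex2 {X : Type} [Finite X] (g h : X → ℝ) :
    ∃ F : X → ℝ, (∀ x y, g x < g y → F x < F y) ∧ (∀ x y, g x = g y → h x < h y → F x < F y) := by
  classical
  cases nonempty_fintype X
  let k : X → ℝ ×ₗ ℝ := fun x => toLex (g x, h x)
  have key : ∀ x y, k x < k y →
      (((Finset.univ.filter (fun z => k z < k x)).card : ℕ) : ℝ) <
        ((Finset.univ.filter (fun z => k z < k y)).card : ℕ) := by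
    intro x y hxy
    have : (Finset.univ.filter (fun z => k z < k x)) ⊂ (Finset.univ.filter (fun z => k z < k y)) := by
      rw [Finset.ssubset_iff_of_subset]
      · exact ⟨x, by simpa using hxy, by simp⟩
      · intro z hz
        simp only [Finset.mem_filter, Finset.mem_univ, true_and] at hz ⊢
        exact hz.trans hxy
    exact_mod_cast Finset.card_lt_card this
  refine ⟨fun x => ((Finset.univ.filter (fun z => k z < k x)).card : ℕ), ?_, ?_⟩
  · intro x y hxy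
    exact key x y (Prod.Lex.toLex_lt_toLex.2 (Or.inl hxy))
  · intro x y e hxy
    exact key x y (Prod.Lex.toLex_lt_toLex.2 (Or.inr ⟨e, hxy⟩))

lemma exists_inj (X : Type) [Finite X] : ∃ c : X → ℝ, Function.Injective c := by
  obtain ⟨n, ⟨e⟩⟩ := Finite.exists_equiv_fin X
  refine ⟨fun x => ((e x : ℕ) : ℝ), ?_⟩
  intro x y h
  have h' : ((e x : ℕ) : ℝ) = ((e y : ℕ) : ℝ) := h
  have : (e x : ℕ) = e y := by exact_mod_cast h'
  exact e.injective (Fin.ext this)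

def Bef {V : Type} (f : V → ℝ) (a c x y : V) : Prop :=
  f a < f x ∧ f a < f y ∧ f c < f x ∧ f c < f y

def Sp {V : Type} (f : V → ℝ) (a c x y : V) : Prop := Bef f a c x y ∨ Bef f x y a c

structure Inv {V : Type} (G : SimpleGraph V) (p b : Bool → V → ℝ) : Prop where
  ve : ∀ v x y, G.Adj x y → v ≠ x → v ≠ y → (∃ s, Sp (p s) v v x y) ∨ (∃ s, Bef (b s) v v x y)
  ee : ∀ a c x y, G.Adj a c → G.Adj x y → a ≠ x → a ≠ y → c ≠ x → c ≠ y →
    (∃ s, Sp (p s) a c x y) ∨ (∃ s, Sp (b s) a c x y)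

instance lineFinite (α ι : Type) [Finite α] [Finite ι] : Finite (Line α ι) :=
  Finite.of_injective (fun l : Line α ι => l.idxFun) (fun _ _ h => Line.ext h)

lemma line_inj {α ι : Type} (l : Line α ι) {a c : α} (h : l a = l c) : a = c := by
  obtain ⟨i, hi⟩ := l.proper
  have := congrFun h i
  rwa [l.apply_none a i hi, l.apply_none c i hi] at this

lemma line_sum {α ι : Type} [Fintype ι] (l : Line α ι) (f : α → ℝ) {a c : α} (h : f a < f c) :
    ∑ i, f (l a i) < ∑ i, f (l c i) := by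
  apply Finset.sum_lt_sum
  · intro i _
    cases hi : l.idxFun i with
    | none => rw [l.apply_none a i hi, l.apply_none c i hi]; exact h.le
    | some z => rw [l.apply_some hi, l.apply_some hi]
  · obtain ⟨i, hi⟩ := l.proper
    exact ⟨i, Finset.mem_univ _, by rw [l.apply_none a i hi, l.apply_none c i hi]; exact h⟩

def stepG {V : Type} (G : SimpleGraph V) (ι : Type) :
    SimpleGraph ((ι → V) ⊕ (Line V ι × V)) where
  Adj u v := match u, v with
    | Sum.inl _, Sum.inl _ => False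
    | Sum.inl t, Sum.inr q => t = q.1 q.2
    | Sum.inr q, Sum.inl t => t = q.1 q.2
    | Sum.inr q, Sum.inr q' => q.1 = q'.1 ∧ G.Adj q.2 q'.2
  symm := ⟨by
    rintro (t | q) (t' | q') h
    · exact h
    · exact h
    · exact h
    · exact ⟨h.1.symm, h.2.symm⟩⟩
  loopless := ⟨by
    rintro (t | q) h
    · exact h
    · exact G.irrefl h.2⟩

lemma step_col {V : Type} [Finite V] (G : SimpleGraph V) (k : ℕ) (h : ¬ G.Colorable k) :
    ∃ (ι : Type) (_ : Fintype ι), ¬ (stepG G ι).Colorable (k + 1) := by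
  classical
  obtain ⟨ι, hι, H⟩ := Line.exists_mono_in_high_dimension V (Fin (k + 1))
  refine ⟨ι, hι, ?_⟩
  rintro ⟨C⟩
  obtain ⟨l, c, hl⟩ := H (fun t => C (Sum.inl t))
  apply h
  have hne : ∀ a, C (Sum.inr (l, a)) ≠ c := by
    intro a e
    have : (stepG G ι).Adj (Sum.inl (l a)) (Sum.inr (l, a)) := rfl
    exact C.valid this ((hl a).trans e.symm)
  let C' : G.Coloring {x : Fin (k + 1) // x ≠ c} :=
    SimpleGraph.Coloring.mk (fun a => ⟨C (Sum.inr (l, a)), hne a⟩) (by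
      intro a a' haa e
      have : (stepG G ι).Adj (Sum.inr (l, a)) (Sum.inr (l, a')) := ⟨rfl, haa⟩
      exact C.valid this (congrArg Subtype.val e))
  have := C'.colorable
  simpa using this

lemma Bef.swap1 {V : Type} {f : V → ℝ} {a c x y : V} (h : Bef f a c x y) : Bef f c a x y :=
  ⟨h.2.2.1, h.2.2.2, h.1, h.2.1⟩
lemma Bef.swap2 {V : Type} {f : V → ℝ} {a c x y : V} (h : Bef f a c x y) : Bef f a c y x :=
  ⟨h.2.1, h.1, h.2.2.2, h.2.2.1⟩
lemma Sp.swap1 {V : Type} {f : V → ℝ} {a c x y : V} (h : Sp f a c x y) : Sp f c a x y :=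
  h.elim (fun h => Or.inl h.swap1) (fun h => Or.inr h.swap2)
lemma Sp.swap2 {V : Type} {f : V → ℝ} {a c x y : V} (h : Sp f a c x y) : Sp f a c y x :=
  h.elim (fun h => Or.inl h.swap2) (fun h => Or.inr h.swap1)
lemma Sp.symm {V : Type} {f : V → ℝ} {a c x y : V} (h : Sp f a c x y) : Sp f x y a c :=
  Or.symm h

lemma step_inv {V : Type} [Finite V] (G : SimpleGraph V) (p b : Bool → V → ℝ) (h : Inv G p b)
    (ι : Type) [Fintype ι] : ∃ P B, Inv (stepG G ι) P B := by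
  classical
  obtain ⟨cT, hcT⟩ := exists_inj (ι → V)
  obtain ⟨cL, hcL⟩ := exists_inj (Line V ι)
  have hQ : ∀ s : Bool, ∃ Q : (ι → V) → ℝ, (∀ t t', t ≠ t' → Q t < Q t' ∨ Q t' < Q t) ∧
      ∀ (l : Line V ι) (a c : V), p s a < p s c → Q (l a) < Q (l c) := by
    intro s
    obtain ⟨Q, q1, q2⟩ := lex2 (fun t : ι → V => ∑ i, p s (t i)) cT
    refine ⟨Q, ?_, fun l a c hac => q1 _ _ (line_sum l (p s) hac)⟩
    intro t t' htt
    rcases lt_trichotomy (∑ i, p s (t i)) (∑ i, p s (t' i)) with e | e | e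
    · exact Or.inl (q1 _ _ e)
    · rcases lt_or_gt_of_ne (fun e' => htt (hcT e')) with e' | e'
      · exact Or.inl (q2 _ _ e e')
      · exact Or.inr (q2 _ _ e.symm e')
    · exact Or.inr (q1 _ _ e)
  choose Q Q1 Q2 using hQ
  let cl : (ι → V) ⊕ (Line V ι × V) → (ι → V) := Sum.elim id (fun q => q.1 q.2)
  let w : Bool → (ι → V) ⊕ (Line V ι × V) → ℝ := fun s =>
    Sum.elim (fun _ => 0) (fun q => Real.exp (if s then cL q.1 else - cL q.1))
  have w0 : ∀ s t q, w s (Sum.inl t) < w s (Sum.inr q) := fun s t q => Real.exp_pos _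
  have w1 : ∀ l l' : Line V ι, l ≠ l' → ∃ s, ∀ a a', w s (Sum.inr (l, a)) < w s (Sum.inr (l', a')) := by
    intro l l' hll
    rcases lt_or_gt_of_ne (fun e' => hll (hcL e')) with e' | e'
    · exact ⟨true, fun a a' => by simpa [w] using e'⟩
    · exact ⟨false, fun a a' => by simpa [w] using e'⟩
  choose P P1 P2 using fun s : Bool => lex2 (fun u => Q s (cl u)) (w s)
  choose B B1 B2 using fun s : Bool =>
    lex2 (w s) (Sum.elim (fun _ => 0) (fun q : Line V ι × V => b s q.2))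
  have Pin : ∀ s (l : Line V ι) a c, p s a < p s c → ∀ u v, cl u = l a → cl v = l c →
      P s u < P s v := by
    intro s l a c hac u v hu hv
    apply P1
    rw [hu, hv]
    exact Q2 s l a c hac
  have Bin : ∀ s (l : Line V ι) a c, b s a < b s c →
      B s (Sum.inr (l, a)) < B s (Sum.inr (l, c)) := by
    intro s l a c hac
    exact B2 s _ _ rfl hac
  have BT : ∀ s t q, B s (Sum.inl t) < B s (Sum.inr q) := fun s t q => B1 s _ _ (w0 s t q)
  have PBef : ∀ s (l : Line V ι) a c x y, Bef (p s) a c x y → ∀ u1 u2 v1 v2, cl u1 = l a →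
      cl u2 = l c → cl v1 = l x → cl v2 = l y → Bef (P s) u1 u2 v1 v2 := by
    intro s l a c x y hb u1 u2 v1 v2 e1 e2 e3 e4
    exact ⟨Pin s l _ _ hb.1 _ _ e1 e3, Pin s l _ _ hb.2.1 _ _ e1 e4,
      Pin s l _ _ hb.2.2.1 _ _ e2 e3, Pin s l _ _ hb.2.2.2 _ _ e2 e4⟩
  have PSp : ∀ s (l : Line V ι) a c x y, Sp (p s) a c x y → ∀ u1 u2 v1 v2, cl u1 = l a →
      cl u2 = l c → cl v1 = l x → cl v2 = l y → Sp (P s) u1 u2 v1 v2 := by
    intro s l a c x y hb u1 u2 v1 v2 e1 e2 e3 e4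
    exact hb.elim (fun hb => Or.inl (PBef s l _ _ _ _ hb _ _ _ _ e1 e2 e3 e4))
      (fun hb => Or.inr (PBef s l _ _ _ _ hb _ _ _ _ e3 e4 e1 e2))
  have BBef : ∀ s (l : Line V ι) a c x y, Bef (b s) a c x y →
      Bef (B s) (Sum.inr (l, a)) (Sum.inr (l, c)) (Sum.inr (l, x)) (Sum.inr (l, y)) := by
    intro s l a c x y hb
    exact ⟨Bin s l _ _ hb.1, Bin s l _ _ hb.2.1, Bin s l _ _ hb.2.2.1, Bin s l _ _ hb.2.2.2⟩
  have Pcl : ∀ u1 u2 v1 v2, cl u1 = cl u2 → cl v1 = cl v2 → cl u1 ≠ cl v1 →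
      Sp (P true) u1 u2 v1 v2 := by
    intro u1 u2 v1 v2 e1 e2 hne
    rcases Q1 true _ _ hne with e | e
    · left
      refine ⟨P1 _ _ _ e, P1 _ _ _ ?_, P1 _ _ _ ?_, P1 _ _ _ ?_⟩
      · rw [← e2]; exact e
      · rw [← e1]; exact e
      · rw [← e1, ← e2]; exact e
    · right
      refine ⟨P1 _ _ _ e, P1 _ _ _ ?_, P1 _ _ _ ?_, P1 _ _ _ ?_⟩
      · rw [← e1]; exact e
      · rw [← e2]; exact e
      · rw [← e1, ← e2]; exact e
  have veM : ∀ v (l : Line V ι) (a : V), v ≠ Sum.inl (l a) → v ≠ Sum.inr (l, a) →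
      ∃ s, Sp (P s) v v (Sum.inl (l a)) (Sum.inr (l, a)) := by
    intro v l a h1 h2
    by_cases hc : cl v = l a
    · rcases v with t | ⟨l', a'⟩
      · exact absurd (congrArg Sum.inl hc) h1
      · have hll : l ≠ l' := by
          rintro rfl
          have : a' = a := line_inj l hc
          exact h2 (by rw [this])
        obtain ⟨s, hs⟩ := w1 l l' hll
        have e1 : P s (Sum.inl (l a)) < P s (Sum.inr (l', a')) :=
          P2 s _ _ (by rw [hc]; rfl) (w0 s _ _)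
        have e2 : P s (Sum.inr (l, a)) < P s (Sum.inr (l', a')) :=
          P2 s _ _ (by rw [hc]; rfl) (hs _ _)
        exact ⟨s, Or.inr ⟨e1, e1, e2, e2⟩⟩
    · exact ⟨true, Pcl _ _ _ _ rfl rfl hc⟩
  have eeMC : ∀ (l : Line V ι) (a : V) (l' : Line V ι) (x y : V), G.Adj x y →
      (l, a) ≠ (l', x) → (l, a) ≠ (l', y) →
      (∃ s, Sp (P s) (Sum.inl (l a)) (Sum.inr (l, a)) (Sum.inr (l', x)) (Sum.inr (l', y))) ∨
      (∃ s, Sp (B s) (Sum.inl (l a)) (Sum.inr (l, a)) (Sum.inr (l', x)) (Sum.inr (l', y))) := by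
    intro l a l' x y hxy h1 h2
    by_cases hll : l = l'
    · subst hll
      rcases h.ve a x y hxy (fun e => h1 (by rw [e])) (fun e => h2 (by rw [e])) with ⟨s, hs⟩ | ⟨s, hs⟩
      · exact Or.inl ⟨s, PSp s l _ _ _ _ hs _ _ _ _ rfl rfl rfl rfl⟩
      · exact Or.inr ⟨s, Or.inl ⟨BT _ _ _, BT _ _ _, Bin s l _ _ hs.1, Bin s l _ _ hs.2.1⟩⟩
    · obtain ⟨s, hs⟩ := w1 l l' hll
      exact Or.inr ⟨s, Or.inl ⟨BT _ _ _, BT _ _ _, B1 s _ _ (hs _ _), B1 s _ _ (hs _ _)⟩⟩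
  have eeMM : ∀ (l : Line V ι) (a : V) (l' : Line V ι) (a' : V), l a ≠ l' a' →
      Sp (P true) (Sum.inl (l a)) (Sum.inr (l, a)) (Sum.inl (l' a')) (Sum.inr (l', a')) :=
    fun l a l' a' hne => Pcl _ _ _ _ rfl rfl hne
  refine ⟨P, B, ?_, ?_⟩
  · rintro v (t | ⟨l, x⟩) (t' | ⟨l', y⟩) hxy h1 h2
    · exact hxy.elim
    · obtain rfl : t = l' y := hxy
      exact Or.inl (veM v l' y h1 h2)
    · obtain rfl : t' = l x := hxy
      obtain ⟨s, hs⟩ := veM v l x h2 h1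
      exact Or.inl ⟨s, hs.swap2⟩
    · obtain ⟨e, hxy⟩ := hxy
      obtain rfl : l = l' := e
      rcases v with t | ⟨l', a⟩
      · exact Or.inr ⟨true, BT _ _ _, BT _ _ _, BT _ _ _, BT _ _ _⟩
      · by_cases hll : l' = l
        · subst hll
          rcases h.ve a x y hxy (fun e => h1 (by rw [e])) (fun e => h2 (by rw [e])) with
            ⟨s, hs⟩ | ⟨s, hs⟩
          · exact Or.inl ⟨s, PSp s l' _ _ _ _ hs _ _ _ _ rfl rfl rfl rfl⟩
          · exact Or.inr ⟨s, BBef s l' _ _ _ _ hs⟩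
        · obtain ⟨s, hs⟩ := w1 l' l hll
          exact Or.inr ⟨s, B1 s _ _ (hs _ _), B1 s _ _ (hs _ _), B1 s _ _ (hs _ _), B1 s _ _ (hs _ _)⟩
  · have ne2 : ∀ {q q' : Line V ι × V}, (Sum.inr q : (ι → V) ⊕ (Line V ι × V)) ≠ Sum.inr q' →
        q ≠ q' := fun hh e => hh (by rw [e])
    have ne1 : ∀ {q q' : ι → V}, (Sum.inl q : (ι → V) ⊕ (Line V ι × V)) ≠ Sum.inl q' →
        q ≠ q' := fun hh e => hh (by rw [e])
    rintro (t | ⟨l, a⟩) (t' | ⟨l', c⟩) (r | ⟨m, x⟩) (r' | ⟨m', y⟩) hac hxy h1 h2 h3 h4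
    · exact hac.elim
    · exact hac.elim
    · exact hac.elim
    · exact hac.elim
    · exact hxy.elim
    · obtain rfl : t = l' c := hac
      obtain rfl : r = m' y := hxy
      exact Or.inl ⟨true, eeMM _ _ _ _ (ne1 h1)⟩
    · obtain rfl : t = l' c := hac
      obtain rfl : r' = m x := hxy
      exact Or.inl ⟨true, (eeMM _ _ _ _ (ne1 h2)).swap2⟩
    · obtain rfl : t = l' c := hac
      obtain ⟨e, hxy⟩ := hxy
      obtain rfl : m = m' := e
      exact eeMC _ _ _ _ _ hxy (ne2 h3) (ne2 h4)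
    · exact hxy.elim
    · obtain rfl : t' = l a := hac
      obtain rfl : r = m' y := hxy
      exact Or.inl ⟨true, (eeMM _ _ _ _ (ne1 h3)).swap1⟩
    · obtain rfl : t' = l a := hac
      obtain rfl : r' = m x := hxy
      exact Or.inl ⟨true, (eeMM _ _ _ _ (ne1 h4)).swap2.swap1⟩
    · obtain rfl : t' = l a := hac
      obtain ⟨e, hxy⟩ := hxy
      obtain rfl : m = m' := e
      exact (eeMC _ _ _ _ _ hxy (ne2 h1) (ne2 h2)).imp (fun ⟨s, hs⟩ => ⟨s, hs.swap1⟩)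
        (fun ⟨s, hs⟩ => ⟨s, hs.swap1⟩)
    · exact hxy.elim
    · obtain rfl : r = m' y := hxy
      obtain ⟨e, hac⟩ := hac
      obtain rfl : l = l' := e
      exact (eeMC _ _ _ _ _ hac (ne2 h2).symm (ne2 h4).symm).imp (fun ⟨s, hs⟩ => ⟨s, hs.symm⟩)
        (fun ⟨s, hs⟩ => ⟨s, hs.symm⟩)
    · obtain rfl : r' = m x := hxy
      obtain ⟨e, hac⟩ := hac
      obtain rfl : l = l' := e
      exact (eeMC _ _ _ _ _ hac (ne2 h1).symm (ne2 h3).symm).imp
        (fun ⟨s, hs⟩ => ⟨s, hs.symm.swap2⟩) (fun ⟨s, hs⟩ => ⟨s, hs.symm.swap2⟩)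
    · obtain ⟨e, hac⟩ := hac
      obtain rfl : l = l' := e
      obtain ⟨e, hxy⟩ := hxy
      obtain rfl : m = m' := e
      by_cases hll : l = m
      · subst hll
        rcases h.ee a c x y hac hxy (fun e => h1 (by rw [e])) (fun e => h2 (by rw [e]))
          (fun e => h3 (by rw [e])) (fun e => h4 (by rw [e])) with ⟨s, hs⟩ | ⟨s, hs⟩
        · exact Or.inl ⟨s, PSp s l _ _ _ _ hs _ _ _ _ rfl rfl rfl rfl⟩
        · exact Or.inr ⟨s, hs.elim (fun hs => Or.inl (BBef s l _ _ _ _ hs))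
            (fun hs => Or.inr (BBef s l _ _ _ _ hs))⟩
      · obtain ⟨s, hs⟩ := w1 l m hll
        exact Or.inr ⟨s, Or.inl ⟨B1 s _ _ (hs _ _), B1 s _ _ (hs _ _), B1 s _ _ (hs _ _),
          B1 s _ _ (hs _ _)⟩⟩

lemma exists_inv (k : ℕ) : ∃ (V : Type) (_ : Finite V) (G : SimpleGraph V) (p b : Bool → V → ℝ),
    ¬ G.Colorable k ∧ Inv G p b := by
  induction k with
  | zero =>
    refine ⟨Unit, inferInstance, ⊥, fun _ _ => 0, fun _ _ => 0, ?_, ?_, ?_⟩
    · rintro ⟨C⟩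
      exact (C ()).elim0
    · intro v x y h; exact h.elim
    · intro a c x y h; exact h.elim
  | succ k ih =>
    obtain ⟨V, hV, G, p, b, hc, hi⟩ := ih
    obtain ⟨ι, hι, hc'⟩ := step_col G k hc
    obtain ⟨P, B, hi'⟩ := step_inv G p b hi ι
    exact ⟨_, inferInstance, stepG G ι, P, B, hc', hi'⟩

theorem exists_sep (k : ℕ) : ∃ (V : Type) (_ : Finite V) (G : SimpleGraph V) (f : Fin 4 → V → ℝ),
    ¬ G.Colorable k ∧ ∀ a b x y : V, G.Adj a b → G.Adj x y → a ≠ x → a ≠ y → b ≠ x → b ≠ y →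
      ∃ i : Fin 4, max (f i a) (f i b) < min (f i x) (f i y) ∨
        max (f i x) (f i y) < min (f i a) (f i b) := by
  obtain ⟨V, hV, G, p, b, hc, hi⟩ := exists_inv k
  refine ⟨V, hV, G, ![p true, p false, b true, b false], hc, ?_⟩
  have conv : ∀ (g : V → ℝ) (a c x y : V), Sp g a c x y →
      max (g a) (g c) < min (g x) (g y) ∨ max (g x) (g y) < min (g a) (g c) := by
    intro g a c x y hs
    rcases hs with hs | hs
    · left; simp only [max_lt_iff, lt_min_iff]; exact ⟨⟨hs.1, hs.2.2.1⟩, hs.2.1, hs.2.2.2⟩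
    · right; simp only [max_lt_iff, lt_min_iff]; exact ⟨⟨hs.1, hs.2.2.1⟩, hs.2.1, hs.2.2.2⟩
  intro a c x y hac hxy h1 h2 h3 h4
  rcases hi.ee a c x y hac hxy h1 h2 h3 h4 with ⟨s, hs⟩ | ⟨s, hs⟩
  · cases s
    · exact ⟨1, conv _ _ _ _ _ hs⟩
    · exact ⟨0, conv _ _ _ _ _ hs⟩
  · cases s
    · exact ⟨3, conv _ _ _ _ _ hs⟩
    · exact ⟨2, conv _ _ _ _ _ hs⟩

end Pool.Agent.H3.Sep
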