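import Mathlib
import Pool.Agent.H3.Sep

set_option autoImplicit false

namespace Pool.Agent.H3.Geo

open Finset Pool.Agent.H3.Sep

lemma lex2inj {X : Type} [Finite X] (g h : X → ℝ) :
    ∃ F : X → ℝ, Function.Injective F ∧ (∀ x y, g x < g y → F x < F y) ∧
      (∀ x y, g x = g y → h x < h y → F x < F y) := by
  obtain ⟨F0, a1, a2⟩ := lex2 g h
  obtain ⟨c, hc⟩ := exists_inj X
  obtain ⟨F, b1, b2⟩ := lex2 F0 c
  refine ⟨F, ?_, fun x y hh => b1 _ _ (a1 _ _ hh), fun x y e hh => b1 _ _ (a2 _ _ e hh)⟩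
  intro x y e
  by_contra hne
  rcases lt_trichotomy (F0 x) (F0 y) with h1 | h1 | h1
  · exact absurd e (b1 _ _ h1).ne
  · rcases lt_or_gt_of_ne (fun e' => hne (hc e')) with h2 | h2
    · exact absurd e (b2 _ _ h1 h2).ne
    · exact absurd e (b2 _ _ h1.symm h2).ne'
  · exact absurd e (b1 _ _ h1).ne'

lemma exists_big {X : Type} [Finite X] (g : X → ℝ) : ∃ C, ∀ x, g x < C := by
  obtain ⟨C, hC⟩ := (Set.finite_range g).bddAbove
  exact ⟨C + 1, fun x => lt_of_le_of_lt (hC ⟨x, rfl⟩) (by linarith)⟩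

def Sep4 {U : Type} (X Y : U → ℝ) (u : U) (D : U → Prop) : Prop :=
  (∀ w, D w → X u < X w) ∨ (∀ w, D w → X w < X u) ∨ (∀ w, D w → Y u < Y w) ∨
    (∀ w, D w → Y w < Y u)

def Sup {T L P : Type} (e : L → P → T) (l : L) (a : P) (u : T ⊕ (L × P)) : Prop :=
  u = Sum.inl (e l a) ∨ u = Sum.inr (l, a)

structure GeoP {T L P : Type} (x y : P → ℝ) (e : L → P → T) (X Y : T ⊕ (L × P) → ℝ) : Prop where
  inj : ∀ l, Function.Injective (e l)
  yinj : Function.Injective Y
  px : ∀ l a b, x a < x b → ∀ u w, Sup e l a u → Sup e l b w → X u < X w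
  py : ∀ l a b, y a < y b → ∀ u w, Sup e l a u → Sup e l b w → Y u < Y w
  emp : ∀ l u, (∀ a, ¬ Sup e l a u) → Sep4 X Y u (fun w => ∃ a, Sup e l a w)

def stepE {T L P M : Type} (e : L → P → T) (φ : T → P → M) : (M × L) ⊕ T → P → M × T
  | Sum.inl q, a => (q.1, e q.2 a)
  | Sum.inr v, a => (φ v a, v)

def blk {T L P M : Type} (φ : T → P → M) : (M × T) ⊕ (((M × L) ⊕ T) × P) → M
  | Sum.inl q => q.1
  | Sum.inr (Sum.inl q, _) => q.1
  | Sum.inr (Sum.inr v, a) => φ v a

def old {T L P M : Type} : (M × T) ⊕ (((M × L) ⊕ T) × P) → T ⊕ (L × P)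
  | Sum.inl q => Sum.inl q.2
  | Sum.inr (Sum.inl q, a) => Sum.inr (q.2, a)
  | Sum.inr (Sum.inr v, _) => Sum.inl v

def isNew {T L P M : Type} : (M × T) ⊕ (((M × L) ⊕ T) × P) → Bool
  | Sum.inl _ => false
  | Sum.inr (Sum.inl _, _) => false
  | Sum.inr (Sum.inr _, _) => true

lemma geo_step {T L P M : Type} [Finite T] [Finite L] [Finite P] [Finite M]
    (x y : P → ℝ) (e : L → P → T) (X Y : T ⊕ (L × P) → ℝ) (h : GeoP x y e X Y)
    (μ : M → ℝ) (hμ : Function.Injective μ) (φ : T → P → M)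
    (hφ1 : ∀ v, Function.Injective (φ v)) (hφ2 : ∀ v a b, x a < x b → μ (φ v a) < μ (φ v b)) :
    ∃ X' Y', GeoP x y (stepE e φ) X' Y' := by
  classical
  obtain ⟨Cx, hCx⟩ := exists_big X
  obtain ⟨Cy, hCy⟩ := exists_big y
  let ψ : T → M → ℝ := fun v => Function.extend (φ v) y (fun _ => Cy)
  have ψ1 : ∀ v a, ψ v (φ v a) = y a := fun v a => (hφ1 v).extend_apply _ _ a
  have ψ2 : ∀ v b, (∀ a, φ v a ≠ b) → ψ v b = Cy := fun v b hb =>
    Function.extend_apply' _ _ b (fun ⟨a, ha⟩ => hb a ha)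
  obtain ⟨X', X1, X2⟩ := lex2 (X := (M × T) ⊕ (((M × L) ⊕ T) × P)) (fun u => μ (blk φ u))
    (fun u => if isNew u then Cx else X (old u))
  obtain ⟨Y', Y0, Y1, Y2⟩ := lex2inj (X := (M × T) ⊕ (((M × L) ⊕ T) × P)) (fun u => Y (old u))
    (fun u => Sum.elim (fun v => ψ v (blk φ u)) (fun _ => 0) (old u))
  have so : ∀ (b : M) (l : L) a u, Sup (stepE e φ) (Sum.inl (b, l)) a u →
      blk φ u = b ∧ isNew u = false ∧ Sup e l a (old u) := by
    rintro b l a u (rfl | rfl)
    · exact ⟨rfl, rfl, Or.inl rfl⟩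
    · exact ⟨rfl, rfl, Or.inr rfl⟩
  have sn : ∀ (v : T) a u, Sup (stepE e φ) (Sum.inr v) a u →
      blk φ u = φ v a ∧ old u = Sum.inl v := by
    rintro v a u (rfl | rfl)
    · exact ⟨rfl, rfl⟩
    · exact ⟨rfl, rfl⟩
  have Xo : ∀ u w, blk φ u = blk φ w → isNew u = false → isNew w = false →
      X (old u) < X (old w) → X' u < X' w := by
    intro u w e1 e2 e3 hlt
    apply X2 u w (by rw [e1])
    simpa [e2, e3] using hlt
  refine ⟨X', Y', ?_, Y0, ?_, ?_, ?_⟩
  · rintro (⟨b, l⟩ | v) a a' hh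
    · exact h.inj l (congrArg Prod.snd hh)
    · exact hφ1 v (congrArg Prod.fst hh)
  · rintro (⟨b, l⟩ | v) a a' hlt u w hu hw
    · obtain ⟨u1, u2, u3⟩ := so b l a u hu
      obtain ⟨w1, w2, w3⟩ := so b l a' w hw
      exact Xo u w (u1.trans w1.symm) u2 w2 (h.px l a a' hlt _ _ u3 w3)
    · obtain ⟨u1, -⟩ := sn v a u hu
      obtain ⟨w1, -⟩ := sn v a' w hw
      apply X1
      rw [u1, w1]
      exact hφ2 v a a' hlt
  · rintro (⟨b, l⟩ | v) a a' hlt u w hu hw
    · obtain ⟨-, -, u3⟩ := so b l a u hu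
      obtain ⟨-, -, w3⟩ := so b l a' w hw
      exact Y1 _ _ (h.py l a a' hlt _ _ u3 w3)
    · obtain ⟨u1, u2⟩ := sn v a u hu
      obtain ⟨w1, w2⟩ := sn v a' w hw
      apply Y2 _ _ (by rw [u2, w2])
      rw [u1, u2, w1, w2]
      simpa [ψ1] using hlt
  · rintro (⟨b, l⟩ | v) u hu
    · by_cases hb : blk φ u = b
      · by_cases hn : isNew u = true
        · right; left
          rintro w ⟨a, hw⟩
          obtain ⟨w1, w2, -⟩ := so b l a w hw
          apply X2 w u (by rw [w1, hb])
          simpa [hn, w2] using hCx _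
        · have hn' : isNew u = false := by simpa using hn
          have hno : ∀ a, ¬ Sup e l a (old u) := by
            intro a ha
            apply hu a
            rcases u with ⟨b', t⟩ | ⟨⟨b', l'⟩ | v, a'⟩
            · obtain rfl : b' = b := hb
              rcases ha with ha | ha
              · left
                have : t = e l a := Sum.inl.inj ha
                rw [this]; rfl
              · exact absurd ha (by simp [old])
            · obtain rfl : b' = b := hb
              rcases ha with ha | ha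
              · exact absurd ha (by simp [old])
              · right
                have : (l', a') = (l, a) := Sum.inr.inj ha
                obtain ⟨rfl, rfl⟩ := Prod.mk.inj this
                rfl
            · exact absurd hn' (by simp [isNew])
          rcases h.emp l (old u) hno with k | k | k | k
          · left
            rintro w ⟨a, hw⟩
            obtain ⟨w1, w2, w3⟩ := so b l a w hw
            exact Xo u w (hb.trans w1.symm) hn' w2 (k _ ⟨a, w3⟩)
          · right; left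
            rintro w ⟨a, hw⟩
            obtain ⟨w1, w2, w3⟩ := so b l a w hw
            exact Xo w u (w1.trans hb.symm) w2 hn' (k _ ⟨a, w3⟩)
          · right; right; left
            rintro w ⟨a, hw⟩
            exact Y1 _ _ (k _ ⟨a, (so b l a w hw).2.2⟩)
          · right; right; right
            rintro w ⟨a, hw⟩
            exact Y1 _ _ (k _ ⟨a, (so b l a w hw).2.2⟩)
      · rcases lt_or_gt_of_ne (fun e' => hb (hμ e')) with k | k
        · left
          rintro w ⟨a, hw⟩
          apply X1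
          rw [(so b l a w hw).1]; exact k
        · right; left
          rintro w ⟨a, hw⟩
          apply X1
          rw [(so b l a w hw).1]; exact k
    · by_cases ho : old u = Sum.inl v
      · right; right; right
        rintro w ⟨a, hw⟩
        obtain ⟨w1, w2⟩ := sn v a w hw
        apply Y2 _ _ (by rw [w2, ho])
        have hb : ∀ a', φ v a' ≠ blk φ u := by
          intro a' ha
          apply hu a'
          rcases u with ⟨b', t⟩ | ⟨⟨b', l'⟩ | v', a''⟩
          · obtain rfl : t = v := Sum.inl.inj ho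
            obtain rfl : φ t a' = b' := ha
            exact Or.inl rfl
          · exact absurd ho (by simp [old])
          · obtain rfl : v' = v := Sum.inl.inj ho
            obtain rfl : a' = a'' := hφ1 v' ha
            exact Or.inr rfl
        rw [w1, w2, ho]
        simp only [Sum.elim_inl, ψ1, ψ2 v _ hb]
        exact hCy a
      · rcases lt_or_gt_of_ne (fun e' => ho (h.yinj e')) with k | k
        · right; right; left
          rintro w ⟨a, hw⟩
          apply Y1
          rw [(sn v a w hw).2]; exact k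
        · right; right; right
          rintro w ⟨a, hw⟩
          apply Y1
          rw [(sn v a w hw).2]; exact k

def Good {T L P κ : Type} (e : L → P → T) (c : T → κ) : Prop := ∀ l, ¬ ∃ k, ∀ a, c (e l a) = k

lemma ncard_eq {X : Type} [Fintype X] (p : X → Prop) [DecidablePred p] :
    Set.ncard {c | p c} = (univ.filter p).card := by
  rw [← Set.ncard_coe_finset]; congr 1; ext c; simp

lemma count_step {T L P M κ : Type} [Fintype T] [Fintype P] [Fintype M] [Fintype κ]
    (e : L → P → T) (Φ : Finset (P → M)) (hΦ : Φ.Nonempty)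
    (hR : ∀ γ : M → κ, ∃ φ ∈ Φ, ∃ k, ∀ a, γ (φ a) = k) :
    ∃ φ : T → P → M, (∀ v, φ v ∈ Φ) ∧
      Set.ncard {c : M × T → κ | Good (stepE e φ) c} * Φ.card ^ Fintype.card T ≤
        Set.ncard {c : T → κ | Good e c} ^ Fintype.card M *
          (Φ.card - 1) ^ Fintype.card T := by
  classical
  set Gd := univ.filter (fun c : T → κ => Good e c) with hGd
  set CC := Fintype.piFinset (fun _ : M => Gd) with hCC
  set FF := Fintype.piFinset (fun _ : T => Φ) with hFF
  let ok : (T → P → M) → (M → T → κ) → Prop := fun φ cc => ∀ v, ¬ ∃ k, ∀ a, cc (φ v a) v = k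
  have h1 : ∀ φ : T → P → M, (univ.filter (fun c : M × T → κ => Good (stepE e φ) c)).card ≤
      (CC.filter (fun cc => ok φ cc)).card := by
    intro φ
    apply Finset.card_le_card_of_injOn (fun c b t => c (b, t))
    · intro c hc
      simp only [Finset.coe_filter, Finset.mem_univ, true_and, Set.mem_ofPred_eq] at hc
      simp only [Finset.coe_filter, Set.mem_ofPred_eq, hCC, Fintype.mem_piFinset, hGd,
        Finset.mem_filter, Finset.mem_univ, true_and]
      exact ⟨fun b l => hc (Sum.inl (b, l)), fun v => hc (Sum.inr v)⟩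
    · intro c _ c' _ hh
      funext ⟨b, t⟩
      exact congrFun (congrFun hh b) t
  have h2 : ∀ cc : M → T → κ, (FF.filter (fun φ => ok φ cc)).card ≤
      (Φ.card - 1) ^ Fintype.card T := by
    intro cc
    have : FF.filter (fun φ => ok φ cc) =
        Fintype.piFinset (fun v : T => Φ.filter (fun f => ¬ ∃ k, ∀ a, cc (f a) v = k)) := by
      ext φ
      simp only [hFF, Finset.mem_filter, Fintype.mem_piFinset, ok]
      exact ⟨fun hh v => ⟨hh.1 v, hh.2 v⟩, fun hh => ⟨fun v => (hh v).1, fun v => (hh v).2⟩⟩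
    rw [this, Fintype.card_piFinset, ← Finset.card_univ, ← Finset.prod_const]
    apply Finset.prod_le_prod'
    intro v _
    obtain ⟨f, hf, hk⟩ := hR (fun b => cc b v)
    have : (Φ.filter (fun f => ¬ ∃ k, ∀ a, cc (f a) v = k)).card < Φ.card := by
      apply Finset.card_lt_card
      rw [Finset.ssubset_iff_of_subset (Finset.filter_subset _ _)]
      exact ⟨f, hf, fun hh => (Finset.mem_filter.1 hh).2 hk⟩
    omega
  have hFc : FF.card = Φ.card ^ Fintype.card T := by
    rw [hFF, Fintype.card_piFinset]; simp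
  have hCc : CC.card = Gd.card ^ Fintype.card M := by
    rw [hCC, Fintype.card_piFinset]; simp
  have hsum : ∑ φ ∈ FF, (CC.filter (fun cc => ok φ cc)).card * Φ.card ^ Fintype.card T ≤
      ∑ _φ ∈ FF, Gd.card ^ Fintype.card M * (Φ.card - 1) ^ Fintype.card T := by
    rw [← Finset.sum_mul, Finset.sum_const, smul_eq_mul, hFc, mul_comm]
    apply Nat.mul_le_mul_left
    have : ∑ φ ∈ FF, (CC.filter (fun cc => ok φ cc)).card =
        ∑ cc ∈ CC, (FF.filter (fun φ => ok φ cc)).card := by
      simp only [Finset.card_filter]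
      exact Finset.sum_comm
    rw [this, ← hCc, ← smul_eq_mul, ← Finset.sum_const]
    exact Finset.sum_le_sum (fun cc _ => h2 cc)
  have hne : FF.Nonempty := by
    rw [hFF, Fintype.piFinset_nonempty]; exact fun _ => hΦ
  obtain ⟨φ, hφ, hle⟩ := Finset.exists_le_of_sum_le hne hsum
  refine ⟨φ, by simpa [hFF] using hφ, ?_⟩
  rw [ncard_eq, ncard_eq]
  exact le_trans (Nat.mul_le_mul_right _ (h1 φ)) hle

lemma geo_ind {P M κ : Type} [Fintype P] [Fintype M] [Fintype κ] [Nonempty M] (x y : P → ℝ)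
    (μ : M → ℝ) (hμ : Function.Injective μ) (Φ : Finset (P → M)) (hΦ : Φ.Nonempty)
    (hΦ1 : ∀ f ∈ Φ, Function.Injective f ∧ ∀ a b, x a < x b → μ (f a) < μ (f b))
    (hR : ∀ γ : M → κ, ∃ φ ∈ Φ, ∃ k, ∀ a, γ (φ a) = k) (S : ℕ) :
    ∃ (T L : Type) (_ : Fintype T) (_ : Finite L) (e : L → P → T) (X Y : T ⊕ (L × P) → ℝ),
      0 < Fintype.card T ∧ GeoP x y e X Y ∧
      ((Set.ncard {c : T → κ | Good e c} : ℕ) : ℝ) ^ Fintype.card M ≤
        ((Fintype.card κ : ℝ) ^ Fintype.card M *
          (((Φ.card - 1 : ℕ) : ℝ) / Φ.card) ^ S) ^ Fintype.card T := by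
  classical
  induction S with
  | zero =>
    refine ⟨Unit, Empty, inferInstance, inferInstance, fun l => l.elim, fun _ => 0, fun _ => 0,
      by simp, ⟨fun l => l.elim, ?_, fun l => l.elim, fun l => l.elim, fun l => l.elim⟩, ?_⟩
    · rintro (u | ⟨l, _⟩) (v | ⟨l', _⟩) _
      · rfl
      · exact l'.elim
      · exact l.elim
      · exact l.elim
    · simp only [pow_zero, mul_one, Fintype.card_unit, pow_one]
      apply pow_le_pow_left₀ (by positivity)
      rw [ncard_eq]
      have := Finset.card_filter_le (univ : Finset (Unit → κ))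
        (fun c : Unit → κ => Good (fun (l : Empty) (_ : P) => (l.elim : Unit)) c)
      simp only [Finset.card_univ, Fintype.card_fun, Fintype.card_unit, pow_one] at this
      exact_mod_cast this
  | succ S ih =>
    obtain ⟨T, L, hT, hL, e, X, Y, hpos, hg, hc⟩ := ih
    obtain ⟨φ, hφ, hcnt⟩ := count_step (κ := κ) e Φ hΦ hR
    obtain ⟨X', Y', hg'⟩ := geo_step x y e X Y hg μ hμ φ (fun v => (hΦ1 _ (hφ v)).1)
      (fun v => (hΦ1 _ (hφ v)).2)
    refine ⟨M × T, (M × L) ⊕ T, inferInstance, inferInstance, stepE e φ, X', Y', ?_, hg', ?_⟩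
    · rw [Fintype.card_prod]
      exact Nat.mul_pos Fintype.card_pos hpos
    · have hN : (0 : ℝ) < Φ.card := by exact_mod_cast Finset.card_pos.2 hΦ
      have h1 : ((Set.ncard {c : M × T → κ | Good (stepE e φ) c} : ℕ) : ℝ) *
          (Φ.card : ℝ) ^ Fintype.card T ≤
          ((Set.ncard {c : T → κ | Good e c} : ℕ) : ℝ) ^ Fintype.card M *
            ((Φ.card - 1 : ℕ) : ℝ) ^ Fintype.card T := by exact_mod_cast hcnt
      have h2 : ((Set.ncard {c : M × T → κ | Good (stepE e φ) c} : ℕ) : ℝ) ≤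
          ((Fintype.card κ : ℝ) ^ Fintype.card M *
            (((Φ.card - 1 : ℕ) : ℝ) / Φ.card) ^ (S + 1)) ^ Fintype.card T := by
        rw [pow_succ, ← mul_assoc, mul_pow, div_pow _ _ (Fintype.card T), ← mul_div_assoc,
          le_div_iff₀ (by positivity)]
        exact h1.trans (mul_le_mul_of_nonneg_right hc (by positivity))
      rw [Fintype.card_prod, mul_comm (Fintype.card M), pow_mul]
      exact pow_le_pow_left₀ (by positivity) h2 (Fintype.card M)

theorem exists_geo {P : Type} [Fintype P] (x y : P → ℝ) (k : ℕ) :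
    ∃ (T L : Type) (_ : Finite T) (_ : Finite L) (e : L → P → T) (X Y : T ⊕ (L × P) → ℝ),
      GeoP x y e X Y ∧ ∀ c : T → Fin (k + 1), ∃ l, ∃ j, ∀ a, c (e l a) = j := by
  classical
  set n := Fintype.card P with hn
  obtain ⟨x', hx0, hx1, -⟩ := lex2inj x x
  letI : LinearOrder P := LinearOrder.lift' x' hx0
  let ι : Fin n ≃o P := monoEquivOfFin P rfl
  let Φ : Finset (P → Fin ((k + 1) * n + 1)) := univ.filter (fun f => StrictMono f)
  have hR : ∀ γ : Fin ((k + 1) * n + 1) → Fin (k + 1), ∃ φ ∈ Φ, ∃ j, ∀ a, γ (φ a) = j := by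
    intro γ
    obtain ⟨j, hj⟩ := Fintype.exists_le_card_fiber_of_mul_le_card γ (n := n) (by simp)
    refine ⟨fun a => Finset.orderEmbOfCardLe _ hj (ι.symm a), ?_, j, ?_⟩
    · simp only [Φ, Finset.mem_filter, Finset.mem_univ, true_and]
      exact (Finset.orderEmbOfCardLe _ hj).strictMono.comp ι.symm.strictMono
    · intro a
      exact (Finset.mem_filter.1 (Finset.orderEmbOfCardLe_mem _ hj (ι.symm a))).2
  have hΦ : Φ.Nonempty := by
    obtain ⟨φ, hφ, -⟩ := hR (fun _ => 0)
    exact ⟨φ, hφ⟩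
  have hN : (0 : ℝ) < Φ.card := by exact_mod_cast Finset.card_pos.2 hΦ
  have hδ : (((Φ.card - 1 : ℕ) : ℝ) / Φ.card) < 1 := by
    rw [div_lt_one hN]
    have := Finset.card_pos.2 hΦ
    exact_mod_cast (by omega : Φ.card - 1 < Φ.card)
  set A : ℝ := (Fintype.card (Fin (k + 1)) : ℝ) ^ Fintype.card (Fin ((k + 1) * n + 1)) with hA
  have hApos : 0 < A := by
    rw [hA]; simp only [Fintype.card_fin]; positivity
  obtain ⟨S, hS⟩ := exists_pow_lt_of_lt_one (show 0 < 1 / A by positivity) hδ
  obtain ⟨T, L, hT, hL, e, X, Y, hpos, hg, hc⟩ := geo_ind (κ := Fin (k + 1)) x y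
    (fun b : Fin ((k + 1) * n + 1) => ((b : ℕ) : ℝ))
    (fun b b' hh => Fin.ext (by exact_mod_cast (show ((b : ℕ) : ℝ) = ((b' : ℕ) : ℝ) from hh)))
    Φ hΦ (by
      intro f hf
      have hf' : StrictMono f := (Finset.mem_filter.1 hf).2
      refine ⟨hf'.injective, fun a b hab => ?_⟩
      have : f a < f b := hf' (show a < b from hx1 a b hab)
      exact_mod_cast this) hR S
  refine ⟨T, L, inferInstance, hL, e, X, Y, hg, ?_⟩
  intro c
  by_contra hno
  have hgood : Good e c := fun l hl => hno ⟨l, hl⟩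
  have h1 : A * (((Φ.card - 1 : ℕ) : ℝ) / Φ.card) ^ S < 1 := by
    rw [lt_div_iff₀ hApos] at hS
    linarith
  have h2 : (A * (((Φ.card - 1 : ℕ) : ℝ) / Φ.card) ^ S) ^ Fintype.card T < 1 :=
    pow_lt_one₀ (by positivity) h1 hpos.ne'
  have h3 := lt_of_le_of_lt hc h2
  refine absurd h3 (not_lt.2 (one_le_pow₀ ?_))
  have : 1 ≤ Set.ncard {c : T → Fin (k + 1) | Good e c} :=
    (Set.ncard_pos (Set.toFinite _)).2 ⟨c, hgood⟩
  exact (Nat.one_le_cast (α := ℝ)).2 this

end Pool.Agent.H3.Geo
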