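import Mathlib
import Pool.Agent.H3.Geo

set_option autoImplicit false

namespace Pool.Agent.H3.CovG

open Pool.Agent.H3.Geo

def newLe {T L P : Type} [PartialOrder P] (e : L → P → T) : T ⊕ (L × P) → T ⊕ (L × P) → Prop
  | Sum.inl t, Sum.inl t' => t = t'
  | Sum.inl t, Sum.inr q => ∃ a, a ≤ q.2 ∧ t = e q.1 a
  | Sum.inr _, Sum.inl _ => False
  | Sum.inr q, Sum.inr q' => q.1 = q'.1 ∧ q.2 ≤ q'.2

@[reducible] def newPO {T L P : Type} [PartialOrder P] (e : L → P → T) :
    PartialOrder (T ⊕ (L × P)) where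
  le := newLe e
  lt := fun u v => newLe e u v ∧ ¬ newLe e v u
  lt_iff_le_not_ge := fun _ _ => Iff.rfl
  le_refl := by
    rintro (t | q)
    · exact rfl
    · exact ⟨rfl, le_rfl⟩
  le_trans := by
    rintro (t | q) (t' | q') (t'' | q'') h1 h2
    · exact Eq.trans h1 h2
    · obtain rfl : t = t' := h1
      exact h2
    · exact h2.elim
    · obtain ⟨a, ha, rfl⟩ := h1
      exact ⟨a, ha.trans h2.2, by rw [h2.1]⟩
    · exact h1.elim
    · exact h1.elim
    · exact h2.elim
    · exact ⟨h1.1.trans h2.1, h1.2.trans h2.2⟩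
  le_antisymm := by
    rintro (t | q) (t' | q') h1 h2
    · exact congrArg Sum.inl h1
    · exact h2.elim
    · exact h1.elim
    · exact congrArg Sum.inr (Prod.ext h1.1 (le_antisymm h1.2 h2.2))

def Cv {P : Type} [PartialOrder P] (a b : P) : Prop := a ⋖ b ∨ b ⋖ a

lemma adj_iff {P : Type} [PartialOrder P] (a b : P) :
    (SimpleGraph.fromRel (fun x y : P => x ⋖ y)).Adj a b ↔ Cv a b := by
  rw [SimpleGraph.fromRel_adj]
  constructor
  · exact fun h => h.2
  · intro h
    refine ⟨?_, h⟩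
    rcases h with h | h
    · exact h.ne
    · exact h.ne'

def newA {T L P : Type} [PartialOrder P] (e : L → P → T) : T ⊕ (L × P) → T ⊕ (L × P) → Prop
  | Sum.inl _, Sum.inl _ => False
  | Sum.inl t, Sum.inr q => t = e q.1 q.2
  | Sum.inr q, Sum.inl t => t = e q.1 q.2
  | Sum.inr q, Sum.inr q' => q.1 = q'.1 ∧ Cv q.2 q'.2

lemma cov1 {T L P : Type} [PartialOrder P] (e : L → P → T) (hi : ∀ l, Function.Injective (e l))
    (t : T) (l : L) (a : P) :
    @CovBy _ (newPO e).toLT (Sum.inl t) (Sum.inr (l, a)) ↔ t = e l a := by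
  constructor
  · rintro ⟨⟨⟨b, hb, rfl⟩, -⟩, h2⟩
    by_contra hne
    have hba : b ≠ a := fun h => hne (by rw [h])
    exact @h2 (Sum.inr (l, b)) ⟨⟨b, le_rfl, rfl⟩, fun h => h⟩
      ⟨⟨rfl, hb⟩, fun h => hba (le_antisymm hb h.2)⟩
  · rintro rfl
    refine ⟨⟨⟨a, le_rfl, rfl⟩, fun h => h⟩, ?_⟩
    rintro (t' | ⟨l', b⟩) h1 h2
    · exact h1.2 (Eq.symm h1.1)
    · obtain ⟨c, hc, hc'⟩ := h1.1
      obtain ⟨e1, hba⟩ := h2.1
      obtain rfl : l' = l := e1
      obtain rfl : a = c := hi l' hc'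
      exact h2.2 ⟨rfl, hc⟩

lemma cov2 {T L P : Type} [PartialOrder P] (e : L → P → T) (l l' : L) (a a' : P) :
    @CovBy _ (newPO e).toLT (Sum.inr (l, a)) (Sum.inr (l', a')) ↔ l = l' ∧ a ⋖ a' := by
  constructor
  · rintro ⟨⟨⟨e1, h1⟩, h1'⟩, h2⟩
    obtain rfl : l = l' := e1
    refine ⟨rfl, lt_of_le_not_ge h1 (fun h => h1' ⟨rfl, h⟩), ?_⟩
    intro c hc1 hc2
    exact @h2 (Sum.inr (l, c)) ⟨⟨rfl, hc1.le⟩, fun h => hc1.not_ge h.2⟩
      ⟨⟨rfl, hc2.le⟩, fun h => hc2.not_ge h.2⟩
  · rintro ⟨rfl, h⟩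
    refine ⟨⟨⟨rfl, h.le⟩, fun h' => h.lt.not_ge h'.2⟩, ?_⟩
    rintro (t' | ⟨l', b⟩) h1 h2
    · exact h1.1
    · obtain ⟨e1, hab⟩ := h1.1
      obtain rfl : l = l' := e1
      exact h.2 (lt_of_le_not_ge hab (fun h' => h1.2 ⟨rfl, h'⟩))
        (lt_of_le_not_ge h2.1.2 (fun h' => h2.2 ⟨rfl, h'⟩))

lemma cv_iff {T L P : Type} [PartialOrder P] (e : L → P → T) (hi : ∀ l, Function.Injective (e l))
    (u v : T ⊕ (L × P)) : @Cv _ (newPO e) u v ↔ newA e u v := by
  rcases u with t | ⟨l, a⟩ <;> rcases v with t' | ⟨l', a'⟩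
  · constructor
    · rintro (h | h)
      · exact h.1.2 (Eq.symm h.1.1)
      · exact h.1.2 (Eq.symm h.1.1)
    · exact fun h => h.elim
  · constructor
    · rintro (h | h)
      · exact (cov1 e hi _ _ _).1 h
      · exact h.1.1.elim
    · exact fun h => Or.inl ((cov1 e hi _ _ _).2 h)
  · constructor
    · rintro (h | h)
      · exact h.1.1.elim
      · exact (cov1 e hi _ _ _).1 h
    · exact fun h => Or.inr ((cov1 e hi _ _ _).2 h)
  · constructor
    · rintro (h | h)
      · obtain ⟨h1, h2⟩ := (cov2 e _ _ _ _).1 h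
        exact ⟨h1, Or.inl h2⟩
      · obtain ⟨h1, h2⟩ := (cov2 e _ _ _ _).1 h
        exact ⟨h1.symm, Or.inr h2⟩
    · rintro ⟨h1, h | h⟩
      · exact Or.inl ((cov2 e _ _ _ _).2 ⟨h1, h⟩)
      · exact Or.inr ((cov2 e _ _ _ _).2 ⟨h1.symm, h⟩)

structure Inv (P : Type) [PartialOrder P] (x y : P → ℝ) (k : ℕ) : Prop where
  rep : ∀ a a' : P, ¬ a ≤ a' → Sep4 x y a (fun b => b ≤ a')
  tri : ∀ a b c : P, Cv a b → Cv b c → Cv c a → False
  quad : ∀ a b c d : P, Cv a b → Cv b c → Cv c d → Cv d a → a = c ∨ b = d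
  col : ∀ C : P → Fin k, ∃ a b, Cv a b ∧ C a = C b

lemma sep4_mono {U : Type} {X Y : U → ℝ} {u : U} {D D' : U → Prop} (h : Sep4 X Y u D)
    (hD : ∀ w, D' w → D w) : Sep4 X Y u D' := by
  rcases h with k | k | k | k
  · exact Or.inl (fun w hw => k w (hD w hw))
  · exact Or.inr (Or.inl (fun w hw => k w (hD w hw)))
  · exact Or.inr (Or.inr (Or.inl (fun w hw => k w (hD w hw))))
  · exact Or.inr (Or.inr (Or.inr (fun w hw => k w (hD w hw))))

lemma step (P : Type) [Fintype P] [PartialOrder P] (x y : P → ℝ) (k : ℕ) (h : Inv P x y k) :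
    ∃ (Q : Type) (_ : Finite Q) (_ : PartialOrder Q) (X Y : Q → ℝ), Inv Q X Y (k + 1) := by
  classical
  obtain ⟨T, L, hT, hL, e, X, Y, hg, hc⟩ := exists_geo x y k
  refine ⟨T ⊕ (L × P), inferInstance, newPO e, X, Y, @Inv.mk _ (newPO e) _ _ _ ?_ ?_ ?_ ?_⟩
  · rintro u (t | ⟨l, a'⟩) hu
    · have hne : u ≠ Sum.inl t := by
        rintro rfl
        exact hu rfl
      have hD : ∀ w, newLe e w (Sum.inl t) → w = Sum.inl t := by
        rintro (t' | q) hw
        · exact congrArg Sum.inl hw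
        · exact hw.elim
      rcases lt_or_gt_of_ne (fun e' => hne (hg.yinj e')) with k | k
      · right; right; left
        intro w hw; rw [hD w hw]; exact k
      · right; right; right
        intro w hw; rw [hD w hw]; exact k
    · have hD : ∀ w, newLe e w (Sum.inr (l, a')) → ∃ b, b ≤ a' ∧ Sup e l b w := by
        rintro (t' | ⟨l', b⟩) hw
        · obtain ⟨b, hb, rfl⟩ := hw
          exact ⟨b, hb, Or.inl rfl⟩
        · obtain ⟨e1, hb⟩ := hw
          obtain rfl : l' = l := e1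
          exact ⟨b, hb, Or.inr rfl⟩
      by_cases hs : ∃ a, Sup e l a u
      · obtain ⟨a, ha⟩ := hs
        have hna : ¬ a ≤ a' := by
          intro hle
          apply hu
          rcases ha with rfl | rfl
          · exact ⟨a, hle, rfl⟩
          · exact ⟨rfl, hle⟩
        rcases h.rep a a' hna with k | k | k | k
        · left
          intro w hw
          obtain ⟨b, hb, hw'⟩ := hD w hw
          exact hg.px l a b (k b hb) u w ha hw'
        · right; left
          intro w hw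
          obtain ⟨b, hb, hw'⟩ := hD w hw
          exact hg.px l b a (k b hb) w u hw' ha
        · right; right; left
          intro w hw
          obtain ⟨b, hb, hw'⟩ := hD w hw
          exact hg.py l a b (k b hb) u w ha hw'
        · right; right; right
          intro w hw
          obtain ⟨b, hb, hw'⟩ := hD w hw
          exact hg.py l b a (k b hb) w u hw' ha
      · exact sep4_mono (hg.emp l u (fun a ha => hs ⟨a, ha⟩)) (fun w hw => by
          obtain ⟨b, -, hw'⟩ := hD w hw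
          exact ⟨b, hw'⟩)
  · intro a b c h1 h2 h3
    rw [cv_iff e hg.inj] at h1 h2 h3
    rcases a with t | ⟨l, a⟩ <;> rcases b with t' | ⟨l', b⟩ <;> rcases c with t'' | ⟨l'', c⟩
    · exact h1
    · exact h1
    · exact h3
    · obtain ⟨e1, h2⟩ := h2
      obtain rfl : l' = l'' := e1
      have : b = c := hg.inj l' (Eq.trans (Eq.symm h1) h3)
      subst this
      exact h2.elim (fun h => h.ne rfl) (fun h => h.ne rfl)
    · exact h2
    · obtain ⟨e1, h3⟩ := h3
      obtain rfl : l'' = l := e1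
      have : c = a := hg.inj l'' (Eq.trans (Eq.symm h2) h1)
      subst this
      exact h3.elim (fun h => h.ne rfl) (fun h => h.ne rfl)
    · obtain ⟨e1, h1⟩ := h1
      obtain rfl : l = l' := e1
      have : a = b := hg.inj l (Eq.trans (Eq.symm h3) h2)
      subst this
      exact h1.elim (fun h => h.ne rfl) (fun h => h.ne rfl)
    · exact h.tri a b c h1.2 h2.2 h3.2
  · intro a b c d h1 h2 h3 h4
    rw [cv_iff e hg.inj] at h1 h2 h3 h4
    rcases a with t | ⟨l, a⟩ <;> rcases b with t' | ⟨l', b⟩ <;> rcases c with t'' | ⟨l'', c⟩ <;>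
      rcases d with t3 | ⟨l3, d⟩
    · exact h1.elim
    · exact h1.elim
    · exact h1.elim
    · exact h1.elim
    · exact h3.elim
    · exact Or.inl (congrArg Sum.inl (Eq.trans h1 (Eq.symm h2)))
    · exact h4.elim
    · obtain rfl : l' = l'' := h2.1
      obtain rfl : l' = l3 := h3.1
      have : b = d := hg.inj l' (Eq.trans (Eq.symm h1) h4)
      exact Or.inr (by rw [this])
    · exact h2.elim
    · exact h2.elim
    · exact Or.inr (congrArg Sum.inl (Eq.trans h1 (Eq.symm h4)))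
    · obtain rfl : l'' = l3 := h3.1
      obtain rfl : l'' = l := h4.1
      have : a = c := hg.inj l'' (Eq.trans (Eq.symm h1) h2)
      exact Or.inl (by rw [this])
    · exact h3.elim
    · obtain rfl : l = l' := h1.1
      obtain rfl : l3 = l := h4.1
      have : b = d := hg.inj l3 (Eq.trans (Eq.symm h2) h3)
      exact Or.inr (by rw [this])
    · obtain rfl : l = l' := h1.1
      obtain rfl : l = l'' := h2.1
      have : a = c := hg.inj l (Eq.trans (Eq.symm h4) h3)
      exact Or.inl (by rw [this])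
    · obtain rfl : l = l' := h1.1
      obtain rfl : l = l'' := h2.1
      obtain rfl : l = l3 := h3.1
      rcases h.quad a b c d h1.2 h2.2 h3.2 h4.2 with rfl | rfl
      · exact Or.inl rfl
      · exact Or.inr rfl
  · intro C
    obtain ⟨l, j, hj⟩ := hc (fun t => C (Sum.inl t))
    by_cases hex : ∃ a, C (Sum.inr (l, a)) = j
    · obtain ⟨a, ha⟩ := hex
      exact ⟨Sum.inl (e l a), Sum.inr (l, a), (cv_iff e hg.inj _ _).2 rfl, (hj a).trans ha.symm⟩
    · have hne : ∀ a, C (Sum.inr (l, a)) ≠ j := fun a ha => hex ⟨a, ha⟩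
      choose C' hC' using fun a => Fin.exists_succAbove_eq (hne a)
      obtain ⟨a, b, hab, hcol⟩ := h.col C'
      refine ⟨Sum.inr (l, a), Sum.inr (l, b), (cv_iff e hg.inj _ _).2 ⟨rfl, hab⟩, ?_⟩
      rw [← hC' a, ← hC' b, hcol]

lemma exists_inv (k : ℕ) :
    ∃ (Q : Type) (_ : Finite Q) (_ : PartialOrder Q) (X Y : Q → ℝ), Inv Q X Y k := by
  induction k with
  | zero =>
    refine ⟨Unit, inferInstance, inferInstance, fun _ => 0, fun _ => 0, ?_, ?_, ?_, ?_⟩
    · intro a a' h; exact absurd le_rfl h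
    · intro a b c h _ _; exact h.elim (fun h => h.ne rfl) (fun h => h.ne rfl)
    · intro a b c d _ _ _ _; exact Or.inl rfl
    · intro C; exact (C ()).elim0
  | succ k ih =>
    obtain ⟨Q, hQ, hP, X, Y, h⟩ := ih
    cases nonempty_fintype Q
    exact step Q X Y k h

open Classical in
noncomputable def cnt {P : Type} [Fintype P] [PartialOrder P] (g : P → ℝ) (a : P) : ℕ :=
  (Finset.univ.filter (fun c => ∃ b, b ≤ a ∧ g b ≤ g c)).card

lemma cnt_mono {P : Type} [Fintype P] [PartialOrder P] (g : P → ℝ) {a a' : P} (h : a ≤ a') :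
    cnt g a ≤ cnt g a' := by
  classical
  unfold cnt
  apply Finset.card_le_card
  intro c hc
  simp only [Finset.mem_filter, Finset.mem_univ, true_and] at hc ⊢
  obtain ⟨b, hb, hbc⟩ := hc
  exact ⟨b, hb.trans h, hbc⟩

lemma cnt_lt {P : Type} [Fintype P] [PartialOrder P] (g : P → ℝ) {a a' : P}
    (h : ∀ b, b ≤ a' → g a < g b) : cnt g a' < cnt g a := by
  classical
  unfold cnt
  apply Finset.card_lt_card
  rw [Finset.ssubset_iff_of_subset]
  · refine ⟨a, ?_, ?_⟩
    · simp only [Finset.mem_filter, Finset.mem_univ, true_and]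
      exact ⟨a, le_rfl, le_rfl⟩
    · simp only [Finset.mem_filter, Finset.mem_univ, true_and]
      rintro ⟨b, hb, hbc⟩
      exact absurd (h b hb) (not_lt.2 hbc)
  · intro c hc
    simp only [Finset.mem_filter, Finset.mem_univ, true_and] at hc ⊢
    obtain ⟨b, hb, hbc⟩ := hc
    exact ⟨a, le_rfl, ((h b hb).le).trans hbc⟩

end Pool.Agent.H3.CovG
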