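import Mathlib

set_option autoImplicit false

namespace Pool.Agent.H3.Pet36

def adjB (a b : Fin 10) : Bool :=
  (a.val < 5 && b.val < 5 && ((a.val + 1) % 5 == b.val || (b.val + 1) % 5 == a.val)) ||
  (5 ≤ a.val && 5 ≤ b.val && ((a.val + 2) % 5 == b.val % 5 || (b.val + 2) % 5 == a.val % 5)) ||
  (a.val + 5 == b.val || b.val + 5 == a.val)

theorem adjB_symm : ∀ a b : Fin 10, adjB a b = adjB b a := by decide

theorem adjB_irrefl : ∀ a : Fin 10, adjB a a = false := by decide

def pet : SimpleGraph (Fin 10) where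
  Adj a b := adjB a b = true
  symm := ⟨fun a b h => by rw [adjB_symm]; exact h⟩
  loopless := ⟨fun a h => by rw [adjB_irrefl] at h; exact Bool.false_ne_true h⟩

instance : DecidableRel pet.Adj := fun a b => inferInstanceAs (Decidable (adjB a b = true))

def wf (a b : Fin 10) : ℕ := if a.val + 5 = b.val ∨ b.val + 5 = a.val then 6 else 3

theorem wf_symm : ∀ a b : Fin 10, wf a b = wf b a := by decide

def wt : Sym2 (Fin 10) → ℕ := Sym2.lift ⟨wf, wf_symm⟩

@[simp] theorem wt_mk (a b : Fin 10) : wt s(a, b) = wf a b := rfl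

theorem detour : ∀ a b : Fin 10, adjB a b = true →
    ∃ c : Fin 10, adjB a c = true ∧ c ≠ b ∧ ∃ e : Fin 10, adjB e b = true ∧ e ≠ a ∧
      ∃ d : Fin 10, adjB c d = true ∧ adjB d e = true ∧ d ≠ a ∧ d ≠ b ∧ c ≠ a ∧ e ≠ b := by
  decide

theorem bridgeless (a b : Fin 10) (h : pet.Adj a b) :
    (pet \ SimpleGraph.fromEdgeSet {s(a, b)}).Reachable a b := by
  obtain ⟨c, h1, h2, e, h3, h4, d, h5, h6, h7, h8, h9, h10⟩ := detour a b h
  have hab : a ≠ b := h.ne
  have step : ∀ x y : Fin 10, adjB x y = true → s(x, y) ≠ s(a, b) →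
      (pet \ SimpleGraph.fromEdgeSet {s(a, b)}).Reachable x y := by
    intro x y hxy hne
    apply SimpleGraph.Adj.reachable
    rw [SimpleGraph.sdiff_adj]
    refine ⟨hxy, ?_⟩
    rw [SimpleGraph.fromEdgeSet_adj]
    rintro ⟨h', -⟩
    exact hne (by simpa using h')
  refine (step a c h1 ?_).trans ((step c d h5 ?_).trans ((step d e h6 ?_).trans (step e b h3 ?_)))
  all_goals
    intro hh
    rw [Sym2.eq_iff] at hh
    rcases hh with ⟨q1, q2⟩ | ⟨q1, q2⟩ <;> simp_all

def cutw (f : Fin 10 → Bool) : ℕ :=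
  ∑ u : Fin 10, ∑ v : Fin 10, if (f u && !(f v) && adjB u v) = true then wf u v else 0

set_option synthInstance.maxSize 4096 in
theorem cut_aux : ∀ b0 b1 b2 b3 b4 b5 b6 b7 b8 b9 : Bool,
    (b0 = b1 ∧ b0 = b2 ∧ b0 = b3 ∧ b0 = b4 ∧ b0 = b5 ∧ b0 = b6 ∧ b0 = b7 ∧ b0 = b8 ∧ b0 = b9) ∨
      12 ≤ cutw ![b0, b1, b2, b3, b4, b5, b6, b7, b8, b9] := by
  decide +kernel

theorem cut_ge (f : Fin 10 → Bool) (a b : Fin 10) (ha : f a = true) (hb : f b = false) :
    12 ≤ cutw f := by
  have hf : f = ![f 0, f 1, f 2, f 3, f 4, f 5, f 6, f 7, f 8, f 9] := by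
    funext i; fin_cases i <;> rfl
  rcases cut_aux (f 0) (f 1) (f 2) (f 3) (f 4) (f 5) (f 6) (f 7) (f 8) (f 9) with h | h
  · exfalso
    obtain ⟨h1, h2, h3, h4, h5, h6, h7, h8, h9⟩ := h
    have hc : ∀ i, f i = f 0 := by
      intro i; fin_cases i
      exacts [rfl, h1.symm, h2.symm, h3.symm, h4.symm, h5.symm, h6.symm, h7.symm, h8.symm, h9.symm]
    rw [hc a] at ha; rw [hc b] at hb; rw [ha] at hb; exact absurd hb (by decide)
  · rw [hf]; exact h

theorem wf_le : ∀ a b : Fin 10, 2 * wf a b ≤ 12 := by decide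

theorem wf_ge : ∀ a b : Fin 10, 2 ≤ wf a b := by decide

theorem deg_even : ∀ v : Fin 10, Even (∑ u : Fin 10, if adjB v u = true then wf v u else 0) := by
  decide

/-- indicator of an edge in a list -/
def ind (L : List (Sym2 (Fin 10))) (a b : Fin 10) : ℕ := if s(a, b) ∈ L then 1 else 0

theorem count_eq {x : Fin 10} (p : pet.Walk x x) (hp : p.IsTrail) (v a b c : Fin 10)
    (hab : a ≠ b) (hac : a ≠ c) (hbc : b ≠ c)
    (hn : ∀ u, pet.Adj v u → u = a ∨ u = b ∨ u = c) :
    Even (ind p.edges v a + ind p.edges v b + ind p.edges v c) := by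
  have h1 := (hp.even_countP_edges_iff v).2 (fun h => absurd rfl h)
  have hnd : p.edges.Nodup := hp.edges_nodup
  have h2 : p.edges.countP (fun e => v ∈ e) =
      (({s(v, a), s(v, b), s(v, c)} : Finset (Sym2 (Fin 10))).filter (· ∈ p.edges)).card := by
    rw [List.countP_eq_length_filter, ← List.toFinset_card_of_nodup (hnd.filter _)]
    congr 1
    ext e
    simp only [List.toFinset_filter, decide_eq_true_eq, Finset.mem_filter, List.mem_toFinset,
      Finset.mem_insert, Finset.mem_singleton]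
    constructor
    · rintro ⟨he, hv⟩
      refine ⟨?_, he⟩
      have hE := p.edges_subset_edgeSet he
      induction e using Sym2.ind with
      | _ y z =>
        rw [SimpleGraph.mem_edgeSet] at hE
        rw [Sym2.mem_iff] at hv
        rcases hv with rfl | rfl
        · rcases hn z hE with rfl | rfl | rfl <;> simp
        · rcases hn y hE.symm with rfl | rfl | rfl <;> simp [Sym2.eq_swap]
    · rintro ⟨h | h | h, he⟩ <;> exact ⟨he, by rw [h]; simp⟩
  rw [h2] at h1
  have hne1 : s(v, a) ≠ s(v, b) := by simp [hab]; aesop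
  have hne2 : s(v, a) ≠ s(v, c) := by simp [hac]; aesop
  have hne3 : s(v, b) ≠ s(v, c) := by simp [hbc]; aesop
  rw [Finset.card_filter, Finset.sum_insert (by simp [hne1, hne2]),
    Finset.sum_insert (by simp [hne3]), Finset.sum_singleton] at h1
  simpa [ind, add_assoc] using h1

theorem ind_le (L : List (Sym2 (Fin 10))) (a b : Fin 10) : ind L a b ≤ 1 := by
  unfold ind; split_ifs <;> simp

theorem ind_symm (L : List (Sym2 (Fin 10))) (a b : Fin 10) : ind L a b = ind L b a := by
  unfold ind; rw [Sym2.eq_swap]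

theorem alt_even : ∀ o0 o1 o2 o3 o4 i0 i1 i2 i3 i4 : Fin 2,
    o4.val + o0.val = i0.val + i3.val → o0.val + o1.val = i1.val + i4.val →
    o1.val + o2.val = i2.val + i0.val → o2.val + o3.val = i3.val + i1.val →
    o3.val + o4.val = i4.val + i2.val →
    o4.val + o0.val ≤ 1 → o0.val + o1.val ≤ 1 → o1.val + o2.val ≤ 1 → o2.val + o3.val ≤ 1 →
    o3.val + o4.val ≤ 1 →
    (o0.val + o1.val + o2.val + o3.val + o4.val) % 2 = 0 := by
  decide +kernel

theorem no_cover (n : ℕ) (x : Fin n → Fin 10) (p : ∀ i, pet.Walk (x i) (x i))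
    (hc : ∀ i, (p i).IsCycle)
    (hw : ∀ a b : Fin 10, pet.Adj a b → (∑ i : Fin n, ind (p i).edges a b) = wf a b) : False := by
  have tight : ∀ v a b c : Fin 10, a ≠ b → a ≠ c → b ≠ c →
      (∀ u, pet.Adj v u → u = a ∨ u = b ∨ u = c) → pet.Adj v a → pet.Adj v b → pet.Adj v c →
      wf v a + wf v b = wf v c →
      ∀ i, ind (p i).edges v a + ind (p i).edges v b = ind (p i).edges v c := by
    intro v a b c hab hac hbc hn ha hb hc' hs
    have hle : ∀ i, ind (p i).edges v c ≤ ind (p i).edges v a + ind (p i).edges v b := by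
      intro i
      have h1 := count_eq (p i) (hc i).isCircuit.isTrail v a b c hab hac hbc hn
      have := ind_le (p i).edges v c
      rw [Nat.even_iff] at h1
      omega
    have hsum : ∑ i : Fin n, ind (p i).edges v c =
        ∑ i : Fin n, (ind (p i).edges v a + ind (p i).edges v b) := by
      rw [Finset.sum_add_distrib, hw v a ha, hw v b hb, hw v c hc', hs]
    intro i
    exact ((Finset.sum_eq_sum_iff_of_le (fun i _ => hle i)).1 hsum i (Finset.mem_univ i)).symm
  have t0 := tight 0 4 1 5 (by decide) (by decide) (by decide) (by decide) (by decide) (by decide) (by decide) (by decide)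
  have t1 := tight 1 0 2 6 (by decide) (by decide) (by decide) (by decide) (by decide) (by decide) (by decide) (by decide)
  have t2 := tight 2 1 3 7 (by decide) (by decide) (by decide) (by decide) (by decide) (by decide) (by decide) (by decide)
  have t3 := tight 3 2 4 8 (by decide) (by decide) (by decide) (by decide) (by decide) (by decide) (by decide) (by decide)
  have t4 := tight 4 3 0 9 (by decide) (by decide) (by decide) (by decide) (by decide) (by decide) (by decide) (by decide)
  have t5 := tight 5 7 8 0 (by decide) (by decide) (by decide) (by decide) (by decide) (by decide) (by decide) (by decide)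
  have t6 := tight 6 8 9 1 (by decide) (by decide) (by decide) (by decide) (by decide) (by decide) (by decide) (by decide)
  have t7 := tight 7 9 5 2 (by decide) (by decide) (by decide) (by decide) (by decide) (by decide) (by decide) (by decide)
  have t8 := tight 8 5 6 3 (by decide) (by decide) (by decide) (by decide) (by decide) (by decide) (by decide) (by decide)
  have t9 := tight 9 6 7 4 (by decide) (by decide) (by decide) (by decide) (by decide) (by decide) (by decide) (by decide)
  have hev : ∀ i, (ind (p i).edges 0 1 + ind (p i).edges 1 2 + ind (p i).edges 2 3 +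
      ind (p i).edges 3 4 + ind (p i).edges 4 0) % 2 = 0 := by
    intro i
    have a0 := t0 i; have a1 := t1 i; have a2 := t2 i; have a3 := t3 i; have a4 := t4 i
    have a5 := t5 i; have a6 := t6 i; have a7 := t7 i; have a8 := t8 i; have a9 := t9 i
    set L := (p i).edges
    rw [ind_symm L 0 4] at a0
    rw [ind_symm L 1 0] at a1
    rw [ind_symm L 2 1] at a2
    rw [ind_symm L 3 2] at a3
    rw [ind_symm L 4 3] at a4
    rw [ind_symm L 5 8, ind_symm L 5 0] at a5
    rw [ind_symm L 6 9, ind_symm L 6 1] at a6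
    rw [ind_symm L 7 5, ind_symm L 7 2] at a7
    rw [ind_symm L 8 6, ind_symm L 8 3] at a8
    rw [ind_symm L 9 7, ind_symm L 9 4] at a9
    have lt : ∀ a b, ind L a b < 2 := fun a b => Nat.lt_succ_of_le (ind_le L a b)
    have s0 := ind_le L 0 5; have s1 := ind_le L 1 6; have s2 := ind_le L 2 7
    have s3 := ind_le L 3 8; have s4 := ind_le L 4 9
    exact alt_even ⟨_, lt 0 1⟩ ⟨_, lt 1 2⟩ ⟨_, lt 2 3⟩ ⟨_, lt 3 4⟩ ⟨_, lt 4 0⟩
      ⟨_, lt 5 7⟩ ⟨_, lt 6 8⟩ ⟨_, lt 7 9⟩ ⟨_, lt 8 5⟩ ⟨_, lt 9 6⟩
      (by dsimp only; omega) (by dsimp only; omega) (by dsimp only; omega) (by dsimp only; omega)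
      (by dsimp only; omega) (by dsimp only; omega) (by dsimp only; omega) (by dsimp only; omega)
      (by dsimp only; omega) (by dsimp only; omega)
  have hs : ∑ i : Fin n, (ind (p i).edges 0 1 + ind (p i).edges 1 2 + ind (p i).edges 2 3 +
      ind (p i).edges 3 4 + ind (p i).edges 4 0) = 15 := by
    simp only [Finset.sum_add_distrib]
    rw [hw 0 1 (by decide), hw 1 2 (by decide), hw 2 3 (by decide), hw 3 4 (by decide),
      hw 4 0 (by decide)]
    decide
  have h2 : 2 ∣ ∑ i : Fin n, (ind (p i).edges 0 1 + ind (p i).edges 1 2 + ind (p i).edges 2 3 +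
      ind (p i).edges 3 4 + ind (p i).edges 4 0) :=
    Finset.dvd_sum (fun i _ => Nat.dvd_of_mod_eq_zero (hev i))
  rw [hs] at h2
  exact absurd h2 (by decide)

end Pool.Agent.H3.Pet36
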