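import Pool.Agent.H3.EvoDefs

open MvPolynomial

namespace Pool.Agent.H3.Evo

abbrev P3 : Type := MvPolynomial (Fin 3) ℝ

noncomputable def mon (s : Fin 3 →₀ ℕ) : DP 4 := X (0, s 0) * X (1, s 1) * X (2, s 2)

noncomputable def Φ : P3 →ₗ[ℝ] DP 4 := (basisMonomials (Fin 3) ℝ).constr ℝ mon

lemma Φ_mon (s : Fin 3 →₀ ℕ) : Φ (monomial s 1) = mon s := by
  have := (basisMonomials (Fin 3) ℝ).constr_basis ℝ mon s
  simpa [Φ] using this

noncomputable def ps (n : ℕ) : P3 := X 0 ^ n + X 1 ^ n + X 2 ^ n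

lemma Φ_ps (n : ℕ) (s : Fin 3 →₀ ℕ) : Φ (ps n * monomial s 1) =
    X (0, s 0 + n) * X (1, s 1) * X (2, s 2) + X (0, s 0) * X (1, s 1 + n) * X (2, s 2)
      + X (0, s 0) * X (1, s 1) * X (2, s 2 + n) := by
  simp only [ps, add_mul, X_pow_eq_monomial, monomial_mul, one_mul, map_add, Φ_mon, mon]
  simp [add_comm]

lemma lin_ext {f g : P3 →ₗ[ℝ] DP 4} (h : ∀ s, f (monomial s 1) = g (monomial s 1)) (p : P3) :
    f p = g p := by
  have : f = g := (basisMonomials (Fin 3) ℝ).ext fun s => by simpa using h s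
  rw [this]

lemma D_X {N : ℕ} (i : Fin N) (k : ℕ) : D (X (i, k) : DP N) = X (i, k + 1) := by
  simp [D, mkDerivation_X]

lemma Dit_X {N : ℕ} (i : Fin N) (k n : ℕ) : D^[k] (X (i, n) : DP N) = X (i, k + n) := by
  induction k with
  | zero => simp
  | succ k ih => rw [Function.iterate_succ_apply', ih, D_X]; congr 2; ring

lemma Dit_add {N : ℕ} (k : ℕ) (a b : DP N) : D^[k] (a + b) = D^[k] a + D^[k] b := by
  induction k with
  | zero => simp
  | succ k ih => simp only [Function.iterate_succ_apply', ih, map_add]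

lemma evo_X {N : ℕ} (F : Fin N → DP N) (i : Fin N) (k : ℕ) :
    evo F (X (i, k)) = D^[k] (F i) := by
  simp [evo, mkDerivation_X]

lemma D_Φ (p : P3) : D (Φ p) = Φ (ps 1 * p) := by
  refine lin_ext (f := (D : Derivation ℝ (DP 4) (DP 4)).toLinearMap ∘ₗ Φ)
    (g := Φ ∘ₗ LinearMap.mulLeft ℝ (ps 1)) (fun s => ?_) p
  simp only [LinearMap.comp_apply, LinearMap.mulLeft_apply, Φ_ps, Φ_mon, mon,
    Derivation.coeFn_coe, Derivation.leibniz, D_X, smul_eq_mul]
  ring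

lemma Dit_Φ (k : ℕ) (p : P3) : D^[k] (Φ p) = Φ (ps 1 ^ k * p) := by
  induction k with
  | zero => simp
  | succ k ih => rw [Function.iterate_succ_apply', ih, D_Φ]; congr 1; ring

noncomputable def fl (n : ℕ) (g : P3) : Fin 4 → DP 4 :=
  ![X (0, n), X (1, n), X (2, n), X (3, n) + Φ g]

lemma evo_Φ (n : ℕ) (g p : P3) : evo (fl n g) (Φ p) = Φ (ps n * p) := by
  refine lin_ext (f := (evo (fl n g)).toLinearMap ∘ₗ Φ)
    (g := Φ ∘ₗ LinearMap.mulLeft ℝ (ps n)) (fun s => ?_) p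
  simp only [LinearMap.comp_apply, LinearMap.mulLeft_apply, Φ_ps, Φ_mon, mon,
    Derivation.coeFn_coe, Derivation.leibniz, evo_X, smul_eq_mul, fl, Matrix.cons_val, Dit_X]
  ring

lemma comm (n m : ℕ) (f g : P3) (h : (ps 1 ^ m - ps m) * f = (ps 1 ^ n - ps n) * g) :
    Commutes (fl n f) (fl m g) := by
  intro i
  fin_cases i
  · simp [fl, evo_X, Dit_X, add_comm]
  · simp [fl, evo_X, Dit_X, add_comm]
  · simp [fl, evo_X, Dit_X, add_comm]
  · show evo (fl n f) (X (3, m) + Φ g) = evo (fl m g) (X (3, n) + Φ f)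
    rw [map_add, map_add, evo_Φ, evo_Φ, evo_X, evo_X]
    show D^[m] (X (3, n) + Φ f) + _ = D^[n] (X (3, m) + Φ g) + _
    rw [Dit_add, Dit_add, Dit_X, Dit_X, Dit_Φ, Dit_Φ, add_comm m n, add_assoc, add_assoc,
      ← map_add, ← map_add]
    congr 2
    linear_combination h

lemma ps_hom (n : ℕ) : (ps n).IsHomogeneous n :=
  ((isHomogeneous_X_pow _ _).add (isHomogeneous_X_pow _ _)).add (isHomogeneous_X_pow _ _)

lemma S_hom (n : ℕ) : (ps 1 ^ n).IsHomogeneous n := by simpa using (ps_hom 1).pow n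

noncomputable def e2 : P3 := X 0 * X 1 + X 0 * X 2 + X 1 * X 2 - ps 1 * ps 1
noncomputable def e4 : P3 := X 0 * X 1 * X 2 * ps 1

lemma e2_hom : e2.IsHomogeneous 2 :=
  ((((isHomogeneous_X _ _).mul (isHomogeneous_X _ _)).add
    ((isHomogeneous_X _ _).mul (isHomogeneous_X _ _))).add
    ((isHomogeneous_X _ _).mul (isHomogeneous_X _ _))).sub ((ps_hom 1).mul (ps_hom 1))

lemma e4_hom : e4.IsHomogeneous 4 :=
  (((isHomogeneous_X _ _).mul (isHomogeneous_X _ _)).mul (isHomogeneous_X _ _)).mul (ps_hom 1)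

noncomputable def c3 : P3 := (X 0 + X 1) * (X 0 + X 2) * (X 1 + X 2)

lemma exQ (m : ℕ) : (∃ Q : P3, Q.IsHomogeneous (2 * m) ∧
      ps 1 ^ (2 * m + 3) - ps (2 * m + 3) = c3 * Q) ∧
    ∃ Q : P3, Q.IsHomogeneous (2 * m + 2) ∧ ps 1 ^ (2 * m + 5) - ps (2 * m + 5) = c3 * Q := by
  induction m with
  | zero =>
    refine ⟨⟨C 3, isHomogeneous_C _ _, ?_⟩, ⟨-(e2 * C 3) + (ps 1 ^ 2 + ps 2), ?_, ?_⟩⟩
    · simp only [ps, c3, map_ofNat]; ring
    · exact (e2_hom.mul (isHomogeneous_C _ _)).neg.add ((S_hom 2).add (ps_hom 2))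
    · simp only [ps, c3, e2, map_ofNat]; ring
  | succ m ih =>
    obtain ⟨⟨Q1, h1, k1⟩, Q2, h2, k2⟩ := ih
    refine ⟨⟨Q2, h2, k2⟩, -(e2 * Q2) + (ps 1 ^ (2 * m + 4) + ps (2 * m + 4)) + e4 * Q1, ?_, ?_⟩
    · refine (IsHomogeneous.add ?_ ?_).add ?_
      · have e : 2 * (m + 1) + 2 = 2 + (2 * m + 2) := by ring
        rw [e]; exact (e2_hom.mul h2).neg
      · exact (S_hom _).add (ps_hom _)
      · convert e4_hom.mul h1 using 1; ring
    · have : c3 * (-(e2 * Q2) + (ps 1 ^ (2 * m + 4) + ps (2 * m + 4)) + e4 * Q1) =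
          -(e2 * (c3 * Q2)) + c3 * (ps 1 ^ (2 * m + 4) + ps (2 * m + 4)) + e4 * (c3 * Q1) := by
        ring
      rw [this, ← k1, ← k2]
      simp only [ps, c3, e2, e4]
      ring

lemma vars_Φ {n : ℕ} {p : P3} (h : ∀ i, p.degreeOf i < n) : ∀ v ∈ (Φ p).vars, v.2 < n := by
  have : Φ p ∈ supported ℝ {v : Fin 4 × ℕ | v.2 < n} := by
    rw [p.as_sum, map_sum]
    refine Subalgebra.sum_mem _ fun s hs => ?_
    have e : (monomial s (coeff s p) : P3) = coeff s p • monomial s 1 := by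
      simp [smul_monomial]
    rw [e, map_smul, Φ_mon]
    have hl : ∀ i, s i < n := fun i => (monomial_le_degreeOf i hs).trans_lt (h i)
    have hx : ∀ (j : Fin 4) (i : Fin 3),
        (X (j, s i) : DP 4) ∈ supported ℝ {v : Fin 4 × ℕ | v.2 < n} :=
      fun j i => X_mem_supported.2 (hl i)
    exact Subalgebra.smul_mem _ (Subalgebra.mul_mem _ (Subalgebra.mul_mem _
      (hx 0 0) (hx 1 1)) (hx 2 2)) _
  exact fun v hv => mem_supported.1 this hv

lemma order {n : ℕ} {h : P3} (hh : h.IsHomogeneous n) : HasOrder (n + 2) (fl (n + 2) (X 1 * X 2 * h)) := by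
  refine ⟨![0, 0, 0, Φ (X 1 * X 2 * h)], fun i => ?_, fun i => ?_⟩
  · fin_cases i
    · simp
    · simp
    · simp
    · refine vars_Φ fun j => ?_
      have h1 := degreeOf_mul_le j (X 1 * X 2 : P3) h
      have h2 := degreeOf_mul_le j (X 1 : P3) (X 2)
      have h3 := (degreeOf_le_totalDegree h j).trans hh.totalDegree_le
      have h4 : degreeOf j (X 1 : P3) + degreeOf j (X 2 : P3) ≤ 1 := by
        rw [degreeOf_X, degreeOf_X]
        fin_cases j <;> simp
      omega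
  · fin_cases i <;> simp [fl]

noncomputable def α0 : Fin 4 → Fin 4 → Fin 4 → Fn 4 := fun i j k =>
  if i = 3 ∧ j = 1 ∧ k = 2 then X 0 else 0

noncomputable def f0 : P3 := X 1 * X 2 * (3 * X 2 + X 0)

lemma Φ_f0 : Φ f0 = 3 * (X (0, 0) * X (1, 1) * X (2, 2)) + X (0, 1) * X (1, 1) * X (2, 1) := by
  have : f0 = (3 : ℝ) • monomial (Finsupp.single 1 1 + Finsupp.single 2 2) 1 +
      monomial (Finsupp.single 0 1 + Finsupp.single 1 1 + Finsupp.single 2 1) 1 := by
    rw [← one_mul (1 : ℝ), ← monomial_mul, ← monomial_mul, ← one_mul (1 : ℝ), ← monomial_mul]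
    simp only [one_mul, ← X_pow_eq_monomial, f0, smul_eq_C_mul, map_ofNat]
    ring
  rw [this, map_add, map_smul, Φ_mon, Φ_mon]
  simp [mon, smul_eq_C_mul, map_ofNat]

lemma system_eq : system α0 0 = fl 3 f0 := by
  funext i
  fin_cases i <;>
    simp [system, cubic, α0, fl, Fin.sum_univ_four, emb, Φ_f0, pderiv_X, Pi.single_apply]
  ring

theorem hier : HasOddHierarchy (system α0 0) := by
  choose Q hQ kQ using fun m => (exQ m).1
  have h3 : ps 1 ^ 3 - ps 3 = c3 * 3 := by simp only [ps, c3]; ring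
  let h : ℕ → P3 := fun m => (X 2 + C (1 / 3) * X 0) * Q m
  have hC : (C (1 / 3 : ℝ) : P3) * 3 = 1 := by
    rw [← map_ofNat C 3, ← map_mul]; norm_num
  refine ⟨fun m => fl (2 * m + 3) (X 1 * X 2 * h m), fun m => ?_, fun m => ?_, fun m m' => ?_⟩
  · have : (h m).IsHomogeneous (2 * m + 1) := by
      convert ((isHomogeneous_X ℝ (2 : Fin 3)).add
        ((isHomogeneous_X ℝ (0 : Fin 3)).C_mul (1 / 3))).mul (hQ m) using 1
      ring
    exact order this
  · rw [system_eq]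
    refine comm _ _ _ _ ?_
    rw [kQ, h3]
    simp only [f0, h]
    linear_combination (-(c3 * Q m * X 1 * X 2 * X 0)) * hC
  · refine comm _ _ _ _ ?_
    rw [kQ, kQ]
    simp only [h]
    ring

end Pool.Agent.H3.Evo
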