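import Mathlib

open MvPolynomial

namespace Pool.Agent.H3.Evo

/-- Differential polynomials in `u¹, …, u^N`: the variable `(i, k)` is `∂ₓ^k uⁱ`. -/
abbrev DP (N : ℕ) : Type := MvPolynomial (Fin N × ℕ) ℝ

/-- Polynomial functions of `u`. -/
abbrev Fn (N : ℕ) : Type := MvPolynomial (Fin N) ℝ

variable {N : ℕ}

/-- The total derivative `D_x`. -/
noncomputable def D : Derivation ℝ (DP N) (DP N) := mkDerivation ℝ fun v => X (v.1, v.2 + 1)

/-- The time derivative along the evolution system `u_t = F`. -/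
noncomputable def evo (F : Fin N → DP N) : Derivation ℝ (DP N) (DP N) :=
  mkDerivation ℝ fun v => D^[v.2] (F v.1)

/-- The flows `u_t = F` and `u_τ = H` commute: `D_t H = D_τ F`. -/
def Commutes (F H : Fin N → DP N) : Prop := ∀ i, evo F (H i) = evo H (F i)

/-- A function of `u` as a differential polynomial of order zero. -/
noncomputable def emb : Fn N →ₐ[ℝ] DP N := rename fun i => (i, 0)

/-- The coefficient `∂_j α^i_{km} + 2 α^i_{jr} α^r_{km} - α^i_{rj} α^r_{km} + β^i_{jkm}`. -/
noncomputable def cubic (α : Fin N → Fin N → Fin N → Fn N)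
    (β : Fin N → Fin N → Fin N → Fin N → Fn N) (i j k m : Fin N) : Fn N :=
  pderiv j (α i k m) + ∑ r, (2 * α i j r * α r k m - α i r j * α r k m) + β i j k m

/-- The right-hand side of the third-order system of geometric type given by `α`, `β`. -/
noncomputable def system (α : Fin N → Fin N → Fin N → Fn N)
    (β : Fin N → Fin N → Fin N → Fin N → Fn N) (i : Fin N) : DP N :=
  X (i, 3) + 3 * ∑ j, ∑ k, emb (α i j k) * X (j, 1) * X (k, 2)
    + ∑ j, ∑ k, ∑ m, emb (cubic α β i j k m) * X (j, 1) * X (k, 1) * X (m, 1)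

/-- The torsion tensor `T^i_{jk} = α^i_{jk} - α^i_{kj}`. -/
noncomputable def torsion (α : Fin N → Fin N → Fin N → Fn N) (i j k : Fin N) : Fn N :=
  α i j k - α i k j

/-- The curvature tensor
`R^i_{jkl} = ∂_k α^i_{jl} - ∂_l α^i_{jk} + α^i_{sk} α^s_{jl} - α^i_{sl} α^s_{jk}`. -/
noncomputable def curvature (α : Fin N → Fin N → Fin N → Fn N) (i j k l : Fin N) : Fn N :=
  pderiv k (α i j l) - pderiv l (α i j k) + ∑ s, (α i s k * α s j l - α i s l * α s j k)

/-- `β` is totally symmetric in its lower indices. -/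
def IsSymm (β : Fin N → Fin N → Fin N → Fin N → Fn N) : Prop :=
  ∀ i j k m, β i j k m = β i k j m ∧ β i j k m = β i j m k

/-- `H = u_n + G(u, u_x, …, u_{n-1})`. -/
def HasOrder (n : ℕ) (H : Fin N → DP N) : Prop :=
  ∃ G : Fin N → DP N, (∀ i, ∀ v ∈ (G i).vars, v.2 < n) ∧ ∀ i, H i = X (i, n) + G i

/-- `u_t = F` has symmetries `u_τ = u_n + G(u, …, u_{n-1})` of every odd order `n ≥ 3`, and these
commute with one another. -/
def HasOddHierarchy (F : Fin N → DP N) : Prop :=
  ∃ H : ℕ → Fin N → DP N, (∀ m, HasOrder (2 * m + 3) (H m)) ∧ (∀ m, Commutes F (H m)) ∧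
    ∀ m m', Commutes (H m) (H m')

end Pool.Agent.H3.Evo
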