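import Mathlib

open ExteriorAlgebra

namespace Pool.Agent.H3.Ext

/-- the lattice -/
abbrev V : Type := Fin 8 → ℤ
/-- generators -/
noncomputable def e (i : Fin 8) : ExteriorAlgebra ℤ V := ι ℤ (Pi.basisFun ℤ (Fin 8) i)
/-- monomials -/
noncomputable def m (l : List (Fin 8)) : ExteriorAlgebra ℤ V := (l.map e).prod
/-- top class -/
noncomputable def T : ExteriorAlgebra ℤ V := ιMulti ℤ 8 (Pi.basisFun ℤ (Fin 8))

/-- insertion with sign -/
def ins (a : Fin 8) : List (Fin 8) → ℤ × List (Fin 8)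
  | [] => (1, [a])
  | b :: t => if a = b then (0, []) else if a < b then (1, a :: b :: t) else
      (-(ins a t).1, b :: (ins a t).2)

/-- normal form -/
def nrm : List (Fin 8) → ℤ × List (Fin 8)
  | [] => (1, [])
  | a :: t => ((nrm t).1 * (ins a (nrm t).2).1, (ins a (nrm t).2).2)

theorem m_cons (a : Fin 8) (l : List (Fin 8)) : m (a :: l) = e a * m l := by simp [m]
theorem m_app (l l' : List (Fin 8)) : m (l ++ l') = m l * m l' := by simp [m]

theorem swap (a b : Fin 8) : e a * e b = -(e b * e a) :=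
  eq_neg_of_add_eq_zero_left (ι_add_mul_swap _ _)

theorem ins_spec (a : Fin 8) (l : List (Fin 8)) : e a * m l = (ins a l).1 • m (ins a l).2 := by
  induction l with
  | nil => simp [ins, m]
  | cons b t ih =>
    unfold ins
    split_ifs with h1 h2
    · subst h1
      rw [m_cons, ← mul_assoc, e, ι_sq_zero]; simp
    · simp [m_cons]
    · rw [m_cons, ← mul_assoc, swap, neg_mul, mul_assoc, ih, m_cons, mul_smul_comm, neg_smul]

theorem nrm_spec (l : List (Fin 8)) : m l = (nrm l).1 • m (nrm l).2 := by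
  induction l with
  | nil => simp [nrm]
  | cons a t ih =>
    rw [m_cons, ih, mul_smul_comm, ins_spec, smul_smul]; rfl

/-- good lists -/
def ok (l : List (Fin 8)) : Prop := (nrm l).1 = 0 ∨ (nrm l).2 = [0, 1, 2, 3, 4, 5, 6, 7]

instance (l : List (Fin 8)) : Decidable (ok l) := by unfold ok; infer_instance

theorem m_top {l : List (Fin 8)} (h : ok l) : m l = (nrm l).1 • T := by
  rw [nrm_spec]
  rcases h with h | h
  · simp [h]
  · rw [h, T, ιMulti_apply]; rfl

theorem T_free {n : ℤ} (h : n • T = 0) : n = 0 := by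
  have h1 : n • exteriorPower.ιMulti ℤ 8 (Pi.basisFun ℤ (Fin 8)) = 0 := Subtype.ext h
  have h2 := congrArg (exteriorPower.alternatingMapLinearEquiv (Pi.basisFun ℤ (Fin 8)).det) h1
  rw [map_smul, exteriorPower.alternatingMapLinearEquiv_apply_ιMulti, Module.Basis.det_self] at h2
  simpa using h2

theorem m_mem (l : List (Fin 8)) : m l ∈ ⋀[ℤ]^l.length V := by
  induction l with
  | nil => simp [m, Submodule.one_eq_range]; exact ⟨1, by simp⟩
  | cons a t ih =>
    rw [m_cons, List.length_cons, ExteriorAlgebra.exteriorPower, pow_succ']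
    exact Submodule.mul_mem_mul ⟨_, rfl⟩ ih

/-- list of pairs -/
def prs : List (Fin 8 × Fin 8) := [(0,1),(0,2),(0,3),(0,4),(0,5),(0,6),(0,7),(1,2),(1,3),(1,4),(1,5),
  (1,6),(1,7),(2,3),(2,4),(2,5),(2,6),(2,7),(3,4),(3,5),(3,6),(3,7),(4,5),(4,6),(4,7),(5,6),(5,7),(6,7)]
/-- the pair with a given number -/
def pl (r : Fin 28) : List (Fin 8) := [(prs.getD r (0, 0)).1, (prs.getD r (0, 0)).2]
/-- standard basis of the second exterior power -/
noncomputable def E (r : Fin 28) : ⋀[ℤ]^2 V := ⟨m (pl r), m_mem (pl r)⟩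

theorem E_span : ⊤ ≤ Submodule.span ℤ (Set.range E) := by
  rw [← exteriorPower.ιMulti_span_of_span ℤ 2 V (Pi.basisFun ℤ (Fin 8)).span_eq, Submodule.span_le]
  rintro _ ⟨a, ha, rfl⟩
  obtain ⟨i, hi⟩ := ha (Set.mem_range_self 0)
  obtain ⟨j, hj⟩ := ha (Set.mem_range_self 1)
  have h : ∀ i j : Fin 8, ∃ r, (nrm [i, j]).1 = 0 ∨ (nrm [i, j]).2 = pl r := by decide +kernel
  obtain ⟨r, hr⟩ := h i j
  have : exteriorPower.ιMulti ℤ 2 a = (nrm [i, j]).1 • E r := by
    apply Subtype.ext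
    have e1 : ιMulti ℤ 2 a = m [i, j] := by
      rw [ιMulti_apply]
      simp only [m, e, hi, hj, List.ofFn_succ, List.ofFn_zero, List.map_cons, List.map_nil]; rfl
    rw [exteriorPower.ιMulti_apply_coe, e1, nrm_spec]
    rcases hr with hr | hr
    · simp [hr]
    · rw [hr]; rfl
  rw [this]
  exact Submodule.smul_mem _ _ (Submodule.subset_span ⟨r, rfl⟩)

/-- matrix from a list -/
def mat (L : List (List ℤ)) : Matrix (Fin 28) (Fin 28) ℤ := fun i j => (L.getD i []).getD j 0

theorem build {κ : Type} [Fintype κ] (hc : Fintype.card κ = 28) (G : Matrix κ κ ℤ) (f : κ → Fin 28)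
    (hf : ∀ r, ∃ i, f i = r) (om : List (ℤ × List (Fin 8))) (P Q A R G' : List (List ℤ))
    (h4 : ∀ t ∈ om, t.2.length = 4)
    (hA : ∀ r s : Fin 28, (∀ t ∈ om, ok (pl r ++ pl s ++ t.2)) ∧
      mat A r s = (om.map fun t => t.1 * (nrm (pl r ++ pl s ++ t.2)).1).sum)
    (hR : ∀ i s, ∑ r, mat P i r * mat A r s = mat R i s)
    (hG : ∀ i j, ∑ s, mat R i s * mat P j s = mat G' i j)
    (hQ : ∀ r s, ∑ i, mat Q r i * mat P i s = if r = s then 1 else 0)
    (hGG : ∀ i j, G i j = mat G' (f i) (f j)) :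
    ∃ ω ∈ ⋀[ℤ]^4 V, ∃ b : Module.Basis κ ℤ (⋀[ℤ]^2 V),
      ∀ i j, (b i : ExteriorAlgebra ℤ V) * b j * ω = G i j • T := by
  let b0 : Fin 28 → ⋀[ℤ]^2 V := fun i => ∑ r, mat P i r • E r
  have hs : ⊤ ≤ Submodule.span ℤ (Set.range fun i => b0 (f i)) := by
    refine E_span.trans (Submodule.span_le.2 ?_)
    rintro _ ⟨r, rfl⟩
    have : E r = ∑ i, mat Q r i • b0 i := by
      simp only [b0, Finset.smul_sum, smul_smul]
      rw [Finset.sum_comm]
      simp only [← Finset.sum_smul, hQ]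
      simp
    rw [this]
    refine Submodule.sum_mem _ fun i _ => Submodule.smul_mem _ _ (Submodule.subset_span ?_)
    obtain ⟨k, rfl⟩ := hf i
    exact ⟨k, rfl⟩
  refine ⟨(om.map fun t => t.1 • m t.2).sum, list_sum_mem ?_,
    basisOfTopLeSpanOfCardEqFinrank _ hs (by rw [hc, exteriorPower.finrank_eq]; simp; rfl), fun i j => ?_⟩
  · intro x hx
    obtain ⟨t, ht, rfl⟩ := List.mem_map.1 hx
    exact Submodule.smul_mem _ _ (h4 t ht ▸ m_mem t.2)
  have key : ∀ r s, (E r : ExteriorAlgebra ℤ V) * E s * (om.map fun t => t.1 • m t.2).sum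
      = mat A r s • T := fun r s => by
    rw [(hA r s).2, ← List.sum_map_mul_left, List.sum_smul, List.map_map]
    refine congrArg _ (List.map_congr_left fun t ht => ?_)
    simp only [E, Function.comp]
    rw [mul_smul_comm, ← m_app, ← m_app, m_top ((hA r s).1 t ht), smul_smul]
  rw [coe_basisOfTopLeSpanOfCardEqFinrank, hGG, ← hG]
  simp only [b0, Submodule.coe_sum, Submodule.coe_smul, Finset.sum_mul, Finset.mul_sum,
    smul_mul_assoc, mul_smul_comm, key, ← hR, smul_smul, Finset.sum_smul, Finset.smul_sum]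
  refine Finset.sum_congr rfl fun _ _ => Finset.sum_congr rfl fun _ _ => ?_
  congr 1; ring

end Pool.Agent.H3.Ext
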