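import Pool.Agent.H3.Ext1

namespace Pool.Agent.H3.Ext

/-- data -/
def om0 : List (ℤ × List (Fin 8)) := [(1, [0, 1, 4, 5]), (-1, [0, 2, 4, 5]), (-1, [0, 1, 4, 6]), (-1, [1, 3, 4, 6]), (-1, [1, 2, 5, 6]), (-1, [0, 3, 5, 6]), (1, [0, 1, 3, 7]), (-1, [1, 2, 5, 7]), (1, [2, 3, 6, 7]), (1, [4, 5, 6, 7])]

/-- data -/
def P0 : List (List ℤ) := [[0,0,0,0,0,1,0,0,0,0,0,0,0,0,0,0,0,0,0,0,0,0,0,0,0,0,0,0],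
  [0,0,0,0,0,0,0,0,0,0,0,0,0,0,0,0,0,0,1,0,0,0,0,0,0,0,0,0],
  [0,0,0,0,0,0,0,0,0,0,0,1,0,0,0,0,0,0,0,0,0,0,0,0,0,0,0,0],
  [0,0,0,0,0,0,0,0,0,0,0,0,0,0,0,0,0,0,0,0,0,-1,0,0,0,0,0,0],
  [0,0,0,0,0,0,0,0,0,0,0,0,0,0,1,0,0,0,0,0,0,0,0,0,0,0,0,0],
  [0,0,0,0,0,0,0,0,0,0,0,0,0,0,0,0,0,0,0,0,0,0,0,0,0,-1,0,0],
  [0,0,0,1,0,0,0,0,0,0,0,1,0,0,0,0,0,0,0,0,0,0,0,0,0,0,0,0],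
  [0,0,0,0,0,0,0,0,0,0,-1,0,0,0,0,0,0,0,0,0,0,0,0,0,0,0,0,0],
  [0,0,0,0,0,0,0,0,0,0,0,-1,0,0,0,0,1,0,0,0,0,0,0,0,0,0,0,0],
  [0,0,0,0,0,0,0,0,0,0,0,0,0,0,0,0,0,0,0,0,0,0,-1,0,0,0,0,0],
  [1,0,0,0,0,0,0,0,0,0,0,-1,0,0,0,0,1,0,0,0,0,0,0,0,0,0,0,0],
  [0,0,0,0,0,0,0,0,0,0,0,0,0,1,0,0,0,0,0,0,0,0,0,0,0,0,0,0],
  [0,0,0,0,1,0,0,0,0,0,0,0,0,0,0,0,0,0,0,-1,0,0,0,0,0,0,0,0],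
  [0,0,0,0,0,0,0,0,0,1,0,0,0,0,0,0,0,0,0,-1,0,0,0,0,0,0,0,0],
  [0,0,0,0,0,1,1,0,0,0,0,0,0,0,0,0,0,0,0,0,0,0,0,0,0,0,0,0],
  [0,0,0,0,0,0,0,0,0,0,0,1,0,0,0,-1,0,0,0,0,0,0,0,0,0,0,0,0],
  [0,0,0,0,0,0,0,0,0,0,0,0,1,0,0,0,0,0,0,0,0,0,0,0,0,-1,0,0],
  [0,0,0,0,0,0,0,0,0,0,-1,0,0,0,0,0,0,0,0,0,1,0,0,0,0,0,0,0],
  [0,0,0,0,0,0,0,0,0,0,0,0,-1,0,0,0,0,1,0,0,0,0,0,0,0,1,0,0],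
  [0,0,0,0,0,0,0,0,0,0,0,0,0,0,0,0,0,0,0,1,0,0,0,0,0,0,0,0],
  [0,0,0,0,0,0,0,1,0,0,0,0,0,0,0,0,0,0,0,0,0,0,0,0,0,0,0,0],
  [0,0,0,0,0,-1,-1,0,0,0,0,0,0,0,0,0,0,0,0,0,0,0,0,-1,-1,0,0,0],
  [0,0,0,0,0,0,0,0,1,0,0,0,0,0,0,0,0,0,0,0,0,0,0,0,0,0,0,0],
  [-1,0,0,0,0,0,0,0,0,0,0,1,0,0,0,0,-1,0,0,0,0,0,0,0,0,0,0,1],
  [0,0,1,0,0,1,1,0,0,0,0,0,0,0,0,0,0,0,0,0,0,0,0,1,1,0,0,0],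
  [0,0,0,0,0,1,1,0,0,0,0,0,0,0,0,0,0,0,0,0,0,0,0,1,0,0,0,0],
  [-1,1,0,0,0,0,0,0,0,0,0,1,0,0,0,0,-1,0,0,0,0,0,0,0,0,0,0,1],
  [1,0,0,0,0,0,0,0,0,0,0,-1,0,0,0,0,1,0,0,0,0,0,0,0,0,0,-1,0]]

/-- data -/
def Q0 : List (List ℤ) := [[0,0,0,0,0,0,0,0,-1,0,1,0,0,0,0,0,0,0,0,0,0,0,0,0,0,0,0,0],
  [0,0,0,0,0,0,0,0,0,0,0,0,0,0,0,0,0,0,0,0,0,0,0,-1,0,0,1,0],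
  [0,0,0,0,0,0,0,0,0,0,0,0,0,0,0,0,0,0,0,0,0,1,0,0,1,0,0,0],
  [0,0,-1,0,0,0,1,0,0,0,0,0,0,0,0,0,0,0,0,0,0,0,0,0,0,0,0,0],
  [0,0,0,0,0,0,0,0,0,0,0,0,1,0,0,0,0,0,0,1,0,0,0,0,0,0,0,0],
  [1,0,0,0,0,0,0,0,0,0,0,0,0,0,0,0,0,0,0,0,0,0,0,0,0,0,0,0],
  [-1,0,0,0,0,0,0,0,0,0,0,0,0,0,1,0,0,0,0,0,0,0,0,0,0,0,0,0],
  [0,0,0,0,0,0,0,0,0,0,0,0,0,0,0,0,0,0,0,0,1,0,0,0,0,0,0,0],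
  [0,0,0,0,0,0,0,0,0,0,0,0,0,0,0,0,0,0,0,0,0,0,1,0,0,0,0,0],
  [0,0,0,0,0,0,0,0,0,0,0,0,0,1,0,0,0,0,0,1,0,0,0,0,0,0,0,0],
  [0,0,0,0,0,0,0,-1,0,0,0,0,0,0,0,0,0,0,0,0,0,0,0,0,0,0,0,0],
  [0,0,1,0,0,0,0,0,0,0,0,0,0,0,0,0,0,0,0,0,0,0,0,0,0,0,0,0],
  [0,0,0,0,0,-1,0,0,0,0,0,0,0,0,0,0,1,0,0,0,0,0,0,0,0,0,0,0],
  [0,0,0,0,0,0,0,0,0,0,0,1,0,0,0,0,0,0,0,0,0,0,0,0,0,0,0,0],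
  [0,0,0,0,1,0,0,0,0,0,0,0,0,0,0,0,0,0,0,0,0,0,0,0,0,0,0,0],
  [0,0,1,0,0,0,0,0,0,0,0,0,0,0,0,-1,0,0,0,0,0,0,0,0,0,0,0,0],
  [0,0,1,0,0,0,0,0,1,0,0,0,0,0,0,0,0,0,0,0,0,0,0,0,0,0,0,0],
  [0,0,0,0,0,0,0,0,0,0,0,0,0,0,0,0,1,0,1,0,0,0,0,0,0,0,0,0],
  [0,1,0,0,0,0,0,0,0,0,0,0,0,0,0,0,0,0,0,0,0,0,0,0,0,0,0,0],
  [0,0,0,0,0,0,0,0,0,0,0,0,0,0,0,0,0,0,0,1,0,0,0,0,0,0,0,0],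
  [0,0,0,0,0,0,0,-1,0,0,0,0,0,0,0,0,0,1,0,0,0,0,0,0,0,0,0,0],
  [0,0,0,-1,0,0,0,0,0,0,0,0,0,0,0,0,0,0,0,0,0,0,0,0,0,0,0,0],
  [0,0,0,0,0,0,0,0,0,-1,0,0,0,0,0,0,0,0,0,0,0,0,0,0,0,0,0,0],
  [0,0,0,0,0,0,0,0,0,0,0,0,0,0,-1,0,0,0,0,0,0,0,0,0,0,1,0,0],
  [0,0,0,0,0,0,0,0,0,0,0,0,0,0,0,0,0,0,0,0,0,-1,0,0,0,-1,0,0],
  [0,0,0,0,0,-1,0,0,0,0,0,0,0,0,0,0,0,0,0,0,0,0,0,0,0,0,0,0],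
  [0,0,0,0,0,0,0,0,0,0,1,0,0,0,0,0,0,0,0,0,0,0,0,0,0,0,0,-1],
  [0,0,0,0,0,0,0,0,0,0,1,0,0,0,0,0,0,0,0,0,0,0,0,1,0,0,0,0]]

/-- data -/
def A0 : List (List ℤ) := [[0,0,0,0,0,0,0,0,0,0,0,0,0,1,0,0,0,0,0,0,0,0,1,0,0,0,0,0],
  [0,0,0,0,0,0,0,0,-1,0,0,0,0,0,0,0,0,0,0,0,0,0,0,0,0,0,-1,0],
  [0,0,0,0,0,0,0,1,0,0,0,0,0,0,0,0,0,0,0,0,0,0,0,1,-1,0,0,0],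
  [0,0,0,0,0,0,0,0,0,0,-1,0,0,0,0,0,0,0,0,0,-1,1,0,0,0,0,0,0],
  [0,0,0,0,0,0,0,0,0,1,0,0,0,0,0,0,0,1,0,0,0,0,0,0,0,0,0,0],
  [0,0,0,0,0,0,0,0,0,0,0,0,0,0,0,0,0,0,1,0,0,0,0,0,0,0,0,0],
  [0,0,0,0,0,0,0,0,0,0,0,0,0,0,0,-1,0,0,-1,0,0,0,0,0,0,0,0,0],
  [0,0,1,0,0,0,0,0,0,0,0,0,0,0,0,0,0,0,0,0,0,0,0,0,-1,0,0,0],
  [0,-1,0,0,0,0,0,0,0,0,0,0,0,0,0,0,0,0,0,0,0,0,0,0,0,0,0,1],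
  [0,0,0,0,1,0,0,0,0,0,0,0,0,0,0,0,0,1,0,0,0,0,0,0,0,0,0,0],
  [0,0,0,-1,0,0,0,0,0,0,0,0,0,0,0,0,0,0,0,0,0,0,0,0,0,0,0,0],
  [0,0,0,0,0,0,0,0,0,0,0,0,0,0,0,0,0,0,0,0,0,-1,0,0,0,0,0,0],
  [0,0,0,0,0,0,0,0,0,0,0,0,0,0,-1,0,0,0,0,0,1,0,0,0,0,0,0,0],
  [1,0,0,0,0,0,0,0,0,0,0,0,0,0,0,0,0,0,0,0,0,0,0,0,0,0,1,1],
  [0,0,0,0,0,0,0,0,0,0,0,0,-1,0,0,0,0,0,0,0,0,0,0,0,0,-1,0,0],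
  [0,0,0,0,0,0,-1,0,0,0,0,0,0,0,0,0,0,0,0,0,0,-1,0,1,0,0,0,0],
  [0,0,0,0,0,0,0,0,0,0,0,0,0,0,0,0,0,0,0,0,0,-1,-1,0,0,0,0,0],
  [0,0,0,0,1,0,0,0,0,1,0,0,0,0,0,0,0,0,0,1,1,0,0,0,0,0,0,0],
  [0,0,0,0,0,1,-1,0,0,0,0,0,0,0,0,0,0,0,0,0,0,0,0,0,0,0,0,0],
  [0,0,0,0,0,0,0,0,0,0,0,0,0,0,0,0,0,1,0,0,0,0,0,0,0,0,0,0],
  [0,0,0,-1,0,0,0,0,0,0,0,0,1,0,0,0,0,1,0,0,0,0,0,0,0,0,0,0],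
  [0,0,0,1,0,0,0,0,0,0,0,-1,0,0,0,-1,-1,0,0,0,0,0,0,0,0,0,0,0],
  [1,0,0,0,0,0,0,0,0,0,0,0,0,0,0,0,-1,0,0,0,0,0,0,0,0,0,0,0],
  [0,0,1,0,0,0,0,0,0,0,0,0,0,0,0,1,0,0,0,0,0,0,0,0,0,0,0,0],
  [0,0,-1,0,0,0,0,-1,0,0,0,0,0,0,0,0,0,0,0,0,0,0,0,0,0,0,0,0],
  [0,0,0,0,0,0,0,0,0,0,0,0,0,0,-1,0,0,0,0,0,0,0,0,0,0,0,0,0],
  [0,-1,0,0,0,0,0,0,0,0,0,0,0,1,0,0,0,0,0,0,0,0,0,0,0,0,0,0],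
  [0,0,0,0,0,0,0,0,1,0,0,0,0,1,0,0,0,0,0,0,0,0,0,0,0,0,0,0]]

/-- data -/
def R0 : List (List ℤ) := [[0,0,0,0,0,0,0,0,0,0,0,0,0,0,0,0,0,0,1,0,0,0,0,0,0,0,0,0],
  [0,0,0,0,0,1,-1,0,0,0,0,0,0,0,0,0,0,0,0,0,0,0,0,0,0,0,0,0],
  [0,0,0,0,0,0,0,0,0,0,0,0,0,0,0,0,0,0,0,0,0,-1,0,0,0,0,0,0],
  [0,0,0,-1,0,0,0,0,0,0,0,1,0,0,0,1,1,0,0,0,0,0,0,0,0,0,0,0],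
  [0,0,0,0,0,0,0,0,0,0,0,0,-1,0,0,0,0,0,0,0,0,0,0,0,0,-1,0,0],
  [0,0,0,0,0,0,0,0,0,0,0,0,0,0,1,0,0,0,0,0,0,0,0,0,0,0,0,0],
  [0,0,0,0,0,0,0,0,0,0,-1,0,0,0,0,0,0,0,0,0,-1,0,0,0,0,0,0,0],
  [0,0,0,1,0,0,0,0,0,0,0,0,0,0,0,0,0,0,0,0,0,0,0,0,0,0,0,0],
  [0,0,0,0,0,0,0,0,0,0,0,0,0,0,0,0,0,0,0,0,0,0,-1,0,0,0,0,0],
  [-1,0,0,0,0,0,0,0,0,0,0,0,0,0,0,0,1,0,0,0,0,0,0,0,0,0,0,0],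
  [0,0,0,0,0,0,0,0,0,0,0,0,0,1,0,0,0,0,0,0,0,0,0,0,0,0,0,0],
  [1,0,0,0,0,0,0,0,0,0,0,0,0,0,0,0,0,0,0,0,0,0,0,0,0,0,1,1],
  [0,0,0,0,0,0,0,0,0,1,0,0,0,0,0,0,0,0,0,0,0,0,0,0,0,0,0,0],
  [0,0,0,0,1,0,0,0,0,0,0,0,0,0,0,0,0,0,0,0,0,0,0,0,0,0,0,0],
  [0,0,0,0,0,0,0,0,0,0,0,0,0,0,0,-1,0,0,0,0,0,0,0,0,0,0,0,0],
  [0,0,0,0,0,0,1,0,0,0,0,0,0,0,0,0,0,0,0,0,0,0,0,-1,0,0,0,0],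
  [0,0,0,0,0,0,0,0,0,0,0,0,0,0,0,0,0,0,0,0,1,0,0,0,0,0,0,0],
  [0,0,0,0,0,0,0,0,0,0,0,0,1,0,0,0,0,1,0,0,0,0,0,0,0,0,0,0],
  [0,0,0,0,1,0,0,0,0,1,0,0,0,0,0,0,0,0,0,1,0,0,0,0,0,0,0,0],
  [0,0,0,0,0,0,0,0,0,0,0,0,0,0,0,0,0,1,0,0,0,0,0,0,0,0,0,0],
  [0,0,1,0,0,0,0,0,0,0,0,0,0,0,0,0,0,0,0,0,0,0,0,0,-1,0,0,0],
  [0,0,0,0,0,0,0,1,0,0,0,0,0,0,0,0,0,0,0,0,0,0,0,0,0,0,0,0],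
  [0,-1,0,0,0,0,0,0,0,0,0,0,0,0,0,0,0,0,0,0,0,0,0,0,0,0,0,1],
  [0,0,0,0,0,0,0,0,1,0,0,0,0,0,0,0,0,0,0,0,0,0,0,0,0,0,0,0],
  [0,0,0,0,0,0,0,0,0,0,0,0,0,0,0,0,0,0,0,0,0,0,0,1,-1,0,0,0],
  [0,0,1,0,0,0,0,0,0,0,0,0,0,0,0,0,0,0,0,0,0,0,0,0,0,0,0,0],
  [0,0,0,0,0,0,0,0,0,0,0,0,0,0,0,0,0,0,0,0,0,0,0,0,0,0,-1,0],
  [0,1,0,0,0,0,0,0,0,0,0,0,0,0,0,0,0,0,0,0,0,0,0,0,0,0,0,0]]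

/-- data -/
def G0 : List (List ℤ) := [[0,1,0,0,0,0,0,0,0,0,0,0,0,0,0,0,0,0,0,0,0,0,0,0,0,0,0,0],
  [1,0,0,0,0,0,0,0,0,0,0,0,0,0,0,0,0,0,0,0,0,0,0,0,0,0,0,0],
  [0,0,0,1,0,0,0,0,0,0,0,0,0,0,0,0,0,0,0,0,0,0,0,0,0,0,0,0],
  [0,0,1,0,0,0,0,0,0,0,0,0,0,0,0,0,0,0,0,0,0,0,0,0,0,0,0,0],
  [0,0,0,0,0,1,0,0,0,0,0,0,0,0,0,0,0,0,0,0,0,0,0,0,0,0,0,0],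
  [0,0,0,0,1,0,0,0,0,0,0,0,0,0,0,0,0,0,0,0,0,0,0,0,0,0,0,0],
  [0,0,0,0,0,0,0,1,0,0,0,0,0,0,0,0,0,0,0,0,0,0,0,0,0,0,0,0],
  [0,0,0,0,0,0,1,0,0,0,0,0,0,0,0,0,0,0,0,0,0,0,0,0,0,0,0,0],
  [0,0,0,0,0,0,0,0,0,1,0,0,0,0,0,0,0,0,0,0,0,0,0,0,0,0,0,0],
  [0,0,0,0,0,0,0,0,1,0,0,0,0,0,0,0,0,0,0,0,0,0,0,0,0,0,0,0],
  [0,0,0,0,0,0,0,0,0,0,0,1,0,0,0,0,0,0,0,0,0,0,0,0,0,0,0,0],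
  [0,0,0,0,0,0,0,0,0,0,1,0,0,0,0,0,0,0,0,0,0,0,0,0,0,0,0,0],
  [0,0,0,0,0,0,0,0,0,0,0,0,0,1,0,0,0,0,0,0,0,0,0,0,0,0,0,0],
  [0,0,0,0,0,0,0,0,0,0,0,0,1,0,0,0,0,0,0,0,0,0,0,0,0,0,0,0],
  [0,0,0,0,0,0,0,0,0,0,0,0,0,0,0,1,0,0,0,0,0,0,0,0,0,0,0,0],
  [0,0,0,0,0,0,0,0,0,0,0,0,0,0,1,0,0,0,0,0,0,0,0,0,0,0,0,0],
  [0,0,0,0,0,0,0,0,0,0,0,0,0,0,0,0,0,1,0,0,0,0,0,0,0,0,0,0],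
  [0,0,0,0,0,0,0,0,0,0,0,0,0,0,0,0,1,0,0,0,0,0,0,0,0,0,0,0],
  [0,0,0,0,0,0,0,0,0,0,0,0,0,0,0,0,0,0,0,1,0,0,0,0,0,0,0,0],
  [0,0,0,0,0,0,0,0,0,0,0,0,0,0,0,0,0,0,1,0,0,0,0,0,0,0,0,0],
  [0,0,0,0,0,0,0,0,0,0,0,0,0,0,0,0,0,0,0,0,0,1,0,0,0,0,0,0],
  [0,0,0,0,0,0,0,0,0,0,0,0,0,0,0,0,0,0,0,0,1,0,0,0,0,0,0,0],
  [0,0,0,0,0,0,0,0,0,0,0,0,0,0,0,0,0,0,0,0,0,0,0,1,0,0,0,0],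
  [0,0,0,0,0,0,0,0,0,0,0,0,0,0,0,0,0,0,0,0,0,0,1,0,0,0,0,0],
  [0,0,0,0,0,0,0,0,0,0,0,0,0,0,0,0,0,0,0,0,0,0,0,0,0,1,0,0],
  [0,0,0,0,0,0,0,0,0,0,0,0,0,0,0,0,0,0,0,0,0,0,0,0,1,0,0,0],
  [0,0,0,0,0,0,0,0,0,0,0,0,0,0,0,0,0,0,0,0,0,0,0,0,0,0,0,1],
  [0,0,0,0,0,0,0,0,0,0,0,0,0,0,0,0,0,0,0,0,0,0,0,0,0,0,1,0]]

/-- data -/
def om1 : List (ℤ × List (Fin 8)) := [(1, [0, 2, 3, 4]), (-1, [0, 2, 3, 5]), (-1, [0, 1, 4, 5]), (-1, [1, 2, 4, 5]), (-1, [0, 3, 4, 5]), (2, [2, 3, 4, 5]), (-1, [0, 1, 4, 6]), (-1, [0, 2, 4, 6]), (-1, [1, 3, 4, 6]), (-1, [2, 3, 4, 6]), (-1, [0, 2, 5, 6]), (-1, [1, 2, 5, 6]), (1, [2, 3, 5, 6]), (-1, [2, 4, 5, 6]), (-1, [0,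 1, 3, 7]), (-1, [0, 2, 3, 7]), (-1, [1, 2, 4, 7]), (1, [2, 3, 4, 7]), (1, [0, 1, 5, 7]), (1, [1, 3, 5, 7]), (-1, [2, 4, 5, 7]), (1, [0, 2, 6, 7]), (1, [3, 4, 6, 7]), (1, [1, 5, 6, 7]), (1, [4, 5, 6, 7])]

/-- data -/
def P1 : List (List ℤ) := [[0,1,0,0,0,0,0,0,0,0,0,0,0,0,0,0,0,0,0,0,0,0,0,0,0,0,0,0],
  [0,0,0,0,0,0,0,0,-1,0,0,0,0,0,0,0,0,0,0,0,0,0,0,0,0,0,0,0],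
  [0,0,0,1,0,0,0,0,0,0,0,0,0,0,0,0,0,0,0,0,0,0,0,0,0,0,0,0],
  [0,0,0,0,0,0,0,0,0,0,0,0,0,-1,0,0,0,0,0,0,0,0,0,0,0,0,0,0],
  [0,0,0,0,1,0,0,0,0,0,0,0,0,0,0,0,0,0,0,0,0,0,0,0,0,0,0,0],
  [0,0,0,0,0,0,0,1,0,0,0,0,0,0,0,0,0,0,0,0,0,0,0,0,0,0,0,0],
  [0,0,0,0,0,0,0,0,0,1,0,0,0,0,0,0,0,0,0,0,0,0,0,0,0,0,0,0],
  [0,0,0,0,0,0,0,0,0,0,0,0,0,0,0,0,0,0,0,1,0,0,0,0,0,0,0,0],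
  [0,0,1,0,-1,0,0,0,0,0,0,0,0,0,0,0,0,0,0,0,0,0,0,0,0,0,0,0],
  [0,0,0,0,0,0,0,0,0,0,0,0,0,0,1,0,0,0,0,0,0,0,0,0,0,0,0,0],
  [0,0,0,0,0,0,1,0,0,0,0,0,0,0,0,0,0,0,0,-1,0,0,1,0,0,0,0,0],
  [0,0,0,0,0,0,0,0,0,0,0,0,0,0,0,-1,0,0,0,0,0,0,0,0,0,0,0,0],
  [0,0,0,0,0,0,0,0,1,0,-1,0,0,0,0,-1,0,0,0,0,0,0,0,0,0,0,0,0],
  [0,1,0,0,0,0,0,0,0,0,0,0,0,0,0,0,0,0,0,0,0,0,-1,0,0,0,0,0],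
  [0,0,-1,-1,1,1,0,0,0,1,0,0,0,0,0,0,0,0,1,0,0,0,0,0,0,0,-1,0],
  [0,0,1,0,-1,0,0,0,0,0,0,0,0,0,0,0,0,0,0,-1,0,0,1,0,1,-1,0,0],
  [0,0,0,-1,0,0,-1,0,0,0,1,0,0,0,0,1,0,0,0,1,0,0,-1,1,0,0,0,0],
  [0,1,-1,1,0,0,0,0,0,0,0,0,0,0,0,0,0,0,0,0,0,0,-1,0,0,1,0,-1],
  [0,0,0,0,0,0,-1,0,0,0,0,0,0,0,0,0,0,0,0,1,0,0,-2,1,0,0,1,0],
  [0,-1,0,-1,0,0,0,0,0,0,0,0,0,0,0,-1,0,0,1,0,0,0,2,0,0,0,-1,0],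
  [0,0,0,-1,0,1,0,0,0,0,0,0,0,0,0,0,0,1,1,0,-1,0,0,0,0,0,-1,0],
  [0,1,0,2,-1,0,0,0,0,0,-1,0,0,1,0,-1,0,0,0,0,0,1,0,-1,1,0,0,-1],
  [1,1,0,0,1,0,0,-1,0,1,1,-1,1,1,1,0,-1,0,-1,1,1,1,-3,0,-2,-1,0,1],
  [-1,-1,0,-1,0,0,-1,0,0,-1,0,1,-1,-1,-1,1,1,0,0,0,0,-1,0,1,1,0,1,0],
  [-1,-1,-1,1,0,0,2,1,0,0,-2,0,-1,0,-1,-2,0,-1,1,-2,-1,-1,4,-2,0,2,-1,-1],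
  [0,0,1,1,-1,0,0,1,0,0,-1,0,-1,0,-1,0,0,-1,0,-1,-1,-1,-1,1,1,0,2,0],
  [0,0,-2,0,2,1,1,0,0,1,-1,0,0,0,1,-1,0,0,1,0,0,0,1,-1,0,1,-1,0],
  [1,0,2,-2,-1,0,-1,-1,1,0,1,-1,0,1,0,0,0,0,0,1,0,1,-1,1,-1,-2,-1,1]]

/-- data -/
def Q1 : List (List ℤ) := [[0,0,-1,0,0,0,0,0,0,0,-1,0,0,-1,0,-1,-1,1,-2,1,0,0,0,0,-1,1,0,0],
  [1,0,0,0,0,0,0,0,0,0,0,0,0,0,0,0,0,0,0,0,0,0,0,0,0,0,0,0],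
  [0,0,0,0,1,0,0,0,1,0,0,0,0,0,0,0,0,0,0,0,0,0,0,0,0,0,0,0],
  [0,0,1,0,0,0,0,0,0,0,0,0,0,0,0,0,0,0,0,0,0,0,0,0,0,0,0,0],
  [0,0,0,0,1,0,0,0,0,0,0,0,0,0,0,0,0,0,0,0,0,0,0,0,0,0,0,0],
  [1,0,0,0,0,0,-1,0,1,0,0,1,0,-2,1,0,0,0,0,-1,0,0,0,0,0,0,0,0],
  [-1,0,0,0,0,0,0,1,0,0,1,0,0,1,0,0,0,0,0,0,0,0,0,0,0,0,0,0],
  [0,0,0,0,0,1,0,0,0,0,0,0,0,0,0,0,0,0,0,0,0,0,0,0,0,0,0,0],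
  [0,-1,0,0,0,0,0,0,0,0,0,0,0,0,0,0,0,0,0,0,0,0,0,0,0,0,0,0],
  [0,0,0,0,0,0,1,0,0,0,0,0,0,0,0,0,0,0,0,0,0,0,0,0,0,0,0,0],
  [0,-1,0,0,0,0,0,0,0,0,0,1,-1,0,0,0,0,0,0,0,0,0,0,0,0,0,0,0],
  [0,0,0,0,0,-1,0,0,0,2,0,1,1,0,2,-3,0,-1,-3,1,0,1,0,0,-1,1,-2,-1],
  [0,0,0,-1,0,-1,-1,0,0,0,0,1,0,0,2,0,-1,-1,2,-2,-1,-1,-2,-2,0,-1,-1,0],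
  [0,0,0,-1,0,0,0,0,0,0,0,0,0,0,0,0,0,0,0,0,0,0,0,0,0,0,0,0],
  [0,0,0,0,0,0,0,0,0,1,0,0,0,0,0,0,0,0,0,0,0,0,0,0,0,0,0,0],
  [0,0,0,0,0,0,0,0,0,0,0,-1,0,0,0,0,0,0,0,0,0,0,0,0,0,0,0,0],
  [0,0,0,-1,0,0,0,0,0,0,0,1,-1,0,1,0,-2,0,2,-2,-1,-1,-2,-1,0,-1,0,1],
  [0,0,0,0,0,1,1,0,0,-1,0,-1,0,0,-2,1,0,1,0,1,1,0,1,1,0,0,1,0],
  [0,-1,0,0,0,0,0,0,0,0,0,-1,-1,1,0,0,-1,0,1,1,0,0,0,0,0,0,0,0],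
  [0,0,0,0,0,0,0,1,0,0,0,0,0,0,0,0,0,0,0,0,0,0,0,0,0,0,0,0],
  [0,0,0,0,0,1,0,0,1,-1,0,-1,0,0,-1,1,0,1,0,1,0,0,1,1,0,0,1,0],
  [0,0,0,1,0,0,0,-1,0,0,1,0,0,0,0,-1,1,-1,0,0,0,1,0,0,0,0,0,0],
  [1,0,0,0,0,0,0,0,0,0,0,0,0,-1,0,0,0,0,0,0,0,0,0,0,0,0,0,0],
  [0,1,1,0,0,0,0,0,0,0,1,0,1,0,0,0,1,0,0,0,0,0,0,0,0,0,0,0],
  [-1,0,0,0,0,0,0,0,0,-1,0,0,0,1,-1,1,1,0,0,0,0,0,0,0,0,0,1,0],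
  [0,0,0,0,0,0,0,-1,1,-1,0,0,0,0,-1,0,1,0,0,0,0,0,0,0,0,0,1,0],
  [1,-1,-1,0,0,0,0,0,0,0,0,0,-1,-1,0,0,-1,0,1,0,0,0,0,0,0,0,0,0],
  [0,0,1,0,-1,0,0,-1,0,-1,0,0,0,1,-1,0,1,-1,0,0,0,0,0,0,0,0,1,0]]

/-- data -/
def A1 : List (List ℤ) := [[0,0,0,0,0,0,0,0,0,0,0,0,0,1,0,1,0,0,0,0,-1,1,0,0,1,1,1,2],
  [0,0,0,0,0,0,0,0,-1,0,-1,0,0,0,0,0,0,0,-1,0,0,0,0,1,0,0,-1,0],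
  [0,0,0,0,0,0,0,1,0,0,0,1,-1,0,1,0,0,0,0,0,0,0,0,0,-1,-1,0,-1],
  [0,0,0,0,0,0,0,0,0,0,0,0,-1,-1,0,0,-1,0,0,0,0,1,0,0,0,0,0,0],
  [0,0,0,0,0,0,0,1,0,0,0,-1,-1,0,0,0,0,1,0,0,1,0,0,0,0,0,0,0],
  [0,0,0,0,0,0,0,0,-1,0,1,0,-2,0,1,0,0,0,0,-1,0,1,0,0,0,0,0,0],
  [0,0,0,0,0,0,0,0,1,1,1,2,0,0,0,-1,0,0,-1,0,-1,0,0,0,0,0,0,0],
  [0,0,1,0,1,0,0,0,0,0,0,0,0,0,0,0,0,0,0,0,0,0,0,0,0,0,0,-1],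
  [0,-1,0,0,0,-1,1,0,0,0,0,0,0,0,0,0,0,0,0,0,0,0,-1,0,1,0,-1,0],
  [0,0,0,0,0,0,1,0,0,0,0,0,0,0,0,0,0,0,0,1,0,-1,0,0,0,-1,0,-1],
  [0,-1,0,0,0,1,1,0,0,0,0,0,0,0,0,0,0,0,-1,0,0,1,0,1,0,0,0,-1],
  [0,0,1,0,-1,0,2,0,0,0,0,0,0,0,0,0,0,1,0,0,0,0,-1,0,1,0,1,0],
  [0,0,-1,-1,-1,-2,0,0,0,0,0,0,0,0,0,0,-1,0,1,-1,0,0,0,-1,0,-1,0,0],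
  [1,0,0,-1,0,0,0,0,0,0,0,0,0,0,0,0,0,0,0,0,0,0,0,-1,0,0,1,-1],
  [0,0,1,0,0,1,0,0,0,0,0,0,0,0,0,0,0,0,0,0,1,0,0,0,0,1,0,0],
  [1,0,0,0,0,0,-1,0,0,0,0,0,0,0,0,0,0,0,0,0,0,-1,0,-1,0,0,0,0],
  [0,0,0,-1,0,0,0,0,0,0,0,0,-1,0,0,0,0,0,-1,0,0,1,1,0,0,0,0,0],
  [0,0,0,0,1,0,0,0,0,0,0,1,0,0,0,0,0,0,0,1,-1,0,0,0,0,0,0,0],
  [0,-1,0,0,0,0,-1,0,0,0,-1,0,1,0,0,0,-1,0,0,0,0,0,0,0,0,0,0,0],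
  [0,0,0,0,0,-1,0,0,0,1,0,0,-1,0,0,0,0,1,0,0,0,0,0,0,0,0,0,0],
  [-1,0,0,0,1,0,-1,0,0,0,0,0,0,0,1,0,0,-1,0,0,0,0,0,0,0,0,0,0],
  [1,0,0,1,0,1,0,0,0,-1,1,0,0,0,0,-1,1,0,0,0,0,0,0,0,0,0,0,0],
  [0,0,0,0,0,0,0,0,-1,0,0,-1,0,0,0,0,1,0,0,0,0,0,0,0,0,0,0,0],
  [0,1,0,0,0,0,0,0,0,0,1,0,-1,-1,0,-1,0,0,0,0,0,0,0,0,0,0,0,0],
  [1,0,-1,0,0,0,0,0,1,0,0,1,0,0,0,0,0,0,0,0,0,0,0,0,0,0,0,0],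
  [1,0,-1,0,0,0,0,0,0,-1,0,0,-1,0,1,0,0,0,0,0,0,0,0,0,0,0,0,0],
  [1,-1,0,0,0,0,0,0,-1,0,0,1,0,1,0,0,0,0,0,0,0,0,0,0,0,0,0,0],
  [2,0,-1,0,0,0,0,-1,0,-1,-1,0,0,-1,0,0,0,0,0,0,0,0,0,0,0,0,0,0]]

/-- data -/
def R1 : List (List ℤ) := [[0,0,0,0,0,0,0,0,-1,0,-1,0,0,0,0,0,0,0,-1,0,0,0,0,1,0,0,-1,0],
  [0,1,0,0,0,1,-1,0,0,0,0,0,0,0,0,0,0,0,0,0,0,0,1,0,-1,0,1,0],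
  [0,0,0,0,0,0,0,0,0,0,0,0,-1,-1,0,0,-1,0,0,0,0,1,0,0,0,0,0,0],
  [-1,0,0,1,0,0,0,0,0,0,0,0,0,0,0,0,0,0,0,0,0,0,0,1,0,0,-1,1],
  [0,0,0,0,0,0,0,1,0,0,0,-1,-1,0,0,0,0,1,0,0,1,0,0,0,0,0,0,0],
  [0,0,1,0,1,0,0,0,0,0,0,0,0,0,0,0,0,0,0,0,0,0,0,0,0,0,0,-1],
  [0,0,0,0,0,0,1,0,0,0,0,0,0,0,0,0,0,0,0,1,0,-1,0,0,0,-1,0,-1],
  [0,0,0,0,0,-1,0,0,0,1,0,0,-1,0,0,0,0,1,0,0,0,0,0,0,0,0,0,0],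
  [0,0,0,0,0,0,0,0,0,0,0,2,0,0,1,0,0,-1,0,0,-1,0,0,0,-1,-1,0,-1],
  [0,0,1,0,0,1,0,0,0,0,0,0,0,0,0,0,0,0,0,0,1,0,0,0,0,1,0,0],
  [0,0,0,0,0,1,0,0,0,0,1,1,1,0,0,-1,1,-1,-1,0,-1,0,0,0,0,0,0,0],
  [-1,0,0,0,0,0,1,0,0,0,0,0,0,0,0,0,0,0,0,0,0,1,0,1,0,0,0,0],
  [-1,0,0,0,0,-2,1,0,0,0,0,0,0,0,0,0,0,0,1,0,0,0,-1,0,1,0,-1,1],
  [0,0,0,0,0,0,0,0,0,0,-1,1,0,0,0,0,-1,0,-1,0,0,0,0,1,0,0,-1,0],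
  [-1,0,0,0,0,0,0,0,0,0,0,-3,0,0,0,0,0,1,0,0,1,-1,0,0,1,0,0,0],
  [0,0,0,0,0,1,0,0,0,0,0,2,2,0,0,0,1,-2,0,0,-1,0,0,0,-1,-1,0,-1],
  [1,0,0,0,0,0,0,0,0,0,0,-1,-1,0,0,0,0,1,0,0,1,-1,0,0,0,0,0,-1],
  [-1,0,0,0,0,0,0,0,0,0,0,0,-1,0,0,0,-2,0,-1,0,0,1,0,1,1,1,-1,1],
  [1,0,0,0,0,-1,0,0,0,0,0,1,-2,0,0,0,-2,1,1,0,1,0,0,0,0,0,0,0],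
  [-2,0,0,0,0,0,0,0,0,0,0,-3,2,0,0,0,2,0,1,0,0,0,0,0,0,0,1,0],
  [0,0,0,0,0,0,0,0,0,0,0,0,0,0,0,0,0,1,0,0,-1,0,0,0,0,0,0,0],
  [0,0,0,0,0,0,0,0,0,0,0,2,0,0,0,0,-1,-1,0,0,-1,2,0,0,0,0,0,0],
  [0,0,0,0,0,0,0,0,0,0,0,0,-1,0,0,0,-2,0,0,0,1,0,0,0,0,0,0,0],
  [1,0,0,0,0,0,0,0,0,0,0,0,-1,0,0,0,1,1,0,0,1,-1,0,0,0,0,0,0],
  [-3,0,0,0,0,0,0,0,0,0,0,-3,3,0,0,0,2,-1,0,0,-1,0,0,0,0,0,0,0],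
  [3,0,0,0,0,0,0,0,0,0,0,5,-1,0,0,0,-2,-1,0,0,-1,0,0,0,-1,-1,0,-1],
  [-1,0,0,0,0,0,0,0,0,0,0,-4,-1,0,0,0,0,2,0,0,2,0,0,0,2,2,0,2],
  [0,0,0,0,0,0,0,0,0,0,0,0,1,0,0,0,2,-1,0,0,-1,0,0,0,-1,-1,0,-1]]

/-- data -/
def G1 : List (List ℤ) := [[0,1,0,0,0,0,0,0,0,0,0,0,0,0,0,0,0,0,0,0,0,0,0,0,0,0,0,0],
  [1,0,0,0,0,0,0,0,0,0,0,0,0,0,0,0,0,0,0,0,0,0,0,0,0,0,0,0],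
  [0,0,0,1,0,0,0,0,0,0,0,0,0,0,0,0,0,0,0,0,0,0,0,0,0,0,0,0],
  [0,0,1,0,0,0,0,0,0,0,0,0,0,0,0,0,0,0,0,0,0,0,0,0,0,0,0,0],
  [0,0,0,0,0,1,0,0,0,0,0,0,0,0,0,0,0,0,0,0,0,0,0,0,0,0,0,0],
  [0,0,0,0,1,0,0,0,0,0,0,0,0,0,0,0,0,0,0,0,0,0,0,0,0,0,0,0],
  [0,0,0,0,0,0,0,1,0,0,0,0,0,0,0,0,0,0,0,0,0,0,0,0,0,0,0,0],
  [0,0,0,0,0,0,1,0,0,0,0,0,0,0,0,0,0,0,0,0,0,0,0,0,0,0,0,0],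
  [0,0,0,0,0,0,0,0,0,1,0,0,0,0,0,0,0,0,0,0,0,0,0,0,0,0,0,0],
  [0,0,0,0,0,0,0,0,1,0,0,0,0,0,0,0,0,0,0,0,0,0,0,0,0,0,0,0],
  [0,0,0,0,0,0,0,0,0,0,0,1,0,0,0,0,0,0,0,0,0,0,0,0,0,0,0,0],
  [0,0,0,0,0,0,0,0,0,0,1,0,0,0,0,0,0,0,0,0,0,0,0,0,0,0,0,0],
  [0,0,0,0,0,0,0,0,0,0,0,0,0,1,0,0,0,0,0,0,0,0,0,0,0,0,0,0],
  [0,0,0,0,0,0,0,0,0,0,0,0,1,0,0,0,0,0,0,0,0,0,0,0,0,0,0,0],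
  [0,0,0,0,0,0,0,0,0,0,0,0,0,0,0,1,0,0,0,0,0,0,0,0,0,0,0,0],
  [0,0,0,0,0,0,0,0,0,0,0,0,0,0,1,0,0,0,0,0,0,0,0,0,0,0,0,0],
  [0,0,0,0,0,0,0,0,0,0,0,0,0,0,0,0,0,1,0,0,0,0,0,0,0,0,0,0],
  [0,0,0,0,0,0,0,0,0,0,0,0,0,0,0,0,1,0,0,0,0,0,0,0,0,0,0,0],
  [0,0,0,0,0,0,0,0,0,0,0,0,0,0,0,0,0,0,0,1,0,0,0,0,0,0,0,0],
  [0,0,0,0,0,0,0,0,0,0,0,0,0,0,0,0,0,0,1,0,0,0,0,0,0,0,0,0],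
  [0,0,0,0,0,0,0,0,0,0,0,0,0,0,0,0,0,0,0,0,2,0,-1,0,0,0,0,0],
  [0,0,0,0,0,0,0,0,0,0,0,0,0,0,0,0,0,0,0,0,0,2,0,-1,0,0,0,0],
  [0,0,0,0,0,0,0,0,0,0,0,0,0,0,0,0,0,0,0,0,-1,0,2,-1,0,0,0,0],
  [0,0,0,0,0,0,0,0,0,0,0,0,0,0,0,0,0,0,0,0,0,-1,-1,2,-1,0,0,0],
  [0,0,0,0,0,0,0,0,0,0,0,0,0,0,0,0,0,0,0,0,0,0,0,-1,2,-1,0,0],
  [0,0,0,0,0,0,0,0,0,0,0,0,0,0,0,0,0,0,0,0,0,0,0,0,-1,2,-1,0],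
  [0,0,0,0,0,0,0,0,0,0,0,0,0,0,0,0,0,0,0,0,0,0,0,0,0,-1,2,-1],
  [0,0,0,0,0,0,0,0,0,0,0,0,0,0,0,0,0,0,0,0,0,0,0,0,0,0,-1,2]]

/-- data -/
def om2 : List (ℤ × List (Fin 8)) := [(-1, [0, 2, 3, 4]), (1, [0, 2, 3, 5]), (1, [0, 1, 4, 5]), (1, [1, 2, 4, 5]), (1, [0, 3, 4, 5]), (-2, [2, 3, 4, 5]), (1, [0, 1, 4, 6]), (1, [0, 2, 4, 6]), (1, [1, 3, 4, 6]), (1, [2, 3, 4, 6]), (1, [0, 2, 5, 6]), (1, [1, 2, 5, 6]), (-1, [2, 3, 5, 6]), (1, [2, 4, 5, 6]), (1, [0, 1, 3, 7]), (1, [0, 2, 3, 7]), (1, [1, 2, 4, 7]), (-1, [2, 3, 4, 7]), (-1, [0, 1, 5, 7]), (-1, [1, 3, 5, 7]), (1, [2, 4, 5, 7]), (-1, [0, 2, 6, 7]), (-1, [3, 4, 6, 7]), (-1, [1, 5, 6, 7]),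 (-1, [4, 5, 6, 7])]

/-- data -/
def P2 : List (List ℤ) := [[0,1,0,0,0,0,0,0,0,0,0,0,0,0,0,0,0,0,0,0,0,0,0,0,0,0,0,0],
  [0,0,0,0,0,0,0,0,1,0,0,0,0,0,0,0,0,0,0,0,0,0,0,0,0,0,0,0],
  [0,0,0,1,0,0,0,0,0,0,0,0,0,0,0,0,0,0,0,0,0,0,0,0,0,0,0,0],
  [0,0,0,0,0,0,0,0,0,0,0,0,0,1,0,0,0,0,0,0,0,0,0,0,0,0,0,0],
  [0,0,0,0,1,0,0,0,0,0,0,0,0,0,0,0,0,0,0,0,0,0,0,0,0,0,0,0],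
  [0,0,0,0,0,0,0,-1,0,0,0,0,0,0,0,0,0,0,0,0,0,0,0,0,0,0,0,0],
  [0,0,0,0,0,0,0,0,0,1,0,0,0,0,0,0,0,0,0,0,0,0,0,0,0,0,0,0],
  [0,0,0,0,0,0,0,0,0,0,0,0,0,0,0,0,0,0,0,-1,0,0,0,0,0,0,0,0],
  [0,0,1,0,-1,0,0,0,0,0,0,0,0,0,0,0,0,0,0,0,0,0,0,0,0,0,0,0],
  [0,0,0,0,0,0,0,0,0,0,0,0,0,0,-1,0,0,0,0,0,0,0,0,0,0,0,0,0],
  [0,0,0,0,0,0,1,0,0,0,0,0,0,0,0,0,0,0,0,-1,0,0,1,0,0,0,0,0],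
  [0,0,0,0,0,0,0,0,0,0,0,0,0,0,0,1,0,0,0,0,0,0,0,0,0,0,0,0],
  [0,0,0,0,0,0,0,0,1,0,-1,0,0,0,0,-1,0,0,0,0,0,0,0,0,0,0,0,0],
  [0,-1,0,0,0,0,0,0,0,0,0,0,0,0,0,0,0,0,0,0,0,0,1,0,0,0,0,0],
  [0,0,-1,-1,1,1,0,0,0,1,0,0,0,0,0,0,0,0,1,0,0,0,0,0,0,0,-1,0],
  [0,0,-1,0,1,0,0,0,0,0,0,0,0,0,0,0,0,0,0,1,0,0,-1,0,-1,1,0,0],
  [0,0,0,-1,0,0,-1,0,0,0,1,0,0,0,0,1,0,0,0,1,0,0,-1,1,0,0,0,0],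
  [0,-1,1,-1,0,0,0,0,0,0,0,0,0,0,0,0,0,0,0,0,0,0,1,0,0,-1,0,1],
  [0,0,0,0,0,0,-1,0,0,0,0,0,0,0,0,0,0,0,0,1,0,0,-2,1,0,0,1,0],
  [0,1,0,1,0,0,0,0,0,0,0,0,0,0,0,1,0,0,-1,0,0,0,-2,0,0,0,1,0],
  [0,0,0,-1,0,1,0,0,0,0,0,0,0,0,0,0,0,1,1,0,-1,0,0,0,0,0,-1,0],
  [0,1,0,2,-1,0,0,0,0,0,-1,0,0,1,0,-1,0,0,0,0,0,1,0,-1,1,0,0,-1],
  [1,1,0,0,1,0,0,-1,0,1,1,-1,1,1,1,0,-1,0,-1,1,1,1,-3,0,-2,-1,0,1],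
  [-1,-1,0,-1,0,0,-1,0,0,-1,0,1,-1,-1,-1,1,1,0,0,0,0,-1,0,1,1,0,1,0],
  [-1,-1,-1,1,0,0,2,1,0,0,-2,0,-1,0,-1,-2,0,-1,1,-2,-1,-1,4,-2,0,2,-1,-1],
  [0,0,1,1,-1,0,0,1,0,0,-1,0,-1,0,-1,0,0,-1,0,-1,-1,-1,-1,1,1,0,2,0],
  [0,0,-2,0,2,1,1,0,0,1,-1,0,0,0,1,-1,0,0,1,0,0,0,1,-1,0,1,-1,0],
  [1,0,2,-2,-1,0,-1,-1,1,0,1,-1,0,1,0,0,0,0,0,1,0,1,-1,1,-1,-2,-1,1]]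

/-- data -/
def Q2 : List (List ℤ) := [[0,0,-1,0,0,0,0,0,0,0,-1,0,0,1,0,1,-1,-1,-2,-1,0,0,0,0,-1,1,0,0],
  [1,0,0,0,0,0,0,0,0,0,0,0,0,0,0,0,0,0,0,0,0,0,0,0,0,0,0,0],
  [0,0,0,0,1,0,0,0,1,0,0,0,0,0,0,0,0,0,0,0,0,0,0,0,0,0,0,0],
  [0,0,1,0,0,0,0,0,0,0,0,0,0,0,0,0,0,0,0,0,0,0,0,0,0,0,0,0],
  [0,0,0,0,1,0,0,0,0,0,0,0,0,0,0,0,0,0,0,0,0,0,0,0,0,0,0,0],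
  [1,0,0,0,0,0,-1,0,1,0,0,-1,0,2,1,0,0,0,0,1,0,0,0,0,0,0,0,0],
  [-1,0,0,0,0,0,0,-1,0,0,1,0,0,-1,0,0,0,0,0,0,0,0,0,0,0,0,0,0],
  [0,0,0,0,0,-1,0,0,0,0,0,0,0,0,0,0,0,0,0,0,0,0,0,0,0,0,0,0],
  [0,1,0,0,0,0,0,0,0,0,0,0,0,0,0,0,0,0,0,0,0,0,0,0,0,0,0,0],
  [0,0,0,0,0,0,1,0,0,0,0,0,0,0,0,0,0,0,0,0,0,0,0,0,0,0,0,0],
  [0,1,0,0,0,0,0,0,0,0,0,-1,-1,0,0,0,0,0,0,0,0,0,0,0,0,0,0,0],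
  [0,0,0,0,0,1,0,0,0,-2,0,-1,1,0,2,3,0,1,-3,-1,0,1,0,0,-1,1,-2,-1],
  [0,0,0,1,0,1,-1,0,0,0,0,-1,0,0,2,0,-1,1,2,2,-1,-1,-2,-2,0,-1,-1,0],
  [0,0,0,1,0,0,0,0,0,0,0,0,0,0,0,0,0,0,0,0,0,0,0,0,0,0,0,0],
  [0,0,0,0,0,0,0,0,0,-1,0,0,0,0,0,0,0,0,0,0,0,0,0,0,0,0,0,0],
  [0,0,0,0,0,0,0,0,0,0,0,1,0,0,0,0,0,0,0,0,0,0,0,0,0,0,0,0],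
  [0,0,0,1,0,0,0,0,0,0,0,-1,-1,0,1,0,-2,0,2,2,-1,-1,-2,-1,0,-1,0,1],
  [0,0,0,0,0,-1,1,0,0,1,0,1,0,0,-2,-1,0,-1,0,-1,1,0,1,1,0,0,1,0],
  [0,1,0,0,0,0,0,0,0,0,0,1,-1,-1,0,0,-1,0,1,-1,0,0,0,0,0,0,0,0],
  [0,0,0,0,0,0,0,-1,0,0,0,0,0,0,0,0,0,0,0,0,0,0,0,0,0,0,0,0],
  [0,0,0,0,0,-1,0,0,1,1,0,1,0,0,-1,-1,0,-1,0,-1,0,0,1,1,0,0,1,0],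
  [0,0,0,-1,0,0,0,1,0,0,1,0,0,0,0,1,1,1,0,0,0,1,0,0,0,0,0,0],
  [1,0,0,0,0,0,0,0,0,0,0,0,0,1,0,0,0,0,0,0,0,0,0,0,0,0,0,0],
  [0,-1,1,0,0,0,0,0,0,0,1,0,1,0,0,0,1,0,0,0,0,0,0,0,0,0,0,0],
  [-1,0,0,0,0,0,0,0,0,1,0,0,0,-1,-1,-1,1,0,0,0,0,0,0,0,0,0,1,0],
  [0,0,0,0,0,0,0,1,1,1,0,0,0,0,-1,0,1,0,0,0,0,0,0,0,0,0,1,0],
  [1,1,-1,0,0,0,0,0,0,0,0,0,-1,1,0,0,-1,0,1,0,0,0,0,0,0,0,0,0],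
  [0,0,1,0,-1,0,0,1,0,1,0,0,0,-1,-1,0,1,1,0,0,0,0,0,0,0,0,1,0]]

/-- data -/
def A2 : List (List ℤ) := [[0,0,0,0,0,0,0,0,0,0,0,0,0,-1,0,-1,0,0,0,0,1,-1,0,0,-1,-1,-1,-2],
  [0,0,0,0,0,0,0,0,1,0,1,0,0,0,0,0,0,0,1,0,0,0,0,-1,0,0,1,0],
  [0,0,0,0,0,0,0,-1,0,0,0,-1,1,0,-1,0,0,0,0,0,0,0,0,0,1,1,0,1],
  [0,0,0,0,0,0,0,0,0,0,0,0,1,1,0,0,1,0,0,0,0,-1,0,0,0,0,0,0],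
  [0,0,0,0,0,0,0,-1,0,0,0,1,1,0,0,0,0,-1,0,0,-1,0,0,0,0,0,0,0],
  [0,0,0,0,0,0,0,0,1,0,-1,0,2,0,-1,0,0,0,0,1,0,-1,0,0,0,0,0,0],
  [0,0,0,0,0,0,0,0,-1,-1,-1,-2,0,0,0,1,0,0,1,0,1,0,0,0,0,0,0,0],
  [0,0,-1,0,-1,0,0,0,0,0,0,0,0,0,0,0,0,0,0,0,0,0,0,0,0,0,0,1],
  [0,1,0,0,0,1,-1,0,0,0,0,0,0,0,0,0,0,0,0,0,0,0,1,0,-1,0,1,0],
  [0,0,0,0,0,0,-1,0,0,0,0,0,0,0,0,0,0,0,0,-1,0,1,0,0,0,1,0,1],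
  [0,1,0,0,0,-1,-1,0,0,0,0,0,0,0,0,0,0,0,1,0,0,-1,0,-1,0,0,0,1],
  [0,0,-1,0,1,0,-2,0,0,0,0,0,0,0,0,0,0,-1,0,0,0,0,1,0,-1,0,-1,0],
  [0,0,1,1,1,2,0,0,0,0,0,0,0,0,0,0,1,0,-1,1,0,0,0,1,0,1,0,0],
  [-1,0,0,1,0,0,0,0,0,0,0,0,0,0,0,0,0,0,0,0,0,0,0,1,0,0,-1,1],
  [0,0,-1,0,0,-1,0,0,0,0,0,0,0,0,0,0,0,0,0,0,-1,0,0,0,0,-1,0,0],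
  [-1,0,0,0,0,0,1,0,0,0,0,0,0,0,0,0,0,0,0,0,0,1,0,1,0,0,0,0],
  [0,0,0,1,0,0,0,0,0,0,0,0,1,0,0,0,0,0,1,0,0,-1,-1,0,0,0,0,0],
  [0,0,0,0,-1,0,0,0,0,0,0,-1,0,0,0,0,0,0,0,-1,1,0,0,0,0,0,0,0],
  [0,1,0,0,0,0,1,0,0,0,1,0,-1,0,0,0,1,0,0,0,0,0,0,0,0,0,0,0],
  [0,0,0,0,0,1,0,0,0,-1,0,0,1,0,0,0,0,-1,0,0,0,0,0,0,0,0,0,0],
  [1,0,0,0,-1,0,1,0,0,0,0,0,0,0,-1,0,0,1,0,0,0,0,0,0,0,0,0,0],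
  [-1,0,0,-1,0,-1,0,0,0,1,-1,0,0,0,0,1,-1,0,0,0,0,0,0,0,0,0,0,0],
  [0,0,0,0,0,0,0,0,1,0,0,1,0,0,0,0,-1,0,0,0,0,0,0,0,0,0,0,0],
  [0,-1,0,0,0,0,0,0,0,0,-1,0,1,1,0,1,0,0,0,0,0,0,0,0,0,0,0,0],
  [-1,0,1,0,0,0,0,0,-1,0,0,-1,0,0,0,0,0,0,0,0,0,0,0,0,0,0,0,0],
  [-1,0,1,0,0,0,0,0,0,1,0,0,1,0,-1,0,0,0,0,0,0,0,0,0,0,0,0,0],
  [-1,1,0,0,0,0,0,0,1,0,0,-1,0,-1,0,0,0,0,0,0,0,0,0,0,0,0,0,0],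
  [-2,0,1,0,0,0,0,1,0,1,1,0,0,1,0,0,0,0,0,0,0,0,0,0,0,0,0,0]]

/-- data -/
def R2 : List (List ℤ) := [[0,0,0,0,0,0,0,0,1,0,1,0,0,0,0,0,0,0,1,0,0,0,0,-1,0,0,1,0],
  [0,1,0,0,0,1,-1,0,0,0,0,0,0,0,0,0,0,0,0,0,0,0,1,0,-1,0,1,0],
  [0,0,0,0,0,0,0,0,0,0,0,0,1,1,0,0,1,0,0,0,0,-1,0,0,0,0,0,0],
  [-1,0,0,1,0,0,0,0,0,0,0,0,0,0,0,0,0,0,0,0,0,0,0,1,0,0,-1,1],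
  [0,0,0,0,0,0,0,-1,0,0,0,1,1,0,0,0,0,-1,0,0,-1,0,0,0,0,0,0,0],
  [0,0,1,0,1,0,0,0,0,0,0,0,0,0,0,0,0,0,0,0,0,0,0,0,0,0,0,-1],
  [0,0,0,0,0,0,-1,0,0,0,0,0,0,0,0,0,0,0,0,-1,0,1,0,0,0,1,0,1],
  [0,0,0,0,0,-1,0,0,0,1,0,0,-1,0,0,0,0,1,0,0,0,0,0,0,0,0,0,0],
  [0,0,0,0,0,0,0,0,0,0,0,-2,0,0,-1,0,0,1,0,0,1,0,0,0,1,1,0,1],
  [0,0,1,0,0,1,0,0,0,0,0,0,0,0,0,0,0,0,0,0,1,0,0,0,0,1,0,0],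
  [0,0,0,0,0,-1,0,0,0,0,-1,-1,-1,0,0,1,-1,1,1,0,1,0,0,0,0,0,0,0],
  [-1,0,0,0,0,0,1,0,0,0,0,0,0,0,0,0,0,0,0,0,0,1,0,1,0,0,0,0],
  [1,0,0,0,0,2,-1,0,0,0,0,0,0,0,0,0,0,0,-1,0,0,0,1,0,-1,0,1,-1],
  [0,0,0,0,0,0,0,0,0,0,-1,1,0,0,0,0,-1,0,-1,0,0,0,0,1,0,0,-1,0],
  [1,0,0,0,0,0,0,0,0,0,0,3,0,0,0,0,0,-1,0,0,-1,1,0,0,-1,0,0,0],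
  [0,0,0,0,0,1,0,0,0,0,0,2,2,0,0,0,1,-2,0,0,-1,0,0,0,-1,-1,0,-1],
  [-1,0,0,0,0,0,0,0,0,0,0,1,1,0,0,0,0,-1,0,0,-1,1,0,0,0,0,0,1],
  [-1,0,0,0,0,0,0,0,0,0,0,0,-1,0,0,0,-2,0,-1,0,0,1,0,1,1,1,-1,1],
  [-1,0,0,0,0,1,0,0,0,0,0,-1,2,0,0,0,2,-1,-1,0,-1,0,0,0,0,0,0,0],
  [-2,0,0,0,0,0,0,0,0,0,0,-3,2,0,0,0,2,0,1,0,0,0,0,0,0,0,1,0],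
  [0,0,0,0,0,0,0,0,0,0,0,0,0,0,0,0,0,-1,0,0,1,0,0,0,0,0,0,0],
  [0,0,0,0,0,0,0,0,0,0,0,-2,0,0,0,0,1,1,0,0,1,-2,0,0,0,0,0,0],
  [0,0,0,0,0,0,0,0,0,0,0,0,1,0,0,0,2,0,0,0,-1,0,0,0,0,0,0,0],
  [-1,0,0,0,0,0,0,0,0,0,0,0,1,0,0,0,-1,-1,0,0,-1,1,0,0,0,0,0,0],
  [3,0,0,0,0,0,0,0,0,0,0,3,-3,0,0,0,-2,1,0,0,1,0,0,0,0,0,0,0],
  [-3,0,0,0,0,0,0,0,0,0,0,-5,1,0,0,0,2,1,0,0,1,0,0,0,1,1,0,1],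
  [1,0,0,0,0,0,0,0,0,0,0,4,1,0,0,0,0,-2,0,0,-2,0,0,0,-2,-2,0,-2],
  [0,0,0,0,0,0,0,0,0,0,0,0,-1,0,0,0,-2,1,0,0,1,0,0,0,1,1,0,1]]

/-- data -/
def G2 : List (List ℤ) := [[0,1,0,0,0,0,0,0,0,0,0,0,0,0,0,0,0,0,0,0,0,0,0,0,0,0,0,0],
  [1,0,0,0,0,0,0,0,0,0,0,0,0,0,0,0,0,0,0,0,0,0,0,0,0,0,0,0],
  [0,0,0,1,0,0,0,0,0,0,0,0,0,0,0,0,0,0,0,0,0,0,0,0,0,0,0,0],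
  [0,0,1,0,0,0,0,0,0,0,0,0,0,0,0,0,0,0,0,0,0,0,0,0,0,0,0,0],
  [0,0,0,0,0,1,0,0,0,0,0,0,0,0,0,0,0,0,0,0,0,0,0,0,0,0,0,0],
  [0,0,0,0,1,0,0,0,0,0,0,0,0,0,0,0,0,0,0,0,0,0,0,0,0,0,0,0],
  [0,0,0,0,0,0,0,1,0,0,0,0,0,0,0,0,0,0,0,0,0,0,0,0,0,0,0,0],
  [0,0,0,0,0,0,1,0,0,0,0,0,0,0,0,0,0,0,0,0,0,0,0,0,0,0,0,0],
  [0,0,0,0,0,0,0,0,0,1,0,0,0,0,0,0,0,0,0,0,0,0,0,0,0,0,0,0],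
  [0,0,0,0,0,0,0,0,1,0,0,0,0,0,0,0,0,0,0,0,0,0,0,0,0,0,0,0],
  [0,0,0,0,0,0,0,0,0,0,0,1,0,0,0,0,0,0,0,0,0,0,0,0,0,0,0,0],
  [0,0,0,0,0,0,0,0,0,0,1,0,0,0,0,0,0,0,0,0,0,0,0,0,0,0,0,0],
  [0,0,0,0,0,0,0,0,0,0,0,0,0,1,0,0,0,0,0,0,0,0,0,0,0,0,0,0],
  [0,0,0,0,0,0,0,0,0,0,0,0,1,0,0,0,0,0,0,0,0,0,0,0,0,0,0,0],
  [0,0,0,0,0,0,0,0,0,0,0,0,0,0,0,1,0,0,0,0,0,0,0,0,0,0,0,0],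
  [0,0,0,0,0,0,0,0,0,0,0,0,0,0,1,0,0,0,0,0,0,0,0,0,0,0,0,0],
  [0,0,0,0,0,0,0,0,0,0,0,0,0,0,0,0,0,1,0,0,0,0,0,0,0,0,0,0],
  [0,0,0,0,0,0,0,0,0,0,0,0,0,0,0,0,1,0,0,0,0,0,0,0,0,0,0,0],
  [0,0,0,0,0,0,0,0,0,0,0,0,0,0,0,0,0,0,0,1,0,0,0,0,0,0,0,0],
  [0,0,0,0,0,0,0,0,0,0,0,0,0,0,0,0,0,0,1,0,0,0,0,0,0,0,0,0],
  [0,0,0,0,0,0,0,0,0,0,0,0,0,0,0,0,0,0,0,0,-2,0,1,0,0,0,0,0],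
  [0,0,0,0,0,0,0,0,0,0,0,0,0,0,0,0,0,0,0,0,0,-2,0,1,0,0,0,0],
  [0,0,0,0,0,0,0,0,0,0,0,0,0,0,0,0,0,0,0,0,1,0,-2,1,0,0,0,0],
  [0,0,0,0,0,0,0,0,0,0,0,0,0,0,0,0,0,0,0,0,0,1,1,-2,1,0,0,0],
  [0,0,0,0,0,0,0,0,0,0,0,0,0,0,0,0,0,0,0,0,0,0,0,1,-2,1,0,0],
  [0,0,0,0,0,0,0,0,0,0,0,0,0,0,0,0,0,0,0,0,0,0,0,0,1,-2,1,0],
  [0,0,0,0,0,0,0,0,0,0,0,0,0,0,0,0,0,0,0,0,0,0,0,0,0,1,-2,1],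
  [0,0,0,0,0,0,0,0,0,0,0,0,0,0,0,0,0,0,0,0,0,0,0,0,0,0,1,-2]]

theorem c0A : ∀ r s : Fin 28, (∀ t ∈ om0, ok (pl r ++ pl s ++ t.2)) ∧
    mat A0 r s = (om0.map fun t => t.1 * (nrm (pl r ++ pl s ++ t.2)).1).sum := by decide +kernel
theorem c0R : ∀ i s, ∑ r, mat P0 i r * mat A0 r s = mat R0 i s := by decide +kernel
theorem c0G : ∀ i j, ∑ s, mat R0 i s * mat P0 j s = mat G0 i j := by decide +kernel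
theorem c0Q : ∀ r s, ∑ i, mat Q0 r i * mat P0 i s = if r = s then 1 else 0 := by decide +kernel
theorem c0L : ∀ t ∈ om0, t.2.length = 4 := by decide

theorem c1A : ∀ r s : Fin 28, (∀ t ∈ om1, ok (pl r ++ pl s ++ t.2)) ∧
    mat A1 r s = (om1.map fun t => t.1 * (nrm (pl r ++ pl s ++ t.2)).1).sum := by decide +kernel
theorem c1R : ∀ i s, ∑ r, mat P1 i r * mat A1 r s = mat R1 i s := by decide +kernel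
theorem c1G : ∀ i j, ∑ s, mat R1 i s * mat P1 j s = mat G1 i j := by decide +kernel
theorem c1Q : ∀ r s, ∑ i, mat Q1 r i * mat P1 i s = if r = s then 1 else 0 := by decide +kernel
theorem c1L : ∀ t ∈ om1, t.2.length = 4 := by decide

theorem c2A : ∀ r s : Fin 28, (∀ t ∈ om2, ok (pl r ++ pl s ++ t.2)) ∧
    mat A2 r s = (om2.map fun t => t.1 * (nrm (pl r ++ pl s ++ t.2)).1).sum := by decide +kernel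
theorem c2R : ∀ i s, ∑ r, mat P2 i r * mat A2 r s = mat R2 i s := by decide +kernel
theorem c2G : ∀ i j, ∑ s, mat R2 i s * mat P2 j s = mat G2 i j := by decide +kernel
theorem c2Q : ∀ r s, ∑ i, mat Q2 r i * mat P2 i s = if r = s then 1 else 0 := by decide +kernel
theorem c2L : ∀ t ∈ om2, t.2.length = 4 := by decide

end Pool.Agent.H3.Ext
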