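import Mathlib

set_option autoImplicit false

namespace Pool.Agent.H3.Fib

open Polynomial

lemma hom_of_max {k F : Type} [Field k] [CommRing F] [Algebra k F] [Algebra.FiniteType k F]
    [Algebra k ℂ] (m : Ideal F) [m.IsMaximal] : ∃ χ : F →ₐ[k] ℂ, RingHom.ker χ = m := by
  let := Ideal.Quotient.field m
  have := finite_of_finite_type_of_isJacobsonRing k (F ⧸ m)
  let l : (F ⧸ m) →ₐ[k] ℂ := IsAlgClosed.lift
  refine ⟨l.comp (Ideal.Quotient.mkₐ k m), ?_⟩
  ext x
  simp [RingHom.mem_ker, Ideal.Quotient.eq_zero_iff_mem]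

lemma fin_spec {k F : Type} [Field k] [CommRing F] [Algebra k F] [Algebra.FiniteType k F]
    [Algebra k ℂ] [Finite (F →ₐ[k] ℂ)] : Finite (PrimeSpectrum F) := by
  have : IsJacobsonRing F := isJacobsonRing_of_finiteType (A := k)
  have h : Function.Injective
      (fun P : PrimeSpectrum F => {χ : F →ₐ[k] ℂ | P.asIdeal ≤ RingHom.ker χ}) := by
    have key : ∀ P Q : PrimeSpectrum F, {χ : F →ₐ[k] ℂ | P.asIdeal ≤ RingHom.ker χ} =
        {χ : F →ₐ[k] ℂ | Q.asIdeal ≤ RingHom.ker χ} → P.asIdeal ≤ Q.asIdeal := by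
      intro P Q h
      rw [← IsJacobsonRing.out' Q.asIdeal Q.2.isRadical, Ideal.jacobson]
      refine le_sInf fun m hm => ?_
      have := hm.2
      obtain ⟨χ, hχ⟩ := hom_of_max (k := k) m
      have : χ ∈ {χ : F →ₐ[k] ℂ | Q.asIdeal ≤ RingHom.ker χ} := by
        show Q.asIdeal ≤ _
        rw [hχ]; exact hm.1
      rw [← h] at this
      rw [← hχ]; exact this
    intro P Q h
    exact PrimeSpectrum.ext (le_antisymm (key P Q h) (key Q P h.symm))
  exact Finite.of_injective _ h

section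
variable {A B : Type} [CommRing A] [CommRing B] [Algebra A B] [Algebra.FiniteType A B]
  (φ : A →+* ℂ)

noncomputable def kl : (haveI := RingHom.ker_isPrime φ; (RingHom.ker φ).ResidueField) →+* ℂ :=
  haveI := RingHom.ker_isPrime φ
  Ideal.ResidueField.lift _ φ le_rfl (fun _ hx => IsUnit.mk0 _ hx)

lemma kl_apply (a : A) : kl φ (algebraMap A _ a) = φ a :=
  haveI := RingHom.ker_isPrime φ
  Ideal.ResidueField.lift_algebraMap _ φ le_rfl (fun _ hx => IsUnit.mk0 _ hx) a

lemma ext_hom (Q : Ideal B) [Q.IsPrime] [hQ : Q.LiesOver (RingHom.ker φ)] :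
    ∃ ψ : B →+* ℂ, ψ.comp (algebraMap A B) = φ := by
  have := RingHom.ker_isPrime φ
  let : Algebra (RingHom.ker φ).ResidueField ℂ := (kl φ).toAlgebra
  obtain ⟨m, hm, -⟩ := Ideal.exists_le_maximal _
    (PrimeSpectrum.primesOverOrderIsoFiber A B (RingHom.ker φ) ⟨Q, ‹_›, hQ⟩).2.ne_top
  obtain ⟨χ, -⟩ := hom_of_max (k := (RingHom.ker φ).ResidueField) m
  refine ⟨χ.toRingHom.comp Algebra.TensorProduct.includeRight.toRingHom, RingHom.ext fun a => ?_⟩
  have : (1 : (RingHom.ker φ).ResidueField) ⊗ₜ[A] (algebraMap A B a) =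
      algebraMap (RingHom.ker φ).ResidueField ((RingHom.ker φ).Fiber B) (algebraMap A _ a) := by
    rw [← IsScalarTower.algebraMap_apply, Algebra.TensorProduct.algebraMap_apply']
  show χ (1 ⊗ₜ _) = _
  rw [this, χ.commutes]
  exact kl_apply φ a

lemma zmp (hf : {ψ : B →+* ℂ | ψ.comp (algebraMap A B) = φ}.Finite) (ψ : B →+* ℂ)
    (hψ : ψ.comp (algebraMap A B) = φ) : Algebra.ZariskisMainProperty A (RingHom.ker ψ) := by
  have := RingHom.ker_isPrime φ
  have := RingHom.ker_isPrime ψ
  let : Algebra (RingHom.ker φ).ResidueField ℂ := (kl φ).toAlgebra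
  have hQ : (RingHom.ker ψ).LiesOver (RingHom.ker φ) := ⟨by
    rw [← hψ]; rfl⟩
  have f1 : Finite ((RingHom.ker φ).Fiber B →ₐ[(RingHom.ker φ).ResidueField] ℂ) := by
    have := hf.to_subtype
    refine Finite.of_injective (β := {ψ : B →+* ℂ | ψ.comp (algebraMap A B) = φ})
      (fun χ => ⟨χ.toRingHom.comp Algebra.TensorProduct.includeRight.toRingHom,
        RingHom.ext fun a => ?_⟩) ?_
    · have : (1 : (RingHom.ker φ).ResidueField) ⊗ₜ[A] (algebraMap A B a) =
          algebraMap (RingHom.ker φ).ResidueField ((RingHom.ker φ).Fiber B) (algebraMap A _ a) := by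
        rw [← IsScalarTower.algebraMap_apply, Algebra.TensorProduct.algebraMap_apply']
      show χ (1 ⊗ₜ _) = _
      rw [this, χ.commutes]
      exact kl_apply φ a
    · intro χ χ' h
      have h2 : ∀ b : B, χ (1 ⊗ₜ b) = χ' (1 ⊗ₜ b) := fun b =>
        congrArg (fun z : {ψ : B →+* ℂ | ψ.comp (algebraMap A B) = φ} => z.1 b) h
      refine AlgHom.ext fun x => ?_
      induction x using TensorProduct.induction_on with
      | zero => simp
      | add x y a b => simp [a, b]
      | tmul x y =>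
        have : x ⊗ₜ[A] y = x • ((1 : (RingHom.ker φ).ResidueField) ⊗ₜ[A] y) := by
          rw [TensorProduct.smul_tmul', smul_eq_mul, mul_one]
        rw [this, map_smul, map_smul, h2]
  have f2 := fin_spec (k := (RingHom.ker φ).ResidueField) (F := (RingHom.ker φ).Fiber B)
  have f3 : Algebra.QuasiFinite (RingHom.ker φ).ResidueField ((RingHom.ker φ).Fiber B) :=
    Algebra.QuasiFinite.iff_finite_comap_preimage_singleton.2 fun _ => Set.toFinite _
  let e := PrimeSpectrum.primesOverOrderIsoFiber A B (RingHom.ker φ)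
  let Q := e ⟨RingHom.ker ψ, ‹_›, hQ⟩
  have f4 : Algebra.QuasiFiniteAt (RingHom.ker φ).ResidueField Q.asIdeal :=
    .of_isLocalization Q.asIdeal.primeCompl
  have f5 : Algebra.QuasiFiniteAt A (RingHom.ker ψ) :=
    .of_quasiFiniteAt_residueField (RingHom.ker φ) _ Q.asIdeal
      (congrArg Subtype.val (e.symm_apply_apply ⟨RingHom.ker ψ, ‹_›, hQ⟩))
  exact .of_finiteType _

end

lemma avoid {M ι : Type} [AddCommGroup M] (s : Finset ι) (f : ι → M →+ ℂ)
    (h : ∀ i ∈ s, ∃ c, f i c ≠ 0) : ∃ b, ∀ i ∈ s, f i b ≠ 0 := by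
  classical
  induction s using Finset.induction_on with
  | empty => exact ⟨0, by simp⟩
  | insert j s hj ih =>
    obtain ⟨b, hb⟩ := ih (fun i hi => h i (Finset.mem_insert_of_mem hi))
    obtain ⟨c, hc⟩ := h j (Finset.mem_insert_self _ _)
    obtain ⟨n, hn⟩ := Infinite.exists_notMem_finset
      (((insert j s).image (fun i => - f i b / f i c)).preimage (fun n : ℕ => (n : ℂ))
        Nat.cast_injective.injOn)
    refine ⟨b + n • c, fun i hi e => hn ?_⟩
    rw [map_add, map_nsmul, nsmul_eq_mul] at e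
    have : f i c ≠ 0 := by
      intro z
      rw [z, mul_zero, add_zero] at e
      rcases Finset.mem_insert.1 hi with rfl | hi
      · exact hc z
      · exact hb i hi e
    rw [Finset.mem_preimage, Finset.mem_image]
    exact ⟨i, hi, by rw [div_eq_iff this]; linear_combination -e⟩

lemma count {A B : Type} [CommRing A] [CommRing B] [Algebra A B] [Algebra.FiniteType A B]
    (φ : A →+* ℂ) (hf : {ψ : B →+* ℂ | ψ.comp (algebraMap A B) = φ}.Finite) :
    ∃ b : B, IsIntegral A b ∧
      {ψ : B →+* ℂ | ψ.comp (algebraMap A B) = φ}.encard ≤ (minpoly A b).natDegree := by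
  classical
  obtain ⟨b, hb⟩ := avoid (M := integralClosure A B) (hf.toFinset.offDiag)
    (fun x => (x.1.toAddMonoidHom - x.2.toAddMonoidHom).comp
      (integralClosure A B).val.toRingHom.toAddMonoidHom) (by
      rintro ⟨ψ, ψ'⟩ h
      rw [Finset.mem_offDiag, Set.Finite.mem_toFinset] at h
      by_contra hc
      push Not at hc
      have hc' : ∀ c, IsIntegral A c → ψ c = ψ' c := fun c h => sub_eq_zero.1 (hc ⟨c, h⟩)
      obtain ⟨r, hr, hr', H⟩ := Algebra.zariskisMainProperty_iff.1 (zmp φ hf ψ h.1)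
      refine h.2.2 (RingHom.ext fun x => ?_)
      obtain ⟨m, hm⟩ := H x
      have e := hc' _ hm
      rw [map_mul, map_mul, map_pow, map_pow, ← hc' r hr'] at e
      exact mul_left_cancel₀ (pow_ne_zero m hr) e)
  refine ⟨b, b.2, ?_⟩
  have hm := (minpoly.monic (show IsIntegral A b.1 from b.2)).map φ
  have : hf.toFinset.card ≤ ((minpoly A b.1).map φ).roots.toFinset.card := by
    refine Finset.card_le_card_of_injOn (fun ψ => ψ b.1) (fun ψ h => ?_) (fun ψ h ψ' h' e => ?_)
    · rw [Finset.mem_coe, Set.Finite.mem_toFinset] at h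
      rw [Finset.mem_coe, Multiset.mem_toFinset, mem_roots hm.ne_zero, IsRoot, eval_map, ← h,
        ← hom_eval₂, ← aeval_def, minpoly.aeval, map_zero]
    · by_contra hne
      exact hb (ψ, ψ') (Finset.mem_offDiag.2 ⟨h, h', hne⟩) (sub_eq_zero.2 e)
  rw [← hf.coe_toFinset, Set.encard_coe_eq_coe_finsetCard]
  exact_mod_cast this.trans ((Multiset.toFinset_card_le _).trans
    ((card_roots' _).trans natDegree_map_le))

lemma ext_inj {A R : Type} [CommRing A] [CommRing R] [IsDomain R] (f : A →+* R) (hf : f.FiniteType)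
    (h1 : Function.Injective f) (φ : A →+* ℂ) (h2 : Function.Injective φ) :
    ∃ ψ : R →+* ℂ, ψ.comp f = φ := by
  algebraize [f]
  have : (⊥ : Ideal R).LiesOver (RingHom.ker φ) := ⟨by
    rw [(RingHom.injective_iff_ker_eq_bot φ).1 h2]
    exact ((RingHom.injective_iff_ker_eq_bot f).1 h1).symm⟩
  exact ext_hom φ ⊥

end Pool.Agent.H3.Fib
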