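import Pool.Agent.H3.Fib1

set_option autoImplicit false

namespace Pool.Agent.H3.Fib

open Polynomial

lemma conj {A B : Type} [CommRing A] [CommRing B] [IsDomain B] [Algebra A B]
    [Algebra.FiniteType A B] (φ : A →+* ℂ) (b : B) (β : ℂ)
    (h : ∀ f : A[X], aeval b f = 0 ↔ eval₂ φ β f = 0) :
    ∃ ψ : B →+* ℂ, ψ.comp (algebraMap A B) = φ ∧ ψ b = β := by
  let f : A[X] →+* B := (aeval b).toRingHom
  have e : f.comp C = algebraMap A B := RingHom.ext fun a => by simp [f]
  have hf : f.FiniteType := RingHom.FiniteType.of_comp_finiteType (f := C) (by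
    rw [e]; exact RingHom.finiteType_algebraMap.2 ‹_›)
  algebraize [f]
  have : (⊥ : Ideal B).LiesOver (RingHom.ker (eval₂RingHom φ β)) :=
    ⟨Ideal.ext fun g => (h g).symm⟩
  obtain ⟨ψ, hψ⟩ := ext_hom (eval₂RingHom φ β) (⊥ : Ideal B)
  refine ⟨ψ, RingHom.ext fun a => ?_, ?_⟩
  · have := congrArg (fun z : A[X] →+* ℂ => z (C a)) hψ
    simpa [RingHom.algebraMap_toAlgebra, f] using this
  · have := congrArg (fun z : A[X] →+* ℂ => z X) hψ
    simpa [RingHom.algebraMap_toAlgebra, f] using this

lemma roots_ok {A B : Type} [CommRing A] [IsDomain A] [CharZero A] [CommRing B] [IsDomain B]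
    [Algebra A B] [Algebra.FiniteType A B] [IsIntegrallyClosed A] [Module.IsTorsionFree A B]
    (φ0 : A →+* ℂ) (i0 : Function.Injective φ0) (b : B) (hb : IsIntegral A b) :
    ((minpoly A b).map φ0).Separable ∧ ∀ β ∈ ((minpoly A b).map φ0).roots.toFinset, ∃ ψ : B →+* ℂ,
        ψ.comp (algebraMap A B) = φ0 ∧ ψ b = β := by
  classical
  let K := FractionRing A
  let : Algebra K ℂ := (IsFractionRing.lift (K := K) i0).toAlgebra
  have e : (algebraMap K ℂ).comp (algebraMap A K) = φ0 :=
    RingHom.ext fun a => by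
      show IsFractionRing.lift (K := K) i0 (algebraMap A K a) = φ0 a
      rw [IsFractionRing.lift_algebraMap]
  have : CharZero K := charZero_of_injective_algebraMap (IsFractionRing.injective A K)
  have hm := minpoly.monic hb
  have hirr : Irreducible ((minpoly A b).map (algebraMap A K)) :=
    hm.irreducible_iff_irreducible_map_fraction_map.1 (minpoly.irreducible hb)
  have hsep : ((minpoly A b).map φ0).Separable := by
    rw [← e, ← map_map]; exact hirr.separable.map
  have key : ∀ β ∈ ((minpoly A b).map φ0).roots.toFinset, ∃ ψ : B →+* ℂ,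
      ψ.comp (algebraMap A B) = φ0 ∧ ψ b = β := by
    intro β hβ
    rw [Multiset.mem_toFinset, mem_roots (hm.map φ0).ne_zero, IsRoot, eval_map] at hβ
    refine conj φ0 b β fun f => ?_
    rw [minpoly.isIntegrallyClosed_dvd_iff hb]
    constructor
    · rintro ⟨g, rfl⟩
      rw [eval₂_mul, hβ, zero_mul]
    · intro h
      have e2 : ∀ g : A[X], aeval β (g.map (algebraMap A K)) = eval₂ φ0 β g := fun g => by
        rw [aeval_def, eval₂_map, e]
      rw [← map_dvd_map (algebraMap A K) (IsFractionRing.injective A K) hm,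
        minpoly.eq_of_irreducible_of_monic hirr ((e2 _).trans hβ) (hm.map _)]
      exact minpoly.dvd _ _ ((e2 _).trans h)
  exact ⟨hsep, key⟩

lemma main_alg {A B : Type} [CommRing A] [IsDomain A] [CharZero A] [CommRing B] [IsDomain B]
    [Algebra A B] [Algebra.FiniteType A B] (hi : Function.Injective (algebraMap A B))
    (hn : Algebra.IsAlgebraic A B → IsIntegrallyClosed A) (ψ0 : B →+* ℂ)
    (h0 : Function.Injective ψ0) (φ : A →+* ℂ)
    (hf : {ψ : B →+* ℂ | ψ.comp (algebraMap A B) = φ}.Finite) :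
    {ψ : B →+* ℂ | ψ.comp (algebraMap A B) = φ}.encard ≤
      {ψ : B →+* ℂ | ψ.comp (algebraMap A B) = ψ0.comp (algebraMap A B)}.encard := by
  classical
  set φ0 := ψ0.comp (algebraMap A B) with hφ0
  have i0 : Function.Injective φ0 := h0.comp hi
  by_cases ha : Algebra.IsAlgebraic A B
  · have := hn ha
    have : Module.IsTorsionFree A B := by
      have := (faithfulSMul_iff_algebraMap_injective A B).2 hi
      infer_instance
    obtain ⟨b, hb, hc⟩ := count φ hf
    refine hc.trans ?_
    obtain ⟨hsep, key⟩ := roots_ok φ0 i0 b hb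
    have hm := minpoly.monic hb
    have c : ((minpoly A b).map φ0).roots.toFinset.card = (minpoly A b).natDegree := by
      rw [Multiset.toFinset_card_of_nodup (nodup_roots hsep), IsAlgClosed.card_roots_eq_natDegree,
        hm.natDegree_map]
    rw [← c, ← Set.encard_coe_eq_coe_finsetCard]
    refine le_trans (Set.encard_le_encard fun β hβ => ?_)
      (Set.encard_image_le (fun ψ : B →+* ℂ => ψ b) _)
    obtain ⟨ψ, h1, h2⟩ := key β hβ
    exact ⟨ψ, h1, h2⟩
  · obtain ⟨b, hb⟩ : ∃ b : B, Transcendental A b := by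
      by_contra h
      exact ha ⟨fun b => by_contra fun hb => h ⟨b, hb⟩⟩
    have key : ∀ n : ℕ, ∃ ψ : B →+* ℂ, ψ.comp (algebraMap A B) = φ0 ∧ ψ b = ψ0 b + n := by
      intro n
      have t : Transcendental A (b + n) := fun h => hb (by
        have := h.sub (isAlgebraic_natCast (R := A) (A := B) n)
        rwa [add_sub_cancel_right] at this)
      refine conj φ0 b _ fun f => ?_
      have : eval₂ φ0 (ψ0 b + n) f = ψ0 (aeval (b + n) f) := by
        rw [aeval_def, hom_eval₂, map_add, map_natCast]
      rw [this, map_eq_zero_iff _ h0]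
      exact ⟨fun h => by rw [transcendental_iff.1 hb f h, map_zero],
        fun h => by rw [transcendental_iff.1 t f h, map_zero]⟩
    choose ψ h1 h2 using key
    have : {ψ : B →+* ℂ | ψ.comp (algebraMap A B) = φ0}.Infinite :=
      Set.infinite_of_injective_forall_mem (f := ψ) (fun m n h => by
        have := h2 m
        rw [h, h2 n] at this
        exact_mod_cast (add_left_cancel this).symm) h1
    rw [this.encard_eq]; exact le_top

lemma bil (α β γ : ℂ) : ∃ a b c d : ℂ, α = a ^ 2 + c ^ 2 ∧ β = a * b + c * d ∧ γ = b ^ 2 + d ^ 2 := by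
  have k : ∀ α β γ : ℂ, α ≠ 0 →
      ∃ a b c d : ℂ, α = a ^ 2 + c ^ 2 ∧ β = a * b + c * d ∧ γ = b ^ 2 + d ^ 2 := by
    intro α β γ h
    obtain ⟨a, ha⟩ := IsAlgClosed.exists_pow_nat_eq α two_pos
    obtain ⟨d, hd⟩ := IsAlgClosed.exists_pow_nat_eq (γ - (β / a) ^ 2) two_pos
    have : a ≠ 0 := by rintro rfl; exact h (by rw [← ha]; ring)
    exact ⟨a, β / a, 0, d, by rw [ha]; ring, by field_simp; ring, by rw [hd]; ring⟩
  by_cases h : α = 0
  · by_cases h' : γ = 0
    · refine ⟨1, β / 2, Complex.I, -Complex.I * β / 2, ?_, ?_, ?_⟩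
      · rw [h, Complex.I_sq]; ring
      · linear_combination (β / 2) * Complex.I_sq
      · rw [h']; linear_combination (-β ^ 2 / 4) * Complex.I_sq
    · obtain ⟨a, b, c, d, h1, h2, h3⟩ := k γ β α h'
      exact ⟨b, a, d, c, h3, by rw [h2]; ring, h1⟩
  · exact k α β γ h

def det3 {V R : Type} [CommRing R] (g : V → V → R) (a b c u v w : V) : R :=
  g a u * g b v * g c w - g a u * g b w * g c v - g a v * g b u * g c w + g a v * g b w * g c u +
    g a w * g b u * g c v - g a w * g b v * g c u

lemma factor {V : Type} (g : V → V → ℂ) (hs : ∀ u v, g u v = g v u)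
    (h : ∀ a b c u v w, det3 g a b c u v w = 0) :
    ∃ x y : V → ℂ, ∀ u v, g u v = x u * x v + y u * y v := by
  by_cases h1 : ∃ a b, g a a * g b b - g a b ^ 2 ≠ 0
  · obtain ⟨a, b, hab⟩ := h1
    obtain ⟨c1, c2, c3, c4, e1, e2, e3⟩ := bil (g b b / (g a a * g b b - g a b ^ 2))
      (-g a b / (g a a * g b b - g a b ^ 2)) (g a a / (g a a * g b b - g a b ^ 2))
    refine ⟨fun u => c1 * g a u + c2 * g b u, fun u => c3 * g a u + c4 * g b u, fun u v => ?_⟩
    have := h a b u a b v
    rw [det3, hs u a, hs u b, hs b a] at this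
    rw [div_eq_iff hab] at e1 e2 e3
    apply mul_right_cancel₀ hab
    linear_combination this + g a u * g a v * e1 + (g a u * g b v + g b u * g a v) * e2 +
      g b u * g b v * e3
  · push Not at h1
    by_cases h2 : ∃ a, g a a ≠ 0
    · obtain ⟨a, ha⟩ := h2
      obtain ⟨s, hs'⟩ := IsAlgClosed.exists_pow_nat_eq (g a a) two_pos
      have : s ≠ 0 := by rintro rfl; exact ha (by rw [← hs']; ring)
      refine ⟨fun u => g a u / s, fun _ => 0, fun u v => ?_⟩
      have k := h a u v a u v
      rw [det3, hs u a, hs v a, hs v u] at k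
      have : (g a a * g u v - g a u * g a v) ^ 2 = 0 := by
        have a1 := h1 a u
        have a2 := h1 a v
        have a3 := h1 u v
        linear_combination (-g a a) * k + (g a a * g v v - g a v ^ 2) * a1 + 0 * a2 + 0 * a3
      have := pow_eq_zero_iff two_ne_zero |>.1 this
      field_simp
      rw [hs']; linear_combination this
    · push Not at h2
      refine ⟨fun _ => 0, fun _ => 0, fun u v => ?_⟩
      have := h1 u v
      rw [h2 u, zero_mul, zero_sub, neg_eq_zero] at this
      simpa using this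

end Pool.Agent.H3.Fib
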