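import Pool.Agent.H3.Fib2

set_option autoImplicit false

namespace Pool.Agent.H3.Fib

open MvPolynomial

variable {V : Type}

abbrev R0 (V : Type) := MvPolynomial (V × Fin 2) ℚ

noncomputable def dd (u v : V) : R0 V := ∑ k : Fin 2, (X (u, k) - X (v, k)) ^ 2

lemma dd_eq (u v : V) : dd u v = (X (u, 0) - X (v, 0)) ^ 2 + (X (u, 1) - X (v, 1)) ^ 2 :=
  Fin.sum_univ_two _

lemma dd_symm (u v : V) : dd u v = dd v u := by rw [dd_eq, dd_eq]; ring

noncomputable def ev (r : V → Fin 2 → ℂ) : R0 V →+* ℂ :=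
  (aeval (fun x : V × Fin 2 => r x.1 x.2) : R0 V →ₐ[ℚ] ℂ).toRingHom

lemma ev_dd (r : V → Fin 2 → ℂ) (u v : V) : ev r (dd u v) = ∑ k : Fin 2, (r u k - r v k) ^ 2 := by
  simp [ev, dd]

noncomputable def de : Sym2 V → R0 V := Sym2.lift ⟨dd, dd_symm⟩

noncomputable def AA (G : SimpleGraph V) : Subalgebra ℚ (R0 V) :=
  Algebra.adjoin ℚ (Set.range fun e : G.edgeSet => de e.1)

noncomputable def BB (V : Type) : Subalgebra ℚ (R0 V) :=
  Algebra.adjoin ℚ (Set.range fun x : V × V => dd x.1 x.2)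

noncomputable def db (u v : V) : BB V := ⟨dd u v, Algebra.subset_adjoin ⟨(u, v), rfl⟩⟩

lemma AB (G : SimpleGraph V) : AA G ≤ BB V := by
  refine Algebra.adjoin_mono ?_
  rintro _ ⟨⟨e, he⟩, rfl⟩
  induction e using Sym2.ind with
  | h u v => exact ⟨(u, v), rfl⟩

noncomputable instance (G : SimpleGraph V) : Algebra (AA G) (BB V) :=
  (Subalgebra.inclusion (AB G)).toAlgebra

instance (G : SimpleGraph V) : IsScalarTower ℚ (AA G) (BB V) := .of_algebraMap_eq fun _ => rfl
instance (G : SimpleGraph V) : IsScalarTower (AA G) (BB V) (R0 V) := .of_algebraMap_eq fun _ => rfl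

instance [Finite V] (G : SimpleGraph V) : Algebra.FiniteType (AA G) (BB V) := by
  have : Algebra.FiniteType ℚ (BB V) := Algebra.FiniteType.adjoin_of_finite (Set.finite_range _)
  exact .of_restrictScalars_finiteType ℚ _ _

lemma hom_ext {s : Set (R0 V)} (f g : Algebra.adjoin ℚ s →+* ℂ)
    (h : ∀ x (hx : x ∈ s), f ⟨x, Algebra.subset_adjoin hx⟩ = g ⟨x, Algebra.subset_adjoin hx⟩) :
    f = g := by
  have : f.toRatAlgHom = g.toRatAlgHom := AlgHom.ext_of_eq_adjoin rfl h
  exact RingHom.ext fun x => congrArg (fun z : Algebra.adjoin ℚ s →ₐ[ℚ] ℂ => z x) this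

lemma realize (ψ : BB V →+* ℂ) : ∃ r : V → Fin 2 → ℂ, ∀ u v,
    ∑ k : Fin 2, (r u k - r v k) ^ 2 = ψ (db u v) := by
  rcases isEmpty_or_nonempty V with h | ⟨⟨o⟩⟩
  · exact ⟨fun _ _ => 0, fun u => h.elim u⟩
  have s : ∀ u v : V, db u v = db v u := fun u v => Subtype.ext (dd_symm u v)
  have z : ∀ u : V, db u u = 0 := fun u => Subtype.ext (by simp [db, dd])
  obtain ⟨x, y, h⟩ := factor (fun u v => ψ (db o u + db o v - db u v))
    (fun u v => by rw [s u v, add_comm]) (fun a b c u v w => by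
      have : det3 (fun u v => db o u + db o v - db u v) a b c u v w = 0 := by
        apply Subtype.ext
        simp only [det3, db]
        push_cast
        simp only [dd_eq]
        ring
      have := congrArg ψ this
      rw [map_zero, det3] at this
      rw [det3, ← this]
      simp only [map_mul, map_add, map_sub])
  obtain ⟨t, ht⟩ := IsAlgClosed.exists_pow_nat_eq (1 / 2 : ℂ) two_pos
  refine ⟨fun u => ![t * x u, t * y u], fun u v => ?_⟩
  have h1 := h u u
  have h2 := h v v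
  have h3 := h u v
  simp only [z, map_add, map_sub, map_zero] at h1 h2 h3
  simp only [Fin.sum_univ_two, Matrix.cons_val_zero, Matrix.cons_val_one]
  linear_combination ((x u - x v) ^ 2 + (y u - y v) ^ 2) * ht - h1 / 2 - h2 / 2 + h3

def Phi (ψ : BB V →+* ℂ) : Set (V → Fin 2 → ℂ) :=
  {s | ∀ u v, ∑ k : Fin 2, (s u k - s v k) ^ 2 = ψ (db u v)}

lemma Phi_inj : Function.Injective (Phi (V := V)) := by
  intro ψ ψ' h
  obtain ⟨r, hr⟩ := realize ψ
  have : r ∈ Phi ψ' := h ▸ hr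
  refine hom_ext _ _ ?_
  rintro _ ⟨⟨u, v⟩, rfl⟩
  exact (hr u v).symm.trans (this u v)

lemma cls_eq (G : SimpleGraph V) (q : V → Fin 2 → ℂ) :
    {K : Set (V → Fin 2 → ℂ) | ∃ r : V → Fin 2 → ℂ,
      (∀ u v, G.Adj u v →
        ∑ k : Fin 2, (r u k - r v k) ^ 2 = ∑ k : Fin 2, (q u k - q v k) ^ 2) ∧
      K = {s | ∀ u v, ∑ k : Fin 2, (s u k - s v k) ^ 2 = ∑ k : Fin 2, (r u k - r v k) ^ 2}} =
    Phi '' {ψ : BB V →+* ℂ | ψ.comp (algebraMap (AA G) (BB V)) =
      ((ev q).comp (BB V).val.toRingHom).comp (algebraMap (AA G) (BB V))} := by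
  ext K
  constructor
  · rintro ⟨r, hr, rfl⟩
    refine ⟨(ev r).comp (BB V).val.toRingHom, hom_ext _ _ ?_, ?_⟩
    · rintro _ ⟨⟨e, he⟩, rfl⟩
      induction e using Sym2.ind with
      | h u v => exact (ev_dd r u v).trans ((hr u v he).trans (ev_dd q u v).symm)
    · ext s
      exact forall₂_congr fun u v => by rw [← ev_dd r u v]; rfl
  · rintro ⟨ψ, hψ, rfl⟩
    obtain ⟨r, hr⟩ := realize ψ
    refine ⟨r, fun u v h => ?_, ?_⟩
    · rw [hr, ← ev_dd q u v]
      exact congrArg (fun z : AA G →+* ℂ =>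
        z ⟨dd u v, Algebra.subset_adjoin ⟨⟨s(u, v), h⟩, rfl⟩⟩) hψ
    · ext s
      exact forall₂_congr fun u v => by rw [hr]

lemma normal [Fintype V] (G : SimpleGraph V) (hE : G.edgeSet.ncard + 3 = 2 * Fintype.card V)
    (h : Algebra.IsAlgebraic (AA G) (BB V)) : IsIntegrallyClosed (AA G) := by
  classical
  obtain ⟨o, o', hne⟩ := Fintype.exists_pair_of_one_lt_card (α := V) (by omega)
  let x : G.edgeSet ⊕ Fin 3 → R0 V := Sum.elim (fun e => de e.1) ![X (o, 0), X (o, 1), X (o', 0)]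
  let A' := Algebra.adjoin ℚ (Set.range x)
  let T := Subalgebra.algebraicClosure A' (R0 V)
  have le : AA G ≤ A' := Algebra.adjoin_mono (by rintro _ ⟨e, rfl⟩; exact ⟨.inl e, rfl⟩)
  have hd : ∀ u v, dd u v ∈ T := fun u v =>
    ((h.isAlgebraic (db u v)).algHom (IsScalarTower.toAlgHom (AA G) (BB V) (R0 V))
      ).tower_top_of_subalgebra_le le
  have hx : ∀ i, x i ∈ T := fun i =>
    T.algebraMap_mem (⟨x i, Algebra.subset_adjoin ⟨i, rfl⟩⟩ : A')
  have x0 : X (o, 0) ∈ T := hx (.inr 0)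
  have x1 : X (o, 1) ∈ T := hx (.inr 1)
  have x2 : X (o', 0) ∈ T := hx (.inr 2)
  have sq : ∀ z, z ^ 2 ∈ T → z ∈ T := fun z h => IsAlgebraic.of_pow two_pos h
  have dv : ∀ c z, c ≠ 0 → c ∈ T → c * z ∈ T → z ∈ T := fun c z h1 h2 h3 =>
    IsAlgebraic.of_mul (mem_nonZeroDivisors_of_ne_zero h1) h2 h3
  have d0 : dd o o' ≠ 0 := by
    intro e
    have := ev_dd (fun u _ => if u = o then (1 : ℂ) else 0) o o'
    rw [e] at this
    simp [hne.symm] at this
  have a0 : X (o', 0) - X (o, 0) ∈ T := T.sub_mem x2 x0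
  have a1 : X (o', 1) - X (o, 1) ∈ T := sq _ (by
    convert T.sub_mem (hd o o') (T.pow_mem a0 2) using 1
    rw [dd_eq]; ring)
  have hX : ∀ v k, X (v, k) ∈ T := by
    intro v k
    have al : (X (o', 0) - X (o, 0)) * (X (v, 0) - X (o, 0)) +
        (X (o', 1) - X (o, 1)) * (X (v, 1) - X (o, 1)) ∈ T := dv 2 _ two_ne_zero
      (T.natCast_mem 2) (by
        convert T.sub_mem (T.add_mem (hd o o') (hd o v)) (hd o' v) using 1
        simp only [dd_eq]; ring)
    have ka : (X (o', 0) - X (o, 0)) * (X (v, 1) - X (o, 1)) -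
        (X (o', 1) - X (o, 1)) * (X (v, 0) - X (o, 0)) ∈ T := sq _ (by
      convert T.sub_mem (T.mul_mem (hd o o') (hd o v)) (T.pow_mem al 2) using 1
      simp only [dd_eq]; ring)
    fin_cases k
    · refine dv _ _ d0 (hd o o') ?_
      convert T.add_mem (T.sub_mem (T.mul_mem al a0) (T.mul_mem ka a1)) (T.mul_mem (hd o o') x0)
        using 1
      simp only [dd_eq, Fin.zero_eta]; ring
    · refine dv _ _ d0 (hd o o') ?_
      convert T.add_mem (T.add_mem (T.mul_mem al a1) (T.mul_mem ka a0)) (T.mul_mem (hd o o') x1)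
        using 1
      simp only [dd_eq, Fin.mk_one]; ring
  have alg : Algebra.IsAlgebraic A' (R0 V) := ⟨fun z => by
    show z ∈ T
    induction z using MvPolynomial.induction_on with
    | C a => exact T.algebraMap_mem (algebraMap ℚ A' a)
    | add p q a b => exact T.add_mem a b
    | mul_X p n a => exact T.mul_mem a (hX n.1 n.2)⟩
  have tb : IsTranscendenceBasis ℚ x :=
    Algebra.IsAlgebraic.isTranscendenceBasis_of_le_trdeg_of_finite ℚ x (by
      rw [MvPolynomial.trdeg_of_isDomain, Cardinal.lift_id, Cardinal.mk_fintype, Cardinal.mk_fintype,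
        Fintype.card_sum, Fintype.card_prod, Fintype.card_fin, Fintype.card_fin,
        ← Nat.card_eq_fintype_card, Nat.card_coe_set_eq, hE, mul_comm])
  have ind : AlgebraicIndependent ℚ (fun e : G.edgeSet => de e.1) :=
    tb.1.comp Sum.inl Sum.inl_injective
  exact IsIntegrallyClosed.of_equiv ind.aevalEquiv.toRingEquiv

end Pool.Agent.H3.Fib
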