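import Mathlib

set_option autoImplicit false

namespace Pool.Agent.H3.GE

open MonoidAlgebra

universe u

abbrev NC (R : Type u) [Ring R] (σ : Type) := MonoidAlgebra R (FreeMonoid σ)

section Basic
variable {R : Type u} [Ring R] {σ : Type}

noncomputable def xx (j : σ) : NC R σ := single (FreeMonoid.of j) 1

noncomputable def CC : R →+* NC R σ := singleOneRingHom

theorem CC_apply (r : R) : (CC r : NC R σ) = single 1 r := rfl

theorem CC_comm_xx (r : R) (j : σ) : Commute (CC r : NC R σ) (xx j) := by
  rw [CC_apply, xx]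
  exact single_commute_single (Commute.one_left _) (Commute.one_right _)

theorem smul_eq_CC (r : R) (a : NC R σ) : r • a = CC r * a := by
  ext w
  rw [CC_apply, coeff_single_one_mul]
  rfl

noncomputable def kap : NC R σ →+* R :=
  liftNCRingHom (RingHom.id R) (FreeMonoid.lift fun _ => 0) (by
    intro r w
    induction w using FreeMonoid.inductionOn' with
    | one => simp
    | of_mul j w _ => simp)

@[simp] theorem kap_CC (r : R) : kap (CC r : NC R σ) = r := by
  simp [kap, CC_apply, liftNCRingHom_single]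

@[simp] theorem kap_xx (j : σ) : kap (xx j : NC R σ) = 0 := by
  simp [kap, xx, liftNCRingHom_single]

theorem single_of_mul (j : σ) (w : FreeMonoid σ) (r : R) :
    (single (FreeMonoid.of j * w) r : NC R σ) = xx j * single w r := by
  simp [xx, single_mul_single]

theorem ind {motive : NC R σ → Prop} (hC : ∀ r, motive (CC r))
    (hadd : ∀ a b, motive a → motive b → motive (a + b))
    (hx : ∀ j a, motive a → motive (xx j * a)) (a : NC R σ) : motive a := by
  induction a using MonoidAlgebra.induction_linear with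
  | zero => simpa using hC 0
  | add a b ha hb => exact hadd a b ha hb
  | single w r =>
    induction w using FreeMonoid.inductionOn' with
    | one => exact hC r
    | of_mul j w ih => rw [single_of_mul]; exact hx j _ ih

theorem coeff_xx_mul_one (j : σ) (a : NC R σ) : (xx j * a).coeff 1 = 0 := by
  rw [xx]
  apply coeff_single_mul_of_forall_mul_ne
  intro d h
  have := congrArg FreeMonoid.length h
  simp [FreeMonoid.length_mul] at this

theorem coeff_xx_mul [DecidableEq σ] (j l : σ) (a : NC R σ) (w : FreeMonoid σ) :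
    (xx j * a).coeff (FreeMonoid.of l * w) = if j = l then a.coeff w else 0 := by
  rw [xx]
  split_ifs with h
  · subst h
    rw [coeff_single_mul_eq_mul_coeff w (fun m' _ => by simp)]
    simp
  · apply coeff_single_mul_of_forall_mul_ne
    intro d hd
    have := congrArg FreeMonoid.toList hd
    simp at this
    exact h this.1

theorem kap_eq (a : NC R σ) : kap a = a.coeff 1 := by
  induction a using ind with
  | hC r => rw [kap_CC]; simp [CC_apply]
  | hadd a b ha hb => simp [ha, hb]
  | hx j a _ => simp [coeff_xx_mul_one]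

noncomputable def lam (j : σ) : NC R σ →ₗ[R] NC R σ :=
  (coeffLinearEquiv R).symm.toLinearMap ∘ₗ
    Finsupp.lcomapDomain (fun w => FreeMonoid.of j * w) (fun _ _ h => mul_left_cancel h) ∘ₗ
    (coeffLinearEquiv R).toLinearMap

@[simp] theorem coeff_lam (j : σ) (a : NC R σ) (w : FreeMonoid σ) :
    (lam j a).coeff w = a.coeff (FreeMonoid.of j * w) := rfl

theorem lam_xx_mul [DecidableEq σ] (j l : σ) (a : NC R σ) :
    lam l (xx j * a) = if j = l then a else 0 := by
  ext w
  rw [coeff_lam, coeff_xx_mul]
  split_ifs <;> simp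

@[simp] theorem lam_CC (j : σ) (r : R) : lam j (CC r : NC R σ) = 0 := by
  ext w
  rw [coeff_lam, CC_apply, coeff_single]
  rw [Finsupp.single_eq_of_ne]
  · simp
  · intro h
    have := congrArg FreeMonoid.length h
    simp [FreeMonoid.length_mul] at this

theorem lam_CC_mul (j : σ) (r : R) (a : NC R σ) : lam j (CC r * a) = CC r * lam j a := by
  rw [← smul_eq_CC, ← smul_eq_CC, map_smul]

theorem expand [Fintype σ] (a : NC R σ) : a = CC (kap a) + ∑ j, xx j * lam j a := by
  classical
  ext w
  induction w using FreeMonoid.inductionOn' with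
  | one =>
    simp [coeff_sum, coeff_xx_mul_one, kap_eq, CC_apply]
  | of_mul l w _ =>
    have h0 : (CC (kap a) : NC R σ).coeff (FreeMonoid.of l * w) = 0 := by
      rw [← coeff_lam, lam_CC]; simp
    simp [coeff_sum, coeff_xx_mul, h0]

theorem lam_mul [Fintype σ] (l : σ) (a b : NC R σ) :
    lam l (a * b) = lam l a * b + CC (kap a) * lam l b := by
  classical
  conv_lhs => rw [expand a]
  rw [add_mul, map_add, lam_CC_mul, Finset.sum_mul, map_sum, add_comm]
  congr 1
  simp only [mul_assoc, lam_xx_mul]
  simp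

def Fil (m : ℕ) (a : NC R σ) : Prop := ∀ w : FreeMonoid σ, w.length < m → a.coeff w = 0

theorem Fil.zero (a : NC R σ) : Fil 0 a := fun _ h => absurd h (Nat.not_lt_zero _)

theorem Fil.zero' (m : ℕ) : Fil m (0 : NC R σ) := fun _ _ => by simp

theorem Fil.add {m : ℕ} {a b : NC R σ} (ha : Fil m a) (hb : Fil m b) : Fil m (a + b) :=
  fun w h => by simp [ha w h, hb w h]

theorem Fil.neg {m : ℕ} {a : NC R σ} (ha : Fil m a) : Fil m (-a) :=
  fun w h => by simp [ha w h]

theorem Fil.sum {ι : Type*} {m : ℕ} (s : Finset ι) (f : ι → NC R σ) (h : ∀ i ∈ s, Fil m (f i)) :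
    Fil m (∑ i ∈ s, f i) :=
  Finset.sum_induction f (Fil m) (fun _ _ => Fil.add) (Fil.zero' m) h

theorem Fil.mono {m m' : ℕ} {a : NC R σ} (ha : Fil m a) (h : m' ≤ m) : Fil m' a :=
  fun w hw => ha w (lt_of_lt_of_le hw h)

theorem fil_succ {m : ℕ} {a : NC R σ} : Fil (m + 1) a ↔ kap a = 0 ∧ ∀ j, Fil m (lam j a) := by
  constructor
  · intro h
    refine ⟨by rw [kap_eq]; exact h 1 (by simp), fun j w hw => ?_⟩
    rw [coeff_lam]
    exact h _ (by simp [FreeMonoid.length_mul]; omega)
  · rintro ⟨h0, h⟩ w hw
    induction w using FreeMonoid.inductionOn' with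
    | one => rw [← kap_eq]; exact h0
    | of_mul j w _ =>
      rw [← coeff_lam]
      exact h j w (by simp [FreeMonoid.length_mul] at hw; omega)

theorem Fil.eq_zero {a : NC R σ} (h : ∀ m, Fil m a) : a = 0 := by
  ext w
  simpa using h (w.length + 1) w (Nat.lt_succ_self _)

theorem Fil.xx_mul {m : ℕ} {a : NC R σ} (ha : Fil m a) (j : σ) : Fil (m + 1) (xx j * a) := by
  classical
  rw [fil_succ]
  refine ⟨by simp, fun l => ?_⟩
  rw [lam_xx_mul]
  split_ifs
  · exact ha
  · exact Fil.zero' m

theorem Fil.CC_mul {m : ℕ} {a : NC R σ} (ha : Fil m a) (r : R) : Fil m (CC r * a) := by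
  intro w hw
  rw [CC_apply, coeff_single_one_mul, ha w hw, mul_zero]

theorem Fil.mul_left {m : ℕ} {a : NC R σ} (ha : Fil m a) (b : NC R σ) : Fil m (b * a) := by
  induction b using ind with
  | hC r => exact ha.CC_mul r
  | hadd b c hb hc => rw [add_mul]; exact hb.add hc
  | hx j b hb => rw [mul_assoc]; exact (hb.xx_mul j).mono (Nat.le_succ m)

theorem Fil.mul [Fintype σ] {p q : ℕ} {a b : NC R σ} (ha : Fil p a) (hb : Fil q b) :
    Fil (p + q) (a * b) := by
  induction p generalizing a with
  | zero => simpa using hb.mul_left a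
  | succ p ih =>
    rw [fil_succ] at ha
    rw [show p + 1 + q = (p + q) + 1 by omega, fil_succ]
    refine ⟨by simp [ha.1], fun j => ?_⟩
    rw [lam_mul, ha.1]
    simpa using ih (ha.2 j)

theorem Fil.mul_right [Fintype σ] {m : ℕ} {a : NC R σ} (ha : Fil m a) (b : NC R σ) :
    Fil m (a * b) := by
  simpa using ha.mul (Fil.zero b)

theorem fil_one {a : NC R σ} : Fil 1 a ↔ kap a = 0 := by
  rw [fil_succ]; simp [Fil.zero]

theorem Fil.expand [Fintype σ] {m : ℕ} {a : NC R σ} (ha : Fil (m + 1) a) :
    a = ∑ j, xx j * lam j a := by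
  conv_lhs => rw [GE.expand a, (fil_succ.1 ha).1]
  simp

theorem hom_ext {S : Type*} [Semiring S] {f g : NC R σ →+* S} (h1 : ∀ r, f (CC r) = g (CC r))
    (h2 : ∀ j, f (xx j) = g (xx j)) : f = g := by
  refine RingHom.ext (fun a => ?_)
  induction a using ind with
  | hC r => exact h1 r
  | hadd a b ha hb => simp [ha, hb]
  | hx j a ha => simp [ha, h2]

noncomputable def liftR {S : Type*} [Semiring S] (f : R →+* S) (g : σ → S)
    (h : ∀ r j, Commute (f r) (g j)) : NC R σ →+* S :=
  liftNCRingHom f (FreeMonoid.lift g) (by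
    intro r w
    induction w using FreeMonoid.inductionOn' with
    | one => simp
    | of_mul j w ih => simpa using (h r j).mul_right ih)

@[simp] theorem liftR_CC {S : Type*} [Semiring S] (f : R →+* S) (g : σ → S)
    (h : ∀ r j, Commute (f r) (g j)) (r : R) : liftR f g h (CC r) = f r := by
  simp [liftR, CC_apply, liftNCRingHom_single]

@[simp] theorem liftR_xx {S : Type*} [Semiring S] (f : R →+* S) (g : σ → S)
    (h : ∀ r j, Commute (f r) (g j)) (j : σ) : liftR f g h (xx j) = g j := by
  simp [liftR, xx, liftNCRingHom_single]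

variable {D : Type u} [Ring D]

noncomputable def mapC (Y : R →+* D) : NC R σ →+* NC D σ := mapRingHom _ Y

@[simp] theorem coeff_mapC (Y : R →+* D) (a : NC R σ) (w : FreeMonoid σ) :
    (mapC Y a).coeff w = Y (a.coeff w) := by
  simp [mapC]

@[simp] theorem mapC_CC (Y : R →+* D) (r : R) : mapC Y (CC r : NC R σ) = CC (Y r) := by
  simp [mapC, CC_apply]

@[simp] theorem mapC_xx (Y : R →+* D) (j : σ) : mapC Y (xx j : NC R σ) = xx j := by
  simp [mapC, xx]

theorem kap_mapC (Y : R →+* D) (a : NC R σ) : kap (mapC Y a) = Y (kap a) := by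
  simp [kap_eq]

theorem lam_mapC (Y : R →+* D) (j : σ) (a : NC R σ) : lam j (mapC Y a) = mapC Y (lam j a) := by
  ext w; simp

end Basic

end Pool.Agent.H3.GE
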