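import Mathlib

set_option autoImplicit false

namespace Pool.Agent.H3.GE

open Polynomial

universe u

def Nil {σ V : Type*} [Zero V] (T : σ → V → V) : ℕ → V → Prop
  | 0, s => s = 0
  | m + 1, s => ∀ j, Nil T m (T j s)

section NilSec
variable {D : Type u} [DivisionRing D] {σ : Type} {W : Type u} [AddCommGroup W]
  [Module D W]

def NN (T : σ → W →ₗ[D] W) : ℕ → Submodule D W
  | 0 => ⊥
  | m + 1 => ⨅ j, (NN T m).comap (T j)

theorem mem_NN (T : σ → W →ₗ[D] W) (m : ℕ) (s : W) :
    s ∈ NN T m ↔ Nil (fun j => (T j : W → W)) m s := by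
  induction m generalizing s with
  | zero => simp [NN, Nil]
  | succ m ih => simp [NN, Nil, ih]

theorem NN_mono (T : σ → W →ₗ[D] W) (m : ℕ) : NN T m ≤ NN T (m + 1) := by
  induction m with
  | zero => simp [NN]
  | succ m ih =>
    intro s hs
    simp only [NN, Submodule.mem_iInf, Submodule.mem_comap] at hs ⊢
    intro j
    have := ih (hs j)
    simpa only [NN, Submodule.mem_iInf, Submodule.mem_comap] using this

theorem NN_mono' (T : σ → W →ₗ[D] W) : Monotone (NN T) :=
  monotone_nat_of_le_succ (NN_mono T)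

theorem exists_stable [FiniteDimensional D W] (T : σ → W →ₗ[D] W) :
    ∃ m ≤ Module.finrank D W, NN T (m + 1) ≤ NN T m := by
  by_contra h
  push Not at h
  have key : ∀ m ≤ Module.finrank D W + 1, m ≤ Module.finrank D (NN T m) := by
    intro m hm
    induction m with
    | zero => exact Nat.zero_le _
    | succ m ih =>
      have h1 := ih (by omega)
      have h2 : NN T m < NN T (m + 1) := lt_of_le_not_ge (NN_mono T m) (h m (by omega))
      have := Submodule.finrank_lt_finrank_of_lt h2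
      omega
  have h1 := key _ le_rfl
  have h2 := Submodule.finrank_le (NN T (Module.finrank D W + 1))
  omega

theorem nil_of_inj [Fintype σ] [FiniteDimensional D W] (T : σ → W →ₗ[D] W)
    (H : ∀ (r : ℕ) (X : σ → (Fin r → D) →ₗ[D] (Fin r → D)) (p : W →ₗ[D] (Fin r → D)),
      (∀ s, p s = ∑ j, X j (p (T j s))) → p = 0)
    (d : ℕ) (hd : Module.finrank D W ≤ d) (s : W) : Nil (fun j => (T j : W → W)) d s := by
  classical
  obtain ⟨m, hm, hst⟩ := exists_stable T
  have hinv : ∀ j, NN T m ≤ (NN T m).comap (T j) := by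
    intro j
    refine (NN_mono T m).trans ?_
    exact iInf_le (fun j => (NN T m).comap (T j)) j
  let Tb : σ → (W ⧸ NN T m) →ₗ[D] (W ⧸ NN T m) := fun j => (NN T m).mapQ (NN T m) (T j) (hinv j)
  have hker : LinearMap.ker (LinearMap.pi Tb) = ⊥ := by
    rw [eq_bot_iff]
    intro q hq
    obtain ⟨s, rfl⟩ := (NN T m).mkQ_surjective q
    rw [LinearMap.mem_ker] at hq
    have : s ∈ NN T (m + 1) := by
      simp only [NN, Submodule.mem_iInf, Submodule.mem_comap]
      intro j
      have := congrFun hq j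
      simpa [Tb] using this
    simpa using hst this
  obtain ⟨Ψ, hΨ⟩ := (LinearMap.pi Tb).exists_leftInverse_of_injective hker
  let e := (Module.finBasis D (W ⧸ NN T m)).equivFun
  have hp := H _ (fun j => e.toLinearMap ∘ₗ Ψ ∘ₗ LinearMap.single D (fun _ : σ => W ⧸ NN T m) j ∘ₗ
      e.symm.toLinearMap) (e.toLinearMap ∘ₗ (NN T m).mkQ) (by
    intro s
    simp only [LinearMap.comp_apply, LinearEquiv.coe_coe, LinearEquiv.symm_apply_apply]
    rw [← map_sum, ← map_sum]
    congr 1
    have h1 := congrArg (fun f => f ((NN T m).mkQ s)) hΨ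
    simp only [LinearMap.comp_apply, LinearMap.id_apply] at h1
    rw [← h1]
    congr 1
    ext j
    simp [Tb, Pi.single_apply])
  have hs : s ∈ NN T m := by
    have h1 := congrArg (fun f => f s) hp
    simp only [LinearMap.comp_apply, LinearEquiv.coe_coe, LinearMap.zero_apply,
      LinearEquiv.map_eq_zero_iff] at h1
    simpa using h1
  exact (mem_NN T d s).1 (NN_mono' T (hm.trans hd) hs)

end NilSec

def Approx {S : Type u} [Ring S] (Γ : S →+* S[X]) {ν : Type} [Fintype ν] [DecidableEq ν]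
    (M : Matrix ν ν S) : Prop :=
  ∀ m : ℕ, ∃ U U' : Matrix ν ν S, U * U' = 1 ∧ ∀ i k, X ^ m ∣ Γ (M i k - U i k)

theorem lim_mat {S : Type u} [Ring S] (Γ : S →+* S[X]) (hΓ : ∀ s, (Γ s).eval 1 = s)
    {ν : Type} [Fintype ν] [DecidableEq ν] (M : Matrix ν ν S) (hM : Approx Γ M)
    {F : Type u} [Field F] {ι : Type} [Fintype ι] [DecidableEq ι] (ev : S →+* Matrix ι ι F) :
    IsUnit (M.map ev) := by
  let Φ : S →+* Matrix ι ι F[X] :=
    (matPolyEquiv.symm.toRingEquiv.toRingHom.comp (Polynomial.mapRingHom ev)).comp Γ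
  have hΦ : ∀ s, Φ s = matPolyEquiv.symm ((Γ s).map ev) := fun s => rfl
  let Ψ : Matrix ν ν S →+* Matrix (ν × ι) (ν × ι) F[X] :=
    (Matrix.compRingEquiv ν ι F[X]).toRingHom.comp Φ.mapMatrix
  have hΨ : ∀ (A : Matrix ν ν S) (a b : ν × ι), Ψ A a b = Φ (A a.1 b.1) a.2 b.2 := fun A a b => rfl
  obtain ⟨U, U', hU, hd⟩ := hM ((Ψ M).det.natDegree + 1)
  have hunit : IsUnit (Ψ U).det := by
    have : (Ψ U).det * (Ψ U').det = 1 := by
      rw [← Matrix.det_mul, ← map_mul, hU, map_one, Matrix.det_one]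
    exact IsUnit.of_mul_eq_one _ this
  obtain ⟨c, hc, hcU⟩ := Polynomial.isUnit_iff.1 hunit
  have hdiv : X ^ ((Ψ M).det.natDegree + 1) ∣ (Ψ M).det - (Ψ U).det := by
    set m := (Ψ M).det.natDegree + 1
    rw [← Ideal.mem_span_singleton, ← Ideal.Quotient.eq, RingHom.map_det, RingHom.map_det]
    congr 1
    ext a b
    simp only [RingHom.mapMatrix_apply, Matrix.map_apply]
    rw [Ideal.Quotient.eq, Ideal.mem_span_singleton, hΨ, hΨ, ← Matrix.sub_apply, ← map_sub,
      Polynomial.X_pow_dvd_iff]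
    intro d hdm
    rw [hΦ, matPolyEquiv_symm_apply_coeff, Polynomial.coeff_map,
      Polynomial.X_pow_dvd_iff.1 (hd a.1 b.1) d hdm]
    simp
  have heq : (Ψ M).det = C c := by
    rw [← hcU] at hdiv
    have := Polynomial.eq_zero_of_dvd_of_natDegree_lt hdiv (by
      rw [natDegree_X_pow, natDegree_sub_C]; omega)
    exact sub_eq_zero.1 this
  have h1 : (Ψ M).map (evalRingHom (1 : F)) = Matrix.compRingEquiv ν ι F (M.map ev) := by
    ext a b
    have := congrFun (congrFun (matPolyEquiv_symm_map_eval ((Γ (M a.1 b.1)).map ev) (1 : F)) a.2) b.2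
    simp only [Matrix.map_apply, coe_evalRingHom, hΨ, hΦ] at this ⊢
    rw [this, map_one, Polynomial.eval_map, Polynomial.eval₂_at_one, hΓ]
    rfl
  have h2 : IsUnit (Matrix.compRingEquiv ν ι F (M.map ev)) := by
    rw [Matrix.isUnit_iff_isUnit_det, ← h1]
    have := RingHom.map_det (evalRingHom (1 : F)) (Ψ M)
    rw [RingHom.mapMatrix_apply] at this
    rw [← this, heq]
    simpa using hc
  simpa using h2.map (Matrix.compRingEquiv ν ι F).symm

theorem lim_inj {S : Type u} [Ring S] (Γ : S →+* S[X]) (hΓ : ∀ s, (Γ s).eval 1 = s)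
    {ν : Type} [Fintype ν] [DecidableEq ν] (M : Matrix ν ν S) (hM : Approx Γ M)
    {F : Type u} [Field F] {Q : Type u} [AddCommGroup Q] [Module F Q] [FiniteDimensional F Q]
    (ev : S →+* Module.End F Q) (η : ν → Q) (h : ∀ i, ∑ k, ev (M i k) (η k) = 0) : η = 0 := by
  let e := LinearMap.toMatrixAlgEquiv (Module.finBasis F Q)
  have h1 := lim_mat Γ hΓ M hM (e.toRingEquiv.toRingHom.comp ev)
  have h2 : IsUnit (M.map ev) := by
    have := h1.map (e.symm.toRingEquiv.toRingHom.mapMatrix)
    convert this using 1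
    ext i k
    simp
  obtain ⟨N, hN⟩ := h2.exists_left_inv
  funext l
  have h3 : ∑ k, (N * M.map ev) l k (η k) = η l := by
    rw [hN, Finset.sum_eq_single l]
    · simp
    · intro b _ hb
      rw [Matrix.one_apply_ne hb.symm]; simp
    · simp
  rw [← h3]
  simp only [Matrix.mul_apply, LinearMap.sum_apply, Matrix.map_apply, Module.End.mul_apply]
  rw [Finset.sum_comm]
  simp only [← map_sum, h]
  simp

end Pool.Agent.H3.GE
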