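import Pool.Agent.H3.GE1
import Pool.Agent.H3.GE2

set_option autoImplicit false

namespace Pool.Agent.H3.GE

open Polynomial MonoidAlgebra

universe u

section Gam
variable {R : Type u} [Ring R] {σ : Type}

theorem commute_map_C (f : R →+* NC R σ) (p : R[X]) (b : NC R σ) (h : ∀ r, Commute (f r) b) :
    Commute (p.map f) (C b) := by
  induction p using Polynomial.induction_on' with
  | add p q hp hq => rw [Polynomial.map_add]; exact hp.add_left hq
  | monomial n r =>
    rw [Polynomial.map_monomial, ← C_mul_X_pow_eq_monomial]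
    refine Commute.mul_left ?_ ?_
    · exact (h r).map C
    · exact (Polynomial.commute_X_pow _ n)

noncomputable def GamS (Γ : R →+* R[X]) : NC R σ →+* (NC R σ)[X] :=
  liftR ((Polynomial.mapRingHom CC).comp Γ) (fun j => C (xx j) * X) (fun r j => by
    refine Commute.mul_right ?_ (Polynomial.commute_X _).symm
    exact commute_map_C CC (Γ r) (xx j) (fun r => CC_comm_xx r j))

@[simp] theorem GamS_CC (Γ : R →+* R[X]) (r : R) :
    GamS Γ (CC r : NC R σ) = (Γ r).map CC := by simp [GamS]

@[simp] theorem GamS_xx (Γ : R →+* R[X]) (j : σ) :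
    GamS Γ (xx j : NC R σ) = C (xx j) * X := by simp [GamS]

theorem eval_one_mul {S : Type*} [Ring S] (p q : S[X]) :
    (p * q).eval 1 = p.eval 1 * q.eval 1 :=
  Polynomial.eval₂_mul_noncomm (RingHom.id S) 1 (fun _ => Commute.one_right _)

theorem GamS_eval (Γ : R →+* R[X]) (hΓ : ∀ r, (Γ r).eval 1 = r) (a : NC R σ) :
    (GamS Γ a).eval 1 = a := by
  induction a using ind with
  | hC r => rw [GamS_CC, Polynomial.eval_map, Polynomial.eval₂_at_one, hΓ]
  | hadd a b ha hb => simp [ha, hb]
  | hx j a ha => rw [map_mul, eval_one_mul, ha]; simp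

theorem GamS_mapC {D : Type u} [Ring D] (Γ : R →+* R[X]) (a : NC R σ) :
    (GamS Γ a).map kap = Γ (kap a) := by
  have : (Polynomial.mapRingHom kap).comp (GamS Γ) = Γ.comp (kap : NC R σ →+* R) := by
    apply hom_ext
    · intro r
      have : (kap : NC R σ →+* R).comp CC = RingHom.id R := RingHom.ext kap_CC
      simp [Polynomial.map_map, this]
    · intro j; simp
  exact congrArg (fun f => f a) this

theorem xpow_mul {S : Type*} [Ring S] {a b : ℕ} {p q : S[X]} (hp : X ^ a ∣ p) (hq : X ^ b ∣ q) :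
    X ^ (a + b) ∣ p * q := by
  obtain ⟨p, rfl⟩ := hp
  obtain ⟨q, rfl⟩ := hq
  refine ⟨p * q, ?_⟩
  rw [pow_add, mul_assoc, mul_assoc, ← mul_assoc p, ← (Polynomial.commute_X_pow p b).eq, mul_assoc]

theorem xpow_map {S T : Type*} [Ring S] [Ring T] (f : S →+* T) {a : ℕ} {p : S[X]}
    (hp : X ^ a ∣ p) : X ^ a ∣ p.map f := by
  obtain ⟨p, rfl⟩ := hp
  exact ⟨p.map f, by simp⟩

theorem X_dvd_GamS_xx (Γ : R →+* R[X]) (j : σ) : X ^ 1 ∣ GamS Γ (xx j : NC R σ) :=
  ⟨C (xx j), by rw [GamS_xx, pow_one, (Polynomial.commute_X _).eq]⟩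

theorem Fil.dvd [Fintype σ] (Γ : R →+* R[X]) {m : ℕ} {a : NC R σ} (ha : Fil m a) :
    X ^ m ∣ GamS Γ a := by
  induction m generalizing a with
  | zero => simp
  | succ m ih =>
    rw [ha.expand, map_sum]
    refine Finset.dvd_sum (fun j _ => ?_)
    rw [map_mul, add_comm]
    exact xpow_mul (X_dvd_GamS_xx Γ j) (ih ((fil_succ.1 ha).2 j))

theorem approx_kap (Γ : R →+* R[X]) {ν : Type} [Fintype ν] [DecidableEq ν]
    (M : Matrix ν ν (NC R σ)) (hM : Approx (GamS Γ) M) : Approx Γ (M.map kap) := by
  intro m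
  obtain ⟨U, U', h1, h2⟩ := hM m
  refine ⟨U.map kap, U'.map kap, ?_, fun i k => ?_⟩
  · rw [← Matrix.map_mul, h1]; simp
  · simp only [Matrix.map_apply]
    rw [← map_sub, ← GamS_mapC (D := R)]
    exact xpow_map _ (h2 i k)

end Gam

section Step
variable {R : Type u} [Ring R] {σ : Type} [Fintype σ] {ν : Type} [Fintype ν] [DecidableEq ν]

noncomputable def TT (M : Matrix ν ν (NC R σ)) (N : Matrix ν ν R) (j : σ) :
    (ν → NC R σ) →ₗ[R] (ν → NC R σ) where
  toFun s := fun k => lam j (s k) - ∑ a, ∑ b, CC (kap (s a) * N a b) * lam j (M b k)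
  map_add' s t := by
    funext k
    simp only [Pi.add_apply, map_add, add_mul, Finset.sum_add_distrib]
    abel
  map_smul' r s := by
    funext k
    simp only [Pi.smul_apply, map_smul, RingHom.id_apply, smul_sub, Finset.smul_sum]
    simp only [smul_eq_CC, map_mul, kap_CC, mul_assoc]

theorem TT_apply (M : Matrix ν ν (NC R σ)) (N : Matrix ν ν R) (j : σ) (s : ν → NC R σ) (k : ν) :
    TT M N j s k = lam j (s k) - ∑ a, ∑ b, CC (kap (s a) * N a b) * lam j (M b k) := rfl

theorem row_expand (M : Matrix ν ν (NC R σ)) (N : Matrix ν ν R) (hN : N * M.map kap = 1)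
    (s : ν → NC R σ) (k : ν) :
    s k = ∑ b, CC (∑ a, kap (s a) * N a b) * M b k + ∑ j, xx j * TT M N j s k := by
  have h1 : ∀ b, CC (∑ a, kap (s a) * N a b) * M b k = CC ((∑ a, kap (s a) * N a b) * kap (M b k)) +
      ∑ j, xx j * ∑ a, CC (kap (s a) * N a b) * lam j (M b k) := by
    intro b
    conv_lhs => rw [expand (M b k)]
    rw [mul_add, ← map_mul, Finset.mul_sum]
    congr 1
    refine Finset.sum_congr rfl (fun j _ => ?_)
    rw [← mul_assoc, (CC_comm_xx _ j).eq, mul_assoc, map_sum, Finset.sum_mul]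
  have h2 : ∑ b, (∑ a, kap (s a) * N a b) * kap (M b k) = kap (s k) := by
    simp only [Finset.sum_mul]
    rw [Finset.sum_comm]
    have : ∀ a, ∑ b, kap (s a) * N a b * kap (M b k) = kap (s a) * (1 : Matrix ν ν R) a k := by
      intro a
      rw [← hN, Matrix.mul_apply, Finset.mul_sum]
      simp [mul_assoc]
    simp [this, Matrix.one_apply]
  simp only [h1, Finset.sum_add_distrib, TT_apply, mul_sub, Finset.sum_sub_distrib]
  rw [← map_sum, h2, Finset.sum_comm]
  have h3 : ∀ j, xx j * ∑ a, ∑ b, CC (kap (s a) * N a b) * lam j (M b k) =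
      ∑ b, xx j * ∑ a, CC (kap (s a) * N a b) * lam j (M b k) := by
    intro j
    rw [Finset.sum_comm, Finset.mul_sum]
  simp only [h3]
  conv_lhs => rw [expand (s k)]
  abel

theorem nil_span (M : Matrix ν ν (NC R σ)) (N : Matrix ν ν R) (hN : N * M.map kap = 1) (m : ℕ)
    (s : ν → NC R σ) (hs : Nil (fun j => (TT M N j : (ν → NC R σ) → (ν → NC R σ))) m s) :
    ∃ g : ν → NC R σ, ∀ k, s k = ∑ b, g b * M b k := by
  induction m generalizing s with
  | zero =>
    refine ⟨0, fun k => ?_⟩
    rw [show s = 0 from hs]; simp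
  | succ m ih =>
    choose g hg using fun j => ih _ (hs j)
    refine ⟨fun b => CC (∑ a, kap (s a) * N a b) + ∑ j, xx j * g j b, fun k => ?_⟩
    rw [row_expand M N hN s k]
    simp only [add_mul, Finset.sum_add_distrib, hg, Finset.mul_sum, Finset.sum_mul, mul_assoc]
    rw [Finset.sum_comm (s := (Finset.univ : Finset σ))]

theorem row_inj (M : Matrix ν ν (NC R σ)) (N : Matrix ν ν R) (hN : M.map kap * N = 1)
    (s : ν → NC R σ) (hs : ∀ k, ∑ b, s b * M b k = 0) : s = 0 := by
  have key : ∀ m, ∀ s : ν → NC R σ, (∀ k, ∑ b, s b * M b k = 0) → ∀ b, Fil m (s b) := by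
    intro m
    induction m with
    | zero => intro s _ b; exact Fil.zero _
    | succ m ih =>
      intro s hs
      have h0 : ∀ b, kap (s b) = 0 := by
        intro b
        have h1 : ∀ k, ∑ a, kap (s a) * kap (M a k) = 0 := by
          intro k
          have := congrArg kap (hs k)
          simpa [map_sum] using this
        have h2 : kap (s b) = ∑ a, kap (s a) * (M.map kap * N) a b := by
          rw [hN]; simp [Matrix.one_apply]
        rw [h2]
        simp only [Matrix.mul_apply, Finset.mul_sum, Matrix.map_apply, ← mul_assoc]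
        rw [Finset.sum_comm]
        simp [← Finset.sum_mul, h1]
      intro b
      rw [fil_succ]
      refine ⟨h0 b, fun j => ih (fun b => lam j (s b)) (fun k => ?_) b⟩
      have := congrArg (lam j) (hs k)
      simpa [map_sum, lam_mul, h0] using this
  funext b
  exact Fil.eq_zero (fun m => key m s hs b)

theorem TT_mapC {D : Type u} [Ring D] (Y : R →+* D) (M : Matrix ν ν (NC R σ)) (N : Matrix ν ν R)
    (j : σ) (s : ν → NC R σ) :
    TT (M.map (mapC Y)) (N.map Y) j (fun k => mapC Y (s k)) = fun k => mapC Y (TT M N j s k) := by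
  funext k
  simp [TT_apply, lam_mapC, kap_mapC, map_sum]

def Wd (D : Type u) [Ring D] (σ ν : Type) (e : ℕ) : Submodule D (ν → NC D σ) where
  carrier := {s | ∀ k (w : FreeMonoid σ), e ≤ w.length → (s k).coeff w = 0}
  add_mem' := by
    intro a b ha hb k w hw
    simp [ha k w hw, hb k w hw]
  zero_mem' := by intro k w _; simp
  smul_mem' := by
    intro c a ha k w hw
    simp [ha k w hw]

theorem finite_words (σ : Type) [Fintype σ] (e : ℕ) : {w : FreeMonoid σ | w.length < e}.Finite :=
  List.finite_length_lt σ e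

noncomputable def dimB (σ ν : Type) [Fintype σ] [Fintype ν] (e : ℕ) : ℕ :=
  Fintype.card (ν × (finite_words σ e).toFinset)

theorem Wd_fin (D : Type u) [DivisionRing D] (e : ℕ) :
    FiniteDimensional D (Wd D σ ν e) ∧ Module.finrank D (Wd D σ ν e) ≤ dimB σ ν e := by
  let f : Wd D σ ν e →ₗ[D] (ν × (finite_words σ e).toFinset → D) :=
    { toFun := fun s a => (s.1 a.1).coeff a.2.1
      map_add' := fun s t => by funext a; simp
      map_smul' := fun c s => by funext a; simp }
  have hf : Function.Injective f := by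
    rw [injective_iff_map_eq_zero]
    intro s hs
    ext k w
    by_cases hw : w.length < e
    · exact congrFun hs (k, ⟨w, by simpa using hw⟩)
    · exact s.2 k w (not_lt.1 hw)
  refine ⟨FiniteDimensional.of_injective f hf, ?_⟩
  have := LinearMap.finrank_le_finrank_of_injective hf
  simpa [dimB] using this

end Step

end Pool.Agent.H3.GE
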