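import Pool.Agent.H3.GE3

set_option autoImplicit false
set_option linter.unusedSectionVars false

namespace Pool.Agent.H3.GE

open Polynomial MonoidAlgebra

universe u

section Rep
variable {D : Type u} [Ring D] {F : Type u} [Field F] {n : ℕ} {σ : Type}

noncomputable def lmulQ (ρ : D →+* Matrix (Fin n) (Fin n) F) (r : ℕ) :
    D →+* Module.End F (Fin r → Matrix (Fin n) (Fin n) F) where
  toFun d :=
    { toFun := fun q a => ρ d * q a
      map_add' := fun p q => by funext a; simp [mul_add]
      map_smul' := fun c q => by funext a; simp }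
  map_one' := by ext q a; simp
  map_mul' := by intro x y; ext q a; simp [mul_assoc]
  map_zero' := by ext q a; simp
  map_add' := by intro x y; ext q a; simp [add_mul]

theorem lmulQ_apply (ρ : D →+* Matrix (Fin n) (Fin n) F) (r : ℕ) (d : D)
    (q : Fin r → Matrix (Fin n) (Fin n) F) (a : Fin r) : lmulQ ρ r d q a = ρ d * q a := rfl

noncomputable def rmulQ (ρ : D →+* Matrix (Fin n) (Fin n) F) {r : ℕ}
    (X : (Fin r → D) →ₗ[D] (Fin r → D)) : Module.End F (Fin r → Matrix (Fin n) (Fin n) F) where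
  toFun q := fun b => ∑ a, q a * ρ (X (Pi.single a 1) b)
  map_add' p q := by funext a; simp [add_mul, Finset.sum_add_distrib]
  map_smul' c q := by funext a; simp [Finset.smul_sum]

theorem rmulQ_apply (ρ : D →+* Matrix (Fin n) (Fin n) F) {r : ℕ}
    (X : (Fin r → D) →ₗ[D] (Fin r → D)) (q : Fin r → Matrix (Fin n) (Fin n) F) (b : Fin r) :
    rmulQ ρ X q b = ∑ a, q a * ρ (X (Pi.single a 1) b) := rfl

theorem rmulQ_iota (ρ : D →+* Matrix (Fin n) (Fin n) F) {r : ℕ}
    (X : (Fin r → D) →ₗ[D] (Fin r → D)) (v : Fin r → D) :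
    rmulQ ρ X (fun a => ρ (v a)) = fun a => ρ (X v a) := by
  funext b
  rw [rmulQ_apply]
  have : v = ∑ a, v a • (Pi.single a (1 : D) : Fin r → D) := by
    funext c; simp [Pi.single_apply]
  conv_rhs => rw [this]
  simp [map_sum]

noncomputable def evQ (ρ : D →+* Matrix (Fin n) (Fin n) F) {r : ℕ}
    (X : σ → (Fin r → D) →ₗ[D] (Fin r → D)) :
    NC D σ →+* Module.End F (Fin r → Matrix (Fin n) (Fin n) F) :=
  liftR (lmulQ ρ r) (fun j => rmulQ ρ (X j)) (fun d j => by
    refine LinearMap.ext (fun q => ?_)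
    funext b
    simp only [Module.End.mul_apply, lmulQ_apply, rmulQ_apply, Finset.mul_sum, mul_assoc])

end Rep

section Step
variable {R : Type u} [Ring R] {σ : Type} [Fintype σ] {ν : Type} [Fintype ν] [DecidableEq ν]

theorem mem_Wd {D : Type u} [Ring D] {e : ℕ} {s : ν → NC D σ} :
    s ∈ Wd D σ ν e ↔ ∀ k (w : FreeMonoid σ), e ≤ w.length → (s k).coeff w = 0 := Iff.rfl

theorem Wd_mono {D : Type u} [Ring D] {e e' : ℕ} (h : e ≤ e') {s : ν → NC D σ}
    (hs : s ∈ Wd D σ ν e) : s ∈ Wd D σ ν e' := fun k w hw => hs k w (h.trans hw)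

theorem Wd_lam {D : Type u} [Ring D] {e : ℕ} {s : ν → NC D σ}
    (hs : s ∈ Wd D σ ν (e + 1)) (j : σ) : (fun k => lam j (s k)) ∈ Wd D σ ν e := by
  intro k w hw
  rw [coeff_lam]
  exact hs k _ (by simp [FreeMonoid.length_mul]; omega)

theorem Wd_xx {D : Type u} [Ring D] {e : ℕ} {s : ν → NC D σ}
    (hs : s ∈ Wd D σ ν e) (j : σ) : (fun k => xx j * s k) ∈ Wd D σ ν (e + 1) := by
  classical
  intro k w hw
  induction w using FreeMonoid.inductionOn' with
  | one => exact coeff_xx_mul_one _ _
  | of_mul l w _ =>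
    rw [coeff_xx_mul]
    split_ifs
    · exact hs k w (by simp [FreeMonoid.length_mul] at hw; omega)
    · rfl

theorem Wd_single {D : Type u} [Ring D] (e : ℕ) (k : ν) :
    (Pi.single k 1 : ν → NC D σ) ∈ Wd D σ ν (e + 1) := by
  intro l w hw
  by_cases h : l = k
  · subst h
    rw [Pi.single_eq_same, one_def, coeff_single, Finsupp.single_eq_of_ne]
    rintro rfl
    simp at hw
  · rw [Pi.single_eq_of_ne h]; simp

theorem TT_mem {D : Type u} [Ring D] {e : ℕ} (M : Matrix ν ν (NC D σ)) (N : Matrix ν ν D)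
    (hM : ∀ i, M i ∈ Wd D σ ν (e + 1)) (j : σ) (s : ν → NC D σ) (hs : s ∈ Wd D σ ν (e + 1)) :
    TT M N j s ∈ Wd D σ ν (e + 1) := by
  refine Wd_mono (Nat.le_succ e) ?_
  have : TT M N j s = (fun k => lam j (s k)) -
      ∑ a, ∑ b, (kap (s a) * N a b) • (fun k => lam j (M b k)) := by
    funext k
    simp [TT_apply, smul_eq_CC]
  rw [this]
  refine Submodule.sub_mem _ (Wd_lam hs j) (Submodule.sum_mem _ fun a _ =>
    Submodule.sum_mem _ fun b _ => Submodule.smul_mem _ _ (Wd_lam (hM b) j))

theorem nil_restrict {D : Type u} [Ring D] {V : Type u} [AddCommGroup V] [Module D V]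
    (W : Submodule D V) (T : σ → V →ₗ[D] V) (h : ∀ j, ∀ s ∈ W, T j s ∈ W) (m : ℕ) (s : W)
    (hs : Nil (fun j => ((T j).restrict (h j) : W → W)) m s) :
    Nil (fun j => (T j : V → V)) m s.1 := by
  induction m generalizing s with
  | zero => rw [show s = 0 from hs]; rfl
  | succ m ih => intro j; exact ih _ (hs j)

theorem nil_D (Γ : R →+* R[X]) (hΓ : ∀ r, (Γ r).eval 1 = r) (M : Matrix ν ν (NC R σ))
    (hM : Approx (GamS Γ) M) (N : Matrix ν ν R) (hN : M.map kap * N = 1) (e : ℕ)
    (he : ∀ i, M i ∈ Wd R σ ν (e + 1))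
    {D : Type u} [DivisionRing D] {F : Type u} [Field F] {n : ℕ}
    (ρ : D →+* Matrix (Fin n) (Fin n) F) (hρ : Function.Injective ρ) (Y : R →+* D)
    (s : ν → NC D σ) (hs : s ∈ Wd D σ ν (e + 1)) :
    Nil (fun j => (TT (M.map (mapC Y)) (N.map Y) j : (ν → NC D σ) → (ν → NC D σ)))
      (dimB σ ν (e + 1)) s := by
  classical
  set MD := M.map (mapC Y) with hMD
  set ND := N.map Y with hND
  have heD : ∀ i, MD i ∈ Wd D σ ν (e + 1) := by
    intro i k w hw
    simp [hMD, he i k w hw]
  have hND1 : ∀ i b, ∑ a, kap (MD i a) * ND a b = (1 : Matrix ν ν D) i b := by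
    intro i b
    have := congrArg (fun A : Matrix ν ν R => Y (A i b)) hN
    simp only [Matrix.mul_apply, map_sum, map_mul, Matrix.map_apply] at this
    simp only [hMD, hND, Matrix.map_apply, kap_mapC, this, Matrix.one_apply]
    split_ifs <;> simp
  obtain ⟨hfin, hdim⟩ := Wd_fin (σ := σ) (ν := ν) D (e + 1)
  refine nil_restrict (Wd D σ ν (e + 1)) (TT MD ND) (TT_mem MD ND heD) _ ⟨s, hs⟩ ?_
  refine nil_of_inj _ ?_ _ hdim _
  intro r X p hp
  obtain ⟨P, hP⟩ := LinearMap.exists_extend p
  have hP' : ∀ s : Wd D σ ν (e + 1), P s.1 = p s := fun s => by rw [← hP]; rfl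
  have hrel : ∀ s ∈ Wd D σ ν (e + 1), P s = ∑ j, X j (P (TT MD ND j s)) := by
    intro s hs
    have := hp ⟨s, hs⟩
    rw [← hP'] at this
    rw [this]
    refine Finset.sum_congr rfl (fun j _ => ?_)
    rw [← hP']; rfl
  have hx : ∀ m ≤ e, ∀ t ∈ Wd D σ ν m, ∀ j, P (fun k => xx j * t k) = X j (P t) := by
    intro m hm t ht j
    rw [hrel _ (Wd_mono (by omega) (Wd_xx ht j)), Finset.sum_eq_single j]
    · congr 2
      funext k
      simp [TT_apply, lam_xx_mul]
    · intro l _ hl
      have : TT MD ND l (fun k => xx j * t k) = 0 := by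
        funext k
        simp [TT_apply, lam_xx_mul, hl.symm]
      rw [this]; simp
    · simp
  let η : ν → Fin r → Matrix (Fin n) (Fin n) F := fun k a => ρ (P (Pi.single k 1) a)
  have K : ∀ m ≤ e + 1, ∀ t ∈ Wd D σ ν m,
      (fun a => ρ (P t a)) = ∑ k, evQ ρ X (t k) (η k) := by
    intro m
    induction m with
    | zero =>
      intro _ t ht
      have : t = 0 := by
        funext k; ext w; exact ht k w (Nat.zero_le _)
      subst this
      funext a; simp
    | succ m ih =>
      intro hm t ht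
      have h1 : t = ∑ k, kap (t k) • (Pi.single k 1 : ν → NC D σ) +
          ∑ j, (fun k => xx j * lam j (t k)) := by
        funext k
        simp only [Pi.add_apply, Finset.sum_apply, Pi.smul_apply, Pi.single_apply, smul_ite,
          smul_zero, Finset.sum_ite_eq, Finset.mem_univ, if_true, smul_eq_CC, mul_one]
        exact expand (t k)
      have h2 : ∀ j, (fun a => ρ (P (fun k => xx j * lam j (t k)) a)) =
          ∑ k, evQ ρ X (xx j * lam j (t k)) (η k) := by
        intro j
        rw [hx m (by omega) _ (Wd_lam ht j) j, ← rmulQ_iota, ih (by omega) _ (Wd_lam ht j), map_sum]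
        simp [evQ]
      have h3 : ∀ k, evQ ρ X (t k) (η k) = (fun a => ρ (kap (t k) * P (Pi.single k 1) a)) +
          ∑ j, evQ ρ X (xx j * lam j (t k)) (η k) := by
        intro k
        conv_lhs => rw [expand (t k)]
        rw [map_add, map_sum, LinearMap.add_apply, LinearMap.sum_apply]
        congr 1
        funext a
        simp [evQ, lmulQ_apply, η]
      simp only [h3, Finset.sum_add_distrib]
      rw [Finset.sum_comm]
      simp only [← h2]
      funext a
      conv_lhs => rw [h1]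
      simp [map_sum]
  have hη : η = 0 := by
    refine lim_inj (GamS Γ) (GamS_eval Γ hΓ) M hM ((evQ ρ X).comp (mapC Y)) η (fun i => ?_)
    have h1 := K (e + 1) le_rfl (MD i) (heD i)
    have h2 : P (MD i) = 0 := by
      rw [hrel _ (heD i)]
      refine Finset.sum_eq_zero (fun j _ => ?_)
      have : TT MD ND j (MD i) = 0 := by
        funext k
        rw [TT_apply, Finset.sum_comm]
        simp only [← Finset.sum_mul, ← map_sum, hND1, Matrix.one_apply]
        simp [apply_ite]
      rw [this]; simp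
    rw [h2] at h1
    simp only [RingHom.comp_apply]
    rw [eq_comm]
    refine Eq.trans ?_ h1
    funext a; simp
  ext t a
  have h1 := congrFun (K (e + 1) le_rfl t.1 t.2) a
  rw [hη, hP'] at h1
  apply hρ
  simpa using h1

def Sep (R : Type u) [Ring R] : Prop :=
  ∀ r : R, r ≠ 0 → ∃ (D : Type u) (_ : DivisionRing D) (F : Type u) (_ : Field F) (n : ℕ)
    (ρ : D →+* Matrix (Fin n) (Fin n) F) (Y : R →+* D), Function.Injective ρ ∧ Y r ≠ 0

def Inv {R : Type u} [Ring R] (Γ : R →+* R[X]) : Prop :=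
  ∀ (ν : Type) [Fintype ν] [DecidableEq ν] (M : Matrix ν ν R), Approx Γ M →
    ∃ N : Matrix ν ν R, M * N = 1 ∧ N * M = 1

theorem exists_Wd (M : Matrix ν ν (NC R σ)) : ∃ e, ∀ i, M i ∈ Wd R σ ν (e + 1) := by
  classical
  refine ⟨Finset.univ.sup (fun i => Finset.univ.sup fun k =>
    (M i k).coeff.support.sup FreeMonoid.length), fun i k w hw => ?_⟩
  by_contra h
  have h1 : w.length ≤ (M i k).coeff.support.sup FreeMonoid.length :=
    Finset.le_sup (f := FreeMonoid.length) (Finsupp.mem_support_iff.2 h)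
  have h2 := Finset.le_sup (f := fun k => (M i k).coeff.support.sup FreeMonoid.length)
    (Finset.mem_univ k)
  have h3 := Finset.le_sup (f := fun i => Finset.univ.sup fun k =>
    (M i k).coeff.support.sup FreeMonoid.length) (Finset.mem_univ i)
  omega

theorem step (Γ : R →+* R[X]) (hΓ : ∀ r, (Γ r).eval 1 = r) (hS : Sep R) (hI : Inv Γ) :
    Inv (GamS Γ : NC R σ →+* (NC R σ)[X]) := by
  intro ν _ _ M hM
  obtain ⟨N, hN1, hN2⟩ := hI ν _ (approx_kap Γ M hM)
  obtain ⟨e, he⟩ := exists_Wd M
  have key : ∀ (m : ℕ) (s : ν → NC R σ),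
      (∀ (D : Type u) [DivisionRing D] (F : Type u) [Field F] (n : ℕ)
        (ρ : D →+* Matrix (Fin n) (Fin n) F) (Y : R →+* D), Function.Injective ρ →
        Nil (fun j => (TT (M.map (mapC Y)) (N.map Y) j : (ν → NC D σ) → (ν → NC D σ))) m
          (fun k => mapC Y (s k))) →
      Nil (fun j => (TT M N j : (ν → NC R σ) → (ν → NC R σ))) m s := by
    intro m
    induction m with
    | zero =>
      intro s h
      show s = 0
      funext k
      ext w
      by_contra hne
      obtain ⟨D, _, F, _, n, ρ, Y, hρ, hY⟩ := hS _ hne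
      have h1 : (fun k => mapC Y (s k)) = 0 := h D F n ρ Y hρ
      have := congrArg (fun a : NC D σ => a.coeff w) (congrFun h1 k)
      exact hY (by simpa using this)
    | succ m ih =>
      intro s h j
      refine ih _ (fun D _ F _ n ρ Y hρ => ?_)
      have := h D F n ρ Y hρ j
      simp only at this
      rw [TT_mapC] at this
      exact this
  have h1 : ∀ i : ν, ∃ g : ν → NC R σ, ∀ k, (Pi.single i 1 : ν → NC R σ) k = ∑ b, g b * M b k := by
    intro i
    refine nil_span M N hN2 (dimB σ ν (e + 1)) _ (key _ _ (fun D _ F _ n ρ Y hρ => ?_))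
    refine nil_D Γ hΓ M hM N hN1 e he ρ hρ Y _ ?_
    intro k w hw
    rw [coeff_mapC, Wd_single e i k w hw, map_zero]
  choose G hG using h1
  have hGM : Matrix.of G * M = 1 := by
    ext1 i k
    rw [Matrix.mul_apply, Matrix.one_apply]
    simp only [Matrix.of_apply]
    rw [← hG, Pi.single_apply]
    simp [eq_comm]
  refine ⟨Matrix.of G, ?_, hGM⟩
  have h2 : (M * Matrix.of G - 1) * M = 0 := by
    rw [Matrix.sub_mul, Matrix.mul_assoc, hGM]; simp
  rw [← sub_eq_zero]
  ext1 i k
  have := row_inj M N hN1 ((M * Matrix.of G - 1) i) (fun k => by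
    have := congrFun (congrFun h2 i) k
    rwa [Matrix.mul_apply] at this)
  exact congrFun this k

end Step

theorem inv_C (K : Type u) [Field K] : Inv (C : K →+* K[X]) := by
  intro ν _ _ M hM
  obtain ⟨U, U', h1, h2⟩ := hM 1
  have : M = U := by
    ext i k
    have := Polynomial.X_pow_dvd_iff.1 (h2 i k) 0 (by omega)
    rw [coeff_C_zero] at this
    exact sub_eq_zero.1 this
  subst this
  exact ⟨U', h1, mul_eq_one_comm.1 h1⟩

theorem sep_field (K : Type u) [Field K] : Sep K := by
  intro r hr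
  exact ⟨K, inferInstance, K, inferInstance, 1, Matrix.scalar (Fin 1), RingHom.id K,
    RingHom.injective _, hr⟩

end Pool.Agent.H3.GE
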