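import Pool.Agent.H3.GE4

set_option autoImplicit false
set_option linter.unusedSectionVars false

namespace Pool.Agent.H3.GE

open Polynomial MonoidAlgebra

universe u

section Cyc
variable {S : Type u} [CommRing S] {k : ℕ}

def PP (c : Fin (k + 1) → S) : Matrix (Fin (k + 1)) (Fin (k + 1)) S :=
  Matrix.of fun a b => if b = a + 1 then c a else 0

theorem PP_mul (c : Fin (k + 1) → S) (m : Matrix (Fin (k + 1)) (Fin (k + 1)) S)
    (a b : Fin (k + 1)) : (PP c * m) a b = c a * m (a + 1) b := by
  simp [PP, Matrix.mul_apply]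

theorem mul_PP (c : Fin (k + 1) → S) (m : Matrix (Fin (k + 1)) (Fin (k + 1)) S)
    (a b : Fin (k + 1)) : (m * PP c) a (b + 1) = m a b * c b := by
  simp [PP, Matrix.mul_apply]

def cyc (sg : S →+* S) (c : Fin (k + 1) → S) : Subring (Matrix (Fin (k + 1)) (Fin (k + 1)) S) where
  carrier := {m | PP c * sg.mapMatrix m = m * PP c}
  mul_mem' := by
    intro a b ha hb
    simp only [Set.mem_ofPred_eq] at *
    rw [map_mul, ← mul_assoc, ha, mul_assoc, hb, mul_assoc]
  one_mem' := by simp
  add_mem' := by
    intro a b ha hb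
    simp only [Set.mem_ofPred_eq] at *
    rw [map_add, mul_add, add_mul, ha, hb]
  zero_mem' := by simp
  neg_mem' := by
    intro a ha
    simp only [Set.mem_ofPred_eq] at *
    rw [map_neg, mul_neg, neg_mul, ha]

theorem mem_cyc (sg : S →+* S) (c : Fin (k + 1) → S) (m : Matrix (Fin (k + 1)) (Fin (k + 1)) S) :
    m ∈ cyc sg c ↔ ∀ a b, c a * sg (m (a + 1) (b + 1)) = m a b * c b := by
  show PP c * sg.mapMatrix m = m * PP c ↔ _
  constructor
  · intro h a b
    have := congrFun (congrFun h a) (b + 1)
    rwa [PP_mul, mul_PP] at this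
  · intro h
    ext a b
    obtain ⟨b, rfl⟩ : ∃ b', b = b' + 1 := ⟨b - 1, by simp⟩
    rw [PP_mul, mul_PP]
    exact h a b

end Cyc

section Val
variable {F : Type u} [Field F] {k : ℕ}

theorem cyc_det (sg : F →+* F) (c : Fin (k + 1) → F) (ord : F → ℤ)
    (hmul : ∀ x y, x ≠ 0 → y ≠ 0 → ord (x * y) = ord x + ord y)
    (hsg : ∀ x, ord (sg x) = ord x)
    (hsum : ∀ (f : Fin (k + 1) → F) (b1 : Fin (k + 1)), f b1 ≠ 0 →
      (∀ b, b ≠ b1 → f b ≠ 0 → ord (f b1) < ord (f b)) → ∑ b, f b ≠ 0)
    (hc0 : ∀ a, c a ≠ 0)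
    (hc : ∀ a : Fin (k + 1), ((k : ℤ) + 1) * ord (c a) = 1 + (a.val : ℤ) - ((a + 1).val : ℤ))
    (m : Matrix (Fin (k + 1)) (Fin (k + 1)) F) (hm : m ∈ cyc sg c) (hm0 : m ≠ 0) : m.det ≠ 0 := by
  classical
  rw [mem_cyc] at hm
  intro hdet
  obtain ⟨v, hv0, hv⟩ := Matrix.exists_mulVec_eq_zero_iff.2 hdet
  let om : Fin (k + 1) → Fin (k + 1) → ℤ := fun a b => ((k : ℤ) + 1) * ord (m a b) + b.val - a.val
  let th : Fin (k + 1) → ℤ := fun b => ((k : ℤ) + 1) * ord (v b) - b.val
  have shift1 : ∀ a b, m a b ≠ 0 → m (a + 1) (b + 1) ≠ 0 ∧ om (a + 1) (b + 1) = om a b := by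
    intro a b hab
    have h := hm a b
    have h1 : m (a + 1) (b + 1) ≠ 0 := by
      intro h0
      rw [h0, map_zero, mul_zero] at h
      exact mul_ne_zero hab (hc0 b) h.symm
    refine ⟨h1, ?_⟩
    have h2 := congrArg ord h
    rw [hmul _ _ (hc0 a) (by simpa using h1), hmul _ _ hab (hc0 b), hsg] at h2
    have h3 := hc a
    have h4 := hc b
    simp only [om]
    linear_combination ((k : ℤ) + 1) * h2 - h3 + h4
  have shift : ∀ a b, m a b ≠ 0 → ∀ t, m (a + t) (b + t) ≠ 0 ∧ om (a + t) (b + t) = om a b := by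
    intro a b hab t
    induction t using Fin.induction with
    | zero => simpa using hab
    | succ i ih =>
      rw [← Fin.coeSucc_eq_succ, ← add_assoc, ← add_assoc]
      obtain ⟨h1, h2⟩ := shift1 _ _ ih.1
      exact ⟨h1, h2.trans ih.2⟩
  obtain ⟨p, hp, hpmin⟩ := Finset.exists_min_image
    (Finset.univ.filter fun p : Fin (k + 1) × Fin (k + 1) => m p.1 p.2 ≠ 0) (fun p => om p.1 p.2) (by
      by_contra h
      apply hm0
      ext a b
      by_contra hab
      exact h ⟨(a, b), by simpa using hab⟩)
  obtain ⟨b1, hb1, hbmin⟩ := Finset.exists_min_image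
    (Finset.univ.filter fun b : Fin (k + 1) => v b ≠ 0) th (by
      by_contra h
      apply hv0
      ext b
      by_contra hb
      exact h ⟨b, by simpa using hb⟩)
  simp only [Finset.mem_filter, Finset.mem_univ, true_and] at hp hpmin hb1 hbmin
  obtain ⟨h1, h2⟩ := shift _ _ hp (b1 - p.2)
  rw [add_sub_cancel] at h1 h2
  set a1 := p.1 + (b1 - p.2)
  have h3 := congrFun hv a1
  refine hsum (fun b => m a1 b * v b) b1 (mul_ne_zero h1 hb1) (fun b hb hne => ?_) h3
  have hm1 : m a1 b ≠ 0 := left_ne_zero_of_mul hne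
  have hv1 : v b ≠ 0 := right_ne_zero_of_mul hne
  have h4 := hpmin (a1, b) hm1
  have h5 := hbmin b hv1
  have h6 : th b1 ≠ th b := by
    intro h
    apply hb
    have h7 : ((k : ℤ) + 1) ∣ (b.val : ℤ) - b1.val :=
      ⟨ord (v b) - ord (v b1), by simp only [th] at h; linear_combination h⟩
    have h8 := Int.eq_zero_of_abs_lt_dvd h7 (by
      have := b.isLt; have := b1.isLt
      rw [abs_lt]; constructor <;> omega)
    ext; omega
  have h7 : th b1 < th b := lt_of_le_of_ne h5 h6
  rw [hmul _ _ h1 hb1, hmul _ _ hm1 hv1]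
  rw [← h2] at h4
  simp only [om, th] at h4 h7
  have hk : (0 : ℤ) < (k : ℤ) + 1 := by positivity
  refine lt_of_mul_lt_mul_left ?_ hk.le
  rw [mul_add, mul_add]
  omega

theorem cyc_unit (sg : F →+* F) (c : Fin (k + 1) → F)
    (h : ∀ m ∈ cyc sg c, m ≠ 0 → m.det ≠ 0) (a : cyc sg c) : IsUnit a ∨ a = 0 := by
  by_cases ha : a = 0
  · exact Or.inr ha
  left
  have hd : IsUnit a.1.det := (h a.1 a.2 (fun h0 => ha (Subtype.ext h0))).isUnit
  have h1 := Matrix.mul_nonsing_inv a.1 hd
  have h2 := Matrix.nonsing_inv_mul a.1 hd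
  have hmem : a.1⁻¹ ∈ cyc sg c := by
    have ha2 : PP c * sg.mapMatrix a.1 = a.1 * PP c := a.2
    show PP c * sg.mapMatrix a.1⁻¹ = a.1⁻¹ * PP c
    calc PP c * sg.mapMatrix a.1⁻¹ = a.1⁻¹ * (a.1 * PP c) * sg.mapMatrix a.1⁻¹ := by
          rw [← mul_assoc, h2, one_mul]
      _ = a.1⁻¹ * PP c := by
          rw [← ha2, mul_assoc, mul_assoc, ← map_mul, h1, map_one, mul_one]
  exact ⟨⟨a, ⟨a.1⁻¹, hmem⟩, Subtype.ext h1, Subtype.ext h2⟩, rfl⟩

end Val

noncomputable def hmap {L : Type u} [Field L] (f : L →+* L) :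
    HahnSeries ℤ L →+* HahnSeries ℤ L where
  toFun x := x.map f
  map_one' := HahnSeries.map_one f.toMonoidWithZeroHom
  map_mul' _ _ := HahnSeries.map_mul f.toNonUnitalRingHom
  map_zero' := HahnSeries.map_zero f.toMonoidWithZeroHom.toZeroHom
  map_add' _ _ := HahnSeries.map_add f.toAddMonoidHom

theorem hmap_coeff {L : Type u} [Field L] (f : L →+* L) (x : HahnSeries ℤ L) (n : ℤ) :
    (hmap f x).coeff n = f (x.coeff n) := rfl

theorem hmap_order {L : Type u} [Field L] (f : L →+* L) (x : HahnSeries ℤ L) :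
    (hmap f x).order = x.order := by
  by_cases hx : x = 0
  · simp [hx]
  have hx' : hmap f x ≠ 0 := by simpa using hx
  apply le_antisymm
  · apply HahnSeries.order_le_of_coeff_ne_zero
    rw [hmap_coeff]
    simpa using hx
  · apply HahnSeries.order_le_of_coeff_ne_zero
    have := HahnSeries.coeff_order_eq_zero.not.2 hx'
    rw [hmap_coeff] at this
    simpa using this

theorem hahn_sum {L : Type u} [Field L] {ι : Type} [Fintype ι] (f : ι → HahnSeries ℤ L) (b1 : ι)
    (h1 : f b1 ≠ 0) (h : ∀ b, b ≠ b1 → f b ≠ 0 → (f b1).order < (f b).order) : ∑ b, f b ≠ 0 := by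
  intro h0
  have := congrArg (fun x : HahnSeries ℤ L => x.coeff (f b1).order) h0
  simp only [HahnSeries.coeff_sum, HahnSeries.coeff_zero] at this
  rw [Finset.sum_eq_single b1] at this
  · exact h1 (HahnSeries.coeff_order_eq_zero.1 this)
  · intro b _ hb
    by_cases hf : f b = 0
    · simp [hf]
    · exact HahnSeries.coeff_eq_zero_of_lt_order (h b hb hf)
  · simp

section SepA
variable {K : Type u} [Field K] {σ : Type}

noncomputable def repY {S : Type u} [CommRing S] {k : ℕ} (ι : K →+* S) (c : Fin (k + 1) → S)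
    (d : σ → Fin (k + 1) → S) : NC K σ →+* Matrix (Fin (k + 1)) (Fin (k + 1)) S :=
  liftR ((Matrix.scalar _).comp ι) (fun j => Matrix.diagonal (d j) * PP c)
    (fun _ _ => Matrix.scalar_commute _ (fun _ => Commute.all _ _) _)

theorem repY_map {S S' : Type u} [CommRing S] [CommRing S'] {k : ℕ} (ι : K →+* S)
    (c : Fin (k + 1) → S) (d : σ → Fin (k + 1) → S) (f : S →+* S') (a : NC K σ) :
    f.mapMatrix (repY ι c d a) = repY (f.comp ι) (fun b => f (c b)) (fun j b => f (d j b)) a := by
  have : f.mapMatrix.comp (repY ι c d) =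
      repY (f.comp ι) (fun b => f (c b)) (fun j b => f (d j b)) := by
    apply hom_ext
    · intro r
      ext a b
      simp [repY, Matrix.diagonal_apply, apply_ite f]
    · intro j
      ext a b
      simp [repY, PP, apply_ite f]
  exact congrArg (fun g => g a) this

theorem repY_mem {S : Type u} [CommRing S] {k : ℕ} (ι : K →+* S)
    (c : Fin (k + 1) → S) (d : σ → Fin (k + 1) → S) (sg : S →+* S) (h1 : ∀ r, sg (ι r) = ι r)
    (h2 : ∀ a, sg (c a) = c a) (h3 : ∀ j a, sg (d j (a + 1)) = d j a) (a : NC K σ) :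
    repY ι c d a ∈ cyc sg c := by
  induction a using ind with
  | hC r =>
    rw [mem_cyc]
    intro a b
    simp only [repY, liftR_CC, RingHom.comp_apply, Matrix.scalar_apply, Matrix.diagonal_apply,
      add_left_inj]
    split_ifs with h
    · rw [h, h1, mul_comm]
    · simp
  | hadd a b ha hb => rw [map_add]; exact Subring.add_mem _ ha hb
  | hx j a ha =>
    rw [map_mul]
    refine Subring.mul_mem _ ?_ ha
    rw [mem_cyc]
    intro a b
    simp only [repY, liftR_xx, Matrix.diagonal_mul, PP, Matrix.of_apply, add_left_inj]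
    split_ifs with h
    · rw [h, map_mul, h2, h3]; ring
    · simp

theorem repY_coeff [DecidableEq σ] (w : List σ) (a : NC K σ) (i : Fin (w.length + 1)) :
    repY (RingHom.id K) (fun b : Fin (w.length + 1) => if b = Fin.last _ then 0 else 1)
      (fun j b => if w[b.val]? = some j then 1 else 0) a i (Fin.last _) =
      a.coeff (FreeMonoid.ofList (w.drop i.val)) := by
  induction a using ind generalizing i with
  | hC r =>
    rw [repY, liftR_CC]
    simp only [RingHom.comp_apply, Matrix.scalar_apply, Matrix.diagonal_apply,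
      RingHom.id_apply, CC_apply, coeff_single]
    split_ifs with h
    · subst h; simp
    · rw [Finsupp.single_eq_of_ne]
      intro h0
      have := congrArg FreeMonoid.length h0
      have h2 : (FreeMonoid.ofList (w.drop i.val)).length = w.length - i.val := by
        show (w.drop i.val).length = _
        simp
      rw [h2] at this
      apply h
      have := i.isLt
      ext
      simp at *
      omega
  | hadd a b ha hb => simp [ha, hb]
  | hx j a ha =>
    rw [map_mul]
    conv_lhs => rw [repY, liftR_xx, ← repY]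
    rw [mul_assoc, Matrix.diagonal_mul, PP_mul, ha]
    by_cases h : i = Fin.last _
    · subst h
      simp [coeff_xx_mul_one]
    · have hi : i.val < w.length := by
        have := i.isLt
        have : i.val ≠ w.length := fun h0 => h (Fin.ext (by simpa using h0))
        omega
      rw [List.drop_eq_getElem_cons hi, FreeMonoid.ofList_cons, coeff_xx_mul,
        List.getElem?_eq_getElem hi, if_neg h, one_mul]
      have : (i + 1).val = i.val + 1 := by
        rw [Fin.val_add_one, if_neg h]
      rw [this]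
      simp only [Option.some.injEq, ite_mul, one_mul, zero_mul]
      split_ifs with h1 h2 h2
      · rfl
      · exact absurd h1.symm h2
      · exact absurd h2.symm h1
      · rfl

theorem sep_NC : Sep (NC K σ) := by
  classical
  intro r hr
  obtain ⟨w0, hw0⟩ : ∃ w0, r.coeff w0 ≠ 0 := by
    by_contra h
    push Not at h
    apply hr
    ext w; simpa using h w
  let w : List σ := w0.toList
  let k := w.length
  let B := MvPolynomial (σ × Fin (k + 1)) K
  let L := FractionRing B
  let e : B ≃+* B :=
    (MvPolynomial.renameEquiv K (Equiv.prodCongr (Equiv.refl σ) (Equiv.subRight 1))).toRingEquiv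
  let sL : L →+* L := (IsFractionRing.ringEquivOfRingEquiv (K := L) (L := L) e).toRingHom
  have hsL : ∀ b : B, sL (algebraMap B L b) = algebraMap B L (e b) :=
    fun b => IsFractionRing.ringEquivOfRingEquiv_algebraMap e b
  have he : ∀ b : B, e b = MvPolynomial.rename
      (Equiv.prodCongr (Equiv.refl σ) (Equiv.subRight (1 : Fin (k + 1)))) b := fun b => rfl
  let φ : B[X] →+* HahnSeries ℤ L :=
    ((HahnSeries.ofPowerSeries ℤ L).comp Polynomial.coeToPowerSeries.ringHom).comp
      (Polynomial.mapRingHom (algebraMap B L))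
  have hφ : Function.Injective φ :=
    (HahnSeries.ofPowerSeries_injective.comp (Polynomial.coe_injective L)).comp
      (Polynomial.map_injective _ (IsFractionRing.injective B L))
  have hφC : ∀ b, φ (C b) = HahnSeries.C (algebraMap B L b) := by
    intro b; simp [φ, HahnSeries.ofPowerSeries_C]
  have hφX : φ X = HahnSeries.single 1 1 := by simp [φ]
  let ι0 : K →+* B[X] := C.comp MvPolynomial.C
  let c0 : Fin (k + 1) → B[X] := fun b => if b = Fin.last _ then X else 1
  let d0 : σ → Fin (k + 1) → B[X] := fun j b => C (MvPolynomial.X (j, b))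
  let c : Fin (k + 1) → HahnSeries ℤ L := fun b => φ (c0 b)
  have hsC : ∀ b : B, hmap sL (φ (C b)) = φ (C (e b)) := by
    intro b
    rw [hφC, hφC, ← hsL]
    exact HahnSeries.map_C _ _
  have hmem : ∀ a, repY (φ.comp ι0) c (fun j b => φ (d0 j b)) a ∈ cyc (hmap sL) c := by
    apply repY_mem
    · intro r
      simp only [ι0, RingHom.comp_apply, hsC]
      rw [he, MvPolynomial.rename_C]
    · intro a
      simp only [c, c0]
      split_ifs
      · rw [hφX]
        ext n
        rw [hmap_coeff, HahnSeries.coeff_single]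
        split_ifs <;> simp
      · simp
    · intro j a
      simp only [d0, hsC]
      rw [he, MvPolynomial.rename_X]
      simp
  have hunit := cyc_unit (hmap sL) c (cyc_det (hmap sL) c HahnSeries.order
    (fun x y hx hy => HahnSeries.order_mul hx hy) (hmap_order sL) hahn_sum
    (by
      intro a
      simp only [c, c0]
      split_ifs
      · rw [hφX]; exact HahnSeries.single_ne_zero one_ne_zero
      · simp)
    (by
      intro a
      simp only [c, c0]
      rw [Fin.val_add_one]
      split_ifs with h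
      · rw [hφX, HahnSeries.order_single one_ne_zero, h]; simp; ring
      · simp; ring))
  refine ⟨cyc (hmap sL) c, DivisionRing.ofIsUnitOrEqZero hunit, HahnSeries ℤ L, inferInstance,
    k + 1, (cyc (hmap sL) c).subtype, RingHom.codRestrict _ _ hmem, Subtype.val_injective, ?_⟩
  intro h0
  have h1 : repY (φ.comp ι0) c (fun j b => φ (d0 j b)) r = 0 := congrArg Subtype.val h0
  rw [← repY_map] at h1
  have h2 : repY ι0 c0 d0 r = 0 := by
    ext1 a b
    apply hφ
    simpa using congrFun (congrFun h1 a) b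
  let ev : B[X] →+* K := (MvPolynomial.eval
    (fun p : σ × Fin (k + 1) => if w[p.2.val]? = some p.1 then (1 : K) else 0)).comp
      (evalRingHom 0)
  have h3 := repY_map ι0 c0 d0 ev r
  have e1 : ev.comp ι0 = RingHom.id K := by
    ext x
    simp only [ev, ι0, RingHom.comp_apply, coe_evalRingHom, eval_C, RingHom.id_apply]
    exact MvPolynomial.eval_C x
  have e2 : (fun b => ev (c0 b)) = fun b : Fin (w.length + 1) => if b = Fin.last _ then 0 else 1 := by
    funext b
    simp only [c0]
    split_ifs <;> simp [ev]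
  have e3 : (fun j b => ev (d0 j b)) =
      fun j (b : Fin (w.length + 1)) => if w[b.val]? = some j then 1 else 0 := by
    funext j b
    simp [ev, d0]
  rw [h2, map_zero, e1, e2, e3] at h3
  have h4 := repY_coeff w r 0
  rw [← h3] at h4
  exact hw0 h4.symm

end SepA

end Pool.Agent.H3.GE
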