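import Pool.Agent.H3.GE5

set_option autoImplicit false
set_option linter.unusedSectionVars false

namespace Pool.Agent.H3.GE

open Polynomial MonoidAlgebra

universe u

section Der
variable {K : Type u} [Field K] {σ : Type}

theorem CC_central (r : K) (a : NC K σ) : CC r * a = a * CC r := by
  induction a using ind with
  | hC s => rw [← map_mul, ← map_mul, mul_comm]
  | hadd a b ha hb => rw [mul_add, add_mul, ha, hb]
  | hx j a ha => rw [← mul_assoc, (CC_comm_xx r j).eq, mul_assoc, ha, mul_assoc]

noncomputable def revOp : NC K σ →+* (NC K σ)ᵐᵒᵖ :=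
  liftR (RingHom.toOpposite CC (fun r s => CC_central r (CC s))) (fun j => MulOpposite.op (xx j))
    (fun r j => by
      show MulOpposite.op (CC r : NC K σ) * MulOpposite.op (xx j) =
        MulOpposite.op (xx j) * MulOpposite.op (CC r : NC K σ)
      rw [← MulOpposite.op_mul, ← MulOpposite.op_mul, (CC_comm_xx r j).eq])

noncomputable def rev : NC K σ →+ NC K σ :=
  (MulOpposite.opAddEquiv.symm.toAddMonoidHom).comp revOp.toAddMonoidHom

theorem rev_def (a : NC K σ) : rev a = (revOp a).unop := rfl

@[simp] theorem rev_mul (a b : NC K σ) : rev (a * b) = rev b * rev a := by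
  simp [rev_def]

@[simp] theorem rev_CC (r : K) : rev (CC r : NC K σ) = CC r := by
  simp [rev_def, revOp]

@[simp] theorem rev_xx (j : σ) : rev (xx j : NC K σ) = xx j := by
  simp [rev_def, revOp]

@[simp] theorem rev_one : rev (1 : NC K σ) = 1 := by
  simp [rev_def]

@[simp] theorem rev_rev (a : NC K σ) : rev (rev a) = a := by
  induction a using ind with
  | hC s => simp
  | hadd a b ha hb => simp [ha, hb]
  | hx j a ha => simp [ha]

@[simp] theorem kap_rev (a : NC K σ) : kap (rev a) = kap a := by
  induction a using ind with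
  | hC s => simp
  | hadd a b ha hb => simp [ha, hb]
  | hx j a ha => simp

theorem fil_xx {R : Type u} [Ring R] (j : σ) : Fil 1 (xx j : NC R σ) := fil_one.2 (kap_xx j)

theorem Fil.rev [Fintype σ] {m : ℕ} {a : NC K σ} (ha : Fil m a) : Fil m (rev a) := by
  induction m generalizing a with
  | zero => exact Fil.zero _
  | succ m ih =>
    rw [ha.expand, map_sum]
    refine Fil.sum _ _ (fun j _ => ?_)
    rw [rev_mul, rev_xx]
    exact (ih ((fil_succ.1 ha).2 j)).mul (fil_xx j)

theorem Fil.hom [Fintype σ] (β : NC K σ →+* NC K σ) (hβ : ∀ j, kap (β (xx j)) = 0) {m : ℕ}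
    {a : NC K σ} (ha : Fil m a) : Fil m (β a) := by
  induction m generalizing a with
  | zero => exact Fil.zero _
  | succ m ih =>
    rw [ha.expand, map_sum]
    refine Fil.sum _ _ (fun j _ => ?_)
    rw [map_mul, add_comm]
    exact (fil_one.2 (hβ j)).mul (ih ((fil_succ.1 ha).2 j))

theorem fil_sub_hom [Fintype σ] (α β : NC K σ →+* NC K σ) (hα : ∀ r, α (CC r) = CC r)
    (hβ : ∀ r, β (CC r) = CC r) {m : ℕ} (h : ∀ j, Fil m (α (xx j) - β (xx j))) (a : NC K σ) :
    Fil m (α a - β a) := by
  induction a using ind with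
  | hC s => rw [hα, hβ, sub_self]; exact Fil.zero' m
  | hadd a b ha hb =>
    have := ha.add hb
    rw [map_add, map_add]
    convert this using 1
    abel
  | hx j a ha =>
    have := ((h j).mul_right (α a)).add (ha.mul_left (β (xx j)))
    rw [map_mul, map_mul]
    convert this using 1
    noncomm_ring

noncomputable def LL : NC K σ →+* NC (NC K σ) σ := mapC CC

@[simp] theorem LL_xx (j : σ) : LL (xx j : NC K σ) = xx j := mapC_xx _ _

@[simp] theorem LL_CC (r : K) : LL (CC r : NC K σ) = CC (CC r) := mapC_CC _ _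

@[simp] theorem kap_LL (a : NC K σ) : kap (LL a) = CC (kap a) := kap_mapC _ _

theorem LL_comm (a b : NC K σ) : LL a * CC b = CC b * LL a := by
  induction a using ind with
  | hC s => rw [LL_CC, ← map_mul, ← map_mul, CC_central]
  | hadd a c ha hc => rw [map_add, mul_add, add_mul, ha, hc]
  | hx j a ha =>
    rw [map_mul, LL_xx, mul_assoc, ha, ← mul_assoc, ← (CC_comm_xx b j).eq, mul_assoc]

variable [DecidableEq σ]

noncomputable def dw (k : σ) : List σ → NC (NC K σ) σ
  | [] => 0
  | j :: w => xx j * dw k w + if j = k then CC (rev (single (FreeMonoid.ofList w) 1)) else 0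

noncomputable def dd (k : σ) : NC K σ →+ NC (NC K σ) σ :=
  (Finsupp.liftAddHom fun w : FreeMonoid σ =>
    (AddMonoidHom.mulRight (dw k w.toList)).comp (CC.comp CC).toAddMonoidHom).comp
    coeffAddEquiv.toAddMonoidHom

theorem dd_single (k : σ) (w : FreeMonoid σ) (c : K) :
    dd k (single w c) = CC (CC c) * dw k w.toList := by
  simp [dd]

@[simp] theorem dd_CC (k : σ) (c : K) : dd k (CC c : NC K σ) = 0 := by
  rw [CC_apply, dd_single]; simp [dw]

theorem single_eq_CC_mul {R : Type u} [Ring R] (w : FreeMonoid σ) (c : R) :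
    (single w c : NC R σ) = CC c * single w 1 := by
  simp [CC_apply, single_mul_single]

theorem dd_xx_mul (k j : σ) (a : NC K σ) :
    dd k (xx j * a) = xx j * dd k a + if j = k then CC (rev a) else 0 := by
  induction a using MonoidAlgebra.induction_linear with
  | zero => simp
  | add a b ha hb =>
    rw [mul_add, map_add, ha, hb, map_add, map_add, map_add, mul_add]
    split_ifs <;> abel
  | single w c =>
    rw [← single_of_mul, dd_single, dd_single, FreeMonoid.toList_of_mul, dw, mul_add, ← mul_assoc,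
      (CC_comm_xx _ j).eq, mul_assoc]
    congr 1
    split_ifs
    · rw [single_eq_CC_mul w c, rev_mul, rev_CC, ← CC_central, map_mul]
      rfl
    · simp

theorem dd_CC_mul (k : σ) (c : K) (a : NC K σ) : dd k (CC c * a) = CC (CC c) * dd k a := by
  induction a using MonoidAlgebra.induction_linear with
  | zero => simp
  | add a b ha hb => rw [mul_add, map_add, ha, hb, map_add, mul_add]
  | single w d =>
    rw [CC_apply, single_mul_single, one_mul, dd_single, dd_single, map_mul, map_mul, mul_assoc]
    rfl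

theorem dd_mul (k : σ) (a b : NC K σ) :
    dd k (a * b) = LL a * dd k b + CC (rev b) * dd k a := by
  induction a using ind with
  | hC s => simp [dd_CC_mul]
  | hadd a c ha hc =>
    rw [add_mul, map_add, ha, hc, map_add, map_add, add_mul, mul_add]; abel
  | hx j a ha =>
    rw [mul_assoc, dd_xx_mul, ha, dd_xx_mul, map_mul LL, LL_xx, mul_add, mul_add, ← mul_assoc (xx j),
      ← mul_assoc (xx j), ← (CC_comm_xx _ j).eq, mul_assoc (CC _), add_assoc]
    congr 2
    split_ifs <;> simp

theorem dd_xx (k j : σ) : dd k (xx j : NC K σ) = if j = k then 1 else 0 := by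
  have := dd_xx_mul (K := K) k j (CC 1)
  rw [dd_CC] at this
  simpa using this

theorem rev_kap_dd (k : σ) (a : NC K σ) : rev (kap (dd k a)) = lam k a := by
  induction a using ind with
  | hC s => simp
  | hadd a c ha hc => simp [ha, hc]
  | hx j a _ =>
    rw [dd_xx_mul, lam_xx_mul]
    split_ifs <;> simp

noncomputable def conj (α : NC K σ →+* NC K σ) : NC K σ →+* NC K σ where
  toFun a := rev (α (rev a))
  map_one' := by simp
  map_mul' := by simp
  map_zero' := by simp
  map_add' := by simp

theorem conj_apply (α : NC K σ →+* NC K σ) (a : NC K σ) : conj α a = rev (α (rev a)) := rfl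

noncomputable def til (α : NC K σ →+* NC K σ) : NC (NC K σ) σ →+* NC (NC K σ) σ :=
  liftR (CC.comp (conj α)) (fun j => LL (α (xx j))) (fun _ _ => (LL_comm _ _).symm)

@[simp] theorem til_CC (α : NC K σ →+* NC K σ) (a : NC K σ) :
    til α (CC a) = CC (rev (α (rev a))) := by simp [til, conj_apply]

@[simp] theorem til_xx (α : NC K σ →+* NC K σ) (j : σ) : til α (xx j) = LL (α (xx j)) := by
  simp [til]

theorem til_LL (α : NC K σ →+* NC K σ) (hα : ∀ r, α (CC r) = CC r) (a : NC K σ) :
    til α (LL a) = LL (α a) := by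
  induction a using ind with
  | hC s => simp [hα]
  | hadd a c ha hc => simp [ha, hc]
  | hx j a ha => simp [ha]

variable [Fintype σ]

theorem chain (α : NC K σ →+* NC K σ) (hα : ∀ r, α (CC r) = CC r) (k : σ) (a : NC K σ) :
    dd k (α a) = ∑ j, til α (dd j a) * dd k (α (xx j)) := by
  induction a using ind with
  | hC s => simp [hα]
  | hadd a c ha hc => simp [ha, hc, add_mul, Finset.sum_add_distrib]
  | hx l a ha =>
    rw [map_mul, dd_mul, ha]
    simp only [dd_xx_mul, map_add, map_mul, til_xx, add_mul, Finset.sum_add_distrib, Finset.mul_sum,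
      mul_assoc]
    congr 1
    simp [apply_ite (til α)]

noncomputable def Jac (α : NC K σ →+* NC K σ) : Matrix σ σ (NC (NC K σ) σ) :=
  Matrix.of fun i k => dd k (α (xx i))

theorem jac_inv (α β : NC K σ →+* NC K σ) (hα : ∀ r, α (CC r) = CC r)
    (hβ : ∀ r, β (CC r) = CC r) (h1 : ∀ a, α (β a) = a) (h2 : ∀ a, β (α a) = a) :
    Jac α * (Jac β).map (til α) = 1 := by
  have h3 : (til α).comp (til β) = RingHom.id _ := by
    apply hom_ext
    · intro r; simp [h1]
    · intro j; simp [til_LL α hα, h1]
  have h4 : ∀ s, til α (til β s) = s := fun s => congrArg (fun f => f s) h3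
  ext1 i k
  have := chain β hβ k (α (xx i))
  rw [h2, dd_xx] at this
  have h5 := congrArg (til α) this
  simp only [map_sum, map_mul, h4] at h5
  simp only [Matrix.mul_apply, Jac, Matrix.of_apply, Matrix.map_apply, ← h5, Matrix.one_apply]
  split_ifs <;> simp

theorem dd_fil {m : ℕ} {a : NC K σ} (ha : Fil (m + 1) a) (k : σ) :
    X ^ m ∣ GamS (GamS (C : K →+* K[X])) (dd k a) := by
  induction m generalizing a with
  | zero => simp
  | succ m ih =>
    rw [ha.expand, map_sum, map_sum]
    refine Finset.dvd_sum (fun j _ => ?_)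
    have h := (fil_succ.1 ha).2 j
    rw [dd_xx_mul, map_add]
    refine dvd_add ?_ ?_
    · rw [map_mul, add_comm]
      exact xpow_mul (X_dvd_GamS_xx _ j) (ih h)
    · split_ifs
      · rw [GamS_CC]
        exact xpow_map _ (h.rev.dvd _)
      · simp

theorem inv_A : Inv (GamS (C : K →+* K[X]) : NC K σ →+* (NC K σ)[X]) :=
  step C (fun _ => eval_C) (sep_field K) (inv_C K)

theorem inv_S : Inv (GamS (GamS (C : K →+* K[X])) : NC (NC K σ) σ →+* (NC (NC K σ) σ)[X]) :=
  step _ (GamS_eval C (fun _ => eval_C)) sep_NC inv_A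

def Lim (φ : NC K σ →+* NC K σ) : Prop :=
  ∀ m : ℕ, ∃ α β : NC K σ →+* NC K σ, (∀ r, α (CC r) = CC r) ∧ (∀ r, β (CC r) = CC r) ∧
    (∀ a, α (β a) = a) ∧ (∀ a, β (α a) = a) ∧ (∀ j, kap (β (xx j)) = 0) ∧
    ∀ j, Fil m (φ (xx j) - α (xx j))

theorem jac_unit (φ : NC K σ →+* NC K σ) (h : Lim φ) :
    ∃ H, Jac φ * H = 1 ∧ H * Jac φ = 1 := by
  refine inv_S σ _ (fun m => ?_)
  obtain ⟨α, β, h1, h2, h3, h4, -, h6⟩ := h (m + 1)
  refine ⟨Jac α, _, jac_inv α β h1 h2 h3 h4, fun i k => ?_⟩
  simp only [Jac, Matrix.of_apply]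
  rw [← map_sub]
  exact dd_fil (h6 i) k

theorem lim_inj' (φ : NC K σ →+* NC K σ) (hφ : ∀ r, φ (CC r) = CC r) (h : Lim φ) :
    Function.Injective φ := by
  rw [injective_iff_map_eq_zero]
  intro a ha
  refine Fil.eq_zero (fun m => ?_)
  obtain ⟨α, β, h1, -, -, h4, h5, h6⟩ := h m
  have := (fil_sub_hom φ α hφ h1 h6 a).neg
  rw [ha, zero_sub, neg_neg] at this
  simpa [h4] using this.hom β h5

end Der

end Pool.Agent.H3.GE
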