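import Pool.Agent.H3.GE6

set_option autoImplicit false
set_option linter.unusedSectionVars false

namespace Pool.Agent.H3.GE

open Polynomial MonoidAlgebra

universe u

section Fin
variable {K : Type u} [Field K] {σ : Type} [DecidableEq σ] [Fintype σ]

noncomputable def df (H : Matrix σ σ (NC (NC K σ) σ)) (l : σ) : NC K σ →+ NC (NC K σ) σ :=
  ∑ k, (AddMonoidHom.mulRight (H k l)).comp (dd k)

theorem df_apply (H : Matrix σ σ (NC (NC K σ) σ)) (l : σ) (a : NC K σ) :
    df H l a = ∑ k, dd k a * H k l := by
  simp [df]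

theorem df_CC (H : Matrix σ σ (NC (NC K σ) σ)) (l : σ) (r : K) : df H l (CC r) = 0 := by
  simp [df_apply]

theorem df_mul (H : Matrix σ σ (NC (NC K σ) σ)) (l : σ) (a b : NC K σ) :
    df H l (a * b) = LL a * df H l b + CC (rev b) * df H l a := by
  simp [df_apply, dd_mul, add_mul, Finset.sum_add_distrib, Finset.mul_sum, mul_assoc]

theorem df_xx (H : Matrix σ σ (NC (NC K σ) σ)) (l i : σ) : df H l (xx i) = H i l := by
  simp [df_apply, dd_xx]

theorem df_f (φ : NC K σ →+* NC K σ) (H : Matrix σ σ (NC (NC K σ) σ)) (h : Jac φ * H = 1)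
    (l j : σ) : df H l (φ (xx j)) = if j = l then 1 else 0 := by
  have := congrFun (congrFun h j) l
  rw [Matrix.mul_apply, Matrix.one_apply] at this
  rw [df_apply, ← this]
  rfl

noncomputable def lf (H : Matrix σ σ (NC (NC K σ) σ)) (l : σ) : NC K σ →ₗ[K] NC K σ where
  toFun a := rev (kap (df H l a))
  map_add' a b := by simp
  map_smul' r a := by
    simp only [smul_eq_CC, df_mul, df_CC, RingHom.id_apply]
    simp [CC_central]

theorem lf_apply (H : Matrix σ σ (NC (NC K σ) σ)) (l : σ) (a : NC K σ) :
    lf H l a = rev (kap (df H l a)) := rfl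

theorem lf_CC (H : Matrix σ σ (NC (NC K σ) σ)) (l : σ) (r : K) : lf H l (CC r) = 0 := by
  simp [lf_apply, df_CC]

theorem lf_mul (H : Matrix σ σ (NC (NC K σ) σ)) (l : σ) (a b : NC K σ) :
    lf H l (a * b) = CC (kap a) * lf H l b + lf H l a * b := by
  simp [lf_apply, df_mul, CC_central]

noncomputable def kap' : NC (NC K σ) σ →+* NC K σ :=
  liftR (CC.comp kap) xx (fun _ j => CC_comm_xx _ j)

@[simp] theorem kap'_CC (b : NC K σ) : kap' (CC b : NC (NC K σ) σ) = CC (kap b) := by simp [kap']

@[simp] theorem kap'_xx (j : σ) : kap' (xx j : NC (NC K σ) σ) = xx j := by simp [kap']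

@[simp] theorem kap'_LL (a : NC K σ) : kap' (LL a) = a := by
  induction a using ind with
  | hC s => simp
  | hadd a c ha hc => simp [ha, hc]
  | hx j a ha => simp [ha]

noncomputable def rf (H : Matrix σ σ (NC (NC K σ) σ)) (l : σ) : NC K σ →+ NC K σ :=
  kap'.toAddMonoidHom.comp (df H l)

theorem rf_apply (H : Matrix σ σ (NC (NC K σ) σ)) (l : σ) (a : NC K σ) :
    rf H l a = kap' (df H l a) := rfl

theorem rf_CC (H : Matrix σ σ (NC (NC K σ) σ)) (l : σ) (r : K) : rf H l (CC r) = 0 := by
  simp [rf_apply, df_CC]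

theorem rf_mul (H : Matrix σ σ (NC (NC K σ) σ)) (l : σ) (a b : NC K σ) :
    rf H l (a * b) = a * rf H l b + CC (kap b) * rf H l a := by
  simp [rf_apply, df_mul]

noncomputable def lw (H : Matrix σ σ (NC (NC K σ) σ)) : List σ → NC K σ →ₗ[K] NC K σ
  | [] => LinearMap.id
  | j :: u => lw H u ∘ₗ lf H j

theorem lw_concat (H : Matrix σ σ (NC (NC K σ) σ)) (u : List σ) (l : σ) (a : NC K σ) :
    lw H (u ++ [l]) a = lf H l (lw H u a) := by
  induction u generalizing a with
  | nil => rfl
  | cons j u ih => exact ih _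

noncomputable def EE (H : Matrix σ σ (NC (NC K σ) σ)) (u : List σ) : NC (NC K σ) σ →+ NC K σ :=
  (Finsupp.liftAddHom fun w : FreeMonoid σ =>
    (AddMonoidHom.mulLeft (CC (kap (lw H u (single w 1))))).comp rev).comp
    coeffAddEquiv.toAddMonoidHom

theorem EE_single (H : Matrix σ σ (NC (NC K σ) σ)) (u : List σ) (w : FreeMonoid σ) (b : NC K σ) :
    EE H u (single w b) = CC (kap (lw H u (single w 1))) * rev b := by
  simp [EE]

theorem LL_single (w : FreeMonoid σ) (c : K) : LL (single w c : NC K σ) = single w (CC c) := by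
  simp [LL, mapC]

theorem EE_LL (H : Matrix σ σ (NC (NC K σ) σ)) (u : List σ) (a b : NC K σ) :
    EE H u (LL a * CC b) = CC (kap (lw H u a)) * rev b := by
  induction a using MonoidAlgebra.induction_linear with
  | zero => simp
  | add a c ha hc => simp only [map_add, add_mul, ha, hc]
  | single w c =>
    rw [LL_single, CC_apply b, single_mul_single, mul_one, EE_single, single_eq_CC_mul w c,
      ← smul_eq_CC c (single w 1), map_smul, smul_eq_CC, rev_mul, rev_CC, ← CC_central, map_mul,
      kap_CC, mul_comm c, map_mul, mul_assoc]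

theorem single_eq_LL (w : FreeMonoid σ) (b : NC K σ) :
    (single w b : NC (NC K σ) σ) = LL (single w 1) * CC b := by
  rw [LL_single, CC_apply b, single_mul_single]; simp

theorem EE_nil (H : Matrix σ σ (NC (NC K σ) σ)) (s : NC (NC K σ) σ) :
    EE H [] s = rev (kap s) := by
  induction s using MonoidAlgebra.induction_linear with
  | zero => simp
  | add a c ha hc => simp only [map_add, ha, hc]
  | single w b =>
    rw [single_eq_LL, EE_LL]
    simp [lw, CC_central]

theorem EE_mem (H : Matrix σ σ (NC (NC K σ) σ)) (u : List σ) (s : NC (NC K σ) σ) :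
    EE H u s ∈ Submodule.span K ((fun w => rev (s.coeff w)) '' (s.coeff.support : Set _)) := by
  conv => enter [2]; rw [← sum_coeff_single s, Finsupp.sum, map_sum]
  refine Submodule.sum_mem _ (fun w hw => ?_)
  rw [EE_single, ← smul_eq_CC]
  exact Submodule.smul_mem _ _ (Submodule.subset_span ⟨w, hw, rfl⟩)

variable (φ : NC K σ →+* NC K σ) (H : Matrix σ σ (NC (NC K σ) σ))
  (h1 : Jac φ * H = 1) (h2 : H * Jac φ = 1) (h0 : ∀ j, kap (φ (xx j)) = 0)

include h1 h0 in
theorem lf_f (l j : σ) (a : NC K σ) : lf H l (φ (xx j) * a) = if j = l then a else 0 := by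
  rw [lf_mul, h0, lf_apply H l (φ _), df_f φ H h1]
  split_ifs <;> simp

include h1 h2 h0 in
theorem expand_f (a : NC K σ) : a = CC (kap a) + ∑ l, φ (xx l) * lf H l a := by
  set b := a - (CC (kap a) + ∑ l, φ (xx l) * lf H l a) with hb
  have hk : kap b = 0 := by simp [hb, map_sum, h0]
  have hl : ∀ l, lf H l b = 0 := by
    intro l
    simp [hb, map_sum, lf_f φ H h1 h0, lf_CC]
  have hl2 : ∀ l, kap (df H l b) = 0 := by
    intro l
    have := congrArg rev (hl l)
    simpa [lf_apply] using this
  have hd : ∀ k, lam k b = 0 := by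
    intro k
    have h3 : dd k b = ∑ l, df H l b * Jac φ l k := by
      simp only [df_apply, Finset.sum_mul, mul_assoc]
      rw [Finset.sum_comm]
      simp only [← Finset.mul_sum, ← Matrix.mul_apply, h2, Matrix.one_apply]
      simp
    rw [← rev_kap_dd, h3]
    simp [map_sum, hl2]
  have : b = 0 := by
    rw [expand b, hk]
    simp [hd]
  exact sub_eq_zero.1 this

include h1 h0 in
theorem EE_cons (j : σ) (u : List σ) (i : σ) (s : NC (NC K σ) σ) :
    EE H (j :: u) (LL (φ (xx i)) * s) = if i = j then EE H u s else 0 := by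
  induction s using MonoidAlgebra.induction_linear with
  | zero => simp
  | add a c ha hc =>
    simp only [mul_add, map_add, ha, hc]
    split_ifs <;> simp
  | single w b =>
    rw [single_eq_LL, ← mul_assoc, ← map_mul, EE_LL, EE_LL]
    simp only [lw, LinearMap.comp_apply, lf_f φ H h1 h0]
    split_ifs <;> simp

theorem EE_cons_CC (j : σ) (u : List σ) (b : NC K σ) : EE H (j :: u) (CC b) = 0 := by
  have := EE_LL H (j :: u) (CC 1) b
  simp only [lw, LinearMap.comp_apply, lf_CC] at this
  simpa using this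

include h1 h2 h0 in
theorem lf_lw (l : σ) (u : List σ) (a : NC K σ) : lf H l (lw H u a) = EE H u (df H l a) := by
  induction u generalizing a with
  | nil => rw [EE_nil]; rfl
  | cons j u ih =>
    have h3 : lw H (j :: u) a = lw H u (lf H j a) := rfl
    rw [h3, ih]
    conv_rhs => rw [expand_f φ H h1 h2 h0 a]
    simp only [map_add, map_sum, df_CC, df_mul, df_f φ H h1, EE_cons φ H h1 h0]
    simp [apply_ite (EE H (j :: u)), EE_cons_CC]

noncomputable def VV : Submodule K (NC K σ) :=
  Submodule.span K (Set.range fun p : List σ × σ => lw H p.1 (xx p.2))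

theorem VV_lf (l : σ) (a : NC K σ) (ha : a ∈ VV H) : lf H l a ∈ VV H := by
  have : (VV H).map (lf H l) ≤ VV H := by
    rw [VV, Submodule.map_span, Submodule.span_le]
    rintro _ ⟨_, ⟨p, rfl⟩, rfl⟩
    exact Submodule.subset_span ⟨(p.1 ++ [l], p.2), lw_concat H _ _ _⟩
  exact this ⟨a, ha, rfl⟩

include h1 h2 h0 in
theorem VV_fin : FiniteDimensional K (VV H) := by
  let T : Set (NC K σ) := Set.range xx ∪
    ⋃ p : σ × σ, (fun w => rev ((H p.1 p.2).coeff w)) '' ((H p.1 p.2).coeff.support : Set _)
  have hT : T.Finite :=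
    (Set.finite_range _).union (Set.finite_iUnion fun p => (Finset.finite_toSet _).image _)
  have := FiniteDimensional.span_of_finite K hT
  refine Submodule.finiteDimensional_of_le (S₂ := Submodule.span K T) ?_
  rw [VV, Submodule.span_le]
  rintro _ ⟨⟨u, i⟩, rfl⟩
  rcases List.eq_nil_or_concat u with rfl | ⟨u, l, rfl⟩
  · exact Submodule.subset_span (Or.inl ⟨i, rfl⟩)
  · simp only [List.concat_eq_append, lw_concat, lf_lw φ H h1 h2 h0, df_xx]
    refine Submodule.span_mono ?_ (EE_mem H u (H i l))
    exact (Set.subset_iUnion (fun p : σ × σ =>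
      (fun w => rev ((H p.1 p.2).coeff w)) '' ((H p.1 p.2).coeff.support : Set _)) (i, l)).trans
      Set.subset_union_right

include h1 h2 h0 in
theorem final (hφ : ∀ r, φ (CC r) = CC r) (hL : Lim φ) : Function.Surjective φ := by
  have := VV_fin φ H h1 h2 h0
  let r := Module.finrank K (VV H)
  let b := Module.finBasis K (VV H)
  let v : Fin r → NC K σ := fun a => (b a).1
  let M : σ → Matrix (Fin r) (Fin r) K := fun j => Matrix.of fun a c =>
    b.repr ⟨lf H j (v a), VV_lf H j _ (b a).2⟩ c
  have hM : ∀ j a, lf H j (v a) = ∑ c, CC (M j a c) * v c := by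
    intro j a
    have := congrArg Subtype.val (b.sum_repr ⟨lf H j (v a), VV_lf H j _ (b a).2⟩)
    simp only [AddSubmonoidClass.coe_finsetSum, SetLike.val_smul, smul_eq_CC] at this
    exact this.symm
  let L0 : Matrix (Fin r) (Fin r) (NC K σ) := 1 - Matrix.of fun a c => ∑ j, xx j * CC (M j a c)
  let L1 : Matrix (Fin r) (Fin r) (NC K σ) := L0.map φ
  have hL1 : ∀ (w : Fin r → NC K σ) a,
      L1.mulVec w a = w a - ∑ j, φ (xx j) * ∑ c, CC (M j a c) * w c := by
    intro w a
    simp only [L1, L0, Matrix.mulVec, dotProduct, Matrix.map_apply, Matrix.sub_apply,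
      Matrix.of_apply, map_sub, map_sum, map_mul, hφ, Matrix.one_apply, sub_mul,
      Finset.sum_sub_distrib, Finset.sum_mul, Finset.mul_sum, mul_assoc]
    rw [Finset.sum_comm]
    simp [apply_ite φ]
  have hv : L1.mulVec v = fun a => CC (kap (v a)) := by
    funext a
    rw [hL1]
    simp only [← hM]
    rw [sub_eq_iff_eq_add]
    exact expand_f φ H h1 h2 h0 (v a)
  let U : Submodule K (Fin r → K) :=
    { carrier := {c | ∃ w, L1.mulVec w = fun a => CC (c a)}
      add_mem' := by
        rintro c d ⟨w, hw⟩ ⟨w', hw'⟩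
        refine ⟨w + w', ?_⟩
        rw [Matrix.mulVec_add, hw, hw']
        funext a; simp
      zero_mem' := ⟨0, by funext a; simp⟩
      smul_mem' := by
        rintro t c ⟨w, hw⟩
        refine ⟨fun a => w a * CC t, ?_⟩
        funext a
        have := congrFun hw a
        simp only [Matrix.mulVec, dotProduct, ← mul_assoc, ← Finset.sum_mul] at this ⊢
        rw [this, ← map_mul, mul_comm]
        rfl }
  have hU : ∀ l, ∀ c ∈ U, (M l).mulVec c ∈ U := by
    rintro l c ⟨w, hw⟩
    have hk : ∀ a, kap (w a) = c a := by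
      intro a
      have := congrArg kap (congrFun hw a)
      rw [hL1] at this
      simpa [map_sum, h0] using this
    refine ⟨fun a => rf H l (w a), ?_⟩
    funext a
    have := congrArg (rf H l) (congrFun hw a)
    rw [hL1] at this ⊢
    simp only [map_sub, map_sum, rf_mul, rf_CC, mul_zero, add_zero, rf_apply H l (φ _),
      df_f φ H h1, Finset.sum_add_distrib, map_mul, kap_CC, hk] at this
    rw [← sub_sub, sub_eq_zero] at this
    rw [this]
    simp [apply_ite kap', Matrix.mulVec, dotProduct]
  have hUtop : U = ⊤ := by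
    by_contra hne
    obtain ⟨g, hg0, hg⟩ := U.exists_le_ker_of_lt_top (lt_top_iff_ne_top.2 hne)
    let ve : ((Fin r → K) →ₗ[K] K) → NC K σ := fun g => ∑ a, CC (g (Pi.single a 1)) * v a
    have hsingle : ∀ (g : (Fin r → K) →ₗ[K] K) (c : Fin r → K),
        g c = ∑ a, c a * g (Pi.single a 1) := by
      intro g c
      have : c = ∑ a, c a • (Pi.single a (1 : K) : Fin r → K) := by
        funext d; simp [Pi.single_apply]
      conv_lhs => rw [this]
      simp [map_sum]
    have key : ∀ m, ∀ g : (Fin r → K) →ₗ[K] K, U ≤ LinearMap.ker g → Fil m (ve g) := by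
      intro m
      induction m with
      | zero => intro g _; exact Fil.zero _
      | succ m ih =>
        intro g hg
        have hk : kap (ve g) = 0 := by
          have : g (fun a => kap (v a)) = 0 := hg ⟨v, hv⟩
          rw [hsingle] at this
          simpa [ve, map_sum, mul_comm] using this
        have hl : ∀ l, lf H l (ve g) = ve (g ∘ₗ (M l).mulVecLin) := by
          intro l
          simp only [ve, map_sum, ← smul_eq_CC, map_smul, hM, Finset.smul_sum, smul_smul]
          rw [Finset.sum_comm]
          refine Finset.sum_congr rfl (fun c _ => ?_)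
          rw [← Finset.sum_smul, LinearMap.comp_apply, hsingle g ((M l).mulVecLin _)]
          simp [mul_comm]
        rw [expand_f φ H h1 h2 h0 (ve g), hk, map_zero, zero_add]
        refine Fil.sum _ _ (fun l _ => ?_)
        rw [add_comm, hl]
        exact (fil_one.2 (h0 l)).mul (ih _ (fun c hc => hg (hU l c hc)))
    have h3 : ve g = 0 := Fil.eq_zero (fun m => key m g hg)
    have h4 : ∑ a, g (Pi.single a 1) • b a = 0 := by
      apply Subtype.ext
      simp only [AddSubmonoidClass.coe_finsetSum, SetLike.val_smul, smul_eq_CC]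
      exact h3
    have h5 := Fintype.linearIndependent_iff.1 b.linearIndependent _ h4
    apply hg0
    refine LinearMap.ext (fun c => ?_)
    rw [hsingle]; simp [h5]
  have hG : ∀ c : Fin r, ∃ w, L1.mulVec w = fun a => CC ((Pi.single c (1 : K) : Fin r → K) a) := by
    intro c
    have : (Pi.single c (1 : K) : Fin r → K) ∈ U := by rw [hUtop]; trivial
    exact this
  choose G hG using hG
  have hLG : L1 * (Matrix.of G).transpose = 1 := by
    ext1 a c
    have := congrFun (hG c) a
    simp only [Matrix.mulVec, dotProduct] at this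
    simp only [Matrix.mul_apply, Matrix.transpose_apply, Matrix.of_apply, this, Matrix.one_apply,
      Pi.single_apply]
    split_ifs <;> simp
  obtain ⟨N, -, hN⟩ := inv_A (K := K) (σ := σ) (Fin r) L0 (fun m => by
    obtain ⟨α, β, -, e2, -, e4, e5, e6⟩ := hL m
    refine ⟨L1.map β, ((Matrix.of G).transpose).map β, ?_, fun a c => ?_⟩
    · rw [← Matrix.map_mul, hLG]; simp
    · refine Fil.dvd _ ?_
      have e7 : ∀ j, Fil m ((β.comp φ) (xx j) - (RingHom.id _) (xx j)) := by
        intro j
        simpa [e4] using (e6 j).hom β e5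
      have := (fil_sub_hom (β.comp φ) (RingHom.id _) (fun r => by simp [hφ, e2]) (fun _ => rfl)
        e7 (L0 a c)).neg
      simpa [L1] using this)
  have hvr : ∀ a, v a ∈ φ.range := by
    intro a
    have h3 : N.map φ * L1 = 1 := by
      rw [← Matrix.map_mul, hN]; simp
    have h4 : v = (N.map φ).mulVec (L1.mulVec v) := by
      rw [Matrix.mulVec_mulVec, h3, Matrix.one_mulVec]
    rw [h4, hv]
    simp only [Matrix.mulVec, dotProduct, Matrix.map_apply]
    exact Subring.sum_mem _ (fun c _ => Subring.mul_mem _ ⟨_, rfl⟩ ⟨_, hφ _⟩)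
  have hx : ∀ i, xx i ∈ φ.range := by
    intro i
    have hi : xx i ∈ VV H := Submodule.subset_span ⟨([], i), rfl⟩
    have := congrArg Subtype.val (b.sum_repr ⟨xx i, hi⟩)
    simp only [AddSubmonoidClass.coe_finsetSum, SetLike.val_smul, smul_eq_CC] at this
    rw [← this]
    exact Subring.sum_mem _ (fun c _ => Subring.mul_mem _ ⟨_, hφ _⟩ (hvr c))
  intro a
  show a ∈ φ.range
  induction a using ind with
  | hC s => exact ⟨_, hφ s⟩
  | hadd a c ha hc => exact Subring.add_mem _ ha hc
  | hx j a ha => exact Subring.mul_mem _ (hx j) ha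

end Fin

theorem core {K : Type u} [Field K] {σ : Type} [DecidableEq σ] [Fintype σ]
    (φ : NC K σ →+* NC K σ) (hφ : ∀ r, φ (CC r) = CC r) (h0 : ∀ j, kap (φ (xx j)) = 0)
    (hL : Lim φ) : Function.Bijective φ := by
  obtain ⟨H, h1, h2⟩ := jac_unit φ hL
  exact ⟨lim_inj' φ hφ hL, final φ H h1 h2 h0 hφ hL⟩

end Pool.Agent.H3.GE
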