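import Pool.Agent.H3.GE7

set_option autoImplicit false
set_option linter.unusedSectionVars false

namespace Pool.Agent.H3.GE

open Polynomial MonoidAlgebra

universe u

variable {K : Type u} [Field K] {σ : Type} [DecidableEq σ] [Fintype σ]

def Dat (φ : NC K σ →+* NC K σ) (left : Bool) (m : ℕ) : Prop :=
  ∃ ψ α β : NC K σ →+* NC K σ, (∀ r, ψ (CC r) = CC r) ∧ (∀ r, α (CC r) = CC r) ∧
    (∀ r, β (CC r) = CC r) ∧ (∀ a, α (β a) = a) ∧ (∀ a, β (α a) = a) ∧
    (∀ a, φ a = if left then ψ (α a) else α (ψ a)) ∧ ∀ j, Fil m (ψ (xx j) - xx j)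

theorem kap_hom (α : NC K σ →+* NC K σ) (hα : ∀ r, α (CC r) = CC r)
    (h : ∀ j, kap (α (xx j)) = 0) (a : NC K σ) : kap (α a) = kap a := by
  have : (kap : NC K σ →+* K).comp α = kap := by
    apply hom_ext
    · intro r; simp [hα]
    · intro j; simp [h]
  exact congrArg (fun f => f a) this

theorem bij_left (φ : NC K σ →+* NC K σ) (h : ∀ m, Dat φ true m) : Function.Bijective φ := by
  obtain ⟨ψ1, α1, β1, a1, a2, a3, a4, a5, a6, a7⟩ := h 1
  simp only [if_true] at a6
  have h0 : ∀ j, kap (ψ1 (xx j)) = 0 := fun j => by simpa using fil_one.1 (a7 j)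
  have hb : Function.Bijective ψ1 := by
    refine core ψ1 a1 h0 (fun m => ?_)
    obtain ⟨ψ, α, β, b1, b2, b3, b4, b5, b6, b7⟩ := h (m + 1)
    simp only [if_true] at b6
    have e1 : ∀ j, Fil (m + 1) (ψ1 (xx j) - α (β1 (xx j))) := by
      intro j
      have := fil_sub_hom ψ (RingHom.id _) b1 (fun _ => rfl) b7 (α (β1 (xx j)))
      rwa [← b6, a6, a4] at this
    have e2 : ∀ j, kap ((α.comp β1) (xx j)) = 0 := by
      intro j
      have := (fil_succ.1 (e1 j)).1
      rw [map_sub, h0, zero_sub, neg_eq_zero] at this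
      exact this
    refine ⟨α.comp β1, α1.comp β, fun r => by simp [a3, b2], fun r => by simp [a2, b3],
      fun a => by simp [a5, b4], fun a => by simp [a4, b5], fun j => ?_,
      fun j => (e1 j).mono (Nat.le_succ m)⟩
    rw [← kap_hom (α.comp β1) (fun r => by simp [a3, b2]) e2]
    simp [a5, b4]
  have : (φ : NC K σ → NC K σ) = ψ1 ∘ α1 := funext a6
  rw [this]
  exact hb.comp (Function.bijective_iff_has_inverse.2 ⟨β1, a5, a4⟩)

noncomputable def evc {T : Type u} [CommRing T] (ι : K →+* T) (c : σ → T) : NC K σ →+* T :=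
  liftR ι c (fun _ _ => Commute.all _ _)

@[simp] theorem evc_CC {T : Type u} [CommRing T] (ι : K →+* T) (c : σ → T) (r : K) :
    evc ι c (CC r) = ι r := by simp [evc]

@[simp] theorem evc_xx {T : Type u} [CommRing T] (ι : K →+* T) (c : σ → T) (j : σ) :
    evc ι c (xx j) = c j := by simp [evc]

@[simp] theorem evc_rev {T : Type u} [CommRing T] (ι : K →+* T) (c : σ → T) (a : NC K σ) :
    evc ι c (rev a) = evc ι c a := by
  induction a using ind with
  | hC s => simp
  | hadd a c ha hc => simp [ha, hc]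
  | hx j a ha => simp [ha, mul_comm]

noncomputable def ev2 {T : Type u} [CommRing T] (ι : K →+* T) (c c' : σ → T) :
    NC (NC K σ) σ →+* T :=
  liftR (evc ι c') c (fun _ _ => Commute.all _ _)

@[simp] theorem ev2_CC {T : Type u} [CommRing T] (ι : K →+* T) (c c' : σ → T) (r : NC K σ) :
    ev2 ι c c' (CC r) = evc ι c' r := by simp [ev2]

@[simp] theorem ev2_xx {T : Type u} [CommRing T] (ι : K →+* T) (c c' : σ → T) (j : σ) :
    ev2 ι c c' (xx j) = c j := by simp [ev2]

@[simp] theorem ev2_LL {T : Type u} [CommRing T] (ι : K →+* T) (c c' : σ → T) (a : NC K σ) :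
    ev2 ι c c' (LL a) = evc ι c a := by
  induction a using ind with
  | hC s => simp
  | hadd a c ha hc => simp [ha, hc]
  | hx j a ha => simp [ha]

theorem evc_comp {T T' : Type u} [CommRing T] [CommRing T'] (f : T →+* T') (ι : K →+* T)
    (c : σ → T) (a : NC K σ) : f (evc ι c a) = evc (f.comp ι) (fun j => f (c j)) a := by
  induction a using ind with
  | hC s => simp
  | hadd a c ha hc => simp [ha, hc]
  | hx j a ha => simp [ha]

theorem ev2_comp {T T' : Type u} [CommRing T] [CommRing T'] (f : T →+* T') (ι : K →+* T)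
    (c c' : σ → T) : f.comp (ev2 ι c c') = ev2 (f.comp ι) (fun j => f (c j)) (fun j => f (c' j)) := by
  apply hom_ext
  · intro r; simp [evc_comp]
  · intro j; simp

theorem ev_diff {T : Type u} [CommRing T] (ι : K →+* T) (c c' : σ → T) (a : NC K σ) :
    evc ι c a - evc ι c' a = ∑ k, ev2 ι c c' (dd k a) * (c k - c' k) := by
  induction a using ind with
  | hC s => simp
  | hadd a b ha hb =>
    simp only [map_add, add_mul, Finset.sum_add_distrib, ← ha, ← hb]; ring
  | hx j a ha =>
    simp only [dd_xx_mul, map_add, map_mul, ev2_xx, evc_xx, add_mul, Finset.sum_add_distrib,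
      mul_assoc, ← Finset.mul_sum, ← ha]
    simp [apply_ite (ev2 ι c c')]
    ring

theorem om_CC (ω : NC (NC K σ) σ →+* K[X]) (h2 : ∀ j, X ∣ ω (CC (xx j))) {m : ℕ} {b : NC K σ}
    (hb : Fil m b) : X ^ m ∣ ω (CC b) := by
  induction m generalizing b with
  | zero => simp
  | succ m ih =>
    rw [hb.expand, map_sum, map_sum]
    refine Finset.dvd_sum (fun j _ => ?_)
    rw [map_mul, map_mul, pow_succ']
    exact mul_dvd_mul (h2 j) (ih ((fil_succ.1 hb).2 j))

theorem om_dd (ω : NC (NC K σ) σ →+* K[X]) (h1 : ∀ j, X ∣ ω (xx j))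
    (h2 : ∀ j, X ∣ ω (CC (xx j))) {m : ℕ} {a : NC K σ} (ha : Fil (m + 1) a) (k : σ) :
    X ^ m ∣ ω (dd k a) := by
  induction m generalizing a with
  | zero => simp
  | succ m ih =>
    rw [ha.expand, map_sum, map_sum]
    refine Finset.dvd_sum (fun j _ => ?_)
    have h := (fil_succ.1 ha).2 j
    rw [dd_xx_mul, map_add]
    refine dvd_add ?_ ?_
    · rw [map_mul, pow_succ']
      exact mul_dvd_mul (h1 j) (ih h)
    · split_ifs
      · exact om_CC ω h2 h.rev
      · simp

theorem det_dvd {T : Type u} [CommRing T] (A B : Matrix σ σ T) (p : T)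
    (h : ∀ i k, p ∣ A i k - B i k) : p ∣ A.det - B.det := by
  rw [← Ideal.mem_span_singleton, ← Ideal.Quotient.eq, RingHom.map_det, RingHom.map_det]
  congr 1
  ext i k
  simp only [RingHom.mapMatrix_apply, Matrix.map_apply]
  rw [Ideal.Quotient.eq, Ideal.mem_span_singleton]
  exact h i k

theorem pt_inj (φ : NC K σ →+* NC K σ) (h : ∀ m, Dat φ false m) (c c' : σ → K)
    (hc : ∀ i, evc (RingHom.id K) c (φ (xx i)) = evc (RingHom.id K) c' (φ (xx i))) : c = c' := by
  let eu : NC (NC K σ) σ →+* MvPolynomial (σ ⊕ σ) K :=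
    ev2 MvPolynomial.C (fun j => MvPolynomial.X (Sum.inl j)) (fun j => MvPolynomial.X (Sum.inr j))
  let Δ := (eu.mapMatrix (Jac φ)).det
  obtain ⟨ψ, α, β, b1, b2, b3, b4, b5, b6, b7⟩ := h (Δ.totalDegree + 1 + 1)
  simp only [Bool.false_eq_true, if_false] at b6
  let z : σ → K := fun j => kap (β (xx j))
  have hz : ∀ a, evc (RingHom.id K) z a = kap (β a) := by
    intro a
    induction a using ind with
    | hC s => simp [b3]
    | hadd a c ha hc => simp [ha, hc]
    | hx j a ha => simp [ha, z]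
  let g : σ ⊕ σ → K[X] := Sum.elim (fun j => C (z j) + C (c j - z j) * X)
    (fun j => C (z j) + C (c' j - z j) * X)
  let ag : MvPolynomial (σ ⊕ σ) K →+* K[X] := (MvPolynomial.aeval g).toRingHom
  let et : NC (NC K σ) σ →+* K[X] := ag.comp eu
  have het : et = ev2 C (fun j => C (z j) + C (c j - z j) * X)
      (fun j => C (z j) + C (c' j - z j) * X) := by
    simp only [et, eu, ev2_comp]
    congr 1
    · ext r; simp [ag]
    · funext j; simp [ag, g]
    · funext j; simp [ag, g]
  have hdeg : (et.mapMatrix (Jac φ)).det.natDegree ≤ Δ.totalDegree := by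
    have h1 : (et.mapMatrix (Jac φ)).det = MvPolynomial.aeval g Δ := by
      have := RingHom.map_det ag (eu.mapMatrix (Jac φ))
      rw [show et.mapMatrix (Jac φ) = ag.mapMatrix (eu.mapMatrix (Jac φ)) from rfl, ← this]
      rfl
    rw [h1]
    have := MvPolynomial.aeval_natDegree_le (n := 1) Δ le_rfl g (by
      rintro (j | j) <;> simp only [g, Sum.elim_inl, Sum.elim_inr] <;> compute_degree)
    simpa using this
  have hunit : IsUnit (et.mapMatrix (Jac α)).det := by
    have : (et.mapMatrix (Jac α)).det * (et.mapMatrix ((Jac β).map (til α))).det = 1 := by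
      rw [← Matrix.det_mul, ← map_mul, jac_inv α β b2 b3 b4 b5, map_one, Matrix.det_one]
    exact IsUnit.of_mul_eq_one _ this
  obtain ⟨e, he, heU⟩ := Polynomial.isUnit_iff.1 hunit
  have hX : ∀ (d : σ → K) (j : σ),
      X ∣ evc C (fun j => C (z j) + C (d j - z j) * X) (α (xx j)) := by
    intro d j
    rw [Polynomial.X_dvd_iff, Polynomial.coeff_zero_eq_eval_zero, ← coe_evalRingHom, evc_comp]
    have e1 : (evalRingHom (0 : K)).comp C = RingHom.id K := by ext r; simp
    have e2 : (fun j => evalRingHom (0 : K) (C (z j) + C (d j - z j) * X)) = z := by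
      funext j; simp
    rw [e1, e2, hz, b5, kap_xx]
  have hdiv : X ^ (Δ.totalDegree + 1) ∣
      (et.mapMatrix (Jac φ)).det - (et.mapMatrix (Jac α)).det := by
    refine det_dvd _ _ _ (fun i k => ?_)
    simp only [RingHom.mapMatrix_apply, Matrix.map_apply, Jac, Matrix.of_apply]
    rw [← map_sub, ← map_sub, b6, ← map_sub, chain α b2, map_sum]
    refine Finset.dvd_sum (fun j _ => ?_)
    rw [map_mul]
    refine Dvd.dvd.mul_right ?_ _
    refine om_dd (et.comp (til α)) (fun l => ?_) (fun l => ?_) (b7 i) j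
    · simpa [het] using hX c l
    · simpa [het] using hX c' l
  have heq : (et.mapMatrix (Jac φ)).det = C e := by
    rw [← heU] at hdiv
    have := Polynomial.eq_zero_of_dvd_of_natDegree_lt hdiv (by
      rw [natDegree_X_pow, natDegree_sub_C]; omega)
    exact sub_eq_zero.1 this
  have h1 : (evalRingHom (1 : K)).comp et = ev2 (RingHom.id K) c c' := by
    rw [het, ev2_comp]
    congr 1
    · ext r; simp
    · funext j; simp
    · funext j; simp
  have h2 : ((ev2 (RingHom.id K) c c').mapMatrix (Jac φ)).det ≠ 0 := by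
    rw [← h1]
    have := RingHom.map_det (evalRingHom (1 : K)) (et.mapMatrix (Jac φ))
    rw [show ((evalRingHom (1 : K)).comp et).mapMatrix (Jac φ) =
      (evalRingHom (1 : K)).mapMatrix (et.mapMatrix (Jac φ)) from rfl, ← this, heq]
    simpa using he.ne_zero
  by_contra hne
  apply h2
  rw [← Matrix.exists_mulVec_eq_zero_iff]
  refine ⟨c - c', sub_ne_zero.2 hne, ?_⟩
  funext i
  have := ev_diff (RingHom.id K) c c' (φ (xx i))
  rw [hc, sub_self] at this
  simpa [Matrix.mulVec, dotProduct, Jac] using this.symm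

noncomputable def tr (c : σ → K) : NC K σ →+* NC K σ :=
  liftR CC (fun j => xx j + CC (c j)) (fun r _ => CC_central r _)

@[simp] theorem tr_CC (c : σ → K) (r : K) : tr c (CC r) = CC r := by simp [tr]

@[simp] theorem tr_xx (c : σ → K) (j : σ) : tr c (xx j) = xx j + CC (c j) := by simp [tr]

theorem tr_tr (c d : σ → K) (h : ∀ j, c j + d j = 0) (a : NC K σ) : tr c (tr d a) = a := by
  induction a using ind with
  | hC s => simp
  | hadd a b ha hb => simp [ha, hb]
  | hx j a ha =>
    rw [map_mul, map_mul, ha, tr_xx, map_add, tr_xx, tr_CC, add_assoc, ← map_add, h, map_zero,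
      add_zero]

theorem bij_right (φ : NC K σ →+* NC K σ) (h : ∀ m, Dat φ false m) : Function.Bijective φ := by
  have key : ∀ m, ∃ c : σ → K, (∀ i, evc (RingHom.id K) c (φ (xx i)) = 0) ∧
      ∃ α β : NC K σ →+* NC K σ, (∀ r, α (CC r) = CC r) ∧ (∀ r, β (CC r) = CC r) ∧
      (∀ a, α (β a) = a) ∧ (∀ a, β (α a) = a) ∧ (∀ j, kap (β (xx j)) = 0) ∧
      (∀ j, kap (tr c (φ (xx j))) = 0) ∧ ∀ j, Fil m (tr c (φ (xx j)) - α (xx j)) := by
    intro m
    obtain ⟨ψ, α, β, b1, b2, b3, b4, b5, b6, b7⟩ := h (m + 1)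
    simp only [Bool.false_eq_true, if_false] at b6
    let z : σ → K := fun j => kap (β (xx j))
    have hz : ∀ a, evc (RingHom.id K) z a = kap (β a) := by
      intro a
      induction a using ind with
      | hC s => simp [b3]
      | hadd a c ha hc => simp [ha, hc]
      | hx j a ha => simp [ha, z]
    have h0 : ∀ j, kap (ψ (xx j)) = 0 := fun j => by simpa using (fil_succ.1 (b7 j)).1
    have e1 : ∀ j, kap ((β.comp (tr (-z))) (xx j)) = 0 := by
      intro j; simp [b3, z]
    have e2 : ∀ a, kap (((tr z).comp α) a) = kap a := by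
      intro a
      rw [← kap_hom (β.comp (tr (-z))) (fun r => by simp [b3]) e1]
      simp [tr_tr (-z) z (by simp), b5]
    refine ⟨z, fun i => by rw [hz, b6, b5, h0], (tr z).comp α, β.comp (tr (-z)),
      fun r => by simp [b2], fun r => by simp [b3],
      fun a => by simp [b4, tr_tr z (-z) (by simp)],
      fun a => by simp [b5, tr_tr (-z) z (by simp)], e1, fun j => ?_, fun j => ?_⟩
    · rw [b6, ← h0 j]; exact e2 _
    · have := ((b7 j).hom ((tr z).comp α) (fun j => by rw [e2, kap_xx])).mono (Nat.le_succ m)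
      rw [map_sub] at this
      rw [b6]
      exact this
  have hφ : ∀ r, φ (CC r) = CC r := by
    obtain ⟨ψ, α, β, b1, b2, b3, b4, b5, b6, b7⟩ := h 0
    intro r
    simp [b6, b1, b2]
  obtain ⟨c, hc, -, -, -, -, -, -, -, hc0, -⟩ := key 0
  have hb : Function.Bijective ((tr c).comp φ) := by
    refine core _ (fun r => by simp [hφ]) hc0 (fun m => ?_)
    obtain ⟨c', hc', α, β, e1, e2, e3, e4, e5, -, e7⟩ := key m
    have : c' = c := pt_inj φ h c' c (fun i => by rw [hc, hc'])
    subst this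
    exact ⟨α, β, e1, e2, e3, e4, e5, e7⟩
  have h1 : Function.Bijective (tr c) := Function.bijective_iff_has_inverse.2
    ⟨tr (-c), tr_tr (-c) c (by simp), tr_tr c (-c) (by simp)⟩
  exact (Function.Bijective.of_comp_iff' h1 φ).1 hb

theorem Dat.mono {φ : NC K σ →+* NC K σ} {l : Bool} {m m' : ℕ} (h : Dat φ l m) (hm : m' ≤ m) :
    Dat φ l m' := by
  obtain ⟨ψ, α, β, b1, b2, b3, b4, b5, b6, b7⟩ := h
  exact ⟨ψ, α, β, b1, b2, b3, b4, b5, b6, fun j => (b7 j).mono hm⟩

theorem bij_both (φ : NC K σ →+* NC K σ) (h : ∀ m, 1 ≤ m → Dat φ true m ∨ Dat φ false m) :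
    Function.Bijective φ := by
  by_cases h1 : ∀ m, Dat φ true m
  · exact bij_left φ h1
  · push Not at h1
    obtain ⟨m0, hm0⟩ := h1
    refine bij_right φ (fun m => ?_)
    rcases h (m + m0 + 1) (by omega) with h2 | h2
    · exact absurd (h2.mono (by omega)) hm0
    · exact h2.mono (by omega)

end Pool.Agent.H3.GE
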