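import Pool.Agent.H3.GE8

set_option autoImplicit false

namespace Pool.Agent.H3.GE

universe u

variable {K : Type u} [Field K] {σ : Type}

noncomputable def eqv : FreeAlgebra K σ ≃ₐ[K] NC K σ := FreeAlgebra.equivMonoidAlgebraFreeMonoid

theorem eqv_iota (j : σ) : eqv (FreeAlgebra.ι K j) = xx j := by
  simp [eqv, FreeAlgebra.equivMonoidAlgebraFreeMonoid, xx]

theorem eqv_symm_xx (j : σ) : eqv.symm (xx j) = FreeAlgebra.ι K j := by
  rw [← eqv_iota, AlgEquiv.symm_apply_apply]

theorem CC_eq (r : K) : (CC r : NC K σ) = algebraMap K _ r := rfl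

noncomputable def trf (f : FreeAlgebra K σ →ₐ[K] FreeAlgebra K σ) : NC K σ →+* NC K σ :=
  ((eqv.toAlgHom.comp f).comp eqv.symm.toAlgHom).toRingHom

theorem trf_apply (f : FreeAlgebra K σ →ₐ[K] FreeAlgebra K σ) (a : NC K σ) :
    trf f a = eqv (f (eqv.symm a)) := rfl

theorem trf_CC (f : FreeAlgebra K σ →ₐ[K] FreeAlgebra K σ) (r : K) : trf f (CC r) = CC r := by
  rw [trf_apply, CC_eq, AlgEquiv.commutes, AlgHom.commutes, AlgEquiv.commutes]

theorem fil_word (l : List σ) : Fil l.length (eqv (l.map (FreeAlgebra.ι K)).prod) := by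
  induction l with
  | nil => exact Fil.zero _
  | cons j l ih =>
    rw [List.map_cons, List.prod_cons, map_mul, eqv_iota]
    exact ih.xx_mul j

theorem fil_span (m : ℕ) (a : FreeAlgebra K σ)
    (ha : a ∈ Submodule.span K
      {w | ∃ l : List σ, m ≤ l.length ∧ w = (l.map (FreeAlgebra.ι K)).prod}) :
    Fil m (eqv a) := by
  induction ha using Submodule.span_induction with
  | mem x hx =>
    obtain ⟨l, hl, rfl⟩ := hx
    exact (fil_word l).mono hl
  | zero => rw [map_zero]; exact Fil.zero' m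
  | add x y _ _ hx hy => rw [map_add]; exact hx.add hy
  | smul c x _ hx => rw [map_smul, smul_eq_CC]; exact hx.CC_mul c

theorem good_bij [DecidableEq σ] [Fintype σ] (φ : FreeAlgebra K σ →ₐ[K] FreeAlgebra K σ)
    (h : ∀ m : ℕ, 1 ≤ m → ∃ (ψ : FreeAlgebra K σ →ₐ[K] FreeAlgebra K σ)
      (α : FreeAlgebra K σ ≃ₐ[K] FreeAlgebra K σ),
      (φ = ψ.comp α.toAlgHom ∨ φ = α.toAlgHom.comp ψ) ∧
      ∀ i, ψ (FreeAlgebra.ι K i) - FreeAlgebra.ι K i ∈ Submodule.span K
        {w | ∃ l : List σ, m ≤ l.length ∧ w = (l.map (FreeAlgebra.ι K)).prod}) :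
    Function.Bijective φ := by
  have hb : Function.Bijective (trf φ) := by
    refine bij_both _ (fun m hm => ?_)
    obtain ⟨ψ, α, h1, h2⟩ := h m hm
    have h3 : ∀ j, Fil m (trf ψ (xx j) - xx j) := by
      intro j
      have := fil_span m _ (h2 j)
      rwa [map_sub, eqv_iota, ← eqv_symm_xx] at this
    rcases h1 with h1 | h1
    · left
      exact ⟨trf ψ, trf α.toAlgHom, trf α.symm.toAlgHom, trf_CC _, trf_CC _, trf_CC _,
        fun a => by simp [trf_apply], fun a => by simp [trf_apply],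
        fun a => by simp [trf_apply, h1], h3⟩
    · right
      exact ⟨trf ψ, trf α.toAlgHom, trf α.symm.toAlgHom, trf_CC _, trf_CC _, trf_CC _,
        fun a => by simp [trf_apply], fun a => by simp [trf_apply],
        fun a => by simp [trf_apply, h1], h3⟩
  have : (φ : FreeAlgebra K σ → FreeAlgebra K σ) = eqv.symm ∘ trf φ ∘ eqv := by
    funext a; simp [trf_apply]
  rw [this]
  exact eqv.symm.bijective.comp (hb.comp eqv.bijective)

end Pool.Agent.H3.GE
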