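import Pool.Agent.H3.PsDefs

open scoped Manifold ContDiff

namespace Pool.Agent.H3.Ps

variable {E : Type} [NormedAddCommGroup E] [NormedSpace ℝ E]
  {M : Type} [TopologicalSpace M] [ChartedSpace E M]

/-- `g` has indefinite signature at every point. -/
def IsIndefinite (g : Form E M) : Prop :=
  ∀ m, (∃ u, 0 < g m u u) ∧ ∃ u, g m u u < 0

/-- `h` is a smooth Riemannian metric. -/
def IsRiemannian (h : Form E M) : Prop :=
  IsMetric h ∧ ∀ m u, u ≠ 0 → 0 < h m u u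

variable (E) in
/-- The velocity vector `γ'(t)` of a curve. -/
noncomputable def vel (γ : ℝ → M) (t : ℝ) : Tan E (γ t) :=
  mfderiv 𝓘(ℝ, ℝ) 𝓘(ℝ, E) γ t (1 : ℝ)

/-- `γ` is smooth at `t` and satisfies the geodesic equation `y'' + Γ(y', y') = 0` at `t` in every
chart around `γ t`. -/
def IsGeodesicAt (g : Form E M) (γ : ℝ → M) (t : ℝ) : Prop :=
  ContMDiffAt 𝓘(ℝ, ℝ) 𝓘(ℝ, E) ∞ γ t ∧ ∀ c, γ t ∈ (chartAt E c).source →
    IsChristoffel (formIn g c) (chartAt E c (γ t)) (deriv (chartAt E c ∘ γ) t)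
      (deriv (chartAt E c ∘ γ) t) (-deriv (deriv (chartAt E c ∘ γ)) t)

/-- `γ : ℝ → M` is a geodesic defined on all of `ℝ`. -/
def IsGeodesic (g : Form E M) (γ : ℝ → M) : Prop := ∀ t, IsGeodesicAt g γ t

variable (E) in
/-- `γ(0) = m` and `γ'(0) = v`. -/
def StartsAt (γ : ℝ → M) (m : M) (v : Tan E m) : Prop :=
  (⟨γ 0, vel E γ 0⟩ : TangentBundle 𝓘(ℝ, E) M) = ⟨m, v⟩

/-- Geodesic completeness: every tangent vector is the initial velocity of a geodesic defined on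
`ℝ`, and every geodesic on an interval `(a, b)` extends to a geodesic defined on `ℝ`. -/
def IsGeodComplete (g : Form E M) : Prop :=
  (∀ m v, ∃ γ, IsGeodesic g γ ∧ StartsAt E γ m v) ∧
    ∀ (a b : ℝ) (γ : ℝ → M), (∀ t ∈ Set.Ioo a b, IsGeodesicAt g γ t) →
      ∃ δ, IsGeodesic g δ ∧ Set.EqOn δ γ (Set.Ioo a b)

/-- A light-like geodesic: non-constant, with null velocity. -/
def IsLightLike (g : Form E M) (γ : ℝ → M) : Prop :=
  IsGeodesic g γ ∧ (∃ s t, γ s ≠ γ t) ∧ ∀ t, g _ (vel E γ t) (vel E γ t) = 0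

/-- `η` is a smooth `1`-form which is not identically zero. -/
def IsNontrivialOneForm (η : ∀ m : M, Tan E m →ₗ[ℝ] ℝ) : Prop :=
  (∀ c u, ContDiffOn ℝ ∞ (fun y => η _ (up E c y u)) (chartAt E c).target) ∧ ∃ m, η m ≠ 0

/-- `η(γ'(t)) = C₁ t + C₂` for all `t`. -/
def IsAffineAlong (η : ∀ m : M, Tan E m →ₗ[ℝ] ℝ) (γ : ℝ → M) (C₁ C₂ : ℝ) : Prop :=
  ∀ t, η _ (vel E γ t) = C₁ * t + C₂

/-- The orbit `{γ_v'(t) : t ∈ ℝ}` of `v` under the geodesic flow of `g` is `h`-bounded. -/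
def BoundedOrbit (g h : Form E M) (m : M) (v : Tan E m) : Prop :=
  ∀ γ, IsGeodesic g γ → StartsAt E γ m v → ∃ R, ∀ t, h _ (vel E γ t) (vel E γ t) ≤ R

/-- `P` holds for almost every tangent vector: Lebesgue almost everywhere in every chart. -/
def AlmostEvery [MeasureTheory.MeasureSpace E] (P : ∀ m : M, Tan E m → Prop) : Prop :=
  ∀ c : M, ∀ᵐ q : E × E, q.1 ∈ (chartAt E c).target → P _ (up E c q.1 q.2)

end Pool.Agent.H3.Ps
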