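import Mathlib

set_option autoImplicit false

namespace Pool.Agent.H3.Hamm

open Finset

/-- greedy colouring -/
theorem greedy {V : Type} [Fintype V] (G : SimpleGraph V) [DecidableRel G.Adj] (k : ℕ)
    (hk : G.maxDegree < k) : G.Colorable k := by
  classical
  have key : ∀ S : Finset V, ∃ f : V → Fin k, ∀ x ∈ S, ∀ y ∈ S, G.Adj x y → f x ≠ f y := by
    intro S
    induction S using Finset.induction_on with
    | empty => exact ⟨fun _ => ⟨0, by omega⟩, by simp⟩
    | insert v S hv ih =>
      obtain ⟨f, hf⟩ := ih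
      have hc : ((G.neighborFinset v).image f).card < (univ : Finset (Fin k)).card := by
        have h1 := Finset.card_image_le (s := G.neighborFinset v) (f := f)
        have h2 := G.degree_le_maxDegree v
        rw [SimpleGraph.card_neighborFinset_eq_degree] at h1
        simp only [card_univ, Fintype.card_fin]
        omega
      obtain ⟨a, -, ha⟩ := Finset.exists_mem_notMem_of_card_lt_card hc
      have ha' : ∀ y, G.Adj v y → f y ≠ a := by
        intro y hy h
        exact ha (Finset.mem_image.2 ⟨y, by simpa using hy, h⟩)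
      refine ⟨Function.update f v a, ?_⟩
      intro x hx y hy hxy
      by_cases hxv : x = v
      · subst hxv
        have hyx : y ≠ x := hxy.ne'
        rw [Function.update_self, Function.update_of_ne hyx]
        exact (ha' y hxy).symm
      · by_cases hyv : y = v
        · subst hyv
          rw [Function.update_self, Function.update_of_ne hxv]
          exact ha' x hxy.symm
        · rw [Function.update_of_ne hxv, Function.update_of_ne hyv]
          exact hf x (by simpa [hxv] using hx) y (by simpa [hyv] using hy) hxy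
  obtain ⟨f, hf⟩ := key univ
  exact ⟨SimpleGraph.Coloring.mk f (fun {x y} h => hf x (mem_univ _) y (mem_univ _) h)⟩

variable {n l q : ℕ}

/-- points of the grid -/
abbrev P (n l : ℕ) := Fin (n + 1) → Fin l

/-- two points on a common axis-parallel line are joined when their colours on it differ -/
def gr (c : Fin (n + 1) → P n l → Fin q) : SimpleGraph (P n l) where
  Adj x y := ∃ i, (∀ j, j ≠ i → x j = y j) ∧ c i x ≠ c i y
  symm := ⟨fun _ _ ⟨i, h1, h2⟩ => ⟨i, fun j hj => (h1 j hj).symm, h2.symm⟩⟩
  loopless := ⟨fun _ ⟨_, _, h⟩ => h rfl⟩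

def D (x y : P n l) (i : Fin (n + 1)) : Prop := (∀ j, j ≠ i → x j = y j) ∧ x ≠ y

theorem D.ne {x y : P n l} {i : Fin (n + 1)} (h : D x y i) : x i ≠ y i := by
  intro e
  apply h.2
  funext j
  by_cases hj : j = i
  · rw [hj]; exact e
  · exact h.1 j hj

theorem D.symm {x y : P n l} {i : Fin (n + 1)} (h : D x y i) : D y x i :=
  ⟨fun j hj => (h.1 j hj).symm, h.2.symm⟩

theorem tri {x y z : P n l} {i j : Fin (n + 1)} (h1 : D x y i) (h2 : D x z j)
    (h3 : z = y ∨ ∃ m, D y z m) : i = j := by
  by_contra hij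
  rcases h3 with h3 | ⟨m, h3⟩
  · subst h3
    exact h1.ne (h2.1 i hij)
  · have a1 : y i ≠ z i := by
      rw [← h2.1 i hij]; exact h1.ne.symm
    have a2 : y j ≠ z j := by
      rw [← h1.1 j (Ne.symm hij)]; exact h2.ne
    have b1 : i = m := by
      by_contra hh; exact a1 (h3.1 i hh)
    have b2 : j = m := by
      by_contra hh; exact a2 (h3.1 j hh)
    exact hij (b1.trans b2.symm)

theorem free (c : Fin (n + 1) → P n l → Fin q) (hq : 1 ≤ q) :
    (⊤ : SimpleGraph (Fin (q + 1))).Free (gr c) := by
  rintro ⟨f⟩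
  have hadj : ∀ a b : Fin (q + 1), a ≠ b → ∃ i, D (f a) (f b) i ∧ c i (f a) ≠ c i (f b) := by
    intro a b hab
    have h : (gr c).Adj (f a) (f b) := f.toHom.map_adj (by simpa using hab)
    obtain ⟨i, h1, h2⟩ := h
    exact ⟨i, ⟨h1, fun e => h2 (by rw [e])⟩, h2⟩
  let o : Fin (q + 1) := ⟨1, by omega⟩
  have ho : (0 : Fin (q + 1)) ≠ o := by
    intro h; have := congrArg Fin.val h; simp [o] at this
  obtain ⟨i, hi, -⟩ := hadj 0 o ho
  have hor : ∀ a b : Fin (q + 1), f b = f a ∨ ∃ m, D (f a) (f b) m := by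
    intro a b
    by_cases hab : a = b
    · left; rw [hab]
    · obtain ⟨m, hm, -⟩ := hadj a b hab
      exact Or.inr ⟨m, hm⟩
  have h0 : ∀ b j, D (f 0) (f b) j → i = j := fun b j hj => tri hi hj (hor o b)
  have hall : ∀ a b j, D (f a) (f b) j → i = j := by
    intro a b j hj
    by_cases ha : a = 0
    · subst ha; exact h0 b j hj
    · obtain ⟨m, hm, -⟩ := hadj a 0 ha
      have e1 : m = j := tri hm hj (hor 0 b)
      rw [← e1]
      exact h0 a m hm.symm
  have hinj : Function.Injective (fun a : Fin (q + 1) => c i (f a)) := by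
    intro a b hab
    by_contra hne
    obtain ⟨j, hj, hc⟩ := hadj a b hne
    rw [← hall a b j hj] at hc
    exact hc hab
  have := Fintype.card_le_of_injective _ hinj
  simp at this

theorem deg_le (c : Fin (n + 1) → P n l → Fin q) [DecidableRel (gr c).Adj] :
    (gr c).maxDegree ≤ (n + 1) * l := by
  classical
  apply SimpleGraph.maxDegree_le_of_forall_degree_le
  intro x
  rw [← SimpleGraph.card_neighborFinset_eq_degree]
  have hsub : (gr c).neighborFinset x ⊆
      (univ : Finset (Fin (n + 1) × Fin l)).image (fun p => Function.update x p.1 p.2) := by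
    intro y hy
    rw [SimpleGraph.mem_neighborFinset] at hy
    obtain ⟨i, h1, -⟩ := hy
    refine Finset.mem_image.2 ⟨(i, y i), mem_univ _, ?_⟩
    funext j
    by_cases hj : j = i
    · subst hj; simp
    · simp [Function.update_of_ne hj, h1 j hj]
  calc _ ≤ _ := Finset.card_le_card hsub
    _ ≤ (univ : Finset (Fin (n + 1) × Fin l)).card := Finset.card_image_le
    _ = (n + 1) * l := by simp

theorem count (k : ℕ) (hq : 1 ≤ q) (h : ∀ c : Fin (n + 1) → P n l → Fin q, (gr c).Colorable k) :
    q ^ (l ^ (n + 1) * (n + 1)) ≤ k ^ (l ^ (n + 1)) * q ^ (k * l ^ n * (n + 1)) := by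
  classical
  have hφ : ∀ c : Fin (n + 1) → P n l → Fin q, ∃ φ : P n l → Fin k,
      ∀ x y, (gr c).Adj x y → φ x ≠ φ y := by
    intro c
    obtain ⟨C⟩ := h c
    exact ⟨C, fun x y hxy => C.valid hxy⟩
  choose φ hφ using hφ
  let g : (Fin (n + 1) → P n l → Fin q) → Fin (n + 1) → (Fin n → Fin l) → Fin k → Fin q :=
    fun c i y a => if hh : ∃ x : P n l, Fin.removeNth i x = y ∧ φ c x = a then c i hh.choose
      else ⟨0, hq⟩
  have hg : ∀ c i x, c i x = g c i (Fin.removeNth i x) (φ c x) := by
    intro c i x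
    have hh : ∃ z : P n l, Fin.removeNth i z = Fin.removeNth i x ∧ φ c z = φ c x := ⟨x, rfl, rfl⟩
    simp only [g, dif_pos hh]
    obtain ⟨h1, h2⟩ := hh.choose_spec
    by_contra hne
    apply hφ c hh.choose x _ h2
    refine ⟨i, ?_, fun e => hne e.symm⟩
    intro j hj
    obtain ⟨m, rfl⟩ := Fin.exists_succAbove_eq hj
    exact congrFun h1 m
  have hinj : Function.Injective (fun c => (φ c, g c)) := by
    intro c d hcd
    simp only [Prod.mk.injEq] at hcd
    funext i x
    rw [hg c i x, hg d i x, hcd.1, hcd.2]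
  have := Fintype.card_le_of_injective _ hinj
  simp only [Fintype.card_prod, Fintype.card_fun, Fintype.card_fin, ← pow_mul] at this
  exact this

theorem exists_graph (q u : ℕ) (hq : 2 ≤ q) :
    ∃ c : Fin (2 * u + 1 + 1) → P (2 * u + 1) (2 * q ^ u) → Fin q, ¬ (gr c).Colorable (q ^ u) := by
  by_contra hcon
  push Not at hcon
  have h := count (q ^ u) (by omega) hcon
  set k := q ^ u with hk
  set N := (2 * k) ^ (2 * u + 1 + 1) with hN
  have hk0 : 0 < k := by positivity
  have hN0 : 0 < N := by positivity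
  have e1 : k * (2 * k) ^ (2 * u + 1) * (2 * u + 1 + 1) = N * (u + 1) := by
    rw [hN]; ring
  have e2 : N * (2 * u + 1 + 1) = N * (u + 1) + N * (u + 1) := by ring
  rw [e1, e2, pow_add] at h
  have h2 : q ^ (N * (u + 1)) ≤ k ^ N := Nat.le_of_mul_le_mul_right h (by positivity)
  rw [hk, ← pow_mul] at h2
  have h3 := (Nat.pow_le_pow_iff_right (by omega : 1 < q)).1 h2
  nlinarith

end Pool.Agent.H3.Hamm
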