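import Pool.Agent.H3.LensDefs

open MeasureTheory Set InnerProductGeometry

namespace Pool.Agent.H3.Lens

theorem inner_eq (x y : V) : inner ℝ x y = x 0 * y 0 + x 1 * y 1 + x 2 * y 2 + x 3 * y 3 := by
  simp [PiLp.inner_apply, Fin.sum_univ_four]; ring

def om (x y : V) : ℝ := - x 0 * y 1 + x 1 * y 0 - x 2 * y 3 + x 3 * y 2

theorem rot0 (θ : ℝ) (x : V) : rot θ x 0 = Real.cos θ * x 0 - Real.sin θ * x 1 := by simp [rot]
theorem rot1 (θ : ℝ) (x : V) : rot θ x 1 = Real.sin θ * x 0 + Real.cos θ * x 1 := by simp [rot]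
theorem rot2 (θ : ℝ) (x : V) : rot θ x 2 = Real.cos θ * x 2 - Real.sin θ * x 3 := by simp [rot]
theorem rot3 (θ : ℝ) (x : V) : rot θ x 3 = Real.sin θ * x 2 + Real.cos θ * x 3 := by simp [rot]

theorem ext4 {x y : V} (h0 : x 0 = y 0) (h1 : x 1 = y 1) (h2 : x 2 = y 2) (h3 : x 3 = y 3) :
    x = y := by
  ext i; fin_cases i
  · exact h0
  · exact h1
  · exact h2
  · exact h3

theorem inner_rot (θ : ℝ) (x y : V) :
    inner ℝ x (rot θ y) = Real.cos θ * inner ℝ x y + Real.sin θ * om x y := by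
  simp only [inner_eq, rot0, rot1, rot2, rot3, om]; ring

theorem rot_rot (a b : ℝ) (x : V) : rot a (rot b x) = rot (a + b) x := by
  apply ext4 <;> simp only [rot0, rot1, rot2, rot3, Real.cos_add, Real.sin_add] <;> ring

theorem rot_zero (x : V) : rot 0 x = x := by
  apply ext4 <;> simp [rot0, rot1, rot2, rot3]

theorem inner_rot_rot (a b : ℝ) (x y : V) :
    inner ℝ (rot a x) (rot b y) = inner ℝ x (rot (b - a) y) := by
  simp only [inner_eq, rot0, rot1, rot2, rot3, Real.cos_sub, Real.sin_sub]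
  ring

theorem om_self (x : V) : om x x = 0 := by simp only [om]; ring

theorem norm_rot (a : ℝ) (x : V) : ‖rot a x‖ = ‖x‖ := by
  have h : inner ℝ (rot a x) (rot a x) = inner ℝ x x := by
    rw [inner_rot_rot, sub_self, rot_zero]
  rw [real_inner_self_eq_norm_sq, real_inner_self_eq_norm_sq] at h
  exact (pow_left_inj₀ (norm_nonneg _) (norm_nonneg _) two_ne_zero).1 h

theorem rot_add_int (a : ℝ) (m : ℤ) (x : V) : rot (a + m * (2 * Real.pi)) x = rot a x := by
  apply ext4 <;> simp only [rot0, rot1, rot2, rot3, Real.cos_add_int_mul_two_pi,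
    Real.sin_add_int_mul_two_pi]

theorem continuous_rot (a : ℝ) : Continuous (rot a) := by
  unfold rot
  fun_prop

theorem norm_S3 (x : S3) : ‖(x : V)‖ = 1 := by simpa using x.2

theorem inner_self_S3 (x : S3) : inner ℝ (x : V) x = 1 := by
  rw [real_inner_self_eq_norm_sq, norm_S3]; norm_num

/-- The deck transformation. -/
noncomputable def act (p : ℕ) (k : ℤ) (x : S3) : S3 :=
  ⟨rot (2 * Real.pi * k / p) x, by simp [norm_rot]⟩

theorem act_coe (p : ℕ) (k : ℤ) (x : S3) : (act p k x : V) = rot (2 * Real.pi * k / p) x := rfl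

theorem act_act (p : ℕ) (k l : ℤ) (x : S3) : act p k (act p l x) = act p (k + l) x := by
  apply Subtype.ext
  simp only [act_coe, rot_rot]
  congr 1
  push_cast; ring

theorem act_zero (p : ℕ) (x : S3) : act p 0 x = x := by
  apply Subtype.ext
  simp [act_coe, rot_zero]

theorem continuous_act (p : ℕ) (k : ℤ) : Continuous (act p k) :=
  Continuous.subtype_mk ((continuous_rot _).comp continuous_subtype_val) _

theorem act_emod {p : ℕ} (hp : p ≠ 0) (k : ℤ) (x : S3) : act p (k % p) x = act p k x := by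
  apply Subtype.ext
  simp only [act_coe]
  rw [← rot_add_int (2 * Real.pi * ((k % p : ℤ) : ℝ) / p) (k / p)]
  congr 1
  have h := Int.emod_add_mul_ediv k p
  have h' : ((k % p : ℤ) : ℝ) + (p : ℝ) * ((k / p : ℤ) : ℝ) = k := by exact_mod_cast h
  have hp' : (p : ℝ) ≠ 0 := by exact_mod_cast hp
  rw [← h']
  field_simp

theorem exists_range {p : ℕ} (hp : p ≠ 0) (k : ℤ) :
    ∃ r ∈ Finset.range p, ∀ x, act p (r : ℤ) x = act p k x := by
  have hp' : (p : ℤ) ≠ 0 := by exact_mod_cast hp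
  refine ⟨(k % p).toNat, ?_, fun x => ?_⟩
  · have h1 := Int.emod_nonneg k hp'
    have h2 := Int.emod_lt_of_pos k (show (0 : ℤ) < p by omega)
    simp only [Finset.mem_range]; omega
  · rw [Int.toNat_of_nonneg (Int.emod_nonneg k hp'), act_emod hp]

theorem rel_iff (p : ℕ) (x y : S3) : Rel p x y ↔ ∃ k, y = act p k x := by
  constructor
  · rintro ⟨k, hk⟩; exact ⟨k, Subtype.ext hk⟩
  · rintro ⟨k, hk⟩; exact ⟨k, by rw [hk]; rfl⟩

theorem rel_equiv (p : ℕ) : Equivalence (Rel p) := by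
  refine ⟨fun x => (rel_iff p x x).2 ⟨0, (act_zero p x).symm⟩, fun {x y} h => ?_,
    fun {x y z} h h' => ?_⟩
  · obtain ⟨k, rfl⟩ := (rel_iff p x y).1 h
    exact (rel_iff _ _ _).2 ⟨-k, by rw [act_act, neg_add_cancel, act_zero]⟩
  · obtain ⟨k, rfl⟩ := (rel_iff p x y).1 h
    obtain ⟨l, rfl⟩ := (rel_iff p _ z).1 h'
    exact (rel_iff _ _ _).2 ⟨l + k, by rw [act_act]⟩

theorem proj_eq_iff (p : ℕ) (x y : S3) : proj p x = proj p y ↔ ∃ k, y = act p k x := by
  rw [← rel_iff]
  constructor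
  · intro h
    exact (rel_equiv p).eqvGen_iff.1 (Quot.eqvGen_exact h)
  · intro h; exact Quot.sound h

theorem proj_act (p : ℕ) (k : ℤ) (x : S3) : proj p (act p k x) = proj p x :=
  ((proj_eq_iff p _ _).2 ⟨k, rfl⟩).symm

theorem proj_surj (p : ℕ) (a : Lens p) : ∃ x, proj p x = a := Quot.exists_rep a

theorem act_ne {p : ℕ} {r : ℕ} (h1 : r ≠ 0) (h2 : r < p) (x : S3) : act p r x ≠ x := by
  intro h
  have h3 : inner ℝ (x : V) (act p r x : V) = 1 := by rw [h, inner_self_S3]
  rw [act_coe, inner_rot, inner_self_S3, om_self, mul_zero, add_zero, mul_one] at h3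
  have hp : (0 : ℝ) < p := by exact_mod_cast (by omega : 0 < p)
  have hr : (0 : ℝ) < r := by exact_mod_cast Nat.pos_of_ne_zero h1
  have hrp : (r : ℝ) < p := by exact_mod_cast h2
  have hpos : 0 < 2 * Real.pi * ((r : ℤ) : ℝ) / p := by
    have := Real.pi_pos; push_cast; positivity
  have hlt : 2 * Real.pi * ((r : ℤ) : ℝ) / p < 2 * Real.pi := by
    have := Real.pi_pos
    rw [div_lt_iff₀ hp]; push_cast; nlinarith
  have := (Real.cos_eq_one_iff_of_lt_of_lt (by linarith [Real.pi_pos]) hlt).1 h3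
  linarith

theorem angle_S3 (x y : S3) : angle (x : V) y = Real.arccos (inner ℝ (x : V) y) := by
  simp [angle, norm_S3]

theorem inner_act_act (p : ℕ) (k l : ℤ) (x y : S3) :
    inner ℝ (act p k x : V) (act p l y) = inner ℝ (x : V) (act p (l - k) y) := by
  simp only [act_coe, inner_rot_rot]
  congr 2
  push_cast; ring

/-- `y` is a closest point to `x` in its orbit. -/
def Close (p : ℕ) (x y : S3) : Prop :=
  ∀ k : ℤ, inner ℝ (x : V) (act p k y) ≤ inner ℝ (x : V) y

theorem Close.symm {p : ℕ} {x y : S3} (h : Close p x y) : Close p y x := by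
  intro k
  have h1 := inner_act_act p k 0 x y
  rw [act_zero] at h1
  rw [real_inner_comm, h1, real_inner_comm (x : V)]
  exact h _

theorem exists_close {p : ℕ} (hp : p ≠ 0) (x y : S3) :
    ∃ r ∈ Finset.range p, Close p x (act p r y) := by
  obtain ⟨r, hr, hmax⟩ := Finset.exists_max_image (Finset.range p)
    (fun r : ℕ => inner ℝ (x : V) (act p r y)) ⟨0, by simp; omega⟩
  refine ⟨r, hr, fun k => ?_⟩
  rw [act_act]
  obtain ⟨s, hs, hs'⟩ := exists_range hp (k + r)
  rw [← hs']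
  exact hmax s hs

theorem ldist_isLeast {p : ℕ} {x y : S3} (h : Close p x y) :
    IsLeast {θ | ∃ x' y' : S3, proj p x' = proj p x ∧ proj p y' = proj p y ∧
      θ = angle (x' : V) y'} (angle (x : V) y) := by
  refine ⟨⟨x, y, rfl, rfl, rfl⟩, ?_⟩
  rintro θ ⟨x', y', hx, hy, rfl⟩
  obtain ⟨k, rfl⟩ := (proj_eq_iff p _ _).1 hx.symm
  obtain ⟨l, rfl⟩ := (proj_eq_iff p _ _).1 hy.symm
  rw [angle_S3, angle_S3, inner_act_act]
  exact Real.arccos_le_arccos (h _)

theorem ldist_close {p : ℕ} {x y : S3} (h : Close p x y) :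
    ldist (proj p x) (proj p y) = angle (x : V) y := (ldist_isLeast h).csInf_eq

theorem ldist_le {p : ℕ} (x y : S3) : ldist (proj p x) (proj p y) ≤ angle (x : V) y :=
  csInf_le ⟨0, by rintro θ ⟨x', y', -, -, rfl⟩; exact angle_nonneg _ _⟩ ⟨x, y, rfl, rfl, rfl⟩

theorem ldist_triangle {p : ℕ} (hp : p ≠ 0) (a b c : Lens p) :
    ldist a c ≤ ldist a b + ldist b c := by
  obtain ⟨x, rfl⟩ := proj_surj p a
  obtain ⟨y, rfl⟩ := proj_surj p b
  obtain ⟨z, rfl⟩ := proj_surj p c
  obtain ⟨r, -, hr⟩ := exists_close hp y x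
  obtain ⟨s, -, hs⟩ := exists_close hp y z
  rw [← proj_act p r x, ← proj_act p s z, ldist_close hr.symm, ldist_close hs]
  exact (ldist_le _ _).trans (angle_le_angle_add_angle _ _ _)

theorem ldist_comm {p : ℕ} (hp : p ≠ 0) (a b : Lens p) : ldist a b = ldist b a := by
  obtain ⟨x, rfl⟩ := proj_surj p a
  obtain ⟨y, rfl⟩ := proj_surj p b
  obtain ⟨r, -, hr⟩ := exists_close hp y x
  rw [← proj_act p r x, ldist_close hr.symm, ldist_close hr, angle_comm]

theorem exists_dir (x y : S3) : ∃ u : V, inner ℝ u u = 1 ∧ inner ℝ (x : V) u = 0 ∧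
    (y : V) = Real.cos (angle (x : V) y) • (x : V) + Real.sin (angle (x : V) y) • u := by
  have hc : Real.cos (angle (x : V) y) = inner ℝ (x : V) y := by
    rw [cos_angle, norm_S3, norm_S3]; simp
  have hx := inner_self_S3 x
  have hy := inner_self_S3 y
  have hsc := Real.sin_sq_add_cos_sq (angle (x : V) y)
  have hw : inner ℝ ((y : V) - Real.cos (angle (x : V) y) • (x : V))
      ((y : V) - Real.cos (angle (x : V) y) • (x : V)) = Real.sin (angle (x : V) y) ^ 2 := by
    simp only [inner_sub_left, inner_sub_right, real_inner_smul_left, real_inner_smul_right, hx, hy,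
      real_inner_comm (x : V) y, ← hc]
    nlinarith
  by_cases hs : Real.sin (angle (x : V) y) = 0
  · refine ⟨rot (Real.pi / 2) x, ?_, ?_, ?_⟩
    · rw [inner_rot_rot, sub_self, rot_zero, hx]
    · rw [inner_rot, om_self]; simp
    · rw [hs] at hw
      have : (y : V) - Real.cos (angle (x : V) y) • (x : V) = 0 := by
        apply inner_self_eq_zero (𝕜 := ℝ) |>.1
        rw [hw]; norm_num
      rw [hs, zero_smul, add_zero]
      exact sub_eq_zero.1 this
  · refine ⟨(Real.sin (angle (x : V) y))⁻¹ • ((y : V) - Real.cos (angle (x : V) y) • (x : V)),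
      ?_, ?_, ?_⟩
    · rw [real_inner_smul_left, real_inner_smul_right, hw]; field_simp
    · rw [real_inner_smul_right, inner_sub_right, real_inner_smul_right, hx, ← hc]; simp
    · rw [smul_smul, mul_inv_cancel₀ hs, one_smul]; abel

theorem exists_arc (x y : S3) : ∃ c : ℝ → S3, Continuous c ∧ c 0 = x ∧ c 1 = y ∧
    ∀ s ∈ Icc (0 : ℝ) 1, ∀ t ∈ Icc (0 : ℝ) 1,
      angle (c s : V) (c t) = |s - t| * angle (x : V) y := by
  obtain ⟨u, hu, hxu, hy⟩ := exists_dir x y
  set θ := angle (x : V) y with hθ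
  have hx := inner_self_S3 x
  have key : ∀ s t : ℝ, inner ℝ (Real.cos (s * θ) • (x : V) + Real.sin (s * θ) • u)
      (Real.cos (t * θ) • (x : V) + Real.sin (t * θ) • u) = Real.cos ((s - t) * θ) := by
    intro s t
    simp only [inner_add_left, inner_add_right, real_inner_smul_left, real_inner_smul_right, hx, hu,
      real_inner_comm (x : V) u, hxu, sub_mul, Real.cos_sub]
    ring
  have hmem : ∀ t : ℝ, Real.cos (t * θ) • (x : V) + Real.sin (t * θ) • u ∈
      Metric.sphere (0 : V) 1 := by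
    intro t
    have h := key t t
    rw [sub_self, zero_mul, Real.cos_zero, real_inner_self_eq_norm_sq] at h
    rw [mem_sphere_zero_iff_norm]
    exact (pow_eq_one_iff_of_nonneg (norm_nonneg _) two_ne_zero).1 h
  refine ⟨fun t => ⟨_, hmem t⟩, Continuous.subtype_mk (by fun_prop) _, ?_, ?_, ?_⟩
  · apply Subtype.ext; simp
  · apply Subtype.ext; simp only [one_mul]; exact hy.symm
  · intro s hs t ht
    rw [angle_S3]
    simp only
    have h0 : 0 ≤ θ := angle_nonneg _ _
    have hpi : θ ≤ Real.pi := angle_le_pi _ _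
    have h1 : |s - t| ≤ 1 := abs_le.2 ⟨by linarith [hs.1, ht.2], by linarith [hs.2, ht.1]⟩
    rw [key, ← Real.cos_abs, abs_mul, abs_of_nonneg h0, Real.arccos_cos (by positivity)]
    nlinarith [abs_nonneg (s - t)]

theorem arc_geodesic {p : ℕ} (hp : p ≠ 0) {x y : S3} (h : Close p x y) :
    ∃ c : ℝ → S3, Continuous c ∧ c 0 = x ∧ c 1 = y ∧
      IsMinGeodesic (fun t => proj p (c t)) (proj p x) (proj p y) := by
  obtain ⟨c, hc, h0, h1, ha⟩ := exists_arc x y
  refine ⟨c, hc, h0, h1, by simp only [h0], by simp only [h1], ?_⟩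
  have hle : ∀ s ∈ Icc (0 : ℝ) 1, ∀ t ∈ Icc (0 : ℝ) 1,
      ldist (proj p (c s)) (proj p (c t)) ≤ |s - t| * angle (x : V) y :=
    fun s hs t ht => (ldist_le _ _).trans (ha s hs t ht).le
  have hge : ∀ s ∈ Icc (0 : ℝ) 1, ∀ t ∈ Icc (0 : ℝ) 1, s ≤ t →
      |s - t| * angle (x : V) y ≤ ldist (proj p (c s)) (proj p (c t)) := by
    intro s hs t ht hst
    have e1 := hle 0 (by simp) s hs
    have e2 := hle t ht 1 (by simp)
    have e3 := ldist_triangle hp (proj p (c 0)) (proj p (c s)) (proj p (c 1))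
    have e4 := ldist_triangle hp (proj p (c s)) (proj p (c t)) (proj p (c 1))
    have e5 : ldist (proj p (c 0)) (proj p (c 1)) = angle (x : V) y := by
      rw [h0, h1, ldist_close h]
    rw [abs_of_nonpos (by linarith [hs.1])] at e1
    rw [abs_of_nonpos (by linarith [ht.2])] at e2
    rw [abs_of_nonpos (by linarith)]
    nlinarith
  intro s hs t ht
  rw [ldist_close h]
  refine le_antisymm (hle s hs t ht) ?_
  rcases le_total s t with hst | hst
  · exact hge s hs t ht hst
  · rw [ldist_comm hp, abs_sub_comm]; exact hge t ht s hs hst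

theorem conn {p : ℕ} (P : ℕ → ℝ → Prop) (hcl : ∀ r, IsClosed {t | P r t})
    (hcov : ∀ t ∈ Icc (0 : ℝ) 1, ∃ r ∈ Finset.range p, P r t)
    (hdis : ∀ t ∈ Icc (0 : ℝ) 1, ∀ r, r ≠ 0 → r < p → P 0 t → ¬ P r t) (h0 : P 0 0) :
    P 0 1 := by
  have hU : IsClosed (⋃ r ∈ (Finset.range p).erase 0, {t | P r t}) :=
    isClosed_biUnion_finset fun r _ => hcl r
  have := (isPreconnected_iff_subset_of_disjoint_closed.1 (isPreconnected_Icc (a := (0 : ℝ)) (b := 1)))
    {t | P 0 t} _ (hcl 0) hU ?_ ?_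
  · rcases this with h | h
    · exact h (by simp : (1 : ℝ) ∈ Icc (0 : ℝ) 1)
    · have := h (by simp : (0 : ℝ) ∈ Icc (0 : ℝ) 1)
      simp only [mem_iUnion, Finset.mem_erase, Finset.mem_range, mem_setOf_eq] at this
      obtain ⟨r, ⟨hr0, hrp⟩, hr⟩ := this
      exact absurd hr (hdis 0 (by simp) r hr0 hrp h0)
  · intro t ht
    obtain ⟨r, hr, hP⟩ := hcov t ht
    by_cases hr0 : r = 0
    · left; rw [hr0] at hP; exact hP
    · right
      simp only [mem_iUnion, Finset.mem_erase, mem_setOf_eq]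
      exact ⟨r, ⟨hr0, hr⟩, hP⟩
  · rw [eq_empty_iff_forall_notMem]
    rintro t ⟨ht, h1, h2⟩
    simp only [mem_iUnion, Finset.mem_erase, Finset.mem_range, mem_setOf_eq] at h1 h2
    obtain ⟨r, ⟨hr0, hrp⟩, hr⟩ := h2
    exact hdis t ht r hr0 hrp h1 hr

theorem close_unique {p : ℕ} (hp : p ≠ 0) {Γ : Set (Lens p)} (hΓ : IsGeodConvex Γ) {x y y' : S3}
    (hx : proj p x ∈ Γ) (hy : proj p y ∈ Γ) (hyy : proj p y' = proj p y)
    (h : Close p x y) (h' : Close p x y') : y' = y := by
  obtain ⟨γ, -, -, huniq⟩ := hΓ _ hx _ hy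
  obtain ⟨c, hc, h0, h1, hg⟩ := arc_geodesic hp h
  obtain ⟨c', hc', h0', h1', hg'⟩ := arc_geodesic hp h'
  rw [hyy] at hg'
  have e := conn (p := p) (fun r t => c' t = act p r (c t))
    (fun r => isClosed_eq hc' ((continuous_act p r).comp hc)) ?_ ?_
    (by simp only [h0, h0', Nat.cast_zero, act_zero])
  · simpa only [h1, h1', Nat.cast_zero, act_zero] using e
  · intro t ht
    have e1 : proj p (c t) = proj p (c' t) := (huniq _ hg ht).trans (huniq _ hg' ht).symm
    obtain ⟨k, hk⟩ := (proj_eq_iff p _ _).1 e1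
    obtain ⟨r, hr, hr'⟩ := exists_range hp k
    exact ⟨r, hr, by rw [hr', hk]⟩
  · intro t _ r hr0 hrp e0 er
    simp only [Nat.cast_zero, act_zero] at e0
    exact act_ne hr0 hrp (c t) (er.symm.trans e0)

theorem isClosed_close (p : ℕ) (x : S3) : IsClosed {y | Close p x y} := by
  simp only [Close, setOf_forall]
  refine isClosed_iInter fun k => isClosed_le ?_ ?_
  · exact continuous_const.inner (continuous_subtype_val.comp (continuous_act p k))
  · exact continuous_const.inner continuous_subtype_val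

theorem close_pair {p : ℕ} (hp : p ≠ 0) {Γ : Set (Lens p)} (hΓ : IsGeodConvex Γ) {x y z : S3}
    (hx : proj p x ∈ Γ) (hy : proj p y ∈ Γ) (hz : proj p z ∈ Γ)
    (h : Close p x y) (h' : Close p x z) : Close p y z := by
  obtain ⟨γ, -, hin, huniq⟩ := hΓ _ hx _ hz
  obtain ⟨c, hc, h0, h1, hg⟩ := arc_geodesic hp h'
  have e := conn (p := p) (fun r t => Close p y (act p r (c t)))
    (fun r => (isClosed_close p y).preimage ((continuous_act p r).comp hc)) ?_ ?_
    (by simp only [h0, Nat.cast_zero, act_zero]; exact h.symm)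
  · simpa only [h1, Nat.cast_zero, act_zero] using e
  · intro t _
    exact exists_close hp y (c t)
  · intro t ht r hr0 hrp e0 er
    simp only [Nat.cast_zero, act_zero] at e0
    have hm : proj p (c t) ∈ Γ := by
      have : proj p (c t) = γ t := huniq _ hg ht
      rw [this]; exact hin t ht
    exact act_ne hr0 hrp (c t) (close_unique hp hΓ hy hm (proj_act p r _) e0 er)

theorem om_small {p : ℕ} (hp : 4 ≤ p) {y z : S3} (h : Close p y z) : |om y z| ≤ 8 / p := by
  have hp' : (4 : ℝ) ≤ p := by exact_mod_cast hp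
  have h1 := h 1
  have h2 := h (-1)
  rw [act_coe, inner_rot] at h1 h2
  have e : 2 * Real.pi * ((-1 : ℤ) : ℝ) / p = -(2 * Real.pi * ((1 : ℤ) : ℝ) / p) := by
    push_cast; ring
  rw [e, Real.cos_neg, Real.sin_neg] at h2
  set a := 2 * Real.pi * ((1 : ℤ) : ℝ) / p with ha
  have hpi := Real.pi_pos
  have hpi4 := Real.pi_le_four
  have hpi3 := Real.pi_lt_d2
  have hap : a * p = 2 * Real.pi := by rw [ha]; field_simp; simp
  have ha0 : 0 < a := by rw [ha]; push_cast; positivity
  have ha1 : a ≤ Real.pi / 2 := by nlinarith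
  have hs := Real.mul_le_sin ha0.le ha1
  have hc := Real.one_sub_sq_div_two_le_cos (x := a)
  have hi : inner ℝ (y : V) z ≤ 1 := by
    have := real_inner_le_norm (y : V) z
    rwa [norm_S3, norm_S3, one_mul] at this
  have hc1 := Real.cos_le_one a
  have hs' : 4 / p ≤ Real.sin a := by
    refine le_trans (le_of_eq ?_) hs
    rw [ha]; field_simp; norm_num
  have hb : Real.sin a * |om y z| ≤ a ^ 2 / 2 := by
    have : (1 - Real.cos a) * inner ℝ (y : V) z ≤ a ^ 2 / 2 := by nlinarith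
    rcases abs_cases (om y z) with ⟨e, -⟩ | ⟨e, -⟩ <;> rw [e] <;> nlinarith
  have hb2 : 4 / p * |om y z| ≤ a ^ 2 / 2 :=
    le_trans (mul_le_mul_of_nonneg_right hs' (abs_nonneg _)) hb
  have hb3 : a ^ 2 / 2 ≤ 4 / p * (8 / p) := by
    have : a ≤ 8 / p := by rw [le_div_iff₀ (by linarith)]; linarith
    have h8 : 4 / (p : ℝ) * (8 / p) = (8 / p) ^ 2 / 2 := by ring
    rw [h8]
    have := pow_le_pow_left₀ ha0.le this 2
    linarith
  exact le_of_mul_le_mul_left (hb2.trans hb3) (by positivity)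

end Pool.Agent.H3.Lens
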