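import Pool.Agent.H3.Lens1

open MeasureTheory Set InnerProductGeometry
open scoped Pointwise

namespace Pool.Agent.H3.Lens

def ga (a y : V) : ℝ := - a 2 * y 0 + a 3 * y 1 + a 0 * y 2 - a 1 * y 3
def et (a y : V) : ℝ := a 3 * y 0 + a 2 * y 1 - a 1 * y 2 - a 0 * y 3

theorem om_expand (a y z : V) : inner ℝ a a * om y z =
    inner ℝ a y * om a z - om a y * inner ℝ a z + ga a y * et a z - et a y * ga a z := by
  simp only [inner_eq, om, ga, et]; ring

theorem sq_expand (a y : V) : inner ℝ a a * inner ℝ y y =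
    inner ℝ a y ^ 2 + om a y ^ 2 + ga a y ^ 2 + et a y ^ 2 := by
  simp only [inner_eq, om, ga, et]; ring

def mat (a : V) (g h : ℝ) : Matrix (Fin 4) (Fin 4) ℝ :=
  !![a 0, a 1, a 2, a 3;
    a 1, - a 0, a 3, - a 2;
    - g * a 2 + h * a 3, g * a 3 + h * a 2, g * a 0 - h * a 1, - g * a 1 - h * a 0;
    g * a 3 + h * a 2, g * a 2 - h * a 3, - g * a 1 - h * a 0, - g * a 0 + h * a 1]

theorem det_mat (a : V) (g h : ℝ) : (mat a g h).det = (g ^ 2 + h ^ 2) * inner ℝ a a ^ 2 := by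
  rw [inner_eq]
  simp [mat, Matrix.det_succ_row_zero, Fin.sum_univ_succ, Fin.succAbove]
  ring

noncomputable def lin (a : V) (g h : ℝ) : V →ₗ[ℝ] V := Matrix.toLpLin 2 2 (mat a g h)

theorem lin0 (a : V) (g h : ℝ) (y : V) : lin a g h y 0 = inner ℝ a y := by
  simp [lin, mat, Matrix.toLpLin_apply, Matrix.mulVec, dotProduct, Fin.sum_univ_four, inner_eq]

theorem lin1 (a : V) (g h : ℝ) (y : V) : lin a g h y 1 = om a y := by
  simp [lin, mat, Matrix.toLpLin_apply, Matrix.mulVec, dotProduct, Fin.sum_univ_four, om]; ring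

theorem lin2 (a : V) (g h : ℝ) (y : V) : lin a g h y 2 = g * ga a y + h * et a y := by
  simp [lin, mat, Matrix.toLpLin_apply, Matrix.mulVec, dotProduct, Fin.sum_univ_four, ga, et]; ring

theorem lin3 (a : V) (g h : ℝ) (y : V) : lin a g h y 3 = g * et a y - h * ga a y := by
  simp [lin, mat, Matrix.toLpLin_apply, Matrix.mulVec, dotProduct, Fin.sum_univ_four, ga, et]; ring

def box (b : Fin 4 → ℝ) : Set V := {v | ∀ i, |v i| ≤ b i}

theorem box_eq (b : Fin 4 → ℝ) : box b = WithLp.ofLp ⁻¹' Icc (-b) b := by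
  ext v
  simp only [box, mem_setOf_eq, mem_preimage, mem_Icc, Pi.le_def, Pi.neg_apply, abs_le, forall_and]

theorem vol_box (b : Fin 4 → ℝ) : volume (box b) = ∏ i, ENNReal.ofReal (2 * b i) := by
  rw [box_eq, (PiLp.volume_preserving_ofLp (Fin 4)).measure_preimage
    measurableSet_Icc.nullMeasurableSet, Real.volume_Icc_pi]
  congr 1; ext i; congr 1; simp only [Pi.neg_apply]; ring

theorem isClosed_box (b : Fin 4 → ℝ) : IsClosed (box b) := by
  rw [box_eq]; exact isClosed_Icc.preimage (PiLp.continuous_ofLp _ _)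

theorem smul_box {b : Fin 4 → ℝ} {v : V} (hv : v ∈ box b) {t : ℝ} (h0 : 0 < t) (h1 : t < 1) :
    t • v ∈ box b := by
  intro i
  have := hv i
  rw [PiLp.smul_apply, smul_eq_mul, abs_mul, abs_of_pos h0]
  nlinarith [abs_nonneg (v i)]

theorem exists_gh {ι : Type} (A : Set ι) (u v : ι → ℝ) {δ : ℝ} (hδ : 0 ≤ δ)
    (hb : ∀ y ∈ A, u y ^ 2 + v y ^ 2 ≤ 1) (hA : ∀ y ∈ A, ∀ z ∈ A, |u y * v z - v y * u z| ≤ δ) :
    ∃ g h : ℝ, 0 < g ^ 2 + h ^ 2 ∧ ∀ y ∈ A, |g * u y + h * v y| ≤ 2 * (g ^ 2 + h ^ 2) ∧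
      |g * v y - h * u y| ≤ δ := by
  by_cases h0 : ∀ y ∈ A, u y ^ 2 + v y ^ 2 = 0
  · refine ⟨1, 0, by norm_num, fun y hy => ?_⟩
    have h1 := h0 y hy
    have hu : u y = 0 := by nlinarith [sq_nonneg (u y), sq_nonneg (v y)]
    have hv : v y = 0 := by nlinarith [sq_nonneg (u y), sq_nonneg (v y)]
    simp [hu, hv, hδ]
  · push Not at h0
    obtain ⟨y0, hy0, hne⟩ := h0
    have hpos : 0 < u y0 ^ 2 + v y0 ^ 2 := lt_of_le_of_ne (by positivity) hne.symm
    have hbdd : BddAbove ((fun y => u y ^ 2 + v y ^ 2) '' A) :=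
      ⟨1, by rintro _ ⟨y, hy, rfl⟩; exact hb y hy⟩
    have hle : ∀ y ∈ A, u y ^ 2 + v y ^ 2 ≤ sSup ((fun y => u y ^ 2 + v y ^ 2) '' A) :=
      fun y hy => le_csSup hbdd ⟨y, hy, rfl⟩
    set m := sSup ((fun y => u y ^ 2 + v y ^ 2) '' A) with hm
    have hm0 : 0 < m := hpos.trans_le (hle y0 hy0)
    obtain ⟨_, ⟨y1, hy1, rfl⟩, hlt⟩ := exists_lt_of_lt_csSup
      (s := (fun y => u y ^ 2 + v y ^ 2) '' A) ⟨_, y0, hy0, rfl⟩ (show m / 4 < m by linarith)
    simp only at hlt
    refine ⟨u y1, v y1, by linarith, fun y hy => ⟨?_, hA y1 hy1 y hy⟩⟩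
    have h1 := hle y hy
    apply abs_le_of_sq_le_sq' _ (by positivity) |> abs_le.2
    have h2 : (u y1 * u y + v y1 * v y) ^ 2 ≤ (u y1 ^ 2 + v y1 ^ 2) * (u y ^ 2 + v y ^ 2) := by
      nlinarith [sq_nonneg (u y1 * v y - v y1 * u y)]
    have h3 : (u y1 ^ 2 + v y1 ^ 2) * (u y ^ 2 + v y ^ 2) ≤
        (u y1 ^ 2 + v y1 ^ 2) * (4 * (u y1 ^ 2 + v y1 ^ 2)) :=
      mul_le_mul_of_nonneg_left (by linarith) (by positivity)
    nlinarith

theorem sphere_small {A : Set S3} {δ : ℝ} (hδ : 0 ≤ δ)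
    (hA : ∀ y ∈ A, ∀ z ∈ A, |om (y : V) z| ≤ δ) :
    (volume : Measure V).toSphere A ≤ ENNReal.ofReal (384 * δ ^ 2) := by
  rcases A.eq_empty_or_nonempty with rfl | ⟨a, ha⟩
  · simp
  have haa := inner_self_S3 a
  have hsq : ∀ y : S3, inner ℝ (a : V) y ^ 2 + om a y ^ 2 + ga a y ^ 2 + et a y ^ 2 = 1 := by
    intro y; rw [← sq_expand, haa, inner_self_S3, one_mul]
  have hin : ∀ y : S3, |inner ℝ (a : V) y| ≤ 1 := by
    intro y
    have := abs_real_inner_le_norm (a : V) y
    rwa [norm_S3, norm_S3, one_mul] at this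
  obtain ⟨g, h, hgh, hB⟩ := exists_gh A (fun y => ga a y) (fun y => et a y) (δ := 3 * δ)
    (by positivity) (fun y _ => by
      have := hsq y
      nlinarith [sq_nonneg (inner ℝ (a : V) y), sq_nonneg (om a y)]) (fun y hy z hz => by
      have e := om_expand a y z
      rw [haa, one_mul] at e
      have e' : ga a y * et a z - et a y * ga a z =
          om y z - inner ℝ (a : V) y * om a z + om a y * inner ℝ (a : V) z := by linarith
      have h1 : |inner ℝ (a : V) y * om a z| ≤ δ := by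
        rw [abs_mul]
        nlinarith [hin y, hA a ha z hz, abs_nonneg (om (a : V) z), abs_nonneg (inner ℝ (a : V) y)]
      have h2 : |om a y * inner ℝ (a : V) z| ≤ δ := by
        rw [abs_mul]
        nlinarith [hin z, hA a ha y hy, abs_nonneg (om (a : V) y), abs_nonneg (inner ℝ (a : V) z)]
      have h3 := hA y hy z hz
      rw [e', abs_le] at *
      constructor <;> linarith [h1.1, h1.2, h2.1, h2.2, h3.1, h3.2])
  set b : Fin 4 → ℝ := ![1, δ, 2 * (g ^ 2 + h ^ 2), 3 * δ] with hb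
  have hcont : Continuous (lin a g h) := LinearMap.continuous_of_finiteDimensional _
  have hsub : A ⊆ (fun y : S3 => lin a g h y) ⁻¹' box b := by
    intro y hy i
    fin_cases i
    · simpa [lin0, hb] using hin y
    · simpa [lin1, hb] using hA a ha y hy
    · simpa [lin2, hb] using (hB y hy).1
    · simpa [lin3, hb] using (hB y hy).2
  refine (measure_mono hsub).trans ?_
  have hmeas : MeasurableSet ((fun y : S3 => lin a g h y) ⁻¹' box b) :=
    ((isClosed_box b).preimage (hcont.comp continuous_subtype_val)).measurableSet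
  rw [Measure.toSphere_apply' _ hmeas]
  have hcone : Ioo (0 : ℝ) 1 • ((↑) '' ((fun y : S3 => lin a g h y) ⁻¹' box b) : Set V) ⊆
      lin a g h ⁻¹' box b := by
    rintro _ ⟨t, ht, _, ⟨y, hy, rfl⟩, rfl⟩
    simp only [mem_preimage, map_smul]
    exact smul_box hy ht.1 ht.2
  have hdet : LinearMap.det (lin a g h) = g ^ 2 + h ^ 2 := by
    rw [lin, LinearMap.det_toLpLin, det_mat, haa]; ring
  have hvol : volume (lin a g h ⁻¹' box b) = ENNReal.ofReal (96 * δ ^ 2) := by
    rw [Measure.addHaar_preimage_linearMap _ (by rw [hdet]; exact hgh.ne'), hdet, vol_box,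
      ← ENNReal.ofReal_prod_of_nonneg (by
        intro i _; fin_cases i <;> simp [hb] <;> positivity),
      ← ENNReal.ofReal_mul (abs_nonneg _), abs_of_pos (inv_pos.2 hgh)]
    congr 1
    simp only [hb, Fin.prod_univ_four, Matrix.cons_val_zero, Matrix.cons_val_one, Matrix.cons_val]
    field_simp
    ring
  calc _ ≤ (Module.finrank ℝ V : ENNReal) * ENNReal.ofReal (96 * δ ^ 2) := by
        gcongr
        rw [← hvol]; exact measure_mono hcone
    _ = ENNReal.ofReal (384 * δ ^ 2) := by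
        rw [finrank_euclideanSpace_fin, ← ENNReal.ofReal_natCast,
          ← ENNReal.ofReal_mul (by positivity)]
        congr 1; push_cast; ring

theorem om_act (p : ℕ) (k : ℤ) (y z : S3) : om (act p k y) (act p k z) = om y z := by
  simp only [act_coe, om, rot0, rot1, rot2, rot3]
  have := Real.sin_sq_add_cos_sq (2 * Real.pi * k / p)
  linear_combination (-(y : V) 0 * (z : V) 1 + (y : V) 1 * (z : V) 0 - (y : V) 2 * (z : V) 3 +
    (y : V) 3 * (z : V) 2) * this

theorem preimage_small {p : ℕ} (hp : 4 ≤ p) {Γ : Set (Lens p)} (hΓ : IsGeodConvex Γ) :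
    (volume : Measure V).toSphere.real (proj p ⁻¹' Γ) ≤ 24576 / p := by
  have hp0 : p ≠ 0 := by omega
  have hp' : (0 : ℝ) < p := by exact_mod_cast Nat.pos_of_ne_zero hp0
  rcases Γ.eq_empty_or_nonempty with rfl | ⟨a, ha⟩
  · simp; positivity
  obtain ⟨x, rfl⟩ := proj_surj p a
  have hsub : proj p ⁻¹' Γ ⊆ ⋃ r ∈ Finset.range p,
      {y | proj p y ∈ Γ ∧ Close p x (act p r y)} := by
    intro y hy
    obtain ⟨r, hr, hc⟩ := exists_close hp0 x y
    simp only [mem_iUnion]
    exact ⟨r, hr, hy, hc⟩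
  have hle : (volume : Measure V).toSphere (proj p ⁻¹' Γ) ≤
      ∑ _r ∈ Finset.range p, ENNReal.ofReal (384 * (8 / p : ℝ) ^ 2) := by
    refine (measure_mono hsub).trans ((measure_biUnion_finset_le _ _).trans
      (Finset.sum_le_sum fun r _ => sphere_small (by positivity) ?_))
    intro y hy z hz
    rw [← om_act p r]
    exact om_small hp (close_pair hp0 hΓ ha (by rw [proj_act]; exact hy.1)
      (by rw [proj_act]; exact hz.1) hy.2 hz.2)
  rw [Finset.sum_const, Finset.card_range, nsmul_eq_mul, ← ENNReal.ofReal_natCast,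
    ← ENNReal.ofReal_mul hp'.le] at hle
  refine (ENNReal.toReal_le_of_le_ofReal (by positivity) hle).trans (le_of_eq ?_)
  field_simp; norm_num

theorem main (c : ℝ) (hc : 0 < c) : ∃ p : ℕ, 4 ≤ p ∧ ∀ Γ : Set (Lens p), IsGeodConvex Γ →
    vol Γ < c * vol (univ : Set (Lens p)) := by
  have hS : 0 < (volume : Measure V).toSphere.real univ := by
    rw [measureReal_def]
    exact ENNReal.toReal_pos (by simpa using (Metric.measure_ball_pos volume (0 : V) one_pos).ne')
      (measure_ne_top _ _)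
  set S := (volume : Measure V).toSphere.real univ with hSdef
  obtain ⟨n, hn⟩ := exists_nat_gt (24576 / (c * S))
  refine ⟨n + 4, by omega, fun Γ hΓ => ?_⟩
  have h := preimage_small (by omega) hΓ
  have hp' : (0 : ℝ) < ((n + 4 : ℕ) : ℝ) := by positivity
  unfold vol
  rw [preimage_univ, ← hSdef, ← mul_div_assoc]
  refine div_lt_div_of_pos_right (h.trans_lt ?_) hp'
  rw [div_lt_iff₀ (by positivity)] at hn
  rw [div_lt_iff₀ hp']
  push_cast
  nlinarith [mul_pos hc hS]

end Pool.Agent.H3.Lens
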