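import Mathlib

open MeasureTheory

namespace Pool.Agent.H3.Lens

abbrev V : Type := EuclideanSpace ℝ (Fin 4)

/-- The unit sphere `S³ ⊂ ℝ⁴ = ℂ²`. -/
abbrev S3 : Type := Metric.sphere (0 : V) 1

/-- Multiplication by `e^{iθ}` on `ℝ⁴ = ℂ²`. -/
noncomputable def rot (θ : ℝ) (x : V) : V :=
  !₂[Real.cos θ * x 0 - Real.sin θ * x 1, Real.sin θ * x 0 + Real.cos θ * x 1,
    Real.cos θ * x 2 - Real.sin θ * x 3, Real.sin θ * x 2 + Real.cos θ * x 3]

/-- `y = e^{2πik/p} x` for some integer `k`. -/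
def Rel (p : ℕ) (x y : S3) : Prop := ∃ k : ℤ, (y : V) = rot (2 * Real.pi * k / p) x

/-- The lens space `L(p, 1) = S³ / μ_p`. -/
def Lens (p : ℕ) : Type := Quot (Rel p)

/-- The covering projection `S³ → L(p, 1)`. -/
def proj (p : ℕ) : S3 → Lens p := Quot.mk (Rel p)

/-- The Riemannian distance of the round metric on `L(p, 1)`: the least angle between lifts. -/
noncomputable def ldist {p : ℕ} (a b : Lens p) : ℝ :=
  sInf {θ | ∃ x y : S3, proj p x = a ∧ proj p y = b ∧ θ = InnerProductGeometry.angle (x : V) y}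

/-- `γ`, restricted to `[0, 1]`, is a minimizing geodesic from `a` to `b`. -/
def IsMinGeodesic {p : ℕ} (γ : ℝ → Lens p) (a b : Lens p) : Prop :=
  γ 0 = a ∧ γ 1 = b ∧
    ∀ s ∈ Set.Icc (0 : ℝ) 1, ∀ t ∈ Set.Icc (0 : ℝ) 1, ldist (γ s) (γ t) = |s - t| * ldist a b

/-- Any two points of `Γ` are joined by a unique minimizing geodesic, and it lies in `Γ`. -/
def IsGeodConvex {p : ℕ} (Γ : Set (Lens p)) : Prop :=
  ∀ a ∈ Γ, ∀ b ∈ Γ, ∃ γ, IsMinGeodesic γ a b ∧ (∀ t ∈ Set.Icc (0 : ℝ) 1, γ t ∈ Γ) ∧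
    ∀ γ', IsMinGeodesic γ' a b → Set.EqOn γ' γ (Set.Icc 0 1)

/-- The Riemannian volume on `L(p, 1)`: the round volume of the preimage in `S³`, divided by the
number `p` of sheets. -/
noncomputable def vol {p : ℕ} (Γ : Set (Lens p)) : ℝ :=
  (volume : Measure V).toSphere.real (proj p ⁻¹' Γ) / p

end Pool.Agent.H3.Lens
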