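import Mathlib

set_option autoImplicit false

namespace Pool.Agent.H3.Link

abbrev P := EuclideanSpace ℝ (Fin 2)

noncomputable def pt (x y : ℝ) : P := !₂[x, y]

@[simp] lemma pt0 (x y : ℝ) : pt x y 0 = x := rfl
@[simp] lemma pt1 (x y : ℝ) : pt x y 1 = y := rfl

lemma ext2 {p q : P} (h0 : p 0 = q 0) (h1 : p 1 = q 1) : p = q := by
  ext i; fin_cases i
  · exact h0
  · exact h1

lemma dsq (p q : P) : dist p q ^ 2 = (p 0 - q 0) ^ 2 + (p 1 - q 1) ^ 2 := by
  rw [EuclideanSpace.dist_eq, Real.sq_sqrt (by positivity), Fin.sum_univ_two]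
  simp [Real.dist_eq]

lemma deq {p q p' q' : P} (h : dist p q ^ 2 = dist p' q' ^ 2) : dist p q = dist p' q' :=
  (pow_left_inj₀ dist_nonneg dist_nonneg two_ne_zero).1 h

lemma deq' {p q : P} {r : ℝ} (hr : 0 ≤ r) (h : dist p q ^ 2 = r ^ 2) : dist p q = r :=
  (pow_left_inj₀ dist_nonneg hr two_ne_zero).1 h

noncomputable def mot (a b e c0 c1 : ℝ) (h1 : a ^ 2 + b ^ 2 = 1) (h2 : e ^ 2 = 1) : P ≃ᵢ P where
  toFun z := pt (a * (z 0 - c0) + b * (z 1 - c1)) (e * (a * (z 1 - c1) - b * (z 0 - c0)))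
  invFun z := pt (c0 + a * z 0 - b * e * z 1) (c1 + b * z 0 + a * e * z 1)
  left_inv z := by
    apply ext2 <;> simp only [pt0, pt1]
    · linear_combination (z 0 - c0) * h1 - b * (a * (z 1 - c1) - b * (z 0 - c0)) * h2
    · linear_combination (z 1 - c1) * h1 + a * (a * (z 1 - c1) - b * (z 0 - c0)) * h2
  right_inv z := by
    apply ext2 <;> simp only [pt0, pt1]
    · linear_combination (z 0) * h1
    · linear_combination (e ^ 2 * z 1) * h1 + z 1 * h2
  isometry_toFun := Isometry.of_dist_eq fun x y => deq (by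
    rw [dsq, dsq]; simp only [pt0, pt1]
    linear_combination ((x 0 - y 0) ^ 2 + (x 1 - y 1) ^ 2) * h1 +
      (a * (x 1 - y 1) - b * (x 0 - y 0)) ^ 2 * h2)

lemma mot_apply (a b e c0 c1 : ℝ) (h1 : a ^ 2 + b ^ 2 = 1) (h2 : e ^ 2 = 1) (z : P) :
    mot a b e c0 c1 h1 h2 z =
      pt (a * (z 0 - c0) + b * (z 1 - c1)) (e * (a * (z 1 - c1) - b * (z 0 - c0))) := rfl

noncomputable def ht (x : ℝ) : ℝ := Real.sqrt (25 - ((x - 89) / 16) ^ 2)

noncomputable def cfg (x y : ℝ) : Fin 4 → P :=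
  ![pt (-4) 0, pt ((25 - y) / 16) (ht y), pt ((x - 25) / 16) (ht x), pt 4 0]

def F (x y : ℝ) : ℝ := x * y * (118 - (x + y)) - 819 * (x + y) + 6642

def Ok (q : Fin 4 → P) : Prop :=
  dist (q 0) (q 1) = 5 ∧ dist (q 1) (q 2) = 2 ∧ dist (q 2) (q 3) = 5 ∧ dist (q 0) (q 3) = 8

lemma ht_sq {x : ℝ} (h1 : 9 ≤ x) (h2 : x ≤ 169) : ht x ^ 2 = 25 - ((x - 89) / 16) ^ 2 :=
  Real.sq_sqrt (by nlinarith)

lemma cfg_ok {x y : ℝ} (hx : 9 ≤ x) (hx' : x ≤ 169) (hy : 9 ≤ y) (hy' : y ≤ 169) (h : F x y = 0) :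
    Ok (cfg x y) ∧ dist (cfg x y 0) (cfg x y 2) ^ 2 = x ∧ dist (cfg x y 1) (cfg x y 3) ^ 2 = y := by
  have a := ht_sq hx hx'
  have b := ht_sq hy hy'
  have a0 : 0 ≤ ht x := Real.sqrt_nonneg _
  have b0 : 0 ≤ ht y := Real.sqrt_nonneg _
  have k : 512 * (ht x * ht y) = 2 * x * y + 78 * (x + y) - 1566 := by
    apply (pow_left_inj₀ (by positivity) (by nlinarith) two_ne_zero).1
    rw [mul_pow, mul_pow, a, b]
    unfold F at h
    linear_combination (1024) * h
  refine ⟨⟨deq' (by norm_num) ?_, deq' (by norm_num) ?_, deq' (by norm_num) ?_,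
    deq' (by norm_num) ?_⟩, ?_, ?_⟩ <;> rw [dsq] <;> simp [cfg] <;> nlinarith

lemma sgn (b a : ℝ) (k0 : 0 ≤ b * a) : ∃ e : ℝ, e ^ 2 = 1 ∧ e * a = |a| ∧ e * b = |b| := by
  by_cases s : 0 ≤ a ∧ 0 ≤ b
  · exact ⟨1, by norm_num, by rw [abs_of_nonneg s.1, one_mul], by rw [abs_of_nonneg s.2, one_mul]⟩
  · have : a ≤ 0 ∧ b ≤ 0 := by
      rcases not_and_or.1 s with s | s <;> push Not at s <;> constructor <;> nlinarith
    exact ⟨-1, by norm_num, by rw [abs_of_nonpos this.1]; ring, by rw [abs_of_nonpos this.2]; ring⟩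

lemma norm0 (q : Fin 4 → P) (h : Ok q) (h0 : q 0 = pt (-4) 0) (h3 : q 3 = pt 4 0) {x y : ℝ}
    (hx : x = dist (q 0) (q 2) ^ 2) (hy : y = dist (q 1) (q 3) ^ 2) (x9 : 9 ≤ x) (y9 : 9 ≤ y) :
    F x y = 0 ∧ ∃ T : P ≃ᵢ P, ∀ i, T (q i) = cfg x y i := by
  obtain ⟨a, b, c, -⟩ := h
  have a' := dsq (q 0) (q 1)
  have b' := dsq (q 1) (q 2)
  have c' := dsq (q 2) (q 3)
  rw [a] at a'; rw [b] at b'; rw [c] at c'
  rw [dsq] at hx hy
  simp only [h0, h3, pt0, pt1] at a' c' hx hy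
  have X1 : q 1 0 = (25 - y) / 16 := by linarith
  have X2 : q 2 0 = (x - 25) / 16 := by linarith
  have Y1 : q 1 1 ^ 2 = 25 - ((y - 89) / 16) ^ 2 := by rw [X1] at a'; linarith
  have Y2 : q 2 1 ^ 2 = 25 - ((x - 89) / 16) ^ 2 := by rw [X2] at c'; linarith
  have k : 512 * (q 2 1 * q 1 1) = 2 * x * y + 78 * (x + y) - 1566 := by
    rw [X1, X2] at b'; linarith
  have k0 : 0 ≤ q 2 1 * q 1 1 := by nlinarith only [k, x9, y9, mul_le_mul x9 y9 (by norm_num) (by linarith)]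
  have e1 : ht y = |q 1 1| := by rw [ht, ← Y1, Real.sqrt_sq_eq_abs]
  have e2 : ht x = |q 2 1| := by rw [ht, ← Y2, Real.sqrt_sq_eq_abs]
  constructor
  · have := congrArg (· ^ 2) k
    simp only [mul_pow, Y1, Y2] at this
    unfold F
    linear_combination (1 / 1024) * this
  · obtain ⟨e, he, f1, f2⟩ := sgn _ _ k0
    refine ⟨mot 1 0 e 0 0 (by norm_num) he, fun i => ?_⟩
    rw [mot_apply]
    fin_cases i <;> apply ext2 <;> simp [cfg, h0, h3, X1, X2, e1, e2, f1, f2]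

lemma norm1 (q : Fin 4 → P) (h : Ok q) {x y : ℝ}
    (hx : x = dist (q 0) (q 2) ^ 2) (hy : y = dist (q 1) (q 3) ^ 2) :
    9 ≤ x ∧ 9 ≤ y ∧ F x y = 0 ∧ ∃ T : P ≃ᵢ P, ∀ i, T (q i) = cfg x y i := by
  obtain ⟨a, b, c, d⟩ := h
  have x9 : 9 ≤ x := by
    have := dist_triangle (q 0) (q 2) (q 3)
    nlinarith
  have y9 : 9 ≤ y := by
    have := dist_triangle (q 0) (q 1) (q 3)
    nlinarith
  have d' := dsq (q 0) (q 3)
  rw [d] at d'
  let T := mot ((q 3 0 - q 0 0) / 8) ((q 3 1 - q 0 1) / 8) 1 ((q 3 0 + q 0 0) / 2)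
    ((q 3 1 + q 0 1) / 2) (by linarith) (by norm_num)
  obtain ⟨f, S, hS⟩ := norm0 (fun i => T (q i)) (by simp only [Ok, T.dist_eq]; exact ⟨a, b, c, d⟩)
    (by simp only [T, mot_apply]; apply ext2 <;> simp only [pt0, pt1] <;> linarith)
    (by simp only [T, mot_apply]; apply ext2 <;> simp only [pt0, pt1] <;> linarith)
    (x := x) (y := y) (by simp only [T.dist_eq]; exact hx) (by simp only [T.dist_eq]; exact hy) x9 y9
  exact ⟨x9, y9, f, T.trans S, hS⟩

noncomputable def g (s : ℝ) : ℝ := Real.sqrt ((64 - s) / (100 - s))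
noncomputable def g' (s : ℝ) : ℝ := Real.sqrt ((100 - s) / (64 - s))
noncomputable def xw (w : ℝ) : ℝ := (18 + |w| + w * g |w|) / 2
noncomputable def yw (w : ℝ) : ℝ := (18 + |w| - w * g |w|) / 2
noncomputable def ww (x y : ℝ) : ℝ := (x - y) * g' (x + y - 18)

lemma gg {s : ℝ} (h : s < 1) : g s * g' s = 1 := by
  have a : 0 < 64 - s := by linarith
  have b : 0 < 100 - s := by linarith
  rw [g, g', ← Real.sqrt_mul (by positivity), div_mul_div_comm, mul_comm, div_self (by positivity),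
    Real.sqrt_one]

lemma g_sq {s : ℝ} (h : s < 1) : g s ^ 2 * (100 - s) = 64 - s := by
  have a : 0 < 64 - s := by linarith
  have b : 0 < 100 - s := by linarith
  rw [g, Real.sq_sqrt (by positivity)]; field_simp

lemma g'_sq {s : ℝ} (h : s < 1) : g' s ^ 2 * (64 - s) = 100 - s := by
  have a : 0 < 64 - s := by linarith
  have b : 0 < 100 - s := by linarith
  rw [g', Real.sq_sqrt (by positivity)]; field_simp

lemma g_le {s : ℝ} (h : s < 1) : 0 ≤ g s ∧ g s ≤ 1 := by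
  have a := g_sq h
  have b : 0 ≤ g s := Real.sqrt_nonneg _
  refine ⟨b, ?_⟩
  by_contra c
  push Not at c
  have : 1 < g s ^ 2 := by nlinarith
  nlinarith

lemma xy_ok {w : ℝ} (h : |w| < 1) : 9 ≤ xw w ∧ xw w ≤ 169 ∧ 9 ≤ yw w ∧ yw w ≤ 169 ∧
    F (xw w) (yw w) = 0 ∧ ww (xw w) (yw w) = w ∧ xw w + yw w = 18 + |w| := by
  obtain ⟨a, b⟩ := g_le h
  have c := g_sq h
  have d : |w * g (|w|)| ≤ |w| := by
    rw [abs_mul, abs_of_nonneg a]; nlinarith [abs_nonneg w]
  obtain ⟨d1, d2⟩ := abs_le.1 d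
  have e : xw w + yw w = 18 + |w| := by unfold xw yw; ring
  refine ⟨by unfold xw; linarith, by unfold xw; linarith, by unfold yw; linarith,
    by unfold yw; linarith, ?_, ?_, e⟩
  · unfold F xw yw
    have := sq_abs w
    linear_combination (-(w ^ 2) / 4) * c + ((64 - |w|) / 4) * this
  · unfold ww
    rw [e, add_sub_cancel_left]
    have := gg h
    unfold xw yw
    linear_combination w * this

lemma ww_ok {x y : ℝ} (hx : 9 ≤ x) (hy : 9 ≤ y) (hv : x + y < 19) (h : F x y = 0) :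
    |ww x y| < 1 ∧ xw (ww x y) = x ∧ yw (ww x y) = y := by
  have s1 : x + y - 18 < 1 := by linarith
  have a := g'_sq s1
  have b : |ww x y| = x + y - 18 := by
    rw [← abs_of_nonneg (show 0 ≤ x + y - 18 by linarith), ← sq_eq_sq_iff_abs_eq_abs]
    have : (64 - (x + y - 18)) ≠ 0 := by linarith
    apply mul_right_cancel₀ this
    unfold ww; unfold F at h
    linear_combination (x - y) ^ 2 * a - 4 * h
  have c := gg s1
  refine ⟨by linarith, ?_, ?_⟩
  · unfold xw; rw [b]; unfold ww; linear_combination (x - y) / 2 * c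
  · unfold yw; rw [b]; unfold ww; linear_combination -(x - y) / 2 * c

lemma mono {s t : ℝ} (h0 : 0 ≤ s) (h : s ≤ t) (h1 : t < 1) : xw s ≤ xw t ∧ yw s ≤ yw t := by
  have s1 : s < 1 := by linarith
  obtain ⟨a, b⟩ := g_le s1
  obtain ⟨a', b'⟩ := g_le h1
  have c := g_sq s1
  have c' := g_sq h1
  unfold xw yw
  rw [abs_of_nonneg h0, abs_of_nonneg (h0.trans h)]
  have m : g t ≤ g s := by
    apply Real.sqrt_le_sqrt
    rw [div_le_div_iff₀ (by linarith) (by linarith)]; nlinarith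
  have m2 : s * g s ≤ t * g t := by
    apply (pow_le_pow_iff_left₀ (by positivity) (mul_nonneg (h0.trans h) a') two_ne_zero).1
    have e1 : g s ^ 2 = (64 - s) / (100 - s) := by rw [eq_div_iff (by linarith)]; exact c
    have e2 : g t ^ 2 = (64 - t) / (100 - t) := by rw [eq_div_iff (by linarith)]; exact c'
    rw [mul_pow, mul_pow, e1, e2, ← mul_div_assoc, ← mul_div_assoc,
      div_le_div_iff₀ (by linarith) (by linarith)]
    have k : 0 ≤ (t - s) * (6400 * (s + t) - 64 * s * t - 100 * (s ^ 2 + s * t + t ^ 2) +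
      s * t * (s + t)) := mul_nonneg (by linarith) (by nlinarith [mul_nonneg h0 (h0.trans h)])
    nlinarith
  constructor
  · linarith
  · nlinarith

lemma cont_g : ContinuousOn g (Set.Iio 1) :=
  Real.continuous_sqrt.comp_continuousOn (ContinuousOn.div (by fun_prop) (by fun_prop)
    (fun s hs => by simp only [Set.mem_Iio] at hs; linarith))

lemma cont_g' : ContinuousOn g' (Set.Iio 1) :=
  Real.continuous_sqrt.comp_continuousOn (ContinuousOn.div (by fun_prop) (by fun_prop)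
    (fun s hs => by simp only [Set.mem_Iio] at hs; linarith))

lemma cont_cfg {X : Type*} [TopologicalSpace X] {f : X → ℝ} (hf : Continuous f) (h : ∀ a, |f a| < 1) :
    Continuous (fun a => cfg (xw (f a)) (yw (f a))) := by
  have hg : Continuous (fun a => g |f a|) := cont_g.comp_continuous (by fun_prop) h
  have hx : Continuous (fun a => xw (f a)) := by unfold xw; fun_prop
  have hy : Continuous (fun a => yw (f a)) := by unfold yw; fun_prop
  refine continuous_pi fun i => ?_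
  fin_cases i <;> simp [cfg, pt, ht] <;> fun_prop

end Pool.Agent.H3.Link
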