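import Pool.Agent.H3.Link

set_option autoImplicit false

namespace Pool.Agent.H3.Link

def G : SimpleGraph (Fin 4) where
  Adj i j := (i.val + j.val) % 2 = 1
  symm := ⟨fun i j h => by omega⟩
  loopless := ⟨fun i h => by omega⟩

instance : DecidableRel G.Adj := fun i j => inferInstanceAs (Decidable ((i.val + j.val) % 2 = 1))

noncomputable def p0 : Fin 4 → P := cfg 9 9

lemma F99 : F 9 9 = 0 := by norm_num [F]

lemma p0_ok : Ok p0 := (cfg_ok (by norm_num) (by norm_num) (by norm_num) (by norm_num) F99).1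

lemma ok_iff (q : Fin 4 → P) :
    (∀ i j, G.Adj i j → dist (q i) (q j) = dist (p0 i) (p0 j)) ↔ Ok q := by
  obtain ⟨a, b, c, d⟩ := p0_ok
  constructor
  · intro h
    exact ⟨(h 0 1 (by decide)).trans a, (h 1 2 (by decide)).trans b, (h 2 3 (by decide)).trans c,
      (h 0 3 (by decide)).trans d⟩
  · rintro ⟨a', b', c', d'⟩ i j h
    have e : ∀ i j : Fin 4, dist (q i) (q j) = dist (p0 i) (p0 j) →
        dist (q j) (q i) = dist (p0 j) (p0 i) := fun i j h => by rw [dist_comm, h, dist_comm]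
    have h1 := a'.trans a.symm
    have h2 := b'.trans b.symm
    have h3 := c'.trans c.symm
    have h4 := d'.trans d.symm
    fin_cases i <;> fin_cases j <;> first
      | exact absurd h (by decide) | exact h1 | exact h2 | exact h3 | exact h4
      | exact e _ _ h1 | exact e _ _ h2 | exact e _ _ h3 | exact e _ _ h4

abbrev Rel : (Fin 4 → P) → (Fin 4 → P) → Prop := fun q q' => ∃ T : P ≃ᵢ P, ∀ i, T (q i) = q' i

noncomputable def dq (i j : Fin 4) : Quot Rel → ℝ :=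
  Quot.lift (fun q => dist (q i) (q j) ^ 2) (fun q q' ⟨T, h⟩ => by
    simp only [← h, T.dist_eq])

lemma dq_cont (i j : Fin 4) : Continuous (dq i j) := continuous_quot_lift _ (by fun_prop)

def OO : Set (Quot Rel) := {z | dq 0 2 z + dq 1 3 z < 19}

lemma OO_open : IsOpen OO := isOpen_lt ((dq_cont _ _).add (dq_cont _ _)) continuous_const

abbrev CC : Set (Quot Rel) := {x | ∃ q : Fin 4 → P, Quot.mk Rel q = x ∧
  ∀ i j, G.Adj i j → dist (q i) (q j) = dist (p0 i) (p0 j)}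

noncomputable def cw (w : ℝ) : Fin 4 → P := cfg (xw w) (yw w)

lemma cw_ok {w : ℝ} (h : |w| < 1) : Ok (cw w) ∧ dq 0 2 (Quot.mk _ (cw w)) = xw w ∧
    dq 1 3 (Quot.mk _ (cw w)) = yw w := by
  obtain ⟨a, b, c, d, e, -, -⟩ := xy_ok h
  exact cfg_ok a b c d e

lemma mem_facts {z : Quot Rel} (h : z ∈ OO ∩ CC) : |ww (dq 0 2 z) (dq 1 3 z)| < 1 ∧
    Quot.mk Rel (cw (ww (dq 0 2 z) (dq 1 3 z))) = z := by
  obtain ⟨h1, q, rfl, h2⟩ := h
  obtain ⟨a, b, c, T⟩ := norm1 q ((ok_iff q).1 h2) (x := dq 0 2 (Quot.mk _ q))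
    (y := dq 1 3 (Quot.mk _ q)) rfl rfl
  obtain ⟨d, e, f⟩ := ww_ok a b h1 c
  refine ⟨d, ?_⟩
  rw [cw, e, f]
  exact (Quot.sound T).symm

lemma abs_lt1 (b : Set.Ioo (0 : ℝ) 1) : |2 * (b : ℝ) - 1| < 1 := by
  have := b.2.1; have := b.2.2
  rw [abs_lt]; constructor <;> linarith

noncomputable def hh : ↥(OO ∩ CC) ≃ₜ ↥(Set.Ioo (0 : ℝ) 1) where
  toFun z := ⟨(ww (dq 0 2 z) (dq 1 3 z) + 1) / 2, by
    have := abs_lt.1 (mem_facts z.2).1
    constructor <;> linarith [this.1, this.2]⟩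
  invFun b := ⟨Quot.mk _ (cw (2 * b - 1)), by
    obtain ⟨a, x, y⟩ := cw_ok (abs_lt1 b)
    refine ⟨?_, _, rfl, (ok_iff _).2 a⟩
    show dq 0 2 _ + dq 1 3 _ < 19
    rw [x, y, (xy_ok (abs_lt1 b)).2.2.2.2.2.2]
    linarith [abs_lt1 b]⟩
  left_inv z := by
    apply Subtype.ext
    simp only
    rw [show ∀ w : ℝ, 2 * ((w + 1) / 2) - 1 = w from fun w => by ring]
    exact (mem_facts z.2).2
  right_inv b := by
    apply Subtype.ext
    obtain ⟨a, x, y⟩ := cw_ok (abs_lt1 b)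
    simp only
    rw [x, y, (xy_ok (abs_lt1 b)).2.2.2.2.2.1]
    ring
  continuous_toFun := by
    refine Continuous.subtype_mk ?_ _
    have c1 : Continuous (fun z : ↥(OO ∩ CC) => dq 0 2 z) := (dq_cont _ _).comp continuous_subtype_val
    have c2 : Continuous (fun z : ↥(OO ∩ CC) => dq 1 3 z) := (dq_cont _ _).comp continuous_subtype_val
    have c3 : Continuous (fun z : ↥(OO ∩ CC) => g' (dq 0 2 z + dq 1 3 z - 18)) :=
      cont_g'.comp_continuous (by fun_prop) (fun z => by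
        have : dq 0 2 z + dq 1 3 z < 19 := z.2.1
        simp only [Set.mem_Iio]; linarith)
    unfold ww
    fun_prop
  continuous_invFun := by
    refine Continuous.subtype_mk ?_ _
    exact continuous_quot_mk.comp (cont_cfg (f := fun b : Set.Ioo (0 : ℝ) 1 => 2 * (b : ℝ) - 1)
      (by fun_prop) abs_lt1)

noncomputable def γ0 : P ≃ᵢ P := mot (-1) 0 1 0 0 (by norm_num) (by norm_num)

lemma γ0_apply (z : P) : γ0 z = pt (-z 0) (-z 1) := by
  rw [γ0, mot_apply]; simp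

lemma γ0_sq : γ0 * γ0 = 1 := by
  ext1 z
  rw [IsometryEquiv.mul_apply, γ0_apply, γ0_apply]
  apply ext2 <;> simp

lemma γ0_ne : γ0 ≠ 1 := by
  intro h
  have := congrArg (fun T : P ≃ᵢ P => T (pt 1 0) 0) h
  simp only [γ0_apply] at this
  norm_num at this

def Γ0 : Subgroup (P ≃ᵢ P) where
  carrier := {1, γ0}
  mul_mem' := by
    rintro a b (rfl | rfl) (rfl | rfl) <;> simp [γ0_sq]
  one_mem' := Or.inl rfl
  inv_mem' := by
    rintro a (rfl | rfl)
    · simp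
    · right; exact inv_eq_of_mul_eq_one_right γ0_sq

instance : Finite Γ0 := (Set.toFinite ({1, γ0} : Set (P ≃ᵢ P))).to_subtype

open Classical in
noncomputable def θ0 : Γ0 →* Equiv.Perm (Fin 4) :=
  MonoidHom.mk' (fun g => if g.1 = 1 then 1 else Fin.revPerm) (by
    rintro ⟨a, rfl | rfl⟩ ⟨b, rfl | rfl⟩ <;> simp [γ0_sq, γ0_ne]
    decide)

lemma θ0_one (h : 1 ∈ Γ0) : θ0 ⟨1, h⟩ = 1 := by simp [θ0]
lemma θ0_γ (h : γ0 ∈ Γ0) : θ0 ⟨γ0, h⟩ = Fin.revPerm := by simp [θ0, γ0_ne]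

lemma cw0 : cw 0 = p0 := by
  simp only [cw, p0, xw, yw]; norm_num

lemma p0_eq : p0 = ![pt (-4) 0, pt 1 0, pt (-1) 0, pt 4 0] := by
  simp only [p0, cfg, ht]; norm_num

end Pool.Agent.H3.Link
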