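import Mathlib

open Filter Topology Metric Set Finset

namespace Pool.Agent.H3.Mac

theorem hasSum_cexp (z : ℂ) : HasSum (fun j : ℕ => z ^ j / (j.factorial : ℂ)) (Complex.exp z) := by
  rw [Complex.exp_eq_exp_ℂ]; exact NormedSpace.expSeries_div_hasSum_exp z

theorem hasSum_rexp (x : ℝ) : HasSum (fun j : ℕ => x ^ j / (j.factorial : ℝ)) (Real.exp x) := by
  rw [Real.exp_eq_exp_ℝ]; exact NormedSpace.expSeries_div_hasSum_exp x

theorem term_le {u : ℕ → ℂ} {ε R : ℝ} (h : ∀ j, ‖u j‖ ≤ ε * 8 ^ j) {z : ℂ} (hz : ‖z‖ ≤ R) (j : ℕ) :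
    ‖u j * (z ^ j / (j.factorial : ℂ))‖ ≤ ε * ((8 * R) ^ j / (j.factorial : ℝ)) := by
  have h0 : 0 ≤ ε * 8 ^ j := (norm_nonneg _).trans (h j)
  rw [norm_mul, norm_div, norm_pow, Complex.norm_natCast, mul_pow]
  calc ‖u j‖ * (‖z‖ ^ j / j.factorial) ≤ ε * 8 ^ j * (R ^ j / j.factorial) := by
        gcongr; exact h j
    _ = _ := by ring

theorem tail {u : ℕ → ℂ} {ε R : ℝ} (h : ∀ j, ‖u j‖ ≤ ε * 8 ^ j) {z : ℂ} (hz : ‖z‖ ≤ R) :
    Summable (fun j => u j * (z ^ j / (j.factorial : ℂ))) ∧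
      ‖∑' j, u j * (z ^ j / (j.factorial : ℂ))‖ ≤ ε * Real.exp (8 * R) :=
  ⟨Summable.of_norm_bounded ((hasSum_rexp (8 * R)).mul_left ε).summable (term_le h hz),
    tsum_of_norm_bounded ((hasSum_rexp (8 * R)).mul_left ε) (term_le h hz)⟩

/-- the entire function with Taylor data `u` -/
noncomputable def T (u : ℕ → ℂ) (z : ℂ) : ℂ := ∑' j, u j * (z ^ j / (j.factorial : ℂ))

theorem T_deriv {u : ℕ → ℂ} {ε : ℝ} (h : ∀ j, ‖u j‖ ≤ ε * 8 ^ j) :
    Differentiable ℂ (T u) ∧ deriv (T u) = T (fun j => u (j + 1)) := by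
  have key : ∀ z : ℂ, DifferentiableAt ℂ (T u) z ∧ deriv (T u) z = T (fun j => u (j + 1)) z := by
    intro z
    have hs := ((hasSum_rexp (8 * (‖z‖ + 1))).mul_left ε).summable
    have hd : ∀ j : ℕ, DifferentiableOn ℂ (fun w : ℂ => u j * (w ^ j / (j.factorial : ℂ)))
        (ball 0 (‖z‖ + 1)) := fun j => by fun_prop
    have hb : ∀ (j : ℕ) (w : ℂ), w ∈ ball (0 : ℂ) (‖z‖ + 1) →
        ‖u j * (w ^ j / (j.factorial : ℂ))‖ ≤ ε * ((8 * (‖z‖ + 1)) ^ j / (j.factorial : ℝ)) :=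
      fun j w hw => term_le h (by simpa using (mem_ball_zero_iff.1 hw).le) j
    have hz : z ∈ ball (0 : ℂ) (‖z‖ + 1) := by simp
    refine ⟨(Complex.differentiableOn_tsum_of_summable_norm hs hd isOpen_ball hb).differentiableAt
      (isOpen_ball.mem_nhds hz), ?_⟩
    have h1 := Complex.hasSum_deriv_of_summable_norm hs hd isOpen_ball hb hz
    rw [← hasSum_nat_add_iff' 1] at h1
    simp only [range_one, sum_singleton, pow_zero, deriv_const', sub_zero] at h1
    refine h1.tsum_eq.symm.trans (tsum_congr fun j => ?_)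
    have h2 := (((hasDerivAt_pow (j + 1) z).div_const ((j + 1).factorial : ℂ)).const_mul (u (j + 1))).deriv
    rw [h2, Nat.factorial_succ]
    have : ((j : ℂ) + 1) ≠ 0 := by exact_mod_cast Nat.succ_ne_zero j
    have : (j.factorial : ℂ) ≠ 0 := by exact_mod_cast j.factorial_ne_zero
    push_cast
    field_simp
  exact ⟨fun z => (key z).1, funext fun z => (key z).2⟩

theorem T_close {u v : ℕ → ℂ} {ε R : ℝ} {z w : ℂ} (h : ∀ j, ‖u j - v j‖ ≤ ε * 8 ^ j) (hz : ‖z‖ ≤ R)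
    (hv : HasSum (fun j => v j * (z ^ j / (j.factorial : ℂ))) w) :
    ‖T u z - w‖ ≤ ε * Real.exp (8 * R) := by
  obtain ⟨h1, h2⟩ := tail h hz
  have h3 := h1.hasSum.add hv
  have h4 : (fun j => (u j - v j) * (z ^ j / (j.factorial : ℂ)) + v j * (z ^ j / (j.factorial : ℂ)))
      = fun j => u j * (z ^ j / (j.factorial : ℂ)) := by funext j; ring
  rw [h4] at h3
  unfold T
  rw [h3.tsum_eq]
  simpa using h2

theorem epoch (b B δ' : ℝ) (hb : 0 < b) (hB : b ≤ B) (hδ : 0 < δ') :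
    ∃ M : ℕ, ∃ A l : ℕ → ℝ, A 0 = b ∧ (∀ i, M < i → A i = 0) ∧ (∀ i, 0 ≤ A i ∧ A (i + 1) ≤ 2 * A i) ∧
      (∀ i, 0 ≤ l i ∧ l i ≤ 2) ∧ (∀ i j, |A (i + j) - A i * l i ^ j| ≤ δ' * A i * 8 ^ j) ∧
      (∀ i, i ≤ M → b ≤ A i ∧ B * 2 ^ i ≤ δ' * A i * 2 ^ M) ∧ B ≤ A M := by
  obtain ⟨m, hm⟩ := exists_nat_one_div_lt hδ
  set δ : ℝ := 1 / ((m : ℝ) + 1) with hδdef
  have hδ0 : 0 < δ := by positivity
  have hδ1 : δ ≤ 1 := by rw [hδdef, div_le_one (by positivity)]; linarith [Nat.cast_nonneg (α := ℝ) m]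
  have hδm : δ * ((m : ℝ) + 1) = 1 := by rw [hδdef]; field_simp
  set D := 2 * (m + 1) with hD
  obtain ⟨J, hJ⟩ := pow_unbounded_of_one_lt (B / (b * δ ^ (D + 1))) (one_lt_two (α := ℝ))
  rw [div_lt_iff₀ (by positivity)] at hJ
  let l : ℕ → ℝ := fun i => min 2 (((J + D - i : ℕ) : ℝ) * δ)
  let A : ℕ → ℝ := fun i => b * ∏ x ∈ range i, l x
  have hl : ∀ i, 0 ≤ l i ∧ l i ≤ 2 := fun i => ⟨le_min zero_le_two (by positivity), min_le_left _ _⟩
  have hAs : ∀ i, A (i + 1) = A i * l i := fun i => by simp [A, prod_range_succ, mul_assoc]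
  have hA0 : ∀ i, 0 ≤ A i := fun i => mul_nonneg hb.le (prod_nonneg fun x _ => (hl x).1)
  have hl1 : ∀ i, |l (i + 1) - l i| ≤ δ := fun i => by
    have h1 : |((J + D - (i + 1) : ℕ) : ℝ) * δ - ((J + D - i : ℕ) : ℝ) * δ| ≤ δ := by
      rw [← sub_mul, abs_mul, abs_of_pos hδ0]
      refine mul_le_of_le_one_left hδ0.le ?_
      rcases le_or_gt (J + D) i with h | h
      · rw [Nat.sub_eq_zero_of_le h, Nat.sub_eq_zero_of_le (by omega)]; simp
      · have : J + D - i = (J + D - (i + 1)) + 1 := by omega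
        rw [this]; push_cast; simp
    exact (abs_min_sub_min_le_max _ _ _ _).trans (max_le (by simpa using hδ0.le) h1)
  have hl2 : ∀ i j, |l (i + j) - l i| ≤ j * δ := fun i j => by
    induction j with
    | zero => simp
    | succ j ih =>
      have := abs_sub_le (l (i + j + 1)) (l (i + j)) (l i)
      have := hl1 (i + j)
      rw [← add_assoc]; push_cast; linarith
  have hA1 : ∀ i, i ≤ J → A i = b * 2 ^ i := fun i => by
    induction i with
    | zero => simp [A]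
    | succ i ih =>
      intro hi
      have : l i = 2 := min_eq_left (by
        have : ((D : ℕ) : ℝ) ≤ ((J + D - i : ℕ) : ℝ) := by exact_mod_cast (by omega)
        have h2 : ((D : ℕ) : ℝ) * δ = 2 := by rw [hD]; push_cast; linarith
        nlinarith)
      rw [hAs, ih (by omega), this]; ring
  have hA2 : ∀ i, i ≤ D → b * 2 ^ J * δ ^ i ≤ A (J + i) := fun i => by
    induction i with
    | zero => intro _; simp [hA1 J le_rfl]
    | succ i ih =>
      intro hi
      have : δ ≤ l (J + i) := le_min (by linarith) (by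
        have : (1 : ℝ) ≤ ((J + D - (J + i) : ℕ) : ℝ) := by exact_mod_cast (by omega)
        nlinarith)
      rw [← add_assoc, hAs, pow_succ, ← mul_assoc]
      exact mul_le_mul (ih (by omega)) this hδ0.le (hA0 _)
  have hA3 : ∀ i, J ≤ i → i ≤ J + D → B ≤ δ * A i := fun i h1 h2 => by
    obtain ⟨i, rfl⟩ := Nat.exists_eq_add_of_le h1
    have h3 := hA2 i (by omega)
    have h4 : δ ^ D ≤ δ ^ i := pow_le_pow_of_le_one hδ0.le hδ1 (by omega)
    have h5 : b * 2 ^ J * δ ^ D ≤ b * 2 ^ J * δ ^ i := by gcongr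
    rw [pow_succ] at hJ
    nlinarith
  refine ⟨J + D, A, l, by simp [A], ?_, fun i => ⟨hA0 i, ?_⟩, hl, ?_, ?_, ?_⟩
  · intro i hi
    have : l (J + D) = 0 := by simp [l]
    simp only [A]
    rw [prod_eq_zero (mem_range.2 hi) this, mul_zero]
  · rw [hAs]; nlinarith [hA0 i, (hl i).2]
  · intro i j
    have h1 : |A (i + j) - A i * l i ^ j| ≤ δ * A i * 8 ^ j := by
      induction j with
      | zero => simpa using mul_nonneg hδ0.le (hA0 i)
      | succ j ih =>
        have e : A (i + (j + 1)) - A i * l i ^ (j + 1)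
            = (A (i + j) - A i * l i ^ j) * l (i + j) + A i * l i ^ j * (l (i + j) - l i) := by
          rw [← add_assoc, hAs]; ring
        have a1 : |(A (i + j) - A i * l i ^ j) * l (i + j)| ≤ δ * A i * 8 ^ j * 2 := by
          rw [abs_mul, abs_of_nonneg (hl _).1]
          exact mul_le_mul ih (hl _).2 (hl _).1 (by have := hA0 i; positivity)
        have a2 : |A i * l i ^ j * (l (i + j) - l i)| ≤ A i * 2 ^ j * (j * δ) := by
          rw [abs_mul, abs_of_nonneg (mul_nonneg (hA0 i) (pow_nonneg (hl i).1 j))]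
          exact mul_le_mul (mul_le_mul_of_nonneg_left (pow_le_pow_left₀ (hl i).1 (hl i).2 j) (hA0 i))
            (hl2 i j) (abs_nonneg _) (by have := hA0 i; positivity)
        have a3 : (2 : ℝ) ^ j * j ≤ 8 ^ j := by
          have : (j : ℝ) ≤ 4 ^ j := by
            exact_mod_cast (Nat.lt_pow_self (by norm_num : 1 < 4)).le
          calc (2 : ℝ) ^ j * j ≤ 2 ^ j * 4 ^ j := by gcongr
            _ = 8 ^ j := by rw [← mul_pow]; norm_num
        have a4 : A i * 2 ^ j * (j * δ) ≤ δ * A i * 8 ^ j := by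
          have := mul_le_mul_of_nonneg_left a3 (mul_nonneg hδ0.le (hA0 i))
          linarith
        have a5 : 0 ≤ δ * A i * 8 ^ j := by have := hA0 i; positivity
        rw [e, pow_succ (8 : ℝ)]
        linarith [abs_add_le ((A (i + j) - A i * l i ^ j) * l (i + j))
          (A i * l i ^ j * (l (i + j) - l i))]
    refine h1.trans ?_
    have := hA0 i
    gcongr
  · intro i hi
    have hA := hA0 i
    rcases le_total i J with h | h
    · rw [hA1 i h]
      have h2 : (1 : ℝ) ≤ 2 ^ i := one_le_pow₀ one_le_two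
      refine ⟨by nlinarith, ?_⟩
      have h3 := hA3 J le_rfl (by omega)
      rw [hA1 J le_rfl] at h3
      have h4 : (2 : ℝ) ^ J ≤ 2 ^ (J + D) := pow_le_pow_right₀ one_le_two (by omega)
      calc B * 2 ^ i ≤ δ * (b * 2 ^ J) * 2 ^ i := by gcongr
        _ ≤ δ' * (b * 2 ^ (J + D)) * 2 ^ i := by gcongr
        _ = _ := by ring
    · have h3 := hA3 i h hi
      refine ⟨by nlinarith, ?_⟩
      have h4 : (2 : ℝ) ^ i ≤ 2 ^ (J + D) := pow_le_pow_right₀ one_le_two hi
      calc B * 2 ^ i ≤ δ * A i * 2 ^ i := by gcongr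
        _ ≤ δ' * A i * 2 ^ (J + D) := by gcongr
  · have h3 := hA3 (J + D) (by omega) le_rfl
    nlinarith [hA0 (J + D)]

end Pool.Agent.H3.Mac
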