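import Pool.Agent.H3.Mac1

open Filter Topology Metric Set

namespace Pool.Agent.H3.Mac

noncomputable def E (k : ℕ) : ℝ := Real.exp (8 * k)
noncomputable def b (k : ℕ) : ℝ := 2 * (k + 1) * E k
noncomputable def t (k : ℕ) : ℝ := b (k + 1) * E k
noncomputable def c (k : ℕ) : ℝ := (k + 1) * t k
noncomputable def BB (p : ℕ → ℂ) (k : ℕ) : ℝ := c k * (1 + ‖p k‖)

theorem one_le_E (k : ℕ) : 1 ≤ E k := Real.one_le_exp (by positivity)
theorem one_le_b (k : ℕ) : 1 ≤ b k := by
  have := one_le_E k
  have : (0 : ℝ) ≤ k := Nat.cast_nonneg k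
  unfold b; nlinarith
theorem b_le (k : ℕ) : b k ≤ b (k + 1) := by
  have h : E k ≤ E (k + 1) := Real.exp_le_exp.2 (by push_cast; linarith)
  have := one_le_E k
  unfold b; push_cast; gcongr; linarith
theorem b_le_t (k : ℕ) : b (k + 1) ≤ t k := by
  have := one_le_E k
  have := one_le_b (k + 1)
  unfold t; nlinarith
theorem one_le_t (k : ℕ) : 1 ≤ t k := (one_le_b _).trans (b_le_t k)
theorem t_le_c (k : ℕ) : t k ≤ c k := by
  have := one_le_t k
  have : (0 : ℝ) ≤ k := Nat.cast_nonneg k
  unfold c; nlinarith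
theorem c_le_BB (p : ℕ → ℂ) (k : ℕ) : c k ≤ BB p k := by
  have := (one_le_t k).trans (t_le_c k)
  have := norm_nonneg (p k)
  unfold BB; nlinarith

theorem core (p : ℕ → ℂ) : ∃ f : ℂ → ℂ, (∀ n, Differentiable ℂ (iteratedDeriv n f)) ∧
    ∃ κ : ℕ → ℕ, Tendsto κ atTop atTop ∧
      (∀ n, (∀ z : ℂ, ‖z‖ ≤ κ n → (κ n : ℝ) ≤ ‖iteratedDeriv n f z‖) ∨
        (∀ z : ℂ, ‖z‖ ≤ κ n → ‖iteratedDeriv n f z - c (κ n) * (z - p (κ n))‖ ≤ t (κ n))) ∧
      ∀ k : ℕ, ∃ n, ∀ z : ℂ, ‖z‖ ≤ k → ‖iteratedDeriv n f z - c k * (z - p k)‖ ≤ t k := by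
  have hbB : ∀ k, b (k + 1) ≤ BB p k := fun k => (b_le_t k).trans ((t_le_c k).trans (c_le_BB p k))
  have hE : ∀ k, 0 < E k := fun k => lt_of_lt_of_le one_pos (one_le_E k)
  choose M A l h0 hz hA hl happ hlow hBM using fun k => epoch (b k) (BB p k) (1 / (4 * E k ^ 2))
    (lt_of_lt_of_le one_pos (one_le_b k)) ((b_le k).trans (hbB k)) (by have := hE k; positivity)
  let nx : ℕ × ℕ → ℕ × ℕ := fun σ => if σ.2 < M σ.1 + 2 then (σ.1, σ.2 + 1) else (σ.1 + 1, 0)
  let val : ℕ × ℕ → ℂ := fun σ => if σ.2 ≤ M σ.1 then (A σ.1 σ.2 : ℂ) else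
    if σ.2 = M σ.1 + 1 then -(c σ.1 * p σ.1) else c σ.1
  let β : ℕ × ℕ → ℝ := fun σ => if σ.2 ≤ M σ.1 then A σ.1 σ.2 else BB p σ.1
  have hc0 : ∀ k, 0 ≤ c k := fun k => zero_le_one.trans ((one_le_t k).trans (t_le_c k))
  have hB0 : ∀ k, 0 ≤ BB p k := fun k => (hc0 k).trans (c_le_BB p k)
  have hval : ∀ σ, ‖val σ‖ ≤ β σ := by
    rintro ⟨k, i⟩
    simp only [val, β]
    split_ifs
    · simp [abs_of_nonneg (hA k i).1]
    · have := hc0 k
      simp only [norm_neg, norm_mul, Complex.norm_real, Real.norm_of_nonneg this, BB]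
      nlinarith
    · simpa [abs_of_nonneg (hc0 k)] using c_le_BB p k
  have hβ : ∀ σ, β (nx σ) ≤ 2 * β σ := by
    rintro ⟨k, i⟩
    simp only [nx, β]
    by_cases h1 : i < M k + 2
    · simp only [h1, if_true]
      split_ifs with h2 h3 h3
      · exact (hA k i).2
      · omega
      · have : i = M k := by omega
        rw [this]; linarith [hBM k, (hA k (M k)).1]
      · linarith [hB0 k]
    · simp only [h1, if_false, Nat.zero_le, if_true, h0]
      rw [if_neg (by omega)]
      linarith [hB0 k, hbB k]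
  have hβ0 : ∀ σ, 0 ≤ β σ := fun σ => (norm_nonneg _).trans (hval σ)
  have hit : ∀ j σ, ‖val (nx^[j] σ)‖ ≤ β σ * 2 ^ j := by
    intro j
    induction j with
    | zero => simpa using hval
    | succ j ih =>
      intro σ
      rw [Function.iterate_succ_apply, pow_succ']
      refine (ih _).trans ?_
      rw [← mul_assoc, mul_comm (β σ)]
      gcongr; exact hβ σ
  have h28 : ∀ j : ℕ, (2 : ℝ) ^ j ≤ 8 ^ j := fun j => pow_le_pow_left₀ zero_le_two (by norm_num) j
  have hit8 : ∀ σ j, ‖val (nx^[j] σ)‖ ≤ β σ * 8 ^ j := fun σ j =>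
    (hit j σ).trans (mul_le_mul_of_nonneg_left (h28 j) (hβ0 σ))
  have hstep : ∀ k j i, i + j ≤ M k + 2 → nx^[j] (k, i) = (k, i + j) := by
    intro k j
    induction j with
    | zero => simp
    | succ j ih =>
      intro i hi
      rw [Function.iterate_succ_apply', ih i (by omega)]
      simp only [nx]
      rw [if_pos (by omega), add_assoc]
  have hend : ∀ k, nx (k, M k + 2) = (k + 1, 0) := fun k => by simp [nx]
  have hβk : ∀ k, β (k, 0) = b k := fun k => by simp [β, h0]
  let F : ℕ × ℕ → ℂ → ℂ := fun σ => T fun j => val (nx^[j] σ)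
  have hF : ∀ n, iteratedDeriv n (F (0, 0)) = F (nx^[n] (0, 0)) := by
    intro n
    induction n with
    | zero => simp
    | succ n ih =>
      rw [iteratedDeriv_succ, ih, (T_deriv (hit8 _)).2, Function.iterate_succ_apply']
      rfl
  have PA : ∀ k i, i ≤ M k → ∀ z : ℂ, ‖z‖ ≤ k → (k : ℝ) ≤ ‖F (k, i) z‖ := by
    intro k i hi z hzk
    have hAi := (hA k i).1
    have hEk := hE k
    have h1 : ∀ j, ‖val (nx^[j] (k, i)) - (A k i : ℂ) * (l k i : ℂ) ^ j‖
        ≤ 2 * (1 / (4 * E k ^ 2)) * A k i * 8 ^ j := by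
      intro j
      have h2 : ‖val (nx^[j] (k, i)) - (A k (i + j) : ℂ)‖ ≤ 1 / (4 * E k ^ 2) * A k i * 8 ^ j := by
        rcases le_or_gt (i + j) (M k) with h | h
        · rw [hstep k j i (by omega)]
          simp only [val, h, if_true, sub_self, norm_zero]
          positivity
        · obtain ⟨r, hr⟩ := Nat.exists_eq_add_of_lt h
          have hj : j = r + (M k + 1 - i) := by omega
          rw [hz k _ h, hj, Function.iterate_add_apply, hstep k _ i (by omega), ← hj]
          simp only [Complex.ofReal_zero, sub_zero]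
          refine (hit r _).trans ?_
          have h3 : β (k, i + (M k + 1 - i)) = BB p k := by
            simp only [β]; rw [if_neg (by omega)]
          rw [h3]
          have h4 := (hlow k i hi).2
          have h5 : BB p k * 2 ^ r * 2 ^ M k ≤ 1 / (4 * E k ^ 2) * A k i * 2 ^ j * 2 ^ M k := by
            calc BB p k * 2 ^ r * 2 ^ M k = BB p k * 2 ^ (r + M k) := by ring
              _ ≤ BB p k * 2 ^ (i + j) :=
                mul_le_mul_of_nonneg_left (pow_le_pow_right₀ one_le_two (by omega)) (hB0 k)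
              _ = BB p k * 2 ^ i * 2 ^ j := by ring
              _ ≤ 1 / (4 * E k ^ 2) * A k i * 2 ^ M k * 2 ^ j := by gcongr
              _ = _ := by ring
          refine (le_of_mul_le_mul_right h5 (by positivity)).trans ?_
          gcongr
          norm_num
      have h3 : ‖(A k (i + j) : ℂ) - (A k i : ℂ) * (l k i : ℂ) ^ j‖
          ≤ 1 / (4 * E k ^ 2) * A k i * 8 ^ j := by
        have := happ k i j
        rw [← Real.norm_eq_abs, ← Complex.norm_real] at this
        exact_mod_cast this
      linarith [norm_sub_le_norm_sub_add_norm_sub (val (nx^[j] (k, i))) (A k (i + j) : ℂ)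
        ((A k i : ℂ) * (l k i : ℂ) ^ j)]
    have h2 : HasSum (fun j : ℕ => (A k i : ℂ) * (l k i : ℂ) ^ j * (z ^ j / (j.factorial : ℂ)))
        ((A k i : ℂ) * Complex.exp (l k i * z)) := by
      have := (hasSum_cexp (l k i * z)).mul_left (A k i : ℂ)
      simp only [mul_pow, mul_div_assoc, ← mul_assoc] at this
      exact this
    have h3 := T_close h1 hzk h2
    have h4 : A k i / E k ≤ ‖(A k i : ℂ) * Complex.exp (l k i * z)‖ := by
      rw [norm_mul, Complex.norm_real, Real.norm_of_nonneg hAi, Complex.norm_exp, div_eq_mul_inv]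
      gcongr
      unfold E
      rw [← Real.exp_neg, Real.exp_le_exp]
      have a1 := (abs_le.1 (Complex.abs_re_le_norm z)).1
      have a2 := hl k i
      have a3 : (0 : ℝ) ≤ k := Nat.cast_nonneg k
      simp only [Complex.re_ofReal_mul]
      nlinarith [norm_nonneg z]
    have h5 : 2 * (1 / (4 * E k ^ 2)) * A k i * Real.exp (8 * k) = A k i / E k / 2 := by
      change _ * E k = _
      field_simp; ring
    have h6 : 2 * ((k : ℝ) + 1) ≤ A k i / E k := by
      rw [le_div_iff₀ hEk]; exact (hlow k i hi).1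
    have h7 := norm_sub_norm_le ((A k i : ℂ) * Complex.exp (l k i * z)) (F (k, i) z)
    rw [norm_sub_rev] at h7
    change ‖F (k, i) z - _‖ ≤ _ at h3
    linarith
  have hb0 : ∀ k, 0 ≤ b k := fun k => zero_le_one.trans (one_le_b k)
  have PB : ∀ k : ℕ, ∀ z : ℂ, ‖z‖ ≤ k → ‖F (k, M k + 1) z - c k * (z - p k)‖ ≤ t k := by
    intro k z hzk
    refine T_close (v := fun j => if j = 0 then -(c k * p k) else if j = 1 then c k else 0)
      (ε := b (k + 1)) ?_ hzk ?_
    · intro j
      have := hb0 (k + 1)
      match j with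
      | 0 => simpa [val]
      | 1 =>
        rw [hstep k 1 _ (by omega)]
        simp only [val]
        rw [if_neg (by omega), if_neg (by omega)]
        simpa
      | j + 2 =>
        rw [show j + 2 = j + 1 + 1 from rfl, Function.iterate_add_apply, hstep k 1 _ (by omega),
          Function.iterate_succ_apply, hend]
        simp only [Nat.add_eq_zero_iff, one_ne_zero, and_false, if_false, Nat.add_eq_right, sub_zero]
        refine (hit8 _ _).trans ?_
        rw [hβk]
        gcongr
        · norm_num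
        · omega
    · have := hasSum_sum_of_ne_finset_zero (L := SummationFilter.unconditional ℕ)
        (f := fun j : ℕ => (if j = 0 then -(c k * p k) else if j = 1 then (c k : ℂ) else 0)
          * (z ^ j / (j.factorial : ℂ))) (s := {0, 1}) (by
            intro j hj
            simp only [Finset.mem_insert, Finset.mem_singleton, not_or] at hj
            simp [hj.1, hj.2])
      convert this using 1
      simp; ring
  have PC : ∀ k : ℕ, ∀ z : ℂ, ‖z‖ ≤ k → (k : ℝ) ≤ ‖F (k, M k + 2) z‖ := by
    intro k z hzk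
    have h1 : ‖F (k, M k + 2) z - c k‖ ≤ t k := by
      refine T_close (v := fun j => if j = 0 then c k else 0) (ε := b (k + 1)) ?_ hzk ?_
      · intro j
        have := hb0 (k + 1)
        match j with
        | 0 =>
          simp only [val, Function.iterate_zero, id]
          rw [if_neg (by omega), if_neg (by omega)]
          simpa
        | j + 1 =>
          rw [Function.iterate_succ_apply, hend]
          simp only [Nat.add_eq_zero_iff, one_ne_zero, and_false, if_false, sub_zero]
          refine (hit8 _ _).trans ?_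
          rw [hβk]
          gcongr
          · norm_num
          · omega
      · have := hasSum_single (L := SummationFilter.unconditional ℕ)
          (f := fun j : ℕ => (if j = 0 then (c k : ℂ) else 0) * (z ^ j / (j.factorial : ℂ))) 0
          (by intro j hj; simp [hj])
        simpa using this
    have h2 := norm_sub_norm_le (c k : ℂ) (F (k, M k + 2) z)
    rw [norm_sub_rev, Complex.norm_real, Real.norm_of_nonneg (hc0 k)] at h2
    have h3 := one_le_t k
    have h4 : (0 : ℝ) ≤ k := Nat.cast_nonneg k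
    have : c k = k * t k + t k := by unfold c; ring
    nlinarith
  have hreach : ∀ k, ∃ n, nx^[n] (0, 0) = (k, 0) := by
    intro k
    induction k with
    | zero => exact ⟨0, rfl⟩
    | succ k ih =>
      obtain ⟨n, hn⟩ := ih
      refine ⟨M k + 2 + 1 + n, ?_⟩
      rw [Function.iterate_add_apply, hn, Function.iterate_succ_apply', hstep k _ 0 (by omega),
        zero_add, hend]
  have hinv : ∀ n, (nx^[n] (0, 0)).2 ≤ M (nx^[n] (0, 0)).1 + 2 := by
    intro n
    induction n with
    | zero => simp
    | succ n ih =>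
      rw [Function.iterate_succ_apply']
      generalize nx^[n] (0, 0) = σ at ih
      simp only [nx]
      split_ifs with h
      · exact h
      · simp
  refine ⟨F (0, 0), fun n => by rw [hF]; exact (T_deriv (hit8 _)).1,
    fun n => (nx^[n] (0, 0)).1, ?_, fun n => ?_, fun k => ?_⟩
  · refine tendsto_atTop_atTop_of_monotone (monotone_nat_of_le_succ fun n => ?_) fun k => ?_
    · rw [Function.iterate_succ_apply']
      generalize nx^[n] (0, 0) = σ
      simp only [nx]
      split_ifs <;> simp
    · obtain ⟨n, hn⟩ := hreach k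
      exact ⟨n, by rw [hn]⟩
  · rw [hF]
    beta_reduce
    have := hinv n
    generalize nx^[n] (0, 0) = σ at this
    obtain ⟨k, i⟩ := σ
    simp only at this ⊢
    rcases le_or_gt i (M k) with h | h
    · exact Or.inl (PA k i h)
    · rcases (by omega : i = M k + 1 ∨ i = M k + 2) with rfl | rfl
      · exact Or.inr (PB k)
      · exact Or.inl (PC k)
  · obtain ⟨n, hn⟩ := hreach k
    refine ⟨M k + 1 + n, ?_⟩
    rw [hF, Function.iterate_add_apply, hn, hstep k _ 0 (by omega), zero_add]
    exact PB k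

end Pool.Agent.H3.Mac
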