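import Pool.Agent.H3.MagDefs

open MeasureTheory Set Filter Topology
open scoped ENNReal symmDiff Matrix

namespace Pool.Agent.H3.Mag

noncomputable def cf (u : Bool) (q : ℝ) : ℝ := if u then (1 - q) / 2 else (1 + q) / 2
def sg (u b : Bool) : ℝ := if u && b then -1 else 1

section
variable {κ ι : Type} [Fintype κ] [Fintype ι] [DecidableEq ι]

theorem expand (x : κ → ι → Bool) (q : ι → ℝ) (w : κ → ℝ) :
    ∑ a, ∑ b, w a * w b * ∏ i, (if x a i = x b i then 1 else q i) =
      ∑ U : ι → Bool, (∏ i, cf (U i) (q i)) * (∑ a, w a * ∏ i, sg (U i) (x a i)) ^ 2 := by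
  have h : ∀ a b, ∏ i, (if x a i = x b i then 1 else q i) =
      ∑ U : ι → Bool, (∏ i, cf (U i) (q i)) * (∏ i, sg (U i) (x a i)) * ∏ i, sg (U i) (x b i) := by
    intro a b
    simp only [← Finset.prod_mul_distrib]
    rw [← Fintype.piFinset_univ, ← Finset.prod_univ_sum (fun _ => Finset.univ)
      (fun i u => cf u (q i) * sg u (x a i) * sg u (x b i))]
    refine Finset.prod_congr rfl fun i _ => ?_
    cases x a i <;> cases x b i <;> simp [cf, sg] <;> ring
  simp only [h, sq, Finset.mul_sum, Finset.sum_mul]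
  rw [Finset.sum_comm (s := (Finset.univ : Finset (ι → Bool)))]
  refine Finset.sum_congr rfl fun a _ => ?_
  rw [Finset.sum_comm (s := (Finset.univ : Finset (ι → Bool)))]
  refine Finset.sum_congr rfl fun b _ => Finset.sum_congr rfl fun U _ => by ring

theorem cf_nonneg {q : ℝ} (h0 : 0 ≤ q) (h1 : q ≤ 1) (u : Bool) : 0 ≤ cf u q := by
  cases u <;> simp [cf] <;> linarith

theorem lower1 (x : κ → ι → Bool) {m : ι → ℝ} (hm : ∀ i, 0 ≤ m i) (w : κ → ℝ) :
    Real.exp (-∑ i, m i) * (∑ a, w a) ^ 2 ≤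
      ∑ a, ∑ b, w a * w b * ∏ i, (if x a i = x b i then 1 else Real.exp (-m i)) := by
  have hq : ∀ i, Real.exp (-m i) ≤ 1 := fun i => Real.exp_le_one_iff.2 (by linarith [hm i])
  rw [expand]
  refine le_trans ?_ (Finset.single_le_sum (f := fun U : ι → Bool =>
    (∏ i, cf (U i) (Real.exp (-m i))) * (∑ a, w a * ∏ i, sg (U i) (x a i)) ^ 2)
    (fun U _ => mul_nonneg (Finset.prod_nonneg fun i _ =>
      cf_nonneg (Real.exp_pos _).le (hq i) _) (sq_nonneg _)) (Finset.mem_univ fun _ => false))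
  simp only [sg, Bool.false_and, Bool.false_eq_true, if_false, Finset.prod_const_one, mul_one]
  refine mul_le_mul_of_nonneg_right ?_ (sq_nonneg _)
  rw [← Finset.sum_neg_distrib, Real.exp_sum]
  refine Finset.prod_le_prod (fun i _ => (Real.exp_pos _).le) fun i _ => ?_
  simp only [cf, Bool.false_eq_true, if_false]
  linarith [hq i]

theorem lower2 [DecidableEq κ] (x : κ → ι → Bool) {m : ι → ℝ} (hm : ∀ i, 0 ≤ m i)
    (hsep : ∀ a b, a ≠ b → ∃ i, m i ≠ 0 ∧ x a i ≠ x b i) {w : κ → ℝ} (hw : w ≠ 0) :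
    0 < ∑ a, ∑ b, w a * w b * ∏ i, (if x a i = x b i then 1 else Real.exp (-m i)) := by
  have hl : ∀ i, 0 < (if m i = 0 then 1 else 1 - Real.exp (-m i) : ℝ) := by
    intro i
    split_ifs with h
    · exact one_pos
    · have : 0 < m i := lt_of_le_of_ne (hm i) (Ne.symm h)
      exact sub_pos.2 (Real.exp_lt_one_iff.2 (by linarith))
  have h0 := expand x (fun i => if m i = 0 then 1 else 0) w
  have h1 : ∀ a b, ∏ i, (if x a i = x b i then 1 else if m i = 0 then 1 else 0 : ℝ) =
      if a = b then 1 else 0 := by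
    intro a b
    split_ifs with h
    · simp [h]
    · obtain ⟨i, hi, hx⟩ := hsep a b h
      exact Finset.prod_eq_zero (Finset.mem_univ i) (by simp [hi, hx])
  simp only [h1, mul_ite, mul_one, mul_zero, Finset.sum_ite_eq, Finset.mem_univ, if_true] at h0
  obtain ⟨a, ha⟩ := Function.ne_iff.1 hw
  have h2 : 0 < ∑ a, w a * w a := Finset.sum_pos' (fun a _ => mul_self_nonneg _)
    ⟨a, Finset.mem_univ _, mul_self_pos.2 ha⟩
  refine (mul_pos (Finset.prod_pos fun i (_ : i ∈ Finset.univ) => hl i) h2).trans_le ?_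
  rw [h0, expand, Finset.mul_sum]
  refine Finset.sum_le_sum fun U _ => ?_
  rw [← mul_assoc, ← Finset.prod_mul_distrib]
  refine mul_le_mul_of_nonneg_right (Finset.prod_le_prod (fun i _ => mul_nonneg (hl i).le
    (cf_nonneg (by split_ifs <;> norm_num) (by split_ifs <;> norm_num) _)) fun i _ => ?_)
    (sq_nonneg _)
  have := Real.exp_pos (-m i)
  split_ifs with h
  · simp [h]
  · cases U i <;> simp [cf] <;> linarith

end

noncomputable abbrev μ : Measure ℝ := volume.restrict (Icc (0 : ℝ) 1)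

instance : IsProbabilityMeasure μ := ⟨by simp⟩

noncomputable def ind (E : Set ℝ) (hE : MeasurableSet E) : L1 :=
  indicatorConstLp 1 hE (measure_ne_top μ E) (1 : ℝ)

theorem dist_ind {E F : Set ℝ} (hE : MeasurableSet E) (hF : MeasurableSet F) :
    dist (ind E hE) (ind F hF) = μ.real (E ∆ F) := by
  rw [ind, ind, dist_indicatorConstLp_eq_norm, norm_indicatorConstLp one_ne_zero ENNReal.one_ne_top]
  simp

def IsInd (f : L1) : Prop := ∃ E hE, f = ind E hE

theorem form_eq (A : Finset L1) (w : A → ℝ) :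
    w ⬝ᵥ (Z A *ᵥ w) = ∑ a, ∑ b, w a * w b * Real.exp (-dist (a : L1) b) := by
  simp only [dotProduct, Matrix.mulVec, Z, Matrix.of_apply, Finset.mul_sum]
  exact Finset.sum_congr rfl fun a _ => Finset.sum_congr rfl fun b _ => by ring

theorem key0 {κ : Type} [Fintype κ] [DecidableEq κ] (E : κ → Set ℝ) (hE : ∀ a, MeasurableSet (E a))
    (hsep : ∀ a b, a ≠ b → μ.real (E a ∆ E b) ≠ 0) (w : κ → ℝ) :
    (w ≠ 0 → 0 < ∑ a, ∑ b, w a * w b * Real.exp (-μ.real (E a ∆ E b))) ∧
      Real.exp (-1) * (∑ a, w a) ^ 2 ≤ ∑ a, ∑ b, w a * w b * Real.exp (-μ.real (E a ∆ E b)) := by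
  obtain ⟨φ, hφ'⟩ : ∃ φ : ℝ → κ → Bool, ∀ t a, φ t a = true ↔ t ∈ E a := by
    classical
    exact ⟨fun t a => decide (t ∈ E a), fun t a => by simp⟩
  have hφ : Measurable φ := measurable_pi_iff.2 fun a =>
    measurable_to_bool (by convert hE a using 1; ext t; simp [hφ'])
  obtain ⟨m, hm'⟩ : ∃ m : (κ → Bool) → ℝ, ∀ p, m p = μ.real (φ ⁻¹' {p}) := ⟨_, fun _ => rfl⟩
  have hm : ∀ p, 0 ≤ m p := fun p => by rw [hm']; exact measureReal_nonneg
  have hsum : ∀ s : Finset (κ → Bool), ∑ p ∈ s, m p = μ.real (φ ⁻¹' s) := fun s => by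
    simp only [hm']
    exact sum_measureReal_preimage_singleton s fun p _ => hφ (measurableSet_singleton p)
  have hd : ∀ a b : κ, μ.real (E a ∆ E b) = ∑ p : κ → Bool, if p a = p b then 0 else m p := by
    intro a b
    rw [Finset.sum_ite, Finset.sum_const_zero, zero_add, hsum]
    congr 1
    ext t
    simp only [mem_symmDiff, mem_preimage, Finset.coe_filter, Finset.mem_univ, true_and,
      mem_setOf_eq, ← hφ']
    cases φ t a <;> cases φ t b <;> simp
  have hz : ∀ a b : κ, Real.exp (-μ.real (E a ∆ E b)) =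
      ∏ p : κ → Bool, if p a = p b then 1 else Real.exp (-m p) := by
    intro a b
    rw [hd, ← Finset.sum_neg_distrib, Real.exp_sum]
    exact Finset.prod_congr rfl fun p _ => by split_ifs <;> simp
  simp only [hz]
  refine ⟨fun hw => lower2 (fun a (p : κ → Bool) => p a) hm (fun a b hab => ?_) hw, ?_⟩
  · have h1 := hsep a b hab
    rw [hd] at h1
    obtain ⟨p, -, hp⟩ := Finset.exists_ne_zero_of_sum_ne_zero h1
    refine ⟨p, ?_, ?_⟩ <;> intro h <;> simp [h] at hp
  · have := lower1 (fun a (p : κ → Bool) => p a) hm w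
    rwa [hsum, Finset.coe_univ, preimage_univ, probReal_univ] at this

theorem key (A : Finset L1) (hA : ∀ f ∈ A, IsInd f) :
    (Z A).PosDef ∧ ∀ w : A → ℝ, Real.exp (-1) * (∑ a, w a) ^ 2 ≤ w ⬝ᵥ (Z A *ᵥ w) := by
  classical
  choose E hE hf using fun a : A => hA a a.2
  have hd : ∀ a b : A, dist (a : L1) b = μ.real (E a ∆ E b) := fun a b => by
    rw [hf a, hf b, dist_ind]
  have h := key0 E hE fun a b hab => by
    rw [← hd]; exact dist_ne_zero.2 fun h => hab (Subtype.ext h)
  simp only [← hd, ← form_eq] at h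
  refine ⟨Matrix.PosDef.of_dotProduct_mulVec_pos ?_ fun w hw => ?_, fun w => (h w).2⟩
  · ext a b; simp [Z, dist_comm]
  · rw [star_trivial]; exact (h w).1 hw

theorem mag_eq {A : Finset L1} (hA : (Z A).PosDef) {w : A → ℝ} (hw : Z A *ᵥ w = 1) :
    mag A = ∑ a, w a := by
  classical
  have h : (Z A)⁻¹ *ᵥ 1 = w := by
    rw [← hw, Matrix.mulVec_mulVec, Matrix.nonsing_inv_mul _ (hA.det_pos.ne'.isUnit),
      Matrix.one_mulVec]
  rw [← h, mag]
  simp only [Matrix.mulVec, dotProduct, Pi.one_apply, mul_one]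

theorem mag_le (A : Finset L1) (hA : ∀ f ∈ A, IsInd f) : mag A ≤ Real.exp 1 := by
  classical
  obtain ⟨h1, h2⟩ := key A hA
  have hw : Z A *ᵥ ((Z A)⁻¹ *ᵥ 1) = 1 := by
    rw [Matrix.mulVec_mulVec, Matrix.mul_nonsing_inv _ (h1.det_pos.ne'.isUnit), Matrix.one_mulVec]
  have h3 := h2 ((Z A)⁻¹ *ᵥ 1)
  rw [hw, dotProduct_one, ← mag_eq h1 hw] at h3
  have h4 : Real.exp 1 * Real.exp (-1) = 1 := by rw [← Real.exp_add]; simp
  have h5 := Real.exp_pos 1
  by_contra hc
  push Not at hc
  have := mul_le_mul_of_nonneg_left h3 h5.le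
  rw [← mul_assoc, h4] at this
  nlinarith

noncomputable def o : L1 := ind ∅ MeasurableSet.empty
noncomputable def e (N j : ℕ) : L1 := ind (Ico ((j : ℝ) / N) ((j + 1) / N)) measurableSet_Ico

theorem mu_Ico {N j : ℕ} (h : j < N) : μ.real (Ico ((j : ℝ) / N) ((j + 1) / N)) = 1 / N := by
  have hN : (0 : ℝ) < N := by exact_mod_cast (by omega : 0 < N)
  have hj : (j : ℝ) + 1 ≤ N := by exact_mod_cast h
  have hs : Ico ((j : ℝ) / N) ((j + 1) / N) ⊆ Icc 0 1 := fun t ht =>
    ⟨le_trans (by positivity) ht.1, ht.2.le.trans ((div_le_one hN).2 hj)⟩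
  rw [measureReal_def, Measure.restrict_eq_self _ hs, Real.volume_Ico, ← sub_div, add_sub_cancel_left,
    ENNReal.toReal_ofReal (by positivity)]

theorem dist_oe {N j : ℕ} (h : j < N) : dist o (e N j) = 1 / N := by
  rw [o, e, dist_ind, ← bot_eq_empty, bot_symmDiff, mu_Ico h]

theorem dist_ee {N j k : ℕ} (hj : j < N) (hk : k < N) (h : j ≠ k) :
    dist (e N j) (e N k) = 2 / N := by
  have hN : (0 : ℝ) < N := by exact_mod_cast (by omega : 0 < N)
  have hd : Disjoint (Ico ((j : ℝ) / N) ((j + 1) / N)) (Ico ((k : ℝ) / N) ((k + 1) / N)) := by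
    rw [Set.disjoint_left]
    intro t h1 h2
    have a1 : (j : ℝ) < k + 1 := (div_lt_div_iff_of_pos_right hN).1 (h1.1.trans_lt h2.2)
    have a2 : (k : ℝ) < j + 1 := (div_lt_div_iff_of_pos_right hN).1 (h2.1.trans_lt h1.2)
    have b1 : j < k + 1 := by exact_mod_cast a1
    have b2 : k < j + 1 := by exact_mod_cast a2
    omega
  rw [e, e, dist_ind, hd.symmDiff_eq_sup]
  refine (measureReal_union hd measurableSet_Ico).trans ?_
  rw [mu_Ico hj, mu_Ico hk]
  ring

noncomputable def ff (p : ℕ × ℕ) : L1 := if p.2 < p.1 then e p.1 p.2 else o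

def T : Set L1 := insert o (range ff)

theorem T_ind : ∀ f ∈ T, IsInd f := by
  rintro _ (rfl | ⟨p, rfl⟩)
  · exact ⟨_, _, rfl⟩
  · unfold ff; split_ifs <;> exact ⟨_, _, rfl⟩

theorem T_compact : IsCompact T := by
  refine Tendsto.isCompact_insert_range_of_cofinite (Metric.tendsto_nhds.2 fun ε hε => ?_)
  obtain ⟨M, hM⟩ := exists_nat_one_div_lt hε
  refine ((finite_Iic M).prod (finite_Iic M)).subset fun p hp => ?_
  by_cases h : p.2 < p.1
  · have h1 : p.1 ≤ M := by
      by_contra hc
      apply hp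
      simp only [ff, if_pos h, mem_setOf_eq]
      rw [dist_comm, dist_oe h]
      refine lt_of_le_of_lt (one_div_le_one_div_of_le (by positivity) ?_) hM
      exact_mod_cast (by omega : M + 1 ≤ p.1)
    exact ⟨h1, h.le.trans h1⟩
  · exact absurd (by simp [ff, h, hε]) hp

theorem magK_le {K : Set L1} (hK : K ⊆ T) : magK K ≤ ENNReal.ofReal (Real.exp 1) :=
  iSup_le fun A => iSup₂_le fun hA _ =>
    ENNReal.ofReal_le_ofReal (mag_le A fun f hf => T_ind f (hK (hA hf)))

theorem tractable : Tractable T := by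
  refine ⟨fun A hA _ => (key A fun f hf => T_ind f (hA hf)).1, fun S hS _ => ?_,
    fun x _ r => (magK_le inter_subset_left).trans_lt ENNReal.ofReal_lt_top⟩
  have := isCompact_iff_compactSpace.1 T_compact
  exact hS.isCompact

open Classical in
noncomputable def star (N : ℕ) : Finset L1 := insert o ((Finset.range N).image (e N))

theorem star_sub (N : ℕ) : (star N : Set L1) ⊆ T := by
  classical
  intro f hf
  rcases Finset.mem_insert.1 hf with rfl | hf
  · exact mem_insert _ _
  · obtain ⟨j, hj, rfl⟩ := Finset.mem_image.1 hf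
    exact mem_insert_of_mem _ ⟨(N, j), if_pos (Finset.mem_range.1 hj)⟩

theorem e_ne {N j : ℕ} (h : j < N) : e N j ≠ o := by
  have hN : (0 : ℝ) < N := by exact_mod_cast (by omega : 0 < N)
  intro h'
  have := dist_oe h
  rw [h', dist_self] at this
  exact absurd this (by positivity : (1 : ℝ) / N ≠ 0).symm

theorem sum_star (N : ℕ) (g : L1 → ℝ) :
    ∑ a : star N, g a = g o + ∑ j ∈ Finset.range N, g (e N j) := by
  classical
  rw [Finset.sum_coe_sort, star, Finset.sum_insert, Finset.sum_image]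
  · intro j hj k hk h
    by_contra hc
    have hj' := Finset.mem_range.1 hj
    have := dist_ee hj' (Finset.mem_range.1 hk) hc
    have hN : (0 : ℝ) < N := by exact_mod_cast (by omega : 0 < N)
    rw [h, dist_self] at this
    exact absurd this (by positivity : (2 : ℝ) / N ≠ 0).symm
  · intro h
    obtain ⟨j, hj, h⟩ := Finset.mem_image.1 h
    exact e_ne (Finset.mem_range.1 hj) h

theorem mag_star (N : ℕ) : mag (star N) =
    1 + N * (1 - Real.exp (-(1 / N))) / (1 + Real.exp (-(1 / N))) := by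
  classical
  set q := Real.exp (-(1 / (N : ℝ))) with hq
  have hq0 : 0 < q := Real.exp_pos _
  have hq2 : Real.exp (-(2 / (N : ℝ))) = q * q := by rw [hq, ← Real.exp_add]; congr 1; ring
  let w : L1 → ℝ := fun f => if f = o then 1 - N * q / (1 + q) else 1 / (1 + q)
  have hwe : ∀ j ∈ Finset.range N, w (e N j) = 1 / (1 + q) := fun j hj =>
    if_neg (e_ne (Finset.mem_range.1 hj))
  have hwo : w o = 1 - N * q / (1 + q) := if_pos rfl
  rw [mag_eq (key _ fun f hf => T_ind f (star_sub N hf)).1 (w := fun a => w a), sum_star N w,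
    Finset.sum_congr rfl hwe, hwo]
  · simp only [Finset.sum_const, Finset.card_range, nsmul_eq_mul]
    field_simp; ring
  · ext ⟨a, ha⟩
    simp only [Matrix.mulVec, dotProduct, Z, Matrix.of_apply, Pi.one_apply]
    rw [sum_star N fun b => Real.exp (-dist a b) * w b, hwo]
    rcases Finset.mem_insert.1 ha with rfl | ha
    · rw [Finset.sum_congr rfl (g := fun _ => q * (1 / (1 + q))) fun j hj => by
        rw [hwe j hj, dist_oe (Finset.mem_range.1 hj)]]
      simp only [dist_self, neg_zero, Real.exp_zero, Finset.sum_const, Finset.card_range,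
        nsmul_eq_mul]
      field_simp; ring
    · obtain ⟨k, hk, rfl⟩ := Finset.mem_image.1 ha
      have hk' := Finset.mem_range.1 hk
      rw [Finset.sum_congr rfl (g := fun j => q * q * (1 / (1 + q)) +
        if j = k then (1 - q * q) * (1 / (1 + q)) else 0) fun j hj => by
          rw [hwe j hj]
          split_ifs with h
          · rw [h, dist_self, neg_zero, Real.exp_zero]; ring
          · rw [dist_ee hk' (Finset.mem_range.1 hj) (Ne.symm h), hq2]; ring,
        dist_comm, dist_oe hk', ← hq]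
      simp only [Finset.sum_add_distrib, Finset.sum_ite_eq', if_pos hk, Finset.sum_const,
        Finset.card_range, nsmul_eq_mul]
      field_simp; ring

theorem mag_star_ge {N : ℕ} (hN : 0 < N) : 5 / 4 ≤ mag (star N) := by
  have hN' : (1 : ℝ) ≤ N := by exact_mod_cast hN
  rw [mag_star]
  set q := Real.exp (-(1 / (N : ℝ))) with hq
  have hq0 : 0 < q := Real.exp_pos _
  have h1 : q * (1 / N + 1) ≤ 1 := by
    have := Real.add_one_le_exp (1 / (N : ℝ))
    calc q * (1 / N + 1) ≤ q * Real.exp (1 / N) := mul_le_mul_of_nonneg_left this hq0.le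
      _ = 1 := by rw [hq, ← Real.exp_add]; simp
  have h2 : q * (1 + N) ≤ N := by
    have := mul_le_mul_of_nonneg_left h1 (show (0 : ℝ) ≤ N by linarith)
    have e : (N : ℝ) * (q * (1 / N + 1)) = q * (1 + N) := by field_simp
    linarith
  have h3 : 1 / 4 ≤ N * (1 - q) / (1 + q) := by
    rw [le_div_iff₀ (by positivity)]
    nlinarith
  linarith

theorem star_zero : (star 0 : Set L1) = {o} := by simp [star]

theorem mag_zero : mag (star 0) = 1 := by simp [mag_star]

theorem haus {N : ℕ} (hN : 0 < N) : Metric.hausdorffDist (star 0 : Set L1) (star N) ≤ 1 / N := by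
  classical
  refine Metric.hausdorffDist_le_of_mem_dist (by positivity) ?_ ?_
  · rw [star_zero]
    rintro _ rfl
    exact ⟨o, Finset.mem_insert_self _ _, by simp⟩
  · intro f hf
    refine ⟨o, Finset.mem_insert_self _ _, ?_⟩
    rcases Finset.mem_insert.1 hf with rfl | hf
    · simp
    · obtain ⟨j, hj, rfl⟩ := Finset.mem_image.1 hf
      rw [dist_comm, dist_oe (Finset.mem_range.1 hj)]

theorem star_ne (N : ℕ) : (star N).Nonempty := by
  classical
  exact Finset.insert_nonempty _ _

theorem main : ∃ T : Set L1, Tractable T ∧ ¬ ContFin T ∧ ¬ ContCmp T := by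
  refine ⟨T, tractable, fun h => ?_, fun h => ?_⟩
  · obtain ⟨δ, hδ, h⟩ := h (star 0) (star_sub 0) (star_ne 0) (1 / 4) (by norm_num)
    obtain ⟨M, hM⟩ := exists_nat_one_div_lt hδ
    have h1 := h (star (M + 1)) (star_sub _) (star_ne _)
      ((haus (Nat.succ_pos M)).trans_lt (by exact_mod_cast hM))
    rw [mag_zero, abs_lt] at h1
    linarith [mag_star_ge (Nat.succ_pos M), h1.1]
  · obtain ⟨δ, hδ, h⟩ := h (star 0) (star_sub 0) (Finset.finite_toSet _).isCompact (star_ne 0)
      (1 / 4) (by norm_num)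
    obtain ⟨M, hM⟩ := exists_nat_one_div_lt hδ
    have h1 := h (star (M + 1)) (star_sub _) (Finset.finite_toSet _).isCompact (star_ne _)
      ((haus (Nat.succ_pos M)).trans_lt (by exact_mod_cast hM))
    have h2 : magK (star 0) ≤ ENNReal.ofReal 1 := by
      refine iSup_le fun A => iSup₂_le fun hA hne => ?_
      have : A = star 0 := by
        rw [star_zero] at hA
        apply Finset.coe_injective
        rw [star_zero]
        exact (Set.Nonempty.subset_singleton_iff hne).1 hA
      rw [this, mag_zero]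
    have h3 : ENNReal.ofReal (5 / 4) ≤ magK (star (M + 1)) :=
      le_iSup_of_le (star (M + 1)) (le_iSup₂_of_le subset_rfl (star_ne _)
        (ENNReal.ofReal_le_ofReal (mag_star_ge (Nat.succ_pos M))))
    have h4 := ENNReal.toReal_le_of_le_ofReal zero_le_one h2
    have h5 := (ENNReal.ofReal_le_iff_le_toReal
      (ne_top_of_le_ne_top ENNReal.ofReal_ne_top (magK_le (star_sub _)))).1 h3
    rw [abs_lt] at h1
    linarith [h1.1]

end Pool.Agent.H3.Mag
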