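import Mathlib

open MeasureTheory Set
open scoped ENNReal

namespace Pool.Agent.H3.Mag

/-- `L₁([0,1], ℝ)`. -/
abbrev L1 : Type := Lp ℝ 1 (volume.restrict (Icc (0 : ℝ) 1))

/-- The similarity matrix `Z_A`. -/
noncomputable def Z (A : Finset L1) : Matrix A A ℝ :=
  Matrix.of fun a b => Real.exp (-dist (a : L1) b)

open Classical in
/-- The magnitude of a finite set: the sum of the entries of `Z_A⁻¹`. -/
noncomputable def mag (A : Finset L1) : ℝ := ∑ a, ∑ b, (Z A)⁻¹ a b

/-- The magnitude of a compact set: the supremum over non-empty finite subsets. -/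
noncomputable def magK (K : Set L1) : ℝ≥0∞ :=
  ⨆ (A : Finset L1) (_ : (A : Set L1) ⊆ K) (_ : A.Nonempty), ENNReal.ofReal (mag A)

/-- Positive definite, Heine-Borel, and closed balls have finite magnitude. -/
def Tractable (T : Set L1) : Prop :=
  (∀ A : Finset L1, (A : Set L1) ⊆ T → A.Nonempty → (Z A).PosDef) ∧
    (∀ S : Set T, IsClosed S → Bornology.IsBounded S → IsCompact S) ∧
      ∀ x ∈ T, ∀ r : ℝ, magK (T ∩ Metric.closedBall x r) < ⊤

/-- Magnitude is Hausdorff continuous on the non-empty finite subsets of `T`. -/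
def ContFin (T : Set L1) : Prop :=
  ∀ A : Finset L1, (A : Set L1) ⊆ T → A.Nonempty → ∀ ε > (0 : ℝ), ∃ δ > (0 : ℝ),
    ∀ B : Finset L1, (B : Set L1) ⊆ T → B.Nonempty →
      Metric.hausdorffDist (A : Set L1) B < δ → |mag A - mag B| < ε

/-- Magnitude is Hausdorff continuous on the non-empty compact subsets of `T`. -/
def ContCmp (T : Set L1) : Prop :=
  ∀ K ⊆ T, IsCompact K → K.Nonempty → ∀ ε > (0 : ℝ), ∃ δ > (0 : ℝ),
    ∀ L ⊆ T, IsCompact L → L.Nonempty →
      Metric.hausdorffDist K L < δ → |(magK K).toReal - (magK L).toReal| < ε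

end Pool.Agent.H3.Mag
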