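import Pool.Agent.H3.GeoDefs

open scoped Manifold ContDiff Topology
open Set Metric Filter

namespace Pool.Agent.H3.Ni

abbrev E3 : Type := Fin 3 → ℝ

noncomputable def L (a : ℝ) : E3 →L[ℝ] E3 :=
  LinearMap.toContinuousLinearMap
  { toFun := fun x => ![x 0, x 1 + 2 * a * x 0, x 2 - 2 * a * x 1 - 2 * a ^ 2 * x 0]
    map_add' := by intro x y; ext i; fin_cases i <;> simp <;> ring
    map_smul' := by intro c x; ext i; fin_cases i <;> simp <;> ring }

lemma L_apply (a : ℝ) (x : E3) :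
    L a x = ![x 0, x 1 + 2 * a * x 0, x 2 - 2 * a * x 1 - 2 * a ^ 2 * x 0] := rfl

lemma L_add (a b : ℝ) (x : E3) : L (a + b) x = L a (L b x) := by
  ext i; fin_cases i <;> simp [L_apply] <;> ring

lemma L_zero (x : E3) : L 0 x = x := by
  ext i; fin_cases i <;> simp [L_apply]

lemma L_0 (a : ℝ) (x : E3) : L a x 0 = x 0 := rfl

noncomputable def g0 : E3 →ₗ[ℝ] E3 →ₗ[ℝ] ℝ :=
  LinearMap.mk₂ ℝ (fun u w => u 0 * w 2 + u 2 * w 0 + u 1 * w 1)
    (by intros; simp; ring) (by intros; simp; ring)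
    (by intros; simp; ring) (by intros; simp; ring)

lemma g0_apply (u w : E3) : g0 u w = u 0 * w 2 + u 2 * w 0 + u 1 * w 1 := rfl

lemma g0_L (a : ℝ) (u w : E3) : g0 (L a u) (L a w) = g0 u w := by
  simp [g0_apply, L_apply]; ring

def IsInt (v : E3) : Prop := ∀ i, ∃ n : ℤ, v i = n

lemma L_int (k : ℤ) (v : E3) (hv : IsInt v) : IsInt (L k v) := by
  intro i
  choose n hn using hv
  rw [L_apply]
  fin_cases i
  · exact ⟨n 0, by simp [hn]⟩
  · exact ⟨n 1 + 2 * k * n 0, by simp [hn]⟩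
  · exact ⟨n 2 - 2 * k * n 1 - 2 * k ^ 2 * n 0, by simp [hn]⟩

lemma zp_add (k j : ℤ) (x : E3) : L ((k + j : ℤ) : ℝ) x = L k (L j x) := by
  rw [← L_add]; simp

lemma zp_cancel (k : ℤ) (x : E3) : L ((-k : ℤ) : ℝ) (L k x) = x := by
  rw [← L_add]; simp [L_zero]

lemma zp_cancel' (k : ℤ) (x : E3) : L k (L ((-k : ℤ) : ℝ) x) = x := by
  rw [← L_add]; simp [L_zero]

def R (k : ℤ) (x y : E3) : Prop := ∃ v : E3, IsInt v ∧ v 0 = k ∧ y = L (k : ℝ) x + v

lemma R.symm {k : ℤ} {x y : E3} (h : R k x y) : R (-k) y x := by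
  obtain ⟨v, hv, h4, rfl⟩ := h
  refine ⟨-L ((-k : ℤ) : ℝ) v, fun i => ?_, ?_, ?_⟩
  · obtain ⟨n, hn⟩ := L_int (-k) v hv i
    exact ⟨-n, by rw [Pi.neg_apply, hn]; simp⟩
  · rw [Pi.neg_apply, L_0, h4]; simp
  · rw [map_add, zp_cancel]; abel

lemma R.trans {k j : ℤ} {x y z : E3} (h : R k x y) (h' : R j y z) : R (j + k) x z := by
  obtain ⟨v, hv, h4, rfl⟩ := h
  obtain ⟨w, hw, h5, rfl⟩ := h'
  refine ⟨L (j : ℝ) v + w, fun i => ?_, ?_, ?_⟩
  · obtain ⟨n, hn⟩ := L_int j v hv i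
    obtain ⟨m, hm⟩ := hw i
    exact ⟨n + m, by simp [hn, hm]⟩
  · simp [L_0, h4, h5]; ring
  · rw [map_add, zp_add]; abel

lemma R.four {k : ℤ} {x y : E3} (h : R k x y) : y 0 = x 0 + k := by
  obtain ⟨v, -, h4, rfl⟩ := h
  simp [L_0, h4]

def S : Setoid E3 where
  r x y := ∃ k, R k x y
  iseqv := ⟨fun x => ⟨0, 0, fun _ => ⟨0, by simp⟩, by simp, by simp [L_zero]⟩,
    fun ⟨_, h⟩ => ⟨_, h.symm⟩, fun ⟨_, h⟩ ⟨_, h'⟩ => ⟨_, h.trans h'⟩⟩

def M : Type := Quotient S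

instance : TopologicalSpace M := inferInstanceAs (TopologicalSpace (Quotient S))

def p : E3 → M := Quotient.mk S

lemma p_eq {x y : E3} : p x = p y ↔ ∃ k, R k x y := Quotient.eq

lemma p_cont : Continuous p := continuous_quotient_mk'

lemma p_surj : Function.Surjective p := Quotient.mk_surjective

lemma p_open : IsOpenMap p := by
  intro U hU
  have hq : Topology.IsQuotientMap p := isQuotientMap_quotient_mk'
  rw [← hq.isOpen_preimage, isOpen_iff_mem_nhds]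
  rintro y ⟨x, hx, hxy⟩
  obtain ⟨k, h⟩ := p_eq.1 hxy
  obtain ⟨v, hv, h4, hx'⟩ := h.symm
  have hc : Continuous fun z : E3 => L ((-k : ℤ) : ℝ) z + v := by fun_prop
  have : (fun z : E3 => L ((-k : ℤ) : ℝ) z + v) ⁻¹' U ∈ 𝓝 y :=
    hc.continuousAt.preimage_mem_nhds (hU.mem_nhds (by rw [← hx']; exact hx))
  filter_upwards [this] with z hz
  exact ⟨_, hz, (p_eq.2 ⟨_, v, hv, h4, rfl⟩).symm⟩

lemma p_inj (x : E3) : InjOn p (ball x (1 / 4)) := by
  intro y hy z hz h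
  obtain ⟨k, h⟩ := p_eq.1 h
  have hd : ∀ i, |z i - y i| < 1 / 2 := fun i => by
    have h1 := dist_le_pi_dist z y i
    have h2 := dist_triangle_right z y x
    rw [mem_ball] at hy hz
    rw [← Real.dist_eq]; linarith
  have hz0 : ∀ n : ℤ, |(n : ℝ)| < 1 / 2 → n = 0 := fun n hn => by
    have : |(n : ℝ)| < 1 := by linarith
    have h3 : |n| < 1 := by exact_mod_cast this
    exact Int.abs_lt_one_iff.1 h3
  have hk : k = 0 := hz0 k (by have := hd 0; rwa [h.four, add_sub_cancel_left] at this)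
  subst hk
  obtain ⟨v, hv, -, rfl⟩ := h
  ext i
  obtain ⟨n, hn⟩ := hv i
  have := hd i
  simp only [Int.cast_zero, L_zero, Pi.add_apply, hn, add_sub_cancel_left] at this ⊢
  simp [hz0 n this]

noncomputable def σ (x : E3) : OpenPartialHomeomorph M E3 :=
  (OpenPartialHomeomorph.ofContinuousOpen ((p_inj x).toPartialEquiv p _) p_cont.continuousOn
    p_open isOpen_ball).symm

lemma σ_symm (x : E3) : ⇑(σ x).symm = p := rfl
lemma σ_target (x : E3) : (σ x).target = ball x (1 / 4) := rfl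
lemma σ_source (x : E3) : (σ x).source = p '' ball x (1 / 4) := rfl

lemma σ_p {x y : E3} (hy : y ∈ ball x (1 / 4)) : σ x (p y) = y :=
  (σ x).right_inv (show y ∈ (σ x).target from hy)

noncomputable def s (m : M) : E3 := Quotient.out m

lemma p_s (m : M) : p (s m) = m := Quotient.out_eq m

noncomputable instance : ChartedSpace E3 M where
  atlas := range σ
  chartAt m := σ (s m)
  mem_chart_source m := ⟨s m, mem_ball_self (by norm_num), p_s m⟩
  chart_mem_atlas m := ⟨_, rfl⟩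

lemma chart_eq (m : M) : chartAt E3 m = σ (s m) := rfl

lemma trans_ev {x y : E3} {k : ℤ} {v : E3} (hv : IsInt v) (h4 : v 0 = k)
    (hb : L (k : ℝ) y + v ∈ ball x (1 / 4)) :
    (fun z => σ x (p z)) =ᶠ[𝓝 y] fun z => L (k : ℝ) z + v := by
  have hc : Continuous fun z : E3 => L (k : ℝ) z + v := by fun_prop
  filter_upwards [hc.continuousAt.preimage_mem_nhds (isOpen_ball.mem_nhds hb)] with z hz
  rw [p_eq.2 ⟨k, v, hv, h4, rfl⟩]
  exact σ_p hz

instance : IsManifold 𝓘(ℝ, E3) ∞ M := by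
  refine isManifold_of_contDiffOn _ _ _ ?_
  rintro _ _ ⟨x, rfl⟩ ⟨x', rfl⟩ y hy
  simp only [mfld_simps] at hy
  obtain ⟨-, y', hy', hp⟩ := hy
  obtain ⟨k, v, hv, h4, rfl⟩ := p_eq.1 (show p y = p y' from hp.symm)
  apply ContDiffAt.contDiffWithinAt
  have hc : ContDiffAt ℝ ∞ (fun z : E3 => L (k : ℝ) z + v) y := by fun_prop
  exact hc.congr_of_eventuallyEq (trans_ev hv h4 hy')

instance : CompactSpace M := by
  have h : IsCompact (p '' Icc (0 : E3) 1) := isCompact_Icc.image p_cont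
  refine ⟨h.of_isClosed_subset isClosed_univ fun m _ => ?_⟩
  obtain ⟨x, rfl⟩ := p_surj m
  refine ⟨fun i => Int.fract (L ((-⌊x 0⌋ : ℤ) : ℝ) x i), ⟨fun i => Int.fract_nonneg _,
    fun i => (Int.fract_lt_one _).le⟩, (p_eq.2 ⟨-⌊x 0⌋, fun i => -(⌊L ((-⌊x 0⌋ : ℤ) : ℝ) x i⌋ : ℝ),
      fun i => ⟨-⌊L ((-⌊x 0⌋ : ℤ) : ℝ) x i⌋, by simp⟩, ?_, ?_⟩).symm⟩
  · show -((⌊L ((-⌊x 0⌋ : ℤ) : ℝ) x 0⌋ : ℤ) : ℝ) = _
    rw [L_0]; simp
  · ext i; simp [Int.fract, sub_eq_add_neg]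

instance : ConnectedSpace M := p_surj.connectedSpace p_cont

lemma closed_int : IsClosed {v : E3 | IsInt v} := by
  have : {v : E3 | IsInt v} = ⋂ i, (fun v : E3 => v i) ⁻¹' range ((↑) : ℤ → ℝ) := by
    ext v; simp [IsInt, eq_comm]
  rw [this]
  exact isClosed_iInter fun i => Int.isClosedEmbedding_coe_real.isClosed_range.preimage (by fun_prop)

instance : T2Space M := by
  rw [t2Space_iff_of_isOpenQuotientMap ⟨p_surj, p_cont, p_open⟩, ← isOpen_compl_iff,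
    isOpen_iff_mem_nhds]
  rintro ⟨x, y⟩ h
  simp only [mem_compl_iff, mem_setOf_eq, p_eq] at h
  have hc : Continuous fun q : E3 × E3 => q.2 0 - q.1 0 := by fun_prop
  by_cases h1 : ∃ k : ℤ, y 0 - x 0 = k
  · obtain ⟨k, hk⟩ := h1
    have h2 : y - L (k : ℝ) x ∈ {v : E3 | IsInt v}ᶜ := fun h2 =>
      h ⟨k, _, h2, by simp [L_0, hk], by abel⟩
    have hc2 : Continuous fun q : E3 × E3 => q.2 - L (k : ℝ) q.1 := by fun_prop
    have e1 := (hc2.continuousAt (x := (x, y))).preimage_mem_nhds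
      (closed_int.isOpen_compl.mem_nhds h2)
    have e2 := (hc.continuousAt (x := (x, y))).preimage_mem_nhds
      (ball_mem_nhds (y 0 - x 0) one_pos)
    filter_upwards [e1, e2] with q q1 q2
    simp only [mem_compl_iff, mem_setOf_eq, p_eq]
    rintro ⟨j, hj⟩
    have hjk : j = k := by
      simp only [mem_preimage, mem_ball, hj.four, add_sub_cancel_left, hk, Real.dist_eq] at q2
      have h3 : |j - k| < 1 := by exact_mod_cast q2
      have := Int.abs_lt_one_iff.1 h3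
      omega
    subst hjk
    obtain ⟨v, hv, -, e⟩ := hj
    apply q1
    show IsInt (q.2 - _)
    rw [e, add_sub_cancel_left]; exact hv
  · have h2 : y 0 - x 0 ∈ (range ((↑) : ℤ → ℝ))ᶜ := fun ⟨k, hk⟩ => h1 ⟨k, hk.symm⟩
    filter_upwards [(hc.continuousAt (x := (x, y))).preimage_mem_nhds
      (Int.isClosedEmbedding_coe_real.isClosed_range.isOpen_compl.mem_nhds h2)] with q q1
    simp only [mem_compl_iff, mem_setOf_eq, p_eq]
    rintro ⟨j, hj⟩
    exact q1 ⟨j, by simp [hj.four]⟩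

end Pool.Agent.H3.Ni
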