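import Pool.Agent.H3.Ni1

open scoped Manifold ContDiff Topology
open Set Metric Filter Pool.Agent.H3.Ps

namespace Pool.Agent.H3.Ni

lemma hasMF_p {y : E3} {k : ℤ} (h : R k (s (p y)) y) :
    HasMFDerivAt 𝓘(ℝ, E3) 𝓘(ℝ, E3) p y (L ((-k : ℤ) : ℝ)) := by
  refine ⟨p_cont.continuousAt, ?_⟩
  obtain ⟨v, hv, h4, e⟩ := h.symm
  have hb : L ((-k : ℤ) : ℝ) y + v ∈ ball (s (p y)) (1 / 4) := by
    rw [← e]; exact mem_ball_self (by norm_num)
  have h1 : HasFDerivAt (fun z : E3 => L ((-k : ℤ) : ℝ) z + v)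
      (L ((-k : ℤ) : ℝ)) y :=
    ((L ((-k : ℤ) : ℝ)).hasFDerivAt).add_const v
  exact (h1.congr_of_eventuallyEq (trans_ev hv h4 hb)).hasFDerivWithinAt

lemma hasMF_σ {x : E3} {m : M} {k : ℤ} (hm : m ∈ (σ x).source) (h : R k (s m) (σ x m)) :
    HasMFDerivAt 𝓘(ℝ, E3) 𝓘(ℝ, E3) (σ x) m (L (k : ℝ)) := by
  refine ⟨(σ x).continuousAt hm, ?_⟩
  obtain ⟨v, hv, h4, e⟩ := h
  have hb : L (k : ℝ) (s m) + v ∈ ball x (1 / 4) := by
    rw [← e]; exact (σ x).map_source hm
  have h1 : HasFDerivAt (fun z : E3 => L (k : ℝ) z + v)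
      (L (k : ℝ)) (s m) :=
    ((L (k : ℝ)).hasFDerivAt).add_const v
  have h2 := (h1.congr_of_eventuallyEq (trans_ev hv h4 hb))
  have e3 : extChartAt 𝓘(ℝ, E3) m m = s m := by
    show σ (s m) m = s m
    conv_lhs => arg 2; rw [← p_s m]
    exact σ_p (mem_ball_self (by norm_num))
  rw [e3]
  exact h2.hasFDerivWithinAt

lemma exists_R (y : E3) : ∃ k, R k (s (p y)) y := p_eq.1 (p_s _)

lemma up_down {c : M} {y : E3} (hy : y ∈ (chartAt E3 c).target) :
    ∃ k : ℤ, (∀ u, up E3 c y u = L ((-k : ℤ) : ℝ) u) ∧ ∀ u, down E3 c y u = L (k : ℝ) u := by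
  obtain ⟨k, hk⟩ := exists_R y
  refine ⟨k, fun u => ?_, fun u => ?_⟩
  · exact congrArg (fun f : E3 →L[ℝ] E3 => f u) (hasMF_p hk).mfderiv
  · have hm : p y ∈ (σ (s c)).source := ⟨y, hy, rfl⟩
    have h := hasMF_σ hm (k := k) (by rw [σ_p hy]; exact hk)
    exact congrArg (fun f : E3 →L[ℝ] E3 => f u) h.mfderiv

noncomputable def gM : Form E3 M := fun _ => g0

lemma formIn_eq {c : M} {y : E3} (hy : y ∈ (chartAt E3 c).target) (u w : E3) :
    formIn gM c y u w = g0 u w := by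
  obtain ⟨k, h1, -⟩ := up_down hy
  show g0 (up E3 c y u) (up E3 c y w) = _
  rw [h1, h1, g0_L]

lemma g0_nondeg (u : E3) (h : ∀ w, g0 u w = 0) : u = 0 := by
  have h0 := h (Pi.single 0 1)
  have h1 := h (Pi.single 1 1)
  have h2 := h (Pi.single 2 1)
  simp [g0_apply] at h0 h1 h2
  ext i; fin_cases i <;> simp [h0, h1, h2]

lemma isMetric : IsMetric gM :=
  ⟨fun _ u w => by show g0 u w = g0 w u; simp [g0_apply]; ring, fun _ => g0_nondeg, fun _ u w =>
    (contDiffOn_const (c := g0 u w)).congr fun _ hy => formIn_eq hy u w⟩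

lemma indef : IsIndefinite gM := fun _ =>
  ⟨⟨(![0, 1, 0] : E3), by show 0 < g0 _ _; simp [g0_apply]⟩,
    ⟨(![1, 0, -1] : E3), by show g0 _ _ < 0; simp [g0_apply]⟩⟩

lemma chr_iff {c : M} {y : E3} (hy : y ∈ (chartAt E3 c).target) {X Y w : E3} :
    IsChristoffel (formIn gM c) y X Y w ↔ w = 0 := by
  have hz : ∀ a b : E3, fderiv ℝ (fun z => formIn gM c z a b) y = 0 := fun a b => by
    have : (fun z => formIn gM c z a b) =ᶠ[𝓝 y] fun _ => g0 a b := by
      filter_upwards [(chartAt E3 c).open_target.mem_nhds hy] with z hz using formIn_eq hz a b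
    rw [this.fderiv_eq]; simp
  refine ⟨fun h => g0_nondeg w fun Z => ?_, fun h Z => ?_⟩
  · have := h Z
    rw [hz, hz, hz, formIn_eq hy] at this
    simpa using this
  · rw [hz, hz, hz, formIn_eq hy, h]; simp

noncomputable def fr (m : M) : E3 →L[ℝ] E3 := L (-(s m 0))

noncomputable def dp (y : E3) : E3 →L[ℝ] E3 := mfderiv 𝓘(ℝ, E3) 𝓘(ℝ, E3) p y

lemma fr_dp (y u : E3) : fr (p y) (dp y u) = L (-(y 0)) u := by
  obtain ⟨k, hk⟩ := exists_R y
  have : dp y = L ((-k : ℤ) : ℝ) := (hasMF_p hk).mfderiv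
  rw [this, fr, ← L_add, hk.four]
  congr 2
  push_cast; ring

lemma fr_up (c : M) (y u : E3) : fr ((chartAt E3 c).symm y) (up E3 c y u) = L (-(y 0)) u :=
  fr_dp y u

noncomputable def ηM : ∀ m : M, Tan E3 m →ₗ[ℝ] ℝ := fun m =>
  (LinearMap.proj 1 : E3 →ₗ[ℝ] ℝ) ∘ₗ (fr m).toLinearMap

lemma η_apply (m : M) (u : E3) : ηM m u = fr m u 1 := rfl

noncomputable def h0 : E3 →ₗ[ℝ] E3 →ₗ[ℝ] ℝ :=
  LinearMap.mk₂ ℝ (fun u w => u 0 * w 0 + u 1 * w 1 + u 2 * w 2)
    (by intros; simp; ring) (by intros; simp; ring)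
    (by intros; simp; ring) (by intros; simp; ring)

noncomputable def hM : Form E3 M := fun m => h0.compl₁₂ (fr m).toLinearMap (fr m).toLinearMap

lemma h_apply (m : M) (u w : E3) :
    hM m u w = fr m u 0 * fr m w 0 + fr m u 1 * fr m w 1 + fr m u 2 * fr m w 2 := rfl

lemma h_pos (m : M) (u : E3) (hu : u ≠ 0) : 0 < hM m u u := by
  rw [h_apply]
  by_contra hc
  apply hu
  have e0 : fr m u 0 = 0 := by nlinarith [mul_self_nonneg (fr m u 0), mul_self_nonneg (fr m u 1), mul_self_nonneg (fr m u 2)]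
  have e1 : fr m u 1 = 0 := by nlinarith [mul_self_nonneg (fr m u 0), mul_self_nonneg (fr m u 1), mul_self_nonneg (fr m u 2)]
  have e2 : fr m u 2 = 0 := by nlinarith [mul_self_nonneg (fr m u 0), mul_self_nonneg (fr m u 1), mul_self_nonneg (fr m u 2)]
  have e : fr m u = 0 := by ext i; fin_cases i <;> simp [e0, e1, e2]
  have : L (s m 0) (fr m u) = u := by rw [fr, ← L_add]; simp [L_zero]
  rw [← this, e, map_zero]

lemma isRiem : IsRiemannian hM := by
  refine ⟨⟨fun m u w => ?_, fun m u h => ?_, fun c u w => ?_⟩, h_pos⟩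
  · rw [h_apply, h_apply]; ring
  · by_contra hu
    exact (h_pos m u hu).ne' (h u)
  · have : (fun y => formIn hM c y u w) = fun y : E3 => L (-(y 0)) u 0 * L (-(y 0)) w 0 +
        L (-(y 0)) u 1 * L (-(y 0)) w 1 + L (-(y 0)) u 2 * L (-(y 0)) w 2 := by
      funext y
      rw [formIn, h_apply, fr_up, fr_up]
    rw [this]
    simp only [L_apply, Matrix.cons_val]
    fun_prop

lemma isOne : IsNontrivialOneForm ηM := by
  refine ⟨fun c u => ?_, p 0, fun h => ?_⟩
  · have : (fun y => ηM _ (up E3 c y u)) = fun y : E3 => L (-(y 0)) u 1 := by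
      funext y
      rw [η_apply, fr_up]
    rw [this]
    simp only [L_apply, Matrix.cons_val]
    fun_prop
  · have := congrArg (fun f : E3 →ₗ[ℝ] ℝ => f ![0, 1, 0]) h
    change fr (p 0) _ 1 = 0 at this
    simp [fr, L_apply] at this

def ln (x w : E3) (t : ℝ) : M := p (x + t • w)

lemma p_smooth : ContMDiff 𝓘(ℝ, E3) 𝓘(ℝ, E3) ∞ p := fun y =>
  contMDiffAt_symm_of_mem_maximalAtlas (e := σ y) (IsManifold.subset_maximalAtlas ⟨y, rfl⟩)
    (mem_ball_self (by norm_num))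

lemma ln_geo (x w : E3) : IsGeodesic gM (ln x w) := by
  intro t
  have h1 : ContDiff ℝ ∞ fun t : ℝ => x + t • w := by fun_prop
  refine ⟨(p_smooth.comp h1.contMDiff) t, fun c hc => ?_⟩
  rw [chr_iff ((chartAt E3 c).map_source hc), neg_eq_zero]
  obtain ⟨y', hy', hp⟩ := hc
  obtain ⟨k, v, hv, h4, rfl⟩ := p_eq.1 (show p (x + t • w) = p y' from hp.symm)
  have e : (chartAt E3 c ∘ ln x w) =ᶠ[𝓝 t] fun t => L k (x + t • w) + v :=
    h1.continuous.continuousAt.eventually (trans_ev hv h4 hy')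
  have e2 : deriv (fun t : ℝ => L k (x + t • w) + v) = fun _ => L k w := by
    funext t
    have : HasDerivAt (fun t : ℝ => x + t • w) w t := by
      simpa using ((hasDerivAt_id t).smul_const w).const_add x
    exact (((L k).hasFDerivAt.comp_hasDerivAt t this).add_const v).deriv
  rw [e.deriv.deriv_eq, e2]; simp

lemma vel_ln (x w : E3) (t : ℝ) : fr (ln x w t) (vel E3 (ln x w) t) = L (-(x 0 + t * w 0)) w := by
  have h1 : HasFDerivAt (fun t : ℝ => x + t • w) (ContinuousLinearMap.toSpanSingleton ℝ w) t := by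
    have : HasDerivAt (fun t : ℝ => x + t • w) w t := by
      simpa using ((hasDerivAt_id t).smul_const w).const_add x
    exact this
  have h2 := ((p_smooth (x + t • w)).mdifferentiableAt (by simp)).hasMFDerivAt.comp t
    h1.hasMFDerivAt
  have h3 : vel E3 (ln x w) t = dp (x + t • w) w := by
    have := congrArg (fun f : ℝ →L[ℝ] E3 => f 1) h2.mfderiv
    refine this.trans ?_
    show dp (x + t • w) ((1 : ℝ) • w) = _
    rw [one_smul]
  rw [h3]
  exact fr_dp _ _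

lemma loc {γ : ℝ → M} {t : ℝ} (h : ∀ᶠ t' in 𝓝 t, IsGeodesicAt gM γ t') :
    ∃ x w, x + t • w ∈ ball (s (γ t)) (1 / 4) ∧ γ =ᶠ[𝓝 t] ln x w := by
  set φ := chartAt E3 (γ t) with hφ
  have hs : ∀ᶠ t' in 𝓝 t, γ t' ∈ φ.source :=
    h.self_of_nhds.1.continuousAt.preimage_mem_nhds (chart_source_mem_nhds E3 (γ t))
  obtain ⟨r, hr, hB⟩ := Metric.eventually_nhds_iff_ball.1 (h.and hs)
  have hc : ContDiffOn ℝ ∞ (φ ∘ γ) (ball t r) := fun t' ht' =>
    ((contMDiffAt_of_mem_maximalAtlas (IsManifold.chart_mem_maximalAtlas (γ t))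
      (hB t' ht').2).comp t' (hB t' ht').1.1).contDiffAt.contDiffWithinAt
  have hc1 : ContDiffOn ℝ ∞ (deriv (φ ∘ γ)) (ball t r) :=
    hc.deriv_of_isOpen isOpen_ball (by exact_mod_cast le_top)
  obtain ⟨w, hw⟩ := isOpen_ball.exists_is_const_of_deriv_eq_zero
    (convex_ball t r).isPreconnected (hc1.differentiableOn (by simp)) fun t' ht' =>
      neg_eq_zero.1 ((chr_iff (φ.map_source (hB t' ht').2)).1 ((hB t' ht').1.2 _ (hB t' ht').2))
  have hd : ∀ t' ∈ ball t r, HasDerivAt (fun a : ℝ => (φ ∘ γ) a - a • w) 0 t' := fun t' ht' => by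
    have h1 := ((hc.differentiableOn (by simp)).differentiableAt
      (isOpen_ball.mem_nhds ht')).hasDerivAt
    rw [hw t' ht'] at h1
    have h2 := h1.fun_sub ((hasDerivAt_id' t').smul_const w)
    rwa [one_smul, sub_self] at h2
  obtain ⟨x, hx⟩ := isOpen_ball.exists_is_const_of_deriv_eq_zero
    (convex_ball t r).isPreconnected
    (fun t' ht' => (hd t' ht').differentiableAt.differentiableWithinAt) fun t' ht' =>
      (hd t' ht').deriv
  have e : ∀ t' ∈ ball t r, φ (γ t') = x + t' • w := fun t' ht' => by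
    rw [← hx t' ht']; simp
  refine ⟨x, w, ?_, ?_⟩
  · rw [← e t (mem_ball_self hr)]
    exact φ.map_source (hB t (mem_ball_self hr)).2
  · filter_upwards [ball_mem_nhds t hr] with t' ht'
    rw [ln, ← e t' ht']
    exact (φ.left_inv (hB t' ht').2).symm

lemma glob {γ : ℝ → M} {I : Set ℝ} (hI : IsOpen I) (hc : IsPreconnected I)
    (h : ∀ t ∈ I, IsGeodesicAt gM γ t) : ∃ x w, EqOn (ln x w) γ I := by
  rcases I.eq_empty_or_nonempty with rfl | ⟨t0, ht0⟩
  · exact ⟨0, 0, eqOn_empty _ _⟩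
  have hev : ∀ t ∈ I, ∀ᶠ t' in 𝓝 t, IsGeodesicAt gM γ t' := fun t ht =>
    eventually_of_mem (hI.mem_nhds ht) h
  obtain ⟨x, w, -, h0⟩ := loc (hev t0 ht0)
  have key : I ⊆ {t | γ =ᶠ[𝓝 t] ln x w} := by
    refine hc.subset_of_closure_inter_subset isOpen_setOf_eventually_nhds ⟨t0, ht0, h0⟩ ?_
    rintro t ⟨h1, h2⟩
    obtain ⟨x1, w1, b1, e1⟩ := loc (hev t h2)
    obtain ⟨x2, w2, b2, e2⟩ := loc (Eventually.of_forall (ln_geo x w) : ∀ᶠ t' in 𝓝 t, _)
    have hf := mem_closure_iff_frequently.1 h1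
    have e3 : γ t = ln x w t :=
      tendsto_nhds_unique_of_frequently_eq (h t h2).1.continuousAt (ln_geo x w t).1.continuousAt
        (hf.mono fun a ha => ha.self_of_nhds)
    rw [← e3] at b2
    have c1 : Continuous fun a : ℝ => x1 + a • w1 := by fun_prop
    have c2 : Continuous fun a : ℝ => x2 + a • w2 := by fun_prop
    have n1 := c1.continuousAt.preimage_mem_nhds (isOpen_ball.mem_nhds b1)
    have n2 := c2.continuousAt.preimage_mem_nhds (isOpen_ball.mem_nhds b2)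
    obtain ⟨a, ha, hb⟩ :=
      (hf.and_eventually (((e1.and e2).and (Filter.inter_mem n1 n2)).eventually_nhds)).exists
    have e4 : (fun a : ℝ => x1 + a • w1) =ᶠ[𝓝 a] fun a => x2 + a • w2 := by
      filter_upwards [ha, hb] with b q1 q2
      exact p_inj _ q2.2.1 q2.2.2 (q2.1.1.symm.trans (q1.trans q2.1.2))
    have d1 : HasDerivAt (fun a : ℝ => x1 + a • w1) w1 a := by
      simpa using ((hasDerivAt_id a).smul_const w1).const_add x1
    have d2 : HasDerivAt (fun a : ℝ => x2 + a • w2) w2 a := by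
      simpa using ((hasDerivAt_id a).smul_const w2).const_add x2
    have hw : w1 = w2 := (d1.congr_of_eventuallyEq e4.symm).unique d2
    have hx : x1 = x2 := by
      have := e4.self_of_nhds
      simp only [hw] at this
      exact add_right_cancel this
    subst hw hx
    exact e1.trans e2.symm
  exact ⟨x, w, fun t ht => (key ht).self_of_nhds.symm⟩

lemma geo_eq {γ : ℝ → M} (h : IsGeodesic gM γ) : ∃ x w, γ = ln x w := by
  obtain ⟨x, w, e⟩ := glob isOpen_univ isPreconnected_univ fun t _ => h t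
  exact ⟨x, w, funext fun t => (e (mem_univ t)).symm⟩

lemma fr_inj (m : M) : Function.Injective (fr m) := fun u w h => by
  have : ∀ u, L (s m 0) (fr m u) = u := fun u => by rw [fr, ← L_add]; simp [L_zero]
  rw [← this u, h, this]

lemma complete : IsGeodComplete gM := by
  refine ⟨fun m v => ⟨ln (s m) v, ln_geo _ _, ?_⟩, fun a b γ h => ?_⟩
  · have e : ln (s m) v 0 = m := by simp [ln, p_s]
    have h1 := vel_ln (s m) v 0
    rw [zero_mul, add_zero] at h1
    have h2 : fr m (vel E3 (ln (s m) v) 0) = fr m v := by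
      conv_lhs => arg 1; rw [← e]
      exact h1
    exact Bundle.TotalSpace.ext e (heq_of_eq (fr_inj m h2))
  · obtain ⟨x, w, e⟩ := glob isOpen_Ioo isPreconnected_Ioo h
    exact ⟨_, ln_geo x w, e⟩

lemma affine (x w : E3) : IsAffineAlong ηM (ln x w) (-2 * w 0 ^ 2) (w 1 - 2 * x 0 * w 0) := by
  intro t
  rw [η_apply, vel_ln]
  simp [L_apply]; ring

lemma light : IsLightLike gM (ln 0 ![1, 0, 0]) := by
  refine ⟨ln_geo _ _, ⟨0, 1 / 8, fun h => ?_⟩, fun t => ?_⟩
  · have := p_inj 0 (by simp) (by simp [norm_smul, pi_norm_lt_iff, Fin.forall_fin_succ]; norm_num) h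
    simpa using congrFun this 0
  · show g0 _ _ = 0
    rw [← g0_L (-(s (ln 0 ![1, 0, 0] t) 0))]
    show g0 (fr _ _) (fr _ _) = 0
    rw [vel_ln, g0_L]
    simp [g0_apply]

lemma form_expand {h : Form E3 M} (c : M) (y u : E3) : formIn h c y u u =
    ∑ i, ∑ j, u i * u j * formIn h c y (Pi.single i 1) (Pi.single j 1) := by
  have e : up E3 c y u = ∑ i, u i • up E3 c y (Pi.single i 1) := by
    conv_lhs => rw [pi_eq_sum_univ' u]
    simp [map_sum]
  unfold formIn
  conv_lhs => rw [e]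
  simp only [map_sum, map_smul, LinearMap.sum_apply, LinearMap.smul_apply, smul_eq_mul,
    Finset.mul_sum]
  rw [Finset.sum_comm]
  exact Finset.sum_congr rfl fun i _ => Finset.sum_congr rfl fun j _ => by ring

lemma loc_bound {h : Form E3 M} (hh : IsRiemannian h) (c : M) :
    ∃ C : ℝ, 0 ≤ C ∧ ∀ m ∈ p '' ball (s c) (1 / 8), ∀ v : E3, fr m v 1 ^ 2 ≤ C * h m v v := by
  have hK : IsCompact (closedBall (s c) (1 / 8) ×ˢ sphere (0 : E3) 1) :=
    (isCompact_closedBall _ _).prod (isCompact_sphere _ _)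
  have hpos : ∀ y u : E3, u ≠ 0 → 0 < formIn h c y u u := fun y u hu =>
    hh.2 _ _ fun h0 => hu (by
      have h1 := fr_up c y u
      rw [h0] at h1
      have h2 : L (y 0) (L (-(y 0)) u) = u := by rw [← L_add]; simp [L_zero]
      rw [← h2, ← h1]
      exact (congrArg _ (map_zero _)).trans (map_zero _))
  have hF : ContinuousOn (fun q : E3 × E3 => formIn h c q.1 q.2 q.2)
      (closedBall (s c) (1 / 8) ×ˢ sphere (0 : E3) 1) := by
    simp only [form_expand c]
    refine continuousOn_finset_sum _ fun i _ => continuousOn_finset_sum _ fun j _ => ?_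
    refine ContinuousOn.mul (by fun_prop) ?_
    exact (hh.1.2.2 c _ _).continuousOn.comp continuousOn_fst fun q hq =>
      closedBall_subset_ball (by norm_num) hq.1
  have hG : ContinuousOn (fun q : E3 × E3 => L (-(q.1 0)) q.2 1 ^ 2 / formIn h c q.1 q.2 q.2)
      (closedBall (s c) (1 / 8) ×ˢ sphere (0 : E3) 1) := by
    refine ContinuousOn.div ?_ hF fun q hq => (hpos _ _ ?_).ne'
    · simp only [L_apply, Matrix.cons_val]; fun_prop
    · rintro h0; simpa [h0] using hq.2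
  obtain ⟨C, hC⟩ := hK.bddAbove_image hG
  refine ⟨|C|, abs_nonneg _, ?_⟩
  rintro _ ⟨y, hy, rfl⟩ v
  obtain ⟨u, rfl⟩ : ∃ u, dp y u = v := ⟨L (y 0) (fr (p y) v), fr_inj (p y) (by
    rw [fr_dp, ← L_add]; simp [L_zero])⟩
  show _ ≤ |C| * formIn h c y u u
  rw [fr_dp]
  by_cases hu : u = 0
  · subst hu; simp [formIn]
  have hn : 0 < ‖u‖ := norm_pos_iff.2 hu
  have h1 := hC ⟨(y, ‖u‖⁻¹ • u), ⟨ball_subset_closedBall hy, by
    simp [norm_smul, hn.ne']⟩, rfl⟩
  have e1 : formIn h c y (‖u‖⁻¹ • u) (‖u‖⁻¹ • u) = ‖u‖⁻¹ ^ 2 * formIn h c y u u := by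
    simp only [formIn, map_smul, LinearMap.smul_apply, smul_eq_mul]; ring
  simp only [map_smul, Pi.smul_apply, smul_eq_mul, e1, mul_pow] at h1
  rw [mul_div_mul_left _ _ (by positivity), div_le_iff₀ (hpos y u hu)] at h1
  exact h1.trans (mul_le_mul_of_nonneg_right (le_abs_self C) (hpos y u hu).le)

lemma glob_bound {h : Form E3 M} (hh : IsRiemannian h) :
    ∃ C : ℝ, 0 ≤ C ∧ ∀ m, ∀ v : E3, fr m v 1 ^ 2 ≤ C * h m v v := by
  choose C hC0 hC using loc_bound hh
  obtain ⟨t, ht⟩ := isCompact_univ.elim_finite_subcover (fun c : M => p '' ball (s c) (1 / 8))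
    (fun c => p_open _ isOpen_ball) fun m _ =>
      mem_iUnion.2 ⟨m, s m, mem_ball_self (by norm_num), p_s m⟩
  refine ⟨∑ c ∈ t, C c, Finset.sum_nonneg fun c _ => hC0 c, fun m v => ?_⟩
  obtain ⟨c, hc, hm⟩ := mem_iUnion₂.1 (ht (mem_univ m))
  refine (hC c m hm v).trans (mul_le_mul_of_nonneg_right
    (Finset.single_le_sum (fun c _ => hC0 c) hc) ?_)
  by_cases hv : v = 0
  · subst hv; exact (congrArg (fun f : E3 →ₗ[ℝ] ℝ => f 0) (map_zero (h m))).ge
  · exact (hh.2 m v hv).le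

lemma unbounded {h : Form E3 M} (hh : IsRiemannian h) (m : M) (v : E3) (hv : v 0 ≠ 0) :
    ¬ BoundedOrbit gM h m v := by
  intro hb
  obtain ⟨C, hC0, hC⟩ := glob_bound hh
  obtain ⟨γ, hγ, hs⟩ := complete.1 m v
  obtain ⟨r, hr⟩ := hb γ hγ hs
  obtain ⟨x, w, rfl⟩ := geo_eq hγ
  have e : w 0 = v 0 := by
    have h1 := congrFun (vel_ln x w 0) 0
    have h2 : vel E3 (ln x w) 0 = v := congrArg (fun q : TangentBundle 𝓘(ℝ, E3) M => (q.2 : E3)) hs
    rw [h2] at h1
    exact h1.symm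
  have hw0 : w 0 ≠ 0 := by rw [e]; exact hv
  set t := (w 1 - 2 * x 0 * w 0 + (|C * r| + 1)) / (2 * w 0 ^ 2) with ht
  have h3 := (hC _ (vel E3 (ln x w) t)).trans (mul_le_mul_of_nonneg_left (hr t) hC0)
  have h5 : -2 * w 0 ^ 2 * t + (w 1 - 2 * x 0 * w 0) = -(|C * r| + 1) := by
    rw [ht]; field_simp; ring
  rw [← η_apply, affine x w t, h5] at h3
  nlinarith [le_abs_self (C * r), abs_nonneg (C * r)]

lemma ae_unb {h : Form E3 M} (hh : IsRiemannian h) :
    AlmostEvery fun m v => ¬ BoundedOrbit gM h m v := by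
  intro c
  have h1 : ∀ᵐ u : E3, u 0 ≠ 0 := MeasureTheory.Measure.ae_eval_ne (fun _ => MeasureTheory.volume) 0 0
  have h2 : ∀ᵐ q : E3 × E3, q.2 0 ≠ 0 := MeasureTheory.Measure.quasiMeasurePreserving_snd.ae h1
  filter_upwards [h2] with q hq hy
  obtain ⟨k, e, -⟩ := up_down hy
  exact unbounded hh _ _ (by rw [e, L_0]; exact hq)

lemma not_ae {h : Form E3 M} (hh : IsRiemannian h) :
    ¬ AlmostEvery fun m v => BoundedOrbit gM h m v := by
  intro h
  have h1 : ∀ᵐ q : E3 × E3, q ∉ (chartAt E3 (p 0)).target ×ˢ (univ : Set E3) := by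
    filter_upwards [h (p 0), ae_unb hh (p 0)] with q h1 h2 hq using h2 hq.1 (h1 hq.1)
  have h2 := ((chartAt E3 (p 0)).open_target.prod isOpen_univ).measure_pos MeasureTheory.volume
    ⟨(_, (0 : E3)), mem_chart_target E3 (p 0), mem_univ _⟩
  exact h2.ne' (MeasureTheory.measure_eq_zero_iff_ae_notMem.2 h1)

end Pool.Agent.H3.Ni
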