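import Mathlib

set_option autoImplicit false

namespace Pool.Agent.H3.Nov

open Finset

def IsCyclicDesign (v : ℕ) [NeZero v] (k lam : ℕ) (m : Finset (ZMod v) → ℕ) : Prop :=
  (∀ b, m b ≠ 0 → b.card = k) ∧
  (∀ x y : ZMod v, x ≠ y → ∑ b ∈ univ.filter (fun b => x ∈ b ∧ y ∈ b), m b = lam) ∧
  ∀ (t : ZMod v) (b : Finset (ZMod v)), m (b.image (· + t)) = m b

def HasDisjointReps (v : ℕ) [NeZero v] (m : Finset (ZMod v) → ℕ) : Prop :=
  ∃ R : List (Finset (ZMod v)), R.Pairwise Disjoint ∧
    ∀ b : Finset (ZMod v), R.countP (fun r => decide (∃ t, r = b.image (· + t))) = m b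

section
variable {R : Type} [CommRing R] [DecidableEq R]

def e (w x y z : R) : ℕ := if x + w * y + w ^ 2 * z = 0 then 1 else 0

def mult (w : R) (b : Finset R) : ℕ :=
  if b.card = 3 then (∑ p ∈ b, ∑ q ∈ b, ∑ r ∈ b, if p = q then 0 else e w p q r) / 3 else 0

variable {w : R} (hw : w ^ 2 + w + 1 = 0)
include hw

lemma e_cyc (x y z : R) : e w y z x = e w x y z := by
  unfold e
  congr 1
  apply propext
  constructor
  · intro h; linear_combination w * h - (w - 1) * x * hw
  · intro h; linear_combination w ^ 2 * h - (w - 1) * (y + w * z) * hw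

lemma e_zero1 {x y : R} (h : x ≠ y) : e w x y x = 0 := by
  unfold e
  rw [if_neg]
  intro h1
  apply h
  linear_combination (-w ^ 2) * h1 + ((w ^ 2 - w + 1) * x + (w - 1) * y) * hw

lemma e_zero2 {x y : R} (h : x ≠ y) : e w x y y = 0 := by
  unfold e
  rw [if_neg]
  intro h1
  apply h
  linear_combination h1 - y * hw

lemma mval {x y z : R} (h1 : x ≠ y) (h2 : x ≠ z) (h3 : y ≠ z) :
    mult w {x, y, z} = e w x y z + e w y x z := by
  have hc : ({x, y, z} : Finset R).card = 3 := card_eq_three.2 ⟨x, y, z, h1, h2, h3, rfl⟩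
  have hs : ∀ f : R → ℕ, ∑ p ∈ ({x, y, z} : Finset R), f p = f x + f y + f z := by
    intro f
    rw [sum_insert (by simp [h1, h2]), sum_insert (by simp [h3]), sum_singleton, add_assoc]
  unfold mult
  rw [if_pos hc]
  simp only [hs, if_true, h1, h2, h3, h1.symm, h2.symm, h3.symm, if_false]
  rw [e_zero1 hw h1, e_zero1 hw h2, e_zero1 hw h3, e_zero1 hw h1.symm, e_zero1 hw h2.symm,
    e_zero1 hw h3.symm, e_zero2 hw h1, e_zero2 hw h2, e_zero2 hw h3, e_zero2 hw h1.symm,
    e_zero2 hw h2.symm, e_zero2 hw h3.symm]
  have a1 := e_cyc hw x y z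
  have a2 := e_cyc hw y z x
  have a3 := e_cyc hw y x z
  have a4 := e_cyc hw x z y
  omega

lemma e_sum [Fintype R] {x y : R} (h : x ≠ y) : ∑ z ∈ (univ.erase x).erase y, e w x y z = 1 := by
  have h1 : ∑ z, e w x y z = 1 := by
    have : ∀ z, e w x y z = if z = -w * x - w ^ 2 * y then 1 else 0 := by
      intro z
      unfold e
      congr 1
      apply propext
      constructor
      · intro h; linear_combination w * h - (w - 1) * z * hw
      · intro h; rw [h]; linear_combination (-(w - 1) * (x + w * y)) * hw
    simp [this]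
  rw [← add_sum_erase _ _ (mem_univ x), ← add_sum_erase _ _ (mem_erase.2 ⟨h.symm, mem_univ y⟩),
    e_zero1 hw h, e_zero2 hw h] at h1
  omega

lemma pair_sum [Fintype R] {x y : R} (h : x ≠ y) :
    ∑ b ∈ univ.filter (fun b : Finset R => x ∈ b ∧ y ∈ b), mult w b = 2 := by
  have hsub : ((univ.erase x).erase y).image (fun z => ({x, y, z} : Finset R)) ⊆
      univ.filter (fun b : Finset R => x ∈ b ∧ y ∈ b) := by
    intro b hb
    obtain ⟨z, -, rfl⟩ := mem_image.1 hb
    simp
  rw [← sum_subset hsub, sum_image]
  · rw [sum_congr rfl (g := fun z => e w x y z + e w y x z), sum_add_distrib, e_sum hw h,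
      erase_right_comm, e_sum hw h.symm]
    intro z hz
    simp only [mem_erase, mem_univ, and_true] at hz
    exact mval hw h (Ne.symm hz.2) (Ne.symm hz.1)
  · intro z hz z' hz' hh
    simp only [coe_erase, Set.mem_diff, coe_univ, Set.mem_univ, Set.mem_singleton_iff,
      true_and] at hz
    have : z ∈ ({x, y, z'} : Finset R) := by
      simp only at hh
      rw [← hh]; simp
    simpa [hz.1, hz.2] using this
  · intro b hb hn
    unfold mult
    rw [if_neg]
    intro hc
    apply hn
    simp only [mem_filter, mem_univ, true_and] at hb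
    have h1 : ((b.erase x).erase y).card = 1 := by
      rw [card_erase_of_mem (mem_erase.2 ⟨h.symm, hb.2⟩), card_erase_of_mem hb.1, hc]
    obtain ⟨z, hz⟩ := card_eq_one.1 h1
    have hz1 : z ∈ (b.erase x).erase y := by rw [hz]; simp
    simp only [mem_erase] at hz1
    refine mem_image.2 ⟨z, by simp [hz1.1, hz1.2.1], ?_⟩
    have h2 := insert_erase (mem_erase.2 ⟨h.symm, hb.2⟩ : y ∈ b.erase x)
    rw [hz] at h2
    have h3 := insert_erase hb.1
    rw [← h2] at h3
    exact h3

lemma mult_shift (t : R) (b : Finset R) : mult w (b.image (· + t)) = mult w b := by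
  have hi : Function.Injective (fun x : R => x + t) := add_left_injective t
  by_cases hc : b.card = 3
  · obtain ⟨x, y, z, h1, h2, h3, rfl⟩ := card_eq_three.1 hc
    have he : ∀ p q r : R, e w (p + t) (q + t) (r + t) = e w p q r := by
      intro p q r
      unfold e
      congr 1
      apply propext
      constructor
      · intro h; linear_combination h - t * hw
      · intro h; linear_combination h + t * hw
    simp only [image_insert, image_singleton]
    rw [mval hw (hi.ne h1) (hi.ne h2) (hi.ne h3), mval hw h1 h2 h3, he, he]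
  · unfold mult
    rw [card_image_of_injective _ hi, if_neg hc, if_neg hc]

end

lemma sum_card_le {α : Type} [DecidableEq α] (L : List (Finset α)) (h : L.Pairwise Disjoint) :
    ∀ U : Finset α, (∀ r ∈ L, r ⊆ U) → (L.map card).sum ≤ U.card := by
  induction L with
  | nil => simp
  | cons r L ih =>
    intro U hU
    obtain ⟨h1, h2⟩ := List.pairwise_cons.1 h
    have hr := hU r (by simp)
    have := ih h2 (U \ r) (fun s hs => subset_sdiff.2 ⟨hU s (by simp [hs]), (h1 s hs).symm⟩)
    rw [card_sdiff_of_subset hr] at this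
    have := card_le_card hr
    simp only [List.map_cons, List.sum_cons]
    omega

lemma count_le {α β : Type} (P : α → β → Bool) (S : Finset β) (H : β) (c : α → ℕ) (L : List α)
    (h : ∀ r ∈ L, (S.filter (fun b => P r b)).card + (if P r H then 2 else 0) ≤ c r) :
    ∑ b ∈ S, L.countP (fun r => P r b) + 2 * L.countP (fun r => P r H) ≤ (L.map c).sum := by
  induction L with
  | nil => simp
  | cons r L ih =>
    have h1 := ih (fun s hs => h s (by simp [hs]))
    have h2 := h r (by simp)
    simp only [List.countP_cons, sum_add_distrib, List.map_cons, List.sum_cons]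
    rw [card_filter] at h2
    split_ifs at h2 ⊢ <;> omega

theorem no_reps (v : ℕ) [NeZero v] (m : Finset (ZMod v) → ℕ) (hm : IsCyclicDesign v 3 2 m)
    (h : ZMod v) (h3 : h + h + h = 0) (hH : m {0, h, h + h} = 2) : ¬ HasDisjointReps v m := by
  rintro ⟨R, hR, hc⟩
  obtain ⟨m1, m2, -⟩ := hm
  have hcard : ∀ r ∈ R, r.card = 3 := by
    intro r hr
    apply m1
    rw [← hc r]
    exact (List.countP_pos_iff.2 ⟨r, hr, decide_eq_true ⟨0, by simp⟩⟩).ne'
  have h1 := sum_card_le R hR univ (fun _ _ => subset_univ _)
  have h2 := count_le (fun (r b : Finset (ZMod v)) => decide (∃ t, r = b.image (· + t)))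
    (univ.filter (fun b => (0 : ZMod v) ∈ b)) {0, h, h + h} card R (by
      intro r hr
      split_ifs with hP
      · obtain ⟨s, hs⟩ := of_decide_eq_true hP
        rw [hcard r hr]
        suffices hh : ((univ.filter (fun b : Finset (ZMod v) => (0 : ZMod v) ∈ b)).filter
            (fun b : Finset (ZMod v) => decide (∃ t, r = b.image (· + t)) = true)).card ≤ 1 by omega
        refine (card_le_card (t := {{0, h, h + h}}) ?_).trans (by simp)
        intro b hb
        simp only [mem_filter, mem_univ, true_and, decide_eq_true_eq] at hb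
        obtain ⟨hb0, t, ht⟩ := hb
        have hb1 : b = ({0, h, h + h} : Finset (ZMod v)).image (· + (s - t)) := by
          have : b = (b.image (· + t)).image (· - t) := by
            rw [image_image]; simp [Function.comp_def]
          rw [this, ← ht, hs, image_image]
          congr 1
          funext x
          simp only [Function.comp]; ring
        generalize s - t = u at hb1
        subst hb1
        simp only [image_insert, image_singleton, mem_insert, mem_singleton] at hb0 ⊢
        rcases hb0 with h0 | h0 | h0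
        · have : u = 0 := by linear_combination -h0
          subst this; simp
        · have : u = h + h := by linear_combination -h0 - h3
          subst this
          have e1 : h + (h + h) = 0 := by linear_combination h3
          have e2 : h + h + (h + h) = h := by linear_combination h3
          rw [e1, e2, zero_add]
          ext x; simp only [mem_insert, mem_singleton]; tauto
        · have : u = h := by linear_combination -h0 - h3
          subst this
          rw [h3, zero_add]
          ext x; simp only [mem_insert, mem_singleton]; tauto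
      · rw [add_zero]
        refine (card_le_card (t := r.image (fun x => r.image (· - x))) ?_).trans card_image_le
        intro b hb
        simp only [mem_filter, mem_univ, true_and, decide_eq_true_eq] at hb
        obtain ⟨hb0, t, rfl⟩ := hb
        refine mem_image.2 ⟨t, mem_image.2 ⟨0, hb0, zero_add t⟩, ?_⟩
        rw [image_image]; simp [Function.comp_def])
  simp only [hc] at h2
  rw [hH] at h2
  have h4 : ∑ y ∈ univ.erase (0 : ZMod v),
      ∑ b ∈ univ.filter (fun b : Finset (ZMod v) => 0 ∈ b ∧ y ∈ b), m b =
      2 * ∑ b ∈ univ.filter (fun b => (0 : ZMod v) ∈ b), m b := by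
    simp only [sum_filter]
    rw [sum_comm, mul_sum]
    apply sum_congr rfl
    intro b _
    by_cases hb : (0 : ZMod v) ∈ b
    · simp only [hb, true_and, if_true]
      rw [← sum_filter, sum_const, smul_eq_mul]
      by_cases hm0 : m b = 0
      · simp [hm0]
      · congr 1
        have : (univ.erase (0 : ZMod v)).filter (fun y => y ∈ b) = b.erase 0 := by
          ext y; simp
        rw [this, card_erase_of_mem hb, m1 b hm0]
    · simp [hb]
  rw [sum_congr rfl (g := fun _ => 2) (fun y hy => m2 0 y (ne_of_mem_erase hy).symm), sum_const,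
    card_erase_of_mem (mem_univ _), smul_eq_mul] at h4
  have : 0 < (univ : Finset (ZMod v)).card := card_pos.2 univ_nonempty
  omega

theorem main (v0 : ℕ) : ∃ (v : ℕ) (_ : NeZero v), v0 ≤ v ∧ ∃ m : Finset (ZMod v) → ℕ,
    IsCyclicDesign v 3 2 m ∧ ¬ HasDisjointReps v m := by
  obtain ⟨u, hu⟩ : ∃ u : ℕ, u = 3 * v0 ^ 2 + 3 * v0 + 1 := ⟨_, rfl⟩
  haveI hv : NeZero (3 * u) := ⟨by omega⟩
  have h0 : ((3 * u : ℕ) : ZMod (3 * u)) = 0 := ZMod.natCast_self _
  have h3 : (u : ZMod (3 * u)) + u + u = 0 := by
    push_cast at h0; linear_combination h0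
  have hw : (3 * (v0 : ZMod (3 * u)) + 1) ^ 2 + (3 * (v0 : ZMod (3 * u)) + 1) + 1 = 0 := by
    have : (u : ZMod (3 * u)) = 3 * (v0 : ZMod (3 * u)) ^ 2 + 3 * v0 + 1 := by
      have := congrArg (Nat.cast : ℕ → ZMod (3 * u)) hu
      push_cast at this
      exact this
    linear_combination h3 - 3 * this
  have hne : (u : ZMod (3 * u)) ≠ 0 := by
    intro h
    have := Nat.le_of_dvd (by omega) ((ZMod.natCast_eq_zero_iff _ _).1 h)
    omega
  have hd : IsCyclicDesign (3 * u) 3 2 (mult (3 * (v0 : ZMod (3 * u)) + 1)) :=
    ⟨fun b hb => by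
      by_contra hc
      exact hb (by unfold mult; rw [if_neg hc]), fun x y h => pair_sum hw h,
      fun t b => mult_shift hw t b⟩
  refine ⟨3 * u, hv, by nlinarith, _, hd, no_reps _ _ hd u h3 ?_⟩
  rw [mval hw hne.symm (fun h => hne (by linear_combination h3 + h))
    (fun h => hne (by linear_combination -h))]
  unfold e
  rw [if_pos, if_pos]
  · linear_combination (6 * (v0 : ZMod (3 * u)) ^ 2 + 4 * v0 + 1) * h3
  · linear_combination (6 * (v0 : ZMod (3 * u)) ^ 2 + 5 * v0 + 1) * h3

end Pool.Agent.H3.Nov
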