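import Mathlib

set_option autoImplicit false

namespace Pool.Agent.H3.Peb

open Finset

def IsIsthmus {V : Type} (G : SimpleGraph V) (d : ℕ) (v : Fin d → V) : Prop :=
  Function.Injective v ∧
  (∀ i j : Fin d, (i : ℕ) + 1 = j → G.Adj (v i) (v j) ∧ G.IsBridge s(v i, v j)) ∧
  (∀ i, ¬ (G.induce {v i}ᶜ).Preconnected) ∧
  ∀ i : Fin d, 0 < (i : ℕ) → (i : ℕ) + 1 < d → (G.neighborSet (v i)).ncard = 2

def Move {V : Type} {n : ℕ} (G : SimpleGraph V) (f g : Fin n → V) : Prop :=
  ∃ i, G.Adj (f i) (g i) ∧ (∀ j, f j ≠ g i) ∧ ∀ j, j ≠ i → g j = f j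

section core
variable {n : ℕ} (T : ℕ) (y : ℕ → Fin n → ℕ) (m : ℕ → Fin n)

def sc (s t : ℕ) : Prop := y t (m t) ≠ y (t + 1) (m t) ∧ s ≤ min (y t (m t)) (y (t + 1) (m t)) ∧
  min (y t (m t)) (y (t + 1) (m t)) < 2 * s

instance (s t : ℕ) : Decidable (sc y m s t) := by unfold sc; infer_instance

def C (s t : ℕ) : ℕ := ((range t).filter (sc y m s)).card

lemma C_mono (s : ℕ) {a b : ℕ} (h : a ≤ b) : C y m s a ≤ C y m s b :=
  card_le_card (filter_subset_filter _ (range_subset_range.2 h))

lemma C_lt (s : ℕ) {a b : ℕ} (h : a < b) (ha : sc y m s a) : C y m s a < C y m s b := by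
  apply card_lt_card
  refine ⟨filter_subset_filter _ (range_subset_range.2 h.le), fun hh => ?_⟩
  have := hh (mem_filter.2 ⟨mem_range.2 h, ha⟩)
  simp at this

open Classical in
noncomputable def Vis (s e : ℕ) : Finset (Fin n) :=
  univ.filter (fun i => ∃ t ≤ T, C y m s t / s ^ 2 = e ∧ y t i = 0)

lemma mem_Vis (s e : ℕ) (i : Fin n) :
    i ∈ Vis T y m s e ↔ ∃ t ≤ T, C y m s t / s ^ 2 = e ∧ y t i = 0 := by simp [Vis]

variable (h1 : ∀ t < T, ∀ i, i ≠ m t → y (t + 1) i = y t i)
  (h2 : ∀ t < T, y (t + 1) (m t) ≤ y t (m t) + 1 ∧ y t (m t) ≤ y (t + 1) (m t) + 1)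
include h1 h2

lemma pebble (s : ℕ) (i : Fin n) (a b : ℕ) (hab : a ≤ b) (hb : b ≤ T) :
    min (y a i) (2 * s) - s ≤ (min (y b i) (2 * s) - s) +
      ((Ico a b).filter (fun t => m t = i ∧ sc y m s t)).card := by
  induction b, hab using Nat.le_induction with
  | base => simp
  | succ b hab ih =>
    have ih := ih (by omega)
    rw [show Ico a (b + 1) = insert b (Ico a b) by ext; simp; omega, filter_insert]
    split_ifs with hc
    · rw [card_insert_of_notMem (by simp)]
      have := h2 b (by omega)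
      rw [hc.1] at this
      omega
    · by_cases hi : m b = i
      · have h3 := h2 b (by omega)
        have h4 : ¬ sc y m s b := fun h => hc ⟨hi, h⟩
        unfold sc at h4
        rw [hi] at h3 h4
        omega
      · rw [h1 b (by omega) i (Ne.symm hi)]; exact ih

lemma epoch (s : ℕ) (hs : 0 < s) (h3 : ∀ t ≤ T, (univ.filter (fun i => y t i < 2 * s)).card ≤ 4 * s)
    (e : ℕ) : (Vis T y m s e).card ≤ 5 * s := by
  classical
  by_cases hex : ∃ t, t ≤ T ∧ C y m s t / s ^ 2 = e
  swap
  · rw [eq_empty_of_forall_notMem (s := Vis T y m s e)]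
    · simp
    · intro i hi
      obtain ⟨t, ht, he, -⟩ := (mem_Vis T y m s e i).1 hi
      exact hex ⟨t, ht, he⟩
  obtain ⟨ha1, ha2⟩ := Nat.find_spec hex
  set a := Nat.find hex with ha
  set V := Vis T y m s e with hV
  set M := (range T).filter (fun t => sc y m s t ∧ C y m s t / s ^ 2 = e) with hM
  have hs2 : 0 < s ^ 2 := by positivity
  have hMc : M.card ≤ s ^ 2 := by
    have : M.card ≤ (Ico (e * s ^ 2) (e * s ^ 2 + s ^ 2)).card := by
      apply card_le_card_of_injOn (C y m s)
      · intro t ht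
        have h := (mem_filter.1 (mem_coe.1 ht)).2.2
        simp only [coe_Ico, Set.mem_Ico]
        rw [← h]
        exact ⟨Nat.div_mul_le_self _ _, Nat.lt_div_mul_add hs2⟩
      · intro t ht t' ht' h
        rcases lt_trichotomy t t' with hl | hl | hl
        · exact absurd h (C_lt y m s hl (mem_filter.1 (mem_coe.1 ht)).2.1).ne
        · exact hl
        · exact absurd h (C_lt y m s hl (mem_filter.1 (mem_coe.1 ht')).2.1).ne'
    simpa using this
  set V2 := V.filter (fun i => ¬ y a i < 2 * s) with hV2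
  have hV2c : V2.card * s ≤ M.card := by
    have e1 := card_eq_sum_card_fiberwise (f := m) (s := M.filter (fun t => m t ∈ V2)) (t := V2)
      (fun t ht => (mem_filter.1 (mem_coe.1 ht)).2)
    refine le_trans ?_ (card_filter_le M (fun t => m t ∈ V2))
    rw [e1, ← smul_eq_mul, ← sum_const]
    apply sum_le_sum
    intro i hi
    obtain ⟨hiV, hia⟩ := mem_filter.1 hi
    obtain ⟨b, hbT, hbe, hb0⟩ := (mem_Vis T y m s e i).1 hiV
    have hab : a ≤ b := Nat.find_min' hex ⟨hbT, hbe⟩
    have hp := pebble T y m h1 h2 s i a b hab hbT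
    refine le_trans (by omega) (card_le_card
      (s := (Ico a b).filter (fun t => m t = i ∧ sc y m s t)) ?_)
    intro t ht
    simp only [mem_filter, mem_Ico, hM, mem_range] at ht ⊢
    refine ⟨⟨⟨by omega, ht.2.2, le_antisymm ?_ ?_⟩, ?_⟩, ht.2.1⟩
    · rw [← hbe]; exact Nat.div_le_div_right (C_mono y m s ht.1.2.le)
    · rw [← ha2]; exact Nat.div_le_div_right (C_mono y m s ht.1.1)
    · rw [ht.2.1]; simpa [hV2] using hi
  have hV2s : V2.card ≤ s := Nat.le_of_mul_le_mul_right (by nlinarith) hs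
  have e2 := card_filter_add_card_filter_not (s := V) (fun i => y a i < 2 * s)
  have e3 : (V.filter (fun i => y a i < 2 * s)).card ≤ 4 * s :=
    (card_le_card (filter_subset_filter _ (subset_univ _))).trans (h3 a ha1)
  rw [← hV2] at e2
  omega

lemma scale (s : ℕ) (hs : 0 < s) (h3 : ∀ t ≤ T, (univ.filter (fun i => y t i < 2 * s)).card ≤ 4 * s)
    (h4 : ∀ i j, i ≠ j → ∃ t ≤ T, y t i = 0 ∧ y t j = 0) :
    n * n - n ≤ 25 * (C y m s T + s ^ 2) := by
  classical
  let V : ℕ → Finset (Fin n) := fun e => Vis T y m s e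
  have hsub : (univ : Finset (Fin n)).offDiag ⊆
      (range (C y m s T / s ^ 2 + 1)).biUnion (fun e => V e ×ˢ V e) := by
    rintro ⟨i, j⟩ hij
    obtain ⟨t, ht, hi, hj⟩ := h4 i j (mem_offDiag.1 hij).2.2
    refine mem_biUnion.2 ⟨C y m s t / s ^ 2, mem_range.2 (Nat.lt_succ_of_le
      (Nat.div_le_div_right (C_mono y m s ht))), mem_product.2 ⟨?_, ?_⟩⟩
    · exact (mem_Vis T y m s _ _).2 ⟨t, ht, rfl, hi⟩
    · exact (mem_Vis T y m s _ _).2 ⟨t, ht, rfl, hj⟩
  have h5 := (card_le_card hsub).trans (card_biUnion_le_card_mul _ _ ((5 * s) * (5 * s))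
    (fun e _ => by
      rw [card_product]
      exact Nat.mul_le_mul (epoch T y m h1 h2 s hs h3 e) (epoch T y m h1 h2 s hs h3 e)))
  rw [offDiag_card, card_univ, Fintype.card_fin, card_range] at h5
  have h6 := Nat.div_mul_le_self (C y m s T) (s ^ 2)
  nlinarith

omit h1 h2 in
lemma total (J : ℕ) : ∑ j ∈ range J, C y m (2 ^ j) T ≤ T := by
  unfold C
  rw [← card_biUnion]
  · refine (card_le_card (t := range T) ?_).trans (by simp)
    intro t ht
    obtain ⟨j, -, hj⟩ := mem_biUnion.1 ht
    exact (mem_filter.1 hj).1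
  · intro j _ j' _ hne
    rw [Function.onFun, disjoint_left]
    intro t ht ht'
    obtain ⟨-, a1, a2⟩ := (mem_filter.1 ht).2
    obtain ⟨-, b1, b2⟩ := (mem_filter.1 ht').2
    rw [← pow_succ'] at a2 b2
    have c1 := (Nat.pow_lt_pow_iff_right (by norm_num : 1 < 2)).1 (lt_of_le_of_lt a1 b2)
    have c2 := (Nat.pow_lt_pow_iff_right (by norm_num : 1 < 2)).1 (lt_of_le_of_lt b1 a2)
    omega

end core

def par (v : ℕ) : ℕ := if v ≤ 3 then 0 else v - 2

def G (N : ℕ) : SimpleGraph (Fin N) where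
  Adj u v := (v.1 ≠ 0 ∧ u.1 = par v) ∨ (u.1 ≠ 0 ∧ v.1 = par u)
  symm := ⟨fun _ _ h => h.symm⟩
  loopless := ⟨fun u h => by unfold par at h; split_ifs at h <;> omega⟩

lemma par_lt {v : ℕ} (h : v ≠ 0) : par v < v := by unfold par; split_ifs <;> omega

lemma isTree (N : ℕ) : (G (N + 1)).IsTree := by
  classical
  rw [SimpleGraph.isTree_iff_connected_and_card]
  constructor
  · have : ∀ k, ∀ v : Fin (N + 1), v.1 = k → (G (N + 1)).Reachable v 0 := by
      intro k
      induction k using Nat.strong_induction_on with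
      | _ k ih =>
        intro v hv
        by_cases h0 : v.1 = 0
        · rw [show v = 0 from Fin.ext h0]
        · have hl := par_lt h0
          have ha : (G (N + 1)).Adj v ⟨par v, by omega⟩ := Or.inr ⟨h0, rfl⟩
          exact ha.reachable.trans (ih _ (hv ▸ hl) _ rfl)
    exact ⟨fun u v => (this _ u rfl).trans (this _ v rfl).symm⟩
  · have hr : (G (N + 1)).edgeSet = Set.range (fun v : Fin N =>
        s(v.succ, (⟨par (v + 1), by have := par_lt (v := v.1 + 1) (by omega); omega⟩ :
          Fin (N + 1)))) := by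
      ext e
      induction e using Sym2.ind with
      | h u v =>
        simp only [SimpleGraph.mem_edgeSet, Set.mem_range, Sym2.eq_iff, Fin.ext_iff, Fin.val_succ]
        constructor
        · rintro (⟨h1, h2⟩ | ⟨h1, h2⟩)
          · refine ⟨⟨v.1 - 1, by omega⟩, Or.inr ?_⟩
            simp only
            rw [show v.1 - 1 + 1 = v.1 by omega]; exact ⟨rfl, h2.symm⟩
          · refine ⟨⟨u.1 - 1, by omega⟩, Or.inl ?_⟩
            simp only
            rw [show u.1 - 1 + 1 = u.1 by omega]; exact ⟨rfl, h2.symm⟩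
        · rintro ⟨w, ⟨h1, h2⟩ | ⟨h1, h2⟩⟩
          · exact Or.inr ⟨by omega, by rw [← h1, h2]⟩
          · exact Or.inl ⟨by omega, by rw [← h1, h2]⟩
    rw [Nat.card_coe_set_eq, hr, Set.ncard_range_of_injective]
    · simp
    · intro a b h
      simp only [Sym2.eq_iff, Fin.ext_iff, Fin.val_succ] at h ⊢
      have := par_lt (v := a.1 + 1) (by omega)
      have := par_lt (v := b.1 + 1) (by omega)
      omega

lemma isthmus (L d : ℕ) (hL : 1 ≤ L) (v : Fin d → Fin (2 * L + 1 + 1))
    (h : IsIsthmus (G _) d v) : d ≤ L + 3 := by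
  classical
  obtain ⟨h1, h2, -, h4⟩ := h
  by_contra hd
  have h0 : ∀ i : Fin d, 0 < (i : ℕ) → (i : ℕ) + 1 < d → (v i).1 ≠ 0 := by
    intro i a b c
    have := h4 i a b
    have hs : (({⟨1, by omega⟩, ⟨2, by omega⟩, ⟨3, by omega⟩} : Finset (Fin (2 * L + 1 + 1))) :
        Set _) ⊆ (G _).neighborSet (v i) := by
      intro w hw
      simp only [coe_insert, coe_singleton, Set.mem_insert_iff, Set.mem_singleton_iff] at hw
      rcases hw with rfl | rfl | rfl <;> exact Or.inl ⟨by simp, by simp [par, c]⟩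
    have h5 := Set.ncard_le_ncard hs
    rw [Set.ncard_coe_finset, this, card_eq_three.2 ⟨_, _, _, by simp, by simp, by simp, rfl⟩] at h5
    omega
  have hp : ∀ k, ∀ hk : k + 2 < d, (v ⟨k + 1, by omega⟩).1 % 2 = (v ⟨1, by omega⟩).1 % 2 := by
    intro k
    induction k with
    | zero => intro _; rfl
    | succ k ih =>
      intro hk
      rw [← ih (by omega)]
      have a := (h2 ⟨k + 1, by omega⟩ ⟨k + 1 + 1, by omega⟩ rfl).1
      have b := h0 ⟨k + 1, by omega⟩ (by simp) (by simp; omega)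
      have c := h0 ⟨k + 1 + 1, by omega⟩ (by simp) (by simp; omega)
      rcases a with a | a <;> unfold par at a <;> split_ifs at a <;> omega
  have hinj : Function.Injective (fun k : Fin (L + 2) =>
      (⟨(v ⟨k + 1, by omega⟩).1 / 2, by omega⟩ : Fin (L + 1))) := by
    intro a b e
    simp only [Fin.mk.injEq] at e
    have ha := hp a (by omega)
    have hb := hp b (by omega)
    have := h1 (Fin.ext (by omega) : v ⟨a + 1, by omega⟩ = v ⟨b + 1, by omega⟩)
    simp only [Fin.mk.injEq] at this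
    exact Fin.ext (by omega)
  have := Fintype.card_le_of_injective _ hinj
  simp at this

def xc (v : ℕ) : ℤ := if v % 2 = 0 then (v / 2 : ℕ) else -((v / 2 : ℕ) : ℤ)

lemma ivt (z : ℕ → ℤ) (T : ℕ) (h0 : z 0 ≤ 0) (hT : 0 ≤ z T) (h : ∀ t < T, z (t + 1) ≤ z t + 1) :
    ∃ t ≤ T, z t = 0 := by
  induction T with
  | zero => exact ⟨0, le_rfl, by omega⟩
  | succ T ih =>
    by_cases hz : 0 ≤ z T
    · obtain ⟨t, ht, e⟩ := ih hz (fun t ht => h t (by omega))
      exact ⟨t, by omega, e⟩
    · have := h T (by omega)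
      exact ⟨T + 1, le_rfl, by omega⟩

theorem lower (n N J T : ℕ) (hn : n = 8 * 2 ^ J) (s : ℕ → Fin n → Fin N)
    (h0 : ∀ i, (s 0 i).1 = 2 * (i.1 + 1)) (hT : ∀ i, (s T i).1 = 2 * (n - i.1))
    (hm : ∀ t < T, Move (G N) (s t) (s (t + 1))) : (J + 1) * n ^ 2 ≤ 52 * T := by
  classical
  have hn0 : 0 < n := by rw [hn]; positivity
  have hm' : ∀ t, ∃ i : Fin n, t < T → (G N).Adj (s t i) (s (t + 1) i) ∧
      (∀ j, s t j ≠ s (t + 1) i) ∧ ∀ j, j ≠ i → s (t + 1) j = s t j := by
    intro t
    by_cases ht : t < T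
    · obtain ⟨i, hi⟩ := hm t ht
      exact ⟨i, fun _ => hi⟩
    · exact ⟨⟨0, hn0⟩, fun h => absurd h ht⟩
  choose m hmm using hm'
  have hinj : ∀ t ≤ T, Function.Injective (s t) := by
    intro t
    induction t with
    | zero =>
      intro _ a b e
      have := congrArg Fin.val e
      rw [h0, h0] at this
      exact Fin.ext (by omega)
    | succ t ih =>
      intro ht a b e
      obtain ⟨-, b2, b3⟩ := hmm t (by omega)
      by_cases ha : a = m t <;> by_cases hb : b = m t
      · rw [ha, hb]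
      · rw [b3 b hb, ha] at e; exact absurd e.symm (b2 b)
      · rw [b3 a ha, hb] at e; exact absurd e (b2 a)
      · rw [b3 a ha, b3 b hb] at e; exact ih (by omega) e
  have hstep : ∀ t < T, ∀ i, xc (s (t + 1) i) ≤ xc (s t i) + (if i = m t then 1 else 0) ∧
      xc (s t i) ≤ xc (s (t + 1) i) + (if i = m t then 1 else 0) := by
    intro t ht i
    obtain ⟨b1, -, b3⟩ := hmm t ht
    split_ifs with hi
    · rw [hi]
      rcases b1 with a | a <;> unfold par at a <;> unfold xc <;> split_ifs at a ⊢ <;> omega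
    · rw [b3 i hi]; simp
  have hmeet : ∀ i j : Fin n, i < j → ∃ t ≤ T, (s t i).1 / 2 = 0 ∧ (s t j).1 / 2 = 0 := by
    intro i j hij
    have hij' : i.1 < j.1 := hij
    obtain ⟨t, ht, e⟩ := ivt (fun t => xc (s t i) - xc (s t j)) T
      (by simp only [h0, xc]; split_ifs <;> omega)
      (by have := j.2; simp only [hT, xc]; split_ifs <;> omega) (fun t ht => by
        have a := (hstep t ht i).1
        have b := (hstep t ht j).2
        by_cases h1 : i = m t
        · rw [if_neg (by rw [← h1]; exact hij.ne')] at b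
          rw [if_pos h1] at a
          omega
        · rw [if_neg h1] at a
          split_ifs at b <;> omega)
    refine ⟨t, ht, ?_⟩
    have hne : (s t i).1 ≠ (s t j).1 := fun h => hij.ne (hinj t ht (Fin.ext h))
    simp only [xc] at e
    split_ifs at e <;> omega
  have hsc : ∀ j ∈ range (J + 1), n ^ 2 ≤ 52 * C (fun t i => (s t i).1 / 2) m (2 ^ j) T := by
    intro j hj
    have hj' : 2 ^ j ≤ 2 ^ J := Nat.pow_le_pow_right (by norm_num) (by simpa [Nat.lt_succ_iff] using hj)
    have := scale T (fun t i => (s t i).1 / 2) m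
      (fun t ht i hi => by rw [(hmm t ht).2.2 i hi])
      (fun t ht => by
        rcases (hmm t ht).1 with a | a <;> unfold par at a <;> split_ifs at a <;> omega)
      (2 ^ j) (by positivity)
      (fun t ht => by
        rw [← card_range (4 * 2 ^ j)]
        apply card_le_card_of_injOn (fun i => (s t i).1)
        · intro i hi
          simp only [coe_filter, mem_univ, true_and, Set.mem_setOf_eq] at hi
          simp only [coe_range, Set.mem_Iio]; omega
        · intro a _ b _ e
          exact hinj t ht (Fin.ext e))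
      (fun i j hij => by
        rcases lt_or_gt_of_ne hij with h | h
        · exact hmeet i j h
        · obtain ⟨t, ht, a, b⟩ := hmeet j i h
          exact ⟨t, ht, b, a⟩)
    have h1 : 1 ≤ 2 ^ J := Nat.one_le_two_pow
    have h2 : (2 ^ j) ^ 2 ≤ (2 ^ J) ^ 2 := Nat.pow_le_pow_left hj' 2
    generalize C (fun t i => (s t i).1 / 2) m (2 ^ j) T = c at *
    generalize (2 ^ j) ^ 2 = w at *
    generalize 2 ^ J = p at *
    subst hn
    have h3 : 8 * p * (8 * p) ≤ 25 * (c + w) + 8 * p := by omega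
    nlinarith
  have h1 := sum_le_sum hsc
  rw [sum_const, card_range, smul_eq_mul, ← mul_sum] at h1
  have h2 := total T (fun t i => (s t i).1 / 2) m (J + 1)
  omega

end Pool.Agent.H3.Peb
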