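import Mathlib

set_option autoImplicit false

namespace Pool.Agent.H3.Pg

open Set

noncomputable def g (l t : ℝ) : ℝ := l / (1 + (l - 1) * min t 1)

theorem den_pos {l t : ℝ} (hl : 0 < l) (ht : 0 ≤ t) : 0 < 1 + (l - 1) * min t 1 := by
  have a : 0 ≤ min t 1 := le_min ht zero_le_one
  have b : min t 1 ≤ 1 := min_le_right _ _
  rcases eq_or_lt_of_le b with h | h
  · rw [h]; linarith
  · nlinarith [mul_nonneg hl.le a]

theorem g_pos {l t : ℝ} (hl : 0 < l) (ht : 0 ≤ t) : 0 < g l t := div_pos hl (den_pos hl ht)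

theorem g_one {l t : ℝ} (hl : 0 < l) (ht : 1 ≤ t) : g l t = 1 := by
  unfold g; rw [min_eq_right ht, show 1 + (l - 1) * 1 = l by ring, div_self hl.ne']

theorem g_inv {l t : ℝ} (hl : 0 < l) (ht : 0 ≤ t) : g l⁻¹ (g l t * t) * g l t = 1 := by
  rcases le_total 1 t with h | h
  · rw [g_one hl h, one_mul, g_one (inv_pos.2 hl) h, one_mul]
  · have d := den_pos hl ht
    have e : g l t * t ≤ 1 := by
      unfold g; rw [min_eq_left h] at d ⊢
      rw [div_mul_eq_mul_div, div_le_one d]; nlinarith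
    have k : 1 + (l⁻¹ - 1) * (g l t * t) = 1 / (1 + (l - 1) * t) := by
      unfold g; rw [min_eq_left h] at d ⊢
      field_simp; ring
    rw [g, min_eq_left e, k, g, min_eq_left h]
    rw [min_eq_left h] at d
    field_simp

theorem g_mono {l t s : ℝ} (hl : 0 < l) (ht : 0 ≤ t) (s0 : 0 ≤ s) (s1 : s ≤ 1) :
    g l (s * t) * s ≤ g l t := by
  have d1 := den_pos hl ht
  have d2 := den_pos hl (mul_nonneg s0 ht)
  unfold g
  rw [div_mul_eq_mul_div, div_le_div_iff₀ d2 d1]
  have a : s * min t 1 ≤ min (s * t) 1 := by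
    refine le_min (mul_le_mul_of_nonneg_left (min_le_left _ _) s0) ?_
    nlinarith [min_le_right t 1]
  have b : s * (1 - min t 1) ≤ 1 - min (s * t) 1 := by
    rcases le_total 1 t with h | h
    · rw [min_eq_right h]; linarith [min_le_right (s * t) 1]
    · rw [min_eq_left h]; nlinarith [min_le_left (s * t) 1]
  have c := mul_le_mul_of_nonneg_left a hl.le
  have : s * (1 + (l - 1) * min t 1) ≤ 1 + (l - 1) * min (s * t) 1 := by nlinarith
  nlinarith [mul_le_mul_of_nonneg_left this hl.le]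

variable {V : Type} [NormedAddCommGroup V] [NormedSpace ℝ V]

noncomputable def rad (v : V) (l : ℝ) (p : V) : V := v + g l ‖p - v‖ • (p - v)

theorem rad_add (v : V) (l : ℝ) (d : V) : rad v l (v + d) = v + g l ‖d‖ • d := by
  simp [rad]

theorem rad_inv (v : V) {l : ℝ} (hl : 0 < l) (p : V) : rad v l⁻¹ (rad v l p) = p := by
  rw [rad, rad, add_sub_cancel_left, norm_smul, Real.norm_of_nonneg (g_pos hl (norm_nonneg _)).le,
    smul_smul, g_inv hl (norm_nonneg _)]
  simp

theorem rad_cont (v : V) {l : ℝ} (hl : 0 < l) : Continuous (rad v l) := by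
  unfold rad g
  refine continuous_const.add (Continuous.smul (Continuous.div continuous_const (by fun_prop)
    fun p => (den_pos hl (norm_nonneg _)).ne') (by fun_prop))

noncomputable def radH (v : V) {l : ℝ} (hl : 0 < l) : Homeomorph V V where
  toFun := rad v l
  invFun := rad v l⁻¹
  left_inv := rad_inv v hl
  right_inv := fun p => by
    have := rad_inv v (inv_pos.2 hl) p
    rwa [inv_inv] at this
  continuous_toFun := rad_cont v hl
  continuous_invFun := rad_cont v (inv_pos.2 hl)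

theorem rad_far (v : V) {l : ℝ} (hl : 0 < l) {p : V} (h : 1 ≤ ‖p - v‖) : rad v l p = p := by
  rw [rad, g_one hl h]; simp

theorem rad_set (v : V) {l : ℝ} (hl : 0 < l) {S : Set V} (h : ∀ p ∈ S, 1 ≤ ‖p - v‖) :
    rad v l '' S = S := by
  rw [Set.image_congr (fun p hp => rad_far v hl (h p hp))]; simp

theorem mem_seg {v d p : V} : p ∈ segment ℝ v (v + d) ↔ ∃ s : ℝ, 0 ≤ s ∧ s ≤ 1 ∧ p = v + s • d := by
  rw [segment_eq_image']
  simp only [add_sub_cancel_left, mem_image, mem_Icc]
  exact ⟨fun ⟨s, ⟨a, b⟩, c⟩ => ⟨s, a, b, c.symm⟩, fun ⟨s, a, b, c⟩ => ⟨s, ⟨a, b⟩, c.symm⟩⟩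

theorem rad_seg1 (v : V) {l : ℝ} (hl : 0 < l) (d : V) {p : V} (hp : p ∈ segment ℝ v (v + d)) :
    rad v l p ∈ segment ℝ v (rad v l (v + d)) := by
  obtain ⟨s, s0, s1, rfl⟩ := mem_seg.1 hp
  have c := g_pos hl (norm_nonneg d)
  rw [rad_add, rad_add, norm_smul, Real.norm_of_nonneg s0]
  refine mem_seg.2 ⟨g l (s * ‖d‖) * s / g l ‖d‖, div_nonneg (mul_nonneg
    (g_pos hl (mul_nonneg s0 (norm_nonneg d))).le s0) c.le,
    (div_le_one c).2 (g_mono hl (norm_nonneg d) s0 s1), ?_⟩
  rw [smul_smul, smul_smul, div_mul_cancel₀ _ c.ne']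

theorem rad_seg (v : V) {l : ℝ} (hl : 0 < l) (q : V) :
    rad v l '' segment ℝ v q = segment ℝ v (rad v l q) := by
  have h1 : ∀ {l : ℝ}, 0 < l → ∀ q p : V, p ∈ segment ℝ v q →
      rad v l p ∈ segment ℝ v (rad v l q) := fun hl q p hp => by
    have := rad_seg1 v hl (q - v) (p := p) (by simpa using hp)
    simpa using this
  refine Subset.antisymm (by rintro _ ⟨p, hp, rfl⟩; exact h1 hl q p hp) fun p hp => ?_
  have := h1 (inv_pos.2 hl) _ _ hp
  rw [rad_inv v hl] at this
  refine ⟨_, this, ?_⟩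
  have := rad_inv v (inv_pos.2 hl) p
  rwa [inv_inv] at this

theorem rad_pend (v w : V) (hw : w ≠ 0) {a b : ℝ} (a0 : 0 < a) (b0 : 0 < b) (a1 : a * ‖w‖ < 1)
    (b1 : b * ‖w‖ < 1) : ∃ l : ℝ, 0 < l ∧ rad v l (v + a • w) = v + b • w := by
  have n := norm_pos_iff.2 hw
  have a2 : 0 < 1 - a * ‖w‖ := by linarith
  have b2 : 0 < 1 - b * ‖w‖ := by linarith
  refine ⟨b * (1 - a * ‖w‖) / (a * (1 - b * ‖w‖)), by positivity, ?_⟩
  rw [rad_add, smul_smul, norm_smul, Real.norm_of_nonneg a0.le]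
  congr 2
  have k : 1 + (b * (1 - a * ‖w‖) / (a * (1 - b * ‖w‖)) - 1) * (a * ‖w‖) =
      (1 - a * ‖w‖) / (1 - b * ‖w‖) := by
    field_simp; ring
  rw [g, min_eq_left a1.le, k]
  field_simp

variable {ι : Type} [Fintype ι] [DecidableEq ι]

def Rel (x w : ι → V) (nx : ι → ι) (e e' : ι → ℝ) : Prop :=
  ∃ h : Homeomorph V V, (∀ i, h '' segment ℝ (x i) (x (nx i)) = segment ℝ (x i) (x (nx i))) ∧
    (∀ i, h (x i) = x i) ∧
    (∀ i, h '' segment ℝ (x i) (x i + e i • w i) = segment ℝ (x i) (x i + e' i • w i)) ∧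
    ∀ i, h (x i + e i • w i) = x i + e' i • w i

theorem rel_all (x w : ι → V) (nx : ι → ι) (δ : ℝ) (hw : ∀ i, w i ≠ 0) (hδ : ∀ i, δ * ‖w i‖ ≤ 1)
    (hx : ∀ i j, i ≠ j → 2 ≤ ‖x i - x j‖)
    (he : ∀ i j, i ≠ j → nx i ≠ j → ∀ p ∈ segment ℝ (x i) (x (nx i)), 1 ≤ ‖p - x j‖)
    {a b : ℝ} (a0 : 0 < a) (a1 : a < δ) (b0 : 0 < b) (b1 : b < δ) :
    Rel x w nx (fun _ => a) (fun _ => b) := by
  have lt : ∀ {c : ℝ}, c < δ → ∀ i, c * ‖w i‖ < 1 := fun hc i =>
    (mul_lt_mul_of_pos_right hc (norm_pos_iff.2 (hw i))).trans_le (hδ i)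
  have main : ∀ s : Finset ι, Rel x w nx (fun _ => a) (fun i => if i ∈ s then b else a) := by
    intro s
    induction s using Finset.induction_on with
    | empty => exact ⟨Homeomorph.refl V, by simp, by simp, by simp, by simp⟩
    | insert v s hv ih =>
      obtain ⟨h, h1, h2, h3, h4⟩ := ih
      obtain ⟨l, hl, e⟩ := rad_pend (x v) (w v) (hw v) a0 b0 (lt a1 v) (lt b1 v)
      have far : ∀ i, i ≠ v → ∀ p ∈ segment ℝ (x i) (x i + (if i ∈ s then b else a) • w i),
          1 ≤ ‖p - x v‖ := by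
        intro i hi p hp
        obtain ⟨t, t0, t1, rfl⟩ := mem_seg.1 hp
        have k : ‖t • (if i ∈ s then b else a) • w i‖ ≤ 1 := by
          rw [norm_smul, norm_smul, Real.norm_of_nonneg t0]
          refine mul_le_one₀ t1 (by positivity) ?_
          split_ifs
          · rw [Real.norm_of_nonneg b0.le]; exact (lt b1 i).le
          · rw [Real.norm_of_nonneg a0.le]; exact (lt a1 i).le
        have := norm_sub_le (x i + t • (if i ∈ s then b else a) • w i - x v)
          (t • (if i ∈ s then b else a) • w i)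
        rw [show x i + t • (if i ∈ s then b else a) • w i - x v -
          t • (if i ∈ s then b else a) • w i = x i - x v by abel] at this
        linarith [hx i v hi]
      have fx : ∀ i, rad (x v) l (x i) = x i := fun i => by
        by_cases hi : i = v
        · rw [hi]; simp [rad]
        · exact rad_far _ hl (by linarith [hx i v hi])
      have im : ∀ S : Set V, (h.trans (radH (x v) hl)) '' S = rad (x v) l '' (h '' S) :=
        fun S => by rw [Set.image_image]; rfl
      refine ⟨h.trans (radH (x v) hl), fun i => ?_, fun i => ?_, fun i => ?_, fun i => ?_⟩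
      · rw [im, h1]
        by_cases hi : i = v
        · rw [hi, rad_seg _ hl, fx]
        by_cases hj : nx i = v
        · rw [hj, segment_symm, rad_seg _ hl, fx]
        · exact rad_set _ hl (he i v hi hj)
      · show rad (x v) l (h (x i)) = x i
        rw [h2, fx]
      · rw [im, h3]
        by_cases hi : i = v
        · subst hi
          simp only [hv, if_false, Finset.mem_insert_self, if_true]
          rw [rad_seg _ hl, e]
        · simp only [Finset.mem_insert, hi, false_or]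
          exact rad_set _ hl (far i hi)
      · show rad (x v) l (h (x i + a • w i)) = _
        rw [h4]
        by_cases hi : i = v
        · subst hi
          simp only [hv, if_false, Finset.mem_insert_self, if_true]
          exact e
        · simp only [Finset.mem_insert, hi, false_or]
          exact rad_far _ hl (far i hi _ (right_mem_segment _ _ _))
  simpa using main Finset.univ

theorem persist {κ : Type} [Fintype κ] [Nonempty κ] (f : κ → ℝ → ℝ)
    (hc : ∀ m, ContinuousOn (f m) (Icc 0 1)) (h0 : ∀ m, 0 < f m 0)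
    (h : ∀ t ∈ Icc (0 : ℝ) 1, (∀ m, 0 ≤ f m t) → ∀ m, 0 < f m t) : ∀ m, 0 < f m 1 := by
  let G : ℝ → ℝ := fun t => Finset.univ.inf' Finset.univ_nonempty fun m => f m t
  have c : ContinuousOn G (Icc 0 1) :=
    ContinuousOn.finset_inf'_apply Finset.univ_nonempty fun m _ => hc m
  have pos : ∀ t, 0 < G t ↔ ∀ m, 0 < f m t := fun t => by simp [G, Finset.lt_inf'_iff]
  by_contra hn
  have g1 : G 1 ≤ 0 := not_lt.1 fun k => hn ((pos 1).1 k)
  obtain ⟨t, ht, e⟩ := intermediate_value_Icc' zero_le_one c ⟨g1, ((pos 0).2 h0).le⟩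
  have := (pos t).2 (h t ht fun m => e ▸ Finset.inf'_le _ (Finset.mem_univ m))
  exact this.ne' e

end Pool.Agent.H3.Pg
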