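import Pool.Agent.H3.Pg1

set_option autoImplicit false

namespace Pool.Agent.H3.Pg

open Set

abbrev P := ℝ × ℝ
abbrev I := Fin 14

def emb (a b : I → ℤ) (i : I) : P := ((a i : ℝ), (b i : ℝ))

def df (a : I → ℤ) (i : I) : ℤ := a (i + 1) - a i

def off (a b : I → ℤ) (i : I) : ℤ := df b i * a i - df a i * b i

theorem on_line {a b : I → ℤ} {i : I} {p : P} (h : p ∈ segment ℝ (emb a b i) (emb a b (i + 1))) :
    (df b i : ℝ) * p.1 - (df a i : ℝ) * p.2 = (off a b i : ℝ) := by
  obtain ⟨u, v, -, -, huv, rfl⟩ := h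
  simp only [emb, df, off, Prod.fst_add, Prod.snd_add, Prod.smul_fst, Prod.smul_snd, smul_eq_mul]
  push_cast
  rw [show u = 1 - v by linarith]; ring

def Gen (a b : I → ℤ) : Prop := ∀ i j k : I, i ≠ j → j ≠ k → i ≠ k →
  off a b i * (df b j * df a k - df a j * df b k) + off a b j * (df b k * df a i - df a k * df b i) +
    off a b k * (df b i * df a j - df a i * df b j) ≠ 0

theorem ord {a b : I → ℤ} (H : Gen a b) (p : P) (i j k : I)
    (hi : p ∈ segment ℝ (emb a b i) (emb a b (i + 1)))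
    (hj : p ∈ segment ℝ (emb a b j) (emb a b (j + 1)))
    (hk : p ∈ segment ℝ (emb a b k) (emb a b (k + 1))) : i = j ∨ j = k ∨ i = k := by
  by_contra hn
  push Not at hn
  apply H i j k hn.1 hn.2.1 hn.2.2
  have : ((off a b i * (df b j * df a k - df a j * df b k) + off a b j *
      (df b k * df a i - df a k * df b i) + off a b k * (df b i * df a j - df a i * df b j) : ℤ) : ℝ)
      = 0 := by
    push_cast
    rw [← on_line hi, ← on_line hj, ← on_line hk]; ring
  exact_mod_cast this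

def Pr (a b : I → ℤ) : Prop := ∀ i : I,
  (a (i - 1) - a i) * (b (i + 1) - b i) - (b (i - 1) - b i) * (a (i + 1) - a i) ≠ 0

theorem prop {a b : I → ℤ} (H : Pr a b) : (∀ i, emb a b i ≠ emb a b (i + 1)) ∧
    ∀ i, ¬ Collinear ℝ ({emb a b (i - 1), emb a b i, emb a b (i + 1)} : Set P) := by
  refine ⟨fun i h => H i ?_, fun i h => H i ?_⟩
  · simp only [emb, Prod.mk.injEq, Int.cast_inj] at h
    rw [← h.1, ← h.2]; ring
  · rw [collinear_iff_of_mem (p₀ := emb a b i) (by simp)] at h
    obtain ⟨v, hv⟩ := h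
    obtain ⟨r, hr⟩ := hv (emb a b (i - 1)) (by simp)
    obtain ⟨s, hs⟩ := hv (emb a b (i + 1)) (by simp)
    have r1 := congrArg Prod.fst hr
    have r2 := congrArg Prod.snd hr
    have s1 := congrArg Prod.fst hs
    have s2 := congrArg Prod.snd hs
    simp only [emb, vadd_eq_add, Prod.fst_add, Prod.snd_add, Prod.smul_fst, Prod.smul_snd,
      smul_eq_mul] at r1 r2 s1 s2
    have : (((a (i - 1) - a i) * (b (i + 1) - b i) - (b (i - 1) - b i) * (a (i + 1) - a i) : ℤ) : ℝ)
        = 0 := by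
      push_cast
      rw [r1, r2, s1, s2]; ring
    exact_mod_cast this

def xs : I → ℤ := ![0, -236, 12, -24, -16, -106, 6, 6, 38, -4, -16, -40, 60, 0]
def ys : I → ℤ := ![0, 0, -124, 56, 32, 2, -110, 36, 36, 78, 42, 50, 30, 150]
def xt (i : I) : ℤ := -ys (-i)
def yt (i : I) : ℤ := -xs (-i)

theorem gen1 : Gen xs ys := by unfold Gen; decide +kernel
theorem gen2 : Gen xt yt := by unfold Gen; decide +kernel
theorem pr1 : Pr xs ys := by unfold Pr; decide +kernel
theorem pr2 : Pr xt yt := by unfold Pr; decide +kernel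

noncomputable def x : I → P := emb xs ys
noncomputable def y : I → P := emb xt yt
noncomputable def w (i : I) : P := (2 : ℝ) • x i - x (i - 1) - x (i + 1)

theorem nrm1 (p : P) : |p.1| ≤ ‖p‖ := by simpa using norm_fst_le p
theorem nrm2 (p : P) : |p.2| ≤ ‖p‖ := by simpa using norm_snd_le p

theorem rel {a b : ℝ} (a0 : 0 < a) (a1 : a < 1 / 1000) (b0 : 0 < b) (b1 : b < 1 / 1000) :
    Rel x w (fun i => i + 1) (fun _ => a) (fun _ => b) := by
  refine rel_all x w _ (1 / 1000) (fun i h => ?_) (fun i => ?_) (fun i j hij => ?_)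
    (fun i j h1 h2 p hp => ?_) a0 a1 b0 b1
  · have k : ∀ i : I, 2 * xs i - xs (i - 1) - xs (i + 1) ≠ 0 := by decide +kernel
    have := congrArg Prod.fst h
    simp only [w, x, emb, Prod.fst_sub, Prod.smul_fst, smul_eq_mul, Prod.fst_zero] at this
    exact k i (by exact_mod_cast this)
  · have k : ∀ i : I, |2 * xs i - xs (i - 1) - xs (i + 1)| ≤ 1000 ∧
        |2 * ys i - ys (i - 1) - ys (i + 1)| ≤ 1000 := by decide +kernel
    have : ‖w i‖ ≤ 1000 := by
      rw [Prod.norm_def, max_le_iff]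
      simp only [w, x, emb, Prod.fst_sub, Prod.smul_fst, Prod.snd_sub, Prod.smul_snd, smul_eq_mul,
        Real.norm_eq_abs]
      exact ⟨by exact_mod_cast (k i).1, by exact_mod_cast (k i).2⟩
    linarith
  · have k : ∀ i j : I, i ≠ j → 2 ≤ |xs i - xs j| ∨ 2 ≤ |ys i - ys j| := by decide +kernel
    rcases k i j hij with h | h
    · refine le_trans ?_ (nrm1 _)
      simp only [x, emb, Prod.fst_sub]
      exact_mod_cast h
    · refine le_trans ?_ (nrm2 _)
      simp only [x, emb, Prod.snd_sub]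
      exact_mod_cast h
  · have k : ∀ i j : I, i ≠ j → i + 1 ≠ j → 0 < |df ys i| + |df xs i| ∧
        |df ys i| + |df xs i| ≤ |off xs ys i - (df ys i * xs j - df xs i * ys j)| := by
      decide +kernel
    obtain ⟨k0, k1⟩ := k i j h1 h2
    have k2 : (0 : ℝ) < |(df ys i : ℝ)| + |(df xs i : ℝ)| := by exact_mod_cast k0
    have k3 : |(df ys i : ℝ)| + |(df xs i : ℝ)| ≤
        |(off xs ys i : ℝ) - (df ys i * xs j - df xs i * ys j)| := by exact_mod_cast k1
    rw [← on_line hp] at k3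
    have e : (df ys i : ℝ) * p.1 - (df xs i : ℝ) * p.2 - (df ys i * xs j - df xs i * ys j) =
        df ys i * (p - x j).1 - df xs i * (p - x j).2 := by
      simp only [x, emb, Prod.fst_sub, Prod.snd_sub]; ring
    rw [e] at k3
    have t := abs_sub ((df ys i : ℝ) * (p - x j).1) ((df xs i : ℝ) * (p - x j).2)
    rw [abs_mul, abs_mul] at t
    have n1 := mul_le_mul_of_nonneg_left (nrm1 (p - x j)) (abs_nonneg (df ys i : ℝ))
    have n2 := mul_le_mul_of_nonneg_left (nrm2 (p - x j)) (abs_nonneg (df xs i : ℝ))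
    by_contra hn
    push Not at hn
    nlinarith

def A : P →ₗ[ℝ] P where
  toFun p := (-p.2, -p.1)
  map_add' p q := by ext <;> simp <;> ring
  map_smul' c p := by ext <;> simp

def AH : Homeomorph P P where
  toFun p := (-p.2, -p.1)
  invFun p := (-p.2, -p.1)
  left_inv p := by simp
  right_inv p := by simp
  continuous_toFun := by fun_prop
  continuous_invFun := by fun_prop

theorem yA (i : I) : y i = A (x (-i)) := by simp [y, x, emb, xt, yt, A]

theorem A_seg (p q : P) : AH '' segment ℝ p q = segment ℝ (A p) (A q) :=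
  image_segment ℝ A.toAffineMap p q

def Ed (z : I → P) (i : I) : Set P := segment ℝ (z i) (z (i + 1))
noncomputable def Pe (z : I → P) (ε : ℝ) (i : I) : P :=
  z i + ε • ((2 : ℝ) • z i - z (i - 1) - z (i + 1))

theorem same {a b : ℝ} (a0 : 0 < a) (a1 : a < 1 / 1000) (b0 : 0 < b) (b1 : b < 1 / 1000) :
    ∃ h : Homeomorph P P,
      h '' ((⋃ i, Ed x i) ∪ ⋃ i, segment ℝ (x i) (Pe x a i)) =
        (⋃ i, Ed y i) ∪ ⋃ i, segment ℝ (y i) (Pe y b i) ∧
      h '' (range x ∪ {p | ∃ i j, i ≠ j ∧ p ∈ Ed x i ∧ p ∈ Ed x j} ∪ range (Pe x a)) =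
        range y ∪ {p | ∃ i j, i ≠ j ∧ p ∈ Ed y i ∧ p ∈ Ed y j} ∪ range (Pe y b) := by
  obtain ⟨h, h1, h2, h3, h4⟩ := rel a0 a1 b0 b1
  have im : ∀ S : Set P, (h.trans AH) '' S = AH '' (h '' S) := fun S => by
    rw [Set.image_image]; rfl
  have n1 : ∀ i : I, -(-i - 1) = i + 1 := by decide
  have n2 : ∀ i : I, -(-i - 1 + 1) = i := by decide
  have n3 : ∀ i : I, -(-i - 1) - 1 = i := by decide
  have n4 : ∀ i : I, -(-i + 1) = i - 1 := by decide
  have pe : ∀ i, Pe y b (-i) = A (x i + b • w i) := fun i => by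
    simp only [Pe, yA, neg_neg, n1, n4, w, map_add, map_smul, map_sub]
    congr 2; abel
  have e1 : ∀ i, (h.trans AH) '' Ed x i = Ed y (-i - 1) := fun i => by
    rw [im, Ed, h1, A_seg, Ed, yA, yA, n1, n2, segment_symm]
  have e2 : ∀ i, (h.trans AH) (x i) = y (-i) := fun i => by
    show AH (h (x i)) = _
    rw [h2, yA, neg_neg]; rfl
  have e3 : ∀ i, (h.trans AH) '' segment ℝ (x i) (Pe x a i) = segment ℝ (y (-i)) (Pe y b (-i)) :=
    fun i => by
      rw [im, show Pe x a i = x i + a • w i from rfl, h3, A_seg, pe, yA, neg_neg]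
  have e4 : ∀ i, (h.trans AH) (Pe x a i) = Pe y b (-i) := fun i => by
    show AH (h (x i + a • w i)) = _
    rw [h4, pe]; rfl
  have s1 : Function.Surjective fun i : I => -i := fun i => ⟨-i, neg_neg i⟩
  have s2 : Function.Surjective fun i : I => -i - 1 := fun i => ⟨-i - 1, n3 i⟩
  refine ⟨h.trans AH, ?_, ?_⟩
  · rw [image_union, image_iUnion, image_iUnion]
    simp only [e1, e3]
    rw [s2.iUnion_comp (fun i => Ed y i), s1.iUnion_comp (fun i => segment ℝ (y i) (Pe y b i))]
  · rw [image_union, image_union, ← range_comp, ← range_comp,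
      show (h.trans AH) ∘ x = y ∘ fun i => -i from funext e2,
      show (h.trans AH) ∘ Pe x a = Pe y b ∘ fun i => -i from funext e4, s1.range_comp, s1.range_comp]
    congr 2
    ext p
    constructor
    · rintro ⟨q, ⟨i, j, hij, hi, hj⟩, rfl⟩
      exact ⟨-i - 1, -j - 1, fun k => hij (by rw [← n3 i, k, n3]), e1 i ▸ mem_image_of_mem _ hi,
        e1 j ▸ mem_image_of_mem _ hj⟩
    · rintro ⟨i, j, hij, hi, hj⟩
      rw [← n3 i, ← e1] at hi
      rw [← n3 j, ← e1] at hj
      obtain ⟨q, q1, rfl⟩ := hi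
      exact ⟨q, ⟨-i - 1, -j - 1, fun k => hij (by rw [← n3 i, k, n3]), q1,
        (mem_image_iff_of_inverse (h.trans AH).symm_apply_apply (h.trans AH).apply_symm_apply).1 hj
          |> fun k => by simpa using k⟩, rfl⟩

end Pool.Agent.H3.Pg
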