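import Pool.Agent.H3.Pg2

set_option autoImplicit false

namespace Pool.Agent.H3.Pg

open Set

def D (i j : I) : ℤ := df xs i * df ys j - df ys i * df xs j

/-- Parameter, from the point `p` along the direction of edge `i`, of the line of edge `j`. -/
noncomputable def S (z : I → P) (p : P) (i j : I) : ℝ :=
  (((z j).1 - p.1) * df ys j - ((z j).2 - p.2) * df xs j) / D i j

noncomputable def U (i : I) : P := ((df xs i : ℝ), (df ys i : ℝ))

theorem hU (i : I) : x (i + 1) - x i = U i := by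
  simp [x, emb, U, df]

def cx (i j : I) : Bool := decide ((i.val, j.val) ∈ [(8, 13), (13, 8), (7, 11), (11, 7), (9, 11),
  (11, 9), (2, 11), (11, 2), (2, 4), (4, 2), (5, 0), (0, 5), (6, 2), (2, 6)])

theorem cx_fact : ∀ i j : I, cx i j = true →
    cx j i = true ∧ D i j ≠ 0 ∧ j ≠ i ∧ j ≠ i - 1 ∧ j ≠ i + 1 ∧ i - 1 ≠ i ∧ i + 1 ≠ i := by
  decide +kernel

noncomputable def F : (I × I × Bool) ⊕ Fin 3 → (I → P) → ℝ
  | .inl (i, j, false), z => if cx i j then S z (z i) i j else 1
  | .inl (i, j, true), z => if cx i j then -S z (z (i + 1)) i j else 1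
  | .inr 0, z => S z (z 11) 11 9 - S z (z 11) 11 2
  | .inr 1, z => S z (z 2) 2 11 - S z (z 2) 2 4
  | .inr 2, z => (z 7).1 - (z 0).1

theorem pt_eq (z : I → P) {i j : I} (h : D i j ≠ 0) :
    z i + S z (z i) i j • U i = z j + S z (z j) j i • U j := by
  have h1 : (D i j : ℝ) ≠ 0 := by exact_mod_cast h
  have h2 : (D j i : ℝ) = -D i j := by simp only [D]; push_cast; ring
  have h3 : (D i j : ℝ) = df xs i * df ys j - df ys i * df xs j := by simp only [D]; push_cast; ring
  ext <;> simp only [S, U, Prod.fst_add, Prod.snd_add, Prod.smul_fst, Prod.smul_snd, smul_eq_mul,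
    h2] <;> field_simp <;> rw [h3] <;> ring

theorem S_next (z : I → P) {i j : I} (h : D i j ≠ 0) {c : ℝ} (hc : z (i + 1) - z i = c • U i) :
    S z (z (i + 1)) i j = S z (z i) i j - c := by
  have h1 : (D i j : ℝ) ≠ 0 := by exact_mod_cast h
  have h3 : (D i j : ℝ) = df xs i * df ys j - df ys i * df xs j := by simp only [D]; push_cast; ring
  rw [sub_eq_iff_eq_add'.1 hc]
  simp only [S, U, Prod.fst_add, Prod.snd_add, Prod.smul_fst, Prod.smul_snd, smul_eq_mul]
  field_simp
  rw [h3]; ring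

theorem in_ed (z : I → P) {i : I} {c s : ℝ} (c0 : 0 < c) (hc : z (i + 1) - z i = c • U i)
    (s0 : 0 ≤ s) (s1 : s ≤ c) : z i + s • U i ∈ Ed z i := by
  rw [Ed, sub_eq_iff_eq_add'.1 hc]
  exact mem_seg.2 ⟨s / c, div_nonneg s0 c0.le, (div_le_one c0).2 s1, by
    rw [smul_smul, div_mul_cancel₀ _ c0.ne']⟩

theorem step (z : I → P) (hp : ∀ i, ∃ c : ℝ, 0 < c ∧ z (i + 1) - z i = c • U i)
    (ho : ∀ (p : P) (i j k : I), p ∈ Ed z i → p ∈ Ed z j → p ∈ Ed z k → i = j ∨ j = k ∨ i = k)
    (h : ∀ m, 0 ≤ F m z) : ∀ m, 0 < F m z := by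
  choose c c0 hc using hp
  have a1 : ∀ i j, cx i j = true → 0 ≤ S z (z i) i j := fun i j k => by
    simpa [F, k] using h (.inl (i, j, false))
  have a2 : ∀ i j, cx i j = true → S z (z (i + 1)) i j ≤ 0 := fun i j k => by
    simpa [F, k] using h (.inl (i, j, true))
  have m1 : ∀ i j, cx i j = true → z i + S z (z i) i j • U i ∈ Ed z i := fun i j k =>
    in_ed z (c0 i) (hc i) (a1 i j k) (by
      have := a2 i j k
      rw [S_next z (cx_fact i j k).2.1 (hc i)] at this
      linarith)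
  have m2 : ∀ i j, cx i j = true → z i + S z (z i) i j • U i ∈ Ed z j := fun i j k => by
    rw [pt_eq z (cx_fact i j k).2.1]
    exact m1 j i (cx_fact i j k).1
  have l1 : ∀ i, z i ∈ Ed z i := fun i => left_mem_segment _ _ _
  have l2 : ∀ i, z i ∈ Ed z (i - 1) := fun i => by
    rw [Ed, sub_add_cancel]; exact right_mem_segment _ _ _
  intro m
  refine lt_of_le_of_ne (h m) fun e => ?_
  rcases m with ⟨i, j, b⟩ | m
  · by_cases k : cx i j = true
    swap
    · cases b <;> simp [F, k] at e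
    obtain ⟨-, k2, k3, k4, k5, k6, k7⟩ := cx_fact i j k
    have q := m2 i j k
    cases b
    · simp only [F, k, if_true] at e
      rw [← e, zero_smul, add_zero] at q
      rcases ho _ _ _ _ q (l1 i) (l2 i) with r | r | r
      exacts [k3 r, k6 r.symm, k4 r]
    · simp only [F, k, if_true] at e
      rw [S_next z k2 (hc i)] at e
      rw [show S z (z i) i j = c i by linarith, ← hc, add_sub_cancel] at q
      have q2 := l2 (i + 1)
      rw [add_sub_cancel_right] at q2
      rcases ho _ _ _ _ q (l1 (i + 1)) q2 with r | r | r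
      exacts [k5 r, k7 r, k3 r]
  · fin_cases m
    · have e' : S z (z 11) 11 9 = S z (z 11) 11 2 := by simp only [F] at e; linarith
      have q := m2 11 9 rfl
      rw [e'] at q
      exact absurd (ho _ _ _ _ q (m1 11 2 rfl) (m2 11 2 rfl)) (by decide)
    · have e' : S z (z 2) 2 11 = S z (z 2) 2 4 := by simp only [F] at e; linarith
      have q := m2 2 11 rfl
      rw [e'] at q
      exact absurd (ho _ _ _ _ q (m1 2 4 rfl) (m2 2 4 rfl)) (by decide)
    · have b1 := a2 8 13 rfl
      have b2 := a2 7 11 rfl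
      have b3 := a1 5 0 rfl
      have b4 := a1 6 2 rfl
      have b5 := a2 5 0 rfl
      have b6 := h (.inr 0)
      have b7 := h (.inr 1)
      have hc1 := fun i => congrArg Prod.fst (hc i)
      have hc2 := fun i => congrArg Prod.snd (hc i)
      have v : ∀ i : I, df xs i = ![-236, 248, -36, 8, -90, 112, 0, 32, -42, -12, -24, 100, -60, 0] i ∧
          df ys i = ![0, -124, 180, -24, -30, -112, 146, 0, 42, -36, 8, -20, 120, -150] i := by
        decide +kernel
      have v1 := fun i => (v i).1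
      have v2 := fun i => (v i).2
      have x4 := hc1 4
      have x5 := hc1 5
      have x6 := hc1 6
      have x7 := hc1 7
      have x8 := hc1 8
      have x13 := hc1 13
      have y4 := hc2 4
      have y5 := hc2 5
      have y6 := hc2 6
      have y7 := hc2 7
      have y8 := hc2 8
      simp only [F] at e
      simp only [F, S, D, U, v1, v2, Prod.fst_sub, Prod.snd_sub, Prod.smul_fst, Prod.smul_snd,
        smul_eq_mul, Matrix.cons_val,
        Fin.reduceAdd] at b1 b2 b3 b4 b5 b6 b7 x4 x5 x6 x7 x8 x13 y4 y5 y6 y7 y8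
      push_cast at b1 b2 b3 b4 b5 b6 b7 x4 x5 x6 x7 x8 x13 y4 y5 y6 y7 y8
      have q := in_ed z (s := ((z 0).2 - (z 6).2) / 146) (c0 6) (hc 6) (by linarith) (by linarith)
      have r : z 6 + (((z 0).2 - (z 6).2) / 146) • U 6 = z 0 := by
        ext <;> simp only [U, v1, v2, Prod.fst_add, Prod.snd_add, Prod.smul_fst, Prod.smul_snd,
          smul_eq_mul, Matrix.cons_val] <;> push_cast <;> linarith
      rw [r] at q
      exact absurd (ho _ _ _ _ q (l1 0) (l2 0)) (by decide)

theorem start : ∀ m, 0 < F m x := by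
  have k : ∀ i j : I, cx i j = true →
      0 < ((xs j - xs i) * df ys j - (ys j - ys i) * df xs j) * D i j ∧
      0 < -((xs j - xs (i + 1)) * df ys j - (ys j - ys (i + 1)) * df xs j) * D i j := by
    decide +kernel
  have v : ∀ i : I, df xs i = ![-236, 248, -36, 8, -90, 112, 0, 32, -42, -12, -24, 100, -60, 0] i ∧
      df ys i = ![0, -124, 180, -24, -30, -112, 146, 0, 42, -36, 8, -20, 120, -150] i := by
    decide +kernel
  have v1 := fun i => (v i).1
  have v2 := fun i => (v i).2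
  rintro (⟨i, j, b⟩ | m)
  · by_cases h : cx i j = true
    swap
    · cases b <;> simp [F, h]
    cases b
    · simp only [F, h, if_true, S, x, emb]
      exact div_pos_iff.2 (mul_pos_iff.1 (by exact_mod_cast (k i j h).1))
    · simp only [F, h, if_true, S, x, emb]
      rw [← neg_div]
      exact div_pos_iff.2 (mul_pos_iff.1 (by exact_mod_cast (k i j h).2))
  · fin_cases m <;> simp only [F, S, D, x, emb, v1, v2] <;> simp only [xs, ys, Matrix.cons_val] <;>
      norm_num

theorem F_cont (X : ℝ → I → P) (hX : ∀ j, ContinuousOn (fun t => X t j) (Icc 0 1)) (m) :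
    ContinuousOn (fun t => F m (X t)) (Icc 0 1) := by
  have s : ∀ i j k, ContinuousOn (fun t => S (X t) (X t k) i j) (Icc 0 1) := fun i j k =>
    (((((hX j).fst.sub (hX k).fst).mul continuousOn_const).sub
      (((hX j).snd.sub (hX k).snd).mul continuousOn_const))).div_const _
  rcases m with ⟨i, j, b⟩ | m
  · by_cases h : cx i j = true <;> cases b <;> simp only [F, h, if_true, if_false, Bool.false_eq_true]
    exacts [s _ _ _, (s _ _ _).neg, continuousOn_const, continuousOn_const]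
  · fin_cases m
    exacts [(s _ _ _).sub (s _ _ _), (s _ _ _).sub (s _ _ _), (hX 7).fst.sub (hX 0).fst]

theorem dir {i a b : I} {c : ℝ} (c0 : 0 < c) (h : y b - y a = c • U i) :
    (xt b - xt a) * df ys i - (yt b - yt a) * df xs i = 0 ∧
      0 ≤ (xt b - xt a) * df xs i ∧ 0 ≤ (yt b - yt a) * df ys i := by
  have h1 := congrArg Prod.fst h
  have h2 := congrArg Prod.snd h
  simp only [y, emb, U, Prod.fst_sub, Prod.snd_sub, Prod.smul_fst, Prod.smul_snd, smul_eq_mul]
    at h1 h2
  refine ⟨?_, ?_, ?_⟩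
  · have : ((xt b : ℝ) - xt a) * df ys i - (yt b - yt a) * df xs i = 0 := by rw [h1, h2]; ring
    exact_mod_cast this
  · have : 0 ≤ ((xt b : ℝ) - xt a) * df xs i := by
      rw [h1, mul_assoc]; exact mul_nonneg c0.le (mul_self_nonneg _)
    exact_mod_cast this
  · have : 0 ≤ ((yt b : ℝ) - yt a) * df ys i := by
      rw [h2, mul_assoc]; exact mul_nonneg c0.le (mul_self_nonneg _)
    exact_mod_cast this

theorem par : ∀ i, ∃ c : ℝ, 0 < c ∧ y (i + 1) - y i = c • U i := by
  have k : ∀ i : I, (xt (i + 1) - xt i) * df ys i - (yt (i + 1) - yt i) * df xs i = 0 ∧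
      0 < (xt (i + 1) - xt i) * df xs i + (yt (i + 1) - yt i) * df ys i ∧
      0 < df xs i * df xs i + df ys i * df ys i := by decide +kernel
  intro i
  have k1 : ((xt (i + 1) : ℝ) - xt i) * df ys i - (yt (i + 1) - yt i) * df xs i = 0 := by
    exact_mod_cast (k i).1
  have k2 : 0 < ((xt (i + 1) : ℝ) - xt i) * df xs i + (yt (i + 1) - yt i) * df ys i := by
    exact_mod_cast (k i).2.1
  have k3 : 0 < (df xs i : ℝ) * df xs i + df ys i * df ys i := by exact_mod_cast (k i).2.2
  refine ⟨_, div_pos k2 k3, ?_⟩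
  ext <;> simp only [y, emb, U, Prod.fst_sub, Prod.snd_sub, Prod.smul_fst, Prod.smul_snd,
    smul_eq_mul] <;> rw [div_mul_eq_mul_div, eq_div_iff k3.ne']
  · linear_combination (df ys i : ℝ) * k1
  · linear_combination -(df xs i : ℝ) * k1

theorem nodef (σ : I → I) (hσ : (∀ i, σ (i + 1) = σ i + 1) ∨ ∀ i, σ (i + 1) = σ i - 1)
    (X : ℝ → I → P) (hX : ∀ j, ContinuousOn (fun t => X t j) (Icc 0 1)) (h0 : X 0 = x)
    (h1 : X 1 = fun i => y (σ i))
    (hp : ∀ t ∈ Icc (0 : ℝ) 1, ∀ i, ∃ c : ℝ, 0 < c ∧ X t (i + 1) - X t i = c • U i)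
    (ho : ∀ t ∈ Icc (0 : ℝ) 1, ∀ (p : P) (i j k : I), p ∈ Ed (X t) i → p ∈ Ed (X t) j →
      p ∈ Ed (X t) k → i = j ∨ j = k ∨ i = k) : False := by
  have e := persist (fun m t => F m (X t)) (F_cont X hX) (by simpa [h0] using start)
    (fun t ht => step _ (hp t ht) (ho t ht)) (.inr 2)
  have q := hp 1 (by simp)
  simp only [h1] at q
  simp only [h1, F, y, emb] at e
  rcases hσ with k | k
  · obtain ⟨c, c0, hc⟩ := q 0
    obtain ⟨d, d0, hd⟩ := q 7
    rw [k] at hc hd
    have a : ∀ a : I, (xt (a + 1) - xt a) * df ys 0 - (yt (a + 1) - yt a) * df xs 0 = 0 ∧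
      0 ≤ (xt (a + 1) - xt a) * df xs 0 ∧ 0 ≤ (yt (a + 1) - yt a) * df ys 0 → a = 0 := by
        decide +kernel
    have b : ∀ a : I, (xt (a + 1) - xt a) * df ys 7 - (yt (a + 1) - yt a) * df xs 7 = 0 ∧
      0 ≤ (xt (a + 1) - xt a) * df xs 7 ∧ 0 ≤ (yt (a + 1) - yt a) * df ys 7 → a = 7 := by
        decide +kernel
    rw [a _ (dir c0 hc), b _ (dir d0 hd), show xt 7 = -36 by decide, show xt 0 = 0 by decide] at e
    norm_num at e
  · obtain ⟨c, c0, hc⟩ := q 9
    rw [k] at hc
    have a : ∀ a : I, ¬ ((xt (a - 1) - xt a) * df ys 9 - (yt (a - 1) - yt a) * df xs 9 = 0 ∧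
      0 ≤ (xt (a - 1) - xt a) * df xs 9 ∧ 0 ≤ (yt (a - 1) - yt a) * df ys 9) := by
        decide +kernel
    exact a _ (dir c0 hc)

end Pool.Agent.H3.Pg
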