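import Pool.Agent.H3.PoiDefs

open MvPolynomial

namespace Pool.Agent.H3.Poi

variable {n : ℕ}

lemma An.diff (f : An n) : Differentiable ℝ f.1 := fun x => (f.2 x trivial).differentiableAt

lemma pd_add (i : Fin n) (f g : An n) : pd i (f + g) = pd i f + pd i g := by
  ext x
  show fderiv ℝ (f.1 + g.1) x _ = fderiv ℝ f.1 x _ + fderiv ℝ g.1 x _
  rw [fderiv_add (An.diff f x) (An.diff g x)]; rfl

lemma pd_mul (i : Fin n) (f g : An n) : pd i (f * g) = f * pd i g + g * pd i f := by
  ext x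
  show fderiv ℝ (f.1 * g.1) x _ = f.1 x * fderiv ℝ g.1 x _ + g.1 x * fderiv ℝ f.1 x _
  rw [fderiv_mul (An.diff f x) (An.diff g x)]; rfl

lemma pd_const (i : Fin n) (r : ℝ) : pd i (algebraMap ℝ (An n) r) = 0 := by
  ext x
  show fderiv ℝ (fun _ => r) x _ = 0
  simp

lemma pd_zero (i : Fin n) : pd i (0 : An n) = 0 := by simpa using pd_const i 0

lemma pd_comm (i j : Fin n) (f : An n) : pd i (pd j f) = pd j (pd i f) := by
  ext x
  have h2 : DifferentiableAt ℝ (fderiv ℝ f.1) x :=
    (AnalyticOnNhd.fderiv f.2 x trivial).differentiableAt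
  have key : ∀ a b : Fin n → ℝ, fderiv ℝ (fun y => fderiv ℝ f.1 y b) x a =
      fderiv ℝ (fderiv ℝ f.1) x a b := fun a b => by
    rw [(h2.hasFDerivAt.clm_apply (hasFDerivAt_const b x)).fderiv]; simp
  show fderiv ℝ (fun y => fderiv ℝ f.1 y _) x _ = fderiv ℝ (fun y => fderiv ℝ f.1 y _) x _
  rw [key, key]
  exact ((f.2 x trivial).contDiffAt (n := ⊤)).isSymmSndFDerivAt (by simp) |>.eq _ _

class Good {A : Type} [CommRing A] (pd : Fin n → A → A) : Prop where
  add : ∀ i f g, pd i (f + g) = pd i f + pd i g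
  mul : ∀ i f g, pd i (f * g) = f * pd i g + g * pd i f
  comm : ∀ i j f, pd i (pd j f) = pd j (pd i f)

instance : Good (pd (n := n)) := ⟨pd_add, pd_mul, pd_comm⟩

variable {A : Type} [CommRing A] {pd : Fin n → A → A} [hg : Good pd]

lemma g_zero (i : Fin n) : pd i 0 = 0 := by simpa using hg.add i 0 0
lemma g_one (i : Fin n) : pd i 1 = 0 := by simpa using hg.mul i 1 1

variable (pd) in
def pdH (i : Fin n) : A →+ A := ⟨⟨pd i, g_zero i⟩, hg.add i⟩

lemma coeff_cD (i : Fin n) (p : DA n A) (s : Fin n × ℕ →₀ ℕ) :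
    coeff s (cD pd i p) = pd i (coeff s p) := by
  classical
  simp only [cD, coeff_sum, coeff_monomial]
  rw [Finset.sum_ite_eq']
  split_ifs with h
  · rfl
  · rw [notMem_support_iff.1 h]; exact (g_zero i).symm

structure IsDer (d : DA n A → DA n A) : Prop where
  add : ∀ a b, d (a + b) = d a + d b
  mul : ∀ a b, d (a * b) = a * d b + b * d a

lemma IsDer.zero {d : DA n A → DA n A} (h : IsDer d) : d 0 = 0 := by
  have := h.add 0 0
  simpa using this

def IsDer.hom {d : DA n A → DA n A} (h : IsDer d) : DA n A →+ DA n A := ⟨⟨d, h.zero⟩, h.add⟩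

lemma IsDer.sum {d : DA n A → DA n A} (h : IsDer d) {ι : Type} (s : Finset ι) (f : ι → DA n A) :
    d (∑ i ∈ s, f i) = ∑ i ∈ s, d (f i) := map_sum h.hom f s

lemma IsDer.sub {d : DA n A → DA n A} (h : IsDer d) (a b : DA n A) : d (a - b) = d a - d b :=
  map_sub h.hom a b

lemma IsDer.neg {d : DA n A → DA n A} (h : IsDer d) (a : DA n A) : d (-a) = -d a := map_neg h.hom a

lemma IsDer.one {d : DA n A → DA n A} (h : IsDer d) : d 1 = 0 := by
  have := h.mul 1 1
  simpa using this

lemma IsDer.ext {d e : DA n A → DA n A} (hd : IsDer d) (he : IsDer e) (h1 : ∀ a, d (C a) = e (C a))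
    (h2 : ∀ v, d (X v) = e (X v)) (p : DA n A) : d p = e p := by
  induction p using MvPolynomial.induction_on with
  | C a => exact h1 a
  | add p q hp hq => rw [hd.add, he.add, hp, hq]
  | mul_X p v hp => rw [hd.mul, he.mul, hp, h2]

lemma IsDer.comm {d e : DA n A → DA n A} (hd : IsDer d) (he : IsDer e) :
    IsDer fun p => d (e p) - e (d p) :=
  ⟨fun a b => by simp only [hd.add, he.add]; ring,
    fun a b => by simp only [hd.add, he.add, hd.mul, he.mul]; ring⟩

lemma cD_der (i : Fin n) : IsDer (cD pd i) := by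
  classical
  refine ⟨fun a b => ?_, fun a b => ?_⟩
  · ext1 s; simp only [coeff_cD, coeff_add, hg.add]
  · ext1 s
    rw [mul_comm b]
    simp only [coeff_cD, coeff_add, coeff_mul]
    rw [← Finset.sum_add_distrib]
    refine (map_sum (pdH pd i) _ _).trans (Finset.sum_congr rfl fun x _ => ?_)
    show pd i _ = _
    rw [hg.mul]; ring

lemma cD_C (i : Fin n) (a : A) : cD pd i (C a) = C (pd i a) := by
  classical
  ext1 s
  simp only [coeff_cD, coeff_C]
  split_ifs <;> simp [g_zero]

lemma cD_X (i : Fin n) (v : Fin n × ℕ) : cD pd i (X v) = 0 := by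
  classical
  ext1 s
  have h1 : pd i (1 : A) = 0 := g_one i
  simp only [coeff_cD, coeff_X, coeff_zero]
  split_ifs <;> simp [g_zero, h1]

variable (pd) in
noncomputable def gen (Y : Fin n → DA n A) (f : Fin n × ℕ → DA n A) (p : DA n A) : DA n A :=
  ∑ i, Y i * cD pd i p + mkDerivation (A) f p

lemma gen_der (Y : Fin n → DA n A) (f : Fin n × ℕ → DA n A) : IsDer (gen pd Y f) := by
  refine ⟨fun a b => ?_, fun a b => ?_⟩
  · simp only [gen, (cD_der _).add, map_add, mul_add, Finset.sum_add_distrib]; ring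
  · simp only [gen, (cD_der _).mul, Derivation.leibniz, smul_eq_mul, mul_add,
      Finset.sum_add_distrib, Finset.mul_sum]
    have e1 : ∀ i, Y i * (a * cD pd i b) = a * (Y i * cD pd i b) := fun i => by ring
    have e2 : ∀ i, Y i * (b * cD pd i a) = b * (Y i * cD pd i a) := fun i => by ring
    simp only [e1, e2]; ring

lemma gen_C (Y : Fin n → DA n A) (f : Fin n × ℕ → DA n A) (a : A) :
    gen pd Y f (C a) = ∑ i, Y i * C (pd i a) := by
  simp [gen, cD_C, derivation_C]

lemma gen_X (Y : Fin n → DA n A) (f : Fin n × ℕ → DA n A) (v : Fin n × ℕ) : gen pd Y f (X v) = f v := by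
  simp [gen, cD_X, mkDerivation_X]

lemma D_der : IsDer (D pd : DA n A → DA n A) := gen_der _ _
lemma D_C (a : A) : D pd (C a : DA n A) = ∑ i, X (i, 0) * C (pd i a) := gen_C _ _ a
lemma D_X (v : Fin n × ℕ) : D pd (X v : DA n A) = X (v.1, v.2 + 1) := gen_X _ _ v

variable (pd) in
noncomputable def ev (Y : Fin n → DA n A) : DA n A → DA n A := gen pd Y fun v => (D pd)^[v.2 + 1] (Y v.1)

lemma ev_der (Y : Fin n → DA n A) : IsDer (ev pd Y) := gen_der _ _
lemma ev_C (Y : Fin n → DA n A) (a : A) : ev pd Y (C a) = ∑ i, Y i * C (pd i a) := gen_C _ _ a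
lemma ev_X (Y : Fin n → DA n A) (v : Fin n × ℕ) : ev pd Y (X v) = (D pd)^[v.2 + 1] (Y v.1) := gen_X _ _ v

lemma zero_der : IsDer (fun _ : DA n A => (0 : DA n A)) := ⟨by simp, by simp⟩

lemma ev_D (Y : Fin n → DA n A) (p : DA n A) : ev pd Y (D pd p) = D pd (ev pd Y p) := by
  rw [← sub_eq_zero]
  refine ((ev_der Y).comm D_der).ext zero_der (fun a => ?_) (fun v => ?_) p
  · simp only [D_C, ev_C, (ev_der Y).sum, D_der.sum, (ev_der Y).mul, D_der.mul, ev_X,
      Finset.sum_add_distrib, Finset.mul_sum]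
    rw [Finset.sum_comm]
    simp only [zero_add, Function.iterate_one, sub_eq_zero]
    congr 1
    exact Finset.sum_congr rfl fun i _ => Finset.sum_congr rfl fun j _ => by
      rw [hg.comm]; ring
  · simp only [D_X, ev_X, Function.iterate_succ_apply', sub_self]

lemma ev_Dit (Y : Fin n → DA n A) (k : ℕ) (p : DA n A) : ev pd Y ((D pd)^[k] p) = (D pd)^[k] (ev pd Y p) := by
  induction k with
  | zero => rfl
  | succ k ih => simp only [Function.iterate_succ_apply', ev_D, ih]

lemma Dit_sub (k : ℕ) (a b : DA n A) : (D pd)^[k] (a - b) = (D pd)^[k] a - (D pd)^[k] b := by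
  induction k with
  | zero => rfl
  | succ k ih => simp only [Function.iterate_succ_apply', D_der.sub, ih]

lemma Dit_zero (k : ℕ) : (D pd)^[k] (0 : DA n A) = 0 := by simpa using Dit_sub k (0 : DA n A) 0

lemma ev_comm (Y Z : Fin n → DA n A) (p : DA n A) :
    ev pd Y (ev pd Z p) - ev pd Z (ev pd Y p) = ev pd (fun i => ev pd Y (Z i) - ev pd Z (Y i)) p := by
  refine ((ev_der Y).comm (ev_der Z)).ext (ev_der _) (fun a => ?_) (fun v => ?_) p
  · simp only [ev_C, (ev_der Y).sum, (ev_der Z).sum, (ev_der Y).mul, (ev_der Z).mul,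
      Finset.sum_add_distrib, Finset.mul_sum, sub_mul, Finset.sum_sub_distrib]
    have : ∑ i, ∑ j, Z i * (Y j * C (pd j (pd i a))) = ∑ i, ∑ j, Y i * (Z j * C (pd j (pd i a))) := by
      rw [Finset.sum_comm]
      exact Finset.sum_congr rfl fun i _ => Finset.sum_congr rfl fun j _ => by
        rw [hg.comm]; ring
    rw [this]
    simp only [mul_comm (C _), sub_mul, Finset.sum_sub_distrib]
    ring
  · simp only [ev_X, ev_Dit, Dit_sub]

lemma jet_der (i : Fin n) (k : ℕ) : IsDer (jetD pd i k) := by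
  cases k with
  | zero => exact cD_der i
  | succ k => exact ⟨fun a b => map_add (pderiv (i, k)) a b, fun a b => by
      show pderiv (i, k) (a * b) = a * pderiv (i, k) b + b * pderiv (i, k) a
      rw [Derivation.leibniz]; rfl⟩

variable (pd) in
def Fin' (Y : Fin n → DA n A) (p : DA n A) : Prop :=
  ∃ N, (∀ i k, N ≤ k → jetD pd i k p = 0) ∧
    ∀ N', N ≤ N' → ev pd Y p = ∑ i, ∑ k ∈ Finset.range N', (D pd)^[k] (Y i) * jetD pd i k p

lemma fin' (Y : Fin n → DA n A) (p : DA n A) : Fin' pd Y p := by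
  classical
  have hX : ∀ v, Fin' pd Y (X v) := fun v => by
    have e : ∀ i k, jetD pd i k (X v : DA n A) = if i = v.1 ∧ k = v.2 + 1 then 1 else 0 := by
      intro i k
      cases k with
      | zero => simp [jetD, cD_X]
      | succ k => simp [jetD, pderiv_X, Pi.single_apply, Prod.ext_iff, eq_comm]
    refine ⟨v.2 + 2, fun i k hk => ?_, fun N' hN => ?_⟩
    · rw [e, if_neg]; omega
    · simp only [e, ev_X]
      rw [Finset.sum_eq_single v.1, Finset.sum_eq_single (v.2 + 1)]
      · simp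
      · intro b _ hb; simp [hb]
      · intro h; exact absurd (Finset.mem_range.2 (by omega)) h
      · intro b _ hb; simp [hb]
      · simp
  induction p using MvPolynomial.induction_on with
  | C a =>
    have e : ∀ i k, jetD pd i (k + 1) (C a : DA n A) = 0 := fun i k => by simp [jetD]
    refine ⟨1, fun i k hk => ?_, fun N' hN => ?_⟩
    · obtain ⟨k, rfl⟩ := Nat.exists_eq_add_of_le' hk
      exact e i k
    · obtain ⟨k, rfl⟩ := Nat.exists_eq_add_of_le' hN
      simp only [Finset.sum_range_succ', e, ev_C]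
      simp [jetD, cD_C]
  | add p q hp hq =>
    obtain ⟨N1, a1, b1⟩ := hp
    obtain ⟨N2, a2, b2⟩ := hq
    refine ⟨max N1 N2, fun i k hk => ?_, fun N' hN => ?_⟩
    · rw [(jet_der i k).add, a1 i k (by omega), a2 i k (by omega), add_zero]
    · simp only [(ev_der Y).add, (jet_der _ _).add, b1 N' (by omega), b2 N' (by omega), mul_add,
        Finset.sum_add_distrib]
  | mul_X p v hp =>
    obtain ⟨N1, a1, b1⟩ := hp
    obtain ⟨N2, a2, b2⟩ := hX v
    refine ⟨max N1 N2, fun i k hk => ?_, fun N' hN => ?_⟩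
    · rw [(jet_der i k).mul, a1 i k (by omega), a2 i k (by omega)]; simp
    · simp only [(ev_der Y).mul, (jet_der _ _).mul, b1 N' (by omega), b2 N' (by omega), mul_add,
        Finset.sum_add_distrib, Finset.mul_sum]
      refine congrArg₂ (· + ·) ?_ ?_
      · exact Finset.sum_congr rfl fun i _ => Finset.sum_congr rfl fun j _ => mul_left_comm _ _ _
      · exact Finset.sum_congr rfl fun i _ => Finset.sum_congr rfl fun j _ => mul_left_comm _ _ _

variable (pd) in
noncomputable def rng : AddSubgroup (DA n A) where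
  carrier := Set.range (D pd)
  add_mem' := by rintro _ _ ⟨a, rfl⟩ ⟨b, rfl⟩; exact ⟨a + b, D_der.add a b⟩
  zero_mem' := ⟨0, D_der.zero⟩
  neg_mem' := by rintro _ ⟨a, rfl⟩; exact ⟨-a, D_der.neg a⟩

variable (pd) in
noncomputable def π : DA n A →+ DA n A ⧸ rng pd := QuotientAddGroup.mk' _

lemma π_zero {p : DA n A} : π pd p = 0 ↔ ∃ w, p = D pd w := by
  rw [π, QuotientAddGroup.mk'_apply, QuotientAddGroup.eq_zero_iff]
  exact ⟨fun ⟨w, h⟩ => ⟨w, h.symm⟩, fun ⟨w, h⟩ => ⟨w, h.symm⟩⟩

lemma π_parts (k : ℕ) (a b : DA n A) : π pd ((D pd)^[k] a * b) = π pd (a * ((-1) ^ k * (D pd)^[k] b)) := by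
  induction k generalizing b with
  | zero => simp
  | succ k ih =>
    have h1 : π pd (D pd ((D pd)^[k] a * b)) = 0 := π_zero.2 ⟨_, rfl⟩
    rw [D_der.mul, map_add, ih] at h1
    rw [Function.iterate_succ_apply', Function.iterate_succ_apply, mul_comm,
      eq_neg_of_add_eq_zero_right h1, ← map_neg]
    congr 1; ring

lemma π_ev (Y : Fin n → DA n A) (p : DA n A) : π pd (ev pd Y p) = π pd (∑ i, Y i * euler pd p i) := by
  obtain ⟨N, a, b⟩ := fin' (pd := pd) Y p
  rw [b N le_rfl, map_sum, map_sum]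
  refine Finset.sum_congr rfl fun i _ => ?_
  rw [euler, finsum_eq_sum_of_support_subset (s := Finset.range N), Finset.mul_sum, map_sum, map_sum]
  · exact Finset.sum_congr rfl fun k _ => π_parts k _ _
  · intro k hk
    by_contra h
    apply hk
    simp only [Finset.coe_range, Set.mem_Iio, not_lt] at h
    simp [a i k h, Dit_zero]

lemma helm (Y Z : Fin n → DA n A) (H : DA n A) :
    π pd (∑ i, ev pd Y (euler pd H i) * Z i) = π pd (∑ i, ev pd Z (euler pd H i) * Y i) := by
  have key : ∀ Y Z : Fin n → DA n A, π pd (ev pd Y (ev pd Z H)) =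
      π pd (∑ i, ev pd Y (euler pd H i) * Z i) + π pd (∑ i, ev pd Y (Z i) * euler pd H i) := fun Y Z => by
    obtain ⟨w, hw⟩ := π_zero.1 (show π pd (ev pd Z H - ∑ i, Z i * euler pd H i) = 0 by
      rw [map_sub, π_ev, sub_self])
    have h1 : π pd (ev pd Y (ev pd Z H - ∑ i, Z i * euler pd H i)) = 0 := π_zero.2 ⟨_, by rw [hw, ev_D]⟩
    rw [(ev_der Y).sub, map_sub, sub_eq_zero] at h1
    rw [h1, ← map_add, (ev_der Y).sum, ← Finset.sum_add_distrib]
    congr 1
    exact Finset.sum_congr rfl fun i _ => by rw [(ev_der Y).mul]; ring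
  have h2 := congrArg (π pd) (ev_comm (pd := pd) Y Z H)
  rw [map_sub, key, key, π_ev] at h2
  simp only [sub_mul, Finset.sum_sub_distrib, map_sub] at h2
  rw [← sub_eq_zero, ← sub_eq_zero.2 h2]; abel

end Pool.Agent.H3.Poi
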