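import Pool.Agent.H3.Poi1

open MvPolynomial

namespace Pool.Agent.H3.Poi

section gen

variable {A : Type} [CommRing A]

def gg (u v μ ν : A) : Fin 3 → Fin 3 → A :=
  ![![0, 0, μ], ![0, μ, -(μ * u)], ![μ, -(μ * u), μ * (v + v + u * u) + ν]]

def cc (u μ : A) : Fin 3 → Fin 3 → Fin 3 → A :=
  ![0, ![0, 0, ![-μ, 0, 0]], ![0, 0, ![μ * u, μ, 0]]]

variable {pd : Fin 3 → A → A} [hg : Good pd] {u v μ ν : A}

noncomputable def QQ (pd : Fin 3 → A → A) (u v μ ν : DA 3 A) (β : Fin 3 → DA 3 A) :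
    Fin 3 → DA 3 A :=
  ![μ * D pd (β 2), μ * (D pd (β 1) - u * D pd (β 2) - D pd u * β 2),
    μ * (D pd (β 0) - u * D pd (β 1) + (v + v + u * u) * D pd (β 2) + (D pd v + u * D pd u) * β 2)
      + ν * D pd (β 2)]

noncomputable def QQ' (pd : Fin 3 → A → A) (u μ : DA 3 A) (Y β : Fin 3 → DA 3 A) :
    Fin 3 → DA 3 A :=
  ![0, μ * (-(Y 0 * D pd (β 2)) - D pd (Y 0) * β 2),
    μ * (-(Y 0 * D pd (β 1)) + (Y 1 + Y 1 + u * Y 0 + u * Y 0) * D pd (β 2)
      + (D pd (Y 1) + Y 0 * D pd u + u * D pd (Y 0)) * β 2)]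

structure Data (pd : Fin 3 → A → A) (u v μ ν : A) : Prop where
  hu : ∀ i, pd i u = if i = 0 then 1 else 0
  hv : ∀ i, pd i v = if i = 1 then 1 else 0
  hμ : ∀ i, pd i μ = 0
  hν : ∀ i, pd i ν = 0

lemma op_eq (h : Data pd u v μ ν) (ψ : Fin 3 → DA 3 A) (i : Fin 3) :
    op pd (gg u v μ ν) (cc u μ) ψ i =
      D pd (QQ pd (C u) (C v) (C μ) (C ν) (fun j => D pd (ψ j)) i) := by
  have e1 : D pd (C u) = X (0, 0) := by simp [D_C, h.hu, Fin.sum_univ_three]
  have e2 : D pd (C v) = X (1, 0) := by simp [D_C, h.hv, Fin.sum_univ_three]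
  unfold op
  congr 1
  fin_cases i <;> simp [gg, cc, QQ, Fin.sum_univ_three, e1, e2] <;> ring

lemma ev_op (h : Data pd u v μ ν) (Y ψ : Fin 3 → DA 3 A) (i : Fin 3) :
    ev pd Y (op pd (gg u v μ ν) (cc u μ) ψ i) =
      op pd (gg u v μ ν) (cc u μ) (fun j => ev pd Y (ψ j)) i +
        D pd (QQ' pd (C u) (C μ) Y (fun j => D pd (ψ j)) i) := by
  have e1 : ev pd Y (C u) = Y 0 := by simp [ev_C, h.hu, Fin.sum_univ_three]
  have e2 : ev pd Y (C v) = Y 1 := by simp [ev_C, h.hv, Fin.sum_univ_three]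
  have e3 : ev pd Y (C μ) = 0 := by simp [ev_C, h.hμ]
  have e4 : ev pd Y (C ν) = 0 := by simp [ev_C, h.hν]
  rw [op_eq h, op_eq h, ev_D, ← D_der.add]
  refine congrArg (D pd) ?_
  fin_cases i <;>
    simp [QQ, QQ', (ev_der Y).add, (ev_der Y).sub, (ev_der Y).mul, ev_D, e1, e2, e3, e4] <;> ring

lemma skew (h : Data pd u v μ ν) (a b : Fin 3 → DA 3 A) :
    π pd (∑ i, a i * op pd (gg u v μ ν) (cc u μ) b i) =
      -π pd (∑ i, b i * op pd (gg u v μ ν) (cc u μ) a i) := by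
  have e3 : D pd (C μ) = 0 := by simp [D_C, h.hμ]
  have e4 : D pd (C ν) = 0 := by simp [D_C, h.hν]
  rw [eq_neg_iff_add_eq_zero, ← map_add, π_zero]
  refine ⟨∑ i, a i * QQ pd (C u) (C v) (C μ) (C ν) (fun j => D pd (b j)) i +
    ∑ i, b i * QQ pd (C u) (C v) (C μ) (C ν) (fun j => D pd (a j)) i -
    ∑ i, ∑ j, C (gg u v μ ν i j) * D pd (a i) * D pd (b j), ?_⟩
  simp only [op_eq h, D_der.add, D_der.sub, D_der.mul, Fin.sum_univ_three]
  simp [QQ, gg, D_der.add, D_der.sub, D_der.mul, D_der.neg, D_der.zero, e3, e4]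
  ring

noncomputable def WW (pd : Fin 3 → A → A) (u v μ ν : DA 3 A) (a b c : Fin 3 → DA 3 A) : DA 3 A :=
  ∑ i, a i * QQ' pd u μ (fun j => D pd (QQ pd u v μ ν (fun l => D pd (c l)) j))
      (fun j => D pd (b j)) i
    - μ * (-(D pd (a 1) * D pd (μ * D pd (D pd (c 2))) * D pd (b 2))
      + D pd (a 2) * D pd (μ * D pd (D pd (c 1) - u * D pd (c 2))) * D pd (b 2)
      + u * D pd (a 2) * D pd (μ * D pd (D pd (c 2))) * D pd (b 2))
    - μ * μ * D pd (D pd (a 1) - u * D pd (a 2)) *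
      (D pd (b 2) * D pd (D pd (c 2)) - D pd (D pd (b 2)) * D pd (c 2))

noncomputable def TT (pd : Fin 3 → A → A) (u v μ ν : A) (a b c : Fin 3 → DA 3 A) : DA 3 A :=
  ∑ i, a i * D pd (QQ' pd (C u) (C μ) (op pd (gg u v μ ν) (cc u μ) c) (fun j => D pd (b j)) i)

lemma cyc (h : Data pd u v μ ν) (a b c : Fin 3 → DA 3 A) :
    π pd (TT pd u v μ ν a b c) + π pd (TT pd u v μ ν b c a) + π pd (TT pd u v μ ν c a b) = 0 := by
  have e3 : D pd (C μ) = 0 := by simp [D_C, h.hμ]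
  rw [← map_add, ← map_add, π_zero]
  refine ⟨WW pd (C u) (C v) (C μ) (C ν) a b c + WW pd (C u) (C v) (C μ) (C ν) b c a +
    WW pd (C u) (C v) (C μ) (C ν) c a b, ?_⟩
  simp only [TT, WW, QQ', op_eq h, QQ, Fin.sum_univ_three, Matrix.cons_val, D_der.add, D_der.sub,
    D_der.mul, D_der.neg, D_der.zero, e3]
  ring

lemma br_br (h : Data pd u v μ ν) (H F G : DA 3 A) :
    π pd (bracket pd (gg u v μ ν) (cc u μ) (bracket pd (gg u v μ ν) (cc u μ) H F) G) =
      π pd (∑ i, ev pd (op pd (gg u v μ ν) (cc u μ) (euler pd G)) (euler pd H i) *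
        op pd (gg u v μ ν) (cc u μ) (euler pd F) i) -
      π pd (∑ i, ev pd (op pd (gg u v μ ν) (cc u μ) (euler pd G)) (euler pd F i) *
        op pd (gg u v μ ν) (cc u μ) (euler pd H) i) +
      π pd (TT pd u v μ ν (euler pd H) (euler pd F) (euler pd G)) := by
  rw [bracket]
  simp only [mul_comm (euler pd (bracket _ _ _ _ _) _)]
  rw [← π_ev, sub_eq_add_neg, ← skew h, ← map_add, ← map_add, bracket, (ev_der _).sum, TT,
    ← Finset.sum_add_distrib, ← Finset.sum_add_distrib]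
  refine congrArg (π pd) (Finset.sum_congr rfl fun i _ => ?_)
  rw [(ev_der _).mul, ev_op h]; ring

theorem poisson (h : Data pd u v μ ν) : IsPoisson pd (gg u v μ ν) (cc u μ) := by
  refine ⟨fun H F => π_zero.1 ?_, fun H F G => π_zero.1 ?_⟩
  · rw [map_add, bracket, bracket, skew h, neg_add_cancel]
  · rw [map_add, map_add, br_br h, br_br h, br_br h, helm _ _ H, helm _ _ F, helm _ _ G,
      ← cyc h (euler pd H) (euler pd F) (euler pd G)]
    abel

end gen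

noncomputable def co (i : Fin 3) : An 3 :=
  ⟨fun x => x i, fun x _ => (ContinuousLinearMap.proj (R := ℝ) (φ := fun _ : Fin 3 => ℝ) i).analyticAt x⟩

lemma pd_co (i j : Fin 3) : pd i (co j) = if i = j then 1 else 0 := by
  ext x
  have : fderiv ℝ (fun x : Fin 3 → ℝ => x j) x = ContinuousLinearMap.proj j :=
    (ContinuousLinearMap.proj (R := ℝ) (φ := fun _ : Fin 3 => ℝ) j).fderiv
  show fderiv ℝ (fun x : Fin 3 → ℝ => x j) x _ = _
  rw [this]
  by_cases h : i = j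
  · simp [h]
  · simp [h, Pi.single_apply, Ne.symm h]

lemma data (a b : ℝ) : Data pd (co 0) (co 1) (algebraMap ℝ (An 3) a) (algebraMap ℝ (An 3) b) :=
  ⟨fun i => pd_co i 0, fun i => pd_co i 1, fun i => pd_const i a, fun i => pd_const i b⟩

end Pool.Agent.H3.Poi
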