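import Mathlib

open MvPolynomial

namespace Pool.Agent.H3.Poi

/-- The algebra of real analytic functions of `u = (u¹, …, uⁿ)` on `ℝⁿ`. -/
def An (n : ℕ) : Subalgebra ℝ ((Fin n → ℝ) → ℝ) where
  carrier := {f | AnalyticOnNhd ℝ f Set.univ}
  mul_mem' := fun hf hg => hf.mul hg
  add_mem' := fun hf hg => hf.add hg
  algebraMap_mem' := fun _ => analyticOnNhd_const

variable {n : ℕ}

/-- The derivative `∂f/∂uⁱ` of a function on `ℝⁿ`. -/
noncomputable def pdFun (i : Fin n) (f : (Fin n → ℝ) → ℝ) : (Fin n → ℝ) → ℝ :=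
  fun x => fderiv ℝ f x (Pi.single i 1)

theorem pdFun_mem (i : Fin n) (f : An n) : pdFun i f.1 ∈ An n := fun x hx =>
  ((ContinuousLinearMap.apply ℝ ℝ (Pi.single i 1 : Fin n → ℝ)).analyticAt _).comp
    (AnalyticOnNhd.fderiv f.2 x hx)

/-- The derivative `∂f/∂uⁱ` of an analytic function. -/
noncomputable def pd (i : Fin n) (f : An n) : An n := ⟨pdFun i f.1, pdFun_mem i f⟩

/-- Differential polynomials: polynomials in `u_x, u_xx, …` with coefficients in a ring `A` of
functions of `u`. The variable `(i, k)` is `∂ₓ^{k+1} uⁱ`. -/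
abbrev DA (n : ℕ) (A : Type) [CommRing A] : Type := MvPolynomial (Fin n × ℕ) A

section

variable {A : Type} [CommRing A] (d : Fin n → A → A)

/-- `∂/∂uⁱ`, acting on the coefficients through `d i`. -/
noncomputable def cD (i : Fin n) (p : DA n A) : DA n A :=
  ∑ s ∈ p.support, monomial s (d i (coeff s p))

/-- `∂/∂uⁱ_k`, the derivative in the `k`-th jet variable `∂ₓ^k uⁱ`. -/
noncomputable def jetD (i : Fin n) : ℕ → DA n A → DA n A
  | 0, p => cD d i p
  | k + 1, p => pderiv (i, k) p

/-- The total derivative `D = ∑ uⁱ_{k+1} ∂/∂uⁱ_k`. -/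
noncomputable def D (p : DA n A) : DA n A :=
  ∑ i, X (i, 0) * cD d i p + mkDerivation A (fun v : Fin n × ℕ => (X (v.1, v.2 + 1) : DA n A)) p

/-- The Euler-Lagrange derivative `δ/δuⁱ = ∑ (-D)^k ∂/∂uⁱ_k`. -/
noncomputable def euler (p : DA n A) (i : Fin n) : DA n A :=
  ∑ᶠ k, (-1) ^ k * (D d)^[k] (jetD d i k p)

variable (g : Fin n → Fin n → A) (c : Fin n → Fin n → Fin n → A)

/-- The third-order operator `D (g^{ij} D + c^{ij}_r u^r_x) D`. -/
noncomputable def op (ψ : Fin n → DA n A) (i : Fin n) : DA n A :=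
  D d (∑ j, (C (g i j) * D d (D d (ψ j)) + (∑ r, C (c i j r) * X (r, 0)) * D d (ψ j)))

/-- The density of the bracket `{H, F} = δH/δuⁱ · P^{ij} δF/δuʲ`. -/
noncomputable def bracket (H F : DA n A) : DA n A := ∑ i, euler d H i * op d g c (euler d F) i

/-- The bracket is skew-symmetric and satisfies the Jacobi identity on functionals, that is
modulo total derivatives. -/
def IsPoisson : Prop :=
  (∀ H F, ∃ w, bracket d g c H F + bracket d g c F H = D d w) ∧
    ∀ H F G, ∃ w, bracket d g c (bracket d g c H F) G + bracket d g c (bracket d g c F G) H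
      + bracket d g c (bracket d g c G H) F = D d w

/-- Two Poisson structures `(g, c)`, `(g', c')` which are compatible, are not constant multiples
of each other, and are both not Darboux-Poisson. -/
def IsNonDarbouxPair [Algebra ℝ A] (g' : Fin n → Fin n → A) (c' : Fin n → Fin n → Fin n → A) :
    Prop :=
  IsPoisson d g c ∧ IsPoisson d g' c' ∧ (∀ l : ℝ, IsPoisson d (g + l • g') (c + l • c')) ∧
    (∀ k : ℝ, g ≠ k • g' ∧ g' ≠ k • g) ∧ c ≠ 0 ∧ c' ≠ 0

end

/-- `g^{ij}(u)` is symmetric and nondegenerate at every point. -/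
def IsNondeg (g : Fin n → Fin n → An n) : Prop :=
  (∀ i j, g i j = g j i) ∧ ∀ x, (Matrix.of fun i j => (g i j).1 x).det ≠ 0

/-- Matrices `g^{ij}(u)` of analytic functions. -/
def Met (n : ℕ) : Type := Fin n → Fin n → An n

/-- Arrays `c^{ij}_r(u)` of analytic functions. -/
def Coef (n : ℕ) : Type := Fin n → Fin n → Fin n → An n

/-- `IsNonDarbouxPair` over the analytic functions, for nondegenerate `g`, `g'`. -/
def IsExample (g : Met n) (c : Coef n) (g' : Met n) (c' : Coef n) : Prop :=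
  IsNondeg g ∧ IsNondeg g' ∧ IsNonDarbouxPair pd g c g' c'

end Pool.Agent.H3.Poi
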