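import Pool.Agent.H3.PsDefs

open scoped Manifold ContDiff Topology
open Set Metric Filter

namespace Pool.Agent.H3.Ps

abbrev E5 : Type := Fin 5 → ℝ

noncomputable def L : E5 ≃L[ℝ] E5 :=
  LinearEquiv.toContinuousLinearEquiv
  { toFun := fun x => ![2 * x 0 + x 1, x 0 + x 1, 2 * x 2 + x 3, x 2 + x 3, x 4]
    invFun := fun x => ![x 0 - x 1, 2 * x 1 - x 0, x 2 - x 3, 2 * x 3 - x 2, x 4]
    map_add' := by intro x y; ext i; fin_cases i <;> simp <;> ring
    map_smul' := by intro c x; ext i; fin_cases i <;> simp <;> ring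
    left_inv := by intro x; ext i; fin_cases i <;> simp <;> ring
    right_inv := by intro x; ext i; fin_cases i <;> simp <;> ring }

lemma L_apply (x : E5) : L x = ![2 * x 0 + x 1, x 0 + x 1, 2 * x 2 + x 3, x 2 + x 3, x 4] := rfl
lemma Linv_apply (x : E5) :
    (L⁻¹ : E5 ≃L[ℝ] E5) x = ![x 0 - x 1, 2 * x 1 - x 0, x 2 - x 3, 2 * x 3 - x 2, x 4] := rfl

def hh (a b c d : ℝ) : ℝ := 2 * a * c - a * d - b * c - 2 * b * d

noncomputable def g0 : E5 →ₗ[ℝ] E5 →ₗ[ℝ] ℝ :=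
  LinearMap.mk₂ ℝ (fun u w => hh (u 0) (u 1) (w 2) (w 3) + hh (u 2) (u 3) (w 0) (w 1) + u 4 * w 4)
    (by intros; simp [hh]; ring) (by intros; simp [hh]; ring)
    (by intros; simp [hh]; ring) (by intros; simp [hh]; ring)

lemma g0_apply (u w : E5) :
    g0 u w = hh (u 0) (u 1) (w 2) (w 3) + hh (u 2) (u 3) (w 0) (w 1) + u 4 * w 4 := rfl

def A0 : E5 →ₗ[ℝ] E5 where
  toFun := fun u => ![0, 0, u 0, u 1, 0]
  map_add' := by intro x y; ext i; fin_cases i <;> simp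
  map_smul' := by intro c x; ext i; fin_cases i <;> simp

lemma A0_apply (u : E5) : A0 u = ![0, 0, u 0, u 1, 0] := rfl

def IsInt (v : E5) : Prop := ∀ i, ∃ n : ℤ, v i = n

def Good (f : E5 ≃L[ℝ] E5) : Prop :=
  (∀ v, IsInt v → IsInt (f v)) ∧ (∀ v, f v 4 = v 4) ∧ (∀ u w, g0 (f u) (f w) = g0 u w) ∧
    ∀ u, f (A0 u) = A0 (f u)

lemma good_L : Good L := by
  refine ⟨fun v hv i => ?_, fun v => rfl, fun u w => ?_, fun u => ?_⟩
  · choose n hn using hv
    rw [L_apply]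
    fin_cases i
    · exact ⟨2 * n 0 + n 1, by simp [hn]⟩
    · exact ⟨n 0 + n 1, by simp [hn]⟩
    · exact ⟨2 * n 2 + n 3, by simp [hn]⟩
    · exact ⟨n 2 + n 3, by simp [hn]⟩
    · exact ⟨n 4, by simp [hn]⟩
  · simp [g0_apply, L_apply, hh]; ring
  · ext i; fin_cases i <;> simp [L_apply, A0_apply]

lemma good_Linv : Good L⁻¹ := by
  refine ⟨fun v hv i => ?_, fun v => rfl, fun u w => ?_, fun u => ?_⟩
  · choose n hn using hv
    rw [Linv_apply]
    fin_cases i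
    · exact ⟨n 0 - n 1, by simp [hn]⟩
    · exact ⟨2 * n 1 - n 0, by simp [hn]⟩
    · exact ⟨n 2 - n 3, by simp [hn]⟩
    · exact ⟨2 * n 3 - n 2, by simp [hn]⟩
    · exact ⟨n 4, by simp [hn]⟩
  · simp [g0_apply, Linv_apply, hh]; ring
  · ext i; fin_cases i <;> simp [Linv_apply, A0_apply]

lemma Good.mul {f g : E5 ≃L[ℝ] E5} (hf : Good f) (hg : Good g) : Good (f * g) := by
  refine ⟨fun v hv => hf.1 _ (hg.1 v hv), fun v => ?_, fun u w => ?_, fun u => ?_⟩
  · show f (g v) 4 = _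
    rw [hf.2.1, hg.2.1]
  · show g0 (f (g u)) (f (g w)) = _
    rw [hf.2.2.1, hg.2.2.1]
  · show f (g (A0 u)) = A0 (f (g u))
    rw [hg.2.2.2, hf.2.2.2]

lemma good (k : ℤ) : Good (L ^ k) := by
  induction k using Int.induction_on with
  | zero => exact ⟨fun v hv => hv, fun v => rfl, fun u w => rfl, fun u => rfl⟩
  | succ i h => rw [zpow_add_one]; exact h.mul good_L
  | pred i h => rw [zpow_sub_one]; exact h.mul good_Linv

lemma zp_add (k j : ℤ) (x : E5) : (L ^ (k + j)) x = (L ^ k) ((L ^ j) x) := by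
  rw [zpow_add]; rfl

lemma zp_cancel (k : ℤ) (x : E5) : (L ^ (-k)) ((L ^ k) x) = x := by
  rw [← zp_add]; simp; rfl

lemma zp_cancel' (k : ℤ) (x : E5) : (L ^ k) ((L ^ (-k)) x) = x := by
  rw [← zp_add]; simp; rfl

def R (k : ℤ) (x y : E5) : Prop := ∃ v : E5, IsInt v ∧ v 4 = k ∧ y = (L ^ k) x + v

lemma R.symm {k : ℤ} {x y : E5} (h : R k x y) : R (-k) y x := by
  obtain ⟨v, hv, h4, rfl⟩ := h
  refine ⟨-(L ^ (-k)) v, fun i => ?_, ?_, ?_⟩
  · obtain ⟨n, hn⟩ := (good (-k)).1 v hv i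
    exact ⟨-n, by rw [Pi.neg_apply, hn]; simp⟩
  · rw [Pi.neg_apply, (good (-k)).2.1, h4]; simp
  · rw [map_add, zp_cancel]; abel

lemma R.trans {k j : ℤ} {x y z : E5} (h : R k x y) (h' : R j y z) : R (j + k) x z := by
  obtain ⟨v, hv, h4, rfl⟩ := h
  obtain ⟨w, hw, h5, rfl⟩ := h'
  refine ⟨(L ^ j) v + w, fun i => ?_, ?_, ?_⟩
  · obtain ⟨n, hn⟩ := (good j).1 v hv i
    obtain ⟨m, hm⟩ := hw i
    exact ⟨n + m, by simp [hn, hm]⟩
  · simp [(good j).2.1, h4, h5]; ring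
  · rw [map_add, zp_add]; abel

lemma R.four {k : ℤ} {x y : E5} (h : R k x y) : y 4 = x 4 + k := by
  obtain ⟨v, -, h4, rfl⟩ := h
  simp [(good k).2.1, h4]

def S : Setoid E5 where
  r x y := ∃ k, R k x y
  iseqv := ⟨fun x => ⟨0, 0, fun _ => ⟨0, by simp⟩, by simp, by simp; rfl⟩,
    fun ⟨_, h⟩ => ⟨_, h.symm⟩, fun ⟨_, h⟩ ⟨_, h'⟩ => ⟨_, h.trans h'⟩⟩

def M : Type := Quotient S

instance : TopologicalSpace M := inferInstanceAs (TopologicalSpace (Quotient S))

def p : E5 → M := Quotient.mk S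

lemma p_eq {x y : E5} : p x = p y ↔ ∃ k, R k x y := Quotient.eq

lemma p_cont : Continuous p := continuous_quotient_mk'

lemma p_surj : Function.Surjective p := Quotient.mk_surjective

lemma p_open : IsOpenMap p := by
  intro U hU
  have hq : Topology.IsQuotientMap p := isQuotientMap_quotient_mk'
  rw [← hq.isOpen_preimage, isOpen_iff_mem_nhds]
  rintro y ⟨x, hx, hxy⟩
  obtain ⟨k, h⟩ := p_eq.1 hxy
  obtain ⟨v, hv, h4, hx'⟩ := h.symm
  have hc : Continuous fun z : E5 => (L ^ (-k)) z + v := by fun_prop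
  have : (fun z : E5 => (L ^ (-k)) z + v) ⁻¹' U ∈ 𝓝 y :=
    hc.continuousAt.preimage_mem_nhds (hU.mem_nhds (by rw [← hx']; exact hx))
  filter_upwards [this] with z hz
  exact ⟨_, hz, (p_eq.2 ⟨_, v, hv, h4, rfl⟩).symm⟩

lemma p_inj (x : E5) : InjOn p (ball x (1 / 4)) := by
  intro y hy z hz h
  obtain ⟨k, h⟩ := p_eq.1 h
  have hd : ∀ i, |z i - y i| < 1 / 2 := fun i => by
    have h1 := dist_le_pi_dist z y i
    have h2 := dist_triangle_right z y x
    rw [mem_ball] at hy hz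
    rw [← Real.dist_eq]; linarith
  have hz0 : ∀ n : ℤ, |(n : ℝ)| < 1 / 2 → n = 0 := fun n hn => by
    have : |(n : ℝ)| < 1 := by linarith
    have h3 : |n| < 1 := by exact_mod_cast this
    exact Int.abs_lt_one_iff.1 h3
  have hk : k = 0 := hz0 k (by have := hd 4; rwa [h.four, add_sub_cancel_left] at this)
  subst hk
  obtain ⟨v, hv, -, rfl⟩ := h
  ext i
  obtain ⟨n, hn⟩ := hv i
  have := hd i
  simp only [zpow_zero, Pi.add_apply, hn] at this ⊢
  have h0 : n = 0 := hz0 n (by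
    have e : (1 : E5 ≃L[ℝ] E5) y i = y i := rfl
    rwa [e, add_sub_cancel_left] at this)
  have e : (1 : E5 ≃L[ℝ] E5) y i = y i := rfl
  simp [h0, e]

noncomputable def σ (x : E5) : OpenPartialHomeomorph M E5 :=
  (OpenPartialHomeomorph.ofContinuousOpen ((p_inj x).toPartialEquiv p _) p_cont.continuousOn
    p_open isOpen_ball).symm

lemma σ_symm (x : E5) : ⇑(σ x).symm = p := rfl
lemma σ_target (x : E5) : (σ x).target = ball x (1 / 4) := rfl
lemma σ_source (x : E5) : (σ x).source = p '' ball x (1 / 4) := rfl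

lemma σ_p {x y : E5} (hy : y ∈ ball x (1 / 4)) : σ x (p y) = y :=
  (σ x).right_inv (show y ∈ (σ x).target from hy)

noncomputable def s (m : M) : E5 := Quotient.out m

lemma p_s (m : M) : p (s m) = m := Quotient.out_eq m

noncomputable instance : ChartedSpace E5 M where
  atlas := range σ
  chartAt m := σ (s m)
  mem_chart_source m := ⟨s m, mem_ball_self (by norm_num), p_s m⟩
  chart_mem_atlas m := ⟨_, rfl⟩

lemma chart_eq (m : M) : chartAt E5 m = σ (s m) := rfl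

lemma trans_ev {x y : E5} {k : ℤ} {v : E5} (hv : IsInt v) (h4 : v 4 = k)
    (hb : (L ^ k) y + v ∈ ball x (1 / 4)) :
    (fun z => σ x (p z)) =ᶠ[𝓝 y] fun z => (L ^ k) z + v := by
  have hc : Continuous fun z : E5 => (L ^ k) z + v := by fun_prop
  filter_upwards [hc.continuousAt.preimage_mem_nhds (isOpen_ball.mem_nhds hb)] with z hz
  rw [p_eq.2 ⟨k, v, hv, h4, rfl⟩]
  exact σ_p hz

instance : IsManifold 𝓘(ℝ, E5) ∞ M := by
  refine isManifold_of_contDiffOn _ _ _ ?_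
  rintro _ _ ⟨x, rfl⟩ ⟨x', rfl⟩ y hy
  simp only [mfld_simps] at hy
  obtain ⟨-, y', hy', hp⟩ := hy
  obtain ⟨k, v, hv, h4, rfl⟩ := p_eq.1 (show p y = p y' from hp.symm)
  apply ContDiffAt.contDiffWithinAt
  have hc : ContDiffAt ℝ ∞ (fun z : E5 => (L ^ k) z + v) y := by fun_prop
  exact hc.congr_of_eventuallyEq (trans_ev hv h4 hy')

instance : CompactSpace M := by
  have h : IsCompact (p '' Icc (0 : E5) 1) := isCompact_Icc.image p_cont
  refine ⟨h.of_isClosed_subset isClosed_univ fun m _ => ?_⟩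
  obtain ⟨x, rfl⟩ := p_surj m
  refine ⟨fun i => Int.fract ((L ^ (-⌊x 4⌋)) x i), ⟨fun i => Int.fract_nonneg _,
    fun i => (Int.fract_lt_one _).le⟩, (p_eq.2 ⟨-⌊x 4⌋, fun i => -(⌊(L ^ (-⌊x 4⌋)) x i⌋ : ℝ),
      fun i => ⟨-⌊(L ^ (-⌊x 4⌋)) x i⌋, by simp⟩, ?_, ?_⟩).symm⟩
  · show -((⌊(L ^ (-⌊x 4⌋)) x 4⌋ : ℤ) : ℝ) = _
    rw [(good _).2.1]; simp
  · ext i; simp [Int.fract, sub_eq_add_neg]

instance : ConnectedSpace M := p_surj.connectedSpace p_cont

lemma closed_int : IsClosed {v : E5 | IsInt v} := by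
  have : {v : E5 | IsInt v} = ⋂ i, (fun v : E5 => v i) ⁻¹' range ((↑) : ℤ → ℝ) := by
    ext v; simp [IsInt, eq_comm]
  rw [this]
  exact isClosed_iInter fun i => Int.isClosedEmbedding_coe_real.isClosed_range.preimage (by fun_prop)

instance : T2Space M := by
  rw [t2Space_iff_of_isOpenQuotientMap ⟨p_surj, p_cont, p_open⟩, ← isOpen_compl_iff,
    isOpen_iff_mem_nhds]
  rintro ⟨x, y⟩ h
  simp only [mem_compl_iff, mem_setOf_eq, p_eq] at h
  have hc : Continuous fun q : E5 × E5 => q.2 4 - q.1 4 := by fun_prop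
  by_cases h1 : ∃ k : ℤ, y 4 - x 4 = k
  · obtain ⟨k, hk⟩ := h1
    have h2 : y - (L ^ k) x ∈ {v : E5 | IsInt v}ᶜ := fun h2 =>
      h ⟨k, _, h2, by simp [(good k).2.1, hk], by abel⟩
    have hc2 : Continuous fun q : E5 × E5 => q.2 - (L ^ k) q.1 := by fun_prop
    have e1 := (hc2.continuousAt (x := (x, y))).preimage_mem_nhds
      (closed_int.isOpen_compl.mem_nhds h2)
    have e2 := (hc.continuousAt (x := (x, y))).preimage_mem_nhds
      (ball_mem_nhds (y 4 - x 4) one_pos)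
    filter_upwards [e1, e2] with q q1 q2
    simp only [mem_compl_iff, mem_setOf_eq, p_eq]
    rintro ⟨j, hj⟩
    have hjk : j = k := by
      simp only [mem_preimage, mem_ball, hj.four, add_sub_cancel_left, hk, Real.dist_eq] at q2
      have h3 : |j - k| < 1 := by exact_mod_cast q2
      have := Int.abs_lt_one_iff.1 h3
      omega
    subst hjk
    obtain ⟨v, hv, -, e⟩ := hj
    apply q1
    show IsInt (q.2 - _)
    rw [e, add_sub_cancel_left]; exact hv
  · have h2 : y 4 - x 4 ∈ (range ((↑) : ℤ → ℝ))ᶜ := fun ⟨k, hk⟩ => h1 ⟨k, hk.symm⟩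
    filter_upwards [(hc.continuousAt (x := (x, y))).preimage_mem_nhds
      (Int.isClosedEmbedding_coe_real.isClosed_range.isOpen_compl.mem_nhds h2)] with q q1
    simp only [mem_compl_iff, mem_setOf_eq, p_eq]
    rintro ⟨j, hj⟩
    exact q1 ⟨j, by simp [hj.four]⟩

end Pool.Agent.H3.Ps
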