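import Pool.Agent.H3.Ps1

open scoped Manifold ContDiff Topology
open Set Metric Filter

namespace Pool.Agent.H3.Ps

lemma hasMF_p {y : E5} {k : ℤ} (h : R k (s (p y)) y) :
    HasMFDerivAt 𝓘(ℝ, E5) 𝓘(ℝ, E5) p y ((L ^ (-k) : E5 ≃L[ℝ] E5) : E5 →L[ℝ] E5) := by
  refine ⟨p_cont.continuousAt, ?_⟩
  obtain ⟨v, hv, h4, e⟩ := h.symm
  have hb : (L ^ (-k)) y + v ∈ ball (s (p y)) (1 / 4) := by
    rw [← e]; exact mem_ball_self (by norm_num)
  have h1 : HasFDerivAt (fun z : E5 => (L ^ (-k)) z + v)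
      ((L ^ (-k) : E5 ≃L[ℝ] E5) : E5 →L[ℝ] E5) y :=
    ((L ^ (-k) : E5 ≃L[ℝ] E5).hasFDerivAt).add_const v
  exact (h1.congr_of_eventuallyEq (trans_ev hv h4 hb)).hasFDerivWithinAt

lemma hasMF_σ {x : E5} {m : M} {k : ℤ} (hm : m ∈ (σ x).source) (h : R k (s m) (σ x m)) :
    HasMFDerivAt 𝓘(ℝ, E5) 𝓘(ℝ, E5) (σ x) m ((L ^ k : E5 ≃L[ℝ] E5) : E5 →L[ℝ] E5) := by
  refine ⟨(σ x).continuousAt hm, ?_⟩
  obtain ⟨v, hv, h4, e⟩ := h
  have hb : (L ^ k) (s m) + v ∈ ball x (1 / 4) := by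
    rw [← e]; exact (σ x).map_source hm
  have h1 : HasFDerivAt (fun z : E5 => (L ^ k) z + v)
      ((L ^ k : E5 ≃L[ℝ] E5) : E5 →L[ℝ] E5) (s m) :=
    ((L ^ k : E5 ≃L[ℝ] E5).hasFDerivAt).add_const v
  have h2 := (h1.congr_of_eventuallyEq (trans_ev hv h4 hb))
  have e3 : extChartAt 𝓘(ℝ, E5) m m = s m := by
    show σ (s m) m = s m
    conv_lhs => arg 2; rw [← p_s m]
    exact σ_p (mem_ball_self (by norm_num))
  rw [e3]
  exact h2.hasFDerivWithinAt

lemma exists_R (y : E5) : ∃ k, R k (s (p y)) y := p_eq.1 (p_s _)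

lemma up_down {c : M} {y : E5} (hy : y ∈ (chartAt E5 c).target) :
    ∃ k : ℤ, (∀ u, up E5 c y u = (L ^ (-k)) u) ∧ ∀ u, down E5 c y u = (L ^ k) u := by
  obtain ⟨k, hk⟩ := exists_R y
  refine ⟨k, fun u => ?_, fun u => ?_⟩
  · exact congrArg (fun f : E5 →L[ℝ] E5 => f u) (hasMF_p hk).mfderiv
  · have hm : p y ∈ (σ (s c)).source := ⟨y, hy, rfl⟩
    have h := hasMF_σ hm (k := k) (by rw [σ_p hy]; exact hk)
    exact congrArg (fun f : E5 →L[ℝ] E5 => f u) h.mfderiv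

noncomputable def gM : Form E5 M := fun _ => g0
noncomputable def AM : Endo E5 M := fun _ => A0

lemma formIn_eq {c : M} {y : E5} (hy : y ∈ (chartAt E5 c).target) (u w : E5) :
    formIn gM c y u w = g0 u w := by
  obtain ⟨k, h1, -⟩ := up_down hy
  show g0 (up E5 c y u) (up E5 c y w) = _
  rw [h1, h1, (good _).2.2.1]

lemma endoIn_eq {c : M} {y : E5} (hy : y ∈ (chartAt E5 c).target) (u : E5) :
    endoIn AM c y u = A0 u := by
  obtain ⟨k, h1, h2⟩ := up_down hy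
  show down E5 c y (A0 (up E5 c y u)) = _
  rw [h1, h2, ← (good _).2.2.2, zp_cancel']

lemma g0_symm (u w : E5) : g0 u w = g0 w u := by simp [g0_apply, hh]; ring

lemma g0_nondeg (u : E5) (h : ∀ w, g0 u w = 0) : u = 0 := by
  have h0 := h (Pi.single 0 1)
  have h1 := h (Pi.single 1 1)
  have h2 := h (Pi.single 2 1)
  have h3 := h (Pi.single 3 1)
  have h4 := h (Pi.single 4 1)
  simp [g0_apply, hh] at h0 h1 h2 h3 h4
  ext i; fin_cases i <;> simp <;> linarith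

lemma isMetric : IsMetric gM :=
  ⟨fun _ => g0_symm, fun _ => g0_nondeg, fun _ u w =>
    (contDiffOn_const (c := g0 u w)).congr fun _ hy => formIn_eq hy u w⟩

lemma chr_zero {c : M} {y : E5} (hy : y ∈ (chartAt E5 c).target) {X Y w : E5}
    (h : IsChristoffel (formIn gM c) y X Y w) : w = 0 := by
  have hz : ∀ a b : E5, fderiv ℝ (fun z => formIn gM c z a b) y = 0 := fun a b => by
    have : (fun z => formIn gM c z a b) =ᶠ[𝓝 y] fun _ => g0 a b := by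
      filter_upwards [(chartAt E5 c).open_target.mem_nhds hy] with z hz using formIn_eq hz a b
    rw [this.fderiv_eq]; simp
  refine g0_nondeg w fun Z => ?_
  have := h Z
  rw [hz, hz, hz, formIn_eq hy] at this
  simpa using this

lemma isNil : IsNilpotentParallel gM AM := by
  refine ⟨⟨p 0, fun h => ?_⟩, fun m u w => ?_, fun c => ⟨fun u => ?_, ?_⟩, fun m u => ?_⟩
  · have := congrArg (fun f : E5 →ₗ[ℝ] E5 => f (Pi.single 0 1) 2) h
    change A0 _ 2 = 0 at this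
    simp [A0_apply] at this
  · show g0 (A0 u) w = g0 u (A0 w)
    simp [g0_apply, A0_apply, hh]
  · exact (contDiffOn_const (c := A0 u)).congr fun _ hy => endoIn_eq hy u
  · intro y hy X Y w w' h1 h2
    have : (fun z => endoIn AM c z Y) =ᶠ[𝓝 y] fun _ => A0 Y := by
      filter_upwards [(chartAt E5 c).open_target.mem_nhds hy] with z hz using endoIn_eq hz Y
    rw [this.fderiv_eq, chr_zero hy h1, chr_zero hy h2, endoIn_eq hy]; simp
  · show A0 (A0 u) = 0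
    ext i; fin_cases i <;> simp [A0_apply]

noncomputable def g0c : E5 →L[ℝ] E5 →L[ℝ] ℝ :=
  LinearMap.toContinuousLinearMap
    ((LinearMap.toContinuousLinearMap : (E5 →ₗ[ℝ] ℝ) ≃ₗ[ℝ] (E5 →L[ℝ] ℝ)).toLinearMap ∘ₗ g0)

lemma g0c_apply (u w : E5) : g0c u w = g0 u w := rfl

lemma flat {ψ v : E5 → E5} {G : E5 → E5 → E5 → ℝ} {y : E5} (hψ : ContDiffAt ℝ ∞ ψ y)
    (hG : ∀ᶠ z in 𝓝 y, ∀ u w, G z u w = g0 (fderiv ℝ ψ z u) (fderiv ℝ ψ z w))
    (hs : Function.Surjective (fderiv ℝ ψ y)) (hv : DifferentiableAt ℝ v y)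
    (hp : ∀ X w, IsChristoffel G y X (v y) w → fderiv ℝ v y X + w = 0) :
    HasFDerivAt (fun z => fderiv ℝ ψ z (v z)) (0 : E5 →L[ℝ] E5) y := by
  have h22 : (2 : WithTop ℕ∞) ≤ ∞ := by
    show ((2 : ℕ∞) : WithTop ℕ∞) ≤ ((⊤ : ℕ∞) : WithTop ℕ∞)
    exact_mod_cast le_top
  have h2 : HasFDerivAt (fderiv ℝ ψ) (fderiv ℝ (fderiv ℝ ψ) y) y :=
    ((hψ.fderiv_right (m := 1) (by norm_num; exact h22)).differentiableAt (by simp)).hasFDerivAt
  have hsym := hψ.isSymmSndFDerivAt (by simpa using h22)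
  set D2 := fderiv ℝ (fderiv ℝ ψ) y with hD2
  have hd : ∀ u w X, fderiv ℝ (fun z => G z u w) y X =
      g0 (D2 X u) (fderiv ℝ ψ y w) + g0 (fderiv ℝ ψ y u) (D2 X w) := fun u w X => by
    have e : (fun z => G z u w) =ᶠ[𝓝 y] fun z => g0c (fderiv ℝ ψ z u) (fderiv ℝ ψ z w) := by
      filter_upwards [hG] with z hz using hz u w
    have := g0c.hasFDerivAt_of_bilinear (h2.clm_apply (hasFDerivAt_const u y))
      (h2.clm_apply (hasFDerivAt_const w y))
    rw [e.fderiv_eq, this.fderiv]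
    simp [g0c_apply, add_comm]
  refine (h2.clm_apply hv.hasFDerivAt).congr_fderiv ?_
  ext1 X
  obtain ⟨w, hw⟩ := hs (D2 X (v y))
  have := hp X w fun Z => by
    rw [hd, hd, hd, hG.self_of_nhds, hw, hsym.eq (v y) X, hsym.eq Z X, hsym.eq Z (v y),
      g0_symm (fderiv ℝ ψ y (v y)) (D2 X Z)]
    ring
  have h3 := congrArg (fderiv ℝ ψ y) this
  rw [map_add, hw, map_zero] at h3
  simpa using h3

lemma fixed {j : ℕ} (hj : j ≠ 0) {W : E5} (h : (L ^ (j : ℤ)) W = W) (hn : g0 W W = 0) :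
    W = 0 := by
  have key : ∀ μ : ℝ, μ ^ 2 + μ - 1 = 0 → ∀ n : ℕ, ∀ x : E5,
      ((L ^ (n : ℤ)) x 0 + μ * (L ^ (n : ℤ)) x 1 = (2 + μ) ^ n * (x 0 + μ * x 1)) ∧
      ((L ^ (n : ℤ)) x 2 + μ * (L ^ (n : ℤ)) x 3 = (2 + μ) ^ n * (x 2 + μ * x 3)) := by
    intro μ hμ n
    induction n with
    | zero => intro x; simp; exact ⟨rfl, rfl⟩
    | succ n ih =>
      intro x
      have e : (L ^ ((n + 1 : ℕ) : ℤ)) x = (L ^ (n : ℤ)) (L x) := by
        push_cast; rw [zp_add, zpow_one]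
      rw [e, (ih _).1, (ih _).2]
      simp only [L_apply, Matrix.cons_val]
      constructor
      · linear_combination (-(2 + μ) ^ n * x 1) * hμ
      · linear_combination (-(2 + μ) ^ n * x 3) * hμ
  have h5 : √5 ^ 2 = 5 := Real.sq_sqrt (by norm_num)
  have h5a : 2 < √5 := by nlinarith [Real.sqrt_nonneg 5]
  have h5b : √5 < 3 := by nlinarith [Real.sqrt_nonneg 5]
  obtain ⟨a1, a2⟩ := key ((-1 + √5) / 2) (by nlinarith) j W
  obtain ⟨b1, b2⟩ := key ((-1 - √5) / 2) (by nlinarith) j W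
  rw [h] at a1 a2 b1 b2
  have ha : 1 < (2 + (-1 + √5) / 2) ^ j := one_lt_pow₀ (by linarith) hj
  have hb : (2 + (-1 - √5) / 2) ^ j < 1 := pow_lt_one₀ (by linarith) (by linarith) hj
  have z : ∀ {c t : ℝ}, c ≠ 1 → t = c * t → t = 0 := fun {c t} hc ht => by
    by_contra h0
    exact hc (mul_right_cancel₀ h0 (by linarith))
  have a1' := z ha.ne' a1
  have a2' := z ha.ne' a2
  have b1' := z hb.ne b1
  have b2' := z hb.ne b2
  have w1 : W 1 = 0 := by
    have : √5 * W 1 = 0 := by linarith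
    exact (mul_eq_zero.1 this).resolve_left (by linarith)
  have w3 : W 3 = 0 := by
    have : √5 * W 3 = 0 := by linarith
    exact (mul_eq_zero.1 this).resolve_left (by linarith)
  have w0 : W 0 = 0 := by rw [w1] at a1'; linarith
  have w2 : W 2 = 0 := by rw [w3] at a2'; linarith
  have w4 : W 4 = 0 := by simpa [g0_apply, hh, w0, w1, w2, w3] using hn
  ext i; fin_cases i <;> simp [w0, w1, w2, w3, w4]

end Pool.Agent.H3.Ps
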