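import Pool.Agent.H3.Ps2

open scoped Manifold ContDiff Topology
open Set Metric Filter

namespace Pool.Agent.H3.Ps

variable {N : Type} [TopologicalSpace N] [ChartedSpace E5 N] [IsManifold 𝓘(ℝ, E5) ∞ N]

lemma up_surj {c : N} {y : E5} (hy : y ∈ (chartAt E5 c).target) :
    Function.Surjective (up E5 c y) ∧ ∀ t, up E5 c y (down E5 c y t) = t := by
  have h := (mdifferentiable_chart (I := 𝓘(ℝ, E5)) c).comp_symm_deriv hy
  have h1 : ∀ u, down E5 c y (up E5 c y u) = u := fun u =>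
    congrArg (fun f : E5 →L[ℝ] E5 => f u) h
  have hi : Function.Injective (up E5 c y) := Function.LeftInverse.injective h1
  have hs : Function.Surjective (up E5 c y) :=
    (LinearMap.injective_iff_surjective (f := (show E5 →L[ℝ] E5 from up E5 c y).toLinearMap)).1 hi
  refine ⟨hs, fun t => ?_⟩
  obtain ⟨u, rfl⟩ := hs t
  rw [h1]

noncomputable def dd (π : N → M) (n : N) : E5 →L[ℝ] E5 := mfderiv 𝓘(ℝ, E5) 𝓘(ℝ, E5) π n

lemma psi_deriv {π : N → M} (hl : IsLocalDiffeomorph 𝓘(ℝ, E5) 𝓘(ℝ, E5) ∞ π) {c : N} {x y : E5}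
    (hy : y ∈ (chartAt E5 c).target) (hm : π ((chartAt E5 c).symm y) ∈ (σ x).source) {j : ℤ}
    (hj : R j (s (π ((chartAt E5 c).symm y))) (σ x (π ((chartAt E5 c).symm y)))) (u : E5) :
    fderiv ℝ (σ x ∘ π ∘ (chartAt E5 c).symm) y u =
      (L ^ j) (dd π ((chartAt E5 c).symm y) (up E5 c y u)) := by
  have h1 := (mdifferentiableAt_atlas_symm (I := 𝓘(ℝ, E5)) (chart_mem_atlas E5 c) hy).hasMFDerivAt
  have h2 := ((hl ((chartAt E5 c).symm y)).mdifferentiableAt (by simp)).hasMFDerivAt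
  have h3 := (hasMF_σ hm hj).comp y (h2.comp y h1)
  have h4 : HasFDerivAt (σ x ∘ π ∘ (chartAt E5 c).symm)
      (((L ^ j : E5 ≃L[ℝ] E5) : E5 →L[ℝ] E5).comp ((dd π ((chartAt E5 c).symm y)).comp
        (show E5 →L[ℝ] E5 from up E5 c y))) y := hasMFDerivAt_iff_hasFDerivAt.1 h3
  rw [h4.fderiv]
  rfl

lemma exists_R' {x : E5} {m : M} (hm : m ∈ (σ x).source) : ∃ j, R j (s m) (σ x m) := by
  obtain ⟨y, hy, rfl⟩ := hm
  rw [σ_p hy]; exact exists_R y

lemma dd_bij {π : N → M} (hl : IsLocalDiffeomorph 𝓘(ℝ, E5) 𝓘(ℝ, E5) ∞ π) (n : N) :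
    Function.Bijective (dd π n) :=
  ((hl n).mfderivToContinuousLinearEquiv (by simp)).bijective

lemma psi_const {π : N → M} (hl : IsLocalDiffeomorph 𝓘(ℝ, E5) 𝓘(ℝ, E5) ∞ π)
    {V : ∀ n : N, Tan E5 n} (hV : IsParallelVec (pullback π gM) V) {c : N} {x y : E5}
    (hy : y ∈ (chartAt E5 c).target ∩ (chartAt E5 c).symm ⁻¹' (π ⁻¹' (σ x).source)) :
    HasFDerivAt (fun z => fderiv ℝ (σ x ∘ π ∘ (chartAt E5 c).symm) z (vecIn V c z))
      (0 : E5 →L[ℝ] E5) y := by
  have hU := (chartAt E5 c).isOpen_inter_preimage_symm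
    ((σ x).open_source.preimage hl.contMDiff.continuous)
  refine flat (G := formIn (pullback π gM) c) ?_ ?_ ?_ ?_ ((hV c).2 y hy.1)
  · have h1 : ContMDiffAt 𝓘(ℝ, E5) 𝓘(ℝ, E5) ∞ (σ x) (π ((chartAt E5 c).symm y)) :=
      contMDiffAt_of_mem_maximalAtlas (IsManifold.subset_maximalAtlas ⟨x, rfl⟩) hy.2
    have h2 : ContMDiffAt 𝓘(ℝ, E5) 𝓘(ℝ, E5) ∞ (chartAt E5 c).symm y :=
      contMDiffOn_chart_symm.contMDiffAt ((chartAt E5 c).open_target.mem_nhds hy.1)
    exact (h1.comp y ((hl.contMDiff _).comp y h2)).contDiffAt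
  · filter_upwards [hU.mem_nhds hy] with z hz u w
    obtain ⟨j, hj⟩ := exists_R' hz.2
    rw [psi_deriv hl hz.1 hz.2 hj, psi_deriv hl hz.1 hz.2 hj, (good j).2.2.1]
    rfl
  · obtain ⟨j, hj⟩ := exists_R' hy.2
    intro t
    obtain ⟨t1, rfl⟩ := (L ^ j).surjective t
    obtain ⟨t2, rfl⟩ := (dd_bij hl ((chartAt E5 c).symm y)).2 t1
    obtain ⟨t3, h3⟩ := (up_surj hy.1).1 t2
    exact ⟨t3, by rw [psi_deriv hl hy.1 hy.2 hj, h3]⟩
  · exact (((hV c).1 y hy.1).contDiffAt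
      ((chartAt E5 c).open_target.mem_nhds hy.1)).differentiableAt (by simp)

noncomputable def kf (x : E5) : ℤ := (exists_R x).choose

lemma kf_spec (x : E5) : R (kf x) (s (p x)) x := (exists_R x).choose_spec

theorem none : NoneOnCovers gM := by
  intro N _ _ _ π hc hf hl
  rintro ⟨V, hV, hn, n0, h0⟩
  obtain ⟨F, ⟨hF0, hF⟩, -⟩ := hc.existsUnique_continuousMap_lifts ⟨p, p_cont⟩ (s (π n0)) n0
    (p_s _).symm
  have hF' : ∀ x, π (F x) = p x := fun x => congrFun hF x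
  let u : N → E5 := fun n => dd π n (V n)
  let W : E5 → E5 := fun x => (L ^ kf x) (u (F x))
  have hW : IsLocallyConstant W := by
    rw [IsLocallyConstant.iff_eventually_eq]
    intro x1
    set φ := chartAt E5 (F x1) with hφ
    have hU := φ.isOpen_inter_preimage_symm
      ((σ x1).open_source.preimage hl.contMDiff.continuous)
    have hs1 : F x1 ∈ φ.source := mem_chart_source _ _
    have hy1 : φ (F x1) ∈ φ.target ∩ φ.symm ⁻¹' (π ⁻¹' (σ x1).source) := by
      refine ⟨φ.map_source hs1, ?_⟩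
      simp only [mem_preimage]
      rw [φ.left_inv hs1, hF']
      exact ⟨x1, mem_ball_self (by norm_num), rfl⟩
    obtain ⟨r, hr, hB⟩ := Metric.isOpen_iff.1 hU _ hy1
    obtain ⟨a, ha⟩ := isOpen_ball.exists_is_const_of_fderiv_eq_zero (𝕜 := ℝ)
      (convex_ball (φ (F x1)) r).isPreconnected
      (f := fun z => fderiv ℝ (σ x1 ∘ π ∘ φ.symm) z (vecIn V (F x1) z))
      (fun z hz => (psi_const hl hV (hB hz)).differentiableAt.differentiableWithinAt)
      (fun z hz => (psi_const hl hV (hB hz)).fderiv)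
    have key : ∀ x, F x ∈ φ.source → φ (F x) ∈ ball (φ (F x1)) r → x ∈ ball x1 (1 / 4) →
        W x = a := fun x h1 h2 h3 => by
      have e : φ.symm (φ (F x)) = F x := φ.left_inv h1
      have hj : R (kf x) (s (π (φ.symm (φ (F x))))) (σ x1 (π (φ.symm (φ (F x))))) := by
        rw [e, hF', σ_p h3]; exact kf_spec x
      rw [← ha _ h2, psi_deriv hl (hB h2).1 (hB h2).2 hj]
      show (L ^ kf x) (u (F x)) = (L ^ kf x) (dd π _ (up E5 _ _ (down E5 _ _ (V _))))
      rw [(up_surj (hB h2).1).2]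
      show _ = (L ^ kf x) (u (φ.symm (φ (F x))))
      rw [e]
    have c1 : ContinuousAt (φ ∘ F) x1 := (φ.continuousAt hs1).comp F.continuous.continuousAt
    filter_upwards [F.continuous.continuousAt.preimage_mem_nhds (φ.open_source.mem_nhds hs1),
      c1.preimage_mem_nhds (ball_mem_nhds _ hr), ball_mem_nhds x1 (show (0 : ℝ) < 1 / 4 by norm_num)]
      with x h1 h2 h3
    rw [key x h1 h2 h3, key x1 hs1 (mem_ball_self hr) (mem_ball_self (by norm_num))]
  set x0 := s (π n0) with hx0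
  let z : ℕ → E5 := fun i => (L ^ (i : ℤ)) x0 + Pi.single 4 (i : ℝ)
  have hz : ∀ i : ℕ, R i x0 (z i) := fun i => by
    refine ⟨Pi.single 4 (i : ℝ), fun l => ?_, by simp, rfl⟩
    by_cases hl4 : l = 4
    · exact ⟨i, by simp [hl4]⟩
    · exact ⟨0, by simp [hl4]⟩
  have hp : ∀ i, p (z i) = p x0 := fun i => (p_eq.2 ⟨_, hz i⟩).symm
  have hk : ∀ i : ℕ, kf (z i) = i + kf x0 := fun i => by
    have h1 := (kf_spec (z i)).four
    have h2 := (kf_spec x0).four
    have h3 := (hz i).four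
    rw [hp] at h1
    have : ((kf (z i) : ℤ) : ℝ) = ((i + kf x0 : ℤ) : ℝ) := by push_cast at h3 ⊢; linarith
    exact_mod_cast this
  obtain ⟨i, j, hij, e⟩ := (hf (p x0)).exists_lt_map_eq_of_forall_mem
    (f := fun i : ℕ => F (z i)) (fun i => by simp [hF', hp])
  have e1 := hW.apply_eq_of_preconnectedSpace (z i) (z j)
  have e2 := hW.apply_eq_of_preconnectedSpace (z i) x0
  have hfix : (L ^ ((j - i : ℕ) : ℤ)) (W (z i)) = W (z i) := by
    conv_rhs => rw [e1]
    show (L ^ _) ((L ^ kf (z i)) (u (F (z i)))) = (L ^ kf (z j)) (u (F (z j)))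
    rw [← zp_add, e, hk, hk]
    congr 2
    push_cast [Nat.cast_sub hij.le]; ring
  have hnull : g0 (W (z i)) (W (z i)) = 0 := by
    show g0 ((L ^ _) _) ((L ^ _) _) = 0
    rw [(good _).2.2.1]
    exact hn (F (z i))
  have hz0 := fixed (by omega) hfix hnull
  rw [e2] at hz0
  have h1 : u (F x0) = 0 := (L ^ kf x0).map_eq_zero_iff.1 hz0
  rw [hF0] at h1
  exact h0 ((dd_bij hl n0).1 (h1.trans (map_zero _).symm))

theorem none_self : ¬ HasParallelNull gM := by
  have h := none M id (isLocalHomeomorph_iff_isCoveringMap.1 (Homeomorph.refl M).isLocalHomeomorph) (fun m => by simp)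
    (Diffeomorph.refl 𝓘(ℝ, E5) M ∞).isLocalDiffeomorph
  have e : pullback (id : M → M) gM = gM := by
    funext m
    ext u w
    simp [pullback, mfderiv_id]
  rwa [e] at h

end Pool.Agent.H3.Ps
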