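import Mathlib

open scoped Manifold ContDiff

namespace Pool.Agent.H3.Ps

variable (E : Type) [NormedAddCommGroup E] [NormedSpace ℝ E]
  {M : Type} [TopologicalSpace M] [ChartedSpace E M]

/-- The tangent space at `m` of a manifold modelled on `E`. -/
abbrev Tan (m : M) : Type := TangentSpace 𝓘(ℝ, E) m

/-- Fields of bilinear forms on the tangent spaces. -/
abbrev Form (M : Type) [TopologicalSpace M] [ChartedSpace E M] : Type :=
  ∀ m : M, Tan E m →ₗ[ℝ] Tan E m →ₗ[ℝ] ℝ

/-- Fields of endomorphisms of the tangent spaces, that is `(1,1)`-tensor fields. -/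
abbrev Endo (M : Type) [TopologicalSpace M] [ChartedSpace E M] : Type :=
  ∀ m : M, Tan E m →ₗ[ℝ] Tan E m

/-- The differential at `y` of the inverse of the chart at `c`. -/
noncomputable def up (c : M) (y : E) : E →L[ℝ] Tan E ((chartAt E c).symm y) :=
  mfderiv 𝓘(ℝ, E) 𝓘(ℝ, E) (chartAt E c).symm y

/-- The differential of the chart at `c`, at the point with coordinates `y`. -/
noncomputable def down (c : M) (y : E) : Tan E ((chartAt E c).symm y) →L[ℝ] E :=
  mfderiv 𝓘(ℝ, E) 𝓘(ℝ, E) (chartAt E c) ((chartAt E c).symm y)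

variable {E}

/-- The form `g` read in the chart at `c`. -/
noncomputable def formIn (g : Form E M) (c : M) (y u w : E) : ℝ :=
  g _ (up E c y u) (up E c y w)

/-- The endomorphism field `A` read in the chart at `c`. -/
noncomputable def endoIn (A : Endo E M) (c : M) (y u : E) : E :=
  down E c y (A _ (up E c y u))

/-- The vector field `V` read in the chart at `c`. -/
noncomputable def vecIn (V : ∀ m : M, Tan E m) (c : M) (y : E) : E :=
  down E c y (V _)

/-- `w = Γ_y(X, Y)` is the Christoffel vector of the Levi-Civita connection of the coordinate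
metric `G` at `y`: `2 G(w, Z) = ∂_X G(Y, Z) + ∂_Y G(X, Z) - ∂_Z G(X, Y)` for all `Z`. -/
def IsChristoffel (G : E → E → E → ℝ) (y X Y w : E) : Prop :=
  ∀ Z, 2 * G y w Z = fderiv ℝ (fun z => G z Y Z) y X + fderiv ℝ (fun z => G z X Z) y Y
    - fderiv ℝ (fun z => G z X Y) y Z

/-- `g` is a smooth pseudo-Riemannian metric: symmetric, nondegenerate, smooth in charts. -/
def IsMetric (g : Form E M) : Prop :=
  (∀ m u w, g m u w = g m w u) ∧ (∀ m u, (∀ w, g m u w = 0) → u = 0) ∧
    ∀ c u w, ContDiffOn ℝ ∞ (fun y => formIn g c y u w) (chartAt E c).target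

/-- `A` is smooth and `∇ A = 0`: in charts, `(∂_X A) Y + Γ(X, A Y) - A Γ(X, Y) = 0`. -/
def IsParallelEndo (g : Form E M) (A : Endo E M) : Prop :=
  ∀ c, (∀ u, ContDiffOn ℝ ∞ (fun y => endoIn A c y u) (chartAt E c).target) ∧
    ∀ y ∈ (chartAt E c).target, ∀ X Y w w', IsChristoffel (formIn g c) y X Y w →
      IsChristoffel (formIn g c) y X (endoIn A c y Y) w' →
        fderiv ℝ (fun z => endoIn A c z Y) y X + w' - endoIn A c y w = 0

/-- `V` is smooth and `∇ V = 0`: in charts, `∂_X V + Γ(X, V) = 0`. -/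
def IsParallelVec (g : Form E M) (V : ∀ m : M, Tan E m) : Prop :=
  ∀ c, ContDiffOn ℝ ∞ (vecIn V c) (chartAt E c).target ∧
    ∀ y ∈ (chartAt E c).target, ∀ X w, IsChristoffel (formIn g c) y X (vecIn V c y) w →
      fderiv ℝ (vecIn V c) y X + w = 0

/-- `(M, g)` carries a parallel light-like vector field which is not identically zero. -/
def HasParallelNull (g : Form E M) : Prop :=
  ∃ V : ∀ m : M, Tan E m, IsParallelVec g V ∧ (∀ m, g m (V m) (V m) = 0) ∧ ∃ m, V m ≠ 0

/-- The pulled-back form `π^* g`. -/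
noncomputable def pullback {N : Type} [TopologicalSpace N] [ChartedSpace E N] (π : N → M)
    (g : Form E M) : Form E N := fun n =>
  (g (π n)).compl₁₂ (mfderiv 𝓘(ℝ, E) 𝓘(ℝ, E) π n).toLinearMap
    (mfderiv 𝓘(ℝ, E) 𝓘(ℝ, E) π n).toLinearMap

/-- No smooth finite-sheeted covering manifold of `M`, with the pulled-back metric, carries a
nonzero parallel light-like vector field. -/
def NoneOnCovers (g : Form E M) : Prop :=
  ∀ (N : Type) [TopologicalSpace N] [ChartedSpace E N] [IsManifold 𝓘(ℝ, E) ∞ N] (π : N → M),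
    IsCoveringMap π → (∀ m, (π ⁻¹' {m}).Finite) → IsLocalDiffeomorph 𝓘(ℝ, E) 𝓘(ℝ, E) ∞ π →
      ¬ HasParallelNull (pullback π g)

/-- `A` is nonzero, `g`-self-adjoint, parallel and nilpotent. -/
def IsNilpotentParallel (g : Form E M) (A : Endo E M) : Prop :=
  (∃ m, A m ≠ 0) ∧ (∀ m u w, g m (A m u) w = g m u (A m w)) ∧ IsParallelEndo g A ∧
    ∀ m u, A m (A m u) = 0

end Pool.Agent.H3.Ps
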