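import Mathlib

set_option autoImplicit false

namespace Pool.Agent.H3.QK

open Finset

def IsQKernel {V : Type} (A : V → V → Prop) (q : ℕ) (Q : Finset V) : Prop :=
  (∀ u ∈ Q, ∀ v ∈ Q, ¬ A u v) ∧
  ∀ v : V, ∃ l ≤ q, ∃ p : Fin (l + 1) → V, Function.Injective p ∧ p 0 ∈ Q ∧ p (Fin.last l) = v ∧
    ∀ i : Fin l, A (p i.castSucc) (p i.succ)

abbrev W (n : ℕ) := Fin n → ZMod 2

lemma two_cases (z : ZMod 2) : z = 0 ∨ z = 1 := by revert z; decide

lemma half {n : ℕ} (a : W (n + 1)) (ha : a ≠ 0) :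
    2 ^ n ≤ (univ.filter (fun x : W (n + 1) => a ⬝ᵥ x = 1)).card := by
  obtain ⟨i, hi⟩ := Function.ne_iff.1 ha
  have hi1 : a i = 1 := (two_cases _).resolve_left hi
  have h1 := card_filter_add_card_filter_not (s := (univ : Finset (W (n + 1))))
    (fun x => a ⬝ᵥ x = 1)
  have h2 : (univ.filter (fun x : W (n + 1) => ¬ a ⬝ᵥ x = 1)).card ≤
      (univ.filter (fun x : W (n + 1) => a ⬝ᵥ x = 1)).card := by
    apply card_le_card_of_injOn (fun x => x + Pi.single i 1)
    · intro x hx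
      simp only [coe_filter, mem_univ, true_and, Set.mem_setOf_eq] at hx ⊢
      rw [dotProduct_add, dotProduct_single, (two_cases _).resolve_right hx, hi1]
      simp
    · intro x _ y _ h
      simpa using h
  simp only [card_univ, Fintype.card_fun, ZMod.card, Fintype.card_fin] at h1
  rw [pow_succ] at h1
  omega

lemma trans_bound {n : ℕ} (Q1 Q2 : Finset (W n))
    (h : ∀ a : W n, a ≠ 0 → a ∈ Q2 ∨ ∃ x ∈ Q1, a ⬝ᵥ x = 1) : n ≤ Q1.card + Q2.card := by
  have h1 := card_le_mul_card_image (f := fun (a : W n) (x : Q1) => a ⬝ᵥ (x : W n)) univ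
    (Q2.card + 1) (by
      intro b hb
      obtain ⟨a0, -, rfl⟩ := mem_image.1 hb
      refine le_trans ?_ (card_insert_le 0 Q2)
      apply card_le_card_of_injOn (fun a => a - a0)
      · intro a ha
        simp only [coe_filter, mem_univ, true_and, Set.mem_setOf_eq] at ha
        simp only [coe_insert, Set.mem_insert_iff, mem_coe]
        by_cases h0 : a - a0 = 0
        · exact Or.inl h0
        · rcases h _ h0 with h2 | ⟨x, hx, h2⟩
          · exact Or.inr h2
          · have := congrFun ha ⟨x, hx⟩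
            simp only at this
            rw [sub_dotProduct, this, sub_self] at h2
            exact absurd h2 (by decide)
      · intro a _ a' _ h
        simpa using h)
  have h2 := card_le_univ (univ.image (fun (a : W n) (x : Q1) => a ⬝ᵥ (x : W n)))
  simp only [card_univ, Fintype.card_fun, ZMod.card, Fintype.card_fin, Fintype.card_coe] at h1 h2
  have h3 : Q2.card + 1 ≤ 2 ^ Q2.card := Nat.lt_two_pow_self
  have h4 : 2 ^ n ≤ 2 ^ (Q1.card + Q2.card) := by
    rw [pow_add, mul_comm]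
    exact h1.trans (Nat.mul_le_mul h3 h2)
  exact (Nat.pow_le_pow_iff_right (by norm_num)).1 h4

abbrev V (n : ℕ) := ZMod 3 × (Fin (2 ^ n) ⊕ (W (n + 1) ⊕ W (n + 1)))

def A (n : ℕ) : V n → V n → Prop
  | (i, .inl h), (j, .inl h') => (i = j ∧ h ≠ h') ∨ i + 1 = j
  | (i, .inl _), (j, .inr (.inl _)) => i = j
  | (i, .inr (.inl x)), (j, .inr (.inr a)) => i = j ∧ (a = 0 ∨ a ⬝ᵥ x = 1)
  | _, _ => False

lemma loopless (n : ℕ) (v : V n) : ¬ A n v v := by
  rcases v with ⟨i, h | x | a⟩ <;> simp [A]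

lemma inP (n : ℕ) (j : ZMod 3) (x : W (n + 1)) :
    {u | A n u (j, .inr (.inl x))}.ncard = 2 ^ n := by
  have : {u | A n u (j, .inr (.inl x))} = Set.range (fun h : Fin (2 ^ n) => ((j, .inl h) : V n)) := by
    ext ⟨i, h | y | a⟩ <;> simp [A, eq_comm]
  rw [this, Set.ncard_range_of_injective (fun h h' e => by simpa using e)]
  simp

lemma indeg (n : ℕ) (v : V n) : 2 ^ n ≤ {u | A n u v}.ncard := by
  rcases v with ⟨j, h | x | a⟩
  · have h1 : Set.range (fun h : Fin (2 ^ n) => ((j - 1, .inl h) : V n)) ⊆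
        {u | A n u (j, .inl h)} := by
      rintro _ ⟨h', rfl⟩
      simp [A]
    have := Set.ncard_le_ncard h1
    rwa [Set.ncard_range_of_injective (fun h h' e => by simpa using e), Nat.card_eq_fintype_card,
      Fintype.card_fin] at this
  · exact (inP n j x).ge
  · obtain ⟨b, hb, hab⟩ : ∃ b : W (n + 1), b ≠ 0 ∧ (a = 0 ∨ a = b) := by
      by_cases ha : a = 0
      · exact ⟨1, one_ne_zero, Or.inl ha⟩
      · exact ⟨a, ha, Or.inr rfl⟩
    have h1 : (fun x : W (n + 1) => ((j, .inr (.inl x)) : V n)) ''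
        (univ.filter (fun x : W (n + 1) => b ⬝ᵥ x = 1) : Finset _) ⊆
        {u | A n u (j, .inr (.inr a))} := by
      rintro _ ⟨x, hx, rfl⟩
      simp only [coe_filter, mem_univ, true_and, Set.mem_setOf_eq] at hx
      rcases hab with h | h
      · simp [A, h]
      · simp [A, h, hx]
    have := Set.ncard_le_ncard h1
    rw [Set.ncard_image_of_injective _ (fun h h' e => by simpa using e), Set.ncard_coe_finset]
      at this
    exact (half b hb).trans this

lemma cardV (n : ℕ) : Fintype.card (V n) = 15 * 2 ^ n := by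
  simp only [Fintype.card_prod, Fintype.card_sum, Fintype.card_fun, ZMod.card, Fintype.card_fin]
  ring

lemma z3 (i j : ZMod 3) : i = j ∨ i + 1 = j ∨ j + 1 = i := by revert i j; decide

lemma z3' (i : ZMod 3) : i ≠ i + 2 ∧ i + 1 ≠ i + 2 := by revert i; decide

lemma kernel (n : ℕ) (Q : Finset (V n)) (hQ : IsQKernel (A n) 3 Q) : n + 1 ≤ Q.card := by
  classical
  obtain ⟨hI, hR⟩ := hQ
  obtain ⟨i, hi⟩ : ∃ i : ZMod 3, ∀ i' h, ((i', .inl h) : V n) ∈ Q → i' = i := by
    by_cases hex : ∃ i h, ((i, .inl h) : V n) ∈ Q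
    · obtain ⟨i, h, hh⟩ := hex
      refine ⟨i, fun i' h' hh' => ?_⟩
      rcases z3 i' i with e | e | e
      · exact e
      · exact absurd (Or.inr e) (hI _ hh' _ hh)
      · exact absurd (Or.inr e) (hI _ hh _ hh')
    · exact ⟨0, fun i' h hh => absurd ⟨i', h, hh⟩ hex⟩
  have s0 : ∀ h, ((i + 2, .inl h) : V n) ∉ Q := fun h hh => (z3' i).1 (hi _ _ hh).symm
  have s1 : ∀ h u, u ∈ Q → ¬ A n u (i + 2, .inl h) := by
    rintro h ⟨i', h' | x | a⟩ hu hA
    · rw [hi _ _ hu] at hA
      rcases hA with hA | hA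
      · exact (z3' i).1 hA.1
      · exact (z3' i).2 hA
    · exact hA
    · exact hA
  have t1 : ∀ x u, A n u (i + 2, .inr (.inl x)) → ∃ h, u = (i + 2, .inl h) := by
    rintro x ⟨i', h' | y | a⟩ hA
    · exact ⟨h', by rw [show i' = i + 2 from hA]⟩
    · exact hA.elim
    · exact hA.elim
  have t2 : ∀ a u, a ≠ 0 → A n u (i + 2, .inr (.inr a)) →
      ∃ x, u = (i + 2, .inr (.inl x)) ∧ a ⬝ᵥ x = 1 := by
    rintro a ⟨i', h' | y | b⟩ ha hA
    · exact hA.elim
    · exact ⟨y, by rw [hA.1], hA.2.resolve_left ha⟩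
    · exact hA.elim
  have key := trans_bound (univ.filter (fun x => ((i + 2, .inr (.inl x)) : V n) ∈ Q))
    (univ.filter (fun a => ((i + 2, .inr (.inr a)) : V n) ∈ Q)) (by
      intro a ha
      simp only [mem_filter, mem_univ, true_and]
      obtain ⟨l, hl, p, -, h0, hl', hp⟩ := hR (i + 2, .inr (.inr a))
      interval_cases l
      · left; rw [← hl']; exact h0
      · right
        obtain ⟨x, hx, hx'⟩ := t2 a (p 0) ha (hl' ▸ hp 0)
        exact ⟨x, hx ▸ h0, hx'⟩
      · obtain ⟨x, hx, -⟩ := t2 a (p 1) ha (hl' ▸ hp 1)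
        obtain ⟨h, hh⟩ := t1 x (p 0) (hx ▸ hp 0)
        exact absurd (hh ▸ h0) (s0 h)
      · obtain ⟨x, hx, -⟩ := t2 a (p 2) ha (hl' ▸ hp 2)
        obtain ⟨h, hh⟩ := t1 x (p 1) (hx ▸ hp 1)
        exact absurd (hh ▸ hp 0) (s1 h _ h0))
  refine key.trans ?_
  rw [← card_disjSum]
  apply card_le_card_of_injOn (fun s => ((i + 2, .inr s) : V n))
  · rintro (x | a) hs <;> simpa using hs
  · intro s _ s' _ e
    simpa using e

end Pool.Agent.H3.QK
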