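import Mathlib

set_option autoImplicit false

namespace Pool.Agent.H3.Qa

def nq (x y : ℤ) : ℤ := x * x + y * y

/-- Largest squared modulus among the four Fourier coefficients. -/
def mx (a b c d : GaussianInt) : ℤ :=
  max (max (nq (a.re + b.re + c.re + d.re) (a.im + b.im + c.im + d.im))
    (nq (a.re - b.im - c.re + d.im) (a.im + b.re - c.im - d.re)))
    (max (nq (a.re - b.re + c.re - d.re) (a.im - b.im + c.im - d.im))
    (nq (a.re + b.im - c.re - d.im) (a.im - b.re - c.im + d.re)))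

def force (n : ℕ) (f : ℕ → Bool) : Bool :=
  match n with
  | 0 => f 0
  | k + 1 => f (k + 1)

theorem force_eq (n : ℕ) (f : ℕ → Bool) : force n f = f n := by cases n <;> rfl

def nw (n g : ℕ) : ℕ := (g + n / g) / 2

def up (n : ℕ) : ℕ := nw n (nw n (nw n (nw n 1400))) + 1

def p0 : GaussianInt := ⟨7, 0⟩
def p1 : GaussianInt := ⟨3, 3⟩
def p2 : GaussianInt := ⟨0, -3⟩
def p3 : GaussianInt := ⟨0, -4⟩
def hd : GaussianInt := ⟨100, 0⟩

def chk (x y z : GaussianInt) : Bool :=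
  force (mx (p0 * hd) (p1 * x) (p2 * y) (p3 * z)).toNat fun m0 => force (up m0) fun r0 =>
  force (mx (p1 * hd) (p2 * x) (p3 * y) (p0 * z)).toNat fun m1 => force (up m1) fun r1 =>
  force (mx (p2 * hd) (p3 * x) (p0 * y) (p1 * z)).toNat fun m2 => force (up m2) fun r2 =>
  force (mx (p3 * hd) (p0 * x) (p1 * y) (p2 * z)).toNat fun m3 => force (up m3) fun r3 =>
    decide (m0 ≤ r0 * r0) && decide (m1 ≤ r1 * r1) && decide (m2 ≤ r2 * r2) &&
      decide (m3 ≤ r3 * r3) && decide (r0 + r1 + r2 + r3 ≤ 5880)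

def L : List GaussianInt :=
  [⟨100, 20⟩, ⟨100, -20⟩, ⟨-100, 20⟩, ⟨-100, -20⟩, ⟨85, 57⟩, ⟨85, -57⟩, ⟨-85, 57⟩, ⟨-85, -57⟩,
   ⟨57, 85⟩, ⟨57, -85⟩, ⟨-57, 85⟩, ⟨-57, -85⟩, ⟨20, 100⟩, ⟨20, -100⟩, ⟨-20, 100⟩, ⟨-20, -100⟩]

theorem all_chk : (L.all fun x => L.all fun y => L.all fun z => chk x y z) = true := by
  decide +kernel

end Pool.Agent.H3.Qa
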