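import Pool.Agent.H3.Qa1

set_option autoImplicit false

namespace Pool.Agent.H3.Qa

open Complex

noncomputable def D (j a b c d : ℂ) : ℂ := a + j * b + j * j * c + j * j * j * d

def U (j : ℂ) : Prop := j = 1 ∨ j = I ∨ j = -1 ∨ j = -I

theorem mx_bd (a b c d : GaussianInt) (r : ℕ) (h : (mx a b c d).toNat ≤ r * r) {j : ℂ} (hj : U j) :
    ‖D j a b c d‖ ≤ r := by
  rw [Int.toNat_le, mx] at h
  simp only [max_le_iff, nq] at h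
  obtain ⟨⟨h0, h1⟩, h2, h3⟩ := h
  refine (abs_le_of_sq_le_sq' ?_ (Nat.cast_nonneg r)).2
  rw [Complex.sq_norm, normSq_apply, sq]
  have k0 := (Int.cast_le (R := ℝ)).2 h0
  have k1 := (Int.cast_le (R := ℝ)).2 h1
  have k2 := (Int.cast_le (R := ℝ)).2 h2
  have k3 := (Int.cast_le (R := ℝ)).2 h3
  push_cast at k0 k1 k2 k3
  simp only [GaussianInt.intCast_re, GaussianInt.intCast_im] at k0 k1 k2 k3
  rcases hj with rfl | rfl | rfl | rfl <;> simp [D] <;> linarith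

theorem oct {X Y n a b : ℝ} (hn : n ^ 2 = X ^ 2 + Y ^ 2) (h0 : 0 ≤ a * X + b * Y)
    (h : 10000 * (X ^ 2 + Y ^ 2) ≤ (a * X + b * Y) ^ 2) : 100 * n ≤ a * X + b * Y :=
  (abs_le_of_sq_le_sq' (by rw [mul_pow, hn]; linarith) h0).2

theorem poly (w : ℂ) : ∃ x ∈ L, 100 * ‖w‖ ≤ (w * x).re := by
  have hn : ‖w‖ ^ 2 = |w.re| ^ 2 + |w.im| ^ 2 := by
    rw [Complex.sq_norm, normSq_apply, sq_abs, sq_abs]; ring
  have hx := abs_nonneg w.re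
  have hy := abs_nonneg w.im
  have fin : ∀ a b : ℤ, (⟨a, b⟩ ∈ L ∧ ⟨a, -b⟩ ∈ L ∧ ⟨-a, b⟩ ∈ L ∧ ⟨-a, -b⟩ ∈ L) →
      100 * ‖w‖ ≤ a * |w.re| + b * |w.im| → ∃ x ∈ L, 100 * ‖w‖ ≤ (w * x).re := by
    rintro a b ⟨l1, l2, l3, l4⟩ h
    rcases abs_cases w.re with ⟨e, -⟩ | ⟨e, -⟩ <;> rcases abs_cases w.im with ⟨f, -⟩ | ⟨f, -⟩ <;>
      rw [e, f] at h
    · exact ⟨_, l2, by simp; linarith⟩
    · exact ⟨_, l1, by simp; linarith⟩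
    · exact ⟨_, l4, by simp; linarith⟩
    · exact ⟨_, l3, by simp; linarith⟩
  generalize |w.re| = X at *
  generalize |w.im| = Y at *
  rcases le_total Y X with h | h
  · rcases le_total (12 * Y) (5 * X) with h' | h'
    · exact fin 100 20 (by decide) (oct hn (by positivity) (by push_cast; nlinarith))
    · exact fin 85 57 (by decide) (oct hn (by positivity)
        (by push_cast; nlinarith [mul_nonneg (sub_nonneg.2 h) (sub_nonneg.2 h')]))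
  · rcases le_total (12 * X) (5 * Y) with h' | h'
    · exact fin 20 100 (by decide) (oct hn (by positivity) (by push_cast; nlinarith))
    · exact fin 57 85 (by decide) (oct hn (by positivity)
        (by push_cast; nlinarith [mul_nonneg (sub_nonneg.2 h) (sub_nonneg.2 h')]))

theorem re_le {c z : ℂ} (hc : ‖c‖ ≤ 1) : (c * z).re ≤ ‖z‖ :=
  (re_le_norm _).trans (by rw [norm_mul]; exact mul_le_of_le_one_left (norm_nonneg _) hc)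

theorem key {h0 h1 h2 h3 j0 j1 j2 j3 : ℂ} (a0 : ‖h0‖ ≤ 1) (a1 : ‖h1‖ ≤ 1) (a2 : ‖h2‖ ≤ 1)
    (a3 : ‖h3‖ ≤ 1) (u0 : U j0) (u1 : U j1) (u2 : U j2) (u3 : U j3) :
    ‖D j0 (p0 * h0) (p1 * h1) (p2 * h2) (p3 * h3)‖ + ‖D j1 (p1 * h0) (p2 * h1) (p3 * h2) (p0 * h3)‖ +
      ‖D j2 (p2 * h0) (p3 * h1) (p0 * h2) (p1 * h3)‖ +
      ‖D j3 (p3 * h0) (p0 * h1) (p1 * h2) (p2 * h3)‖ ≤ 58.8 := by
  obtain ⟨c0, n0, e0⟩ := exists_norm_eq_mul_self (D j0 (p0 * h0) (p1 * h1) (p2 * h2) (p3 * h3))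
  obtain ⟨c1, n1, e1⟩ := exists_norm_eq_mul_self (D j1 (p1 * h0) (p2 * h1) (p3 * h2) (p0 * h3))
  obtain ⟨c2, n2, e2⟩ := exists_norm_eq_mul_self (D j2 (p2 * h0) (p3 * h1) (p0 * h2) (p1 * h3))
  obtain ⟨c3, n3, e3⟩ := exists_norm_eq_mul_self (D j3 (p3 * h0) (p0 * h1) (p1 * h2) (p2 * h3))
  obtain ⟨w0, k0⟩ : ∃ w : ℂ, w = c0 * p0 + c1 * p1 + c2 * p2 + c3 * p3 := ⟨_, rfl⟩
  obtain ⟨w1, k1⟩ : ∃ w : ℂ, w = c0 * j0 * p1 + c1 * j1 * p2 + c2 * j2 * p3 + c3 * j3 * p0 :=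
    ⟨_, rfl⟩
  obtain ⟨w2, k2⟩ : ∃ w : ℂ, w = c0 * j0 ^ 2 * p2 + c1 * j1 ^ 2 * p3 + c2 * j2 ^ 2 * p0 +
    c3 * j3 ^ 2 * p1 := ⟨_, rfl⟩
  obtain ⟨w3, k3⟩ : ∃ w : ℂ, w = c0 * j0 ^ 3 * p3 + c1 * j1 ^ 3 * p0 + c2 * j2 ^ 3 * p1 +
    c3 * j3 ^ 3 * p2 := ⟨_, rfl⟩
  have s1 : c0 * D j0 (p0 * h0) (p1 * h1) (p2 * h2) (p3 * h3) +
      c1 * D j1 (p1 * h0) (p2 * h1) (p3 * h2) (p0 * h3) +
      c2 * D j2 (p2 * h0) (p3 * h1) (p0 * h2) (p1 * h3) +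
      c3 * D j3 (p3 * h0) (p0 * h1) (p1 * h2) (p2 * h3) = h0 * w0 + h1 * w1 + h2 * w2 + h3 * w3 := by
    rw [k0, k1, k2, k3]; unfold D; ring
  rw [← e0, ← e1, ← e2, ← e3] at s1
  have s2 := congrArg re s1
  simp only [add_re, ofReal_re] at s2
  obtain ⟨u, nu, eu⟩ := exists_norm_eq_mul_self w0
  obtain ⟨x, hx, bx⟩ := poly (u * w1)
  obtain ⟨y, hy, bY⟩ := poly (u * w2)
  obtain ⟨z, hz, bz⟩ := poly (u * w3)
  rw [norm_mul, nu, one_mul] at bx bY bz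
  have ck := List.all_eq_true.1 (List.all_eq_true.1 (List.all_eq_true.1 all_chk x hx) y hy) z hz
  simp only [chk, force_eq, Bool.and_eq_true, decide_eq_true_eq] at ck
  obtain ⟨⟨⟨⟨q0, q1⟩, q2⟩, q3⟩, q4⟩ := ck
  have m0 := mx_bd _ _ _ _ _ q0 u0
  have m1 := mx_bd _ _ _ _ _ q1 u1
  have m2 := mx_bd _ _ _ _ _ q2 u2
  have m3 := mx_bd _ _ _ _ _ q3 u3
  have q5 := (Nat.cast_le (α := ℝ)).2 q4
  push_cast at q5
  have hh : ((hd : GaussianInt) : ℂ) = 100 := by simp [hd, GaussianInt.toComplex_def]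
  have s3 : u * c0 * D j0 ↑(p0 * hd) ↑(p1 * x) ↑(p2 * y) ↑(p3 * z) +
      u * c1 * D j1 ↑(p1 * hd) ↑(p2 * x) ↑(p3 * y) ↑(p0 * z) +
      u * c2 * D j2 ↑(p2 * hd) ↑(p3 * x) ↑(p0 * y) ↑(p1 * z) +
      u * c3 * D j3 ↑(p3 * hd) ↑(p0 * x) ↑(p1 * y) ↑(p2 * z) =
      100 * (u * w0) + u * w1 * x + u * w2 * y + u * w3 * z := by
    simp only [GaussianInt.toComplex_mul, hh]
    rw [k0, k1, k2, k3]; unfold D; ring
  rw [← eu] at s3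
  have s4 := congrArg re s3
  simp only [add_re] at s4
  have s5 : (100 * (‖w0‖ : ℂ)).re = 100 * ‖w0‖ := by simp
  have v : ∀ c : ℂ, ‖c‖ = 1 → ‖u * c‖ ≤ 1 := fun c h => by rw [norm_mul, nu, h, one_mul]
  have r0 := (re_le (v c0 n0)).trans m0
  have r1 := (re_le (v c1 n1)).trans m1
  have r2 := (re_le (v c2 n2)).trans m2
  have r3 := (re_le (v c3 n3)).trans m3
  linarith [re_le (z := w0) a0, re_le (z := w1) a1, re_le (z := w2) a2, re_le (z := w3) a3]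

theorem pars (u : Fin 4 → ℂ) (hu : ∀ i, ‖u i‖ ≤ 1) :
    ‖D 1 (u 0) (u 1) (u 2) (u 3)‖ ^ 2 + ‖D I (u 0) (u 1) (u 2) (u 3)‖ ^ 2 +
      ‖D (-1) (u 0) (u 1) (u 2) (u 3)‖ ^ 2 + ‖D (-I) (u 0) (u 1) (u 2) (u 3)‖ ^ 2 ≤ 16 := by
  have h : ∀ i, (u i).re * (u i).re + (u i).im * (u i).im ≤ 1 := fun i => by
    rw [← normSq_apply, ← Complex.sq_norm]
    exact pow_le_one₀ (norm_nonneg _) (hu i)
  simp only [Complex.sq_norm, normSq_apply]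
  simp [D]
  linarith [h 0, h 1, h 2, h 3]

theorem dft (a u v : Fin 4 → ℂ) (hu : ∀ i, ‖u i‖ ≤ 1) (hv : ∀ i, ‖v i‖ ≤ 1) :
    ∃ j, U j ∧ (∑ x, ∑ y, a (x + y) * u y * v x).re ≤ 4 * ‖D j (a 0) (a 1) (a 2) (a 3)‖ := by
  obtain ⟨j, hj, hm⟩ : ∃ j, U j ∧ ∀ k, U k →
      ‖D k (a 0) (a 1) (a 2) (a 3)‖ ≤ ‖D j (a 0) (a 1) (a 2) (a 3)‖ := by
    obtain ⟨j, hj, hm⟩ := Finset.exists_max_image ({1, I, -1, -I} : Finset ℂ)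
      (fun k => ‖D k (a 0) (a 1) (a 2) (a 3)‖) ⟨1, by simp⟩
    exact ⟨j, by simpa [U] using hj, fun k hk => hm k (by simpa [U] using hk)⟩
  refine ⟨j, hj, ?_⟩
  have e : 4 * ∑ x, ∑ y, a (x + y) * u y * v x =
      D 1 (a 0) (a 1) (a 2) (a 3) * D 1 (u 0) (u 1) (u 2) (u 3) * D 1 (v 0) (v 1) (v 2) (v 3) +
      D I (a 0) (a 1) (a 2) (a 3) * D (-I) (u 0) (u 1) (u 2) (u 3) * D (-I) (v 0) (v 1) (v 2) (v 3) +
      D (-1) (a 0) (a 1) (a 2) (a 3) * D (-1) (u 0) (u 1) (u 2) (u 3) * D (-1) (v 0) (v 1) (v 2) (v 3) +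
      D (-I) (a 0) (a 1) (a 2) (a 3) * D I (u 0) (u 1) (u 2) (u 3) * D I (v 0) (v 1) (v 2) (v 3) := by
    simp only [Fin.sum_univ_four, D, Fin.reduceAdd, mul_neg, neg_mul, I_mul_I, neg_neg, one_mul]
    ring_nf
    simp only [I_sq]
    ring
  have t : ∀ k x y : ℂ, U k → (D k (a 0) (a 1) (a 2) (a 3) * x * y).re ≤
      ‖D j (a 0) (a 1) (a 2) (a 3)‖ * ((‖x‖ ^ 2 + ‖y‖ ^ 2) / 2) := fun k x y hk => by
    refine (re_le_norm _).trans ?_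
    rw [norm_mul, norm_mul, mul_assoc]
    exact mul_le_mul (hm k hk) (by nlinarith [sq_nonneg (‖x‖ - ‖y‖)]) (by positivity)
      (norm_nonneg _)
  have e' := congrArg re e
  simp only [add_re] at e'
  have e4 : (4 * ∑ x, ∑ y, a (x + y) * u y * v x).re = 4 * (∑ x, ∑ y, a (x + y) * u y * v x).re := by
    simp [-re_sum]
  have t1 := t 1 (D 1 (u 0) (u 1) (u 2) (u 3)) (D 1 (v 0) (v 1) (v 2) (v 3)) (by simp [U])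
  have t2 := t I (D (-I) (u 0) (u 1) (u 2) (u 3)) (D (-I) (v 0) (v 1) (v 2) (v 3)) (by simp [U])
  have t3 := t (-1) (D (-1) (u 0) (u 1) (u 2) (u 3)) (D (-1) (v 0) (v 1) (v 2) (v 3)) (by simp [U])
  have t4 := t (-I) (D I (u 0) (u 1) (u 2) (u 3)) (D I (v 0) (v 1) (v 2) (v 3)) (by simp [U])
  have pu := mul_le_mul_of_nonneg_left (pars u hu) (norm_nonneg (D j (a 0) (a 1) (a 2) (a 3)))
  have pv := mul_le_mul_of_nonneg_left (pars v hv) (norm_nonneg (D j (a 0) (a 1) (a 2) (a 3)))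
  linarith

def ps : Fin 4 → GaussianInt := ![p0, p1, p2, p3]

theorem upper (f₁ f₂ : Fin 4 → Fin 4 → ℂ) (h : Fin 4 → ℂ) (h1 : ∀ a b, ‖f₁ a b‖ ≤ 1)
    (h2 : ∀ a b, ‖f₂ a b‖ ≤ 1) (h3 : ∀ a, ‖h a‖ ≤ 1) :
    (∑ g, (ps g : ℂ) * ∑ x, ∑ y, f₁ y (g - x - y) * f₂ x (g - x - y) * h (x + y)).re ≤ 235.2 := by
  obtain ⟨j0, u0, b0⟩ := dft (fun s => ps s * h s) (f₁ · 0) (f₂ · 0) (h1 · 0) (h2 · 0)
  obtain ⟨j1, u1, b1⟩ := dft (fun s => ps (s + 1) * h s) (f₁ · 1) (f₂ · 1) (h1 · 1) (h2 · 1)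
  obtain ⟨j2, u2, b2⟩ := dft (fun s => ps (s + 2) * h s) (f₁ · 2) (f₂ · 2) (h1 · 2) (h2 · 2)
  obtain ⟨j3, u3, b3⟩ := dft (fun s => ps (s + 3) * h s) (f₁ · 3) (f₂ · 3) (h1 · 3) (h2 · 3)
  have k := key (h3 0) (h3 1) (h3 2) (h3 3) u0 u1 u2 u3
  have e : ∑ g, (ps g : ℂ) * ∑ x, ∑ y, f₁ y (g - x - y) * f₂ x (g - x - y) * h (x + y) =
      ∑ x, ∑ y, ps (x + y) * h (x + y) * f₁ y 0 * f₂ x 0 +
      ∑ x, ∑ y, ps (x + y + 1) * h (x + y) * f₁ y 1 * f₂ x 1 +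
      ∑ x, ∑ y, ps (x + y + 2) * h (x + y) * f₁ y 2 * f₂ x 2 +
      ∑ x, ∑ y, ps (x + y + 3) * h (x + y) * f₁ y 3 * f₂ x 3 := by
    simp only [Fin.sum_univ_four, Fin.reduceAdd, Fin.reduceSub]
    ring
  rw [e, add_re, add_re, add_re]
  simp only [Fin.reduceAdd, show ps 0 = p0 from rfl, show ps 1 = p1 from rfl, show ps 2 = p2 from rfl,
    show ps 3 = p3 from rfl] at b0 b1 b2 b3
  linarith

def F1 : Fin 4 → Fin 4 → GaussianInt :=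
  ![![⟨489, 872⟩, ⟨905, -425⟩, ⟨-705, 709⟩, ⟨608, -793⟩],
  ![⟨-997, -68⟩, ⟨-991, -127⟩, ⟨122, 992⟩, ⟨497, 867⟩],
  ![⟨687, 726⟩, ⟨-738, -674⟩, ⟨218, -975⟩, ⟨991, -127⟩],
  ![⟨-326, -945⟩, ⟨-856, 516⟩, ⟨-770, -637⟩, ⟨-768, -640⟩]]
def F2 : Fin 4 → Fin 4 → GaussianInt :=
  ![![⟨604, -796⟩, ⟨903, 427⟩, ⟨-290, -956⟩, ⟨-529, 848⟩],
  ![⟨-44, -999⟩, ⟨999, 31⟩, ⟨752, -658⟩, ⟨999, 1⟩],
  ![⟨-736, -676⟩, ⟨693, 720⟩, ⟨-152, 988⟩, ⟨568, -822⟩],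
  ![⟨-975, 220⟩, ⟨-957, 288⟩, ⟨936, 350⟩, ⟨757, -653⟩]]
def F3 : Fin 4 → Fin 4 → GaussianInt :=
  ![![⟨999, 5⟩, ⟨-997, 76⟩, ⟨-999, -35⟩, ⟨-970, -242⟩],
  ![⟨845, 534⟩, ⟨451, -892⟩, ⟨-433, 901⟩, ⟨-867, -497⟩],
  ![⟨-258, 965⟩, ⟨-262, 965⟩, ⟨24, 999⟩, ⟨-973, -229⟩],
  ![⟨-928, -370⟩, ⟨993, 113⟩, ⟨125, 992⟩, ⟨-463, 886⟩]]

theorem F_norm : ∀ a b, (F1 a b).norm ≤ 1000000 ∧ (F2 a b).norm ≤ 1000000 ∧
    (F3 a b).norm ≤ 1000000 := by decide +kernel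

theorem F_val : (∑ g, ps g * ∑ x, ∑ y, F1 y (g - x - y) * F2 x (g - x - y) * F3 x y).re =
    235543999105 := by decide +kernel

theorem small {z : GaussianInt} (h : z.norm ≤ 1000000) : ‖(z : ℂ) / 1000‖ ≤ 1 := by
  have := (Int.cast_le (R := ℝ)).2 h
  rw [GaussianInt.intCast_real_norm, ← Complex.sq_norm] at this
  rw [norm_div, div_le_one (by simp)]
  refine (abs_le_of_sq_le_sq' (this.trans ?_) (norm_nonneg _)).2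
  norm_num

theorem lower : (∑ g, (ps g : ℂ) * ∑ x, ∑ y, (F1 y (g - x - y) : ℂ) / 1000 *
    ((F2 x (g - x - y) : ℂ) / 1000) * ((F3 x y : ℂ) / 1000)).re = 235.543999105 := by
  have e : ∑ g, (ps g : ℂ) * ∑ x, ∑ y, (F1 y (g - x - y) : ℂ) / 1000 *
      ((F2 x (g - x - y) : ℂ) / 1000) * ((F3 x y : ℂ) / 1000) = ((1 / 1000000000 : ℝ) : ℂ) *
      GaussianInt.toComplex (∑ g, ps g * ∑ x, ∑ y, F1 y (g - x - y) * F2 x (g - x - y) * F3 x y) := by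
    simp only [map_sum, map_mul, Finset.mul_sum]
    refine Finset.sum_congr rfl fun g _ => Finset.sum_congr rfl fun x _ =>
      Finset.sum_congr rfl fun y _ => ?_
    push_cast
    ring
  rw [e, re_ofReal_mul, ← GaussianInt.intCast_re, F_val]
  norm_num

end Pool.Agent.H3.Qa
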