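import Mathlib

set_option autoImplicit false

namespace Pool.Agent.H3.Sch

open Finset

abbrev Mat (n : ℕ) := Fin n → Finset (Fin n)

def tr {n : ℕ} (A : Mat n) : Mat n := fun j => univ.filter (fun i => j ∈ A i)

lemma mem_tr {n : ℕ} (A : Mat n) (i j : Fin n) : i ∈ tr A j ↔ j ∈ A i := by simp [tr]

lemma tr_tr {n : ℕ} (A : Mat n) : tr (tr A) = A := by
  funext i; ext j; rw [mem_tr, mem_tr]

def X {n : ℕ} (A : Mat n) (T : Finset (Fin n)) : ℕ := (univ.filter (fun i => T ⊆ A i)).card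

lemma cardMat (n : ℕ) : Fintype.card (Mat n) = 2 ^ (n * n) := by
  simp [Fintype.card_finset, ← pow_mul]

lemma moment {n : ℕ} (T : Finset (Fin n)) :
    ∑ A : Mat n, (2 : ℝ) ^ X A T = 2 ^ (n * n) * (1 + 1 / 2 ^ T.card) ^ n := by
  have h1 : ∀ A : Mat n, (2 : ℝ) ^ X A T = ∏ i, (if T ⊆ A i then (2 : ℝ) else 1) := by
    intro A
    rw [prod_ite]; simp [X]
  simp only [h1]
  rw [← Fintype.piFinset_univ, ← sum_pow' univ (fun S : Finset (Fin n) => if T ⊆ S then (2 : ℝ) else 1) n,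
    pow_mul, ← mul_pow]
  congr 1
  have h2 : ∀ S : Finset (Fin n), (if T ⊆ S then (2 : ℝ) else 1) = 1 + if T ⊆ S then 1 else 0 := by
    intro S; split_ifs <;> norm_num
  simp only [h2, sum_add_distrib, sum_const, card_univ, Fintype.card_finset, Fintype.card_fin,
    sum_boole]
  have h3 : univ.filter (fun S : Finset (Fin n) => T ⊆ S) = Icc T univ := by ext S; simp
  have h4 : T.card ≤ n := by simpa using card_le_univ T
  rw [h3, card_Icc_finset (subset_univ _), card_univ, Fintype.card_fin]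
  obtain ⟨r, hr⟩ : ∃ r, n = r + T.card := ⟨n - T.card, by omega⟩
  rw [show n - T.card = r by omega]
  have h5 : (2 : ℝ) ^ n = 2 ^ r * 2 ^ T.card := by rw [← pow_add, ← hr]
  simp only [nsmul_eq_mul]
  push_cast
  rw [h5]; field_simp

lemma bad_count (n s a b : ℕ) (c : ℝ) (hc : 0 < c) (ha : a ≠ 0) (hcb : c ^ a ≤ 2 ^ b) :
    ((univ.filter (fun A : Mat n => ∃ T : Finset (Fin n), T.card = s ∧ b * n < a * X A T)).card : ℝ)
      ≤ 2 ^ (n * n) * ((n : ℝ) ^ s * ((1 + 1 / 2 ^ s) / c) ^ n) := by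
  have hsub : univ.filter (fun A : Mat n => ∃ T : Finset (Fin n), T.card = s ∧ b * n < a * X A T) ⊆
      (powersetCard s univ).biUnion (fun T => univ.filter (fun A : Mat n => b * n < a * X A T)) := by
    intro A hA
    obtain ⟨T, h1, h2⟩ := (mem_filter.1 hA).2
    exact mem_biUnion.2 ⟨T, by simp [h1], by simpa using h2⟩
  have h1 : ∀ T ∈ powersetCard s (univ : Finset (Fin n)),
      ((univ.filter (fun A : Mat n => b * n < a * X A T)).card : ℝ) ≤
        2 ^ (n * n) * ((1 + 1 / 2 ^ s) / c) ^ n := by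
    intro T hT
    have hTs : T.card = s := (mem_powersetCard.1 hT).2
    rw [div_pow, ← mul_div_assoc, le_div_iff₀ (by positivity), ← hTs, ← moment, ← nsmul_eq_mul,
      ← sum_const]
    refine (sum_le_sum (fun A hA => ?_)).trans
      (sum_le_sum_of_subset_of_nonneg (filter_subset _ _) (fun _ _ _ => by positivity))
    have h := (mem_filter.1 hA).2
    refine le_of_pow_le_pow_left₀ ha (by positivity) ?_
    rw [← pow_mul, mul_comm n a, pow_mul, ← pow_mul 2]
    refine (pow_le_pow_left₀ (by positivity) hcb n).trans ?_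
    rw [← pow_mul]
    exact pow_le_pow_right₀ (by norm_num) (by nlinarith)
  have h2 : ((univ.filter (fun A : Mat n => ∃ T : Finset (Fin n), T.card = s ∧
      b * n < a * X A T)).card : ℝ) ≤ ∑ T ∈ powersetCard s (univ : Finset (Fin n)),
      ((univ.filter (fun A : Mat n => b * n < a * X A T)).card : ℝ) := by
    exact_mod_cast (card_le_card hsub).trans card_biUnion_le
  refine h2.trans ((sum_le_sum h1).trans ?_)
  rw [sum_const, card_powersetCard, card_univ, Fintype.card_fin, nsmul_eq_mul]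
  have h3 : (n.choose s : ℝ) ≤ (n : ℝ) ^ s := by exact_mod_cast Nat.choose_le_pow n s
  have h4 : (0 : ℝ) ≤ 2 ^ (n * n) * ((1 + 1 / 2 ^ s) / c) ^ n := by positivity
  nlinarith

def Good {n : ℕ} (A : Mat n) : Prop :=
  (∀ T : Finset (Fin n), T.card = 2 → 8 * X A T ≤ 3 * n) ∧
  ∀ T : Finset (Fin n), T.card = 4 → 10 * X A T ≤ 1 * n

instance {n : ℕ} (A : Mat n) : Decidable (Good A) := by unfold Good; infer_instance

noncomputable def eb (n : ℕ) : ℝ :=
  (n : ℝ) ^ 2 * ((1 + 1 / 2 ^ 2) / (129 / 100)) ^ n + (n : ℝ) ^ 4 * ((1 + 1 / 2 ^ 4) / (107 / 100)) ^ n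

lemma notGood (n : ℕ) : ((univ.filter (fun A : Mat n => ¬ Good A)).card : ℝ) ≤
    2 ^ (n * n) * eb n := by
  have h1 := bad_count n 2 8 3 (129 / 100) (by norm_num) (by norm_num) (by norm_num)
  have h2 := bad_count n 4 10 1 (107 / 100) (by norm_num) (by norm_num) (by norm_num)
  have h3 : (univ.filter (fun A : Mat n => ¬ Good A)).card ≤
      (univ.filter (fun A : Mat n => ∃ T : Finset (Fin n), T.card = 2 ∧ 3 * n < 8 * X A T)).card +
      (univ.filter (fun A : Mat n => ∃ T : Finset (Fin n), T.card = 4 ∧ 1 * n < 10 * X A T)).card := by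
    refine (card_le_card ?_).trans (card_union_le _ _)
    intro A hA
    simp only [Good, mem_filter, mem_univ, true_and, mem_union, not_and_or, not_forall, not_le,
      exists_prop] at hA ⊢
    exact hA
  have h4 := (Nat.cast_le (α := ℝ)).2 h3
  push_cast at h4
  unfold eb
  linarith

lemma notGood' (n : ℕ) : ((univ.filter (fun A : Mat n => ¬ Good (tr A))).card : ℝ) ≤
    2 ^ (n * n) * eb n := by
  refine le_trans ?_ (notGood n)
  have := card_le_card_of_injOn (s := univ.filter (fun A : Mat n => ¬ Good (tr A)))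
    (t := univ.filter (fun A : Mat n => ¬ Good A)) tr (fun A hA => by simpa using hA)
    (fun A _ B _ h => by rw [← tr_tr A, h, tr_tr])
  exact_mod_cast this

lemma small_sets (n : ℕ) (μ c : ℝ) (hμ : 0 < μ) (hc : 0 ≤ c) (P : Finset (Fin n) → Prop) [DecidablePred P]
    (h : ∀ T, P T → (1 / μ) ^ T.card ≤ c) : ((univ.filter P).card : ℝ) ≤ c * (1 + μ) ^ n := by
  have h1 := sum_pow_mul_eq_add_pow μ 1 (univ : Finset (Fin n))
  simp only [one_pow, mul_one, powerset_univ, card_univ, Fintype.card_fin] at h1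
  rw [add_comm, ← h1, mul_sum, card_eq_sum_ones]
  push_cast
  refine (sum_le_sum (fun T hT => ?_)).trans
    (sum_le_sum_of_subset_of_nonneg (filter_subset _ _) (fun _ _ _ => by positivity))
  have := h T (mem_filter.1 hT).2
  rwa [one_div, inv_pow, inv_le_iff_one_le_mul₀ (by positivity)] at this

lemma small_sets' (n a b : ℕ) (μ c : ℝ) (hμ : 0 < μ) (hμ1 : μ ≤ 1) (hc : 0 ≤ c) (ha : a ≠ 0)
    (h : (1 / μ) ^ b ≤ c ^ a) :
    ((univ.filter (fun T : Finset (Fin n) => a * T.card ≤ b * n)).card : ℝ) ≤ (c * (1 + μ)) ^ n := by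
  rw [mul_pow]
  refine small_sets n μ _ hμ (by positivity) _ (fun T hT => ?_)
  refine le_of_pow_le_pow_left₀ ha (by positivity) ?_
  rw [← pow_mul, ← pow_mul, mul_comm n a, pow_mul c]
  refine le_trans ?_ (pow_le_pow_left₀ (by positivity) h n)
  rw [← pow_mul]
  exact pow_le_pow_right₀ (one_le_one_div hμ hμ1) (by nlinarith)

def RR (n : ℕ) : Finset (Finset (Fin n) × Finset (Fin n)) :=
  (univ.filter (fun T => 8 * T.card ≤ 3 * n) ×ˢ univ.filter (fun T => T.card ≤ 3) ∪
    univ.filter (fun T => T.card ≤ 3) ×ˢ univ.filter (fun T => 8 * T.card ≤ 3 * n)) ∪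
    univ.filter (fun T => 10 * T.card ≤ 1 * n) ×ˢ univ.filter (fun T => 10 * T.card ≤ 1 * n)

lemma card_RR (n : ℕ) : ((RR n).card : ℝ) ≤ 3000000 * (197 / 100) ^ n := by
  have h1 := small_sets' n 8 3 (1 / 2) (13 / 10) (by norm_num) (by norm_num) (by norm_num)
    (by norm_num) (by norm_num)
  have h2 := small_sets' n 10 1 (1 / 8) (124 / 100) (by norm_num) (by norm_num) (by norm_num)
    (by norm_num) (by norm_num)
  have h3 := small_sets n (1 / 100) 1000000 (by norm_num) (by norm_num) (fun T => T.card ≤ 3)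
    (fun T hT => by
      calc _ ≤ (1 / (1 / 100) : ℝ) ^ 3 := pow_le_pow_right₀ (by norm_num) hT
        _ ≤ _ := by norm_num)
  have h4 := (card_union_le _ _).trans (Nat.add_le_add_right (card_union_le
    (univ.filter (fun T : Finset (Fin n) => 8 * T.card ≤ 3 * n) ×ˢ
      univ.filter (fun T : Finset (Fin n) => T.card ≤ 3))
    (univ.filter (fun T : Finset (Fin n) => T.card ≤ 3) ×ˢ
      univ.filter (fun T : Finset (Fin n) => 8 * T.card ≤ 3 * n)))
    (univ.filter (fun T : Finset (Fin n) => 10 * T.card ≤ 1 * n) ×ˢ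
      univ.filter (fun T : Finset (Fin n) => 10 * T.card ≤ 1 * n)).card)
  simp only [card_product] at h4
  have h5 := (Nat.cast_le (α := ℝ)).2 h4
  push_cast at h5
  have h6 := mul_le_mul h1 h3 (by positivity) (by positivity)
  have h7 := mul_le_mul h2 h2 (by positivity) (by positivity)
  have h8 : (13 / 10 * (1 + 1 / 2) : ℝ) ^ n * (1 + 1 / 100) ^ n ≤ (197 / 100) ^ n := by
    rw [← mul_pow]; exact pow_le_pow_left₀ (by norm_num) (by norm_num) n
  have h9 : (124 / 100 * (1 + 1 / 8) : ℝ) ^ n * (124 / 100 * (1 + 1 / 8)) ^ n ≤ (197 / 100) ^ n := by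
    rw [← mul_pow]; exact pow_le_pow_left₀ (by norm_num) (by norm_num) n
  have h10 : (0 : ℝ) ≤ (197 / 100) ^ n := by positivity
  unfold RR
  nlinarith

lemma side {n : ℕ} {A : Mat n} (hA : Good A) {S T : Finset (Fin n)} (h : ∀ i ∈ S, T ⊆ A i) :
    (2 ≤ T.card → 8 * S.card ≤ 3 * n) ∧ (4 ≤ T.card → 10 * S.card ≤ 1 * n) := by
  have key : ∀ T' ⊆ T, S.card ≤ X A T' := fun T' hT' =>
    card_le_card (fun i hi => mem_filter.2 ⟨mem_univ _, hT'.trans (h i hi)⟩)
  constructor
  · intro h2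
    obtain ⟨T', h3, h4⟩ := exists_subset_card_eq h2
    have := hA.1 T' h4
    have := key T' h3
    omega
  · intro h2
    obtain ⟨T', h3, h4⟩ := exists_subset_card_eq h2
    have := hA.2 T' h4
    have := key T' h3
    omega

lemma mem_RR {n : ℕ} {A : Mat n} (hA : Good A) (hA' : Good (tr A)) {S T : Finset (Fin n)}
    (h : ∀ i ∈ S, T ⊆ A i) (hS : 2 ≤ S.card) (hT : 2 ≤ T.card) : (S, T) ∈ RR n := by
  have h1 := side hA h
  have h2 := side hA' (S := T) (T := S) (fun j hj i hi => (mem_tr A i j).2 (h i hi hj))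
  simp only [RR, mem_union, mem_product, mem_filter, mem_univ, true_and]
  omega

lemma empty_RR (n : ℕ) : ((∅, ∅) : Finset (Fin n) × Finset (Fin n)) ∈ RR n := by simp [RR]

def Low {n : ℕ} (A : Mat n) : Prop := ∃ k < n, ∃ S T : Fin k → Finset (Fin n),
  ∀ i j, j ∈ A i ↔ ∃ l, i ∈ S l ∧ j ∈ T l

def PP {n : ℕ} (R C : Finset (Fin n)) : Finset (Fin n × Fin n) := (Rᶜ ×ˢ Cᶜ)ᶜ

def recon {n m : ℕ} (R C : Finset (Fin n))
    (x : (Fin m → Finset (Fin n) × Finset (Fin n)) × Finset (Fin n × Fin n)) : Mat n :=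
  fun i => univ.filter (fun j => (i, j) ∈ x.2 ∨
    (i ∉ R ∧ j ∉ C ∧ ∃ t, i ∈ (x.1 t).1 ∧ j ∈ (x.1 t).2))

lemma encode {n : ℕ} {A : Mat n} (hA : Good A) (hA' : Good (tr A)) (hL : Low A) :
    ∃ R C : Finset (Fin n), R.card + C.card < n ∧
      A ∈ ((Fintype.piFinset fun _ : Fin (n - 1 - R.card - C.card) => RR n) ×ˢ
        (PP R C).powerset).image (recon R C) := by
  obtain ⟨k, hk, S, T, h⟩ := hL
  let L1 := univ.filter (fun l => (S l).card ≤ 1)
  let L2 := univ.filter (fun l => ¬ (S l).card ≤ 1 ∧ (T l).card ≤ 1)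
  let M := univ.filter (fun l => ¬ (S l).card ≤ 1 ∧ ¬ (T l).card ≤ 1)
  have hc : L1.card + L2.card + M.card = k := by
    simp only [L1, L2, M, card_filter, ← sum_add_distrib]
    rw [sum_congr rfl (g := fun _ => 1) (fun l _ => by split_ifs <;> simp_all)]
    simp
  have hR : (L1.biUnion S).card ≤ L1.card := by
    simpa using card_biUnion_le_card_mul L1 S 1 (fun l hl => (mem_filter.1 hl).2)
  have hC : (L2.biUnion T).card ≤ L2.card := by
    simpa using card_biUnion_le_card_mul L2 T 1 (fun l hl => (mem_filter.1 hl).2.2)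
  refine ⟨L1.biUnion S, L2.biUnion T, by omega, mem_image.2 ⟨(fun t =>
    if ht : t.1 < M.card then (S (M.equivFin.symm ⟨t, ht⟩), T (M.equivFin.symm ⟨t, ht⟩)) else (∅, ∅),
    (PP (L1.biUnion S) (L2.biUnion T)).filter (fun p => p.2 ∈ A p.1)), ?_, ?_⟩⟩
  · refine mem_product.2 ⟨Fintype.mem_piFinset.2 fun t => ?_, mem_powerset.2 (filter_subset _ _)⟩
    simp only
    split_ifs with ht
    · have hm := (mem_filter.1 (M.equivFin.symm ⟨t, ht⟩).2).2
      exact mem_RR hA hA' (fun i hi j hj => (h i j).2 ⟨_, hi, hj⟩) (by omega) (by omega)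
    · exact empty_RR n
  · funext i
    ext j
    simp only [recon, mem_filter, mem_univ, true_and]
    constructor
    · rintro (hh | ⟨-, -, t, h1, h2⟩)
      · exact hh.2
      · split_ifs at h1 h2 with ht
        · exact (h i j).2 ⟨_, h1, h2⟩
        · simp at h1
    · intro hij
      by_cases hp : (i, j) ∈ PP (L1.biUnion S) (L2.biUnion T)
      · exact Or.inl ⟨hp, hij⟩
      · right
        simp only [PP, mem_compl, not_not, mem_product] at hp
        obtain ⟨l, h1, h2⟩ := (h i j).1 hij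
        have a1 : ¬ (S l).card ≤ 1 := fun a =>
          hp.1 (mem_biUnion.2 ⟨l, mem_filter.2 ⟨mem_univ _, a⟩, h1⟩)
        have a2 : ¬ (T l).card ≤ 1 := fun a =>
          hp.2 (mem_biUnion.2 ⟨l, mem_filter.2 ⟨mem_univ _, a1, a⟩, h2⟩)
        have hl : l ∈ M := mem_filter.2 ⟨mem_univ _, a1, a2⟩
        have ht := (M.equivFin ⟨l, hl⟩).2
        refine ⟨hp.1, hp.2, ⟨(M.equivFin ⟨l, hl⟩).1, by omega⟩, ?_⟩
        simp [ht, h1, h2]

lemma numeric (n ρ r c m : ℕ) (h : r + c + m + 1 = n) (hcr : c ≤ r) (h1 : 64 * n * ρ ≤ 2 ^ n)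
    (h2 : n ^ 2 ≤ 2 ^ (n / 4)) (h3 : 6 ≤ n) :
    n.choose r * n.choose c * ρ ^ m ≤ n * 2 ^ (m * n + r * c) := by
  by_cases hr : n ^ 2 ≤ 2 ^ r
  · have a1 : n.choose r ≤ n ^ (c + m + 1) := by
      rw [← Nat.choose_symm (by omega : r ≤ n), show n - r = c + m + 1 by omega]
      exact Nat.choose_le_pow _ _
    have a2 := Nat.choose_le_pow n c
    have a3 : (n * ρ) ^ m ≤ (2 ^ n) ^ m := Nat.pow_le_pow_left (by nlinarith) m
    have a4 : (n ^ 2) ^ c ≤ (2 ^ r) ^ c := Nat.pow_le_pow_left hr c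
    calc _ ≤ n ^ (c + m + 1) * n ^ c * ρ ^ m := by gcongr
      _ = n * ((n * ρ) ^ m * (n ^ 2) ^ c) := by ring
      _ ≤ n * ((2 ^ n) ^ m * (2 ^ r) ^ c) := by gcongr
      _ = _ := by ring
  · have a0 : r < n / 4 := (Nat.pow_lt_pow_iff_right (by norm_num : 1 < 2)).1
      (lt_of_lt_of_le (not_le.1 hr) h2)
    have a1 := Nat.choose_le_two_pow n r
    have a2 := Nat.choose_le_two_pow n c
    have a3 : (64 * ρ) ^ m ≤ (2 ^ n) ^ m := Nat.pow_le_pow_left (by nlinarith) m
    have a4 : 2 ^ n * 2 ^ n ≤ 64 ^ m := by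
      rw [← pow_add, show 64 = 2 ^ 6 by norm_num, ← pow_mul]
      exact Nat.pow_le_pow_right (by norm_num) (by omega)
    calc _ ≤ 2 ^ n * 2 ^ n * ρ ^ m := by gcongr
      _ ≤ 64 ^ m * ρ ^ m := by gcongr
      _ = (64 * ρ) ^ m := by ring
      _ ≤ (2 ^ n) ^ m := a3
      _ = 1 * 2 ^ (m * n + 0) := by ring
      _ ≤ _ := by gcongr <;> omega

open Classical in
lemma low_count (n : ℕ) (h1 : 64 * n * (RR n).card ≤ 2 ^ n) (h2 : n ^ 2 ≤ 2 ^ (n / 4)) (h3 : 6 ≤ n) :
    (univ.filter (fun A : Mat n => Good A ∧ Good (tr A) ∧ Low A)).card * 2 ^ n ≤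
      (n + 1) * ((n + 1) * (n * 2 ^ (n * n))) := by
  let f : ℕ → ℕ → ℕ := fun r c =>
    if r + c < n then (RR n).card ^ (n - 1 - r - c) * 2 ^ (n * n - (n - r) * (n - c)) else 0
  have hsub : univ.filter (fun A : Mat n => Good A ∧ Good (tr A) ∧ Low A) ⊆
      univ.biUnion (fun R : Finset (Fin n) => univ.biUnion (fun C : Finset (Fin n) =>
        if R.card + C.card < n then ((Fintype.piFinset fun _ : Fin (n - 1 - R.card - C.card) => RR n)
          ×ˢ (PP R C).powerset).image (recon R C) else ∅)) := by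
    intro A hA
    obtain ⟨a, b, c⟩ := (mem_filter.1 hA).2
    obtain ⟨R, C, d, e⟩ := encode a b c
    exact mem_biUnion.2 ⟨R, mem_univ _, mem_biUnion.2 ⟨C, mem_univ _, by rwa [if_pos d]⟩⟩
  have h4 : (univ.filter (fun A : Mat n => Good A ∧ Good (tr A) ∧ Low A)).card ≤
      ∑ R : Finset (Fin n), ∑ C : Finset (Fin n), f R.card C.card := by
    refine (card_le_card hsub).trans (card_biUnion_le.trans (sum_le_sum fun R _ =>
      card_biUnion_le.trans (sum_le_sum fun C _ => ?_)))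
    simp only [f]
    split_ifs
    · refine card_image_le.trans (le_of_eq ?_)
      rw [card_product, Fintype.card_piFinset_const, card_powerset, PP, card_compl, card_product,
        card_compl, card_compl]
      simp
    · simp
  have hs : ∀ g : ℕ → ℕ, ∑ R : Finset (Fin n), g R.card = ∑ r ∈ range (n + 1), n.choose r * g r := by
    intro g
    rw [← powerset_univ, sum_powerset_apply_card]
    simp
  have hs2 : ∀ r, ∑ C : Finset (Fin n), f r C.card = ∑ c ∈ range (n + 1), n.choose c * f r c :=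
    fun r => hs (f r)
  simp only [hs2] at h4
  rw [hs (fun r => ∑ c ∈ range (n + 1), n.choose c * f r c)] at h4
  simp only [mul_sum] at h4
  refine (Nat.mul_le_mul_right _ h4).trans ?_
  simp only [sum_mul]
  have h5 : ∀ r c, n.choose r * (n.choose c * f r c) * 2 ^ n ≤ n * 2 ^ (n * n) := by
    intro r c
    simp only [f]
    split_ifs with hrc
    · obtain ⟨m, hm⟩ : ∃ m, r + c + m + 1 = n := ⟨n - 1 - r - c, by omega⟩
      have a1 : n.choose r * n.choose c * (RR n).card ^ m ≤ n * 2 ^ (m * n + r * c) := by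
        rcases le_total c r with h | h
        · exact numeric n _ r c m hm h h1 h2 h3
        · rw [mul_comm (n.choose r), mul_comm r c]
          exact numeric n _ c r m (by omega) h h1 h2 h3
      rw [show n - 1 - r - c = m by omega, show n - r = c + m + 1 by omega,
        show n - c = r + m + 1 by omega]
      obtain ⟨e, he⟩ : ∃ e, n * n = e + (c + m + 1) * (r + m + 1) :=
        ⟨n * n - (c + m + 1) * (r + m + 1), by
          have : (c + m + 1) * (r + m + 1) ≤ n * n := Nat.mul_le_mul (by omega) (by omega)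
          omega⟩
      have he2 : n * n = (m * n + r * c) + e + n := by rw [he, ← hm]; ring
      rw [show n * n - (c + m + 1) * (r + m + 1) = e by omega, he2, pow_add, pow_add]
      calc _ = n.choose r * n.choose c * (RR n).card ^ m * 2 ^ e * 2 ^ n := by ring
        _ ≤ n * 2 ^ (m * n + r * c) * 2 ^ e * 2 ^ n := by gcongr
        _ = _ := by ring
    · simp
  refine (sum_le_sum fun r _ => sum_le_sum fun c _ => h5 r c).trans (le_of_eq ?_)
  simp

end Pool.Agent.H3.Sch
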