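import Pool.Agent.H3.Sch1

set_option autoImplicit false

namespace Pool.Agent.H3.Sch

open Finset Filter Topology

noncomputable def scheinRank {n : ℕ} (A : Fin n → Fin n → Bool) : ℕ :=
  sInf {k | ∃ (B : Fin n → Fin k → Bool) (C : Fin k → Fin n → Bool),
    ∀ i j, A i j = true ↔ ∃ l, B i l = true ∧ C l j = true}

noncomputable def p (n : ℕ) : ℝ :=
  ({A : Fin n → Fin n → Bool | scheinRank A < n}.ncard : ℝ) / 2 ^ (n ^ 2)

open Classical in
lemma to_low (n : ℕ) : {A : Fin n → Fin n → Bool | scheinRank A < n}.ncard ≤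
    (univ.filter (fun A : Mat n => Low A)).card := by
  rw [← Set.ncard_coe_finset]
  refine Set.ncard_le_ncard_of_injOn (fun A i => univ.filter (fun j => A i j = true)) ?_ ?_
  · intro A hA
    have hne : {k | ∃ (B : Fin n → Fin k → Bool) (C : Fin k → Fin n → Bool),
        ∀ i j, A i j = true ↔ ∃ l, B i l = true ∧ C l j = true}.Nonempty :=
      ⟨n, fun i l => decide (i = l), A, by simp⟩
    obtain ⟨B, C, h⟩ := Nat.sInf_mem hne
    simp only [coe_filter, mem_univ, true_and, Set.mem_setOf_eq]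
    exact ⟨_, hA, fun l => univ.filter (fun i => B i l = true),
      fun l => univ.filter (fun j => C l j = true), fun i j => by
        simp only [mem_filter, mem_univ, true_and]; exact h i j⟩
  · intro A _ B _ h
    funext i j
    have := congrArg (fun S => j ∈ S) (congrFun h i)
    simp only [mem_filter, mem_univ, true_and] at this
    exact Bool.eq_iff_iff.2 this.to_iff

lemma ev (k : ℕ) (r ε : ℝ) (h0 : 0 ≤ r) (h1 : r < 1) (hε : 0 < ε) :
    ∀ᶠ n : ℕ in atTop, (n : ℝ) ^ k * r ^ n ≤ ε :=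
  (tendsto_pow_const_mul_const_pow_of_abs_lt_one k (r := r) (by rwa [abs_of_nonneg h0])).eventually
    (ge_mem_nhds hε)

lemma bound : ∀ᶠ n : ℕ in atTop, p n ≤ (199 / 200) ^ n := by
  classical
  filter_upwards [ev 1 (197 / 200) (1 / (64 * 3000000)) (by norm_num) (by norm_num) (by norm_num),
    ev 2 (9 / 10) (1 / 2) (by norm_num) (by norm_num) (by norm_num),
    ev 2 (((1 + 1 / 2 ^ 2) / (129 / 100)) / (199 / 200)) (1 / 8) (by norm_num) (by norm_num)
      (by norm_num),
    ev 4 (((1 + 1 / 2 ^ 4) / (107 / 100)) / (199 / 200)) (1 / 8) (by norm_num) (by norm_num)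
      (by norm_num),
    ev 3 ((1 / 2) / (199 / 200)) (1 / 8) (by norm_num) (by norm_num) (by norm_num),
    eventually_ge_atTop 6] with n e1 e2 e3 e4 e5 e6
  have h1 : 64 * n * (RR n).card ≤ 2 ^ n := by
    have a := card_RR n
    have b : (197 / 100 : ℝ) ^ n = (197 / 200) ^ n * 2 ^ n := by rw [← mul_pow]; norm_num
    have c : (0 : ℝ) ≤ n := Nat.cast_nonneg _
    have d : (0 : ℝ) < 2 ^ n := by positivity
    have : (64 * n * (RR n).card : ℝ) ≤ 2 ^ n := by
      rw [b] at a
      rw [pow_one] at e1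
      calc _ ≤ (64 * n : ℝ) * (3000000 * ((197 / 200) ^ n * 2 ^ n)) := by gcongr
        _ = 64 * 3000000 * (n * (197 / 200) ^ n) * 2 ^ n := by ring
        _ ≤ 64 * 3000000 * (1 / (64 * 3000000)) * 2 ^ n := by gcongr
        _ = _ := by ring
    exact_mod_cast this
  have h2 : n ^ 2 ≤ 2 ^ (n / 4) := by
    have a : (10 / 9 : ℝ) ^ n ≤ 2 ^ (n / 4 + 1) := by
      calc (10 / 9 : ℝ) ^ n ≤ (10 / 9) ^ (4 * (n / 4 + 1)) :=
            pow_le_pow_right₀ (by norm_num) (by omega)
        _ ≤ _ := by rw [pow_mul]; exact pow_le_pow_left₀ (by norm_num) (by norm_num) _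
    have b : (9 / 10 : ℝ) ^ n * (10 / 9) ^ n = 1 := by rw [← mul_pow]; norm_num
    have c : (0 : ℝ) < (10 / 9) ^ n := by positivity
    have : (n : ℝ) ^ 2 ≤ 2 ^ (n / 4) := by
      rw [pow_succ] at a
      calc (n : ℝ) ^ 2 = n ^ 2 * (9 / 10) ^ n * (10 / 9) ^ n := by rw [mul_assoc, b, mul_one]
        _ ≤ 1 / 2 * (10 / 9) ^ n := by gcongr
        _ ≤ _ := by linarith
    exact_mod_cast this
  have h3 := (Nat.cast_le (α := ℝ)).2 (low_count n h1 h2 e6)
  have h4 := notGood n
  have h5 := notGood' n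
  have h6 : (univ.filter (fun A : Mat n => Low A)).card ≤
      (univ.filter (fun A : Mat n => ¬ Good A)).card +
      (univ.filter (fun A : Mat n => ¬ Good (tr A))).card +
      (univ.filter (fun A : Mat n => Good A ∧ Good (tr A) ∧ Low A)).card := by
    refine (card_le_card ?_).trans ((card_union_le _ _).trans
      (Nat.add_le_add_right (card_union_le _ _) _))
    intro A hA
    simp only [mem_filter, mem_univ, true_and, mem_union] at hA ⊢
    tauto
  have h7 := (Nat.cast_le (α := ℝ)).2 ((to_low n).trans h6)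
  push_cast at h3 h7
  unfold p
  rw [div_le_iff₀ (by positivity), pow_two]
  rw [div_pow, ← mul_div_assoc, div_le_iff₀ (by positivity)] at e3 e4 e5
  have hn : (6 : ℝ) ≤ n := by exact_mod_cast e6
  have h8 : ((univ.filter (fun A : Mat n => Good A ∧ Good (tr A) ∧ Low A)).card : ℝ) ≤
      2 ^ (n * n) * (4 * ((n : ℝ) ^ 3 * (1 / 2) ^ n)) := by
    have b : (1 / 2 : ℝ) ^ n * 2 ^ n = 1 := by rw [← mul_pow]; norm_num
    apply le_of_mul_le_mul_right _ (by positivity : (0 : ℝ) < 2 ^ n)
    refine h3.trans ?_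
    calc ((n : ℝ) + 1) * ((n + 1) * (n * 2 ^ (n * n))) ≤ (2 * n) * ((2 * n) * (n * 2 ^ (n * n))) := by
          gcongr <;> linarith
      _ = 2 ^ (n * n) * (4 * (n ^ 3 * ((1 / 2) ^ n * 2 ^ n))) := by rw [b]; ring
      _ = _ := by ring
  have h9 : eb n ≤ 1 / 4 * (199 / 200) ^ n := by unfold eb; linarith
  have h10 : (0 : ℝ) < 2 ^ (n * n) := by positivity
  have h11 := mul_le_mul_of_nonneg_left h9 h10.le
  have h12 := mul_le_mul_of_nonneg_left e5 h10.le
  linarith

end Pool.Agent.H3.Sch
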