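import Pool.Agent.H3.ShDefs

open Set Filter Topology
open scoped ENNReal NNReal unitInterval

namespace Pool.Agent.H3.Shadow

theorem dM_le_symm {N : ℕ} (M : Set (E N)) (p q : E N) : dM M p q ≤ dM M q p := by
  refine le_iInf₂ fun P hP => iInf₂_le_of_le P.symm (fun t => hP _) ?_
  exact eVariationOn.comp_le_of_antitoneOn P unitInterval.symm
    (fun a _ b _ h => unitInterval.symm_le_symm.2 h) (mapsTo_univ _ _)

theorem dM_symm {N : ℕ} (M : Set (E N)) (p q : E N) : dM M p q = dM M q p :=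
  le_antisymm (dM_le_symm M p q) (dM_le_symm M q p)

variable {γ : ℝ → E 3} {K : ℝ≥0}

theorem abs_coord_le (x : E 3) (i : Fin 3) : |x i| ≤ ‖x‖ := by
  simpa using PiLp.norm_apply_le x i

theorem dM_eq (hγ : LipschitzWith K γ) (h0 : ∀ t, γ t 0 = t) {s t : ℝ} (hs : 0 ≤ s) (hst : s ≤ t)
    (ht : t ≤ 1) : dM (γ '' Icc 0 1) (γ s) (γ t) = eVariationOn γ (Icc s t) := by
  apply le_antisymm
  · have hm : ∀ u : I, s + (u : ℝ) * (t - s) ∈ Icc s t := fun u =>
      ⟨by nlinarith [u.2.1], by nlinarith [u.2.2]⟩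
    let P : Path (γ s) (γ t) :=
      { toFun := fun u => γ (s + u * (t - s))
        continuous_toFun := hγ.continuous.comp (by fun_prop)
        source' := by simp
        target' := by simp }
    refine iInf₂_le_of_le P (fun u => ⟨_, ⟨hs.trans (hm u).1, (hm u).2.trans ht⟩, rfl⟩) ?_
    exact eVariationOn.comp_le_of_monotoneOn γ (fun u : I => s + (u : ℝ) * (t - s))
      (fun a _ b _ h => by
        have : (a : ℝ) ≤ b := h
        simp only; nlinarith) (fun u _ => hm u)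
  · refine le_iInf₂ fun P hP => ?_
    have hc : Continuous fun u : I => P u 0 := by fun_prop
    have hγP : ∀ u, γ (P u 0) = P u := fun u => by
      obtain ⟨v, -, hv⟩ := hP u
      rw [← hv, h0]
    have key : ∀ v ∈ Icc s t, ∃ a : I, IsLeast {u : I | v ≤ P u 0} a ∧ P a 0 = v := by
      intro v hv
      obtain ⟨a, ha⟩ := (isClosed_le continuous_const hc).isCompact.exists_isLeast
        (s := {u : I | v ≤ P u 0}) ⟨1, by simp [h0, hv.2]⟩
      refine ⟨a, ha, ?_⟩
      obtain ⟨u, hu, hu'⟩ := intermediate_value_Icc (show (0 : I) ≤ a from a.2.1) hc.continuousOn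
        (show v ∈ Icc (P 0 0) (P a 0) from ⟨by simp [h0, hv.1], ha.1⟩)
      have : u = a := le_antisymm hu.2 (ha.2 hu'.ge)
      rw [← this]; exact hu'
    choose! a ha ha' using key
    have e : EqOn γ (P ∘ a) (Icc s t) := fun v hv => by
      rw [Function.comp_apply, ← hγP, ha' v hv]
    rw [eVariationOn.eq_of_eqOn e]
    exact eVariationOn.comp_le_of_monotoneOn P a
      (fun v hv w hw h => (ha v hv).2 (le_trans h (ha w hw).1)) (mapsTo_univ _ _)

theorem var_le (hγ : LipschitzWith K γ) (s t : ℝ) :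
    eVariationOn γ (Icc s t) ≤ K * ENNReal.ofReal (t - s) := by
  have := (hγ.lipschitzOnWith (s := univ)).comp_eVariationOn_le (g := id) (s := Icc s t)
    (mapsTo_univ _ _)
  simpa using this

theorem exists_len (hγ : LipschitzWith K γ) (h0 : ∀ t, γ t 0 = t) : ∃ l : ℝ → ℝ,
    (∀ s ∈ Icc (0 : ℝ) 1, ∀ t ∈ Icc (0 : ℝ) 1,
      dM (γ '' Icc 0 1) (γ s) (γ t) = ENNReal.ofReal |l s - l t| ∧ ‖γ s - γ t‖ ≤ |l s - l t| ∧
        |l s - l t| ≤ K * |s - t|) := by
  have fin : ∀ s t, eVariationOn γ (Icc s t) ≠ ⊤ := fun s t =>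
    ne_top_of_le_ne_top (ENNReal.mul_ne_top ENNReal.coe_ne_top ENNReal.ofReal_ne_top)
      (var_le hγ s t)
  refine ⟨fun t => (eVariationOn γ (Icc 0 t)).toReal, ?_⟩
  have main : ∀ s ∈ Icc (0 : ℝ) 1, ∀ t ∈ Icc (0 : ℝ) 1, s ≤ t →
      dM (γ '' Icc 0 1) (γ s) (γ t) = ENNReal.ofReal
        |(eVariationOn γ (Icc 0 s)).toReal - (eVariationOn γ (Icc 0 t)).toReal| ∧
      ‖γ s - γ t‖ ≤ |(eVariationOn γ (Icc 0 s)).toReal - (eVariationOn γ (Icc 0 t)).toReal| ∧
      |(eVariationOn γ (Icc 0 s)).toReal - (eVariationOn γ (Icc 0 t)).toReal| ≤ K * |s - t| := by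
    intro s hs t ht hst
    have hadd := eVariationOn.Icc_add_Icc γ (s := univ) hs.1 hst (mem_univ _)
    simp only [univ_inter] at hadd
    have e : |(eVariationOn γ (Icc 0 s)).toReal - (eVariationOn γ (Icc 0 t)).toReal| =
        (eVariationOn γ (Icc s t)).toReal := by
      rw [← hadd, ENNReal.toReal_add (fin _ _) (fin _ _), sub_add_cancel_left, abs_neg,
        abs_of_nonneg ENNReal.toReal_nonneg]
    rw [e, ENNReal.ofReal_toReal (fin _ _)]
    refine ⟨dM_eq hγ h0 hs.1 hst ht.2, ?_, ?_⟩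
    · rw [← dist_eq_norm, dist_edist]
      exact ENNReal.toReal_mono (fin _ _)
        (eVariationOn.edist_le γ (left_mem_Icc.2 hst) (right_mem_Icc.2 hst))
    · rw [abs_sub_comm, abs_of_nonneg (sub_nonneg.2 hst)]
      refine ENNReal.toReal_le_of_le_ofReal (by have := sub_nonneg.2 hst; positivity) ?_
      rw [ENNReal.ofReal_mul K.coe_nonneg]
      simpa using var_le hγ s t
  intro s hs t ht
  rcases le_total s t with h | h
  · exact main s hs t ht h
  · have := main t ht s hs h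
    rw [dM_symm, norm_sub_rev, abs_sub_comm, abs_sub_comm s t]
    exact this

theorem abs_le_norm_sub (h0 : ∀ t, γ t 0 = t) (s t : ℝ) : |s - t| ≤ ‖γ s - γ t‖ := by
  have := abs_coord_le (γ s - γ t) 0
  rwa [PiLp.sub_apply, h0, h0] at this

theorem geodesic (hγ : LipschitzWith K γ) (h0 : ∀ t, γ t 0 = t) : IsGeodesic (γ '' Icc 0 1) := by
  obtain ⟨l, hl⟩ := exists_len hγ h0
  have hinj : ∀ s ∈ Icc (0 : ℝ) 1, ∀ t ∈ Icc (0 : ℝ) 1, l s = l t → γ s = γ t := by
    intro s hs t ht h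
    have := (hl s hs t ht).2.1
    rw [h, sub_self, abs_zero] at this
    exact sub_eq_zero.1 (norm_le_zero_iff.1 this)
  have hcont : ContinuousOn l (Icc 0 1) :=
    (LipschitzOnWith.of_dist_le_mul (K := K) fun s hs t ht => by
      simpa [Real.dist_eq] using (hl s hs t ht).2.2).continuousOn
  rintro _ ⟨s, hs, rfl⟩ _ ⟨t, ht, rfl⟩
  obtain ⟨e, he, he'⟩ : ∃ e : ℝ, |e| = 1 ∧ l t = l s + e * |l s - l t| := by
    rcases le_total (l s) (l t) with h | h
    · exact ⟨1, abs_one, by rw [abs_of_nonpos (by linarith)]; ring⟩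
    · exact ⟨-1, by simp, by rw [abs_of_nonneg (by linarith)]; ring⟩
  have hsub : uIcc s t ⊆ Icc 0 1 := uIcc_subset_Icc hs ht
  have key : ∀ r ∈ Icc 0 |l s - l t|, ∃ u ∈ Icc (0 : ℝ) 1, l u = l s + e * r := by
    intro r hr
    have hmem : l s + e * r ∈ uIcc (l s) (l t) := by
      rcases eq_or_eq_neg_of_abs_eq he with h | h
      · rw [h] at he' ⊢; exact mem_uIcc_of_le (by linarith [hr.1]) (by linarith [hr.2])
      · rw [h] at he' ⊢; exact mem_uIcc_of_ge (by linarith [hr.2]) (by linarith [hr.1])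
    obtain ⟨u, hu, hu'⟩ := intermediate_value_uIcc (hcont.mono hsub) hmem
    exact ⟨u, hsub hu, hu'⟩
  choose! u hu hu' using key
  have m0 : (0 : ℝ) ∈ Icc 0 |l s - l t| := ⟨le_rfl, abs_nonneg _⟩
  have m1 : |l s - l t| ∈ Icc 0 |l s - l t| := ⟨abs_nonneg _, le_rfl⟩
  refine ⟨|l s - l t|, abs_nonneg _, (hl s hs t ht).1, fun r => γ (u r), ?_, ?_,
    fun r hr => ⟨_, hu r hr, rfl⟩, fun r hr r' hr' => ?_⟩
  · exact hinj _ (hu _ m0) _ hs (by rw [hu' _ m0]; ring)
  · exact hinj _ (hu _ m1) _ ht (by rw [hu' _ m1, ← he'])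
  · rw [(hl _ (hu r hr) _ (hu r' hr')).1, hu' r hr, hu' r' hr']
    congr 1
    rw [show l s + e * r - (l s + e * r') = e * (r - r') by ring, abs_mul, he, one_mul]

theorem homotopic (hγ : LipschitzWith K γ) (h0 : ∀ t, γ t 0 = t) {X : Type} [TopologicalSpace X]
    (f g : C(X, γ '' Icc 0 1)) : f.Homotopic g := by
  have hm : ∀ p : γ '' Icc 0 1, (p : E 3) 0 ∈ Icc (0 : ℝ) 1 ∧ γ ((p : E 3) 0) = p := by
    rintro ⟨_, v, hv, rfl⟩
    simp only [h0, and_true]; exact hv
  refine ⟨⟨⟨fun z => ⟨γ ((1 - (z.1 : ℝ)) * (f z.2 : E 3) 0 + z.1 * (g z.2 : E 3) 0), _, ?_, rfl⟩,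
    ?_⟩, fun x => ?_, fun x => ?_⟩⟩
  · have h1 := (hm (f z.2)).1
    have h2 := (hm (g z.2)).1
    have h3 := z.1.2
    constructor
    · nlinarith [mul_nonneg (sub_nonneg.2 h3.2) h1.1, mul_nonneg h3.1 h2.1]
    · nlinarith [mul_nonneg (sub_nonneg.2 h3.2) (sub_nonneg.2 h1.2),
        mul_nonneg h3.1 (sub_nonneg.2 h2.2)]
  · exact Continuous.subtype_mk (hγ.continuous.comp (by fun_prop)) _
  · apply Subtype.ext; simpa using (hm (f x)).2
  · apply Subtype.ext; simpa using (hm (g x)).2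

theorem contractible (hγ : LipschitzWith K γ) (h0 : ∀ t, γ t 0 = t) :
    ContractibleSpace (γ '' Icc 0 1) :=
  (contractible_iff_id_nullhomotopic _).2 ⟨⟨γ 0, 0, by simp, rfl⟩, homotopic hγ h0 _ _⟩

theorem admissible (hγ : LipschitzWith K γ) (h0 : ∀ t, γ t 0 = t) : Admissible (γ '' Icc 0 1) := by
  have hK : (0 : ℝ) ≤ K := K.2
  refine ⟨isCompact_Icc.image hγ.continuous,
    (isConnected_Icc zero_le_one).image _ hγ.continuous.continuousOn, geodesic hγ h0,
    ⟨1, one_pos, fun X _ f g _ => homotopic hγ h0 f g⟩, ⟨1, one_pos, K + 2, by linarith, ?_⟩,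
    univ, univ_mem, fun x => γ (projIcc (0 : ℝ) 1 zero_le_one (x 0)), ?_,
    fun x _ => ⟨_, (projIcc (0 : ℝ) 1 zero_le_one (x 0)).2, rfl⟩, ?_,
    fun r => (2 * K + 3) * r, fun r hr _ => ⟨by positivity, fun x hx => ?_⟩, ?_⟩
  · obtain ⟨l, hl⟩ := exists_len hγ h0
    rintro _ ⟨s, hs, rfl⟩ _ ⟨t, ht, rfl⟩ -
    obtain ⟨h1, h2, h3⟩ := hl s hs t ht
    rw [h1]
    have := abs_le_norm_sub h0 s t
    exact ⟨ENNReal.ofReal_le_ofReal h2, ENNReal.ofReal_le_ofReal
      (by nlinarith [norm_nonneg (γ s - γ t)])⟩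
  · exact (hγ.continuous.comp (continuous_subtype_val.comp
      (continuous_projIcc.comp (by fun_prop)))).continuousOn
  · rintro _ ⟨s, hs, rfl⟩
    simp only [h0, projIcc_of_mem _ hs]
  · obtain ⟨_, ⟨s, hs, rfl⟩, hd⟩ := (Metric.infDist_lt_iff (x := x) (s := γ '' Icc 0 1)
      (r := 2 * r) ⟨γ 0, 0, by simp, rfl⟩).1 (lt_of_le_of_lt hx (by linarith))
    rw [dist_eq_norm] at hd
    have h1 : |x 0 - s| ≤ ‖x - γ s‖ := by
      have := abs_coord_le (x - γ s) 0
      rwa [PiLp.sub_apply, h0] at this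
    have h2 : |(projIcc (0 : ℝ) 1 zero_le_one (x 0) : ℝ) - s| ≤ |x 0 - s| := by
      have := abs_projIcc_sub_projIcc (h := zero_le_one) (c := x 0) (d := s)
      rwa [projIcc_of_mem _ hs] at this
    have h3 := hγ.dist_le_mul (projIcc (0 : ℝ) 1 zero_le_one (x 0)) s
    rw [dist_eq_norm, Real.dist_eq] at h3
    have h4 := norm_sub_le_norm_sub_add_norm_sub (γ (projIcc (0 : ℝ) 1 zero_le_one (x 0))) (γ s) x
    rw [norm_sub_rev (γ s)] at h4
    have h5 : (K : ℝ) * |(projIcc (0 : ℝ) 1 zero_le_one (x 0) : ℝ) - s| ≤ K * (2 * r) :=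
      mul_le_mul_of_nonneg_left (by linarith) hK
    simp only
    nlinarith
  · have : Tendsto (fun r : ℝ => (2 * (K : ℝ) + 3) * r) (𝓝 0) (𝓝 ((2 * K + 3) * 0)) :=
      (continuous_const.mul continuous_id).tendsto 0
    rw [mul_zero] at this
    exact this.mono_left nhdsWithin_le_nhds

theorem exists_log {A : Set (E 3)} [ContractibleSpace A] {g : E 3 → ℂ} (hg : Continuous g)
    (hne : ∀ x ∈ A, g x ≠ 0) : ∃ h : E 3 → ℂ, ContinuousOn h A ∧ ∀ x ∈ A, Complex.exp (h x) = g x := by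
  classical
  let G : C(A, {z : ℂ // z ≠ 0}) :=
    ⟨fun x => ⟨g x, hne x x.2⟩, Continuous.subtype_mk (hg.comp continuous_subtype_val) _⟩
  obtain ⟨y, ⟨H⟩⟩ := (id_nullhomotopic A).comp_right G
  let L := Complex.isCoveringMap_exp.liftHomotopy H.symm.toContinuousMap
    (ContinuousMap.const A (Complex.log y)) (fun a => by
      apply Subtype.ext
      simp [Complex.exp_log y.2])
  have hL := Complex.isCoveringMap_exp.liftHomotopy_lifts H.symm.toContinuousMap
    (ContinuousMap.const A (Complex.log y)) (fun a => by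
      apply Subtype.ext
      simp [Complex.exp_log y.2])
  refine ⟨fun x => if hx : x ∈ A then L (1, ⟨x, hx⟩) else 0, ?_, fun x hx => ?_⟩
  · rw [continuousOn_iff_continuous_domRestrict]
    have : Continuous fun x : A => L (1, x) := by fun_prop
    convert this using 1
    ext x
    simp [Set.domRestrict]
  · have := congrArg Subtype.val (congrFun hL (1, ⟨x, hx⟩))
    simp only [dif_pos hx]
    exact this.trans (congrArg Subtype.val (H.symm.apply_one ⟨x, hx⟩))

theorem edge {A : Set (E 3)} {g h : E 3 → ℂ} (hg : Continuous g) (hh : ContinuousOn h A)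
    (he : ∀ x ∈ A, Complex.exp (h x) = g x) {w : ℂ} {p q : E 3} (hA : segment ℝ p q ⊆ A)
    (hs : ∀ x ∈ segment ℝ p q, w * g x ∈ Complex.slitPlane) :
    h p - Complex.log (w * g p) = h q - Complex.log (w * g q) := by
  have val : ∀ x ∈ segment ℝ p q, Complex.exp (h x - Complex.log (w * g x)) = w⁻¹ := by
    intro x hx
    have h1 := Complex.slitPlane_ne_zero (hs x hx)
    rw [Complex.exp_sub, Complex.exp_log h1, he x (hA hx)]
    have := left_ne_zero_of_mul h1
    have := right_ne_zero_of_mul h1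
    field_simp
  refine Complex.isCoveringMap_exp.constOn_of_comp (convex_segment p q).isPreconnected
    (g := fun x => h x - Complex.log (w * g x))
    ((hh.mono hA).sub ((continuous_const.mul hg).continuousOn.clog hs))
    (fun a ha b hb => Subtype.ext ?_) (left_mem_segment _ _ _) (right_mem_segment _ _ _)
  simp only [val a ha, val b hb]

end Pool.Agent.H3.Shadow
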