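import Pool.Agent.H3.Sh1

open Set Filter Topology
open scoped ENNReal NNReal

namespace Pool.Agent.H3.Shadow

noncomputable def a (n : ℕ) : ℝ := 1 / 4 ^ (n + 1)

theorem a_pos (n : ℕ) : 0 < a n := by unfold a; positivity

theorem a_lt {m n : ℕ} (h : m < n) : 4 * a n ≤ a m := by
  unfold a
  rw [mul_one_div, div_le_div_iff₀ (by positivity) (by positivity), one_mul, ← pow_succ']
  exact pow_le_pow_right₀ (by norm_num) (by omega)

theorem a_le (n : ℕ) : a n ≤ 1 / 4 := by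
  unfold a
  rw [div_le_div_iff₀ (by positivity) (by positivity), one_mul, one_mul]
  exact le_self_pow₀ (by norm_num) (by omega)

noncomputable def T (p w t : ℝ) : ℝ := ⨆ n : ℕ, max 0 (w * a n - |t - p * a n|)

theorem T_bdd {w : ℝ} (hw : 0 ≤ w) (p t : ℝ) :
    BddAbove (range fun n : ℕ => max 0 (w * a n - |t - p * a n|)) := by
  refine ⟨w, ?_⟩
  rintro _ ⟨n, rfl⟩
  refine max_le hw ?_
  nlinarith [abs_nonneg (t - p * a n), a_le n]

theorem T_lip {w : ℝ} (hw : 0 ≤ w) (p s t : ℝ) : |T p w s - T p w t| ≤ |s - t| := by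
  have key : ∀ s t, T p w s ≤ T p w t + |s - t| := by
    intro s t
    refine ciSup_le fun n => ?_
    have h1 : max 0 (w * a n - |t - p * a n|) ≤ T p w t := le_ciSup (T_bdd hw p t) n
    have h2 := abs_sub_le t s (p * a n)
    rw [abs_sub_comm t s] at h2
    have h3 := le_max_left 0 (w * a n - |t - p * a n|)
    have h4 := le_max_right 0 (w * a n - |t - p * a n|)
    exact max_le (by linarith [abs_nonneg (s - t)]) (by linarith)
  have h1 := key s t
  have h2 := key t s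
  rw [abs_sub_comm] at h2
  exact abs_le.2 ⟨by linarith, by linarith⟩

theorem T_zero {p w t : ℝ} (h1 : 1 ≤ p - w) (h2 : p + w ≤ 2) {n : ℕ}
    (ht : t ∉ Icc (a n) (2 * a n)) : max 0 (w * a n - |t - p * a n|) = 0 := by
  apply max_eq_left
  have := a_pos n
  rw [mem_Icc, not_and_or, not_le, not_le] at ht
  rcases ht with h | h
  · nlinarith [neg_abs_le (t - p * a n)]
  · nlinarith [le_abs_self (t - p * a n)]

theorem T_eval {p w t : ℝ} (hw : 0 ≤ w) (h1 : 1 ≤ p - w) (h2 : p + w ≤ 2) {m : ℕ}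
    (ht : t ∈ Icc (a m) (2 * a m)) : T p w t = max 0 (w * a m - |t - p * a m|) := by
  refine le_antisymm (ciSup_le fun n => ?_) (le_ciSup (T_bdd hw p t) m)
  rcases lt_trichotomy n m with h | rfl | h
  · rw [T_zero h1 h2 fun hn => by linarith [a_lt h, hn.1, ht.2, a_pos m]]
    exact le_max_left _ _
  · exact le_rfl
  · rw [T_zero h1 h2 fun hn => by linarith [a_lt h, hn.2, ht.1, a_pos n]]
    exact le_max_left _ _

theorem T_out {p w t : ℝ} (h1 : 1 ≤ p - w) (h2 : p + w ≤ 2)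
    (ht : ∀ n, t ∉ Icc (a n) (2 * a n)) : T p w t = 0 := by
  simp only [T, fun n => T_zero h1 h2 (ht n), ciSup_const]

/-- The curve: a Lipschitz graph running once around a small rhombus over each `[a n, 2 a n]`. -/
noncomputable def cur (t : ℝ) : E 3 :=
  !₂[t, 32 * T (3 / 2) (1 / 2) t, 32 * (T (7 / 4) (1 / 4) t - T (5 / 4) (1 / 4) t)]

theorem cur0 (t : ℝ) : cur t 0 = t := by simp [cur]
theorem cur1 (t : ℝ) : cur t 1 = 32 * T (3 / 2) (1 / 2) t := by simp [cur]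
theorem cur2 (t : ℝ) : cur t 2 = 32 * (T (7 / 4) (1 / 4) t - T (5 / 4) (1 / 4) t) := by simp [cur]

theorem norm_le3 (x : E 3) : ‖x‖ ≤ |x 0| + |x 1| + |x 2| := by
  rw [EuclideanSpace.norm_eq, Fin.sum_univ_three]
  refine Real.sqrt_le_iff.2 ⟨by positivity, ?_⟩
  simp only [Real.norm_eq_abs]
  nlinarith [mul_nonneg (abs_nonneg (x 0)) (abs_nonneg (x 1)),
    mul_nonneg (abs_nonneg (x 0)) (abs_nonneg (x 2)),
    mul_nonneg (abs_nonneg (x 1)) (abs_nonneg (x 2))]

theorem cur_dist (s t : ℝ) : ‖cur s - cur t‖ ≤ 100 * |s - t| := by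
  refine (norm_le3 _).trans ?_
  simp only [PiLp.sub_apply, cur0, cur1, cur2]
  have h1 := abs_le.1 (T_lip (w := 1 / 2) (by norm_num) (3 / 2) s t)
  have h2 := abs_le.1 (T_lip (w := 1 / 4) (by norm_num) (7 / 4) s t)
  have h3 := abs_le.1 (T_lip (w := 1 / 4) (by norm_num) (5 / 4) s t)
  have h4 : |32 * T (3 / 2) (1 / 2) s - 32 * T (3 / 2) (1 / 2) t| ≤ 32 * |s - t| :=
    abs_le.2 ⟨by linarith, by linarith⟩
  have h5 : |32 * (T (7 / 4) (1 / 4) s - T (5 / 4) (1 / 4) s) -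
      32 * (T (7 / 4) (1 / 4) t - T (5 / 4) (1 / 4) t)| ≤ 64 * |s - t| :=
    abs_le.2 ⟨by linarith, by linarith⟩
  linarith [abs_nonneg (s - t)]

theorem cur_lip : LipschitzWith 100 cur :=
  LipschitzWith.of_dist_le_mul fun s t => by
    simpa [dist_eq_norm, Real.dist_eq] using cur_dist s t

theorem cur_in {m : ℕ} {t : ℝ} (ht : t ∈ Icc (a m) (2 * a m)) :
    cur t 1 = 16 * a m - 32 * |t - 3 / 2 * a m| ∧
    cur t 2 = 32 * (max 0 (1 / 4 * a m - |t - 7 / 4 * a m|) -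
      max 0 (1 / 4 * a m - |t - 5 / 4 * a m|)) := by
  rw [cur1, cur2, T_eval (by norm_num) (by norm_num) (by norm_num) ht,
    T_eval (by norm_num) (by norm_num) (by norm_num) ht,
    T_eval (by norm_num) (by norm_num) (by norm_num) ht]
  refine ⟨?_, rfl⟩
  rw [max_eq_right]
  · ring
  · have : |t - 3 / 2 * a m| ≤ 1 / 2 * a m := abs_le.2 ⟨by linarith [ht.1], by linarith [ht.2]⟩
    linarith

theorem cur_rhomb (t : ℝ) : ∃ m, |cur t 1 - 8 * a m| + |cur t 2| = 8 * a m := by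
  by_cases h : ∃ m, t ∈ Icc (a m) (2 * a m)
  · obtain ⟨m, hm⟩ := h
    refine ⟨m, ?_⟩
    rw [(cur_in hm).1, (cur_in hm).2]
    have h1 := hm.1
    have h2 := hm.2
    have := a_pos m
    grind
  · push Not at h
    refine ⟨0, ?_⟩
    rw [cur1, cur2, T_out (by norm_num) (by norm_num) h, T_out (by norm_num) (by norm_num) h,
      T_out (by norm_num) (by norm_num) h]
    have := a_pos 0
    grind

theorem cur_far (n : ℕ) (t : ℝ) : 4 * a n ≤ |cur t 1 - 8 * a n| + |cur t 2| := by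
  obtain ⟨m, hm⟩ := cur_rhomb t
  have h1 := a_pos m
  have h2 := a_pos n
  rcases lt_trichotomy n m with h | rfl | h
  · linarith [a_lt h, le_abs_self (cur t 1 - 8 * a m), neg_abs_le (cur t 1 - 8 * a n),
      abs_nonneg (cur t 2)]
  · linarith
  · have h3 := abs_sub_le (cur t 1) (8 * a n) (8 * a m)
    rw [abs_of_nonpos (show 8 * a n - 8 * a m ≤ 0 by linarith [a_lt h])] at h3
    linarith

theorem cur_val (n : ℕ) :
    (cur (((4 : ℕ) : ℝ) / 4 * a n) 1 = 0 ∧ cur (((4 : ℕ) : ℝ) / 4 * a n) 2 = 0) ∧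
    (cur (((8 : ℕ) : ℝ) / 4 * a n) 1 = 0 ∧ cur (((8 : ℕ) : ℝ) / 4 * a n) 2 = 0) ∧
    (cur (((5 : ℕ) : ℝ) / 4 * a n) 1 = 8 * a n ∧ cur (((5 : ℕ) : ℝ) / 4 * a n) 2 = -(8 * a n)) ∧
    (cur (((7 : ℕ) : ℝ) / 4 * a n) 1 = 8 * a n ∧ cur (((7 : ℕ) : ℝ) / 4 * a n) 2 = 8 * a n) := by
  have ha := a_pos n
  push_cast
  have h4 := cur_in (show (4 : ℝ) / 4 * a n ∈ Icc (a n) (2 * a n) from ⟨by linarith, by linarith⟩)
  have h8 := cur_in (show (8 : ℝ) / 4 * a n ∈ Icc (a n) (2 * a n) from ⟨by linarith, by linarith⟩)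
  have h5 := cur_in (show (5 : ℝ) / 4 * a n ∈ Icc (a n) (2 * a n) from ⟨by linarith, by linarith⟩)
  have h7 := cur_in (show (7 : ℝ) / 4 * a n ∈ Icc (a n) (2 * a n) from ⟨by linarith, by linarith⟩)
  rw [h4.1, h4.2, h8.1, h8.2, h5.1, h5.2, h7.1, h7.2]
  clear h4 h8 h5 h7
  generalize a n = x at *
  refine ⟨⟨?_, ?_⟩, ⟨?_, ?_⟩, ⟨?_, ?_⟩, ?_, ?_⟩ <;> grind

theorem seg_sub {β : ℝ} {S : Finset (E 3)} {p q : E 3} (hp : p ∈ S) (hq : q ∈ S)
    (h : ‖p - q‖ < β) : segment ℝ p q ⊆ shadow β S := by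
  classical
  intro x hx
  simp only [shadow, mem_iUnion]
  refine ⟨{p, q}, ⟨?_, by simp, ?_⟩, ?_⟩
  · intro y hy
    rcases Finset.mem_insert.1 hy with rfl | hy
    · exact hp
    · rw [Finset.mem_singleton.1 hy]; exact hq
  · rw [Finset.coe_pair, Metric.diam_pair, dist_eq_norm]; exact h
  · rw [Finset.coe_pair, convexHull_pair]; exact hx

theorem near {β : ℝ} {S : Finset (E 3)} {x : E 3} (hx : x ∈ shadow β S) :
    ∃ p ∈ S, ‖x - p‖ < β := by
  simp only [shadow, mem_iUnion] at hx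
  obtain ⟨s, ⟨hs, ⟨p, hp⟩, hd⟩, hx⟩ := hx
  refine ⟨p, hs hp, lt_of_le_of_lt ?_ hd⟩
  rw [← dist_eq_norm]
  exact convexHull_min (fun y hy => Metric.dist_le_diam_of_mem s.finite_toSet.isBounded hy hp)
    (convex_closedBall p _) hx

theorem seg_le {p q x : E 3} {c : ℝ} (hx : x ∈ segment ℝ p q) (e : ℝ) (hp : 0 ≤ e * (p 1 - c))
    (hq : 0 ≤ e * (q 1 - c)) : 0 ≤ e * (x 1 - c) := by
  obtain ⟨u, v, hu, hv, huv, rfl⟩ := hx
  have : e * ((u • p + v • q) 1 - c) = u * (e * (p 1 - c)) + v * (e * (q 1 - c)) := by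
    simp only [PiLp.add_apply, PiLp.smul_apply, smul_eq_mul]
    linear_combination (e * c) * huv
  rw [this]; positivity

theorem chain {F : ℕ → ℂ} {i j : ℕ} (hij : i ≤ j) (h : ∀ k, i ≤ k → k < j → F k = F (k + 1)) :
    F i = F j := by
  induction j, hij using Nat.le_induction with
  | base => rfl
  | succ j hj ih => exact (ih fun k h1 h2 => h k h1 (by omega)).trans (h j hj (by omega))

open Classical in
noncomputable def sample (J : ℕ) : Finset (E 3) :=
  (Finset.range (J + 1)).image fun k : ℕ => cur (k / J)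

theorem mem_sample {J k : ℕ} (h : k ≤ J) : cur (k / J) ∈ sample J :=
  Finset.mem_image.2 ⟨k, Finset.mem_range.2 (by omega), rfl⟩

theorem haus {J : ℕ} (hJ : 0 < J) :
    Metric.hausdorffEDist (sample J : Set (E 3)) (cur '' Icc 0 1) ≤ ENNReal.ofReal (100 / J) := by
  have hJ' : (0 : ℝ) < J := by exact_mod_cast hJ
  refine Metric.hausdorffEDist_le_of_mem_edist ?_ ?_
  · intro x hx
    obtain ⟨k, hk, rfl⟩ := Finset.mem_image.1 hx
    have hk' : (k : ℝ) ≤ J := by exact_mod_cast Nat.lt_succ_iff.1 (Finset.mem_range.1 hk)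
    exact ⟨_, ⟨k / J, ⟨by positivity, (div_le_one hJ').2 hk'⟩, rfl⟩, by simp⟩
  · rintro _ ⟨t, ht, rfl⟩
    have h0 : 0 ≤ t * J := mul_nonneg ht.1 hJ'.le
    have h1 := Nat.floor_le h0
    have h2 := Nat.lt_floor_add_one (t * J)
    have h3 : ⌊t * J⌋₊ ≤ J := by
      have : (⌊t * J⌋₊ : ℝ) ≤ J := by nlinarith [ht.2]
      exact_mod_cast this
    refine ⟨_, mem_sample h3, ?_⟩
    rw [edist_dist, dist_eq_norm]
    refine ENNReal.ofReal_le_ofReal ((cur_dist _ _).trans ?_)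
    have : |t - (⌊t * J⌋₊ : ℝ) / J| ≤ 1 / J := by
      rw [show t - (⌊t * J⌋₊ : ℝ) / J = (t * J - ⌊t * J⌋₊) / J by field_simp, abs_div,
        abs_of_pos hJ', abs_of_nonneg (by linarith)]
      exact div_le_div_of_nonneg_right (by linarith) hJ'.le
    calc _ ≤ 100 * (1 / (J : ℝ)) := by linarith
      _ = _ := by ring

theorem not_contr (n m : ℕ) (hm : 13 ≤ m) :
    ¬ ContractibleSpace (shadow (2 * a n) (sample (4 ^ (n + 1) * (4 * m)))) := by
  intro hc
  set J := 4 ^ (n + 1) * (4 * m) with hJ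
  have ha := a_pos n
  have hm' : (13 : ℝ) ≤ m := by exact_mod_cast hm
  have hdiv : ∀ k : ℕ, (k : ℝ) / J = k * a n / (4 * m) := by
    intro k; rw [hJ, a]; push_cast; field_simp
  have hJ8 : 8 * m ≤ J := by
    have : 4 ≤ 4 ^ (n + 1) := Nat.le_self_pow (by omega) 4
    rw [hJ]; nlinarith
  let g : E 3 → ℂ := fun x => ((x 1 - 8 * a n : ℝ) : ℂ) + (x 2 : ℂ) * Complex.I
  have hg : Continuous g := by fun_prop
  have hne : ∀ x ∈ shadow (2 * a n) (sample J), g x ≠ 0 := by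
    intro x hx h0
    have h1 : x 1 - 8 * a n = 0 := by simpa [g] using congrArg Complex.re h0
    have h2 : x 2 = 0 := by simpa [g] using congrArg Complex.im h0
    obtain ⟨p, hp, hd⟩ := near hx
    obtain ⟨k, -, rfl⟩ := Finset.mem_image.1 hp
    have e1 := abs_coord_le (x - cur (k / J)) 1
    have e2 := abs_coord_le (x - cur (k / J)) 2
    rw [PiLp.sub_apply] at e1 e2
    have := cur_far n (k / J)
    rw [show x 1 = 8 * a n by linarith, abs_sub_comm] at e1
    rw [h2, zero_sub, abs_neg] at e2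
    linarith
  obtain ⟨h, hh, he⟩ := exists_log hg hne
  have E1 : ∀ (e : ℝ), e ≠ 0 → ∀ k l : ℕ, k ≤ J → l ≤ J →
      ‖cur (k / J) - cur (l / J)‖ < 2 * a n → 0 ≤ e * (cur (k / J) 1 - 8 * a n) →
      0 ≤ e * (cur (l / J) 1 - 8 * a n) →
      h (cur (k / J)) - Complex.log (e * g (cur (k / J))) =
        h (cur (l / J)) - Complex.log (e * g (cur (l / J))) := by
    intro e he0 k l hk hl hd h1 h2
    have hsub := seg_sub (mem_sample hk) (mem_sample hl) hd
    refine edge hg hh he hsub fun x hx => ?_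
    have h3 := seg_le hx e h1 h2
    have h4 : (e : ℂ) * g x ≠ 0 := mul_ne_zero (by exact_mod_cast he0) (hne x (hsub hx))
    have h5 : ((e : ℂ) * g x).re = e * (x 1 - 8 * a n) := by simp [g]
    rw [Complex.mem_slitPlane_iff]
    by_contra hcon
    push Not at hcon
    exact h4 (Complex.ext (by rw [Complex.zero_re]; linarith [hcon.1]) hcon.2)
  have hstep : ∀ k : ℕ, ‖cur (k / J) - cur ((k + 1 : ℕ) / J)‖ < 2 * a n := by
    intro k
    refine (cur_dist _ _).trans_lt ?_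
    rw [hdiv, hdiv, show (k : ℝ) * a n / (4 * m) - ((k + 1 : ℕ) : ℝ) * a n / (4 * m) =
      -(a n / (4 * m)) by push_cast; ring, abs_neg, abs_of_pos (by positivity), ← mul_div_assoc,
      div_lt_iff₀ (by positivity)]
    nlinarith
  have hlow : ∀ (c k : ℕ), c * m ≤ k → (c : ℝ) / 4 * a n ≤ (k : ℝ) / J := by
    intro c k hk
    have : (c : ℝ) * m ≤ k := by exact_mod_cast hk
    rw [hdiv, le_div_iff₀ (by positivity)]; nlinarith
  have hup : ∀ (c k : ℕ), k ≤ c * m → (k : ℝ) / J ≤ (c : ℝ) / 4 * a n := by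
    intro c k hk
    have : (k : ℝ) ≤ c * m := by exact_mod_cast hk
    rw [hdiv, div_le_iff₀ (by positivity)]; nlinarith
  have hin : ∀ k : ℕ, 4 * m ≤ k → k ≤ 8 * m → (k : ℝ) / J ∈ Icc (a n) (2 * a n) := by
    intro k h1 h2
    have := hlow 4 k h1
    have := hup 8 k h2
    constructor <;> push_cast at * <;> linarith
  have s1 : ∀ k : ℕ, 5 * m ≤ k → k ≤ 7 * m → 0 ≤ (1 : ℝ) * (cur (k / J) 1 - 8 * a n) := by
    intro k h1 h2
    rw [(cur_in (hin k (by omega) (by omega))).1]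
    have := hlow 5 k h1
    have := hup 7 k h2
    push_cast at *
    grind
  have s2 : ∀ k : ℕ, 4 * m ≤ k → k ≤ 8 * m → (k ≤ 5 * m ∨ 7 * m ≤ k) →
      0 ≤ (-1 : ℝ) * (cur (k / J) 1 - 8 * a n) := by
    intro k h1 h2 h3
    rw [(cur_in (hin k h1 h2)).1]
    rcases h3 with h3 | h3
    · have := hup 5 k h3
      push_cast at *
      grind
    · have := hlow 7 k h3
      push_cast at *
      grind
  have val : ∀ c : ℕ, ((c * m : ℕ) : ℝ) / J = c / 4 * a n := fun c =>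
    le_antisymm (hup c _ le_rfl) (hlow c _ le_rfl)
  have c1 := chain (F := fun k => h (cur (k / J)) - Complex.log ((1 : ℝ) * g (cur (k / J))))
    (show 5 * m ≤ 7 * m by omega) fun k h1 h2 => E1 1 one_ne_zero k (k + 1) (by omega) (by omega)
      (hstep k) (s1 k h1 (by omega)) (s1 (k + 1) (by omega) (by omega))
  have c2 := chain (F := fun k => h (cur (k / J)) - Complex.log ((-1 : ℝ) * g (cur (k / J))))
    (show 4 * m ≤ 5 * m by omega) fun k h1 h2 => E1 (-1) (by norm_num) k (k + 1) (by omega)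
      (by omega) (hstep k) (s2 k h1 (by omega) (by omega))
      (s2 (k + 1) (by omega) (by omega) (by omega))
  have c3 := chain (F := fun k => h (cur (k / J)) - Complex.log ((-1 : ℝ) * g (cur (k / J))))
    (show 7 * m ≤ 8 * m by omega) fun k h1 h2 => E1 (-1) (by norm_num) k (k + 1) (by omega)
      (by omega) (hstep k) (s2 k (by omega) (by omega) (by omega))
      (s2 (k + 1) (by omega) (by omega) (by omega))
  have c4 := E1 (-1) (by norm_num) (4 * m) (8 * m) (by omega) hJ8 (by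
    refine (norm_le3 _).trans_lt ?_
    have e1 : cur ((4 * m : ℕ) / J) 1 = 0 := by
      rw [val]; exact (cur_val n).1.1
    have e2 : cur ((4 * m : ℕ) / J) 2 = 0 := by
      rw [val]; exact (cur_val n).1.2
    have e3 : cur ((8 * m : ℕ) / J) 1 = 0 := by
      rw [val]; exact (cur_val n).2.1.1
    have e4 : cur ((8 * m : ℕ) / J) 2 = 0 := by
      rw [val]; exact (cur_val n).2.1.2
    simp only [PiLp.sub_apply, cur0, e1, e2, e3, e4, sub_self, abs_zero, add_zero]
    rw [val, val, abs_of_nonpos (by push_cast; linarith)]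
    push_cast
    linarith) (s2 _ le_rfl (by omega) (by omega)) (s2 _ (by omega) le_rfl (by omega))
  have g5 : g (cur ((5 * m : ℕ) / J)) = -((8 * a n : ℝ) * Complex.I) := by
    have h1 : cur ((5 * m : ℕ) / J) 1 = 8 * a n := by
      rw [val]; exact (cur_val n).2.2.1.1
    have h2 : cur ((5 * m : ℕ) / J) 2 = -(8 * a n) := by
      rw [val]; exact (cur_val n).2.2.1.2
    simp only [g, h1, h2]; push_cast; ring
  have g7 : g (cur ((7 * m : ℕ) / J)) = (8 * a n : ℝ) * Complex.I := by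
    have h1 : cur ((7 * m : ℕ) / J) 1 = 8 * a n := by
      rw [val]; exact (cur_val n).2.2.2.1
    have h2 : cur ((7 * m : ℕ) / J) 2 = 8 * a n := by
      rw [val]; exact (cur_val n).2.2.2.2
    simp only [g, h1, h2]; push_cast; ring
  have c5 := c2.symm.trans (c4.trans c3.symm)
  simp only [g5, g7, Complex.ofReal_one, Complex.ofReal_neg, one_mul, neg_mul, neg_neg] at c1 c5
  have hz : ((8 * a n : ℝ) : ℂ) * Complex.I ≠ 0 :=
    mul_ne_zero (by exact_mod_cast (by positivity : 8 * a n ≠ 0)) Complex.I_ne_zero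
  have c6 : Complex.log (((8 * a n : ℝ) : ℂ) * Complex.I) =
      Complex.log (-(((8 * a n : ℝ) : ℂ) * Complex.I)) := by
    linear_combination (1 / 2 : ℂ) * c1 - (1 / 2 : ℂ) * c5
  have c7 := congrArg Complex.exp c6
  rw [Complex.exp_log hz, Complex.exp_log (neg_ne_zero.2 hz)] at c7
  exact hz (by linear_combination (1 / 2 : ℂ) * c7)

theorem main : ∃ M : Set (E 3), Admissible M ∧ ∀ β₀ > (0 : ℝ), ∃ β ∈ Ioo 0 β₀, ∀ η > (0 : ℝ),
    ∃ S : Finset (E 3), Metric.hausdorffEDist (S : Set (E 3)) M < ENNReal.ofReal η ∧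
      IsEmpty (ContinuousMap.HomotopyEquiv (shadow β S) M) := by
  refine ⟨cur '' Icc 0 1, admissible cur_lip cur0, fun β₀ hβ => ?_⟩
  obtain ⟨n, hn⟩ := exists_pow_lt_of_lt_one (half_pos hβ) (show (1 / 4 : ℝ) < 1 by norm_num)
  have hn' : a n ≤ (1 / 4) ^ n := by
    rw [a, one_div_pow]
    exact one_div_le_one_div_of_le (by positivity) (pow_le_pow_right₀ (by norm_num) (by omega))
  refine ⟨2 * a n, ⟨by linarith [a_pos n], by linarith⟩, fun η hη => ?_⟩
  obtain ⟨m, hm⟩ := exists_nat_gt (100 / η)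
  refine ⟨sample (4 ^ (n + 1) * (4 * (m + 13))), (haus (by positivity)).trans_lt ?_, ⟨fun e => ?_⟩⟩
  · rw [ENNReal.ofReal_lt_ofReal_iff hη, div_lt_iff₀ (by positivity)]
    rw [div_lt_iff₀ hη] at hm
    have h1 : m ≤ 4 ^ (n + 1) * (4 * (m + 13)) := by
      have : 1 ≤ 4 ^ (n + 1) := Nat.one_le_pow _ _ (by norm_num)
      nlinarith
    have h2 : (m : ℝ) ≤ ((4 ^ (n + 1) * (4 * (m + 13)) : ℕ) : ℝ) := by exact_mod_cast h1
    nlinarith
  · have := contractible cur_lip cur0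
    exact not_contr n (m + 13) (by omega) e.contractibleSpace

end Pool.Agent.H3.Shadow
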