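import Mathlib

open Set Filter Topology
open scoped ENNReal

namespace Pool.Agent.H3.Shadow

abbrev E (N : ℕ) : Type := EuclideanSpace ℝ (Fin N)

variable {N : ℕ}

/-- The intrinsic metric: the infimum of the Euclidean lengths of paths in `M` from `p` to `q`. -/
noncomputable def dM (M : Set (E N)) (p q : E N) : ℝ≥0∞ :=
  ⨅ (σ : Path p q) (_ : ∀ t, σ t ∈ M), eVariationOn σ univ

/-- `(M, d_M)` is a geodesic space. -/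
def IsGeodesic (M : Set (E N)) : Prop :=
  ∀ p ∈ M, ∀ q ∈ M, ∃ d : ℝ, 0 ≤ d ∧ dM M p q = ENNReal.ofReal d ∧ ∃ c : ℝ → E N,
    c 0 = p ∧ c d = q ∧ MapsTo c (Icc 0 d) M ∧
      ∀ s ∈ Icc 0 d, ∀ t ∈ Icc 0 d, dM M (c s) (c t) = ENNReal.ofReal |s - t|

def M1 (M : Set (E N)) : Prop :=
  ∃ ρ > (0 : ℝ), ∀ (X : Type) [TopologicalSpace X] (f g : C(X, M)),
    (∀ x, dM M (f x) (g x) < ENNReal.ofReal ρ) → f.Homotopic g

def M2 (M : Set (E N)) : Prop :=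
  ∃ δ > (0 : ℝ), ∃ ξ > (1 : ℝ), ∀ p ∈ M, ∀ q ∈ M, ‖p - q‖ < δ →
    ENNReal.ofReal ‖p - q‖ ≤ dM M p q ∧ dM M p q ≤ ENNReal.ofReal (ξ * ‖p - q‖)

/-- `N_r(M)`. -/
def nbhd (M : Set (E N)) (r : ℝ) : Set (E N) := {x | Metric.infDist x M ≤ r}

def M3 (M U : Set (E N)) (π : E N → E N) : Prop :=
  ∃ ε : ℝ → ℝ, (∀ r > 0, nbhd M r ⊆ U → 0 < ε r ∧ ∀ x ∈ nbhd M r, ‖π x - x‖ < ε r) ∧
    Tendsto ε (𝓝[>] 0) (𝓝 0)

/-- All standing assumptions on `M`. -/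
def Admissible (M : Set (E N)) : Prop :=
  IsCompact M ∧ IsConnected M ∧ IsGeodesic M ∧ M1 M ∧ M2 M ∧
    ∃ U ∈ 𝓝ˢ M, ∃ π : E N → E N, ContinuousOn π U ∧ MapsTo π U M ∧ (∀ p ∈ M, π p = p) ∧
      M3 M U π

/-- The shadow of the Euclidean Vietoris-Rips complex of `S` at scale `β`. -/
def shadow (β : ℝ) (S : Finset (E N)) : Set (E N) :=
  ⋃ σ ∈ {σ : Finset (E N) | σ ⊆ S ∧ σ.Nonempty ∧ Metric.diam (σ : Set (E N)) < β},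
    convexHull ℝ (σ : Set (E N))

end Pool.Agent.H3.Shadow
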