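import Mathlib

set_option autoImplicit false

namespace Pool.Agent.H3.Six

abbrev E := EuclideanSpace ℝ (Fin 2)

def K : Set E := {p | 0 ≤ p 1 ∧ 2 * p 0 - p 1 ≤ 4 ∧ p 0 ≤ 3 ∧ 3 * p 1 - p 0 ≤ 6 ∧ 0 ≤ p 0}

noncomputable def T : Fin 6 → E :=
  ![!₂[-1/25, 0], !₂[23/25, -1/5], !₂[7/5, 18/25], !₂[46/25, 41/25], !₂[3/5, 31/25],
    !₂[-7/25, 24/25]]

lemma closed : IsClosed K := by
  unfold K
  simp only [Set.setOf_and]
  refine IsClosed.inter ?_ (IsClosed.inter ?_ (IsClosed.inter ?_ (IsClosed.inter ?_ ?_))) <;>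
    exact isClosed_le (by fun_prop) (by fun_prop)

lemma compact : IsCompact K := by
  refine Metric.isCompact_of_isClosed_isBounded closed ?_
  refine (Metric.isBounded_closedBall (x := (0 : E)) (r := 5)).subset ?_
  rintro p ⟨h1, h2, h3, h4, h5⟩
  rw [mem_closedBall_zero_iff, EuclideanSpace.norm_eq, Real.sqrt_le_iff, Fin.sum_univ_two]
  simp only [Real.norm_eq_abs, sq_abs]
  constructor
  · norm_num
  · nlinarith

lemma convex : Convex ℝ K := by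
  rintro p ⟨h1, h2, h3, h4, h5⟩ q ⟨g1, g2, g3, g4, g5⟩ a b ha hb hab
  simp only [K, Set.mem_setOf_eq, PiLp.add_apply, PiLp.smul_apply, smul_eq_mul]
  refine ⟨?_, ?_, ?_, ?_, ?_⟩ <;> nlinarith

lemma inter : (interior K).Nonempty := by
  have ho : IsOpen {p : E | 0 < p 1 ∧ 2 * p 0 - p 1 < 4 ∧ p 0 < 3 ∧ 3 * p 1 - p 0 < 6 ∧ 0 < p 0} := by
    simp only [Set.setOf_and]
    refine IsOpen.inter ?_ (IsOpen.inter ?_ (IsOpen.inter ?_ (IsOpen.inter ?_ ?_))) <;>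
      exact isOpen_lt (by fun_prop) (by fun_prop)
  refine ⟨!₂[1, 1], interior_maximal ?_ ho ?_⟩
  · rintro p ⟨h1, h2, h3, h4, h5⟩
    exact ⟨h1.le, h2.le, h3.le, h4.le, h5.le⟩
  · simp only [Set.mem_setOf_eq]
    norm_num

lemma mem_copy (t p : E) (h : ¬ (p 1 < t 1 ∨ 4 * (49/100) < 2 * (p 0 - t 0) - (p 1 - t 1) ∨
    3 * (49/100) < p 0 - t 0 ∨ 6 * (49/100) < 3 * (p 1 - t 1) - (p 0 - t 0) ∨ p 0 < t 0)) :
    p ∈ (fun k => t + (49/100 : ℝ) • k) '' K := by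
  push Not at h
  obtain ⟨h1, h2, h3, h4, h5⟩ := h
  refine ⟨(100/49 : ℝ) • (p - t), ?_, ?_⟩
  · simp only [K, Set.mem_setOf_eq, PiLp.sub_apply, PiLp.smul_apply, smul_eq_mul]
    refine ⟨?_, ?_, ?_, ?_, ?_⟩ <;> linarith
  · simp only [smul_smul]
    norm_num

lemma cover : K ⊆ ⋃ i, (fun k => T i + (49/100 : ℝ) • k) '' K := by
  rintro p ⟨h1, h2, h3, h4, h5⟩
  by_contra hc
  simp only [Set.mem_iUnion, not_exists] at hc
  have a0 := not_not.1 (mt (mem_copy _ p) (hc 0))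
  have a1 := not_not.1 (mt (mem_copy _ p) (hc 1))
  have a2 := not_not.1 (mt (mem_copy _ p) (hc 2))
  have a3 := not_not.1 (mt (mem_copy _ p) (hc 3))
  have a4 := not_not.1 (mt (mem_copy _ p) (hc 4))
  have a5 := not_not.1 (mt (mem_copy _ p) (hc 5))
  simp only [T, Matrix.cons_val_zero, Matrix.cons_val_one, Matrix.cons_val] at a0 a1 a2 a3 a4 a5
  rcases a0 with a0 | a0 | a0 | a0 | a0 <;> first | linarith |
  rcases a1 with a1 | a1 | a1 | a1 | a1 <;> first | linarith |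
  rcases a2 with a2 | a2 | a2 | a2 | a2 <;> first | linarith |
  rcases a3 with a3 | a3 | a3 | a3 | a3 <;> first | linarith |
  rcases a4 with a4 | a4 | a4 | a4 | a4 <;> first | linarith |
  rcases a5 with a5 | a5 | a5 | a5 | a5 <;> linarith

end Pool.Agent.H3.Six
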