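import Mathlib

set_option autoImplicit false

namespace Pool.Agent.H3.Skel

open Finset ExteriorAlgebra

abbrev W (d : ℕ) := Fin (d + 1) → ℝ
abbrev E (d : ℕ) := ExteriorAlgebra ℝ (W d)

def hom {d : ℕ} (x : Fin d → ℝ) : W d := Fin.snoc (α := fun _ => ℝ) x 1

section defs
variable {n d : ℕ} (Δ : Finset (Finset (Fin n))) (r : ℕ) (p : Fin n → Fin d → ℝ)

def IsComplex : Prop := ∅ ∈ Δ ∧ (∀ v, {v} ∈ Δ) ∧ ∀ σ ∈ Δ, ∀ τ ⊆ σ, τ ∈ Δ

def FacesIndep : Prop := ∀ σ ∈ Δ, σ.card ≤ r → AffineIndependent ℝ (fun v : σ => p v)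

noncomputable def bar (σ : Finset (Fin n)) : E d :=
  (((List.finRange n).filter (· ∈ σ)).map (fun v => ι ℝ (hom (p v)))).prod

noncomputable def Ch (d k : ℕ) : Submodule ℝ (Finset (Fin n) → E d) :=
  Submodule.pi Set.univ (fun σ => if σ ∈ Δ ∧ σ.card = k ∧ k ≤ r then ⋀[ℝ]^(r - k) (W d) else ⊥)

noncomputable def Null : Submodule ℝ (Finset (Fin n) → E d) :=
  Submodule.pi Set.univ (fun σ => LinearMap.ker (LinearMap.mulRight ℝ (bar p σ)))

noncomputable def D : (Finset (Fin n) → E d) →ₗ[ℝ] (Finset (Fin n) → E d) :=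
  LinearMap.pi (fun τ => ∑ x : Fin n, if x ∈ τ then 0 else
    (LinearMap.mulRight ℝ (ι ℝ (hom (p x)))).comp (LinearMap.proj (insert x τ)))

noncomputable def Z (k : ℕ) : Submodule ℝ (Finset (Fin n) → E d) := Ch Δ r d k ⊓ (Null p).comap (D p)

noncomputable def betti (k : ℕ) : ℕ :=
  Module.finrank ℝ (Z Δ r p k ⧸ ((Ch Δ r d (k + 1)).map (D p) ⊔ Null p).submoduleOf (Z Δ r p k))

lemma D_apply (c : Finset (Fin n) → E d) (τ : Finset (Fin n)) :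
    D p c τ = ∑ x : Fin n, if x ∈ τ then 0 else c (insert x τ) * ι ℝ (hom (p x)) := by
  simp only [D, LinearMap.pi_apply, LinearMap.sum_apply]
  refine sum_congr rfl fun x _ => ?_
  split_ifs <;> simp

lemma mem_Null (c : Finset (Fin n) → E d) : c ∈ Null p ↔ ∀ σ, c σ * bar p σ = 0 := by
  simp [Null, Submodule.mem_pi]

lemma Ch_zero {k : ℕ} {c : Finset (Fin n) → E d} (h : c ∈ Ch Δ r d k) (σ : Finset (Fin n))
    (hσ : ¬ (σ ∈ Δ ∧ σ.card = k)) : c σ = 0 := by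
  have := h σ trivial
  simp only at this
  rw [if_neg (fun a => hσ ⟨a.1, a.2.1⟩)] at this
  exact this

lemma D_zero (hΔ : IsComplex Δ) {k : ℕ} {c : Finset (Fin n) → E d} (h : c ∈ Ch Δ r d (k + 1))
    (τ : Finset (Fin n)) (hτ : ¬ (τ ∈ Δ ∧ τ.card = k)) : D p c τ = 0 := by
  rw [D_apply]
  refine sum_eq_zero fun x _ => ?_
  split_ifs with hx
  · rfl
  · rw [Ch_zero Δ r h, zero_mul]
    rintro ⟨a, b⟩
    rw [card_insert_of_notMem hx] at b
    exact hτ ⟨hΔ.2.2 _ a _ (subset_insert _ _), by omega⟩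

lemma Ch_one {k : ℕ} {c : Finset (Fin n) → E d} (h : c ∈ Ch Δ (k + 1) d k) :
    ∃ w : Finset (Fin n) → W d, (∀ σ, c σ = ι ℝ (w σ)) ∧
      ∀ σ, ¬ (σ ∈ Δ ∧ σ.card = k) → w σ = 0 := by
  have : ∀ σ, ∃ w : W d, c σ = ι ℝ w ∧ (¬ (σ ∈ Δ ∧ σ.card = k) → w = 0) := by
    intro σ
    by_cases hσ : σ ∈ Δ ∧ σ.card = k
    · have := h σ trivial
      simp only at this
      rw [if_pos ⟨hσ.1, hσ.2, by omega⟩, Nat.add_sub_cancel_left, exteriorPower, pow_one] at this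
      obtain ⟨w, hw⟩ := this
      exact ⟨w, hw.symm, fun a => absurd hσ a⟩
    · exact ⟨0, by rw [Ch_zero Δ _ h σ hσ, map_zero], fun _ => rfl⟩
  choose w h1 h2 using this
  exact ⟨w, h1, h2⟩

lemma mem_Ch_one {k : ℕ} (w : Finset (Fin n) → W d) (h : ∀ σ, ¬ (σ ∈ Δ ∧ σ.card = k) → w σ = 0) :
    (fun σ => ι ℝ (w σ)) ∈ Ch Δ (k + 1) d k := by
  intro σ _
  simp only
  split_ifs with hσ
  · rw [Nat.add_sub_cancel_left, exteriorPower, pow_one]; exact ⟨_, rfl⟩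
  · rw [h σ (fun a => hσ ⟨a.1, a.2, by omega⟩), map_zero]; exact Submodule.zero_mem _

lemma Ch_top {k : ℕ} {c : Finset (Fin n) → E d} (h : c ∈ Ch Δ k d k) :
    ∃ t : Finset (Fin n) → ℝ, (∀ σ, c σ = t σ • 1) ∧ ∀ σ, ¬ (σ ∈ Δ ∧ σ.card = k) → t σ = 0 := by
  have : ∀ σ, ∃ t : ℝ, c σ = t • 1 ∧ (¬ (σ ∈ Δ ∧ σ.card = k) → t = 0) := by
    intro σ
    by_cases hσ : σ ∈ Δ ∧ σ.card = k
    · have := h σ trivial
      simp only at this
      rw [if_pos ⟨hσ.1, hσ.2, by omega⟩, Nat.sub_self, exteriorPower, pow_zero] at this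
      obtain ⟨w, hw⟩ := Submodule.mem_one.1 this
      exact ⟨w, by rw [← hw, Algebra.algebraMap_eq_smul_one], fun a => absurd hσ a⟩
    · exact ⟨0, by rw [Ch_zero Δ _ h σ hσ, zero_smul], fun _ => rfl⟩
  choose w h1 h2 using this
  exact ⟨w, h1, h2⟩

lemma mem_Ch_top {k : ℕ} (t : Finset (Fin n) → ℝ) (h : ∀ σ, ¬ (σ ∈ Δ ∧ σ.card = k) → t σ = 0) :
    (fun σ => t σ • (1 : E d)) ∈ Ch Δ k d k := by
  intro σ _
  simp only
  split_ifs with hσ
  · rw [Nat.sub_self, exteriorPower, pow_zero]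
    exact Submodule.mem_one.2 ⟨t σ, Algebra.algebraMap_eq_smul_one _⟩
  · rw [h σ (fun a => hσ ⟨a.1, a.2, by omega⟩), zero_smul]; exact Submodule.zero_mem _

lemma finite_Z (k : ℕ) : Module.Finite ℝ (Z Δ (k + 1) p k) := by
  have : Z Δ (k + 1) p k ≤ LinearMap.range
      ((ι ℝ (M := W d)).compLeft (Finset (Fin n))) := by
    intro c hc
    obtain ⟨w, h1, -⟩ := Ch_one Δ hc.1
    exact ⟨w, funext fun σ => (h1 σ).symm⟩
  exact Submodule.finiteDimensional_of_le this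

lemma indep_of (T : Finset (Fin n)) (h : ∀ w : Fin n → ℝ, (∀ v, v ∉ T → w v = 0) → ∑ v, w v = 0 →
    ∑ v, w v • p v = 0 → ∀ v, w v = 0) (σ : Finset (Fin n)) (hσ : σ ⊆ T) :
    AffineIndependent ℝ (fun v : σ => p v) := by
  classical
  rw [affineIndependent_iff]
  intro s w h1 h2 e he
  let w' : Fin n → ℝ := fun v => ∑ a ∈ s, if (a : Fin n) = v then w a else 0
  have := h w' (fun v hv => sum_eq_zero fun a _ => if_neg (by rintro rfl; exact hv (hσ a.2)))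
    (by simp only [w']; rw [sum_comm]; simpa using h1)
    (by simp only [w', sum_smul]; rw [sum_comm]; simpa [ite_smul] using h2) e
  simpa [w', Subtype.val_inj, he] using this

end defs

noncomputable def phi (d : ℕ) : E d →ₗ[ℝ] ℝ :=
  liftAlternating (Pi.single (M := fun i => W d [⋀^Fin i]→ₗ[ℝ] ℝ) (d + 1) Matrix.detRowAlternating)

lemma phi_multi (d : ℕ) (v : Fin (d + 1) → W d) : phi d (ιMulti ℝ (d + 1) v) = Matrix.det v := by
  rw [phi, liftAlternating_apply_ιMulti, Pi.single_eq_same]; rfl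

def d3 (a0 a1 a2 b0 b1 b2 c0 c1 c2 : ℝ) : ℝ :=
  a0 * b1 * c2 - a0 * b2 * c1 - a1 * b0 * c2 + a1 * b2 * c0 + a2 * b0 * c1 - a2 * b1 * c0

lemma phi2 (u v w : W 2) : phi 2 (ι ℝ u * ι ℝ v * ι ℝ w) =
    d3 (u 0) (u 1) (u 2) (v 0) (v 1) (v 2) (w 0) (w 1) (w 2) := by
  have := phi_multi 2 ![u, v, w]
  rw [ιMulti_apply] at this
  simp only [List.ofFn_succ, List.ofFn_zero, List.prod_cons, List.prod_nil, mul_one,
    Matrix.cons_val_zero, Matrix.cons_val_succ, ← mul_assoc] at this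
  rw [this, Matrix.det_fin_three]; simp [d3]

lemma phi3 (u v w t : W 3) : phi 3 (ι ℝ u * ι ℝ v * ι ℝ w * ι ℝ t) =
    t 3 * d3 (u 0) (u 1) (u 2) (v 0) (v 1) (v 2) (w 0) (w 1) (w 2)
    - t 2 * d3 (u 0) (u 1) (u 3) (v 0) (v 1) (v 3) (w 0) (w 1) (w 3)
    + t 1 * d3 (u 0) (u 2) (u 3) (v 0) (v 2) (v 3) (w 0) (w 2) (w 3)
    - t 0 * d3 (u 1) (u 2) (u 3) (v 1) (v 2) (v 3) (w 1) (w 2) (w 3) := by
  have := phi_multi 3 ![u, v, w, t]
  rw [ιMulti_apply] at this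
  simp only [List.ofFn_succ, List.ofFn_zero, List.prod_cons, List.prod_nil, mul_one,
    Matrix.cons_val_zero, Matrix.cons_val_succ, ← mul_assoc] at this
  rw [this, Matrix.det_succ_row_zero]
  simp [Fin.sum_univ_succ, Matrix.det_fin_three, d3, Fin.succAbove, Matrix.submatrix]
  ring

lemma sw {d : ℕ} (a b : W d) : ι ℝ a * ι ℝ b = -(ι ℝ b * ι ℝ a) :=
  eq_neg_of_add_eq_zero_left (ι_add_mul_swap a b)

lemma sw' {d : ℕ} (x : E d) (a b : W d) : x * ι ℝ a * ι ℝ b = -(x * ι ℝ b * ι ℝ a) := by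
  rw [mul_assoc, sw, mul_neg, mul_assoc]

lemma sq' {d : ℕ} (x : E d) (a : W d) : x * ι ℝ a * ι ℝ a = 0 := by
  rw [mul_assoc, ι_sq_zero, mul_zero]

lemma tri2 (u v w : W 2) : ι ℝ u * ι ℝ v * ι ℝ w =
    d3 (u 0) (u 1) (u 2) (v 0) (v 1) (v 2) (w 0) (w 1) (w 2) •
      (ι ℝ (Pi.single 0 1 : W 2) * ι ℝ (Pi.single 1 1 : W 2) * ι ℝ (Pi.single 2 1 : W 2)) := by
  have h : ∀ x : W 2, ι ℝ x = x 0 • ι ℝ (Pi.single 0 1 : W 2) + x 1 • ι ℝ (Pi.single 1 1 : W 2) +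
      x 2 • ι ℝ (Pi.single 2 1 : W 2) := by
    intro x
    simp only [← map_smul, ← map_add]
    congr 1
    ext i; fin_cases i <;> simp
  rw [h u, h v, h w]
  generalize (Pi.single 0 1 : W 2) = a
  generalize (Pi.single 1 1 : W 2) = b
  generalize (Pi.single 2 1 : W 2) = c
  simp only [mul_add, add_mul, smul_mul_assoc, mul_smul_comm, sw b a, sw c a, sw c b, sw' _ b a,
    sw' _ c a, sw' _ c b, sq', ι_sq_zero, neg_mul, zero_mul, smul_zero, neg_zero, neg_neg, d3]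
  module

lemma span_zero {d : ℕ} (u x y : W d) (α β : ℝ) (h : u = α • x + β • y) :
    ι ℝ u * (ι ℝ x * ι ℝ y) = 0 := by
  rw [h, ← mul_assoc]
  simp only [map_add, map_smul, add_mul, smul_mul_assoc, ι_sq_zero, zero_mul, smul_zero, zero_add,
    sw y x, neg_mul, sq', neg_zero]

end Pool.Agent.H3.Skel
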