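import Pool.Agent.H3.Skel1

set_option autoImplicit false

namespace Pool.Agent.H3.Skel

open Finset ExteriorAlgebra

def Δ0 : Finset (Finset (Fin 8)) :=
  ({0, 1, 4} : Finset (Fin 8)).powerset ∪ ({1, 2, 5} : Finset (Fin 8)).powerset ∪
    ({2, 3, 6} : Finset (Fin 8)).powerset ∪ ({0, 3, 7} : Finset (Fin 8)).powerset

def p0 : Fin 8 → Fin 3 → ℝ :=
  ![![0, 0, 0], ![1, 0, 0], ![1, 1, 1], ![0, 1, 0], ![0, -1, 0], ![2, 0, 0], ![1, 2, 0], ![-1, 1, 0]]

def h3 : Fin 8 → W 3 := ![![0, 0, 0, 1], ![1, 0, 0, 1], ![1, 1, 1, 1], ![0, 1, 0, 1], ![0, -1, 0, 1],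
  ![2, 0, 0, 1], ![1, 2, 0, 1], ![-1, 1, 0, 1]]

def h2 : Fin 8 → W 2 := ![![0, 0, 1], ![1, 0, 1], ![1, 1, 1], ![0, 1, 1], ![0, -1, 1],
  ![2, 0, 1], ![1, 2, 1], ![-1, 1, 1]]

def q0 : Fin 8 → Fin 2 → ℝ := fun v => Fin.init (p0 v)

lemma hom3 (v : Fin 8) : hom (p0 v) = h3 v := by
  ext i; fin_cases v <;> fin_cases i <;> rfl

lemma hom2 (v : Fin 8) : hom (q0 v) = h2 v := by
  ext i; fin_cases v <;> fin_cases i <;> rfl

lemma mem0 (σ : Finset (Fin 8)) : σ ∈ Δ0 ↔
    σ ⊆ {0, 1, 4} ∨ σ ⊆ {1, 2, 5} ∨ σ ⊆ {2, 3, 6} ∨ σ ⊆ {0, 3, 7} := by simp [Δ0, or_assoc]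

lemma cx : IsComplex Δ0 := by
  refine ⟨by simp [mem0], by decide, fun σ h τ hτ => ?_⟩
  rw [mem0] at h ⊢
  rcases h with h | h | h | h <;> have := hτ.trans h <;> tauto

lemma pure0 : ∀ σ ∈ Δ0, ∃ τ ∈ Δ0, σ ⊆ τ ∧ τ.card = 3 := by
  intro σ h
  rw [mem0] at h
  rcases h with h | h | h | h <;> exact ⟨_, by decide, h, by decide⟩

lemma ind_p : FacesIndep Δ0 3 p0 := by
  intro σ h _
  rw [mem0] at h
  rcases h with h | h | h | h <;> refine indep_of _ _ (fun w a b c v => ?_) σ h <;>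
  · have c0 := congrFun c 0
    have c1 := congrFun c 1
    simp only [Fin.sum_univ_eight] at b c0 c1
    simp (config := {decide := true}) [p0, a] at b c0 c1
    fin_cases v <;> first | exact a _ (by decide) | (simp; linarith)

lemma ind_q : FacesIndep Δ0 3 q0 := by
  intro σ h _
  rw [mem0] at h
  rcases h with h | h | h | h <;> refine indep_of _ _ (fun w a b c v => ?_) σ h <;>
  · have c0 := congrFun c 0
    have c1 := congrFun c 1
    simp only [Fin.sum_univ_eight] at b c0 c1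
    simp (config := {decide := true}) [q0, p0, a, Fin.init] at b c0 c1
    fin_cases v <;> first | exact a _ (by decide) | (simp; linarith)

lemma edges : ∀ σ ∈ Δ0, σ.card = 2 → σ = {0, 1} ∨ σ = {0, 4} ∨ σ = {1, 4} ∨ σ = {1, 2} ∨ σ = {1, 5} ∨
    σ = {2, 5} ∨ σ = {2, 3} ∨ σ = {2, 6} ∨ σ = {3, 6} ∨ σ = {0, 3} ∨ σ = {0, 7} ∨ σ = {3, 7} := by
  decide +kernel

lemma bar1 {d : ℕ} (p : Fin 8 → Fin d → ℝ) (v : Fin 8) : bar p {v} = ι ℝ (hom (p v)) := by
  have : (List.finRange 8).filter (· ∈ ({v} : Finset (Fin 8))) = [v] := by revert v; decide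
  unfold bar; rw [this]; simp

lemma bar2 {d : ℕ} (p : Fin 8 → Fin d → ℝ) (x y : Fin 8) (h : x < y) :
    bar p {x, y} = ι ℝ (hom (p x)) * ι ℝ (hom (p y)) := by
  have : (List.finRange 8).filter (· ∈ ({x, y} : Finset (Fin 8))) = [x, y] := by
    revert x y; decide +kernel
  unfold bar; rw [this]; simp

noncomputable def om : E 2 :=
  ι ℝ (Pi.single 0 1 : W 2) * ι ℝ (Pi.single 1 1 : W 2) * ι ℝ (Pi.single 2 1 : W 2)

lemma tri2' (u v w : W 2) : ι ℝ u * ι ℝ v * ι ℝ w =
    d3 (u 0) (u 1) (u 2) (v 0) (v 1) (v 2) (w 0) (w 1) (w 2) • om := tri2 u v w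

lemma Dv0 {d r : ℕ} (p : Fin 8 → Fin d → ℝ) {c : Finset (Fin 8) → E d} (h : c ∈ Ch Δ0 r d 2) :
    D p c {0} = c {0, 1} * ι ℝ (hom (p 1)) + c {0, 3} * ι ℝ (hom (p 3)) + c {0, 4} * ι ℝ (hom (p 4)) + c {0, 7} * ι ℝ (hom (p 7)) := by
  rw [D_apply, Fin.sum_univ_eight]
  simp (config := {decide := true}) only [if_true, if_false, Ch_zero Δ0 r h, zero_mul, add_zero,
    zero_add, pair_comm (1 : Fin 8) 0, pair_comm (3 : Fin 8) 0, pair_comm (4 : Fin 8) 0, pair_comm (7 : Fin 8) 0]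

lemma Dv1 {d r : ℕ} (p : Fin 8 → Fin d → ℝ) {c : Finset (Fin 8) → E d} (h : c ∈ Ch Δ0 r d 2) :
    D p c {1} = c {0, 1} * ι ℝ (hom (p 0)) + c {1, 2} * ι ℝ (hom (p 2)) + c {1, 4} * ι ℝ (hom (p 4)) + c {1, 5} * ι ℝ (hom (p 5)) := by
  rw [D_apply, Fin.sum_univ_eight]
  simp (config := {decide := true}) only [if_true, if_false, Ch_zero Δ0 r h, zero_mul, add_zero,
    zero_add, pair_comm (2 : Fin 8) 1, pair_comm (4 : Fin 8) 1, pair_comm (5 : Fin 8) 1]

lemma Dv2 {d r : ℕ} (p : Fin 8 → Fin d → ℝ) {c : Finset (Fin 8) → E d} (h : c ∈ Ch Δ0 r d 2) :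
    D p c {2} = c {1, 2} * ι ℝ (hom (p 1)) + c {2, 3} * ι ℝ (hom (p 3)) + c {2, 5} * ι ℝ (hom (p 5)) + c {2, 6} * ι ℝ (hom (p 6)) := by
  rw [D_apply, Fin.sum_univ_eight]
  simp (config := {decide := true}) only [if_true, if_false, Ch_zero Δ0 r h, zero_mul, add_zero,
    zero_add, pair_comm (3 : Fin 8) 2, pair_comm (5 : Fin 8) 2, pair_comm (6 : Fin 8) 2]

lemma Dv3 {d r : ℕ} (p : Fin 8 → Fin d → ℝ) {c : Finset (Fin 8) → E d} (h : c ∈ Ch Δ0 r d 2) :
    D p c {3} = c {0, 3} * ι ℝ (hom (p 0)) + c {2, 3} * ι ℝ (hom (p 2)) + c {3, 6} * ι ℝ (hom (p 6)) + c {3, 7} * ι ℝ (hom (p 7)) := by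
  rw [D_apply, Fin.sum_univ_eight]
  simp (config := {decide := true}) only [if_true, if_false, Ch_zero Δ0 r h, zero_mul, add_zero,
    zero_add, pair_comm (6 : Fin 8) 3, pair_comm (7 : Fin 8) 3]

lemma Dv4 {d r : ℕ} (p : Fin 8 → Fin d → ℝ) {c : Finset (Fin 8) → E d} (h : c ∈ Ch Δ0 r d 2) :
    D p c {4} = c {0, 4} * ι ℝ (hom (p 0)) + c {1, 4} * ι ℝ (hom (p 1)) := by
  rw [D_apply, Fin.sum_univ_eight]
  simp (config := {decide := true}) only [if_true, if_false, Ch_zero Δ0 r h, zero_mul, add_zero,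
    zero_add]

lemma Dv5 {d r : ℕ} (p : Fin 8 → Fin d → ℝ) {c : Finset (Fin 8) → E d} (h : c ∈ Ch Δ0 r d 2) :
    D p c {5} = c {1, 5} * ι ℝ (hom (p 1)) + c {2, 5} * ι ℝ (hom (p 2)) := by
  rw [D_apply, Fin.sum_univ_eight]
  simp (config := {decide := true}) only [if_true, if_false, Ch_zero Δ0 r h, zero_mul, add_zero,
    zero_add]

lemma Dv6 {d r : ℕ} (p : Fin 8 → Fin d → ℝ) {c : Finset (Fin 8) → E d} (h : c ∈ Ch Δ0 r d 2) :
    D p c {6} = c {2, 6} * ι ℝ (hom (p 2)) + c {3, 6} * ι ℝ (hom (p 3)) := by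
  rw [D_apply, Fin.sum_univ_eight]
  simp (config := {decide := true}) only [if_true, if_false, Ch_zero Δ0 r h, zero_mul, add_zero,
    zero_add]

lemma Dv7 {d r : ℕ} (p : Fin 8 → Fin d → ℝ) {c : Finset (Fin 8) → E d} (h : c ∈ Ch Δ0 r d 2) :
    D p c {7} = c {0, 7} * ι ℝ (hom (p 0)) + c {3, 7} * ι ℝ (hom (p 3)) := by
  rw [D_apply, Fin.sum_univ_eight]
  simp (config := {decide := true}) only [if_true, if_false, Ch_zero Δ0 r h, zero_mul, add_zero,
    zero_add]

lemma De01 {d r : ℕ} (p : Fin 8 → Fin d → ℝ) {c : Finset (Fin 8) → E d} (h : c ∈ Ch Δ0 r d 3) :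
    D p c {0, 1} = c {0, 1, 4} * ι ℝ (hom (p 4)) := by
  rw [D_apply, Fin.sum_univ_eight]
  simp (config := {decide := true}) only [if_true, if_false, Ch_zero Δ0 r h, zero_mul, add_zero,
    zero_add, show (insert 4 {0, 1} : Finset (Fin 8)) = {0, 1, 4} by decide]

lemma De04 {d r : ℕ} (p : Fin 8 → Fin d → ℝ) {c : Finset (Fin 8) → E d} (h : c ∈ Ch Δ0 r d 3) :
    D p c {0, 4} = c {0, 1, 4} * ι ℝ (hom (p 1)) := by
  rw [D_apply, Fin.sum_univ_eight]
  simp (config := {decide := true}) only [if_true, if_false, Ch_zero Δ0 r h, zero_mul, add_zero,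
    zero_add, show (insert 1 {0, 4} : Finset (Fin 8)) = {0, 1, 4} by decide]

lemma De14 {d r : ℕ} (p : Fin 8 → Fin d → ℝ) {c : Finset (Fin 8) → E d} (h : c ∈ Ch Δ0 r d 3) :
    D p c {1, 4} = c {0, 1, 4} * ι ℝ (hom (p 0)) := by
  rw [D_apply, Fin.sum_univ_eight]
  simp (config := {decide := true}) only [if_true, if_false, Ch_zero Δ0 r h, zero_mul, add_zero,
    zero_add, show (insert 0 {1, 4} : Finset (Fin 8)) = {0, 1, 4} by decide]

lemma De12 {d r : ℕ} (p : Fin 8 → Fin d → ℝ) {c : Finset (Fin 8) → E d} (h : c ∈ Ch Δ0 r d 3) :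
    D p c {1, 2} = c {1, 2, 5} * ι ℝ (hom (p 5)) := by
  rw [D_apply, Fin.sum_univ_eight]
  simp (config := {decide := true}) only [if_true, if_false, Ch_zero Δ0 r h, zero_mul, add_zero,
    zero_add, show (insert 5 {1, 2} : Finset (Fin 8)) = {1, 2, 5} by decide]

lemma De15 {d r : ℕ} (p : Fin 8 → Fin d → ℝ) {c : Finset (Fin 8) → E d} (h : c ∈ Ch Δ0 r d 3) :
    D p c {1, 5} = c {1, 2, 5} * ι ℝ (hom (p 2)) := by
  rw [D_apply, Fin.sum_univ_eight]
  simp (config := {decide := true}) only [if_true, if_false, Ch_zero Δ0 r h, zero_mul, add_zero,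
    zero_add, show (insert 2 {1, 5} : Finset (Fin 8)) = {1, 2, 5} by decide]

lemma De25 {d r : ℕ} (p : Fin 8 → Fin d → ℝ) {c : Finset (Fin 8) → E d} (h : c ∈ Ch Δ0 r d 3) :
    D p c {2, 5} = c {1, 2, 5} * ι ℝ (hom (p 1)) := by
  rw [D_apply, Fin.sum_univ_eight]
  simp (config := {decide := true}) only [if_true, if_false, Ch_zero Δ0 r h, zero_mul, add_zero,
    zero_add, show (insert 1 {2, 5} : Finset (Fin 8)) = {1, 2, 5} by decide]

lemma De23 {d r : ℕ} (p : Fin 8 → Fin d → ℝ) {c : Finset (Fin 8) → E d} (h : c ∈ Ch Δ0 r d 3) :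
    D p c {2, 3} = c {2, 3, 6} * ι ℝ (hom (p 6)) := by
  rw [D_apply, Fin.sum_univ_eight]
  simp (config := {decide := true}) only [if_true, if_false, Ch_zero Δ0 r h, zero_mul, add_zero,
    zero_add, show (insert 6 {2, 3} : Finset (Fin 8)) = {2, 3, 6} by decide]

lemma De26 {d r : ℕ} (p : Fin 8 → Fin d → ℝ) {c : Finset (Fin 8) → E d} (h : c ∈ Ch Δ0 r d 3) :
    D p c {2, 6} = c {2, 3, 6} * ι ℝ (hom (p 3)) := by
  rw [D_apply, Fin.sum_univ_eight]
  simp (config := {decide := true}) only [if_true, if_false, Ch_zero Δ0 r h, zero_mul, add_zero,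
    zero_add, show (insert 3 {2, 6} : Finset (Fin 8)) = {2, 3, 6} by decide]

lemma De36 {d r : ℕ} (p : Fin 8 → Fin d → ℝ) {c : Finset (Fin 8) → E d} (h : c ∈ Ch Δ0 r d 3) :
    D p c {3, 6} = c {2, 3, 6} * ι ℝ (hom (p 2)) := by
  rw [D_apply, Fin.sum_univ_eight]
  simp (config := {decide := true}) only [if_true, if_false, Ch_zero Δ0 r h, zero_mul, add_zero,
    zero_add, show (insert 2 {3, 6} : Finset (Fin 8)) = {2, 3, 6} by decide]

lemma De03 {d r : ℕ} (p : Fin 8 → Fin d → ℝ) {c : Finset (Fin 8) → E d} (h : c ∈ Ch Δ0 r d 3) :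
    D p c {0, 3} = c {0, 3, 7} * ι ℝ (hom (p 7)) := by
  rw [D_apply, Fin.sum_univ_eight]
  simp (config := {decide := true}) only [if_true, if_false, Ch_zero Δ0 r h, zero_mul, add_zero,
    zero_add, show (insert 7 {0, 3} : Finset (Fin 8)) = {0, 3, 7} by decide]

lemma De07 {d r : ℕ} (p : Fin 8 → Fin d → ℝ) {c : Finset (Fin 8) → E d} (h : c ∈ Ch Δ0 r d 3) :
    D p c {0, 7} = c {0, 3, 7} * ι ℝ (hom (p 3)) := by
  rw [D_apply, Fin.sum_univ_eight]
  simp (config := {decide := true}) only [if_true, if_false, Ch_zero Δ0 r h, zero_mul, add_zero,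
    zero_add, show (insert 3 {0, 7} : Finset (Fin 8)) = {0, 3, 7} by decide]

lemma De37 {d r : ℕ} (p : Fin 8 → Fin d → ℝ) {c : Finset (Fin 8) → E d} (h : c ∈ Ch Δ0 r d 3) :
    D p c {3, 7} = c {0, 3, 7} * ι ℝ (hom (p 0)) := by
  rw [D_apply, Fin.sum_univ_eight]
  simp (config := {decide := true}) only [if_true, if_false, Ch_zero Δ0 r h, zero_mul, add_zero,
    zero_add, show (insert 0 {3, 7} : Finset (Fin 8)) = {0, 3, 7} by decide]

lemma b3 : betti Δ0 3 p0 2 = 0 := by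
  unfold betti
  have : ((Ch Δ0 3 3 (2 + 1)).map (D p0) ⊔ Null p0).submoduleOf (Z Δ0 3 p0 2) = ⊤ := by
    rw [eq_top_iff]
    rintro ⟨c, hc, hn⟩ -
    obtain ⟨w, hw, -⟩ := Ch_one Δ0 (k := 2) hc
    have hn' := (mem_Null p0 _).1 hn
    have key : ∀ (v : Fin 8) (j : Fin 4),
        phi 3 (D p0 c {v} * ι ℝ (h3 v) * ι ℝ (Pi.single j 1 : W 3)) = 0 := by
      intro v j
      have := hn' {v}
      rw [bar1, hom3] at this
      rw [this, zero_mul, map_zero]
    have k00 := key 0 0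
    have k01 := key 0 1
    have k02 := key 0 2
    have k03 := key 0 3
    rw [Dv0 p0 hc] at k00 k01 k02 k03
    simp only [hw, hom3, add_mul, map_add, phi3] at k00 k01 k02 k03
    simp [h3, d3] at k00 k01 k02 k03
    have k10 := key 1 0
    have k11 := key 1 1
    have k12 := key 1 2
    have k13 := key 1 3
    rw [Dv1 p0 hc] at k10 k11 k12 k13
    simp only [hw, hom3, add_mul, map_add, phi3] at k10 k11 k12 k13
    simp [h3, d3] at k10 k11 k12 k13
    have k20 := key 2 0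
    have k21 := key 2 1
    have k22 := key 2 2
    have k23 := key 2 3
    rw [Dv2 p0 hc] at k20 k21 k22 k23
    simp only [hw, hom3, add_mul, map_add, phi3] at k20 k21 k22 k23
    simp [h3, d3] at k20 k21 k22 k23
    have k30 := key 3 0
    have k31 := key 3 1
    have k32 := key 3 2
    have k33 := key 3 3
    rw [Dv3 p0 hc] at k30 k31 k32 k33
    simp only [hw, hom3, add_mul, map_add, phi3] at k30 k31 k32 k33
    simp [h3, d3] at k30 k31 k32 k33
    have k40 := key 4 0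
    have k41 := key 4 1
    have k42 := key 4 2
    have k43 := key 4 3
    rw [Dv4 p0 hc] at k40 k41 k42 k43
    simp only [hw, hom3, add_mul, map_add, phi3] at k40 k41 k42 k43
    simp [h3, d3] at k40 k41 k42 k43
    have k50 := key 5 0
    have k51 := key 5 1
    have k52 := key 5 2
    have k53 := key 5 3
    rw [Dv5 p0 hc] at k50 k51 k52 k53
    simp only [hw, hom3, add_mul, map_add, phi3] at k50 k51 k52 k53
    simp [h3, d3] at k50 k51 k52 k53
    have k60 := key 6 0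
    have k61 := key 6 1
    have k62 := key 6 2
    have k63 := key 6 3
    rw [Dv6 p0 hc] at k60 k61 k62 k63
    simp only [hw, hom3, add_mul, map_add, phi3] at k60 k61 k62 k63
    simp [h3, d3] at k60 k61 k62 k63
    have k70 := key 7 0
    have k71 := key 7 1
    have k72 := key 7 2
    have k73 := key 7 3
    rw [Dv7 p0 hc] at k70 k71 k72 k73
    simp only [hw, hom3, add_mul, map_add, phi3] at k70 k71 k72 k73
    simp [h3, d3] at k70 k71 k72 k73
    let t : Finset (Fin 8) → ℝ := fun σ =>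
      if σ = {0, 1, 4} then ((1) * w {0, 4} 0) else
      if σ = {1, 2, 5} then ((1) * w {1, 5} 1) else
      if σ = {2, 3, 6} then ((-1) * w {2, 6} 0 + (1) * w {2, 6} 3) else
      if σ = {0, 3, 7} then ((1) * w {0, 7} 0 + (1) * w {0, 7} 1) else
      0
    have hb : (fun σ => t σ • (1 : E 3)) ∈ Ch Δ0 3 3 3 := mem_Ch_top Δ0 t (fun σ hσ => by
      simp only [t]
      rw [if_neg, if_neg, if_neg, if_neg] <;> rintro rfl <;> exact hσ (by decide))
    refine Submodule.mem_sup.2 ⟨D p0 (fun σ => t σ • (1 : E 3)), ⟨_, hb, rfl⟩,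
      c - D p0 (fun σ => t σ • (1 : E 3)), (mem_Null p0 _).2 fun σ => ?_, by simp⟩
    by_cases hσ : σ ∈ Δ0 ∧ σ.card = 2
    swap
    · rw [Pi.sub_apply, Ch_zero Δ0 3 hc σ hσ, D_zero Δ0 3 p0 cx hb σ hσ]; simp
    rcases edges σ hσ.1 hσ.2 with rfl | rfl | rfl | rfl | rfl | rfl | rfl | rfl | rfl | rfl | rfl | rfl
    · rw [Pi.sub_apply, De01 p0 hb, bar2 p0 _ _ (by decide), hw, smul_mul_assoc, one_mul,
        ← map_smul, ← map_sub]
      refine span_zero _ _ _ ((-1) * w {0, 1} 0 + (1) * w {0, 1} 1 + (1) * w {0, 1} 3) ((1) * w {0, 1} 0) ?_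
      simp (config := {decide := true}) only [hom3, t, if_true, if_false]
      ext i; fin_cases i <;> simp [h3] <;> linarith
    · rw [Pi.sub_apply, De04 p0 hb, bar2 p0 _ _ (by decide), hw, smul_mul_assoc, one_mul,
        ← map_smul, ← map_sub]
      refine span_zero _ _ _ ((-1) * w {0, 4} 0 + (1) * w {0, 4} 1 + (1) * w {0, 4} 3) ((-1) * w {0, 4} 1) ?_
      simp (config := {decide := true}) only [hom3, t, if_true, if_false]
      ext i; fin_cases i <;> simp [h3] <;> linarith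
    · rw [Pi.sub_apply, De14 p0 hb, bar2 p0 _ _ (by decide), hw, smul_mul_assoc, one_mul,
        ← map_smul, ← map_sub]
      refine span_zero _ _ _ ((1) * w {1, 4} 0) ((-1) * w {1, 4} 1) ?_
      simp (config := {decide := true}) only [hom3, t, if_true, if_false]
      ext i; fin_cases i <;> simp [h3] <;> linarith
    · rw [Pi.sub_apply, De12 p0 hb, bar2 p0 _ _ (by decide), hw, smul_mul_assoc, one_mul,
        ← map_smul, ← map_sub]
      refine span_zero _ _ _ ((-1) * w {1, 2} 0 + (-1) * w {1, 2} 1 + (2) * w {1, 2} 3) ((1) * w {1, 2} 1) ?_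
      simp (config := {decide := true}) only [hom3, t, if_true, if_false]
      ext i; fin_cases i <;> simp [h3] <;> linarith
    · rw [Pi.sub_apply, De15 p0 hb, bar2 p0 _ _ (by decide), hw, smul_mul_assoc, one_mul,
        ← map_smul, ← map_sub]
      refine span_zero _ _ _ ((-1) * w {1, 5} 0 + (-1) * w {1, 5} 1 + (2) * w {1, 5} 3) ((1) * w {1, 5} 0 + (-1) * w {1, 5} 3) ?_
      simp (config := {decide := true}) only [hom3, t, if_true, if_false]
      ext i; fin_cases i <;> simp [h3] <;> linarith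
    · rw [Pi.sub_apply, De25 p0 hb, bar2 p0 _ _ (by decide), hw, smul_mul_assoc, one_mul,
        ← map_smul, ← map_sub]
      refine span_zero _ _ _ ((1) * w {2, 5} 1) ((1) * w {2, 5} 0 + (-1) * w {2, 5} 3) ?_
      simp (config := {decide := true}) only [hom3, t, if_true, if_false]
      ext i; fin_cases i <;> simp [h3] <;> linarith
    · rw [Pi.sub_apply, De23 p0 hb, bar2 p0 _ _ (by decide), hw, smul_mul_assoc, one_mul,
        ← map_smul, ← map_sub]
      refine span_zero _ _ _ ((1) * w {2, 3} 0 + (-1) * w {2, 3} 1 + (1) * w {2, 3} 3) ((-1) * w {2, 3} 0 + (1) * w {2, 3} 3) ?_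
      simp (config := {decide := true}) only [hom3, t, if_true, if_false]
      ext i; fin_cases i <;> simp [h3] <;> linarith
    · rw [Pi.sub_apply, De26 p0 hb, bar2 p0 _ _ (by decide), hw, smul_mul_assoc, one_mul,
        ← map_smul, ← map_sub]
      refine span_zero _ _ _ ((1) * w {2, 6} 0 + (-1) * w {2, 6} 1 + (1) * w {2, 6} 3) ((1) * w {2, 6} 1 + (-1) * w {2, 6} 3) ?_
      simp (config := {decide := true}) only [hom3, t, if_true, if_false]
      ext i; fin_cases i <;> simp [h3] <;> linarith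
    · rw [Pi.sub_apply, De36 p0 hb, bar2 p0 _ _ (by decide), hw, smul_mul_assoc, one_mul,
        ← map_smul, ← map_sub]
      refine span_zero _ _ _ ((-1) * w {3, 6} 0 + (1) * w {3, 6} 3) ((1) * w {3, 6} 1 + (-1) * w {3, 6} 3) ?_
      simp (config := {decide := true}) only [hom3, t, if_true, if_false]
      ext i; fin_cases i <;> simp [h3] <;> linarith
    · rw [Pi.sub_apply, De03 p0 hb, bar2 p0 _ _ (by decide), hw, smul_mul_assoc, one_mul,
        ← map_smul, ← map_sub]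
      refine span_zero _ _ _ ((-1) * w {0, 3} 1 + (1) * w {0, 3} 3) ((1) * w {0, 3} 0 + (1) * w {0, 3} 1) ?_
      simp (config := {decide := true}) only [hom3, t, if_true, if_false]
      ext i; fin_cases i <;> simp [h3] <;> linarith
    · rw [Pi.sub_apply, De07 p0 hb, bar2 p0 _ _ (by decide), hw, smul_mul_assoc, one_mul,
        ← map_smul, ← map_sub]
      refine span_zero _ _ _ ((-1) * w {0, 7} 1 + (1) * w {0, 7} 3) ((-1) * w {0, 7} 0) ?_
      simp (config := {decide := true}) only [hom3, t, if_true, if_false]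
      ext i; fin_cases i <;> simp [h3] <;> linarith
    · rw [Pi.sub_apply, De37 p0 hb, bar2 p0 _ _ (by decide), hw, smul_mul_assoc, one_mul,
        ← map_smul, ← map_sub]
      refine span_zero _ _ _ ((1) * w {3, 7} 0 + (1) * w {3, 7} 1) ((-1) * w {3, 7} 0) ?_
      simp (config := {decide := true}) only [hom3, t, if_true, if_false]
      ext i; fin_cases i <;> simp [h3] <;> linarith
  rw [this]
  exact Module.finrank_zero_of_subsingleton

def z0 : Finset (Fin 8) → W 2 := fun σ =>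
  if σ = {0, 1} then h2 3 else if σ = {1, 2} then h2 0 else if σ = {2, 3} then h2 1 else
  if σ = {0, 3} then h2 1 else 0

lemma b2 : 0 < betti Δ0 3 q0 2 := by
  unfold betti
  have := finite_Z Δ0 q0 2
  have hz : (fun σ => ι ℝ (z0 σ)) ∈ Ch Δ0 3 2 2 := mem_Ch_one Δ0 z0 (fun σ hσ => by
    simp only [z0]
    rw [if_neg, if_neg, if_neg, if_neg] <;> rintro rfl <;> exact hσ (by decide))
  have hz2 : (fun σ => ι ℝ (z0 σ)) ∈ Z Δ0 3 q0 2 := by
    refine ⟨hz, (mem_Null q0 _).2 fun σ => ?_⟩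
    by_cases hσ : σ ∈ Δ0 ∧ σ.card = 1
    swap
    · rw [D_zero Δ0 3 q0 cx hz σ hσ, zero_mul]
    obtain ⟨v, rfl⟩ := card_eq_one.1 hσ.2
    rw [bar1]
    have hv : v = 0 ∨ v = 1 ∨ v = 2 ∨ v = 3 ∨ v = 4 ∨ v = 5 ∨ v = 6 ∨ v = 7 := by revert v; decide
    rcases hv with rfl | rfl | rfl | rfl | rfl | rfl | rfl | rfl
    · rw [Dv0 q0 hz]
      simp (config := {decide := true}) only [z0, if_true, if_false, hom2, add_mul, tri2', ← add_smul]
      simp [h2, d3]
    · rw [Dv1 q0 hz]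
      simp (config := {decide := true}) only [z0, if_true, if_false, hom2, add_mul, tri2', ← add_smul]
      simp [h2, d3]
    · rw [Dv2 q0 hz]
      simp (config := {decide := true}) only [z0, if_true, if_false, hom2, add_mul, tri2', ← add_smul]
      simp [h2, d3]
    · rw [Dv3 q0 hz]
      simp (config := {decide := true}) only [z0, if_true, if_false, hom2, add_mul, tri2', ← add_smul]
      simp [h2, d3]
    · rw [Dv4 q0 hz]
      simp (config := {decide := true}) only [z0, if_true, if_false, hom2, add_mul, tri2', ← add_smul]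
      simp [h2, d3]
    · rw [Dv5 q0 hz]
      simp (config := {decide := true}) only [z0, if_true, if_false, hom2, add_mul, tri2', ← add_smul]
      simp [h2, d3]
    · rw [Dv6 q0 hz]
      simp (config := {decide := true}) only [z0, if_true, if_false, hom2, add_mul, tri2', ← add_smul]
      simp [h2, d3]
    · rw [Dv7 q0 hz]
      simp (config := {decide := true}) only [z0, if_true, if_false, hom2, add_mul, tri2', ← add_smul]
      simp [h2, d3]
  rw [Module.finrank_pos_iff, Submodule.Quotient.nontrivial_iff]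
  intro h
  have h1 : (⟨_, hz2⟩ : Z Δ0 3 q0 2) ∈ ((Ch Δ0 3 2 (2 + 1)).map (D q0) ⊔ Null q0).submoduleOf
    (Z Δ0 3 q0 2) := by rw [h]; trivial
  obtain ⟨_, ⟨b, hb, rfl⟩, ν, hν, e⟩ := Submodule.mem_sup.1 h1
  obtain ⟨t, ht, -⟩ := Ch_top Δ0 (k := 3) hb
  have a1 := congrArg (fun x => phi 2 (x * bar q0 {0, 1})) (congrFun e {0, 1})
  have a2 := congrArg (fun x => phi 2 (x * bar q0 {0, 4})) (congrFun e {0, 4})
  simp only [Pi.add_apply, add_mul, (mem_Null q0 _).1 hν _, add_zero, De01 q0 hb, De04 q0 hb, ht,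
    Submodule.subtype_apply] at a1 a2
  rw [bar2 q0 _ _ (by decide)] at a1 a2
  simp (config := {decide := true}) only [z0, if_true, if_false, hom2, smul_mul_assoc, one_mul,
    ← mul_assoc, map_smul, phi2] at a1 a2
  simp [h2, d3] at a1 a2
  linarith

end Pool.Agent.H3.Skel
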