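import Pool.Agent.H3.Skel2

set_option autoImplicit false

namespace Pool.Agent.H3.Sk

open Finset

def W (d : ℕ) : Type := Fin (d + 1) → ℝ
noncomputable instance iW1 (d : ℕ) : AddCommGroup (W d) := (inferInstance : AddCommGroup (Fin (d + 1) → ℝ))
noncomputable instance iW2 (d : ℕ) : Module ℝ (W d) := (inferInstance : Module ℝ (Fin (d + 1) → ℝ))

def E (d : ℕ) : Type := ExteriorAlgebra ℝ (W d)
noncomputable instance iE1 (d : ℕ) : Ring (E d) := (inferInstance : Ring (ExteriorAlgebra ℝ (W d)))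
noncomputable instance iE2 (d : ℕ) : Algebra ℝ (E d) :=
  (inferInstance : Algebra ℝ (ExteriorAlgebra ℝ (W d)))

def hom {d : ℕ} (x : Fin d → ℝ) : W d := Fin.snoc (α := fun _ => ℝ) x 1

noncomputable def pt {d : ℕ} (x : Fin d → ℝ) : E d := ExteriorAlgebra.ι ℝ (hom x)

noncomputable def Lam (d j : ℕ) : Submodule ℝ (E d) := ExteriorAlgebra.exteriorPower ℝ j (W d)

def C (n d : ℕ) : Type := Finset (Fin n) → E d
noncomputable instance iC1 (n d : ℕ) : AddCommGroup (C n d) :=
  (inferInstance : AddCommGroup (Finset (Fin n) → E d))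
noncomputable instance iC2 (n d : ℕ) : Module ℝ (C n d) :=
  (inferInstance : Module ℝ (Finset (Fin n) → E d))

variable {n d : ℕ} (Δ : Finset (Finset (Fin n))) (r : ℕ) (p : Fin n → Fin d → ℝ)

noncomputable def bar (σ : Finset (Fin n)) : E d :=
  (((List.finRange n).filter (· ∈ σ)).map (fun v => pt (p v))).prod

def Ch (d k : ℕ) : Set (C n d) :=
  {c | ∀ σ, if σ ∈ Δ ∧ σ.card = k ∧ k ≤ r then c σ ∈ Lam d (r - k) else c σ = 0}

def Null : Set (C n d) := {c | ∀ σ, c σ * bar p σ = 0}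

noncomputable def D (c : C n d) : C n d :=
  fun τ => ∑ x : Fin n, if x ∈ τ then 0 else c (insert x τ) * pt (p x)

noncomputable def Z (k : ℕ) : Submodule ℝ (C n d) :=
  Submodule.span ℝ {c | c ∈ Ch Δ r d k ∧ D p c ∈ Null p}

noncomputable def B (k : ℕ) : Submodule ℝ (C n d) :=
  Submodule.span ℝ (D p '' Ch Δ r d (k + 1) ∪ Null p)

noncomputable def betti (k : ℕ) : ℕ :=
  Module.finrank ℝ (Z Δ r p k ⧸ (B Δ r p k).submoduleOf (Z Δ r p k))

lemma Ch_eq (d k : ℕ) : Ch Δ r d k = (Skel.Ch Δ r d k : Set (Finset (Fin n) → Skel.E d)) := by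
  ext c
  refine ⟨fun h σ _ => ?_, fun h σ => ?_⟩
  · have := h σ
    simp only
    split_ifs at this ⊢
    · exact this
    · exact this
  · have := h σ trivial
    simp only at this
    split_ifs at this ⊢
    · exact this
    · exact this

lemma Null_eq : Null p = (Skel.Null p : Set (Finset (Fin n) → Skel.E d)) := by
  ext c
  exact (Skel.mem_Null p c).symm

lemma D_eq (c : C n d) : D p c = Skel.D p c := funext fun τ => (Skel.D_apply p c τ).symm

lemma Z_eq (k : ℕ) : Z Δ r p k = Skel.Z Δ r p k := by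
  have : {c | c ∈ Ch Δ r d k ∧ D p c ∈ Null p} =
      (Skel.Z Δ r p k : Set (Finset (Fin n) → Skel.E d)) := by
    ext c
    simp only [Set.mem_setOf_eq]
    rw [Ch_eq, Null_eq, D_eq]
    rfl
  unfold Z
  rw [this]
  exact Submodule.span_eq _

lemma B_eq (k : ℕ) : B Δ r p k = (Skel.Ch Δ r d (k + 1)).map (Skel.D p) ⊔ Skel.Null p := by
  have h1 : D p '' Ch Δ r d (k + 1) =
      ((Skel.Ch Δ r d (k + 1)).map (Skel.D p) : Set (Finset (Fin n) → Skel.E d)) := by
    rw [Ch_eq, show D p = Skel.D p from funext (D_eq p)]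
    rfl
  unfold B
  rw [Submodule.span_union, h1, Null_eq]
  exact congrArg₂ _ (Submodule.span_eq _) (Submodule.span_eq _)

lemma betti_eq (k : ℕ) : betti Δ r p k = Skel.betti Δ r p k := by
  unfold betti
  rw [B_eq, Z_eq]
  rfl

end Pool.Agent.H3.Sk
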