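import Mathlib

open NormedSpace

namespace Pool.Agent.H3.Spl

variable {A : Type} [NormedRing A] [NormedAlgebra ℂ A] [CompleteSpace A]

theorem exp_add' {x y : A} (h : Commute x y) : exp (x + y) = exp x * exp y := by
  let _ := NormedAlgebra.restrictScalars ℚ ℂ A
  exact exp_add_of_commute h

theorem exp_mul_neg (z : A) : exp z * exp (-z) = 1 := by
  rw [← exp_add' (Commute.refl z).neg_right]; simp

theorem exp_neg_mul (z : A) : exp (-z) * exp z = 1 := by
  rw [← exp_add' (Commute.refl z).neg_left]; simp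

/-- the exponential as a unit -/
noncomputable def eu (z : A) : Aˣ := ⟨exp z, exp (-z), exp_mul_neg z, exp_neg_mul z⟩

@[simp] theorem eu_val (z : A) : ((eu z : Aˣ) : A) = exp z := rfl
@[simp] theorem eu_inv (z : A) : (eu z)⁻¹ = eu (-z) := by
  apply Units.ext
  rfl

theorem eu_smul_add (x : A) (a b : ℂ) : eu ((a + b) • x) = eu (a • x) * eu (b • x) := by
  apply Units.ext
  simp only [eu_val, Units.val_mul, add_smul]
  exact exp_add' (((Commute.refl x).smul_left a).smul_right b)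

theorem hd_exp (z : A) (t : ℂ) : HasDerivAt (fun u : ℂ => exp (u • z)) (exp (t • z) * z) t :=
  hasDerivAt_exp_smul_const z t

theorem hd_exp' (z : A) (t : ℂ) : HasDerivAt (fun u : ℂ => exp (u • z)) (z * exp (t • z)) t :=
  hasDerivAt_exp_smul_const' z t

theorem hd_conj (z ξ : A) (t : ℂ) :
    HasDerivAt (fun u : ℂ => exp (u • z) * ξ * exp (-(u • z)))
      (exp (t • z) * (z * ξ - ξ * z) * exp (-(t • z))) t := by
  have h1 := ((hd_exp z t).mul_const ξ).mul (hd_exp' (-z) t)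
  simp only [smul_neg] at h1
  exact HasDerivAt.congr_deriv h1 (by noncomm_ring)

variable [FiniteDimensional ℂ A]

omit [CompleteSpace A] in
theorem mem_of_deriv (W : Submodule ℂ A) (f f' : ℂ → A) (hf : ∀ t, HasDerivAt f (f' t) t)
    (h' : ∀ t, f' t ∈ W) (h0 : f 0 ∈ W) (t : ℂ) : f t ∈ W := by
  obtain ⟨W', hW⟩ := W.exists_isCompl
  let l : A →L[ℂ] W' := LinearMap.toContinuousLinearMap (W'.projectionOnto W hW.symm)
  have hl : ∀ a, l a = 0 ↔ a ∈ W := fun a => by
    simp [l]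
  have hd : ∀ t, HasDerivAt (fun t => l (f t)) 0 t := fun t => by
    have := l.hasFDerivAt.comp_hasDerivAt t (hf t)
    rw [(hl _).2 (h' t)] at this
    exact this
  have hc : l (f t) = l (f 0) :=
    is_const_of_deriv_eq_zero (fun t => (hd t).differentiableAt) (fun t => (hd t).deriv) t 0
  rw [(hl _).2 h0] at hc
  exact (hl _).1 hc

omit [CompleteSpace A] in
theorem deriv_mem (W : Submodule ℂ A) (f : ℂ → A) (f' : A) (hf : HasDerivAt f f' 0)
    (h0 : f 0 ∈ W) (h : ∀ t : ℂ, 0 < t.re → f t ∈ W) : f' ∈ W := by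
  have hs := hasDerivAt_iff_tendsto_slope.1 hf
  have ht : Filter.Tendsto (fun t : ℝ => (t : ℂ)) (nhdsWithin 0 (Set.Ioi 0)) (nhdsWithin 0 {0}ᶜ) := by
    apply tendsto_nhdsWithin_of_tendsto_nhds_of_eventually_within
    · have : Filter.Tendsto (fun t : ℝ => (t : ℂ)) (nhds 0) (nhds ((0 : ℝ) : ℂ)) :=
        Complex.continuous_ofReal.tendsto 0
      simpa using this.mono_left nhdsWithin_le_nhds
    · filter_upwards [self_mem_nhdsWithin] with t ht
      have : t ≠ 0 := ne_of_gt ht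
      simpa using this
  refine W.closed_of_finiteDimensional.mem_of_tendsto (hs.comp ht) ?_
  filter_upwards [self_mem_nhdsWithin] with t ht
  simp only [Function.comp, slope, vsub_eq_sub]
  exact W.smul_mem _ (W.sub_mem (h _ (by simpa using ht)) h0)

/-- two homogeneous elements of degree one for the inner derivation by `Δ` -/
structure Dat (A : Type) [Ring A] where
  X : A
  Y : A
  Δ : A
  hX : Δ * X - X * Δ = X
  hY : Δ * Y - Y * Δ = Y

namespace Dat

variable (d : Dat A)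

def Wd (k : ℕ) : Set A :=
  {a | ∃ l : List A, (∀ x ∈ l, x = d.X ∨ x = d.Y) ∧ k ≤ l.length ∧ a = l.prod}

noncomputable def I (k : ℕ) : Submodule ℂ A := Submodule.span ℂ (d.Wd k)

def D (a : A) : A := d.Δ * a - a * d.Δ

omit [CompleteSpace A] [FiniteDimensional ℂ A] in
theorem I_anti {j k : ℕ} (h : j ≤ k) {a : A} (ha : a ∈ d.I k) : a ∈ d.I j := by
  refine Submodule.span_mono ?_ ha
  rintro _ ⟨l, h1, h2, rfl⟩
  exact ⟨l, h1, h.trans h2, rfl⟩

omit [CompleteSpace A] [FiniteDimensional ℂ A] in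
theorem I_mul {j k : ℕ} {a b : A} (ha : a ∈ d.I j) (hb : b ∈ d.I k) : a * b ∈ d.I (j + k) := by
  have : d.I j * d.I k ≤ d.I (j + k) := by
    unfold I
    rw [Submodule.span_mul_span]
    apply Submodule.span_mono
    rintro _ ⟨_, ⟨l, h1, h2, rfl⟩, _, ⟨l', h1', h2', rfl⟩, rfl⟩
    refine ⟨l ++ l', ?_, by simp; omega, by simp⟩
    intro x hx
    rcases List.mem_append.1 hx with h | h
    · exact h1 x h
    · exact h1' x h
  exact this (Submodule.mul_mem_mul ha hb)

omit [CompleteSpace A] [FiniteDimensional ℂ A] in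
theorem I_mul' {j k m : ℕ} {a b : A} (ha : a ∈ d.I j) (hb : b ∈ d.I k) (h : m ≤ j + k) :
    a * b ∈ d.I m := d.I_anti h (d.I_mul ha hb)

omit [CompleteSpace A] [FiniteDimensional ℂ A] in
theorem one_mem : (1 : A) ∈ d.I 0 := Submodule.subset_span ⟨[], by simp, le_rfl, by simp⟩
omit [CompleteSpace A] [FiniteDimensional ℂ A] in
theorem X_mem : d.X ∈ d.I 1 := Submodule.subset_span ⟨[d.X], by simp, le_rfl, by simp⟩
omit [CompleteSpace A] [FiniteDimensional ℂ A] in
theorem Y_mem : d.Y ∈ d.I 1 := Submodule.subset_span ⟨[d.Y], by simp, le_rfl, by simp⟩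

omit [CompleteSpace A] [FiniteDimensional ℂ A] in
theorem mem_zero {a : A} (h : a - 1 ∈ d.I 1) : a ∈ d.I 0 := by
  have := (d.I 0).add_mem (d.I_anti (Nat.zero_le 1) h) d.one_mem
  simpa using this

omit [CompleteSpace A] [FiniteDimensional ℂ A] in
theorem D_word (l : List A) (h : ∀ x ∈ l, x = d.X ∨ x = d.Y) :
    d.D l.prod = (l.length : ℂ) • l.prod := by
  induction l with
  | nil => simp [D]
  | cons x l ih =>
    have ih' := ih (fun y hy => h y (List.mem_cons_of_mem _ hy))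
    have hx : d.Δ * x - x * d.Δ = x := by
      rcases h x (by simp) with rfl | rfl
      · exact d.hX
      · exact d.hY
    unfold D at ih' ⊢
    simp only [List.prod_cons, List.length_cons, Nat.cast_add, Nat.cast_one, add_smul, one_smul]
    have : d.Δ * (x * l.prod) - x * l.prod * d.Δ
        = (d.Δ * x - x * d.Δ) * l.prod + x * (d.Δ * l.prod - l.prod * d.Δ) := by noncomm_ring
    rw [this, hx, ih', mul_smul_comm, add_comm]

omit [CompleteSpace A] [FiniteDimensional ℂ A] in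
theorem D_sub {k : ℕ} {a : A} (ha : a ∈ d.I k) : d.D a - (k : ℂ) • a ∈ d.I (k + 1) := by
  induction ha using Submodule.span_induction with
  | mem a ha =>
    obtain ⟨l, h1, h2, rfl⟩ := ha
    rw [d.D_word l h1, ← sub_smul]
    rcases h2.eq_or_lt with h | h
    · rw [h]; simp
    · exact Submodule.smul_mem _ _ (Submodule.subset_span ⟨l, h1, h, rfl⟩)
  | zero => simp [D]
  | add a b _ _ ha hb =>
    convert (d.I (k + 1)).add_mem ha hb using 1
    simp only [D, mul_add, add_mul, smul_add]; abel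
  | smul c a _ ha =>
    convert (d.I (k + 1)).smul_mem c ha using 1
    simp only [D, mul_smul_comm, smul_mul_assoc, smul_sub, smul_comm c (k : ℂ) a]

omit [CompleteSpace A] [FiniteDimensional ℂ A] in
theorem I_bot : ∃ M, ∀ a ∈ d.I M, a = 0 := by
  obtain ⟨M, hM⟩ := exists_nat_gt (2 * ‖d.Δ‖)
  refine ⟨M, fun a ha => ?_⟩
  have : d.I M ≤ ⊥ := by
    apply Submodule.span_le.2
    rintro _ ⟨l, h1, h2, rfl⟩
    have h3 := d.D_word l h1
    have h4 : ‖d.D l.prod‖ ≤ 2 * ‖d.Δ‖ * ‖l.prod‖ := by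
      unfold D
      have := norm_sub_le (d.Δ * l.prod) (l.prod * d.Δ)
      have := norm_mul_le d.Δ l.prod
      have := norm_mul_le l.prod d.Δ
      nlinarith
    rw [h3, norm_smul, Complex.norm_natCast] at h4
    have h5 : (M : ℝ) ≤ l.length := by exact_mod_cast h2
    have h6 : ‖l.prod‖ = 0 := by
      by_contra hne
      have : 0 < ‖l.prod‖ := lt_of_le_of_ne (norm_nonneg _) (Ne.symm hne)
      nlinarith
    simpa using h6
  simpa using this ha

omit [CompleteSpace A] [FiniteDimensional ℂ A] in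
theorem eig_zero {j m : ℕ} {v : A} (hv : v ∈ d.I m) (hD : d.D v = (j : ℂ) • v) (h : j < m) :
    v = 0 := by
  obtain ⟨M, hM⟩ := d.I_bot
  have : ∀ n, v ∈ d.I (m + n) := by
    intro n
    induction n with
    | zero => exact hv
    | succ n ih =>
      have h1 := d.D_sub ih
      rw [hD, ← sub_smul] at h1
      have h2 : ((j : ℂ) - ((m + n : ℕ) : ℂ)) ≠ 0 := by
        rw [sub_ne_zero]; exact_mod_cast (by omega)
      exact ((d.I (m + n + 1)).smul_mem_iff h2).1 h1
  exact hM v (d.I_anti (by omega) (this M))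

theorem exp_mem0 {z : A} (hz : z ∈ d.I 1) : exp z ∈ d.I 0 := by
  let _ := NormedAlgebra.restrictScalars ℚ ℂ A
  let S : Subalgebra ℂ A := (d.I 0).toSubalgebra d.one_mem (fun x y hx hy => d.I_mul' hx hy (by omega))
  have : exp z ∈ S := exp_mem (R := ℂ) (s := S) (d.I 0).closed_of_finiteDimensional
    (d.I_anti (Nat.zero_le 1) hz)
  exact this

theorem exp_sub_one {z : A} (hz : z ∈ d.I 1) : exp z - 1 ∈ d.I 1 := by
  have := mem_of_deriv (d.I 1) (fun t => exp (t • z) - 1) (fun t => z * exp (t • z))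
    (fun t => (hd_exp' z t).sub_const 1)
    (fun t => d.I_mul' hz (d.exp_mem0 ((d.I 1).smul_mem t hz)) (by omega)) (by simp) 1
  simpa using this

theorem exp_sub_two {z : A} (hz : z ∈ d.I 1) : exp z - 1 - z ∈ d.I 2 := by
  have := mem_of_deriv (d.I 2) (fun t => exp (t • z) - 1 - t • z) (fun t => z * exp (t • z) - z)
    (fun t => by
      have := ((hd_exp' z t).sub_const 1).sub ((hasDerivAt_id t).smul_const z)
      exact HasDerivAt.congr_deriv this (by simp))
    (fun t => by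
      have := d.I_mul hz (d.exp_sub_one ((d.I 1).smul_mem t hz))
      simpa [mul_sub] using this) (by simp) 1
  simpa using this

omit [CompleteSpace A] [FiniteDimensional ℂ A] in
theorem cong_mul {m : ℕ} (hm : 1 ≤ m) {s1 s2 h1 h2 v1 v2 : A} (e1 : s1 - h1 - v1 ∈ d.I (m + 1))
    (e2 : s2 - h2 - v2 ∈ d.I (m + 1)) (hv1 : v1 ∈ d.I m) (hv2 : v2 ∈ d.I m)
    (hh1 : h1 - 1 ∈ d.I 1) (hh2 : h2 - 1 ∈ d.I 1) :
    s1 * s2 - h1 * h2 - (v1 + v2) ∈ d.I (m + 1) := by
  have hs2 : s2 ∈ d.I 0 := by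
    have := (d.I 0).add_mem ((d.I 0).add_mem (d.I_anti (Nat.zero_le _) e2) (d.mem_zero hh2))
      (d.I_anti (Nat.zero_le _) hv2)
    convert this using 1; abel
  have hs2' : s2 - 1 ∈ d.I 1 := by
    have := (d.I 1).add_mem ((d.I 1).add_mem (d.I_anti (by omega) e2) hh2) (d.I_anti hm hv2)
    convert this using 1; abel
  have : s1 * s2 - h1 * h2 - (v1 + v2)
      = (s1 - h1 - v1) * s2 + v1 * (s2 - 1) + h1 * (s2 - h2 - v2) + (h1 - 1) * v2 := by
    noncomm_ring
  rw [this]
  refine Submodule.add_mem _ (Submodule.add_mem _ (Submodule.add_mem _ ?_ ?_) ?_) ?_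
  · exact d.I_mul' e1 hs2 (by omega)
  · exact d.I_mul' hv1 hs2' (by omega)
  · exact d.I_mul' (d.mem_zero hh1) e2 (by omega)
  · exact d.I_mul' hh1 hv2 (by omega)

/-- left-normed brackets of `iX`, `iY` of degree `k+1` -/
def B : ℕ → Set A
  | 0 => {Complex.I • d.X, Complex.I • d.Y}
  | k + 1 => {c | ∃ b ∈ B k, ∃ x ∈ ({Complex.I • d.X, Complex.I • d.Y} : Set A), c = b * x - x * b}

noncomputable def V (k : ℕ) : Submodule ℂ A := Submodule.span ℂ (d.B k)

noncomputable def L (k : ℕ) : Submodule ℂ A := Submodule.span ℂ {b | ∃ j, k ≤ j ∧ b ∈ d.B j}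

omit [CompleteSpace A] [FiniteDimensional ℂ A] in
theorem B_fin (k : ℕ) : (d.B k).Finite := by
  induction k with
  | zero => simp [B]
  | succ k ih =>
    have : ({Complex.I • d.X, Complex.I • d.Y} : Set A).Finite := by simp
    refine ((ih.prod this).image (fun p : A × A => p.1 * p.2 - p.2 * p.1)).subset ?_
    rintro _ ⟨b, hb, x, hx, rfl⟩
    exact ⟨(b, x), ⟨hb, hx⟩, rfl⟩

omit [CompleteSpace A] [FiniteDimensional ℂ A] in
theorem B0_mem {x : A} (hx : x ∈ d.B 0) : x ∈ d.I 1 ∧ d.D x = x := by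
  rcases hx with rfl | rfl
  · exact ⟨Submodule.smul_mem _ _ d.X_mem, by simp [D, ← smul_sub, d.hX]⟩
  · exact ⟨Submodule.smul_mem _ _ d.Y_mem, by simp [D, ← smul_sub, d.hY]⟩

omit [CompleteSpace A] [FiniteDimensional ℂ A] in
theorem B_mem {k : ℕ} {b : A} (hb : b ∈ d.B k) :
    b ∈ d.I (k + 1) ∧ d.D b = ((k + 1 : ℕ) : ℂ) • b := by
  induction k generalizing b with
  | zero => simpa using d.B0_mem hb
  | succ k ih =>
    obtain ⟨b, hb, x, hx, rfl⟩ := hb
    obtain ⟨h1, h2⟩ := ih hb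
    obtain ⟨h3, h4⟩ := d.B0_mem (x := x) hx
    refine ⟨Submodule.sub_mem _ (d.I_mul h1 h3) (d.I_mul' h3 h1 (by omega)), ?_⟩
    unfold D at h2 h4 ⊢
    have : d.Δ * (b * x - x * b) - (b * x - x * b) * d.Δ
        = (d.Δ * b - b * d.Δ) * x + b * (d.Δ * x - x * d.Δ) - (d.Δ * x - x * d.Δ) * b
          - x * (d.Δ * b - b * d.Δ) := by noncomm_ring
    rw [this, h2, h4]
    simp only [Nat.cast_add, Nat.cast_one, add_smul, one_smul, smul_mul_assoc, mul_smul_comm,
      smul_sub, add_mul, mul_add]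
    abel

omit [CompleteSpace A] [FiniteDimensional ℂ A] in
theorem V_mem {k : ℕ} {v : A} (hv : v ∈ d.V k) :
    v ∈ d.I (k + 1) ∧ d.D v = ((k + 1 : ℕ) : ℂ) • v := by
  induction hv using Submodule.span_induction with
  | mem a ha => exact d.B_mem ha
  | zero => simp [D]
  | add a b _ _ ha hb =>
    refine ⟨Submodule.add_mem _ ha.1 hb.1, ?_⟩
    rw [smul_add, ← ha.2, ← hb.2]; simp only [D]; noncomm_ring
  | smul c a _ ha =>
    refine ⟨Submodule.smul_mem _ _ ha.1, ?_⟩
    rw [smul_comm, ← ha.2]; simp [D, smul_sub]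

omit [CompleteSpace A] [FiniteDimensional ℂ A] in
theorem L_le {k : ℕ} {v : A} (hv : v ∈ d.L k) : v ∈ d.I (k + 1) := by
  refine Submodule.span_le.2 ?_ hv
  rintro b ⟨j, hj, hb⟩
  exact d.I_anti (by omega) (d.B_mem hb).1

omit [CompleteSpace A] [FiniteDimensional ℂ A] in
theorem L_anti {j k : ℕ} (h : j ≤ k) {v : A} (hv : v ∈ d.L k) : v ∈ d.L j := by
  refine Submodule.span_mono ?_ hv
  rintro b ⟨i, hi, hb⟩
  exact ⟨i, h.trans hi, hb⟩

omit [CompleteSpace A] [FiniteDimensional ℂ A] in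
theorem V_le_L {k : ℕ} {v : A} (hv : v ∈ d.V k) : v ∈ d.L k := by
  refine Submodule.span_mono ?_ hv
  intro b hb
  exact ⟨k, le_rfl, hb⟩

omit [CompleteSpace A] [FiniteDimensional ℂ A] in
theorem L_split {k : ℕ} {ξ : A} (h : ξ ∈ d.L k) : ∃ v ∈ d.V k, ξ - v ∈ d.L (k + 1) := by
  induction h using Submodule.span_induction with
  | mem a ha =>
    obtain ⟨j, hj, ha⟩ := ha
    rcases hj.eq_or_lt with rfl | h
    · exact ⟨a, Submodule.subset_span ha, by simp⟩
    · exact ⟨0, Submodule.zero_mem _, by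
        rw [sub_zero]; exact Submodule.subset_span (s := {b | ∃ j, k + 1 ≤ j ∧ b ∈ d.B j}) ⟨j, h, ha⟩⟩
  | zero => exact ⟨0, Submodule.zero_mem _, by simp⟩
  | add a b _ _ ha hb =>
    obtain ⟨v, hv, ha⟩ := ha
    obtain ⟨w, hw, hb⟩ := hb
    exact ⟨v + w, Submodule.add_mem _ hv hw, by convert Submodule.add_mem _ ha hb using 1; abel⟩
  | smul c a _ ha =>
    obtain ⟨v, hv, ha⟩ := ha
    exact ⟨c • v, Submodule.smul_mem _ _ hv, by
      rw [← smul_sub]; exact Submodule.smul_mem _ _ ha⟩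

omit [CompleteSpace A] [FiniteDimensional ℂ A] in
theorem L_lead {k : ℕ} {ξ : A} (h : ξ ∈ d.L 0) (hI : ξ ∈ d.I (k + 1)) :
    ∃ v ∈ d.V k, ξ - v ∈ d.I (k + 2) := by
  have : ∀ j, j ≤ k → ξ ∈ d.L j := by
    intro j
    induction j with
    | zero => exact fun _ => h
    | succ j ih =>
      intro hj
      obtain ⟨v, hv, h1⟩ := d.L_split (ih (by omega))
      have h2 : v ∈ d.I (j + 2) := by
        have := (d.I (j + 2)).sub_mem (d.I_anti (by omega) hI) (d.L_le h1)
        simpa using this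
      have := d.eig_zero h2 (d.V_mem hv).2 (by omega)
      simpa [this] using h1
  obtain ⟨v, hv, h1⟩ := d.L_split (this k le_rfl)
  exact ⟨v, hv, d.L_le h1⟩

omit [CompleteSpace A] [FiniteDimensional ℂ A] in
theorem L_br {k : ℕ} {ξ z : A} (h : ξ ∈ d.L k) (hz : z ∈ d.V 0) : z * ξ - ξ * z ∈ d.L (k + 1) := by
  induction h using Submodule.span_induction with
  | mem a ha =>
    obtain ⟨j, hj, ha⟩ := ha
    induction hz using Submodule.span_induction with
    | mem x hx =>
      have : a * x - x * a ∈ d.L (k + 1) :=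
        Submodule.subset_span ⟨j + 1, by omega, a, ha, x, hx, rfl⟩
      simpa using Submodule.neg_mem _ this
    | zero => simp
    | add x y _ _ hx hy => convert Submodule.add_mem _ hx hy using 1; noncomm_ring
    | smul c x _ hx => simpa [smul_sub] using Submodule.smul_mem _ c hx
  | zero => simp
  | add a b _ _ ha hb => convert Submodule.add_mem _ ha hb using 1; noncomm_ring
  | smul c a _ ha => simpa [smul_sub] using Submodule.smul_mem _ c ha

omit [CompleteSpace A] [FiniteDimensional ℂ A] in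
theorem D_surj {ξ : A} (h : ξ ∈ d.L 0) : ∃ y ∈ d.L 0, d.D y = ξ := by
  induction h using Submodule.span_induction with
  | mem a ha =>
    obtain ⟨j, hj, ha⟩ := ha
    refine ⟨((j + 1 : ℕ) : ℂ)⁻¹ • a, Submodule.smul_mem _ _ (Submodule.subset_span ⟨j, hj, ha⟩), ?_⟩
    have h2 := (d.B_mem ha).2
    have h3 : ((j + 1 : ℕ) : ℂ) ≠ 0 := by exact_mod_cast Nat.succ_ne_zero j
    unfold D at h2 ⊢
    rw [mul_smul_comm, smul_mul_assoc, ← smul_sub, h2, smul_smul, inv_mul_cancel₀ h3, one_smul]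
  | zero => exact ⟨0, Submodule.zero_mem _, by simp [D]⟩
  | add a b _ _ ha hb =>
    obtain ⟨v, hv, ha⟩ := ha
    obtain ⟨w, hw, hb⟩ := hb
    exact ⟨v + w, Submodule.add_mem _ hv hw, by rw [← ha, ← hb]; unfold D; noncomm_ring⟩
  | smul c a _ ha =>
    obtain ⟨v, hv, ha⟩ := ha
    exact ⟨c • v, Submodule.smul_mem _ _ hv, by rw [← ha]; simp [D, smul_sub]⟩

theorem conj_mem {z : A} (hz : z ∈ d.V 0) {ξ : A} (h : ξ ∈ d.L 0) :
    exp z * ξ * exp (-z) ∈ d.L 0 := by
  obtain ⟨M, hM⟩ := d.I_bot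
  have : ∀ n k, M ≤ k + n → ∀ ξ ∈ d.L k, ∀ t : ℂ, exp (t • z) * ξ * exp (-(t • z)) ∈ d.L 0 := by
    intro n
    induction n with
    | zero =>
      intro k hk ξ hξ t
      rw [hM ξ (d.I_anti (by omega) (d.L_le hξ))]; simp
    | succ n ih =>
      intro k hk ξ hξ t
      refine mem_of_deriv (d.L 0) _ _ (hd_conj z ξ) (fun t => ?_) ?_ t
      · exact ih (k + 1) (by omega) _ (d.L_br hξ hz) t
      · simpa using d.L_anti (Nat.zero_le k) hξ
  simpa using this M 0 (by omega) ξ h 1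

omit [FiniteDimensional ℂ A] in
theorem conj_Δ {z : A} (hz : z ∈ d.V 0) : d.Δ - exp z * d.Δ * exp (-z) = z := by
  have hD : z * d.Δ - d.Δ * z = -z := by
    have := (d.V_mem hz).2
    simp only [D, zero_add, Nat.cast_one, one_smul] at this
    rw [← neg_sub, this]
  have hd : ∀ t : ℂ, HasDerivAt (fun u : ℂ => exp (u • z) * d.Δ * exp (-(u • z)) + u • z) 0 t := by
    intro t
    have := (hd_conj z d.Δ t).add ((hasDerivAt_id t).smul_const z)
    refine HasDerivAt.congr_deriv this ?_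
    have hc : Commute (exp (t • z)) z := (((Commute.refl z).smul_left t)).exp_left
    rw [hD, mul_neg, hc.eq, neg_mul, mul_assoc, exp_mul_neg]; simp
  have := is_const_of_deriv_eq_zero (fun t => (hd t).differentiableAt) (fun t => (hd t).deriv) 1 0
  simp only [one_smul, zero_smul, exp_zero, neg_zero, one_mul, mul_one, add_zero] at this
  rw [sub_eq_iff_eq_add, add_comm]; exact this.symm

end Dat

end Pool.Agent.H3.Spl
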