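import Pool.Agent.H3.Spl1

open NormedSpace

namespace Pool.Agent.H3.Spl

variable {A : Type} [NormedRing A] [NormedAlgebra ℂ A] [CompleteSpace A] [FiniteDimensional ℂ A]

namespace Dat

variable (d : Dat A)

noncomputable def G : Subgroup Aˣ := Subgroup.closure {u | ∃ z ∈ d.V 0, u = eu z}

noncomputable def H : Subgroup Aˣ :=
  Subgroup.closure {u | ∃ c : ℝ, ∃ x ∈ d.B 0, u = eu ((c : ℂ) • x)}

noncomputable def S0 : Submonoid Aˣ :=
  Submonoid.closure {u | ∃ α : ℂ, 0 ≤ α.re ∧ (u = eu (α • d.X) ∨ u = eu (α • d.Y))}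

noncomputable def S : Submonoid Aˣ :=
  Submonoid.closure {u | ∃ α : ℂ, 0 < α.re ∧ (u = eu (α • d.X) ∨ u = eu (α • d.Y))}

omit [CompleteSpace A] [FiniteDimensional ℂ A] in
theorem X_V : d.X ∈ d.V 0 := by
  have : Complex.I • d.X ∈ d.V 0 := Submodule.subset_span (by simp [B])
  exact ((d.V 0).smul_mem_iff Complex.I_ne_zero).1 this

omit [CompleteSpace A] [FiniteDimensional ℂ A] in
theorem Y_V : d.Y ∈ d.V 0 := by
  have : Complex.I • d.Y ∈ d.V 0 := Submodule.subset_span (by simp [B])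
  exact ((d.V 0).smul_mem_iff Complex.I_ne_zero).1 this

omit [CompleteSpace A] [FiniteDimensional ℂ A] in
theorem V0_form {v : A} (hv : v ∈ d.V 0) : ∃ a b : ℂ, v = a • d.X + b • d.Y := by
  obtain ⟨a, b, h⟩ := Submodule.mem_span_pair.1 hv
  exact ⟨a * Complex.I, b * Complex.I, by rw [← h, smul_smul, smul_smul]⟩

omit [FiniteDimensional ℂ A] in
theorem eu_G {z : A} (hz : z ∈ d.V 0) : eu z ∈ d.G := Subgroup.subset_closure ⟨z, hz, rfl⟩

omit [FiniteDimensional ℂ A] in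
theorem S0_le_G {u : Aˣ} (h : u ∈ d.S0) : u ∈ d.G := by
  have : d.S0 ≤ d.G.toSubmonoid := by
    apply Submonoid.closure_le.2
    rintro _ ⟨α, -, rfl | rfl⟩
    · exact d.eu_G (Submodule.smul_mem _ _ d.X_V)
    · exact d.eu_G (Submodule.smul_mem _ _ d.Y_V)
  exact this h

omit [FiniteDimensional ℂ A] in
theorem S_le_S0 {u : Aˣ} (h : u ∈ d.S) : u ∈ d.S0 := by
  refine Submonoid.closure_mono ?_ h
  rintro _ ⟨α, h1, h2⟩
  exact ⟨α, h1.le, h2⟩

omit [FiniteDimensional ℂ A] in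
theorem gen_S0 (c : ℝ) {x : A} (hx : x ∈ d.B 0) : eu ((c : ℂ) • x) ∈ d.S0 := by
  rcases hx with rfl | rfl
  · exact Submonoid.subset_closure ⟨c * Complex.I, by simp, Or.inl (by rw [smul_smul])⟩
  · exact Submonoid.subset_closure ⟨c * Complex.I, by simp, Or.inr (by rw [smul_smul])⟩

omit [FiniteDimensional ℂ A] in
theorem H_le_S0 {u : Aˣ} (h : u ∈ d.H) : u ∈ d.S0 := by
  induction h using Subgroup.closure_induction'' with
  | mem u hu =>
    obtain ⟨c, x, hx, rfl⟩ := hu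
    exact d.gen_S0 c hx
  | inv_mem u hu =>
    obtain ⟨c, x, hx, rfl⟩ := hu
    rw [eu_inv, ← neg_smul, ← Complex.ofReal_neg]
    exact d.gen_S0 _ hx
  | one => exact Submonoid.one_mem _
  | mul u w _ _ hu hw => exact Submonoid.mul_mem _ hu hw

theorem G_prop {g : Aˣ} (h : g ∈ d.G) : (g : A) - 1 ∈ d.I 1 ∧
    (∀ ξ ∈ d.L 0, (g : A) * ξ * (g⁻¹ : Aˣ) ∈ d.L 0) ∧
    d.Δ - (g : A) * d.Δ * (g⁻¹ : Aˣ) ∈ d.L 0 := by
  have gen : ∀ z ∈ d.V 0, ((eu z : Aˣ) : A) - 1 ∈ d.I 1 ∧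
      (∀ ξ ∈ d.L 0, ((eu z : Aˣ) : A) * ξ * ((eu z)⁻¹ : Aˣ) ∈ d.L 0) ∧
      d.Δ - ((eu z : Aˣ) : A) * d.Δ * ((eu z)⁻¹ : Aˣ) ∈ d.L 0 := by
    intro z hz
    refine ⟨d.exp_sub_one (d.V_mem hz).1, fun ξ hξ => ?_, ?_⟩
    · simpa using d.conj_mem hz hξ
    · simpa [d.conj_Δ hz] using d.V_le_L hz
  induction h using Subgroup.closure_induction'' with
  | mem u hu =>
    obtain ⟨z, hz, rfl⟩ := hu
    exact gen z hz
  | inv_mem u hu =>
    obtain ⟨z, hz, rfl⟩ := hu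
    rw [eu_inv]
    exact gen _ (Submodule.neg_mem _ hz)
  | one => simp
  | mul u w _ _ hu hw =>
    refine ⟨?_, fun ξ hξ => ?_, ?_⟩
    · have : ((u * w : Aˣ) : A) - 1 = (u - 1) * w + (w - 1) := by
        rw [Units.val_mul]; noncomm_ring
      rw [this]
      exact Submodule.add_mem _ (d.I_mul' hu.1 (d.mem_zero hw.1) (by omega)) hw.1
    · have := hu.2.1 _ (hw.2.1 ξ hξ)
      simpa [mul_assoc] using this
    · have := Submodule.add_mem _ hu.2.2 (hu.2.1 _ hw.2.2)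
      convert this using 1
      simp only [Units.val_mul, mul_inv_rev]
      have h1 : (u : A) * d.Δ * (u⁻¹ : Aˣ) = (u : A) * d.Δ * (u⁻¹ : Aˣ) := rfl
      noncomm_ring

theorem G1 {g : Aˣ} (h : g ∈ d.G) : (g : A) - 1 ∈ d.I 1 := (d.G_prop h).1
theorem G0 {g : Aˣ} (h : g ∈ d.G) : (g : A) ∈ d.I 0 := d.mem_zero (d.G1 h)

theorem G_lead {g : Aˣ} (h : g ∈ d.G) {k : ℕ} (hk : (g : A) - 1 ∈ d.I (k + 1)) :
    ∃ v ∈ d.V k, (g : A) - 1 - v ∈ d.I (k + 2) := by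
  have hi := d.G.inv_mem h
  have h1 : d.Δ - (g : A) * d.Δ * (g⁻¹ : Aˣ) = d.D ((g : A) - 1) * (g⁻¹ : Aˣ) := by
    have : d.D ((g : A) - 1) * (g⁻¹ : Aˣ)
        = d.Δ * ((g : A) * (g⁻¹ : Aˣ)) - (g : A) * d.Δ * (g⁻¹ : Aˣ) := by
      unfold D; noncomm_ring
    rw [this, Units.mul_inv, mul_one]
  set n : A := (g : A) - 1 with hn
  have h2 : d.D n * (g⁻¹ : Aˣ) - ((k + 1 : ℕ) : ℂ) • n ∈ d.I (k + 2) := by
    have : d.D n * (g⁻¹ : Aˣ) - ((k + 1 : ℕ) : ℂ) • n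
        = (d.D n - ((k + 1 : ℕ) : ℂ) • n) * (g⁻¹ : Aˣ)
          + ((k + 1 : ℕ) : ℂ) • (n * ((g⁻¹ : Aˣ) - 1)) := by
      simp only [sub_mul, smul_mul_assoc, mul_sub, mul_one, smul_sub]; abel
    rw [this]
    exact Submodule.add_mem _ (d.I_mul' (d.D_sub hk) (d.G0 hi) (by omega))
      (Submodule.smul_mem _ _ (d.I_mul' hk (d.G1 hi) (by omega)))
  have h3 : d.D n * (g⁻¹ : Aˣ) ∈ d.I (k + 1) := by
    have := Submodule.add_mem _ (d.I_anti (Nat.le_succ (k + 1)) h2)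
      (Submodule.smul_mem _ ((k + 1 : ℕ) : ℂ) hk)
    simpa using this
  obtain ⟨v, hv, h4⟩ := d.L_lead (h1 ▸ (d.G_prop h).2.2) h3
  have h5 : ((k + 1 : ℕ) : ℂ) ≠ 0 := by exact_mod_cast Nat.succ_ne_zero k
  refine ⟨((k + 1 : ℕ) : ℂ)⁻¹ • v, Submodule.smul_mem _ _ hv, ?_⟩
  have := Submodule.smul_mem _ ((k + 1 : ℕ) : ℂ)⁻¹ (Submodule.sub_mem _ h4 h2)
  convert this using 1
  simp only [smul_sub, smul_smul, inv_mul_cancel₀ h5, one_smul]
  abel

theorem conj_cong {u w : Aˣ} (hu : u ∈ d.G) {j : ℕ} {a b : A}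
    (ha : a ∈ d.I (j + 1)) (hua : (u : A) - 1 - a ∈ d.I (j + 2)) (hb : b ∈ d.I 1)
    (hwb : (w : A) - 1 - b ∈ d.I 2) :
    ((u * w * u⁻¹ : Aˣ) : A) - w - (a * b - b * a) ∈ d.I (j + 3) := by
  have hi := d.G.inv_mem hu
  have hw1 : (w : A) - 1 ∈ d.I 1 := by
    have := Submodule.add_mem _ (d.I_anti (by omega : 1 ≤ 2) hwb) hb
    simpa using this
  have hu1 : (u : A) - 1 ∈ d.I (j + 1) := by
    have := Submodule.add_mem _ (d.I_anti (by omega : j + 1 ≤ j + 2) hua) ha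
    simpa using this
  have h1 : (u : A) * w - w * u - (a * b - b * a) ∈ d.I (j + 3) := by
    have : (u : A) * w - w * u - (a * b - b * a)
        = ((u : A) - 1 - a) * (w - 1) + a * (w - 1 - b)
          - (((w : A) - 1 - b) * (u - 1) + b * (u - 1 - a)) := by noncomm_ring
    rw [this]
    refine Submodule.sub_mem _ (Submodule.add_mem _ ?_ ?_) (Submodule.add_mem _ ?_ ?_)
    · exact d.I_mul' hua hw1 (by omega)
    · exact d.I_mul' ha hwb (by omega)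
    · exact d.I_mul' hwb hu1 (by omega)
    · exact d.I_mul' hb hua (by omega)
  have h2 : a * b - b * a ∈ d.I (j + 2) :=
    Submodule.sub_mem _ (d.I_mul' ha hb (by omega)) (d.I_mul' hb ha (by omega))
  have : ((u * w * u⁻¹ : Aˣ) : A) - w - (a * b - b * a)
      = ((u : A) * w - w * u - (a * b - b * a)) * (u⁻¹ : Aˣ)
        + (a * b - b * a) * ((u⁻¹ : Aˣ) - 1) := by
    have h3 : (w : A) * u * (u⁻¹ : Aˣ) = w := by simp
    simp only [Units.val_mul, sub_mul, mul_sub, mul_one, h3]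
    abel
  rw [this]
  exact Submodule.add_mem _ (d.I_mul' h1 (d.G0 hi) (by omega)) (d.I_mul' h2 (d.G1 hi) (by omega))

theorem H_br {k : ℕ} {b : A} (hb : b ∈ d.B k) (c : ℝ) :
    ∃ u ∈ d.H, (u : A) - 1 - (c : ℂ) • b ∈ d.I (k + 2) := by
  induction k generalizing b with
  | zero =>
    exact ⟨eu ((c : ℂ) • b), Subgroup.subset_closure ⟨c, b, hb, rfl⟩,
      d.exp_sub_two (Submodule.smul_mem _ _ (d.B0_mem hb).1)⟩
  | succ k ih =>
    obtain ⟨b, hb, x, hx, rfl⟩ := hb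
    obtain ⟨u, hu, h1⟩ := ih hb
    have hxH : eu x ∈ d.H := Subgroup.subset_closure ⟨1, x, hx, by simp⟩
    have hx1 := (d.B0_mem (x := x) hx).1
    have hb1 : (c : ℂ) • b ∈ d.I (k + 1) := Submodule.smul_mem _ _ (d.B_mem hb).1
    have huG := d.S0_le_G (d.H_le_S0 hu)
    have hxG := d.S0_le_G (d.H_le_S0 hxH)
    have h2 := d.conj_cong (w := eu x) huG hb1 h1 hx1 (d.exp_sub_two hx1)
    refine ⟨u * eu x * u⁻¹ * (eu x)⁻¹, d.H.mul_mem (d.H.mul_mem (d.H.mul_mem hu hxH)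
      (d.H.inv_mem hu)) (d.H.inv_mem hxH), ?_⟩
    have h3 : (c : ℂ) • b * x - x * (c : ℂ) • b ∈ d.I (k + 2) :=
      Submodule.sub_mem _ (d.I_mul' hb1 hx1 (by omega)) (d.I_mul' hx1 hb1 (by omega))
    have h4 := d.cong_mul (m := k + 2) (by omega) (s2 := (((eu x)⁻¹ : Aˣ) : A))
      (h2 := (((eu x)⁻¹ : Aˣ) : A)) (v2 := 0) h2 (by simp) h3 (by simp) (d.G1 hxG)
      (d.G1 (d.G.inv_mem hxG))
    rw [Units.mul_inv, ← Units.val_mul] at h4
    simpa [smul_sub] using h4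

/-- `W` is covered modulo degree `k+3` at an arbitrarily small cost in degree one -/
def Cov (k : ℕ) (W : Submodule ℂ A) : Prop :=
  ∀ η : ℝ, 0 < η → ∃ h ∈ d.G, ∃ a b : ℝ, a ≤ η ∧ b ≤ η ∧
    (h : A) - 1 - ((a : ℂ) • d.X + (b : ℂ) • d.Y) ∈ d.I 2 ∧
    ∀ v ∈ W, ∃ s ∈ d.S0, (s : A) - h - v ∈ d.I (k + 3)

omit [CompleteSpace A] [FiniteDimensional ℂ A] in
theorem lin_mem (a b : ℂ) : a • d.X + b • d.Y ∈ d.I 1 :=
  Submodule.add_mem _ (Submodule.smul_mem _ _ d.X_mem) (Submodule.smul_mem _ _ d.Y_mem)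

omit [CompleteSpace A] [FiniteDimensional ℂ A] in
theorem deg1_mul {g h : A} {a b a' b' : ℂ} (hg : g - 1 - (a • d.X + b • d.Y) ∈ d.I 2)
    (hh : h - 1 - (a' • d.X + b' • d.Y) ∈ d.I 2) :
    g * h - 1 - ((a + a') • d.X + (b + b') • d.Y) ∈ d.I 2 := by
  have := d.cong_mul (m := 1) le_rfl hg hh (d.lin_mem a b) (d.lin_mem a' b') (by simp) (by simp)
  convert this using 1
  simp only [add_smul, one_mul]; abel

theorem deg1_inv {h : Aˣ} (hG : h ∈ d.G) {a b : ℂ}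
    (hh : (h : A) - 1 - (a • d.X + b • d.Y) ∈ d.I 2) :
    ((h⁻¹ : Aˣ) : A) - 1 - ((-a) • d.X + (-b) • d.Y) ∈ d.I 2 := by
  have : ((h⁻¹ : Aˣ) : A) - 1 - ((-a) • d.X + (-b) • d.Y)
      = ((h⁻¹ : Aˣ) : A) * (((h : A) - 1) * (a • d.X + b • d.Y))
        - ((h⁻¹ : Aˣ) : A) * ((h : A) - 1 - (a • d.X + b • d.Y)) := by
    simp only [sub_mul, mul_sub, one_mul, mul_one, Units.inv_mul, Units.inv_mul_cancel_left,
      neg_smul]
    abel
  rw [this]
  have h0 := d.G0 (d.G.inv_mem hG)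
  exact Submodule.sub_mem _ (d.I_mul' h0 (d.I_mul (d.G1 hG) (d.lin_mem a b)) (by omega))
    (d.I_mul' h0 hh (by omega))

theorem cov_sup {k : ℕ} {W W' : Submodule ℂ A} (h : d.Cov k W) (h' : d.Cov k W')
    (hW : W ≤ d.I (k + 2)) (hW' : W' ≤ d.I (k + 2)) : d.Cov k (W ⊔ W') := by
  intro η hη
  obtain ⟨g, hg, a, b, ha, hb, h1, h2⟩ := h (η / 2) (by positivity)
  obtain ⟨g', hg', a', b', ha', hb', h1', h2'⟩ := h' (η / 2) (by positivity)
  refine ⟨g * g', d.G.mul_mem hg hg', a + a', b + b', by linarith, by linarith, ?_, ?_⟩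
  · simpa using d.deg1_mul h1 h1'
  · intro v hv
    obtain ⟨w, hw, w', hw', rfl⟩ := Submodule.mem_sup.1 hv
    obtain ⟨s, hs, h3⟩ := h2 w hw
    obtain ⟨s', hs', h3'⟩ := h2' w' hw'
    exact ⟨s * s', d.S0.mul_mem hs hs',
      d.cong_mul (m := k + 2) (by omega) h3 h3' (hW hw) (hW' hw') (d.G1 hg) (d.G1 hg')⟩

theorem cov_one {k : ℕ} {b' : A} (hb' : b' ∈ d.B (k + 1)) : d.Cov k (Submodule.span ℂ {b'}) := by
  intro η hη
  have key : ∀ x : A, x ∈ d.I 1 → eu ((η : ℂ) • x) ∈ d.S0 → ∀ b ∈ d.B k,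
      b' = b * (Complex.I • x) - (Complex.I • x) * b →
      ∀ v ∈ Submodule.span ℂ {b'}, ∃ s ∈ d.S0,
        (s : A) - (eu ((η : ℂ) • x) : Aˣ) - v ∈ d.I (k + 3) := by
    intro x hx hS b hb hbb v hv
    obtain ⟨z, rfl⟩ := Submodule.mem_span_singleton.1 hv
    obtain ⟨u1, hu1, h1⟩ := d.H_br hb' z.re
    obtain ⟨u, hu, h2⟩ := d.H_br hb (-z.im / η)
    have hx1 : (η : ℂ) • x ∈ d.I 1 := Submodule.smul_mem _ _ hx
    have hb1 : ((-z.im / η : ℝ) : ℂ) • b ∈ d.I (k + 1) := Submodule.smul_mem _ _ (d.B_mem hb).1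
    have h3 := d.conj_cong (w := eu ((η : ℂ) • x)) (d.S0_le_G (d.H_le_S0 hu)) hb1 h2 hx1
      (d.exp_sub_two hx1)
    have h4 := d.cong_mul (m := k + 2) (by omega) h1 h3
      (Submodule.smul_mem _ _ (d.B_mem hb').1)
      (Submodule.sub_mem _ (d.I_mul' hb1 hx1 (by omega)) (d.I_mul' hx1 hb1 (by omega)))
      (by simp) (d.G1 (d.S0_le_G hS))
    refine ⟨u1 * (u * eu ((η : ℂ) • x) * u⁻¹), d.S0.mul_mem (d.H_le_S0 hu1)
      (d.S0.mul_mem (d.S0.mul_mem (d.H_le_S0 hu) hS) (d.H_le_S0 (d.H.inv_mem hu))), ?_⟩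
    rw [one_mul, ← Units.val_mul] at h4
    convert h4 using 2
    have hη' : (η : ℂ) ≠ 0 := by exact_mod_cast hη.ne'
    have h5 : ((-z.im / η : ℝ) : ℂ) * η = (z.im * Complex.I) * Complex.I := by
      push_cast
      rw [mul_assoc, Complex.I_mul_I]; field_simp
    have h6 : ((-z.im / η : ℝ) : ℂ) • b * (η : ℂ) • x - (η : ℂ) • x * ((-z.im / η : ℝ) : ℂ) • b
        = ((z.im : ℂ) * Complex.I) • b' := by
      rw [hbb]
      simp only [smul_mul_assoc, mul_smul_comm, smul_smul, smul_sub]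
      rw [← h5, mul_comm (η : ℂ)]
    rw [h6, ← add_smul, Complex.re_add_im]
  obtain ⟨b, hb, x, hx, hbb⟩ := id hb'
  rcases hx with rfl | rfl
  · have hS : eu ((η : ℂ) • d.X) ∈ d.S0 := Submonoid.subset_closure ⟨η, by simpa using hη.le, Or.inl rfl⟩
    refine ⟨eu ((η : ℂ) • d.X), d.S0_le_G hS, η, 0, le_rfl, hη.le, ?_, key d.X d.X_mem hS b hb hbb⟩
    simpa using d.exp_sub_two (Submodule.smul_mem _ (η : ℂ) d.X_mem)
  · have hS : eu ((η : ℂ) • d.Y) ∈ d.S0 := Submonoid.subset_closure ⟨η, by simpa using hη.le, Or.inr rfl⟩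
    refine ⟨eu ((η : ℂ) • d.Y), d.S0_le_G hS, 0, η, hη.le, le_rfl, ?_, key d.Y d.Y_mem hS b hb hbb⟩
    simpa using d.exp_sub_two (Submodule.smul_mem _ (η : ℂ) d.Y_mem)

theorem cov_V (k : ℕ) : d.Cov k (d.V (k + 1)) := by
  have : ∀ s : Set A, s.Finite → s ⊆ d.B (k + 1) → d.Cov k (Submodule.span ℂ s) := by
    intro s hs
    induction s, hs using Set.Finite.induction_on with
    | empty =>
      intro _ η hη
      refine ⟨1, d.G.one_mem, 0, 0, hη.le, hη.le, by simp, fun v hv => ⟨1, d.S0.one_mem, ?_⟩⟩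
      have : v = 0 := by simpa using hv
      simp [this]
    | @insert a s _ _ ih =>
      intro h
      rw [Submodule.span_insert]
      refine d.cov_sup (d.cov_one (h (by simp))) (ih (fun x hx => h (by simp [hx]))) ?_ ?_
      · exact Submodule.span_le.2 (fun x hx => by
          rw [Set.mem_singleton_iff.1 hx]; exact (d.B_mem (h (by simp))).1)
      · exact Submodule.span_le.2 (fun x hx => (d.B_mem (h (by simp [hx]))).1)
  exact this _ (d.B_fin _) le_rfl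

theorem approx (k : ℕ) : ∀ g ∈ d.G, ∀ a b : ℂ, 0 < a.re → 0 < b.re →
    (g : A) - 1 - (a • d.X + b • d.Y) ∈ d.I 2 → ∃ s ∈ d.S0, (s : A) - g ∈ d.I (k + 2) := by
  induction k with
  | zero =>
    intro g _ a b ha hb h
    refine ⟨eu (a • d.X) * eu (b • d.Y), d.S0.mul_mem
      (Submonoid.subset_closure ⟨a, ha.le, Or.inl rfl⟩)
      (Submonoid.subset_closure ⟨b, hb.le, Or.inr rfl⟩), ?_⟩
    have h1 := d.deg1_mul (a := a) (b := 0) (a' := 0) (b' := b)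
      (g := exp (a • d.X)) (h := exp (b • d.Y))
      (by simpa using d.exp_sub_two (Submodule.smul_mem _ a d.X_mem))
      (by simpa using d.exp_sub_two (Submodule.smul_mem _ b d.Y_mem))
    have := Submodule.sub_mem _ h1 h
    convert this using 1
    simp
  | succ k ih =>
    intro g hg a b ha hb h
    obtain ⟨h', hh', a', b', ha', hb', h1, h2⟩ := d.cov_V k (min a.re b.re / 2) (by positivity)
    have hg' := d.G.mul_mem hg (d.G.inv_mem hh')
    have m1 := min_le_left a.re b.re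
    have m2 := min_le_right a.re b.re
    obtain ⟨s', hs', h3⟩ := ih (g * h'⁻¹) hg' (a + -a') (b + -b') (by simp; linarith)
      (by simp; linarith) (d.deg1_mul h (d.deg1_inv hh' h1))
    set g' := g * h'⁻¹ with hg'def
    have h4 : ((g'⁻¹ * s' : Aˣ) : A) - 1 ∈ d.I (k + 1 + 1) := by
      have := d.I_mul' (m := k + 2) (d.G0 (d.G.inv_mem hg')) h3 (by omega)
      simpa [mul_sub] using this
    obtain ⟨v, hv, h5⟩ := d.G_lead (d.G.mul_mem (d.G.inv_mem hg') (d.S0_le_G hs')) h4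
    have hv1 := (d.V_mem hv).1
    have h6 : (s' : A) - g' - v ∈ d.I (k + 3) := by
      have : (s' : A) - g' - v = g' * (((g'⁻¹ * s' : Aˣ) : A) - 1 - v) + (g' - 1) * v := by
        simp only [Units.val_mul, mul_sub, Units.mul_inv_cancel_left, sub_mul, mul_one, one_mul]
        abel
      rw [this]
      exact Submodule.add_mem _ (d.I_mul' (d.G0 hg') h5 (by omega))
        (d.I_mul' (d.G1 hg') hv1 (by omega))
    obtain ⟨s'', hs'', h7⟩ := h2 (-v) (Submodule.neg_mem _ hv)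
    refine ⟨s' * s'', d.S0.mul_mem hs' hs'', ?_⟩
    have := d.cong_mul (m := k + 2) (by omega) h6 h7 hv1 (Submodule.neg_mem _ hv1) (d.G1 hg')
      (d.G1 hh')
    simpa [hg'def] using this

theorem mem_S0 {g : Aˣ} (hg : g ∈ d.G) {a b : ℂ} (ha : 0 < a.re) (hb : 0 < b.re)
    (h : (g : A) - 1 - (a • d.X + b • d.Y) ∈ d.I 2) : g ∈ d.S0 := by
  obtain ⟨M, hM⟩ := d.I_bot
  obtain ⟨s, hs, h1⟩ := d.approx M g hg a b ha hb h
  have : s = g := Units.ext (sub_eq_zero.1 (hM _ (d.I_anti (by omega) h1)))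
  exact this ▸ hs

end Dat

end Pool.Agent.H3.Spl
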