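import Pool.Agent.H3.Spl2

open NormedSpace Filter Topology

namespace Pool.Agent.H3.Spl

variable {A : Type} [NormedRing A] [NormedAlgebra ℂ A] [CompleteSpace A] [FiniteDimensional ℂ A]

namespace Dat

variable (d : Dat A)

/-- a differentiable family in `S` through `u` whose right logarithmic derivative covers `W` -/
def Fam (W : Submodule ℂ A) (u : Aˣ) : Prop :=
  ∃ (E : Type) (_ : NormedAddCommGroup E) (_ : NormedSpace ℂ E) (_ : CompleteSpace E)
    (p : E → Aˣ) (x p' q' : E →L[ℂ] A), p 0 = u ∧ (∀ᶠ e in 𝓝 (0 : E), p e ∈ d.S) ∧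
    HasStrictFDerivAt (fun e => ((p e : Aˣ) : A)) p' 0 ∧ (∀ ξ, p' ξ = x ξ * u) ∧
    HasStrictFDerivAt (fun e => (((p e)⁻¹ : Aˣ) : A)) q' 0 ∧
    (∀ ξ, q' ξ = -(((u⁻¹ : Aˣ) : A) * x ξ)) ∧ ∀ w ∈ W, ∃ ξ, x ξ = w

/-- conjugation as a linear map -/
noncomputable def Ad (u : Aˣ) : A →ₗ[ℂ] A :=
  (LinearMap.mulRight ℂ ((u⁻¹ : Aˣ) : A)).comp (LinearMap.mulLeft ℂ (u : A))

omit [CompleteSpace A] [FiniteDimensional ℂ A] in
theorem Ad_apply (u : Aˣ) (a : A) : Ad u a = u * a * (u⁻¹ : Aˣ) := rfl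

omit [FiniteDimensional ℂ A] in
theorem Fam.mem {W : Submodule ℂ A} {u : Aˣ} (h : d.Fam W u) : u ∈ d.S := by
  obtain ⟨E, _, _, _, p, x, p', q', h0, h1, -⟩ := h
  exact h0 ▸ h1.self_of_nhds

omit [FiniteDimensional ℂ A] in
theorem Fam.mono {W W' : Submodule ℂ A} {u : Aˣ} (h : d.Fam W u) (hW : W' ≤ W) : d.Fam W' u := by
  obtain ⟨E, i1, i2, i3, p, x, p', q', h0, h1, h2, h3, h4, h5, h6⟩ := h
  exact ⟨E, i1, i2, i3, p, x, p', q', h0, h1, h2, h3, h4, h5, fun w hw => h6 w (hW hw)⟩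

omit [FiniteDimensional ℂ A] in
theorem fam_gen {z : A} (hz : z = d.X ∨ z = d.Y) {α : ℂ} (hα : 0 < α.re) :
    d.Fam (Submodule.span ℂ {z}) (eu (α • z)) := by
  have hp : HasStrictDerivAt (fun e : ℂ => exp ((α + e) • z)) (z * exp (α • z)) 0 := by
    have h1 := hasStrictDerivAt_exp_smul_const' (𝕂 := ℂ) z (α + 0)
    have h2 := h1.scomp (0 : ℂ) ((hasStrictDerivAt_id (0 : ℂ)).const_add α)
    simp only [one_smul, add_zero] at h2
    exact h2
  have hq : HasStrictDerivAt (fun e : ℂ => exp ((α + e) • (-z))) (exp (α • (-z)) * (-z)) 0 := by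
    have h1 := hasStrictDerivAt_exp_smul_const (𝕂 := ℂ) (-z) (α + 0)
    have h2 := h1.scomp (0 : ℂ) ((hasStrictDerivAt_id (0 : ℂ)).const_add α)
    simp only [one_smul, add_zero] at h2
    exact h2
  refine ⟨ℂ, inferInstance, inferInstance, inferInstance, fun e => eu ((α + e) • z),
    ContinuousLinearMap.toSpanSingleton ℂ z, _, _, by simp, ?_, hp.hasStrictFDerivAt, ?_,
    by simpa using hq.hasStrictFDerivAt, ?_, ?_⟩
  · have : ∀ᶠ e : ℂ in 𝓝 0, 0 < (α + e).re := by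
      have hc : Continuous fun e : ℂ => (α + e).re := by fun_prop
      exact hc.continuousAt.eventually (lt_mem_nhds (by simpa using hα))
    filter_upwards [this] with e he
    rcases hz with rfl | rfl
    · exact Submonoid.subset_closure ⟨_, he, Or.inl rfl⟩
    · exact Submonoid.subset_closure ⟨_, he, Or.inr rfl⟩
  · intro ξ; simp
  · intro ξ; simp
  · intro w hw
    obtain ⟨c, rfl⟩ := Submodule.mem_span_singleton.1 hw
    exact ⟨c, by simp⟩

omit [FiniteDimensional ℂ A] in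
theorem Fam.mul {W W' : Submodule ℂ A} {u u' : Aˣ} (h : d.Fam W u) (h' : d.Fam W' u') :
    d.Fam (W ⊔ W'.map (Ad u)) (u * u') := by
  obtain ⟨E, i1, i2, i3, p, x, p', q', h0, h1, h2, h3, h4, h5, h6⟩ := h
  obtain ⟨F, j1, j2, j3, r, y, r', t', k0, k1, k2, k3, k4, k5, k6⟩ := h'
  have f1 : HasStrictFDerivAt (Prod.fst : E × F → E) (ContinuousLinearMap.fst ℂ E F) 0 :=
    hasStrictFDerivAt_fst
  have f2 : HasStrictFDerivAt (Prod.snd : E × F → F) (ContinuousLinearMap.snd ℂ E F) 0 :=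
    hasStrictFDerivAt_snd
  have hp := (HasStrictFDerivAt.comp (0 : E × F) h2 f1).mul' (HasStrictFDerivAt.comp (0 : E × F) k2 f2)
  have hq := (HasStrictFDerivAt.comp (0 : E × F) k4 f2).mul' (HasStrictFDerivAt.comp (0 : E × F) h4 f1)
  let xx : E × F →L[ℂ] A := x.comp (ContinuousLinearMap.fst ℂ E F) +
    (ContinuousLinearMap.mulLeftRight ℂ A u (u⁻¹ : Aˣ)).comp (y.comp (ContinuousLinearMap.snd ℂ E F))
  have hxx : ∀ ξ : E × F, xx ξ = x ξ.1 + u * y ξ.2 * (u⁻¹ : Aˣ) := fun ξ => by simp [xx]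
  refine ⟨E × F, inferInstance, inferInstance, inferInstance, fun e => p e.1 * r e.2, xx, _, _,
    by simp [h0, k0], ?_, hp, ?_, by simp only [mul_inv_rev, Units.val_mul]; exact hq, ?_, ?_⟩
  · have a1 := (continuous_fst.tendsto (0 : E × F)).eventually h1
    have a2 := (continuous_snd.tendsto (0 : E × F)).eventually k1
    filter_upwards [a1, a2] with e e1 e2
    exact d.S.mul_mem e1 e2
  · intro ξ
    rw [hxx]
    simp [h0, k0, h3, k3, add_mul, mul_assoc, add_comm]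
  · intro ξ
    rw [hxx]
    simp [h0, k0, h5, k5, mul_add, mul_assoc, add_comm]
  · intro w hw
    obtain ⟨a, ha, b, hb, rfl⟩ := Submodule.mem_sup.1 hw
    obtain ⟨c, hc, rfl⟩ := Submodule.mem_map.1 hb
    obtain ⟨ξ, rfl⟩ := h6 a ha
    obtain ⟨ζ, rfl⟩ := k6 c hc
    exact ⟨(ξ, ζ), by rw [hxx, Ad_apply]⟩

noncomputable def Wall : Submodule ℂ A := ⨆ (W : Submodule ℂ A) (_ : ∃ u, d.Fam W u), W

omit [FiniteDimensional ℂ A] in
theorem le_Wall {W : Submodule ℂ A} {u : Aˣ} (h : d.Fam W u) : W ≤ d.Wall :=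
  le_iSup₂_of_le (f := fun (W : Submodule ℂ A) (_ : ∃ u, d.Fam W u) => W) W ⟨u, h⟩ le_rfl

omit [FiniteDimensional ℂ A] in
theorem Wall_le {W0 : Submodule ℂ A} (h : ∀ W u, d.Fam W u → W ≤ W0) : d.Wall ≤ W0 :=
  iSup₂_le fun W ⟨u, hu⟩ => h W u hu

theorem Wall_br {z : A} (hz : z = d.X ∨ z = d.Y) {w : A} (hw : w ∈ d.Wall) :
    z * w - w * z ∈ d.Wall := by
  have h1 : ∀ t : ℂ, 0 < t.re → d.Wall ≤ d.Wall.comap (Ad (eu (t • z))) := fun t ht =>
    d.Wall_le fun W u hu => by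
      rw [← Submodule.map_le_iff_le_comap]
      exact le_sup_right.trans (d.le_Wall ((d.fam_gen hz ht).mul d hu))
  have := deriv_mem d.Wall _ _ (hd_conj z w 0) (by simpa using hw)
    (fun t ht => by simpa [Ad_apply] using h1 t ht hw)
  simpa using this

theorem L_le_Wall : d.L 0 ≤ d.Wall := by
  have h0 : ∀ z, z = d.X ∨ z = d.Y → z ∈ d.Wall := fun z hz =>
    d.le_Wall (d.fam_gen hz (α := 1) (by simp)) (Submodule.mem_span_singleton_self z)
  have : ∀ k, ∀ b ∈ d.B k, b ∈ d.Wall := by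
    intro k
    induction k with
    | zero =>
      rintro b (rfl | rfl)
      · exact Submodule.smul_mem _ _ (h0 _ (Or.inl rfl))
      · exact Submodule.smul_mem _ _ (h0 _ (Or.inr rfl))
    | succ k ih =>
      rintro _ ⟨b, hb, x, (rfl | rfl), rfl⟩
      · have := Submodule.smul_mem _ (-Complex.I) (d.Wall_br (Or.inl rfl) (ih b hb))
        convert this using 1
        simp only [smul_sub, mul_smul_comm, smul_mul_assoc, neg_smul]; abel
      · have := Submodule.smul_mem _ (-Complex.I) (d.Wall_br (Or.inr rfl) (ih b hb))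
        convert this using 1
        simp only [smul_sub, mul_smul_comm, smul_mul_assoc, neg_smul]; abel
  apply Submodule.span_le.2
  rintro b ⟨j, -, hb⟩
  exact this j b hb

theorem exists_fam : ∃ u, d.Fam (d.L 0) u := by
  obtain ⟨W0, ⟨u0, h0⟩, hmax⟩ := set_has_maximal_iff_noetherian.2 (inferInstance : IsNoetherian ℂ A)
    {W | ∃ u, d.Fam W u} ⟨_, _, d.fam_gen (Or.inl rfl) (α := 1) (by simp)⟩
  refine ⟨u0, h0.mono d ?_⟩
  have h1 : d.Wall ≤ W0.comap (Ad u0) := d.Wall_le fun W u hu => by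
    rw [← Submodule.map_le_iff_le_comap]
    have h2 := hmax _ ⟨_, h0.mul d hu⟩
    have h3 : W0 = W0 ⊔ W.map (Ad u0) := by
      by_contra hne
      exact h2 (lt_of_le_of_ne le_sup_left hne)
    exact le_sup_right.trans h3.ge
  intro ξ hξ
  have hG := d.S0_le_G (d.S_le_S0 (h0.mem d))
  have h2 := (d.G_prop (d.G.inv_mem hG)).2.1 ξ hξ
  have h3 := h1 (d.L_le_Wall h2)
  simpa [Ad_apply, mul_assoc] using h3

omit [FiniteDimensional ℂ A] in
theorem cont_eu (z : A) : Continuous fun t : ℂ => eu (t • z) := by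
  rw [Units.continuous_iff]
  refine ⟨(differentiable_exp_smul_const ℂ z).continuous, ?_⟩
  simpa using (differentiable_exp_smul_const ℂ (-z)).continuous

omit [FiniteDimensional ℂ A] in
theorem S0_closure {s : Aˣ} (hs : s ∈ d.S0) : s ∈ closure (d.S : Set Aˣ) := by
  have : d.S0 ≤ d.S.topologicalClosure := by
    apply Submonoid.closure_le.2
    rintro u ⟨α, hα, h⟩
    have key : ∀ z, z = d.X ∨ z = d.Y → eu (α • z) ∈ closure (d.S : Set Aˣ) := by
      intro z hz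
      have hc : Continuous fun t : ℝ => eu ((α + t) • z) :=
        (cont_eu z).comp (by fun_prop)
      have ht : Tendsto (fun t : ℝ => eu ((α + t) • z)) (𝓝[>] 0) (𝓝 (eu (α • z))) := by
        simpa using (hc.tendsto 0).mono_left nhdsWithin_le_nhds
      refine mem_closure_of_tendsto ht ?_
      filter_upwards [self_mem_nhdsWithin] with t ht
      have h1 : 0 < (α + t).re := by
        have : 0 < t := ht
        simp; linarith
      rcases hz with rfl | rfl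
      · exact Submonoid.subset_closure ⟨_, h1, Or.inl rfl⟩
      · exact Submonoid.subset_closure ⟨_, h1, Or.inr rfl⟩
    rcases h with rfl | rfl
    · exact key _ (Or.inl rfl)
    · exact key _ (Or.inr rfl)
  exact this hs

theorem inj_G {g h : Aˣ} (hg : g ∈ d.G) (hh : h ∈ d.G)
    (e : (g : A) * d.Δ * (g⁻¹ : Aˣ) = h * d.Δ * (h⁻¹ : Aˣ)) : g = h := by
  have hk := d.G1 (d.G.mul_mem (d.G.inv_mem hh) hg)
  have h1 : d.D (((h⁻¹ * g : Aˣ) : A) - 1) = ((0 : ℕ) : ℂ) • (((h⁻¹ * g : Aˣ) : A) - 1) := by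
    have h2 : ((h⁻¹ : Aˣ) : A) * (g * d.Δ * (g⁻¹ : Aˣ)) * g
        = (h⁻¹ : Aˣ) * (h * d.Δ * (h⁻¹ : Aˣ)) * g := by rw [e]
    simp only [mul_assoc, Units.inv_mul, mul_one, Units.inv_mul_cancel_left] at h2
    simp only [D, Units.val_mul, mul_sub, sub_mul, mul_assoc, h2]
    simp
  have h3 := d.eig_zero hk h1 (by omega)
  have h4 : h⁻¹ * g = 1 := Units.ext (sub_eq_zero.1 h3)
  exact (inv_mul_eq_one.1 h4).symm

theorem mem_S : ∃ c : ℝ, ∀ g ∈ d.G, ∀ a b : ℂ, c < a.re → c < b.re →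
    (g : A) - 1 - (a • d.X + b • d.Y) ∈ d.I 2 → g ∈ d.S := by
  obtain ⟨u, hu⟩ := d.exists_fam
  have huG := d.S0_le_G (d.S_le_S0 (hu.mem d))
  obtain ⟨v, hv, hv2⟩ := d.G_lead huG (k := 0) (d.G1 huG)
  obtain ⟨a0, b0, rfl⟩ := d.V0_form hv
  obtain ⟨E, i1, i2, i3, p, x, p', q', h0, h1, h2, h3, h4, h5, h6⟩ := hu
  obtain ⟨W', hW⟩ := (d.L 0).exists_isCompl
  let pr : A →L[ℂ] d.L 0 := LinearMap.toContinuousLinearMap ((d.L 0).projectionOnto W' hW)
  have hpr : ∀ a (ha : a ∈ d.L 0), pr a = ⟨a, ha⟩ := fun a ha => by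
    simpa [pr] using Submodule.projectionOnto_apply_left hW ⟨a, ha⟩
  let Φ : Aˣ → d.L 0 := fun g => pr (d.Δ - (g : A) * d.Δ * (g⁻¹ : Aˣ))
  have hΦ : Continuous Φ := by
    refine pr.continuous.comp (continuous_const.sub ?_)
    exact (Units.continuous_val.mul continuous_const).mul Units.continuous_coe_inv
  have hd := pr.hasStrictFDerivAt.comp (0 : E)
    (((h2.mul_const' d.Δ).mul' h4).const_sub d.Δ)
  have : CompleteSpace (d.L 0) := FiniteDimensional.complete ℂ _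
  have hmap := hd.map_nhds_eq_of_surj (by
    rw [LinearMap.range_eq_top]
    rintro ⟨γ, hγ⟩
    obtain ⟨y, hy, hy2⟩ := d.D_surj ((d.G_prop (d.G.inv_mem huG)).2.1 γ hγ)
    obtain ⟨ξ, hξ⟩ := h6 _ ((d.G_prop huG).2.1 y hy)
    refine ⟨ξ, ?_⟩
    rw [← hpr γ hγ]
    simp only [ContinuousLinearMap.coe_coe, ContinuousLinearMap.comp_apply]
    congr 1
    have h7 : γ = u * d.D y * (u⁻¹ : Aˣ) := by rw [hy2]; simp [mul_assoc]
    rw [h7]
    simp [h0, h3, h5, hξ, D, mul_assoc, mul_sub, sub_mul]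
    abel)
  have hU : (fun e => Φ (p e)) '' {e | p e ∈ d.S} ∈ 𝓝 (Φ u) := by
    have := Filter.image_mem_map (m := fun e => Φ (p e)) h1
    rw [← h0]
    exact hmap.ge this
  refine ⟨max a0.re b0.re, fun g hg a b ha hb h => ?_⟩
  have m1 := le_max_left a0.re b0.re
  have m2 := le_max_right a0.re b0.re
  have hs0 : g * u⁻¹ ∈ d.S0 := d.mem_S0 (d.G.mul_mem hg (d.G.inv_mem huG))
    (a := a + -a0) (b := b + -b0) (by simp; linarith) (by simp; linarith)
    (d.deg1_mul h (d.deg1_inv huG hv2))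
  have hc : Continuous fun s : Aˣ => Φ (s⁻¹ * g) := hΦ.comp (by fun_prop)
  have hO : (fun s : Aˣ => Φ (s⁻¹ * g)) ⁻¹' ((fun e => Φ (p e)) '' {e | p e ∈ d.S})
      ∈ 𝓝 (g * u⁻¹) := hc.continuousAt.preimage_mem_nhds (by simpa using hU)
  obtain ⟨s, ⟨e, he, hs1⟩, hs2⟩ := mem_closure_iff_nhds.1 (d.S0_closure hs0) _ hO
  have heG := d.S0_le_G (d.S_le_S0 he)
  have hsG := d.G.mul_mem (d.G.inv_mem (d.S0_le_G (d.S_le_S0 hs2))) hg
  have h8 : p e = s⁻¹ * g := by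
    apply d.inj_G heG hsG
    simp only [Φ] at hs1
    rw [hpr _ (d.G_prop heG).2.2, hpr _ (d.G_prop hsG).2.2] at hs1
    exact sub_right_injective (Subtype.ext_iff.1 hs1)
  have : g = s * p e := by rw [h8]; simp
  rw [this]
  exact d.S.mul_mem hs2 he

/-- product of the blocks -/
noncomputable def blk : List (ℂ × ℂ) → Aˣ
  | [] => 1
  | c :: l => blk l * (eu (c.2 • d.Y) * eu (c.1 • d.X))

/-- nonempty lists of pairs with positive real parts -/
def Pos (l : List (ℂ × ℂ)) : Prop := l ≠ [] ∧ ∀ c ∈ l, 0 < c.1.re ∧ 0 < c.2.re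

omit [FiniteDimensional ℂ A] in
theorem blk_of_S {s : Aˣ} (hs : s ∈ d.S) :
    (∀ α β : ℂ, 0 < α.re → 0 < β.re → ∃ l, Pos l ∧ d.blk l = eu (β • d.Y) * s * eu (α • d.X)) ∧
    (∀ α β β' : ℂ, 0 < α.re → 0 < β.re → 0 < β'.re →
      ∃ l, Pos l ∧ d.blk l = eu (β • d.Y) * s * eu (β' • d.Y) * eu (α • d.X)) := by
  induction hs using Submonoid.closure_induction_right with
  | one =>
    refine ⟨fun α β hα hβ => ⟨[(α, β)], ⟨by simp, by simp [hα, hβ]⟩, by simp [blk]⟩,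
      fun α β β' hα hβ hβ' => ⟨[(α, β + β')], ⟨by simp, ?_⟩, by simp [blk, eu_smul_add]⟩⟩
    simp only [List.mem_singleton, forall_eq, Complex.add_re]
    exact ⟨hα, by linarith⟩
  | mul_right s _ y hy ih =>
    obtain ⟨γ, hγ, rfl | rfl⟩ := hy
    · refine ⟨fun α β hα hβ => ?_, fun α β β' hα hβ hβ' => ?_⟩
      · obtain ⟨l, h1, h2⟩ := ih.1 (γ + α) β (by simp; linarith) hβ
        exact ⟨l, h1, by rw [h2, eu_smul_add]; simp [mul_assoc]⟩
      · obtain ⟨l, h1, h2⟩ := ih.1 γ β hγ hβ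
        refine ⟨(α, β') :: l, ⟨by simp, ?_⟩, by simp [blk, h2, mul_assoc]⟩
        intro c hc
        rcases List.mem_cons.1 hc with rfl | hc
        · exact ⟨hα, hβ'⟩
        · exact h1.2 c hc
    · refine ⟨fun α β hα hβ => ?_, fun α β β' hα hβ hβ' => ?_⟩
      · obtain ⟨l, h1, h2⟩ := ih.2 α β γ hα hβ hγ
        exact ⟨l, h1, by rw [h2]; simp [mul_assoc]⟩
      · obtain ⟨l, h1, h2⟩ := ih.2 α β (γ + β') hα hβ (by simp; linarith)
        exact ⟨l, h1, by rw [h2, eu_smul_add]; simp [mul_assoc]⟩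

theorem alg_main : ∃ t : ℝ, 0 < t ∧ ∃ l, Pos l ∧ d.blk l = eu ((t : ℂ) • d.X + (t : ℂ) • d.Y) := by
  obtain ⟨c, hc⟩ := d.mem_S
  set t : ℝ := |c| + 2 with ht
  have h1 := le_abs_self c
  have h2 := abs_nonneg c
  have hX : ∀ a : ℂ, eu (a • d.X) ∈ d.G := fun a => d.eu_G (Submodule.smul_mem _ _ d.X_V)
  have hY : ∀ a : ℂ, eu (a • d.Y) ∈ d.G := fun a => d.eu_G (Submodule.smul_mem _ _ d.Y_V)
  have hZ : eu ((t : ℂ) • d.X + (t : ℂ) • d.Y) ∈ d.G :=
    d.eu_G (Submodule.add_mem _ (Submodule.smul_mem _ _ d.X_V) (Submodule.smul_mem _ _ d.Y_V))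
  have e1 : exp ((-1 : ℂ) • d.Y) - 1 - ((0 : ℂ) • d.X + (-1 : ℂ) • d.Y) ∈ d.I 2 := by
    simpa using d.exp_sub_two (Submodule.smul_mem _ (-1 : ℂ) d.Y_mem)
  have e2 : exp ((-1 : ℂ) • d.X) - 1 - ((-1 : ℂ) • d.X + (0 : ℂ) • d.Y) ∈ d.I 2 := by
    simpa using d.exp_sub_two (Submodule.smul_mem _ (-1 : ℂ) d.X_mem)
  have e3 := d.exp_sub_two (d.lin_mem t t)
  have hS := hc (eu ((-1 : ℂ) • d.Y) * eu ((t : ℂ) • d.X + (t : ℂ) • d.Y) * eu ((-1 : ℂ) • d.X))
    (d.G.mul_mem (d.G.mul_mem (hY _) hZ) (hX _)) _ _ (by simp; linarith) (by simp; linarith)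
    (d.deg1_mul (d.deg1_mul e1 e3) e2)
  obtain ⟨l, hl, h⟩ := (d.blk_of_S hS).1 1 1 (by simp) (by simp)
  refine ⟨t, by linarith, l, hl, ?_⟩
  rw [h]
  simp only [neg_smul, one_smul, ← eu_inv]
  group

end Dat

end Pool.Agent.H3.Spl
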