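import Mathlib

open Metric Set MeasureTheory

namespace Pool.Agent.H3.Spl

variable {E : Type} [NormedAddCommGroup E] [NormedSpace ℂ E] [FiniteDimensional ℂ E]

omit [FiniteDimensional ℂ E] in
theorem line_deriv {f : E → E} (hf : Differentiable ℂ f) (x v : E) :
    Differentiable ℂ (fun t : ℂ => f (x + t • v)) ∧
      deriv (fun t : ℂ => f (x + t • v)) 0 = fderiv ℂ f x v := by
  refine ⟨by fun_prop, ?_⟩
  have h1 : HasDerivAt (fun t : ℂ => x + t • v) v 0 := by
    simpa using ((hasDerivAt_id (0 : ℂ)).smul_const v).const_add x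
  have h2 := (hf (x + (0 : ℂ) • v)).hasFDerivAt.comp_hasDerivAt (0 : ℂ) h1
  simp only [zero_smul, add_zero] at h2
  exact h2.deriv

omit [FiniteDimensional ℂ E] in
theorem fderiv_bound {f : E → E} (hf : Differentiable ℂ f) {x : E} {M : ℝ}
    (hM : ∀ y ∈ closedBall x 1, ‖f y‖ ≤ M) : ‖fderiv ℂ f x‖ ≤ M := by
  have h0 : 0 ≤ M := (norm_nonneg _).trans (hM x (mem_closedBall_self zero_le_one))
  refine ContinuousLinearMap.opNorm_le_bound' _ h0 fun v hv => ?_
  have hv' : 0 < ‖v‖ := lt_of_le_of_ne (norm_nonneg _) (Ne.symm hv)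
  obtain ⟨h1, h2⟩ := line_deriv hf x v
  have := Complex.norm_deriv_le_of_forall_mem_sphere_norm_le (c := 0) (R := ‖v‖⁻¹) (C := M)
    (by positivity) h1.diffContOnCl (fun z hz => hM _ (by
      have hz' : ‖z‖ = ‖v‖⁻¹ := by simpa using hz
      simp [norm_smul, hz', inv_mul_cancel₀ hv]))
  rw [h2] at this
  simpa using this

theorem ball_bound {f : E → E} (hf : Continuous f) (x : E) (r : ℝ) :
    ∃ M : ℝ, 0 ≤ M ∧ ∀ y ∈ closedBall x r, ‖f y‖ ≤ M := by
  have : ProperSpace E := FiniteDimensional.proper ℂ E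
  obtain ⟨M, hM⟩ := (isCompact_closedBall x r).exists_bound_of_continuousOn hf.continuousOn
  exact ⟨max M 0, le_max_right _ _, fun y hy => (hM y hy).trans (le_max_left _ _)⟩

theorem fderiv_ball_bound {f : E → E} (hf : Differentiable ℂ f) (x : E) (r : ℝ) :
    ∃ M : ℝ, 0 ≤ M ∧ ∀ y ∈ closedBall x r, ‖fderiv ℂ f y‖ ≤ M := by
  obtain ⟨M, h0, hM⟩ := ball_bound hf.continuous x (r + 1)
  refine ⟨M, h0, fun y hy => fderiv_bound hf fun z hz => hM z ?_⟩
  rw [mem_closedBall] at *
  linarith [dist_triangle z y x]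

theorem diff_fderiv_const {f : E → E} (hf : Differentiable ℂ f) (v : E) :
    Differentiable ℂ (fun x => fderiv ℂ f x v) := by
  have : CompleteSpace E := FiniteDimensional.complete ℂ E
  have : ProperSpace E := FiniteDimensional.proper ℂ E
  borelize E
  borelize (E →L[ℂ] E)
  let k : ℝ → ℂ := fun θ => deriv (circleMap 0 1) θ * (1 / (circleMap 0 1 θ - 0) ^ 2)
  have hk : ∀ θ, ‖k θ‖ = 1 := fun θ => by simp [k]
  have hkc : Continuous k := by
    simp only [k, deriv_circleMap]
    refine Continuous.mul (by fun_prop) (continuous_const.div (by fun_prop) fun θ => ?_)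
    simp
  have hform : (fun x => fderiv ℂ f x v) = fun x => (2 * Real.pi * Complex.I : ℂ)⁻¹ •
      ∫ θ in (0 : ℝ)..2 * Real.pi, k θ • f (x + circleMap 0 1 θ • v) := by
    funext x
    obtain ⟨h1, h2⟩ := line_deriv hf x v
    have h3 := (h1.diffContOnCl (s := ball 0 1)).deriv_eq_smul_circleIntegral one_pos
    rw [h2] at h3
    have h4 : (∫ θ in (0 : ℝ)..2 * Real.pi, k θ • f (x + circleMap 0 1 θ • v))
        = (2 * Real.pi * Complex.I : ℂ) • fderiv ℂ f x v := by
      rw [← h3, circleIntegral]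
      simp only [k, mul_smul]
    rw [h4, smul_smul, inv_mul_cancel₀ Complex.two_pi_I_ne_zero, one_smul]
  rw [hform]
  intro x0
  obtain ⟨M, -, hM⟩ := fderiv_ball_bound hf x0 (1 + ‖v‖)
  have hc : ∀ x, Continuous fun θ : ℝ => k θ • f (x + circleMap 0 1 θ • v) := fun x =>
    hkc.smul (hf.continuous.comp (by fun_prop))
  have := intervalIntegral.hasFDerivAt_integral_of_dominated_of_fderiv_le (𝕜 := ℂ) (μ := volume)
    (a := 0) (b := 2 * Real.pi) (F := fun x θ => k θ • f (x + circleMap 0 1 θ • v))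
    (F' := fun x θ => k θ • fderiv ℂ f (x + circleMap 0 1 θ • v)) (x₀ := x0) (bound := fun _ => M)
    (closedBall_mem_nhds x0 one_pos) (Filter.Eventually.of_forall fun x => (hc x).aestronglyMeasurable)
    ((hc x0).intervalIntegrable _ _) ?_ ?_ (by simp) ?_
  · exact this.differentiableAt.const_smul _
  · refine hkc.aestronglyMeasurable.smul (Measurable.aestronglyMeasurable ?_)
    exact (measurable_fderiv ℂ f).comp (Continuous.measurable (by fun_prop))
  · refine Filter.Eventually.of_forall fun θ _ x hx => ?_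
    rw [norm_smul, hk, one_mul]
    apply hM
    rw [mem_closedBall, dist_eq_norm] at *
    have h1 : x + circleMap 0 1 θ • v - x0 = (x - x0) + circleMap 0 1 θ • v := by abel
    rw [h1]
    refine (norm_add_le _ _).trans ?_
    simp [norm_smul, hx]
  · refine Filter.Eventually.of_forall fun θ _ x _ => ?_
    have h1 := (hf (x + circleMap 0 1 θ • v)).hasFDerivAt.comp x
      ((hasFDerivAt_id x).add_const (circleMap 0 1 θ • v))
    simp only [ContinuousLinearMap.comp_id] at h1
    exact h1.const_smul (k θ)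

theorem diff_lie {g f : E → E} (hg : Differentiable ℂ g) (hf : Differentiable ℂ f) :
    Differentiable ℂ (fun x => fderiv ℂ g x (f x)) := by
  let b := Module.finBasis ℂ E
  have : (fun x => fderiv ℂ g x (f x))
      = fun x => ∑ i, (LinearMap.toContinuousLinearMap (b.coord i) (f x)) • fderiv ℂ g x (b i) := by
    funext x
    conv_lhs => rw [← b.sum_repr (f x), map_sum]
    simp only [map_smul]
    rfl
  rw [this]
  refine Differentiable.fun_sum fun i _ => ?_
  exact ((LinearMap.toContinuousLinearMap (b.coord i)).differentiable.comp hf).smul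
    (diff_fderiv_const hg (b i))

omit [FiniteDimensional ℂ E] in
/-- a priori bound for solutions -/
theorem stay {F : E → E} {x0 : E} {m : ℝ} (hm : ∀ y ∈ closedBall x0 1, ‖F y‖ ≤ m) {γ : ℝ → E}
    (hγ : ∀ s ∈ Icc (0 : ℝ) 1, HasDerivWithinAt γ (F (γ s)) (Icc 0 1) s)
    (h0 : ‖γ 0 - x0‖ + m < 1) : ∀ s ∈ Icc (0 : ℝ) 1, ‖γ s - γ 0‖ ≤ m := by
  have hm0 : 0 ≤ m := (norm_nonneg _).trans (hm x0 (mem_closedBall_self zero_le_one))
  set ε := 1 - (‖γ 0 - x0‖ + m) with hε
  have hε0 : 0 < ε := by linarith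
  have hc : ContinuousOn γ (Icc 0 1) := fun s hs => (hγ s hs).continuousWithinAt
  have h1 : ∀ ⦃s⦄, s ∈ Icc (0 : ℝ) 1 → ‖γ s - γ 0‖ ≤ (m + ε) * s :=
    image_norm_le_of_norm_deriv_right_lt_deriv_boundary (f := fun s => γ s - γ 0)
      (f' := fun s => F (γ s)) (hc.sub continuousOn_const)
      (fun s hs => ((hγ s (Ico_subset_Icc_self hs)).mono_of_mem_nhdsWithin
        (Icc_mem_nhdsGE_of_mem hs)).sub_const _) (B' := fun _ => m + ε) (by simp)
      (fun s => by simpa using (hasDerivAt_id s).const_mul (m + ε))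
      (fun s hs h => by
        have : γ s ∈ closedBall x0 1 := by
          rw [mem_closedBall, dist_eq_norm]
          have h2 : γ s - x0 = (γ s - γ 0) + (γ 0 - x0) := by abel
          rw [h2]
          have := norm_add_le (γ s - γ 0) (γ 0 - x0)
          have h3 : (m + ε) * s ≤ m + ε := by nlinarith [hs.2, hs.1]
          linarith
        linarith [hm _ this])
  have h2 : ∀ s ∈ Icc (0 : ℝ) 1, γ s ∈ closedBall x0 1 := fun s hs => by
    rw [mem_closedBall, dist_eq_norm]
    have h2 : γ s - x0 = (γ s - γ 0) + (γ 0 - x0) := by abel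
    rw [h2]
    have := norm_add_le (γ s - γ 0) (γ 0 - x0)
    have h3 : (m + ε) * s ≤ m + ε := by nlinarith [hs.2, hs.1]
    linarith [h1 hs]
  intro s hs
  have := norm_image_sub_le_of_norm_deriv_le_segment' hγ
    (fun s hs => hm _ (h2 s (Ico_subset_Icc_self hs))) s hs
  nlinarith [hs.2, hs.1]

/-- existence of solutions -/
theorem exist_sol {F : E → E} (hF : Differentiable ℂ F) {x0 : E} {m : ℝ}
    (hm : ∀ y ∈ closedBall x0 1, ‖F y‖ ≤ m) {x : E} (h0 : ‖x - x0‖ + m < 1) :
    ∃ γ : ℝ → E, γ 0 = x ∧ ∀ s ∈ Icc (0 : ℝ) 1, HasDerivWithinAt γ (F (γ s)) (Icc 0 1) s := by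
  have : CompleteSpace E := FiniteDimensional.complete ℂ E
  have hm0 : 0 ≤ m := (norm_nonneg _).trans (hm x0 (mem_closedBall_self zero_le_one))
  obtain ⟨K, hK0, hK⟩ := fderiv_ball_bound hF x0 1
  have hl : LipschitzOnWith ⟨K, hK0⟩ F (closedBall x0 1) :=
    (convex_closedBall x0 1).lipschitzOnWith_of_nnnorm_fderiv_le (𝕜 := ℂ) (fun y _ => hF y)
      (fun y hy => hK y hy)
  have hp := IsPicardLindelof.of_time_independent (f := F) (tmin := 0) (tmax := 1)
    (t₀ := ⟨0, by simp⟩) (x₀ := x0) (a := 1) (r := ‖x - x0‖₊) (L := ⟨m, hm0⟩) (K := ⟨K, hK0⟩)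
    hm hl (by
      change m * max (1 - 0) (0 - 0) ≤ 1 - ‖x - x0‖
      simp; linarith)
  exact hp.exists_eq_forall_mem_Icc_hasDerivWithinAt (x := x) (by simp [dist_eq_norm])

end Pool.Agent.H3.Spl
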