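import Pool.Agent.H3.Spl3
import Pool.Agent.H3.Spl4

open Metric Set NormedSpace

namespace Pool.Agent.H3.Spl

/-- words of length at most `N` -/
abbrev Wn (N : ℕ) : Type := {l : List Bool // l.length ≤ N}

noncomputable instance (N : ℕ) : Fintype (Wn N) := (List.finite_length_le Bool N).fintype

variable {N : ℕ}

def tl (u : Wn N) : Wn N := ⟨u.1.tail, by have := u.2; simp; omega⟩

noncomputable def sh (N : ℕ) (a : Bool) : (Wn N → ℂ) →L[ℂ] (Wn N → ℂ) :=
  LinearMap.toContinuousLinearMap
    { toFun := fun v u => if u.1.head? = some a then v (tl u) else 0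
      map_add' := fun v w => by funext u; by_cases h : u.1.head? = some a <;> simp [h]
      map_smul' := fun c v => by funext u; by_cases h : u.1.head? = some a <;> simp [h] }

noncomputable def dg (N : ℕ) : (Wn N → ℂ) →L[ℂ] (Wn N → ℂ) :=
  LinearMap.toContinuousLinearMap
    { toFun := fun v u => (u.1.length : ℂ) * v u
      map_add' := fun v w => by funext u; simp [mul_add]
      map_smul' := fun c v => by funext u; simp; ring }

theorem sh_apply (a : Bool) (v : Wn N → ℂ) (u : Wn N) :
    sh N a v u = if u.1.head? = some a then v (tl u) else 0 := rfl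

theorem dg_apply (v : Wn N → ℂ) (u : Wn N) : dg N v u = (u.1.length : ℂ) * v u := rfl

theorem dg_sh (a : Bool) : dg N * sh N a - sh N a * dg N = sh N a := by
  ext v u
  simp only [ContinuousLinearMap.sub_apply, ContinuousLinearMap.mul_apply, Pi.sub_apply, sh_apply,
    dg_apply, ContinuousLinearMap.comp_apply]
  split_ifs with h
  · obtain ⟨l, hl⟩ := u
    cases l with
    | nil => simp at h
    | cons b l => simp [tl]; ring
  · simp

noncomputable def dat (N : ℕ) : Dat ((Wn N → ℂ) →L[ℂ] (Wn N → ℂ)) :=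
  ⟨sh N false, sh N true, dg N, dg_sh false, dg_sh true⟩

variable {E : Type} [NormedAddCommGroup E] [NormedSpace ℂ E] [FiniteDimensional ℂ E]

/-- iterated Lie derivatives of the identity -/
noncomputable def Lw (f : Bool → E → E) : List Bool → E → E
  | [] => id
  | a :: w => fun x => fderiv ℂ (Lw f w) x (f a x)

theorem Lw_diff {f : Bool → E → E} (hf : ∀ a, Differentiable ℂ (f a)) (w : List Bool) :
    Differentiable ℂ (Lw f w) := by
  induction w with
  | nil => exact differentiable_id
  | cons a w ih => exact diff_lie ih (hf a)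

noncomputable def ev (f : Bool → E → E) (v : Wn N → ℂ) (T : ℝ) (x : E) : E :=
  ∑ w : Wn N, (v w * (T : ℂ) ^ w.1.length) • Lw f w.1 x

omit [FiniteDimensional ℂ E] in
theorem ev_single (f : Bool → E → E) (T : ℝ) (x : E) :
    ev f (Pi.single (⟨[], by simp⟩ : Wn N) 1) T x = x := by
  unfold ev
  rw [Finset.sum_eq_single (⟨[], by simp⟩ : Wn N)]
  · simp [Lw]
  · intro b _ hb; simp [hb]
  · simp

omit [FiniteDimensional ℂ E] in
theorem sum_sh (a : Bool) (c : Wn N → ℂ) (φ : List Bool → E) :
    ∑ u : Wn N, sh N a c u • φ u.1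
      = ∑ w : Wn N, if w.1.length < N then c w • φ (a :: w.1) else 0 := by
  have h1 : ∀ u : Wn N, sh N a c u • φ u.1
      = ∑ w : Wn N, if u.1 = a :: w.1 then c w • φ (a :: w.1) else 0 := by
    intro u
    rw [Finset.sum_eq_single (tl u), sh_apply]
    · obtain ⟨l, hl⟩ := u
      cases l with
      | nil => simp
      | cons b l =>
        by_cases h : b = a
        · simp [h, tl]
        · simp [h]
    · intro w _ hw
      rw [if_neg]
      intro h
      apply hw
      apply Subtype.ext
      simp [tl, h]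
    · simp
  simp_rw [h1]
  rw [Finset.sum_comm]
  refine Finset.sum_congr rfl fun w _ => ?_
  split_ifs with h
  · rw [Finset.sum_eq_single (⟨a :: w.1, by simpa using h⟩ : Wn N)]
    · simp
    · intro u _ hu
      rw [if_neg]
      intro h'
      exact hu (Subtype.ext h')
    · simp
  · refine Finset.sum_eq_zero fun u _ => if_neg fun h' => h ?_
    have := u.2
    rw [h'] at this
    simpa using this

theorem step {f : Bool → E → E} (hf : ∀ a, Differentiable ℂ (f a)) (x0 : E) (a b : ℂ)
    (v : Wn N → ℂ) : ∃ K : ℝ, ∀ T : ℝ, 0 ≤ T → ∀ γ : ℝ → E,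
      (∀ s ∈ Icc (0 : ℝ) 1, HasDerivWithinAt γ
        ((T : ℂ) • (a • f false (γ s) + b • f true (γ s))) (Icc 0 1) s) →
      (∀ s ∈ Icc (0 : ℝ) 1, γ s ∈ closedBall x0 1) →
      ‖ev f v T (γ 1) - ev f (exp (a • sh N false + b • sh N true) v) T (γ 0)‖
        ≤ K * T ^ (N + 1) := by
  have : ProperSpace E := FiniteDimensional.proper ℂ E
  set Z := a • sh N false + b • sh N true with hZ
  let c : ℝ → Wn N → ℂ := fun s => exp ((1 - (s : ℂ)) • Z) v
  have hc : ∀ w s, HasDerivAt (fun s => c s w) (-(Z (c s) w)) s := by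
    intro w s
    have h1 := (hd_exp' Z (1 - (s : ℂ))).scomp (s : ℂ) ((hasDerivAt_id (s : ℂ)).const_sub 1)
    let l : ((Wn N → ℂ) →L[ℂ] (Wn N → ℂ)) →L[ℂ] ℂ :=
      (ContinuousLinearMap.proj (R := ℂ) (φ := fun _ : Wn N => ℂ) w).comp
        (ContinuousLinearMap.apply ℂ (Wn N → ℂ) v)
    have h2 := (l.hasFDerivAt.comp_hasDerivAt (s : ℂ) h1).comp_ofReal
    exact HasDerivAt.congr_deriv h2 (by simp [l, c])
  let R : ℝ × E → E := fun p => ∑ w : Wn N, if w.1.length < N then 0 else
    c p.1 w • (a • Lw f (false :: w.1) p.2 + b • Lw f (true :: w.1) p.2)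
  have hR : Continuous R := by
    refine continuous_finsetSum _ fun w _ => ?_
    split_ifs
    · exact continuous_const
    · have h1 : Continuous fun s => c s w :=
        continuous_iff_continuousAt.2 fun s => (hc w s).continuousAt
      have h2 := (Lw_diff hf (false :: w.1)).continuous
      have h3 := (Lw_diff hf (true :: w.1)).continuous
      fun_prop
  obtain ⟨K, hK⟩ := ((isCompact_Icc (a := (0 : ℝ)) (b := 1)).prod
    (isCompact_closedBall x0 1)).exists_bound_of_continuousOn hR.continuousOn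
  refine ⟨K, fun T hT γ hγ hb => ?_⟩
  have hd : ∀ s ∈ Icc (0 : ℝ) 1, HasDerivWithinAt (fun s => ev f (c s) T (γ s))
      ((T : ℂ) ^ (N + 1) • R (s, γ s)) (Icc 0 1) s := by
    intro s hs
    have h1 := HasDerivWithinAt.fun_sum (u := Finset.univ) fun (w : Wn N) _ =>
      (((hc w s).mul_const ((T : ℂ) ^ w.1.length)).hasDerivWithinAt (s := Icc 0 1)).fun_smul
        ((((Lw_diff hf w.1) (γ s)).hasFDerivAt.restrictScalars ℝ).comp_hasDerivWithinAt s (hγ s hs))
    refine HasDerivWithinAt.congr_deriv h1 ?_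
    have h2 := sum_sh false (c s) (fun l => (T : ℂ) ^ l.length • Lw f l (γ s))
    have h3 := sum_sh true (c s) (fun l => (T : ℂ) ^ l.length • Lw f l (γ s))
    have h4 : ∑ w : Wn N, (-(Z (c s) w) * (T : ℂ) ^ w.1.length) • Lw f w.1 (γ s)
        = -(a • ∑ u : Wn N, sh N false (c s) u • (T : ℂ) ^ u.1.length • Lw f u.1 (γ s))
          - b • ∑ u : Wn N, sh N true (c s) u • (T : ℂ) ^ u.1.length • Lw f u.1 (γ s) := by
      simp only [Finset.smul_sum, ← Finset.sum_neg_distrib, ← Finset.sum_sub_distrib]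
      refine Finset.sum_congr rfl fun w _ => ?_
      simp only [hZ, ContinuousLinearMap.add_apply, ContinuousLinearMap.smul_apply, Pi.add_apply,
        Pi.smul_apply, smul_eq_mul]
      module
    simp only [Function.comp_apply, Finset.sum_add_distrib]
    rw [h4, h2, h3]
    simp only [R, Finset.smul_sum, ← Finset.sum_neg_distrib, ← Finset.sum_sub_distrib,
      ← Finset.sum_add_distrib]
    refine Finset.sum_congr rfl fun w _ => ?_
    simp only [ContinuousLinearMap.coe_restrictScalars', map_smul, map_add, Lw, List.length_cons]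
    split_ifs with h
    · module
    · have : w.1.length = N := le_antisymm w.2 (not_lt.1 h)
      rw [this]
      module
  have := norm_image_sub_le_of_norm_deriv_le_segment_01' hd (C := K * T ^ (N + 1)) fun s hs => by
    rw [norm_smul, norm_pow, Complex.norm_real, Real.norm_of_nonneg hT, mul_comm]
    exact mul_le_mul_of_nonneg_right
      (hK _ ⟨Ico_subset_Icc_self hs, hb s (Ico_subset_Icc_self hs)⟩) (by positivity)
  have h0 : (0 : ℂ) • Z = 0 := by ext; simp
  simpa [c, h0] using this

theorem flowA {f : Bool → E → E} (hf : ∀ a, Differentiable ℂ (f a)) (x0 : E) (a b : ℂ) :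
    ∃ m : ℝ, 0 ≤ m ∧ ∀ v : Wn N → ℂ, ∃ K : ℝ, ∀ T : ℝ, 0 ≤ T → ∀ x, ‖x - x0‖ + m * T < 1 →
      (∃ γ : ℝ → E, γ 0 = x ∧ ∀ s ∈ Icc (0 : ℝ) 1, HasDerivWithinAt γ
        ((T : ℂ) • (a • f false (γ s) + b • f true (γ s))) (Icc 0 1) s) ∧
      ∀ γ : ℝ → E, γ 0 = x → (∀ s ∈ Icc (0 : ℝ) 1, HasDerivWithinAt γ
        ((T : ℂ) • (a • f false (γ s) + b • f true (γ s))) (Icc 0 1) s) →
        ‖γ 1 - x‖ ≤ m * T ∧
        ‖ev f v T (γ 1) - ev f (exp (a • sh N false + b • sh N true) v) T x‖ ≤ K * T ^ (N + 1) := by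
  have hF : Differentiable ℂ fun y => a • f false y + b • f true y :=
    ((hf false).const_smul a).add ((hf true).const_smul b)
  obtain ⟨m, hm0, hm⟩ := ball_bound hF.continuous x0 1
  refine ⟨m, hm0, fun v => ?_⟩
  obtain ⟨K, hK⟩ := step hf x0 a b v
  refine ⟨K, fun T hT x hx => ?_⟩
  have hm' : ∀ y ∈ closedBall x0 1, ‖(T : ℂ) • (a • f false y + b • f true y)‖ ≤ m * T := by
    intro y hy
    rw [norm_smul, Complex.norm_real, Real.norm_of_nonneg hT, mul_comm]
    exact mul_le_mul_of_nonneg_right (hm y hy) hT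
  refine ⟨exist_sol (F := fun y => (T : ℂ) • (a • f false y + b • f true y))
    (hF.const_smul _) hm' hx, ?_⟩
  rintro γ rfl hγ
  have h1 := stay (F := fun y => (T : ℂ) • (a • f false y + b • f true y)) hm' hγ hx
  refine ⟨h1 1 (by simp), hK T hT γ hγ fun s hs => ?_⟩
  rw [mem_closedBall, dist_eq_norm]
  have h2 : γ s - x0 = (γ s - γ 0) + (γ 0 - x0) := by abel
  rw [h2]
  linarith [norm_add_le (γ s - γ 0) (γ 0 - x0), h1 s hs]

end Pool.Agent.H3.Spl
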