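import Mathlib

set_option autoImplicit false

namespace Pool.Agent.H3.St

open Set MeasureTheory
open scoped ENNReal

variable {X : Type*}

/-- Reachability from the root through overlapping cover sets. -/
def R (U : ℕ → Set X) (r : X) : ℕ → ℕ → Prop
  | 0, i => r ∈ U i
  | k + 1, i => ∃ j, R U r k j ∧ (U i ∩ U j).Nonempty

theorem tree (U : ℕ → Set X) (r : X) :
    ∃ (par : ℕ → ℕ) (e : ℕ → X), ∀ i, (∃ k, R U r k i) → e i ∈ U i ∧
      ∃ A : Finset ℕ, (∀ j ∈ A, e j ∈ U (par j) ∧ e (par j) ∈ U (par j)) ∧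
        (∀ j ∈ A, j = i ∨ ∃ k ∈ A, par k = j) ∧
        ∀ ψ : X → ℝ, ψ (e i) - ψ r = ∑ j ∈ A, (ψ (e j) - ψ (e (par j))) := by
  classical
  let dep : ℕ → ℕ := fun i => if h : ∃ k, R U r k i then Nat.find h else 0
  have hdep : ∀ i, (∃ k, R U r k i) → R U r (dep i) i := by
    intro i h
    simp only [dep, dif_pos h]
    exact Nat.find_spec h
  have hmin : ∀ i k, R U r k i → dep i ≤ k := by
    intro i k h
    have h' : ∃ k, R U r k i := ⟨k, h⟩
    simp only [dep, dif_pos h']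
    exact Nat.find_min' h' h
  have key : ∀ i, ∃ (p : ℕ) (x : X), (∃ k, R U r k i) → x ∈ U i ∧ (dep i = 0 → x = r) ∧
      (dep i ≠ 0 → (∃ k, R U r k p) ∧ dep p < dep i ∧ x ∈ U p) := by
    intro i
    by_cases h : ∃ k, R U r k i
    · have h1 := hdep i h
      rcases hd : dep i with _ | k
      · rw [hd] at h1
        exact ⟨0, r, fun _ => ⟨h1, fun _ => rfl, fun h => absurd rfl h⟩⟩
      · rw [hd] at h1
        obtain ⟨j, hj, x, hx1, hx2⟩ := h1
        refine ⟨j, x, fun _ => ⟨hx1, fun h => by simp at h, fun _ => ⟨⟨k, hj⟩, ?_, hx2⟩⟩⟩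
        exact Nat.lt_succ_of_le (hmin j k hj)
    · exact ⟨0, r, fun h' => absurd h' h⟩
  choose par e hk using key
  refine ⟨par, e, ?_⟩
  have main : ∀ n i, dep i = n → (∃ k, R U r k i) →
      ∃ A : Finset ℕ, (∀ j ∈ A, dep j ≤ dep i ∧ e j ∈ U (par j) ∧ e (par j) ∈ U (par j)) ∧
        (∀ j ∈ A, j = i ∨ ∃ k ∈ A, par k = j) ∧
        ∀ ψ : X → ℝ, ψ (e i) - ψ r = ∑ j ∈ A, (ψ (e j) - ψ (e (par j))) := by
    intro n
    induction n using Nat.strong_induction_on with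
    | _ n ih =>
      intro i hi h
      obtain ⟨h1, h2, h3⟩ := hk i h
      by_cases h0 : dep i = 0
      · refine ⟨∅, by simp, by simp, fun ψ => ?_⟩
        rw [h2 h0]; simp
      · obtain ⟨hp, hlt, hx⟩ := h3 h0
        obtain ⟨A, a1, a2, a3⟩ := ih (dep (par i)) (hi ▸ hlt) (par i) rfl hp
        have hni : i ∉ A := fun hA => by
          have := (a1 i hA).1
          omega
        refine ⟨insert i A, ?_, ?_, fun ψ => ?_⟩
        · intro j hj
          rcases Finset.mem_insert.1 hj with rfl | hj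
          · exact ⟨le_rfl, hx, (hk _ hp).1⟩
          · exact ⟨(a1 j hj).1.trans hlt.le, (a1 j hj).2⟩
        · intro j hj
          rcases Finset.mem_insert.1 hj with rfl | hj
          · exact Or.inl rfl
          · right
            rcases a2 j hj with rfl | ⟨k, hk1, hk2⟩
            · exact ⟨i, Finset.mem_insert_self _ _, rfl⟩
            · exact ⟨k, Finset.mem_insert_of_mem hk1, hk2⟩
        · rw [Finset.sum_insert hni, ← a3 ψ]; ring
  intro i h
  obtain ⟨A, a1, a2, a3⟩ := main _ i rfl h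
  exact ⟨(hk i h).1, A, fun j hj => (a1 j hj).2, a2, a3⟩

theorem reach [TopologicalSpace X] (U : ℕ → Set X) (hU : ∀ i, IsOpen (U i)) (S : Set X)
    (hS : IsPreconnected S) (hc : S ⊆ ⋃ i, U i) (r : X) (hr : r ∈ S) :
    ∀ x ∈ S, ∃ i, (∃ k, R U r k i) ∧ x ∈ U i := by
  have h := hS.subset_left_of_subset_union (u := ⋃ (i : ℕ) (_ : ∃ k, R U r k i), U i)
    (v := ⋃ (i : ℕ) (_ : ¬ ∃ k, R U r k i), U i)
    (isOpen_iUnion fun i => isOpen_iUnion fun _ => hU i)
    (isOpen_iUnion fun i => isOpen_iUnion fun _ => hU i) ?_ ?_ ?_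
  · intro x hx
    simpa using h hx
  · rw [Set.disjoint_left]
    intro x h1 h2
    simp only [mem_iUnion] at h1 h2
    obtain ⟨i, ⟨k, hk⟩, hi⟩ := h1
    obtain ⟨j, hj, hj'⟩ := h2
    exact hj ⟨k + 1, i, hk, x, hj', hi⟩
  · intro x hx
    obtain ⟨i, hi⟩ := mem_iUnion.1 (hc hx)
    by_cases h : ∃ k, R U r k i
    · left; simp only [mem_iUnion]; exact ⟨i, h, hi⟩
    · right; simp only [mem_iUnion]; exact ⟨i, h, hi⟩
  · obtain ⟨i, hi⟩ := mem_iUnion.1 (hc hr)
    refine ⟨r, hr, ?_⟩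
    simp only [mem_iUnion]
    exact ⟨i, ⟨0, hi⟩, hi⟩

theorem open_bound [PseudoMetricSpace X] (U : ℕ → Set X) (hU : ∀ i, IsOpen (U i)) (S : Set X)
    (hS : IsPreconnected S) (hc : S ⊆ ⋃ i, U i) (r : X) (hr : r ∈ S)
    (T : Finset ℕ) (p : ℕ → X) (hp : ∀ t ∈ T, p t ∈ S) (φ : ℕ → X → ℝ)
    (hφ : ∀ (V : Finset ℕ) (x z : X), ∑ t ∈ V, (φ t x - φ t z) ≤ dist x z)
    (d : ℕ → ℝ) (ρ : ℝ) (hd : ∀ i, ∀ x ∈ U i, ∀ z ∈ U i, dist x z ≤ d i) (hρ : ∀ i, d i ≤ ρ)
    (hρ0 : 0 ≤ ρ) :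
    ∃ J : Finset ℕ, ∑ t ∈ T, (φ t (p t) - φ t r) ≤ ∑ i ∈ J, d i + 2 * T.card * ρ := by
  classical
  obtain ⟨par, e, hk⟩ := tree U r
  have h1 : ∀ t, ∃ (i : ℕ) (A : Finset ℕ), t ∈ T → p t ∈ U i ∧ e i ∈ U i ∧
      (∀ j ∈ A, e j ∈ U (par j) ∧ e (par j) ∈ U (par j)) ∧
        (∀ j ∈ A, j = i ∨ ∃ k ∈ A, par k = j) ∧
        ∀ ψ : X → ℝ, ψ (e i) - ψ r = ∑ j ∈ A, (ψ (e j) - ψ (e (par j))) := by
    intro t
    by_cases ht : t ∈ T
    · obtain ⟨i, hi, hpi⟩ := reach U hU S hS hc r hr (p t) (hp t ht)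
      obtain ⟨a0, A, a1, a2, a3⟩ := hk i hi
      exact ⟨i, A, fun _ => ⟨hpi, a0, a1, a2, a3⟩⟩
    · exact ⟨0, ∅, fun h => absurd h ht⟩
  choose ι A hA using h1
  set J' := T.biUnion A with hJ'
  refine ⟨J'.image par, ?_⟩
  have e1 : ∑ t ∈ T, (φ t (p t) - φ t r) = ∑ t ∈ T, (φ t (p t) - φ t (e (ι t))) +
      ∑ t ∈ T, ∑ j ∈ A t, (φ t (e j) - φ t (e (par j))) := by
    rw [← Finset.sum_add_distrib]
    refine Finset.sum_congr rfl fun t ht => ?_
    rw [← (hA t ht).2.2.2.2 (φ t)]; ring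
  have e2 : ∑ t ∈ T, (φ t (p t) - φ t (e (ι t))) ≤ T.card * ρ := by
    rw [← nsmul_eq_mul]
    refine Finset.sum_le_card_nsmul _ _ _ fun t ht => ?_
    have := hφ {t} (p t) (e (ι t))
    rw [Finset.sum_singleton] at this
    exact this.trans ((hd _ _ (hA t ht).1 _ (hA t ht).2.1).trans (hρ _))
  have e3 : ∑ t ∈ T, ∑ j ∈ A t, (φ t (e j) - φ t (e (par j))) =
      ∑ j ∈ J', ∑ t ∈ T.filter (fun t => j ∈ A t), (φ t (e j) - φ t (e (par j))) := by
    refine Finset.sum_comm' fun t j => ?_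
    simp only [hJ', Finset.mem_filter, Finset.mem_biUnion]
    constructor
    · rintro ⟨h1, h2⟩; exact ⟨⟨h1, h2⟩, t, h1, h2⟩
    · rintro ⟨h1, _⟩; exact h1
  have e4 : ∑ j ∈ J', ∑ t ∈ T.filter (fun t => j ∈ A t), (φ t (e j) - φ t (e (par j))) ≤
      ∑ j ∈ J', d (par j) := by
    refine Finset.sum_le_sum fun j hj => ?_
    obtain ⟨t, ht, hj⟩ := Finset.mem_biUnion.1 hj
    obtain ⟨b1, b2⟩ := (hA t ht).2.2.1 j hj
    exact (hφ _ _ _).trans (hd _ _ b1 _ b2)
  have e5 : ∑ i ∈ J'.image par, (ρ - d i) ≤ ∑ j ∈ J', (ρ - d (par j)) :=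
    Finset.sum_image_le_of_nonneg fun i _ => sub_nonneg.2 (hρ i)
  have e6 : J'.card ≤ (J'.image par).card + T.card := by
    have : J' ⊆ J'.image par ∪ T.image ι := by
      intro j hj
      obtain ⟨t, ht, hj⟩ := Finset.mem_biUnion.1 hj
      rcases (hA t ht).2.2.2.1 j hj with rfl | ⟨k, hk1, rfl⟩
      · exact Finset.mem_union_right _ (Finset.mem_image_of_mem _ ht)
      · exact Finset.mem_union_left _
          (Finset.mem_image_of_mem _ (Finset.mem_biUnion.2 ⟨t, ht, hk1⟩))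
    exact (Finset.card_le_card this).trans ((Finset.card_union_le _ _).trans
      (Nat.add_le_add_left Finset.card_image_le _))
  have e7 : (J'.card : ℝ) * ρ ≤ (J'.image par).card * ρ + T.card * ρ := by
    rw [← add_mul]
    exact mul_le_mul_of_nonneg_right (by exact_mod_cast e6) hρ0
  simp only [Finset.sum_sub_distrib, Finset.sum_const, nsmul_eq_mul] at e5
  rw [e1, e3]
  linarith

theorem steiner_lb [MetricSpace X] [MeasurableSpace X] [BorelSpace X] (S : Set X)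
    (hS : IsPreconnected S) (r : X) (hr : r ∈ S)
    (T : Finset ℕ) (p : ℕ → X) (hp : ∀ t ∈ T, p t ∈ S) (φ : ℕ → X → ℝ)
    (hφ : ∀ (V : Finset ℕ) (x z : X), ∑ t ∈ V, (φ t x - φ t z) ≤ dist x z) :
    ENNReal.ofReal (∑ t ∈ T, (φ t (p t) - φ t r)) ≤ Measure.hausdorffMeasure 1 S := by
  set L := ∑ t ∈ T, (φ t (p t) - φ t r) with hL
  refine ENNReal.le_of_forall_pos_le_add fun ε hε _ => ?_
  have hε' : (0 : ℝ) < ε := hε
  set δ : ℝ := ε / (4 * T.card + 2) with hδ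
  have hδ0 : 0 < δ := by positivity
  rw [Measure.hausdorffMeasure_apply]
  refine le_trans ?_ (add_le_add_left (le_iSup₂_of_le (ENNReal.ofReal δ)
    (ENNReal.ofReal_pos.2 hδ0) le_rfl) _)
  rw [← tsub_le_iff_right]
  refine le_iInf fun t => le_iInf fun hc => le_iInf fun hd => ?_
  rw [tsub_le_iff_right]
  have hfin : ∀ n, Metric.ediam (t n) ≠ ⊤ := fun n => ne_top_of_le_ne_top ENNReal.ofReal_ne_top (hd n)
  have hbd : ∀ n, Bornology.IsBounded (t n) := fun n => Metric.isBounded_iff_ediam_ne_top.2 (hfin n)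
  have hdi : ∀ n, Metric.diam (t n) ≤ δ := fun n => ENNReal.toReal_le_of_le_ofReal hδ0.le (hd n)
  obtain ⟨J, hJ⟩ := open_bound (fun n => Metric.thickening (δ / 2 / 2 ^ n / 2) (t n))
    (fun n => Metric.isOpen_thickening) S hS
    (hc.trans (iUnion_mono fun n => Metric.self_subset_thickening (by positivity) _)) r hr T p hp φ hφ
    (fun n => Metric.diam (t n) + δ / 2 / 2 ^ n) (2 * δ) (by
      intro n x hx z hz
      obtain ⟨x', hx', h1⟩ := Metric.mem_thickening_iff.1 hx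
      obtain ⟨z', hz', h2⟩ := Metric.mem_thickening_iff.1 hz
      have h3 := Metric.dist_le_diam_of_mem (hbd n) hx' hz'
      have h4 := dist_triangle4 x x' z' z
      rw [dist_comm z' z] at h4
      linarith) (by
      intro n
      have : δ / 2 / 2 ^ n ≤ δ := by
        refine (div_le_self (by positivity) (one_le_pow₀ (by norm_num))).trans (by linarith)
      linarith [hdi n]) (by positivity)
  have hg : ∑ i ∈ J, δ / 2 / 2 ^ i ≤ δ := by
    have := (hasSum_geometric_two' δ)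
    exact sum_le_hasSum J (fun i _ => by positivity) this
  have h5 : L ≤ ∑ i ∈ J, Metric.diam (t i) + ε := by
    rw [Finset.sum_add_distrib] at hJ
    have : (ε : ℝ) = δ * (4 * T.card + 2) := by rw [hδ]; field_simp
    nlinarith
  calc ENNReal.ofReal L ≤ ENNReal.ofReal (∑ i ∈ J, Metric.diam (t i) + ε) :=
        ENNReal.ofReal_le_ofReal h5
    _ ≤ ENNReal.ofReal (∑ i ∈ J, Metric.diam (t i)) + ENNReal.ofReal ε := ENNReal.ofReal_add_le
    _ ≤ _ := by
      rw [ENNReal.ofReal_coe_nnreal, ENNReal.ofReal_sum_of_nonneg fun i _ => Metric.diam_nonneg]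
      refine add_le_add_left (le_trans (Finset.sum_le_sum fun i _ => ?_) (ENNReal.sum_le_tsum J)) _
      rcases (t i).eq_empty_or_nonempty with h | h
      · simp [h]
      · rw [iSup_pos h, ENNReal.rpow_one, Metric.diam, ENNReal.ofReal_toReal (hfin i)]

end Pool.Agent.H3.St
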