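import Mathlib

set_option autoImplicit false

namespace Pool.Agent.H3.St

open Finset

noncomputable def Q (u v : ℝ) : ℝ := √(u ^ 2 / 3 + v ^ 2)

theorem lin_le (a b u v : ℝ) (h : 3 * a ^ 2 + b ^ 2 ≤ 1) : a * u + b * v ≤ Q u v := by
  refine le_trans (le_abs_self _) (Real.abs_le_sqrt ?_)
  nlinarith [sq_nonneg (3 * a * v - b * u), mul_nonneg (sub_nonneg.2 h)
    (add_nonneg (div_nonneg (sq_nonneg u) (by norm_num : (0:ℝ) ≤ 3)) (sq_nonneg v))]

theorem Q_smul (s u v : ℝ) (hs : 0 ≤ s) : Q (s * u) (s * v) = s * Q u v := by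
  unfold Q
  rw [show (s * u) ^ 2 / 3 + (s * v) ^ 2 = s ^ 2 * (u ^ 2 / 3 + v ^ 2) by ring,
    Real.sqrt_mul (sq_nonneg s), Real.sqrt_sq hs]

def LipOn (Φ : ℝ → ℝ → ℝ) (A : ℝ → ℝ → Prop) : Prop :=
  ∀ x y x' y', A x y → A x' y' → Φ x y - Φ x' y' ≤ Q (x - x') (y - y')

theorem glue (Φ : ℝ → ℝ → ℝ) (A : ℝ → ℝ → Prop) (β γ : ℝ)
    (hconv : ∀ x y x' y' s, 0 ≤ s → s ≤ 1 → A x y → A x' y' →
      A (x + s * (x' - x)) (y + s * (y' - y)))
    (h1 : LipOn Φ fun x y => A x y ∧ x + β * y + γ ≤ 0)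
    (h2 : LipOn Φ fun x y => A x y ∧ 0 ≤ x + β * y + γ) : LipOn Φ A := by
  have split : ∀ x y x' y' s, 0 ≤ s → s ≤ 1 →
      Φ x y - Φ (x + s * (x' - x)) (y + s * (y' - y)) ≤
        Q (x - (x + s * (x' - x))) (y - (y + s * (y' - y))) →
      Φ (x + s * (x' - x)) (y + s * (y' - y)) - Φ x' y' ≤
        Q ((x + s * (x' - x)) - x') ((y + s * (y' - y)) - y') →
      Φ x y - Φ x' y' ≤ Q (x - x') (y - y') := by
    intro x y x' y' s s0 s1 a b
    rw [show x - (x + s * (x' - x)) = s * (x - x') by ring,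
      show y - (y + s * (y' - y)) = s * (y - y') by ring, Q_smul _ _ _ s0] at a
    rw [show (x + s * (x' - x)) - x' = (1 - s) * (x - x') by ring,
      show (y + s * (y' - y)) - y' = (1 - s) * (y - y') by ring, Q_smul _ _ _ (by linarith)] at b
    linarith
  intro x y x' y' ha hb
  rcases le_total (x + β * y + γ) 0 with c1 | c1 <;>
    rcases le_total (x' + β * y' + γ) 0 with c2 | c2
  · exact h1 _ _ _ _ ⟨ha, c1⟩ ⟨hb, c2⟩
  · rcases c1.eq_or_lt with c | c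
    · exact h2 _ _ _ _ ⟨ha, c.ge⟩ ⟨hb, c2⟩
    have hd : 0 < (x' + β * y' + γ) - (x + β * y + γ) := by linarith
    set s := -(x + β * y + γ) / ((x' + β * y' + γ) - (x + β * y + γ)) with hs
    have s0 : 0 ≤ s := div_nonneg (by linarith) hd.le
    have s1 : s ≤ 1 := (div_le_one hd).2 (by linarith)
    have e : x + s * (x' - x) + β * (y + s * (y' - y)) + γ = 0 := by
      have : s * ((x' + β * y' + γ) - (x + β * y + γ)) = -(x + β * y + γ) := by
        rw [hs]; field_simp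
      linarith
    have hc := hconv _ _ _ _ s s0 s1 ha hb
    exact split _ _ _ _ s s0 s1 (h1 _ _ _ _ ⟨ha, c1⟩ ⟨hc, e.le⟩) (h2 _ _ _ _ ⟨hc, e.ge⟩ ⟨hb, c2⟩)
  · rcases c1.eq_or_lt with c | c
    · exact h1 _ _ _ _ ⟨ha, c.ge⟩ ⟨hb, c2⟩
    have hd : 0 < (x + β * y + γ) - (x' + β * y' + γ) := by linarith
    set s := (x + β * y + γ) / ((x + β * y + γ) - (x' + β * y' + γ)) with hs
    have s0 : 0 ≤ s := div_nonneg (by linarith) hd.le
    have s1 : s ≤ 1 := (div_le_one hd).2 (by linarith)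
    have e : x + s * (x' - x) + β * (y + s * (y' - y)) + γ = 0 := by
      have : s * ((x + β * y + γ) - (x' + β * y' + γ)) = (x + β * y + γ) := by
        rw [hs]; field_simp
      linarith
    have hc := hconv _ _ _ _ s s0 s1 ha hb
    exact split _ _ _ _ s s0 s1 (h2 _ _ _ _ ⟨ha, c1⟩ ⟨hc, e.ge⟩) (h1 _ _ _ _ ⟨hc, e.le⟩ ⟨hb, c2⟩)
  · exact h2 _ _ _ _ ⟨ha, c1⟩ ⟨hb, c2⟩

/-- The line through the zigzag points number `k` and `k+1`. -/
noncomputable def L (k : ℕ) (x y : ℝ) : ℝ := x + (-(-1) ^ k) * y + (-k - 1 / 2 + (-1) ^ k / 2)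

noncomputable def m (k : ℕ) (x y : ℝ) : ℝ := max 0 (L k x y)

noncomputable def H (j : ℕ) (x y : ℝ) : ℝ :=
  (m j x y - m (j + 1) x y - m (j + 2) x y + m (j + 3) x y) / 2

noncomputable def m1 (x y : ℝ) : ℝ := max 0 (x + 2 * y - 2)
noncomputable def h0 (x y : ℝ) : ℝ := (m1 x y - (x + 2 * y - 2)) / 2
noncomputable def h1 (x y : ℝ) : ℝ := y - m1 x y / 3 + m 2 x y / 3
noncomputable def h2 (x y : ℝ) : ℝ := x / 2 - m1 x y / 2 - m 2 x y / 2 + m 3 x y / 2
noncomputable def h3 (x y : ℝ) : ℝ := m1 x y / 3 - m 2 x y / 3 - m 3 x y / 2 + m 4 x y / 2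

noncomputable def F : ℕ → ℝ → ℝ → ℝ
  | 0 => fun x y => 3 / 5 * h0 x y + 31 / 20 * h1 x y + 3 / 10 * h2 x y
  | 1 => fun x y => -(2 / 5) * h0 x y - 13 / 20 * h1 x y + 7 / 10 * h2 x y
  | 2 => h3
  | j + 3 => H (j + 2)

theorem L_succ (k : ℕ) (x y : ℝ) (y0 : 0 ≤ y) (y1 : y ≤ 1) : L (k + 1) x y ≤ L k x y := by
  unfold L
  rcases neg_one_pow_eq_or ℝ k with h | h <;> rw [pow_succ, h] <;> push_cast <;> linarith

theorem L_anti {j k : ℕ} (h : j ≤ k) (x y : ℝ) (y0 : 0 ≤ y) (y1 : y ≤ 1) : L k x y ≤ L j x y := by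
  induction h with
  | refl => exact le_rfl
  | step _ ih => exact (L_succ _ x y y0 y1).trans ih

theorem L_two (k : ℕ) (x y : ℝ) : L (k + 2) x y = L k x y - 2 := by
  unfold L
  rw [pow_add]; push_cast; ring

theorem m_lo {j k : ℕ} (h : j ≤ k) {x y : ℝ} (y0 : 0 ≤ y) (y1 : y ≤ 1) (hk : 0 ≤ L k x y) :
    m j x y = L j x y := max_eq_right (hk.trans (L_anti h x y y0 y1))

theorem m_hi {j k : ℕ} (h : k ≤ j) {x y : ℝ} (y0 : 0 ≤ y) (y1 : y ≤ 1) (hk : L k x y ≤ 0) :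
    m j x y = 0 := max_eq_left ((L_anti h x y y0 y1).trans hk)

theorem H_lo {j k : ℕ} (h : j + 3 ≤ k) {x y : ℝ} (y0 : 0 ≤ y) (y1 : y ≤ 1) (hk : 0 ≤ L k x y) :
    H j x y = 0 := by
  unfold H
  rw [m_lo (by omega) y0 y1 hk, m_lo (by omega) y0 y1 hk, m_lo (by omega) y0 y1 hk,
    m_lo h y0 y1 hk, L_two, show j + 3 = j + 1 + 2 by ring, L_two]
  ring

theorem H_hi {j k : ℕ} (h : k ≤ j) {x y : ℝ} (y0 : 0 ≤ y) (y1 : y ≤ 1) (hk : L k x y ≤ 0) :
    H j x y = 0 := by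
  unfold H
  rw [m_hi h y0 y1 hk, m_hi (by omega) y0 y1 hk, m_hi (by omega) y0 y1 hk,
    m_hi (by omega) y0 y1 hk]
  ring

theorem L0 (x y : ℝ) : L 0 x y = x - y := by unfold L; norm_num; ring
theorem L1 (x y : ℝ) : L 1 x y = x + y - 2 := by unfold L; norm_num; ring
theorem L2 (x y : ℝ) : L 2 x y = x - y - 2 := by unfold L; norm_num; ring
theorem L3 (x y : ℝ) : L 3 x y = x + y - 4 := by unfold L; norm_num; ring

theorem zoneR {x y : ℝ} (y0 : 0 ≤ y) (y1 : y ≤ 1) (hk : 0 ≤ L 2 x y) :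
    F 0 x y = 3 / 10 * H 0 x y ∧ F 1 x y = 7 / 10 * H 0 x y ∧ ∀ j, F (j + 2) x y = H (j + 1) x y := by
  have a0 := m_lo (j := 0) (by norm_num) y0 y1 hk
  have a1 := m_lo (j := 1) (by norm_num) y0 y1 hk
  have a2 := m_lo (j := 2) le_rfl y0 y1 hk
  have b : m1 x y = x + 2 * y - 2 := max_eq_right (by rw [L2] at hk; linarith)
  rw [L0] at a0; rw [L1] at a1; rw [L2] at a2
  refine ⟨?_, ?_, fun j => ?_⟩
  · simp only [F, h0, h1, h2, H, zero_add, a0, a1, a2, b]; ring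
  · simp only [F, h0, h1, h2, H, zero_add, a0, a1, a2, b]; ring
  · rcases j with _ | j
    · simp only [F, h3, H, zero_add, Nat.reduceAdd, a1, a2, b]; ring
    · rfl

theorem sum_le4 (U : Finset ℕ) (d : ℕ → ℝ) (k : ℕ)
    (h : ∀ j, j < k ∨ k + 3 < j → d j = 0) :
    ∑ j ∈ U, d j ≤ max (d k) 0 + max (d (k + 1)) 0 + max (d (k + 2)) 0 + max (d (k + 3)) 0 := by
  calc ∑ j ∈ U, d j ≤ ∑ j ∈ U, max (d j) 0 := sum_le_sum fun j _ => le_max_left _ _
    _ = ∑ j ∈ U ∩ Icc k (k + 3), max (d j) 0 := by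
      refine (sum_subset inter_subset_left fun j hj hn => ?_).symm
      rw [h j, max_self]
      by_contra hc
      exact hn (mem_inter.2 ⟨hj, mem_Icc.2 (by omega)⟩)
    _ ≤ ∑ j ∈ Icc k (k + 3), max (d j) 0 :=
      sum_le_sum_of_subset_of_nonneg inter_subset_right fun j _ _ => le_max_right _ _
    _ = _ := by
      rw [sum_Icc_succ_top (by omega), sum_Icc_succ_top (by omega), sum_Icc_succ_top (by omega),
        Icc_self, sum_singleton]

theorem hex (a b c d u v : ℝ) (s : ℝ) (hs : s = 1 ∨ s = -1) (p q : ℝ) (p0 : 0 ≤ p) (q0 : 0 ≤ q)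
    (pq : p + q = 1)
    (ha : a = p * (-(u / 2) - s * v / 2)) (hb : b = q * (-(u / 2) - s * v / 2))
    (hc : c = s * v) (hd : d = u / 2 - s * v / 2) :
    max a 0 + max b 0 + max c 0 + max d 0 ≤ Q u v := by
  have e : max a 0 + max b 0 = max (-(u / 2) - s * v / 2) 0 := by
    rw [ha, hb]
    rcases le_total (-(u / 2) - s * v / 2) 0 with h | h
    · rw [max_eq_right h, max_eq_right (mul_nonpos_of_nonneg_of_nonpos p0 h),
        max_eq_right (mul_nonpos_of_nonneg_of_nonpos q0 h)]; ring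
    · rw [max_eq_left h, max_eq_left (mul_nonneg p0 h), max_eq_left (mul_nonneg q0 h), ← add_mul, pq,
        one_mul]
  have f1 := lin_le (1 / 2) (1 / 2) u v (by norm_num)
  have f2 := lin_le (1 / 2) (-1 / 2) u v (by norm_num)
  have f3 := lin_le (-1 / 2) (1 / 2) u v (by norm_num)
  have f4 := lin_le (-1 / 2) (-1 / 2) u v (by norm_num)
  have f5 := lin_le 0 1 u v (by norm_num)
  have f6 := lin_le 0 (-1) u v (by norm_num)
  rw [e, hc, hd]
  rcases hs with rfl | rfl <;> simp only [max_def] <;> split_ifs <;> linarith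

def Strip (x y : ℝ) : Prop := 0 ≤ y ∧ y ≤ 1 ∧ x = x

theorem tri (U : Finset ℕ) (k : ℕ) :
    LipOn (fun x y => ∑ t ∈ U, F t x y) fun x y =>
      (Strip x y ∧ L (k + 3) x y ≤ 0) ∧ 0 ≤ L (k + 2) x y := by
  rintro x y x' y' ⟨⟨⟨y0, y1, -⟩, a1⟩, a2⟩ ⟨⟨⟨z0, z1, -⟩, b1⟩, b2⟩
  have hv : ∀ x y : ℝ, 0 ≤ y → y ≤ 1 → L (k + 3) x y ≤ 0 → 0 ≤ L (k + 2) x y →
      H k x y = -L (k + 1) x y / 2 + 1 ∧ H (k + 1) x y = (L (k + 1) x y - L k x y) / 2 + 1 ∧
        H (k + 2) x y = L k x y / 2 - 1 := by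
    intro x y y0 y1 a1 a2
    unfold H
    rw [m_lo (j := k) (by omega) y0 y1 a2, m_lo (j := k + 1) (by omega) y0 y1 a2,
      m_lo (j := k + 2) le_rfl y0 y1 a2, m_hi (j := k + 3) le_rfl y0 y1 a1,
      m_hi (j := k + 1 + 3) (by omega) y0 y1 a1,
      m_hi (j := k + 2 + 3) (by omega) y0 y1 a1, L_two]
    refine ⟨by ring, by ring, by ring⟩
  obtain ⟨c1, c2, c3⟩ := hv x y y0 y1 a1 a2
  obtain ⟨d1, d2, d3⟩ := hv x' y' z0 z1 b1 b2
  obtain ⟨e1, e2, e3⟩ := zoneR y0 y1 (a2.trans (L_anti (by omega) x y y0 y1))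
  obtain ⟨f1, f2, f3⟩ := zoneR z0 z1 (b2.trans (L_anti (by omega) x' y' z0 z1))
  have hs := neg_one_pow_eq_or ℝ k
  have g1 : L (k + 1) x y - L (k + 1) x' y' = (x - x') + (-1) ^ k * (y - y') := by
    unfold L; rw [pow_succ]; ring
  have g2 : L k x y - L k x' y' = (x - x') - (-1) ^ k * (y - y') := by
    unfold L; ring
  show ∑ t ∈ U, F t x y - ∑ t ∈ U, F t x' y' ≤ _
  rw [← sum_sub_distrib]
  refine (sum_le4 U (fun t => F t x y - F t x' y') k fun j hj => ?_).trans ?_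
  · rcases hj with hj | hj
    · rcases j with _ | _ | j
      · simp only [e1, f1, H_lo (j := 0) (by omega) y0 y1 a2, H_lo (j := 0) (by omega) z0 z1 b2]; ring
      · simp only [zero_add, e2, f2, H_lo (j := 0) (by omega) y0 y1 a2,
          H_lo (j := 0) (by omega) z0 z1 b2]; ring
      · simp only [show j + 1 + 1 = j + 2 by ring, e3, f3, H_lo (j := j + 1) (by omega) y0 y1 a2,
          H_lo (j := j + 1) (by omega) z0 z1 b2]; ring
    · obtain ⟨i, rfl⟩ : ∃ i, j = i + 2 := ⟨j - 2, by omega⟩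
      simp only [e3, f3, H_hi (j := i + 1) (by omega) y0 y1 a1,
        H_hi (j := i + 1) (by omega) z0 z1 b1]; ring
  · rcases k with _ | k
    · refine hex _ _ _ _ _ _ _ hs (3 / 10) (7 / 10) (by norm_num) (by norm_num) (by norm_num)
        ?_ ?_ ?_ ?_
      · simp only [e1, f1, c1, d1]; linarith
      · simp only [zero_add] at *; simp only [e2, f2, c1, d1]; linarith
      · rw [e3, f3, c2, d2]; linarith
      · rw [show 0 + 3 = 1 + 2 by ring, e3, f3, show 1 + 1 = 0 + 2 by ring, c3, d3]; linarith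
    · refine hex _ _ _ _ _ _ _ hs 0 1 (by norm_num) (by norm_num) (by norm_num) ?_ ?_ ?_ ?_
      · rcases k with _ | k
        · simp only [zero_add, e2, f2, H_lo (j := 0) (by omega) y0 y1 a2,
            H_lo (j := 0) (by omega) z0 z1 b2]; ring
        · simp only [show k + 1 + 1 = k + 2 by ring, e3, f3,
            H_lo (j := k + 1) (by omega) y0 y1 a2, H_lo (j := k + 1) (by omega) z0 z1 b2]; ring
      · rw [show k + 1 + 1 = k + 2 by ring, e3, f3, c1, d1]; linarith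
      · rw [e3, f3, c2, d2]; linarith
      · rw [show k + 1 + 3 = k + 2 + 2 by ring, e3, f3, show k + 2 + 1 = k + 1 + 2 by ring, c3, d3]
        linarith

theorem strip_conv (β γ : ℝ) (x y x' y' s : ℝ) (s0 : 0 ≤ s) (s1 : s ≤ 1)
    (a : Strip x y ∧ x + β * y + γ ≤ 0) (b : Strip x' y' ∧ x' + β * y' + γ ≤ 0) :
    Strip (x + s * (x' - x)) (y + s * (y' - y)) ∧
      (x + s * (x' - x)) + β * (y + s * (y' - y)) + γ ≤ 0 := by
  obtain ⟨⟨y0, y1, -⟩, a⟩ := a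
  obtain ⟨⟨z0, z1, -⟩, b⟩ := b
  have t0 : 0 ≤ 1 - s := by linarith
  refine ⟨⟨?_, ?_, rfl⟩, ?_⟩
  · nlinarith [mul_nonneg s0 z0, mul_nonneg t0 y0]
  · nlinarith [mul_nonneg s0 (sub_nonneg.2 z1), mul_nonneg t0 (sub_nonneg.2 y1)]
  · nlinarith [mul_nonneg s0 (neg_nonneg.2 b), mul_nonneg t0 (neg_nonneg.2 a)]

theorem zoneL {x y : ℝ} (y0 : 0 ≤ y) (y1 : y ≤ 1) (hk : L 2 x y ≤ 0) :
    F 0 x y = 3 / 5 * ((m1 x y - (x + 2 * y - 2)) / 2) + 31 / 20 * (y - m1 x y / 3) +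
      3 / 10 * (x / 2 - m1 x y / 2) ∧
    F 1 x y = -(2 / 5) * ((m1 x y - (x + 2 * y - 2)) / 2) - 13 / 20 * (y - m1 x y / 3) +
      7 / 10 * (x / 2 - m1 x y / 2) ∧ F 2 x y = m1 x y / 3 ∧ ∀ j, F (j + 3) x y = 0 := by
  have a2 := m_hi (j := 2) le_rfl y0 y1 hk
  have a3 := m_hi (j := 3) (by norm_num) y0 y1 hk
  have a4 := m_hi (j := 4) (by norm_num) y0 y1 hk
  refine ⟨?_, ?_, ?_, fun j => H_hi (by omega) y0 y1 hk⟩
  · simp only [F, h0, h1, h2, a2, a3]; ring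
  · simp only [F, h0, h1, h2, a2, a3]; ring
  · simp only [F, h3, a2, a3, a4]; ring

theorem left (U : Finset ℕ) :
    LipOn (fun x y => ∑ t ∈ U, F t x y) fun x y => Strip x y ∧ L 2 x y ≤ 0 := by
  have pre : ∀ x y x' y' : ℝ, Strip x y ∧ L 2 x y ≤ 0 → Strip x' y' ∧ L 2 x' y' ≤ 0 →
      ∑ t ∈ U, F t x y - ∑ t ∈ U, F t x' y' ≤ max (F 0 x y - F 0 x' y') 0 +
        max (F 1 x y - F 1 x' y') 0 + max (F 2 x y - F 2 x' y') 0 := by
    rintro x y x' y' ⟨⟨y0, y1, -⟩, a⟩ ⟨⟨z0, z1, -⟩, b⟩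
    rw [← sum_sub_distrib]
    refine (sum_le4 U (fun t => F t x y - F t x' y') 0 fun j hj => ?_).trans ?_
    · obtain ⟨i, rfl⟩ : ∃ i, j = i + 3 := ⟨j - 3, by omega⟩
      simp only [(zoneL y0 y1 a).2.2.2, (zoneL z0 z1 b).2.2.2]; ring
    · simp only [(zoneL y0 y1 a).2.2.2 0, (zoneL z0 z1 b).2.2.2 0, zero_add]
      simp
  refine glue _ _ 2 (-2) (fun x y x' y' s s0 s1 a b => strip_conv _ _ x y x' y' s s0 s1 a b) ?_ ?_
  · rintro x y x' y' ⟨a, a'⟩ ⟨b, b'⟩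
    refine (pre _ _ _ _ a b).trans ?_
    obtain ⟨e1, e2, e3, -⟩ := zoneL a.1.1 a.1.2.1 a.2
    obtain ⟨f1, f2, f3, -⟩ := zoneL b.1.1 b.1.2.1 b.2
    have g1 : m1 x y = 0 := max_eq_left (by linarith)
    have g2 : m1 x' y' = 0 := max_eq_left (by linarith)
    have k0 := lin_le 0 0 (x - x') (y - y') (by norm_num)
    have k1 := lin_le (-3 / 20) (19 / 20) (x - x') (y - y') (by norm_num)
    have k2 := lin_le (11 / 20) (-1 / 4) (x - x') (y - y') (by norm_num)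
    have k3 := lin_le (2 / 5) (7 / 10) (x - x') (y - y') (by norm_num)
    rw [e1, e2, e3, f1, f2, f3, g1, g2]
    simp only [max_def]
    split_ifs <;> linarith
  · rintro x y x' y' ⟨a, a'⟩ ⟨b, b'⟩
    refine (pre _ _ _ _ a b).trans ?_
    obtain ⟨e1, e2, e3, -⟩ := zoneL a.1.1 a.1.2.1 a.2
    obtain ⟨f1, f2, f3, -⟩ := zoneL b.1.1 b.1.2.1 b.2
    have g1 : m1 x y = x + 2 * y - 2 := max_eq_right (by linarith)
    have g2 : m1 x' y' = x' + 2 * y' - 2 := max_eq_right (by linarith)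
    have k0 := lin_le 0 0 (x - x') (y - y') (by norm_num)
    have k1 := lin_le (-31 / 60) (13 / 60) (x - x') (y - y') (by norm_num)
    have k2 := lin_le (13 / 60) (-55 / 60) (x - x') (y - y') (by norm_num)
    have k3 := lin_le (20 / 60) (40 / 60) (x - x') (y - y') (by norm_num)
    have k4 := lin_le (-18 / 60) (-42 / 60) (x - x') (y - y') (by norm_num)
    have k5 := lin_le (-11 / 60) (53 / 60) (x - x') (y - y') (by norm_num)
    have k6 := lin_le (33 / 60) (-15 / 60) (x - x') (y - y') (by norm_num)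
    have k7 := lin_le (2 / 60) (-2 / 60) (x - x') (y - y') (by norm_num)
    rw [e1, e2, e3, f1, f2, f3, g1, g2]
    simp only [max_def]
    split_ifs <;> linarith

theorem upto (U : Finset ℕ) (k : ℕ) :
    LipOn (fun x y => ∑ t ∈ U, F t x y) fun x y => Strip x y ∧ L (k + 2) x y ≤ 0 := by
  induction k with
  | zero => exact left U
  | succ k ih =>
    refine glue _ _ _ _ (fun x y x' y' s s0 s1 a b => strip_conv _ _ x y x' y' s s0 s1 a b) ?_
      (tri U k)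
    exact fun x y x' y' a b => ih x y x' y' ⟨a.1.1, a.2⟩ ⟨b.1.1, b.2⟩

theorem lip (U : Finset ℕ) (x y x' y' : ℝ) (y0 : 0 ≤ y) (y1 : y ≤ 1) (z0 : 0 ≤ y') (z1 : y' ≤ 1) :
    ∑ t ∈ U, F t x y - ∑ t ∈ U, F t x' y' ≤ Q (x - x') (y - y') := by
  obtain ⟨k, hk⟩ := exists_nat_ge (max x x')
  have key : ∀ x y : ℝ, 0 ≤ y → y ≤ 1 → x ≤ k → L (k + 2) x y ≤ 0 := by
    intro x y y0 y1 h
    rw [L_two]; unfold L
    rcases neg_one_pow_eq_or ℝ k with h | h <;> rw [h] <;> linarith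
  exact upto U k x y x' y' ⟨⟨y0, y1, rfl⟩, key x y y0 y1 ((le_max_left _ _).trans hk)⟩
    ⟨⟨z0, z1, rfl⟩, key x' y' z0 z1 ((le_max_right _ _).trans hk)⟩

/-- Long coordinate of point `i`. -/
noncomputable def px (i : ℕ) : ℝ := if i = 1 then 0 else i
/-- Normalised short coordinate of point `i`. -/
noncomputable def py (i : ℕ) : ℝ := (1 - (-1) ^ i) / 2

theorem py_mem (i : ℕ) : 0 ≤ py i ∧ py i ≤ 1 := by
  unfold py
  rcases neg_one_pow_eq_or ℝ i with h | h <;> rw [h] <;> norm_num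

theorem val (t : ℕ) : F t (px (t + 1)) (py (t + 1)) - F t 0 0 =
    1 + if t = 0 then -1 / 20 else if t = 1 then 1 / 10 else 0 := by
  obtain ⟨e1, e2, e3, e4⟩ := zoneL (x := 0) (y := 0) le_rfl zero_le_one (by rw [L2]; norm_num)
  have g : m1 0 0 = 0 := max_eq_left (by norm_num)
  rcases t with _ | _ | t
  · obtain ⟨f1, -⟩ := zoneL (x := 0) (y := 1) zero_le_one le_rfl (by rw [L2]; norm_num)
    have g' : m1 0 1 = 0 := max_eq_left (by norm_num)
    have a : px (0 + 1) = 0 := by simp [px]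
    have b : py (0 + 1) = 1 := by norm_num [py]
    rw [a, b, e1, f1, g, g']; norm_num
  · obtain ⟨-, f1, -⟩ := zoneL (x := 2) (y := 0) le_rfl zero_le_one (by rw [L2]; norm_num)
    have g' : m1 2 0 = 0 := max_eq_left (by norm_num)
    have a : px (0 + 1 + 1) = 2 := by simp [px]
    have b : py (0 + 1 + 1) = 0 := by norm_num [py]
    rw [a, b, zero_add, e2, f1, g, g']; norm_num
  · have a : px (t + 1 + 1 + 1) = t + 3 := by
      unfold px; rw [if_neg (by omega)]; push_cast; ring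
    have b : py (t + 1 + 1 + 1) = (1 + (-1) ^ t) / 2 := by
      unfold py; rw [pow_succ, pow_succ, pow_succ]; ring
    have hy := py_mem (t + 1 + 1 + 1)
    rw [b] at hy
    have c : L (t + 3) (t + 3) ((1 + (-1) ^ t) / 2) = 0 := by
      unfold L; rw [pow_add]; push_cast
      rcases neg_one_pow_eq_or ℝ t with h | h <;> rw [h] <;> ring
    have c2 : L (t + 2) (t + 3) ((1 + (-1) ^ t) / 2) = 0 := by
      unfold L; rw [pow_add]; push_cast
      rcases neg_one_pow_eq_or ℝ t with h | h <;> rw [h] <;> ring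
    have c1 : L (t + 1) (t + 3) ((1 + (-1) ^ t) / 2) = 2 := by
      have := L_two (t + 1) (t + 3) ((1 + (-1) ^ t) / 2)
      rw [show t + 1 + 2 = t + 3 by ring, c] at this
      linarith
    have z : F (t + 1 + 1) 0 0 = 0 := by
      rcases t with _ | t
      · rw [show 0 + 1 + 1 = 2 by ring, e3, g]; norm_num
      · exact e4 t
    rw [a, b, z, show t + 1 + 1 = t + 2 by ring,
      (zoneR hy.1 hy.2 (c2.ge.trans (L_anti (by omega) _ _ hy.1 hy.2))).2.2 t, if_neg (by omega),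
      if_neg (by omega)]
    unfold H
    rw [m_lo (j := t + 1) (k := t + 2) (by omega) hy.1 hy.2 c2.ge, c1,
      m_hi (j := t + 1 + 1) (k := t + 2) (by omega) hy.1 hy.2 c2.le,
      m_hi (j := t + 1 + 2) (k := t + 2) (by omega) hy.1 hy.2 c2.le,
      m_hi (j := t + 1 + 3) (k := t + 2) (by omega) hy.1 hy.2 c2.le]
    norm_num

theorem total (k : ℕ) : ∑ t ∈ range (k + 2), (F t (px (t + 1)) (py (t + 1)) - F t 0 0) =
    k + 2 + 1 / 20 := by
  induction k with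
  | zero => simp only [zero_add, sum_range_succ, sum_range_zero, val]; norm_num
  | succ k ih =>
    rw [show k + 1 + 2 = k + 2 + 1 by ring, sum_range_succ, ih, val, if_neg (by omega),
      if_neg (by omega)]
    push_cast; ring

end Pool.Agent.H3.St
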