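import Pool.Agent.H3.St1

set_option autoImplicit false

namespace Pool.Agent.H3.St

open Set MeasureTheory
open scoped ENNReal

variable {X ι : Type*}

theorem tree2 (U : ℕ → Set X) (r : X) :
    ∃ (par : ℕ → ℕ) (e : ℕ → X) (N : ℕ → Prop), ∀ i, (∃ k, R U r k i) → e i ∈ U i ∧
      ∃ A : Finset ℕ, (∀ j ∈ A, e j ∈ U (par j) ∧ e (par j) ∈ U (par j)) ∧
        (∀ j ∈ A, j = i ∨ ∃ k ∈ A, par k = j) ∧ (∀ j, j ∈ A ↔ N j ∧ ∃ m, par^[m] i = j) ∧
        ∀ ψ : X → ℝ, ψ (e i) - ψ r = ∑ j ∈ A, (ψ (e j) - ψ (e (par j))) := by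
  classical
  let dep : ℕ → ℕ := fun i => if h : ∃ k, R U r k i then Nat.find h else 0
  have hdep : ∀ i, (∃ k, R U r k i) → R U r (dep i) i := by
    intro i h
    simp only [dep, dif_pos h]
    exact Nat.find_spec h
  have hmin : ∀ i k, R U r k i → dep i ≤ k := by
    intro i k h
    have h' : ∃ k, R U r k i := ⟨k, h⟩
    simp only [dep, dif_pos h']
    exact Nat.find_min' h' h
  have key : ∀ i, ∃ (p : ℕ) (x : X), (∃ k, R U r k i) → x ∈ U i ∧ (dep i = 0 → x = r ∧ p = i) ∧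
      (dep i ≠ 0 → (∃ k, R U r k p) ∧ dep p < dep i ∧ x ∈ U p) := by
    intro i
    by_cases h : ∃ k, R U r k i
    · have h1 := hdep i h
      rcases hd : dep i with _ | k
      · rw [hd] at h1
        exact ⟨i, r, fun _ => ⟨h1, fun _ => ⟨rfl, rfl⟩, fun h => absurd rfl h⟩⟩
      · rw [hd] at h1
        obtain ⟨j, hj, x, hx1, hx2⟩ := h1
        refine ⟨j, x, fun _ => ⟨hx1, fun h => by simp at h, fun _ => ⟨⟨k, hj⟩, ?_, hx2⟩⟩⟩
        exact Nat.lt_succ_of_le (hmin j k hj)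
    · exact ⟨0, r, fun h' => absurd h' h⟩
  choose par e hk using key
  refine ⟨par, e, fun j => dep j ≠ 0, ?_⟩
  have main : ∀ n i, dep i = n → (∃ k, R U r k i) →
      ∃ A : Finset ℕ, (∀ j ∈ A, dep j ≤ dep i ∧ e j ∈ U (par j) ∧ e (par j) ∈ U (par j)) ∧
        (∀ j ∈ A, j = i ∨ ∃ k ∈ A, par k = j) ∧ (∀ j, j ∈ A ↔ dep j ≠ 0 ∧ ∃ m, par^[m] i = j) ∧
        ∀ ψ : X → ℝ, ψ (e i) - ψ r = ∑ j ∈ A, (ψ (e j) - ψ (e (par j))) := by
    intro n
    induction n using Nat.strong_induction_on with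
    | _ n ih =>
      intro i hi h
      obtain ⟨h1, h2, h3⟩ := hk i h
      by_cases h0 : dep i = 0
      · refine ⟨∅, by simp, by simp, fun j => ⟨by simp, ?_⟩, fun ψ => ?_⟩
        · rintro ⟨hj, m, hm⟩
          rw [Function.iterate_fixed (h2 h0).2] at hm
          exact absurd (hm ▸ h0) hj
        · rw [(h2 h0).1]; simp
      · obtain ⟨hp, hlt, hx⟩ := h3 h0
        obtain ⟨A, a1, a2, a4, a3⟩ := ih (dep (par i)) (hi ▸ hlt) (par i) rfl hp
        have hni : i ∉ A := fun hA => by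
          have := (a1 i hA).1
          omega
        refine ⟨insert i A, ?_, ?_, fun j => ⟨fun hj => ?_, ?_⟩, fun ψ => ?_⟩
        · intro j hj
          rcases Finset.mem_insert.1 hj with rfl | hj
          · exact ⟨le_rfl, hx, (hk _ hp).1⟩
          · exact ⟨(a1 j hj).1.trans hlt.le, (a1 j hj).2⟩
        · intro j hj
          rcases Finset.mem_insert.1 hj with rfl | hj
          · exact Or.inl rfl
          · right
            rcases a2 j hj with rfl | ⟨k, hk1, hk2⟩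
            · exact ⟨i, Finset.mem_insert_self _ _, rfl⟩
            · exact ⟨k, Finset.mem_insert_of_mem hk1, hk2⟩
        · rcases Finset.mem_insert.1 hj with rfl | hj
          · exact ⟨h0, 0, rfl⟩
          · obtain ⟨b1, m, hm⟩ := (a4 j).1 hj
            exact ⟨b1, m + 1, by rw [Function.iterate_succ_apply, hm]⟩
        · rintro ⟨b1, m, hm⟩
          rcases m with _ | m
          · exact Finset.mem_insert.2 (Or.inl hm.symm)
          · exact Finset.mem_insert_of_mem ((a4 j).2 ⟨b1, m, by rw [← hm, Function.iterate_succ_apply]⟩)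
        · rw [Finset.sum_insert hni, ← a3 ψ]; ring
  intro i h
  obtain ⟨A, a1, a2, a4, a3⟩ := main _ i rfl h
  exact ⟨(hk i h).1, A, fun j hj => (a1 j hj).2, a2, a4, a3⟩

/-- A family of index sets that contains the singletons and is laminar. -/
def Lam (F : Set (Finset ι)) : Prop :=
  (∀ t, {t} ∈ F) ∧ ∀ V ∈ F, ∀ W ∈ F, V ⊆ W ∨ W ⊆ V ∨ Disjoint V W

/-- For each laminar family there are potentials certifying `L`. -/
def Cert [PseudoMetricSpace X] [Fintype ι] (p : ι → X) (r : X) (L : ℝ) : Prop :=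
  ∀ F : Set (Finset ι), Lam F → ∃ φ : ι → X → ℝ,
    (∀ V ∈ F, ∀ x z : X, ∑ t ∈ V, (φ t x - φ t z) ≤ dist x z) ∧ L ≤ ∑ t, (φ t (p t) - φ t r)

theorem open_bound2 [PseudoMetricSpace X] [Fintype ι] (U : ℕ → Set X) (hU : ∀ i, IsOpen (U i)) (S : Set X)
    (hS : IsPreconnected S) (hc : S ⊆ ⋃ i, U i) (r : X) (hr : r ∈ S)
    (p : ι → X) (hp : ∀ t, p t ∈ S) (L : ℝ) (hL : Cert p r L)
    (d : ℕ → ℝ) (ρ : ℝ) (hd : ∀ i, ∀ x ∈ U i, ∀ z ∈ U i, dist x z ≤ d i) (hρ : ∀ i, d i ≤ ρ)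
    (hρ0 : 0 ≤ ρ) :
    ∃ J : Finset ℕ, L ≤ ∑ i ∈ J, d i + 2 * Fintype.card ι * ρ := by
  classical
  obtain ⟨par, e, N, hk⟩ := tree2 U r
  set T : Finset ι := Finset.univ with hT
  have h1 : ∀ t, ∃ (i : ℕ) (A : Finset ℕ), t ∈ T → p t ∈ U i ∧ e i ∈ U i ∧
      (∀ j ∈ A, e j ∈ U (par j) ∧ e (par j) ∈ U (par j)) ∧
        (∀ j ∈ A, j = i ∨ ∃ k ∈ A, par k = j) ∧ (∀ j, j ∈ A ↔ N j ∧ ∃ m, par^[m] i = j) ∧
        ∀ ψ : X → ℝ, ψ (e i) - ψ r = ∑ j ∈ A, (ψ (e j) - ψ (e (par j))) := by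
    intro t
    by_cases ht : t ∈ T
    · obtain ⟨i, hi, hpi⟩ := reach U hU S hS hc r hr (p t) (hp t)
      obtain ⟨a0, A, a1, a2, a4, a3⟩ := hk i hi
      exact ⟨i, A, fun _ => ⟨hpi, a0, a1, a2, a4, a3⟩⟩
    · exact ⟨0, ∅, fun h => absurd h ht⟩
  choose c A hA using h1
  have hmem : ∀ t j, j ∈ A t ↔ N j ∧ ∃ m, par^[m] (c t) = j :=
    fun t => (hA t (Finset.mem_univ t)).2.2.2.2.1
  have hsub : ∀ j j' k, par^[k] j = j' → N j' →
      T.filter (fun t => j ∈ A t) ⊆ T.filter (fun t => j' ∈ A t) := by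
    intro j j' k hk hN t ht
    obtain ⟨-, m, hm⟩ := (hmem t j).1 (Finset.mem_filter.1 ht).2
    exact Finset.mem_filter.2 ⟨Finset.mem_univ t,
      (hmem t j').2 ⟨hN, k + m, by rw [Function.iterate_add_apply, hm, hk]⟩⟩
  obtain ⟨φ, hφ, hLφ⟩ := hL ({V | ∃ t, V = {t}} ∪ {V | ∃ j, V = T.filter (fun t => j ∈ A t)})
    ⟨fun t => Or.inl ⟨t, rfl⟩, by
      have hs : ∀ (t : ι) (W : Finset ι), {t} ⊆ W ∨ Disjoint {t} W := fun t W => by
        by_cases h : t ∈ W
        · exact Or.inl (Finset.singleton_subset_iff.2 h)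
        · exact Or.inr (Finset.disjoint_singleton_left.2 h)
      rintro V (⟨t, rfl⟩ | ⟨j, rfl⟩) W hW
      · rcases hs t W with h | h
        · exact Or.inl h
        · exact Or.inr (Or.inr h)
      rcases hW with ⟨t, rfl⟩ | ⟨j', rfl⟩
      · rcases hs t (T.filter (fun t => j ∈ A t)) with h | h
        · exact Or.inr (Or.inl h)
        · exact Or.inr (Or.inr h.symm)
      by_cases hd : Disjoint (T.filter (fun t => j ∈ A t)) (T.filter (fun t => j' ∈ A t))
      · exact Or.inr (Or.inr hd)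
      obtain ⟨t, h1, h2⟩ := Finset.not_disjoint_iff.1 hd
      obtain ⟨n1, m, hm⟩ := (hmem t j).1 (Finset.mem_filter.1 h1).2
      obtain ⟨n2, m', hm'⟩ := (hmem t j').1 (Finset.mem_filter.1 h2).2
      rcases le_total m m' with h | h
      · obtain ⟨k, rfl⟩ := Nat.exists_eq_add_of_le' h
        exact Or.inl (hsub j j' k (by rw [← hm, ← Function.iterate_add_apply, hm']) n2)
      · obtain ⟨k, rfl⟩ := Nat.exists_eq_add_of_le' h
        exact Or.inr (Or.inl (hsub j' j k (by rw [← hm', ← Function.iterate_add_apply, hm]) n1))⟩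
  set J' := T.biUnion A with hJ'
  refine ⟨J'.image par, ?_⟩
  have e1 : ∑ t ∈ T, (φ t (p t) - φ t r) = ∑ t ∈ T, (φ t (p t) - φ t (e (c t))) +
      ∑ t ∈ T, ∑ j ∈ A t, (φ t (e j) - φ t (e (par j))) := by
    rw [← Finset.sum_add_distrib]
    refine Finset.sum_congr rfl fun t ht => ?_
    rw [← (hA t ht).2.2.2.2.2 (φ t)]; ring
  have e2 : ∑ t ∈ T, (φ t (p t) - φ t (e (c t))) ≤ T.card * ρ := by
    rw [← nsmul_eq_mul]
    refine Finset.sum_le_card_nsmul _ _ _ fun t ht => ?_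
    have := hφ {t} (Or.inl ⟨t, rfl⟩) (p t) (e (c t))
    rw [Finset.sum_singleton] at this
    exact this.trans ((hd _ _ (hA t ht).1 _ (hA t ht).2.1).trans (hρ _))
  have e3 : ∑ t ∈ T, ∑ j ∈ A t, (φ t (e j) - φ t (e (par j))) =
      ∑ j ∈ J', ∑ t ∈ T.filter (fun t => j ∈ A t), (φ t (e j) - φ t (e (par j))) := by
    refine Finset.sum_comm' fun t j => ?_
    simp only [hJ', Finset.mem_filter, Finset.mem_biUnion]
    constructor
    · rintro ⟨h1, h2⟩; exact ⟨⟨h1, h2⟩, t, h1, h2⟩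
    · rintro ⟨h1, _⟩; exact h1
  have e4 : ∑ j ∈ J', ∑ t ∈ T.filter (fun t => j ∈ A t), (φ t (e j) - φ t (e (par j))) ≤
      ∑ j ∈ J', d (par j) := by
    refine Finset.sum_le_sum fun j hj => ?_
    obtain ⟨t, ht, hj⟩ := Finset.mem_biUnion.1 hj
    obtain ⟨b1, b2⟩ := (hA t ht).2.2.1 j hj
    exact (hφ _ (Or.inr ⟨j, rfl⟩) _ _).trans (hd _ _ b1 _ b2)
  have e5 : ∑ i ∈ J'.image par, (ρ - d i) ≤ ∑ j ∈ J', (ρ - d (par j)) :=
    Finset.sum_image_le_of_nonneg fun i _ => sub_nonneg.2 (hρ i)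
  have e6 : J'.card ≤ (J'.image par).card + T.card := by
    have : J' ⊆ J'.image par ∪ T.image c := by
      intro j hj
      obtain ⟨t, ht, hj⟩ := Finset.mem_biUnion.1 hj
      rcases (hA t ht).2.2.2.1 j hj with rfl | ⟨k, hk1, rfl⟩
      · exact Finset.mem_union_right _ (Finset.mem_image_of_mem _ ht)
      · exact Finset.mem_union_left _
          (Finset.mem_image_of_mem _ (Finset.mem_biUnion.2 ⟨t, ht, hk1⟩))
    exact (Finset.card_le_card this).trans ((Finset.card_union_le _ _).trans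
      (Nat.add_le_add_left Finset.card_image_le _))
  have e7 : (J'.card : ℝ) * ρ ≤ (J'.image par).card * ρ + T.card * ρ := by
    rw [← add_mul]
    exact mul_le_mul_of_nonneg_right (by exact_mod_cast e6) hρ0
  simp only [Finset.sum_sub_distrib, Finset.sum_const, nsmul_eq_mul] at e5
  rw [e1, e3] at hLφ
  have : (Fintype.card ι : ℝ) = T.card := rfl
  rw [this]
  linarith

theorem steiner_lam [Fintype ι] [MetricSpace X] [MeasurableSpace X] [BorelSpace X] (S : Set X)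
    (hS : IsPreconnected S) (r : X) (hr : r ∈ S)
    (p : ι → X) (hp : ∀ t, p t ∈ S) (L : ℝ) (hL : Cert p r L) :
    ENNReal.ofReal L ≤ Measure.hausdorffMeasure 1 S := by
  refine ENNReal.le_of_forall_pos_le_add fun ε hε _ => ?_
  have hε' : (0 : ℝ) < ε := hε
  set δ : ℝ := ε / (4 * Fintype.card ι + 2) with hδ
  have hδ0 : 0 < δ := by positivity
  rw [Measure.hausdorffMeasure_apply]
  refine le_trans ?_ (add_le_add_left (le_iSup₂_of_le (ENNReal.ofReal δ)
    (ENNReal.ofReal_pos.2 hδ0) le_rfl) _)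
  rw [← tsub_le_iff_right]
  refine le_iInf fun t => le_iInf fun hc => le_iInf fun hd => ?_
  rw [tsub_le_iff_right]
  have hfin : ∀ n, Metric.ediam (t n) ≠ ⊤ := fun n => ne_top_of_le_ne_top ENNReal.ofReal_ne_top (hd n)
  have hbd : ∀ n, Bornology.IsBounded (t n) := fun n => Metric.isBounded_iff_ediam_ne_top.2 (hfin n)
  have hdi : ∀ n, Metric.diam (t n) ≤ δ := fun n => ENNReal.toReal_le_of_le_ofReal hδ0.le (hd n)
  obtain ⟨J, hJ⟩ := open_bound2 (fun n => Metric.thickening (δ / 2 / 2 ^ n / 2) (t n))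
    (fun n => Metric.isOpen_thickening) S hS
    (hc.trans (iUnion_mono fun n => Metric.self_subset_thickening (by positivity) _)) r hr p hp L hL
    (fun n => Metric.diam (t n) + δ / 2 / 2 ^ n) (2 * δ) (by
      intro n x hx z hz
      obtain ⟨x', hx', h1⟩ := Metric.mem_thickening_iff.1 hx
      obtain ⟨z', hz', h2⟩ := Metric.mem_thickening_iff.1 hz
      have h3 := Metric.dist_le_diam_of_mem (hbd n) hx' hz'
      have h4 := dist_triangle4 x x' z' z
      rw [dist_comm z' z] at h4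
      linarith) (by
      intro n
      have : δ / 2 / 2 ^ n ≤ δ := by
        refine (div_le_self (by positivity) (one_le_pow₀ (by norm_num))).trans (by linarith)
      linarith [hdi n]) (by positivity)
  have hg : ∑ i ∈ J, δ / 2 / 2 ^ i ≤ δ := by
    have := (hasSum_geometric_two' δ)
    exact sum_le_hasSum J (fun i _ => by positivity) this
  have h5 : L ≤ ∑ i ∈ J, Metric.diam (t i) + ε := by
    rw [Finset.sum_add_distrib] at hJ
    have : (ε : ℝ) = δ * (4 * Fintype.card ι + 2) := by rw [hδ]; field_simp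
    nlinarith
  calc ENNReal.ofReal L ≤ ENNReal.ofReal (∑ i ∈ J, Metric.diam (t i) + ε) :=
        ENNReal.ofReal_le_ofReal h5
    _ ≤ ENNReal.ofReal (∑ i ∈ J, Metric.diam (t i)) + ENNReal.ofReal ε := ENNReal.ofReal_add_le
    _ ≤ _ := by
      rw [ENNReal.ofReal_coe_nnreal, ENNReal.ofReal_sum_of_nonneg fun i _ => Metric.diam_nonneg]
      refine add_le_add_left (le_trans (Finset.sum_le_sum fun i _ => ?_) (ENNReal.sum_le_tsum J)) _
      rcases (t i).eq_empty_or_nonempty with h | h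
      · simp [h]
      · rw [iSup_pos h, ENNReal.rpow_one, Metric.diam, ENNReal.ofReal_toReal (hfin i)]

abbrev E := EuclideanSpace ℝ (Fin 2)

theorem plane_lam [Fintype ι] (S : Set E) (hS : IsConnected S) (p : ι → E) (hp : ∀ t, p t ∈ S)
    (L : ℝ) (h : ∀ F : Set (Finset ι), Lam F → ∃ a b : ι → ℝ, ∑ t, a t = 0 ∧ ∑ t, b t = 0 ∧
      (∀ V ∈ F, (∑ t ∈ V, a t) ^ 2 + (∑ t ∈ V, b t) ^ 2 ≤ 1) ∧
        L ≤ ∑ t, (a t * p t 0 + b t * p t 1)) :
    ENNReal.ofReal L ≤ Measure.hausdorffMeasure 1 S := by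
  obtain ⟨r, hr⟩ := hS.nonempty
  refine steiner_lam S hS.isPreconnected r hr p hp L fun F hF => ?_
  obtain ⟨a, b, ha, hb, h1, h2⟩ := h F hF
  refine ⟨fun t x => a t * x 0 + b t * x 1, fun V hV x z => ?_, ?_⟩
  · have e : ∑ t ∈ V, (a t * x 0 + b t * x 1 - (a t * z 0 + b t * z 1)) =
        (∑ t ∈ V, a t) * (x 0 - z 0) + (∑ t ∈ V, b t) * (x 1 - z 1) := by
      rw [Finset.sum_mul, Finset.sum_mul, ← Finset.sum_add_distrib]
      exact Finset.sum_congr rfl fun t _ => by ring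
    rw [e, EuclideanSpace.dist_eq]
    refine le_trans (le_abs_self _) (Real.abs_le_sqrt ?_)
    simp only [Fin.sum_univ_two, Real.dist_eq, sq_abs]
    have := h1 V hV
    nlinarith [sq_nonneg ((∑ t ∈ V, a t) * (x 1 - z 1) - (∑ t ∈ V, b t) * (x 0 - z 0)),
      mul_nonneg (sub_nonneg.2 this) (add_nonneg (sq_nonneg (x 0 - z 0)) (sq_nonneg (x 1 - z 1)))]
  · have e : ∑ t, (a t * r 0 + b t * r 1) = 0 := by
      rw [Finset.sum_add_distrib, ← Finset.sum_mul, ← Finset.sum_mul, ha, hb]; ring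
    rw [Finset.sum_sub_distrib, e, sub_zero]
    exact h2

end Pool.Agent.H3.St
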