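import Pool.Agent.H3.St4

set_option autoImplicit false

namespace Pool.Agent.H3.St

open Set MeasureTheory

theorem lbA (s : ℝ) (hs : s * s = 3) (hs1 : 173 / 100 < s) (S : Set E) (hS : IsConnected S)
    (p : Fin 5 → E) (hp : ∀ t, p t ∈ S)
    (h0 : dist (pt (300 * s) (300 * s)) (p 0) ≤ 0)
    (h1 : dist (pt (300 * s + 1) (300 * s + s)) (p 1) ≤ 0)
    (h2 : dist (pt (-(300 * s)) (300 * s)) (p 2) ≤ 0)
    (h3 : dist (pt (-(300 * s)) (-(300 * s))) (p 3) ≤ 0)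
    (h4 : dist (pt (300 * s) (-(300 * s))) (p 4) ≤ 0) :
    ENNReal.ofReal (1802 + 600 * s) ≤ Measure.hausdorffMeasure 1 S := by
  refine plane_lam S hS p hp _ fun F hF => ?_
  by_cases hm : ∃ D : Fin 5 → Prop, (∀ V ∈ F, Cp D V) ∧ D 1 ∧ D 2 ∧ ¬ D 0 ∧ ¬ D 3 ∧ ¬ D 4
  · obtain ⟨D, hD, d1, d2, d0, d3, d4⟩ := hm
    refine ⟨![1 / 4, 1, -1, -19 / 20, 7 / 10], ![19 / 20, 0, 0, -1 / 4, -7 / 10], ?_, ?_, fun V hV => ?_, ?_⟩
    · simp only [Fin.sum_univ_five, Matrix.cons_val, Matrix.cons_val_zero, Matrix.cons_val_one]; ring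
    · simp only [Fin.sum_univ_five, Matrix.cons_val, Matrix.cons_val_zero, Matrix.cons_val_one]; ring
    · rw [sum_ind V, sum_ind V]
      simp only [Fin.sum_univ_five, Matrix.cons_val, Matrix.cons_val_zero, Matrix.cons_val_one,
        ite_self, add_zero, zero_add]
      by_cases m0 : (0 : Fin 5) ∈ V <;> by_cases m1 : (1 : Fin 5) ∈ V <;> by_cases m2 : (2 : Fin 5) ∈ V <;> by_cases m3 : (3 : Fin 5) ∈ V <;> by_cases m4 : (4 : Fin 5) ∈ V <;>
        first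
        | exact ((hD V hV).cut d1 d2 d0 d3 m1 m2 m0 m3).elim
        | exact ((hD V hV).cut d1 d2 d0 d4 m1 m2 m0 m4).elim
        | exact ((hD V hV).cut d1 d2 d3 d0 m1 m2 m3 m0).elim
        | exact ((hD V hV).cut d1 d2 d3 d4 m1 m2 m3 m4).elim
        | exact ((hD V hV).cut d1 d2 d4 d0 m1 m2 m4 m0).elim
        | exact ((hD V hV).cut d1 d2 d4 d3 m1 m2 m4 m3).elim
        | exact ((hD V hV).cut d2 d1 d0 d3 m2 m1 m0 m3).elim
        | exact ((hD V hV).cut d2 d1 d0 d4 m2 m1 m0 m4).elim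
        | exact ((hD V hV).cut d2 d1 d3 d0 m2 m1 m3 m0).elim
        | exact ((hD V hV).cut d2 d1 d3 d4 m2 m1 m3 m4).elim
        | exact ((hD V hV).cut d2 d1 d4 d0 m2 m1 m4 m0).elim
        | exact ((hD V hV).cut d2 d1 d4 d3 m2 m1 m4 m3).elim
        | (simp only [m0, m1, m2, m3, m4, if_true, if_false]; linarith [hs])
    · simp only [Fin.sum_univ_five, Matrix.cons_val, Matrix.cons_val_zero, Matrix.cons_val_one]
      have k0 := key h0 (1 / 4) (19 / 20) (by linarith [hs])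
      have k1 := key h1 (1) (0) (by linarith [hs])
      have k2 := key h2 (-1) (0) (by linarith [hs])
      have k3 := key h3 (-19 / 20) (-1 / 4) (by linarith [hs])
      have k4 := key h4 (7 / 10) (-7 / 10) (by linarith [hs])
      linarith
  by_cases hT : ∃ W ∈ F, (1 ∈ W ∧ 2 ∈ W ∧ 3 ∉ W ∧ 4 ∉ W) ∨ (1 ∉ W ∧ 2 ∉ W ∧ 3 ∈ W ∧ 4 ∈ W)
  swap
  · refine ⟨![0, 1 / 2, -1 / 2, -1 / 2, 1 / 2], ![0, s / 2, s / 2, -s / 2, -s / 2], ?_, ?_, fun V hV => ?_, ?_⟩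
    · simp only [Fin.sum_univ_five, Matrix.cons_val, Matrix.cons_val_zero, Matrix.cons_val_one]; ring
    · simp only [Fin.sum_univ_five, Matrix.cons_val, Matrix.cons_val_zero, Matrix.cons_val_one]; ring
    · rw [sum_ind V, sum_ind V]
      simp only [Fin.sum_univ_five, Matrix.cons_val, Matrix.cons_val_zero, Matrix.cons_val_one,
        ite_self, add_zero, zero_add]
      by_cases m1 : (1 : Fin 5) ∈ V <;> by_cases m2 : (2 : Fin 5) ∈ V <;> by_cases m3 : (3 : Fin 5) ∈ V <;> by_cases m4 : (4 : Fin 5) ∈ V <;>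
        first
        | exact (hT ⟨V, hV, Or.inl ⟨m1, m2, m3, m4⟩⟩).elim
        | exact (hT ⟨V, hV, Or.inr ⟨m1, m2, m3, m4⟩⟩).elim
        | (simp only [m1, m2, m3, m4, if_true, if_false]; linarith [hs])
    · simp only [Fin.sum_univ_five, Matrix.cons_val, Matrix.cons_val_zero, Matrix.cons_val_one]
      have k1 := key h1 (1 / 2) (s / 2) (by linarith [hs])
      have k2 := key h2 (-1 / 2) (s / 2) (by linarith [hs])
      have k3 := key h3 (-1 / 2) (-s / 2) (by linarith [hs])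
      have k4 := key h4 (1 / 2) (-s / 2) (by linarith [hs])
      linarith
  obtain ⟨D, hD, d1, d2, d3, d4⟩ : ∃ D : Fin 5 → Prop, (∀ V ∈ F, Cp D V) ∧ D 1 ∧ D 2 ∧ ¬ D 3 ∧ ¬ D 4 := by
    obtain ⟨W, hW, h | h⟩ := hT
    · exact ⟨_, (side hF hW).1, h⟩
    · exact ⟨_, (side hF hW).2, h.1, h.2.1, not_not.2 h.2.2.1, not_not.2 h.2.2.2⟩
  have d0 : D 0 := by_contra fun h => hm ⟨D, hD, d1, d2, h, d3, d4⟩
  refine ⟨![s / 2 - 1 / 2, 1 / 2, -s / 2, -s / 2, s / 2], ![1 / 2 - s / 2, s / 2, 1 / 2, -1 / 2, -1 / 2], ?_, ?_, fun V hV => ?_, ?_⟩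
  · simp only [Fin.sum_univ_five, Matrix.cons_val, Matrix.cons_val_zero, Matrix.cons_val_one]; ring
  · simp only [Fin.sum_univ_five, Matrix.cons_val, Matrix.cons_val_zero, Matrix.cons_val_one]; ring
  · rw [sum_ind V, sum_ind V]
    simp only [Fin.sum_univ_five, Matrix.cons_val, Matrix.cons_val_zero, Matrix.cons_val_one,
      ite_self, add_zero, zero_add]
    by_cases m0 : (0 : Fin 5) ∈ V <;> by_cases m1 : (1 : Fin 5) ∈ V <;> by_cases m2 : (2 : Fin 5) ∈ V <;> by_cases m3 : (3 : Fin 5) ∈ V <;> by_cases m4 : (4 : Fin 5) ∈ V <;>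
      first
      | exact ((hD V hV).cut d0 d1 d3 d4 m0 m1 m3 m4).elim
      | exact ((hD V hV).cut d0 d1 d4 d3 m0 m1 m4 m3).elim
      | exact ((hD V hV).cut d0 d2 d3 d4 m0 m2 m3 m4).elim
      | exact ((hD V hV).cut d0 d2 d4 d3 m0 m2 m4 m3).elim
      | exact ((hD V hV).cut d1 d0 d3 d4 m1 m0 m3 m4).elim
      | exact ((hD V hV).cut d1 d0 d4 d3 m1 m0 m4 m3).elim
      | exact ((hD V hV).cut d1 d2 d3 d4 m1 m2 m3 m4).elim
      | exact ((hD V hV).cut d1 d2 d4 d3 m1 m2 m4 m3).elim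
      | exact ((hD V hV).cut d2 d0 d3 d4 m2 m0 m3 m4).elim
      | exact ((hD V hV).cut d2 d0 d4 d3 m2 m0 m4 m3).elim
      | exact ((hD V hV).cut d2 d1 d3 d4 m2 m1 m3 m4).elim
      | exact ((hD V hV).cut d2 d1 d4 d3 m2 m1 m4 m3).elim
      | exact (hm ⟨_, (side hF hV).1, m1, m2, m0, m3, m4⟩).elim
      | exact (hm ⟨_, (side hF hV).2, m1, m2, not_not.2 m0, not_not.2 m3, not_not.2 m4⟩).elim
      | (simp only [m0, m1, m2, m3, m4, if_true, if_false]; linarith [hs])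
  · simp only [Fin.sum_univ_five, Matrix.cons_val, Matrix.cons_val_zero, Matrix.cons_val_one]
    have k0 := key h0 (s / 2 - 1 / 2) (1 / 2 - s / 2) (by linarith [hs])
    have k1 := key h1 (1 / 2) (s / 2) (by linarith [hs])
    have k2 := key h2 (-s / 2) (1 / 2) (by linarith [hs])
    have k3 := key h3 (-s / 2) (-1 / 2) (by linarith [hs])
    have k4 := key h4 (s / 2) (-1 / 2) (by linarith [hs])
    linarith

theorem lbM (s : ℝ) (hs : s * s = 3) (hs1 : 173 / 100 < s) (S : Set E) (hS : IsConnected S)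
    (p : Fin 5 → E) (hp : ∀ t, p t ∈ S)
    (h0 : dist (pt (-(300 * s) + 150) (150 * s)) (p 0) ≤ 2)
    (h1 : dist (pt (300 * s + 2) (300 * s + 2 * s)) (p 1) ≤ 2)
    (h2 : dist (pt (-(300 * s) - 1) (300 * s + s)) (p 2) ≤ 2)
    (h3 : dist (pt (-(300 * s) - 1) (-(300 * s) - s)) (p 3) ≤ 2)
    (h4 : dist (pt (300 * s + 1) (-(300 * s) - s)) (p 4) ≤ 2) :
    ENNReal.ofReal (1802 + 600 * s) ≤ Measure.hausdorffMeasure 1 S := by
  refine plane_lam S hS p hp _ fun F hF => ?_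
  by_cases hT : ∃ W ∈ F, (1 ∈ W ∧ 2 ∈ W ∧ 3 ∉ W ∧ 4 ∉ W) ∨ (1 ∉ W ∧ 2 ∉ W ∧ 3 ∈ W ∧ 4 ∈ W)
  swap
  · refine ⟨![0, 1 / 2, -1 / 2, -1 / 2, 1 / 2], ![0, s / 2, s / 2, -s / 2, -s / 2], ?_, ?_, fun V hV => ?_, ?_⟩
    · simp only [Fin.sum_univ_five, Matrix.cons_val, Matrix.cons_val_zero, Matrix.cons_val_one]; ring
    · simp only [Fin.sum_univ_five, Matrix.cons_val, Matrix.cons_val_zero, Matrix.cons_val_one]; ring
    · rw [sum_ind V, sum_ind V]
      simp only [Fin.sum_univ_five, Matrix.cons_val, Matrix.cons_val_zero, Matrix.cons_val_one,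
        ite_self, add_zero, zero_add]
      by_cases m1 : (1 : Fin 5) ∈ V <;> by_cases m2 : (2 : Fin 5) ∈ V <;> by_cases m3 : (3 : Fin 5) ∈ V <;> by_cases m4 : (4 : Fin 5) ∈ V <;>
        first
        | exact (hT ⟨V, hV, Or.inl ⟨m1, m2, m3, m4⟩⟩).elim
        | exact (hT ⟨V, hV, Or.inr ⟨m1, m2, m3, m4⟩⟩).elim
        | (simp only [m1, m2, m3, m4, if_true, if_false]; linarith [hs])
    · simp only [Fin.sum_univ_five, Matrix.cons_val, Matrix.cons_val_zero, Matrix.cons_val_one]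
      have k1 := key h1 (1 / 2) (s / 2) (by linarith [hs])
      have k2 := key h2 (-1 / 2) (s / 2) (by linarith [hs])
      have k3 := key h3 (-1 / 2) (-s / 2) (by linarith [hs])
      have k4 := key h4 (1 / 2) (-s / 2) (by linarith [hs])
      linarith
  obtain ⟨D, hD, d1, d2, d3, d4⟩ : ∃ D : Fin 5 → Prop, (∀ V ∈ F, Cp D V) ∧ D 1 ∧ D 2 ∧ ¬ D 3 ∧ ¬ D 4 := by
    obtain ⟨W, hW, h | h⟩ := hT
    · exact ⟨_, (side hF hW).1, h⟩
    · exact ⟨_, (side hF hW).2, h.1, h.2.1, not_not.2 h.2.2.1, not_not.2 h.2.2.2⟩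
  by_cases h20 : ∃ W ∈ F, (2 ∈ W ∧ 0 ∈ W ∧ 1 ∉ W ∧ 3 ∉ W ∧ 4 ∉ W) ∨ (2 ∉ W ∧ 0 ∉ W ∧ 1 ∈ W ∧ 3 ∈ W ∧ 4 ∈ W)
  · obtain ⟨G, hG, g2, g0, g1, g3, g4⟩ : ∃ G : Fin 5 → Prop, (∀ V ∈ F, Cp G V) ∧ G 2 ∧ G 0 ∧ ¬ G 1 ∧ ¬ G 3 ∧ ¬ G 4 := by
      obtain ⟨W, hW, h | h⟩ := h20
      · exact ⟨_, (side hF hW).1, h⟩
      · exact ⟨_, (side hF hW).2, h.1, h.2.1, not_not.2 h.2.2.1, not_not.2 h.2.2.2.1, not_not.2 h.2.2.2.2⟩
    refine ⟨![-19 / 50, 40 / 50, -27 / 50, -40 / 50, 46 / 50], ![-23 / 50, 30 / 50, 42 / 50, -30 / 50, -19 / 50], ?_, ?_, fun V hV => ?_, ?_⟩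
    · simp only [Fin.sum_univ_five, Matrix.cons_val, Matrix.cons_val_zero, Matrix.cons_val_one]; ring
    · simp only [Fin.sum_univ_five, Matrix.cons_val, Matrix.cons_val_zero, Matrix.cons_val_one]; ring
    · rw [sum_ind V, sum_ind V]
      simp only [Fin.sum_univ_five, Matrix.cons_val, Matrix.cons_val_zero, Matrix.cons_val_one,
        ite_self, add_zero, zero_add]
      by_cases m0 : (0 : Fin 5) ∈ V <;> by_cases m1 : (1 : Fin 5) ∈ V <;> by_cases m2 : (2 : Fin 5) ∈ V <;> by_cases m3 : (3 : Fin 5) ∈ V <;> by_cases m4 : (4 : Fin 5) ∈ V <;>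
        first
        | exact ((hD V hV).cut d1 d2 d3 d4 m1 m2 m3 m4).elim
        | exact ((hD V hV).cut d1 d2 d4 d3 m1 m2 m4 m3).elim
        | exact ((hD V hV).cut d2 d1 d3 d4 m2 m1 m3 m4).elim
        | exact ((hD V hV).cut d2 d1 d4 d3 m2 m1 m4 m3).elim
        | exact ((hG V hV).cut g2 g0 g1 g3 m2 m0 m1 m3).elim
        | exact ((hG V hV).cut g2 g0 g1 g4 m2 m0 m1 m4).elim
        | exact ((hG V hV).cut g2 g0 g3 g1 m2 m0 m3 m1).elim
        | exact ((hG V hV).cut g2 g0 g3 g4 m2 m0 m3 m4).elim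
        | exact ((hG V hV).cut g2 g0 g4 g1 m2 m0 m4 m1).elim
        | exact ((hG V hV).cut g2 g0 g4 g3 m2 m0 m4 m3).elim
        | exact ((hG V hV).cut g0 g2 g1 g3 m0 m2 m1 m3).elim
        | exact ((hG V hV).cut g0 g2 g1 g4 m0 m2 m1 m4).elim
        | exact ((hG V hV).cut g0 g2 g3 g1 m0 m2 m3 m1).elim
        | exact ((hG V hV).cut g0 g2 g3 g4 m0 m2 m3 m4).elim
        | exact ((hG V hV).cut g0 g2 g4 g1 m0 m2 m4 m1).elim
        | exact ((hG V hV).cut g0 g2 g4 g3 m0 m2 m4 m3).elim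
        | (simp only [m0, m1, m2, m3, m4, if_true, if_false]; linarith [hs])
    · simp only [Fin.sum_univ_five, Matrix.cons_val, Matrix.cons_val_zero, Matrix.cons_val_one]
      have k0 := key h0 (-19 / 50) (-23 / 50) (by linarith [hs])
      have k1 := key h1 (40 / 50) (30 / 50) (by linarith [hs])
      have k2 := key h2 (-27 / 50) (42 / 50) (by linarith [hs])
      have k3 := key h3 (-40 / 50) (-30 / 50) (by linarith [hs])
      have k4 := key h4 (46 / 50) (-19 / 50) (by linarith [hs])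
      linarith
  by_cases h30 : ∃ W ∈ F, (3 ∈ W ∧ 0 ∈ W ∧ 1 ∉ W ∧ 2 ∉ W ∧ 4 ∉ W) ∨ (3 ∉ W ∧ 0 ∉ W ∧ 1 ∈ W ∧ 2 ∈ W ∧ 4 ∈ W)
  · obtain ⟨G, hG, g3, g0, g1, g2, g4⟩ : ∃ G : Fin 5 → Prop, (∀ V ∈ F, Cp G V) ∧ G 3 ∧ G 0 ∧ ¬ G 1 ∧ ¬ G 2 ∧ ¬ G 4 := by
      obtain ⟨W, hW, h | h⟩ := h30
      · exact ⟨_, (side hF hW).1, h⟩
      · exact ⟨_, (side hF hW).2, h.1, h.2.1, not_not.2 h.2.2.1, not_not.2 h.2.2.2.1, not_not.2 h.2.2.2.2⟩
    refine ⟨![-34 / 50, 48 / 50, -40 / 50, -14 / 50, 40 / 50], ![34 / 50, 14 / 50, 30 / 50, -48 / 50, -30 / 50], ?_, ?_, fun V hV => ?_, ?_⟩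
    · simp only [Fin.sum_univ_five, Matrix.cons_val, Matrix.cons_val_zero, Matrix.cons_val_one]; ring
    · simp only [Fin.sum_univ_five, Matrix.cons_val, Matrix.cons_val_zero, Matrix.cons_val_one]; ring
    · rw [sum_ind V, sum_ind V]
      simp only [Fin.sum_univ_five, Matrix.cons_val, Matrix.cons_val_zero, Matrix.cons_val_one,
        ite_self, add_zero, zero_add]
      by_cases m0 : (0 : Fin 5) ∈ V <;> by_cases m1 : (1 : Fin 5) ∈ V <;> by_cases m2 : (2 : Fin 5) ∈ V <;> by_cases m3 : (3 : Fin 5) ∈ V <;> by_cases m4 : (4 : Fin 5) ∈ V <;>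
        first
        | exact ((hD V hV).cut d1 d2 d3 d4 m1 m2 m3 m4).elim
        | exact ((hD V hV).cut d1 d2 d4 d3 m1 m2 m4 m3).elim
        | exact ((hD V hV).cut d2 d1 d3 d4 m2 m1 m3 m4).elim
        | exact ((hD V hV).cut d2 d1 d4 d3 m2 m1 m4 m3).elim
        | exact ((hG V hV).cut g3 g0 g1 g2 m3 m0 m1 m2).elim
        | exact ((hG V hV).cut g3 g0 g1 g4 m3 m0 m1 m4).elim
        | exact ((hG V hV).cut g3 g0 g2 g1 m3 m0 m2 m1).elim
        | exact ((hG V hV).cut g3 g0 g2 g4 m3 m0 m2 m4).elim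
        | exact ((hG V hV).cut g3 g0 g4 g1 m3 m0 m4 m1).elim
        | exact ((hG V hV).cut g3 g0 g4 g2 m3 m0 m4 m2).elim
        | exact ((hG V hV).cut g0 g3 g1 g2 m0 m3 m1 m2).elim
        | exact ((hG V hV).cut g0 g3 g1 g4 m0 m3 m1 m4).elim
        | exact ((hG V hV).cut g0 g3 g2 g1 m0 m3 m2 m1).elim
        | exact ((hG V hV).cut g0 g3 g2 g4 m0 m3 m2 m4).elim
        | exact ((hG V hV).cut g0 g3 g4 g1 m0 m3 m4 m1).elim
        | exact ((hG V hV).cut g0 g3 g4 g2 m0 m3 m4 m2).elim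
        | (simp only [m0, m1, m2, m3, m4, if_true, if_false]; linarith [hs])
    · simp only [Fin.sum_univ_five, Matrix.cons_val, Matrix.cons_val_zero, Matrix.cons_val_one]
      have k0 := key h0 (-34 / 50) (34 / 50) (by linarith [hs])
      have k1 := key h1 (48 / 50) (14 / 50) (by linarith [hs])
      have k2 := key h2 (-40 / 50) (30 / 50) (by linarith [hs])
      have k3 := key h3 (-14 / 50) (-48 / 50) (by linarith [hs])
      have k4 := key h4 (40 / 50) (-30 / 50) (by linarith [hs])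
      linarith
  refine ⟨![-26 / 50, 49 / 50, -32 / 50, -38 / 50, 47 / 50], ![2 / 50, 9 / 50, 38 / 50, -32 / 50, -17 / 50], ?_, ?_, fun V hV => ?_, ?_⟩
  · simp only [Fin.sum_univ_five, Matrix.cons_val, Matrix.cons_val_zero, Matrix.cons_val_one]; ring
  · simp only [Fin.sum_univ_five, Matrix.cons_val, Matrix.cons_val_zero, Matrix.cons_val_one]; ring
  · rw [sum_ind V, sum_ind V]
    simp only [Fin.sum_univ_five, Matrix.cons_val, Matrix.cons_val_zero, Matrix.cons_val_one,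
      ite_self, add_zero, zero_add]
    by_cases m0 : (0 : Fin 5) ∈ V <;> by_cases m1 : (1 : Fin 5) ∈ V <;> by_cases m2 : (2 : Fin 5) ∈ V <;> by_cases m3 : (3 : Fin 5) ∈ V <;> by_cases m4 : (4 : Fin 5) ∈ V <;>
      first
      | exact ((hD V hV).cut d1 d2 d3 d4 m1 m2 m3 m4).elim
      | exact ((hD V hV).cut d1 d2 d4 d3 m1 m2 m4 m3).elim
      | exact ((hD V hV).cut d2 d1 d3 d4 m2 m1 m3 m4).elim
      | exact ((hD V hV).cut d2 d1 d4 d3 m2 m1 m4 m3).elim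
      | exact (h20 ⟨V, hV, Or.inl ⟨m2, m0, m1, m3, m4⟩⟩).elim
      | exact (h20 ⟨V, hV, Or.inr ⟨m2, m0, m1, m3, m4⟩⟩).elim
      | exact (h30 ⟨V, hV, Or.inl ⟨m3, m0, m1, m2, m4⟩⟩).elim
      | exact (h30 ⟨V, hV, Or.inr ⟨m3, m0, m1, m2, m4⟩⟩).elim
      | (simp only [m0, m1, m2, m3, m4, if_true, if_false]; linarith [hs])
  · simp only [Fin.sum_univ_five, Matrix.cons_val, Matrix.cons_val_zero, Matrix.cons_val_one]
    have k0 := key h0 (-26 / 50) (2 / 50) (by linarith [hs])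
    have k1 := key h1 (49 / 50) (9 / 50) (by linarith [hs])
    have k2 := key h2 (-32 / 50) (38 / 50) (by linarith [hs])
    have k3 := key h3 (-38 / 50) (-32 / 50) (by linarith [hs])
    have k4 := key h4 (47 / 50) (-17 / 50) (by linarith [hs])
    linarith

end Pool.Agent.H3.St
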