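import Pool.Agent.H3.St4

set_option autoImplicit false

namespace Pool.Agent.H3.St

open Set MeasureTheory

theorem key2 {x y ρ : ℝ} {p : E} (h : dist (pt x y) p ≤ ρ) (a b ν : ℝ) (hν : 0 ≤ ν)
    (hab : a ^ 2 + b ^ 2 ≤ ν ^ 2) : a * x + b * y - ρ * ν ≤ a * p 0 + b * p 1 := by
  have h1 := dist_sq (pt x y) p
  simp only [pt0, pt1] at h1
  have h2 : (a * (x - p 0) + b * (y - p 1)) ^ 2 ≤ (dist (pt x y) p * ν) ^ 2 := by
    rw [mul_pow, h1]
    nlinarith [sq_nonneg (a * (y - p 1) - b * (x - p 0)),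
      mul_nonneg (sub_nonneg.2 hab) (add_nonneg (sq_nonneg (x - p 0)) (sq_nonneg (y - p 1)))]
  have h3 := (abs_le_of_sq_le_sq' h2 (mul_nonneg dist_nonneg hν)).2
  have h4 := mul_le_mul_of_nonneg_right h hν
  linarith

theorem c0 (s : ℝ) (hs : s * s = 3) (hs1 : 173 / 100 < s) (F : Set (Finset (Fin 8)))
    (p : Fin 8 → E)
    (h0 : dist (pt (2 * s) (s + 3)) (p 0) ≤ 2 * s)
    (h1 : dist (pt (-(2 * s)) (s + 3)) (p 1) ≤ 2 * s)
    (h2 : dist (pt (-(2 * s)) (-(s + 3))) (p 2) ≤ 2 * s)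
    (h3 : dist (pt (2 * s) (-(s + 3))) (p 3) ≤ 2 * s)
    (h4 : dist (pt (s + 3) (2 * s)) (p 4) ≤ 2 * s)
    (h5 : dist (pt (-(s + 3)) (2 * s)) (p 5) ≤ 2 * s)
    (h6 : dist (pt (-(s + 3)) (-(2 * s))) (p 6) ≤ 2 * s)
    (h7 : dist (pt (s + 3) (-(2 * s))) (p 7) ≤ 2 * s)
    (X Y : Fin 8 → Prop) (hX : ∀ V ∈ F, Cp X V) (hY : ∀ V ∈ F, Cp Y V) (hXY : ∀ t, X t → ¬ Y t)
    (x0 : X 0) (x1 : X 1) (x2 : ¬ X 2) (y4 : Y 4) (y7 : Y 7) (y5 : ¬ Y 5) (y6 : ¬ Y 6) :
    ∃ a b : Fin 8 → ℝ, ∑ t, a t = 0 ∧ ∑ t, b t = 0 ∧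
      (∀ V ∈ F, (∑ t ∈ V, a t) ^ 2 + (∑ t ∈ V, b t) ^ 2 ≤ 1) ∧
        6 + 2 * s ≤ ∑ t, (a t * p t 0 + b t * p t 1) := by
  have hs2 : s < 87 / 50 := by nlinarith
  have y0 := hXY _ x0
  have y1 := hXY _ x1
  have x4 : ¬ X 4 := fun h => hXY _ h y4
  have x7 : ¬ X 7 := fun h => hXY _ h y7
  by_cases y2 : Y 2
  · refine ⟨![23 / 40, -15 / 40, -22 / 40, 0, 22 / 40, 0, -24 / 40, 16 / 40], ![19 / 40, 20 / 40, -23 / 40, 0, 28 / 40, 0, -28 / 40, -16 / 40], ?_, ?_, fun V hV => ?_, ?_⟩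
    · simp only [Fin.sum_univ_eight, Matrix.cons_val, Matrix.cons_val_zero, Matrix.cons_val_one]; ring
    · simp only [Fin.sum_univ_eight, Matrix.cons_val, Matrix.cons_val_zero, Matrix.cons_val_one]; ring
    · rw [sum_ind V, sum_ind V]
      simp only [Fin.sum_univ_eight, Matrix.cons_val, Matrix.cons_val_zero, Matrix.cons_val_one,
        ite_self, add_zero, zero_add]
      by_cases m0 : (0 : Fin 8) ∈ V <;> by_cases m1 : (1 : Fin 8) ∈ V <;> by_cases m2 : (2 : Fin 8) ∈ V <;> by_cases m4 : (4 : Fin 8) ∈ V <;> by_cases m6 : (6 : Fin 8) ∈ V <;> by_cases m7 : (7 : Fin 8) ∈ V <;>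
        first
        | exact ((hY V hV).cut y4 y2 y0 y6 m4 m2 m0 m6).elim
        | exact ((hY V hV).cut y2 y4 y6 y0 m2 m4 m6 m0).elim
        | exact ((hY V hV).cut y4 y7 y1 y6 m4 m7 m1 m6).elim
        | exact ((hY V hV).cut y7 y4 y6 y1 m7 m4 m6 m1).elim
        | (simp only [m0, m1, m2, m4, m6, m7, if_true, if_false]; linarith [hs])
    · simp only [Fin.sum_univ_eight, Matrix.cons_val, Matrix.cons_val_zero, Matrix.cons_val_one]
      have k0 := key2 h0 (23 / 40) (19 / 40) (30 / 40) (by norm_num) (by linarith [hs])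
      have k1 := key2 h1 (-15 / 40) (20 / 40) (25 / 40) (by norm_num) (by linarith [hs])
      have k2 := key2 h2 (-22 / 40) (-23 / 40) (32 / 40) (by norm_num) (by linarith [hs])
      have k4 := key2 h4 (22 / 40) (28 / 40) (36 / 40) (by norm_num) (by linarith [hs])
      have k6 := key2 h6 (-24 / 40) (-28 / 40) (37 / 40) (by norm_num) (by linarith [hs])
      have k7 := key2 h7 (16 / 40) (-16 / 40) (23 / 40) (by norm_num) (by linarith [hs])
      linarith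
  by_cases x5 : X 5
  · refine ⟨![23 / 40, 0, -24 / 40, 0, 24 / 40, -38 / 40, 0, 15 / 40], ![25 / 40, 0, -32 / 40, 0, 32 / 40, 12 / 40, 0, -37 / 40], ?_, ?_, fun V hV => ?_, ?_⟩
    · simp only [Fin.sum_univ_eight, Matrix.cons_val, Matrix.cons_val_zero, Matrix.cons_val_one]; ring
    · simp only [Fin.sum_univ_eight, Matrix.cons_val, Matrix.cons_val_zero, Matrix.cons_val_one]; ring
    · rw [sum_ind V, sum_ind V]
      simp only [Fin.sum_univ_eight, Matrix.cons_val, Matrix.cons_val_zero, Matrix.cons_val_one,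
        ite_self, add_zero, zero_add]
      by_cases m0 : (0 : Fin 8) ∈ V <;> by_cases m2 : (2 : Fin 8) ∈ V <;> by_cases m4 : (4 : Fin 8) ∈ V <;> by_cases m5 : (5 : Fin 8) ∈ V <;> by_cases m7 : (7 : Fin 8) ∈ V <;>
        first
        | exact ((hX V hV).cut x0 x5 x4 x2 m0 m5 m4 m2).elim
        | exact ((hX V hV).cut x5 x0 x2 x4 m5 m0 m2 m4).elim
        | exact ((hY V hV).cut y4 y7 y5 y2 m4 m7 m5 m2).elim
        | exact ((hY V hV).cut y7 y4 y2 y5 m7 m4 m2 m5).elim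
        | (simp only [m0, m2, m4, m5, m7, if_true, if_false]; linarith [hs])
    · simp only [Fin.sum_univ_eight, Matrix.cons_val, Matrix.cons_val_zero, Matrix.cons_val_one]
      have k0 := key2 h0 (23 / 40) (25 / 40) (34 / 40) (by norm_num) (by linarith [hs])
      have k2 := key2 h2 (-24 / 40) (-32 / 40) (40 / 40) (by norm_num) (by linarith [hs])
      have k4 := key2 h4 (24 / 40) (32 / 40) (40 / 40) (by norm_num) (by linarith [hs])
      have k5 := key2 h5 (-38 / 40) (12 / 40) (40 / 40) (by norm_num) (by linarith [hs])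
      have k7 := key2 h7 (15 / 40) (-37 / 40) (40 / 40) (by norm_num) (by linarith [hs])
      linarith
  refine ⟨![28 / 40, -36 / 40, -24 / 40, 0, 24 / 40, -7 / 40, 0, 15 / 40], ![15 / 40, 15 / 40, -32 / 40, 0, 32 / 40, 7 / 40, 0, -37 / 40], ?_, ?_, fun V hV => ?_, ?_⟩
  · simp only [Fin.sum_univ_eight, Matrix.cons_val, Matrix.cons_val_zero, Matrix.cons_val_one]; ring
  · simp only [Fin.sum_univ_eight, Matrix.cons_val, Matrix.cons_val_zero, Matrix.cons_val_one]; ring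
  · rw [sum_ind V, sum_ind V]
    simp only [Fin.sum_univ_eight, Matrix.cons_val, Matrix.cons_val_zero, Matrix.cons_val_one,
      ite_self, add_zero, zero_add]
    by_cases m0 : (0 : Fin 8) ∈ V <;> by_cases m1 : (1 : Fin 8) ∈ V <;> by_cases m2 : (2 : Fin 8) ∈ V <;> by_cases m4 : (4 : Fin 8) ∈ V <;> by_cases m5 : (5 : Fin 8) ∈ V <;> by_cases m7 : (7 : Fin 8) ∈ V <;>
      first
      | exact ((hX V hV).cut x0 x1 x4 x2 m0 m1 m4 m2).elim
      | exact ((hX V hV).cut x1 x0 x2 x4 m1 m0 m2 m4).elim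
      | exact ((hY V hV).cut y4 y7 y1 y2 m4 m7 m1 m2).elim
      | exact ((hY V hV).cut y7 y4 y2 y1 m7 m4 m2 m1).elim
      | exact ((hX V hV).cut x0 x1 x7 x5 m0 m1 m7 m5).elim
      | exact ((hX V hV).cut x1 x0 x5 x7 m1 m0 m5 m7).elim
      | exact ((hY V hV).cut y4 y7 y5 y0 m4 m7 m5 m0).elim
      | exact ((hY V hV).cut y7 y4 y0 y5 m7 m4 m0 m5).elim
      | (simp only [m0, m1, m2, m4, m5, m7, if_true, if_false]; linarith [hs])
  · simp only [Fin.sum_univ_eight, Matrix.cons_val, Matrix.cons_val_zero, Matrix.cons_val_one]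
    have k0 := key2 h0 (28 / 40) (15 / 40) (32 / 40) (by norm_num) (by linarith [hs])
    have k1 := key2 h1 (-36 / 40) (15 / 40) (39 / 40) (by norm_num) (by linarith [hs])
    have k2 := key2 h2 (-24 / 40) (-32 / 40) (40 / 40) (by norm_num) (by linarith [hs])
    have k4 := key2 h4 (24 / 40) (32 / 40) (40 / 40) (by norm_num) (by linarith [hs])
    have k5 := key2 h5 (-7 / 40) (7 / 40) (10 / 40) (by norm_num) (by linarith [hs])
    have k7 := key2 h7 (15 / 40) (-37 / 40) (40 / 40) (by norm_num) (by linarith [hs])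
    linarith

theorem c1 (s : ℝ) (hs : s * s = 3) (hs1 : 173 / 100 < s) (F : Set (Finset (Fin 8)))
    (p : Fin 8 → E)
    (h0 : dist (pt (2 * s) (s + 3)) (p 0) ≤ 2 * s)
    (h1 : dist (pt (-(2 * s)) (s + 3)) (p 1) ≤ 2 * s)
    (h2 : dist (pt (-(2 * s)) (-(s + 3))) (p 2) ≤ 2 * s)
    (h3 : dist (pt (2 * s) (-(s + 3))) (p 3) ≤ 2 * s)
    (h4 : dist (pt (s + 3) (2 * s)) (p 4) ≤ 2 * s)
    (h5 : dist (pt (-(s + 3)) (2 * s)) (p 5) ≤ 2 * s)
    (h6 : dist (pt (-(s + 3)) (-(2 * s))) (p 6) ≤ 2 * s)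
    (h7 : dist (pt (s + 3) (-(2 * s))) (p 7) ≤ 2 * s)
    (X Y : Fin 8 → Prop) (hX : ∀ V ∈ F, Cp X V) (hY : ∀ V ∈ F, Cp Y V) (hXY : ∀ t, X t → ¬ Y t)
    (x1 : X 1) (x0 : X 0) (x3 : ¬ X 3) (y5 : Y 5) (y6 : Y 6) (y4 : ¬ Y 4) (y7 : ¬ Y 7) :
    ∃ a b : Fin 8 → ℝ, ∑ t, a t = 0 ∧ ∑ t, b t = 0 ∧
      (∀ V ∈ F, (∑ t ∈ V, a t) ^ 2 + (∑ t ∈ V, b t) ^ 2 ≤ 1) ∧
        6 + 2 * s ≤ ∑ t, (a t * p t 0 + b t * p t 1) := by
  have hs2 : s < 87 / 50 := by nlinarith
  have y1 := hXY _ x1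
  have y0 := hXY _ x0
  have x5 : ¬ X 5 := fun h => hXY _ h y5
  have x6 : ¬ X 6 := fun h => hXY _ h y6
  by_cases y3 : Y 3
  · refine ⟨![15 / 40, -23 / 40, 0, 22 / 40, 0, -22 / 40, -16 / 40, 24 / 40], ![20 / 40, 19 / 40, 0, -23 / 40, 0, 28 / 40, -16 / 40, -28 / 40], ?_, ?_, fun V hV => ?_, ?_⟩
    · simp only [Fin.sum_univ_eight, Matrix.cons_val, Matrix.cons_val_zero, Matrix.cons_val_one]; ring
    · simp only [Fin.sum_univ_eight, Matrix.cons_val, Matrix.cons_val_zero, Matrix.cons_val_one]; ring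
    · rw [sum_ind V, sum_ind V]
      simp only [Fin.sum_univ_eight, Matrix.cons_val, Matrix.cons_val_zero, Matrix.cons_val_one,
        ite_self, add_zero, zero_add]
      by_cases m0 : (0 : Fin 8) ∈ V <;> by_cases m1 : (1 : Fin 8) ∈ V <;> by_cases m3 : (3 : Fin 8) ∈ V <;> by_cases m5 : (5 : Fin 8) ∈ V <;> by_cases m6 : (6 : Fin 8) ∈ V <;> by_cases m7 : (7 : Fin 8) ∈ V <;>
        first
        | exact ((hY V hV).cut y5 y3 y1 y7 m5 m3 m1 m7).elim
        | exact ((hY V hV).cut y3 y5 y7 y1 m3 m5 m7 m1).elim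
        | exact ((hY V hV).cut y5 y6 y0 y7 m5 m6 m0 m7).elim
        | exact ((hY V hV).cut y6 y5 y7 y0 m6 m5 m7 m0).elim
        | (simp only [m0, m1, m3, m5, m6, m7, if_true, if_false]; linarith [hs])
    · simp only [Fin.sum_univ_eight, Matrix.cons_val, Matrix.cons_val_zero, Matrix.cons_val_one]
      have k0 := key2 h0 (15 / 40) (20 / 40) (25 / 40) (by norm_num) (by linarith [hs])
      have k1 := key2 h1 (-23 / 40) (19 / 40) (30 / 40) (by norm_num) (by linarith [hs])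
      have k3 := key2 h3 (22 / 40) (-23 / 40) (32 / 40) (by norm_num) (by linarith [hs])
      have k5 := key2 h5 (-22 / 40) (28 / 40) (36 / 40) (by norm_num) (by linarith [hs])
      have k6 := key2 h6 (-16 / 40) (-16 / 40) (23 / 40) (by norm_num) (by linarith [hs])
      have k7 := key2 h7 (24 / 40) (-28 / 40) (37 / 40) (by norm_num) (by linarith [hs])
      linarith
  by_cases x4 : X 4
  · refine ⟨![0, -23 / 40, 0, 24 / 40, 38 / 40, -24 / 40, -15 / 40, 0], ![0, 25 / 40, 0, -32 / 40, 12 / 40, 32 / 40, -37 / 40, 0], ?_, ?_, fun V hV => ?_, ?_⟩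
    · simp only [Fin.sum_univ_eight, Matrix.cons_val, Matrix.cons_val_zero, Matrix.cons_val_one]; ring
    · simp only [Fin.sum_univ_eight, Matrix.cons_val, Matrix.cons_val_zero, Matrix.cons_val_one]; ring
    · rw [sum_ind V, sum_ind V]
      simp only [Fin.sum_univ_eight, Matrix.cons_val, Matrix.cons_val_zero, Matrix.cons_val_one,
        ite_self, add_zero, zero_add]
      by_cases m1 : (1 : Fin 8) ∈ V <;> by_cases m3 : (3 : Fin 8) ∈ V <;> by_cases m4 : (4 : Fin 8) ∈ V <;> by_cases m5 : (5 : Fin 8) ∈ V <;> by_cases m6 : (6 : Fin 8) ∈ V <;>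
        first
        | exact ((hX V hV).cut x1 x4 x5 x3 m1 m4 m5 m3).elim
        | exact ((hX V hV).cut x4 x1 x3 x5 m4 m1 m3 m5).elim
        | exact ((hY V hV).cut y5 y6 y4 y3 m5 m6 m4 m3).elim
        | exact ((hY V hV).cut y6 y5 y3 y4 m6 m5 m3 m4).elim
        | (simp only [m1, m3, m4, m5, m6, if_true, if_false]; linarith [hs])
    · simp only [Fin.sum_univ_eight, Matrix.cons_val, Matrix.cons_val_zero, Matrix.cons_val_one]
      have k1 := key2 h1 (-23 / 40) (25 / 40) (34 / 40) (by norm_num) (by linarith [hs])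
      have k3 := key2 h3 (24 / 40) (-32 / 40) (40 / 40) (by norm_num) (by linarith [hs])
      have k4 := key2 h4 (38 / 40) (12 / 40) (40 / 40) (by norm_num) (by linarith [hs])
      have k5 := key2 h5 (-24 / 40) (32 / 40) (40 / 40) (by norm_num) (by linarith [hs])
      have k6 := key2 h6 (-15 / 40) (-37 / 40) (40 / 40) (by norm_num) (by linarith [hs])
      linarith
  refine ⟨![36 / 40, -28 / 40, 0, 24 / 40, 7 / 40, -24 / 40, -15 / 40, 0], ![15 / 40, 15 / 40, 0, -32 / 40, 7 / 40, 32 / 40, -37 / 40, 0], ?_, ?_, fun V hV => ?_, ?_⟩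
  · simp only [Fin.sum_univ_eight, Matrix.cons_val, Matrix.cons_val_zero, Matrix.cons_val_one]; ring
  · simp only [Fin.sum_univ_eight, Matrix.cons_val, Matrix.cons_val_zero, Matrix.cons_val_one]; ring
  · rw [sum_ind V, sum_ind V]
    simp only [Fin.sum_univ_eight, Matrix.cons_val, Matrix.cons_val_zero, Matrix.cons_val_one,
      ite_self, add_zero, zero_add]
    by_cases m0 : (0 : Fin 8) ∈ V <;> by_cases m1 : (1 : Fin 8) ∈ V <;> by_cases m3 : (3 : Fin 8) ∈ V <;> by_cases m4 : (4 : Fin 8) ∈ V <;> by_cases m5 : (5 : Fin 8) ∈ V <;> by_cases m6 : (6 : Fin 8) ∈ V <;>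
      first
      | exact ((hX V hV).cut x1 x0 x5 x3 m1 m0 m5 m3).elim
      | exact ((hX V hV).cut x0 x1 x3 x5 m0 m1 m3 m5).elim
      | exact ((hY V hV).cut y5 y6 y0 y3 m5 m6 m0 m3).elim
      | exact ((hY V hV).cut y6 y5 y3 y0 m6 m5 m3 m0).elim
      | exact ((hX V hV).cut x1 x0 x6 x4 m1 m0 m6 m4).elim
      | exact ((hX V hV).cut x0 x1 x4 x6 m0 m1 m4 m6).elim
      | exact ((hY V hV).cut y5 y6 y4 y1 m5 m6 m4 m1).elim
      | exact ((hY V hV).cut y6 y5 y1 y4 m6 m5 m1 m4).elim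
      | (simp only [m0, m1, m3, m4, m5, m6, if_true, if_false]; linarith [hs])
  · simp only [Fin.sum_univ_eight, Matrix.cons_val, Matrix.cons_val_zero, Matrix.cons_val_one]
    have k0 := key2 h0 (36 / 40) (15 / 40) (39 / 40) (by norm_num) (by linarith [hs])
    have k1 := key2 h1 (-28 / 40) (15 / 40) (32 / 40) (by norm_num) (by linarith [hs])
    have k3 := key2 h3 (24 / 40) (-32 / 40) (40 / 40) (by norm_num) (by linarith [hs])
    have k4 := key2 h4 (7 / 40) (7 / 40) (10 / 40) (by norm_num) (by linarith [hs])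
    have k5 := key2 h5 (-24 / 40) (32 / 40) (40 / 40) (by norm_num) (by linarith [hs])
    have k6 := key2 h6 (-15 / 40) (-37 / 40) (40 / 40) (by norm_num) (by linarith [hs])
    linarith

theorem c2 (s : ℝ) (hs : s * s = 3) (hs1 : 173 / 100 < s) (F : Set (Finset (Fin 8)))
    (p : Fin 8 → E)
    (h0 : dist (pt (2 * s) (s + 3)) (p 0) ≤ 2 * s)
    (h1 : dist (pt (-(2 * s)) (s + 3)) (p 1) ≤ 2 * s)
    (h2 : dist (pt (-(2 * s)) (-(s + 3))) (p 2) ≤ 2 * s)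
    (h3 : dist (pt (2 * s) (-(s + 3))) (p 3) ≤ 2 * s)
    (h4 : dist (pt (s + 3) (2 * s)) (p 4) ≤ 2 * s)
    (h5 : dist (pt (-(s + 3)) (2 * s)) (p 5) ≤ 2 * s)
    (h6 : dist (pt (-(s + 3)) (-(2 * s))) (p 6) ≤ 2 * s)
    (h7 : dist (pt (s + 3) (-(2 * s))) (p 7) ≤ 2 * s)
    (X Y : Fin 8 → Prop) (hX : ∀ V ∈ F, Cp X V) (hY : ∀ V ∈ F, Cp Y V) (hXY : ∀ t, X t → ¬ Y t)
    (x2 : X 2) (x3 : X 3) (x0 : ¬ X 0) (y6 : Y 6) (y5 : Y 5) (y7 : ¬ Y 7) (y4 : ¬ Y 4) :
    ∃ a b : Fin 8 → ℝ, ∑ t, a t = 0 ∧ ∑ t, b t = 0 ∧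
      (∀ V ∈ F, (∑ t ∈ V, a t) ^ 2 + (∑ t ∈ V, b t) ^ 2 ≤ 1) ∧
        6 + 2 * s ≤ ∑ t, (a t * p t 0 + b t * p t 1) := by
  have hs2 : s < 87 / 50 := by nlinarith
  have y2 := hXY _ x2
  have y3 := hXY _ x3
  have x6 : ¬ X 6 := fun h => hXY _ h y6
  have x5 : ¬ X 5 := fun h => hXY _ h y5
  by_cases y0 : Y 0
  · refine ⟨![22 / 40, 0, -23 / 40, 15 / 40, 24 / 40, -16 / 40, -22 / 40, 0], ![23 / 40, 0, -19 / 40, -20 / 40, 28 / 40, 16 / 40, -28 / 40, 0], ?_, ?_, fun V hV => ?_, ?_⟩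
    · simp only [Fin.sum_univ_eight, Matrix.cons_val, Matrix.cons_val_zero, Matrix.cons_val_one]; ring
    · simp only [Fin.sum_univ_eight, Matrix.cons_val, Matrix.cons_val_zero, Matrix.cons_val_one]; ring
    · rw [sum_ind V, sum_ind V]
      simp only [Fin.sum_univ_eight, Matrix.cons_val, Matrix.cons_val_zero, Matrix.cons_val_one,
        ite_self, add_zero, zero_add]
      by_cases m0 : (0 : Fin 8) ∈ V <;> by_cases m2 : (2 : Fin 8) ∈ V <;> by_cases m3 : (3 : Fin 8) ∈ V <;> by_cases m4 : (4 : Fin 8) ∈ V <;> by_cases m5 : (5 : Fin 8) ∈ V <;> by_cases m6 : (6 : Fin 8) ∈ V <;>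
        first
        | exact ((hY V hV).cut y6 y0 y2 y4 m6 m0 m2 m4).elim
        | exact ((hY V hV).cut y0 y6 y4 y2 m0 m6 m4 m2).elim
        | exact ((hY V hV).cut y6 y5 y3 y4 m6 m5 m3 m4).elim
        | exact ((hY V hV).cut y5 y6 y4 y3 m5 m6 m4 m3).elim
        | (simp only [m0, m2, m3, m4, m5, m6, if_true, if_false]; linarith [hs])
    · simp only [Fin.sum_univ_eight, Matrix.cons_val, Matrix.cons_val_zero, Matrix.cons_val_one]
      have k0 := key2 h0 (22 / 40) (23 / 40) (32 / 40) (by norm_num) (by linarith [hs])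
      have k2 := key2 h2 (-23 / 40) (-19 / 40) (30 / 40) (by norm_num) (by linarith [hs])
      have k3 := key2 h3 (15 / 40) (-20 / 40) (25 / 40) (by norm_num) (by linarith [hs])
      have k4 := key2 h4 (24 / 40) (28 / 40) (37 / 40) (by norm_num) (by linarith [hs])
      have k5 := key2 h5 (-16 / 40) (16 / 40) (23 / 40) (by norm_num) (by linarith [hs])
      have k6 := key2 h6 (-22 / 40) (-28 / 40) (36 / 40) (by norm_num) (by linarith [hs])
      linarith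
  by_cases x7 : X 7
  · refine ⟨![24 / 40, 0, -23 / 40, 0, 0, -15 / 40, -24 / 40, 38 / 40], ![32 / 40, 0, -25 / 40, 0, 0, 37 / 40, -32 / 40, -12 / 40], ?_, ?_, fun V hV => ?_, ?_⟩
    · simp only [Fin.sum_univ_eight, Matrix.cons_val, Matrix.cons_val_zero, Matrix.cons_val_one]; ring
    · simp only [Fin.sum_univ_eight, Matrix.cons_val, Matrix.cons_val_zero, Matrix.cons_val_one]; ring
    · rw [sum_ind V, sum_ind V]
      simp only [Fin.sum_univ_eight, Matrix.cons_val, Matrix.cons_val_zero, Matrix.cons_val_one,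
        ite_self, add_zero, zero_add]
      by_cases m0 : (0 : Fin 8) ∈ V <;> by_cases m2 : (2 : Fin 8) ∈ V <;> by_cases m5 : (5 : Fin 8) ∈ V <;> by_cases m6 : (6 : Fin 8) ∈ V <;> by_cases m7 : (7 : Fin 8) ∈ V <;>
        first
        | exact ((hX V hV).cut x2 x7 x6 x0 m2 m7 m6 m0).elim
        | exact ((hX V hV).cut x7 x2 x0 x6 m7 m2 m0 m6).elim
        | exact ((hY V hV).cut y6 y5 y7 y0 m6 m5 m7 m0).elim
        | exact ((hY V hV).cut y5 y6 y0 y7 m5 m6 m0 m7).elim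
        | (simp only [m0, m2, m5, m6, m7, if_true, if_false]; linarith [hs])
    · simp only [Fin.sum_univ_eight, Matrix.cons_val, Matrix.cons_val_zero, Matrix.cons_val_one]
      have k0 := key2 h0 (24 / 40) (32 / 40) (40 / 40) (by norm_num) (by linarith [hs])
      have k2 := key2 h2 (-23 / 40) (-25 / 40) (34 / 40) (by norm_num) (by linarith [hs])
      have k5 := key2 h5 (-15 / 40) (37 / 40) (40 / 40) (by norm_num) (by linarith [hs])
      have k6 := key2 h6 (-24 / 40) (-32 / 40) (40 / 40) (by norm_num) (by linarith [hs])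
      have k7 := key2 h7 (38 / 40) (-12 / 40) (40 / 40) (by norm_num) (by linarith [hs])
      linarith
  refine ⟨![24 / 40, 0, -28 / 40, 36 / 40, 0, -15 / 40, -24 / 40, 7 / 40], ![32 / 40, 0, -15 / 40, -15 / 40, 0, 37 / 40, -32 / 40, -7 / 40], ?_, ?_, fun V hV => ?_, ?_⟩
  · simp only [Fin.sum_univ_eight, Matrix.cons_val, Matrix.cons_val_zero, Matrix.cons_val_one]; ring
  · simp only [Fin.sum_univ_eight, Matrix.cons_val, Matrix.cons_val_zero, Matrix.cons_val_one]; ring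
  · rw [sum_ind V, sum_ind V]
    simp only [Fin.sum_univ_eight, Matrix.cons_val, Matrix.cons_val_zero, Matrix.cons_val_one,
      ite_self, add_zero, zero_add]
    by_cases m0 : (0 : Fin 8) ∈ V <;> by_cases m2 : (2 : Fin 8) ∈ V <;> by_cases m3 : (3 : Fin 8) ∈ V <;> by_cases m5 : (5 : Fin 8) ∈ V <;> by_cases m6 : (6 : Fin 8) ∈ V <;> by_cases m7 : (7 : Fin 8) ∈ V <;>
      first
      | exact ((hX V hV).cut x2 x3 x6 x0 m2 m3 m6 m0).elim
      | exact ((hX V hV).cut x3 x2 x0 x6 m3 m2 m0 m6).elim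
      | exact ((hY V hV).cut y6 y5 y3 y0 m6 m5 m3 m0).elim
      | exact ((hY V hV).cut y5 y6 y0 y3 m5 m6 m0 m3).elim
      | exact ((hX V hV).cut x2 x3 x5 x7 m2 m3 m5 m7).elim
      | exact ((hX V hV).cut x3 x2 x7 x5 m3 m2 m7 m5).elim
      | exact ((hY V hV).cut y6 y5 y7 y2 m6 m5 m7 m2).elim
      | exact ((hY V hV).cut y5 y6 y2 y7 m5 m6 m2 m7).elim
      | (simp only [m0, m2, m3, m5, m6, m7, if_true, if_false]; linarith [hs])
  · simp only [Fin.sum_univ_eight, Matrix.cons_val, Matrix.cons_val_zero, Matrix.cons_val_one]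
    have k0 := key2 h0 (24 / 40) (32 / 40) (40 / 40) (by norm_num) (by linarith [hs])
    have k2 := key2 h2 (-28 / 40) (-15 / 40) (32 / 40) (by norm_num) (by linarith [hs])
    have k3 := key2 h3 (36 / 40) (-15 / 40) (39 / 40) (by norm_num) (by linarith [hs])
    have k5 := key2 h5 (-15 / 40) (37 / 40) (40 / 40) (by norm_num) (by linarith [hs])
    have k6 := key2 h6 (-24 / 40) (-32 / 40) (40 / 40) (by norm_num) (by linarith [hs])
    have k7 := key2 h7 (7 / 40) (-7 / 40) (10 / 40) (by norm_num) (by linarith [hs])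
    linarith

theorem c3 (s : ℝ) (hs : s * s = 3) (hs1 : 173 / 100 < s) (F : Set (Finset (Fin 8)))
    (p : Fin 8 → E)
    (h0 : dist (pt (2 * s) (s + 3)) (p 0) ≤ 2 * s)
    (h1 : dist (pt (-(2 * s)) (s + 3)) (p 1) ≤ 2 * s)
    (h2 : dist (pt (-(2 * s)) (-(s + 3))) (p 2) ≤ 2 * s)
    (h3 : dist (pt (2 * s) (-(s + 3))) (p 3) ≤ 2 * s)
    (h4 : dist (pt (s + 3) (2 * s)) (p 4) ≤ 2 * s)
    (h5 : dist (pt (-(s + 3)) (2 * s)) (p 5) ≤ 2 * s)
    (h6 : dist (pt (-(s + 3)) (-(2 * s))) (p 6) ≤ 2 * s)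
    (h7 : dist (pt (s + 3) (-(2 * s))) (p 7) ≤ 2 * s)
    (X Y : Fin 8 → Prop) (hX : ∀ V ∈ F, Cp X V) (hY : ∀ V ∈ F, Cp Y V) (hXY : ∀ t, X t → ¬ Y t)
    (x3 : X 3) (x2 : X 2) (x1 : ¬ X 1) (y7 : Y 7) (y4 : Y 4) (y6 : ¬ Y 6) (y5 : ¬ Y 5) :
    ∃ a b : Fin 8 → ℝ, ∑ t, a t = 0 ∧ ∑ t, b t = 0 ∧
      (∀ V ∈ F, (∑ t ∈ V, a t) ^ 2 + (∑ t ∈ V, b t) ^ 2 ≤ 1) ∧
        6 + 2 * s ≤ ∑ t, (a t * p t 0 + b t * p t 1) := by
  have hs2 : s < 87 / 50 := by nlinarith
  have y3 := hXY _ x3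
  have y2 := hXY _ x2
  have x7 : ¬ X 7 := fun h => hXY _ h y7
  have x4 : ¬ X 4 := fun h => hXY _ h y4
  by_cases y1 : Y 1
  · refine ⟨![0, -22 / 40, -15 / 40, 23 / 40, 16 / 40, -24 / 40, 0, 22 / 40], ![0, 23 / 40, -20 / 40, -19 / 40, 16 / 40, 28 / 40, 0, -28 / 40], ?_, ?_, fun V hV => ?_, ?_⟩
    · simp only [Fin.sum_univ_eight, Matrix.cons_val, Matrix.cons_val_zero, Matrix.cons_val_one]; ring
    · simp only [Fin.sum_univ_eight, Matrix.cons_val, Matrix.cons_val_zero, Matrix.cons_val_one]; ring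
    · rw [sum_ind V, sum_ind V]
      simp only [Fin.sum_univ_eight, Matrix.cons_val, Matrix.cons_val_zero, Matrix.cons_val_one,
        ite_self, add_zero, zero_add]
      by_cases m1 : (1 : Fin 8) ∈ V <;> by_cases m2 : (2 : Fin 8) ∈ V <;> by_cases m3 : (3 : Fin 8) ∈ V <;> by_cases m4 : (4 : Fin 8) ∈ V <;> by_cases m5 : (5 : Fin 8) ∈ V <;> by_cases m7 : (7 : Fin 8) ∈ V <;>
        first
        | exact ((hY V hV).cut y7 y1 y3 y5 m7 m1 m3 m5).elim
        | exact ((hY V hV).cut y1 y7 y5 y3 m1 m7 m5 m3).elim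
        | exact ((hY V hV).cut y7 y4 y2 y5 m7 m4 m2 m5).elim
        | exact ((hY V hV).cut y4 y7 y5 y2 m4 m7 m5 m2).elim
        | (simp only [m1, m2, m3, m4, m5, m7, if_true, if_false]; linarith [hs])
    · simp only [Fin.sum_univ_eight, Matrix.cons_val, Matrix.cons_val_zero, Matrix.cons_val_one]
      have k1 := key2 h1 (-22 / 40) (23 / 40) (32 / 40) (by norm_num) (by linarith [hs])
      have k2 := key2 h2 (-15 / 40) (-20 / 40) (25 / 40) (by norm_num) (by linarith [hs])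
      have k3 := key2 h3 (23 / 40) (-19 / 40) (30 / 40) (by norm_num) (by linarith [hs])
      have k4 := key2 h4 (16 / 40) (16 / 40) (23 / 40) (by norm_num) (by linarith [hs])
      have k5 := key2 h5 (-24 / 40) (28 / 40) (37 / 40) (by norm_num) (by linarith [hs])
      have k7 := key2 h7 (22 / 40) (-28 / 40) (36 / 40) (by norm_num) (by linarith [hs])
      linarith
  by_cases x6 : X 6
  · refine ⟨![0, -24 / 40, 0, 23 / 40, 15 / 40, 0, -38 / 40, 24 / 40], ![0, 32 / 40, 0, -25 / 40, 37 / 40, 0, -12 / 40, -32 / 40], ?_, ?_, fun V hV => ?_, ?_⟩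
    · simp only [Fin.sum_univ_eight, Matrix.cons_val, Matrix.cons_val_zero, Matrix.cons_val_one]; ring
    · simp only [Fin.sum_univ_eight, Matrix.cons_val, Matrix.cons_val_zero, Matrix.cons_val_one]; ring
    · rw [sum_ind V, sum_ind V]
      simp only [Fin.sum_univ_eight, Matrix.cons_val, Matrix.cons_val_zero, Matrix.cons_val_one,
        ite_self, add_zero, zero_add]
      by_cases m1 : (1 : Fin 8) ∈ V <;> by_cases m3 : (3 : Fin 8) ∈ V <;> by_cases m4 : (4 : Fin 8) ∈ V <;> by_cases m6 : (6 : Fin 8) ∈ V <;> by_cases m7 : (7 : Fin 8) ∈ V <;>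
        first
        | exact ((hX V hV).cut x3 x6 x7 x1 m3 m6 m7 m1).elim
        | exact ((hX V hV).cut x6 x3 x1 x7 m6 m3 m1 m7).elim
        | exact ((hY V hV).cut y7 y4 y6 y1 m7 m4 m6 m1).elim
        | exact ((hY V hV).cut y4 y7 y1 y6 m4 m7 m1 m6).elim
        | (simp only [m1, m3, m4, m6, m7, if_true, if_false]; linarith [hs])
    · simp only [Fin.sum_univ_eight, Matrix.cons_val, Matrix.cons_val_zero, Matrix.cons_val_one]
      have k1 := key2 h1 (-24 / 40) (32 / 40) (40 / 40) (by norm_num) (by linarith [hs])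
      have k3 := key2 h3 (23 / 40) (-25 / 40) (34 / 40) (by norm_num) (by linarith [hs])
      have k4 := key2 h4 (15 / 40) (37 / 40) (40 / 40) (by norm_num) (by linarith [hs])
      have k6 := key2 h6 (-38 / 40) (-12 / 40) (40 / 40) (by norm_num) (by linarith [hs])
      have k7 := key2 h7 (24 / 40) (-32 / 40) (40 / 40) (by norm_num) (by linarith [hs])
      linarith
  refine ⟨![0, -24 / 40, -36 / 40, 28 / 40, 15 / 40, 0, -7 / 40, 24 / 40], ![0, 32 / 40, -15 / 40, -15 / 40, 37 / 40, 0, -7 / 40, -32 / 40], ?_, ?_, fun V hV => ?_, ?_⟩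
  · simp only [Fin.sum_univ_eight, Matrix.cons_val, Matrix.cons_val_zero, Matrix.cons_val_one]; ring
  · simp only [Fin.sum_univ_eight, Matrix.cons_val, Matrix.cons_val_zero, Matrix.cons_val_one]; ring
  · rw [sum_ind V, sum_ind V]
    simp only [Fin.sum_univ_eight, Matrix.cons_val, Matrix.cons_val_zero, Matrix.cons_val_one,
      ite_self, add_zero, zero_add]
    by_cases m1 : (1 : Fin 8) ∈ V <;> by_cases m2 : (2 : Fin 8) ∈ V <;> by_cases m3 : (3 : Fin 8) ∈ V <;> by_cases m4 : (4 : Fin 8) ∈ V <;> by_cases m6 : (6 : Fin 8) ∈ V <;> by_cases m7 : (7 : Fin 8) ∈ V <;>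
      first
      | exact ((hX V hV).cut x3 x2 x7 x1 m3 m2 m7 m1).elim
      | exact ((hX V hV).cut x2 x3 x1 x7 m2 m3 m1 m7).elim
      | exact ((hY V hV).cut y7 y4 y2 y1 m7 m4 m2 m1).elim
      | exact ((hY V hV).cut y4 y7 y1 y2 m4 m7 m1 m2).elim
      | exact ((hX V hV).cut x3 x2 x4 x6 m3 m2 m4 m6).elim
      | exact ((hX V hV).cut x2 x3 x6 x4 m2 m3 m6 m4).elim
      | exact ((hY V hV).cut y7 y4 y6 y3 m7 m4 m6 m3).elim
      | exact ((hY V hV).cut y4 y7 y3 y6 m4 m7 m3 m6).elim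
      | (simp only [m1, m2, m3, m4, m6, m7, if_true, if_false]; linarith [hs])
  · simp only [Fin.sum_univ_eight, Matrix.cons_val, Matrix.cons_val_zero, Matrix.cons_val_one]
    have k1 := key2 h1 (-24 / 40) (32 / 40) (40 / 40) (by norm_num) (by linarith [hs])
    have k2 := key2 h2 (-36 / 40) (-15 / 40) (39 / 40) (by norm_num) (by linarith [hs])
    have k3 := key2 h3 (28 / 40) (-15 / 40) (32 / 40) (by norm_num) (by linarith [hs])
    have k4 := key2 h4 (15 / 40) (37 / 40) (40 / 40) (by norm_num) (by linarith [hs])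
    have k6 := key2 h6 (-7 / 40) (-7 / 40) (10 / 40) (by norm_num) (by linarith [hs])
    have k7 := key2 h7 (24 / 40) (-32 / 40) (40 / 40) (by norm_num) (by linarith [hs])
    linarith

theorem lbR (s : ℝ) (hs : s * s = 3) (hs1 : 173 / 100 < s) (S : Set E) (hS : IsConnected S)
    (p : Fin 8 → E) (hp : ∀ t, p t ∈ S)
    (h0 : dist (pt (2 * s) (s + 3)) (p 0) ≤ 2 * s)
    (h1 : dist (pt (-(2 * s)) (s + 3)) (p 1) ≤ 2 * s)
    (h2 : dist (pt (-(2 * s)) (-(s + 3))) (p 2) ≤ 2 * s)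
    (h3 : dist (pt (2 * s) (-(s + 3))) (p 3) ≤ 2 * s)
    (h4 : dist (pt (s + 3) (2 * s)) (p 4) ≤ 2 * s)
    (h5 : dist (pt (-(s + 3)) (2 * s)) (p 5) ≤ 2 * s)
    (h6 : dist (pt (-(s + 3)) (-(2 * s))) (p 6) ≤ 2 * s)
    (h7 : dist (pt (s + 3) (-(2 * s))) (p 7) ≤ 2 * s) :
    ENNReal.ofReal (6 + 2 * s) ≤ Measure.hausdorffMeasure 1 S := by
  refine plane_lam S hS p hp _ fun F hF => ?_
  by_cases hT : ∃ W ∈ F, (4 ∈ W ∧ 7 ∈ W ∧ 5 ∉ W ∧ 6 ∉ W) ∨ (4 ∉ W ∧ 7 ∉ W ∧ 5 ∈ W ∧ 6 ∈ W)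
  swap
  · refine ⟨![0, 0, 0, 0, s / 2, -s / 2, -s / 2, s / 2], ![0, 0, 0, 0, 1 / 2, 1 / 2, -1 / 2, -1 / 2], ?_, ?_, fun V hV => ?_, ?_⟩
    · simp only [Fin.sum_univ_eight, Matrix.cons_val, Matrix.cons_val_zero, Matrix.cons_val_one]; ring
    · simp only [Fin.sum_univ_eight, Matrix.cons_val, Matrix.cons_val_zero, Matrix.cons_val_one]; ring
    · rw [sum_ind V, sum_ind V]
      simp only [Fin.sum_univ_eight, Matrix.cons_val, Matrix.cons_val_zero, Matrix.cons_val_one,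
        ite_self, add_zero, zero_add]
      by_cases m4 : (4 : Fin 8) ∈ V <;> by_cases m5 : (5 : Fin 8) ∈ V <;> by_cases m6 : (6 : Fin 8) ∈ V <;> by_cases m7 : (7 : Fin 8) ∈ V <;>
        first
        | exact (hT ⟨V, hV, Or.inl ⟨m4, m7, m5, m6⟩⟩).elim
        | exact (hT ⟨V, hV, Or.inr ⟨m4, m7, m5, m6⟩⟩).elim
        | (simp only [m4, m5, m6, m7, if_true, if_false]; linarith [hs])
    · simp only [Fin.sum_univ_eight, Matrix.cons_val, Matrix.cons_val_zero, Matrix.cons_val_one]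
      have k4 := key2 h4 (s / 2) (1 / 2) (1) (by norm_num) (by linarith [hs])
      have k5 := key2 h5 (-s / 2) (1 / 2) (1) (by norm_num) (by linarith [hs])
      have k6 := key2 h6 (-s / 2) (-1 / 2) (1) (by norm_num) (by linarith [hs])
      have k7 := key2 h7 (s / 2) (-1 / 2) (1) (by norm_num) (by linarith [hs])
      linarith
  by_cases hU : ∃ W ∈ F, (0 ∈ W ∧ 1 ∈ W ∧ 2 ∉ W ∧ 3 ∉ W) ∨ (0 ∉ W ∧ 1 ∉ W ∧ 2 ∈ W ∧ 3 ∈ W)
  swap
  · refine ⟨![1 / 2, -1 / 2, -1 / 2, 1 / 2, 0, 0, 0, 0], ![s / 2, s / 2, -s / 2, -s / 2, 0, 0, 0, 0], ?_, ?_, fun V hV => ?_, ?_⟩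
    · simp only [Fin.sum_univ_eight, Matrix.cons_val, Matrix.cons_val_zero, Matrix.cons_val_one]; ring
    · simp only [Fin.sum_univ_eight, Matrix.cons_val, Matrix.cons_val_zero, Matrix.cons_val_one]; ring
    · rw [sum_ind V, sum_ind V]
      simp only [Fin.sum_univ_eight, Matrix.cons_val, Matrix.cons_val_zero, Matrix.cons_val_one,
        ite_self, add_zero, zero_add]
      by_cases m0 : (0 : Fin 8) ∈ V <;> by_cases m1 : (1 : Fin 8) ∈ V <;> by_cases m2 : (2 : Fin 8) ∈ V <;> by_cases m3 : (3 : Fin 8) ∈ V <;>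
        first
        | exact (hU ⟨V, hV, Or.inl ⟨m0, m1, m2, m3⟩⟩).elim
        | exact (hU ⟨V, hV, Or.inr ⟨m0, m1, m2, m3⟩⟩).elim
        | (simp only [m0, m1, m2, m3, if_true, if_false]; linarith [hs])
    · simp only [Fin.sum_univ_eight, Matrix.cons_val, Matrix.cons_val_zero, Matrix.cons_val_one]
      have k0 := key2 h0 (1 / 2) (s / 2) (1) (by norm_num) (by linarith [hs])
      have k1 := key2 h1 (-1 / 2) (s / 2) (1) (by norm_num) (by linarith [hs])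
      have k2 := key2 h2 (-1 / 2) (-s / 2) (1) (by norm_num) (by linarith [hs])
      have k3 := key2 h3 (1 / 2) (-s / 2) (1) (by norm_num) (by linarith [hs])
      linarith
  obtain ⟨D, hD, d4, d7, d5, d6⟩ : ∃ D : Fin 8 → Prop, (∀ V ∈ F, Cp D V) ∧ D 4 ∧ D 7 ∧ ¬ D 5 ∧ ¬ D 6 := by
    obtain ⟨W, hW, h | h⟩ := hT
    · exact ⟨_, (side hF hW).1, h⟩
    · exact ⟨_, (side hF hW).2, h.1, h.2.1, not_not.2 h.2.2.1, not_not.2 h.2.2.2⟩
  obtain ⟨P, hP, hPD, e0, e1, e2, e3⟩ : ∃ P : Fin 8 → Prop, (∀ V ∈ F, Cp P V) ∧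
      ((∀ t, P t → ¬ D t) ∨ (∀ t, P t → ¬ ¬ D t) ∨ (∀ t, ¬ P t → ¬ ¬ D t) ∨ ∀ t, ¬ P t → ¬ D t) ∧
      P 0 ∧ P 1 ∧ ¬ P 2 ∧ ¬ P 3 := by
    obtain ⟨W, hW, h | h⟩ := hU
    · refine ⟨_, (side hF hW).1, ?_, h⟩
      rcases hD W hW with k | k | k | k
      · exact Or.inr (Or.inl fun t a b => b (k t a))
      · exact Or.inl k
      · exact Or.inr (Or.inr (Or.inr fun t a b => a (k t b)))
      · exact Or.inr (Or.inr (Or.inl fun t a b => a (k t b)))
    · refine ⟨_, (side hF hW).2, ?_, h.1, h.2.1, not_not.2 h.2.2.1, not_not.2 h.2.2.2⟩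
      rcases hD W hW with k | k | k | k
      · exact Or.inr (Or.inr (Or.inl fun t a b => b (k t (not_not.1 a))))
      · exact Or.inr (Or.inr (Or.inr fun t a => k t (not_not.1 a)))
      · exact Or.inl fun t a b => a (k t b)
      · exact Or.inr (Or.inl fun t a b => a (k t b))
  have hP' := fun V hV => (hP V hV).neg
  have hD' := fun V hV => (hD V hV).neg
  rcases hPD with k | k | k | k
  · exact c0 s hs hs1 F p h0 h1 h2 h3 h4 h5 h6 h7 _ _ hP hD k e0 e1 e2 d4 d7 d5 d6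
  · exact c1 s hs hs1 F p h0 h1 h2 h3 h4 h5 h6 h7 _ _ hP hD' k e1 e0 e3 d5 d6 (not_not.2 d4) (not_not.2 d7)
  · exact c2 s hs hs1 F p h0 h1 h2 h3 h4 h5 h6 h7 _ _ hP' hD' k e2 e3 (not_not.2 e0) d6 d5
      (not_not.2 d7) (not_not.2 d4)
  · exact c3 s hs hs1 F p h0 h1 h2 h3 h4 h5 h6 h7 _ _ hP' hD k e3 e2 (not_not.2 e1) d7 d4 d6 d5

end Pool.Agent.H3.St
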