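import Pool.Agent.H3.St7

set_option autoImplicit false

namespace Pool.Agent.H3.St.Nb

open Pool.Agent.H3.St Set MeasureTheory

/-- Eight points, two at distance `2 s` from each corner of the square with half-side `s`. -/
def MM (s : ℝ) : Set E :=
  {pt (2 * s) (s + 3), pt (-(2 * s)) (s + 3), pt (-(2 * s)) (-(s + 3)), pt (2 * s) (-(s + 3)),
    pt (s + 3) (2 * s), pt (-(s + 3)) (2 * s), pt (-(s + 3)) (-(2 * s)), pt (s + 3) (-(2 * s))}

def Good (s : ℝ) (S : Set E) : Prop :=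
  pt s s ∈ S ∧ pt (-s) s ∈ S ∧ pt (-s) (-s) ∈ S ∧ pt s (-s) ∈ S

theorem cover {s : ℝ} (hs : s * s = 3) (hs1 : 173 / 100 < s) {S : Set E} (h : Good s S) :
    MM s ⊆ Metric.cthickening (2 * s) S := by
  intro y hy
  have s0 : 0 ≤ 2 * s := by linarith
  rcases hy with rfl | rfl | rfl | rfl | rfl | rfl | rfl | rfl
  · exact Metric.mem_cthickening_of_dist_le _ _ _ S h.1 (dist_pt _ _ _ _ _ s0 (by linarith)).le
  · exact Metric.mem_cthickening_of_dist_le _ _ _ S h.2.1 (dist_pt _ _ _ _ _ s0 (by linarith)).le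
  · exact Metric.mem_cthickening_of_dist_le _ _ _ S h.2.2.1 (dist_pt _ _ _ _ _ s0 (by linarith)).le
  · exact Metric.mem_cthickening_of_dist_le _ _ _ S h.2.2.2 (dist_pt _ _ _ _ _ s0 (by linarith)).le
  · exact Metric.mem_cthickening_of_dist_le _ _ _ S h.1 (dist_pt _ _ _ _ _ s0 (by linarith)).le
  · exact Metric.mem_cthickening_of_dist_le _ _ _ S h.2.1 (dist_pt _ _ _ _ _ s0 (by linarith)).le
  · exact Metric.mem_cthickening_of_dist_le _ _ _ S h.2.2.1 (dist_pt _ _ _ _ _ s0 (by linarith)).le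
  · exact Metric.mem_cthickening_of_dist_le _ _ _ S h.2.2.2 (dist_pt _ _ _ _ _ s0 (by linarith)).le

theorem lower {s : ℝ} (hs : s * s = 3) (hs1 : 173 / 100 < s) (S : Set E) (hc : IsCompact S)
    (hS : IsConnected S) (h : MM s ⊆ Metric.cthickening (2 * s) S) :
    ENNReal.ofReal (6 + 2 * s) ≤ Measure.hausdorffMeasure 1 S := by
  have g : ∀ y ∈ MM s, ∃ p ∈ S, dist y p ≤ 2 * s := by
    intro y hy
    have := h hy
    rw [hc.cthickening_eq_biUnion_closedBall (by linarith)] at this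
    simpa using this
  obtain ⟨p0, a0, b0⟩ := g _ (Or.inl rfl)
  obtain ⟨p1, a1, b1⟩ := g _ (Or.inr (Or.inl rfl))
  obtain ⟨p2, a2, b2⟩ := g _ (Or.inr (Or.inr (Or.inl rfl)))
  obtain ⟨p3, a3, b3⟩ := g _ (Or.inr (Or.inr (Or.inr (Or.inl rfl))))
  obtain ⟨p4, a4, b4⟩ := g _ (Or.inr (Or.inr (Or.inr (Or.inr (Or.inl rfl)))))
  obtain ⟨p5, a5, b5⟩ := g _ (Or.inr (Or.inr (Or.inr (Or.inr (Or.inr (Or.inl rfl))))))
  obtain ⟨p6, a6, b6⟩ := g _ (Or.inr (Or.inr (Or.inr (Or.inr (Or.inr (Or.inr (Or.inl rfl)))))))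
  obtain ⟨p7, a7, b7⟩ := g _ (Or.inr (Or.inr (Or.inr (Or.inr (Or.inr (Or.inr (Or.inr (rfl))))))))
  refine lbR s hs hs1 S hS ![p0, p1, p2, p3, p4, p5, p6, p7] (fun t => ?_) b0 b1 b2 b3 b4 b5 b6 b7
  fin_cases t <;> assumption

noncomputable def SS (s : ℝ) : Set E :=
  tree5 (pt s s) (pt s (-s)) (pt (-s) s) (pt (-s) (-s)) (pt (s - 1) 0) (pt (-s + 1) 0)

noncomputable def TT (s : ℝ) : Set E :=
  tree5 (pt s s) (pt (-s) s) (pt s (-s)) (pt (-s) (-s)) (pt 0 (s - 1)) (pt 0 (-s + 1))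

theorem SS_good (s : ℝ) : Good s (SS s) := by
  obtain ⟨a, b, c, d, -⟩ := tree5_mem (pt s s) (pt s (-s)) (pt (-s) s) (pt (-s) (-s))
    (pt (s - 1) 0) (pt (-s + 1) 0)
  exact ⟨a, c, d, b⟩

theorem TT_good (s : ℝ) : Good s (TT s) := by
  obtain ⟨a, b, c, d, -⟩ := tree5_mem (pt s s) (pt (-s) s) (pt s (-s)) (pt (-s) (-s))
    (pt 0 (s - 1)) (pt 0 (-s + 1))
  exact ⟨a, b, d, c⟩

theorem SS_len {s : ℝ} (hs : s * s = 3) (hs1 : 173 / 100 < s) :
    Measure.hausdorffMeasure 1 (SS s) ≤ ENNReal.ofReal (6 + 2 * s) := by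
  refine (tree5_len _ _ _ _ _ _).trans (ENNReal.ofReal_le_ofReal ?_)
  rw [dist_pt _ _ _ _ (2 * s - 2) (by linarith) (by ring),
    dist_pt _ _ _ _ 2 (by norm_num) (by linarith), dist_pt _ _ _ _ 2 (by norm_num) (by linarith),
    dist_pt _ _ _ _ 2 (by norm_num) (by linarith), dist_pt _ _ _ _ 2 (by norm_num) (by linarith)]
  linarith

theorem TT_len {s : ℝ} (hs : s * s = 3) (hs1 : 173 / 100 < s) :
    Measure.hausdorffMeasure 1 (TT s) ≤ ENNReal.ofReal (6 + 2 * s) := by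
  refine (tree5_len _ _ _ _ _ _).trans (ENNReal.ofReal_le_ofReal ?_)
  rw [dist_pt _ _ _ _ (2 * s - 2) (by linarith) (by ring),
    dist_pt _ _ _ _ 2 (by norm_num) (by linarith), dist_pt _ _ _ _ 2 (by norm_num) (by linarith),
    dist_pt _ _ _ _ 2 (by norm_num) (by linarith), dist_pt _ _ _ _ 2 (by norm_num) (by linarith)]
  linarith

theorem ne {s : ℝ} (hs1 : 173 / 100 < s) : TT s ≠ SS s := by
  intro h
  have hz : pt (s - 1) 0 ∈ TT s := h ▸ (tree5_mem _ _ _ _ _ _).2.2.2.2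
  rcases hz with (((h | h) | h) | h) | h <;> obtain ⟨t, t0, t1, e0, e1⟩ := mem_seg h <;>
    simp only [pt0, pt1] at e0 e1 <;> nlinarith

theorem alg {s a b u v : ℝ} (hs : s * s = 3) (s0 : 0 < s) (ha : 0 ≤ a) (hab : a ≤ b)
    (hb : b ≤ s * a) (hu : -s ≤ u) (hv : -s ≤ v) (h : (u + a) ^ 2 + (v + b) ^ 2 ≤ 12) :
    u ^ 2 + v ^ 2 ≤ 12 := by
  have b0 : 0 ≤ b := ha.trans hab
  by_cases k : 0 ≤ a * u + b * v
  · nlinarith [sq_nonneg a, sq_nonneg b]
  push Not at k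
  have s3 : s ≤ 3 := by nlinarith
  have u3 : u ≤ 3 := by
    by_contra hn
    push Not at hn
    have e1 := mul_le_mul_of_nonneg_left hn.le ha
    have e2 := mul_le_mul_of_nonneg_left hv b0
    have e3 := mul_le_mul_of_nonneg_left hb s0.le
    have e4 : s * (s * a) = 3 * a := by rw [← mul_assoc, hs]
    linarith
  have v3 : v ≤ s := by
    by_contra hn
    push Not at hn
    have e1 := mul_le_mul_of_nonneg_left hn.le b0
    have e2 := mul_le_mul_of_nonneg_left hu ha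
    have e3 := mul_le_mul_of_nonneg_left hab s0.le
    linarith
  nlinarith [mul_nonneg (sub_nonneg.2 u3) (by linarith : 0 ≤ u + 3),
    mul_nonneg (sub_nonneg.2 v3) (by linarith : 0 ≤ v + s)]

theorem shape {s : ℝ} (hs : s * s = 3) (hs1 : 173 / 100 < s) {z : E} (hz : z ∈ SS s) :
    |z 0| ≤ s ∧ |z 1| ≤ |z 0| ∧ s - |z 1| ≤ s * (s - |z 0|) := by
  have s0 : 0 < s := by linarith
  rcases hz with (((h | h) | h) | h) | h <;> obtain ⟨t, t0, t1, e0, e1⟩ := mem_seg h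
  · have a : |z 0| ≤ s - 1 := by rw [e0, abs_le]; constructor <;> nlinarith
    have b : z 1 = 0 := by rw [e1]; ring
    rw [b, abs_zero]
    refine ⟨by linarith, abs_nonneg _, ?_⟩
    nlinarith
  all_goals
    have a : |z 0| = s - 1 + t := by
      first
      | (rw [abs_of_nonneg (by rw [e0]; linarith), e0]; ring)
      | (rw [abs_of_nonpos (by rw [e0]; linarith), e0]; ring)
    have b : |z 1| = t * s := by
      first
      | (rw [abs_of_nonneg (by rw [e1]; nlinarith), e1]; ring)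
      | (rw [abs_of_nonpos (by rw [e1]; nlinarith), e1]; ring)
    rw [a, b]
    refine ⟨by linarith, by nlinarith, by nlinarith⟩

theorem sub {s : ℝ} (hs : s * s = 3) (hs1 : 173 / 100 < s) {T : Set E} (hT : Good s T) :
    Metric.cthickening (2 * s) (SS s) ⊆ Metric.cthickening (2 * s) T := by
  intro y hy
  have s0 : 0 < s := by linarith
  have hc : IsCompact (SS s) := tree5_compact _ _ _ _ _ _
  rw [hc.cthickening_eq_biUnion_closedBall (by linarith)] at hy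
  obtain ⟨x, hx, hd⟩ : ∃ x ∈ SS s, dist y x ≤ 2 * s := by simpa using hy
  obtain ⟨a, b, c⟩ := shape hs hs1 hx
  have d2 : (y 0 - x 0) ^ 2 + (y 1 - x 1) ^ 2 ≤ 12 := by
    rw [← dist_sq]
    nlinarith [dist_nonneg (x := y) (y := x)]
  have q0 : (|y 0| - |x 0|) ^ 2 ≤ (y 0 - x 0) ^ 2 :=
    sq_le_sq.2 (abs_abs_sub_abs_le_abs_sub _ _)
  have q1 : (|y 1| - |x 1|) ^ 2 ≤ (y 1 - x 1) ^ 2 :=
    sq_le_sq.2 (abs_abs_sub_abs_le_abs_sub _ _)
  have k := alg (a := s - |x 0|) (b := s - |x 1|) (u := |y 0| - s) (v := |y 1| - s) hs s0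
    (by linarith) (by linarith) c (by linarith [abs_nonneg (y 0)]) (by linarith [abs_nonneg (y 1)])
    (by linarith)
  have fin : ∀ q ∈ T, (y 0 - q 0) ^ 2 + (y 1 - q 1) ^ 2 ≤ 12 → y ∈ Metric.cthickening (2 * s) T := by
    intro q hq h
    refine Metric.mem_cthickening_of_dist_le y q _ T hq ?_
    rw [← dist_sq] at h
    exact (abs_le_of_sq_le_sq' (by linarith) (by linarith)).2
  rcases le_total 0 (y 0) with h0 | h0 <;> rcases le_total 0 (y 1) with h1 | h1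
  · rw [abs_of_nonneg h0, abs_of_nonneg h1] at k
    exact fin _ hT.1 (by simp only [pt0, pt1]; linarith)
  · rw [abs_of_nonneg h0, abs_of_nonpos h1] at k
    exact fin _ hT.2.2.2 (by simp only [pt0, pt1]; linarith)
  · rw [abs_of_nonpos h0, abs_of_nonneg h1] at k
    exact fin _ hT.2.1 (by simp only [pt0, pt1]; linarith)
  · rw [abs_of_nonpos h0, abs_of_nonpos h1] at k
    exact fin _ hT.2.2.1 (by simp only [pt0, pt1]; linarith)

end Pool.Agent.H3.St.Nb
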