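import Pool.Agent.H3.TautDefs

open scoped LinearAlgebra.Projectivization ContDiff
open Matrix

namespace Pool.Agent.H3.Taut

/-- Rayleigh quotient -/
noncomputable def ray (S : Matrix (Fin 4) (Fin 4) ℝ) (x : Fin 4 → ℝ) : ℝ := (x ⬝ᵥ S *ᵥ x) / (x ⬝ᵥ x)

/-- affine section -/
def ins (i : Fin 4) (a : ℝ) (u : Fin 3 → ℝ) : Fin 4 → ℝ := Fin.insertNth i a u

theorem ins_self (i : Fin 4) (a : ℝ) (u : Fin 3 → ℝ) : ins i a u i = a := by simp [ins]
theorem ins_succ (i : Fin 4) (a : ℝ) (u : Fin 3 → ℝ) (j : Fin 3) : ins i a u (i.succAbove j) = u j := by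
  simp [ins]
theorem ins_ne (i : Fin 4) (u : Fin 3 → ℝ) : ins i 1 u ≠ 0 := fun h => by
  simpa [ins] using congrFun h i

theorem ins_line (i : Fin 4) (u v : Fin 3 → ℝ) (t : ℝ) :
    ins i 1 (u + t • v) = ins i 1 u + t • ins i 0 v := by
  funext j
  refine i.succAboveCases ?_ (fun k => ?_) j <;> simp [ins_self, ins_succ]

theorem dot_pos {x : Fin 4 → ℝ} (hx : x ≠ 0) : 0 < x ⬝ᵥ x :=
  lt_of_le_of_ne (Finset.sum_nonneg fun _ _ => mul_self_nonneg _)
    fun h => hx (dotProduct_self_eq_zero.1 h.symm)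

theorem ray_smul (S : Matrix (Fin 4) (Fin 4) ℝ) (x : Fin 4 → ℝ) {a : ℝ} (ha : a ≠ 0) :
    ray S (a • x) = ray S x := by
  simp only [ray, mulVec_smul, smul_dotProduct, dotProduct_smul, smul_eq_mul]
  rw [mul_div_mul_left _ _ ha, mul_div_mul_left _ _ ha]

theorem ray_cd (S : Matrix (Fin 4) (Fin 4) ℝ) (i : Fin 4) :
    ContDiff ℝ ∞ fun u => ray S (ins i 1 u) := by
  have h : ∀ j, ContDiff ℝ ∞ fun u => ins i 1 u j := fun j => by
    refine i.succAboveCases ?_ (fun k => ?_) j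
    · simp only [ins_self]; fun_prop
    · simp only [ins_succ]; fun_prop
  refine ContDiff.div ?_ ?_ fun u => (dot_pos (ins_ne i u)).ne'
  · simp only [dotProduct, mulVec]; fun_prop
  · simp only [dotProduct]; fun_prop

theorem line_deriv {F : Type} [NormedAddCommGroup F] [NormedSpace ℝ F] {r : (Fin 3 → ℝ) → F}
    {u : Fin 3 → ℝ} (h : DifferentiableAt ℝ r u) (v : Fin 3 → ℝ) :
    HasDerivAt (fun t : ℝ => r (u + t • v)) (fderiv ℝ r u v) 0 := h.hasFDerivAt.hasLineDerivAt v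

theorem quad (a b c : ℝ) : HasDerivAt (fun t : ℝ => a + t * b + t ^ 2 * c) b 0 := by
  have := (((hasDerivAt_id (0 : ℝ)).mul_const b).const_add a).fun_add
    ((hasDerivAt_pow 2 (0 : ℝ)).mul_const c)
  simpa using this

theorem crit_iff {S : Matrix (Fin 4) (Fin 4) ℝ} (hS : S.IsSymm) (i : Fin 4) (u : Fin 3 → ℝ) :
    fderiv ℝ (fun u => ray S (ins i 1 u)) u = 0 ↔ ∃ μ : ℝ, S *ᵥ ins i 1 u = μ • ins i 1 u := by
  have hD := (dot_pos (ins_ne i u)).ne'
  have sy : ∀ x y : Fin 4 → ℝ, x ⬝ᵥ S *ᵥ y = y ⬝ᵥ S *ᵥ x := fun x y => by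
    rw [dotProduct_mulVec, ← mulVec_transpose, hS.eq, dotProduct_comm]
  have key : ∀ v, fderiv ℝ (fun u => ray S (ins i 1 u)) u v = 2 / (ins i 1 u ⬝ᵥ ins i 1 u) *
      (ins i 0 v ⬝ᵥ (S *ᵥ ins i 1 u - ray S (ins i 1 u) • ins i 1 u)) := fun v => by
    have h1 := line_deriv (((ray_cd S i).differentiable (by simp)) u) v
    simp only [ins_line] at h1
    set x := ins i 1 u
    set y := ins i 0 v
    have h2 : HasDerivAt (fun t : ℝ => (x ⬝ᵥ S *ᵥ x + t * (2 * (y ⬝ᵥ S *ᵥ x)) + t ^ 2 * (y ⬝ᵥ S *ᵥ y)))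
        (2 * (y ⬝ᵥ S *ᵥ x)) 0 := by
      exact quad _ _ _
    have h3 : HasDerivAt (fun t : ℝ => (x ⬝ᵥ x + t * (2 * (y ⬝ᵥ x)) + t ^ 2 * (y ⬝ᵥ y)))
        (2 * (y ⬝ᵥ x)) 0 := by
      exact quad _ _ _
    have h4 := h2.div h3 (by simpa using hD)
    have h5 : (fun t : ℝ => ray S (x + t • y)) = (fun t : ℝ => (x ⬝ᵥ S *ᵥ x + t * (2 * (y ⬝ᵥ S *ᵥ x))
        + t ^ 2 * (y ⬝ᵥ S *ᵥ y))) / fun t : ℝ => (x ⬝ᵥ x + t * (2 * (y ⬝ᵥ x)) + t ^ 2 * (y ⬝ᵥ y)) := by
      funext t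
      simp only [ray, mulVec_add, mulVec_smul, add_dotProduct, dotProduct_add, smul_dotProduct,
        dotProduct_smul, smul_eq_mul, Pi.div_apply, sy x y, dotProduct_comm x y]
      congr 1 <;> ring
    rw [h5] at h1
    rw [h1.unique h4]
    simp only [ray, dotProduct_sub, dotProduct_smul, smul_eq_mul, zero_mul, add_zero,
      zero_pow two_ne_zero]
    field_simp
  constructor
  · intro h
    refine ⟨ray S (ins i 1 u), sub_eq_zero.1 ?_⟩
    set z := S *ᵥ ins i 1 u - ray S (ins i 1 u) • ins i 1 u with hz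
    have h1 : ∀ v, ins i 0 v ⬝ᵥ z = 0 := fun v => by
      have := key v
      rw [h] at this
      exact (mul_eq_zero.1 this.symm).resolve_left (div_ne_zero two_ne_zero hD)
    have h2 : ins i 1 u ⬝ᵥ z = 0 := by
      simp only [hz, ray, dotProduct_sub, dotProduct_smul, smul_eq_mul]; field_simp; ring
    have h3 : z = z i • ins i 1 u + ins i 0 (fun k => z (i.succAbove k) - z i * u k) := by
      funext j
      refine i.succAboveCases ?_ (fun k => ?_) j <;> simp [ins_self, ins_succ]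
    rw [← dotProduct_self_eq_zero]
    nth_rewrite 1 [h3]
    rw [add_dotProduct, smul_dotProduct, h1, h2]; simp
  · rintro ⟨μ, h⟩
    ext1 v
    have : ray S (ins i 1 u) = μ := by rw [ray, h, dotProduct_smul, smul_eq_mul]; field_simp
    simp [key, h, this]

theorem exists_chart {x : Fin 4 → ℝ} (hx : x ≠ 0) :
    ∃ i u, ∃ a : ℝ, a ≠ 0 ∧ ins i 1 u = a • x := by
  obtain ⟨i, hi⟩ := Function.ne_iff.1 hx
  have hi' : x i ≠ 0 := hi
  refine ⟨i, fun k => (x i)⁻¹ * x (i.succAbove k), (x i)⁻¹, inv_ne_zero hi', funext fun j => ?_⟩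
  refine i.succAboveCases ?_ (fun k => ?_) j <;> simp [ins_self, ins_succ, hi']

theorem count {S : Matrix (Fin 4) (Fin 4) ℝ} (hS : S.IsSymm) (g : RP3 → ℝ)
    (hg : ∀ x hx, g (Projectivization.mk ℝ x hx) = ray S x) (hM : IsMorse g) :
    {x | IsCritical g x}.ncard = 4 := by
  have e : ∀ i, g ∘ chart i = fun u => ray S (ins i 1 u) := fun i => funext fun u => hg _ _
  have simple : ∀ (x y : Fin 4 → ℝ) (μ : ℝ), x ≠ 0 → S *ᵥ x = μ • x → S *ᵥ y = μ • y →
      ∃ c : ℝ, y = c • x := by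
    intro x y μ hx h1 h2
    obtain ⟨i, u, a, ha, hu⟩ := exists_chart hx
    have h1' : S *ᵥ ins i 1 u = μ • ins i 1 u := by rw [hu, mulVec_smul, h1, smul_comm]
    let v : Fin 3 → ℝ := fun k => y (i.succAbove k) - y i * u k
    have h3 : ins i 0 v = y - y i • ins i 1 u := by
      funext j
      refine i.succAboveCases ?_ (fun k => ?_) j <;> simp [ins_self, ins_succ, v]
    have h4 : ∀ t : ℝ, fderiv ℝ (fun u => ray S (ins i 1 u)) (u + t • v) = 0 := fun t =>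
      (crit_iff hS i _).2 ⟨μ, by
        simp only [ins_line, h3, mulVec_add, mulVec_smul, mulVec_sub, h1', h2]; module⟩
    have h5 := line_deriv ((((ray_cd S i).fderiv_right (m := ∞) le_rfl).differentiable
      (by simp)) u) v
    simp only [h4] at h5
    have h6 := hM i u (by rw [e]; simpa using h4 0)
    rw [e] at h6
    have h7 : v = 0 := h6 (by rw [h5.unique (hasDerivAt_const _ _), map_zero])
    have h8 : ins i 0 (0 : Fin 3 → ℝ) = 0 := by
      funext j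
      refine i.succAboveCases ?_ (fun k => ?_) j <;> simp [ins_self, ins_succ]
    rw [h7, h8, hu, smul_smul] at h3
    exact ⟨_, sub_eq_zero.1 h3.symm⟩
  have hH : S.IsHermitian := by simpa [IsHermitian] using hS.eq
  set b := hH.eigenvectorBasis
  have b0 : ∀ j, (b j : Fin 4 → ℝ) ≠ 0 := fun j h =>
    b.orthonormal.ne_zero j (by ext k; simpa using congrFun h k)
  have hb : ∀ j, S *ᵥ b j = hH.eigenvalues j • (b j : Fin 4 → ℝ) := hH.mulVec_eigenvectorBasis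
  have hset : {x | IsCritical g x} = Set.range fun j => Projectivization.mk ℝ _ (b0 j) := by
    ext x
    constructor
    · rintro ⟨i, u, rfl, h⟩
      rw [e] at h
      obtain ⟨μ, hμ⟩ := (crit_iff hS i u).1 h
      have : ∃ j, (b j : Fin 4 → ℝ) ⬝ᵥ ins i 1 u ≠ 0 := by
        by_contra! hc
        have := b.sum_repr' (WithLp.toLp 2 (ins i 1 u))
        refine ins_ne i u (congrArg WithLp.ofLp (this.symm.trans (Finset.sum_eq_zero fun j _ => ?_)))
        rw [EuclideanSpace.inner_eq_star_dotProduct, dotProduct_comm]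
        simp [hc j]
      obtain ⟨j, hj⟩ := this
      have h2 : hH.eigenvalues j = μ := by
        have a1 : (b j : Fin 4 → ℝ) ⬝ᵥ S *ᵥ ins i 1 u = ins i 1 u ⬝ᵥ S *ᵥ b j := by
          rw [dotProduct_mulVec, ← mulVec_transpose, hS.eq, dotProduct_comm]
        rw [hμ, hb, dotProduct_smul, dotProduct_smul, dotProduct_comm (ins i 1 u)] at a1
        exact (mul_right_cancel₀ hj a1).symm
      obtain ⟨c, hc⟩ := simple _ _ μ (ins_ne i u) hμ (h2 ▸ hb j)
      exact ⟨j, (Projectivization.mk_eq_mk_iff' _ _ _ _ _).2 ⟨c, hc.symm⟩⟩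
    · rintro ⟨j, rfl⟩
      obtain ⟨i, u, a, ha, hu⟩ := exists_chart (b0 j)
      refine ⟨i, u, (Projectivization.mk_eq_mk_iff' _ _ _ _ _).2 ⟨a, hu.symm⟩, ?_⟩
      rw [e]
      exact (crit_iff hS i u).2 ⟨hH.eigenvalues j, by rw [hu, mulVec_smul, hb, smul_comm]⟩
  rw [hset, Set.ncard_range_of_injective, Nat.card_eq_fintype_card, Fintype.card_fin]
  intro j k h
  obtain ⟨c, hc⟩ := (Projectivization.mk_eq_mk_iff' _ _ _ _ _).1 h
  by_contra hne
  have h1 : b j = c • b k := by ext l; simpa using (congrFun hc l).symm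
  have h2 := b.orthonormal.2 (Ne.symm hne)
  simp only [h1, inner_smul_right, real_inner_self_eq_norm_sq, b.orthonormal.1 k] at h2
  refine b.orthonormal.ne_zero j ?_
  rw [h1, show c = 0 by simpa using h2, zero_smul]

theorem general {N : ℕ} (B : Fin N → Matrix (Fin 4) (Fin 4) ℝ) (hB : ∀ k, (B k).IsSymm)
    (h1 : ∀ x : Fin 4 → ℝ, ∑ k, (x ⬝ᵥ B k *ᵥ x) ^ 2 = (x ⬝ᵥ x) ^ 2)
    (Ψ : Fin 4 → Fin 4 → EuclideanSpace ℝ (Fin N) → ℝ) (hΨ : ∀ i j, Differentiable ℝ (Ψ i j))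
    (h2 : ∀ x, x ≠ 0 → ∀ i j, Ψ i j (WithLp.toLp 2 fun k => ray (B k) x) = x i * x j / (x ⬝ᵥ x))
    (h3 : ∀ (p : Fin N → ℝ) (c : ℝ), (∀ x, x ≠ 0 → ∑ k, p k * ray (B k) x = c) → p = 0) :
    ∃ f : RP3 → EuclideanSpace ℝ (Fin N), IsSmoothEmbedding f ∧ (∀ x, ‖f x‖ = 1) ∧
      IsSubstantial f ∧ IsTaut f := by
  let f : RP3 → EuclideanSpace ℝ (Fin N) := fun x => WithLp.toLp 2 fun k => ray (B k) x.rep
  have hf : ∀ x hx, f (Projectivization.mk ℝ x hx) = WithLp.toLp 2 fun k => ray (B k) x := by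
    intro x hx
    obtain ⟨a, ha⟩ := Projectivization.exists_smul_eq_mk_rep ℝ x hx
    simp only [f, ← ha, Units.smul_def, ray_smul _ _ a.ne_zero]
  have hn : ∀ x, ‖f x‖ ^ 2 = 1 := fun x => by
    have := (dot_pos x.rep_nonzero).ne'
    simp only [EuclideanSpace.real_norm_sq_eq, f, ray, div_pow, ← Finset.sum_div, h1]
    field_simp
  have hi : ∀ p x, inner ℝ p (f x) = ∑ k, p k * ray (B k) x.rep := fun p x => by
    simp [f, PiLp.inner_apply, mul_comm]
  have hc : ∀ i, ContDiff ℝ ∞ (f ∘ chart i) := fun i => by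
    have : f ∘ chart i = fun u => WithLp.toLp 2 fun k => ray (B k) (ins i 1 u) :=
      funext fun u => hf _ _
    rw [this]
    exact contDiff_euclidean.2 fun k => ray_cd _ i
  refine ⟨f, ⟨fun x y h => ?_, fun i => ⟨hc i, fun u => ?_⟩⟩,
    fun x => (sq_eq_sq₀ (norm_nonneg _) zero_le_one).1 (by rw [hn, one_pow]), fun p c h => ?_, fun p => count
      (S := (‖p‖ ^ 2 + 1) • (1 : Matrix (Fin 4) (Fin 4) ℝ) - (2 : ℝ) • ∑ k, p k • B k) ?_ _ ?_⟩
  · obtain ⟨i, hi⟩ := Function.ne_iff.1 x.rep_nonzero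
    have hi' : x.rep i ≠ 0 := hi
    have a1 := (dot_pos x.rep_nonzero).ne'
    have a2 := (dot_pos y.rep_nonzero).ne'
    rw [← x.mk_rep, ← y.mk_rep]
    refine (Projectivization.mk_eq_mk_iff' _ _ _ _ _).2
      ⟨y.rep i / (y.rep ⬝ᵥ y.rep) * (x.rep ⬝ᵥ x.rep) / x.rep i, funext fun j => ?_⟩
    have a3 := (h2 _ x.rep_nonzero i j).symm.trans ((congrArg (Ψ i j) h).trans (h2 _ y.rep_nonzero i j))
    simp only [Pi.smul_apply, smul_eq_mul]
    field_simp at a3 ⊢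
    linarith
  · let G : EuclideanSpace ℝ (Fin N) → Fin 3 → ℝ := fun z k => Ψ i (i.succAbove k) z / Ψ i i z
    have a0 : ∀ u j, Ψ i j ((f ∘ chart i) u) = ins i 1 u j / (ins i 1 u ⬝ᵥ ins i 1 u) := fun u j => by
      have : (f ∘ chart i) u = _ := hf (ins i 1 u) (ins_ne i u)
      rw [this, h2 _ (ins_ne i u), ins_self, one_mul]
    have a1 : G ∘ (f ∘ chart i) = id := funext fun u => funext fun k => by
      have := (dot_pos (ins_ne i u)).ne'
      change Ψ i _ ((f ∘ chart i) u) / Ψ i i ((f ∘ chart i) u) = u k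
      rw [a0, a0, ins_self, ins_succ]; field_simp
    have a2 : DifferentiableAt ℝ G ((f ∘ chart i) u) := differentiableAt_pi.2 fun k => by
      have a4 : Ψ i i ((f ∘ chart i) u) ≠ 0 := by
        rw [a0, ins_self]; exact div_ne_zero one_ne_zero (dot_pos (ins_ne i u)).ne'
      simp only [G, div_eq_mul_inv]
      exact (hΨ i (i.succAbove k) _).mul ((hΨ i i _).inv a4)
    have a3 := fderiv_comp u a2 ((hc i).differentiable (by simp) u)
    rw [a1, fderiv_id] at a3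
    refine Function.Injective.of_comp (f := fderiv ℝ G ((f ∘ chart i) u)) ?_
    rw [← ContinuousLinearMap.coe_comp, ← a3]
    exact Function.injective_id
  · have := h3 p c fun x hx => by
      rw [← h (Projectivization.mk ℝ x hx), hf]; simp [PiLp.inner_apply, mul_comm]
    ext k; simpa using congrFun this k
  · simp only [IsSymm, transpose_sub, transpose_smul, transpose_one, transpose_sum, (hB _).eq]
  · intro x hx
    have := (dot_pos hx).ne'
    rw [norm_sub_sq_real, hn, hf]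
    simp only [PiLp.inner_apply, ray, sub_mulVec, smul_mulVec, one_mulVec, sum_mulVec,
      dotProduct_sub, dotProduct_smul, dotProduct_sum, smul_eq_mul, sub_div, Finset.sum_div,
      mul_div_assoc, div_self this]
    simp [mul_comm]
    ring

/-- the quadratic forms giving the entries `(1,2),(2,2),(3,2),(1,3),(2,3),(3,3),(3,1),(2,1)` of the
rotation matrix of a quaternion -/
def M : Fin 8 → Matrix (Fin 4) (Fin 4) ℝ :=
  ![!![0,0,0,-1; 0,0,1,0; 0,1,0,0; -1,0,0,0], !![1,0,0,0; 0,-1,0,0; 0,0,1,0; 0,0,0,-1],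
    !![0,1,0,0; 1,0,0,0; 0,0,0,1; 0,0,1,0], !![0,0,1,0; 0,0,0,1; 1,0,0,0; 0,1,0,0],
    !![0,-1,0,0; -1,0,0,0; 0,0,0,1; 0,0,1,0], !![1,0,0,0; 0,-1,0,0; 0,0,-1,0; 0,0,0,1],
    !![0,0,-1,0; 0,0,0,1; -1,0,0,0; 0,1,0,0], !![0,0,0,1; 0,0,1,0; 0,1,0,0; 1,0,0,0]]

theorem M_symm (k : Fin 8) : (M k).IsSymm := by
  fin_cases k <;> (ext i j; fin_cases i <;> fin_cases j <;> simp [M])

theorem M_val (x : Fin 4 → ℝ) (k : Fin 8) : x ⬝ᵥ M k *ᵥ x =
    ![2 * (x 1 * x 2 - x 0 * x 3), x 0 ^ 2 - x 1 ^ 2 + x 2 ^ 2 - x 3 ^ 2, 2 * (x 2 * x 3 + x 0 * x 1),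
      2 * (x 1 * x 3 + x 0 * x 2), 2 * (x 2 * x 3 - x 0 * x 1), x 0 ^ 2 - x 1 ^ 2 - x 2 ^ 2 + x 3 ^ 2,
      2 * (x 1 * x 3 - x 0 * x 2), 2 * (x 1 * x 2 + x 0 * x 3)] k := by
  fin_cases k <;> simp [M, dotProduct, mulVec, Fin.sum_univ_four] <;> ring

theorem dot_val (x : Fin 4 → ℝ) : x ⬝ᵥ x = x 0 ^ 2 + x 1 ^ 2 + x 2 ^ 2 + x 3 ^ 2 := by
  simp [dotProduct, Fin.sum_univ_four]; ring

/-- recovering the Veronese coordinates from two columns -/
noncomputable def psi (a b c d e f : ℝ) : Matrix (Fin 4) (Fin 4) ℝ :=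
  !![(1 + (b * f - e * c) + b + f) / 4, (c - e) / 4, (d - (a * e - d * b)) / 4, (d * c - a * f - a) / 4;
     (c - e) / 4, (1 + (b * f - e * c) - b - f) / 4, (a + (d * c - a * f)) / 4, (d + (a * e - d * b)) / 4;
     (d - (a * e - d * b)) / 4, (a + (d * c - a * f)) / 4, (1 - (b * f - e * c) + b - f) / 4, (e + c) / 4;
     (d * c - a * f - a) / 4, (d + (a * e - d * b)) / 4, (e + c) / 4, (1 - (b * f - e * c) - b + f) / 4]

theorem psi_spec {x : Fin 4 → ℝ} (hx : x ≠ 0) (i j : Fin 4) :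
    psi (ray (M 0) x) (ray (M 1) x) (ray (M 2) x) (ray (M 3) x) (ray (M 4) x) (ray (M 5) x) i j
      = x i * x j / (x ⬝ᵥ x) := by
  have h := (dot_pos hx).ne'
  simp only [ray, M_val]
  have h2 := dot_val x
  generalize x ⬝ᵥ x = D at *
  fin_cases i <;> fin_cases j <;> simp [psi] <;> field_simp <;> subst h2 <;> ring

theorem ray_mul (w : ℝ) (S : Matrix (Fin 4) (Fin 4) ℝ) (x : Fin 4 → ℝ) :
    ray (w • S) x = w * ray S x := by
  simp [ray, smul_mulVec, mul_div_assoc]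

theorem M_indep (q : Fin 8 → ℝ) (c : ℝ) (h : ∀ x, x ≠ 0 → ∑ k, q k * ray (M k) x = c) : q = 0 := by
  have e : ∀ x : Fin 4 → ℝ, x ≠ 0 → ∑ k, q k * (x ⬝ᵥ M k *ᵥ x) = c * (x ⬝ᵥ x) := fun x hx => by
    have := (dot_pos hx).ne'
    rw [← h x hx, Finset.sum_mul]
    exact Finset.sum_congr rfl fun k _ => by rw [ray]; field_simp
  have n : ∀ a b c d : ℝ, a ≠ 0 ∨ b ≠ 0 ∨ c ≠ 0 ∨ d ≠ 0 → ![a, b, c, d] ≠ 0 := fun a b c d h h' => by
    have h0 := congrFun h' 0
    have h1 := congrFun h' 1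
    have h2 := congrFun h' 2
    have h3 := congrFun h' 3
    simp at h0 h1 h2 h3
    tauto
  have e1 := e _ (n 1 0 0 0 (by simp))
  have e2 := e _ (n 0 1 0 0 (by simp))
  have e3 := e _ (n 0 0 1 0 (by simp))
  have e4 := e _ (n 1 1 0 0 (by simp))
  have e5 := e _ (n 1 0 1 0 (by simp))
  have e6 := e _ (n 1 0 0 1 (by simp))
  have e7 := e _ (n 0 1 1 0 (by simp))
  have e8 := e _ (n 0 1 0 1 (by simp))
  have e9 := e _ (n 0 0 1 1 (by simp))
  simp only [M_val, dot_val, Fin.sum_univ_eight] at e1 e2 e3 e4 e5 e6 e7 e8 e9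
  simp at e1 e2 e3 e4 e5 e6 e7 e8 e9
  funext k
  fin_cases k <;> simp <;> linarith

theorem final {n : ℕ} (hn : n ≤ 2) (w : Fin (6 + n) → ℝ) (hw : ∀ k, w k ≠ 0)
    (h1 : ∀ x : Fin 4 → ℝ, ∑ k, (w k * (x ⬝ᵥ M (k.castLE (by omega)) *ᵥ x)) ^ 2 = (x ⬝ᵥ x) ^ 2) :
    ∃ f : RP3 → EuclideanSpace ℝ (Fin (6 + n)), IsSmoothEmbedding f ∧ (∀ x, ‖f x‖ = 1) ∧
      IsSubstantial f ∧ IsTaut f := by
  let t : Fin 6 → EuclideanSpace ℝ (Fin (6 + n)) → ℝ := fun k z => z (k.castAdd n) / w (k.castAdd n)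
  have ht : ∀ k, Differentiable ℝ (t k) := fun k => by simp only [t]; fun_prop
  refine general (fun k => w k • M (k.castLE (by omega))) (fun k => (M_symm _).smul _)
    (fun x => by simpa [smul_mulVec] using h1 x)
    (fun i j z => psi (t 0 z) (t 1 z) (t 2 z) (t 3 z) (t 4 z) (t 5 z) i j) (fun i j => ?_)
    (fun x hx i j => ?_) fun p c h => ?_
  · fin_cases i <;> fin_cases j <;> simp [psi] <;> fun_prop
  · have : ∀ k : Fin 6, t k (WithLp.toLp 2 fun k => ray (w k • M (k.castLE (by omega))) x)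
        = ray (M (k.castLE (by omega))) x := fun k => by
      simp only [t, ray_mul]
      rw [mul_div_cancel_left₀ _ (hw _)]; rfl
    simp only [this]
    exact psi_spec hx i j
  · have h2 := M_indep (fun k => if hk : k.1 < 6 + n then p ⟨k, hk⟩ * w ⟨k, hk⟩ else 0) c
      fun x hx => by
        rw [← h x hx]
        symm
        refine Finset.sum_of_injOn (fun k => k.castLE (by omega)) (Fin.castLE_injective (by omega)).injOn
          (fun _ _ => Finset.mem_univ _) (fun k _ hk => ?_) fun k _ => by simp [ray_mul, mul_assoc]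
        rw [dif_neg fun hk' => hk ⟨⟨k, hk'⟩, by simp, rfl⟩, zero_mul]
    funext k
    have := congrFun h2 (k.castLE (by omega))
    simpa [hw k] using this

end Pool.Agent.H3.Taut
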