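import Mathlib

open scoped LinearAlgebra.Projectivization ContDiff

namespace Pool.Agent.H3.Taut

/-- Real projective 3-space. -/
abbrev RP3 : Type := ℙ ℝ (Fin 4 → ℝ)

/-- The inverse of the `i`-th standard affine chart of `ℝP³`: `u ↦ [u₀ : ⋯ : 1 : ⋯ : u₂]`,
with the entry `1` in position `i`. -/
noncomputable def chart (i : Fin 4) (u : Fin 3 → ℝ) : RP3 :=
  Projectivization.mk ℝ (Fin.insertNth i 1 u) fun h => by simpa using congrFun h i

/-- `f` is injective, and smooth with injective differential in every standard chart. -/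
def IsSmoothEmbedding {N : ℕ} (f : RP3 → EuclideanSpace ℝ (Fin N)) : Prop :=
  Function.Injective f ∧ ∀ i, ContDiff ℝ ∞ (f ∘ chart i) ∧
    ∀ u, Function.Injective (fderiv ℝ (f ∘ chart i) u)

/-- `x` is a critical point of `g`. -/
def IsCritical (g : RP3 → ℝ) (x : RP3) : Prop :=
  ∃ i u, chart i u = x ∧ fderiv ℝ (g ∘ chart i) u = 0

/-- All critical points of `g` have nondegenerate Hessian. -/
def IsMorse (g : RP3 → ℝ) : Prop :=
  ∀ i u, fderiv ℝ (g ∘ chart i) u = 0 → Function.Injective (fderiv ℝ (fderiv ℝ (g ∘ chart i)) u)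

/-- Every Morse function `x ↦ |p - f x|²` has exactly `4` critical points, `4` being the sum of
the mod 2 Betti numbers of `ℝP³`. -/
def IsTaut {N : ℕ} (f : RP3 → EuclideanSpace ℝ (Fin N)) : Prop :=
  ∀ p, IsMorse (fun x => ‖p - f x‖ ^ 2) → {x | IsCritical (fun x => ‖p - f x‖ ^ 2) x}.ncard = 4

/-- The image of `f` lies in no affine hyperplane. -/
def IsSubstantial {N : ℕ} (f : RP3 → EuclideanSpace ℝ (Fin N)) : Prop :=
  ∀ (p : EuclideanSpace ℝ (Fin N)) (c : ℝ), (∀ x, inner ℝ p (f x) = c) → p = 0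

end Pool.Agent.H3.Taut
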