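import Pool.Agent.H3.TreeDefs

set_option autoImplicit false
set_option linter.unusedSimpArgs false
set_option linter.unusedTactic false
set_option linter.unreachableTactic false

namespace Pool.Agent.H3.Trees

theorem sw {a b x : ℝ × ℝ} (h : x ∈ segment ℝ a b) : x ∈ segment ℝ b a := by
  rwa [segment_symm]

def q0 : ℝ × ℝ := ((10 : ℝ), (7 : ℝ))

def q1 : ℝ × ℝ := ((0 : ℝ), (0 : ℝ))

def q2 : ℝ × ℝ := ((2 : ℝ), (6 : ℝ))

def q3 : ℝ × ℝ := ((12 : ℝ), (0 : ℝ))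

def q4 : ℝ × ℝ := ((6 : ℝ), (-1 : ℝ))

def q5 : ℝ × ℝ := ((6 : ℝ), (12 : ℝ))

def qc : ℝ × ℝ := ((-6 : ℝ), (-2 : ℝ))

def qd : ℝ × ℝ := ((20 : ℝ), (-4 : ℝ))

theorem m0_1 (x : ℝ × ℝ) (h1 : x ∈ segment ℝ q1 q4) (h2 : x ∈ segment ℝ q4 q3) :
    x = ((6 : ℝ), (-1 : ℝ)) := by
  obtain ⟨s, t, hs, ht, hst, rfl⟩ := h1
  obtain ⟨u, v, hu, hv, huv, h⟩ := h2
  have e1 := congrArg Prod.fst h
  have e2 := congrArg Prod.snd h
  simp only [q0, q1, q2, q3, q4, q5, qc, qd, Prod.fst_add, Prod.snd_add, Prod.smul_fst, Prod.smul_snd, smul_eq_mul] at e1 e2 ⊢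
  refine Prod.ext ?_ ?_ <;> simp only [Prod.fst_add, Prod.snd_add, Prod.smul_fst, Prod.smul_snd, smul_eq_mul] <;> linarith

theorem m0_2 (x : ℝ × ℝ) (h1 : x ∈ segment ℝ q1 q4) (h2 : x ∈ segment ℝ q1 q2) :
    x = ((0 : ℝ), (0 : ℝ)) := by
  obtain ⟨s, t, hs, ht, hst, rfl⟩ := h1
  obtain ⟨u, v, hu, hv, huv, h⟩ := h2
  have e1 := congrArg Prod.fst h
  have e2 := congrArg Prod.snd h
  simp only [q0, q1, q2, q3, q4, q5, qc, qd, Prod.fst_add, Prod.snd_add, Prod.smul_fst, Prod.smul_snd, smul_eq_mul] at e1 e2 ⊢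
  refine Prod.ext ?_ ?_ <;> simp only [Prod.fst_add, Prod.snd_add, Prod.smul_fst, Prod.smul_snd, smul_eq_mul] <;> linarith

theorem m0_3 (x : ℝ × ℝ) (h1 : x ∈ segment ℝ q1 q4) (h2 : x ∈ segment ℝ q2 q5) :
    False := by
  obtain ⟨s, t, hs, ht, hst, rfl⟩ := h1
  obtain ⟨u, v, hu, hv, huv, h⟩ := h2
  have e1 := congrArg Prod.fst h
  have e2 := congrArg Prod.snd h
  simp only [q0, q1, q2, q3, q4, q5, qc, qd, Prod.fst_add, Prod.snd_add, Prod.smul_fst, Prod.smul_snd, smul_eq_mul] at e1 e2 ⊢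
  linarith

theorem m0_4 (x : ℝ × ℝ) (h1 : x ∈ segment ℝ q1 q4) (h2 : x ∈ segment ℝ q3 q0) :
    False := by
  obtain ⟨s, t, hs, ht, hst, rfl⟩ := h1
  obtain ⟨u, v, hu, hv, huv, h⟩ := h2
  have e1 := congrArg Prod.fst h
  have e2 := congrArg Prod.snd h
  simp only [q0, q1, q2, q3, q4, q5, qc, qd, Prod.fst_add, Prod.snd_add, Prod.smul_fst, Prod.smul_snd, smul_eq_mul] at e1 e2 ⊢
  linarith

theorem m0_5 (x : ℝ × ℝ) (h1 : x ∈ segment ℝ q1 q4) (h2 : x ∈ segment ℝ q0 q5) :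
    False := by
  obtain ⟨s, t, hs, ht, hst, rfl⟩ := h1
  obtain ⟨u, v, hu, hv, huv, h⟩ := h2
  have e1 := congrArg Prod.fst h
  have e2 := congrArg Prod.snd h
  simp only [q0, q1, q2, q3, q4, q5, qc, qd, Prod.fst_add, Prod.snd_add, Prod.smul_fst, Prod.smul_snd, smul_eq_mul] at e1 e2 ⊢
  linarith

theorem m0_6 (x : ℝ × ℝ) (h1 : x ∈ segment ℝ q1 q4) (h2 : x ∈ segment ℝ q1 q0) :
    x = ((0 : ℝ), (0 : ℝ)) := by
  obtain ⟨s, t, hs, ht, hst, rfl⟩ := h1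
  obtain ⟨u, v, hu, hv, huv, h⟩ := h2
  have e1 := congrArg Prod.fst h
  have e2 := congrArg Prod.snd h
  simp only [q0, q1, q2, q3, q4, q5, qc, qd, Prod.fst_add, Prod.snd_add, Prod.smul_fst, Prod.smul_snd, smul_eq_mul] at e1 e2 ⊢
  refine Prod.ext ?_ ?_ <;> simp only [Prod.fst_add, Prod.snd_add, Prod.smul_fst, Prod.smul_snd, smul_eq_mul] <;> linarith

theorem m0_7 (x : ℝ × ℝ) (h1 : x ∈ segment ℝ q1 q4) (h2 : x ∈ segment ℝ q3 q2) :
    False := by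
  obtain ⟨s, t, hs, ht, hst, rfl⟩ := h1
  obtain ⟨u, v, hu, hv, huv, h⟩ := h2
  have e1 := congrArg Prod.fst h
  have e2 := congrArg Prod.snd h
  simp only [q0, q1, q2, q3, q4, q5, qc, qd, Prod.fst_add, Prod.snd_add, Prod.smul_fst, Prod.smul_snd, smul_eq_mul] at e1 e2 ⊢
  linarith

theorem m0_8 (x : ℝ × ℝ) (h1 : x ∈ segment ℝ q1 q4) (h2 : x ∈ segment ℝ q5 q4) :
    x = ((6 : ℝ), (-1 : ℝ)) := by
  obtain ⟨s, t, hs, ht, hst, rfl⟩ := h1
  obtain ⟨u, v, hu, hv, huv, h⟩ := h2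
  have e1 := congrArg Prod.fst h
  have e2 := congrArg Prod.snd h
  simp only [q0, q1, q2, q3, q4, q5, qc, qd, Prod.fst_add, Prod.snd_add, Prod.smul_fst, Prod.smul_snd, smul_eq_mul] at e1 e2 ⊢
  refine Prod.ext ?_ ?_ <;> simp only [Prod.fst_add, Prod.snd_add, Prod.smul_fst, Prod.smul_snd, smul_eq_mul] <;> linarith

theorem m0_9 (x : ℝ × ℝ) (h1 : x ∈ segment ℝ q1 q4) (h2 : x ∈ segment ℝ qc q2) :
    False := by
  obtain ⟨s, t, hs, ht, hst, rfl⟩ := h1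
  obtain ⟨u, v, hu, hv, huv, h⟩ := h2
  have e1 := congrArg Prod.fst h
  have e2 := congrArg Prod.snd h
  simp only [q0, q1, q2, q3, q4, q5, qc, qd, Prod.fst_add, Prod.snd_add, Prod.smul_fst, Prod.smul_snd, smul_eq_mul] at e1 e2 ⊢
  linarith

theorem m0_10 (x : ℝ × ℝ) (h1 : x ∈ segment ℝ q1 q4) (h2 : x ∈ segment ℝ qc q4) :
    x = ((6 : ℝ), (-1 : ℝ)) := by
  obtain ⟨s, t, hs, ht, hst, rfl⟩ := h1
  obtain ⟨u, v, hu, hv, huv, h⟩ := h2
  have e1 := congrArg Prod.fst h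
  have e2 := congrArg Prod.snd h
  simp only [q0, q1, q2, q3, q4, q5, qc, qd, Prod.fst_add, Prod.snd_add, Prod.smul_fst, Prod.smul_snd, smul_eq_mul] at e1 e2 ⊢
  refine Prod.ext ?_ ?_ <;> simp only [Prod.fst_add, Prod.snd_add, Prod.smul_fst, Prod.smul_snd, smul_eq_mul] <;> linarith

theorem m0_11 (x : ℝ × ℝ) (h1 : x ∈ segment ℝ q1 q4) (h2 : x ∈ segment ℝ qc qd) :
    False := by
  obtain ⟨s, t, hs, ht, hst, rfl⟩ := h1
  obtain ⟨u, v, hu, hv, huv, h⟩ := h2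
  have e1 := congrArg Prod.fst h
  have e2 := congrArg Prod.snd h
  simp only [q0, q1, q2, q3, q4, q5, qc, qd, Prod.fst_add, Prod.snd_add, Prod.smul_fst, Prod.smul_snd, smul_eq_mul] at e1 e2 ⊢
  linarith

theorem m0_12 (x : ℝ × ℝ) (h1 : x ∈ segment ℝ q1 q4) (h2 : x ∈ segment ℝ qd q0) :
    False := by
  obtain ⟨s, t, hs, ht, hst, rfl⟩ := h1
  obtain ⟨u, v, hu, hv, huv, h⟩ := h2
  have e1 := congrArg Prod.fst h
  have e2 := congrArg Prod.snd h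
  simp only [q0, q1, q2, q3, q4, q5, qc, qd, Prod.fst_add, Prod.snd_add, Prod.smul_fst, Prod.smul_snd, smul_eq_mul] at e1 e2 ⊢
  linarith

theorem m1_2 (x : ℝ × ℝ) (h1 : x ∈ segment ℝ q4 q3) (h2 : x ∈ segment ℝ q1 q2) :
    False := by
  obtain ⟨s, t, hs, ht, hst, rfl⟩ := h1
  obtain ⟨u, v, hu, hv, huv, h⟩ := h2
  have e1 := congrArg Prod.fst h
  have e2 := congrArg Prod.snd h
  simp only [q0, q1, q2, q3, q4, q5, qc, qd, Prod.fst_add, Prod.snd_add, Prod.smul_fst, Prod.smul_snd, smul_eq_mul] at e1 e2 ⊢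
  linarith

theorem m1_3 (x : ℝ × ℝ) (h1 : x ∈ segment ℝ q4 q3) (h2 : x ∈ segment ℝ q2 q5) :
    False := by
  obtain ⟨s, t, hs, ht, hst, rfl⟩ := h1
  obtain ⟨u, v, hu, hv, huv, h⟩ := h2
  have e1 := congrArg Prod.fst h
  have e2 := congrArg Prod.snd h
  simp only [q0, q1, q2, q3, q4, q5, qc, qd, Prod.fst_add, Prod.snd_add, Prod.smul_fst, Prod.smul_snd, smul_eq_mul] at e1 e2 ⊢
  linarith

theorem m1_4 (x : ℝ × ℝ) (h1 : x ∈ segment ℝ q4 q3) (h2 : x ∈ segment ℝ q3 q0) :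
    x = ((12 : ℝ), (0 : ℝ)) := by
  obtain ⟨s, t, hs, ht, hst, rfl⟩ := h1
  obtain ⟨u, v, hu, hv, huv, h⟩ := h2
  have e1 := congrArg Prod.fst h
  have e2 := congrArg Prod.snd h
  simp only [q0, q1, q2, q3, q4, q5, qc, qd, Prod.fst_add, Prod.snd_add, Prod.smul_fst, Prod.smul_snd, smul_eq_mul] at e1 e2 ⊢
  refine Prod.ext ?_ ?_ <;> simp only [Prod.fst_add, Prod.snd_add, Prod.smul_fst, Prod.smul_snd, smul_eq_mul] <;> linarith

theorem m1_5 (x : ℝ × ℝ) (h1 : x ∈ segment ℝ q4 q3) (h2 : x ∈ segment ℝ q0 q5) :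
    False := by
  obtain ⟨s, t, hs, ht, hst, rfl⟩ := h1
  obtain ⟨u, v, hu, hv, huv, h⟩ := h2
  have e1 := congrArg Prod.fst h
  have e2 := congrArg Prod.snd h
  simp only [q0, q1, q2, q3, q4, q5, qc, qd, Prod.fst_add, Prod.snd_add, Prod.smul_fst, Prod.smul_snd, smul_eq_mul] at e1 e2 ⊢
  linarith

theorem m1_6 (x : ℝ × ℝ) (h1 : x ∈ segment ℝ q4 q3) (h2 : x ∈ segment ℝ q1 q0) :
    False := by
  obtain ⟨s, t, hs, ht, hst, rfl⟩ := h1
  obtain ⟨u, v, hu, hv, huv, h⟩ := h2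
  have e1 := congrArg Prod.fst h
  have e2 := congrArg Prod.snd h
  simp only [q0, q1, q2, q3, q4, q5, qc, qd, Prod.fst_add, Prod.snd_add, Prod.smul_fst, Prod.smul_snd, smul_eq_mul] at e1 e2 ⊢
  linarith

theorem m1_7 (x : ℝ × ℝ) (h1 : x ∈ segment ℝ q4 q3) (h2 : x ∈ segment ℝ q3 q2) :
    x = ((12 : ℝ), (0 : ℝ)) := by
  obtain ⟨s, t, hs, ht, hst, rfl⟩ := h1
  obtain ⟨u, v, hu, hv, huv, h⟩ := h2
  have e1 := congrArg Prod.fst h
  have e2 := congrArg Prod.snd h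
  simp only [q0, q1, q2, q3, q4, q5, qc, qd, Prod.fst_add, Prod.snd_add, Prod.smul_fst, Prod.smul_snd, smul_eq_mul] at e1 e2 ⊢
  refine Prod.ext ?_ ?_ <;> simp only [Prod.fst_add, Prod.snd_add, Prod.smul_fst, Prod.smul_snd, smul_eq_mul] <;> linarith

theorem m1_8 (x : ℝ × ℝ) (h1 : x ∈ segment ℝ q4 q3) (h2 : x ∈ segment ℝ q5 q4) :
    x = ((6 : ℝ), (-1 : ℝ)) := by
  obtain ⟨s, t, hs, ht, hst, rfl⟩ := h1
  obtain ⟨u, v, hu, hv, huv, h⟩ := h2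
  have e1 := congrArg Prod.fst h
  have e2 := congrArg Prod.snd h
  simp only [q0, q1, q2, q3, q4, q5, qc, qd, Prod.fst_add, Prod.snd_add, Prod.smul_fst, Prod.smul_snd, smul_eq_mul] at e1 e2 ⊢
  refine Prod.ext ?_ ?_ <;> simp only [Prod.fst_add, Prod.snd_add, Prod.smul_fst, Prod.smul_snd, smul_eq_mul] <;> linarith

theorem m1_9 (x : ℝ × ℝ) (h1 : x ∈ segment ℝ q4 q3) (h2 : x ∈ segment ℝ qc q2) :
    False := by
  obtain ⟨s, t, hs, ht, hst, rfl⟩ := h1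
  obtain ⟨u, v, hu, hv, huv, h⟩ := h2
  have e1 := congrArg Prod.fst h
  have e2 := congrArg Prod.snd h
  simp only [q0, q1, q2, q3, q4, q5, qc, qd, Prod.fst_add, Prod.snd_add, Prod.smul_fst, Prod.smul_snd, smul_eq_mul] at e1 e2 ⊢
  linarith

theorem m1_10 (x : ℝ × ℝ) (h1 : x ∈ segment ℝ q4 q3) (h2 : x ∈ segment ℝ qc q4) :
    x = ((6 : ℝ), (-1 : ℝ)) := by
  obtain ⟨s, t, hs, ht, hst, rfl⟩ := h1
  obtain ⟨u, v, hu, hv, huv, h⟩ := h2
  have e1 := congrArg Prod.fst h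
  have e2 := congrArg Prod.snd h
  simp only [q0, q1, q2, q3, q4, q5, qc, qd, Prod.fst_add, Prod.snd_add, Prod.smul_fst, Prod.smul_snd, smul_eq_mul] at e1 e2 ⊢
  refine Prod.ext ?_ ?_ <;> simp only [Prod.fst_add, Prod.snd_add, Prod.smul_fst, Prod.smul_snd, smul_eq_mul] <;> linarith

theorem m1_11 (x : ℝ × ℝ) (h1 : x ∈ segment ℝ q4 q3) (h2 : x ∈ segment ℝ qc qd) :
    False := by
  obtain ⟨s, t, hs, ht, hst, rfl⟩ := h1
  obtain ⟨u, v, hu, hv, huv, h⟩ := h2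
  have e1 := congrArg Prod.fst h
  have e2 := congrArg Prod.snd h
  simp only [q0, q1, q2, q3, q4, q5, qc, qd, Prod.fst_add, Prod.snd_add, Prod.smul_fst, Prod.smul_snd, smul_eq_mul] at e1 e2 ⊢
  linarith

theorem m1_12 (x : ℝ × ℝ) (h1 : x ∈ segment ℝ q4 q3) (h2 : x ∈ segment ℝ qd q0) :
    False := by
  obtain ⟨s, t, hs, ht, hst, rfl⟩ := h1
  obtain ⟨u, v, hu, hv, huv, h⟩ := h2
  have e1 := congrArg Prod.fst h
  have e2 := congrArg Prod.snd h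
  simp only [q0, q1, q2, q3, q4, q5, qc, qd, Prod.fst_add, Prod.snd_add, Prod.smul_fst, Prod.smul_snd, smul_eq_mul] at e1 e2 ⊢
  linarith

theorem m2_3 (x : ℝ × ℝ) (h1 : x ∈ segment ℝ q1 q2) (h2 : x ∈ segment ℝ q2 q5) :
    x = ((2 : ℝ), (6 : ℝ)) := by
  obtain ⟨s, t, hs, ht, hst, rfl⟩ := h1
  obtain ⟨u, v, hu, hv, huv, h⟩ := h2
  have e1 := congrArg Prod.fst h
  have e2 := congrArg Prod.snd h
  simp only [q0, q1, q2, q3, q4, q5, qc, qd, Prod.fst_add, Prod.snd_add, Prod.smul_fst, Prod.smul_snd, smul_eq_mul] at e1 e2 ⊢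
  refine Prod.ext ?_ ?_ <;> simp only [Prod.fst_add, Prod.snd_add, Prod.smul_fst, Prod.smul_snd, smul_eq_mul] <;> linarith

theorem m2_4 (x : ℝ × ℝ) (h1 : x ∈ segment ℝ q1 q2) (h2 : x ∈ segment ℝ q3 q0) :
    False := by
  obtain ⟨s, t, hs, ht, hst, rfl⟩ := h1
  obtain ⟨u, v, hu, hv, huv, h⟩ := h2
  have e1 := congrArg Prod.fst h
  have e2 := congrArg Prod.snd h
  simp only [q0, q1, q2, q3, q4, q5, qc, qd, Prod.fst_add, Prod.snd_add, Prod.smul_fst, Prod.smul_snd, smul_eq_mul] at e1 e2 ⊢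
  linarith

theorem m2_5 (x : ℝ × ℝ) (h1 : x ∈ segment ℝ q1 q2) (h2 : x ∈ segment ℝ q0 q5) :
    False := by
  obtain ⟨s, t, hs, ht, hst, rfl⟩ := h1
  obtain ⟨u, v, hu, hv, huv, h⟩ := h2
  have e1 := congrArg Prod.fst h
  have e2 := congrArg Prod.snd h
  simp only [q0, q1, q2, q3, q4, q5, qc, qd, Prod.fst_add, Prod.snd_add, Prod.smul_fst, Prod.smul_snd, smul_eq_mul] at e1 e2 ⊢
  linarith

theorem m2_6 (x : ℝ × ℝ) (h1 : x ∈ segment ℝ q1 q2) (h2 : x ∈ segment ℝ q1 q0) :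
    x = ((0 : ℝ), (0 : ℝ)) := by
  obtain ⟨s, t, hs, ht, hst, rfl⟩ := h1
  obtain ⟨u, v, hu, hv, huv, h⟩ := h2
  have e1 := congrArg Prod.fst h
  have e2 := congrArg Prod.snd h
  simp only [q0, q1, q2, q3, q4, q5, qc, qd, Prod.fst_add, Prod.snd_add, Prod.smul_fst, Prod.smul_snd, smul_eq_mul] at e1 e2 ⊢
  refine Prod.ext ?_ ?_ <;> simp only [Prod.fst_add, Prod.snd_add, Prod.smul_fst, Prod.smul_snd, smul_eq_mul] <;> linarith

theorem m2_7 (x : ℝ × ℝ) (h1 : x ∈ segment ℝ q1 q2) (h2 : x ∈ segment ℝ q3 q2) :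
    x = ((2 : ℝ), (6 : ℝ)) := by
  obtain ⟨s, t, hs, ht, hst, rfl⟩ := h1
  obtain ⟨u, v, hu, hv, huv, h⟩ := h2
  have e1 := congrArg Prod.fst h
  have e2 := congrArg Prod.snd h
  simp only [q0, q1, q2, q3, q4, q5, qc, qd, Prod.fst_add, Prod.snd_add, Prod.smul_fst, Prod.smul_snd, smul_eq_mul] at e1 e2 ⊢
  refine Prod.ext ?_ ?_ <;> simp only [Prod.fst_add, Prod.snd_add, Prod.smul_fst, Prod.smul_snd, smul_eq_mul] <;> linarith

theorem m2_8 (x : ℝ × ℝ) (h1 : x ∈ segment ℝ q1 q2) (h2 : x ∈ segment ℝ q5 q4) :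
    False := by
  obtain ⟨s, t, hs, ht, hst, rfl⟩ := h1
  obtain ⟨u, v, hu, hv, huv, h⟩ := h2
  have e1 := congrArg Prod.fst h
  have e2 := congrArg Prod.snd h
  simp only [q0, q1, q2, q3, q4, q5, qc, qd, Prod.fst_add, Prod.snd_add, Prod.smul_fst, Prod.smul_snd, smul_eq_mul] at e1 e2 ⊢
  linarith

theorem m2_9 (x : ℝ × ℝ) (h1 : x ∈ segment ℝ q1 q2) (h2 : x ∈ segment ℝ qc q2) :
    x = ((2 : ℝ), (6 : ℝ)) := by
  obtain ⟨s, t, hs, ht, hst, rfl⟩ := h1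
  obtain ⟨u, v, hu, hv, huv, h⟩ := h2
  have e1 := congrArg Prod.fst h
  have e2 := congrArg Prod.snd h
  simp only [q0, q1, q2, q3, q4, q5, qc, qd, Prod.fst_add, Prod.snd_add, Prod.smul_fst, Prod.smul_snd, smul_eq_mul] at e1 e2 ⊢
  refine Prod.ext ?_ ?_ <;> simp only [Prod.fst_add, Prod.snd_add, Prod.smul_fst, Prod.smul_snd, smul_eq_mul] <;> linarith

theorem m2_10 (x : ℝ × ℝ) (h1 : x ∈ segment ℝ q1 q2) (h2 : x ∈ segment ℝ qc q4) :
    False := by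
  obtain ⟨s, t, hs, ht, hst, rfl⟩ := h1
  obtain ⟨u, v, hu, hv, huv, h⟩ := h2
  have e1 := congrArg Prod.fst h
  have e2 := congrArg Prod.snd h
  simp only [q0, q1, q2, q3, q4, q5, qc, qd, Prod.fst_add, Prod.snd_add, Prod.smul_fst, Prod.smul_snd, smul_eq_mul] at e1 e2 ⊢
  linarith

theorem m2_11 (x : ℝ × ℝ) (h1 : x ∈ segment ℝ q1 q2) (h2 : x ∈ segment ℝ qc qd) :
    False := by
  obtain ⟨s, t, hs, ht, hst, rfl⟩ := h1
  obtain ⟨u, v, hu, hv, huv, h⟩ := h2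
  have e1 := congrArg Prod.fst h
  have e2 := congrArg Prod.snd h
  simp only [q0, q1, q2, q3, q4, q5, qc, qd, Prod.fst_add, Prod.snd_add, Prod.smul_fst, Prod.smul_snd, smul_eq_mul] at e1 e2 ⊢
  linarith

theorem m2_12 (x : ℝ × ℝ) (h1 : x ∈ segment ℝ q1 q2) (h2 : x ∈ segment ℝ qd q0) :
    False := by
  obtain ⟨s, t, hs, ht, hst, rfl⟩ := h1
  obtain ⟨u, v, hu, hv, huv, h⟩ := h2
  have e1 := congrArg Prod.fst h
  have e2 := congrArg Prod.snd h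
  simp only [q0, q1, q2, q3, q4, q5, qc, qd, Prod.fst_add, Prod.snd_add, Prod.smul_fst, Prod.smul_snd, smul_eq_mul] at e1 e2 ⊢
  linarith

theorem m3_4 (x : ℝ × ℝ) (h1 : x ∈ segment ℝ q2 q5) (h2 : x ∈ segment ℝ q3 q0) :
    False := by
  obtain ⟨s, t, hs, ht, hst, rfl⟩ := h1
  obtain ⟨u, v, hu, hv, huv, h⟩ := h2
  have e1 := congrArg Prod.fst h
  have e2 := congrArg Prod.snd h
  simp only [q0, q1, q2, q3, q4, q5, qc, qd, Prod.fst_add, Prod.snd_add, Prod.smul_fst, Prod.smul_snd, smul_eq_mul] at e1 e2 ⊢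
  linarith

theorem m3_5 (x : ℝ × ℝ) (h1 : x ∈ segment ℝ q2 q5) (h2 : x ∈ segment ℝ q0 q5) :
    x = ((6 : ℝ), (12 : ℝ)) := by
  obtain ⟨s, t, hs, ht, hst, rfl⟩ := h1
  obtain ⟨u, v, hu, hv, huv, h⟩ := h2
  have e1 := congrArg Prod.fst h
  have e2 := congrArg Prod.snd h
  simp only [q0, q1, q2, q3, q4, q5, qc, qd, Prod.fst_add, Prod.snd_add, Prod.smul_fst, Prod.smul_snd, smul_eq_mul] at e1 e2 ⊢
  refine Prod.ext ?_ ?_ <;> simp only [Prod.fst_add, Prod.snd_add, Prod.smul_fst, Prod.smul_snd, smul_eq_mul] <;> linarith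

theorem m3_6 (x : ℝ × ℝ) (h1 : x ∈ segment ℝ q2 q5) (h2 : x ∈ segment ℝ q1 q0) :
    False := by
  obtain ⟨s, t, hs, ht, hst, rfl⟩ := h1
  obtain ⟨u, v, hu, hv, huv, h⟩ := h2
  have e1 := congrArg Prod.fst h
  have e2 := congrArg Prod.snd h
  simp only [q0, q1, q2, q3, q4, q5, qc, qd, Prod.fst_add, Prod.snd_add, Prod.smul_fst, Prod.smul_snd, smul_eq_mul] at e1 e2 ⊢
  linarith

theorem m3_7 (x : ℝ × ℝ) (h1 : x ∈ segment ℝ q2 q5) (h2 : x ∈ segment ℝ q3 q2) :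
    x = ((2 : ℝ), (6 : ℝ)) := by
  obtain ⟨s, t, hs, ht, hst, rfl⟩ := h1
  obtain ⟨u, v, hu, hv, huv, h⟩ := h2
  have e1 := congrArg Prod.fst h
  have e2 := congrArg Prod.snd h
  simp only [q0, q1, q2, q3, q4, q5, qc, qd, Prod.fst_add, Prod.snd_add, Prod.smul_fst, Prod.smul_snd, smul_eq_mul] at e1 e2 ⊢
  refine Prod.ext ?_ ?_ <;> simp only [Prod.fst_add, Prod.snd_add, Prod.smul_fst, Prod.smul_snd, smul_eq_mul] <;> linarith

theorem m3_8 (x : ℝ × ℝ) (h1 : x ∈ segment ℝ q2 q5) (h2 : x ∈ segment ℝ q5 q4) :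
    x = ((6 : ℝ), (12 : ℝ)) := by
  obtain ⟨s, t, hs, ht, hst, rfl⟩ := h1
  obtain ⟨u, v, hu, hv, huv, h⟩ := h2
  have e1 := congrArg Prod.fst h
  have e2 := congrArg Prod.snd h
  simp only [q0, q1, q2, q3, q4, q5, qc, qd, Prod.fst_add, Prod.snd_add, Prod.smul_fst, Prod.smul_snd, smul_eq_mul] at e1 e2 ⊢
  refine Prod.ext ?_ ?_ <;> simp only [Prod.fst_add, Prod.snd_add, Prod.smul_fst, Prod.smul_snd, smul_eq_mul] <;> linarith

theorem m3_9 (x : ℝ × ℝ) (h1 : x ∈ segment ℝ q2 q5) (h2 : x ∈ segment ℝ qc q2) :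
    x = ((2 : ℝ), (6 : ℝ)) := by
  obtain ⟨s, t, hs, ht, hst, rfl⟩ := h1
  obtain ⟨u, v, hu, hv, huv, h⟩ := h2
  have e1 := congrArg Prod.fst h
  have e2 := congrArg Prod.snd h
  simp only [q0, q1, q2, q3, q4, q5, qc, qd, Prod.fst_add, Prod.snd_add, Prod.smul_fst, Prod.smul_snd, smul_eq_mul] at e1 e2 ⊢
  refine Prod.ext ?_ ?_ <;> simp only [Prod.fst_add, Prod.snd_add, Prod.smul_fst, Prod.smul_snd, smul_eq_mul] <;> linarith

theorem m3_10 (x : ℝ × ℝ) (h1 : x ∈ segment ℝ q2 q5) (h2 : x ∈ segment ℝ qc q4) :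
    False := by
  obtain ⟨s, t, hs, ht, hst, rfl⟩ := h1
  obtain ⟨u, v, hu, hv, huv, h⟩ := h2
  have e1 := congrArg Prod.fst h
  have e2 := congrArg Prod.snd h
  simp only [q0, q1, q2, q3, q4, q5, qc, qd, Prod.fst_add, Prod.snd_add, Prod.smul_fst, Prod.smul_snd, smul_eq_mul] at e1 e2 ⊢
  linarith

theorem m3_11 (x : ℝ × ℝ) (h1 : x ∈ segment ℝ q2 q5) (h2 : x ∈ segment ℝ qc qd) :
    False := by
  obtain ⟨s, t, hs, ht, hst, rfl⟩ := h1
  obtain ⟨u, v, hu, hv, huv, h⟩ := h2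
  have e1 := congrArg Prod.fst h
  have e2 := congrArg Prod.snd h
  simp only [q0, q1, q2, q3, q4, q5, qc, qd, Prod.fst_add, Prod.snd_add, Prod.smul_fst, Prod.smul_snd, smul_eq_mul] at e1 e2 ⊢
  linarith

theorem m3_12 (x : ℝ × ℝ) (h1 : x ∈ segment ℝ q2 q5) (h2 : x ∈ segment ℝ qd q0) :
    False := by
  obtain ⟨s, t, hs, ht, hst, rfl⟩ := h1
  obtain ⟨u, v, hu, hv, huv, h⟩ := h2
  have e1 := congrArg Prod.fst h
  have e2 := congrArg Prod.snd h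
  simp only [q0, q1, q2, q3, q4, q5, qc, qd, Prod.fst_add, Prod.snd_add, Prod.smul_fst, Prod.smul_snd, smul_eq_mul] at e1 e2 ⊢
  linarith

theorem m4_5 (x : ℝ × ℝ) (h1 : x ∈ segment ℝ q3 q0) (h2 : x ∈ segment ℝ q0 q5) :
    x = ((10 : ℝ), (7 : ℝ)) := by
  obtain ⟨s, t, hs, ht, hst, rfl⟩ := h1
  obtain ⟨u, v, hu, hv, huv, h⟩ := h2
  have e1 := congrArg Prod.fst h
  have e2 := congrArg Prod.snd h
  simp only [q0, q1, q2, q3, q4, q5, qc, qd, Prod.fst_add, Prod.snd_add, Prod.smul_fst, Prod.smul_snd, smul_eq_mul] at e1 e2 ⊢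
  refine Prod.ext ?_ ?_ <;> simp only [Prod.fst_add, Prod.snd_add, Prod.smul_fst, Prod.smul_snd, smul_eq_mul] <;> linarith

theorem m4_6 (x : ℝ × ℝ) (h1 : x ∈ segment ℝ q3 q0) (h2 : x ∈ segment ℝ q1 q0) :
    x = ((10 : ℝ), (7 : ℝ)) := by
  obtain ⟨s, t, hs, ht, hst, rfl⟩ := h1
  obtain ⟨u, v, hu, hv, huv, h⟩ := h2
  have e1 := congrArg Prod.fst h
  have e2 := congrArg Prod.snd h
  simp only [q0, q1, q2, q3, q4, q5, qc, qd, Prod.fst_add, Prod.snd_add, Prod.smul_fst, Prod.smul_snd, smul_eq_mul] at e1 e2 ⊢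
  refine Prod.ext ?_ ?_ <;> simp only [Prod.fst_add, Prod.snd_add, Prod.smul_fst, Prod.smul_snd, smul_eq_mul] <;> linarith

theorem m4_7 (x : ℝ × ℝ) (h1 : x ∈ segment ℝ q3 q0) (h2 : x ∈ segment ℝ q3 q2) :
    x = ((12 : ℝ), (0 : ℝ)) := by
  obtain ⟨s, t, hs, ht, hst, rfl⟩ := h1
  obtain ⟨u, v, hu, hv, huv, h⟩ := h2
  have e1 := congrArg Prod.fst h
  have e2 := congrArg Prod.snd h
  simp only [q0, q1, q2, q3, q4, q5, qc, qd, Prod.fst_add, Prod.snd_add, Prod.smul_fst, Prod.smul_snd, smul_eq_mul] at e1 e2 ⊢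
  refine Prod.ext ?_ ?_ <;> simp only [Prod.fst_add, Prod.snd_add, Prod.smul_fst, Prod.smul_snd, smul_eq_mul] <;> linarith

theorem m4_8 (x : ℝ × ℝ) (h1 : x ∈ segment ℝ q3 q0) (h2 : x ∈ segment ℝ q5 q4) :
    False := by
  obtain ⟨s, t, hs, ht, hst, rfl⟩ := h1
  obtain ⟨u, v, hu, hv, huv, h⟩ := h2
  have e1 := congrArg Prod.fst h
  have e2 := congrArg Prod.snd h
  simp only [q0, q1, q2, q3, q4, q5, qc, qd, Prod.fst_add, Prod.snd_add, Prod.smul_fst, Prod.smul_snd, smul_eq_mul] at e1 e2 ⊢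
  linarith

theorem m4_9 (x : ℝ × ℝ) (h1 : x ∈ segment ℝ q3 q0) (h2 : x ∈ segment ℝ qc q2) :
    False := by
  obtain ⟨s, t, hs, ht, hst, rfl⟩ := h1
  obtain ⟨u, v, hu, hv, huv, h⟩ := h2
  have e1 := congrArg Prod.fst h
  have e2 := congrArg Prod.snd h
  simp only [q0, q1, q2, q3, q4, q5, qc, qd, Prod.fst_add, Prod.snd_add, Prod.smul_fst, Prod.smul_snd, smul_eq_mul] at e1 e2 ⊢
  linarith

theorem m4_10 (x : ℝ × ℝ) (h1 : x ∈ segment ℝ q3 q0) (h2 : x ∈ segment ℝ qc q4) :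
    False := by
  obtain ⟨s, t, hs, ht, hst, rfl⟩ := h1
  obtain ⟨u, v, hu, hv, huv, h⟩ := h2
  have e1 := congrArg Prod.fst h
  have e2 := congrArg Prod.snd h
  simp only [q0, q1, q2, q3, q4, q5, qc, qd, Prod.fst_add, Prod.snd_add, Prod.smul_fst, Prod.smul_snd, smul_eq_mul] at e1 e2 ⊢
  linarith

theorem m4_11 (x : ℝ × ℝ) (h1 : x ∈ segment ℝ q3 q0) (h2 : x ∈ segment ℝ qc qd) :
    False := by
  obtain ⟨s, t, hs, ht, hst, rfl⟩ := h1
  obtain ⟨u, v, hu, hv, huv, h⟩ := h2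
  have e1 := congrArg Prod.fst h
  have e2 := congrArg Prod.snd h
  simp only [q0, q1, q2, q3, q4, q5, qc, qd, Prod.fst_add, Prod.snd_add, Prod.smul_fst, Prod.smul_snd, smul_eq_mul] at e1 e2 ⊢
  linarith

theorem m4_12 (x : ℝ × ℝ) (h1 : x ∈ segment ℝ q3 q0) (h2 : x ∈ segment ℝ qd q0) :
    x = ((10 : ℝ), (7 : ℝ)) := by
  obtain ⟨s, t, hs, ht, hst, rfl⟩ := h1
  obtain ⟨u, v, hu, hv, huv, h⟩ := h2
  have e1 := congrArg Prod.fst h
  have e2 := congrArg Prod.snd h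
  simp only [q0, q1, q2, q3, q4, q5, qc, qd, Prod.fst_add, Prod.snd_add, Prod.smul_fst, Prod.smul_snd, smul_eq_mul] at e1 e2 ⊢
  refine Prod.ext ?_ ?_ <;> simp only [Prod.fst_add, Prod.snd_add, Prod.smul_fst, Prod.smul_snd, smul_eq_mul] <;> linarith

theorem m5_6 (x : ℝ × ℝ) (h1 : x ∈ segment ℝ q0 q5) (h2 : x ∈ segment ℝ q1 q0) :
    x = ((10 : ℝ), (7 : ℝ)) := by
  obtain ⟨s, t, hs, ht, hst, rfl⟩ := h1
  obtain ⟨u, v, hu, hv, huv, h⟩ := h2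
  have e1 := congrArg Prod.fst h
  have e2 := congrArg Prod.snd h
  simp only [q0, q1, q2, q3, q4, q5, qc, qd, Prod.fst_add, Prod.snd_add, Prod.smul_fst, Prod.smul_snd, smul_eq_mul] at e1 e2 ⊢
  refine Prod.ext ?_ ?_ <;> simp only [Prod.fst_add, Prod.snd_add, Prod.smul_fst, Prod.smul_snd, smul_eq_mul] <;> linarith

theorem m5_7 (x : ℝ × ℝ) (h1 : x ∈ segment ℝ q0 q5) (h2 : x ∈ segment ℝ q3 q2) :
    False := by
  obtain ⟨s, t, hs, ht, hst, rfl⟩ := h1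
  obtain ⟨u, v, hu, hv, huv, h⟩ := h2
  have e1 := congrArg Prod.fst h
  have e2 := congrArg Prod.snd h
  simp only [q0, q1, q2, q3, q4, q5, qc, qd, Prod.fst_add, Prod.snd_add, Prod.smul_fst, Prod.smul_snd, smul_eq_mul] at e1 e2 ⊢
  linarith

theorem m5_8 (x : ℝ × ℝ) (h1 : x ∈ segment ℝ q0 q5) (h2 : x ∈ segment ℝ q5 q4) :
    x = ((6 : ℝ), (12 : ℝ)) := by
  obtain ⟨s, t, hs, ht, hst, rfl⟩ := h1
  obtain ⟨u, v, hu, hv, huv, h⟩ := h2
  have e1 := congrArg Prod.fst h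
  have e2 := congrArg Prod.snd h
  simp only [q0, q1, q2, q3, q4, q5, qc, qd, Prod.fst_add, Prod.snd_add, Prod.smul_fst, Prod.smul_snd, smul_eq_mul] at e1 e2 ⊢
  refine Prod.ext ?_ ?_ <;> simp only [Prod.fst_add, Prod.snd_add, Prod.smul_fst, Prod.smul_snd, smul_eq_mul] <;> linarith

theorem m5_9 (x : ℝ × ℝ) (h1 : x ∈ segment ℝ q0 q5) (h2 : x ∈ segment ℝ qc q2) :
    False := by
  obtain ⟨s, t, hs, ht, hst, rfl⟩ := h1
  obtain ⟨u, v, hu, hv, huv, h⟩ := h2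
  have e1 := congrArg Prod.fst h
  have e2 := congrArg Prod.snd h
  simp only [q0, q1, q2, q3, q4, q5, qc, qd, Prod.fst_add, Prod.snd_add, Prod.smul_fst, Prod.smul_snd, smul_eq_mul] at e1 e2 ⊢
  linarith

theorem m5_10 (x : ℝ × ℝ) (h1 : x ∈ segment ℝ q0 q5) (h2 : x ∈ segment ℝ qc q4) :
    False := by
  obtain ⟨s, t, hs, ht, hst, rfl⟩ := h1
  obtain ⟨u, v, hu, hv, huv, h⟩ := h2
  have e1 := congrArg Prod.fst h
  have e2 := congrArg Prod.snd h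
  simp only [q0, q1, q2, q3, q4, q5, qc, qd, Prod.fst_add, Prod.snd_add, Prod.smul_fst, Prod.smul_snd, smul_eq_mul] at e1 e2 ⊢
  linarith

theorem m5_11 (x : ℝ × ℝ) (h1 : x ∈ segment ℝ q0 q5) (h2 : x ∈ segment ℝ qc qd) :
    False := by
  obtain ⟨s, t, hs, ht, hst, rfl⟩ := h1
  obtain ⟨u, v, hu, hv, huv, h⟩ := h2
  have e1 := congrArg Prod.fst h
  have e2 := congrArg Prod.snd h
  simp only [q0, q1, q2, q3, q4, q5, qc, qd, Prod.fst_add, Prod.snd_add, Prod.smul_fst, Prod.smul_snd, smul_eq_mul] at e1 e2 ⊢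
  linarith

theorem m5_12 (x : ℝ × ℝ) (h1 : x ∈ segment ℝ q0 q5) (h2 : x ∈ segment ℝ qd q0) :
    x = ((10 : ℝ), (7 : ℝ)) := by
  obtain ⟨s, t, hs, ht, hst, rfl⟩ := h1
  obtain ⟨u, v, hu, hv, huv, h⟩ := h2
  have e1 := congrArg Prod.fst h
  have e2 := congrArg Prod.snd h
  simp only [q0, q1, q2, q3, q4, q5, qc, qd, Prod.fst_add, Prod.snd_add, Prod.smul_fst, Prod.smul_snd, smul_eq_mul] at e1 e2 ⊢
  refine Prod.ext ?_ ?_ <;> simp only [Prod.fst_add, Prod.snd_add, Prod.smul_fst, Prod.smul_snd, smul_eq_mul] <;> linarith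

theorem m6_7 (x : ℝ × ℝ) (h1 : x ∈ segment ℝ q1 q0) (h2 : x ∈ segment ℝ q3 q2) :
    x = ((72 / 13 : ℝ), (252 / 65 : ℝ)) := by
  obtain ⟨s, t, hs, ht, hst, rfl⟩ := h1
  obtain ⟨u, v, hu, hv, huv, h⟩ := h2
  have e1 := congrArg Prod.fst h
  have e2 := congrArg Prod.snd h
  simp only [q0, q1, q2, q3, q4, q5, qc, qd, Prod.fst_add, Prod.snd_add, Prod.smul_fst, Prod.smul_snd, smul_eq_mul] at e1 e2 ⊢
  refine Prod.ext ?_ ?_ <;> simp only [Prod.fst_add, Prod.snd_add, Prod.smul_fst, Prod.smul_snd, smul_eq_mul] <;> linarith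

theorem m6_8 (x : ℝ × ℝ) (h1 : x ∈ segment ℝ q1 q0) (h2 : x ∈ segment ℝ q5 q4) :
    x = ((6 : ℝ), (21 / 5 : ℝ)) := by
  obtain ⟨s, t, hs, ht, hst, rfl⟩ := h1
  obtain ⟨u, v, hu, hv, huv, h⟩ := h2
  have e1 := congrArg Prod.fst h
  have e2 := congrArg Prod.snd h
  simp only [q0, q1, q2, q3, q4, q5, qc, qd, Prod.fst_add, Prod.snd_add, Prod.smul_fst, Prod.smul_snd, smul_eq_mul] at e1 e2 ⊢
  refine Prod.ext ?_ ?_ <;> simp only [Prod.fst_add, Prod.snd_add, Prod.smul_fst, Prod.smul_snd, smul_eq_mul] <;> linarith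

theorem m6_9 (x : ℝ × ℝ) (h1 : x ∈ segment ℝ q1 q0) (h2 : x ∈ segment ℝ qc q2) :
    False := by
  obtain ⟨s, t, hs, ht, hst, rfl⟩ := h1
  obtain ⟨u, v, hu, hv, huv, h⟩ := h2
  have e1 := congrArg Prod.fst h
  have e2 := congrArg Prod.snd h
  simp only [q0, q1, q2, q3, q4, q5, qc, qd, Prod.fst_add, Prod.snd_add, Prod.smul_fst, Prod.smul_snd, smul_eq_mul] at e1 e2 ⊢
  linarith

theorem m6_10 (x : ℝ × ℝ) (h1 : x ∈ segment ℝ q1 q0) (h2 : x ∈ segment ℝ qc q4) :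
    False := by
  obtain ⟨s, t, hs, ht, hst, rfl⟩ := h1
  obtain ⟨u, v, hu, hv, huv, h⟩ := h2
  have e1 := congrArg Prod.fst h
  have e2 := congrArg Prod.snd h
  simp only [q0, q1, q2, q3, q4, q5, qc, qd, Prod.fst_add, Prod.snd_add, Prod.smul_fst, Prod.smul_snd, smul_eq_mul] at e1 e2 ⊢
  linarith

theorem m6_11 (x : ℝ × ℝ) (h1 : x ∈ segment ℝ q1 q0) (h2 : x ∈ segment ℝ qc qd) :
    False := by
  obtain ⟨s, t, hs, ht, hst, rfl⟩ := h1
  obtain ⟨u, v, hu, hv, huv, h⟩ := h2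
  have e1 := congrArg Prod.fst h
  have e2 := congrArg Prod.snd h
  simp only [q0, q1, q2, q3, q4, q5, qc, qd, Prod.fst_add, Prod.snd_add, Prod.smul_fst, Prod.smul_snd, smul_eq_mul] at e1 e2 ⊢
  linarith

theorem m6_12 (x : ℝ × ℝ) (h1 : x ∈ segment ℝ q1 q0) (h2 : x ∈ segment ℝ qd q0) :
    x = ((10 : ℝ), (7 : ℝ)) := by
  obtain ⟨s, t, hs, ht, hst, rfl⟩ := h1
  obtain ⟨u, v, hu, hv, huv, h⟩ := h2
  have e1 := congrArg Prod.fst h
  have e2 := congrArg Prod.snd h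
  simp only [q0, q1, q2, q3, q4, q5, qc, qd, Prod.fst_add, Prod.snd_add, Prod.smul_fst, Prod.smul_snd, smul_eq_mul] at e1 e2 ⊢
  refine Prod.ext ?_ ?_ <;> simp only [Prod.fst_add, Prod.snd_add, Prod.smul_fst, Prod.smul_snd, smul_eq_mul] <;> linarith

theorem m7_8 (x : ℝ × ℝ) (h1 : x ∈ segment ℝ q3 q2) (h2 : x ∈ segment ℝ q5 q4) :
    x = ((6 : ℝ), (18 / 5 : ℝ)) := by
  obtain ⟨s, t, hs, ht, hst, rfl⟩ := h1
  obtain ⟨u, v, hu, hv, huv, h⟩ := h2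
  have e1 := congrArg Prod.fst h
  have e2 := congrArg Prod.snd h
  simp only [q0, q1, q2, q3, q4, q5, qc, qd, Prod.fst_add, Prod.snd_add, Prod.smul_fst, Prod.smul_snd, smul_eq_mul] at e1 e2 ⊢
  refine Prod.ext ?_ ?_ <;> simp only [Prod.fst_add, Prod.snd_add, Prod.smul_fst, Prod.smul_snd, smul_eq_mul] <;> linarith

theorem m7_9 (x : ℝ × ℝ) (h1 : x ∈ segment ℝ q3 q2) (h2 : x ∈ segment ℝ qc q2) :
    x = ((2 : ℝ), (6 : ℝ)) := by
  obtain ⟨s, t, hs, ht, hst, rfl⟩ := h1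
  obtain ⟨u, v, hu, hv, huv, h⟩ := h2
  have e1 := congrArg Prod.fst h
  have e2 := congrArg Prod.snd h
  simp only [q0, q1, q2, q3, q4, q5, qc, qd, Prod.fst_add, Prod.snd_add, Prod.smul_fst, Prod.smul_snd, smul_eq_mul] at e1 e2 ⊢
  refine Prod.ext ?_ ?_ <;> simp only [Prod.fst_add, Prod.snd_add, Prod.smul_fst, Prod.smul_snd, smul_eq_mul] <;> linarith

theorem m7_10 (x : ℝ × ℝ) (h1 : x ∈ segment ℝ q3 q2) (h2 : x ∈ segment ℝ qc q4) :
    False := by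
  obtain ⟨s, t, hs, ht, hst, rfl⟩ := h1
  obtain ⟨u, v, hu, hv, huv, h⟩ := h2
  have e1 := congrArg Prod.fst h
  have e2 := congrArg Prod.snd h
  simp only [q0, q1, q2, q3, q4, q5, qc, qd, Prod.fst_add, Prod.snd_add, Prod.smul_fst, Prod.smul_snd, smul_eq_mul] at e1 e2 ⊢
  linarith

theorem m7_11 (x : ℝ × ℝ) (h1 : x ∈ segment ℝ q3 q2) (h2 : x ∈ segment ℝ qc qd) :
    False := by
  obtain ⟨s, t, hs, ht, hst, rfl⟩ := h1
  obtain ⟨u, v, hu, hv, huv, h⟩ := h2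
  have e1 := congrArg Prod.fst h
  have e2 := congrArg Prod.snd h
  simp only [q0, q1, q2, q3, q4, q5, qc, qd, Prod.fst_add, Prod.snd_add, Prod.smul_fst, Prod.smul_snd, smul_eq_mul] at e1 e2 ⊢
  linarith

theorem m7_12 (x : ℝ × ℝ) (h1 : x ∈ segment ℝ q3 q2) (h2 : x ∈ segment ℝ qd q0) :
    False := by
  obtain ⟨s, t, hs, ht, hst, rfl⟩ := h1
  obtain ⟨u, v, hu, hv, huv, h⟩ := h2
  have e1 := congrArg Prod.fst h
  have e2 := congrArg Prod.snd h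
  simp only [q0, q1, q2, q3, q4, q5, qc, qd, Prod.fst_add, Prod.snd_add, Prod.smul_fst, Prod.smul_snd, smul_eq_mul] at e1 e2 ⊢
  linarith

theorem m8_9 (x : ℝ × ℝ) (h1 : x ∈ segment ℝ q5 q4) (h2 : x ∈ segment ℝ qc q2) :
    False := by
  obtain ⟨s, t, hs, ht, hst, rfl⟩ := h1
  obtain ⟨u, v, hu, hv, huv, h⟩ := h2
  have e1 := congrArg Prod.fst h
  have e2 := congrArg Prod.snd h
  simp only [q0, q1, q2, q3, q4, q5, qc, qd, Prod.fst_add, Prod.snd_add, Prod.smul_fst, Prod.smul_snd, smul_eq_mul] at e1 e2 ⊢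
  linarith

theorem m8_10 (x : ℝ × ℝ) (h1 : x ∈ segment ℝ q5 q4) (h2 : x ∈ segment ℝ qc q4) :
    x = ((6 : ℝ), (-1 : ℝ)) := by
  obtain ⟨s, t, hs, ht, hst, rfl⟩ := h1
  obtain ⟨u, v, hu, hv, huv, h⟩ := h2
  have e1 := congrArg Prod.fst h
  have e2 := congrArg Prod.snd h
  simp only [q0, q1, q2, q3, q4, q5, qc, qd, Prod.fst_add, Prod.snd_add, Prod.smul_fst, Prod.smul_snd, smul_eq_mul] at e1 e2 ⊢
  refine Prod.ext ?_ ?_ <;> simp only [Prod.fst_add, Prod.snd_add, Prod.smul_fst, Prod.smul_snd, smul_eq_mul] <;> linarith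

theorem m8_11 (x : ℝ × ℝ) (h1 : x ∈ segment ℝ q5 q4) (h2 : x ∈ segment ℝ qc qd) :
    False := by
  obtain ⟨s, t, hs, ht, hst, rfl⟩ := h1
  obtain ⟨u, v, hu, hv, huv, h⟩ := h2
  have e1 := congrArg Prod.fst h
  have e2 := congrArg Prod.snd h
  simp only [q0, q1, q2, q3, q4, q5, qc, qd, Prod.fst_add, Prod.snd_add, Prod.smul_fst, Prod.smul_snd, smul_eq_mul] at e1 e2 ⊢
  linarith

theorem m8_12 (x : ℝ × ℝ) (h1 : x ∈ segment ℝ q5 q4) (h2 : x ∈ segment ℝ qd q0) :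
    False := by
  obtain ⟨s, t, hs, ht, hst, rfl⟩ := h1
  obtain ⟨u, v, hu, hv, huv, h⟩ := h2
  have e1 := congrArg Prod.fst h
  have e2 := congrArg Prod.snd h
  simp only [q0, q1, q2, q3, q4, q5, qc, qd, Prod.fst_add, Prod.snd_add, Prod.smul_fst, Prod.smul_snd, smul_eq_mul] at e1 e2 ⊢
  linarith

theorem m9_10 (x : ℝ × ℝ) (h1 : x ∈ segment ℝ qc q2) (h2 : x ∈ segment ℝ qc q4) :
    x = ((-6 : ℝ), (-2 : ℝ)) := by
  obtain ⟨s, t, hs, ht, hst, rfl⟩ := h1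
  obtain ⟨u, v, hu, hv, huv, h⟩ := h2
  have e1 := congrArg Prod.fst h
  have e2 := congrArg Prod.snd h
  simp only [q0, q1, q2, q3, q4, q5, qc, qd, Prod.fst_add, Prod.snd_add, Prod.smul_fst, Prod.smul_snd, smul_eq_mul] at e1 e2 ⊢
  refine Prod.ext ?_ ?_ <;> simp only [Prod.fst_add, Prod.snd_add, Prod.smul_fst, Prod.smul_snd, smul_eq_mul] <;> linarith

theorem m9_11 (x : ℝ × ℝ) (h1 : x ∈ segment ℝ qc q2) (h2 : x ∈ segment ℝ qc qd) :
    x = ((-6 : ℝ), (-2 : ℝ)) := by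
  obtain ⟨s, t, hs, ht, hst, rfl⟩ := h1
  obtain ⟨u, v, hu, hv, huv, h⟩ := h2
  have e1 := congrArg Prod.fst h
  have e2 := congrArg Prod.snd h
  simp only [q0, q1, q2, q3, q4, q5, qc, qd, Prod.fst_add, Prod.snd_add, Prod.smul_fst, Prod.smul_snd, smul_eq_mul] at e1 e2 ⊢
  refine Prod.ext ?_ ?_ <;> simp only [Prod.fst_add, Prod.snd_add, Prod.smul_fst, Prod.smul_snd, smul_eq_mul] <;> linarith

theorem m9_12 (x : ℝ × ℝ) (h1 : x ∈ segment ℝ qc q2) (h2 : x ∈ segment ℝ qd q0) :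
    False := by
  obtain ⟨s, t, hs, ht, hst, rfl⟩ := h1
  obtain ⟨u, v, hu, hv, huv, h⟩ := h2
  have e1 := congrArg Prod.fst h
  have e2 := congrArg Prod.snd h
  simp only [q0, q1, q2, q3, q4, q5, qc, qd, Prod.fst_add, Prod.snd_add, Prod.smul_fst, Prod.smul_snd, smul_eq_mul] at e1 e2 ⊢
  linarith

theorem m10_11 (x : ℝ × ℝ) (h1 : x ∈ segment ℝ qc q4) (h2 : x ∈ segment ℝ qc qd) :
    x = ((-6 : ℝ), (-2 : ℝ)) := by
  obtain ⟨s, t, hs, ht, hst, rfl⟩ := h1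
  obtain ⟨u, v, hu, hv, huv, h⟩ := h2
  have e1 := congrArg Prod.fst h
  have e2 := congrArg Prod.snd h
  simp only [q0, q1, q2, q3, q4, q5, qc, qd, Prod.fst_add, Prod.snd_add, Prod.smul_fst, Prod.smul_snd, smul_eq_mul] at e1 e2 ⊢
  refine Prod.ext ?_ ?_ <;> simp only [Prod.fst_add, Prod.snd_add, Prod.smul_fst, Prod.smul_snd, smul_eq_mul] <;> linarith

theorem m10_12 (x : ℝ × ℝ) (h1 : x ∈ segment ℝ qc q4) (h2 : x ∈ segment ℝ qd q0) :
    False := by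
  obtain ⟨s, t, hs, ht, hst, rfl⟩ := h1
  obtain ⟨u, v, hu, hv, huv, h⟩ := h2
  have e1 := congrArg Prod.fst h
  have e2 := congrArg Prod.snd h
  simp only [q0, q1, q2, q3, q4, q5, qc, qd, Prod.fst_add, Prod.snd_add, Prod.smul_fst, Prod.smul_snd, smul_eq_mul] at e1 e2 ⊢
  linarith

theorem m11_12 (x : ℝ × ℝ) (h1 : x ∈ segment ℝ qc qd) (h2 : x ∈ segment ℝ qd q0) :
    x = ((20 : ℝ), (-4 : ℝ)) := by
  obtain ⟨s, t, hs, ht, hst, rfl⟩ := h1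
  obtain ⟨u, v, hu, hv, huv, h⟩ := h2
  have e1 := congrArg Prod.fst h
  have e2 := congrArg Prod.snd h
  simp only [q0, q1, q2, q3, q4, q5, qc, qd, Prod.fst_add, Prod.snd_add, Prod.smul_fst, Prod.smul_snd, smul_eq_mul] at e1 e2 ⊢
  refine Prod.ext ?_ ?_ <;> simp only [Prod.fst_add, Prod.snd_add, Prod.smul_fst, Prod.smul_snd, smul_eq_mul] <;> linarith

def adj2 (a b : Fin 2) : Bool := a != b
def adj3 (a b : Fin 3) : Bool := a.val + 1 == b.val || b.val + 1 == a.val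
def adj5 (a b : Fin 5) : Bool :=
  (a.val == 0 && (b.val == 1 || b.val == 2 || b.val == 3)) ||
  (b.val == 0 && (a.val == 1 || a.val == 2 || a.val == 3)) ||
  (a.val == 3 && b.val == 4) || (a.val == 4 && b.val == 3)

def G2 : SimpleGraph (Fin 2) where
  Adj a b := adj2 a b = true
  symm := ⟨fun a b h => by revert a b; decide⟩
  loopless := ⟨fun a h => by revert a; decide⟩

instance : DecidableRel G2.Adj := fun a b => inferInstanceAs (Decidable (adj2 a b = true))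

theorem G2_tree : G2.IsTree := by
  rw [SimpleGraph.isTree_iff_connected_and_card]
  refine ⟨by decide +kernel, ?_⟩
  rw [Nat.card_eq_fintype_card, Nat.card_eq_fintype_card, ← SimpleGraph.edgeFinset_card]
  decide +kernel

def G3 : SimpleGraph (Fin 3) where
  Adj a b := adj3 a b = true
  symm := ⟨fun a b h => by revert a b; decide⟩
  loopless := ⟨fun a h => by revert a; decide⟩

instance : DecidableRel G3.Adj := fun a b => inferInstanceAs (Decidable (adj3 a b = true))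

theorem G3_tree : G3.IsTree := by
  rw [SimpleGraph.isTree_iff_connected_and_card]
  refine ⟨by decide +kernel, ?_⟩
  rw [Nat.card_eq_fintype_card, Nat.card_eq_fintype_card, ← SimpleGraph.edgeFinset_card]
  decide +kernel

def G5 : SimpleGraph (Fin 5) where
  Adj a b := adj5 a b = true
  symm := ⟨fun a b h => by revert a b; decide⟩
  loopless := ⟨fun a h => by revert a; decide⟩

instance : DecidableRel G5.Adj := fun a b => inferInstanceAs (Decidable (adj5 a b = true))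

theorem G5_tree : G5.IsTree := by
  rw [SimpleGraph.isTree_iff_connected_and_card]
  refine ⟨by decide +kernel, ?_⟩
  rw [Nat.card_eq_fintype_card, Nat.card_eq_fintype_card, ← SimpleGraph.edgeFinset_card]
  decide +kernel

theorem G2_adj : ∀ a b : Fin 2, G2.Adj a b ↔ (a = 0 ∧ b = 1) ∨ (a = 1 ∧ b = 0) := by decide

theorem G3_adj : ∀ a b : Fin 3, G3.Adj a b ↔ (a = 0 ∧ b = 1) ∨ (a = 1 ∧ b = 0) ∨ (a = 1 ∧ b = 2) ∨ (a = 2 ∧ b = 1) := by decide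

theorem G5_adj : ∀ a b : Fin 5, G5.Adj a b ↔ (a = 0 ∧ b = 1) ∨ (a = 1 ∧ b = 0) ∨ (a = 0 ∧ b = 2) ∨ (a = 2 ∧ b = 0) ∨ (a = 0 ∧ b = 3) ∨ (a = 3 ∧ b = 0) ∨ (a = 3 ∧ b = 4) ∨ (a = 4 ∧ b = 3) := by decide

def T0 : SegTree where
  k := 3
  G := G3
  pos := ![q1, q4, q3]
  isTree := G3_tree
  hasEdge := ⟨0, 1, by decide⟩
  inj := by
    intro a b h
    fin_cases a <;> fin_cases b <;> first | rfl | (exfalso; simp [q0, q1, q2, q3, q4, q5, qc, qd] at h; done) | (exfalso; norm_num [q0, q1, q2, q3, q4, q5, qc, qd] at h)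
  simple := by
    intro a b c d hab hcd hne x h1 h2
    rcases (G3_adj a b).1 hab with ⟨rfl, rfl⟩ | ⟨rfl, rfl⟩ | ⟨rfl, rfl⟩ | ⟨rfl, rfl⟩ <;>
    rcases (G3_adj c d).1 hcd with ⟨rfl, rfl⟩ | ⟨rfl, rfl⟩ | ⟨rfl, rfl⟩ | ⟨rfl, rfl⟩
    · exact absurd (by decide) hne
    · exact absurd (by decide) hne
    · exact ⟨1, m0_1 x h1 h2, by decide, by decide⟩
    · exact ⟨1, m0_1 x h1 (sw h2), by decide, by decide⟩
    · exact absurd (by decide) hne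
    · exact absurd (by decide) hne
    · exact ⟨1, m0_1 x (sw h1) h2, by decide, by decide⟩
    · exact ⟨1, m0_1 x (sw h1) (sw h2), by decide, by decide⟩
    · exact ⟨1, m0_1 x h2 h1, by decide, by decide⟩
    · exact ⟨1, m0_1 x (sw h2) h1, by decide, by decide⟩
    · exact absurd (by decide) hne
    · exact absurd (by decide) hne
    · exact ⟨1, m0_1 x h2 (sw h1), by decide, by decide⟩
    · exact ⟨1, m0_1 x (sw h2) (sw h1), by decide, by decide⟩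
    · exact absurd (by decide) hne
    · exact absurd (by decide) hne

theorem car0 (x : ℝ × ℝ) : x ∈ T0.carrier ↔ x ∈ segment ℝ q1 q4 ∨ x ∈ segment ℝ q4 q3 := by
  constructor
  · rintro ⟨a, b, hab, h⟩
    rcases (G3_adj a b).1 hab with ⟨rfl, rfl⟩ | ⟨rfl, rfl⟩ | ⟨rfl, rfl⟩ | ⟨rfl, rfl⟩
    · exact Or.inl (h)
    · exact Or.inl (sw h)
    · exact Or.inr (h)
    · exact Or.inr (sw h)
  · rintro (h | h)
    · exact ⟨(0 : Fin 3), (1 : Fin 3), (by decide : G3.Adj 0 1), h⟩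
    · exact ⟨(1 : Fin 3), (2 : Fin 3), (by decide : G3.Adj 1 2), h⟩

theorem leaf0 (x : ℝ × ℝ) : x ∈ T0.leaves ↔ x = q1 ∨ x = q3 := by
  have key : ∀ v : Fin 3, (∃! w, G3.Adj v w) ↔ v = 0 ∨ v = 2 := by
    simp only [ExistsUnique]; decide
  constructor
  · rintro ⟨v, rfl, h⟩
    rcases (key v).1 h with rfl | rfl
    · exact Or.inl (rfl)
    · exact Or.inr (rfl)
  · rintro (rfl | rfl)
    · exact ⟨(0 : Fin 3), rfl, (key 0).2 (by decide)⟩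
    · exact ⟨(2 : Fin 3), rfl, (key 2).2 (by decide)⟩

theorem inn0 (x : ℝ × ℝ) (hx : x = q0 ∨ x = q1 ∨ x = q2 ∨ x = q3 ∨ x = q4 ∨ x = q5) :
    x ∉ T0.inner := by
  rintro ⟨a, b, hab, s, t, hs, ht, hst, h⟩
  have e1 := congrArg Prod.fst h
  have e2 := congrArg Prod.snd h
  rcases (G3_adj a b).1 hab with ⟨rfl, rfl⟩ | ⟨rfl, rfl⟩ | ⟨rfl, rfl⟩ | ⟨rfl, rfl⟩ <;>
  rcases hx with rfl | rfl | rfl | rfl | rfl | rfl <;>
  simp [T0, q0, q1, q2, q3, q4, q5, qc, qd] at e1 e2 <;> first | linarith | (rcases e1 with e1 | e1 <;> linarith)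

def T1 : SegTree where
  k := 3
  G := G3
  pos := ![q1, q2, q5]
  isTree := G3_tree
  hasEdge := ⟨0, 1, by decide⟩
  inj := by
    intro a b h
    fin_cases a <;> fin_cases b <;> first | rfl | (exfalso; simp [q0, q1, q2, q3, q4, q5, qc, qd] at h; done) | (exfalso; norm_num [q0, q1, q2, q3, q4, q5, qc, qd] at h)
  simple := by
    intro a b c d hab hcd hne x h1 h2
    rcases (G3_adj a b).1 hab with ⟨rfl, rfl⟩ | ⟨rfl, rfl⟩ | ⟨rfl, rfl⟩ | ⟨rfl, rfl⟩ <;>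
    rcases (G3_adj c d).1 hcd with ⟨rfl, rfl⟩ | ⟨rfl, rfl⟩ | ⟨rfl, rfl⟩ | ⟨rfl, rfl⟩
    · exact absurd (by decide) hne
    · exact absurd (by decide) hne
    · exact ⟨1, m2_3 x h1 h2, by decide, by decide⟩
    · exact ⟨1, m2_3 x h1 (sw h2), by decide, by decide⟩
    · exact absurd (by decide) hne
    · exact absurd (by decide) hne
    · exact ⟨1, m2_3 x (sw h1) h2, by decide, by decide⟩
    · exact ⟨1, m2_3 x (sw h1) (sw h2), by decide, by decide⟩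
    · exact ⟨1, m2_3 x h2 h1, by decide, by decide⟩
    · exact ⟨1, m2_3 x (sw h2) h1, by decide, by decide⟩
    · exact absurd (by decide) hne
    · exact absurd (by decide) hne
    · exact ⟨1, m2_3 x h2 (sw h1), by decide, by decide⟩
    · exact ⟨1, m2_3 x (sw h2) (sw h1), by decide, by decide⟩
    · exact absurd (by decide) hne
    · exact absurd (by decide) hne

theorem car1 (x : ℝ × ℝ) : x ∈ T1.carrier ↔ x ∈ segment ℝ q1 q2 ∨ x ∈ segment ℝ q2 q5 := by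
  constructor
  · rintro ⟨a, b, hab, h⟩
    rcases (G3_adj a b).1 hab with ⟨rfl, rfl⟩ | ⟨rfl, rfl⟩ | ⟨rfl, rfl⟩ | ⟨rfl, rfl⟩
    · exact Or.inl (h)
    · exact Or.inl (sw h)
    · exact Or.inr (h)
    · exact Or.inr (sw h)
  · rintro (h | h)
    · exact ⟨(0 : Fin 3), (1 : Fin 3), (by decide : G3.Adj 0 1), h⟩
    · exact ⟨(1 : Fin 3), (2 : Fin 3), (by decide : G3.Adj 1 2), h⟩

theorem leaf1 (x : ℝ × ℝ) : x ∈ T1.leaves ↔ x = q1 ∨ x = q5 := by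
  have key : ∀ v : Fin 3, (∃! w, G3.Adj v w) ↔ v = 0 ∨ v = 2 := by
    simp only [ExistsUnique]; decide
  constructor
  · rintro ⟨v, rfl, h⟩
    rcases (key v).1 h with rfl | rfl
    · exact Or.inl (rfl)
    · exact Or.inr (rfl)
  · rintro (rfl | rfl)
    · exact ⟨(0 : Fin 3), rfl, (key 0).2 (by decide)⟩
    · exact ⟨(2 : Fin 3), rfl, (key 2).2 (by decide)⟩

theorem inn1 (x : ℝ × ℝ) (hx : x = q0 ∨ x = q1 ∨ x = q2 ∨ x = q3 ∨ x = q4 ∨ x = q5) :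
    x ∉ T1.inner := by
  rintro ⟨a, b, hab, s, t, hs, ht, hst, h⟩
  have e1 := congrArg Prod.fst h
  have e2 := congrArg Prod.snd h
  rcases (G3_adj a b).1 hab with ⟨rfl, rfl⟩ | ⟨rfl, rfl⟩ | ⟨rfl, rfl⟩ | ⟨rfl, rfl⟩ <;>
  rcases hx with rfl | rfl | rfl | rfl | rfl | rfl <;>
  simp [T1, q0, q1, q2, q3, q4, q5, qc, qd] at e1 e2 <;> first | linarith | (rcases e1 with e1 | e1 <;> linarith)

def T2 : SegTree where
  k := 3
  G := G3
  pos := ![q3, q0, q5]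
  isTree := G3_tree
  hasEdge := ⟨0, 1, by decide⟩
  inj := by
    intro a b h
    fin_cases a <;> fin_cases b <;> first | rfl | (exfalso; simp [q0, q1, q2, q3, q4, q5, qc, qd] at h; done) | (exfalso; norm_num [q0, q1, q2, q3, q4, q5, qc, qd] at h)
  simple := by
    intro a b c d hab hcd hne x h1 h2
    rcases (G3_adj a b).1 hab with ⟨rfl, rfl⟩ | ⟨rfl, rfl⟩ | ⟨rfl, rfl⟩ | ⟨rfl, rfl⟩ <;>
    rcases (G3_adj c d).1 hcd with ⟨rfl, rfl⟩ | ⟨rfl, rfl⟩ | ⟨rfl, rfl⟩ | ⟨rfl, rfl⟩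
    · exact absurd (by decide) hne
    · exact absurd (by decide) hne
    · exact ⟨1, m4_5 x h1 h2, by decide, by decide⟩
    · exact ⟨1, m4_5 x h1 (sw h2), by decide, by decide⟩
    · exact absurd (by decide) hne
    · exact absurd (by decide) hne
    · exact ⟨1, m4_5 x (sw h1) h2, by decide, by decide⟩
    · exact ⟨1, m4_5 x (sw h1) (sw h2), by decide, by decide⟩
    · exact ⟨1, m4_5 x h2 h1, by decide, by decide⟩
    · exact ⟨1, m4_5 x (sw h2) h1, by decide, by decide⟩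
    · exact absurd (by decide) hne
    · exact absurd (by decide) hne
    · exact ⟨1, m4_5 x h2 (sw h1), by decide, by decide⟩
    · exact ⟨1, m4_5 x (sw h2) (sw h1), by decide, by decide⟩
    · exact absurd (by decide) hne
    · exact absurd (by decide) hne

theorem car2 (x : ℝ × ℝ) : x ∈ T2.carrier ↔ x ∈ segment ℝ q3 q0 ∨ x ∈ segment ℝ q0 q5 := by
  constructor
  · rintro ⟨a, b, hab, h⟩
    rcases (G3_adj a b).1 hab with ⟨rfl, rfl⟩ | ⟨rfl, rfl⟩ | ⟨rfl, rfl⟩ | ⟨rfl, rfl⟩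
    · exact Or.inl (h)
    · exact Or.inl (sw h)
    · exact Or.inr (h)
    · exact Or.inr (sw h)
  · rintro (h | h)
    · exact ⟨(0 : Fin 3), (1 : Fin 3), (by decide : G3.Adj 0 1), h⟩
    · exact ⟨(1 : Fin 3), (2 : Fin 3), (by decide : G3.Adj 1 2), h⟩

theorem leaf2 (x : ℝ × ℝ) : x ∈ T2.leaves ↔ x = q3 ∨ x = q5 := by
  have key : ∀ v : Fin 3, (∃! w, G3.Adj v w) ↔ v = 0 ∨ v = 2 := by
    simp only [ExistsUnique]; decide
  constructor
  · rintro ⟨v, rfl, h⟩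
    rcases (key v).1 h with rfl | rfl
    · exact Or.inl (rfl)
    · exact Or.inr (rfl)
  · rintro (rfl | rfl)
    · exact ⟨(0 : Fin 3), rfl, (key 0).2 (by decide)⟩
    · exact ⟨(2 : Fin 3), rfl, (key 2).2 (by decide)⟩

theorem inn2 (x : ℝ × ℝ) (hx : x = q0 ∨ x = q1 ∨ x = q2 ∨ x = q3 ∨ x = q4 ∨ x = q5) :
    x ∉ T2.inner := by
  rintro ⟨a, b, hab, s, t, hs, ht, hst, h⟩
  have e1 := congrArg Prod.fst h
  have e2 := congrArg Prod.snd h
  rcases (G3_adj a b).1 hab with ⟨rfl, rfl⟩ | ⟨rfl, rfl⟩ | ⟨rfl, rfl⟩ | ⟨rfl, rfl⟩ <;>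
  rcases hx with rfl | rfl | rfl | rfl | rfl | rfl <;>
  simp [T2, q0, q1, q2, q3, q4, q5, qc, qd] at e1 e2 <;> first | linarith | (rcases e1 with e1 | e1 <;> linarith)

def T3 : SegTree where
  k := 2
  G := G2
  pos := ![q1, q0]
  isTree := G2_tree
  hasEdge := ⟨0, 1, by decide⟩
  inj := by
    intro a b h
    fin_cases a <;> fin_cases b <;> first | rfl | (exfalso; simp [q0, q1, q2, q3, q4, q5, qc, qd] at h; done) | (exfalso; norm_num [q0, q1, q2, q3, q4, q5, qc, qd] at h)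
  simple := by
    intro a b c d hab hcd hne x h1 h2
    rcases (G2_adj a b).1 hab with ⟨rfl, rfl⟩ | ⟨rfl, rfl⟩ <;>
    rcases (G2_adj c d).1 hcd with ⟨rfl, rfl⟩ | ⟨rfl, rfl⟩
    · exact absurd (by decide) hne
    · exact absurd (by decide) hne
    · exact absurd (by decide) hne
    · exact absurd (by decide) hne

theorem car3 (x : ℝ × ℝ) : x ∈ T3.carrier ↔ x ∈ segment ℝ q1 q0 := by
  constructor
  · rintro ⟨a, b, hab, h⟩
    rcases (G2_adj a b).1 hab with ⟨rfl, rfl⟩ | ⟨rfl, rfl⟩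
    · exact h
    · exact sw h
  · rintro (h)
    · exact ⟨(0 : Fin 2), (1 : Fin 2), (by decide : G2.Adj 0 1), h⟩

theorem leaf3 (x : ℝ × ℝ) : x ∈ T3.leaves ↔ x = q1 ∨ x = q0 := by
  have key : ∀ v : Fin 2, (∃! w, G2.Adj v w) ↔ v = 0 ∨ v = 1 := by
    simp only [ExistsUnique]; decide
  constructor
  · rintro ⟨v, rfl, h⟩
    rcases (key v).1 h with rfl | rfl
    · exact Or.inl (rfl)
    · exact Or.inr (rfl)
  · rintro (rfl | rfl)
    · exact ⟨(0 : Fin 2), rfl, (key 0).2 (by decide)⟩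
    · exact ⟨(1 : Fin 2), rfl, (key 1).2 (by decide)⟩

theorem inn3 (x : ℝ × ℝ) (hx : x = q0 ∨ x = q1 ∨ x = q2 ∨ x = q3 ∨ x = q4 ∨ x = q5) :
    x ∉ T3.inner := by
  rintro ⟨a, b, hab, s, t, hs, ht, hst, h⟩
  have e1 := congrArg Prod.fst h
  have e2 := congrArg Prod.snd h
  rcases (G2_adj a b).1 hab with ⟨rfl, rfl⟩ | ⟨rfl, rfl⟩ <;>
  rcases hx with rfl | rfl | rfl | rfl | rfl | rfl <;>
  simp [T3, q0, q1, q2, q3, q4, q5, qc, qd] at e1 e2 <;> first | linarith | (rcases e1 with e1 | e1 <;> linarith)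

def T4 : SegTree where
  k := 2
  G := G2
  pos := ![q3, q2]
  isTree := G2_tree
  hasEdge := ⟨0, 1, by decide⟩
  inj := by
    intro a b h
    fin_cases a <;> fin_cases b <;> first | rfl | (exfalso; simp [q0, q1, q2, q3, q4, q5, qc, qd] at h; done) | (exfalso; norm_num [q0, q1, q2, q3, q4, q5, qc, qd] at h)
  simple := by
    intro a b c d hab hcd hne x h1 h2
    rcases (G2_adj a b).1 hab with ⟨rfl, rfl⟩ | ⟨rfl, rfl⟩ <;>
    rcases (G2_adj c d).1 hcd with ⟨rfl, rfl⟩ | ⟨rfl, rfl⟩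
    · exact absurd (by decide) hne
    · exact absurd (by decide) hne
    · exact absurd (by decide) hne
    · exact absurd (by decide) hne

theorem car4 (x : ℝ × ℝ) : x ∈ T4.carrier ↔ x ∈ segment ℝ q3 q2 := by
  constructor
  · rintro ⟨a, b, hab, h⟩
    rcases (G2_adj a b).1 hab with ⟨rfl, rfl⟩ | ⟨rfl, rfl⟩
    · exact h
    · exact sw h
  · rintro (h)
    · exact ⟨(0 : Fin 2), (1 : Fin 2), (by decide : G2.Adj 0 1), h⟩

theorem leaf4 (x : ℝ × ℝ) : x ∈ T4.leaves ↔ x = q3 ∨ x = q2 := by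
  have key : ∀ v : Fin 2, (∃! w, G2.Adj v w) ↔ v = 0 ∨ v = 1 := by
    simp only [ExistsUnique]; decide
  constructor
  · rintro ⟨v, rfl, h⟩
    rcases (key v).1 h with rfl | rfl
    · exact Or.inl (rfl)
    · exact Or.inr (rfl)
  · rintro (rfl | rfl)
    · exact ⟨(0 : Fin 2), rfl, (key 0).2 (by decide)⟩
    · exact ⟨(1 : Fin 2), rfl, (key 1).2 (by decide)⟩

theorem inn4 (x : ℝ × ℝ) (hx : x = q0 ∨ x = q1 ∨ x = q2 ∨ x = q3 ∨ x = q4 ∨ x = q5) :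
    x ∉ T4.inner := by
  rintro ⟨a, b, hab, s, t, hs, ht, hst, h⟩
  have e1 := congrArg Prod.fst h
  have e2 := congrArg Prod.snd h
  rcases (G2_adj a b).1 hab with ⟨rfl, rfl⟩ | ⟨rfl, rfl⟩ <;>
  rcases hx with rfl | rfl | rfl | rfl | rfl | rfl <;>
  simp [T4, q0, q1, q2, q3, q4, q5, qc, qd] at e1 e2 <;> first | linarith | (rcases e1 with e1 | e1 <;> linarith)

def T5 : SegTree where
  k := 2
  G := G2
  pos := ![q5, q4]
  isTree := G2_tree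
  hasEdge := ⟨0, 1, by decide⟩
  inj := by
    intro a b h
    fin_cases a <;> fin_cases b <;> first | rfl | (exfalso; simp [q0, q1, q2, q3, q4, q5, qc, qd] at h; done) | (exfalso; norm_num [q0, q1, q2, q3, q4, q5, qc, qd] at h)
  simple := by
    intro a b c d hab hcd hne x h1 h2
    rcases (G2_adj a b).1 hab with ⟨rfl, rfl⟩ | ⟨rfl, rfl⟩ <;>
    rcases (G2_adj c d).1 hcd with ⟨rfl, rfl⟩ | ⟨rfl, rfl⟩
    · exact absurd (by decide) hne
    · exact absurd (by decide) hne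
    · exact absurd (by decide) hne
    · exact absurd (by decide) hne

theorem car5 (x : ℝ × ℝ) : x ∈ T5.carrier ↔ x ∈ segment ℝ q5 q4 := by
  constructor
  · rintro ⟨a, b, hab, h⟩
    rcases (G2_adj a b).1 hab with ⟨rfl, rfl⟩ | ⟨rfl, rfl⟩
    · exact h
    · exact sw h
  · rintro (h)
    · exact ⟨(0 : Fin 2), (1 : Fin 2), (by decide : G2.Adj 0 1), h⟩

theorem leaf5 (x : ℝ × ℝ) : x ∈ T5.leaves ↔ x = q5 ∨ x = q4 := by
  have key : ∀ v : Fin 2, (∃! w, G2.Adj v w) ↔ v = 0 ∨ v = 1 := by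
    simp only [ExistsUnique]; decide
  constructor
  · rintro ⟨v, rfl, h⟩
    rcases (key v).1 h with rfl | rfl
    · exact Or.inl (rfl)
    · exact Or.inr (rfl)
  · rintro (rfl | rfl)
    · exact ⟨(0 : Fin 2), rfl, (key 0).2 (by decide)⟩
    · exact ⟨(1 : Fin 2), rfl, (key 1).2 (by decide)⟩

theorem inn5 (x : ℝ × ℝ) (hx : x = q0 ∨ x = q1 ∨ x = q2 ∨ x = q3 ∨ x = q4 ∨ x = q5) :
    x ∉ T5.inner := by
  rintro ⟨a, b, hab, s, t, hs, ht, hst, h⟩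
  have e1 := congrArg Prod.fst h
  have e2 := congrArg Prod.snd h
  rcases (G2_adj a b).1 hab with ⟨rfl, rfl⟩ | ⟨rfl, rfl⟩ <;>
  rcases hx with rfl | rfl | rfl | rfl | rfl | rfl <;>
  simp [T5, q0, q1, q2, q3, q4, q5, qc, qd] at e1 e2 <;> first | linarith | (rcases e1 with e1 | e1 <;> linarith)

def T6 : SegTree where
  k := 5
  G := G5
  pos := ![qc, q2, q4, qd, q0]
  isTree := G5_tree
  hasEdge := ⟨0, 1, by decide⟩
  inj := by
    intro a b h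
    fin_cases a <;> fin_cases b <;> first | rfl | (exfalso; simp [q0, q1, q2, q3, q4, q5, qc, qd] at h; done) | (exfalso; norm_num [q0, q1, q2, q3, q4, q5, qc, qd] at h)
  simple := by
    intro a b c d hab hcd hne x h1 h2
    rcases (G5_adj a b).1 hab with ⟨rfl, rfl⟩ | ⟨rfl, rfl⟩ | ⟨rfl, rfl⟩ | ⟨rfl, rfl⟩ | ⟨rfl, rfl⟩ | ⟨rfl, rfl⟩ | ⟨rfl, rfl⟩ | ⟨rfl, rfl⟩ <;>
    rcases (G5_adj c d).1 hcd with ⟨rfl, rfl⟩ | ⟨rfl, rfl⟩ | ⟨rfl, rfl⟩ | ⟨rfl, rfl⟩ | ⟨rfl, rfl⟩ | ⟨rfl, rfl⟩ | ⟨rfl, rfl⟩ | ⟨rfl, rfl⟩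
    · exact absurd (by decide) hne
    · exact absurd (by decide) hne
    · exact ⟨0, m9_10 x h1 h2, by decide, by decide⟩
    · exact ⟨0, m9_10 x h1 (sw h2), by decide, by decide⟩
    · exact ⟨0, m9_11 x h1 h2, by decide, by decide⟩
    · exact ⟨0, m9_11 x h1 (sw h2), by decide, by decide⟩
    · exact (m9_12 x h1 h2).elim
    · exact (m9_12 x h1 (sw h2)).elim
    · exact absurd (by decide) hne
    · exact absurd (by decide) hne
    · exact ⟨0, m9_10 x (sw h1) h2, by decide, by decide⟩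
    · exact ⟨0, m9_10 x (sw h1) (sw h2), by decide, by decide⟩
    · exact ⟨0, m9_11 x (sw h1) h2, by decide, by decide⟩
    · exact ⟨0, m9_11 x (sw h1) (sw h2), by decide, by decide⟩
    · exact (m9_12 x (sw h1) h2).elim
    · exact (m9_12 x (sw h1) (sw h2)).elim
    · exact ⟨0, m9_10 x h2 h1, by decide, by decide⟩
    · exact ⟨0, m9_10 x (sw h2) h1, by decide, by decide⟩
    · exact absurd (by decide) hne
    · exact absurd (by decide) hne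
    · exact ⟨0, m10_11 x h1 h2, by decide, by decide⟩
    · exact ⟨0, m10_11 x h1 (sw h2), by decide, by decide⟩
    · exact (m10_12 x h1 h2).elim
    · exact (m10_12 x h1 (sw h2)).elim
    · exact ⟨0, m9_10 x h2 (sw h1), by decide, by decide⟩
    · exact ⟨0, m9_10 x (sw h2) (sw h1), by decide, by decide⟩
    · exact absurd (by decide) hne
    · exact absurd (by decide) hne
    · exact ⟨0, m10_11 x (sw h1) h2, by decide, by decide⟩
    · exact ⟨0, m10_11 x (sw h1) (sw h2), by decide, by decide⟩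
    · exact (m10_12 x (sw h1) h2).elim
    · exact (m10_12 x (sw h1) (sw h2)).elim
    · exact ⟨0, m9_11 x h2 h1, by decide, by decide⟩
    · exact ⟨0, m9_11 x (sw h2) h1, by decide, by decide⟩
    · exact ⟨0, m10_11 x h2 h1, by decide, by decide⟩
    · exact ⟨0, m10_11 x (sw h2) h1, by decide, by decide⟩
    · exact absurd (by decide) hne
    · exact absurd (by decide) hne
    · exact ⟨3, m11_12 x h1 h2, by decide, by decide⟩
    · exact ⟨3, m11_12 x h1 (sw h2), by decide, by decide⟩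
    · exact ⟨0, m9_11 x h2 (sw h1), by decide, by decide⟩
    · exact ⟨0, m9_11 x (sw h2) (sw h1), by decide, by decide⟩
    · exact ⟨0, m10_11 x h2 (sw h1), by decide, by decide⟩
    · exact ⟨0, m10_11 x (sw h2) (sw h1), by decide, by decide⟩
    · exact absurd (by decide) hne
    · exact absurd (by decide) hne
    · exact ⟨3, m11_12 x (sw h1) h2, by decide, by decide⟩
    · exact ⟨3, m11_12 x (sw h1) (sw h2), by decide, by decide⟩
    · exact (m9_12 x h2 h1).elim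
    · exact (m9_12 x (sw h2) h1).elim
    · exact (m10_12 x h2 h1).elim
    · exact (m10_12 x (sw h2) h1).elim
    · exact ⟨3, m11_12 x h2 h1, by decide, by decide⟩
    · exact ⟨3, m11_12 x (sw h2) h1, by decide, by decide⟩
    · exact absurd (by decide) hne
    · exact absurd (by decide) hne
    · exact (m9_12 x h2 (sw h1)).elim
    · exact (m9_12 x (sw h2) (sw h1)).elim
    · exact (m10_12 x h2 (sw h1)).elim
    · exact (m10_12 x (sw h2) (sw h1)).elim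
    · exact ⟨3, m11_12 x h2 (sw h1), by decide, by decide⟩
    · exact ⟨3, m11_12 x (sw h2) (sw h1), by decide, by decide⟩
    · exact absurd (by decide) hne
    · exact absurd (by decide) hne

theorem car6 (x : ℝ × ℝ) : x ∈ T6.carrier ↔ x ∈ segment ℝ qc q2 ∨ x ∈ segment ℝ qc q4 ∨ x ∈ segment ℝ qc qd ∨ x ∈ segment ℝ qd q0 := by
  constructor
  · rintro ⟨a, b, hab, h⟩
    rcases (G5_adj a b).1 hab with ⟨rfl, rfl⟩ | ⟨rfl, rfl⟩ | ⟨rfl, rfl⟩ | ⟨rfl, rfl⟩ | ⟨rfl, rfl⟩ | ⟨rfl, rfl⟩ | ⟨rfl, rfl⟩ | ⟨rfl, rfl⟩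
    · exact Or.inl (h)
    · exact Or.inl (sw h)
    · exact Or.inr (Or.inl (h))
    · exact Or.inr (Or.inl (sw h))
    · exact Or.inr (Or.inr (Or.inl (h)))
    · exact Or.inr (Or.inr (Or.inl (sw h)))
    · exact Or.inr (Or.inr (Or.inr (h)))
    · exact Or.inr (Or.inr (Or.inr (sw h)))
  · rintro (h | h | h | h)
    · exact ⟨(0 : Fin 5), (1 : Fin 5), (by decide : G5.Adj 0 1), h⟩
    · exact ⟨(0 : Fin 5), (2 : Fin 5), (by decide : G5.Adj 0 2), h⟩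
    · exact ⟨(0 : Fin 5), (3 : Fin 5), (by decide : G5.Adj 0 3), h⟩
    · exact ⟨(3 : Fin 5), (4 : Fin 5), (by decide : G5.Adj 3 4), h⟩

theorem leaf6 (x : ℝ × ℝ) : x ∈ T6.leaves ↔ x = q2 ∨ x = q4 ∨ x = q0 := by
  have key : ∀ v : Fin 5, (∃! w, G5.Adj v w) ↔ v = 1 ∨ v = 2 ∨ v = 4 := by
    simp only [ExistsUnique]; decide
  constructor
  · rintro ⟨v, rfl, h⟩
    rcases (key v).1 h with rfl | rfl | rfl
    · exact Or.inl (rfl)
    · exact Or.inr (Or.inl (rfl))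
    · exact Or.inr (Or.inr (rfl))
  · rintro (rfl | rfl | rfl)
    · exact ⟨(1 : Fin 5), rfl, (key 1).2 (by decide)⟩
    · exact ⟨(2 : Fin 5), rfl, (key 2).2 (by decide)⟩
    · exact ⟨(4 : Fin 5), rfl, (key 4).2 (by decide)⟩

theorem inn6 (x : ℝ × ℝ) (hx : x = q0 ∨ x = q1 ∨ x = q2 ∨ x = q3 ∨ x = q4 ∨ x = q5) :
    x ∉ T6.inner := by
  rintro ⟨a, b, hab, s, t, hs, ht, hst, h⟩
  have e1 := congrArg Prod.fst h
  have e2 := congrArg Prod.snd h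
  rcases (G5_adj a b).1 hab with ⟨rfl, rfl⟩ | ⟨rfl, rfl⟩ | ⟨rfl, rfl⟩ | ⟨rfl, rfl⟩ | ⟨rfl, rfl⟩ | ⟨rfl, rfl⟩ | ⟨rfl, rfl⟩ | ⟨rfl, rfl⟩ <;>
  rcases hx with rfl | rfl | rfl | rfl | rfl | rfl <;>
  simp [T6, q0, q1, q2, q3, q4, q5, qc, qd] at e1 e2 <;> first | linarith | (rcases e1 with e1 | e1 <;> linarith)

theorem pr0_1 : ∃ y, T0.carrier ∩ T1.carrier = {y} ∧
    (y ∈ T0.leaves ∨ y ∈ T1.leaves ∨ (y ∈ T0.inner ∧ y ∈ T1.inner)) := by
  refine ⟨((0 : ℝ), (0 : ℝ)), ?_, ?_⟩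
  · ext x
    rw [Set.mem_inter_iff, car0, car1, Set.mem_singleton_iff]
    constructor
    · rintro ⟨h1 | h1, h2 | h2⟩
      · exact m0_2 x h1 h2
      · exact (m0_3 x h1 h2).elim
      · exact (m1_2 x h1 h2).elim
      · exact (m1_3 x h1 h2).elim
    · rintro rfl
      exact ⟨Or.inl (⟨(1 : ℝ), (0 : ℝ), by norm_num, by norm_num, by norm_num, by refine Prod.ext ?_ ?_ <;> simp [q0, q1, q2, q3, q4, q5, qc, qd] <;> norm_num⟩), Or.inl (⟨(1 : ℝ), (0 : ℝ), by norm_num, by norm_num, by norm_num, by refine Prod.ext ?_ ?_ <;> simp [q0, q1, q2, q3, q4, q5, qc, qd] <;> norm_num⟩)⟩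
  · exact Or.inl ((leaf0 _).2 (Or.inl (rfl)))

theorem pr0_2 : ∃ y, T0.carrier ∩ T2.carrier = {y} ∧
    (y ∈ T0.leaves ∨ y ∈ T2.leaves ∨ (y ∈ T0.inner ∧ y ∈ T2.inner)) := by
  refine ⟨((12 : ℝ), (0 : ℝ)), ?_, ?_⟩
  · ext x
    rw [Set.mem_inter_iff, car0, car2, Set.mem_singleton_iff]
    constructor
    · rintro ⟨h1 | h1, h2 | h2⟩
      · exact (m0_4 x h1 h2).elim
      · exact (m0_5 x h1 h2).elim
      · exact m1_4 x h1 h2
      · exact (m1_5 x h1 h2).elim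
    · rintro rfl
      exact ⟨Or.inr (⟨(0 : ℝ), (1 : ℝ), by norm_num, by norm_num, by norm_num, by refine Prod.ext ?_ ?_ <;> simp [q0, q1, q2, q3, q4, q5, qc, qd] <;> norm_num⟩), Or.inl (⟨(1 : ℝ), (0 : ℝ), by norm_num, by norm_num, by norm_num, by refine Prod.ext ?_ ?_ <;> simp [q0, q1, q2, q3, q4, q5, qc, qd] <;> norm_num⟩)⟩
  · exact Or.inl ((leaf0 _).2 (Or.inr (rfl)))

theorem pr0_3 : ∃ y, T0.carrier ∩ T3.carrier = {y} ∧
    (y ∈ T0.leaves ∨ y ∈ T3.leaves ∨ (y ∈ T0.inner ∧ y ∈ T3.inner)) := by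
  refine ⟨((0 : ℝ), (0 : ℝ)), ?_, ?_⟩
  · ext x
    rw [Set.mem_inter_iff, car0, car3, Set.mem_singleton_iff]
    constructor
    · rintro ⟨h1 | h1, h2⟩
      · exact m0_6 x h1 h2
      · exact (m1_6 x h1 h2).elim
    · rintro rfl
      exact ⟨Or.inl (⟨(1 : ℝ), (0 : ℝ), by norm_num, by norm_num, by norm_num, by refine Prod.ext ?_ ?_ <;> simp [q0, q1, q2, q3, q4, q5, qc, qd] <;> norm_num⟩), ⟨(1 : ℝ), (0 : ℝ), by norm_num, by norm_num, by norm_num, by refine Prod.ext ?_ ?_ <;> simp [q0, q1, q2, q3, q4, q5, qc, qd] <;> norm_num⟩⟩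
  · exact Or.inl ((leaf0 _).2 (Or.inl (rfl)))

theorem pr0_4 : ∃ y, T0.carrier ∩ T4.carrier = {y} ∧
    (y ∈ T0.leaves ∨ y ∈ T4.leaves ∨ (y ∈ T0.inner ∧ y ∈ T4.inner)) := by
  refine ⟨((12 : ℝ), (0 : ℝ)), ?_, ?_⟩
  · ext x
    rw [Set.mem_inter_iff, car0, car4, Set.mem_singleton_iff]
    constructor
    · rintro ⟨h1 | h1, h2⟩
      · exact (m0_7 x h1 h2).elim
      · exact m1_7 x h1 h2
    · rintro rfl
      exact ⟨Or.inr (⟨(0 : ℝ), (1 : ℝ), by norm_num, by norm_num, by norm_num, by refine Prod.ext ?_ ?_ <;> simp [q0, q1, q2, q3, q4, q5, qc, qd] <;> norm_num⟩), ⟨(1 : ℝ), (0 : ℝ), by norm_num, by norm_num, by norm_num, by refine Prod.ext ?_ ?_ <;> simp [q0, q1, q2, q3, q4, q5, qc, qd] <;> norm_num⟩⟩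
  · exact Or.inl ((leaf0 _).2 (Or.inr (rfl)))

theorem pr0_5 : ∃ y, T0.carrier ∩ T5.carrier = {y} ∧
    (y ∈ T0.leaves ∨ y ∈ T5.leaves ∨ (y ∈ T0.inner ∧ y ∈ T5.inner)) := by
  refine ⟨((6 : ℝ), (-1 : ℝ)), ?_, ?_⟩
  · ext x
    rw [Set.mem_inter_iff, car0, car5, Set.mem_singleton_iff]
    constructor
    · rintro ⟨h1 | h1, h2⟩
      · exact m0_8 x h1 h2
      · exact m1_8 x h1 h2
    · rintro rfl
      exact ⟨Or.inr (⟨(1 : ℝ), (0 : ℝ), by norm_num, by norm_num, by norm_num, by refine Prod.ext ?_ ?_ <;> simp [q0, q1, q2, q3, q4, q5, qc, qd] <;> norm_num⟩), ⟨(0 : ℝ), (1 : ℝ), by norm_num, by norm_num, by norm_num, by refine Prod.ext ?_ ?_ <;> simp [q0, q1, q2, q3, q4, q5, qc, qd] <;> norm_num⟩⟩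
  · exact Or.inr (Or.inl ((leaf5 _).2 (Or.inr (rfl))))

theorem pr0_6 : ∃ y, T0.carrier ∩ T6.carrier = {y} ∧
    (y ∈ T0.leaves ∨ y ∈ T6.leaves ∨ (y ∈ T0.inner ∧ y ∈ T6.inner)) := by
  refine ⟨((6 : ℝ), (-1 : ℝ)), ?_, ?_⟩
  · ext x
    rw [Set.mem_inter_iff, car0, car6, Set.mem_singleton_iff]
    constructor
    · rintro ⟨h1 | h1, h2 | h2 | h2 | h2⟩
      · exact (m0_9 x h1 h2).elim
      · exact m0_10 x h1 h2
      · exact (m0_11 x h1 h2).elim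
      · exact (m0_12 x h1 h2).elim
      · exact (m1_9 x h1 h2).elim
      · exact m1_10 x h1 h2
      · exact (m1_11 x h1 h2).elim
      · exact (m1_12 x h1 h2).elim
    · rintro rfl
      exact ⟨Or.inr (⟨(1 : ℝ), (0 : ℝ), by norm_num, by norm_num, by norm_num, by refine Prod.ext ?_ ?_ <;> simp [q0, q1, q2, q3, q4, q5, qc, qd] <;> norm_num⟩), Or.inr (Or.inl (⟨(0 : ℝ), (1 : ℝ), by norm_num, by norm_num, by norm_num, by refine Prod.ext ?_ ?_ <;> simp [q0, q1, q2, q3, q4, q5, qc, qd] <;> norm_num⟩))⟩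
  · exact Or.inr (Or.inl ((leaf6 _).2 (Or.inr (Or.inl (rfl)))))

theorem pr1_2 : ∃ y, T1.carrier ∩ T2.carrier = {y} ∧
    (y ∈ T1.leaves ∨ y ∈ T2.leaves ∨ (y ∈ T1.inner ∧ y ∈ T2.inner)) := by
  refine ⟨((6 : ℝ), (12 : ℝ)), ?_, ?_⟩
  · ext x
    rw [Set.mem_inter_iff, car1, car2, Set.mem_singleton_iff]
    constructor
    · rintro ⟨h1 | h1, h2 | h2⟩
      · exact (m2_4 x h1 h2).elim
      · exact (m2_5 x h1 h2).elim
      · exact (m3_4 x h1 h2).elim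
      · exact m3_5 x h1 h2
    · rintro rfl
      exact ⟨Or.inr (⟨(0 : ℝ), (1 : ℝ), by norm_num, by norm_num, by norm_num, by refine Prod.ext ?_ ?_ <;> simp [q0, q1, q2, q3, q4, q5, qc, qd] <;> norm_num⟩), Or.inr (⟨(0 : ℝ), (1 : ℝ), by norm_num, by norm_num, by norm_num, by refine Prod.ext ?_ ?_ <;> simp [q0, q1, q2, q3, q4, q5, qc, qd] <;> norm_num⟩)⟩
  · exact Or.inl ((leaf1 _).2 (Or.inr (rfl)))

theorem pr1_3 : ∃ y, T1.carrier ∩ T3.carrier = {y} ∧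
    (y ∈ T1.leaves ∨ y ∈ T3.leaves ∨ (y ∈ T1.inner ∧ y ∈ T3.inner)) := by
  refine ⟨((0 : ℝ), (0 : ℝ)), ?_, ?_⟩
  · ext x
    rw [Set.mem_inter_iff, car1, car3, Set.mem_singleton_iff]
    constructor
    · rintro ⟨h1 | h1, h2⟩
      · exact m2_6 x h1 h2
      · exact (m3_6 x h1 h2).elim
    · rintro rfl
      exact ⟨Or.inl (⟨(1 : ℝ), (0 : ℝ), by norm_num, by norm_num, by norm_num, by refine Prod.ext ?_ ?_ <;> simp [q0, q1, q2, q3, q4, q5, qc, qd] <;> norm_num⟩), ⟨(1 : ℝ), (0 : ℝ), by norm_num, by norm_num, by norm_num, by refine Prod.ext ?_ ?_ <;> simp [q0, q1, q2, q3, q4, q5, qc, qd] <;> norm_num⟩⟩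
  · exact Or.inl ((leaf1 _).2 (Or.inl (rfl)))

theorem pr1_4 : ∃ y, T1.carrier ∩ T4.carrier = {y} ∧
    (y ∈ T1.leaves ∨ y ∈ T4.leaves ∨ (y ∈ T1.inner ∧ y ∈ T4.inner)) := by
  refine ⟨((2 : ℝ), (6 : ℝ)), ?_, ?_⟩
  · ext x
    rw [Set.mem_inter_iff, car1, car4, Set.mem_singleton_iff]
    constructor
    · rintro ⟨h1 | h1, h2⟩
      · exact m2_7 x h1 h2
      · exact m3_7 x h1 h2
    · rintro rfl
      exact ⟨Or.inr (⟨(1 : ℝ), (0 : ℝ), by norm_num, by norm_num, by norm_num, by refine Prod.ext ?_ ?_ <;> simp [q0, q1, q2, q3, q4, q5, qc, qd] <;> norm_num⟩), ⟨(0 : ℝ), (1 : ℝ), by norm_num, by norm_num, by norm_num, by refine Prod.ext ?_ ?_ <;> simp [q0, q1, q2, q3, q4, q5, qc, qd] <;> norm_num⟩⟩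
  · exact Or.inr (Or.inl ((leaf4 _).2 (Or.inr (rfl))))

theorem pr1_5 : ∃ y, T1.carrier ∩ T5.carrier = {y} ∧
    (y ∈ T1.leaves ∨ y ∈ T5.leaves ∨ (y ∈ T1.inner ∧ y ∈ T5.inner)) := by
  refine ⟨((6 : ℝ), (12 : ℝ)), ?_, ?_⟩
  · ext x
    rw [Set.mem_inter_iff, car1, car5, Set.mem_singleton_iff]
    constructor
    · rintro ⟨h1 | h1, h2⟩
      · exact (m2_8 x h1 h2).elim
      · exact m3_8 x h1 h2
    · rintro rfl
      exact ⟨Or.inr (⟨(0 : ℝ), (1 : ℝ), by norm_num, by norm_num, by norm_num, by refine Prod.ext ?_ ?_ <;> simp [q0, q1, q2, q3, q4, q5, qc, qd] <;> norm_num⟩), ⟨(1 : ℝ), (0 : ℝ), by norm_num, by norm_num, by norm_num, by refine Prod.ext ?_ ?_ <;> simp [q0, q1, q2, q3, q4, q5, qc, qd] <;> norm_num⟩⟩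
  · exact Or.inl ((leaf1 _).2 (Or.inr (rfl)))

theorem pr1_6 : ∃ y, T1.carrier ∩ T6.carrier = {y} ∧
    (y ∈ T1.leaves ∨ y ∈ T6.leaves ∨ (y ∈ T1.inner ∧ y ∈ T6.inner)) := by
  refine ⟨((2 : ℝ), (6 : ℝ)), ?_, ?_⟩
  · ext x
    rw [Set.mem_inter_iff, car1, car6, Set.mem_singleton_iff]
    constructor
    · rintro ⟨h1 | h1, h2 | h2 | h2 | h2⟩
      · exact m2_9 x h1 h2
      · exact (m2_10 x h1 h2).elim
      · exact (m2_11 x h1 h2).elim
      · exact (m2_12 x h1 h2).elim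
      · exact m3_9 x h1 h2
      · exact (m3_10 x h1 h2).elim
      · exact (m3_11 x h1 h2).elim
      · exact (m3_12 x h1 h2).elim
    · rintro rfl
      exact ⟨Or.inr (⟨(1 : ℝ), (0 : ℝ), by norm_num, by norm_num, by norm_num, by refine Prod.ext ?_ ?_ <;> simp [q0, q1, q2, q3, q4, q5, qc, qd] <;> norm_num⟩), Or.inl (⟨(0 : ℝ), (1 : ℝ), by norm_num, by norm_num, by norm_num, by refine Prod.ext ?_ ?_ <;> simp [q0, q1, q2, q3, q4, q5, qc, qd] <;> norm_num⟩)⟩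
  · exact Or.inr (Or.inl ((leaf6 _).2 (Or.inl (rfl))))

theorem pr2_3 : ∃ y, T2.carrier ∩ T3.carrier = {y} ∧
    (y ∈ T2.leaves ∨ y ∈ T3.leaves ∨ (y ∈ T2.inner ∧ y ∈ T3.inner)) := by
  refine ⟨((10 : ℝ), (7 : ℝ)), ?_, ?_⟩
  · ext x
    rw [Set.mem_inter_iff, car2, car3, Set.mem_singleton_iff]
    constructor
    · rintro ⟨h1 | h1, h2⟩
      · exact m4_6 x h1 h2
      · exact m5_6 x h1 h2
    · rintro rfl
      exact ⟨Or.inr (⟨(1 : ℝ), (0 : ℝ), by norm_num, by norm_num, by norm_num, by refine Prod.ext ?_ ?_ <;> simp [q0, q1, q2, q3, q4, q5, qc, qd] <;> norm_num⟩), ⟨(0 : ℝ), (1 : ℝ), by norm_num, by norm_num, by norm_num, by refine Prod.ext ?_ ?_ <;> simp [q0, q1, q2, q3, q4, q5, qc, qd] <;> norm_num⟩⟩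
  · exact Or.inr (Or.inl ((leaf3 _).2 (Or.inr (rfl))))

theorem pr2_4 : ∃ y, T2.carrier ∩ T4.carrier = {y} ∧
    (y ∈ T2.leaves ∨ y ∈ T4.leaves ∨ (y ∈ T2.inner ∧ y ∈ T4.inner)) := by
  refine ⟨((12 : ℝ), (0 : ℝ)), ?_, ?_⟩
  · ext x
    rw [Set.mem_inter_iff, car2, car4, Set.mem_singleton_iff]
    constructor
    · rintro ⟨h1 | h1, h2⟩
      · exact m4_7 x h1 h2
      · exact (m5_7 x h1 h2).elim
    · rintro rfl
      exact ⟨Or.inl (⟨(1 : ℝ), (0 : ℝ), by norm_num, by norm_num, by norm_num, by refine Prod.ext ?_ ?_ <;> simp [q0, q1, q2, q3, q4, q5, qc, qd] <;> norm_num⟩), ⟨(1 : ℝ), (0 : ℝ), by norm_num, by norm_num, by norm_num, by refine Prod.ext ?_ ?_ <;> simp [q0, q1, q2, q3, q4, q5, qc, qd] <;> norm_num⟩⟩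
  · exact Or.inl ((leaf2 _).2 (Or.inl (rfl)))

theorem pr2_5 : ∃ y, T2.carrier ∩ T5.carrier = {y} ∧
    (y ∈ T2.leaves ∨ y ∈ T5.leaves ∨ (y ∈ T2.inner ∧ y ∈ T5.inner)) := by
  refine ⟨((6 : ℝ), (12 : ℝ)), ?_, ?_⟩
  · ext x
    rw [Set.mem_inter_iff, car2, car5, Set.mem_singleton_iff]
    constructor
    · rintro ⟨h1 | h1, h2⟩
      · exact (m4_8 x h1 h2).elim
      · exact m5_8 x h1 h2
    · rintro rfl
      exact ⟨Or.inr (⟨(0 : ℝ), (1 : ℝ), by norm_num, by norm_num, by norm_num, by refine Prod.ext ?_ ?_ <;> simp [q0, q1, q2, q3, q4, q5, qc, qd] <;> norm_num⟩), ⟨(1 : ℝ), (0 : ℝ), by norm_num, by norm_num, by norm_num, by refine Prod.ext ?_ ?_ <;> simp [q0, q1, q2, q3, q4, q5, qc, qd] <;> norm_num⟩⟩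
  · exact Or.inl ((leaf2 _).2 (Or.inr (rfl)))

theorem pr2_6 : ∃ y, T2.carrier ∩ T6.carrier = {y} ∧
    (y ∈ T2.leaves ∨ y ∈ T6.leaves ∨ (y ∈ T2.inner ∧ y ∈ T6.inner)) := by
  refine ⟨((10 : ℝ), (7 : ℝ)), ?_, ?_⟩
  · ext x
    rw [Set.mem_inter_iff, car2, car6, Set.mem_singleton_iff]
    constructor
    · rintro ⟨h1 | h1, h2 | h2 | h2 | h2⟩
      · exact (m4_9 x h1 h2).elim
      · exact (m4_10 x h1 h2).elim
      · exact (m4_11 x h1 h2).elim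
      · exact m4_12 x h1 h2
      · exact (m5_9 x h1 h2).elim
      · exact (m5_10 x h1 h2).elim
      · exact (m5_11 x h1 h2).elim
      · exact m5_12 x h1 h2
    · rintro rfl
      exact ⟨Or.inr (⟨(1 : ℝ), (0 : ℝ), by norm_num, by norm_num, by norm_num, by refine Prod.ext ?_ ?_ <;> simp [q0, q1, q2, q3, q4, q5, qc, qd] <;> norm_num⟩), Or.inr (Or.inr (Or.inr (⟨(0 : ℝ), (1 : ℝ), by norm_num, by norm_num, by norm_num, by refine Prod.ext ?_ ?_ <;> simp [q0, q1, q2, q3, q4, q5, qc, qd] <;> norm_num⟩)))⟩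
  · exact Or.inr (Or.inl ((leaf6 _).2 (Or.inr (Or.inr (rfl)))))

theorem pr3_4 : ∃ y, T3.carrier ∩ T4.carrier = {y} ∧
    (y ∈ T3.leaves ∨ y ∈ T4.leaves ∨ (y ∈ T3.inner ∧ y ∈ T4.inner)) := by
  refine ⟨((72 / 13 : ℝ), (252 / 65 : ℝ)), ?_, ?_⟩
  · ext x
    rw [Set.mem_inter_iff, car3, car4, Set.mem_singleton_iff]
    constructor
    · rintro ⟨h1, h2⟩
      · exact m6_7 x h1 h2
    · rintro rfl
      exact ⟨⟨(29 / 65 : ℝ), (36 / 65 : ℝ), by norm_num, by norm_num, by norm_num, by refine Prod.ext ?_ ?_ <;> simp [q0, q1, q2, q3, q4, q5, qc, qd] <;> norm_num⟩, ⟨(23 / 65 : ℝ), (42 / 65 : ℝ), by norm_num, by norm_num, by norm_num, by refine Prod.ext ?_ ?_ <;> simp [q0, q1, q2, q3, q4, q5, qc, qd] <;> norm_num⟩⟩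
  · exact Or.inr (Or.inr ⟨⟨(0 : Fin 2), (1 : Fin 2), (by decide : G2.Adj 0 1), ⟨(29 / 65 : ℝ), (36 / 65 : ℝ), by norm_num, by norm_num, by norm_num, by refine Prod.ext ?_ ?_ <;> simp [T3, q0, q1, q2, q3, q4, q5, qc, qd] <;> norm_num⟩⟩, ⟨(0 : Fin 2), (1 : Fin 2), (by decide : G2.Adj 0 1), ⟨(23 / 65 : ℝ), (42 / 65 : ℝ), by norm_num, by norm_num, by norm_num, by refine Prod.ext ?_ ?_ <;> simp [T4, q0, q1, q2, q3, q4, q5, qc, qd] <;> norm_num⟩⟩⟩)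

theorem pr3_5 : ∃ y, T3.carrier ∩ T5.carrier = {y} ∧
    (y ∈ T3.leaves ∨ y ∈ T5.leaves ∨ (y ∈ T3.inner ∧ y ∈ T5.inner)) := by
  refine ⟨((6 : ℝ), (21 / 5 : ℝ)), ?_, ?_⟩
  · ext x
    rw [Set.mem_inter_iff, car3, car5, Set.mem_singleton_iff]
    constructor
    · rintro ⟨h1, h2⟩
      · exact m6_8 x h1 h2
    · rintro rfl
      exact ⟨⟨(2 / 5 : ℝ), (3 / 5 : ℝ), by norm_num, by norm_num, by norm_num, by refine Prod.ext ?_ ?_ <;> simp [q0, q1, q2, q3, q4, q5, qc, qd] <;> norm_num⟩, ⟨(2 / 5 : ℝ), (3 / 5 : ℝ), by norm_num, by norm_num, by norm_num, by refine Prod.ext ?_ ?_ <;> simp [q0, q1, q2, q3, q4, q5, qc, qd] <;> norm_num⟩⟩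
  · exact Or.inr (Or.inr ⟨⟨(0 : Fin 2), (1 : Fin 2), (by decide : G2.Adj 0 1), ⟨(2 / 5 : ℝ), (3 / 5 : ℝ), by norm_num, by norm_num, by norm_num, by refine Prod.ext ?_ ?_ <;> simp [T3, q0, q1, q2, q3, q4, q5, qc, qd] <;> norm_num⟩⟩, ⟨(0 : Fin 2), (1 : Fin 2), (by decide : G2.Adj 0 1), ⟨(2 / 5 : ℝ), (3 / 5 : ℝ), by norm_num, by norm_num, by norm_num, by refine Prod.ext ?_ ?_ <;> simp [T5, q0, q1, q2, q3, q4, q5, qc, qd] <;> norm_num⟩⟩⟩)

theorem pr3_6 : ∃ y, T3.carrier ∩ T6.carrier = {y} ∧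
    (y ∈ T3.leaves ∨ y ∈ T6.leaves ∨ (y ∈ T3.inner ∧ y ∈ T6.inner)) := by
  refine ⟨((10 : ℝ), (7 : ℝ)), ?_, ?_⟩
  · ext x
    rw [Set.mem_inter_iff, car3, car6, Set.mem_singleton_iff]
    constructor
    · rintro ⟨h1, h2 | h2 | h2 | h2⟩
      · exact (m6_9 x h1 h2).elim
      · exact (m6_10 x h1 h2).elim
      · exact (m6_11 x h1 h2).elim
      · exact m6_12 x h1 h2
    · rintro rfl
      exact ⟨⟨(0 : ℝ), (1 : ℝ), by norm_num, by norm_num, by norm_num, by refine Prod.ext ?_ ?_ <;> simp [q0, q1, q2, q3, q4, q5, qc, qd] <;> norm_num⟩, Or.inr (Or.inr (Or.inr (⟨(0 : ℝ), (1 : ℝ), by norm_num, by norm_num, by norm_num, by refine Prod.ext ?_ ?_ <;> simp [q0, q1, q2, q3, q4, q5, qc, qd] <;> norm_num⟩)))⟩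
  · exact Or.inl ((leaf3 _).2 (Or.inr (rfl)))

theorem pr4_5 : ∃ y, T4.carrier ∩ T5.carrier = {y} ∧
    (y ∈ T4.leaves ∨ y ∈ T5.leaves ∨ (y ∈ T4.inner ∧ y ∈ T5.inner)) := by
  refine ⟨((6 : ℝ), (18 / 5 : ℝ)), ?_, ?_⟩
  · ext x
    rw [Set.mem_inter_iff, car4, car5, Set.mem_singleton_iff]
    constructor
    · rintro ⟨h1, h2⟩
      · exact m7_8 x h1 h2
    · rintro rfl
      exact ⟨⟨(2 / 5 : ℝ), (3 / 5 : ℝ), by norm_num, by norm_num, by norm_num, by refine Prod.ext ?_ ?_ <;> simp [q0, q1, q2, q3, q4, q5, qc, qd] <;> norm_num⟩, ⟨(23 / 65 : ℝ), (42 / 65 : ℝ), by norm_num, by norm_num, by norm_num, by refine Prod.ext ?_ ?_ <;> simp [q0, q1, q2, q3, q4, q5, qc, qd] <;> norm_num⟩⟩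
  · exact Or.inr (Or.inr ⟨⟨(0 : Fin 2), (1 : Fin 2), (by decide : G2.Adj 0 1), ⟨(2 / 5 : ℝ), (3 / 5 : ℝ), by norm_num, by norm_num, by norm_num, by refine Prod.ext ?_ ?_ <;> simp [T4, q0, q1, q2, q3, q4, q5, qc, qd] <;> norm_num⟩⟩, ⟨(0 : Fin 2), (1 : Fin 2), (by decide : G2.Adj 0 1), ⟨(23 / 65 : ℝ), (42 / 65 : ℝ), by norm_num, by norm_num, by norm_num, by refine Prod.ext ?_ ?_ <;> simp [T5, q0, q1, q2, q3, q4, q5, qc, qd] <;> norm_num⟩⟩⟩)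

theorem pr4_6 : ∃ y, T4.carrier ∩ T6.carrier = {y} ∧
    (y ∈ T4.leaves ∨ y ∈ T6.leaves ∨ (y ∈ T4.inner ∧ y ∈ T6.inner)) := by
  refine ⟨((2 : ℝ), (6 : ℝ)), ?_, ?_⟩
  · ext x
    rw [Set.mem_inter_iff, car4, car6, Set.mem_singleton_iff]
    constructor
    · rintro ⟨h1, h2 | h2 | h2 | h2⟩
      · exact m7_9 x h1 h2
      · exact (m7_10 x h1 h2).elim
      · exact (m7_11 x h1 h2).elim
      · exact (m7_12 x h1 h2).elim
    · rintro rfl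
      exact ⟨⟨(0 : ℝ), (1 : ℝ), by norm_num, by norm_num, by norm_num, by refine Prod.ext ?_ ?_ <;> simp [q0, q1, q2, q3, q4, q5, qc, qd] <;> norm_num⟩, Or.inl (⟨(0 : ℝ), (1 : ℝ), by norm_num, by norm_num, by norm_num, by refine Prod.ext ?_ ?_ <;> simp [q0, q1, q2, q3, q4, q5, qc, qd] <;> norm_num⟩)⟩
  · exact Or.inl ((leaf4 _).2 (Or.inr (rfl)))

theorem pr5_6 : ∃ y, T5.carrier ∩ T6.carrier = {y} ∧
    (y ∈ T5.leaves ∨ y ∈ T6.leaves ∨ (y ∈ T5.inner ∧ y ∈ T6.inner)) := by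
  refine ⟨((6 : ℝ), (-1 : ℝ)), ?_, ?_⟩
  · ext x
    rw [Set.mem_inter_iff, car5, car6, Set.mem_singleton_iff]
    constructor
    · rintro ⟨h1, h2 | h2 | h2 | h2⟩
      · exact (m8_9 x h1 h2).elim
      · exact m8_10 x h1 h2
      · exact (m8_11 x h1 h2).elim
      · exact (m8_12 x h1 h2).elim
    · rintro rfl
      exact ⟨⟨(0 : ℝ), (1 : ℝ), by norm_num, by norm_num, by norm_num, by refine Prod.ext ?_ ?_ <;> simp [q0, q1, q2, q3, q4, q5, qc, qd] <;> norm_num⟩, Or.inr (Or.inl (⟨(0 : ℝ), (1 : ℝ), by norm_num, by norm_num, by norm_num, by refine Prod.ext ?_ ?_ <;> simp [q0, q1, q2, q3, q4, q5, qc, qd] <;> norm_num⟩))⟩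
  · exact Or.inl ((leaf5 _).2 (Or.inr (rfl)))

theorem pr_symm {S T : SegTree} (h : ∃ y, S.carrier ∩ T.carrier = {y} ∧
    (y ∈ S.leaves ∨ y ∈ T.leaves ∨ (y ∈ S.inner ∧ y ∈ T.inner))) :
    ∃ y, T.carrier ∩ S.carrier = {y} ∧
    (y ∈ T.leaves ∨ y ∈ S.leaves ∨ (y ∈ T.inner ∧ y ∈ S.inner)) := by
  obtain ⟨y, h1, h2⟩ := h
  exact ⟨y, by rw [Set.inter_comm, h1], by tauto⟩

def TT : Fin 7 → SegTree := ![T0, T1, T2, T3, T4, T5, T6]

theorem main : ∃ (P : Finset (ℝ × ℝ)) (T : Fin 7 → SegTree), P.card = 6 ∧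
    (∀ i, (T i).leaves ⊆ (P : Set (ℝ × ℝ))) ∧
    (∀ i, ∀ p ∈ P, p ∉ (T i).inner) ∧
    ∀ i j, i ≠ j → ∃ y, (T i).carrier ∩ (T j).carrier = {y} ∧
      (y ∈ (T i).leaves ∨ y ∈ (T j).leaves ∨ (y ∈ (T i).inner ∧ y ∈ (T j).inner)) := by
  classical
  refine ⟨{q0, q1, q2, q3, q4, q5}, TT, ?_, ?_, ?_, ?_⟩
  · rw [Finset.card_insert_of_notMem, Finset.card_insert_of_notMem, Finset.card_insert_of_notMem,
      Finset.card_insert_of_notMem, Finset.card_insert_of_notMem, Finset.card_singleton] <;>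
    simp [q0, q1, q2, q3, q4, q5] <;> norm_num
  · intro i x hx
    simp only [Finset.coe_insert, Finset.coe_singleton, Set.mem_insert_iff, Set.mem_singleton_iff]
    fin_cases i
    · have := (leaf0 x).1 hx; tauto
    · have := (leaf1 x).1 hx; tauto
    · have := (leaf2 x).1 hx; tauto
    · have := (leaf3 x).1 hx; tauto
    · have := (leaf4 x).1 hx; tauto
    · have := (leaf5 x).1 hx; tauto
    · have := (leaf6 x).1 hx; tauto
  · intro i p hp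
    simp only [Finset.mem_insert, Finset.mem_singleton] at hp
    fin_cases i
    · exact inn0 p hp
    · exact inn1 p hp
    · exact inn2 p hp
    · exact inn3 p hp
    · exact inn4 p hp
    · exact inn5 p hp
    · exact inn6 p hp
  · intro i j hij
    fin_cases i <;> fin_cases j
    · exact absurd rfl hij
    · exact pr0_1
    · exact pr0_2
    · exact pr0_3
    · exact pr0_4
    · exact pr0_5
    · exact pr0_6
    · exact pr_symm pr0_1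
    · exact absurd rfl hij
    · exact pr1_2
    · exact pr1_3
    · exact pr1_4
    · exact pr1_5
    · exact pr1_6
    · exact pr_symm pr0_2
    · exact pr_symm pr1_2
    · exact absurd rfl hij
    · exact pr2_3
    · exact pr2_4
    · exact pr2_5
    · exact pr2_6
    · exact pr_symm pr0_3
    · exact pr_symm pr1_3
    · exact pr_symm pr2_3
    · exact absurd rfl hij
    · exact pr3_4
    · exact pr3_5
    · exact pr3_6
    · exact pr_symm pr0_4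
    · exact pr_symm pr1_4
    · exact pr_symm pr2_4
    · exact pr_symm pr3_4
    · exact absurd rfl hij
    · exact pr4_5
    · exact pr4_6
    · exact pr_symm pr0_5
    · exact pr_symm pr1_5
    · exact pr_symm pr2_5
    · exact pr_symm pr3_5
    · exact pr_symm pr4_5
    · exact absurd rfl hij
    · exact pr5_6
    · exact pr_symm pr0_6
    · exact pr_symm pr1_6
    · exact pr_symm pr2_6
    · exact pr_symm pr3_6
    · exact pr_symm pr4_6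
    · exact pr_symm pr5_6
    · exact absurd rfl hij

end Pool.Agent.H3.Trees
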