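import Mathlib

set_option autoImplicit false

namespace Pool.Agent.H3.Udec

open Finset

variable {V : Type} [Fintype V] [DecidableEq V]

def Rel (r : ℕ) (E E' : Finset (Sym2 V)) : Prop :=
  E.card = E'.card ∧ ∃ (c : Sym2 V → ℕ) (σ : ℕ → Equiv.Perm V), (∀ e ∈ E, c e < r) ∧
    E.image (fun e => Sym2.map (σ (c e)) e) = E'

def ND (E : Finset (Sym2 V)) : Prop := ∀ x : V, s(x, x) ∉ E

omit [Fintype V] [DecidableEq V] in
lemma ND.mono {E F : Finset (Sym2 V)} (h : ND E) (hF : F ⊆ E) : ND F :=
  fun x hx => h x (hF hx)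

omit [Fintype V] in
lemma rel_mono {r s : ℕ} {E E' : Finset (Sym2 V)} (h : Rel r E E') (hrs : r ≤ s) : Rel s E E' := by
  obtain ⟨h1, c, σ, h2, h3⟩ := h
  exact ⟨h1, c, σ, fun e he => lt_of_lt_of_le (h2 e he) hrs, h3⟩

omit [Fintype V] in
lemma rel_empty (r : ℕ) : Rel r (∅ : Finset (Sym2 V)) ∅ :=
  ⟨rfl, fun _ => 0, fun _ => 1, by simp, by simp⟩

omit [Fintype V] in
lemma rel_add {r s : ℕ} {E E' F F' : Finset (Sym2 V)} (h : Rel r E E') (g : Rel s F F')
    (d : Disjoint E F) (d' : Disjoint E' F') : Rel (r + s) (E ∪ F) (E' ∪ F') := by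
  obtain ⟨h1, c, σ, h2, h3⟩ := h
  obtain ⟨g1, c', σ', g2, g3⟩ := g
  refine ⟨by rw [card_union_of_disjoint d, card_union_of_disjoint d', h1, g1],
    fun e => if e ∈ E then c e else r + c' e, fun i => if i < r then σ i else σ' (i - r), ?_, ?_⟩
  · intro e he
    by_cases hE : e ∈ E
    · have := h2 e hE
      simp only [hE, if_true]; omega
    · have hF : e ∈ F := by simpa [hE] using he
      have := g2 e hF
      simp only [hE, if_false]; omega
  · rw [image_union, ← h3, ← g3]
    congr 1
    · apply image_congr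
      intro e he
      have hE : e ∈ E := he
      simp [hE, h2 e hE]
    · apply image_congr
      intro e he
      have hE : e ∉ E := fun hE => (disjoint_left.1 d hE) he
      simp [hE]

omit [Fintype V] in
lemma rel_one (A : Finset (Sym2 V)) (σ : Equiv.Perm V) : Rel 1 A (A.image (Sym2.map σ)) :=
  ⟨(card_image_of_injective _ (Sym2.map.injective σ.injective)).symm, fun _ => 0, fun _ => σ,
    by simp, rfl⟩

omit [Fintype V] [DecidableEq V] in
lemma ext_perm {α : Type} [Finite α] (f g : α → V) (h : ∀ p q, f p = f q ↔ g p = g q) :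
    ∃ σ : Equiv.Perm V, ∀ p, σ (f p) = g p := by
  classical
  haveI : Finite (Set.range f) := Set.finite_range f
  obtain ⟨σ, hσ⟩ := Equiv.Perm.exists_extending_pair (fun x : Set.range f => (x : V))
    (fun x : Set.range f => g x.2.choose) Subtype.val_injective (by
      intro x y hxy
      have := (h _ _).2 hxy
      rw [x.2.choose_spec, y.2.choose_spec] at this
      exact Subtype.ext this)
  refine ⟨σ, fun p => ?_⟩
  have := hσ ⟨f p, p, rfl⟩
  simp only at this
  rw [this]
  exact (h _ _).1 (Exists.choose_spec (⟨p, rfl⟩ : ∃ q, f q = f p))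

omit [Fintype V] [DecidableEq V] in
lemma edge_perm {x y z w : V} (h : x ≠ y) (h' : z ≠ w) :
    ∃ σ : Equiv.Perm V, Sym2.map σ s(x, y) = s(z, w) := by
  obtain ⟨σ, hσ⟩ := ext_perm (fun b : Bool => cond b x y) (fun b : Bool => cond b z w) (by
    intro p q
    cases p <;> cases q <;> simp [h, h', h.symm, h'.symm])
  refine ⟨σ, ?_⟩
  have h1 := hσ true
  have h2 := hσ false
  simp only [cond_true, cond_false] at h1 h2
  rw [Sym2.map_mk, h1, h2]

omit [Fintype V] in
lemma edge_perm' {E E' : Finset (Sym2 V)} (hE : ND E) (hE' : ND E') {e e' : Sym2 V} (he : e ∈ E)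
    (he' : e' ∈ E') : ∃ σ : Equiv.Perm V, Sym2.map σ e = e' := by
  induction e using Sym2.ind with
  | h x y =>
  induction e' using Sym2.ind with
  | h z w =>
  apply edge_perm
  · rintro rfl; exact hE _ he
  · rintro rfl; exact hE' _ he'

omit [Fintype V] in
lemma rel_card (m : ℕ) : ∀ E E' : Finset (Sym2 V), ND E → ND E' → E.card = m → E'.card = m →
    Rel m E E' := by
  induction m with
  | zero =>
    intro E E' _ _ h h'
    rw [card_eq_zero.1 h, card_eq_zero.1 h']; exact rel_empty 0
  | succ m ih =>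
    intro E E' hE hE' h h'
    obtain ⟨e, he⟩ : E.Nonempty := card_pos.1 (by omega)
    obtain ⟨e', he'⟩ : E'.Nonempty := card_pos.1 (by omega)
    obtain ⟨σ, hσ⟩ := edge_perm' hE hE' he he'
    have h1 := ih (E.erase e) (E'.erase e') (hE.mono (erase_subset _ _))
      (hE'.mono (erase_subset _ _)) (by rw [card_erase_of_mem he]; omega)
      (by rw [card_erase_of_mem he']; omega)
    have h2 := rel_one {e} σ
    rw [image_singleton, hσ] at h2
    have h3 := rel_add h1 h2 (by simp) (by simp)
    rwa [union_comm, union_comm (E'.erase e'), ← insert_eq, ← insert_eq, insert_erase he,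
      insert_erase he'] at h3

lemma card_sym2 : Fintype.card (Sym2 V) ≤ Fintype.card V * Fintype.card V := by
  rw [← Fintype.card_prod]
  exact Fintype.card_le_of_surjective _ Sym2.mk_surjective

lemma fiber {E E' : Finset (Sym2 V)} (hE : ND E) (hE' : ND E') {e e' : Sym2 V} (he : e ∈ E)
    (he' : e' ∈ E') : Fintype.card (Equiv.Perm V) ≤
      (univ.filter (fun σ : Equiv.Perm V => Sym2.map σ e = e')).card *
        (Fintype.card V * Fintype.card V) := by
  have h := card_le_mul_card_image (f := fun σ : Equiv.Perm V => Sym2.map σ e) univ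
    (univ.filter (fun σ : Equiv.Perm V => Sym2.map σ e = e')).card (by
      intro b hb
      obtain ⟨ρ, -, rfl⟩ := mem_image.1 hb
      obtain ⟨τ, hτ⟩ := edge_perm' hE hE' he he'
      apply card_le_card_of_injOn (fun σ => τ * ρ⁻¹ * σ)
      · intro σ hσ
        simp only [coe_filter, mem_univ, true_and, Set.mem_setOf_eq] at hσ ⊢
        have : Sym2.map (⇑(τ * ρ⁻¹ * σ)) e = Sym2.map (⇑(τ * ρ⁻¹)) (Sym2.map σ e) := by
          rw [Sym2.map_map]; rfl
        rw [this, hσ, Sym2.map_map, ← hτ]
        congr 1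
        funext x
        simp
      · intro σ _ σ' _ h
        simpa using h)
  rw [card_univ] at h
  refine h.trans (Nat.mul_le_mul_left _ ?_)
  exact (card_le_univ _).trans card_sym2

lemma avg {E E' : Finset (Sym2 V)} (hE : ND E) (hE' : ND E') : ∃ σ : Equiv.Perm V,
    E.card * E'.card ≤ (E.filter (fun e => Sym2.map σ e ∈ E')).card *
      (Fintype.card V * Fintype.card V) := by
  have key : ∑ _σ : Equiv.Perm V, E.card * E'.card ≤ ∑ σ : Equiv.Perm V,
      (E.filter (fun e => Sym2.map σ e ∈ E')).card * (Fintype.card V * Fintype.card V) := by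
    rw [← sum_mul univ (fun σ : Equiv.Perm V => (E.filter (fun e => Sym2.map σ e ∈ E')).card)]
    have h1 : ∑ σ : Equiv.Perm V, (E.filter (fun e => Sym2.map σ e ∈ E')).card =
        ∑ e ∈ E, ∑ e' ∈ E', (univ.filter (fun σ : Equiv.Perm V => Sym2.map σ e = e')).card := by
      simp only [card_filter]
      rw [sum_comm]
      apply sum_congr rfl
      intro e _
      rw [sum_comm]
      apply sum_congr rfl
      intro σ _
      rw [sum_ite_eq]
    rw [h1, sum_mul]
    simp only [sum_mul]
    calc ∑ _σ : Equiv.Perm V, E.card * E'.card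
        = ∑ _e ∈ E, ∑ _e' ∈ E', Fintype.card (Equiv.Perm V) := by
          simp only [sum_const, card_univ, smul_eq_mul]; ring
      _ ≤ _ := sum_le_sum fun e he => sum_le_sum fun e' he' => fiber hE hE' he he'
  obtain ⟨σ, -, h⟩ := exists_le_of_sum_le univ_nonempty key
  exact ⟨σ, h⟩

lemma greedy (t : ℕ) (E E' : Finset (Sym2 V)) (hE : ND E) (hE' : ND E') (hc : E.card = E'.card) :
    ∃ F ⊆ E, ∃ F' ⊆ E', Rel t F F' ∧ (E \ F).card * t ≤ Fintype.card V * Fintype.card V := by
  induction t with
  | zero => exact ⟨∅, by simp, ∅, by simp, rel_empty 0, by simp⟩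
  | succ t ih =>
    obtain ⟨F, hF, F', hF', hr, hb⟩ := ih
    obtain ⟨σ, hσ⟩ := avg (hE.mono (sdiff_subset (t := F))) (hE'.mono (sdiff_subset (t := F')))
    set A := (E \ F).filter (fun e => Sym2.map σ e ∈ E' \ F') with hA
    have hAs : A ⊆ E \ F := filter_subset _ _
    have hA' : A.image (Sym2.map σ) ⊆ E' \ F' := by
      intro e he
      obtain ⟨x, hx, rfl⟩ := mem_image.1 he
      exact (mem_filter.1 hx).2
    refine ⟨F ∪ A, union_subset hF (hAs.trans sdiff_subset), F' ∪ A.image (Sym2.map σ),
      union_subset hF' (hA'.trans sdiff_subset), rel_add hr (rel_one A σ) ?_ ?_, ?_⟩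
    · exact disjoint_of_subset_right hAs disjoint_sdiff
    · exact disjoint_of_subset_right hA' disjoint_sdiff
    · have e1 : (E' \ F').card = (E \ F).card := by
        rw [card_sdiff_of_subset hF, card_sdiff_of_subset hF', hc, hr.1]
      have e2 : (E \ (F ∪ A)).card + A.card = (E \ F).card := by
        have : E \ (F ∪ A) = (E \ F) \ A := by ext x; simp [not_or, and_assoc]
        rw [this, card_sdiff_of_subset hAs]
        have := card_le_card hAs
        omega
      rw [e1] at hσ
      generalize (E \ (F ∪ A)).card = y at *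
      generalize (E \ F).card = x at *
      generalize A.card = a at *
      generalize Fintype.card V * Fintype.card V = N at *
      subst e2
      by_contra hcon
      push Not at hcon
      have h1 : y * t + a * t ≤ N := by nlinarith
      have h2 : a * t < y := by nlinarith
      have h3 : a * N < a * (y * (t + 1)) ∨ a = 0 := by
        rcases Nat.eq_zero_or_pos a with h | h
        · exact Or.inr h
        · exact Or.inl (Nat.mul_lt_mul_of_pos_left hcon h)
      rcases h3 with h3 | h3
      · nlinarith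
      · subst h3
        have : y = 0 := by nlinarith
        subst this
        simp at hcon

def Gr (a : ℕ) (b : Prop) (Y : Finset (Sym2 V)) : Prop :=
  ∃ x y : Fin a × Fin a → V, Function.Injective y ∧ (∀ p q, x p ≠ y q) ∧
    Y = univ.image (fun p => s(x p, y p)) ∧ ∀ i j j', x (i, j) = x (i, j') ↔ (b ∨ j = j')

omit [Fintype V] [DecidableEq V] in
lemma grid_inj {ι : Type} {x y : ι → V} (hy : Function.Injective y) (hxy : ∀ p q, x p ≠ y q) :
    Function.Injective (fun p => s(x p, y p)) := by
  intro p q h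
  rcases Sym2.eq_iff.1 h with h | h
  · exact hy h.2
  · exact absurd h.1 (hxy _ _)

omit [Fintype V] in
lemma Gr.card {a : ℕ} {b : Prop} {Y : Finset (Sym2 V)} (h : Gr a b Y) : Y.card = a * a := by
  obtain ⟨x, y, hy, hxy, rfl, -⟩ := h
  rw [card_image_of_injective _ (grid_inj hy hxy)]
  simp

omit [Fintype V] in
lemma Gr.rel {a : ℕ} {b : Prop} {Y Y' : Finset (Sym2 V)} (h : Gr a b Y) (h' : Gr a b Y') :
    Rel a Y Y' := by
  classical
  refine ⟨by rw [h.card, h'.card], ?_⟩
  obtain ⟨x, y, hy, hxy, rfl, hb⟩ := h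
  obtain ⟨x', y', hy', hxy', rfl, hb'⟩ := h'
  have hσ : ∀ i : Fin a, ∃ σ : Equiv.Perm V, ∀ p : Fin a ⊕ Fin a,
      σ (Sum.elim (fun j => x (i, j)) (fun j => y (i, j)) p) =
        Sum.elim (fun j => x' (i, j)) (fun j => y' (i, j)) p := by
    intro i
    apply ext_perm
    rintro (j | j) (j' | j')
    · simp only [Sum.elim_inl]; rw [hb, hb']
    · simp [hxy, hxy']
    · simp [(hxy _ _).symm, (hxy' _ _).symm]
    · simp [hy.eq_iff, hy'.eq_iff]
  choose σ hσ using hσ
  have hc : ∀ p : Fin a × Fin a, Function.extend (fun p => s(x p, y p)) (fun p => (p.1 : ℕ)) 0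
      s(x p, y p) = p.1 := fun p => (grid_inj hy hxy).extend_apply _ _ p
  refine ⟨Function.extend (fun p => s(x p, y p)) (fun p => (p.1 : ℕ)) 0,
    fun i => if h : i < a then σ ⟨i, h⟩ else 1, ?_, ?_⟩
  · intro e he
    obtain ⟨p, -, rfl⟩ := mem_image.1 he
    rw [hc]; exact p.1.2
  · rw [image_image]
    apply image_congr
    rintro ⟨i, j⟩ -
    have h1 := hσ i (Sum.inl j)
    have h2 := hσ i (Sum.inr j)
    simp only [Sum.elim_inl, Sum.elim_inr] at h1 h2
    simp only [Function.comp, hc, i.2, dif_pos, Sym2.map_mk, Fin.eta, h1, h2]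

def nb (E : Finset (Sym2 V)) (v : V) : Finset V := univ.filter (fun w => s(v, w) ∈ E)

lemma touch (E : Finset (Sym2 V)) (U : Finset V) (d : ℕ) (hd : ∀ v, (nb E v).card ≤ d) :
    (E.filter (fun e => ∃ v ∈ U, v ∈ e)).card ≤ U.card * d := by
  refine le_trans (card_le_card (t := U.biUnion (fun v => (nb E v).image (fun w => s(v, w)))) ?_)
    (card_biUnion_le_card_mul _ _ _ (fun v _ => card_image_le.trans (hd v)))
  intro e he
  obtain ⟨he, v, hv, hve⟩ := mem_filter.1 he
  refine mem_biUnion.2 ⟨v, hv, mem_image.2 ⟨Sym2.Mem.other hve, ?_, Sym2.other_spec hve⟩⟩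
  simp only [nb, mem_filter, mem_univ, true_and]
  rwa [Sym2.other_spec]

lemma big_deg (E : Finset (Sym2 V)) (d : ℕ) (h : Fintype.card V * d < E.card) :
    ∃ v, d ≤ (nb E v).card := by
  by_contra hcon
  push Not at hcon
  have := touch E univ d (fun v => (hcon v).le)
  rw [filter_true_of_mem, card_univ] at this
  · omega
  · intro e _
    induction e using Sym2.ind with
    | h x y => exact ⟨x, mem_univ _, by simp⟩

lemma star {ι : Type} [Fintype ι] (E : Finset (Sym2 V)) (v : V)
    (h : Fintype.card ι ≤ (nb E v).card) :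
    ∃ l : ι → V, Function.Injective l ∧ ∀ j, s(v, l j) ∈ E := by
  obtain ⟨f, hf⟩ := Function.Embedding.exists_of_card_le_finset h
  refine ⟨f, f.injective, fun j => ?_⟩
  have := hf ⟨j, rfl⟩
  simpa [nb] using this

lemma stars (s d T : ℕ) (j0 : Fin s) (m : ℕ) : ∀ E : Finset (Sym2 V), ND E →
    (∀ F ⊆ E, T < F.card → ∃ v, s ≤ (nb F v).card) → (∀ v, (nb E v).card ≤ d) →
    T + m * ((s + 1) * d) < E.card →
    ∃ (c : Fin m → V) (l : Fin m × Fin s → V), Function.Injective c ∧ Function.Injective l ∧
      (∀ i p, c i ≠ l p) ∧ ∀ i j, s(c i, l (i, j)) ∈ E := by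
  induction m with
  | zero =>
    intro E _ _ _ _
    exact ⟨Fin.elim0, fun p => p.1.elim0, fun i => i.elim0, fun p => p.1.elim0,
      fun i => i.elim0, fun i => i.elim0⟩
  | succ m ih =>
    intro E hE hT hd hm
    obtain ⟨v, hv⟩ := hT E subset_rfl (by omega)
    obtain ⟨l0, hl0, hvl⟩ := star (ι := Fin s) E v (by simpa using hv)
    set U : Finset V := insert v (univ.image l0) with hU
    have hUc : U.card ≤ s + 1 := (card_insert_le _ _).trans (by
      have := card_image_le (s := (univ : Finset (Fin s))) (f := l0)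
      simpa using this)
    have ht := touch E U d hd
    have hsplit := card_filter_add_card_filter_not (s := E) (fun e => ∃ v ∈ U, v ∈ e)
    set E1 := E.filter (fun e => ¬ ∃ v ∈ U, v ∈ e) with hE1
    have hs : E1 ⊆ E := filter_subset _ _
    obtain ⟨c, l, hc, hl, hcl, he⟩ := ih E1 (hE.mono hs) (fun F hF => hT F (hF.trans hs))
      (fun w => le_trans (card_le_card (by
        intro z hz
        simp only [nb, mem_filter, mem_univ, true_and] at hz ⊢
        exact hs hz)) (hd w)) (by
        have := Nat.mul_le_mul_right d hUc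
        nlinarith)
    have hcU : ∀ i, c i ∉ U := fun i h => (mem_filter.1 (he i j0)).2 ⟨_, h, by simp⟩
    have hlU : ∀ p, l p ∉ U := fun p h => (mem_filter.1 (he p.1 p.2)).2 ⟨_, h, by simp⟩
    have hvU : v ∈ U := mem_insert_self _ _
    have hl0U : ∀ j, l0 j ∈ U := fun j => mem_insert_of_mem (mem_image_of_mem _ (mem_univ _))
    refine ⟨Fin.cons v c, fun p => Fin.cons (α := fun _ => Fin s → V) l0 (fun i j => l (i, j)) p.1 p.2,
      ?_, ?_, ?_, ?_⟩
    · intro i i' h
      induction i using Fin.cases <;> induction i' using Fin.cases <;>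
        simp only [Fin.cons_zero, Fin.cons_succ] at h
      · rfl
      · exact absurd (h ▸ hvU) (hcU _)
      · exact absurd (h ▸ hvU) (hcU _)
      · rw [hc h]
    · rintro ⟨i, j⟩ ⟨i', j'⟩ h
      induction i using Fin.cases <;> induction i' using Fin.cases <;>
        simp only [Fin.cons_zero, Fin.cons_succ] at h
      · rw [hl0 h]
      · exact absurd (h ▸ hl0U _) (hlU _)
      · exact absurd (h ▸ hl0U _) (hlU _)
      · have := hl h
        simp only [Prod.mk.injEq] at this
        rw [this.1, this.2]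
    · rintro i ⟨i', j'⟩ h
      induction i using Fin.cases <;> induction i' using Fin.cases <;>
        simp only [Fin.cons_zero, Fin.cons_succ] at h
      · have := hvl j'
        rw [← h] at this
        exact hE _ this
      · exact absurd (h ▸ hvU) (hlU _)
      · exact absurd (h ▸ hl0U _) (hcU _)
      · exact hcl _ _ h
    · intro i j
      induction i using Fin.cases <;> simp only [Fin.cons_zero, Fin.cons_succ]
      · exact hvl j
      · exact hs (he _ _)

lemma piece (a : ℕ) (E : Finset (Sym2 V)) (hE : ND E) (h : (a * a) * (2 * (a * a)) < E.card) :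
    ∃ A ⊆ E, ∃ b, Gr a b A := by
  by_cases hd : ∃ v, a * a ≤ (nb E v).card
  · obtain ⟨v, hv⟩ := hd
    obtain ⟨l, hl, hvl⟩ := star (ι := Fin a × Fin a) E v (by simpa using hv)
    refine ⟨univ.image (fun p => s(v, l p)), ?_, True, fun _ => v, l, hl, ?_, rfl, by simp⟩
    · intro e he
      obtain ⟨p, -, rfl⟩ := mem_image.1 he
      exact hvl p
    · intro p q h
      have := hvl q
      simp only at h
      rw [← h] at this
      exact hE _ this
  · push Not at hd
    obtain ⟨c, l, hc, hl, hcl, he⟩ := stars 1 (a * a) 0 0 (a * a) E hE (by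
      intro F _ hF
      obtain ⟨e, he⟩ := card_pos.1 hF
      induction e using Sym2.ind with
      | h x y => exact ⟨x, card_pos.2 ⟨y, by simpa [nb] using he⟩⟩) (fun v => (hd v).le)
      (by simpa using h)
    refine ⟨univ.image (fun p => s(c (finProdFinEquiv p), l (finProdFinEquiv p, 0))), ?_, False,
      fun p => c (finProdFinEquiv p), fun p => l (finProdFinEquiv p, 0), ?_, ?_, rfl, ?_⟩
    · intro e he'
      obtain ⟨p, -, rfl⟩ := mem_image.1 he'
      exact he _ _
    · intro p q h
      have := hl h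
      simpa using this
    · intro p q; exact hcl _ _
    · intro i j j'
      simp [hc.eq_iff]

lemma gadget (a : ℕ) (ha : 0 < a) (E : Finset (Sym2 V)) (hE : ND E)
    (h : Fintype.card V * a + a * ((a + 1) * Fintype.card V) < E.card) :
    ∃ Y ⊆ E, ∀ b, Gr a b Y := by
  obtain ⟨c, l, hc, hl, hcl, he⟩ := stars a (Fintype.card V) (Fintype.card V * a) ⟨0, ha⟩ a E hE
    (fun F _ hF => big_deg F a hF) (fun v => card_le_univ _) h
  refine ⟨univ.image (fun p => s(c p.1, l p)), ?_, fun b => ?_⟩
  · intro e he'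
    obtain ⟨p, -, rfl⟩ := mem_image.1 he'
    exact he _ _
  · by_cases hb : b
    · exact ⟨fun p => c p.1, l, hl, fun p q => hcl _ _, rfl, by simp [hb]⟩
    · refine ⟨fun p => c p.2, fun p => l p.swap, hl.comp Prod.swap_injective,
        fun p q => hcl _ _, ?_, by simp [hb, hc.eq_iff]⟩
      ext e
      simp only [mem_image, mem_univ, true_and]
      constructor
      · rintro ⟨p, rfl⟩; exact ⟨p.swap, by simp⟩
      · rintro ⟨p, rfl⟩; exact ⟨p.swap, by simp⟩

def Res (a : ℕ) : ℕ → Finset (Sym2 V) → Prop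
  | 0, R => R = ∅
  | M + 1, R => ∃ Y ⊆ R, (∀ b, Gr a b Y) ∧ Res a M (R \ Y)

lemma res_exists (a : ℕ) (ha : 0 < a) (M : ℕ) : ∀ E : Finset (Sym2 V), ND E →
    Fintype.card V * a + a * ((a + 1) * Fintype.card V) + M * (a * a) < E.card →
    ∃ R ⊆ E, Res a M R ∧ R.card = M * (a * a) := by
  induction M with
  | zero => intro E _ _; exact ⟨∅, by simp, rfl, by simp⟩
  | succ M ih =>
    intro E hE h
    obtain ⟨Y, hY, hg⟩ := gadget a ha E hE (by omega)
    have hYc := (hg True).card
    obtain ⟨R, hR, hr, hc⟩ := ih (E \ Y) (hE.mono sdiff_subset) (by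
      rw [card_sdiff_of_subset hY, hYc]
      have : (M + 1) * (a * a) = M * (a * a) + a * a := by ring
      omega)
    have hd : Disjoint R Y := disjoint_of_subset_left hR sdiff_disjoint
    refine ⟨R ∪ Y, union_subset (hR.trans sdiff_subset) hY, ⟨Y, subset_union_right, hg, ?_⟩, ?_⟩
    · rwa [union_sdiff_cancel_right hd]
    · rw [card_union_of_disjoint hd, hc, hYc]; ring

lemma absorb (a M : ℕ) : ∀ R R' L L' : Finset (Sym2 V), Res a M R → Res a M R' →
    Disjoint R L → Disjoint R' L' → ND L → ND L' → L.card = L'.card →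
    L.card ≤ M * (a * a) + (a * a) * (2 * (a * a)) →
    Rel (M * (a + a) + (a * a) * (2 * (a * a))) (R ∪ L) (R' ∪ L') := by
  induction M with
  | zero =>
    intro R R' L L' hR hR' _ _ hL hL' hc hb
    have h1 : R = ∅ := hR
    have h2 : R' = ∅ := hR'
    subst h1 h2
    simp only [empty_union]
    exact rel_mono (rel_card _ L L' hL hL' rfl hc.symm) (by simpa using hb)
  | succ M ih =>
    intro R R' L L' hR hR' d d' hL hL' hc hb
    obtain ⟨Y, hY, hg, hr⟩ := hR
    obtain ⟨Y', hY', hg', hr'⟩ := hR'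
    have e1 : (M + 1) * (a * a) = M * (a * a) + a * a := by ring
    have e2 : (M + 1) * (a + a) + (a * a) * (2 * (a * a)) =
      M * (a + a) + (a * a) * (2 * (a * a)) + a + a := by ring
    have dl := disjoint_left.1 d
    have dl' := disjoint_left.1 d'
    rw [e2]
    by_cases hs : L.card ≤ (a * a) * (2 * (a * a))
    · have h1 := ih (R \ Y) (R' \ Y') L L' hr hr' (disjoint_of_subset_left sdiff_subset d)
        (disjoint_of_subset_left sdiff_subset d') hL hL' hc (by omega)
      have h2 := rel_add h1 ((hg True).rel (hg' True))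
        (by rw [disjoint_left]; intro e he hy; have := hY hy; have := @dl e; simp at he; tauto)
        (by rw [disjoint_left]; intro e he hy; have := hY' hy; have := @dl' e; simp at he; tauto)
      have f1 : R \ Y ∪ L ∪ Y = R ∪ L := by
        ext e; have := @hY e; simp only [mem_union, mem_sdiff]; tauto
      have f2 : R' \ Y' ∪ L' ∪ Y' = R' ∪ L' := by
        ext e; have := @hY' e; simp only [mem_union, mem_sdiff]; tauto
      rw [f1, f2] at h2
      exact rel_mono h2 (by omega)
    · obtain ⟨A, hA, b, hb1⟩ := piece a L hL (by omega)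
      obtain ⟨A', hA', b', hb2⟩ := piece a L' hL' (by omega)
      have h1 := ih (R \ Y) (R' \ Y') (L \ A) (L' \ A') hr hr'
        (disjoint_of_subset_left sdiff_subset (disjoint_of_subset_right sdiff_subset d))
        (disjoint_of_subset_left sdiff_subset (disjoint_of_subset_right sdiff_subset d'))
        (hL.mono sdiff_subset) (hL'.mono sdiff_subset)
        (by rw [card_sdiff_of_subset hA, card_sdiff_of_subset hA', hc, hb1.card, hb2.card])
        (by rw [card_sdiff_of_subset hA, hb1.card]; omega)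
      have h2 := rel_add h1 (hb1.rel (hg' b))
        (by
          rw [disjoint_left]; intro e he hy; have := hA hy; have := @dl e
          simp only [mem_union, mem_sdiff] at he; tauto)
        (by
          rw [disjoint_left]; intro e he hy; have := hY' hy; have := @dl' e
          simp only [mem_union, mem_sdiff] at he; tauto)
      have h3 := rel_add h2 ((hg b').rel hb2)
        (by
          rw [disjoint_left]; intro e he hy; have := hY hy; have := @dl e; have := @hA e
          simp only [mem_union, mem_sdiff] at he; tauto)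
        (by
          rw [disjoint_left]; intro e he hy; have := hA' hy; have := @dl' e; have := @hY' e
          simp only [mem_union, mem_sdiff] at he; tauto)
      have f1 : R \ Y ∪ L \ A ∪ A ∪ Y = R ∪ L := by
        ext e; have := @hY e; have := @hA e; simp only [mem_union, mem_sdiff]; tauto
      have f2 : R' \ Y' ∪ L' \ A' ∪ Y' ∪ A' = R' ∪ L' := by
        ext e; have := @hY' e; have := @hA' e; simp only [mem_union, mem_sdiff]; tauto
      rwa [f1, f2] at h3

theorem main (a M t : ℕ) (ha : 0 < a) (E E' : Finset (Sym2 V)) (hE : ND E) (hE' : ND E')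
    (hc : E.card = E'.card)
    (h : Fintype.card V * a + a * ((a + 1) * Fintype.card V) + M * (a * a) < E.card)
    (ht : Fintype.card V * Fintype.card V < (M * (a * a) + 1) * t) :
    Rel (M * (a + a) + (a * a) * (2 * (a * a)) + t) E E' := by
  obtain ⟨R, hR, hr, hRc⟩ := res_exists a ha M E hE h
  obtain ⟨R', hR', hr', hRc'⟩ := res_exists a ha M E' hE' (hc ▸ h)
  have hc1 : (E \ R).card = (E' \ R').card := by
    rw [card_sdiff_of_subset hR, card_sdiff_of_subset hR', hc, hRc, hRc']
  obtain ⟨F, hF, F', hF', hrel, hb⟩ := greedy t (E \ R) (E' \ R') (hE.mono sdiff_subset)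
    (hE'.mono sdiff_subset) hc1
  have h1 := absorb a M R R' ((E \ R) \ F) ((E' \ R') \ F') hr hr'
    (disjoint_of_subset_right sdiff_subset disjoint_sdiff)
    (disjoint_of_subset_right sdiff_subset disjoint_sdiff)
    (hE.mono (sdiff_subset.trans sdiff_subset)) (hE'.mono (sdiff_subset.trans sdiff_subset))
    (by rw [card_sdiff_of_subset hF, card_sdiff_of_subset hF', hc1, hrel.1])
    (by
      have := Nat.lt_of_mul_lt_mul_right (lt_of_le_of_lt hb ht)
      omega)
  have h2 := rel_add h1 hrel
    (by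
      rw [disjoint_left]; intro e he hy; have := hF hy
      simp only [mem_union, mem_sdiff] at he this; tauto)
    (by
      rw [disjoint_left]; intro e he hy; have := hF' hy
      simp only [mem_union, mem_sdiff] at he this; tauto)
  have f1 : R ∪ (E \ R) \ F ∪ F = E := by
    ext e; have := @hR e; have := @hF e; simp only [mem_union, mem_sdiff] at *; tauto
  have f2 : R' ∪ (E' \ R') \ F' ∪ F' = E' := by
    ext e; have := @hR' e; have := @hF' e; simp only [mem_union, mem_sdiff] at *; tauto
  rwa [f1, f2] at h2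

omit [Fintype V] in
lemma rel_out {r : ℕ} (hr : 0 < r) {E E' : Finset (Sym2 V)} (h : Rel r E E') :
    ∃ c c' : Sym2 V → Fin r, ∀ i : Fin r, ∃ σ : Equiv.Perm V,
      Sym2.map σ '' {e | e ∈ E ∧ c e = i} = {e | e ∈ E' ∧ c' e = i} := by
  classical
  obtain ⟨h1, c, σ, h2, h3⟩ := h
  have hinj : Set.InjOn (fun e => Sym2.map (σ (c e)) e) E := card_image_iff.1 (by rw [h3, h1])
  have hex : ∀ e' : Sym2 V, ∃ e, e' ∈ E' → e ∈ E ∧ Sym2.map (σ (c e)) e = e' := by
    intro e'
    by_cases he : e' ∈ E'
    · rw [← h3] at he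
      obtain ⟨e, he1, he2⟩ := mem_image.1 he
      exact ⟨e, fun _ => ⟨he1, he2⟩⟩
    · exact ⟨e', fun h => absurd h he⟩
  choose g hg using hex
  refine ⟨fun e => ⟨c e % r, Nat.mod_lt _ hr⟩, fun e => ⟨c (g e) % r, Nat.mod_lt _ hr⟩,
    fun i => ⟨σ i, ?_⟩⟩
  ext e'
  simp only [Set.mem_image, Set.mem_setOf_eq, Fin.ext_iff]
  constructor
  · rintro ⟨e, ⟨he, hi⟩, rfl⟩
    rw [Nat.mod_eq_of_lt (h2 e he)] at hi
    have hm : Sym2.map (σ i) e ∈ E' := by
      rw [← h3, ← hi]; exact mem_image_of_mem _ he
    refine ⟨hm, ?_⟩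
    have : g (Sym2.map (σ i) e) = e := hinj (hg _ hm).1 he (by
      simp only; rw [(hg _ hm).2, hi])
    rw [this, Nat.mod_eq_of_lt (h2 e he), hi]
  · rintro ⟨he, hi⟩
    obtain ⟨g1, g2⟩ := hg e' he
    refine ⟨g e', ⟨g1, hi⟩, ?_⟩
    rw [Nat.mod_eq_of_lt (h2 _ g1)] at hi
    rw [← hi]; exact g2

end Pool.Agent.H3.Udec
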