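import Pool.Agent.H3.VRDefs
import Pool.Agent.H21.BFP

open Set Filter Topology Metric
open scoped unitInterval

namespace Pool.Agent.H3.VR

abbrev D (ι : Type) : Type := {v : ι → ℝ // v ≠ 0}

theorem not_null {ι : Type} [Fintype ι] (j : C(D ι, D ι))
    (hj : ∀ v : D ι, ∃ c : ℝ, 0 < c ∧ (j v : ι → ℝ) = c • (v : ι → ℝ)) : ¬ j.Nullhomotopic := by
  classical
  rintro ⟨c, ⟨H⟩⟩
  let N : D ι → ι → ℝ := fun v => -(‖(v : ι → ℝ)‖⁻¹ • (v : ι → ℝ))
  have hN : Continuous N :=
    (((continuous_subtype_val.norm).inv₀ fun v => norm_ne_zero_iff.2 v.2).smul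
      continuous_subtype_val).neg
  have hN1 : ∀ v, ‖N v‖ = 1 := fun v => by
    simp only [N, norm_neg, norm_smul, norm_inv, norm_norm]
    exact inv_mul_cancel₀ (norm_ne_zero_iff.2 v.2)
  let τ : (ι → ℝ) → I := fun x => projIcc 0 1 zero_le_one (2 - 2 * ‖x‖)
  have hτ : Continuous τ := continuous_projIcc.comp (by fun_prop)
  let G : (ι → ℝ) → ι → ℝ := fun x => if h : x = 0 then N c else N (H (τ x, ⟨x, h⟩))
  have hG1 : ∀ x, ‖G x‖ = 1 := fun x => by
    simp only [G]; split_ifs <;> exact hN1 _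
  have hG : Continuous G := by
    have h1 : ContinuousOn G {x | x ≠ 0} := by
      rw [continuousOn_iff_continuous_domRestrict]
      have : Continuous fun x : D ι => N (H (τ x, x)) := by fun_prop
      refine this.congr fun x => ?_
      have hx : x.1 ≠ 0 := x.2
      simp only [Set.domRestrict, G, dif_neg hx]
    have h2 : ∀ x ∈ ball (0 : ι → ℝ) (1 / 2), G x = N c := by
      intro x hx
      rw [mem_ball_zero_iff] at hx
      simp only [G]
      split_ifs with h
      · rfl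
      · have : τ x = 1 := projIcc_of_right_le _ (by linarith)
        rw [this, H.apply_one]; rfl
    refine continuous_iff_continuousAt.2 fun x => ?_
    by_cases hx : x = 0
    · subst hx
      exact continuousAt_const.congr
        (eventually_of_mem (ball_mem_nhds _ (by norm_num)) fun y hy => (h2 y hy).symm)
    · exact h1.continuousAt (isOpen_ne.mem_nhds hx)
  obtain ⟨x, -, hx⟩ := Pool.Agent.H21.BFP.brouwer_cube G hG.continuousOn
    (fun x _ => by rw [mem_closedBall_zero_iff, hG1])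
  have hx1 : ‖x‖ = 1 := by rw [← hx, hG1]
  have hx0 : x ≠ 0 := by rintro rfl; simp at hx1
  have ht : τ x = 0 := projIcc_of_le_left _ (by rw [hx1]; norm_num)
  obtain ⟨a, ha, hja⟩ := hj ⟨x, hx0⟩
  have e : G x = -x := by
    simp only [G, dif_neg hx0, ht, H.apply_zero, N, hja, norm_smul, hx1, Real.norm_eq_abs,
      abs_of_pos ha, mul_one, smul_smul, inv_mul_cancel₀ ha.ne', one_smul]
  rw [hx] at e
  apply hx0
  ext i
  have := congrFun e i
  simp only [Pi.neg_apply] at this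
  simp only [Pi.zero_apply]; linarith

theorem line_homotopic {X ι : Type} [TopologicalSpace X] (f g : C(X, D ι))
    (h : ∀ (t : I) (x : X), (1 - (t : ℝ)) • (f x : ι → ℝ) + (t : ℝ) • (g x : ι → ℝ) ≠ 0) :
    f.Homotopic g :=
  ⟨⟨⟨fun z => ⟨_, h z.1 z.2⟩, Continuous.subtype_mk (by fun_prop) _⟩,
    fun x => Subtype.ext (by simp), fun x => Subtype.ext (by simp)⟩⟩

theorem null_of_dim {κ ι : Type} [Fintype κ] [Fintype ι] {K : Set (κ → ℝ)} (hK : IsClosed K)
    (hne : K.Nonempty) (hcard : Fintype.card κ + 1 < Fintype.card ι) (f : C(K, D ι)) :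
    f.Nullhomotopic := by
  obtain ⟨F, hF⟩ := ContinuousMap.exists_restrict_eq hK
    ((⟨Subtype.val, continuous_subtype_val⟩ : C(D ι, ι → ℝ)).comp f)
  have hF' : ∀ x : K, F x = f x := fun x => congrArg (fun u : C(K, ι → ℝ) => u x) hF
  obtain ⟨g, hg, hgF, -⟩ := F.continuous.exists_contDiff_approx 1
    (ε := fun x => ‖F x‖ + infDist x K) (F.continuous.norm.add (continuous_infDist_pt K))
    (fun x => by
      by_cases hx : x ∈ K
      · have := norm_pos_iff.2 (f ⟨x, hx⟩).2
        rw [← hF'] at this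
        exact add_pos_of_pos_of_nonneg this infDist_nonneg
      · exact add_pos_of_nonneg_of_pos (norm_nonneg _) ((hK.notMem_iff_infDist_pos hne).1 hx))
  have hlt : ∀ x : K, ‖g x - f x‖ < ‖(f x : ι → ℝ)‖ := fun x => by
    have := hgF x
    rwa [infDist_zero_of_mem x.2, add_zero, dist_eq_norm, hF'] at this
  have hne0 : ∀ (t : I) (x : K), (1 - (t : ℝ)) • (f x : ι → ℝ) + (t : ℝ) • g x ≠ 0 := by
    intro t x h
    have e : (f x : ι → ℝ) = -((t : ℝ) • (g x - f x)) := by
      rw [eq_neg_iff_add_eq_zero]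
      exact Eq.trans (by module) h
    have h1 := congrArg norm e
    rw [norm_neg, norm_smul, Real.norm_eq_abs, abs_of_nonneg t.2.1] at h1
    nlinarith [hlt x, t.2.2, norm_nonneg (g x - f x)]
  have hg0 : ∀ x : K, g x ≠ 0 := fun x => by simpa using hne0 1 x
  let g' : C(K, D ι) := ⟨fun x => ⟨g x, hg0 x⟩,
    Continuous.subtype_mk (hg.continuous.comp continuous_subtype_val) hg0⟩
  have hc : ContDiff ℝ 1 fun z : ℝ × (κ → ℝ) => z.1 • g z.2 :=
    contDiff_fst.smul ((by exact_mod_cast hg : ContDiff ℝ 1 g).comp contDiff_snd)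
  obtain ⟨v, hv⟩ := (hc.dense_compl_range_of_finrank_lt_finrank (by
    simp only [Module.finrank_prod, Module.finrank_self, Module.finrank_pi]; omega)).nonempty
  have hv0 : -v ≠ 0 := fun h => hv ⟨(0, 0), by simp [neg_eq_zero.1 h]⟩
  refine ⟨⟨-v, hv0⟩, (line_homotopic f g' hne0).trans (line_homotopic _ _ fun t x h => ?_)⟩
  by_cases ht : (t : ℝ) = 0
  · apply (g' x).2
    simpa [ht] using h
  · refine hv ⟨((t : ℝ)⁻¹ * (1 - t), x), ?_⟩
    have h' : (1 - (t : ℝ)) • g x = (t : ℝ) • v := by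
      rw [← sub_eq_zero, ← h]; simp [g', sub_eq_add_neg]
    simp only [mul_smul, h', smul_smul, inv_mul_cancel₀ ht, one_smul]

theorem isClosed_rips {M : Type} [MetricSpace M] (X : Finset M) (r : ℝ) : IsClosed (rips X r) := by
  have e : rips X r = stdSimplex ℝ X ∩ ⋂ x : X, ⋂ y : X, ⋂ (_ : ¬ dist (x : M) y < r),
      ({w : X → ℝ | w x = 0} ∪ {w | w y = 0}) := by
    ext w
    simp only [rips, mem_setOf_eq, mem_inter_iff, mem_iInter, mem_union]
    refine and_congr_right fun _ => forall₂_congr fun x y => ?_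
    tauto
  rw [e]
  exact (isClosed_stdSimplex ℝ X).inter (isClosed_iInter fun x => isClosed_iInter fun y =>
    isClosed_iInter fun _ => (isClosed_eq (continuous_apply x) continuous_const).union
      (isClosed_eq (continuous_apply y) continuous_const))

noncomputable def pt (m a : ℕ) : UnitAddCircle := (((a : ℝ) / (2 * m) : ℝ) : UnitAddCircle)

theorem pt_inj {m a b : ℕ} (ha : a < 2 * m) (hb : b < 2 * m) (h : pt m a = pt m b) : a = b := by
  have hm : (0 : ℝ) < 2 * m := by exact_mod_cast (by omega : 0 < 2 * m)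
  have key : ∀ c : ℕ, c < 2 * m → (c : ℝ) / (2 * m) ∈ Ico (0 : ℝ) (0 + 1) := fun c hc =>
    ⟨by positivity, by rw [zero_add, div_lt_one hm]; exact_mod_cast hc⟩
  have := (AddCircle.coe_eq_coe_iff_of_mem_Ico (key a ha) (key b hb)).1 h
  rw [div_left_inj' hm.ne'] at this
  exact_mod_cast this

theorem norm_coe_le (x : ℝ) (k : ℤ) : ‖(x : UnitAddCircle)‖ ≤ |x - k| := by
  rw [UnitAddCircle.norm_eq]; exact round_le x k

theorem dist_pt (m a b : ℕ) (k : ℤ) :
    dist (pt m a) (pt m b) ≤ |((a : ℝ) - b) / (2 * m) - k| := by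
  rw [dist_eq_norm, pt, pt, ← AddCircle.coe_sub, ← sub_div]
  exact norm_coe_le _ k

theorem dist_pt_lt {m a b : ℕ} (ha : a < 2 * m) (hb : b < 2 * m) (h1 : a ≠ b + m)
    (h2 : b ≠ a + m) : dist (pt m a) (pt m b) < 1 / 2 := by
  have hm : (0 : ℝ) < 2 * m := by exact_mod_cast (by omega : 0 < 2 * m)
  obtain ⟨k, hk1, hk2⟩ : ∃ k : ℤ, -(m : ℤ) < a - b - k * (2 * m) ∧ a - b - k * (2 * m) < m := by
    by_cases c1 : b + m < a
    · exact ⟨1, by omega, by omega⟩
    · by_cases c2 : a + m < b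
      · exact ⟨-1, by omega, by omega⟩
      · exact ⟨0, by omega, by omega⟩
  refine (dist_pt m a b k).trans_lt ?_
  have e1 : -(m : ℝ) < a - b - k * (2 * m) := by exact_mod_cast hk1
  have e2 : (a : ℝ) - b - k * (2 * m) < m := by exact_mod_cast hk2
  rw [show ((a : ℝ) - b) / (2 * m) - k = (a - b - k * (2 * m)) / (2 * m) by
    rw [sub_div _ (k * (2 * m) : ℝ), mul_div_cancel_right₀ _ hm.ne'], abs_div,
    abs_of_pos hm, div_lt_iff₀ hm, abs_lt]
  constructor <;> linarith

theorem dist_pt_anti {m : ℕ} (hm : 0 < m) (a : ℕ) : dist (pt m (a + m)) (pt m a) = 1 / 2 := by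
  have hm' : (0 : ℝ) < m := by exact_mod_cast hm
  rw [dist_eq_norm, pt, pt, ← AddCircle.coe_sub,
    show (((a + m : ℕ) : ℝ)) / (2 * m) - a / (2 * m) = 1 / 2 by push_cast; field_simp; ring,
    AddCircle.norm_half_period_eq, abs_one]

theorem pt_dense {m : ℕ} (hm : 0 < m) (c : UnitAddCircle) :
    ∃ a < 2 * m, dist c (pt m a) ≤ 1 / (2 * m) := by
  have hm' : (0 : ℝ) < 2 * m := by exact_mod_cast (by omega : 0 < 2 * m)
  obtain ⟨t, ht, rfl⟩ := AddCircle.eq_coe_Ico c
  have h0 : 0 ≤ t * (2 * m) := mul_nonneg ht.1 hm'.le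
  have h1 := Nat.floor_le h0
  have h2 := Nat.lt_floor_add_one (t * (2 * m))
  refine ⟨⌊t * (2 * m)⌋₊, ?_, ?_⟩
  · have : (⌊t * (2 * m)⌋₊ : ℝ) < 2 * m := by nlinarith [ht.2]
    exact_mod_cast this
  · rw [dist_eq_norm, pt, ← AddCircle.coe_sub]
    refine (norm_coe_le _ 0).trans ?_
    rw [Int.cast_zero, sub_zero, show t - (⌊t * (2 * m)⌋₊ : ℝ) / (2 * m) =
      (t * (2 * m) - ⌊t * (2 * m)⌋₊) / (2 * m) by field_simp, abs_div, abs_of_pos hm',
      abs_of_nonneg (by linarith)]
    exact div_le_div_of_nonneg_right (by linarith) hm'.le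

open Classical in
noncomputable def grid (m : ℕ) : Finset Torus :=
  (Finset.range (2 * m) ×ˢ Finset.range (2 * m)).image
    fun z => WithLp.toLp 2 (pt m z.1, pt m z.2)

theorem mem_grid {m a b : ℕ} (ha : a < 2 * m) (hb : b < 2 * m) :
    WithLp.toLp 2 (pt m a, pt m b) ∈ grid m := by
  classical
  exact Finset.mem_image.2 ⟨(a, b), by simp [ha, hb], rfl⟩

theorem grid_dense {m : ℕ} (hm : 0 < m) (y : Torus) : ∃ x ∈ grid m, dist y x ≤ 1 / m := by
  obtain ⟨a, ha, ha'⟩ := pt_dense hm y.fst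
  obtain ⟨b, hb, hb'⟩ := pt_dense hm y.snd
  refine ⟨_, mem_grid ha hb, ?_⟩
  have hm' : (0 : ℝ) < m := by exact_mod_cast hm
  rw [WithLp.prod_dist_eq_of_L2, Real.sqrt_le_iff]
  refine ⟨by positivity, ?_⟩
  have e : (1 / (m : ℝ)) = 2 * (1 / (2 * m)) := by field_simp
  have h1 := pow_le_pow_left₀ dist_nonneg ha' 2
  have h2 := pow_le_pow_left₀ dist_nonneg hb' 2
  rw [e]
  simp only [WithLp.toLp_fst, WithLp.toLp_snd]
  nlinarith [sq_nonneg (1 / (2 * (m : ℝ)))]

open Classical in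
noncomputable def sg (m j : ℕ) (c : UnitAddCircle) : ℝ :=
  if c = pt m j then 1 else if c = pt m (j + m) then -1 else 0

theorem sg_pt {m j a : ℕ} (hj : j < m) (ha : a < 2 * m) :
    sg m j (pt m a) = if a = j then 1 else if a = j + m then -1 else 0 := by
  have h1 : pt m a = pt m j ↔ a = j := ⟨pt_inj ha (by omega), fun h => by rw [h]⟩
  have h2 : pt m a = pt m (j + m) ↔ a = j + m := ⟨pt_inj ha (by omega), fun h => by rw [h]⟩
  simp only [sg, h1, h2]

noncomputable def rho (m : ℕ) (w : grid m → ℝ) (j : Fin m) : ℝ :=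
  ∑ x, w x * sg m j (x : Torus).fst

theorem rho_ne {m : ℕ} {w : grid m → ℝ} (hw : w ∈ rips (grid m) (1 / 2)) : rho m w ≠ 0 := by
  classical
  obtain ⟨⟨h0, h1⟩, hd⟩ := hw
  obtain ⟨x, -, hx⟩ := Finset.exists_ne_zero_of_sum_ne_zero (h1.trans_ne one_ne_zero)
  obtain ⟨⟨a, b⟩, hab, hx'⟩ := Finset.mem_image.1 x.2
  simp only [Finset.mem_product, Finset.mem_range] at hab
  have hxa : (x : Torus).fst = pt m a := by rw [← hx']; rfl
  have hm : 0 < m := by omega
  have anti : ∀ y : grid m, w y ≠ 0 → dist (x : Torus).fst (y : Torus).fst ≠ 1 / 2 := fun y hy =>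
    ((WithLp.dist_fst_le _ _).trans_lt (hd x y hx hy)).ne
  have hpos : 0 < w x := lt_of_le_of_ne (h0 x) hx.symm
  intro h
  by_cases ham : a < m
  · have := congrFun h ⟨a, ham⟩
    refine absurd this (ne_of_gt (Finset.sum_pos' (fun y _ => ?_) ⟨x, Finset.mem_univ _, ?_⟩))
    · by_cases hy : w y = 0
      · simp [hy]
      · refine mul_nonneg (h0 y) ?_
        have : (y : Torus).fst ≠ pt m (a + m) := fun e =>
          anti y hy (by rw [hxa, e, dist_comm, dist_pt_anti hm])
        simp only [sg, if_neg this]; split_ifs <;> norm_num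
    · simp [sg, hxa, hpos]
  · obtain ⟨j, rfl⟩ : ∃ j, a = j + m := ⟨a - m, by omega⟩
    have hj : j < m := by omega
    have := congrFun h ⟨j, hj⟩
    refine absurd this (ne_of_lt (Finset.sum_neg' (fun y _ => ?_) ⟨x, Finset.mem_univ _, ?_⟩))
    · by_cases hy : w y = 0
      · simp [hy]
      · refine mul_nonpos_of_nonneg_of_nonpos (h0 y) ?_
        have : (y : Torus).fst ≠ pt m j := fun e =>
          anti y hy (by rw [hxa, e, dist_pt_anti hm])
        simp only [sg, if_neg this]; split_ifs <;> norm_num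
    · rw [hxa, sg_pt hj hab.1, if_neg (by omega), if_pos rfl]; linarith

noncomputable def rhoC (m : ℕ) : C(rips (grid m) (1 / 2), D (Fin m)) :=
  ⟨fun w => ⟨rho m w, rho_ne w.2⟩, Continuous.subtype_mk (continuous_pi fun _ =>
    continuous_finsetSum _ fun x _ =>
      ((continuous_apply x).comp continuous_subtype_val).mul continuous_const) _⟩

noncomputable def e1 {m : ℕ} (j : Fin m) : grid m :=
  ⟨_, mem_grid (a := j) (b := 0) (by have := j.2; omega) (by have := j.2; omega)⟩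

noncomputable def e2 {m : ℕ} (j : Fin m) : grid m :=
  ⟨_, mem_grid (a := j + m) (b := 0) (by have := j.2; omega) (by have := j.2; omega)⟩

open Classical in
noncomputable def io {m : ℕ} (v : Fin m → ℝ) (x : grid m) : ℝ :=
  (∑ j, |v j|)⁻¹ * ∑ j, ((if e1 j = x then max (v j) 0 else 0) +
    (if e2 j = x then max (-v j) 0 else 0))

theorem l1_pos {m : ℕ} (v : D (Fin m)) : 0 < ∑ j, |(v : Fin m → ℝ) j| := by
  obtain ⟨j, hj⟩ := Function.ne_iff.1 v.2
  exact Finset.sum_pos' (fun _ _ => abs_nonneg _) ⟨j, Finset.mem_univ _, abs_pos.2 hj⟩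

theorem sum_io {m : ℕ} (v : Fin m → ℝ) (u : grid m → ℝ) : ∑ x, io v x * u x =
    (∑ j, |v j|)⁻¹ * ∑ j, (max (v j) 0 * u (e1 j) + max (-v j) 0 * u (e2 j)) := by
  classical
  simp only [io, mul_assoc, ← Finset.mul_sum, Finset.sum_mul]
  rw [Finset.sum_comm]
  simp [add_mul, Finset.sum_add_distrib]

theorem io_mem {m : ℕ} (v : D (Fin m)) : io v.1 ∈ rips (grid m) (1 / 2) := by
  classical
  have hp := l1_pos v
  have supp : ∀ x, io v.1 x ≠ 0 → ∃ j : Fin m, (e1 j = x ∧ 0 < v.1 j) ∨ (e2 j = x ∧ v.1 j < 0) := by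
    intro x hx
    obtain ⟨j, -, hj⟩ := Finset.exists_ne_zero_of_sum_ne_zero (right_ne_zero_of_mul hx)
    refine ⟨j, ?_⟩
    by_contra hc
    push Not at hc
    apply hj
    split_ifs with h1 h2 h2
    · rw [max_eq_right (hc.1 h1), max_eq_right (neg_nonpos.2 (hc.2 h2)), add_zero]
    · rw [max_eq_right (hc.1 h1), add_zero]
    · rw [max_eq_right (neg_nonpos.2 (hc.2 h2)), add_zero]
    · rw [add_zero]
  refine ⟨⟨fun x => mul_nonneg (inv_nonneg.2 hp.le) (Finset.sum_nonneg fun j _ => ?_), ?_⟩, ?_⟩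
  · split_ifs <;> positivity
  · have := sum_io v.1 fun _ => 1
    simp only [mul_one] at this
    rw [this, show ∑ j, (max (v.1 j) 0 + max (-v.1 j) 0) = ∑ j, |v.1 j| from
      Finset.sum_congr rfl fun j _ => max_zero_add_max_neg_zero_eq_abs_self _,
      inv_mul_cancel₀ hp.ne']
  · have hd : ∀ a b : ℕ, dist (WithLp.toLp 2 (pt m a, pt m 0) : Torus)
        (WithLp.toLp 2 (pt m b, pt m 0)) = dist (pt m a) (pt m b) := by
      intro a b
      rw [WithLp.prod_dist_eq_of_L2]
      simp [Real.sqrt_sq dist_nonneg]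
    intro x y hx hy
    obtain ⟨j, ⟨rfl, hj⟩ | ⟨rfl, hj⟩⟩ := supp x hx <;>
      obtain ⟨k, ⟨rfl, hk⟩ | ⟨rfl, hk⟩⟩ := supp y hy
    · exact (hd _ _).trans_lt (dist_pt_lt (by omega) (by omega) (by omega) (by omega))
    · have : (j : ℕ) ≠ k := fun h => by rw [Fin.ext h] at hj; linarith
      exact (hd _ _).trans_lt (dist_pt_lt (by omega) (by omega) (by omega) (by omega))
    · have : (j : ℕ) ≠ k := fun h => by rw [Fin.ext h] at hj; linarith
      exact (hd _ _).trans_lt (dist_pt_lt (by omega) (by omega) (by omega) (by omega))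
    · exact (hd _ _).trans_lt (dist_pt_lt (by omega) (by omega) (by omega) (by omega))

noncomputable def ioC (m : ℕ) : C(D (Fin m), rips (grid m) (1 / 2)) :=
  ⟨fun v => ⟨io v.1, io_mem v⟩, Continuous.subtype_mk (continuous_pi fun x => by
    have hc : ∀ j, Continuous fun v : D (Fin m) => v.1 j := fun j =>
      (continuous_apply j).comp continuous_subtype_val
    refine Continuous.mul (Continuous.inv₀ (continuous_finsetSum _ fun j _ => (hc j).abs)
      fun v => (l1_pos v).ne') (continuous_finsetSum _ fun j _ => Continuous.add ?_ ?_) <;>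
      split_ifs
    exacts [(hc j).max continuous_const, continuous_const, (hc j).neg.max continuous_const,
      continuous_const]) _⟩

theorem rho_io {m : ℕ} (v : Fin m → ℝ) : rho m (io v) = (∑ j, |v j|)⁻¹ • v := by
  ext k
  rw [rho, sum_io, Pi.smul_apply, smul_eq_mul]
  congr 1
  have : ∀ j : Fin m, max (v j) 0 * sg m k (e1 j : Torus).fst +
      max (-v j) 0 * sg m k (e2 j : Torus).fst = if j = k then v j else 0 := by
    intro j
    change max (v j) 0 * sg m k (pt m j) + max (-v j) 0 * sg m k (pt m (j + m)) = _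
    rw [sg_pt k.2 (by omega), sg_pt k.2 (by omega)]
    by_cases h : j = k
    · subst h
      rw [if_pos rfl, if_neg (by omega), if_pos rfl, if_pos rfl]
      have := max_zero_sub_max_neg_zero_eq_self (v j)
      linarith
    · have h' : (j : ℕ) ≠ k := fun e => h (Fin.ext e)
      rw [if_neg h', if_neg (by omega), if_neg (by omega), if_neg (by omega), if_neg h]
      simp
  simp [this]

theorem not_equiv {m : ℕ} {κ : Type} [Fintype κ] {K : Set (κ → ℝ)} (hK : IsClosed K)
    (hcard : Fintype.card κ + 1 < m) :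
    IsEmpty (ContinuousMap.HomotopyEquiv (rips (grid m) (1 / 2)) K) := by
  refine ⟨fun e => not_null ((rhoC m).comp (ioC m))
    (fun v => ⟨_, inv_pos.2 (l1_pos v), rho_io v.1⟩) ?_⟩
  let v0 : D (Fin m) := ⟨fun _ => 1, fun h => one_ne_zero (congrFun h ⟨0, by omega⟩)⟩
  obtain ⟨c, hc⟩ := (null_of_dim hK ⟨_, (e.toFun (ioC m v0)).2⟩ (by simpa using hcard)
    ((rhoC m).comp e.invFun)).comp_left (e.toFun.comp (ioC m))
  exact ⟨c, ((ContinuousMap.Homotopic.refl (rhoC m)).comp
    (e.left_inv.symm.comp (ContinuousMap.Homotopic.refl (ioC m)))).trans hc⟩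

theorem main (Z : Type) [TopologicalSpace Z] (ε : ℝ) (hε : 0 < ε) : ∃ X : Finset Torus,
    (∀ y, ∃ x ∈ X, dist y x < ε) ∧ IsEmpty (ContinuousMap.HomotopyEquiv (rips X (1 / 2)) Z) := by
  obtain ⟨n, hn⟩ := exists_nat_one_div_lt hε
  have dense : ∀ m, n + 1 ≤ m → ∀ y, ∃ x ∈ grid m, dist y x < ε := by
    intro m hm y
    obtain ⟨x, hx, hd⟩ := grid_dense (show 0 < m by omega) y
    refine ⟨x, hx, hd.trans_lt (lt_of_le_of_lt ?_ hn)⟩
    exact one_div_le_one_div_of_le (by positivity) (by exact_mod_cast hm)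
  by_contra hc
  push Not at hc
  obtain ⟨a⟩ := hc _ (dense (n + 1) le_rfl)
  obtain ⟨b⟩ := hc _ (dense (n + 1 + (Fintype.card (grid (n + 1)) + 2)) (by omega))
  exact (not_equiv (isClosed_rips _ _) (by omega)).false (b.trans a.symm)

end Pool.Agent.H3.VR
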