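import Mathlib

namespace Pool.Agent.H3.VR

/-- The flat square torus `ℝ²/ℤ²` with its geodesic distance. -/
abbrev Torus : Type := WithLp 2 (UnitAddCircle × UnitAddCircle)

/-- The geometric realisation of the Vietoris-Rips complex `VR_<(X; r)` of a finite set `X`, in
barycentric coordinates. -/
def rips {M : Type} [MetricSpace M] (X : Finset M) (r : ℝ) : Set (X → ℝ) :=
  {w | w ∈ stdSimplex ℝ X ∧ ∀ x y : X, w x ≠ 0 → w y ≠ 0 → dist (x : M) y < r}

end Pool.Agent.H3.VR
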