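import Pool.Agent.H3.Cat2

set_option autoImplicit false

namespace Pool.Agent.H3.Zz

open Set MeasureTheory Pool.Agent.H3.St Pool.Agent.H3.Cat
open scoped RealInnerProductSpace

variable {E : Type} [NormedAddCommGroup E] [InnerProductSpace ℝ E]

theorem lamE [MeasurableSpace E] [BorelSpace E] (S : Set E) (hS : IsPreconnected S)
    (h0 : (0 : E) ∈ S) (M : ℕ) (p : ℕ → E) (hp : ∀ k < M, p k ∈ S) (L : ℝ)
    (h : ∀ F, LamN M F → ∃ g : ℕ → E, (∀ V ∈ F, ‖∑ k ∈ V, g k‖ ≤ 1) ∧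
      L ≤ ∑ k ∈ Finset.range M, ⟪g k, p k⟫) :
    ENNReal.ofReal L ≤ Measure.hausdorffMeasure 1 S := by
  refine steiner_lam (ι := Fin M) S hS 0 h0 (fun k => p k) (fun k => hp k k.2) L fun F hF => ?_
  have hL : LamN M {W | ∃ V ∈ F, W = V.map Fin.valEmbedding} := by
    refine ⟨?_, ?_, ?_⟩
    · rintro _ ⟨V, -, rfl⟩ k hk
      obtain ⟨i, -, rfl⟩ := Finset.mem_map.1 hk
      exact i.2
    · intro k hk
      exact ⟨{⟨k, hk⟩}, hF.1 _, by simp⟩
    · rintro _ ⟨V, hV, rfl⟩ _ ⟨W, hW, rfl⟩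
      simpa only [Finset.map_subset_map, Finset.disjoint_map] using hF.2 V hV W hW
  obtain ⟨g, h1, h2⟩ := h _ hL
  refine ⟨fun k x => ⟪g k, x⟫, fun V hV x z => ?_, ?_⟩
  · have := h1 _ ⟨V, hV, rfl⟩
    rw [Finset.sum_map] at this
    simp only [← inner_sub_right, ← sum_inner]
    refine (real_inner_le_norm _ _).trans ?_
    rw [dist_eq_norm]
    exact mul_le_of_le_one_left (norm_nonneg _) this
  · simp only [inner_zero_right, sub_zero]
    rwa [← Fin.sum_univ_eq_sum_range (fun k => ⟪g k, p k⟫)] at h2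

/-- Unit vectors, consecutive ones at sixty degrees. -/
def Ok (u : ℕ → E) : Prop := ∀ j, ⟪u j, u j⟫ = 1 ∧ ⟪u j, u (j + 1)⟫ = 1 / 2

noncomputable def cb (u : ℕ → E) (j : ℕ) (a b : ℝ) : E := a • u j + b • u (j + 1)

theorem ip {u : ℕ → E} (h : Ok u) (j : ℕ) (a b a' b' : ℝ) :
    ⟪cb u j a b, cb u j a' b'⟫ = a * a' + b * b' + (a * b' + b * a') / 2 := by
  have h1' := (real_inner_comm _ _).trans (h j).2
  simp only [cb, inner_add_left, inner_add_right, real_inner_smul_left, real_inner_smul_right,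
    (h j).1, (h j).2, (h (j + 1)).1, h1']
  ring

theorem cb_norm {u : ℕ → E} (h : Ok u) (j : ℕ) (a b : ℝ) (k : a * a + b * b + a * b ≤ 1) :
    ‖cb u j a b‖ ≤ 1 := by
  refine (abs_le_of_sq_le_sq' ?_ zero_le_one).2
  rw [← real_inner_self_eq_norm_sq, ip h]
  linarith

noncomputable def v (u : ℕ → E) (j : ℕ) : E := u j - u (j + 1)

theorem v_cb (u : ℕ → E) (j : ℕ) : v u j = cb u j 1 (-1) := by unfold v cb; module
theorem nrm {w : E} (h : ⟪w, w⟫ = 1) : ‖w‖ = 1 := by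
  rw [real_inner_self_eq_norm_sq] at h
  exact (pow_eq_one_iff_of_nonneg (norm_nonneg _) two_ne_zero).1 h
theorem v_sq {u : ℕ → E} (h : Ok u) (j : ℕ) : ⟪v u j, v u j⟫ = 1 := by rw [v_cb, ip h]; norm_num

/-- Arm lengths. -/
noncomputable def m : ℕ → ℝ
  | 0 => 1
  | n + 1 => m n ^ 3 / 10000

/-- Backbone lengths. -/
noncomputable def l : ℕ → ℝ
  | 0 => 2
  | n + 1 => m n ^ 2 / 8

theorem m_bd : ∀ n, 0 < m n ∧ m n ≤ 1
  | 0 => by simp [m]
  | n + 1 => by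
    obtain ⟨a, b⟩ := m_bd n
    have := pow_le_one₀ (n := 3) a.le b
    exact ⟨by unfold m; positivity, by unfold m; linarith⟩

theorem m_succ (n : ℕ) : m (n + 1) ≤ m n / 10000 := by
  obtain ⟨a, b⟩ := m_bd n
  have : m n ^ 3 ≤ m n := pow_le_of_le_one a.le b three_ne_zero
  show m n ^ 3 / 10000 ≤ _
  linarith

theorem m_anti : Antitone m := antitone_nat_of_succ_le fun n => by
  linarith [m_succ n, (m_bd n).1]

theorem l_pos : ∀ n, 0 < l n
  | 0 => two_pos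
  | n + 1 => by have := (m_bd n).1; unfold l; positivity

/-- Heights. -/
noncomputable def H (j : ℕ) : ℝ := ∑ k ∈ Finset.range j, l k

theorem H_succ (j : ℕ) : H (j + 1) = H j + l j := Finset.sum_range_succ _ _

theorem H_mono : StrictMono H := strictMono_nat_of_lt_succ fun n => by
  linarith [H_succ n, l_pos n]

theorem H_bd {i j : ℕ} (h : i ≤ j) : H (j + 1) - H (i + 1) ≤ (m i ^ 2 - m j ^ 2) / 4 := by
  induction j, h using Nat.le_induction with
  | base => simp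
  | succ j h ih =>
    have e : l (j + 1) = m j ^ 2 / 8 := rfl
    have := m_succ j
    have := (m_bd j).1
    have := (m_bd (j + 1)).1
    rw [H_succ (j + 1), e]
    nlinarith

theorem H_bd' {i j : ℕ} (h : i ≤ j) : H (j + 1) - H (i + 1) ≤ m i ^ 2 / 4 := by
  linarith [H_bd h, sq_nonneg (m j)]

/-- Backbone vertices. -/
noncomputable def s (u : ℕ → E) : ℕ → E
  | 0 => 0
  | j + 1 => s u j + l j • u j

/-- Leaves. -/
noncomputable def a (u : ℕ → E) (j : ℕ) : E := s u (j + 1) + m j • v u j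

theorem s_dist {u : ℕ → E} (hu : Ok u) {i j : ℕ} (h : i ≤ j) : ‖s u j - s u i‖ ≤ H j - H i := by
  induction j, h using Nat.le_induction with
  | base => simp
  | succ j h ih =>
    have e : s u (j + 1) - s u i = (s u j - s u i) + l j • u j := by
      show s u j + l j • u j - s u i = _
      abel
    rw [e, H_succ]
    refine (norm_add_le _ _).trans ?_
    rw [norm_smul, nrm (hu j).1, Real.norm_of_nonneg (l_pos _).le]
    linarith

/-- Length of the part of the tree before `s n`. -/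
noncomputable def T (n : ℕ) : ℝ := ∑ k ∈ Finset.range n, (l k + m k)

theorem T_succ (j : ℕ) : T (j + 1) = T j + (l j + m j) := Finset.sum_range_succ _ _

theorem T_bd {i j : ℕ} (h : i ≤ j) : T j + l j ≤ T i + l i + 2 * (m i - m j) := by
  induction j, h using Nat.le_induction with
  | base => simp
  | succ j h ih =>
    have e : l (j + 1) = m j ^ 2 / 8 := rfl
    have := m_succ j
    have := m_bd j
    rw [T_succ, e]
    nlinarith

theorem tele {u : ℕ → E} (hu : Ok u) (n : ℕ) :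
    ∑ k ∈ Finset.range n, ⟪v u k, a u k⟫ + ⟪u n, s u n⟫ = T n := by
  induction n with
  | zero => simp [s, T]
  | succ n ih =>
    have e1 : ⟪v u n, a u n⟫ = ⟪v u n, s u (n + 1)⟫ + m n := by
      unfold a; rw [inner_add_right, real_inner_smul_right, v_sq hu, mul_one]
    have e2 : ⟪v u n, s u (n + 1)⟫ + ⟪u (n + 1), s u (n + 1)⟫ = ⟪u n, s u n⟫ + l n := by
      rw [← inner_add_left, show v u n + u (n + 1) = u n by unfold v; abel]
      show ⟪u n, s u n + l n • u n⟫ = _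
      rw [inner_add_right, real_inner_smul_right, (hu n).1, mul_one]
    rw [Finset.sum_range_succ, e1, T_succ]
    linarith

theorem vsum (u : ℕ → E) {k n : ℕ} (h : k ≤ n) : ∑ i ∈ Finset.Ico k n, v u i + u n = u k := by
  induction n, h using Nat.le_induction with
  | base => simp
  | succ n h ih => rw [Finset.sum_Ico_succ_top h, ← ih]; unfold v; abel

noncomputable def P (u : ℕ → E) (N k : ℕ) : E := if k < N then a u k else s u (N + 1)

noncomputable def b (u : ℕ → E) (n k : ℕ) : E := if k < n then v u k else 0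

noncomputable def ind (V : Finset ℕ) (t : ℕ) (w : E) : E := if t ∈ V then w else 0

theorem shape (u : ℕ → E) {N n : ℕ} (hn : n ≤ N) (V : Finset ℕ)
    (h : ∀ j, j ≤ n → ¬ Cross N V j) :
    ((∀ k < n, k ∉ V) ∧ ∑ k ∈ V, b u n k = 0) ∨ ∃ k < n,
      ((∀ i ≤ N, i ∈ V ↔ i = k) ∧ ∑ i ∈ V, b u n i = v u k) ∨
      ((∀ i ≤ N, i ∈ V ↔ k ≤ i) ∧ ∑ i ∈ V, b u n i + u n = u k) := by
  rcases Cat.shape hn V h with ⟨h1, -⟩ | ⟨k, k1, ⟨e, -⟩ | ⟨e, -⟩⟩
  · exact Or.inl ⟨h1, Finset.sum_eq_zero fun k hk => if_neg fun hn => h1 k hn hk⟩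
  · refine Or.inr ⟨k, k1, Or.inl ⟨e, ?_⟩⟩
    rw [Finset.sum_eq_single_of_mem k ((e k (by omega)).2 rfl), b, if_pos k1]
    intro i hi hne
    exact if_neg fun hlt => hne ((e i (by omega)).1 hi)
  · refine Or.inr ⟨k, k1, Or.inr ⟨e, ?_⟩⟩
    rw [← vsum u k1.le]
    unfold b
    rw [← Finset.sum_filter]
    congr 2
    ext i
    simp only [Finset.mem_filter, Finset.mem_Ico]
    exact ⟨fun h => ⟨(e i (by omega)).1 h.1, h.2⟩, fun h => ⟨(e i (by omega)).2 h.1, h.2⟩⟩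

theorem gen {u : ℕ → E} (hu : Ok u) {N n : ℕ} (hn : n ≤ N) (F : Set (Finset ℕ)) (t1 t2 t3 : ℕ)
    (k1 : t1 ≤ N) (k2 : t2 ≤ N) (k3 : t3 ≤ N) (w1 w2 w3 : E)
    (L : ℝ) (hV : ∀ V ∈ F, ‖∑ k ∈ V, b u n k + ind V t1 w1 + ind V t2 w2 + ind V t3 w3‖ ≤ 1)
    (hL : L ≤ T n - ⟪u n, s u n⟫ + ⟪w1, P u N t1⟫ + ⟪w2, P u N t2⟫ + ⟪w3, P u N t3⟫) :
    ∃ g : ℕ → E, (∀ V ∈ F, ‖∑ k ∈ V, g k‖ ≤ 1) ∧
      L ≤ ∑ k ∈ Finset.range (N + 1), ⟪g k, P u N k⟫ := by
  refine ⟨fun k => b u n k + (if k = t1 then w1 else 0) + (if k = t2 then w2 else 0) +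
    (if k = t3 then w3 else 0), fun V h => ?_, ?_⟩
  · simpa only [Finset.sum_add_distrib, Finset.sum_ite_eq', ind] using hV V h
  · have e : ∀ (t : ℕ) (w : E) (k : ℕ), ⟪if k = t then w else 0, P u N k⟫ =
        if k = t then ⟪w, P u N k⟫ else 0 := fun t w k => by split_ifs <;> simp
    have e2 : ∑ k ∈ Finset.range (N + 1), ⟪b u n k, P u N k⟫ =
        ∑ k ∈ Finset.range n, ⟪v u k, a u k⟫ := by
      symm
      refine (Finset.sum_congr rfl fun k hk => ?_).trans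
        (Finset.sum_subset (Finset.range_mono (by omega : n ≤ N + 1)) fun k _ hk => ?_)
      · have := Finset.mem_range.1 hk
        rw [b, P, if_pos this, if_pos (by omega)]
      · rw [b, if_neg (fun h => hk (Finset.mem_range.2 h)), inner_zero_left]
    simp only [inner_add_left, Finset.sum_add_distrib, e, Finset.sum_ite_eq', Finset.mem_range, e2,
      Nat.lt_succ_of_le k1, Nat.lt_succ_of_le k2, Nat.lt_succ_of_le k3, if_true]
    linarith [tele hu n]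

theorem inner_ge {μ x : E} {r : ℝ} (h : ‖μ‖ ≤ 1) (hx : ‖x‖ ≤ r) : -r ≤ ⟪μ, x⟫ := by
  have h1 := abs_real_inner_le_norm μ x
  have h2 : ‖μ‖ * ‖x‖ ≤ ‖x‖ := mul_le_of_le_one_left (norm_nonneg _) h
  linarith [neg_abs_le ⟪μ, x⟫]

theorem wrong {u : ℕ → E} (hu : Ok u) {N : ℕ} {F : Set (Finset ℕ)} (hF : LamN (N + 1) F)
    (h : ∃ j, j ≤ N ∧ ∃ W ∈ F, Cross N W j) :
    ∃ g : ℕ → E, (∀ V ∈ F, ‖∑ k ∈ V, g k‖ ≤ 1) ∧
      T N + l N ≤ ∑ k ∈ Finset.range (N + 1), ⟪g k, P u N k⟫ := by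
  classical
  obtain ⟨j1, W, hW, ⟨x, x1, x2, x3⟩, ⟨y, y1, y2, y3⟩, i, i1, i2⟩ := Nat.find_spec h
  have jm := fun m => Nat.find_min h (m := m)
  obtain ⟨n, hn⟩ : ∃ n, Nat.find h = n + 1 := ⟨Nat.find h - 1, by omega⟩
  rw [hn] at j1 x1 y1 i1 jm
  have nc : ∀ V ∈ F, ∀ j, j ≤ n → ¬ Cross N V j := fun V hV j hj hc =>
    jm j (by omega) ⟨by omega, V, hV, hc⟩
  have nW : n ∈ W := by
    by_contra hc
    have : i ≠ n := fun h => hc (h ▸ i2)
    exact nc W hW n le_rfl ⟨⟨x, by omega, x2, x3⟩, ⟨n, le_rfl, by omega, hc⟩, i, by omega, i2⟩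
  have mb := m_bd (n + 1)
  have hP : ∀ t, n + 1 ≤ t → t ≤ N → ‖P u N t - s u (n + 2)‖ ≤ 2 * m (n + 1) := by
    intro t t1 t2
    unfold P
    split_ifs with h1
    · have e : a u t - s u (n + 2) = (s u (t + 1) - s u (n + 2)) + m t • v u t := by unfold a; abel
      rw [e]
      refine (norm_add_le _ _).trans ?_
      rw [norm_smul, nrm (v_sq hu t), Real.norm_of_nonneg (m_bd _).1.le]
      nlinarith [s_dist hu (show n + 2 ≤ t + 1 by omega), H_bd' t1, m_anti t1]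
    · nlinarith [s_dist hu (show n + 2 ≤ N + 1 by omega), H_bd' j1]
  obtain ⟨m0, m1⟩ := m_bd n
  obtain ⟨ε, hε⟩ : ∃ ε, ε = m n / 32 := ⟨_, rfl⟩
  have ε0 : 0 < ε := by linarith
  have ε1 : ε ≤ 1 / 32 := by linarith
  have ε2 : ε ^ 2 ≤ 1 / 1024 := by nlinarith
  have ε3 : 0 < ε ^ 2 := by positivity
  have n1 : ‖cb u n (1 - 2 * ε ^ 2 - ε) (-1 + 2 * ε ^ 2 - ε)‖ ≤ 1 := cb_norm hu _ _ _ (by nlinarith)
  have n2 : ‖cb u n (2 * ε ^ 2 + ε) (ε - 2 * ε ^ 2)‖ ≤ 1 := cb_norm hu _ _ _ (by nlinarith)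
  have n3 : ‖cb u n 0 1‖ ≤ 1 := cb_norm hu _ _ _ (by norm_num)
  have e3 : cb u n (1 - 2 * ε ^ 2 - ε) (-1 + 2 * ε ^ 2 - ε) + cb u n (2 * ε ^ 2 + ε) (ε - 2 * ε ^ 2) +
      cb u n 0 1 = u n := by unfold cb; module
  have e2 : cb u n (1 - 2 * ε ^ 2 - ε) (-1 + 2 * ε ^ 2 - ε) + cb u n (2 * ε ^ 2 + ε) (ε - 2 * ε ^ 2) =
      v u n := by unfold cb v; module
  refine gen (n := n) hu (by omega) F n x y (by omega) x2 y2
    (cb u n (1 - 2 * ε ^ 2 - ε) (-1 + 2 * ε ^ 2 - ε)) (cb u n (2 * ε ^ 2 + ε) (ε - 2 * ε ^ 2))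
    (cb u n 0 1) _ (fun V hV => ?_) ?_
  · rcases shape u (by omega : n ≤ N) V (nc V hV) with ⟨-, h2⟩ | ⟨k, k1, ⟨h1, h2⟩ | ⟨h1, h2⟩⟩
    · rw [h2]
      unfold ind
      by_cases m1 : n ∈ V <;> by_cases m2 : x ∈ V <;> by_cases m3 : y ∈ V <;>
        simp only [m1, m2, m3, if_true, if_false, zero_add, add_zero]
      · rw [e3, nrm (hu n).1]
      · rw [e2, nrm (v_sq hu n)]
      · exact (hF.cross hV hW m1 nW m3 y3 m2 x3).elim
      · exact n1
      · exact (hF.cross hV hW m2 x3 m3 y3 m1 nW).elim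
      · exact n2
      · exact n3
      · simp
    · unfold ind
      rw [h2, if_neg (by rw [h1 n (by omega)]; omega), if_neg (by rw [h1 x x2]; omega),
        if_neg (by rw [h1 y y2]; omega)]
      simp [nrm (v_sq hu k)]
    · unfold ind
      rw [if_pos (by rw [h1 n (by omega)]; omega), if_pos (by rw [h1 x x2]; omega),
        if_pos (by rw [h1 y y2]; omega), add_assoc, add_assoc, ← add_assoc (cb u n _ _), e3, h2,
        nrm (hu k).1]
  · have a1 := inner_ge n2 (hP x x1 x2)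
    have a2 := inner_ge n3 (hP y y1 y2)
    have b0 : P u N n = s u n + cb u n (l n + m n) (-m n) := by
      rw [P, if_pos (by omega)]
      show s u n + l n • u n + m n • v u n = _
      unfold v cb; module
    have b1 : s u (n + 2) = s u n + cb u n (l n) (l (n + 1)) := by
      show s u n + l n • u n + l (n + 1) • u (n + 1) = _
      unfold cb; module
    have b2 : ⟪u n, s u n⟫ = ⟪cb u n (1 - 2 * ε ^ 2 - ε) (-1 + 2 * ε ^ 2 - ε), s u n⟫ +
        ⟪cb u n (2 * ε ^ 2 + ε) (ε - 2 * ε ^ 2), s u n⟫ + ⟪cb u n 0 1, s u n⟫ := by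
      rw [← e3, inner_add_left, inner_add_left]
    rw [inner_sub_right, b1, inner_add_right, ip hu] at a1 a2
    rw [b0, inner_add_right, ip hu, b2]
    have c1 := T_bd j1
    have c2 := (m_bd N).1
    have c3 : m (n + 1) = m n ^ 3 / 10000 := rfl
    have c4 : l (n + 1) = m n ^ 2 / 8 := rfl
    have c5 : m n = 32 * ε := by linarith
    rw [T_succ, c3, c4] at c1
    rw [c3, c4] at a1 a2
    rw [c5] at c1 a1 a2 ⊢
    have c6 : ε ^ 4 ≤ ε ^ 3 / 32 := by nlinarith [pow_pos ε0 3]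
    nlinarith [pow_pos ε0 3]

theorem core [MeasurableSpace E] [BorelSpace E] {u : ℕ → E} (hu : Ok u) (S : Set E)
    (hS : IsPreconnected S) (N : ℕ) (h0 : (0 : E) ∈ S) (hp : ∀ k, P u N k ∈ S) :
    ENNReal.ofReal (T N + l N) ≤ Measure.hausdorffMeasure 1 S := by
  refine lamE S hS h0 (N + 1) (P u N) (fun k _ => hp k) _ fun F hF => ?_
  by_cases h : ∃ j, j ≤ N ∧ ∃ W ∈ F, Cross N W j
  · exact wrong hu hF h
  refine gen hu le_rfl F N N N le_rfl le_rfl le_rfl (u N) 0 0 _ (fun V hV => ?_) ?_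
  · simp only [ind, ite_self, add_zero]
    rcases shape u le_rfl V (fun j hj hc => h ⟨j, hj, V, hV, hc⟩) with
      ⟨-, h2⟩ | ⟨k, k1, ⟨h1, h2⟩ | ⟨h1, h2⟩⟩
    · rw [h2]; split_ifs <;> simp [nrm (hu N).1]
    · rw [h2, if_neg (by rw [h1 N le_rfl]; omega), add_zero, nrm (v_sq hu k)]
    · rw [if_pos (by rw [h1 N le_rfl]; omega), h2, nrm (hu k).1]
  · rw [P, if_neg (lt_irrefl _)]
    show _ ≤ _ + ⟪u N, s u N + l N • u N⟫ + _ + _
    rw [inner_add_right, real_inner_smul_right, (hu N).1, inner_zero_left]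
    linarith

end Pool.Agent.H3.Zz
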