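import Pool.Agent.H3.Zz1

set_option autoImplicit false

namespace Pool.Agent.H3.Zz

open Set MeasureTheory
open scoped RealInnerProductSpace

variable {E : Type} [NormedAddCommGroup E] [InnerProductSpace ℝ E]

/-- Backbone segment. -/
def B (u : ℕ → E) (k : ℕ) : Set E := segment ℝ (s u k) (s u (k + 1))
/-- Arm segment. -/
def C (u : ℕ → E) (k : ℕ) : Set E := segment ℝ (s u (k + 1)) (a u k)

/-- The zigzag tree. -/
def Tr (u : ℕ → E) : ℕ → Set E
  | 0 => B u 0
  | n + 1 => Tr u n ∪ C u n ∪ B u (n + 1)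

theorem seg_cpt (x y : E) : IsCompact (segment ℝ x y) := by
  rw [segment_eq_image_lineMap]
  exact isCompact_Icc.image AffineMap.lineMap_continuous

theorem mem_Tr (u : ℕ → E) (N : ℕ) (z : E) :
    z ∈ Tr u N ↔ (∃ k ≤ N, z ∈ B u k) ∨ ∃ k < N, z ∈ C u k := by
  induction N with
  | zero => simp [Tr]
  | succ n ih =>
    simp only [Tr, mem_union, ih]
    constructor
    · rintro (((⟨k, h, h'⟩ | ⟨k, h, h'⟩) | h) | h)
      · exact Or.inl ⟨k, by omega, h'⟩
      · exact Or.inr ⟨k, by omega, h'⟩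
      · exact Or.inr ⟨n, by omega, h⟩
      · exact Or.inl ⟨n + 1, le_rfl, h⟩
    · rintro (⟨k, h, h'⟩ | ⟨k, h, h'⟩)
      · rcases h.eq_or_lt with rfl | h
        · exact Or.inr h'
        · exact Or.inl (Or.inl (Or.inl ⟨k, by omega, h'⟩))
      · rcases (Nat.le_of_lt_succ h).eq_or_lt with rfl | h
        · exact Or.inl (Or.inr h')
        · exact Or.inl (Or.inl (Or.inr ⟨k, h, h'⟩))

theorem s_mem (u : ℕ → E) (N : ℕ) {k : ℕ} (h : k ≤ N) : s u (k + 1) ∈ Tr u N :=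
  (mem_Tr u N _).2 (Or.inl ⟨k, h, right_mem_segment _ _ _⟩)

theorem Tr_cpt (u : ℕ → E) : ∀ N, IsCompact (Tr u N)
  | 0 => seg_cpt _ _
  | n + 1 => ((Tr_cpt u n).union (seg_cpt _ _)).union (seg_cpt _ _)

theorem Tr_conn (u : ℕ → E) : ∀ N, IsConnected (Tr u N)
  | 0 => (convex_segment _ _).isConnected ⟨_, left_mem_segment _ _ _⟩
  | n + 1 => IsConnected.union ⟨s u (n + 1), Or.inl (s_mem u n le_rfl), left_mem_segment _ _ _⟩
      (IsConnected.union ⟨s u (n + 1), s_mem u n le_rfl, left_mem_segment _ _ _⟩ (Tr_conn u n)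
        ((convex_segment _ _).isConnected ⟨_, left_mem_segment _ _ _⟩))
      ((convex_segment _ _).isConnected ⟨_, left_mem_segment _ _ _⟩)

theorem T_nn (n : ℕ) : 0 ≤ T n :=
  Finset.sum_nonneg fun k _ => add_nonneg (l_pos k).le (m_bd k).1.le

theorem Tr_len [MeasurableSpace E] [BorelSpace E] {u : ℕ → E} (hu : Ok u) (N : ℕ) :
    Measure.hausdorffMeasure 1 (Tr u N) ≤ ENNReal.ofReal (T N + l N) := by
  have hB : ∀ k, Measure.hausdorffMeasure 1 (B u k) = ENNReal.ofReal (l k) := fun k => by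
    rw [B, hausdorffMeasure_segment, edist_dist]
    show ENNReal.ofReal (dist (s u k) (s u k + l k • u k)) = _
    rw [dist_self_add_right, norm_smul, nrm (hu k).1, mul_one, Real.norm_of_nonneg (l_pos k).le]
  have hC : ∀ k, Measure.hausdorffMeasure 1 (C u k) = ENNReal.ofReal (m k) := fun k => by
    rw [C, hausdorffMeasure_segment, edist_dist, a, dist_self_add_right, norm_smul, nrm (v_sq hu k),
      mul_one, Real.norm_of_nonneg (m_bd k).1.le]
  induction N with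
  | zero => simp [Tr, hB, T]
  | succ n ih =>
    refine (measure_union_le _ _).trans ((add_le_add_left (measure_union_le _ _) _).trans ?_)
    have := T_nn n
    have := l_pos n
    have := m_bd n
    rw [hB, hC, T_succ, ← add_assoc, ENNReal.ofReal_add (by linarith) (l_pos _).le,
      ENNReal.ofReal_add (by linarith) (m_bd _).1.le]
    gcongr

theorem seg_inter {p x y : E} (h : ⟪x - p, y - p⟫ ≤ 0) : segment ℝ p x ∩ segment ℝ p y = {p} := by
  refine Subset.antisymm ?_ (singleton_subset_iff.2 ⟨left_mem_segment _ _ _, left_mem_segment _ _ _⟩)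
  rintro z ⟨h1, h2⟩
  rw [segment_eq_image'] at h1 h2
  obtain ⟨t, ⟨t0, -⟩, rfl⟩ := h1
  obtain ⟨t', ⟨t0', -⟩, e⟩ := h2
  have e' : t' • (y - p) = t • (x - p) := add_left_cancel e
  have : ⟪t • (x - p), t • (x - p)⟫ ≤ 0 := by
    nth_rewrite 2 [← e']
    rw [real_inner_smul_left, real_inner_smul_right]
    exact mul_nonpos_of_nonneg_of_nonpos t0 (mul_nonpos_of_nonneg_of_nonpos t0' h)
  simp [real_inner_self_nonpos.1 this]

variable {u : ℕ → E} {n : E}

theorem ht (hn : ∀ j, ⟪n, u j⟫ = 1) (j : ℕ) : ⟪n, s u j⟫ = H j := by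
  induction j with
  | zero => simp [s, H]
  | succ j ih =>
    show ⟪n, s u j + l j • u j⟫ = _
    rw [inner_add_right, real_inner_smul_right, hn, ih, H_succ, mul_one]

theorem ht_a (hn : ∀ j, ⟪n, u j⟫ = 1) (j : ℕ) : ⟪n, a u j⟫ = H (j + 1) := by
  rw [a, v, inner_add_right, real_inner_smul_right, inner_sub_right, hn, hn, ht hn]; ring

theorem seg_ht {x y z : E} (h : z ∈ segment ℝ x y) (k : ⟪n, x⟫ ≤ ⟪n, y⟫) :
    ⟪n, x⟫ ≤ ⟪n, z⟫ ∧ ⟪n, z⟫ ≤ ⟪n, y⟫ := by
  obtain ⟨α, β, h1, h2, h3, rfl⟩ := h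
  rw [inner_add_right, real_inner_smul_right, real_inner_smul_right]
  obtain rfl : α = 1 - β := by linarith
  constructor <;> nlinarith

theorem branch (hu : Ok u) (hn : ∀ j, ⟪n, u j⟫ = 1) {N j : ℕ} (hj : j < N) :
    ∃ U ∈ nhds (s u (j + 1)), ∃ q : Fin 3 → E, (∀ i, q i ≠ s u (j + 1)) ∧
      (∀ i i', i ≠ i' → segment ℝ (s u (j + 1)) (q i) ∩ segment ℝ (s u (j + 1)) (q i') = {s u (j + 1)}) ∧
      Tr u N ∩ U = ⋃ i, segment ℝ (s u (j + 1)) (q i) := by
  set O : Set E := (⋃ k ∈ {k | k ≤ N ∧ k ≠ j ∧ k ≠ j + 1}, B u k) ∪ ⋃ k ∈ {k | k < N ∧ k ≠ j}, C u k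
    with hO
  have c1 : IsClosed O := by
    refine IsClosed.union (Finite.isClosed_biUnion ?_ fun k _ => (seg_cpt _ _).isClosed)
      (Finite.isClosed_biUnion ?_ fun k _ => (seg_cpt _ _).isClosed)
    · exact (finite_le_nat N).subset fun k h => h.1
    · exact (finite_lt_nat N).subset fun k h => h.1
  have c2 : s u (j + 1) ∉ O := by
    simp only [hO, mem_union, mem_iUnion, mem_ofPred_eq]
    rintro (⟨k, ⟨-, k1, k2⟩, h⟩ | ⟨k, ⟨-, k1⟩, h⟩)
    · have := seg_ht (n := n) h (by rw [ht hn, ht hn]; exact H_mono.monotone (by omega))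
      simp only [ht hn, H_mono.le_iff_le] at this
      omega
    · have := seg_ht (n := n) h (by rw [ht hn, ht_a hn])
      simp only [ht hn, ht_a hn, H_mono.le_iff_le] at this
      omega
  have d0 : s u j - s u (j + 1) = cb u j (-l j) 0 := by
    show s u j - (s u j + l j • u j) = _
    unfold cb; module
  have d1 : s u (j + 2) - s u (j + 1) = cb u j 0 (l (j + 1)) := by
    show s u (j + 1) + l (j + 1) • u (j + 1) - _ = _
    unfold cb; module
  have d2 : a u j - s u (j + 1) = cb u j (m j) (-m j) := by unfold a v cb; module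
  have l0 := l_pos j
  have l1 := l_pos (j + 1)
  have m0 := (m_bd j).1
  refine ⟨Oᶜ ∪ ⋃ i, segment ℝ (s u (j + 1)) (![s u j, s u (j + 2), a u j] i),
    Filter.mem_of_superset (c1.isOpen_compl.mem_nhds c2) subset_union_left,
    ![s u j, s u (j + 2), a u j], fun i h => ?_, fun i i' h => seg_inter ?_, ?_⟩
  · have h' : ⟪![s u j, s u (j + 2), a u j] i - s u (j + 1),
      ![s u j, s u (j + 2), a u j] i - s u (j + 1)⟫ = 0 := by rw [h]; simp
    fin_cases i <;> simp only [Fin.zero_eta, Fin.mk_one, Fin.reduceFinMk, Matrix.cons_val, d0, d1, d2,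
      ip hu] at h' <;> nlinarith
  · fin_cases i <;> fin_cases i' <;> simp only [Fin.zero_eta, Fin.mk_one, Fin.reduceFinMk,
      Matrix.cons_val, d0, d1, d2, ip hu, ne_eq, not_true] at h ⊢ <;>
      nlinarith [mul_pos l0 l1, mul_pos l0 m0, mul_pos l1 m0]
  · ext z
    simp only [mem_inter_iff, mem_union, mem_compl_iff, hO, mem_iUnion, mem_ofPred_eq, mem_Tr,
      Fin.exists_fin_succ, Matrix.cons_val_zero, Matrix.cons_val_succ, IsEmpty.exists_iff, or_false]
    constructor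
    · rintro ⟨⟨k, k1, h⟩ | ⟨k, k1, h⟩, h' | h'⟩
      · by_cases e : k = j
        · subst e; exact Or.inl (by rwa [segment_symm])
        by_cases e' : k = j + 1
        · subst e'; exact Or.inr (Or.inl h)
        exact (h' (Or.inl ⟨k, ⟨k1, e, e'⟩, h⟩)).elim
      · exact h'
      · by_cases e : k = j
        · subst e; exact Or.inr (Or.inr h)
        exact (h' (Or.inr ⟨k, ⟨k1, e⟩, h⟩)).elim
      · exact h'
    · intro h
      refine ⟨?_, Or.inr h⟩
      rcases h with h | h | h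
      · exact Or.inl ⟨j, hj.le, by rwa [segment_symm] at h⟩
      · exact Or.inl ⟨j + 1, hj, h⟩
      · exact Or.inr ⟨j, hj, h⟩

theorem in_ball {N : ℕ} {z : E} : z ∈ Metric.ball (s u (N + 1) - (3 / 4 : ℝ) • n) ‖(3 / 4 : ℝ) • n‖ ↔
    ‖z - s u (N + 1)‖ ^ 2 + 3 / 2 * ⟪n, z - s u (N + 1)⟫ < 0 := by
  have e : z - (s u (N + 1) - (3 / 4 : ℝ) • n) = (z - s u (N + 1)) + (3 / 4 : ℝ) • n := by abel
  rw [mem_ball_iff_norm, e, ← sq_lt_sq₀ (norm_nonneg _) (norm_nonneg _), norm_add_sq_real,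
    real_inner_smul_right, real_inner_comm]
  constructor <;> intro h <;> linarith

theorem s_in (hu : Ok u) (hn : ∀ j, ⟪n, u j⟫ = 1) {N j : ℕ} (hj : j < N) :
    s u (j + 1) ∈ Metric.ball (s u (N + 1) - (3 / 4 : ℝ) • n) ‖(3 / 4 : ℝ) • n‖ := by
  rw [in_ball, inner_sub_right, ht hn, ht hn, norm_sub_rev]
  have h1 := s_dist hu (show j + 1 ≤ N + 1 by omega)
  have h2 := H_bd' hj.le
  have h3 := H_mono (show j + 1 < N + 1 by omega)
  have h4 := m_bd j
  have h5 := norm_nonneg (s u (N + 1) - s u (j + 1))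
  have h6 : ‖s u (N + 1) - s u (j + 1)‖ ≤ 1 := by nlinarith
  nlinarith

theorem P_out (hu : Ok u) (hn : ∀ j, ⟪n, u j⟫ = 1) (N k : ℕ) :
    P u N k ∉ Metric.ball (s u (N + 1) - (3 / 4 : ℝ) • n) ‖(3 / 4 : ℝ) • n‖ := by
  rw [in_ball, P]
  split_ifs with h
  swap
  · simp
  rw [inner_sub_right, ht hn, ht_a hn, not_lt]
  have h1 := s_dist hu (show k + 1 ≤ N + 1 by omega)
  have h2 := H_bd' h.le
  have h4 := m_bd k
  have e : m k • v u k = (a u k - s u (N + 1)) + (s u (N + 1) - s u (k + 1)) := by unfold a; abel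
  have h5 := norm_add_le (a u k - s u (N + 1)) (s u (N + 1) - s u (k + 1))
  rw [← e, norm_smul, nrm (v_sq hu k), Real.norm_of_nonneg h4.1.le] at h5
  have h6 : 3 / 4 * m k ≤ ‖a u k - s u (N + 1)‖ := by nlinarith
  nlinarith

theorem zero_out (hn : ∀ j, ⟪n, u j⟫ = 1) (hn' : ⟪n, n⟫ = 4 / 3) (N : ℕ) :
    (0 : E) ∉ Metric.ball (s u (N + 1) - (3 / 4 : ℝ) • n) ‖(3 / 4 : ℝ) • n‖ := by
  rw [in_ball, zero_sub, norm_neg, inner_neg_right, not_lt, ht hn]
  have h1 := real_inner_mul_inner_self_le n (s u (N + 1))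
  rw [ht hn, hn', real_inner_self_eq_norm_sq] at h1
  have h2 : H 1 ≤ H (N + 1) := H_mono.monotone (by omega)
  have h3 : H 1 = 2 := by simp [H, l]
  nlinarith

end Pool.Agent.H3.Zz
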